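import Mathlib

/-!
# Short cuts for the instance search

Each of these instances is the one that Lean finds by itself. They are made local instances in
the modules of this folder and nowhere else. They are all propositions.
-/

set_option autoImplicit false

open Polynomial

namespace Pool.Agent.Helper23.MB.Inst

theorem rCharZero : CharZero ℝ := inferInstance
theorem rALM : AddLeftMono ℝ := inferInstance
theorem rARM : AddRightMono ℝ := inferInstance
theorem rALSM : AddLeftStrictMono ℝ := inferInstance
theorem rARSM : AddRightStrictMono ℝ := inferInstance
theorem rARRLE : AddRightReflectLE ℝ := inferInstance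
theorem rALRLE : AddLeftReflectLE ℝ := inferInstance
theorem rARRLT : AddRightReflectLT ℝ := inferInstance
theorem rALRLT : AddLeftReflectLT ℝ := inferInstance
theorem rPMRLT : PosMulReflectLT ℝ := inferInstance
theorem rMPRLT : MulPosReflectLT ℝ := inferInstance
theorem rPMM : PosMulMono ℝ := inferInstance
theorem rMPM : MulPosMono ℝ := inferInstance
theorem rPMSM : PosMulStrictMono ℝ := inferInstance
theorem rMPSM : MulPosStrictMono ℝ := inferInstance
theorem rEAOL : ExistsAddOfLE ℝ := inferInstance
theorem rIOR : IsOrderedRing ℝ := inferInstance
theorem rISOR : IsStrictOrderedRing ℝ := inferInstance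
theorem rNZD : NoZeroDivisors ℝ := inferInstance

theorem zCharZero : CharZero ℤ := inferInstance
theorem zALM : AddLeftMono ℤ := inferInstance
theorem zARM : AddRightMono ℤ := inferInstance
theorem zIOR : IsOrderedRing ℤ := inferInstance
theorem zISOR : IsStrictOrderedRing ℤ := inferInstance
theorem zNZD : NoZeroDivisors ℤ := inferInstance
theorem qCharZero : CharZero ℚ := inferInstance

section Field

variable (k L : Type*) [Field k] [Field L] [Algebra k L]

theorem free : Module.Free k L := Module.Free.of_divisionRing k L
theorem faith : FaithfulSMul k L := inferInstance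
theorem torsionFree : Module.IsTorsionFree k L := inferInstance
theorem rfFaith : FaithfulSMul L[X] (RatFunc L) := inferInstance
theorem nzd : NoZeroDivisors L := inferInstance
theorem red : IsReduced L := inferInstance
theorem ntr : Nontrivial L := inferInstance

end Field

section Hom

variable (R S : Type*) [NonAssocSemiring R] [NonAssocSemiring S]

theorem hAdd : AddHomClass (R →+* S) R S := inferInstance
theorem hAddM : AddMonoidHomClass (R →+* S) R S := inferInstance
theorem hMul : MulHomClass (R →+* S) R S := inferInstance
theorem hMon : MonoidHomClass (R →+* S) R S := inferInstance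
theorem hZero : ZeroHomClass (R →+* S) R S := inferInstance
theorem hOne : OneHomClass (R →+* S) R S := inferInstance
theorem hMZ : MonoidWithZeroHomClass (R →+* S) R S := inferInstance
theorem hRing : RingHomClass (R →+* S) R S := inferInstance

end Hom

section AlgHom

variable (k R S : Type*) [CommSemiring k] [Semiring R] [Semiring S] [Algebra k R] [Algebra k S]

theorem aAdd : AddHomClass (R →ₐ[k] S) R S := inferInstance
theorem aAddM : AddMonoidHomClass (R →ₐ[k] S) R S := inferInstance
theorem aMul : MulHomClass (R →ₐ[k] S) R S := inferInstance
theorem aMon : MonoidHomClass (R →ₐ[k] S) R S := inferInstance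
theorem aZero : ZeroHomClass (R →ₐ[k] S) R S := inferInstance
theorem aOne : OneHomClass (R →ₐ[k] S) R S := inferInstance
theorem aMZ : MonoidWithZeroHomClass (R →ₐ[k] S) R S := inferInstance
theorem aRing : RingHomClass (R →ₐ[k] S) R S := inferInstance

end AlgHom

end Pool.Agent.Helper23.MB.Inst
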