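import Pool.Agent.Helper23.MB.Inst

/-!
Parts of Helper36.S5.Lead, Helper36.S5.LemmaR, Helper36.S5.LemmaR2, Helper36.S5.Rigid, Helper36.S5.General, Helper36.S5.Mob
-/

attribute [-simp] Valuation.IsUniformizer.val
attribute [local instance 5000]
  Pool.Agent.Helper23.MB.Inst.rCharZero Pool.Agent.Helper23.MB.Inst.rALM
  Pool.Agent.Helper23.MB.Inst.rARM Pool.Agent.Helper23.MB.Inst.rALSM
  Pool.Agent.Helper23.MB.Inst.rARSM Pool.Agent.Helper23.MB.Inst.rARRLE
  Pool.Agent.Helper23.MB.Inst.rALRLE Pool.Agent.Helper23.MB.Inst.rARRLT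
  Pool.Agent.Helper23.MB.Inst.rALRLT Pool.Agent.Helper23.MB.Inst.rPMRLT
  Pool.Agent.Helper23.MB.Inst.rMPRLT Pool.Agent.Helper23.MB.Inst.rPMM
  Pool.Agent.Helper23.MB.Inst.rMPM Pool.Agent.Helper23.MB.Inst.rPMSM
  Pool.Agent.Helper23.MB.Inst.rMPSM Pool.Agent.Helper23.MB.Inst.rEAOL
  Pool.Agent.Helper23.MB.Inst.rIOR Pool.Agent.Helper23.MB.Inst.rISOR
  Pool.Agent.Helper23.MB.Inst.rNZD Pool.Agent.Helper23.MB.Inst.zCharZero
  Pool.Agent.Helper23.MB.Inst.zALM Pool.Agent.Helper23.MB.Inst.zARM
  Pool.Agent.Helper23.MB.Inst.zIOR Pool.Agent.Helper23.MB.Inst.zISOR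
  Pool.Agent.Helper23.MB.Inst.zNZD Pool.Agent.Helper23.MB.Inst.qCharZero
  Pool.Agent.Helper23.MB.Inst.free Pool.Agent.Helper23.MB.Inst.faith
  Pool.Agent.Helper23.MB.Inst.torsionFree Pool.Agent.Helper23.MB.Inst.rfFaith
  Pool.Agent.Helper23.MB.Inst.hAdd Pool.Agent.Helper23.MB.Inst.hAddM
  Pool.Agent.Helper23.MB.Inst.hMul Pool.Agent.Helper23.MB.Inst.hMon
  Pool.Agent.Helper23.MB.Inst.hZero Pool.Agent.Helper23.MB.Inst.hOne
  Pool.Agent.Helper23.MB.Inst.hMZ Pool.Agent.Helper23.MB.Inst.hRing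
  Pool.Agent.Helper23.MB.Inst.aAdd Pool.Agent.Helper23.MB.Inst.aAddM
  Pool.Agent.Helper23.MB.Inst.aMul Pool.Agent.Helper23.MB.Inst.aMon
  Pool.Agent.Helper23.MB.Inst.aZero Pool.Agent.Helper23.MB.Inst.aOne
  Pool.Agent.Helper23.MB.Inst.aMZ Pool.Agent.Helper23.MB.Inst.aRing

section

set_option autoImplicit false

open Finset Polynomial

namespace Pool.Agent.Helper36.S5

variable {R : Type*} [CommRing R]

/-- `P` has degree at most `m` and its coefficient at `m` is `c` -/
def Lead (P : R[X]) (m : ℕ) (c : R) : Prop := P.natDegree ≤ m ∧ P.coeff m = c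

namespace Lead

lemma mul {P Q : R[X]} {m n : ℕ} {c e : R} (hP : Lead P m c) (hQ : Lead Q n e) :
    Lead (P * Q) (m + n) (c * e) :=
  ⟨natDegree_mul_le_of_le hP.1 hQ.1, by
    rw [coeff_mul_add_eq_of_natDegree_le hP.1 hQ.1, hP.2, hQ.2]⟩

lemma pow {P : R[X]} {m : ℕ} {c : R} (hP : Lead P m c) (k : ℕ) :
    Lead (P ^ k) (k * m) (c ^ k) := by
  induction k with
  | zero => simp [Lead]
  | succ k ih =>
    have h := ih.mul hP
    rw [← pow_succ, ← pow_succ] at h
    have e : k * m + m = (k + 1) * m := by ring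
    rwa [e] at h

lemma add {P Q : R[X]} {m : ℕ} {c e : R} (hP : Lead P m c) (hQ : Lead Q m e) :
    Lead (P + Q) m (c + e) :=
  ⟨natDegree_add_le_of_degree_le hP.1 hQ.1, by rw [coeff_add, hP.2, hQ.2]⟩

lemma neg {P : R[X]} {m : ℕ} {c : R} (hP : Lead P m c) : Lead (-P) m (-c) :=
  ⟨by rw [natDegree_neg]; exact hP.1, by rw [coeff_neg, hP.2]⟩

lemma sub {P Q : R[X]} {m : ℕ} {c e : R} (hP : Lead P m c) (hQ : Lead Q m e) :
    Lead (P - Q) m (c - e) := by
  rw [sub_eq_add_neg, sub_eq_add_neg]; exact hP.add hQ.neg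

lemma sum {ι : Type*} (s : Finset ι) {P : ι → R[X]} {m : ℕ} {c : ι → R}
    (h : ∀ i ∈ s, Lead (P i) m (c i)) : Lead (∑ i ∈ s, P i) m (∑ i ∈ s, c i) := by
  classical
  induction s using Finset.induction_on with
  | empty => simp [Lead]
  | insert a s ha ih =>
    rw [sum_insert ha, sum_insert ha]
    exact (h a (mem_insert_self a s)).add (ih fun i hi => h i (mem_insert_of_mem hi))

lemma C_mul {P : R[X]} {m : ℕ} {c : R} (hP : Lead P m c) (a : R) :
    Lead (C a * P) m (a * c) := by
  have h : Lead (C a) 0 a := ⟨by simp, by simp⟩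
  have := h.mul hP
  rwa [zero_add] at this

lemma C' (a : R) : Lead (C a) 0 a := ⟨by simp, by simp⟩

lemma X' : Lead (X : R[X]) 1 1 := ⟨natDegree_X_le, by simp⟩

lemma lt {P : R[X]} {m n : ℕ} {c : R} (hP : Lead P m c) (h : m < n) : Lead P n 0 :=
  ⟨hP.1.trans h.le, coeff_eq_zero_of_natDegree_lt (hP.1.trans_lt h)⟩

lemma cast {P : R[X]} {m n : ℕ} {c e : R} (hP : Lead P m c) (h : m = n) (h' : c = e) :
    Lead P n e := by subst h; subst h'; exact hP

lemma of_natDegree (P : R[X]) : Lead P P.natDegree P.leadingCoeff := ⟨le_rfl, rfl⟩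

lemma of_le {P : R[X]} {m : ℕ} (h : P.natDegree ≤ m) : Lead P m (P.coeff m) := ⟨h, rfl⟩

/-- `X · P'` -/
lemma X_mul_derivative {P : R[X]} {m : ℕ} {c : R} (hP : Lead P m c) :
    Lead (X * derivative P) m (m * c) := by
  constructor
  · rcases Nat.eq_zero_or_pos P.natDegree with h | h
    · rw [derivative_of_natDegree_zero h]; simp
    · refine (natDegree_mul_le_of_le (m := 1) (n := P.natDegree - 1) natDegree_X_le
        (natDegree_derivative_le P)).trans ?_
      have := hP.1
      omega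
  · cases m with
    | zero => simp
    | succ m =>
      rw [coeff_X_mul, coeff_derivative, hP.2]
      push_cast; ring

lemma natDegree_eq {P : R[X]} {m : ℕ} {c : R} (hP : Lead P m c) (hc : c ≠ 0) :
    P.natDegree = m :=
  le_antisymm hP.1 (le_natDegree_of_ne_zero (by rw [hP.2]; exact hc))

lemma ne_zero {P : R[X]} {m : ℕ} {c : R} (hP : Lead P m c) (hc : c ≠ 0) : P ≠ 0 := by
  rintro rfl
  apply hc
  rw [← hP.2, coeff_zero]

lemma unique {P : R[X]} {m : ℕ} {c e : R} (hP : Lead P m c) (hP' : Lead P m e) : c = e := by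
  rw [← hP.2, ← hP'.2]

end Lead

/-- homogenised substitution `∑_{i ≤ n} q_i A^i B^(n-i)` -/
noncomputable def hsub (A B : R[X]) (n : ℕ) (q : R[X]) : R[X] :=
  ∑ i ∈ range (n + 1), C (q.coeff i) * (A ^ i * B ^ (n - i))

lemma hsub_eval (A B : R[X]) (n : ℕ) (q : R[X]) (hq : q.natDegree ≤ n) (x y : R)
    (h : y * B.eval x = A.eval x) :
    (hsub A B n q).eval x = (B.eval x) ^ n * q.eval y := by
  rw [hsub, eval_finsetSum, eval_eq_sum_range' (lt_of_le_of_lt hq (Nat.lt_succ_self n)) y,
    mul_sum]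
  refine sum_congr rfl fun i hi => ?_
  have hi' : i ≤ n := Nat.lt_succ_iff.mp (mem_range.mp hi)
  simp only [eval_mul, eval_C, eval_pow]
  rw [← h, mul_pow]
  have : (B.eval x) ^ n = (B.eval x) ^ i * (B.eval x) ^ (n - i) := by
    rw [← pow_add]; congr 1; omega
  rw [this]; ring

/-- `hsub A B n q ≡ q_n A^n mod B` -/
lemma hsub_mod (A B : R[X]) (n : ℕ) (q : R[X]) :
    ∃ S : R[X], hsub A B n q = C (q.coeff n) * A ^ n + B * S := by
  refine ⟨∑ i ∈ range n, C (q.coeff i) * (A ^ i * B ^ (n - i - 1)), ?_⟩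
  rw [hsub, sum_range_succ, add_comm, Nat.sub_self, pow_zero, mul_one, mul_sum]
  refine congrArg₂ (· + ·) rfl ?_
  refine sum_congr rfl fun i hi => ?_
  have hi' : i < n := mem_range.mp hi
  have : B ^ (n - i) = B * B ^ (n - i - 1) := by
    rw [← pow_succ']; congr 1; omega
  rw [this]; ring

lemma hsub_eval_of_root (A B : R[X]) (n : ℕ) (q : R[X]) (x : R) (hx : B.eval x = 0) :
    (hsub A B n q).eval x = q.coeff n * (A.eval x) ^ n := by
  obtain ⟨S, hS⟩ := hsub_mod A B n q
  rw [hS]; simp [hx]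

lemma hsub_C (A B : R[X]) (q : R[X]) (hq : q.natDegree = 0) : hsub A B 0 q = q := by
  rw [hsub]
  simp only [zero_add, range_one, sum_singleton, pow_zero, Nat.sub_zero, mul_one]
  exact (eq_C_of_natDegree_eq_zero hq).symm

lemma lead_hsub (A B : R[X]) {dA dB : ℕ} {α β : R} (hA : Lead A dA α) (hB : Lead B dB β)
    (hd : dB < dA) (q : R[X]) {a n : ℕ} {u : R} (hq : Lead q a u) (han : a ≤ n) :
    Lead (hsub A B n q) (a * dA + (n - a) * dB) (u * (α ^ a * β ^ (n - a))) := by
  have key : ∀ i ∈ range (n + 1), Lead (C (q.coeff i) * (A ^ i * B ^ (n - i)))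
      (a * dA + (n - a) * dB) (if i = a then u * (α ^ a * β ^ (n - a)) else 0) := by
    intro i hi
    have hi' : i ≤ n := Nat.lt_succ_iff.mp (mem_range.mp hi)
    have h1 : Lead (C (q.coeff i) * (A ^ i * B ^ (n - i))) (i * dA + (n - i) * dB)
        (q.coeff i * (α ^ i * β ^ (n - i))) := ((hA.pow i).mul (hB.pow (n - i))).C_mul _
    rcases lt_trichotomy i a with h | h | h
    · rw [if_neg h.ne]
      apply h1.lt
      obtain ⟨s, rfl⟩ : ∃ s, dA = dB + 1 + s := ⟨dA - dB - 1, by omega⟩
      have e1 : i * (dB + 1 + s) + (n - i) * dB = n * dB + i * (1 + s) := by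
        have : n = i + (n - i) := by omega
        conv_rhs => rw [this]
        ring
      have e2 : a * (dB + 1 + s) + (n - a) * dB = n * dB + a * (1 + s) := by
        have : n = a + (n - a) := by omega
        conv_rhs => rw [this]
        ring
      rw [e1, e2]
      have : i * (1 + s) < a * (1 + s) := Nat.mul_lt_mul_of_pos_right h (by omega)
      omega
    · subst h
      rw [if_pos rfl]
      exact h1.cast rfl (by rw [hq.2])
    · rw [if_neg h.ne']
      have : q.coeff i = 0 := coeff_eq_zero_of_natDegree_lt (hq.1.trans_lt h)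
      rw [this]
      simp [Lead]
  have := Lead.sum _ key
  rw [sum_ite_eq' (range (n + 1)) a] at this
  rw [if_pos (mem_range.mpr (by omega))] at this
  exact this

end Pool.Agent.Helper36.S5

end

section

set_option autoImplicit false

open Finset Polynomial

namespace Pool.Agent.Helper36.S5

variable {κ : Type*} [Field κ]

/-- Wronskian `A'B - AB'` -/
noncomputable def wr (A B : κ[X]) : κ[X] := derivative A * B - A * derivative B

lemma lead_wr {A B : κ[X]} {a b : ℕ} {α β : κ} (hA : Lead A a α) (hB : Lead B b β) :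
    Lead (X * wr A B) (a + b) (((a : κ) - b) * (α * β)) := by
  have h : X * wr A B = (X * derivative A) * B - A * (X * derivative B) := by
    rw [wr]; ring
  rw [h]
  have h1 := hA.X_mul_derivative.mul hB
  have h2 := hA.mul hB.X_mul_derivative
  refine (h1.sub h2).cast rfl ?_
  ring

/-- the standing hypotheses on `f = A/B` (with `∞` a special fixed point) -/
structure Spec (d : ℕ) (A B : κ[X]) (α β : κ) : Prop where
  hd : 2 ≤ d
  lA : Lead A d α
  lB : Lead B (d - 1) β
  α0 : α ≠ 0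
  β0 : β ≠ 0
  co : IsCoprime A B
  sp : α = β ∨ ∀ n : ℕ, 0 < n → α ^ n ≠ β ^ n

namespace Spec

variable {d : ℕ} {A B : κ[X]} {α β : κ}

lemma B0 (h : Spec d A B α β) : B ≠ 0 := h.lB.ne_zero h.β0

lemma A0 (h : Spec d A B α β) : A ≠ 0 := h.lA.ne_zero h.α0

lemma exists_rootB [IsAlgClosed κ] (h : Spec d A B α β) : ∃ z, B.eval z = 0 := by
  apply IsAlgClosed.exists_root
  rw [degree_eq_natDegree h.B0, h.lB.natDegree_eq h.β0]
  have := h.hd
  exact_mod_cast (by omega : d - 1 ≠ 0)

lemma A_ne (h : Spec d A B α β) {z : κ} (hz : B.eval z = 0) : A.eval z ≠ 0 := by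
  obtain ⟨u, v, huv⟩ := h.co
  intro hA
  have := congrArg (eval z) huv
  simp [hA, hz] at this

lemma notUnitB (h : Spec d A B α β) : ¬ IsUnit B := by
  intro hu
  have := natDegree_eq_zero_of_isUnit hu
  rw [h.lB.natDegree_eq h.β0] at this
  have := h.hd
  omega

end Spec

lemma isCoprime_of_no_root [IsAlgClosed κ] (P Q : κ[X])
    (h : ∀ z, P.eval z = 0 → Q.eval z ≠ 0) (hP : P ≠ 0) : IsCoprime P Q := by
  classical
  by_contra hcon
  have hg : EuclideanDomain.gcd P Q ≠ 0 := by
    intro h0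
    rw [EuclideanDomain.gcd_eq_zero_iff] at h0
    exact hP h0.1
  have hu : ¬ IsUnit (EuclideanDomain.gcd P Q) := fun hu =>
    hcon (EuclideanDomain.gcd_isUnit_iff.mp hu)
  have hdeg : (EuclideanDomain.gcd P Q).degree ≠ 0 := by
    intro h0
    apply hu
    rw [eq_C_of_degree_eq_zero h0]
    rw [isUnit_C, isUnit_iff_ne_zero]
    intro hc
    rw [eq_C_of_degree_eq_zero h0, hc, C_0] at hg
    exact hg rfl
  obtain ⟨z, hz⟩ := IsAlgClosed.exists_root _ hdeg
  have h1 : P.eval z = 0 := by
    obtain ⟨s, hs⟩ := EuclideanDomain.gcd_dvd_left P Q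
    rw [hs, eval_mul, hz, zero_mul]
  have h2 : Q.eval z = 0 := by
    obtain ⟨s, hs⟩ := EuclideanDomain.gcd_dvd_right P Q
    rw [hs, eval_mul, hz, zero_mul]
  exact h z h1 h2

lemma eval_ne_of_coprime {P Q : κ[X]} (h : IsCoprime P Q) {z : κ} (hz : P.eval z = 0) :
    Q.eval z ≠ 0 := by
  obtain ⟨u, v, huv⟩ := h
  intro hA
  have := congrArg (eval z) huv
  simp [hA, hz] at this

/-- the denominator of a solution is trivial and its degree is at most `2l` -/
lemma Spec.denom [IsAlgClosed κ] {d : ℕ} {A B : κ[X]} {α β : κ} (h : Spec d A B α β)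
    {U V E : κ[X]} (hUV : IsCoprime U V) (hU : U ≠ 0) (hV : V ≠ 0) (l : ℕ)
    (heq : hsub A B U.natDegree U * B ^ V.natDegree * V * B ^ (2 * l) =
      (wr A B) ^ l * U * hsub A B V.natDegree V * B ^ U.natDegree +
        E * hsub A B V.natDegree V * V * B ^ U.natDegree) :
    V.natDegree = 0 ∧ U.natDegree ≤ 2 * l ∧
      hsub A B U.natDegree U * B ^ (2 * l - U.natDegree) = (wr A B) ^ l * U + E * V := by
  have hd := h.hd
  have lV : Lead (hsub A B V.natDegree V) (V.natDegree * d + (V.natDegree - V.natDegree) * (d - 1))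
      (V.leadingCoeff * (α ^ V.natDegree * β ^ (V.natDegree - V.natDegree))) :=
    lead_hsub A B h.lA h.lB (by omega) V (Lead.of_natDegree V) le_rfl
  rw [Nat.sub_self, zero_mul, add_zero, pow_zero, mul_one] at lV
  have hVne : V.leadingCoeff * α ^ V.natDegree ≠ 0 :=
    mul_ne_zero (leadingCoeff_ne_zero.mpr hV) (pow_ne_zero _ h.α0)
  have hVh0 : hsub A B V.natDegree V ≠ 0 := lV.ne_zero hVne
  have hc1 : IsCoprime (hsub A B V.natDegree V) B := by
    apply IsCoprime.symm
    apply isCoprime_of_no_root _ _ _ h.B0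
    intro z hz
    rw [hsub_eval_of_root A B _ V z hz]
    exact mul_ne_zero (leadingCoeff_ne_zero.mpr hV) (pow_ne_zero _ (h.A_ne hz))
  have hc2 : IsCoprime (hsub A B V.natDegree V) (hsub A B U.natDegree U) := by
    apply isCoprime_of_no_root _ _ _ hVh0
    intro z hz hz2
    by_cases hB : B.eval z = 0
    · rw [hsub_eval_of_root A B _ V z hB] at hz
      exact mul_ne_zero (leadingCoeff_ne_zero.mpr hV) (pow_ne_zero _ (h.A_ne hB)) hz
    · have hy : (A.eval z / B.eval z) * B.eval z = A.eval z := by (clear * - hB; field_simp)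
      rw [hsub_eval A B _ V le_rfl z _ hy] at hz
      rw [hsub_eval A B _ U le_rfl z _ hy] at hz2
      have hz' := (mul_eq_zero.mp hz).resolve_left (pow_ne_zero _ hB)
      have hz2' := (mul_eq_zero.mp hz2).resolve_left (pow_ne_zero _ hB)
      exact eval_ne_of_coprime hUV hz2' hz'
  have hdvd : hsub A B V.natDegree V ∣ V := by
    have h1 : hsub A B V.natDegree V ∣
        hsub A B U.natDegree U * (B ^ V.natDegree * (B ^ (2 * l) * V)) := by
      refine ⟨(wr A B) ^ l * U * B ^ U.natDegree + E * V * B ^ U.natDegree, ?_⟩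
      linear_combination heq
    exact (hc1.pow_right).dvd_of_dvd_mul_left
      ((hc1.pow_right).dvd_of_dvd_mul_left (hc2.dvd_of_dvd_mul_left h1))
  have hc0 : V.natDegree = 0 := by
    have h1 := natDegree_le_of_dvd hdvd hV
    rw [lV.natDegree_eq hVne] at h1
    have h2 : V.natDegree * 2 ≤ V.natDegree * d := Nat.mul_le_mul_left _ hd
    omega
  have hVh : hsub A B V.natDegree V = V := by rw [hc0]; exact hsub_C A B V hc0
  rw [hVh, hc0, pow_zero, mul_one] at heq
  have heq2 : hsub A B U.natDegree U * B ^ (2 * l) =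
      B ^ U.natDegree * ((wr A B) ^ l * U + E * V) := by
    apply mul_right_cancel₀ hV
    linear_combination heq
  have ha : U.natDegree ≤ 2 * l := by
    by_contra hcon
    push Not at hcon
    have e : B ^ U.natDegree = B ^ (2 * l) * (B * B ^ (U.natDegree - 2 * l - 1)) := by
      rw [← pow_succ', ← pow_add]; congr 1; omega
    have heq3 : hsub A B U.natDegree U =
        B * (B ^ (U.natDegree - 2 * l - 1) * ((wr A B) ^ l * U + E * V)) := by
      apply mul_right_cancel₀ (pow_ne_zero (2 * l) h.B0)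
      rw [heq2, e]; ring
    obtain ⟨S, hS⟩ := hsub_mod A B U.natDegree U
    have h1 : B ∣ C U.leadingCoeff * A ^ U.natDegree := by
      refine ⟨(B ^ (U.natDegree - 2 * l - 1) * ((wr A B) ^ l * U + E * V)) - S, ?_⟩
      rw [hS] at heq3
      rw [leadingCoeff]
      linear_combination heq3
    have h2 : B ∣ C U.leadingCoeff := (h.co.symm.pow_right).dvd_of_dvd_mul_right h1
    have h3 : IsUnit (C U.leadingCoeff) := by
      rw [isUnit_C, isUnit_iff_ne_zero]; exact leadingCoeff_ne_zero.mpr hU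
    exact h.notUnitB (isUnit_of_dvd_unit h2 h3)
  refine ⟨hc0, ha, ?_⟩
  apply mul_right_cancel₀ (pow_ne_zero U.natDegree h.B0)
  have e : B ^ (2 * l) = B ^ (2 * l - U.natDegree) * B ^ U.natDegree := by
    rw [← pow_add]; congr 1; omega
  rw [e] at heq2
  linear_combination heq2

end Pool.Agent.Helper36.S5

end

section

set_option autoImplicit false

open Finset Polynomial

namespace Pool.Agent.Helper36.S5

variable {κ : Type*} [Field κ]

/-- homogenised substitution is multiplicative -/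
lemma hsub_mul [Infinite κ] (A B : κ[X]) (hB : B ≠ 0) (p q : κ[X]) (m n : ℕ)
    (hp : p.natDegree ≤ m) (hq : q.natDegree ≤ n) :
    hsub A B (m + n) (p * q) = hsub A B m p * hsub A B n q := by
  classical
  apply Polynomial.eq_of_infinite_eval_eq
  have hfin : {x : κ | B.eval x = 0}.Finite := by
    refine (B.roots.toFinset.finite_toSet).subset fun x hx => ?_
    rw [mem_coe, Multiset.mem_toFinset]
    exact (mem_roots hB).mpr hx
  refine (hfin.infinite_compl).mono fun x hx => ?_
  simp only [Set.mem_compl_iff, Set.mem_ofPred_eq] at hx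
  have hy : (A.eval x / B.eval x) * B.eval x = A.eval x := by field_simp
  simp only [Set.mem_ofPred_eq, eval_mul]
  rw [hsub_eval A B m p hp x _ hy, hsub_eval A B n q hq x _ hy,
    hsub_eval A B (m + n) (p * q) (natDegree_mul_le_of_le hp hq) x _ hy, eval_mul]
  ring

end Pool.Agent.Helper36.S5

end

section

set_option autoImplicit false

open Finset Polynomial

namespace Pool.Agent.Helper36.S5

section FF

variable {κ : Type*} [Field κ]

/-- the inclusion of polynomials in rational functions -/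
noncomputable abbrev io (κ : Type*) [Field κ] : κ[X] →+* FractionRing κ[X] :=
  algebraMap κ[X] (FractionRing κ[X])

lemma io_inj : Function.Injective (io κ) := IsFractionRing.injective κ[X] (FractionRing κ[X])

lemma io_ne {p : κ[X]} (hp : p ≠ 0) : io κ p ≠ 0 := by
  intro h
  apply hp
  apply io_inj
  rw [h, map_zero]

/-- substitution of `A/B` -/
noncomputable def phi0 (A B : κ[X]) : κ[X] →+* FractionRing κ[X] :=
  eval₂RingHom ((io κ).comp C) (io κ A / io κ B)

lemma phi0_apply (A B : κ[X]) (hB : B ≠ 0) (n : ℕ) (q : κ[X]) (hq : q.natDegree ≤ n) :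
    io κ (hsub A B n q) = io κ B ^ n * phi0 A B q := by
  have hB' := io_ne hB
  rw [phi0, coe_eval₂RingHom, eval₂_eq_sum_range' _ (lt_of_le_of_lt hq (Nat.lt_succ_self _)),
    hsub, map_sum, mul_sum]
  refine sum_congr rfl fun i hi => ?_
  have hi' : i ≤ n := Nat.lt_succ_iff.mp (mem_range.mp hi)
  rw [map_mul, map_mul, map_pow, map_pow, RingHom.comp_apply, div_pow]
  have : io κ B ^ n = io κ B ^ i * io κ B ^ (n - i) := by rw [← pow_add]; congr 1; omega
  rw [this]
  (clear * - hB'; field_simp)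

variable {d : ℕ} {A B : κ[X]} {α β : κ}

lemma Spec.phi0_inj (h : Spec d A B α β) : Function.Injective (phi0 A B) := by
  rw [injective_iff_map_eq_zero]
  intro q hq
  by_contra hq0
  have h1 := phi0_apply A B h.B0 q.natDegree q le_rfl
  rw [hq, mul_zero] at h1
  have hd := h.hd
  have h2 := lead_hsub A B h.lA h.lB (by omega) q (Lead.of_natDegree q) le_rfl
  rw [Nat.sub_self, pow_zero, mul_one] at h2
  exact io_ne (h2.ne_zero (mul_ne_zero (leadingCoeff_ne_zero.mpr hq0)
    (pow_ne_zero _ h.α0))) h1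

/-- substitution of `f = A/B` in rational functions -/
noncomputable def Spec.phi (h : Spec d A B α β) : FractionRing κ[X] →+* FractionRing κ[X] :=
  IsFractionRing.lift h.phi0_inj

lemma Spec.phi_io (h : Spec d A B α β) (q : κ[X]) : h.phi (io κ q) = phi0 A B q :=
  IsFractionRing.lift_algebraMap h.phi0_inj q

lemma exists_frac (b : FractionRing κ[X]) (hb : b ≠ 0) : ∃ U V : κ[X], U ≠ 0 ∧ V ≠ 0 ∧
    IsCoprime U V ∧ b = io κ U / io κ V := by
  obtain ⟨U, V, hrel, hUV⟩ := IsFractionRing.exists_reduced_fraction (A := κ[X]) b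
  have hV : (V : κ[X]) ≠ 0 := nonZeroDivisors.ne_zero V.2
  have e : b = io κ U / io κ (V : κ[X]) := by
    rw [← hUV, IsFractionRing.mk'_eq_div]
  refine ⟨U, V, ?_, hV, hrel.isCoprime, e⟩
  rintro rfl
  apply hb
  rw [e, map_zero, zero_div]

/-- the multiplier -/
noncomputable def gg (A B : κ[X]) : FractionRing κ[X] := io κ (wr A B) / io κ B ^ 2

lemma Spec.denomF [IsAlgClosed κ] (h : Spec d A B α β) (b : FractionRing κ[X]) (hb : b ≠ 0)
    (l : ℕ) (E : κ[X])
    (heq : h.phi b = gg A B ^ l * b + io κ E / io κ B ^ (2 * l)) :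
    ∃ (U : κ[X]) (v : κ), v ≠ 0 ∧ U ≠ 0 ∧ b = io κ U / io κ (C v) ∧ U.natDegree ≤ 2 * l ∧
      hsub A B U.natDegree U * B ^ (2 * l - U.natDegree) = (wr A B) ^ l * U + E * C v := by
  obtain ⟨U, V, hU, hV, hco, hb'⟩ := exists_frac b hb
  have hB' := io_ne h.B0
  have hU' := io_ne hU
  have hV' := io_ne hV
  have hphiV : phi0 A B V ≠ 0 := by
    intro h0
    apply hV
    apply h.phi0_inj
    rw [h0, map_zero]
  have heq' : hsub A B U.natDegree U * B ^ V.natDegree * V * B ^ (2 * l) =
      (wr A B) ^ l * U * hsub A B V.natDegree V * B ^ U.natDegree +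
        E * hsub A B V.natDegree V * V * B ^ U.natDegree := by
    apply io_inj
    simp only [map_add, map_mul, map_pow]
    rw [phi0_apply A B h.B0 _ U le_rfl, phi0_apply A B h.B0 _ V le_rfl]
    rw [hb', map_div₀, h.phi_io, h.phi_io, gg, div_pow, ← pow_mul] at heq
    have h2 : phi0 A B U = (io κ (wr A B) ^ l / io κ B ^ (2 * l) * (io κ U / io κ V) +
        io κ E / io κ B ^ (2 * l)) * phi0 A B V := by
      rw [← heq]; (clear * - hphiV; field_simp)
    rw [h2]
    (clear * - hV' hB' hphiV; field_simp)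
  obtain ⟨h1, h2, h3⟩ := h.denom hco hU hV l heq'
  refine ⟨U, V.coeff 0, ?_, hU, ?_, h2, ?_⟩
  · intro h0
    apply hV
    rw [eq_C_of_natDegree_eq_zero h1, h0, C_0]
  · rw [← eq_C_of_natDegree_eq_zero h1]; exact hb'
  · rw [← eq_C_of_natDegree_eq_zero h1]; exact h3

lemma hsub_C_mul (A B : κ[X]) (n : ℕ) (c : κ) (q : κ[X]) :
    hsub A B n (C c * q) = C c * hsub A B n q := by
  rw [hsub, hsub, mul_sum]
  refine sum_congr rfl fun i _ => ?_
  rw [coeff_C_mul, C_mul]
  ring

end FF

end Pool.Agent.Helper36.S5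

end

section

set_option autoImplicit false

set_option linter.unusedSectionVars false

open Finset Polynomial

namespace Pool.Agent.Helper36.S5

variable {κ : Type*} [Field κ]

/-- `A / B` is a rational function of degree `d` -/
structure Rat (A B : κ[X]) (d : ℕ) : Prop where
  cop : IsCoprime A B
  dA : A.natDegree ≤ d
  dB : B.natDegree ≤ d
  top : A.coeff d ≠ 0 ∨ B.coeff d ≠ 0

namespace Rat

variable {A B : κ[X]} {d : ℕ}

lemma not_const (h : Rat A B d) (hd : 1 ≤ d) (c : κ) : A ≠ C c * B := by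
  intro hA
  have hu : IsUnit B := by
    obtain ⟨u, v, huv⟩ := h.cop
    exact isUnit_iff_exists_inv.mpr ⟨u * C c + v, by rw [← huv, hA]; ring⟩
  have hB0 : B.natDegree = 0 := natDegree_eq_zero_of_isUnit hu
  have hB : B.coeff d = 0 := coeff_eq_zero_of_natDegree_lt (by omega)
  have hA' : A.coeff d = 0 := by rw [hA, coeff_C_mul, hB, mul_zero]
  rcases h.top with h1 | h1
  · exact h1 hA'
  · exact h1 hB

lemma B0 (h : Rat A B d) (hd : 1 ≤ d) : B ≠ 0 := by
  rintro rfl
  have hu : IsUnit A := by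
    obtain ⟨u, v, huv⟩ := h.cop
    exact isUnit_iff_exists_inv.mpr ⟨u, by rw [← huv]; ring⟩
  have hA0 : A.natDegree = 0 := natDegree_eq_zero_of_isUnit hu
  have hA : A.coeff d = 0 := coeff_eq_zero_of_natDegree_lt (by omega)
  rcases h.top with h1 | h1
  · exact h1 hA
  · exact h1 (by simp)

lemma phi0_inj [IsAlgClosed κ] (h : Rat A B d) (hd : 1 ≤ d) : Function.Injective (phi0 A B) := by
  rw [injective_iff_map_eq_zero]
  intro q hq
  by_contra hq0
  have hB := io_ne (h.B0 hd)
  have hs := (IsAlgClosed.splits q)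
  have e : q = C q.leadingCoeff * (q.roots.map fun a => X - C a).prod :=
    hs.eq_prod_roots
  rw [e, map_mul, map_multiset_prod, Multiset.map_map] at hq
  rcases mul_eq_zero.mp hq with h1 | h1
  · rw [phi0, coe_eval₂RingHom, eval₂_C, RingHom.comp_apply] at h1
    exact io_ne (C_ne_zero.mpr (leadingCoeff_ne_zero.mpr hq0)) h1
  · rw [Multiset.prod_eq_zero_iff, Multiset.mem_map] at h1
    obtain ⟨a, _, ha⟩ := h1
    rw [Function.comp_apply, phi0, coe_eval₂RingHom, eval₂_sub, eval₂_X, eval₂_C,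
      RingHom.comp_apply, sub_eq_zero, div_eq_iff hB, ← map_mul] at ha
    exact h.not_const hd a (io_inj ha)

/-- substitution of `A/B` in rational functions -/
noncomputable def phi [IsAlgClosed κ] (h : Rat A B d) (hd : 1 ≤ d) :
    FractionRing κ[X] →+* FractionRing κ[X] :=
  IsFractionRing.lift (h.phi0_inj hd)

lemma phi_io [IsAlgClosed κ] (h : Rat A B d) (hd : 1 ≤ d) (q : κ[X]) :
    h.phi hd (io κ q) = phi0 A B q :=
  IsFractionRing.lift_algebraMap (h.phi0_inj hd) q

end Rat

/-- the Moebius transformation `X ↦ q + 1/X` -/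
lemma ratMob (q : κ) : Rat (C q * X + 1 : κ[X]) X 1 := by
  refine ⟨⟨1, -C q, by ring⟩, ?_, natDegree_X_le, Or.inr (by simp)⟩
  refine natDegree_add_le_of_degree_le ((natDegree_C_mul_le _ _).trans natDegree_X_le) (by simp)

/-- derivative of `X^n P(q + 1/X)` -/
lemma derivative_hsub_mob (q : κ) (n : ℕ) (P : κ[X]) :
    X * derivative (hsub (C q * X + 1) X (n + 1) P) =
      ((n + 1 : ℕ) : κ[X]) * hsub (C q * X + 1) X (n + 1) P -
        hsub (C q * X + 1) X n (derivative P) := by
  have h0 : hsub (C q * X + 1) X n (derivative P) = ∑ i ∈ range (n + 2),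
      C (P.coeff i) * (((i : ℕ) : κ[X]) * ((C q * X + 1) ^ (i - 1) * X ^ (n + 1 - i))) := by
    rw [hsub, sum_range_succ' _ (n + 1)]
    simp only [Nat.cast_zero, zero_mul, mul_zero, add_zero]
    refine sum_congr rfl fun i hi => ?_
    have hi' : i ≤ n := Nat.lt_succ_iff.mp (mem_range.mp hi)
    rw [coeff_derivative, C_mul, Nat.add_sub_cancel, show n + 1 - (i + 1) = n - i by omega]
    simp only [map_add, map_natCast, C_1, Nat.cast_add, Nat.cast_one]
    ring
  rw [h0, hsub, derivative_sum, mul_sum, mul_sum, ← sum_sub_distrib]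
  refine sum_congr rfl fun i hi => ?_
  have hi' : i ≤ n + 1 := Nat.lt_succ_iff.mp (mem_range.mp hi)
  rw [derivative_C_mul, derivative_mul, derivative_pow, derivative_X_pow, derivative_add,
    derivative_C_mul, derivative_X, derivative_one]
  obtain ⟨s, hs⟩ : ∃ s, n + 1 = i + s := ⟨n + 1 - i, by omega⟩
  rw [hs, Nat.add_sub_cancel_left]
  rcases Nat.eq_zero_or_pos i with h1 | h1
  · subst h1
    rcases Nat.eq_zero_or_pos s with h2 | h2
    · subst h2; simp
    · obtain ⟨s', rfl⟩ : ∃ s', s = s' + 1 := ⟨s - 1, by omega⟩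
      simp
      ring
  · obtain ⟨i', rfl⟩ : ∃ i', i = i' + 1 := ⟨i - 1, by omega⟩
    rcases Nat.eq_zero_or_pos s with h2 | h2
    · subst h2
      simp
      ring
    · obtain ⟨s', rfl⟩ : ∃ s', s = s' + 1 := ⟨s - 1, by omega⟩
      simp
      ring

end Pool.Agent.Helper36.S5

end

section

set_option autoImplicit false

set_option linter.unusedSectionVars false

open Finset Polynomial

namespace Pool.Agent.Helper36.S5

variable {κ : Type*} [Field κ] {A B : κ[X]} {d : ℕ}

/-- the transformed numerator and denominator -/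
noncomputable def A₁ (q : κ) (d : ℕ) (B : κ[X]) : κ[X] := hsub (C q * X + 1) X d B

/-- the transformed numerator and denominator -/
noncomputable def B₁ (q : κ) (d : ℕ) (A B : κ[X]) : κ[X] :=
  hsub (C q * X + 1) X d (A - C q * B)

lemma hsub_sub (M N : κ[X]) (n : ℕ) (p q : κ[X]) :
    hsub M N n (p - q) = hsub M N n p - hsub M N n q := by
  rw [hsub, hsub, hsub, ← sum_sub_distrib]
  refine sum_congr rfl fun i _ => ?_
  rw [coeff_sub, C_sub]; ring

lemma B₁_eq (q : κ) (d : ℕ) (A B : κ[X]) :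
    B₁ q d A B = hsub (C q * X + 1) X d A - C q * A₁ q d B := by
  rw [B₁, hsub_sub, hsub_C_mul, A₁]

/-- the substitution `X ↦ q + 1/X` -/
noncomputable def mob [IsAlgClosed κ] (q : κ) : FractionRing κ[X] →+* FractionRing κ[X] :=
  (ratMob q).phi le_rfl

lemma mob_io [IsAlgClosed κ] (q : κ) (P : κ[X]) (n : ℕ) (hP : P.natDegree ≤ n) :
    mob q (io κ P) = io κ (hsub (C q * X + 1) X n P) / io κ X ^ n := by
  rw [mob, Rat.phi_io, phi0_apply _ _ X_ne_zero n P hP]
  have := io_ne (κ := κ) X_ne_zero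
  (clear * - this; field_simp)

section Transform

variable [IsAlgClosed κ] [CharZero κ] (h : Rat A B d) (hd : 2 ≤ d) {q : κ} {α β : κ}
  (hs : Spec d (A₁ q d B) (B₁ q d A B) α β)

lemma io_X_ne : io κ X ≠ 0 := io_ne X_ne_zero

include h hd in
lemma gg_transform (hs : Spec d (A₁ q d B) (B₁ q d A B) α β) :
    gg (A₁ q d B) (B₁ q d A B) * io κ X ^ 2 =
      mob q (gg A B) * (io κ (A₁ q d B) / io κ (B₁ q d A B)) ^ 2 := by
  have hX := io_X_ne (κ := κ)
  have hA₁ := io_ne hs.A0
  have hB₁ := io_ne hs.B0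
  obtain ⟨e, rfl⟩ : ∃ e, d = e + 1 := ⟨d - 1, by omega⟩
  -- the Wronskian
  have hdA : (derivative A).natDegree ≤ e := (natDegree_derivative_le A).trans (by
    have := h.dA; omega)
  have hdB : (derivative B).natDegree ≤ e := (natDegree_derivative_le B).trans (by
    have := h.dB; omega)
  have hW : X * wr (A₁ q (e + 1) B) (B₁ q (e + 1) A B) =
      hsub (C q * X + 1) X (e + (e + 1)) (wr A B) := by
    have h1 := derivative_hsub_mob q e A
    have h2 := derivative_hsub_mob q e B
    have h3 : hsub (C q * X + 1) X (e + (e + 1)) (wr A B) =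
        hsub (C q * X + 1) X e (derivative A) * hsub (C q * X + 1) X (e + 1) B -
        hsub (C q * X + 1) X e (derivative B) * hsub (C q * X + 1) X (e + 1) A := by
      rw [wr, hsub_sub, hsub_mul _ _ X_ne_zero _ _ e (e + 1) hdA h.dB, mul_comm A,
        hsub_mul _ _ X_ne_zero _ _ e (e + 1) hdB h.dA]
    rw [h3, B₁_eq, wr, derivative_sub, derivative_C_mul, A₁]
    linear_combination (-(hsub (C q * X + 1) X (e + 1) B)) * h1 +
      (hsub (C q * X + 1) X (e + 1) A) * h2
  have hWd : (wr A B).natDegree ≤ e + (e + 1) := by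
    rw [wr]
    refine (natDegree_sub_le _ _).trans (max_le (natDegree_mul_le_of_le hdA h.dB) ?_)
    exact (natDegree_mul_le_of_le h.dA hdB).trans (by omega)
  have h4 : mob q (io κ (wr A B)) = io κ X * io κ (wr (A₁ q (e + 1) B) (B₁ q (e + 1) A B)) /
      io κ X ^ (e + (e + 1)) := by
    rw [mob_io q (wr A B) (e + (e + 1)) hWd, ← hW, map_mul]
  have h5 : mob q (io κ B) = io κ (A₁ q (e + 1) B) / io κ X ^ (e + 1) := by
    rw [mob_io q B (e + 1) h.dB, A₁]
  rw [gg, gg, map_div₀, map_pow, h4, h5]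
  have e1 : io κ X ^ (e + (e + 1)) = io κ X ^ e * (io κ X ^ e * io κ X) := by
    rw [← pow_succ, ← pow_add]
  rw [e1, pow_succ]
  field_simp
  ring

include h hd in
lemma phi_mob (hs : Spec d (A₁ q d B) (B₁ q d A B) α β) (hd1 : 1 ≤ d)
    (b : FractionRing κ[X]) : hs.phi (mob q b) = mob q (h.phi hd1 b) := by
  have hX := io_X_ne (κ := κ)
  have hA₁ := io_ne hs.A0
  have hB₁ := io_ne hs.B0
  suffices hcomp : (hs.phi.comp (mob q)) = (mob q).comp (h.phi hd1) by
    have := congrArg (fun f => f b) hcomp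
    simpa using this
  apply IsFractionRing.ringHom_ext (A := κ[X])
  · intro p
    have hpoly : ((hs.phi.comp (mob q)).comp (io κ)) =
        (((mob q).comp (h.phi hd1)).comp (io κ)) := by
      apply Polynomial.ringHom_ext
      · intro a
        have e1 : mob q (io κ (C a)) = io κ (C a) := by
          rw [mob_io q (C a) 0 (by simp), hsub_C _ _ _ (by simp), pow_zero, div_one]
        have e2 : hs.phi (io κ (C a)) = io κ (C a) := by
          rw [hs.phi_io, phi0, coe_eval₂RingHom, eval₂_C]; rfl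
        have e3 : h.phi hd1 (io κ (C a)) = io κ (C a) := by
          rw [h.phi_io, phi0, coe_eval₂RingHom, eval₂_C]; rfl
        simp only [RingHom.comp_apply]
        rw [e1, e2, e3, e1]
      · simp only [RingHom.comp_apply]
        have e1 : mob q (io κ X) = io κ (C q) + 1 / io κ X := by
          rw [mob, Rat.phi_io, phi0, coe_eval₂RingHom, eval₂_X, map_add, map_mul, map_one]
          (clear * - hX; field_simp)
        have e2 : ∀ a, hs.phi (io κ (C a)) = io κ (C a) := by
          intro a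
          rw [hs.phi_io, phi0, coe_eval₂RingHom, eval₂_C]; rfl
        have e3 : hs.phi (io κ X) = io κ (A₁ q d B) / io κ (B₁ q d A B) := by
          rw [hs.phi_io, phi0, coe_eval₂RingHom, eval₂_X]
        have e4 : h.phi hd1 (io κ X) = io κ A / io κ B := by
          rw [h.phi_io, phi0, coe_eval₂RingHom, eval₂_X]
        have e5 : mob q (io κ A) = (io κ (B₁ q d A B) + io κ (C q) * io κ (A₁ q d B)) /
            io κ X ^ d := by
          rw [mob_io q A d h.dA, B₁_eq, map_sub, map_mul, A₁]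
          congr 1; ring
        have e6 : mob q (io κ B) = io κ (A₁ q d B) / io κ X ^ d := by
          rw [mob_io q B d h.dB, A₁]
        rw [e1, map_add, map_div₀, map_one, e2, e3, e4, map_div₀, e5, e6]
        field_simp
        ring
    have := congrArg (fun f => f p) hpoly
    simpa using this

end Transform

end Pool.Agent.Helper36.S5

end
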