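import Pool.Agent.Helper23.MB.Inst

/-!
Parts of Helper33.PS.Defs, Helper33.UB.ODE, Helper93.RatHev, Helper93.RatRiccati, Helper93.RatIso, Helper33.PS.Ext, Helper98.PS.K1, Helper98.PS.M2, Helper98.PS.M5, Helper43.PT.LE
-/

attribute [-simp] Valuation.IsUniformizer.val
attribute [local instance 5000]
  Pool.Agent.Helper23.MB.Inst.rCharZero Pool.Agent.Helper23.MB.Inst.rALM
  Pool.Agent.Helper23.MB.Inst.rARM Pool.Agent.Helper23.MB.Inst.rALSM
  Pool.Agent.Helper23.MB.Inst.rARSM Pool.Agent.Helper23.MB.Inst.rARRLE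
  Pool.Agent.Helper23.MB.Inst.rALRLE Pool.Agent.Helper23.MB.Inst.rARRLT
  Pool.Agent.Helper23.MB.Inst.rALRLT Pool.Agent.Helper23.MB.Inst.rPMRLT
  Pool.Agent.Helper23.MB.Inst.rMPRLT Pool.Agent.Helper23.MB.Inst.rPMM
  Pool.Agent.Helper23.MB.Inst.rMPM Pool.Agent.Helper23.MB.Inst.rPMSM
  Pool.Agent.Helper23.MB.Inst.rMPSM Pool.Agent.Helper23.MB.Inst.rEAOL
  Pool.Agent.Helper23.MB.Inst.rIOR Pool.Agent.Helper23.MB.Inst.rISOR
  Pool.Agent.Helper23.MB.Inst.rNZD Pool.Agent.Helper23.MB.Inst.zCharZero
  Pool.Agent.Helper23.MB.Inst.zALM Pool.Agent.Helper23.MB.Inst.zARM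
  Pool.Agent.Helper23.MB.Inst.zIOR Pool.Agent.Helper23.MB.Inst.zISOR
  Pool.Agent.Helper23.MB.Inst.zNZD Pool.Agent.Helper23.MB.Inst.qCharZero
  Pool.Agent.Helper23.MB.Inst.free Pool.Agent.Helper23.MB.Inst.faith
  Pool.Agent.Helper23.MB.Inst.torsionFree Pool.Agent.Helper23.MB.Inst.rfFaith
  Pool.Agent.Helper23.MB.Inst.hAdd Pool.Agent.Helper23.MB.Inst.hAddM
  Pool.Agent.Helper23.MB.Inst.hMul Pool.Agent.Helper23.MB.Inst.hMon
  Pool.Agent.Helper23.MB.Inst.hZero Pool.Agent.Helper23.MB.Inst.hOne
  Pool.Agent.Helper23.MB.Inst.hMZ Pool.Agent.Helper23.MB.Inst.hRing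
  Pool.Agent.Helper23.MB.Inst.aAdd Pool.Agent.Helper23.MB.Inst.aAddM
  Pool.Agent.Helper23.MB.Inst.aMul Pool.Agent.Helper23.MB.Inst.aMon
  Pool.Agent.Helper23.MB.Inst.aZero Pool.Agent.Helper23.MB.Inst.aOne
  Pool.Agent.Helper23.MB.Inst.aMZ Pool.Agent.Helper23.MB.Inst.aRing

namespace Pool.Agent.Helper33
end Pool.Agent.Helper33
namespace Pool.Agent.Helper33.PS
end Pool.Agent.Helper33.PS
namespace Pool.Agent.Helper33.UB
end Pool.Agent.Helper33.UB
namespace Pool.Agent.Helper45.FR
end Pool.Agent.Helper45.FR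
namespace Pool.Agent.Helper51.RatTree
end Pool.Agent.Helper51.RatTree
namespace Pool.Agent.Helper55.RD
end Pool.Agent.Helper55.RD
namespace Pool.Agent.Helper93.RatODE
end Pool.Agent.Helper93.RatODE
namespace Pool.Agent.Helper98.PS
end Pool.Agent.Helper98.PS

section

set_option autoImplicit false

open Polynomial

namespace Pool.Agent.Helper33.PS

/-- `A / B` is a rational function of degree `d` -/
structure IsRat {K : Type*} [Field K] (A B : K[X]) (d : ℕ) : Prop where
  cop : IsCoprime A B
  dA : A.natDegree ≤ d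
  dB : B.natDegree ≤ d
  top : A.coeff d ≠ 0 ∨ B.coeff d ≠ 0

/-- the beginning of an orbit of `A / B` -/
structure Orb {K : Type*} [Field K] (A B : K[X]) (z : ℕ → K) (n : ℕ) : Prop where
  ne : ∀ j < n, B.eval (z j) ≠ 0
  step : ∀ j < n, z (j + 1) = A.eval (z j) / B.eval (z j)

end Pool.Agent.Helper33.PS

end

section

set_option autoImplicit false

open Finset Polynomial

namespace Pool.Agent.Helper33.UB

section affine

variable {K : Type*} [Field K]

/-- apply `D` to the coefficients -/
noncomputable def mapD (D : K → K) (F : K[X]) : K[X] :=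
  ∑ i ∈ range (F.natDegree + 1), C (D (F.coeff i)) * X ^ i

lemma mapD_natDegree (D : K → K) (F : K[X]) : (mapD D F).natDegree ≤ F.natDegree := by
  unfold mapD
  apply natDegree_sum_le_of_forall_le
  intro i hi
  refine (natDegree_C_mul_X_pow_le _ _).trans ?_
  rw [mem_range] at hi
  omega

/-- chain rule -/
lemma D_eval {D : K → K} (hadd : ∀ x y, D (x + y) = D x + D y) (hmul : ∀ x y, D (x * y) = x * D y + y * D x)
    (F : K[X]) (y : K) : D (F.eval y) = (mapD D F).eval y + (derivative F).eval y * D y := by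
  have hzero : D 0 = 0 := by
    have h := hadd 0 0
    rw [add_zero] at h
    exact left_eq_add.mp h
  have hone : D 1 = 0 := by
    have h := hmul 1 1
    rw [mul_one, one_mul] at h
    exact left_eq_add.mp h
  have hsum : ∀ (s : Finset ℕ) (g : ℕ → K), D (∑ i ∈ s, g i) = ∑ i ∈ s, D (g i) := by
    intro s g
    induction s using Finset.induction_on with
    | empty => simp [hzero]
    | insert a s ha ih => rw [sum_insert ha, sum_insert ha, hadd, ih]
  have hpow : ∀ n : ℕ, D (y ^ n) = n * y ^ (n - 1) * D y := by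
    intro n
    induction n with
    | zero => simp [hone]
    | succ n ih =>
      rw [pow_succ, hmul, ih]
      rcases n with _ | n
      · simp
      · simp only [Nat.add_sub_cancel]
        push_cast
        ring
  have hder : (derivative F).eval y = ∑ i ∈ range (F.natDegree + 1), F.coeff i * i * y ^ (i - 1) := by
    rw [derivative_eval, sum_over_range]
    intro n; simp
  rw [hder]
  conv_lhs => rw [eval_eq_sum_range]
  rw [hsum]
  unfold mapD
  rw [eval_finsetSum, sum_mul, ← sum_add_distrib]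
  apply sum_congr rfl
  intro i _
  rw [hmul, hpow]
  simp only [eval_mul, eval_C, eval_pow, eval_X]
  ring

end affine

end Pool.Agent.Helper33.UB

end

section

set_option autoImplicit false

open Finset Polynomial

namespace Pool.Agent.Helper93.RatODE

variable {K : Type*} [Field K]

/-- the form of degree `n` attached to `P`, evaluated at `(u, w)` -/
noncomputable def hev (P : K[X]) (n : ℕ) {S : Type*} [CommRing S] [Algebra K S] (u w : S) : S :=
  ∑ j ∈ range (n + 1), algebraMap K S (P.coeff j) * u ^ j * w ^ (n - j)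

section ring

variable {S T : Type*} [CommRing S] [Algebra K S] [CommRing T] [Algebra K T]

lemma hev_map (φ : S →ₐ[K] T) (P : K[X]) (n : ℕ) (u w : S) :
    φ (hev P n u w) = hev P n (φ u) (φ w) := by
  simp [hev, map_sum]

lemma hev_add (P Q : K[X]) (n : ℕ) (u w : S) : hev (P + Q) n u w = hev P n u w + hev Q n u w := by
  simp [hev, add_mul, sum_add_distrib]

lemma hev_C_mul (c : K) (P : K[X]) (n : ℕ) (u w : S) :
    hev (C c * P) n u w = algebraMap K S c * hev P n u w := by
  simp [hev, mul_sum, mul_assoc]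

lemma hev_smul_arg (P : K[X]) (n : ℕ) (c u w : S) :
    hev P n (c * u) (c * w) = c ^ n * hev P n u w := by
  unfold hev
  rw [mul_sum]
  apply sum_congr rfl
  intro j hj
  rw [mem_range] at hj
  have : c ^ n = c ^ j * c ^ (n - j) := by rw [← pow_add]; congr 1; omega
  rw [this, mul_pow, mul_pow]
  ring

lemma hev_right_zero (P : K[X]) (n : ℕ) (u : S) :
    hev P n u 0 = algebraMap K S (P.coeff n) * u ^ n := by
  unfold hev
  rw [sum_range_succ, sum_eq_zero]
  · simp
  · intro j hj
    rw [mem_range] at hj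
    rw [zero_pow (by omega), mul_zero]

end ring

section field

variable {L : Type*} [Field L] [Algebra K L]

lemma hev_eq (P : K[X]) (n : ℕ) (hP : P.natDegree ≤ n) (u w : L) (hw : w ≠ 0) :
    hev P n u w = w ^ n * aeval (u / w) P := by
  rw [aeval_eq_sum_range' (n := n + 1) (by omega)]
  unfold hev
  rw [mul_sum]
  apply sum_congr rfl
  intro j hj
  rw [mem_range] at hj
  rw [Algebra.smul_def, div_pow]
  have : w ^ n = w ^ j * w ^ (n - j) := by rw [← pow_add]; congr 1; omega
  rw [this]
  field_simp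

lemma hev_eq_eval (P : K[X]) (n : ℕ) (hP : P.natDegree ≤ n) (u w : K) (hw : w ≠ 0) :
    hev P n u w = w ^ n * P.eval (u / w) := by
  rw [hev_eq P n hP u w hw, coe_aeval_eq_eval]

/-- two coprime forms have no common zero -/
lemma hev_no_common_zero {P Q : K[X]} (h : IsCoprime P Q) {n m : ℕ} (hP : P.natDegree ≤ n)
    (hQ : Q.natDegree ≤ m) (htop : P.coeff n ≠ 0 ∨ Q.coeff m ≠ 0) {u w : L}
    (h1 : hev P n u w = 0) (h2 : hev Q m u w = 0) : u = 0 ∧ w = 0 := by
  by_cases hw : w = 0
  · subst hw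
    refine ⟨?_, rfl⟩
    rw [hev_right_zero] at h1 h2
    rcases htop with h | h
    · rcases mul_eq_zero.mp h1 with h3 | h3
      · exact absurd ((map_eq_zero _).mp h3) h
      · exact eq_zero_of_pow_eq_zero h3
    · rcases mul_eq_zero.mp h2 with h3 | h3
      · exact absurd ((map_eq_zero _).mp h3) h
      · exact eq_zero_of_pow_eq_zero h3
  · exfalso
    rw [hev_eq P n hP u w hw] at h1
    rw [hev_eq Q m hQ u w hw] at h2
    have h3 : aeval (u / w) P = 0 := by
      rcases mul_eq_zero.mp h1 with h | h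
      · exact absurd h (pow_ne_zero _ hw)
      · exact h
    have h4 : aeval (u / w) Q = 0 := by
      rcases mul_eq_zero.mp h2 with h | h
      · exact absurd h (pow_ne_zero _ hw)
      · exact h
    obtain ⟨a, b, hab⟩ := h
    have h5 := congrArg (aeval (u / w)) hab
    rw [map_add, map_mul, map_mul, h3, h4, mul_zero, mul_zero, add_zero, map_one] at h5
    exact zero_ne_one h5

end field

section poly

lemma hev_eval (P : K[X]) (n : ℕ) (U W : K[X]) (y : K) :
    (hev P n U W).eval y = hev P n (U.eval y) (W.eval y) := by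
  have := hev_map (aeval y : K[X] →ₐ[K] K) P n U W
  simpa [coe_aeval_eq_eval] using this

lemma hev_natDegree_coeff (P : K[X]) (n : ℕ) {U W : K[X]} {q : ℕ} (hU : U.natDegree ≤ q)
    (hW : W.natDegree ≤ q) :
    (hev P n U W).natDegree ≤ n * q ∧ (hev P n U W).coeff (n * q) = hev P n (U.coeff q) (W.coeff q) := by
  have hterm : ∀ j ∈ range (n + 1),
      (algebraMap K K[X] (P.coeff j) * U ^ j * W ^ (n - j)).natDegree ≤ n * q ∧
      (algebraMap K K[X] (P.coeff j) * U ^ j * W ^ (n - j)).coeff (n * q) =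
        algebraMap K K (P.coeff j) * U.coeff q ^ j * W.coeff q ^ (n - j) := by
    intro j hj
    rw [mem_range] at hj
    have h1 : (U ^ j).natDegree ≤ j * q := natDegree_pow_le_of_le j hU
    have h2 : (W ^ (n - j)).natDegree ≤ (n - j) * q := natDegree_pow_le_of_le (n - j) hW
    have h3 : (algebraMap K K[X] (P.coeff j) * U ^ j).natDegree ≤ j * q :=
      (natDegree_C_mul_le _ _).trans h1
    have h4 : n * q = j * q + (n - j) * q := by rw [← add_mul]; congr 1; omega
    constructor
    · rw [h4]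
      exact natDegree_mul_le_of_le h3 h2
    · rw [h4, coeff_mul_add_eq_of_natDegree_le h3 h2, coeff_pow_of_natDegree_le hW]
      rw [← C_eq_algebraMap, coeff_C_mul, coeff_pow_of_natDegree_le hU]
      simp
  constructor
  · unfold hev
    exact natDegree_sum_le_of_forall_le _ _ fun j hj => (hterm j hj).1
  · unfold hev
    rw [finsetSum_coeff]
    exact sum_congr rfl fun j hj => (hterm j hj).2

lemma hev_natDegree (P : K[X]) (n : ℕ) {U W : K[X]} {q : ℕ} (hU : U.natDegree ≤ q)
    (hW : W.natDegree ≤ q) : (hev P n U W).natDegree ≤ n * q :=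
  (hev_natDegree_coeff P n hU hW).1

lemma hev_coeff (P : K[X]) (n : ℕ) {U W : K[X]} {q : ℕ} (hU : U.natDegree ≤ q)
    (hW : W.natDegree ≤ q) : (hev P n U W).coeff (n * q) = hev P n (U.coeff q) (W.coeff q) :=
  (hev_natDegree_coeff P n hU hW).2

/-- top coefficients of a pair of forms composed with a pair -/
lemma hev_coeff_ne {P Q : K[X]} (h : IsCoprime P Q) {n m : ℕ} (hP : P.natDegree ≤ n)
    (hQ : Q.natDegree ≤ m) (htop : P.coeff n ≠ 0 ∨ Q.coeff m ≠ 0) {U W : K[X]} {q : ℕ}
    (hU : U.natDegree ≤ q) (hW : W.natDegree ≤ q) (hmax : U.coeff q ≠ 0 ∨ W.coeff q ≠ 0) :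
    (hev P n U W).coeff (n * q) ≠ 0 ∨ (hev Q m U W).coeff (m * q) ≠ 0 := by
  by_contra hcon
  push Not at hcon
  rw [hev_coeff P n hU hW, hev_coeff Q m hU hW] at hcon
  have := hev_no_common_zero h hP hQ htop hcon.1 hcon.2
  rcases hmax with h | h
  · exact h this.1
  · exact h this.2

lemma hev_isCoprime {P Q : K[X]} (h : IsCoprime P Q) {n m : ℕ} (hP : P.natDegree ≤ n)
    (hQ : Q.natDegree ≤ m) (htop : P.coeff n ≠ 0 ∨ Q.coeff m ≠ 0) {U W : K[X]} (hUW : IsCoprime U W) :
    IsCoprime (hev P n U W) (hev Q m U W) := by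
  have key : ∀ z : K[X], Irreducible z → z ∣ hev P n U W → z ∣ hev Q m U W → False := by
    intro z hz h1 h2
    have : Fact (Irreducible z) := ⟨hz⟩
    have h1' : AdjoinRoot.mk z (hev P n U W) = 0 := AdjoinRoot.mk_eq_zero.mpr h1
    have h2' : AdjoinRoot.mk z (hev Q m U W) = 0 := AdjoinRoot.mk_eq_zero.mpr h2
    have e1 := hev_map (AdjoinRoot.mkₐ z : K[X] →ₐ[K] AdjoinRoot z) P n U W
    have e2 := hev_map (AdjoinRoot.mkₐ z : K[X] →ₐ[K] AdjoinRoot z) Q m U W
    rw [AdjoinRoot.coe_mkₐ] at e1 e2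
    rw [h1'] at e1
    rw [h2'] at e2
    have := hev_no_common_zero h hP hQ htop e1.symm e2.symm
    obtain ⟨a, b, hab⟩ := hUW
    have h5 := congrArg (AdjoinRoot.mk z) hab
    rw [map_add, map_mul, map_mul, this.1, this.2, mul_zero, mul_zero, add_zero, map_one] at h5
    exact zero_ne_one h5
  apply isCoprime_of_irreducible_dvd
  · rintro ⟨h1, h2⟩
    exact key X irreducible_X (h1 ▸ dvd_zero _) (h2 ▸ dvd_zero _)
  · intro z hz h1 h2
    exact key z hz h1 h2

end poly

section comp

variable {L : Type*} [Field L] [Algebra K L]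

lemma hev_comp (P : K[X]) (n : ℕ) {U W : K[X]} {q : ℕ} (hU : U.natDegree ≤ q)
    (hW : W.natDegree ≤ q) (u w : L) :
    hev (hev P n U W) (n * q) u w = hev P n (hev U q u w) (hev W q u w) := by
  by_cases hw : w = 0
  · subst hw
    rw [hev_right_zero, hev_right_zero, hev_right_zero, hev_coeff P n hU hW]
    have h1 := hev_map (Algebra.ofId K L) P n (U.coeff q) (W.coeff q)
    rw [Algebra.ofId_apply, Algebra.ofId_apply, Algebra.ofId_apply] at h1
    rw [h1, mul_comm (algebraMap K L (U.coeff q)), mul_comm (algebraMap K L (W.coeff q)),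
      hev_smul_arg, mul_comm, ← pow_mul, mul_comm q n]
  · rw [hev_eq _ _ (hev_natDegree P n hU hW) u w hw, hev_eq U q hU u w hw, hev_eq W q hW u w hw,
      hev_smul_arg]
    have h1 := hev_map (aeval (u / w) : K[X] →ₐ[K] L) P n U W
    rw [h1, ← pow_mul, mul_comm q n]

end comp

section iterates

/-- the pair of polynomials `(U, W)` with `f^m = U / W` -/
noncomputable def iter (P Q : K[X]) (d : ℕ) : ℕ → K[X] × K[X]
  | 0 => (X, 1)
  | m + 1 => (hev P d (iter P Q d m).1 (iter P Q d m).2, hev Q d (iter P Q d m).1 (iter P Q d m).2)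

variable {P Q : K[X]} {d : ℕ}

lemma iter_natDegree (m : ℕ) :
    (iter P Q d m).1.natDegree ≤ d ^ m ∧ (iter P Q d m).2.natDegree ≤ d ^ m := by
  induction m with
  | zero => simp [iter]
  | succ m ih =>
    rw [pow_succ, mul_comm]
    exact ⟨hev_natDegree P d ih.1 ih.2, hev_natDegree Q d ih.1 ih.2⟩

lemma iter_coeff (h : IsCoprime P Q) (hP : P.natDegree ≤ d) (hQ : Q.natDegree ≤ d)
    (htop : P.coeff d ≠ 0 ∨ Q.coeff d ≠ 0) (m : ℕ) :
    (iter P Q d m).1.coeff (d ^ m) ≠ 0 ∨ (iter P Q d m).2.coeff (d ^ m) ≠ 0 := by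
  induction m with
  | zero => left; simp [iter]
  | succ m ih =>
    rw [pow_succ, mul_comm]
    exact hev_coeff_ne h hP hQ htop (iter_natDegree m).1 (iter_natDegree m).2 ih

lemma iter_isCoprime (h : IsCoprime P Q) (hP : P.natDegree ≤ d) (hQ : Q.natDegree ≤ d)
    (htop : P.coeff d ≠ 0 ∨ Q.coeff d ≠ 0) (m : ℕ) :
    IsCoprime (iter P Q d m).1 (iter P Q d m).2 := by
  induction m with
  | zero => exact isCoprime_one_right
  | succ m ih => exact hev_isCoprime h hP hQ htop ih

lemma iter_orbit (hP : P.natDegree ≤ d) (hQ : Q.natDegree ≤ d) (x : ℕ → K) (i m : ℕ)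
    (hx : ∀ j < m, Q.eval (x (i + j)) ≠ 0 ∧ x (i + j + 1) = P.eval (x (i + j)) / Q.eval (x (i + j))) :
    (iter P Q d m).2.eval (x i) ≠ 0 ∧
      (iter P Q d m).1.eval (x i) / (iter P Q d m).2.eval (x i) = x (i + m) := by
  induction m with
  | zero => simp [iter]
  | succ m ih =>
    obtain ⟨h1, h2⟩ := ih fun j hj => hx j (by omega)
    obtain ⟨h3, h4⟩ := hx m (by omega)
    have e1 : (iter P Q d (m + 1)).1.eval (x i) =
        (iter P Q d m).2.eval (x i) ^ d * P.eval (x (i + m)) := by
      change (hev P d (iter P Q d m).1 (iter P Q d m).2).eval (x i) = _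
      rw [hev_eval, hev_eq_eval P d hP _ _ h1, h2]
    have e2 : (iter P Q d (m + 1)).2.eval (x i) =
        (iter P Q d m).2.eval (x i) ^ d * Q.eval (x (i + m)) := by
      change (hev Q d (iter P Q d m).1 (iter P Q d m).2).eval (x i) = _
      rw [hev_eval, hev_eq_eval Q d hQ _ _ h1, h2]
    refine ⟨?_, ?_⟩
    · rw [e2]; exact mul_ne_zero (pow_ne_zero _ h1) h3
    · rw [e1, e2, ← add_assoc, h4]
      rw [mul_div_mul_left _ _ (pow_ne_zero _ h1)]

end iterates

end Pool.Agent.Helper93.RatODE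

end

section

set_option autoImplicit false

open Finset Polynomial

namespace Pool.Agent.Helper93.RatODE

open Pool.Agent.Helper33.UB (mapD mapD_natDegree D_eval)

variable {K : Type*} [Field K]

section derivation

variable {D : K → K}

lemma D_div (hmul : ∀ x y, D (x * y) = x * D y + y * D x) {u w : K} (hw : w ≠ 0) :
    w ^ 2 * D (u / w) = w * D u - u * D w := by
  have h := hmul (u / w) w
  rw [div_mul_cancel₀ u hw] at h
  rw [h]
  field_simp
  ring

end derivation

variable [DecidableEq K]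

/-- **A rational differential equation along an orbit is a Riccati equation.** -/
theorem riccati_of_ode {D : K → K} (hadd : ∀ x y, D (x + y) = D x + D y)
    (hmul : ∀ x y, D (x * y) = x * D y + y * D x) {U W : K[X]} (hcop : IsCoprime U W) {q : ℕ}
    (hU : U.natDegree ≤ q) (hW : W.natDegree ≤ q) (hmax : U.coeff q ≠ 0 ∨ W.coeff q ≠ 0)
    (r : ℕ) (hr : r < q)
    (Y' : Finset K) (hW0 : ∀ y ∈ Y', W.eval y ≠ 0) (hY' : (r + 1) * q + r < Y'.card)
    (hY : r + 1 < (Y'.image fun y => U.eval y / W.eval y).card)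
    {A Cp A' C' : K[X]} (h0 : A ≠ 0 ∨ Cp ≠ 0) (hA : A.natDegree ≤ r - 1) (hAr : A ≠ 0 → 1 ≤ r)
    (hC : Cp.natDegree ≤ r + 1)
    (hrel : ∀ y ∈ Y', A.eval (U.eval y / W.eval y) * D (U.eval y / W.eval y) =
      Cp.eval (U.eval y / W.eval y))
    (h0' : A' ≠ 0 ∨ C' ≠ 0) (hA' : A'.natDegree ≤ r - 1) (hC' : C'.natDegree ≤ r + 1)
    (hrel' : ∀ y ∈ Y', A'.eval y * D y = C'.eval y) :
    ∃ α β γ : K, ((Y'.image fun y => U.eval y / W.eval y).filter
      fun y => D y ≠ α * y ^ 2 + β * y + γ).card ≤ r := by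
  set F : K → K := fun y => U.eval y / W.eval y with hF
  set Y := Y'.image F with hYdef
  have hrel2 : ∀ y ∈ Y, A.eval y * D y = Cp.eval y := by
    intro y hy
    obtain ⟨z, hz, rfl⟩ := mem_image.mp hy
    exact hrel z hz
  have hA0' : A' ≠ 0 := by
    rintro rfl
    have hC0 : C' ≠ 0 := by
      rcases h0' with h | h
      · exact absurd rfl h
      · exact h
    apply hC0
    apply eq_zero_of_natDegree_lt_card_of_eval_eq_zero' C' Y'
    · intro y hy
      have := hrel' y hy
      rw [eval_zero, zero_mul] at this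
      exact this.symm
    · have : r + 1 ≤ (r + 1) * q := Nat.le_mul_of_pos_right _ (by omega)
      omega
  have hA0 : A ≠ 0 := by
    rintro rfl
    have hC0 : Cp ≠ 0 := by
      rcases h0 with h | h
      · exact absurd rfl h
      · exact h
    apply hC0
    apply eq_zero_of_natDegree_lt_card_of_eval_eq_zero' Cp Y
    · intro y hy
      have := hrel2 y hy
      rw [eval_zero, zero_mul] at this
      exact this.symm
    · omega
  have hr1 := hAr hA0
  -- remove the gcd
  set G := EuclideanDomain.gcd A Cp with hG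
  have hG0 : G ≠ 0 := by
    rw [hG, Ne, EuclideanDomain.gcd_eq_zero_iff]
    exact fun h => hA0 h.1
  obtain ⟨A1, hA1⟩ := EuclideanDomain.gcd_dvd_left A Cp
  obtain ⟨C1, hC1⟩ := EuclideanDomain.gcd_dvd_right A Cp
  rw [← hG] at hA1 hC1
  have hcop1 : IsCoprime A1 C1 := by
    have h1 := EuclideanDomain.gcd_eq_gcd_ab A Cp
    rw [← hG] at h1
    refine ⟨EuclideanDomain.gcdA A Cp, EuclideanDomain.gcdB A Cp, ?_⟩
    apply mul_left_cancel₀ hG0
    calc G * (EuclideanDomain.gcdA A Cp * A1 + EuclideanDomain.gcdB A Cp * C1)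
        = (G * A1) * EuclideanDomain.gcdA A Cp + (G * C1) * EuclideanDomain.gcdB A Cp := by ring
      _ = A * EuclideanDomain.gcdA A Cp + Cp * EuclideanDomain.gcdB A Cp := by rw [← hA1, ← hC1]
      _ = G * 1 := by rw [← h1, mul_one]
  have hA10 : A1 ≠ 0 := by
    rintro rfl; rw [mul_zero] at hA1; exact hA0 hA1
  set g := G.natDegree with hg
  set a := max A1.natDegree (C1.natDegree - 2) with ha
  have hgA : g + A1.natDegree ≤ r - 1 := by
    have := natDegree_mul hG0 hA10
    rw [← hA1] at this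
    omega
  have hgC : g + C1.natDegree ≤ r + 1 := by
    by_cases hC10 : C1 = 0
    · rw [hC10, natDegree_zero]; omega
    have := natDegree_mul hG0 hC10
    rw [← hC1] at this
    omega
  have hga : g + a ≤ r - 1 := by
    rw [ha]; omega
  have hA1a : A1.natDegree ≤ a := le_max_left _ _
  have hC1a : C1.natDegree ≤ a + 2 := by
    have : C1.natDegree - 2 ≤ a := le_max_right _ _
    omega
  have htop : A1.coeff a ≠ 0 ∨ C1.coeff (a + 2) ≠ 0 := by
    rcases le_total (C1.natDegree - 2) A1.natDegree with h | h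
    · left
      have : a = A1.natDegree := max_eq_left h
      rw [this]
      exact leadingCoeff_ne_zero.mpr hA10
    · have h3 : a = C1.natDegree - 2 := max_eq_right h
      by_cases h2 : A1.natDegree = a
      · left
        rw [← h2]
        exact leadingCoeff_ne_zero.mpr hA10
      · right
        have h4 : a + 2 = C1.natDegree := by omega
        rw [h4]
        refine leadingCoeff_ne_zero.mpr ?_
        rintro rfl
        simp at h4
  -- the forms
  set Ah := hev A1 a U W with hAh
  set Ch := hev C1 (a + 2) U W with hCh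
  set Γ := hev G g U W with hΓ
  set Ω := W * mapD D U - U * mapD D W with hΩ
  set Δ := W * derivative U - U * derivative W with hΔ
  set E := A' * Ω + Δ * C' with hE
  have hcop2 : IsCoprime Ah Ch := hev_isCoprime hcop1 hA1a hC1a htop hcop
  have dAh : Ah.natDegree ≤ a * q := hev_natDegree A1 a hU hW
  have dCh : Ch.natDegree ≤ (a + 2) * q := hev_natDegree C1 (a + 2) hU hW
  have dΓ : Γ.natDegree ≤ g * q := hev_natDegree G g hU hW
  have dΩ : Ω.natDegree ≤ 2 * q := by
    refine (natDegree_sub_le_of_le (m := 2 * q) (n := 2 * q) ?_ ?_).trans (max_self _).le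
    · refine natDegree_mul_le.trans ?_
      have := mapD_natDegree D U
      omega
    · refine natDegree_mul_le.trans ?_
      have := mapD_natDegree D W
      omega
  have dΔ : Δ.natDegree ≤ 2 * q - 1 := by
    refine (natDegree_sub_le_of_le (m := 2 * q - 1) (n := 2 * q - 1) ?_ ?_).trans (max_self _).le
    · refine natDegree_mul_le.trans ?_
      have := natDegree_derivative_le U
      omega
    · refine natDegree_mul_le.trans ?_
      have := natDegree_derivative_le W
      omega
  have dE : E.natDegree ≤ max (A'.natDegree + 2 * q) (2 * q + r) := by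
    apply natDegree_add_le_of_le
    · exact natDegree_mul_le.trans (Nat.add_le_add_left dΩ _)
    · refine natDegree_mul_le.trans ?_
      (clear * - D hr Y' A Cp A' hC' hr1 A1 C1 dΔ; omega)
  -- values
  have hval : ∀ y ∈ Y', E.eval y = A'.eval y * (W.eval y ^ 2 * D (F y)) := by
    intro y hy
    have h1 := D_div hmul (u := U.eval y) (hW0 y hy)
    rw [D_eval hadd hmul, D_eval hadd hmul] at h1
    have h2 := hrel' y hy
    simp only [hE, hΩ, hΔ, eval_add, eval_mul, eval_sub]
    rw [← h2]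
    simp only [hF]
    rw [h1]
    ring
  have hΓval : ∀ y ∈ Y', Γ.eval y = W.eval y ^ g * G.eval (F y) := by
    intro y hy
    rw [hΓ, hev_eval, hev_eq_eval G g le_rfl _ _ (hW0 y hy)]
  have hΓ0 : Γ ≠ 0 := by
    intro h
    apply hG0
    apply eq_zero_of_natDegree_lt_card_of_eval_eq_zero' G Y
    · intro y hy
      obtain ⟨z, hz, rfl⟩ := mem_image.mp hy
      have h1 := hΓval z hz
      rw [h, eval_zero] at h1
      rcases mul_eq_zero.mp h1.symm with h2 | h2
      · exact absurd h2 (pow_ne_zero _ (hW0 z hz))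
      · exact h2
    · omega
  have hid : Ah * E = A' * Ch := by
    have h1 : (Ah * E - A' * Ch) * Γ = 0 := by
      apply eq_zero_of_natDegree_lt_card_of_eval_eq_zero' _ Y'
      · intro y hy
        rw [eval_mul, eval_sub, eval_mul, eval_mul, hval y hy, hΓval y hy]
        have hWy := hW0 y hy
        have e1 : Ah.eval y = W.eval y ^ a * A1.eval (F y) := by
          rw [hAh, hev_eval, hev_eq_eval A1 a hA1a _ _ hWy]
        have e2 : Ch.eval y = W.eval y ^ (a + 2) * C1.eval (F y) := by
          rw [hCh, hev_eval, hev_eq_eval C1 (a + 2) hC1a _ _ hWy]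
        have h3 := hrel y hy
        change A.eval (F y) * D (F y) = Cp.eval (F y) at h3
        rw [hA1, hC1, eval_mul, eval_mul] at h3
        rw [e1, e2, pow_add]
        linear_combination (W.eval y ^ a * W.eval y ^ 2 * A'.eval y * W.eval y ^ g) * h3
      · refine lt_of_le_of_lt ?_ hY'
        refine natDegree_mul_le.trans ?_
        have e1 : (Ah * E - A' * Ch).natDegree ≤ (a + 2) * q + r := by
          refine (natDegree_sub_le_of_le (m := (a + 2) * q + r) (n := (a + 2) * q + r)
            ?_ ?_).trans (max_self _).le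
          · refine natDegree_mul_le.trans ?_
            have : (a + 2) * q = a * q + 2 * q := by ring
            have h5 : E.natDegree ≤ 2 * q + r := dE.trans (max_le (by omega) le_rfl)
            (clear * - Y' A Cp dAh this h5; omega)
          · refine natDegree_mul_le.trans ?_
            (clear * - D hr Y' A Cp C' hA' hr1 dCh; omega)
        have e2 : (a + 2) * q + r + g * q ≤ (r + 1) * q + r := by
          have : (a + 2) * q + g * q ≤ (r + 1) * q := by
            rw [← add_mul]
            exact Nat.mul_le_mul_right _ (by (clear * - D U W hr Y' C' hA' hr1 hgA hgC hga; omega))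
          omega
        omega
    rcases mul_eq_zero.mp h1 with h2 | h2
    · exact sub_eq_zero.mp h2
    · exact absurd h2 hΓ0
  have hdvd : Ah ∣ A' := by
    apply hcop2.dvd_of_dvd_mul_right
    exact ⟨_, hid.symm⟩
  have hAh0 : Ah ≠ 0 := fun h => hA0' (zero_dvd_iff.mp (h ▸ hdvd))
  have hdeg1 : Ah.natDegree ≤ A'.natDegree := natDegree_le_of_dvd hdvd hA0'
  have haq : a * q ≤ r := by
    by_cases ht : Ah.natDegree = a * q
    · (clear * - D hr Y' A Cp C' hA' hr1 hdeg1 ht; omega)
    · have ht' : Ah.natDegree < a * q := lt_of_le_of_ne dAh ht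
      have h1 := hev_coeff_ne hcop1 hA1a hC1a htop hU hW hmax
      have h2 : Ah.coeff (a * q) = 0 := coeff_eq_zero_of_natDegree_lt ht'
      have h3 : Ch.coeff ((a + 2) * q) ≠ 0 := by
        rcases h1 with h | h
        · exact absurd h2 h
        · exact h
      have h4 : Ch.natDegree = (a + 2) * q := natDegree_eq_of_le_of_coeff_ne_zero dCh h3
      have hCh0 : Ch ≠ 0 := by
        rintro h; rw [h, coeff_zero] at h3; exact h3 rfl
      have h5 : (A' * Ch).natDegree = A'.natDegree + (a + 2) * q := by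
        rw [natDegree_mul hA0' hCh0, h4]
      have h6 : (Ah * E).natDegree ≤ Ah.natDegree + max (A'.natDegree + 2 * q) (2 * q + r) :=
        natDegree_mul_le.trans (Nat.add_le_add_left dE _)
      rw [hid, h5] at h6
      have h7 : (a + 2) * q = a * q + 2 * q := by ring
      rcases le_total (A'.natDegree + 2 * q) (2 * q + r) with h8 | h8
      · rw [max_eq_right h8] at h6; omega
      · rw [max_eq_left h8] at h6; omega
  have ha0 : a = 0 := by
    by_contra h
    have : q ≤ a * q := Nat.le_mul_of_pos_left _ (Nat.pos_of_ne_zero h)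
    omega
  have hA1deg : A1.natDegree = 0 := by omega
  have hC1deg : C1.natDegree ≤ 2 := by omega
  obtain ⟨c, hc⟩ : ∃ c, A1 = C c := ⟨A1.coeff 0, eq_C_of_natDegree_eq_zero hA1deg⟩
  have hc0 : c ≠ 0 := by
    rintro rfl; rw [hc, C_0] at hA10; exact hA10 rfl
  refine ⟨C1.coeff 2 / c, C1.coeff 1 / c, C1.coeff 0 / c, ?_⟩
  have hsub : (Y.filter fun y => D y ≠ C1.coeff 2 / c * y ^ 2 + C1.coeff 1 / c * y + C1.coeff 0 / c) ⊆
      G.roots.toFinset := by
    intro y hy
    rw [mem_filter] at hy
    rw [Multiset.mem_toFinset, mem_roots hG0, IsRoot.def]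
    by_contra hGy
    apply hy.2
    have h1 := hrel2 y hy.1
    rw [hA1, hC1, hc, eval_mul, eval_mul, eval_C, mul_assoc] at h1
    have h2 := mul_left_cancel₀ hGy h1
    have h3 : C1.eval y = C1.coeff 2 * y ^ 2 + C1.coeff 1 * y + C1.coeff 0 := by
      rw [eval_eq_sum_range' (n := 3) (by omega), sum_range_succ, sum_range_succ, sum_range_one]
      ring
    rw [h3] at h2
    field_simp
    linear_combination h2
  refine (card_le_card hsub).trans ((Multiset.toFinset_card_le _).trans ((card_roots' _).trans ?_))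
  (clear * - D U W hr Y' C' hA' hr1 hgC hga hA1a hC1a ha0; omega)

end Pool.Agent.Helper93.RatODE

end

section

set_option autoImplicit false

open Finset Polynomial

namespace Pool.Agent.Helper93.RatODE

section more

variable {K : Type*} [Field K]

lemma hev_mul {L : Type*} [Field L] [Algebra K L] {F G : K[X]} {n m : ℕ} (hF : F.natDegree ≤ n)
    (hG : G.natDegree ≤ m) (u w : L) :
    hev (F * G) (n + m) u w = hev F n u w * hev G m u w := by
  by_cases hw : w = 0
  · subst hw
    rw [hev_right_zero, hev_right_zero, hev_right_zero, coeff_mul_add_eq_of_natDegree_le hF hG,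
      map_mul, pow_add]
    ring
  · rw [hev_eq _ _ (natDegree_mul_le.trans (Nat.add_le_add hF hG)) u w hw, hev_eq F n hF u w hw,
      hev_eq G m hG u w hw, map_mul, pow_add]
    ring

lemma hev_linear {S : Type*} [CommRing S] [Algebra K S] (a b : K) (u w : S) :
    hev (C a * X + C b) 1 u w = algebraMap K S a * u + algebraMap K S b * w := by
  unfold hev
  rw [sum_range_succ, sum_range_one]
  simp only [coeff_add, coeff_C_mul, coeff_X_zero, coeff_X_one, coeff_C_zero, coeff_C_succ, mul_zero,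
    zero_add, mul_one, add_zero, pow_zero, Nat.sub_self, pow_one, Nat.sub_zero]
  ring

end more

section iso

variable {k K : Type*} [Field k] [Field K] [Algebra k K]

/-- `hev` of the image polynomial -/
lemma hev_map_poly {S : Type*} [CommRing S] [Algebra K S] [Algebra k S] [IsScalarTower k K S]
    (P : k[X]) (n : ℕ) (u w : S) :
    hev (P.map (algebraMap k K)) n u w = hev P n u w := by
  unfold hev
  apply sum_congr rfl
  intro j _
  rw [coeff_map, ← IsScalarTower.algebraMap_apply]

/-- **Constant cross ratios along an orbit force isotriviality.** -/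
theorem exists_conj_of_cross {P Q : K[X]} {d : ℕ} (hd : 1 ≤ d) (hPQ : IsCoprime P Q)
    (hP : P.natDegree ≤ d) (hQ : Q.natDegree ≤ d) (htop : P.coeff d ≠ 0 ∨ Q.coeff d ≠ 0)
    (x : ℕ → K)
    (hx : ∀ i ≤ 2 * d, Q.eval (x i) ≠ 0 ∧ x (i + 1) = P.eval (x i) / Q.eval (x i))
    (hinj : ∀ i ≤ 2 * d, ∀ j ≤ 2 * d, x i = x j → i = j)
    (hcross : ∀ i ≤ 2 * d + 1, ∃ c : k,
      algebraMap k K c = (x i - x 0) * (x 1 - x 2) / ((x i - x 2) * (x 1 - x 0))) :
    ∃ (A : Matrix (Fin 2) (Fin 2) K) (P' Q' : k[X]) (c : K), A.det ≠ 0 ∧ c ≠ 0 ∧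
      P'.natDegree ≤ d ∧ Q'.natDegree ≤ d ∧
      IsCoprime (P'.map (algebraMap k K)) (Q'.map (algebraMap k K)) ∧
      (P'.coeff d ≠ 0 ∨ Q'.coeff d ≠ 0) ∧
      (hev P d (C (A 0 0) * X + C (A 0 1)) (C (A 1 0) * X + C (A 1 1)) : K[X]) =
        C c * (C (A 0 0) * P'.map (algebraMap k K) + C (A 0 1) * Q'.map (algebraMap k K)) ∧
      (hev Q d (C (A 0 0) * X + C (A 0 1)) (C (A 1 0) * X + C (A 1 1)) : K[X]) =
        C c * (C (A 1 0) * P'.map (algebraMap k K) + C (A 1 1) * Q'.map (algebraMap k K)) := by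
  classical
  have h01 : x 1 - x 0 ≠ 0 := by
    intro h
    have := hinj 1 (by omega) 0 (by omega) (sub_eq_zero.mp h)
    omega
  have h12 : x 1 - x 2 ≠ 0 := by
    intro h
    have := hinj 1 (by omega) 2 (by omega) (sub_eq_zero.mp h)
    omega
  have h02 : x 0 - x 2 ≠ 0 := by
    intro h
    have := hinj 0 (by omega) 2 (by omega) (sub_eq_zero.mp h)
    omega
  -- the Moebius matrix
  obtain ⟨m11, hm11⟩ : ∃ m, m = x 1 - x 2 := ⟨_, rfl⟩
  obtain ⟨m12, hm12⟩ : ∃ m, m = -(x 0 * (x 1 - x 2)) := ⟨_, rfl⟩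
  obtain ⟨m21, hm21⟩ : ∃ m, m = x 1 - x 0 := ⟨_, rfl⟩
  obtain ⟨m22, hm22⟩ : ∃ m, m = -(x 2 * (x 1 - x 0)) := ⟨_, rfl⟩
  set δ := m11 * m22 - m12 * m21 with hδ
  have hδ0 : δ ≠ 0 := by
    have : δ = (x 1 - x 2) * (x 1 - x 0) * (x 0 - x 2) := by
      rw [hδ, hm11, hm12, hm21, hm22]; ring
    rw [this]
    exact mul_ne_zero (mul_ne_zero h12 h01) h02
  set a : ℕ → K := fun i => m11 * x i + m12 with ha
  set b : ℕ → K := fun i => m21 * x i + m22 with hb
  have ha' : ∀ i, a i = (x i - x 0) * (x 1 - x 2) := fun i => by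
    simp only [ha, hm11, hm12]; ring
  have hb' : ∀ i, b i = (x i - x 2) * (x 1 - x 0) := fun i => by
    simp only [hb, hm21, hm22]; ring
  -- the conjugated map
  set U0 : K[X] := C m22 * X + C (-m12) with hU0
  set W0 : K[X] := C (-m21) * X + C m11 with hW0
  have dU0 : U0.natDegree ≤ 1 := natDegree_linear_le
  have dW0 : W0.natDegree ≤ 1 := natDegree_linear_le
  have hUW : IsCoprime U0 W0 := by
    refine ⟨C (δ⁻¹ * m21), C (δ⁻¹ * m22), ?_⟩
    have : C (δ⁻¹ * m21) * U0 + C (δ⁻¹ * m22) * W0 = C (δ⁻¹ * δ) := by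
      rw [hU0, hW0, hδ]
      simp only [C_mul, C_neg, C_sub]
      ring
    rw [this, inv_mul_cancel₀ hδ0, C_1]
  have htopUW : U0.coeff 1 ≠ 0 ∨ W0.coeff 1 ≠ 0 := by
    right
    have : W0.coeff 1 = -(x 1 - x 0) := by rw [hW0]; simp [hm21]
    rw [this]
    exact neg_ne_zero.mpr h01
  set P1 : K[X] := hev P d U0 W0 with hP1
  set Q1 : K[X] := hev Q d U0 W0 with hQ1
  have dP1 : P1.natDegree ≤ d := by
    have := hev_natDegree P d dU0 dW0
    rwa [mul_one] at this
  have dQ1 : Q1.natDegree ≤ d := by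
    have := hev_natDegree Q d dU0 dW0
    rwa [mul_one] at this
  have cop1 : IsCoprime P1 Q1 := hev_isCoprime hPQ hP hQ htop hUW
  have top1 : P1.coeff d ≠ 0 ∨ Q1.coeff d ≠ 0 := by
    have := hev_coeff_ne hPQ hP hQ htop dU0 dW0 htopUW
    rwa [mul_one] at this
  set Pt : K[X] := C m11 * P1 + C m12 * Q1 with hPt
  set Qt : K[X] := C m21 * P1 + C m22 * Q1 with hQt
  have dPt : Pt.natDegree ≤ d :=
    natDegree_add_le_of_degree_le ((natDegree_C_mul_le _ _).trans dP1)
      ((natDegree_C_mul_le _ _).trans dQ1)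
  have dQt : Qt.natDegree ≤ d :=
    natDegree_add_le_of_degree_le ((natDegree_C_mul_le _ _).trans dP1)
      ((natDegree_C_mul_le _ _).trans dQ1)
  have eP1 : C δ * P1 = C m22 * Pt + C (-m12) * Qt := by
    rw [hPt, hQt, hδ]; simp only [C_mul, C_neg, C_sub]; ring
  have eQ1 : C δ * Q1 = C (-m21) * Pt + C m11 * Qt := by
    rw [hPt, hQt, hδ]; simp only [C_mul, C_neg, C_sub]; ring
  have copt : IsCoprime Pt Qt := by
    obtain ⟨s, t, hst⟩ := cop1
    refine ⟨C δ⁻¹ * (s * C m22 + t * C (-m21)), C δ⁻¹ * (s * C (-m12) + t * C m11), ?_⟩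
    have h1 : C δ⁻¹ * C δ = (1 : K[X]) := by rw [← C_mul, inv_mul_cancel₀ hδ0, C_1]
    linear_combination (C δ⁻¹ * C δ) * hst - (C δ⁻¹ * s) * eP1 - (C δ⁻¹ * t) * eQ1 + h1
  have topt : Pt.coeff d ≠ 0 ∨ Qt.coeff d ≠ 0 := by
    by_contra hcon
    push Not at hcon
    have h1 := congrArg (fun p => coeff p d) eP1
    have h2 := congrArg (fun p => coeff p d) eQ1
    simp only [coeff_add, coeff_C_mul, hcon.1, hcon.2, mul_zero, add_zero] at h1 h2
    rcases top1 with h | h
    · rcases mul_eq_zero.mp h1 with h3 | h3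
      · exact hδ0 h3
      · exact h h3
    · rcases mul_eq_zero.mp h2 with h3 | h3
      · exact hδ0 h3
      · exact h h3
  -- the points
  choose! t ht using hcross
  set al : ℕ → k := fun i => if b i = 0 then 1 else t i with hal
  set be : ℕ → k := fun i => if b i = 0 then 0 else 1 with hbe
  set s : ℕ → K := fun i => if b i = 0 then a i else b i with hs
  have hab : ∀ i, a i ≠ 0 ∨ b i ≠ 0 := by
    intro i
    by_contra hcon
    push Not at hcon
    have h1 : m22 * a i - m12 * b i = δ * x i := by simp only [ha, hb, hδ]; ring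
    have h2 : -m21 * a i + m11 * b i = δ := by simp only [ha, hb, hδ]; ring
    rw [hcon.1, hcon.2] at h2
    apply hδ0
    rw [← h2]; ring
  have hs0 : ∀ i, s i ≠ 0 := by
    intro i
    simp only [hs]
    split_ifs with h
    · rcases hab i with h1 | h1
      · exact h1
      · exact absurd h h1
    · exact h
  have hsa : ∀ i ≤ 2 * d + 1, a i = s i * algebraMap k K (al i) := by
    intro i hi
    simp only [hs, hal]
    split_ifs with h
    · simp
    · rw [ht i hi, ← ha', ← hb']
      field_simp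
  have hsb : ∀ i ≤ 2 * d + 1, b i = s i * algebraMap k K (be i) := by
    intro i hi
    simp only [hs, hbe]
    split_ifs with h
    · simp [h]
    · simp
  -- values of the conjugated map
  have hval1 : ∀ (R : K[X]) (i : ℕ), R.natDegree ≤ d → hev (hev R d U0 W0) d (a i) (b i) =
      δ ^ d * R.eval (x i) := by
    intro R i hR
    have h1 := hev_comp R d dU0 dW0 (a i) (b i)
    rw [mul_one] at h1
    rw [h1, hU0, hW0, hev_linear, hev_linear]
    have e1 : algebraMap K K m22 * a i + algebraMap K K (-m12) * b i = δ * x i := by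
      simp only [ha, hb, hδ, Algebra.algebraMap_self, RingHom.id_apply]; ring
    have e2 : algebraMap K K (-m21) * a i + algebraMap K K m11 * b i = δ * 1 := by
      simp only [ha, hb, hδ, Algebra.algebraMap_self, RingHom.id_apply]; ring
    rw [e1, e2, hev_smul_arg, hev_eq_eval R d hR _ _ one_ne_zero]
    simp
  have hvalP : ∀ i ≤ 2 * d, hev Pt d (a i) (b i) = δ ^ d * Q.eval (x i) * a (i + 1) := by
    intro i hi
    obtain ⟨hQ0, hx1⟩ := hx i hi
    rw [hPt, hev_add, hev_C_mul, hev_C_mul, hP1, hQ1, hval1 P i hP, hval1 Q i hQ]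
    simp only [ha, hx1, Algebra.algebraMap_self, RingHom.id_apply]
    (clear * - hQ0 hδ0; field_simp)
  have hvalQ : ∀ i ≤ 2 * d, hev Qt d (a i) (b i) = δ ^ d * Q.eval (x i) * b (i + 1) := by
    intro i hi
    obtain ⟨hQ0, hx1⟩ := hx i hi
    rw [hQt, hev_add, hev_C_mul, hev_C_mul, hP1, hQ1, hval1 P i hP, hval1 Q i hQ]
    simp only [hb, hx1, Algebra.algebraMap_self, RingHom.id_apply]
    (clear * - hQ0 hδ0; field_simp)
  -- the same in terms of the constants
  have hkey : ∀ i ≤ 2 * d, ∃ κ : K, hev Pt d (algebraMap k K (al i)) (algebraMap k K (be i)) =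
      κ * algebraMap k K (al (i + 1)) ∧
      hev Qt d (algebraMap k K (al i)) (algebraMap k K (be i)) = κ * algebraMap k K (be (i + 1)) := by
    intro i hi
    have h1 := hvalP i hi
    have h2 := hvalQ i hi
    rw [hsa i (by omega), hsb i (by omega), hev_smul_arg, hsa (i + 1) (by omega)] at h1
    rw [hsa i (by omega), hsb i (by omega), hev_smul_arg, hsb (i + 1) (by omega)] at h2
    have h3 := pow_ne_zero d (hs0 i)
    refine ⟨δ ^ d * Q.eval (x i) * s (i + 1) / s i ^ d, ?_, ?_⟩
    · field_simp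
      linear_combination h1
    · field_simp
      linear_combination h2
  -- a functional
  obtain ⟨φ, hφ⟩ : ∃ φ : Module.Dual k K, φ (Pt.coeff d) ≠ 0 ∨ φ (Qt.coeff d) ≠ 0 := by
    by_contra hcon
    push Not at hcon
    rcases topt with h | h
    · exact h ((Module.forall_dual_apply_eq_zero_iff k _).mp fun φ => (hcon φ).1)
    · exact h ((Module.forall_dual_apply_eq_zero_iff k _).mp fun φ => (hcon φ).2)
  let app : K[X] → k[X] := fun F => ∑ j ∈ range (d + 1), C (φ (F.coeff j)) * X ^ j
  have app_coeff : ∀ (F : K[X]) (j : ℕ), j ≤ d → (app F).coeff j = φ (F.coeff j) := by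
    intro F j hj
    change (∑ j ∈ range (d + 1), C (φ (F.coeff j)) * X ^ j).coeff j = _
    rw [finsetSum_coeff, sum_eq_single j]
    · simp
    · intro i _ hi
      rw [coeff_C_mul_X_pow, if_neg (Ne.symm hi)]
    · intro h; exact absurd (mem_range.mpr (by omega)) h
  have app_deg : ∀ F : K[X], (app F).natDegree ≤ d := by
    intro F
    apply natDegree_sum_le_of_forall_le
    intro i hi
    refine (natDegree_C_mul_X_pow_le _ _).trans ?_
    rw [mem_range] at hi
    omega
  have app_hev : ∀ (F : K[X]) (u w c : k),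
      φ (hev F d (algebraMap k K u) (algebraMap k K w) * algebraMap k K c) =
        hev (app F) d u w * c := by
    intro F u w c
    unfold hev
    rw [sum_mul, sum_mul, map_sum]
    apply sum_congr rfl
    intro j hj
    rw [mem_range] at hj
    rw [app_coeff F j (by omega)]
    have : algebraMap K K (F.coeff j) * algebraMap k K u ^ j * algebraMap k K w ^ (d - j) *
        algebraMap k K c = (u ^ j * w ^ (d - j) * c) • F.coeff j := by
      rw [Algebra.smul_def, map_mul, map_mul, map_pow, map_pow, Algebra.algebraMap_self,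
        RingHom.id_apply]
      ring
    rw [this, map_smul, smul_eq_mul, Algebra.algebraMap_self, RingHom.id_apply]
    ring
  set P' := app Pt with hP'
  set Q' := app Qt with hQ'
  have hsys : ∀ i ≤ 2 * d, hev P' d (al i) (be i) * be (i + 1) = hev Q' d (al i) (be i) * al (i + 1) := by
    intro i hi
    obtain ⟨κ, h1, h2⟩ := hkey i hi
    rw [← app_hev, ← app_hev, h1, h2]
    congr 1
    ring
  set PK := P'.map (algebraMap k K) with hPK
  set QK := Q'.map (algebraMap k K) with hQK
  have dPK : PK.natDegree ≤ d := natDegree_map_le.trans (app_deg _)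
  have dQK : QK.natDegree ≤ d := natDegree_map_le.trans (app_deg _)
  have hsysK : ∀ i ≤ 2 * d, hev PK d (algebraMap k K (al i)) (algebraMap k K (be i)) *
      algebraMap k K (be (i + 1)) = hev QK d (algebraMap k K (al i)) (algebraMap k K (be i)) *
      algebraMap k K (al (i + 1)) := by
    intro i hi
    have h1 := congrArg (algebraMap k K) (hsys i hi)
    rw [map_mul, map_mul] at h1
    have h2 := hev_map (Algebra.ofId k K) P' d (al i) (be i)
    have h3 := hev_map (Algebra.ofId k K) Q' d (al i) (be i)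
    rw [Algebra.ofId_apply, Algebra.ofId_apply, Algebra.ofId_apply] at h2 h3
    rw [h2, h3] at h1
    rw [hPK, hQK, hev_map_poly, hev_map_poly]
    exact h1
  -- the resultant-like polynomial vanishes
  set R : K[X] := PK * Qt - QK * Pt with hR
  have dR : R.natDegree ≤ d + d :=
    (natDegree_sub_le_of_le (natDegree_mul_le.trans (Nat.add_le_add dPK dQt))
      (natDegree_mul_le.trans (Nat.add_le_add dQK dPt))).trans (max_self _).le
  have hRval : ∀ i ≤ 2 * d, hev R (d + d) (algebraMap k K (al i)) (algebraMap k K (be i)) = 0 := by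
    intro i hi
    obtain ⟨κ, h1, h2⟩ := hkey i hi
    have h3 := hsysK i hi
    have e1 : R = PK * Qt + C (-1) * (QK * Pt) := by
      rw [hR, C_neg, C_1]; ring
    rw [e1, hev_add, hev_C_mul, hev_mul dPK dQt, hev_mul dQK dPt, h1, h2]
    rw [Algebra.algebraMap_self, RingHom.id_apply]
    linear_combination κ * h3
  have hR0 : R = 0 := by
    have hb2 : ∀ i ≤ 2 * d, b i = 0 ↔ i = 2 := by
      intro i hi
      rw [hb', mul_eq_zero]
      constructor
      · rintro (h | h)
        · exact hinj i hi 2 (by omega) (sub_eq_zero.mp h)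
        · exact absurd h h01
      · rintro rfl; left; ring
    have htopR : R.coeff (d + d) = 0 := by
      have h1 := hRval 2 (by omega)
      have h2 : b 2 = 0 := (hb2 2 (by omega)).mpr rfl
      simp only [hal, hbe, if_pos h2, map_one, map_zero, hev_right_zero, one_pow, mul_one,
        Algebra.algebraMap_self, RingHom.id_apply] at h1
      exact h1
    by_contra hRne
    have hdeg : R.natDegree < d + d := by
      refine lt_of_le_of_ne dR ?_
      intro h
      rw [← h] at htopR
      exact hRne (leadingCoeff_eq_zero.mp htopR)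
    apply hRne
    set I := (range (2 * d + 1)).erase 2 with hI
    have hinjt : Set.InjOn (fun i => a i / b i) (I : Set ℕ) := by
      intro i hi j hj hij
      simp only [hI, coe_erase, coe_range, Set.mem_sdiff, Set.mem_Iio, Set.mem_singleton_iff] at hi hj
      have bi : b i ≠ 0 := fun h => hi.2 ((hb2 i (by omega)).mp h)
      have bj : b j ≠ 0 := fun h => hj.2 ((hb2 j (by omega)).mp h)
      simp only at hij
      rw [div_eq_div_iff bi bj] at hij
      have h1 : δ * (x i - x j) = 0 := by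
        have : a i * b j - a j * b i = δ * (x i - x j) := by
          simp only [ha, hb, hδ]; ring
        rw [← this, hij]; ring
      rcases mul_eq_zero.mp h1 with h | h
      · exact absurd h hδ0
      · exact hinj i (by omega) j (by omega) (sub_eq_zero.mp h)
    apply eq_zero_of_natDegree_lt_card_of_eval_eq_zero' R (I.image fun i => a i / b i)
    · intro y hy
      obtain ⟨i, hi, rfl⟩ := mem_image.mp hy
      rw [hI, mem_erase, mem_range] at hi
      have bi : b i ≠ 0 := fun h => hi.1 ((hb2 i (by omega)).mp h)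
      have h1 := hRval i (by omega)
      simp only [hal, hbe, if_neg bi, map_one] at h1
      rw [hev_eq_eval R _ dR _ _ one_ne_zero, ht i (by omega), ← ha', ← hb'] at h1
      simpa using h1
    · rw [card_image_of_injOn hinjt, hI, card_erase_of_mem (mem_range.mpr (by omega)), card_range]
      omega
  have hcomm : PK * Qt = QK * Pt := sub_eq_zero.mp hR0
  obtain ⟨e, heP, heQ⟩ : ∃ e : K[X], PK = e * Pt ∧ QK = e * Qt := by
    obtain ⟨s', t', hst⟩ := copt
    refine ⟨s' * PK + t' * QK, ?_, ?_⟩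
    · linear_combination (-PK) * hst + t' * hcomm
    · linear_combination (-QK) * hst - s' * hcomm
  have hKtop : PK.coeff d ≠ 0 ∨ QK.coeff d ≠ 0 := by
    rw [hPK, hQK, coeff_map, coeff_map, hP', hQ', app_coeff _ _ le_rfl, app_coeff _ _ le_rfl]
    rcases hφ with h | h
    · left; exact (_root_.map_ne_zero _).mpr h
    · right; exact (_root_.map_ne_zero _).mpr h
  have he0 : e ≠ 0 := by
    rintro rfl
    rw [zero_mul] at heP heQ
    rw [heP, heQ] at hKtop
    simp at hKtop
  have hedeg : e.natDegree = 0 := by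
    rcases topt with h | h
    · have h1 : Pt.natDegree = d := natDegree_eq_of_le_of_coeff_ne_zero dPt h
      have hPt0 : Pt ≠ 0 := by rintro h2; rw [h2, coeff_zero] at h; exact h rfl
      have h2 := natDegree_mul he0 hPt0
      rw [← heP, h1] at h2
      omega
    · have h1 : Qt.natDegree = d := natDegree_eq_of_le_of_coeff_ne_zero dQt h
      have hQt0 : Qt ≠ 0 := by rintro h2; rw [h2, coeff_zero] at h; exact h rfl
      have h2 := natDegree_mul he0 hQt0
      rw [← heQ, h1] at h2
      omega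
  obtain ⟨c', hc'⟩ : ∃ c', e = C c' := ⟨e.coeff 0, eq_C_of_natDegree_eq_zero hedeg⟩
  have hc0 : c' ≠ 0 := by
    rintro rfl; rw [hc', C_0] at he0; exact he0 rfl
  have hcc : C (δ * c')⁻¹ * (C δ * C c') = (1 : K[X]) := by
    rw [← C_mul, ← C_mul, inv_mul_cancel₀ (mul_ne_zero hδ0 hc0), C_1]
  refine ⟨!![m22, -m12; -m21, m11], P', Q', (δ * c')⁻¹, ?_, inv_ne_zero (mul_ne_zero hδ0 hc0),
    app_deg _, app_deg _, ?_, ?_, ?_, ?_⟩
  · rw [Matrix.det_fin_two_of]
    have : m22 * m11 - -m12 * -m21 = δ := by rw [hδ]; ring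
    rw [this]; exact hδ0
  · rw [← hPK, ← hQK, heP, heQ, hc']
    have hu : IsUnit (C c' : K[X]) := isUnit_C.mpr hc0.isUnit
    exact (isCoprime_mul_unit_left hu Pt Qt).mpr copt
  · rcases hφ with h | h
    · left; rw [hP', app_coeff _ _ le_rfl]; exact h
    · right; rw [hQ', app_coeff _ _ le_rfl]; exact h
  · simp only [Matrix.of_apply, Matrix.cons_val', Matrix.cons_val_zero, Matrix.cons_val_one,
      Matrix.cons_val_fin_one]
    change P1 = C (δ * c')⁻¹ * (C m22 * PK + C (-m12) * QK)
    rw [heP, heQ, hc']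
    linear_combination (-P1) * hcc + (C (δ * c')⁻¹ * C c') * eP1
  · simp only [Matrix.of_apply, Matrix.cons_val', Matrix.cons_val_zero, Matrix.cons_val_one,
      Matrix.cons_val_fin_one]
    change Q1 = C (δ * c')⁻¹ * (C (-m21) * PK + C m11 * QK)
    rw [heP, heQ, hc']
    linear_combination (-Q1) * hcc + (C (δ * c')⁻¹ * C c') * eQ1

end iso

end Pool.Agent.Helper93.RatODE

end

section

set_option autoImplicit false

open Finset Polynomial

namespace Pool.Agent.Helper33.PS

open Pool.Agent.Helper33.UB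

lemma Orb.map {K E : Type*} [Field K] [Field E] (φ : K →+* E) {A B : K[X]} {z : ℕ → K} {n : ℕ}
    (h : Orb A B z n) : Orb (A.map φ) (B.map φ) (fun j => φ (z j)) n where
  ne j hj := by
    rw [eval_map, eval₂_at_apply, Ne, map_eq_zero]
    exact h.ne j hj
  step j hj := by
    rw [eval_map, eval₂_at_apply, eval_map, eval₂_at_apply, ← map_div₀, ← h.step j hj]

end Pool.Agent.Helper33.PS

end

section

set_option autoImplicit false

open Finset Polynomial

namespace Pool.Agent.Helper98.PS

open Pool.Agent.Helper93.RatODE Pool.Agent.Helper55.RD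

variable {K : Type*} [Field K]

/-- the polynomials of the determinants of sections 2 and 3 -/
noncomputable def SP {K : Type*} [Field K] (A B : K[X]) (d k : ℕ) (a : Fin k → Fin d) : K[X] :=
  ∏ t : Fin k, (iter A B d t).1 ^ (a t : ℕ) * (iter A B d t).2 ^ (d - 1 - (a t : ℕ))

section step2

lemma sum_pow_sub_one (d k : ℕ) (hd : 1 ≤ d) : ∑ t : Fin k, (d - 1) * d ^ (t : ℕ) = d ^ k - 1 := by
  have h : ∀ k : ℕ, ∑ t ∈ range k, (d - 1) * d ^ t + 1 = d ^ k := by
    intro k
    induction k with
    | zero => simp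
    | succ k ih =>
      rw [sum_range_succ, add_right_comm, ih, pow_succ]
      nth_rewrite 1 [← one_mul (d ^ k)]
      rw [← add_mul, mul_comm]
      congr 1
      omega
  rw [Fin.sum_univ_eq_sum_range (fun t => (d - 1) * d ^ t) k]
  have := h k
  omega

lemma natDegree_SP_factor {A B : K[X]} {d k : ℕ} (a : Fin k → Fin d) (t : Fin k) :
    ((iter A B d t).1 ^ (a t : ℕ) * (iter A B d t).2 ^ (d - 1 - (a t : ℕ))).natDegree ≤
      (d - 1) * d ^ (t : ℕ) := by
  have h1 : ((iter A B d t).1 ^ (a t : ℕ)).natDegree ≤ a t * d ^ (t : ℕ) :=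
    natDegree_pow_le_of_le _ (iter_natDegree (t : ℕ)).1
  have h2 : ((iter A B d t).2 ^ (d - 1 - (a t : ℕ))).natDegree ≤ (d - 1 - a t) * d ^ (t : ℕ) :=
    natDegree_pow_le_of_le _ (iter_natDegree (t : ℕ)).2
  refine (natDegree_mul_le_of_le h1 h2).trans (le_of_eq ?_)
  rw [← add_mul]
  congr 1
  have := (a t).2
  omega

/-- degree bound -/
theorem natDegree_SP_lt {A B : K[X]} {d k : ℕ} (hd : 1 ≤ d) (a : Fin k → Fin d) :
    (SP A B d k a).natDegree < d ^ k := by
  have h1 : (SP A B d k a).natDegree ≤ ∑ t : Fin k, (d - 1) * d ^ (t : ℕ) :=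
    (natDegree_prod_le _ _).trans (sum_le_sum fun t _ => natDegree_SP_factor a t)
  rw [sum_pow_sub_one d k hd] at h1
  have : 0 < d ^ k := by positivity
  omega

end step2

end Pool.Agent.Helper98.PS

end

section

set_option autoImplicit false

open Finset Polynomial

namespace Pool.Agent.Helper98.PS

open Pool.Agent.Helper33 Pool.Agent.Helper33.PS Pool.Agent.Helper93.RatODE Pool.Agent.Helper55.RD

variable {K : Type*} [Field K]

section algebra

/-- the matrix of products of orbit points -/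
noncomputable def Mz (z : ℕ → K) (δ k : ℕ) : Matrix (Fin (δ ^ k)) (Fin (δ ^ k)) K :=
  Matrix.of fun l c =>
    ∏ t : Fin k, z (l + t) ^ ((finFunctionFinEquiv.symm c : Fin k → Fin δ) t : ℕ)

/-- row factor -/
noncomputable def rowf (A B : K[X]) (δ k : ℕ) (x : K) : K :=
  ∏ t : Fin k, (iter A B δ t).2.eval x ^ (δ - 1)

lemma iter_orb {A B : K[X]} {δ n : ℕ} (hA : A.natDegree ≤ δ) (hB : B.natDegree ≤ δ) {z : ℕ → K}
    (hz : Orb A B z n) (l t : ℕ) (hl : l + t ≤ n) :
    (iter A B δ t).2.eval (z l) ≠ 0 ∧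
      (iter A B δ t).1.eval (z l) = (iter A B δ t).2.eval (z l) * z (l + t) := by
  have h := iter_orbit hA hB z l t fun j hj => ⟨hz.ne (l + j) (by omega), hz.step (l + j) (by omega)⟩
  refine ⟨h.1, ?_⟩
  rw [← h.2, mul_div_cancel₀ _ h.1]

lemma SP_eval_orb {A B : K[X]} {δ k n : ℕ} (hA : A.natDegree ≤ δ) (hB : B.natDegree ≤ δ)
    {z : ℕ → K} (hz : Orb A B z n) (l : ℕ) (hl : l + k ≤ n + 1) (a : Fin k → Fin δ) :
    (SP A B δ k a).eval (z l) = rowf A B δ k (z l) * ∏ t : Fin k, z (l + t) ^ (a t : ℕ) := by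
  rw [SP, eval_prod, rowf, ← prod_mul_distrib]
  refine prod_congr rfl fun t _ => ?_
  have h := (iter_orb hA hB hz l t (by have := t.2; omega)).2
  rw [eval_mul, eval_pow, eval_pow, h, mul_pow]
  have e : δ - 1 = a t + (δ - 1 - a t) := by have := (a t).2; omega
  conv_rhs => rw [e, pow_add]
  ring

lemma det_identity {A B : K[X]} {δ k n : ℕ} (hδ : 1 ≤ δ) (hA : A.natDegree ≤ δ)
    (hB : B.natDegree ≤ δ) {z : ℕ → K} (hz : Orb A B z n) (hn : δ ^ k + k ≤ n + 1) :
    (∏ l : Fin (δ ^ k), rowf A B δ k (z l)) * (Mz z δ k).det =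
      (Matrix.vandermonde fun l : Fin (δ ^ k) => z l).det *
      (Matrix.of fun a (c : Fin (δ ^ k)) =>
        (SP A B δ k (finFunctionFinEquiv.symm a)).coeff (c : ℕ)).det := by
  rw [← Matrix.det_mul_column, ← Matrix.det_transpose (Matrix.of fun a (c : Fin (δ ^ k)) =>
        (SP A B δ k (finFunctionFinEquiv.symm a)).coeff (c : ℕ)), ← Matrix.det_mul]
  congr 1
  ext l c
  rw [Matrix.of_apply, Matrix.mul_apply]
  have h1 := SP_eval_orb hA hB hz (k := k) l (by have := l.2; omega) (finFunctionFinEquiv.symm c)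
  rw [Mz, Matrix.of_apply, ← h1, eval_eq_sum_range' (natDegree_SP_lt hδ _),
    ← Fin.sum_univ_eq_sum_range (fun i => (SP A B δ k (finFunctionFinEquiv.symm c)).coeff i *
      z l ^ i) (δ ^ k)]
  refine sum_congr rfl fun i _ => ?_
  rw [Matrix.vandermonde_apply, Matrix.transpose_apply, Matrix.of_apply, mul_comm]

end algebra

end Pool.Agent.Helper98.PS

end

section

set_option autoImplicit false

open Finset Polynomial

namespace Pool.Agent.Helper98.PS

open Pool.Agent.Helper33 Pool.Agent.Helper33.PS Pool.Agent.Helper93.RatODE Pool.Agent.Helper55.RD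

section algebra

variable {K : Type*} [Field K]

/-- the rows of the interpolation matrix -/
noncomputable def rw2 (x y : ℕ → K) (d k : ℕ) (j : ℕ) (c : Fin (d ^ k) × Fin (d ^ k)) : K :=
  (∏ t : Fin k, x (j + t) ^ ((finFunctionFinEquiv.symm c.1 : Fin k → Fin d) t : ℕ)) *
    (∏ t : Fin k, y (j + t) ^ ((finFunctionFinEquiv.symm c.2 : Fin k → Fin d) t : ℕ))

/-- coefficient matrix -/
noncomputable def CM (A B : K[X]) (d k : ℕ) : Matrix (Fin (d ^ k)) (Fin (d ^ k)) K :=
  Matrix.of fun a (c : Fin (d ^ k)) => (SP A B d k (finFunctionFinEquiv.symm a)).coeff (c : ℕ)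

lemma SP_eval_sum {A B : K[X]} {d k : ℕ} (hd : 1 ≤ d) (a : Fin (d ^ k)) (x : K) :
    (SP A B d k (finFunctionFinEquiv.symm a)).eval x =
      ∑ c : Fin (d ^ k), CM A B d k a c * x ^ (c : ℕ) := by
  rw [eval_eq_sum_range' (natDegree_SP_lt hd _),
    ← Fin.sum_univ_eq_sum_range (fun i => (SP A B d k (finFunctionFinEquiv.symm a)).coeff i *
      x ^ i) (d ^ k)]
  rfl

lemma rw2_eval {A B A' B' : K[X]} {d k n : ℕ} (hAB : IsRat A B d) (hAB' : IsRat A' B' d)
    {x y : ℕ → K} (hx : Orb A B x n) (hy : Orb A' B' y n) (j : ℕ) (hj : j + k ≤ n + 1)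
    (c : Fin (d ^ k) × Fin (d ^ k)) :
    (rowf A B d k (x j) * rowf A' B' d k (y j)) * rw2 x y d k j c =
      (SP A B d k (finFunctionFinEquiv.symm c.1)).eval (x j) *
        (SP A' B' d k (finFunctionFinEquiv.symm c.2)).eval (y j) := by
  rw [SP_eval_orb hAB.dA hAB.dB hx j hj, SP_eval_orb hAB'.dA hAB'.dB hy j hj, rw2]
  ring

open Kronecker in
lemma det_identity2 {A B A' B' : K[X]} {d k n : ℕ} (hd : 1 ≤ d) (hAB : IsRat A B d)
    (hAB' : IsRat A' B' d) {x y : ℕ → K} (hx : Orb A B x n) (hy : Orb A' B' y n)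
    (φ : Fin (d ^ k) × Fin (d ^ k) → ℕ) (hφ : ∀ i, φ i + k ≤ n + 1) :
    (∏ i, (rowf A B d k (x (φ i)) * rowf A' B' d k (y (φ i)))) *
        (Matrix.of fun i c => rw2 x y d k (φ i) c).det =
      (Matrix.of fun i (ab : Fin (d ^ k) × Fin (d ^ k)) =>
        x (φ i) ^ (ab.1 : ℕ) * y (φ i) ^ (ab.2 : ℕ)).det *
      ((CM A B d k) ⊗ₖ (CM A' B' d k)).det := by
  rw [← Matrix.det_mul_column, ← Matrix.det_transpose ((CM A B d k) ⊗ₖ (CM A' B' d k)),
    ← Matrix.det_mul]
  congr 1
  ext i c
  rw [Matrix.of_apply, Matrix.of_apply, Matrix.mul_apply, rw2_eval hAB hAB' hx hy _ (hφ i),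
    SP_eval_sum hd, SP_eval_sum hd, sum_mul_sum, Fintype.sum_prod_type]
  refine sum_congr rfl fun a _ => sum_congr rfl fun b _ => ?_
  rw [Matrix.transpose_apply, Matrix.kroneckerMap_apply, Matrix.of_apply]
  ring

lemma rowf_ne_zero {A B : K[X]} {d k n : ℕ} (hAB : IsRat A B d) {x : ℕ → K} (hx : Orb A B x n)
    (j : ℕ) (hj : j + k ≤ n + 1) : rowf A B d k (x j) ≠ 0 := by
  refine prod_ne_zero_iff.mpr fun t _ => ?_
  have := t.2
  exact pow_ne_zero _ (iter_orb hAB.dA hAB.dB hx j t (by omega)).1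

end algebra

section localbound

variable {K : Type*} [Field K]

lemma isRat_scale {A B : K[X]} {d : ℕ} (hAB : IsRat A B d) {c : K} (hc : c ≠ 0) :
    IsRat (C c * A) (C c * B) d := by
  have hu : IsUnit (C c : K[X]) := isUnit_C.mpr (isUnit_iff_ne_zero.mpr hc)
  refine ⟨?_, (natDegree_C_mul_le _ _).trans hAB.dA, (natDegree_C_mul_le _ _).trans hAB.dB, ?_⟩
  · exact (isCoprime_mul_unit_left hu A B).mpr hAB.cop
  · rcases hAB.top with h | h
    · left; rw [coeff_C_mul]; exact mul_ne_zero hc h
    · right; rw [coeff_C_mul]; exact mul_ne_zero hc h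

lemma orb_scale {A B : K[X]} {n : ℕ} {z : ℕ → K} (hz : Orb A B z n) {c : K} (hc : c ≠ 0) :
    Orb (C c * A) (C c * B) z n := by
  refine ⟨fun j hj => ?_, fun j hj => ?_⟩
  · rw [eval_mul, eval_C]
    exact mul_ne_zero hc (hz.ne j hj)
  · rw [eval_mul, eval_mul, eval_C, mul_div_mul_left _ _ hc]
    exact hz.step j hj

end localbound

end Pool.Agent.Helper98.PS

end

section

set_option autoImplicit false

open Finset Polynomial

namespace Pool.Agent.Helper43.PT

open Pool.Agent.Helper33 Pool.Agent.Helper45.FR Pool.Agent.Helper33.UB Pool.Agent.Helper51.RatTree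
  Pool.Agent.Helper93.RatODE Pool.Agent.Helper33.PS Pool.Agent.Helper55.RD Pool.Agent.Helper98.PS

section mat

variable {K : Type*} [Field K]

/-- the unipotent matrix of the shift of the coordinate -/
noncomputable def shiftM (a : K) (d κ : ℕ) : Matrix (Fin (d ^ κ)) (Fin (d ^ κ)) K :=
  Matrix.of fun i j => ∏ t : Fin κ,
    ((-a) ^ (((finFunctionFinEquiv.symm i) t : ℕ) - ((finFunctionFinEquiv.symm j) t : ℕ)) *
      (((finFunctionFinEquiv.symm i) t : ℕ).choose ((finFunctionFinEquiv.symm j) t : ℕ) : K))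

lemma det_shiftM (a : K) (d κ : ℕ) : (shiftM a d κ).det = 1 := by
  have h : (shiftM a d κ).IsLowerTriangular := by
    intro i j hij
    have hij' : i < j := hij
    rw [shiftM, Matrix.of_apply]
    by_contra hne
    rw [← Ne, prod_ne_zero_iff] at hne
    have h1 : ∀ t : Fin κ, ((finFunctionFinEquiv.symm j) t : ℕ) ≤ ((finFunctionFinEquiv.symm i) t : ℕ) := by
      intro t
      by_contra hcon
      push Not at hcon
      apply hne t (mem_univ t)
      rw [Nat.choose_eq_zero_of_lt hcon]
      simp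
    have h2 : (j : ℕ) ≤ (i : ℕ) := by
      have e1 := finFunctionFinEquiv_apply (finFunctionFinEquiv.symm j)
      have e2 := finFunctionFinEquiv_apply (finFunctionFinEquiv.symm i)
      rw [Equiv.apply_symm_apply] at e1 e2
      rw [e1, e2]
      exact sum_le_sum fun t _ => Nat.mul_le_mul_right _ (h1 t)
    exact absurd hij' (not_lt.2 h2)
  rw [Matrix.det_of_isLowerTriangular _ h]
  apply prod_eq_one
  intro i _
  rw [shiftM, Matrix.of_apply]
  apply prod_eq_one
  intro t _
  simp

/-- values of the products of iterates -/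
lemma SP_eval {F G : K[X]} {d : ℕ} (κ : ℕ) (α : Fin κ → Fin d) (y : K) (z : ℕ → K)
    (hW : ∀ t, (iter F G d t).1.eval y = z t * (iter F G d t).2.eval y) :
    (SP F G d κ α).eval y = ∏ t : Fin κ, (z t ^ (α t : ℕ) * (iter F G d t).2.eval y ^ (d - 1)) := by
  rw [SP, eval_prod]
  apply prod_congr rfl
  intro t _
  rw [eval_mul, eval_pow, eval_pow, hW, mul_pow, mul_assoc, ← pow_add]
  congr 2
  have := (α t).2
  omega

lemma mat_eq {F G : K[X]} {d : ℕ} (hd : 1 ≤ d) (κ : ℕ) (a : K) (y : Fin (d ^ κ) → K)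
    (z : ℕ → Fin (d ^ κ) → K)
    (hW : ∀ t j, (iter F G d t).1.eval (y j) = z t j * (iter F G d t).2.eval (y j)) :
    shiftM a d κ * ((Matrix.of fun i (c : Fin (d ^ κ)) =>
      (SP F G d κ (finFunctionFinEquiv.symm i)).coeff (c : ℕ)) * (Matrix.vandermonde y).transpose) =
      Matrix.of fun i j => ∏ t : Fin κ, ((z t j - a) ^ ((finFunctionFinEquiv.symm i) t : ℕ) *
        (iter F G d t).2.eval (y j) ^ (d - 1)) := by
  have h1 : ((Matrix.of fun i (c : Fin (d ^ κ)) =>
      (SP F G d κ (finFunctionFinEquiv.symm i)).coeff (c : ℕ)) * (Matrix.vandermonde y).transpose) =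
      Matrix.of fun i j => (SP F G d κ (finFunctionFinEquiv.symm i)).eval (y j) := by
    ext i j
    rw [Matrix.mul_apply, Matrix.of_apply, eval_eq_sum_range' (natDegree_SP_lt hd _),
      ← Fin.sum_univ_eq_sum_range (fun c => (SP F G d κ (finFunctionFinEquiv.symm i)).coeff c * y j ^ c)]
    simp [Matrix.vandermonde_apply]
  rw [h1]
  ext i j
  rw [Matrix.mul_apply, Matrix.of_apply]
  have h2 : ∀ β : Fin (d ^ κ), shiftM a d κ i β *
      (Matrix.of fun i j => (SP F G d κ (finFunctionFinEquiv.symm i)).eval (y j)) β j =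
      ∏ t : Fin κ, (((-a) ^ (((finFunctionFinEquiv.symm i) t : ℕ) - ((finFunctionFinEquiv.symm β) t : ℕ)) *
      (((finFunctionFinEquiv.symm i) t : ℕ).choose ((finFunctionFinEquiv.symm β) t : ℕ) : K)) *
      (z t j ^ ((finFunctionFinEquiv.symm β) t : ℕ) * (iter F G d t).2.eval (y j) ^ (d - 1))) := by
    intro β
    rw [Matrix.of_apply, SP_eval κ _ (y j) (fun t => z t j) (fun t => hW t j), shiftM, Matrix.of_apply,
      ← prod_mul_distrib]
  rw [sum_congr rfl fun β _ => h2 β]
  rw [Equiv.sum_comp finFunctionFinEquiv.symm (fun β : Fin κ → Fin d => ∏ t : Fin κ,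
    (((-a) ^ (((finFunctionFinEquiv.symm i) t : ℕ) - (β t : ℕ)) *
      (((finFunctionFinEquiv.symm i) t : ℕ).choose (β t : ℕ) : K)) *
      (z t j ^ (β t : ℕ) * (iter F G d t).2.eval (y j) ^ (d - 1))))]
  have h3 := prod_univ_sum (fun _ : Fin κ => (univ : Finset (Fin d))) (fun t b =>
    (((-a) ^ (((finFunctionFinEquiv.symm i) t : ℕ) - (b : ℕ)) *
      (((finFunctionFinEquiv.symm i) t : ℕ).choose (b : ℕ) : K)) *
      (z t j ^ (b : ℕ) * (iter F G d t).2.eval (y j) ^ (d - 1))))
  rw [Fintype.piFinset_univ] at h3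
  rw [← h3]
  apply prod_congr rfl
  intro t _
  rw [sub_eq_add_neg, add_pow, sum_mul]
  set n := ((finFunctionFinEquiv.symm i) t : ℕ) with hn
  have hnd : n < d := ((finFunctionFinEquiv.symm i) t).2
  rw [Fin.sum_univ_eq_sum_range (fun b => (((-a) ^ (n - b) * (n.choose b : K)) *
      (z t j ^ b * (iter F G d t).2.eval (y j) ^ (d - 1))))]
  rw [← sum_subset (range_subset_range.2 (show n + 1 ≤ d by omega))]
  · apply sum_congr rfl
    intro b _
    ring
  · intro b _ hb
    rw [mem_range, not_lt] at hb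
    rw [Nat.choose_eq_zero_of_lt (by omega)]
    simp

end mat

end Pool.Agent.Helper43.PT

end
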