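import Pool.Agent.Helper23.MB.Inst

/-!
Parts of Helper33.UB.AM, Helper33.UB.Greedy, Helper33.UB.ODE, Helper61.BBGermA, Helper34.Dep.Defs, Helper34.Dep.Val, Helper34.Dep.Ex, Helper3.Dep.Strip, Helper34.Dep.Tree, Helper34.Dep.Deg, Helper34.Dep.Dyn, Helper34.Dep.Core, Helper98.Dep.Grp, Helper34.Dep.PartA, Helper36.PT.Mob
-/

attribute [-simp] Valuation.IsUniformizer.val
attribute [local instance 5000]
  Pool.Agent.Helper23.MB.Inst.rCharZero Pool.Agent.Helper23.MB.Inst.rALM
  Pool.Agent.Helper23.MB.Inst.rARM Pool.Agent.Helper23.MB.Inst.rALSM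
  Pool.Agent.Helper23.MB.Inst.rARSM Pool.Agent.Helper23.MB.Inst.rARRLE
  Pool.Agent.Helper23.MB.Inst.rALRLE Pool.Agent.Helper23.MB.Inst.rARRLT
  Pool.Agent.Helper23.MB.Inst.rALRLT Pool.Agent.Helper23.MB.Inst.rPMRLT
  Pool.Agent.Helper23.MB.Inst.rMPRLT Pool.Agent.Helper23.MB.Inst.rPMM
  Pool.Agent.Helper23.MB.Inst.rMPM Pool.Agent.Helper23.MB.Inst.rPMSM
  Pool.Agent.Helper23.MB.Inst.rMPSM Pool.Agent.Helper23.MB.Inst.rEAOL
  Pool.Agent.Helper23.MB.Inst.rIOR Pool.Agent.Helper23.MB.Inst.rISOR
  Pool.Agent.Helper23.MB.Inst.rNZD Pool.Agent.Helper23.MB.Inst.zCharZero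
  Pool.Agent.Helper23.MB.Inst.zALM Pool.Agent.Helper23.MB.Inst.zARM
  Pool.Agent.Helper23.MB.Inst.zIOR Pool.Agent.Helper23.MB.Inst.zISOR
  Pool.Agent.Helper23.MB.Inst.zNZD Pool.Agent.Helper23.MB.Inst.qCharZero
  Pool.Agent.Helper23.MB.Inst.free Pool.Agent.Helper23.MB.Inst.faith
  Pool.Agent.Helper23.MB.Inst.torsionFree Pool.Agent.Helper23.MB.Inst.rfFaith
  Pool.Agent.Helper23.MB.Inst.hAdd Pool.Agent.Helper23.MB.Inst.hAddM
  Pool.Agent.Helper23.MB.Inst.hMul Pool.Agent.Helper23.MB.Inst.hMon
  Pool.Agent.Helper23.MB.Inst.hZero Pool.Agent.Helper23.MB.Inst.hOne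
  Pool.Agent.Helper23.MB.Inst.hMZ Pool.Agent.Helper23.MB.Inst.hRing
  Pool.Agent.Helper23.MB.Inst.aAdd Pool.Agent.Helper23.MB.Inst.aAddM
  Pool.Agent.Helper23.MB.Inst.aMul Pool.Agent.Helper23.MB.Inst.aMon
  Pool.Agent.Helper23.MB.Inst.aZero Pool.Agent.Helper23.MB.Inst.aOne
  Pool.Agent.Helper23.MB.Inst.aMZ Pool.Agent.Helper23.MB.Inst.aRing

namespace Pool.Agent.Helper16
end Pool.Agent.Helper16
namespace Pool.Agent.Helper3.Dep
end Pool.Agent.Helper3.Dep
namespace Pool.Agent.Helper34.Dep
end Pool.Agent.Helper34.Dep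
namespace Pool.Agent.Helper36.DT
end Pool.Agent.Helper36.DT
namespace Pool.Agent.Helper38.DT
end Pool.Agent.Helper38.DT
namespace Pool.Agent.Helper45.FR
end Pool.Agent.Helper45.FR
namespace Pool.Agent.Helper47.EN
end Pool.Agent.Helper47.EN
namespace Pool.Agent.Helper47.RR
end Pool.Agent.Helper47.RR
namespace Pool.Agent.Helper61.BBGermA
end Pool.Agent.Helper61.BBGermA
namespace Pool.Agent.Helper64.Dep
end Pool.Agent.Helper64.Dep
namespace Pool.Agent.Helper93.RatODE
end Pool.Agent.Helper93.RatODE

section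

set_option autoImplicit false

open Finset Polynomial

namespace Pool.Agent.Helper33.UB

/-- An enumeration of `I` by pairs. -/
structure Enum {α : Type*} [DecidableEq α] (I : Finset α) {m : ℕ} (A B : Fin m → α) : Prop where
  injA : Function.Injective A
  injB : Function.Injective B
  ne : ∀ i j, A i ≠ B j
  cover : I = univ.image A ∪ univ.image B

section enum

variable {α : Type*} [DecidableEq α] {I : Finset α} {m : ℕ} {A B : Fin m → α}

lemma Enum.sum (h : Enum I A B) {M : Type*} [AddCommMonoid M] (F : α → M) :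
    ∑ x ∈ I, F x = ∑ i, F (A i) + ∑ i, F (B i) := by
  rw [h.cover, sum_union, sum_image, sum_image]
  · intro i _ j _ hij; exact h.injB hij
  · intro i _ j _ hij; exact h.injA hij
  · rw [disjoint_left]
    intro x hx hx'
    obtain ⟨i, _, rfl⟩ := mem_image.mp hx
    obtain ⟨j, _, hj⟩ := mem_image.mp hx'
    exact h.ne i j hj.symm

lemma Enum.memA (h : Enum I A B) (i : Fin m) : A i ∈ I := by
  rw [h.cover]; exact mem_union_left _ (mem_image_of_mem _ (mem_univ i))

lemma Enum.memB (h : Enum I A B) (i : Fin m) : B i ∈ I := by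
  rw [h.cover]; exact mem_union_right _ (mem_image_of_mem _ (mem_univ i))

lemma Enum.swap (h : Enum I A B) (p : Fin m → Prop) [DecidablePred p] :
    Enum I (fun i => if p i then A i else B i) (fun i => if p i then B i else A i) := by
  refine ⟨?_, ?_, ?_, ?_⟩
  · intro i j hij
    simp only at hij
    split_ifs at hij
    · exact h.injA hij
    · exact absurd hij (h.ne _ _)
    · exact absurd hij.symm (h.ne _ _)
    · exact h.injB hij
  · intro i j hij
    simp only at hij
    split_ifs at hij
    · exact h.injB hij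
    · exact absurd hij.symm (h.ne _ _)
    · exact absurd hij (h.ne _ _)
    · exact h.injA hij
  · intro i j hij
    split_ifs at hij with h1 h2 h2
    · exact h.ne _ _ hij
    · have := h.injA hij; subst this; exact h2 h1
    · have := h.injB hij; subst this; exact h1 h2
    · exact h.ne _ _ hij.symm
  · ext x
    rw [h.cover]
    simp only [mem_union, mem_image, mem_univ, true_and]
    constructor
    · rintro (⟨i, rfl⟩ | ⟨i, rfl⟩)
      · by_cases hp : p i
        · left; exact ⟨i, by rw [if_pos hp]⟩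
        · right; exact ⟨i, by rw [if_neg hp]⟩
      · by_cases hp : p i
        · right; exact ⟨i, by rw [if_pos hp]⟩
        · left; exact ⟨i, by rw [if_neg hp]⟩
    · rintro (⟨i, rfl⟩ | ⟨i, rfl⟩)
      · by_cases hp : p i
        · left; exact ⟨i, by rw [if_pos hp]⟩
        · right; exact ⟨i, by rw [if_neg hp]⟩
      · by_cases hp : p i
        · right; exact ⟨i, by rw [if_pos hp]⟩
        · left; exact ⟨i, by rw [if_neg hp]⟩

end enum

variable {K : Type*} [Field K] [DecidableEq K]

/-- `ω_x = Dx / ∏_{y ≠ x} (x - y)` -/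
noncomputable def om (D : K → K) (I : Finset K) (x : K) : K := D x / ∏ y ∈ I.erase x, (x - y)

/-- the Hankel matrix of moments -/
noncomputable def hankel (D : K → K) (I : Finset K) (r : ℕ) : Matrix (Fin r) (Fin r) K :=
  Matrix.of fun a b => ∑ x ∈ I, om D I x * x ^ ((a : ℕ) + (b : ℕ))

/-- the polynomial vanishing at all `a t`, `t ≠ s` -/
noncomputable def nod {r : ℕ} (a : Fin r → K) (s : Fin r) : K[X] := ∏ t ∈ univ.erase s, (X - C (a t))

lemma nod_eval {r : ℕ} (a : Fin r → K) (s : Fin r) (z : K) :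
    (nod a s).eval z = ∏ t ∈ univ.erase s, (z - a t) := by
  unfold nod
  rw [eval_prod]
  simp

lemma nod_natDegree {r : ℕ} (a : Fin r → K) (s : Fin r) : (nod a s).natDegree < r := by
  unfold nod
  rw [natDegree_prod_of_monic _ _ (fun t _ => monic_X_sub_C (a t))]
  simp only [natDegree_X_sub_C, sum_const, smul_eq_mul, mul_one]
  rw [card_erase_of_mem (mem_univ s), card_univ, Fintype.card_fin]
  have := s.pos
  omega

/-- coefficient matrix of the nodal polynomials -/
noncomputable def cm {r : ℕ} (a : Fin r → K) : Matrix (Fin r) (Fin r) K :=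
  Matrix.of fun s j => (nod a s).coeff j

lemma cm_sum {r : ℕ} (a : Fin r → K) (s : Fin r) (z : K) :
    ∑ j : Fin r, cm a s j * z ^ (j : ℕ) = (nod a s).eval z := by
  rw [eval_eq_sum_range' (nod_natDegree a s)]
  unfold cm
  simp only [Matrix.of_apply]
  exact (Finset.sum_range fun i => (nod a s).coeff i * z ^ i).symm

lemma cm_mul_vandermonde {r : ℕ} (a : Fin r → K) :
    cm a * (Matrix.vandermonde a).transpose =
      Matrix.diagonal fun s => ∏ t ∈ univ.erase s, (a s - a t) := by
  ext s t
  rw [Matrix.mul_apply]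
  simp only [Matrix.transpose_apply, Matrix.vandermonde_apply]
  rw [cm_sum, nod_eval]
  by_cases hst : s = t
  · subst hst
    rw [Matrix.diagonal_apply_eq]
  · rw [Matrix.diagonal_apply_ne _ hst]
    exact prod_eq_zero (mem_erase.mpr ⟨fun h => hst h.symm, mem_univ t⟩) (sub_self _)

lemma det_cm_mul {r : ℕ} (a : Fin r → K) :
    (cm a).det * ∏ i : Fin r, ∏ j ∈ Ioi i, (a j - a i) = ∏ s : Fin r, ∏ t ∈ univ.erase s, (a s - a t) := by
  rw [← Matrix.det_vandermonde, ← Matrix.det_transpose (Matrix.vandermonde a), ← Matrix.det_mul,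
    cm_mul_vandermonde, Matrix.det_diagonal]

/-- the four point sum -/
noncomputable def tau (D : K → K) (F : Finset K) : K := ∑ x ∈ F, om D F x

lemma entry_eq (D : K → K) {I : Finset K} {r : ℕ} {A B : Fin (r + 1) → K} (h : Enum I A B)
    (s t : Fin r) :
    (cm (fun i : Fin r => A i.succ) * hankel D I r * (cm fun i : Fin r => B i.succ).transpose) s t =
      tau D {A s.succ, B t.succ, A 0, B 0} := by
  set a : Fin r → K := fun i => A i.succ with ha
  set b : Fin r → K := fun i => B i.succ with hb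
  have h1 : (cm a * hankel D I r * (cm b).transpose) s t =
      ∑ x ∈ I, om D I x * ((nod a s).eval x * (nod b t).eval x) := by
    have e : ∀ x, (nod a s).eval x * (nod b t).eval x =
        ∑ i : Fin r, ∑ j : Fin r, cm a s i * cm b t j * x ^ ((i : ℕ) + (j : ℕ)) := by
      intro x
      rw [← cm_sum, ← cm_sum, sum_mul_sum]
      apply sum_congr rfl
      intro i _
      apply sum_congr rfl
      intro j _
      rw [pow_add]; ring
    simp only [e, Matrix.mul_apply, Matrix.transpose_apply, hankel, Matrix.of_apply, mul_sum, sum_mul]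
    rw [sum_comm]
    calc _ = ∑ i : Fin r, ∑ j : Fin r, ∑ x ∈ I, cm a s i * (om D I x * x ^ ((i : ℕ) + (j : ℕ))) * cm b t j := rfl
      _ = ∑ i : Fin r, ∑ x ∈ I, ∑ j : Fin r, cm a s i * (om D I x * x ^ ((i : ℕ) + (j : ℕ))) * cm b t j :=
          sum_congr rfl fun i _ => sum_comm
      _ = ∑ x ∈ I, ∑ i : Fin r, ∑ j : Fin r, cm a s i * (om D I x * x ^ ((i : ℕ) + (j : ℕ))) * cm b t j :=
          sum_comm
      _ = _ := by
          apply sum_congr rfl
          intro x _
          apply sum_congr rfl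
          intro i _
          apply sum_congr rfl
          intro j _
          ring
  rw [h1]
  set F : Finset K := {A s.succ, B t.succ, A 0, B 0} with hF
  have hFI : F ⊆ I := by
    intro x hx
    rw [hF] at hx
    simp only [mem_insert, mem_singleton] at hx
    rcases hx with rfl | rfl | rfl | rfl
    · exact h.memA _
    · exact h.memB _
    · exact h.memA _
    · exact h.memB _
  have hdiff : I \ F = (univ.erase s).image a ∪ (univ.erase t).image b := by
    ext x
    rw [mem_sdiff, h.cover, hF]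
    simp only [mem_union, mem_image, mem_univ, true_and, mem_insert, mem_singleton, mem_erase, not_or,
      and_true, ha, hb]
    constructor
    · rintro ⟨⟨i, rfl⟩ | ⟨i, rfl⟩, h1, h2, h3, h4⟩
      · left
        have hi0 : i ≠ 0 := by rintro rfl; exact h3 rfl
        obtain ⟨j, rfl⟩ := Fin.exists_succ_eq.mpr hi0
        exact ⟨j, fun hj => h1 (by rw [hj]), rfl⟩
      · right
        have hi0 : i ≠ 0 := by rintro rfl; exact h4 rfl
        obtain ⟨j, rfl⟩ := Fin.exists_succ_eq.mpr hi0
        exact ⟨j, fun hj => h2 (by rw [hj]), rfl⟩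
    · rintro (⟨j, hj, rfl⟩ | ⟨j, hj, rfl⟩)
      · refine ⟨Or.inl ⟨_, rfl⟩, ?_, ?_, ?_, ?_⟩
        · intro e; exact hj (Fin.succ_injective _ (h.injA e))
        · exact h.ne _ _
        · intro e; exact Fin.succ_ne_zero _ (h.injA e)
        · exact h.ne _ _
      · refine ⟨Or.inr ⟨_, rfl⟩, ?_, ?_, ?_, ?_⟩
        · exact (h.ne _ _).symm
        · intro e; exact hj (Fin.succ_injective _ (h.injB e))
        · exact (h.ne _ _).symm
        · intro e; exact Fin.succ_ne_zero _ (h.injB e)
  have hprod : ∀ x, ∏ y ∈ I \ F, (x - y) = (nod a s).eval x * (nod b t).eval x := by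
    intro x
    rw [hdiff, prod_union, prod_image, prod_image, nod_eval, nod_eval]
    · intro i _ j _ hij; exact Fin.succ_injective _ (h.injB hij)
    · intro i _ j _ hij; exact Fin.succ_injective _ (h.injA hij)
    · rw [disjoint_left]
      intro x hx hx'
      obtain ⟨i, _, rfl⟩ := mem_image.mp hx
      obtain ⟨j, _, hj⟩ := mem_image.mp hx'
      exact h.ne _ _ hj.symm
  unfold tau
  rw [← sum_subset hFI]
  · apply sum_congr rfl
    intro x hx
    unfold om
    have herase : I.erase x = (I \ F) ∪ F.erase x := by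
      ext y
      simp only [mem_erase, mem_union, mem_sdiff]
      constructor
      · rintro ⟨h1, h2⟩
        by_cases hy : y ∈ F
        · exact Or.inr ⟨h1, hy⟩
        · exact Or.inl ⟨h2, hy⟩
      · rintro (⟨h1, h2⟩ | ⟨h1, h2⟩)
        · refine ⟨?_, h1⟩
          rintro rfl; exact h2 hx
        · exact ⟨h1, hFI h2⟩
    have hdisj : Disjoint (I \ F) (F.erase x) := by
      rw [disjoint_left]
      intro y hy hy'
      exact (mem_sdiff.mp hy).2 (mem_of_mem_erase hy')
    rw [herase, prod_union hdisj, ← hprod]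
    have hne : ∏ y ∈ I \ F, (x - y) ≠ 0 := by
      rw [prod_ne_zero_iff]
      intro y hy
      apply sub_ne_zero.mpr
      rintro rfl
      exact (mem_sdiff.mp hy).2 hx
    rw [mul_comm, ← mul_div_assoc, mul_div_mul_left _ _ hne]
  · intro x hx hxF
    rw [← hprod]
    have : ∏ y ∈ I \ F, (x - y) = 0 := prod_eq_zero (mem_sdiff.mpr ⟨hx, hxF⟩) (sub_self x)
    rw [this, mul_zero]

end Pool.Agent.Helper33.UB

end

section

set_option autoImplicit false

open Finset

namespace Pool.Agent.Helper33.UB

section greedy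

variable {α : Type*} [DecidableEq α]

/-- adding a pair to an enumeration -/
lemma Enum.cons {I : Finset α} {m : ℕ} {A B : Fin m → α} {a b : α} (ha : a ∈ I) (hb : b ∈ I)
    (hab : a ≠ b) (h : Enum ((I.erase a).erase b) A B) :
    Enum I (Fin.cons a A : Fin (m + 1) → α) (Fin.cons b B : Fin (m + 1) → α) := by
  have hA : ∀ i, A i ≠ b ∧ A i ≠ a ∧ A i ∈ I := by
    intro i
    have := h.memA i
    rw [mem_erase, mem_erase] at this
    exact ⟨this.1, this.2.1, this.2.2⟩
  have hB : ∀ i, B i ≠ b ∧ B i ≠ a ∧ B i ∈ I := by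
    intro i
    have := h.memB i
    rw [mem_erase, mem_erase] at this
    exact ⟨this.1, this.2.1, this.2.2⟩
  refine ⟨?_, ?_, ?_, ?_⟩
  · rw [Fin.cons_injective_iff]
    refine ⟨?_, h.injA⟩
    rintro ⟨i, hi⟩
    exact (hA i).2.1 hi
  · rw [Fin.cons_injective_iff]
    refine ⟨?_, h.injB⟩
    rintro ⟨i, hi⟩
    exact (hB i).1 hi
  · intro i j
    refine Fin.cases ?_ (fun i => ?_) i
    · refine Fin.cases ?_ (fun j => ?_) j
      · exact hab
      · exact Ne.symm (hB j).2.1
    · refine Fin.cases ?_ (fun j => ?_) j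
      · exact (hA i).1
      · exact h.ne i j
  · ext x
    simp only [mem_union, mem_image, mem_univ, true_and]
    constructor
    · intro hx
      by_cases hxa : x = a
      · left; exact ⟨0, by rw [hxa]; rfl⟩
      by_cases hxb : x = b
      · right; exact ⟨0, by rw [hxb]; rfl⟩
      have hx' : x ∈ (I.erase a).erase b := mem_erase.mpr ⟨hxb, mem_erase.mpr ⟨hxa, hx⟩⟩
      rw [h.cover] at hx'
      rcases mem_union.mp hx' with h1 | h1
      · obtain ⟨i, _, rfl⟩ := mem_image.mp h1
        left; exact ⟨i.succ, rfl⟩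
      · obtain ⟨i, _, rfl⟩ := mem_image.mp h1
        right; exact ⟨i.succ, rfl⟩
    · rintro (⟨i, rfl⟩ | ⟨i, rfl⟩)
      · refine Fin.cases ?_ (fun i => ?_) i
        · exact ha
        · exact (hA i).2.2
      · refine Fin.cases ?_ (fun i => ?_) i
        · exact hb
        · exact (hB i).2.2

/-- **Greedy matching.** -/
lemma exists_greedy (Rl : α → α → Prop) [DecidableRel Rl] (N0 : ℕ) (m : ℕ) :
    ∀ I : Finset α, I.card = 2 * m →
      (∀ s ⊆ I, N0 < s.card → ∃ a ∈ s, ∃ b ∈ s, a ≠ b ∧ Rl a b) →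
      ∃ A B : Fin m → α, Enum I A B ∧
        2 * (univ.filter fun i => ¬ Rl (A i) (B i)).card ≤ N0 := by
  induction m with
  | zero =>
    intro I hI _
    rw [mul_zero, card_eq_zero] at hI
    subst hI
    refine ⟨Fin.elim0, Fin.elim0, ⟨fun i => i.elim0, fun i => i.elim0, fun i => i.elim0, ?_⟩, ?_⟩
    · ext x; simp
    · simp
  | succ m ih =>
    intro I hI hR
    have hcard : ∀ a b, a ∈ I → b ∈ I → a ≠ b → ((I.erase a).erase b).card = 2 * m := by
      intro a b ha hb hab
      rw [card_erase_of_mem (mem_erase.mpr ⟨Ne.symm hab, hb⟩), card_erase_of_mem ha, hI]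
      omega
    by_cases hbig : N0 < I.card
    · obtain ⟨a, ha, b, hb, hab, hRab⟩ := hR I Subset.rfl hbig
      obtain ⟨A, B, hE, hbad⟩ := ih ((I.erase a).erase b) (hcard a b ha hb hab) (by
        intro s hs hs2
        exact hR s ((hs.trans (erase_subset _ _)).trans (erase_subset _ _)) hs2)
      refine ⟨_, _, Enum.cons ha hb hab hE, ?_⟩
      have hneg : ¬ ¬ Rl ((Fin.cons a A : Fin (m + 1) → α) 0) ((Fin.cons b B : Fin (m + 1) → α) 0) := by
        rw [not_not]; exact hRab
      rw [Fin.univ_succ, filter_cons_of_neg (p := fun i => ¬ Rl ((Fin.cons a A : Fin (m + 1) → α) i)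
        ((Fin.cons b B : Fin (m + 1) → α) i)) (hp := hneg), filter_map, card_map]
      exact hbad
    · -- everything may be bad
      obtain ⟨a, ha, b, hb, hab⟩ : ∃ a ∈ I, ∃ b ∈ I, a ≠ b := by
        have : 1 < I.card := by omega
        obtain ⟨a, ha, b, hb, hab⟩ := one_lt_card.mp this
        exact ⟨a, ha, b, hb, hab⟩
      obtain ⟨A, B, hE, _⟩ := ih ((I.erase a).erase b) (hcard a b ha hb hab) (by
        intro s hs hs2
        exact hR s ((hs.trans (erase_subset _ _)).trans (erase_subset _ _)) hs2)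
      refine ⟨_, _, Enum.cons ha hb hab hE, ?_⟩
      have h1 := card_filter_le (univ : Finset (Fin (m + 1)))
        (fun i => ¬ Rl ((Fin.cons a A : Fin (m + 1) → α) i) ((Fin.cons b B : Fin (m + 1) → α) i))
      rw [card_univ, Fintype.card_fin] at h1
      omega

end greedy

end Pool.Agent.Helper33.UB

end

section

set_option autoImplicit false

open Finset Polynomial

namespace Pool.Agent.Helper33.UB

section dichotomy

variable {K : Type*} [Field K]

/-- the linear form `(A, C) ↦ A(x) Dx - C(x)` on pairs of coefficient vectors -/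
noncomputable def ev (r : ℕ) (D : K → K) (x : K) : ((Fin r → K) × (Fin (r + 2) → K)) →ₗ[K] K where
  toFun w := (∑ a, w.1 a * x ^ (a : ℕ)) * D x - ∑ b, w.2 b * x ^ (b : ℕ)
  map_add' w w' := by
    simp only [Prod.fst_add, Prod.snd_add, Pi.add_apply, add_mul, sum_add_distrib]
    ring
  map_smul' c w := by
    simp only [Prod.smul_fst, Prod.smul_snd, Pi.smul_apply, smul_eq_mul, mul_assoc, ← mul_sum,
      RingHom.id_apply]
    ring

variable [DecidableEq K]

/-- vanishing of the Hankel determinant gives a relation on `I` -/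
lemma exists_relation_of_det (D : K → K) (r : ℕ) (I : Finset K) (hI : I.card = 2 * r + 2)
    (hdet : (hankel D I r).det = 0) :
    ∃ w : (Fin r → K) × (Fin (r + 2) → K), w ≠ 0 ∧ ∀ x ∈ I, ev r D x w = 0 := by
  obtain ⟨u, hu0, hu⟩ := Matrix.exists_mulVec_eq_zero_iff.mpr hdet
  set y : K → K := fun x => (∑ a, u a * x ^ (a : ℕ)) * D x with hy
  have hinj : Set.InjOn (id : K → K) (I : Set K) := fun _ _ _ _ h => h
  set Cp : K[X] := Lagrange.interpolate I id y with hCp
  have hCdeg : Cp.degree < I.card := Lagrange.degree_interpolate_lt _ hinj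
  have hCev : ∀ x ∈ I, Cp.eval x = y x := fun x hx => Lagrange.eval_interpolate_at_node y hinj hx
  -- the moments vanish
  have hmom : ∀ a : ℕ, a < r → ∑ x ∈ I, (y x * x ^ a) / ∏ z ∈ I.erase x, (x - z) = 0 := by
    intro a ha
    have h1 := congrFun hu ⟨a, ha⟩
    rw [Matrix.mulVec, dotProduct] at h1
    simp only [hankel, Matrix.of_apply, sum_mul, Pi.zero_apply] at h1
    rw [sum_comm] at h1
    rw [← h1]
    apply sum_congr rfl
    intro x _
    rw [hy]
    simp only [om]
    rw [sum_mul, sum_mul, sum_div]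
    apply sum_congr rfl
    intro b _
    rw [pow_add]
    ring
  -- hence the top coefficients vanish
  have hcoef : ∀ a : ℕ, a ≤ r → Cp.degree < ((2 * r + 2 - a : ℕ) : WithBot ℕ) := by
    intro a
    induction a with
    | zero => intro _; rw [← hI]; exact hCdeg
    | succ a ih =>
      intro ha
      have h1 := ih (by omega)
      have hXdeg : (Cp * X ^ a).degree < (I.card : WithBot ℕ) := by
        rw [hI]
        by_cases hC0 : Cp = 0
        · rw [hC0, zero_mul, degree_zero]
          exact WithBot.bot_lt_coe _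
        rw [degree_mul, degree_X_pow, degree_eq_natDegree hC0]
        rw [degree_eq_natDegree hC0] at h1
        have h2 : Cp.natDegree < 2 * r + 2 - a := by exact_mod_cast h1
        have h3 : Cp.natDegree + a < 2 * r + 2 := by omega
        exact_mod_cast h3
      have h2 := Lagrange.coeff_eq_sum hinj hXdeg
      have h3 : ∑ i ∈ I, (eval (id i) (Cp * X ^ a)) / ∏ j ∈ I.erase i, (id i - id j) = 0 := by
        rw [← hmom a (by omega)]
        apply sum_congr rfl
        intro x hx
        simp only [id, eval_mul, eval_pow, eval_X]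
        rw [hCev x hx]
      rw [h3, hI] at h2
      have h4 : (2 * r + 2 - 1) = (2 * r + 2 - (a + 1)) + a := by (clear * - I ha; omega)
      rw [h4, coeff_mul_X_pow] at h2
      -- conclude
      by_cases hC0 : Cp = 0
      · rw [hC0, degree_zero]; exact WithBot.bot_lt_coe _
      rw [degree_eq_natDegree hC0] at h1 ⊢
      have h5 : Cp.natDegree < 2 * r + 2 - a := by exact_mod_cast h1
      have h6 : Cp.natDegree ≠ 2 * r + 2 - (a + 1) := by
        intro h7
        rw [← h7] at h2
        exact hC0 (leadingCoeff_eq_zero.mp h2)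
      have h7 : Cp.natDegree < 2 * r + 2 - (a + 1) := by omega
      exact_mod_cast h7
  have hCr : Cp.degree < ((r + 2 : ℕ) : WithBot ℕ) := by
    have := hcoef r le_rfl
    rwa [show 2 * r + 2 - r = r + 2 by omega] at this
  refine ⟨(u, fun b => Cp.coeff b), ?_, ?_⟩
  · intro h
    exact hu0 (congrArg Prod.fst h)
  · intro x hx
    have h1 : ∑ b : Fin (r + 2), Cp.coeff b * x ^ (b : ℕ) = Cp.eval x := by
      by_cases hC0 : Cp = 0
      · rw [hC0]; simp
      rw [eval_eq_sum_range' (n := r + 2)]
      · exact (Finset.sum_range fun i => Cp.coeff i * x ^ i).symm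
      · rw [degree_eq_natDegree hC0] at hCr
        exact_mod_cast hCr
    change (∑ a, u a * x ^ (a : ℕ)) * D x - ∑ b : Fin (r + 2), Cp.coeff b * x ^ (b : ℕ) = 0
    rw [h1, hCev x hx, hy]
    simp only
    ring

/-- **Dichotomy.** -/
theorem dichotomy (D : K → K) (r : ℕ) (Y : Finset K)
    (h : ∀ I ⊆ Y, I.card = 2 * r + 2 → (hankel D I r).det = 0) :
    ∃ w : (Fin r → K) × (Fin (r + 2) → K), w ≠ 0 ∧ ∀ x ∈ Y, ev r D x w = 0 := by
  classical
  by_contra hcon
  push Not at hcon
  -- `Good I`: the relations on `I` are trivial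
  let Good : Finset K → Prop := fun I => ∀ w : (Fin r → K) × (Fin (r + 2) → K), w ≠ 0 →
    ∃ x ∈ I, ev r D x w ≠ 0
  have hY : Good Y := hcon
  have hne : (Y.powerset.filter fun I => Good I).Nonempty :=
    ⟨Y, mem_filter.mpr ⟨mem_powerset_self Y, hY⟩⟩
  obtain ⟨I, hI, hmin⟩ := exists_min_image _ card hne
  rw [mem_filter, mem_powerset] at hI
  obtain ⟨hIY, hIgood⟩ := hI
  have hfin : Module.finrank K ((Fin r → K) × (Fin (r + 2) → K)) = 2 * r + 2 := by
    rw [Module.finrank_prod, Module.finrank_fin_fun, Module.finrank_fin_fun]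
    ring
  -- upper bound
  have hex : ∀ x : I, ∃ w : (Fin r → K) × (Fin (r + 2) → K), w ≠ 0 ∧ ev r D (x : K) w ≠ 0 ∧
      ∀ y ∈ I, y ≠ (x : K) → ev r D y w = 0 := by
    intro x
    have h1 : ¬ Good (I.erase x) := by
      intro h2
      have := hmin (I.erase x) (mem_filter.mpr ⟨mem_powerset.mpr ((erase_subset _ _).trans hIY), h2⟩)
      have := card_erase_lt_of_mem x.2
      omega
    simp only [Good] at h1
    push Not at h1
    obtain ⟨w, hw, h2⟩ := h1
    obtain ⟨y, hy, h3⟩ := hIgood w hw
    have hyx : y = (x : K) := by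
      by_contra hyx
      exact h3 (h2 y (mem_erase.mpr ⟨hyx, hy⟩))
    rw [hyx] at h3
    exact ⟨w, hw, h3, fun y' hy' hne => h2 y' (mem_erase.mpr ⟨hne, hy'⟩)⟩
  choose w hw0 hwx hwy using hex
  have hli : LinearIndependent K w := by
    rw [Fintype.linearIndependent_iff]
    intro g hg x
    have h1 := congrArg (ev r D x) hg
    rw [map_sum, map_zero] at h1
    simp only [map_smul, smul_eq_mul] at h1
    rw [sum_eq_single x] at h1
    · rcases mul_eq_zero.mp h1 with h2 | h2
      · exact h2
      · exact absurd h2 (hwx x)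
    · intro y _ hyx
      rw [hwy y x x.2 (fun e => hyx (Subtype.ext e.symm)), mul_zero]
    · intro h2; exact absurd (mem_univ x) h2
  have hcard1 : I.card ≤ 2 * r + 2 := by
    have := hli.fintype_card_le_finrank
    rw [hfin, Fintype.card_coe] at this
    exact this
  -- lower bound
  have hcard2 : 2 * r + 2 ≤ I.card := by
    let Φ : ((Fin r → K) × (Fin (r + 2) → K)) →ₗ[K] (I → K) := LinearMap.pi fun x : I => ev r D (x : K)
    have hΦ : Function.Injective Φ := by
      rw [← LinearMap.ker_eq_bot, LinearMap.ker_eq_bot']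
      intro u hu
      by_contra hu0
      obtain ⟨x, hx, h1⟩ := hIgood u hu0
      exact h1 (congrFun hu ⟨x, hx⟩)
    have := LinearMap.finrank_le_finrank_of_injective hΦ
    rw [hfin, Module.finrank_fintype_fun_eq_card, Fintype.card_coe] at this
    exact this
  obtain ⟨u, hu0, hu⟩ := exists_relation_of_det D r I (by omega) (h I hIY (by omega))
  obtain ⟨x, hx, h1⟩ := hIgood u hu0
  exact h1 (hu x hx)

/-- polynomial form of the dichotomy -/
theorem dichotomy' (D : K → K) (r : ℕ) (Y : Finset K)
    (h : ∀ I ⊆ Y, I.card = 2 * r + 2 → (hankel D I r).det = 0) :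
    ∃ A Cp : K[X], (A ≠ 0 ∨ Cp ≠ 0) ∧ A.natDegree ≤ r - 1 ∧ (A ≠ 0 → 1 ≤ r) ∧ Cp.natDegree ≤ r + 1 ∧
      ∀ x ∈ Y, A.eval x * D x = Cp.eval x := by
  obtain ⟨w, hw0, hw⟩ := dichotomy D r Y h
  set A : K[X] := ∑ a : Fin r, C (w.1 a) * X ^ (a : ℕ) with hA
  set Cp : K[X] := ∑ b : Fin (r + 2), C (w.2 b) * X ^ (b : ℕ) with hC
  have hAc : ∀ a : Fin r, A.coeff a = w.1 a := by
    intro a
    rw [hA, finsetSum_coeff, sum_eq_single a]
    · simp
    · intro b _ hb
      rw [coeff_C_mul_X_pow, if_neg]
      intro h; exact hb (Fin.ext h.symm)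
    · intro h; exact absurd (mem_univ a) h
  have hCc : ∀ a : Fin (r + 2), Cp.coeff a = w.2 a := by
    intro a
    rw [hC, finsetSum_coeff, sum_eq_single a]
    · simp
    · intro b _ hb
      rw [coeff_C_mul_X_pow, if_neg]
      intro h; exact hb (Fin.ext h.symm)
    · intro h; exact absurd (mem_univ a) h
  refine ⟨A, Cp, ?_, ?_, ?_, ?_, ?_⟩
  · by_contra hcon
    push Not at hcon
    apply hw0
    refine Prod.ext ?_ ?_
    · ext a; rw [← hAc, hcon.1]; simp
    · ext a; rw [← hCc, hcon.2]; simp
  · rw [hA]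
    apply natDegree_sum_le_of_forall_le
    intro a _
    refine (natDegree_C_mul_X_pow_le _ _).trans ?_
    have := a.2
    omega
  · intro hA0
    by_contra hr
    have hr0 : r = 0 := by omega
    subst hr0
    apply hA0
    rw [hA]
    simp
  · rw [hC]
    apply natDegree_sum_le_of_forall_le
    intro a _
    refine (natDegree_C_mul_X_pow_le _ _).trans ?_
    have := a.2
    omega
  · intro x hx
    have h1 := hw x hx
    change (∑ a, w.1 a * x ^ (a : ℕ)) * D x - ∑ b, w.2 b * x ^ (b : ℕ) = 0 at h1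
    rw [hA, hC, eval_finsetSum, eval_finsetSum]
    simp only [eval_mul, eval_C, eval_pow, eval_X]
    exact sub_eq_zero.mp h1

end dichotomy

end Pool.Agent.Helper33.UB

end

section

set_option autoImplicit false

set_option linter.style.haveILetI false

namespace Pool.Agent.Helper61.BBGermA

open Polynomial Pool.Agent.Helper16

theorem reflect_one_X_sub_C {R : Type} [CommRing R] (u : R) :
    reflect 1 (X - C u : R[X]) = 1 - C u * X := by
  have h1 : (X : R[X]) = C 1 * X ^ 1 := by simp
  have h2 : (C u : R[X]) = C u * X ^ 0 := by simp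
  rw [reflect_sub]
  conv_lhs => rw [h1, h2]
  rw [reflect_C_mul_X_pow, reflect_C_mul_X_pow, revAt_le (le_refl 1), revAt_le (Nat.zero_le 1)]
  simp

theorem root_lift_aux {Om κ : Type} [Field Om] [IsAlgClosed Om] [Field κ] (O : ValuationSubring Om)
    (red : O →+* κ) (hred : ∀ x : O, red x = 0 ↔ x ∈ IsLocalRing.maximalIdeal O) (n : ℕ) :
    ∀ q : Polynomial O, q.natDegree ≤ n → q.map red ≠ 0 → ∀ r : κ, (q.map red).eval r = 0 →
      ∃ x : O, q.eval x = 0 ∧ red x = r := by
  induction n with
  | zero =>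
    intro q hn hq r hr
    exfalso
    rw [Nat.le_zero] at hn
    rw [eq_C_of_natDegree_eq_zero hn] at hq hr
    simp only [map_C, eval_C] at hr
    apply hq
    simp only [map_C, hr, C_0]
  | succ n ih =>
    intro q hn hq r hr
    by_cases hd : q.natDegree = 0
    · exact ih q (by omega) hq r hr
    have hinj : Function.Injective (algebraMap O Om) := Subtype.val_injective
    have hdeg : (q.map (algebraMap O Om)).degree ≠ 0 := by
      rw [degree_map_eq_of_injective hinj]
      intro h
      exact hd (natDegree_eq_of_degree_eq_some h)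
    obtain ⟨w, hw⟩ := IsAlgClosed.exists_root _ hdeg
    rw [IsRoot.def, eval_map] at hw
    by_cases hwO : w ∈ O
    · -- a root in `O`
      have h1 : q.IsRoot (⟨w, hwO⟩ : O) := by
        rw [IsRoot.def]
        apply hinj
        rw [map_zero, ← hw]
        exact (eval₂_at_apply (algebraMap O Om) (⟨w, hwO⟩ : O)).symm
      obtain ⟨s, hs⟩ := dvd_iff_isRoot.2 h1
      have hs0 : s.map red ≠ 0 := by
        intro h
        apply hq
        rw [hs, Polynomial.map_mul, h, mul_zero]
      rw [hs, Polynomial.map_mul, eval_mul, mul_eq_zero] at hr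
      rcases hr with hr | hr
      · refine ⟨⟨w, hwO⟩, h1, ?_⟩
        simp only [Polynomial.map_sub, map_X, map_C, eval_sub, eval_X, eval_C] at hr
        exact (sub_eq_zero.1 hr).symm
      · have hsn : s.natDegree ≤ n := by
          have hs1 : s ≠ 0 := by
            rintro rfl
            simp at hs0
          have : q.natDegree = 1 + s.natDegree := by
            rw [hs, natDegree_mul (X_sub_C_ne_zero _) hs1, natDegree_X_sub_C]
          omega
        obtain ⟨x, hx1, hx2⟩ := ih s hsn hs0 r hr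
        refine ⟨x, ?_, hx2⟩
        rw [hs, eval_mul, hx1, mul_zero]
    · -- a root outside `O`
      have hw0 : w ≠ 0 := by
        rintro rfl
        exact hwO (zero_mem _)
      have huO : w⁻¹ ∈ O := by
        rcases O.mem_or_inv_mem w with h | h
        · exact absurd h hwO
        · exact h
      set u : O := ⟨w⁻¹, huO⟩ with hu
      have hum : u ∈ IsLocalRing.maximalIdeal O := by
        rw [IsLocalRing.mem_maximalIdeal, mem_nonunits_iff]
        intro h
        rw [isUnit_iff_exists_inv] at h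
        obtain ⟨y, hy⟩ := h
        apply hwO
        have h2 : w⁻¹ * (y : Om) = 1 := congrArg Subtype.val hy
        have h3 : (y : Om) = w := by
          field_simp at h2
          exact h2
        rw [← h3]
        exact y.2
      have hru : red u = 0 := (hred u).2 hum
      letI : Invertible w := invertibleOfNonzero hw0
      have h1 : (reflect (n + 1) q).IsRoot u := by
        rw [IsRoot.def]
        apply hinj
        rw [map_zero]
        have h2 := (eval₂_reflect_eq_zero_iff (algebraMap O Om) w (n + 1) q hn).2 hw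
        rw [invOf_eq_inv] at h2
        rw [← h2]
        exact (eval₂_at_apply (algebraMap O Om) u).symm
      obtain ⟨s, hs⟩ := dvd_iff_isRoot.2 h1
      have hq0 : q ≠ 0 := by
        rintro rfl
        simp at hq
      have hr0 : reflect (n + 1) q ≠ 0 := by
        rwa [Ne, reflect_eq_zero_iff]
      have hs1 : s ≠ 0 := by
        rintro rfl
        rw [mul_zero] at hs
        exact hr0 hs
      have hsn : s.natDegree ≤ n := by
        have h3 : (reflect (n + 1) q).natDegree = 1 + s.natDegree := by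
          rw [hs, natDegree_mul (X_sub_C_ne_zero _) hs1, natDegree_X_sub_C]
        have h4 := natDegree_reflect_le (N := n + 1) (p := q)
        have h5 : max (n + 1) q.natDegree = n + 1 := max_eq_left hn
        omega
      have hqs : q = (1 - C u * X) * reflect n s := by
        have h3 : reflect (n + 1) (reflect (n + 1) q) = q := reflect_reflect
        rw [← h3, hs, add_comm n 1, reflect_mul _ _ (natDegree_X_sub_C_le u) hsn,
          reflect_one_X_sub_C]
      have hmap : q.map red = (reflect n s).map red := by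
        rw [hqs]
        simp only [Polynomial.map_mul, Polynomial.map_sub, Polynomial.map_one, map_C, map_X, hru,
          C_0, zero_mul, sub_zero, one_mul]
      have hdn : (reflect n s).natDegree ≤ n := by
        have h4 := natDegree_reflect_le (N := n) (p := s)
        rwa [max_eq_left hsn] at h4
      obtain ⟨x, hx1, hx2⟩ := ih (reflect n s) hdn (by rwa [← hmap]) r (by rw [← hmap]; exact hr)
      refine ⟨x, ?_, hx2⟩
      rw [hqs, eval_mul, hx1, mul_zero]

theorem root_lift {Om κ : Type} [Field Om] [IsAlgClosed Om] [Field κ] (O : ValuationSubring Om)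
    (red : O →+* κ) (hred : ∀ x : O, red x = 0 ↔ x ∈ IsLocalRing.maximalIdeal O)
    (q : Polynomial O) (hq : q.map red ≠ 0) (r : κ) (hr : (q.map red).eval r = 0) :
    ∃ x : O, q.eval x = 0 ∧ red x = r :=
  root_lift_aux O red hred q.natDegree q le_rfl hq r hr

end Pool.Agent.Helper61.BBGermA

end

section

set_option autoImplicit false

set_option linter.style.haveILetI false

namespace Pool.Agent.Helper34.Dep

open Polynomial Pool.Agent.Helper16 Pool.Agent.Helper47.RR

open scoped Polynomial.Bivariate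

/-- bidegree at most `m` in each variable -/
def BiDeg {R : Type} [CommRing R] (P : R[X][Y]) (m : ℕ) : Prop :=
  P.natDegree ≤ m ∧ ∀ i, (P.coeff i).natDegree ≤ m

/-- A valuation ring containing the constants and with residue field the constants. -/
structure Germ (k K : Type) [Field k] [Field K] [Algebra k K] where
  /-- the valuation ring -/
  O : ValuationSubring K
  /-- the residue map -/
  red : O →+* k
  red_const : ∀ a : k, ∃ h : algebraMap k K a ∈ O, red ⟨algebraMap k K a, h⟩ = a
  red_zero : ∀ x : O, red x = 0 ↔ x ∈ IsLocalRing.maximalIdeal O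

/-- `x` is regular with value `a` -/
def Germ.Val {k K : Type} [Field k] [Field K] [Algebra k K] (g : Germ k K) (x : K) (a : k) :
    Prop := ∃ h : x ∈ g.O, g.red ⟨x, h⟩ = a

end Pool.Agent.Helper34.Dep

end

section

set_option autoImplicit false

set_option linter.style.haveILetI false

namespace Pool.Agent.Helper34.Dep

open Polynomial Pool.Agent.Helper16 Pool.Agent.Helper47.RR

open scoped Polynomial.Bivariate

theorem aevalAeval_eq {k K : Type} [CommRing k] [CommRing K] [Algebra k K] (x y : K)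
    (P : k[X][Y]) :
    P.aevalAeval x y = (P.map ((aeval x : k[X] →ₐ[k] K) : k[X] →+* K)).eval y := by
  induction P using Polynomial.induction_on' with
  | add p q hp hq => rw [map_add, Polynomial.map_add, eval_add, hp, hq]
  | monomial n c =>
    rw [← C_mul_X_pow_eq_monomial, map_mul, map_pow, aevalAeval_C, aevalAeval_Y,
      Polynomial.map_mul, Polynomial.map_pow, map_C, map_X, eval_mul, eval_pow, eval_C, eval_X]
    rfl

section basic

variable {k K : Type} [Field k] [Field K] [Algebra k K] (g : Germ k K)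

theorem Germ.const_mem (a : k) : algebraMap k K a ∈ g.O := (g.red_const a).1

theorem Germ.val_const (a : k) : g.Val (algebraMap k K a) a := g.red_const a

theorem Germ.val_zero : g.Val 0 0 := ⟨zero_mem _, map_zero g.red⟩

theorem Germ.val_one : g.Val 1 1 := ⟨one_mem _, map_one g.red⟩

theorem Germ.Val.uniq {g : Germ k K} {x : K} {a b : k} (h : g.Val x a) (h' : g.Val x b) :
    a = b := by
  obtain ⟨h1, rfl⟩ := h
  obtain ⟨h2, rfl⟩ := h'
  rfl

theorem Germ.Val.add {g : Germ k K} {x y : K} {a b : k} (h : g.Val x a) (h' : g.Val y b) :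
    g.Val (x + y) (a + b) := by
  obtain ⟨h1, rfl⟩ := h
  obtain ⟨h2, rfl⟩ := h'
  exact ⟨add_mem h1 h2, map_add g.red ⟨x, h1⟩ ⟨y, h2⟩⟩

theorem Germ.Val.mul {g : Germ k K} {x y : K} {a b : k} (h : g.Val x a) (h' : g.Val y b) :
    g.Val (x * y) (a * b) := by
  obtain ⟨h1, rfl⟩ := h
  obtain ⟨h2, rfl⟩ := h'
  exact ⟨mul_mem h1 h2, map_mul g.red ⟨x, h1⟩ ⟨y, h2⟩⟩

theorem Germ.Val.neg {g : Germ k K} {x : K} {a : k} (h : g.Val x a) :
    g.Val (-x) (-a) := by
  obtain ⟨h1, rfl⟩ := h
  exact ⟨neg_mem h1, map_neg g.red ⟨x, h1⟩⟩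

theorem Germ.Val.sub {g : Germ k K} {x y : K} {a b : k} (h : g.Val x a) (h' : g.Val y b) :
    g.Val (x - y) (a - b) := by
  rw [sub_eq_add_neg, sub_eq_add_neg]
  exact h.add h'.neg

theorem Germ.Val.pow {g : Germ k K} {x : K} {a : k} (h : g.Val x a) (n : ℕ) :
    g.Val (x ^ n) (a ^ n) := by
  induction n with
  | zero => simpa using g.val_one
  | succ n ih => rw [pow_succ, pow_succ]; exact ih.mul h

/-- a regular element with value zero is not invertible in the valuation ring -/
theorem Germ.val_zero_iff {x : K} : g.Val x 0 ↔ x ∈ g.O.nonunits := by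
  constructor
  · rintro ⟨h1, h2⟩
    exact (ValuationSubring.coe_mem_nonunits_iff (A := g.O) (a := ⟨x, h1⟩)).2
      ((g.red_zero _).1 h2)
  · intro h
    obtain ⟨h1, h2⟩ := ValuationSubring.mem_nonunits_iff_exists_mem_maximalIdeal.1 h
    exact ⟨h1, (g.red_zero _).2 h2⟩

theorem Germ.val_iff {x : K} {a : k} : g.Val x a ↔ x - algebraMap k K a ∈ g.O.nonunits := by
  rw [← g.val_zero_iff]
  constructor
  · intro h
    have := h.sub (g.val_const a)
    rwa [sub_self] at this
  · intro h
    have := h.add (g.val_const a)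
    rwa [sub_add_cancel, zero_add] at this

theorem Germ.exists_val {x : K} (h : x ∈ g.O) : ∃ a, g.Val x a := ⟨_, h, rfl⟩

theorem Germ.Val.inv {g : Germ k K} {x : K} {a : k} (h : g.Val x a) (ha : a ≠ 0) :
    g.Val x⁻¹ a⁻¹ := by
  have hx : x⁻¹ ∈ g.O := by
    by_contra hcon
    have h1 : x ∈ g.O.nonunits := by
      rw [ValuationSubring.mem_nonunits_iff]
      have h2 : ¬ g.O.valuation x⁻¹ ≤ 1 := fun h3 => hcon ((g.O.valuation_le_one_iff _).1 h3)
      rw [map_inv₀, not_le] at h2
      by_contra h3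
      rw [not_lt] at h3
      have h4 : (g.O.valuation x)⁻¹ ≤ 1 := inv_le_one_of_one_le₀ h3
      exact absurd h2 (not_lt.2 h4)
    exact ha (h.uniq ((g.val_zero_iff).2 h1))
  obtain ⟨b, hb⟩ := g.exists_val hx
  have hx0 : x ≠ 0 := by
    rintro rfl
    exact ha (h.uniq g.val_zero)
  have h1 := h.mul hb
  rw [mul_inv_cancel₀ hx0] at h1
  have h2 : a * b = 1 := h1.uniq g.val_one
  rw [← eq_inv_of_mul_eq_one_right h2]
  exact hb

theorem Germ.Val.div {g : Germ k K} {x y : K} {a b : k} (h : g.Val x a) (h' : g.Val y b)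
    (hb : b ≠ 0) : g.Val (x / y) (a / b) := by
  rw [div_eq_mul_inv, div_eq_mul_inv]
  exact h.mul (h'.inv hb)

theorem Germ.Val.aeval {g : Germ k K} {x : K} {a : k} (h : g.Val x a) (p : k[X]) :
    g.Val (aeval x p) (p.eval a) := by
  induction p using Polynomial.induction_on' with
  | add p q hp hq => rw [map_add, eval_add]; exact hp.add hq
  | monomial n c =>
    rw [aeval_monomial, eval_monomial]
    exact (g.val_const c).mul (h.pow n)

theorem Germ.Val.aevalAeval {g : Germ k K} {x y : K} {a b : k} (hx : g.Val x a) (hy : g.Val y b)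
    (P : k[X][Y]) : g.Val (P.aevalAeval x y) (P.evalEval a b) := by
  induction P using Polynomial.induction_on' with
  | add p q hp hq => rw [map_add, evalEval_add]; exact hp.add hq
  | monomial n c =>
    rw [← C_mul_X_pow_eq_monomial, map_mul, map_pow, aevalAeval_C, aevalAeval_Y, evalEval_mul,
      evalEval_pow, evalEval_C, evalEval_X]
    exact (hx.aeval c).mul (hy.pow n)

/-- pull-back of a germ -/
noncomputable def Germ.comap {K' : Type} [Field K'] [Algebra k K'] (φ : K' →ₐ[k] K) : Germ k K' where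
  O := g.O.comap (φ : K' →+* K)
  red := g.red.comp (((φ : K' →+* K).comp (g.O.comap (φ : K' →+* K)).subtype).codRestrict
    g.O.toSubring (fun x => x.2))
  red_const := fun a => by
    obtain ⟨h, ha⟩ := g.red_const a
    refine ⟨?_, ?_⟩
    · change φ (algebraMap k K' a) ∈ g.O
      rw [AlgHom.commutes]; exact h
    · change g.red ⟨φ (algebraMap k K' a), _⟩ = a
      simp only [AlgHom.commutes]
      exact ha
  red_zero := fun x => by
    change g.red ⟨φ (x : K'), x.2⟩ = 0 ↔ _
    rw [g.red_zero]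
    rw [IsLocalRing.mem_maximalIdeal, IsLocalRing.mem_maximalIdeal, mem_nonunits_iff,
      mem_nonunits_iff, not_iff_not, isUnit_iff_exists_inv, isUnit_iff_exists_inv]
    constructor
    · rintro ⟨y, hy⟩
      have h1 : φ (x : K') * (y : K) = 1 := congrArg Subtype.val hy
      have hx0 : (x : K') ≠ 0 := by
        intro h0
        rw [h0, map_zero, zero_mul] at h1
        exact zero_ne_one h1
      have h2 : φ ((x : K')⁻¹) = (y : K) := by
        rw [map_inv₀]
        exact (eq_inv_of_mul_eq_one_right h1).symm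
      refine ⟨⟨(x : K')⁻¹, ?_⟩, Subtype.ext (mul_inv_cancel₀ hx0)⟩
      change φ ((x : K')⁻¹) ∈ g.O
      rw [h2]; exact y.2
    · rintro ⟨y, hy⟩
      have h1 : (x : K') * (y : K') = 1 := congrArg Subtype.val hy
      refine ⟨⟨φ (y : K'), y.2⟩, Subtype.ext ?_⟩
      change φ (x : K') * φ (y : K') = 1
      rw [← map_mul, h1, map_one]

theorem Germ.comap_val {K' : Type} [Field K'] [Algebra k K'] (φ : K' →ₐ[k] K) (x : K') (a : k) :
    (g.comap φ).Val x a ↔ g.Val (φ x) a := Iff.rfl

/-- **Root lifting.** -/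
theorem Germ.lift_root [IsAlgClosed K] {y : K} {a b : k} (hy : g.Val y a) (Q : k[X][Y])
    (hQ : Q.map (evalRingHom a) ≠ 0) (hb : Q.evalEval a b = 0) :
    ∃ y' : K, Q.aevalAeval y y' = 0 ∧ g.Val y' b := by
  obtain ⟨hyO, hya⟩ := hy
  let cst : k →+* g.O := (algebraMap k K).codRestrict g.O.toSubring g.const_mem
  let q : Polynomial g.O := Q.map (eval₂RingHom cst ⟨y, hyO⟩)
  have hcst : ∀ c, g.red (cst c) = c := fun c => (g.red_const c).2
  have hcomp : g.red.comp (eval₂RingHom cst ⟨y, hyO⟩) = evalRingHom a := by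
    apply Polynomial.ringHom_ext
    · intro c
      simp [hcst]
    · simp [hya]
  have hqr : q.map g.red = Q.map (evalRingHom a) := by
    rw [Polynomial.map_map, hcomp]
  obtain ⟨x, hx1, hx2⟩ := Pool.Agent.Helper61.BBGermA.root_lift g.O g.red g.red_zero q
    (by rw [hqr]; exact hQ) b (by rw [hqr, map_evalRingHom_eval]; exact hb)
  refine ⟨x, ?_, x.2, hx2⟩
  have h1 : ((q.eval x : g.O) : K) = Q.aevalAeval y x := by
    have h2 : (g.O.subtype).comp (eval₂RingHom cst ⟨y, hyO⟩) =
        ((Polynomial.aeval y : k[X] →ₐ[k] K) : k[X] →+* K) := by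
      apply Polynomial.ringHom_ext
      · intro c
        simp [cst]
      · simp
    have h3 : g.O.subtype (q.eval x) = (q.map g.O.subtype).eval (g.O.subtype x) :=
      ((Polynomial.eval_map _ _).trans (Polynomial.eval₂_at_apply _ _)).symm
    change g.O.subtype (q.eval x) = _
    rw [h3, Polynomial.map_map, h2, aevalAeval_eq]
    rfl
  rw [← h1, hx1]
  rfl

end basic

end Pool.Agent.Helper34.Dep

end

section

set_option autoImplicit false

set_option linter.style.haveILetI false

namespace Pool.Agent.Helper34.Dep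

open Polynomial Pool.Agent.Helper16 Pool.Agent.Helper47.RR Pool.Agent.Helper61.BBGermA

open scoped Polynomial.Bivariate

theorem exists_germ_of {k K : Type} [Field k] [Field K] [Algebra k K] (O : ValuationSubring K)
    (hconst : ∀ a : k, algebraMap k K a ∈ O)
    (key : ∀ x : O, ∃ a : k, x - ⟨algebraMap k K a, hconst a⟩ ∈ IsLocalRing.maximalIdeal O) :
    ∃ g : Germ k K, g.O = O := by
  let i : k →+* IsLocalRing.ResidueField O :=
    (IsLocalRing.residue O).comp ((algebraMap k K).codRestrict O.toSubring hconst)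
  have hi : Function.Bijective i := by
    refine ⟨i.injective, fun y => ?_⟩
    obtain ⟨x, rfl⟩ := IsLocalRing.residue_surjective y
    obtain ⟨a, ha⟩ := key x
    refine ⟨a, ?_⟩
    rw [← IsLocalRing.residue_eq_zero_iff, map_sub, sub_eq_zero] at ha
    exact ha.symm
  let e := RingEquiv.ofBijective i hi
  let red : O →+* k := e.symm.toRingHom.comp (IsLocalRing.residue O)
  have hred0 : ∀ x : O, red x = 0 ↔ x ∈ IsLocalRing.maximalIdeal O := by
    intro x
    change e.symm (IsLocalRing.residue O x) = 0 ↔ _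
    rw [map_eq_zero_iff e.symm e.symm.injective, IsLocalRing.residue_eq_zero_iff]
  exact ⟨⟨O, red, by
    intro a
    refine ⟨hconst a, ?_⟩
    change e.symm (IsLocalRing.residue O _) = a
    rw [RingEquiv.symm_apply_eq]
    rfl, hred0⟩, rfl⟩

end Pool.Agent.Helper34.Dep

end

section

set_option autoImplicit false

namespace Pool.Agent.Helper3.Dep

open Polynomial Pool.Agent.Helper34.Dep

open scoped Polynomial.Bivariate

variable {k : Type} [Field k]

theorem coeff_swap (P : k[X][Y]) (i j : ℕ) :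
    ((Bivariate.swap P).coeff i).coeff j = (P.coeff j).coeff i := by
  induction P using Polynomial.induction_on' with
  | add p q hp hq => simp only [map_add, coeff_add, hp, hq]
  | monomial n a =>
    induction a using Polynomial.induction_on' with
    | add p q hp hq => simp only [map_add, coeff_add, hp, hq]
    | monomial m r =>
      rw [Bivariate.swap_monomial_monomial]
      simp only [coeff_monomial]
      by_cases h1 : m = i <;> by_cases h2 : n = j <;> simp [h1, h2, coeff_monomial]

theorem biDeg_iff (P : k[X][Y]) (m : ℕ) :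
    BiDeg P m ↔ ∀ i j, (P.coeff i).coeff j ≠ 0 → i ≤ m ∧ j ≤ m := by
  constructor
  · rintro ⟨h1, h2⟩ i j hij
    refine ⟨?_, ?_⟩
    · refine le_trans (le_natDegree_of_ne_zero ?_) h1
      rintro h
      rw [h] at hij
      simp at hij
    · exact le_trans (le_natDegree_of_ne_zero hij) (h2 i)
  · intro h
    refine ⟨?_, ?_⟩
    · rw [natDegree_le_iff_coeff_eq_zero]
      intro N hN
      ext j
      by_contra hne
      exact absurd (h N j (by simpa using hne)).1 (by omega)
    · intro i
      rw [natDegree_le_iff_coeff_eq_zero]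
      intro N hN
      by_contra hne
      exact absurd (h i N hne).2 (by omega)

theorem biDeg_swap (P : k[X][Y]) (m : ℕ) (h : BiDeg P m) : BiDeg (Bivariate.swap P) m := by
  rw [biDeg_iff] at h ⊢
  intro i j hij
  rw [coeff_swap] at hij
  exact (h j i hij).symm

theorem map_ne_zero_of_isPrimitive (P : k[X][Y]) (hP : P.IsPrimitive) (c : k) :
    P.map (evalRingHom c) ≠ 0 := by
  intro h
  have h1 : C (X - C c) ∣ P := by
    rw [C_dvd_iff_dvd_coeff]
    intro i
    rw [dvd_iff_isRoot]
    have := congrArg (fun q => q.coeff i) h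
    simpa [IsRoot] using this
  exact not_isUnit_X_sub_C c (hP _ h1)

theorem biDeg_of_C_mul (c : k[X]) (P : k[X][Y]) (m : ℕ) (hc : c ≠ 0) (h : BiDeg (C c * P) m) :
    BiDeg P m := by
  refine ⟨?_, ?_⟩
  · have h1 := h.1
    rwa [natDegree_C_mul hc] at h1
  · intro i
    have h1 := h.2 i
    rw [coeff_C_mul] at h1
    by_cases h0 : P.coeff i = 0
    · simp [h0]
    · rw [natDegree_mul hc h0] at h1
      omega

/-- every non-zero bivariate polynomial is a polynomial in `X` times a primitive one -/
theorem strip_one (Q : k[X][Y]) (hQ : Q ≠ 0) (m : ℕ) (hm : BiDeg Q m) :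
    ∃ (c : k[X]) (P : k[X][Y]), Q = C c * P ∧ c ≠ 0 ∧ P.IsPrimitive ∧ BiDeg P m ∧
      c.natDegree ≤ m := by
  classical
  let _ : NormalizedGCDMonoid k[X] := UniqueFactorizationMonoid.toNormalizedGCDMonoid k[X]
  have h1 := eq_C_content_mul_primPart Q
  have hc : Q.content ≠ 0 := by
    rw [Ne, content_eq_zero_iff]
    exact hQ
  refine ⟨Q.content, Q.primPart, h1, hc, isPrimitive_primPart Q, ?_, ?_⟩
  · apply biDeg_of_C_mul Q.content _ m hc
    rw [← h1]
    exact hm
  · have h2 : Q.content ∣ Q.leadingCoeff := content_dvd_coeff _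
    have h3 : Q.leadingCoeff ≠ 0 := leadingCoeff_ne_zero.2 hQ
    exact le_trans (natDegree_le_of_dvd h2 h3) (hm.2 _)

theorem evalEval_C_mul (a b : k) (c : k[X]) (P : k[X][Y]) :
    (C c * P).evalEval a b = c.eval a * P.evalEval a b := by
  simp [evalEval]

theorem evalEval_map_C (a b : k) (c : k[X]) :
    (c.map C : k[X][Y]).evalEval a b = c.eval b := by
  rw [evalEval, eval_map, eval₂_at_apply, eval_C]

theorem eval_C_swap (a : k) (R : k[X][Y]) :
    (Bivariate.swap R).eval (C a) = R.map (evalRingHom a) := by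
  induction R using Polynomial.induction_on' with
  | add p q hp hq => simp only [map_add, eval_add, Polynomial.map_add, hp, hq]
  | monomial n c =>
    induction c using Polynomial.induction_on' with
    | add p q hp hq => simp only [map_add, eval_add, Polynomial.map_add, hp, hq]
    | monomial m r =>
      rw [Bivariate.swap_monomial_monomial, eval_monomial, map_monomial]
      rw [← C_pow, mul_comm, ← smul_eq_C_mul, smul_monomial]
      simp [mul_comm]

theorem strip {k : Type} [Field k] [IsAlgClosed k] (Q : k[X][Y]) (hQ : Q ≠ 0) (m : ℕ)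
    (hm : BiDeg Q m) :
    ∃ Q' : k[X][Y], BiDeg Q' m ∧ (∀ c : k, Q'.map (evalRingHom c) ≠ 0) ∧
      (∀ c : k, Q'.eval (C c) ≠ 0) ∧ ∃ A B : Finset k, A.card ≤ m ∧ B.card ≤ m ∧
        ∀ a b : k, Q.evalEval a b = 0 → a ∉ A → b ∉ B → Q'.evalEval a b = 0 := by
  classical
  obtain ⟨c, P, hQP, hc0, hPp, hPm, hcm⟩ := strip_one Q hQ m hm
  have hP0 : P ≠ 0 := hPp.ne_zero
  have hsP0 : Bivariate.swap P ≠ 0 := by
    intro h
    apply hP0
    have := congrArg Bivariate.swap h
    rwa [Bivariate.swap_swap_apply, map_zero] at this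
  obtain ⟨d, R, hPR, hd0, hRp, hRm, hdm⟩ := strip_one (Bivariate.swap P) hsP0 m
    (biDeg_swap P m hPm)
  have hP2 : P = d.map C * Bivariate.swap R := by
    have := congrArg Bivariate.swap hPR
    rwa [Bivariate.swap_swap_apply, map_mul, Bivariate.swap_C] at this
  refine ⟨Bivariate.swap R, biDeg_swap R m hRm, ?_, ?_, c.roots.toFinset, d.roots.toFinset,
    ?_, ?_, ?_⟩
  · intro a ha
    apply map_ne_zero_of_isPrimitive P hPp a
    rw [hP2, Polynomial.map_mul, ha, mul_zero]
  · intro a ha
    apply map_ne_zero_of_isPrimitive R hRp a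
    rw [← eval_C_swap, ha]
  · exact le_trans (le_trans (Multiset.toFinset_card_le _) (card_roots' _)) hcm
  · exact le_trans (le_trans (Multiset.toFinset_card_le _) (card_roots' _)) hdm
  · intro a b hab ha hb
    rw [hQP, evalEval_C_mul, hP2, evalEval_mul, evalEval_map_C] at hab
    rcases mul_eq_zero.1 hab with h | h
    · exact absurd (by simpa [hc0] using h) ha
    · rcases mul_eq_zero.1 h with h | h
      · exact absurd (by simpa [hd0] using h) hb
      · exact h

end Pool.Agent.Helper3.Dep

end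

section

set_option autoImplicit false

set_option linter.style.haveILetI false

namespace Pool.Agent.Helper34.Dep

open Polynomial Pool.Agent.Helper16 Pool.Agent.Helper47.RR IntermediateField

open scoped Polynomial.Bivariate

/-- a tree of bivariate relations without univariate factors -/
structure TreeData (k ι : Type) [Field k] (m : ℕ) where
  /-- the root -/
  s₀ : ι
  /-- the rank -/
  rk : ι → ℕ
  /-- the parent -/
  par : ι → ι
  /-- the relation between the parent and the vertex -/
  Q : ι → k[X][Y]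
  rk_lt : ∀ s, s ≠ s₀ → rk (par s) < rk s
  deg : ∀ s, s ≠ s₀ → BiDeg (Q s) m
  vert : ∀ s, s ≠ s₀ → ∀ c : k, (Q s).map (evalRingHom c) ≠ 0
  horiz : ∀ s, s ≠ s₀ → ∀ c : k, (Q s).eval (C c) ≠ 0

variable {k ι : Type} [Field k] {m : ℕ} (D : TreeData k ι m)

theorem TreeData.induction [Fintype ι] [DecidableEq ι] (P : Finset ι → Prop) (h0 : P {D.s₀})
    (hs : ∀ (S : Finset ι) (s : ι), D.s₀ ∈ S → s ∉ S → D.par s ∈ S → P S → P (insert s S)) :
    P Finset.univ := by
  classical
  by_contra hcon
  obtain ⟨S, hS, hmax⟩ := Finset.exists_max_image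
    ((Finset.univ : Finset (Finset ι)).filter fun S => D.s₀ ∈ S ∧ P S) Finset.card
    ⟨{D.s₀}, by simp [h0]⟩
  rw [Finset.mem_filter] at hS
  obtain ⟨-, hS0, hPS⟩ := hS
  have hne : (Finset.univ \ S).Nonempty := by
    rw [Finset.nonempty_iff_ne_empty]
    intro h
    rw [Finset.sdiff_eq_empty_iff_subset] at h
    rw [Finset.univ_subset_iff] at h
    rw [h] at hPS
    exact hcon hPS
  obtain ⟨s, hs', hmin⟩ := Finset.exists_min_image _ D.rk hne
  have hsS : s ∉ S := (Finset.mem_sdiff.1 hs').2
  have hs0 : s ≠ D.s₀ := by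
    rintro rfl
    exact hsS hS0
  have hpar : D.par s ∈ S := by
    by_contra hp
    have := hmin (D.par s) (Finset.mem_sdiff.2 ⟨Finset.mem_univ _, hp⟩)
    have := D.rk_lt s hs0
    omega
  have h1 := hmax (insert s S) (by
    rw [Finset.mem_filter]
    exact ⟨Finset.mem_univ _, Finset.mem_insert_of_mem hS0, hs S s hS0 hsS hpar hPS⟩)
  rw [Finset.card_insert_of_notMem hsS] at h1
  omega

variable {K : Type} [Field K] [Algebra k K]

/-- the tuples satisfying the relations of the tree -/
structure IsTup (T : K) (y : ι → K) : Prop where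
  root : y D.s₀ = T
  rel : ∀ s, s ≠ D.s₀ → (D.Q s).aevalAeval (y (D.par s)) (y s) = 0

theorem aevalAeval_algebraMap_right (a : K) (c : k) (P : k[X][Y]) :
    P.aevalAeval a (algebraMap k K c) = aeval a (P.eval (C c)) := by
  induction P using Polynomial.induction_on' with
  | add p q hp hq => rw [map_add, eval_add, map_add, hp, hq]
  | monomial n b =>
    rw [← C_mul_X_pow_eq_monomial, map_mul, map_pow, aevalAeval_C, aevalAeval_Y]
    simp

theorem map_aeval_ne_zero {a : K} (ha : Transcendental k a) {Q : k[X][Y]} (hQ : Q ≠ 0) :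
    Q.map ((aeval a : k[X] →ₐ[k] K) : k[X] →+* K) ≠ 0 := by
  rwa [Ne, Polynomial.map_eq_zero_iff]
  exact transcendental_iff_injective.1 ha

variable {D}

theorem TreeData.ne_zero {s : ι} (hs : s ≠ D.s₀) : D.Q s ≠ 0 := by
  intro h
  apply D.horiz s hs 0
  rw [h, eval_zero]

theorem IsTup.transcendental [Fintype ι] [IsAlgClosed k] {T : K} (hT : Transcendental k T)
    {y : ι → K} (hy : IsTup D T y) (s : ι) : Transcendental k (y s) := by
  classical
  have key := D.induction (fun S => ∀ s ∈ S, Transcendental k (y s)) (by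
    intro s hs
    rw [Finset.mem_singleton] at hs
    rw [hs, hy.root]
    exact hT) (by
    intro S s h0 hs hp hP s' hs'
    rcases Finset.mem_insert.1 hs' with h | h
    · subst h
      have hs0 : s' ≠ D.s₀ := by rintro rfl; exact hs h0
      intro halg
      obtain ⟨c, hc⟩ : ∃ c : k, algebraMap k K c = y s' := by
        have h2 := IsAlgClosed.degree_eq_one_of_irreducible k
          (minpoly.irreducible halg.isIntegral)
        obtain ⟨c, hc⟩ := minpoly.mem_range_of_degree_eq_one k (y s') h2
        exact ⟨c, hc⟩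
      have h1 := hy.rel s' hs0
      rw [← hc, aevalAeval_algebraMap_right] at h1
      exact D.horiz s' hs0 c (by
        by_contra hne
        exact hP _ hp ⟨_, hne, h1⟩)
    · exact hP s' h)
  exact key s (Finset.mem_univ s)

/-- the number of tuples is bounded -/
theorem tup_finite [Fintype ι] [IsAlgClosed k] {T : K} (hT : Transcendental k T) (hm : 1 ≤ m) :
    {y : ι → K | IsTup D T y}.Finite ∧
      {y : ι → K | IsTup D T y}.ncard ≤ m ^ Fintype.card ι := by
  classical
  -- enumeration of roots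
  have henum : ∀ p : K[X], ∃ r : Fin m → K, p ≠ 0 → p.natDegree ≤ m →
      ∀ x, p.eval x = 0 → ∃ i, r i = x := by
    intro p
    refine ⟨fun i => (p.roots.toList[(i : ℕ)]?).getD 0, fun hp hdeg x hx => ?_⟩
    have h1 : x ∈ p.roots.toList := by
      rw [Multiset.mem_toList, mem_roots hp]
      exact hx
    obtain ⟨i, hi, hix⟩ := List.getElem_of_mem h1
    have h2 : i < m := by
      rw [Multiset.length_toList] at hi
      exact lt_of_lt_of_le hi ((card_roots' p).trans hdeg)
    refine ⟨⟨i, h2⟩, ?_⟩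
    simp only
    rw [List.getElem?_eq_getElem hi, Option.getD_some, hix]
  choose r hr using henum
  have hex : ∀ (y : ι → K) (s : ι), ∃ i : Fin m, IsTup D T y → s ≠ D.s₀ →
      r ((D.Q s).map ((aeval (y (D.par s)) : k[X] →ₐ[k] K) : k[X] →+* K)) i = y s := by
    intro y s
    by_cases h : IsTup D T y ∧ s ≠ D.s₀
    · obtain ⟨hy, hs⟩ := h
      obtain ⟨i, hi⟩ := hr ((D.Q s).map ((aeval (y (D.par s)) : k[X] →ₐ[k] K) : k[X] →+* K))
        (map_aeval_ne_zero (hy.transcendental hT _) (TreeData.ne_zero hs))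
        ((natDegree_map_le).trans (D.deg s hs).1) (y s) (by
          rw [← aevalAeval_eq]; exact hy.rel s hs)
      exact ⟨i, fun _ _ => hi⟩
    · exact ⟨⟨0, hm⟩, fun h1 h2 => absurd ⟨h1, h2⟩ h⟩
  choose e he using hex
  have hinj : Set.InjOn e {y : ι → K | IsTup D T y} := by
    intro y hy y' hy' hee
    have key := D.induction (fun S => ∀ s ∈ S, y s = y' s) (by
      intro s hs
      rw [Finset.mem_singleton] at hs
      rw [hs, hy.root, hy'.root]) (by
      intro S s h0 hs hp hP s' hs'
      rcases Finset.mem_insert.1 hs' with h | h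
      · subst h
        have hs0 : s' ≠ D.s₀ := by rintro rfl; exact hs h0
        rw [← he y s' hy hs0, ← he y' s' hy' hs0, hP _ hp, hee]
      · exact hP s' h)
    funext s
    exact key s (Finset.mem_univ s)
  have hfin : {y : ι → K | IsTup D T y}.Finite :=
    Set.Finite.of_injOn (fun y _ => Set.mem_univ (e y)) hinj Set.finite_univ
  refine ⟨hfin, ?_⟩
  have h1 := Set.ncard_le_ncard_of_injOn e (t := Set.univ) (fun y _ => Set.mem_univ (e y)) hinj
    Set.finite_univ
  rwa [Set.ncard_univ, Nat.card_eq_fintype_card, Fintype.card_fun, Fintype.card_fin] at h1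

/-- **Existence of a tuple through a point** -/
theorem exists_tup [Fintype ι] [IsAlgClosed k] [IsAlgClosed K] {T : K} (g : Germ k K) (c : ι → k)
    (hT : g.Val T (c D.s₀)) (hc : ∀ s, s ≠ D.s₀ → (D.Q s).evalEval (c (D.par s)) (c s) = 0) :
    ∃ y : ι → K, IsTup D T y ∧ ∀ s, g.Val (y s) (c s) := by
  classical
  have key := D.induction (fun S => (∀ s ∈ S, s ≠ D.s₀ → D.par s ∈ S) ∧ ∃ y : ι → K,
      y D.s₀ = T ∧ ∀ s ∈ S, g.Val (y s) (c s) ∧
        (s ≠ D.s₀ → (D.Q s).aevalAeval (y (D.par s)) (y s) = 0)) (by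
    refine ⟨?_, fun _ => T, rfl, ?_⟩
    · intro s hs hs0
      rw [Finset.mem_singleton] at hs
      exact absurd hs hs0
    · intro s hs
      rw [Finset.mem_singleton] at hs
      rw [hs]
      exact ⟨hT, fun h => absurd rfl h⟩) (by
    rintro S s h0 hs hp ⟨hcl, y, hy0, hy⟩
    have hs0 : s ≠ D.s₀ := by rintro rfl; exact hs h0
    obtain ⟨z, hz1, hz2⟩ := g.lift_root (hy _ hp).1 (D.Q s) (D.vert s hs0 _) (hc s hs0)
    have hps : D.par s ≠ s := by
      intro h
      rw [h] at hp
      exact hs hp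
    refine ⟨?_, Function.update y s z, ?_, ?_⟩
    · intro s' hs' hs'0
      rcases Finset.mem_insert.1 hs' with h | h
      · rw [h]; exact Finset.mem_insert_of_mem hp
      · exact Finset.mem_insert_of_mem (hcl s' h hs'0)
    · rw [Function.update_of_ne (Ne.symm hs0), hy0]
    · intro s' hs'
      rcases Finset.mem_insert.1 hs' with h | h
      · rw [h, Function.update_self, Function.update_of_ne hps]
        exact ⟨hz2, fun _ => hz1⟩
      · have hne : s' ≠ s := by rintro rfl; exact hs h
        rw [Function.update_of_ne hne]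
        refine ⟨(hy s' h).1, fun hs'0 => ?_⟩
        have hne' : D.par s' ≠ s := by
          intro h'
          exact hs (h' ▸ hcl s' h hs'0)
        rw [Function.update_of_ne hne']
        exact (hy s' h).2 hs'0)
  obtain ⟨-, y, hy0, hy⟩ := key
  exact ⟨y, ⟨hy0, fun s hs => (hy s (Finset.mem_univ s)).2 hs⟩,
    fun s => (hy s (Finset.mem_univ s)).1⟩

end Pool.Agent.Helper34.Dep

end

section

set_option autoImplicit false

set_option linter.style.haveILetI false

namespace Pool.Agent.Helper34.Dep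

open Polynomial Pool.Agent.Helper16 Pool.Agent.Helper47.RR IntermediateField Pool.Agent.Helper64.Dep

open scoped Polynomial.Bivariate

variable {k K : Type} [Field k] [Field K] [Algebra k K]

theorem relfinrank_adjoin_le (E : IntermediateField k K) (β : K) (p : K[X]) (hp : p ≠ 0)
    (hE : ∀ i, p.coeff i ∈ E) (m : ℕ) (hm : p.natDegree ≤ m) (h0 : p.eval β = 0) :
    1 ≤ E.relfinrank (E ⊔ k⟮β⟯) ∧ E.relfinrank (E ⊔ k⟮β⟯) ≤ m := by
  obtain ⟨q, hq⟩ : ∃ q : E[X], q.map (algebraMap E K) = p := by
    have h1 : p ∈ Polynomial.lifts (algebraMap E K) := by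
      rw [Polynomial.lifts_iff_coeff_lifts]
      intro i
      exact ⟨⟨p.coeff i, hE i⟩, rfl⟩
    exact (Polynomial.mem_lifts p).1 h1
  have hq0 : q ≠ 0 := by
    rintro rfl
    rw [Polynomial.map_zero] at hq
    exact hp hq.symm
  have hqβ : aeval β q = 0 := by
    rw [← Polynomial.eval_map_algebraMap, hq, h0]
  have halg : IsAlgebraic E β := ⟨q, hq0, hqβ⟩
  have hint : IsIntegral E β := halg.isIntegral
  have hdeg : Module.finrank E E⟮β⟯ ≤ m := by
    rw [IntermediateField.adjoin.finrank hint]
    refine (natDegree_le_of_dvd (minpoly.dvd E β hqβ) hq0).trans ?_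
    rw [← hq, natDegree_map] at hm
    exact hm
  have hpos : 1 ≤ Module.finrank E E⟮β⟯ := by
    haveI := IntermediateField.adjoin.finiteDimensional hint
    exact Module.finrank_pos
  have hle : E ≤ E ⊔ k⟮β⟯ := le_sup_left
  have h2 : extendScalars hle = E⟮β⟯ := by
    apply IntermediateField.restrictScalars_injective k
    rw [extendScalars_restrictScalars, IntermediateField.restrictScalars_adjoin_eq_sup]
  rw [IntermediateField.relfinrank_eq_finrank_of_le hle, h2]
  exact ⟨hpos, hdeg⟩

variable {ι : Type} {m : ℕ} {D : TreeData k ι m}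

/-- the root bound for a relation `Q(a, β) = 0`, `a ∈ E` -/
theorem relfinrank_rel_right (E : IntermediateField k K) (a β : K) (ha : a ∈ E)
    (hatr : Transcendental k a) (Q : k[X][Y]) (hQ : Q ≠ 0) (hm : BiDeg Q m)
    (h0 : Q.aevalAeval a β = 0) :
    1 ≤ E.relfinrank (E ⊔ k⟮β⟯) ∧ E.relfinrank (E ⊔ k⟮β⟯) ≤ m := by
  refine relfinrank_adjoin_le E β (Q.map ((aeval a : k[X] →ₐ[k] K) : k[X] →+* K))
    (map_aeval_ne_zero hatr hQ) ?_ m (natDegree_map_le.trans hm.1) (by rw [← aevalAeval_eq, h0])
  intro i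
  rw [coeff_map]
  change aeval a (Q.coeff i) ∈ E
  have h1 : aeval a (Q.coeff i) = ((aeval (⟨a, ha⟩ : E) (Q.coeff i) : E) : K) := by
    have := Polynomial.aeval_algHom_apply E.val (⟨a, ha⟩ : E) (Q.coeff i)
    exact this
  rw [h1]
  exact SetLike.coe_mem _

theorem swap_biDeg {Q : k[X][Y]} (hm : BiDeg Q m) : BiDeg (Bivariate.swap Q) m := by
  have hcoef : ∀ i j, ((Bivariate.swap Q).coeff i).coeff j = (Q.coeff j).coeff i := by
    intro i j
    clear hm
    induction Q using Polynomial.induction_on' with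
    | add p q hp hq => rw [map_add, coeff_add, coeff_add, hp, hq, coeff_add, coeff_add]
    | monomial n c =>
      induction c using Polynomial.induction_on' with
      | add p q hp hq =>
        rw [map_add, map_add, coeff_add, coeff_add, hp, hq, coeff_add, coeff_add]
      | monomial l r =>
        rw [Bivariate.swap_monomial_monomial]
        simp only [coeff_monomial]
        split_ifs <;> simp_all [coeff_monomial]
  have hz : ∀ i j, m < i ∨ m < j → ((Bivariate.swap Q).coeff i).coeff j = 0 := by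
    intro i j hij
    rw [hcoef]
    rcases hij with h | h
    · exact coeff_eq_zero_of_natDegree_lt (lt_of_le_of_lt (hm.2 j) h)
    · rw [coeff_eq_zero_of_natDegree_lt (lt_of_le_of_lt hm.1 h), coeff_zero]
  constructor
  · rw [natDegree_le_iff_coeff_eq_zero]
    intro i hi
    ext j
    rw [hz i j (Or.inl hi), coeff_zero]
  · intro i
    rw [natDegree_le_iff_coeff_eq_zero]
    intro j hj
    exact hz i j (Or.inr hj)

theorem swap_ne_zero {Q : k[X][Y]} (hQ : Q ≠ 0) : Bivariate.swap Q ≠ 0 := by
  rwa [Ne, EmbeddingLike.map_eq_zero_iff]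

theorem relfinrank_tup [Fintype ι] [DecidableEq ι] [IsAlgClosed k] {T : K}
    (hT : Transcendental k T) {y : ι → K} (hy : IsTup D T y) (hm : 1 ≤ m) (s : ι) :
    1 ≤ (k⟮y s⟯).relfinrank (IntermediateField.adjoin k (Set.range y)) ∧
      (k⟮y s⟯).relfinrank (IntermediateField.adjoin k (Set.range y)) ≤
        m ^ (2 * Fintype.card ι) := by
  have key := D.induction (fun S => ∀ s ∈ S,
      1 ≤ (k⟮y s⟯).relfinrank (IntermediateField.adjoin k (y '' (S : Set ι))) ∧
      (k⟮y s⟯).relfinrank (IntermediateField.adjoin k (y '' (S : Set ι))) ≤ m ^ (2 * S.card)) (by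
    intro s hs
    rw [Finset.mem_singleton] at hs
    subst hs
    rw [Finset.coe_singleton, Set.image_singleton, IntermediateField.relfinrank_self]
    exact ⟨le_rfl, Nat.one_le_pow _ _ hm⟩) (by
    intro S s h0 hs hp hP
    have hs0 : s ≠ D.s₀ := by rintro rfl; exact hs h0
    set E := IntermediateField.adjoin k (y '' (S : Set ι)) with hE
    have hE' : IntermediateField.adjoin k (y '' ((insert s S : Finset ι) : Set ι)) = E ⊔ k⟮y s⟯ := by
      rw [Finset.coe_insert, Set.image_insert_eq, Set.insert_eq, Set.union_comm,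
        IntermediateField.adjoin_union]
    have hmem : ∀ s' ∈ S, y s' ∈ E := fun s' hs' =>
      IntermediateField.subset_adjoin _ _ ⟨s', hs', rfl⟩
    obtain ⟨h1, h2⟩ := relfinrank_rel_right E (y (D.par s)) (y s) (hmem _ hp)
      (hy.transcendental hT _) (D.Q s) (TreeData.ne_zero hs0) (D.deg s hs0) (hy.rel s hs0)
    have h3 : ∀ s' ∈ S, 1 ≤ (k⟮y s'⟯).relfinrank (E ⊔ k⟮y s⟯) ∧
        (k⟮y s'⟯).relfinrank (E ⊔ k⟮y s⟯) ≤ m ^ (2 * S.card + 1) := by
      intro s' hs'
      have hle : k⟮y s'⟯ ≤ E := by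
        rw [IntermediateField.adjoin_simple_le_iff]
        exact hmem s' hs'
      rw [← IntermediateField.relfinrank_mul_relfinrank hle le_sup_left]
      obtain ⟨h4, h5⟩ := hP s' hs'
      refine ⟨Nat.one_le_iff_ne_zero.2 (Nat.mul_ne_zero (by omega) (by omega)), ?_⟩
      rw [pow_succ]
      exact Nat.mul_le_mul h5 h2
    intro s' hs'
    rw [hE', Finset.card_insert_of_notMem hs]
    rcases Finset.mem_insert.1 hs' with h | h
    · subst h
      -- the new vertex
      obtain ⟨h4, h5⟩ := h3 _ hp
      have hC1 : k⟮y s'⟯ ≤ k⟮y s'⟯ ⊔ k⟮y (D.par s')⟯ := le_sup_left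
      have hC2 : k⟮y (D.par s')⟯ ≤ k⟮y s'⟯ ⊔ k⟮y (D.par s')⟯ := le_sup_right
      have hC3 : k⟮y s'⟯ ⊔ k⟮y (D.par s')⟯ ≤ E ⊔ k⟮y s'⟯ := by
        refine sup_le le_sup_right (le_trans ?_ le_sup_left)
        rw [IntermediateField.adjoin_simple_le_iff]
        exact hmem _ hp
      have h6 := IntermediateField.relfinrank_mul_relfinrank hC2 hC3
      obtain ⟨h7, h8⟩ := relfinrank_rel_right k⟮y s'⟯ (y s') (y (D.par s'))
        (IntermediateField.mem_adjoin_simple_self k _) (hy.transcendental hT _)
        (Bivariate.swap (D.Q s')) (swap_ne_zero (TreeData.ne_zero hs0)) (swap_biDeg (D.deg s' hs0))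
        (by rw [Bivariate.aevalAeval_swap]; exact hy.rel s' hs0)
      have h9 := IntermediateField.relfinrank_mul_relfinrank hC1 hC3
      rw [← h9]
      have h10 : 1 ≤ (k⟮y s'⟯ ⊔ k⟮y (D.par s')⟯).relfinrank (E ⊔ k⟮y s'⟯) := by
        exact Nat.pos_of_ne_zero fun h => by
          rw [← h6, h, mul_zero] at h4
          omega
      have h11 : (k⟮y s'⟯ ⊔ k⟮y (D.par s')⟯).relfinrank (E ⊔ k⟮y s'⟯) ≤ m ^ (2 * S.card + 1) := by
        refine le_trans ?_ h5
        rw [← h6]
        have h12 : 1 ≤ (k⟮y (D.par s')⟯).relfinrank (k⟮y s'⟯ ⊔ k⟮y (D.par s')⟯) := by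
          exact Nat.pos_of_ne_zero fun h => by
            rw [← h6, h, zero_mul] at h4
            omega
        exact Nat.le_mul_of_pos_left _ h12
      refine ⟨Nat.one_le_iff_ne_zero.2 (Nat.mul_ne_zero (by omega) (by omega)), ?_⟩
      have : m ^ (2 * (S.card + 1)) = m * m ^ (2 * S.card + 1) := by ring
      rw [this]
      exact Nat.mul_le_mul h8 h11
    · obtain ⟨h4, h5⟩ := h3 s' h
      refine ⟨h4, h5.trans (Nat.pow_le_pow_right hm (by omega))⟩)
  have h1 := key s (Finset.mem_univ s)
  rwa [Finset.coe_univ, Set.image_univ, Finset.card_univ] at h1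

end Pool.Agent.Helper34.Dep

end

section

set_option autoImplicit false

set_option linter.style.haveILetI false

namespace Pool.Agent.Helper34.Dep

open Polynomial Pool.Agent.Helper16 Pool.Agent.Helper47.RR IntermediateField Pool.Agent.Helper64.Dep

open scoped Polynomial.Bivariate

section fK

variable {k K K' : Type} [Field k] [Field K] [Field K'] [Algebra k K] [Algebra k K']

/-- the value of the rational function `F / G` -/
noncomputable def fK (F G : k[X]) (u : K) : K := aeval u F / aeval u G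

theorem fK_map (φ : K →ₐ[k] K') (F G : k[X]) (u : K) : φ (fK F G u) = fK F G (φ u) := by
  unfold fK
  rw [map_div₀, ← Polynomial.aeval_algHom_apply, ← Polynomial.aeval_algHom_apply]

theorem fK_iterate_map (φ : K →ₐ[k] K') (F G : k[X]) (n : ℕ) (u : K) :
    φ ((fK F G)^[n] u) = (fK F G)^[n] (φ u) := by
  induction n with
  | zero => rfl
  | succ n ih => rw [Function.iterate_succ_apply', fK_map, ih, Function.iterate_succ_apply']

theorem val_fK {g : Germ k K} {F G : k[X]} {u : K} {a : k} (h : g.Val u a) (hG : G.eval a ≠ 0) :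
    g.Val (fK F G u) (F.eval a / G.eval a) := (h.aeval F).div (h.aeval G) hG

theorem val_iterate {g : Germ k K} {F G : k[X]} {x : ℕ → k} (hG : ∀ j, G.eval (x j) ≠ 0)
    (hx : ∀ j, x (j + 1) = F.eval (x j) / G.eval (x j)) {u : K} {j : ℕ} (h : g.Val u (x j))
    (n : ℕ) : g.Val ((fK F G)^[n] u) (x (j + n)) := by
  induction n with
  | zero => exact h
  | succ n ih =>
    rw [Function.iterate_succ_apply', ← add_assoc, hx]
    exact val_fK ih (hG _)

end fK

end Pool.Agent.Helper34.Dep

end

section

set_option autoImplicit false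

set_option linter.style.haveILetI false

namespace Pool.Agent.Helper34.Dep

open Polynomial Pool.Agent.Helper16 Pool.Agent.Helper47.RR IntermediateField Pool.Agent.Helper64.Dep
  Pool.Agent.Helper93.RatODE Pool.Agent.Helper47.EN

open scoped Polynomial.Bivariate

section aux

variable {k K : Type} [Field k] [Field K] [Algebra k K]

/-- semilinear maps and rational functions -/
theorem fK_semilinear (g : k ≃+* k) (g' : K ≃+* K)
    (hg : ∀ a, g' (algebraMap k K a) = algebraMap k K (g a)) (F G : k[X]) (u : K) (n : ℕ) :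
    g' ((fK F G)^[n] u) = (fK (F.map (g : k →+* k)) (G.map (g : k →+* k)))^[n] (g' u) := by
  have h1 : ∀ (p : k[X]) (v : K), g' (aeval v p) = aeval (g' v) (p.map (g : k →+* k)) := by
    intro p v
    have h2 : (g' : K →+* K).comp (algebraMap k K) = (algebraMap k K).comp (g : k →+* k) := by
      ext a; exact hg a
    have h3 := Polynomial.hom_eval₂ p (algebraMap k K) (g' : K →+* K) v
    rw [h2] at h3
    rw [aeval_def, aeval_def, eval₂_map]
    exact h3
  induction n with
  | zero => rfl
  | succ n ih =>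
    rw [Function.iterate_succ_apply', Function.iterate_succ_apply', ← ih]
    unfold fK
    rw [map_div₀, h1, h1]

end aux

end Pool.Agent.Helper34.Dep

end

section

set_option autoImplicit false

namespace Pool.Agent.Helper34.Dep

open Polynomial IntermediateField

open scoped Polynomial.Bivariate

section swap

variable {R : Type} [CommRing R]

lemma coeff_swap (p : R[X][Y]) (i j : ℕ) :
    ((Bivariate.swap p).coeff i).coeff j = (p.coeff j).coeff i := by
  induction p using Polynomial.induction_on' with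
  | add p q hp hq => rw [map_add, coeff_add, coeff_add, coeff_add, coeff_add, hp, hq]
  | monomial n f =>
    rw [Bivariate.swap_monomial, coeff_mul_C, coeff_map, coeff_C_mul, coeff_X_pow, coeff_monomial]
    by_cases h : n = j
    · rw [if_pos h, if_pos h.symm, mul_one]
    · rw [if_neg h, if_neg (fun h' => h h'.symm), mul_zero, coeff_zero]

lemma biDeg_swap {p : R[X][Y]} {m : ℕ} (h : BiDeg p m) : BiDeg (Bivariate.swap p) m := by
  refine ⟨?_, fun i => ?_⟩
  · rw [natDegree_le_iff_coeff_eq_zero]
    intro i hi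
    ext j
    rw [coeff_swap, coeff_zero]
    exact coeff_eq_zero_of_natDegree_lt (lt_of_le_of_lt (h.2 j) hi)
  · rw [natDegree_le_iff_coeff_eq_zero]
    intro j hj
    rw [coeff_swap, coeff_eq_zero_of_natDegree_lt (lt_of_le_of_lt h.1 hj), coeff_zero]

lemma evalEval_swap (p : R[X][Y]) (a b : R) :
    (Bivariate.swap p).evalEval a b = p.evalEval b a := by
  have := Bivariate.aevalAeval_swap (R := R) (A := R) a b p
  rwa [coe_aevalAeval_eq_evalEval, coe_aevalAeval_eq_evalEval] at this

lemma biDeg_map {S : Type} [CommRing S] (f : R →+* S) {p : R[X][Y]} {m : ℕ} (h : BiDeg p m) :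
    BiDeg (p.map (mapRingHom f)) m := by
  refine ⟨natDegree_map_le.trans h.1, fun i => ?_⟩
  rw [coeff_map, coe_mapRingHom]
  exact natDegree_map_le.trans (h.2 i)

end swap

section galois

variable {F L : Type} [Field F] [Field L] [Algebra F L] [Algebra.IsAlgebraic F L]

lemma isAlgebraic_closure : Algebra.IsAlgebraic F (AlgebraicClosure L) :=
  Algebra.IsAlgebraic.trans F L (AlgebraicClosure L)

/-- transitivity on embeddings -/
lemma exists_ext (σ : L →ₐ[F] AlgebraicClosure L) :
    ∃ g : AlgebraicClosure L ≃ₐ[F] AlgebraicClosure L,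
      ∀ a, g (algebraMap L (AlgebraicClosure L) a) = σ a := by
  have h1 := isAlgebraic_closure (F := F) (L := L)
  obtain ⟨φ, hφ⟩ := IsAlgClosed.surjective_domRestrict_of_isAlgebraic
    (K := F) (L := L) (M := AlgebraicClosure L) (E := AlgebraicClosure L) σ
  have hb : Function.Bijective φ := Algebra.IsAlgebraic.algHom_bijective φ
  refine ⟨AlgEquiv.ofBijective φ hb, fun a => ?_⟩
  rw [AlgEquiv.ofBijective_apply, ← hφ]
  rfl

lemma pow_mem_of_fixed (a : AlgebraicClosure L)
    (h : ∀ g : AlgebraicClosure L ≃ₐ[L] AlgebraicClosure L, g a = a) :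
    ∃ e : ℕ, ∃ b : L, a ^ (ringExpChar L ^ e) = algebraMap L (AlgebraicClosure L) b := by
  classical
  have hn : Normal L (AlgebraicClosure L) := inferInstance
  have hi : IsAlgebraic L a := Algebra.IsAlgebraic.isAlgebraic a
  have h1 : a ∈ perfectClosure L (AlgebraicClosure L) := by
    rw [mem_perfectClosure_iff_natSepDegree_eq_one,
      natSepDegree_eq_of_isAlgClosed (AlgebraicClosure L), Finset.card_eq_one]
    refine ⟨a, ?_⟩
    ext y
    rw [Multiset.mem_toFinset, Finset.mem_singleton, mem_aroots]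
    constructor
    · rintro ⟨-, hy⟩
      obtain ⟨g, hg⟩ := minpoly.exists_algEquiv_of_root' hi hy
      rw [← hg, h g]
    · rintro rfl
      exact ⟨minpoly.ne_zero hi.isIntegral, minpoly.aeval _ _⟩
  rw [mem_perfectClosure_iff] at h1
  obtain ⟨e, b, hb⟩ := h1
  exact ⟨e, b, hb.symm⟩

end galois

section graph

lemma exists_closer {V : Type} (G : SimpleGraph V) {u v : V} (h : G.Reachable u v) (hne : v ≠ u) :
    ∃ w, G.Adj w v ∧ G.Reachable u w ∧ G.dist u w < G.dist u v := by
  obtain ⟨p, hp⟩ := h.symm.exists_walk_length_eq_dist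
  cases p with
  | nil => exact absurd rfl hne
  | cons hadj q =>
    rename_i w
    refine ⟨w, hadj.symm, q.reachable.symm, ?_⟩
    rw [SimpleGraph.Walk.length_cons] at hp
    have h1 := SimpleGraph.dist_le q
    rw [SimpleGraph.dist_comm (u := u) (v := w), SimpleGraph.dist_comm (u := u) (v := v)]
    omega

variable {F L W : Type} [Field F] [Field L] [Algebra F L] [Field W] [Algebra F W]

/-- the action on embeddings -/
def act (g : W ≃ₐ[F] W) (s : L →ₐ[F] W) : L →ₐ[F] W := (g : W →ₐ[F] W).comp s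

lemma act_apply (g : W ≃ₐ[F] W) (s : L →ₐ[F] W) (a : L) : act g s a = g (s a) := rfl

lemma act_mul (g h : W ≃ₐ[F] W) (s : L →ₐ[F] W) : act (g * h) s = act g (act h s) := rfl

lemma act_one (s : L →ₐ[F] W) : act (1 : W ≃ₐ[F] W) s = s := rfl

lemma act_inj (g : W ≃ₐ[F] W) {s s' : L →ₐ[F] W} (h : act g s = act g s') : s = s' := by
  ext a
  exact g.injective (by rw [← act_apply, ← act_apply, h])

/-- the graph of translates of one pair -/
def Gr (i τ : L →ₐ[F] W) : SimpleGraph (L →ₐ[F] W) where
  Adj s s' := s ≠ s' ∧ ∃ g : W ≃ₐ[F] W, (s = act g i ∧ s' = act g τ) ∨ (s' = act g i ∧ s = act g τ)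
  symm := ⟨fun _ _ h => ⟨h.1.symm, h.2.imp fun _ hg => hg.symm⟩⟩
  loopless := ⟨fun _ h => h.1 rfl⟩

lemma reach_act (i τ : L →ₐ[F] W) (g : W ≃ₐ[F] W) {s s' : L →ₐ[F] W}
    (h : (Gr i τ).Reachable s s') : (Gr i τ).Reachable (act g s) (act g s') := by
  let f : Gr i τ →g Gr i τ :=
    ⟨act g, fun {a b} hab => ⟨fun h => hab.1 (act_inj g h), by
      obtain ⟨-, g', hg'⟩ := hab
      refine ⟨g * g', ?_⟩
      rcases hg' with ⟨h1, h2⟩ | ⟨h1, h2⟩
      · exact Or.inl ⟨by rw [h1, act_mul], by rw [h2, act_mul]⟩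
      · exact Or.inr ⟨by rw [h1, act_mul], by rw [h2, act_mul]⟩⟩⟩
  exact h.map f

/-- the stabiliser of the component of `i` -/
def Stab (i τ : L →ₐ[F] W) : Subgroup (W ≃ₐ[F] W) where
  carrier := {g | (Gr i τ).Reachable i (act g i)}
  mul_mem' := by
    intro a b ha hb
    rw [Set.mem_ofPred_eq] at ha hb ⊢
    rw [act_mul]
    exact ha.trans (reach_act i τ a hb)
  one_mem' := by
    rw [Set.mem_ofPred_eq, act_one]
  inv_mem' := by
    intro a ha
    rw [Set.mem_ofPred_eq] at ha ⊢
    have := reach_act i τ a⁻¹ ha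
    rw [← act_mul, inv_mul_cancel, act_one] at this
    exact this.symm

lemma mem_Stab {i τ : L →ₐ[F] W} {g : W ≃ₐ[F] W} :
    g ∈ Stab i τ ↔ (Gr i τ).Reachable i (act g i) := Iff.rfl

lemma reach_of_mem {i τ : L →ₐ[F] W} {g : W ≃ₐ[F] W} (hg : g ∈ Stab i τ) {s : L →ₐ[F] W}
    (hs : (Gr i τ).Reachable i s) : (Gr i τ).Reachable i (act g s) :=
  (mem_Stab.mp hg).trans (reach_act i τ g hs)

end graph

theorem grp_aux {F L : Type} [Field F] [Field L] [Algebra F L]
    [FiniteDimensional F L] (n : ℕ) (hn : Module.finrank F L ≤ n)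
    (σ τ : L →ₐ[F] AlgebraicClosure L) (hst : σ ≠ τ) (m N : ℕ)
    (P : (AlgebraicClosure L)[X][Y]) (hP : P ≠ 0) (hm : BiDeg P m) (x : ℕ → L)
    (hx : ∀ j ≤ N, P.evalEval (σ (x j)) (τ (x j)) = 0) :
    ∃ (ι : Type) (_ : Fintype ι) (emb : ι → (L →ₐ[F] AlgebraicClosure L)) (s₀ : ι)
      (rk : ι → ℕ) (par : ι → ι) (Q : ι → (AlgebraicClosure L)[X][Y])
      (Γ : Subgroup (AlgebraicClosure L ≃ₐ[F] AlgebraicClosure L))
      (L₀ : IntermediateField F L),
      Fintype.card ι ≤ n ∧ (∀ a, emb s₀ a = algebraMap L (AlgebraicClosure L) a) ∧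
      (∀ s, s ≠ s₀ → rk (par s) < rk s ∧ Q s ≠ 0 ∧ BiDeg (Q s) m ∧
        ∀ j ≤ N, (Q s).evalEval (emb (par s) (x j)) (emb s (x j)) = 0) ∧
      (∀ g ∈ Γ, ∃ π : Equiv.Perm ι, ∀ s a, emb (π s) a = g (emb s a)) ∧
      L₀ ≠ ⊤ ∧
      (∀ a : AlgebraicClosure L, (∀ g ∈ Γ, g a = a) → ∃ e : ℕ, ∃ b ∈ L₀,
        a ^ (ringExpChar L ^ e) = algebraMap L (AlgebraicClosure L) b) := by
  classical
  -- normalise
  obtain ⟨g₀, hg₀⟩ := exists_ext (F := F) (L := L) σ
  let i : L →ₐ[F] AlgebraicClosure L := IsScalarTower.toAlgHom F L (AlgebraicClosure L)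
  have hi : ∀ a, i a = algebraMap L (AlgebraicClosure L) a := fun a => rfl
  have hσ : σ = act g₀ i := by
    ext a
    rw [act_apply, hi, hg₀]
  let τ' : L →ₐ[F] AlgebraicClosure L := act g₀⁻¹ τ
  have hτ' : act g₀ τ' = τ := by
    change act g₀ (act g₀⁻¹ τ) = τ
    rw [← act_mul, mul_inv_cancel, act_one]
  have hne : i ≠ τ' := by
    intro h
    apply hst
    rw [hσ, h, hτ']
  -- translates of the relation
  have hrel : ∀ g : AlgebraicClosure L ≃ₐ[F] AlgebraicClosure L,
      ∃ q : (AlgebraicClosure L)[X][Y], q ≠ 0 ∧ BiDeg q m ∧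
      ∀ j ≤ N, q.evalEval (act g i (x j)) (act g τ' (x j)) = 0 := by
    intro g
    let f : AlgebraicClosure L →+* AlgebraicClosure L :=
      ((g * g₀⁻¹ : AlgebraicClosure L ≃ₐ[F] AlgebraicClosure L) :
        AlgebraicClosure L →+* AlgebraicClosure L)
    refine ⟨P.map (mapRingHom f), ?_, biDeg_map f hm, fun j hj => ?_⟩
    · rw [Ne, Polynomial.map_eq_zero_iff (map_injective f f.injective)]
      exact hP
    · have h1 : act g i (x j) = f (σ (x j)) := by
        change g (i (x j)) = g (g₀⁻¹ (σ (x j)))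
        rw [hσ]
        congr 1
        exact (AlgEquiv.symm_apply_apply g₀ _).symm
      have h2 : act g τ' (x j) = f (τ (x j)) := rfl
      rw [h1, h2, map_mapRingHom_evalEval, hx j hj, map_zero]
  -- the block
  have hfin : Finite (L →ₐ[F] AlgebraicClosure L) := inferInstance
  let ι := {s : L →ₐ[F] AlgebraicClosure L // (Gr i τ').Reachable i s}
  have hfι : Finite ι := inferInstance
  let s₀ : ι := ⟨i, SimpleGraph.Reachable.refl _⟩
  have hpar : ∀ s : ι, ∃ (p : ι) (q : (AlgebraicClosure L)[X][Y]), s ≠ s₀ →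
      ((Gr i τ').dist i p.1 < (Gr i τ').dist i s.1 ∧ q ≠ 0 ∧ BiDeg q m ∧
        ∀ j ≤ N, q.evalEval (p.1 (x j)) (s.1 (x j)) = 0) := by
    intro s
    by_cases hs : s = s₀
    · exact ⟨s, 0, fun h => absurd hs h⟩
    · obtain ⟨w, hadj, hw, hlt⟩ := exists_closer (Gr i τ') s.2 (fun h => hs (Subtype.ext h))
      obtain ⟨-, g, h | h⟩ := hadj
      · obtain ⟨q, h1, h2, h3⟩ := hrel g
        refine ⟨⟨w, hw⟩, q, fun _ => ⟨hlt, h1, h2, ?_⟩⟩
        intro j hj
        change q.evalEval (w (x j)) (s.1 (x j)) = 0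
        rw [h.1, h.2]
        exact h3 j hj
      · obtain ⟨q, h1, h2, h3⟩ := hrel g
        refine ⟨⟨w, hw⟩, Bivariate.swap q, fun _ => ⟨hlt, ?_, biDeg_swap h2, ?_⟩⟩
        · intro h0
          exact h1 ((EmbeddingLike.map_eq_zero_iff (f := Bivariate.swap)).mp h0)
        · intro j hj
          rw [evalEval_swap]
          change q.evalEval (s.1 (x j)) (w (x j)) = 0
          rw [h.1, h.2]
          exact h3 j hj
  choose par Q hpar using hpar
  refine ⟨ι, Fintype.ofFinite ι, Subtype.val, s₀, fun s => (Gr i τ').dist i s.1, par, Q,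
    Stab i τ', (IntermediateField.fixedField (Stab i τ')).comap i, ?_, fun a => rfl,
    fun s hs => hpar s hs, ?_, ?_, ?_⟩
  · rw [← @Nat.card_eq_fintype_card ι (Fintype.ofFinite ι)]
    refine le_trans ?_ ((card_algHom_le_finrank F L (AlgebraicClosure L)).trans hn)
    exact Nat.card_le_card_of_injective _ Subtype.val_injective
  · intro g hg
    refine ⟨⟨fun s => ⟨act g s.1, reach_of_mem hg s.2⟩,
      fun s => ⟨act g⁻¹ s.1, reach_of_mem ((Stab i τ').inv_mem hg) s.2⟩, ?_, ?_⟩, fun s a => rfl⟩
    · intro s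
      apply Subtype.ext
      change act g⁻¹ (act g s.1) = s.1
      rw [← act_mul, inv_mul_cancel, act_one]
    · intro s
      apply Subtype.ext
      change act g (act g⁻¹ s.1) = s.1
      rw [← act_mul, mul_inv_cancel, act_one]
  · intro htop
    obtain ⟨g, hg⟩ := exists_ext (F := F) (L := L) τ'
    have hgi : act g i = τ' := by
      ext a
      exact hg a
    have hmem : g ∈ Stab i τ' := by
      rw [mem_Stab, hgi]
      exact SimpleGraph.Adj.reachable ⟨hne, 1, Or.inl ⟨(act_one i).symm, (act_one τ').symm⟩⟩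
    apply hne
    ext a
    have h1 : a ∈ (IntermediateField.fixedField (Stab i τ')).comap i := by
      rw [htop]; exact IntermediateField.mem_top
    rw [← hgi, act_apply]
    have h2 : i a ∈ IntermediateField.fixedField (Stab i τ') := h1
    rw [IntermediateField.mem_fixedField_iff] at h2
    exact (h2 g hmem).symm
  · intro a ha
    obtain ⟨e, b, hb⟩ := pow_mem_of_fixed (L := L) a fun g => by
      have := ha (g.restrictScalars F) (by
        rw [mem_Stab]
        have : act (g.restrictScalars F) i = i := by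
          ext c
          exact g.commutes c
        rw [this])
      exact this
    refine ⟨e, b, ?_, hb⟩
    change i b ∈ IntermediateField.fixedField (Stab i τ')
    rw [IntermediateField.mem_fixedField_iff]
    intro g hg
    rw [hi, ← hb, map_pow, ha g hg]

theorem grp {k L : Type} [Field k] [IsAlgClosed k] [Field L] [Algebra k L] (t : L)
    [FiniteDimensional k⟮t⟯ L] (n : ℕ) (hn : Module.finrank k⟮t⟯ L ≤ n)
    (σ τ : L →ₐ[k⟮t⟯] AlgebraicClosure L) (hst : σ ≠ τ) (m N : ℕ)
    (P : (AlgebraicClosure L)[X][Y]) (hP : P ≠ 0) (hm : BiDeg P m) (x : ℕ → L)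
    (hx : ∀ j ≤ N, P.evalEval (σ (x j)) (τ (x j)) = 0) :
    ∃ (ι : Type) (_ : Fintype ι) (emb : ι → (L →ₐ[k⟮t⟯] AlgebraicClosure L)) (s₀ : ι)
      (rk : ι → ℕ) (par : ι → ι) (Q : ι → (AlgebraicClosure L)[X][Y])
      (Γ : Subgroup (AlgebraicClosure L ≃ₐ[k⟮t⟯] AlgebraicClosure L))
      (L₀ : IntermediateField k⟮t⟯ L),
      Fintype.card ι ≤ n ∧ (∀ a, emb s₀ a = algebraMap L (AlgebraicClosure L) a) ∧
      (∀ s, s ≠ s₀ → rk (par s) < rk s ∧ Q s ≠ 0 ∧ BiDeg (Q s) m ∧
        ∀ j ≤ N, (Q s).evalEval (emb (par s) (x j)) (emb s (x j)) = 0) ∧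
      (∀ g ∈ Γ, ∃ π : Equiv.Perm ι, ∀ s a, emb (π s) a = g (emb s a)) ∧
      L₀ ≠ ⊤ ∧
      (∀ a : AlgebraicClosure L, (∀ g ∈ Γ, g a = a) → ∃ e : ℕ, ∃ b ∈ L₀,
        a ^ (ringExpChar k ^ e) = algebraMap L (AlgebraicClosure L) b) := by
  have hchar : ringExpChar L = ringExpChar k := by
    have := expChar_of_injective_algebraMap (algebraMap k L).injective (ringExpChar k)
    exact ringExpChar.eq L (ringExpChar k)
  rw [← hchar]
  exact grp_aux n hn σ τ hst m N P hP hm x hx

end Pool.Agent.Helper34.Dep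

end

section

set_option autoImplicit false

set_option linter.style.haveILetI false

namespace Pool.Agent.Helper34.Dep

open Polynomial Pool.Agent.Helper16 Pool.Agent.Helper47.RR IntermediateField Pool.Agent.Helper64.Dep
  Pool.Agent.Helper93.RatODE Pool.Agent.Helper47.EN Pool.Agent.Helper3.Dep
  Pool.Agent.Helper38.DT Pool.Agent.Helper45.FR

open scoped Polynomial.Bivariate

theorem exists_bivariate {R : Type} [Field R] (P : MvPolynomial (Fin 2) R) (hP : P ≠ 0) (m : ℕ)
    (hm : ∀ i, P.degreeOf i ≤ m) :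
    ∃ P' : R[X][Y], P' ≠ 0 ∧ BiDeg P' m ∧
      ∀ a b : R, P'.evalEval a b = MvPolynomial.eval ![a, b] P := by
  classical
  refine ⟨MvPolynomial.aeval ![C X, (X : R[X][Y])] P, ?_, ?_, ?_⟩
  · intro h
    apply hP
    have h1 : (Bivariate.equivMvPolynomial R).symm P = 0 := h
    simpa using h1
  · have h1 : MvPolynomial.aeval ![C X, (X : R[X][Y])] P =
        ∑ s ∈ P.support, C (C (P.coeff s) * X ^ s 0) * X ^ s 1 := by
      rw [MvPolynomial.aeval_def, MvPolynomial.eval₂_eq']
      refine Finset.sum_congr rfl fun s _ => ?_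
      rw [Fin.prod_univ_two]
      simp only [Matrix.cons_val_zero, Matrix.cons_val_one]
      rw [map_mul, map_pow, mul_assoc]
      rfl
    have h0 : ∀ s ∈ P.support, s 0 ≤ m := fun s hs =>
      (MvPolynomial.le_degreeOf_of_mem_support _ hs).trans (hm 0)
    have h2 : ∀ s ∈ P.support, s 1 ≤ m := fun s hs =>
      (MvPolynomial.le_degreeOf_of_mem_support _ hs).trans (hm 1)
    rw [h1]
    constructor
    · refine natDegree_sum_le_of_forall_le _ _ fun s hs => ?_
      exact (natDegree_C_mul_X_pow_le _ _).trans (h2 s hs)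
    · intro i
      rw [finsetSum_coeff]
      refine natDegree_sum_le_of_forall_le _ _ fun s hs => ?_
      rw [coeff_C_mul_X_pow]
      split_ifs
      · exact (natDegree_C_mul_X_pow_le _ _).trans (h0 s hs)
      · simp
  · intro a b
    have h1 : ((evalEvalRingHom a b : R[X][Y] →+* R).comp
        ((MvPolynomial.aeval ![C X, (X : R[X][Y])] : MvPolynomial (Fin 2) R →ₐ[R] R[X][Y]) :
          MvPolynomial (Fin 2) R →+* R[X][Y])) = MvPolynomial.eval ![a, b] := by
      apply MvPolynomial.ringHom_ext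
      · intro c
        simp
      · intro i
        fin_cases i
        · simp
        · simp
    exact RingHom.congr_fun h1 P

end Pool.Agent.Helper34.Dep

end

section

set_option autoImplicit false

namespace Pool.Agent.Helper36.PT

open Polynomial Finset Pool.Agent.Helper93.RatODE Pool.Agent.Helper36.DT

variable {E : Type} [Field E]

theorem eval_swap (p : Polynomial (Polynomial E)) (x y : E) :
    ((Bivariate.swap p).eval (C y)).eval x = (p.eval (C x)).eval y := by
  have h1 := Bivariate.aevalAeval_swap x y p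
  rw [coe_aevalAeval_eq_evalEval, coe_aevalAeval_eq_evalEval] at h1
  exact h1

end Pool.Agent.Helper36.PT

end
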