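import Pool.Agent.Helper23.MB.Inst

/-!
Parts of Helper33.UB.Inst, Helper33.UB.Height, Helper38.DT.Mob, Helper45.S6Insep, Helper35.PS.Coord, Helper33.UB.Sel4, Helper33.PT.SelC2, Helper33.PT.SelC3
-/

attribute [-simp] Valuation.IsUniformizer.val
attribute [local instance 5000]
  Pool.Agent.Helper23.MB.Inst.rCharZero Pool.Agent.Helper23.MB.Inst.rALM
  Pool.Agent.Helper23.MB.Inst.rARM Pool.Agent.Helper23.MB.Inst.rALSM
  Pool.Agent.Helper23.MB.Inst.rARSM Pool.Agent.Helper23.MB.Inst.rARRLE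
  Pool.Agent.Helper23.MB.Inst.rALRLE Pool.Agent.Helper23.MB.Inst.rARRLT
  Pool.Agent.Helper23.MB.Inst.rALRLT Pool.Agent.Helper23.MB.Inst.rPMRLT
  Pool.Agent.Helper23.MB.Inst.rMPRLT Pool.Agent.Helper23.MB.Inst.rPMM
  Pool.Agent.Helper23.MB.Inst.rMPM Pool.Agent.Helper23.MB.Inst.rPMSM
  Pool.Agent.Helper23.MB.Inst.rMPSM Pool.Agent.Helper23.MB.Inst.rEAOL
  Pool.Agent.Helper23.MB.Inst.rIOR Pool.Agent.Helper23.MB.Inst.rISOR
  Pool.Agent.Helper23.MB.Inst.rNZD Pool.Agent.Helper23.MB.Inst.zCharZero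
  Pool.Agent.Helper23.MB.Inst.zALM Pool.Agent.Helper23.MB.Inst.zARM
  Pool.Agent.Helper23.MB.Inst.zIOR Pool.Agent.Helper23.MB.Inst.zISOR
  Pool.Agent.Helper23.MB.Inst.zNZD Pool.Agent.Helper23.MB.Inst.qCharZero
  Pool.Agent.Helper23.MB.Inst.free Pool.Agent.Helper23.MB.Inst.faith
  Pool.Agent.Helper23.MB.Inst.torsionFree Pool.Agent.Helper23.MB.Inst.rfFaith
  Pool.Agent.Helper23.MB.Inst.hAdd Pool.Agent.Helper23.MB.Inst.hAddM
  Pool.Agent.Helper23.MB.Inst.hMul Pool.Agent.Helper23.MB.Inst.hMon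
  Pool.Agent.Helper23.MB.Inst.hZero Pool.Agent.Helper23.MB.Inst.hOne
  Pool.Agent.Helper23.MB.Inst.hMZ Pool.Agent.Helper23.MB.Inst.hRing
  Pool.Agent.Helper23.MB.Inst.aAdd Pool.Agent.Helper23.MB.Inst.aAddM
  Pool.Agent.Helper23.MB.Inst.aMul Pool.Agent.Helper23.MB.Inst.aMon
  Pool.Agent.Helper23.MB.Inst.aZero Pool.Agent.Helper23.MB.Inst.aOne
  Pool.Agent.Helper23.MB.Inst.aMZ Pool.Agent.Helper23.MB.Inst.aRing

namespace Pool.Agent.Helper33.UB.TreeDyn
end Pool.Agent.Helper33.UB.TreeDyn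

namespace Pool.Agent.Helper16
end Pool.Agent.Helper16
namespace Pool.Agent.Helper33
end Pool.Agent.Helper33
namespace Pool.Agent.Helper33.PS
end Pool.Agent.Helper33.PS
namespace Pool.Agent.Helper33.UB
end Pool.Agent.Helper33.UB
namespace Pool.Agent.Helper33.UB.TreeDyn
end Pool.Agent.Helper33.UB.TreeDyn
namespace Pool.Agent.Helper45.FF
end Pool.Agent.Helper45.FF
namespace Pool.Agent.Helper45.FR
end Pool.Agent.Helper45.FR
namespace Pool.Agent.Helper51.RatTree
end Pool.Agent.Helper51.RatTree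
namespace Pool.Agent.Helper93.RatODE
end Pool.Agent.Helper93.RatODE

section

set_option autoImplicit false

open Finset Polynomial

namespace Pool.Agent.Helper33.UB

/-- constants attached to a class of maps -/
structure GConst where
  /-- degree -/
  d : ℕ
  hd : 1 ≤ d
  /-- constant of the lower bound -/
  C1 : ℝ
  hC1 : 1 ≤ C1
  /-- constant of the local lower bound -/
  c0 : ℝ
  hc0 : 0 < c0
  hc01 : c0 ≤ 1
  /-- size of the sets in the local lower bound -/
  N0 : ℕ
  /-- discreteness -/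
  δ0 : ℝ
  hδ0 : 0 < δ0
  /-- threshold at good places -/
  c1 : ℝ
  hc1 : 0 < c1
  /-- number of iterates needed for the differential equations -/
  mOf : ℕ → ℕ
  /-- number of points needed for the differential equations -/
  nYOf : ℕ → ℕ
  /-- depth of the levels -/
  depth : ℝ → ℕ
  hdepth : ∀ M, 1 ≤ depth M

end Pool.Agent.Helper33.UB

end

section

set_option autoImplicit false

open Finset Polynomial

namespace Pool.Agent.Helper33.UB

open TreeDyn

/-- size of the determinants -/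
noncomputable def Rf (c : GConst) (ϑ : ℝ) : ℕ := ⌈5 / ϑ⌉₊ + ⌈c.N0 * (c.c0 + c.C1) / c.c0⌉₊ + 1

lemma Rf_spec (c : GConst) {ϑ : ℝ} :
    5 / ϑ ≤ Rf c ϑ + 1 ∧ c.N0 * (c.c0 + c.C1) ≤ (Rf c ϑ + 1) * c.c0 ∧ 1 ≤ Rf c ϑ := by
  have hc0 := c.hc0
  have h1 : 5 / ϑ ≤ ⌈5 / ϑ⌉₊ := Nat.le_ceil _
  have h2 : c.N0 * (c.c0 + c.C1) / c.c0 ≤ ⌈c.N0 * (c.c0 + c.C1) / c.c0⌉₊ := Nat.le_ceil _
  have h3 : (Rf c ϑ : ℝ) = ⌈5 / ϑ⌉₊ + ⌈c.N0 * (c.c0 + c.C1) / c.c0⌉₊ + 1 := by
    unfold Rf; push_cast; ring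
  have h4 : (0 : ℝ) ≤ ⌈c.N0 * (c.c0 + c.C1) / c.c0⌉₊ := Nat.cast_nonneg _
  have h5 : (0 : ℝ) ≤ ⌈5 / ϑ⌉₊ := Nat.cast_nonneg _
  refine ⟨by rw [h3]; linarith, ?_, by unfold Rf; omega⟩
  rw [div_le_iff₀ hc0] at h2
  rw [h3]
  nlinarith

end Pool.Agent.Helper33.UB

end

section

set_option autoImplicit false

set_option linter.style.haveILetI false

namespace Pool.Agent.Helper38.DT

open Polynomial IntermediateField Pool.Agent.Helper16

section mob

variable {E M : Type} [Field E] [Field M] [Algebra E M]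

/-- the Moebius transformation attached to a matrix -/
noncomputable def mob (A : Matrix (Fin 2) (Fin 2) E) (y : M) : M :=
  (algebraMap E M (A 0 0) * y + algebraMap E M (A 0 1)) /
    (algebraMap E M (A 1 0) * y + algebraMap E M (A 1 1))

theorem lin_ne_zero {y : M} (hy : Transcendental E y) {a b : E} (h : a ≠ 0 ∨ b ≠ 0) :
    algebraMap E M a * y + algebraMap E M b ≠ 0 := by
  intro h0
  refine hy ⟨C a * X + C b, ?_, ?_⟩
  · intro h1
    have h2 := congrArg (fun p => Polynomial.coeff p 1) h1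
    have h3 := congrArg (fun p => Polynomial.coeff p 0) h1
    simp at h2 h3
    rcases h with h | h
    · exact h h2
    · exact h h3
  · simpa using h0

theorem det_row {A : Matrix (Fin 2) (Fin 2) E} (hA : A.det ≠ 0) (i : Fin 2) :
    A i 0 ≠ 0 ∨ A i 1 ≠ 0 := by
  by_contra hcon
  push Not at hcon
  apply hA
  rw [Matrix.det_fin_two]
  fin_cases i
  · simp only [Fin.zero_eta, Fin.isValue] at hcon
    rw [hcon.1, hcon.2]; ring
  · simp only [Fin.mk_one, Fin.isValue] at hcon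
    rw [hcon.1, hcon.2]; ring

theorem mob_mul {y : M} (hy : Transcendental E y) {A B : Matrix (Fin 2) (Fin 2) E}
    (hA : A.det ≠ 0) (hB : B.det ≠ 0) : mob A (mob B y) = mob (A * B) y := by
  have hAB : (A * B).det ≠ 0 := by rw [Matrix.det_mul]; exact mul_ne_zero hA hB
  have h1 := lin_ne_zero hy (det_row hB 1)
  have h2 := lin_ne_zero hy (det_row hAB 1)
  have h3 : (algebraMap E M (A 1 0) * mob B y + algebraMap E M (A 1 1)) *
      (algebraMap E M (B 1 0) * y + algebraMap E M (B 1 1)) =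
      algebraMap E M ((A * B) 1 0) * y + algebraMap E M ((A * B) 1 1) := by
    unfold mob
    rw [Matrix.mul_apply, Matrix.mul_apply, Fin.sum_univ_two, Fin.sum_univ_two, add_mul, mul_assoc,
      div_mul_cancel₀ _ h1]
    simp only [map_add, map_mul]
    ring
  have h4 : (algebraMap E M (A 0 0) * mob B y + algebraMap E M (A 0 1)) *
      (algebraMap E M (B 1 0) * y + algebraMap E M (B 1 1)) =
      algebraMap E M ((A * B) 0 0) * y + algebraMap E M ((A * B) 0 1) := by
    unfold mob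
    rw [Matrix.mul_apply, Matrix.mul_apply, Fin.sum_univ_two, Fin.sum_univ_two, add_mul, mul_assoc,
      div_mul_cancel₀ _ h1]
    simp only [map_add, map_mul]
    ring
  conv_rhs => unfold mob
  rw [← h3, ← h4, mul_div_mul_right _ _ h1]
  rfl

theorem mob_one (y : M) : mob (1 : Matrix (Fin 2) (Fin 2) E) y = y := by
  simp [mob]

theorem mob_inv {y : M} (hy : Transcendental E y) {A : Matrix (Fin 2) (Fin 2) E}
    (hA : A.det ≠ 0) : mob A⁻¹ (mob A y) = y := by
  have hu : IsUnit A.det := isUnit_iff_ne_zero.2 hA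
  have hA' : (A⁻¹).det ≠ 0 := by
    rw [Matrix.det_nonsing_inv, Ring.inverse_eq_inv']
    exact inv_ne_zero hA
  rw [mob_mul hy hA' hA, Matrix.nonsing_inv_mul _ hu, mob_one]

theorem mob_mem (A : Matrix (Fin 2) (Fin 2) E) (y : M) : mob A y ∈ E⟮y⟯ := by
  have h0 := mem_adjoin_simple_self E y
  exact div_mem (add_mem (mul_mem (IntermediateField.algebraMap_mem _ _) h0)
    (IntermediateField.algebraMap_mem _ _)) (add_mem (mul_mem (IntermediateField.algebraMap_mem _ _)
      h0) (IntermediateField.algebraMap_mem _ _))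

theorem adjoin_mob {y : M} (hy : Transcendental E y) {A : Matrix (Fin 2) (Fin 2) E}
    (hA : A.det ≠ 0) : E⟮mob A y⟯ = E⟮y⟯ := by
  apply le_antisymm
  · rw [adjoin_simple_le_iff]
    exact mob_mem A y
  · rw [adjoin_simple_le_iff]
    have := mob_mem A⁻¹ (mob A y)
    rwa [mob_inv hy hA] at this

theorem transcendental_of_adjoin_eq {y y' : M} (hy : Transcendental E y) (h : E⟮y'⟯ = E⟮y⟯) :
    Transcendental E y' := by
  intro halg
  have h1 : y ∈ E⟮y'⟯ := by rw [h]; exact mem_adjoin_simple_self E y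
  haveI : Algebra.IsAlgebraic E E⟮y'⟯ := isAlgebraic_adjoin_simple halg.isIntegral
  have h2 := Algebra.IsAlgebraic.isAlgebraic (R := E) (⟨y, h1⟩ : E⟮y'⟯)
  exact hy ((isAlgebraic_iff (S := E⟮y'⟯)).1 h2)

theorem transcendental_mob {y : M} (hy : Transcendental E y) {A : Matrix (Fin 2) (Fin 2) E}
    (hA : A.det ≠ 0) : Transcendental E (mob A y) :=
  transcendental_of_adjoin_eq hy (adjoin_mob hy hA)

theorem map_mob (γ : M ≃+* M) (g : E ≃+* E)
    (hγ : ∀ c, γ (algebraMap E M c) = algebraMap E M (g c)) (A : Matrix (Fin 2) (Fin 2) E) (y : M) :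
    γ (mob A y) = mob (A.map g) (γ y) := by
  unfold mob
  rw [map_div₀, map_add, map_add, map_mul, map_mul, hγ, hγ, hγ, hγ]
  rfl

end mob

end Pool.Agent.Helper38.DT

end

section

set_option autoImplicit false

set_option linter.style.haveILetI false

namespace Pool.Agent.Helper45.S6

open Polynomial IntermediateField Pool.Agent.Helper16 Pool.Agent.Helper33 Pool.Agent.Helper45.FF

variable {k M : Type} [Field k] [Field M] [Algebra k M]

attribute [-instance] Subfield.instIsScalarTowerSubtypeMem LieRinehartAlgebra.toIsScalarTower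
  NormedSpace.toModule NormedAlgebra.toAlgebra in
/-- If `M / k(t)` is algebraic and inseparable (`k` algebraically closed), then `t` is a `p`-th
power. -/
theorem exists_root_of_not_separable [IsAlgClosed k] (p : ℕ) [hp : Fact p.Prime] [CharP k p] (t : M)
    [Algebra.IsAlgebraic k⟮t⟯ M] (h : ¬ Algebra.IsSeparable k⟮t⟯ M) : ∃ s : M, s ^ p = t := by
  classical
  set S := separableClosure k⟮t⟯ M with hS
  haveI : CharP M p := charP_of_injective_algebraMap (algebraMap k M).injective p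
  haveI : CharP k⟮t⟯ p := charP_of_injective_algebraMap (algebraMap k k⟮t⟯).injective p
  haveI : CharP S p := charP_of_injective_algebraMap (algebraMap k⟮t⟯ S).injective p
  haveI : ExpChar M p := ExpChar.prime hp.out
  haveI : ExpChar S p := ExpChar.prime hp.out
  haveI : ExpChar k⟮t⟯ p := ExpChar.prime hp.out
  have hStop : S ≠ ⊤ := fun h1 => h ((separableClosure.eq_top_iff k⟮t⟯ M).1 h1)
  obtain ⟨y, hy⟩ : ∃ y : M, y ∉ S := by
    by_contra hcon
    push Not at hcon
    exact hStop (eq_top_iff.2 fun x _ => hcon x)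
  haveI : IsPurelyInseparable S M := separableClosure.isPurelyInseparable k⟮t⟯ M
  have hex : ∃ n : ℕ, y ^ p ^ n ∈ S := by
    obtain ⟨n, z, hz⟩ := IsPurelyInseparable.pow_mem S p y
    exact ⟨n, hz ▸ z.2⟩
  obtain ⟨y', hy', hz'⟩ : ∃ y' : M, y' ∉ S ∧ y' ^ p ∈ S := by
    have hn0 : Nat.find hex ≠ 0 := by
      intro h0
      have := Nat.find_spec hex
      rw [h0, pow_zero, pow_one] at this
      exact hy this
    obtain ⟨m, hm⟩ := Nat.exists_eq_succ_of_ne_zero hn0
    refine ⟨y ^ p ^ m, Nat.find_min hex (by omega), ?_⟩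
    have := Nat.find_spec hex
    rw [hm, pow_succ, pow_mul] at this
    exact this
  -- the subfield of `p`-th powers of `S`
  let F1 : Subfield S := (frobenius S p).fieldRange
  have hF1 : ∀ s : S, s ^ p ∈ F1 := fun s => ⟨s, rfl⟩
  let z : S := ⟨y' ^ p, hz'⟩
  let tS : S := algebraMap k⟮t⟯ S (AdjoinSimple.gen k t)
  have htS : (tS : M) = t := rfl
  -- `S = F1(t)`
  have htop : (F1⟮tS⟯ : IntermediateField F1 S) = ⊤ := by
    rw [eq_top_iff]
    intro s _
    have h1 : s ∈ (k⟮t⟯)⟮s ^ p⟯ := by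
      rw [← adjoin_simple_eq_adjoin_pow_expChar_of_isSeparable' k⟮t⟯ S s p]
      exact mem_adjoin_simple_self _ s
    have h2 : ((k⟮t⟯)⟮s ^ p⟯ : IntermediateField k⟮t⟯ S).toSubfield ≤
        (F1⟮tS⟯ : IntermediateField F1 S).toSubfield := by
      rw [IntermediateField.adjoin_toSubfield, Subfield.closure_le]
      rintro x (⟨a, rfl⟩ | hx)
      · -- `a ∈ k(t)`
        have h3 : ∀ (b : M) (hb : b ∈ k⟮t⟯),
            algebraMap k⟮t⟯ S ⟨b, hb⟩ ∈ (F1⟮tS⟯ : IntermediateField F1 S).toSubfield := by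
          have h4 : (k⟮t⟯ : IntermediateField k M).toSubfield ≤
              ((F1⟮tS⟯ : IntermediateField F1 S).toSubfield).map (algebraMap S M) := by
            rw [IntermediateField.adjoin_toSubfield, Subfield.closure_le]
            rintro b (⟨c, rfl⟩ | hb)
            · obtain ⟨c', hc'⟩ := IsAlgClosed.exists_pow_nat_eq c hp.out.pos
              let c'' : S := algebraMap k⟮t⟯ S (algebraMap k k⟮t⟯ c')
              refine ⟨c'' ^ p, ?_, ?_⟩
              · exact (F1⟮tS⟯ : IntermediateField F1 S).algebraMap_mem ⟨_, hF1 c''⟩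
              · have h5 : algebraMap S M c'' = algebraMap k M c' := rfl
                rw [map_pow, h5, ← map_pow, hc']
            · rw [Set.mem_singleton_iff] at hb
              rw [hb]
              exact ⟨tS, mem_adjoin_simple_self F1 tS, htS⟩
          intro b hb
          obtain ⟨u, hu, hub⟩ := h4 hb
          have h5 : u = algebraMap k⟮t⟯ S ⟨b, hb⟩ := Subtype.ext hub
          rw [← h5]
          exact hu
        exact h3 a.1 a.2
      · rw [Set.mem_singleton_iff] at hx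
        rw [hx]
        exact (F1⟮tS⟯ : IntermediateField F1 S).algebraMap_mem ⟨_, hF1 s⟩
    exact h2 h1
  -- degrees
  have hle : Module.finrank F1 S ≤ p := by
    have h1 : Module.finrank F1 (F1⟮tS⟯ : IntermediateField F1 S) = Module.finrank F1 S := by
      rw [htop]
      exact IntermediateField.finrank_top'
    rw [← h1]
    have hmon : (X ^ p - C (⟨tS ^ p, hF1 tS⟩ : F1)).Monic := monic_X_pow_sub_C _ hp.out.ne_zero
    have hroot : aeval tS (X ^ p - C (⟨tS ^ p, hF1 tS⟩ : F1)) = 0 := by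
      rw [map_sub, map_pow, aeval_X, aeval_C]
      exact sub_self _
    have hint : IsIntegral F1 tS := ⟨_, hmon, hroot⟩
    rw [IntermediateField.adjoin.finrank hint]
    have h2 := minpoly.min F1 tS hmon hroot
    rw [degree_X_pow_sub_C hp.out.pos] at h2
    exact natDegree_le_of_degree_le h2
  have hzirr : Irreducible (X ^ p - C (⟨z ^ p, hF1 z⟩ : F1)) := by
    apply X_pow_sub_C_irreducible_of_prime hp.out
    intro b hb
    have h1 : (b : S) ^ p = z ^ p := congrArg Subtype.val hb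
    have h2 : (b : S) = z := frobenius_inj S p h1
    obtain ⟨s, hs⟩ := b.2
    rw [h2] at hs
    have h3 : (s : M) ^ p = y' ^ p := congrArg Subtype.val hs
    have h4 : (s : M) = y' := frobenius_inj M p h3
    exact hy' (h4 ▸ s.2)
  have hzdeg : Module.finrank F1 (F1⟮z⟯ : IntermediateField F1 S) = p := by
    have hmon : (X ^ p - C (⟨z ^ p, hF1 z⟩ : F1)).Monic := monic_X_pow_sub_C _ hp.out.ne_zero
    have hroot : aeval z (X ^ p - C (⟨z ^ p, hF1 z⟩ : F1)) = 0 := by
      rw [map_sub, map_pow, aeval_X, aeval_C]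
      exact sub_self _
    have hint : IsIntegral F1 z := ⟨_, hmon, hroot⟩
    rw [IntermediateField.adjoin.finrank hint, ← minpoly.eq_of_irreducible_of_monic hzirr hroot hmon,
      natDegree_X_pow_sub_C]
  haveI : FiniteDimensional F1 S := by
    have h1 : FiniteDimensional F1 (F1⟮tS⟯ : IntermediateField F1 S) := by
      apply IntermediateField.adjoin.finiteDimensional
      refine ⟨(X ^ p - C (⟨tS ^ p, hF1 tS⟩ : F1)), monic_X_pow_sub_C _ hp.out.ne_zero, ?_⟩
      rw [← aeval_def, map_sub, map_pow, aeval_X, aeval_C]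
      exact sub_self _
    rw [htop] at h1
    exact Module.Finite.equiv (IntermediateField.topEquiv (F := F1) (E := S)).toLinearEquiv
  have hztop : (F1⟮z⟯ : IntermediateField F1 S) = ⊤ := by
    apply IntermediateField.eq_of_le_of_finrank_le le_top
    rw [hzdeg, IntermediateField.finrank_top']
    exact hle
  have htz : tS ∈ (F1⟮z⟯ : IntermediateField F1 S) := by rw [hztop]; trivial
  have h2 : (F1⟮z⟯ : IntermediateField F1 S).toSubfield ≤
      ((frobenius M p).fieldRange).comap (algebraMap S M) := by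
    rw [IntermediateField.adjoin_toSubfield, Subfield.closure_le]
    rintro x (⟨a, rfl⟩ | hx)
    · obtain ⟨s, hs⟩ := a.2
      refine ⟨(s : M), ?_⟩
      have h3 : ((frobenius S p s : S) : M) = ((a : S) : M) := congrArg _ hs
      exact h3
    · rw [Set.mem_singleton_iff] at hx
      rw [hx]
      exact ⟨y', rfl⟩
  obtain ⟨s, hs⟩ := h2 htz
  exact ⟨s, hs⟩

end Pool.Agent.Helper45.S6

end

section

set_option autoImplicit false

open Finset Polynomial

namespace Pool.Agent.Helper35.PS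

open Pool.Agent.Helper33 Pool.Agent.Helper33.PS Pool.Agent.Helper33.UB Pool.Agent.Helper45.FR
  Pool.Agent.Helper51.RatTree Pool.Agent.Helper93.RatODE

section conj

variable {K : Type*} [Field K]

variable {F G : K[X]} {d : ℕ} {a b c e : K}

lemma lin1 : (C e * X - C b : K[X]).natDegree ≤ 1 ∧ (C e * X - C b : K[X]).coeff 1 = e := by
  constructor
  · refine (natDegree_sub_le _ _).trans (max_le ?_ ?_)
    · exact (natDegree_C_mul_le _ _).trans natDegree_X_le
    · rw [natDegree_C]; exact Nat.zero_le _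
  · rw [coeff_sub, coeff_C_mul, coeff_X_one, coeff_C, if_neg one_ne_zero, mul_one, sub_zero]

end conj

end Pool.Agent.Helper35.PS

end

section

set_option autoImplicit false

open Finset Polynomial

namespace Pool.Agent.Helper33.UB

open TreeDyn

/-- number of points -/
noncomputable def Nf' (c : GConst) (Fn : ℕ → ℕ) (ϑ : ℝ) (J : ℕ) : ℕ :=
  2 * (c.nYOf (Rf c ϑ) + 3 * Rf c ϑ + 10) + ⌈1 / ϑ⌉₊ + Fn J

lemma Nf'_spec (c : GConst) (Fn : ℕ → ℕ) {ϑ : ℝ} (J : ℕ) (hϑ : 0 < ϑ) :
    1 ≤ Nf' c Fn ϑ J ∧ 1 ≤ ϑ * Nf' c Fn ϑ J := by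
  refine ⟨by unfold Nf'; omega, ?_⟩
  have h1 : 1 / ϑ ≤ ⌈1 / ϑ⌉₊ := Nat.le_ceil _
  have h2 : ((⌈1 / ϑ⌉₊ : ℕ) : ℝ) ≤ Nf' c Fn ϑ J := by
    exact_mod_cast (by unfold Nf'; omega)
  have h3 : 1 / ϑ ≤ Nf' c Fn ϑ J := h1.trans h2
  rw [div_le_iff₀ hϑ] at h3
  (clear * - h3; linarith)

end Pool.Agent.Helper33.UB

end

section

set_option autoImplicit false

open Finset Polynomial

namespace Pool.Agent.Helper33.PT

open Pool.Agent.Helper33.UB TreeDyn

/-- forget the differential equations -/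
def noOde (c : GConst) (B : ℕ) : GConst := { c with mOf := fun _ => B + 1, nYOf := fun _ => 1 }

end Pool.Agent.Helper33.PT

end

section

set_option autoImplicit false

open Finset Polynomial

namespace Pool.Agent.Helper33.PT

open Pool.Agent.Helper33.UB TreeDyn

/-- number of windows -/
noncomputable def Qf (c : GConst) (κ₀ : ℝ) : ℕ := ⌈4 * (1 / c.δ0 + c.C1 / c.c1) / κ₀⌉₊ + 1

/-- number of points -/
noncomputable def NfC (c : GConst) (κ₀ : ℝ) (wf : ℕ → ℕ) (Fn : ℕ → ℕ → ℕ) (ϑ : ℝ) (J : ℕ) : ℕ :=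
  Fn (Qf c κ₀ * wf (Rf c ϑ)) J + ⌈1 / ϑ⌉₊ + 1

lemma NfC_spec (c : GConst) (κ₀ : ℝ) (wf : ℕ → ℕ) (Fn : ℕ → ℕ → ℕ) {ϑ : ℝ} (J : ℕ) (hϑ : 0 < ϑ) :
    1 ≤ NfC c κ₀ wf Fn ϑ J ∧ 1 ≤ ϑ * NfC c κ₀ wf Fn ϑ J := by
  refine ⟨by unfold NfC; omega, ?_⟩
  have h1 : 1 / ϑ ≤ ⌈1 / ϑ⌉₊ := Nat.le_ceil _
  have h2 : ((⌈1 / ϑ⌉₊ : ℕ) : ℝ) ≤ NfC c κ₀ wf Fn ϑ J := by
    exact_mod_cast (by unfold NfC; omega)
  have h3 : 1 / ϑ ≤ NfC c κ₀ wf Fn ϑ J := h1.trans h2
  rw [div_le_iff₀ hϑ] at h3
  (clear * - h3; linarith)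

end Pool.Agent.Helper33.PT

end
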