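import Pool.Agent.Helper23.MB.Inst

/-!
Parts of Helper33.UB.Tree, Helper33.UB.Tree2, Helper33.UB.Select, Helper33.UB.Select3, Helper45.FFPlaces, Helper36.S5.Mob, Helper33.UB.Sel2, Helper33.PT.SelC2
-/

attribute [-simp] Valuation.IsUniformizer.val
attribute [local instance 5000]
  Pool.Agent.Helper23.MB.Inst.rCharZero Pool.Agent.Helper23.MB.Inst.rALM
  Pool.Agent.Helper23.MB.Inst.rARM Pool.Agent.Helper23.MB.Inst.rALSM
  Pool.Agent.Helper23.MB.Inst.rARSM Pool.Agent.Helper23.MB.Inst.rARRLE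
  Pool.Agent.Helper23.MB.Inst.rALRLE Pool.Agent.Helper23.MB.Inst.rARRLT
  Pool.Agent.Helper23.MB.Inst.rALRLT Pool.Agent.Helper23.MB.Inst.rPMRLT
  Pool.Agent.Helper23.MB.Inst.rMPRLT Pool.Agent.Helper23.MB.Inst.rPMM
  Pool.Agent.Helper23.MB.Inst.rMPM Pool.Agent.Helper23.MB.Inst.rPMSM
  Pool.Agent.Helper23.MB.Inst.rMPSM Pool.Agent.Helper23.MB.Inst.rEAOL
  Pool.Agent.Helper23.MB.Inst.rIOR Pool.Agent.Helper23.MB.Inst.rISOR
  Pool.Agent.Helper23.MB.Inst.rNZD Pool.Agent.Helper23.MB.Inst.zCharZero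
  Pool.Agent.Helper23.MB.Inst.zALM Pool.Agent.Helper23.MB.Inst.zARM
  Pool.Agent.Helper23.MB.Inst.zIOR Pool.Agent.Helper23.MB.Inst.zISOR
  Pool.Agent.Helper23.MB.Inst.zNZD Pool.Agent.Helper23.MB.Inst.qCharZero
  Pool.Agent.Helper23.MB.Inst.free Pool.Agent.Helper23.MB.Inst.faith
  Pool.Agent.Helper23.MB.Inst.torsionFree Pool.Agent.Helper23.MB.Inst.rfFaith
  Pool.Agent.Helper23.MB.Inst.hAdd Pool.Agent.Helper23.MB.Inst.hAddM
  Pool.Agent.Helper23.MB.Inst.hMul Pool.Agent.Helper23.MB.Inst.hMon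
  Pool.Agent.Helper23.MB.Inst.hZero Pool.Agent.Helper23.MB.Inst.hOne
  Pool.Agent.Helper23.MB.Inst.hMZ Pool.Agent.Helper23.MB.Inst.hRing
  Pool.Agent.Helper23.MB.Inst.aAdd Pool.Agent.Helper23.MB.Inst.aAddM
  Pool.Agent.Helper23.MB.Inst.aMul Pool.Agent.Helper23.MB.Inst.aMon
  Pool.Agent.Helper23.MB.Inst.aZero Pool.Agent.Helper23.MB.Inst.aOne
  Pool.Agent.Helper23.MB.Inst.aMZ Pool.Agent.Helper23.MB.Inst.aRing

namespace Pool.Agent.Helper33.UB.TreeDyn
end Pool.Agent.Helper33.UB.TreeDyn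

namespace Pool.Agent.Helper16
end Pool.Agent.Helper16
namespace Pool.Agent.Helper33.UB
end Pool.Agent.Helper33.UB
namespace Pool.Agent.Helper33.UB.TreeDyn
end Pool.Agent.Helper33.UB.TreeDyn

section

set_option autoImplicit false

namespace Pool.Agent.Helper33.UB

open Finset

/-- Vertices and directions of a tree with a dynamical system, as seen by an orbit indexed by `ℕ`. -/
structure TreeDyn (𝒱 𝒟 : Type*) (d : ℕ) where
  /-- the direction of the index `i` at a vertex -/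
  dir : 𝒱 → ℕ → 𝒟
  /-- the action on vertices -/
  f : 𝒱 → 𝒱
  /-- bad directions -/
  bad : 𝒱 → Finset 𝒟
  bad_card : ∀ ζ, (bad ζ).card ≤ d
  good_map : ∀ ζ i j, dir ζ i ∉ bad ζ → dir ζ i = dir ζ j → dir (f ζ) (i + 1) = dir (f ζ) (j + 1)
  fto : ∀ ζ δ' (Ds : Finset 𝒟), (∀ δ ∈ Ds, δ ∉ bad ζ ∧ ∃ i, dir ζ i = δ ∧ dir (f ζ) (i + 1) = δ') →
    Ds.card ≤ d
  tree : ∀ ζ ζ', ζ ≠ ζ' → ∃ δ δ', ∀ i, dir ζ i ≠ δ → dir ζ' i = δ'

namespace TreeDyn

variable {𝒱 𝒟 : Type*} {d : ℕ} (S : TreeDyn 𝒱 𝒟 d)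

/-- `i` stays in good directions for `t` steps -/
def Good (t : ℕ) (ζ : 𝒱) (i : ℕ) : Prop := ∀ s < t, S.dir (S.f^[s] ζ) (i + s) ∉ S.bad (S.f^[s] ζ)

lemma good_zero (ζ : 𝒱) (i : ℕ) : S.Good 0 ζ i := by
  intro s hs; omega

lemma Good.mono {t t' : ℕ} {ζ : 𝒱} {i : ℕ} (h : S.Good t' ζ i) (htt : t ≤ t') : S.Good t ζ i :=
  fun s hs => h s (by omega)

lemma good_succ {t : ℕ} {ζ : 𝒱} {i : ℕ} :
    S.Good (t + 1) ζ i ↔ S.Good t ζ i ∧ S.dir (S.f^[t] ζ) (i + t) ∉ S.bad (S.f^[t] ζ) := by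
  constructor
  · intro h
    exact ⟨Good.mono S h (by omega), h t (by omega)⟩
  · rintro ⟨h1, h2⟩ s hs
    rcases Nat.lt_succ_iff_lt_or_eq.mp hs with h | rfl
    · exact h1 s h
    · exact h2

lemma Good.shift {s t : ℕ} {ζ : 𝒱} {i : ℕ} (h : S.Good (s + t) ζ i) :
    S.Good t (S.f^[s] ζ) (i + s) := by
  intro u hu
  have := h (s + u) (by omega)
  rwa [add_comm s u, Function.iterate_add_apply, show i + (u + s) = i + s + u by ring] at this

lemma Good.dir_eq {t : ℕ} {ζ : 𝒱} {i j : ℕ} (h : S.Good t ζ i) (hij : S.dir ζ i = S.dir ζ j) :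
    ∀ s ≤ t, S.dir (S.f^[s] ζ) (i + s) = S.dir (S.f^[s] ζ) (j + s) := by
  intro s
  induction s with
  | zero => intro _; simpa using hij
  | succ s ih =>
    intro hs
    have h1 := ih (by omega)
    have h2 := S.good_map (S.f^[s] ζ) (i + s) (j + s) (h s (by omega)) h1
    rwa [← Function.iterate_succ_apply' S.f s ζ] at h2

/-- `t`-step finiteness of fibres -/
lemma fto_iter (t : ℕ) : ∀ (ζ : 𝒱) (δ' : 𝒟) (Ds : Finset 𝒟),
    (∀ δ ∈ Ds, ∃ i, S.Good t ζ i ∧ S.dir ζ i = δ ∧ S.dir (S.f^[t] ζ) (i + t) = δ') →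
    Ds.card ≤ d ^ t := by
  classical
  induction t with
  | zero =>
    intro ζ δ' Ds h
    rw [pow_zero]
    have : Ds ⊆ {δ'} := by
      intro δ hδ
      obtain ⟨i, _, h1, h2⟩ := h δ hδ
      rw [mem_singleton, ← h1, ← h2]
      simp
    exact (card_le_card this).trans (by simp)
  | succ t ih =>
    intro ζ δ' Ds h
    choose! i hgood hdir hend using h
    set g : 𝒟 → 𝒟 := fun δ => S.dir (S.f ζ) (i δ + 1) with hg
    have h1 : (Ds.image g).card ≤ d ^ t := by
      apply ih (S.f ζ) δ'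
      intro δ1 hδ1
      obtain ⟨δ, hδ, rfl⟩ := mem_image.mp hδ1
      refine ⟨i δ + 1, ?_, rfl, ?_⟩
      · have := Good.shift S (s := 1) (t := t) (by rw [add_comm]; exact hgood δ hδ)
        simpa using this
      · have := hend δ hδ
        rwa [Function.iterate_succ_apply, show i δ + (t + 1) = i δ + 1 + t by ring] at this
    have h2 : ∀ δ1 ∈ Ds.image g, (Ds.filter fun δ => g δ = δ1).card ≤ d := by
      intro δ1 _
      apply S.fto ζ δ1
      intro δ hδ
      rw [mem_filter] at hδ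
      refine ⟨?_, i δ, hdir δ hδ.1, hδ.2⟩
      have := hgood δ hδ.1 0 (by omega)
      simpa [hdir δ hδ.1] using this
    have h3 := card_le_mul_card_image (f := g) Ds d h2
    calc Ds.card ≤ d * (Ds.image g).card := h3
      _ ≤ d * d ^ t := Nat.mul_le_mul_left _ h1
      _ = d ^ (t + 1) := by ring

section window

variable (n : ℕ)

open Classical in
/-- number of indices of the window in a direction -/
noncomputable def mass (ζ : 𝒱) (δ : 𝒟) : ℕ := ((range n).filter fun i => S.dir ζ i = δ).card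

open Classical in
/-- indices in light directions -/
noncomputable def light (θ : ℝ) (ζ : 𝒱) : Finset ℕ :=
  (range n).filter fun i => (S.mass n ζ (S.dir ζ i) : ℝ) < θ

variable {n}

lemma mem_light {θ : ℝ} {ζ : 𝒱} {i : ℕ} :
    i ∈ S.light n θ ζ ↔ i < n ∧ (S.mass n ζ (S.dir ζ i) : ℝ) < θ := by
  unfold light
  rw [mem_filter, mem_range]

/-- a set of light indices in a single direction is small -/
lemma card_light_dir {θ : ℝ} (hθ : 0 ≤ θ) {ζ : 𝒱} {δ : 𝒟} (s : Finset ℕ)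
    (hs : ∀ i ∈ s, i ∈ S.light n θ ζ ∧ S.dir ζ i = δ) : (s.card : ℝ) ≤ θ := by
  classical
  rcases s.eq_empty_or_nonempty with rfl | ⟨i, hi⟩
  · simpa using hθ
  have h1 := (S.mem_light.mp (hs i hi).1).2
  rw [(hs i hi).2] at h1
  refine le_trans ?_ h1.le
  unfold mass
  exact_mod_cast card_le_card fun j hj => mem_filter.mpr
    ⟨mem_range.mpr (S.mem_light.mp (hs j hj).1).1, (hs j hj).2⟩

/-- light sets of different vertices are almost disjoint -/
lemma card_light_inter {θ θ' : ℝ} (hθ : 0 ≤ θ) (hθ' : 0 ≤ θ') {ζ ζ' : 𝒱} (hne : ζ ≠ ζ') (s : Finset ℕ)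
    (hs : ∀ i ∈ s, i ∈ S.light n θ ζ ∧ i ∈ S.light n θ' ζ') : (s.card : ℝ) ≤ θ + θ' := by
  classical
  obtain ⟨δ, δ', h⟩ := S.tree ζ ζ' hne
  have h1 := S.card_light_dir hθ (ζ := ζ) (δ := δ) (s.filter fun i => S.dir ζ i = δ) (by
    intro i hi
    rw [mem_filter] at hi
    exact ⟨(hs i hi.1).1, hi.2⟩)
  have h2 := S.card_light_dir hθ' (ζ := ζ') (δ := δ') (s.filter fun i => ¬ S.dir ζ i = δ) (by
    intro i hi
    rw [mem_filter] at hi
    exact ⟨(hs i hi.1).2, h i hi.2⟩)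
  have h3 := card_filter_add_card_filter_not (s := s) (fun i => S.dir ζ i = δ)
  have h4 : (s.card : ℝ) = ((s.filter fun i => S.dir ζ i = δ).card : ℝ) +
      ((s.filter fun i => ¬ S.dir ζ i = δ).card : ℝ) := by
    exact_mod_cast h3.symm
  (clear * - h1 h2 h4; linarith)

/-- few light indices end up in a given direction after `t` good steps -/
lemma card_light_to_dir {θ : ℝ} (hθ : 0 ≤ θ) (ζ : 𝒱) (t : ℕ) (δ' : 𝒟) (s : Finset ℕ)
    (hs : ∀ i ∈ s, i ∈ S.light n θ ζ ∧ S.Good t ζ i ∧ S.dir (S.f^[t] ζ) (i + t) = δ') :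
    (s.card : ℝ) ≤ d ^ t * θ := by
  classical
  have h1 : (s.image (S.dir ζ)).card ≤ d ^ t := by
    apply S.fto_iter t ζ δ'
    intro δ hδ
    obtain ⟨i, hi, rfl⟩ := mem_image.mp hδ
    exact ⟨i, (hs i hi).2.1, rfl, (hs i hi).2.2⟩
  have h2 : (s.card : ℝ) = ∑ δ ∈ s.image (S.dir ζ), ((s.filter fun i => S.dir ζ i = δ).card : ℝ) := by
    exact_mod_cast card_eq_sum_card_image (S.dir ζ) s
  rw [h2]
  calc ∑ δ ∈ s.image (S.dir ζ), ((s.filter fun i => S.dir ζ i = δ).card : ℝ)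
      ≤ ∑ δ ∈ s.image (S.dir ζ), θ := by
        apply sum_le_sum
        intro δ _
        apply S.card_light_dir hθ (ζ := ζ) (δ := δ)
        intro i hi
        rw [mem_filter] at hi
        exact ⟨(hs i hi.1).1, hi.2⟩
    _ = (s.image (S.dir ζ)).card * θ := by rw [sum_const, nsmul_eq_mul]
    _ ≤ d ^ t * θ := by
        apply mul_le_mul_of_nonneg_right _ hθ
        exact_mod_cast h1

/-- few light indices leave the good directions -/
lemma card_light_not_good {θ : ℝ} (hθ : 0 ≤ θ) (ζ : 𝒱) (hd : 1 ≤ d) (t : ℕ) (s : Finset ℕ)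
    (hs : ∀ i ∈ s, i ∈ S.light n θ ζ ∧ ¬ S.Good t ζ i) :
    (s.card : ℝ) ≤ t * d ^ t * θ := by
  classical
  induction t generalizing s with
  | zero =>
    have : s = ∅ := by
      rw [eq_empty_iff_forall_notMem]
      intro i hi
      exact (hs i hi).2 (S.good_zero ζ i)
    rw [this]; simp
  | succ t ih =>
    have h1 := ih (s.filter fun i => ¬ S.Good t ζ i) (by
      intro i hi
      rw [mem_filter] at hi
      exact ⟨(hs i hi.1).1, hi.2⟩)
    have h2 : ((s.filter fun i => ¬ ¬ S.Good t ζ i).card : ℝ) ≤ d * (d ^ t * θ) := by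
      set s' := s.filter fun i => ¬ ¬ S.Good t ζ i with hs'
      have hmem : ∀ i ∈ s', i ∈ S.light n θ ζ ∧ S.Good t ζ i ∧
          S.dir (S.f^[t] ζ) (i + t) ∈ S.bad (S.f^[t] ζ) := by
        intro i hi
        rw [hs', mem_filter, not_not] at hi
        refine ⟨(hs i hi.1).1, hi.2, ?_⟩
        by_contra hb
        exact (hs i hi.1).2 (S.good_succ.mpr ⟨hi.2, hb⟩)
      have h3 : (s'.card : ℝ) ≤ ∑ δ ∈ S.bad (S.f^[t] ζ),
          ((s'.filter fun i => S.dir (S.f^[t] ζ) (i + t) = δ).card : ℝ) := by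
        have := card_eq_sum_card_fiberwise (f := fun i => S.dir (S.f^[t] ζ) (i + t)) (s := s')
          (t := S.bad (S.f^[t] ζ)) (fun i hi => (hmem i hi).2.2)
        exact_mod_cast this.le
      refine h3.trans ?_
      calc ∑ δ ∈ S.bad (S.f^[t] ζ), ((s'.filter fun i => S.dir (S.f^[t] ζ) (i + t) = δ).card : ℝ)
          ≤ ∑ δ ∈ S.bad (S.f^[t] ζ), (d ^ t * θ : ℝ) := by
            apply sum_le_sum
            intro δ _
            apply S.card_light_to_dir hθ ζ t δ
            intro i hi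
            rw [mem_filter] at hi
            exact ⟨(hmem i hi.1).1, (hmem i hi.1).2.1, hi.2⟩
        _ = (S.bad (S.f^[t] ζ)).card * (d ^ t * θ) := by rw [sum_const, nsmul_eq_mul]
        _ ≤ d * (d ^ t * θ) := by
            apply mul_le_mul_of_nonneg_right _ (by (clear * - hd hθ; positivity))
            exact_mod_cast S.bad_card _
    have h3 := card_filter_add_card_filter_not (s := s) (fun i => ¬ S.Good t ζ i)
    have h4 : (s.card : ℝ) = ((s.filter fun i => ¬ S.Good t ζ i).card : ℝ) +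
        ((s.filter fun i => ¬ ¬ S.Good t ζ i).card : ℝ) := by
      exact_mod_cast h3.symm
    have hd1 : (1 : ℝ) ≤ d := by exact_mod_cast hd
    have h5 : (t : ℝ) * d ^ t * θ ≤ t * d ^ (t + 1) * θ := by
      apply mul_le_mul_of_nonneg_right _ hθ
      apply mul_le_mul_of_nonneg_left _ (Nat.cast_nonneg t)
      exact pow_le_pow_right₀ hd1 (by omega)
    push_cast
    calc (s.card : ℝ) ≤ t * d ^ t * θ + d * (d ^ t * θ) := by rw [h4]; (clear * - h1 h2; linarith)
      _ ≤ t * d ^ (t + 1) * θ + d ^ (t + 1) * θ := by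
          rw [pow_succ]
          rw [pow_succ] at h5
          (clear * - h5; linarith)
      _ = ((t : ℝ) + 1) * d ^ (t + 1) * θ := by ring

/-- few light indices land in heavy directions -/
lemma card_light_to_heavy {θ θ' : ℝ} (hθ : 0 ≤ θ) (hθ' : 0 < θ') (ζ : 𝒱) (t : ℕ) (s : Finset ℕ)
    (hs : ∀ i ∈ s, i ∈ S.light n θ ζ ∧ S.Good t ζ i ∧ i + t < n ∧ i + t ∉ S.light n θ' (S.f^[t] ζ)) :
    (s.card : ℝ) ≤ (n / θ') * d ^ t * θ := by
  classical
  set Hd : Finset 𝒟 := ((range n).image (S.dir (S.f^[t] ζ))).filter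
    (fun δ => θ' ≤ (S.mass n (S.f^[t] ζ) δ : ℝ)) with hHd
  have hcard : (Hd.card : ℝ) * θ' ≤ n := by
    calc (Hd.card : ℝ) * θ' = ∑ δ ∈ Hd, θ' := by rw [sum_const, nsmul_eq_mul]
      _ ≤ ∑ δ ∈ Hd, (S.mass n (S.f^[t] ζ) δ : ℝ) := by
          apply sum_le_sum
          intro δ hδ
          rw [hHd, mem_filter] at hδ
          exact hδ.2
      _ ≤ ∑ δ ∈ (range n).image (S.dir (S.f^[t] ζ)), (S.mass n (S.f^[t] ζ) δ : ℝ) := by
          apply sum_le_sum_of_subset_of_nonneg (filter_subset _ _)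
          intro δ _ _
          (clear * -; positivity)
      _ = n := by
          unfold mass
          have := card_eq_sum_card_image (S.dir (S.f^[t] ζ)) (range n)
          rw [card_range] at this
          exact_mod_cast this.symm
  have hmaps : ∀ i ∈ s, S.dir (S.f^[t] ζ) (i + t) ∈ Hd := by
    intro i hi
    obtain ⟨_, _, h3, h4⟩ := hs i hi
    rw [hHd, mem_filter]
    refine ⟨mem_image_of_mem _ (mem_range.mpr h3), ?_⟩
    by_contra hlt
    push Not at hlt
    exact h4 (S.mem_light.mpr ⟨h3, hlt⟩)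
  have h1 : (s.card : ℝ) = ∑ δ ∈ Hd, ((s.filter fun i => S.dir (S.f^[t] ζ) (i + t) = δ).card : ℝ) := by
    exact_mod_cast card_eq_sum_card_fiberwise (f := fun i => S.dir (S.f^[t] ζ) (i + t)) (s := s)
      (t := Hd) hmaps
  rw [h1]
  calc ∑ δ ∈ Hd, ((s.filter fun i => S.dir (S.f^[t] ζ) (i + t) = δ).card : ℝ)
      ≤ ∑ δ ∈ Hd, (d ^ t * θ : ℝ) := by
        apply sum_le_sum
        intro δ _
        apply S.card_light_to_dir hθ ζ t δ
        intro i hi
        rw [mem_filter] at hi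
        exact ⟨(hs i hi.1).1, (hs i hi.1).2.1, hi.2⟩
    _ = Hd.card * (d ^ t * θ) := by rw [sum_const, nsmul_eq_mul]
    _ ≤ (n / θ') * (d ^ t * θ) := by
        apply mul_le_mul_of_nonneg_right _ (by (clear * - hθ; positivity))
        rw [le_div_iff₀ hθ']
        exact hcard
    _ = (n / θ') * d ^ t * θ := by ring

/-- the error of `t` steps -/
noncomputable def err (d : ℕ) (n : ℕ) (t : ℕ) (θ θ' : ℝ) : ℝ := (t * d ^ t + (n / θ') * d ^ t) * θ

lemma card_light_err {θ θ' : ℝ} (hθ : 0 ≤ θ) (hθ' : 0 < θ') (ζ : 𝒱) (hd : 1 ≤ d) (t : ℕ) (s : Finset ℕ)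
    (hs : ∀ i ∈ s, i ∈ S.light n θ ζ ∧ i + t < n ∧
      ¬ (S.Good t ζ i ∧ i + t ∈ S.light n θ' (S.f^[t] ζ))) :
    (s.card : ℝ) ≤ err d n t θ θ' := by
  classical
  have h1 := S.card_light_not_good (n := n) hθ ζ hd t (s.filter fun i => ¬ S.Good t ζ i) (by
    intro i hi
    rw [mem_filter] at hi
    exact ⟨(hs i hi.1).1, hi.2⟩)
  have h2 := S.card_light_to_heavy (n := n) hθ hθ' ζ t (s.filter fun i => ¬ ¬ S.Good t ζ i) (by
    intro i hi
    rw [mem_filter, not_not] at hi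
    obtain ⟨h3, h4, h5⟩ := hs i hi.1
    exact ⟨h3, hi.2, h4, fun h6 => h5 ⟨hi.2, h6⟩⟩)
  have h3 := card_filter_add_card_filter_not (s := s) (fun i => ¬ S.Good t ζ i)
  have h4 : (s.card : ℝ) = ((s.filter fun i => ¬ S.Good t ζ i).card : ℝ) +
      ((s.filter fun i => ¬ ¬ S.Good t ζ i).card : ℝ) := by
    exact_mod_cast h3.symm
  unfold err
  rw [h4]
  (clear * - h1 h2; linarith)

lemma err_mono (d n : ℕ) (hd : 1 ≤ d) {t t' : ℕ} (htt : t ≤ t') {θ θ' : ℝ} (hθ : 0 ≤ θ) (hθ' : 0 < θ') :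
    err d n t θ θ' ≤ err d n t' θ θ' := by
  unfold err
  apply mul_le_mul_of_nonneg_right _ hθ
  have hd1 : (1 : ℝ) ≤ d := by exact_mod_cast hd
  have h1 : (d : ℝ) ^ t ≤ d ^ t' := pow_le_pow_right₀ hd1 htt
  have h2 : (t : ℝ) ≤ t' := by exact_mod_cast htt
  have h3 : (0 : ℝ) ≤ n / θ' := by (clear * - hθ'; positivity)
  apply add_le_add
  · exact mul_le_mul h2 h1 (by positivity) (Nat.cast_nonneg _)
  · exact mul_le_mul_of_nonneg_left h1 h3

end window

end TreeDyn

end Pool.Agent.Helper33.UB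

end

section

set_option autoImplicit false

namespace Pool.Agent.Helper33.UB

open Finset

/-- lower bound for the size of a union -/
lemma union_bound {α : Type*} [DecidableEq α] (A : ℕ → Finset α) (Θ τ : ℝ) (hτ : 0 ≤ τ) (m : ℕ)
    (h1 : ∀ g < m, Θ ≤ (A g).card) (h2 : ∀ g g', g < g' → g' < m → ((A g ∩ A g').card : ℝ) ≤ τ) :
    m * Θ - m ^ 2 * τ ≤ ((range m).biUnion A).card := by
  induction m with
  | zero => simp
  | succ m ih =>
    have ih' := ih (fun g hg => h1 g (by omega)) (fun g g' hg hg' => h2 g g' hg (by omega))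
    rw [range_add_one, biUnion_insert]
    have h3 := card_union_add_card_inter (A m) ((range m).biUnion A)
    have h4 : (((A m) ∩ (range m).biUnion A).card : ℝ) ≤ m * τ := by
      have h5 : (A m) ∩ (range m).biUnion A = (range m).biUnion fun g => A m ∩ A g := by
        rw [inter_biUnion]
      rw [h5]
      calc (((range m).biUnion fun g => A m ∩ A g).card : ℝ)
          ≤ ∑ g ∈ range m, ((A m ∩ A g).card : ℝ) := by
            exact_mod_cast card_biUnion_le
        _ ≤ ∑ g ∈ range m, τ := by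
            apply sum_le_sum
            intro g hg
            rw [inter_comm]
            exact h2 g m (mem_range.mp hg) (by omega)
        _ = m * τ := by rw [sum_const, card_range, nsmul_eq_mul]
    have h6 := h1 m (by omega)
    have h7 : ((A m ∪ (range m).biUnion A).card : ℝ) + ((A m ∩ (range m).biUnion A).card : ℝ) =
        (A m).card + ((range m).biUnion A).card := by exact_mod_cast h3
    push_cast
    (clear * - hτ ih' h4 h6 h7; nlinarith [mul_nonneg (Nat.cast_nonneg (α := ℝ) m) hτ])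

namespace TreeDyn

variable {𝒱 𝒟 : Type*} {d : ℕ} (S : TreeDyn 𝒱 𝒟 d) {n : ℕ}

/-- **Periodicity** of diffuse vertices. -/
lemma exists_period (hd : 1 ≤ d) {θ θ'' Θ : ℝ} (hθ : 0 ≤ θ) (hθ'' : 0 < θ'') (ζ : 𝒱)
    (hΘ : Θ ≤ (S.light n θ ζ).card) (G : ℕ)
    (hG : (n : ℝ) + G < (G + 1) * Θ - (G + 1) ^ 2 * (err d n G θ θ'' + θ + θ'')) :
    ∃ t, 1 ≤ t ∧ t ≤ G ∧ S.f^[t] ζ = ζ := by
  classical
  by_contra hcon
  push Not at hcon
  set Λ := S.light n θ ζ with hΛ
  set τ : ℝ := err d n G θ θ'' + θ + θ'' with hτ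
  have herr : 0 ≤ err d n G θ θ'' := by
    unfold err
    have : (0 : ℝ) ≤ n / θ'' := by (clear * - hθ''; positivity)
    (clear * - hd hθ'' hθ; positivity)
  have hτ0 : 0 ≤ τ := by (clear * - herr hθ hθ''; positivity)
  set A : ℕ → Finset ℕ := fun g => Λ.image (· + g) with hA
  have h1 : ∀ g < G + 1, Θ ≤ (A g).card := by
    intro g _
    rw [hA]
    simp only
    rw [card_image_of_injective _ (add_left_injective g)]
    exact hΘ
  have h2 : ∀ g g', g < g' → g' < G + 1 → ((A g ∩ A g').card : ℝ) ≤ τ := by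
    intro g g' hg hg'
    set t := g' - g with ht
    have ht1 : 1 ≤ t := by omega
    have htG : t ≤ G := by omega
    have hne : S.f^[t] ζ ≠ ζ := hcon t ht1 htG
    set s := Λ.filter fun i => i + t ∈ Λ with hs
    have hcard : (A g ∩ A g').card ≤ s.card := by
      have : A g ∩ A g' ⊆ s.image (· + g') := by
        intro j hj
        rw [mem_inter, hA] at hj
        simp only [mem_image] at hj
        obtain ⟨⟨i, hi, rfl⟩, ⟨i', hi', h⟩⟩ := hj
        rw [mem_image]
        refine ⟨i', mem_filter.mpr ⟨hi', ?_⟩, h⟩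
        have : i' + t = i := by omega
        rwa [this]
      exact (card_le_card this).trans card_image_le
    have hsplit := card_filter_add_card_filter_not (s := s)
      (fun i => S.Good t ζ i ∧ i + t ∈ S.light n θ'' (S.f^[t] ζ))
    have e1 : ((s.filter fun i => ¬ (S.Good t ζ i ∧ i + t ∈ S.light n θ'' (S.f^[t] ζ))).card : ℝ) ≤
        err d n t θ θ'' := by
      apply S.card_light_err hθ hθ'' ζ hd t
      intro i hi
      rw [mem_filter, hs, mem_filter] at hi
      refine ⟨hi.1.1, ?_, hi.2⟩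
      exact (S.mem_light.mp hi.1.2).1
    have e2 : ((s.filter fun i => S.Good t ζ i ∧ i + t ∈ S.light n θ'' (S.f^[t] ζ)).card : ℝ) ≤
        θ + θ'' := by
      have := S.card_light_inter (n := n) hθ hθ''.le (Ne.symm hne)
        ((s.filter fun i => S.Good t ζ i ∧ i + t ∈ S.light n θ'' (S.f^[t] ζ)).image (· + t)) (by
          intro j hj
          obtain ⟨i, hi, rfl⟩ := mem_image.mp hj
          rw [mem_filter, hs, mem_filter] at hi
          exact ⟨hi.1.2, hi.2.2⟩)
      rwa [card_image_of_injective _ (add_left_injective t)] at this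
    have e3 := err_mono d n hd htG hθ hθ''
    have e4 : (s.card : ℝ) =
        ((s.filter fun i => S.Good t ζ i ∧ i + t ∈ S.light n θ'' (S.f^[t] ζ)).card : ℝ) +
        ((s.filter fun i => ¬ (S.Good t ζ i ∧ i + t ∈ S.light n θ'' (S.f^[t] ζ))).card : ℝ) := by
      exact_mod_cast hsplit.symm
    have e5 : ((A g ∩ A g').card : ℝ) ≤ s.card := by exact_mod_cast hcard
    rw [hτ]
    (clear * - e1 e2 e3 e4 e5; linarith)
  have h3 := union_bound A Θ τ hτ0 (G + 1) h1 h2
  have h4 : (((range (G + 1)).biUnion A).card : ℝ) ≤ n + G := by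
    have : (range (G + 1)).biUnion A ⊆ range (n + G) := by
      intro j hj
      rw [mem_biUnion] at hj
      obtain ⟨g, hg, hj⟩ := hj
      rw [hA] at hj
      simp only [mem_image] at hj
      obtain ⟨i, hi, rfl⟩ := hj
      have := (S.mem_light.mp hi).1
      rw [mem_range] at hg ⊢
      omega
    have := card_le_card this
    rw [card_range] at this
    exact_mod_cast this
  push_cast at h3
  (clear * - hG h4 h3; linarith)

lemma iterate_period {ζ : 𝒱} {J : ℕ} (h : S.f^[J] ζ = ζ) (l : ℕ) : S.f^[l * J] ζ = ζ := by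
  induction l with
  | zero => simp
  | succ l ih => rw [Nat.succ_mul, Function.iterate_add_apply, h, ih]

/-- At a periodic vertex, light good orbits are in distinct directions. -/
lemma distinct_dirs {ζ : 𝒱} {J N' : ℕ} (hJ : 1 ≤ J) (hper : S.f^[J] ζ = ζ) {i : ℕ}
    (hgood : S.Good (N' * J) ζ i) {θ' : ℝ}
    (hlight : ∀ l ≤ N', i + l * J ∈ S.light n θ' ζ)
    (hθ' : (i : ℝ) + N' * J + θ' * (N' * J) ≤ n) :
    ∀ l l', l < l' → l' ≤ N' → S.dir ζ (i + l * J) ≠ S.dir ζ (i + l' * J) := by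
  classical
  intro l l' hll hl' heq
  set m := (l' - l) * J with hm
  set j := i + l * J with hj
  have hm1 : 1 ≤ m := Nat.one_le_iff_ne_zero.mpr (Nat.mul_ne_zero (by omega) (by omega))
  have hmN : m ≤ N' * J := Nat.mul_le_mul_right _ (by omega)
  have hjm : j + m = i + l' * J := by
    rw [hj, hm, add_assoc, ← Nat.add_mul]
    congr 2
    omega
  have hperm : S.f^[m] ζ = ζ := S.iterate_period hper _
  have hgm : S.Good m ζ j := by
    have h1 : S.Good (l * J + m) ζ i := by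
      apply Good.mono S hgood
      rw [hm, ← Nat.add_mul]
      exact Nat.mul_le_mul_right _ (by omega)
    have := Good.shift S h1
    rwa [S.iterate_period hper l] at this
  have hall : ∀ q : ℕ, S.dir ζ j = S.dir ζ (j + q * m) := by
    intro q
    induction q with
    | zero => simp
    | succ q ih =>
      have h1 := Good.dir_eq S hgm ih m le_rfl
      rw [hperm, hjm, ← heq] at h1
      rw [h1]
      congr 1
      ring
  have hjn : j < n := (S.mem_light.mp (hlight l (by omega))).1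
  have hmass := (S.mem_light.mp (hlight l (by omega))).2
  rw [← hj] at hmass
  have hmr : (0 : ℝ) < m := by exact_mod_cast hm1
  set Q := ⌈((n : ℝ) - j) / m⌉₊ with hQ
  have hQle : Q ≤ S.mass n ζ (S.dir ζ j) := by
    have : ((range Q).image fun q => j + q * m) ⊆ (range n).filter fun i => S.dir ζ i = S.dir ζ j := by
      intro x hx
      obtain ⟨q, hq, rfl⟩ := mem_image.mp hx
      rw [mem_range, hQ, Nat.lt_ceil, lt_div_iff₀ hmr] at hq
      rw [mem_filter, mem_range]
      refine ⟨?_, (hall q).symm⟩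
      have : (j : ℝ) + q * m < n := by (clear * - hq; linarith)
      exact_mod_cast this
    have h2 := card_le_card this
    rw [card_image_of_injective, card_range] at h2
    · exact h2
    · intro a b hab
      simp only at hab
      have : a * m = b * m := by omega
      exact Nat.eq_of_mul_eq_mul_right (by omega) this
  have h1 : ((n : ℝ) - j) / m ≤ Q := Nat.le_ceil _
  have h2 : (Q : ℝ) ≤ S.mass n ζ (S.dir ζ j) := by exact_mod_cast hQle
  have h3 : ((n : ℝ) - j) / m < θ' := by (clear * - hmass h1 h2; linarith)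
  rw [div_lt_iff₀ hmr] at h3
  have hmNr : (m : ℝ) ≤ N' * J := by exact_mod_cast hmN
  have hjr : (j : ℝ) ≤ i + N' * J := by
    have : j ≤ i + N' * J := by
      rw [hj]
      exact Nat.add_le_add_left (Nat.mul_le_mul_right _ (by omega)) _
    exact_mod_cast this
  have hθ'pos : 0 < θ' := by
    by_contra hneg
    push Not at hneg
    have : (0 : ℝ) ≤ S.mass n ζ (S.dir ζ j) := Nat.cast_nonneg _
    (clear * - hmass hneg; linarith)
  have h4 : θ' * m ≤ θ' * (N' * J) := mul_le_mul_of_nonneg_left hmNr hθ'pos.le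
  (clear * - hθ' h3 hjr h4; linarith)

/-- exceptional indices at a periodic vertex -/
lemma card_exceptional (hd : 1 ≤ d) {θ θ' : ℝ} (hθ : 0 ≤ θ) (hθ' : 0 < θ') {ζ : 𝒱} {J N' : ℕ}
    (hper : S.f^[J] ζ = ζ) (s : Finset ℕ)
    (hs : ∀ i ∈ s, i ∈ S.light n θ ζ ∧ i + N' * J < n ∧
      ∃ l ≤ N', ¬ (S.Good (l * J) ζ i ∧ i + l * J ∈ S.light n θ' ζ)) :
    (s.card : ℝ) ≤ (N' + 1) * err d n (N' * J) θ θ' := by
  classical
  set A : ℕ → Finset ℕ := fun l => s.filter fun i =>
    ¬ (S.Good (l * J) ζ i ∧ i + l * J ∈ S.light n θ' ζ) with hA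
  have hcover : s ⊆ (range (N' + 1)).biUnion A := by
    intro i hi
    obtain ⟨l, hl, h⟩ := (hs i hi).2.2
    rw [mem_biUnion]
    exact ⟨l, mem_range.mpr (by omega), mem_filter.mpr ⟨hi, h⟩⟩
  calc (s.card : ℝ) ≤ ((range (N' + 1)).biUnion A).card := by exact_mod_cast card_le_card hcover
    _ ≤ ∑ l ∈ range (N' + 1), ((A l).card : ℝ) := by exact_mod_cast card_biUnion_le
    _ ≤ ∑ l ∈ range (N' + 1), err d n (N' * J) θ θ' := by
        apply sum_le_sum
        intro l hl
        rw [mem_range] at hl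
        have hlN : l * J ≤ N' * J := Nat.mul_le_mul_right _ (by omega)
        refine le_trans ?_ (err_mono d n hd hlN hθ hθ')
        apply S.card_light_err hθ hθ' ζ hd (l * J)
        intro i hi
        rw [hA, mem_filter] at hi
        obtain ⟨h1, h2, _⟩ := hs i hi.1
        refine ⟨h1, by omega, ?_⟩
        rw [S.iterate_period hper l]
        exact hi.2
    _ = (N' + 1) * err d n (N' * J) θ θ' := by
        rw [sum_const, card_range, nsmul_eq_mul]
        push_cast
        ring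

/-- A chain of vertices towards each index. -/
structure Levels (L : ℕ) where
  /-- the vertex at depth `ℓ` on the way to the index `i` -/
  vtx : ℕ → ℕ → 𝒱
  vtx_zero : ∀ i j, vtx 0 i = vtx 0 j
  vtx_succ : ∀ ℓ i j, S.dir (vtx ℓ i) j = S.dir (vtx ℓ i) i → vtx (ℓ + 1) j = vtx (ℓ + 1) i
  deep : ∀ i j, S.dir (vtx (L - 1) i) j = S.dir (vtx (L - 1) i) i →
    ∀ ℓ < L, ∀ i'', S.dir (vtx ℓ i'') i = S.dir (vtx ℓ i'') j

variable {S}

/-- mass of the class of `i` at level `ℓ` -/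
noncomputable def Levels.m {L : ℕ} (Lv : S.Levels L) (n : ℕ) : ℕ → ℕ → ℕ
  | 0, _ => n
  | ℓ + 1, i => S.mass n (Lv.vtx ℓ i) (S.dir (Lv.vtx ℓ i) i)

lemma Levels.m_pos {L : ℕ} (Lv : S.Levels L) (n : ℕ) {ℓ : ℕ} (hℓ : 1 ≤ ℓ) (i : ℕ) :
    Lv.m n ℓ i = S.mass n (Lv.vtx (ℓ - 1) i) (S.dir (Lv.vtx (ℓ - 1) i) i) := by
  obtain ⟨ℓ', rfl⟩ := Nat.exists_eq_add_of_le' hℓ
  rfl

open Classical in
/-- heavy indices -/
noncomputable def Levels.heavy {L : ℕ} (Lv : S.Levels L) (n : ℕ) (Θ : ℝ) : Finset ℕ :=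
  (range n).filter fun i => Θ ≤ (Lv.m n L i : ℝ)

open Classical in
/-- indices with a mass in the gap -/
noncomputable def Levels.unclean {L : ℕ} (Lv : S.Levels L) (n : ℕ) (θ Θ : ℝ) : Finset ℕ :=
  (range n).filter fun i => ∃ ℓ ≤ L, θ ≤ (Lv.m n ℓ i : ℝ) ∧ (Lv.m n ℓ i : ℝ) < Θ

open Classical in
/-- heavy vertices of level `ℓ` -/
noncomputable def Levels.hv {L : ℕ} (Lv : S.Levels L) (n : ℕ) (Θ : ℝ) (ℓ : ℕ) : Finset 𝒱 :=
  ((range n).filter fun i => Θ ≤ (Lv.m n ℓ i : ℝ)).image (Lv.vtx ℓ)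

lemma Levels.card_hv {L : ℕ} (Lv : S.Levels L) {Θ : ℝ} (hΘ : 0 < Θ) (ℓ : ℕ) :
    ((Lv.hv n Θ ℓ).card : ℝ) ≤ n / Θ := by
  classical
  rw [le_div_iff₀ hΘ]
  calc ((Lv.hv n Θ ℓ).card : ℝ) * Θ = ∑ ζ ∈ Lv.hv n Θ ℓ, Θ := by rw [sum_const, nsmul_eq_mul]
    _ ≤ ∑ ζ ∈ Lv.hv n Θ ℓ, (((range n).filter fun j => Lv.vtx ℓ j = ζ).card : ℝ) := by
        apply sum_le_sum
        intro ζ hζ
        unfold Levels.hv at hζ
        obtain ⟨i, hi, rfl⟩ := mem_image.mp hζ
        rw [mem_filter] at hi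
        refine hi.2.trans ?_
        rcases ℓ with _ | ℓ
        · have : (range n).filter (fun j => Lv.vtx 0 j = Lv.vtx 0 i) = range n := by
            rw [filter_true_of_mem]
            intro j _
            exact Lv.vtx_zero j i
          rw [this, card_range]
          rfl
        · unfold Levels.m mass
          exact_mod_cast card_le_card fun j hj => by
            rw [mem_filter] at hj ⊢
            exact ⟨hj.1, Lv.vtx_succ ℓ i j hj.2⟩
    _ ≤ n := by
        have h1 := card_eq_sum_card_fiberwise (f := Lv.vtx ℓ)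
          (s := (range n).filter fun j => Lv.vtx ℓ j ∈ Lv.hv n Θ ℓ) (t := Lv.hv n Θ ℓ)
          (fun i hi => (mem_filter.mp hi).2)
        have h2 : ∀ ζ ∈ Lv.hv n Θ ℓ, (((range n).filter fun j => Lv.vtx ℓ j ∈ Lv.hv n Θ ℓ).filter
            fun j => Lv.vtx ℓ j = ζ) = (range n).filter fun j => Lv.vtx ℓ j = ζ := by
          intro ζ hζ
          ext j
          simp only [mem_filter]
          constructor
          · rintro ⟨⟨h, _⟩, h'⟩; exact ⟨h, h'⟩
          · rintro ⟨h, h'⟩; exact ⟨⟨h, by rw [h']; exact hζ⟩, h'⟩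
        rw [sum_congr rfl (fun ζ hζ => by rw [h2 ζ hζ])] at h1
        have h3 : ((range n).filter fun j => Lv.vtx ℓ j ∈ Lv.hv n Θ ℓ).card ≤ n := by
          calc _ ≤ (range n).card := card_filter_le _ _
            _ = n := card_range n
        rw [h1] at h3
        exact_mod_cast h3

/-- the gap of a clean non-heavy index -/
lemma Levels.exists_gap {L : ℕ} (Lv : S.Levels L) {θ Θ : ℝ} (hΘn : Θ ≤ n) {i : ℕ} (hi : i < n)
    (h1 : i ∉ Lv.heavy n Θ) (h2 : i ∉ Lv.unclean n θ Θ) :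
    ∃ ℓ < L, Θ ≤ (Lv.m n ℓ i : ℝ) ∧ (Lv.m n (ℓ + 1) i : ℝ) < θ := by
  classical
  have hL : (Lv.m n L i : ℝ) < Θ := by
    by_contra h
    push Not at h
    exact h1 (mem_filter.mpr ⟨mem_range.mpr hi, h⟩)
  have hex : ∃ ℓ, (Lv.m n ℓ i : ℝ) < Θ := ⟨L, hL⟩
  set ℓ' := Nat.find hex with hℓ'
  have h3 := Nat.find_spec hex
  have h4 : ℓ' ≤ L := Nat.find_le hL
  have h5 : ℓ' ≠ 0 := by
    intro h
    rw [← hℓ', h] at h3
    unfold Levels.m at h3
    (clear * - hΘn h3; linarith)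
  obtain ⟨ℓ, hℓ⟩ := Nat.exists_eq_succ_of_ne_zero h5
  refine ⟨ℓ, by omega, ?_, ?_⟩
  · have := Nat.find_min hex (m := ℓ) (by omega)
    push Not at this
    exact this
  · rw [← hℓ', hℓ] at h3
    by_contra h
    push Not at h
    exact h2 (mem_filter.mpr ⟨mem_range.mpr hi, ℓ + 1, by omega, h, h3⟩)

/-- **Classification.** -/
theorem Levels.classify {L : ℕ} (Lv : S.Levels L) (hd : 1 ≤ d) {N' J G : ℕ}
    {θ θ' θ'' Θ Θ' : ℝ} (hθ : 0 ≤ θ) (hθ' : 0 < θ') (hθ'' : 0 < θ'') (hΘ : 0 < Θ) (hΘ' : 0 ≤ Θ')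
    (hΘn : Θ ≤ n) (hθΘ : θ' ≤ Θ) (hJ1 : 1 ≤ J) (hJ : ∀ t, 1 ≤ t → t ≤ G → t ∣ J)
    (hG : (n : ℝ) + G < (G + 1) * Θ' - (G + 1) ^ 2 * (err d n G θ θ'' + θ + θ'')) :
    ∃ Bad : Finset ℕ, Bad ⊆ range n ∧
      (Bad.card : ℝ) ≤ (Lv.unclean n θ Θ).card +
        (L * (n / Θ) * (Θ' + (N' + 1) * err d n (N' * J) θ θ') + (N' * J + θ' * (N' * J)) + 1) ∧
      ∀ i < n, i ∉ Bad → i ∉ Lv.heavy n Θ →
        (∃ ζ : 𝒱, ∀ l l', l < l' → l' ≤ N' → S.dir ζ (i + l * J) ≠ S.dir ζ (i + l' * J)) ∧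
        ∀ l ≤ N', i + l * J ∉ Lv.heavy n Θ := by
  classical
  set End : Finset ℕ := (range n).filter fun i => ¬ ((i : ℝ) + N' * J + θ' * (N' * J) ≤ n) with hEnd
  set Exc : 𝒱 → Finset ℕ := fun ζ => (S.light n θ ζ).filter fun i => i + N' * J < n ∧
      ∃ l ≤ N', ¬ (S.Good (l * J) ζ i ∧ i + l * J ∈ S.light n θ' ζ) with hExc
  set B1 : 𝒱 → Finset ℕ := fun ζ => if ((S.light n θ ζ).card : ℝ) < Θ' then S.light n θ ζ else
    if S.f^[J] ζ = ζ then Exc ζ else ∅ with hB1
  have herr0 : 0 ≤ err d n (N' * J) θ θ' := by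
    unfold err
    have : (0 : ℝ) ≤ n / θ' := by (clear * - hθ'; positivity)
    (clear * - hd hθ' hθ; positivity)
  have hB1card : ∀ ζ, ((B1 ζ).card : ℝ) ≤ Θ' + (N' + 1) * err d n (N' * J) θ θ' := by
    intro ζ
    have hpos : 0 ≤ ((N' : ℝ) + 1) * err d n (N' * J) θ θ' := by (clear * - herr0; positivity)
    rw [hB1]
    simp only
    split_ifs with h1 h2
    · (clear * - hpos h1; linarith)
    · have := S.card_exceptional (n := n) hd hθ hθ' h2 (N' := N') (Exc ζ) (by
        intro i hi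
        rw [hExc, mem_filter] at hi
        exact hi)
      (clear * - hΘ' this; linarith)
    · simp only [card_empty, Nat.cast_zero]
      (clear * - hΘ' hpos; linarith)
  set B2 : Finset ℕ := (range L).biUnion fun ℓ => (Lv.hv n Θ ℓ).biUnion B1 with hB2
  have hB2card : (B2.card : ℝ) ≤ L * (n / Θ) * (Θ' + (N' + 1) * err d n (N' * J) θ θ') := by
    have hpos : 0 ≤ Θ' + ((N' : ℝ) + 1) * err d n (N' * J) θ θ' := by (clear * - hΘ' herr0; positivity)
    calc (B2.card : ℝ) ≤ ∑ ℓ ∈ range L, (((Lv.hv n Θ ℓ).biUnion B1).card : ℝ) := by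
          exact_mod_cast card_biUnion_le
      _ ≤ ∑ ℓ ∈ range L, (n / Θ) * (Θ' + (N' + 1) * err d n (N' * J) θ θ') := by
          apply sum_le_sum
          intro ℓ _
          calc (((Lv.hv n Θ ℓ).biUnion B1).card : ℝ) ≤ ∑ ζ ∈ Lv.hv n Θ ℓ, ((B1 ζ).card : ℝ) := by
                exact_mod_cast card_biUnion_le
            _ ≤ ∑ ζ ∈ Lv.hv n Θ ℓ, (Θ' + (N' + 1) * err d n (N' * J) θ θ') :=
                sum_le_sum fun ζ _ => hB1card ζ
            _ = (Lv.hv n Θ ℓ).card * (Θ' + (N' + 1) * err d n (N' * J) θ θ') := by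
                rw [sum_const, nsmul_eq_mul]
            _ ≤ (n / Θ) * (Θ' + (N' + 1) * err d n (N' * J) θ θ') :=
                mul_le_mul_of_nonneg_right (Lv.card_hv hΘ ℓ) hpos
      _ = L * (n / Θ) * (Θ' + (N' + 1) * err d n (N' * J) θ θ') := by
          rw [sum_const, card_range, nsmul_eq_mul]
          ring
  have hEndcard : (End.card : ℝ) ≤ (N' * J + θ' * (N' * J)) + 1 := by
    set c : ℝ := N' * J + θ' * (N' * J) with hc
    have hc0 : 0 ≤ c := by (clear * - hJ1 hθ'; positivity)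
    have hsub : End ⊆ (range n).filter fun i => (n : ℝ) - c < i := by
      intro i hi
      rw [hEnd, mem_filter] at hi
      rw [mem_filter]
      refine ⟨hi.1, ?_⟩
      have := hi.2
      push Not at this
      (clear * - hi; linarith)
    have hsub2 : ((range n).filter fun i : ℕ => (n : ℝ) - c < i) ⊆ Ico (n - ⌈c⌉₊) n := by
      intro i hi
      rw [mem_filter, mem_range] at hi
      rw [mem_Ico]
      refine ⟨?_, hi.1⟩
      have h1 := hi.2
      have h2 := Nat.le_ceil c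
      have h3 : (n : ℝ) < i + ⌈c⌉₊ := by (clear * - hi h2; linarith)
      have h4 : n < i + ⌈c⌉₊ := by exact_mod_cast h3
      omega
    have h5 := card_le_card (hsub.trans hsub2)
    rw [Nat.card_Ico] at h5
    have h6 : End.card ≤ ⌈c⌉₊ := by omega
    have h7 : (⌈c⌉₊ : ℝ) < c + 1 := Nat.ceil_lt_add_one hc0
    have h8 : (End.card : ℝ) ≤ ⌈c⌉₊ := by exact_mod_cast h6
    (clear * - h7 h8; linarith)
  refine ⟨Lv.unclean n θ Θ ∪ (B2 ∪ End), ?_, ?_, ?_⟩
  · intro i hi
    rcases mem_union.mp hi with h | h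
    · exact (mem_filter.mp h).1
    rcases mem_union.mp h with h | h
    · rw [hB2, mem_biUnion] at h
      obtain ⟨ℓ, _, h⟩ := h
      rw [mem_biUnion] at h
      obtain ⟨ζ, _, h⟩ := h
      have hlight : i ∈ S.light n θ ζ := by
        rw [hB1] at h
        simp only at h
        split_ifs at h with h1 h2
        · exact h
        · exact (mem_filter.mp h).1
        · simp at h
      exact mem_range.mpr (S.mem_light.mp hlight).1
    · exact (mem_filter.mp h).1
  · have h1 : ((Lv.unclean n θ Θ ∪ (B2 ∪ End)).card : ℝ) ≤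
        (Lv.unclean n θ Θ).card + ((B2.card : ℝ) + End.card) := by
      have h2 := card_union_le (Lv.unclean n θ Θ) (B2 ∪ End)
      have h3 := card_union_le B2 End
      exact_mod_cast h2.trans (Nat.add_le_add_left h3 _)
    (clear * - hB2card hEndcard h1; linarith)
  · intro i hi hBad hheavy
    rw [mem_union, not_or, mem_union, not_or] at hBad
    obtain ⟨hclean, hB2', hEnd'⟩ := hBad
    obtain ⟨ℓ, hℓ, h1, h2⟩ := Lv.exists_gap hΘn hi hheavy hclean
    set ζ := Lv.vtx ℓ i with hζ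
    have hζm : ζ ∈ Lv.hv n Θ ℓ := mem_image.mpr ⟨i, mem_filter.mpr ⟨mem_range.mpr hi, h1⟩, rfl⟩
    have hiB1 : i ∉ B1 ζ := by
      intro h
      apply hB2'
      rw [hB2, mem_biUnion]
      refine ⟨ℓ, mem_range.mpr hℓ, ?_⟩
      rw [mem_biUnion]
      exact ⟨ζ, hζm, h⟩
    have hil : i ∈ S.light n θ ζ := S.mem_light.mpr ⟨hi, h2⟩
    have hbig : Θ' ≤ (S.light n θ ζ).card := by
      by_contra hlt
      push Not at hlt
      apply hiB1
      rw [hB1]
      simp only
      rw [if_pos hlt]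
      exact hil
    obtain ⟨t, ht1, htG, htper⟩ := S.exists_period (n := n) hd hθ hθ'' ζ hbig G hG
    have hper : S.f^[J] ζ = ζ := by
      obtain ⟨q, hq⟩ := hJ t ht1 htG
      rw [hq, mul_comm]
      exact S.iterate_period htper q
    have hiEnd : (i : ℝ) + N' * J + θ' * (N' * J) ≤ n := by
      by_contra h
      exact hEnd' (mem_filter.mpr ⟨mem_range.mpr hi, h⟩)
    have hiN : i + N' * J < n ∨ N' * J = 0 := by
      by_cases h0 : N' * J = 0
      · exact Or.inr h0
      left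
      have h3 : (0 : ℝ) < N' * J := by
        have : 0 < N' * J := Nat.pos_of_ne_zero h0
        exact_mod_cast this
      have h4 : (i : ℝ) + N' * J < n := by (clear * - hiEnd hθ' h3; nlinarith [mul_pos hθ' h3])
      exact_mod_cast h4
    have hiN' : i + N' * J < n := by
      rcases hiN with h | h
      · exact h
      · rw [h]; exact hi
    have hall : ∀ l ≤ N', S.Good (l * J) ζ i ∧ i + l * J ∈ S.light n θ' ζ := by
      by_contra hcon
      push Not at hcon
      obtain ⟨l, hl, h3⟩ := hcon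
      apply hiB1
      rw [hB1]
      simp only
      rw [if_neg (not_lt.mpr hbig), if_pos hper]
      rw [hExc, mem_filter]
      refine ⟨hil, hiN', l, hl, ?_⟩
      rintro ⟨h4, h5⟩
      exact h3 h4 h5
    refine ⟨⟨ζ, S.distinct_dirs hJ1 hper (hall N' le_rfl).1 (fun l hl => (hall l hl).2) hiEnd⟩, ?_⟩
    intro l hl hh
    have h3 := (mem_filter.mp hh).2
    have h4 := (S.mem_light.mp (hall l hl).2).2
    have h5 : Lv.m n L (i + l * J) ≤ S.mass n ζ (S.dir ζ (i + l * J)) := by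
      rw [Lv.m_pos n (by omega : 1 ≤ L)]
      unfold mass
      apply card_le_card
      intro j hj
      rw [mem_filter] at hj ⊢
      exact ⟨hj.1, (Lv.deep (i + l * J) j hj.2 ℓ hℓ i).symm⟩
    have h6 : (Lv.m n L (i + l * J) : ℝ) ≤ S.mass n ζ (S.dir ζ (i + l * J)) := by exact_mod_cast h5
    (clear * - hθΘ h3 h4 h6; linarith)

/-- Few heavy indices become non-heavy. -/
lemma card_transition {n : ℕ} (Hv Bad : Finset ℕ) (hHv : Hv ⊆ range n) (t : ℕ)
    (h : ∀ i < n, i ∉ Bad → i ∉ Hv → i + t ∉ Hv) (s : Finset ℕ)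
    (hs : ∀ i ∈ s, i ∈ Hv ∧ i + t < n ∧ i + t ∉ Hv) : s.card ≤ t + Bad.card := by
  classical
  -- `Hv` contains `s` and the disjoint set of `i` with `i + t` heavy
  set a := Hv.filter fun i => i + t ∈ Hv with ha
  have hdisj : Disjoint s a := by
    rw [disjoint_left]
    intro i hi hi'
    exact (hs i hi).2.2 (mem_filter.mp hi').2
  have h1 : s.card + a.card ≤ Hv.card := by
    rw [← card_union_of_disjoint hdisj]
    apply card_le_card
    intro i hi
    rcases mem_union.mp hi with h | h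
    · exact (hs i h).1
    · exact (mem_filter.mp h).1
  -- heavy indices `≥ t` come from `a` or from bad indices
  have h2 : Hv ⊆ range t ∪ (a.image (· + t) ∪ Bad.image (· + t)) := by
    intro j hj
    by_cases hjt : j < t
    · exact mem_union_left _ (mem_range.mpr hjt)
    apply mem_union_right
    push Not at hjt
    obtain ⟨i, rfl⟩ := Nat.exists_eq_add_of_le' hjt
    by_cases hi : i ∈ Hv
    · exact mem_union_left _ (mem_image.mpr ⟨i, mem_filter.mpr ⟨hi, hj⟩, rfl⟩)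
    · apply mem_union_right
      refine mem_image.mpr ⟨i, ?_, rfl⟩
      by_contra hB
      have : i + t < n := mem_range.mp (hHv hj)
      exact h i (by omega) hB hi hj
  have h3 : Hv.card ≤ t + (a.card + Bad.card) := by
    refine (card_le_card h2).trans ((card_union_le _ _).trans ?_)
    rw [card_range]
    apply Nat.add_le_add_left
    refine (card_union_le _ _).trans ?_
    exact Nat.add_le_add card_image_le card_image_le
  omega

end TreeDyn

end Pool.Agent.Helper33.UB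

end

section

set_option autoImplicit false

open Finset Polynomial

namespace Pool.Agent.Helper33.UB

open TreeDyn

/-- the output of one scale -/
def ScaleP (d L : ℕ) (κ ϑ ϑ₁ : ℝ) (N' J n0 : ℕ) : Prop :=
  1 ≤ J ∧ 0 < ϑ₁ ∧ ϑ₁ < ϑ ∧ ∀ n : ℕ, n0 ≤ n →
      ∀ (𝒱 𝒟 : Type) (S : TreeDyn 𝒱 𝒟 d) (Lv : S.Levels L),
      ∃ Bad : Finset ℕ, Bad ⊆ range n ∧
        (Bad.card : ℝ) ≤ (Lv.unclean n (ϑ₁ * n) (ϑ * n)).card + κ * n ∧
        ∀ i < n, i ∉ Bad → i ∉ Lv.heavy n (ϑ * n) →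
          (∃ ζ : 𝒱, ∀ l l', l < l' → l' ≤ N' → S.dir ζ (i + l * J) ≠ S.dir ζ (i + l' * J)) ∧
          ∀ l ≤ N', i + l * J ∉ Lv.heavy n (ϑ * n)

/-- few scales are unclean -/
lemma sum_unclean {𝒱 𝒟 : Type} {d L : ℕ} {S : TreeDyn 𝒱 𝒟 d} (Lv : S.Levels L) (ϑ : ℕ → ℝ)
    (hϑ : ∀ b, ϑ (b + 1) < ϑ b) (n K : ℕ) :
    ∑ b ∈ range K, (Lv.unclean n (ϑ (b + 1) * n) (ϑ b * n)).card ≤ (L + 1) * n := by
  classical
  have hanti : ∀ b b', b < b' → ϑ b' ≤ ϑ (b + 1) := by
    intro b b' h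
    have : Antitone ϑ := antitone_nat_of_succ_le fun b => (hϑ b).le
    exact this h
  have h1 : ∑ b ∈ range K, (Lv.unclean n (ϑ (b + 1) * n) (ϑ b * n)).card =
      ∑ i ∈ range n, ((range K).filter fun b => i ∈ Lv.unclean n (ϑ (b + 1) * n) (ϑ b * n)).card := by
    have e1 : ∀ b, (Lv.unclean n (ϑ (b + 1) * n) (ϑ b * n)).card =
        ∑ i ∈ range n, if i ∈ Lv.unclean n (ϑ (b + 1) * n) (ϑ b * n) then 1 else 0 := by
      intro b
      rw [← card_filter]
      congr 1
      ext i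
      rw [mem_filter]
      constructor
      · intro hi; exact ⟨(mem_filter.mp hi).1, hi⟩
      · intro hi; exact hi.2
    rw [sum_congr rfl (fun b _ => e1 b), sum_comm]
    apply sum_congr rfl
    intro i _
    rw [card_filter]
  rw [h1]
  calc _ ≤ ∑ i ∈ range n, (L + 1) := by
        apply sum_le_sum
        intro i _
        have hsub : ((range K).filter fun b => i ∈ Lv.unclean n (ϑ (b + 1) * n) (ϑ b * n)) ⊆
            (range (L + 1)).biUnion fun ℓ => (range K).filter fun b =>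
              ϑ (b + 1) * n ≤ (Lv.m n ℓ i : ℝ) ∧ (Lv.m n ℓ i : ℝ) < ϑ b * n := by
          intro b hb
          rw [mem_filter] at hb
          obtain ⟨hb1, hb2⟩ := hb
          obtain ⟨ℓ, hℓ, h2⟩ := (mem_filter.mp hb2).2
          rw [mem_biUnion]
          exact ⟨ℓ, mem_range.mpr (by omega), mem_filter.mpr ⟨hb1, h2⟩⟩
        refine (card_le_card hsub).trans (card_biUnion_le.trans ?_)
        calc _ ≤ ∑ ℓ ∈ range (L + 1), 1 := by
              apply sum_le_sum
              intro ℓ _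
              rw [card_le_one]
              intro b hb b' hb'
              rw [mem_filter] at hb hb'
              rcases lt_trichotomy b b' with h | h | h
              · exfalso
                have := hanti b b' h
                have h3 : ϑ b' * n ≤ ϑ (b + 1) * n := mul_le_mul_of_nonneg_right this (Nat.cast_nonneg n)
                linarith [hb.2.1, hb'.2.2]
              · exact h
              · exfalso
                have := hanti b' b h
                have h3 : ϑ b * n ≤ ϑ (b' + 1) * n := mul_le_mul_of_nonneg_right this (Nat.cast_nonneg n)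
                linarith [hb'.2.1, hb.2.2]
          _ = L + 1 := by simp
    _ = (L + 1) * n := by rw [sum_const, card_range, smul_eq_mul, mul_comm]

/-- two heavy indices in a common deep class -/
lemma exists_deep_pair {𝒱 𝒟 : Type*} {d L : ℕ} {S : TreeDyn 𝒱 𝒟 d} (Lv : S.Levels L) (hL : 1 ≤ L)
    {n : ℕ} {Θ : ℝ} (s : Finset ℕ) (hs : s ⊆ Lv.heavy n Θ) (hcard : (n : ℝ) < s.card * Θ) :
    ∃ i ∈ s, ∃ j ∈ s, i ≠ j ∧ S.dir (Lv.vtx (L - 1) i) j = S.dir (Lv.vtx (L - 1) i) i := by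
  classical
  by_contra hcon
  push Not at hcon
  set Cl : ℕ → Finset ℕ := fun i => (range n).filter fun j =>
    S.dir (Lv.vtx (L - 1) i) j = S.dir (Lv.vtx (L - 1) i) i with hCl
  have hdisj : ∀ i ∈ s, ∀ j ∈ s, i ≠ j → Disjoint (Cl i) (Cl j) := by
    intro i hi j hj hij
    rw [disjoint_left]
    intro a hai haj
    have h1 := (mem_filter.mp hai).2
    have h2 := (mem_filter.mp haj).2
    have h3 := Lv.deep j a h2 (L - 1) (by omega) i
    exact hcon i hi j hj hij (h3.trans h1)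
  have h1 : (s.card : ℝ) * Θ ≤ ∑ i ∈ s, ((Cl i).card : ℝ) := by
    rw [← nsmul_eq_mul, ← sum_const]
    apply sum_le_sum
    intro i hi
    have := (mem_filter.mp (hs hi)).2
    rw [Lv.m_pos n hL] at this
    refine this.trans (le_of_eq ?_)
    unfold mass
    rfl
  have h2 : ∑ i ∈ s, ((Cl i).card : ℝ) ≤ n := by
    have h3 : (s.biUnion Cl).card = ∑ i ∈ s, (Cl i).card := card_biUnion hdisj
    have h4 : (s.biUnion Cl).card ≤ n := by
      calc _ ≤ (range n).card := card_le_card (biUnion_subset.mpr fun i _ => filter_subset _ _)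
        _ = n := card_range n
    rw [h3] at h4
    exact_mod_cast h4
  linarith

/-- Markov's inequality for finite sums -/
lemma markov {α : Type*} (s : Finset α) (W : α → ℝ) (hW : ∀ a ∈ s, 0 ≤ W a) {B t : ℝ} (ht : 0 ≤ t)
    (hB : ∑ a ∈ s, W a ≤ t * B) (hB0 : 0 ≤ B) (q : ℝ) (hq : 0 < q) [DecidablePred fun a => q * t < W a] :
    ((s.filter fun a => q * t < W a).card : ℝ) ≤ B / q := by
  rw [le_div_iff₀ hq]
  rcases ht.lt_or_eq with ht | ht
  · have h1 : ((s.filter fun a => q * t < W a).card : ℝ) * (q * t) ≤ t * B := by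
      calc _ = ∑ a ∈ s.filter (fun a => q * t < W a), q * t := by rw [sum_const, nsmul_eq_mul]
        _ ≤ ∑ a ∈ s.filter (fun a => q * t < W a), W a :=
            sum_le_sum fun a ha => (mem_filter.mp ha).2.le
        _ ≤ ∑ a ∈ s, W a := sum_le_sum_of_subset_of_nonneg (filter_subset _ _) fun a ha _ => hW a ha
        _ ≤ t * B := hB
    have h2 : t * (((s.filter fun a => q * t < W a).card : ℝ) * q) ≤ t * B := by linarith
    exact le_of_mul_le_mul_left h2 ht
  · have hempty : (s.filter fun a => q * t < W a) = ∅ := by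
      rw [filter_eq_empty_iff]
      intro a ha hlt
      rw [← ht, zero_mul] at hB
      rw [← ht, mul_zero] at hlt
      have := single_le_sum hW ha
      linarith
    rw [hempty, card_empty, Nat.cast_zero, zero_mul]
    exact hB0

end Pool.Agent.Helper33.UB

end

section

set_option autoImplicit false

open Finset Polynomial

namespace Pool.Agent.Helper33.UB

open TreeDyn

/-- double counting -/
lemma sum_card_swap {V : Type*} (rel : Finset V) (s : Finset ℕ) (p : ℕ → V → Prop)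
    [∀ i, DecidablePred (p i)] [∀ v, DecidablePred fun i => p i v] :
    ∑ i ∈ s, ((rel.filter (p i)).card : ℝ) = ∑ v ∈ rel, ((s.filter fun i => p i v).card : ℝ) := by
  have : ∑ i ∈ s, (rel.filter (p i)).card = ∑ v ∈ rel, (s.filter fun i => p i v).card := by
    simp only [card_filter]
    exact sum_comm
  exact_mod_cast this

/-- abstract selection of an index -/
lemma exists_index (Tf : ℕ → ℝ) (U : ℕ → ℕ → ℝ) (hT0 : ∀ i, 0 ≤ Tf i) (hU0 : ∀ i l, 0 ≤ U i l)
    (n N' n1 m : ℕ) (t : ℝ) (ht : 0 ≤ t) (hTs : ∑ i ∈ range n1, Tf i ≤ t * (2 * n))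
    (hUs : ∀ l ≤ N', ∑ i ∈ range n1, U i l ≤ t * (3 * n)) (hn : (n : ℝ) < 2 * (n1 - m)) (hm : m ≤ n1) :
    ∃ i < n1 - m, ∀ i', i' = i ∨ i' = i + m → Tf i' ≤ 20 * t ∧
      ∃ Λ ⊆ range (N' + 1), (9 / 10 * (N' + 1) : ℝ) ≤ Λ.card ∧ ∀ l ∈ Λ, U i' l ≤ 200 * t := by
  classical
  have hn0 : (0 : ℝ) ≤ n := Nat.cast_nonneg _
  have hN'r : (0 : ℝ) < (N' : ℝ) + 1 := by (clear * -; positivity)
  obtain ⟨W, hW⟩ : ∃ W : ℕ → ℝ, ∀ i, W i = Tf i + (1 / ((N' : ℝ) + 1)) * ∑ l ∈ range (N' + 1), U i l :=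
    ⟨_, fun _ => rfl⟩
  have hS0 : ∀ i, 0 ≤ (1 / ((N' : ℝ) + 1)) * ∑ l ∈ range (N' + 1), U i l := by
    intro i
    have := sum_nonneg (s := range (N' + 1)) fun l _ => hU0 i l
    (clear * - this; positivity)
  have hW0 : ∀ i, 0 ≤ W i := fun i => by
    rw [hW]
    exact add_nonneg (hT0 i) (hS0 i)
  have hWsum : ∑ i ∈ range n1, W i ≤ t * (5 * n) := by
    rw [sum_congr rfl fun i _ => hW i, sum_add_distrib, ← mul_sum, sum_comm]
    have h1 : ∑ l ∈ range (N' + 1), ∑ i ∈ range n1, U i l ≤ ∑ l ∈ range (N' + 1), t * (3 * n) := by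
      apply sum_le_sum
      intro l hl
      rw [mem_range] at hl
      exact hUs l (by omega)
    rw [sum_const, card_range, nsmul_eq_mul] at h1
    push_cast at h1
    have h2 : (1 / ((N' : ℝ) + 1)) * ∑ l ∈ range (N' + 1), ∑ i ∈ range n1, U i l ≤ t * (3 * n) := by
      rw [one_div, inv_mul_le_iff₀ hN'r]
      exact h1
    (clear * - hTs h2; linarith)
  have hmk := markov (range n1) W (fun a _ => hW0 a) ht hWsum (by (clear * -; positivity)) 20 (by norm_num)
  obtain ⟨B1, hB1⟩ : ∃ B1, B1 = (range n1).filter fun a => 20 * t < W a := ⟨_, rfl⟩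
  rw [← hB1] at hmk
  have hgood : ∀ i, W i ≤ 20 * t → Tf i ≤ 20 * t ∧
      ∃ Λ ⊆ range (N' + 1), (9 / 10 * (N' + 1) : ℝ) ≤ Λ.card ∧ ∀ l ∈ Λ, U i l ≤ 200 * t := by
    intro i hi
    rw [hW] at hi
    have h0 := hS0 i
    have h0' := hT0 i
    refine ⟨by (clear * - hi h0; linarith), (range (N' + 1)).filter fun l => ¬ (200 * t < U i l), filter_subset _ _, ?_, ?_⟩
    · have h1 : (1 / ((N' : ℝ) + 1)) * ∑ l ∈ range (N' + 1), U i l ≤ 20 * t := by (clear * - hi h0'; linarith)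
      rw [one_div, inv_mul_le_iff₀ hN'r] at h1
      have h2 := markov (range (N' + 1)) (U i) (fun l _ => hU0 i l) (B := 20 * ((N' : ℝ) + 1))
        ht (by (clear * - h1; linarith)) (by (clear * -; positivity)) 200 (by norm_num)
      have h3 := card_filter_add_card_filter_not (s := range (N' + 1)) (fun l => 200 * t < U i l)
      rw [card_range] at h3
      have h4 : (((range (N' + 1)).filter fun l => 200 * t < U i l).card : ℝ) +
          ((range (N' + 1)).filter fun l => ¬ (200 * t < U i l)).card = N' + 1 := by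
        exact_mod_cast h3
      (clear * - h2 h4; linarith)
    · intro l hl
      have h1 := (mem_filter.mp hl).2
      push Not at h1
      exact h1
  have hex : ∃ i ∈ range (n1 - m), i ∉ B1 ∧ i + m ∉ B1 := by
    by_contra hcon
    push Not at hcon
    have hsub : range (n1 - m) ⊆ B1 ∪ ((range (n1 - m)).filter fun i => i + m ∈ B1) := by
      intro i hi
      by_cases h : i ∈ B1
      · exact mem_union_left _ h
      · exact mem_union_right _ (mem_filter.mpr ⟨hi, hcon i hi h⟩)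
    have h1 := (card_le_card hsub).trans (card_union_le _ _)
    have h2 : ((range (n1 - m)).filter fun i => i + m ∈ B1).card ≤ B1.card := by
      apply card_le_card_of_injOn (fun i => i + m)
      · intro i hi
        exact (mem_filter.mp hi).2
      · intro i _ j _ hij
        exact Nat.add_right_cancel hij
    rw [card_range] at h1
    have h3 : ((n1 - m : ℕ) : ℝ) ≤ 2 * (B1.card : ℝ) := by
      have : n1 - m ≤ 2 * B1.card := by omega
      exact_mod_cast this
    rw [Nat.cast_sub hm] at h3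
    (clear * - hn hmk h3; linarith)
  obtain ⟨i, hi, hi1, hi2⟩ := hex
  rw [mem_range] at hi
  refine ⟨i, hi, ?_⟩
  rintro i' (rfl | rfl)
  · apply hgood
    by_contra h
    push Not at h
    exact hi1 (by rw [hB1]; exact mem_filter.mpr ⟨mem_range.mpr (by omega), h⟩)
  · apply hgood
    by_contra h
    push Not at h
    exact hi2 (by rw [hB1]; exact mem_filter.mpr ⟨mem_range.mpr (by omega), h⟩)

open Classical in
lemma exists_good_index {V : Type*} (rel : Finset V) (n N' J m : ℕ) (κ : ℝ) (hκ : 0 < κ)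
    (hκ1 : κ ≤ 1) (hn : (N' * J + m + 2 : ℝ) ≤ κ * n / 4)
    (Hv Bad : V → Finset ℕ) (hHv : ∀ v ∈ rel, Hv v ⊆ range n)
    (hsum : ∑ v ∈ rel, ((Bad v).card : ℝ) ≤ 2 * (κ * n * rel.card))
    (htr : ∀ v ∈ rel, ∀ i < n, i ∉ Bad v → i ∉ Hv v → ∀ l ≤ N', i + l * J ∉ Hv v) :
    ∃ i, i + N' * J + m < n ∧ ∀ i', i' = i ∨ i' = i + m →
      ((rel.filter fun v => i' ∈ Bad v).card : ℝ) ≤ 20 * (κ * rel.card) ∧
      ∃ Λ ⊆ range (N' + 1), (9 / 10 * (N' + 1) : ℝ) ≤ Λ.card ∧
        ∀ l ∈ Λ, ((rel.filter fun v => i' ∈ Hv v ∧ i' + l * J ∉ Hv v).card : ℝ) ≤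
          200 * (κ * rel.card) := by
  have hρ0 : (0 : ℝ) ≤ (rel.card : ℝ) := Nat.cast_nonneg _
  have hn0 : (0 : ℝ) ≤ n := Nat.cast_nonneg _
  have hm0 : (0 : ℝ) ≤ m := Nat.cast_nonneg _
  have hκn : κ * n ≤ n := by (clear * - hκ1; nlinarith)
  have hNJn : N' * J + m + 2 ≤ n := by
    have : ((N' * J + m + 2 : ℕ) : ℝ) ≤ n := by push_cast; (clear * - hn hκn; linarith)
    exact_mod_cast this
  have hn1 : ((n - N' * J : ℕ) : ℝ) = n - N' * J := by
    rw [Nat.cast_sub (by omega)]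
    push_cast
    ring
  obtain ⟨i, hi, h⟩ := exists_index (fun i => ((rel.filter fun v => i ∈ Bad v).card : ℝ))
    (fun i l => ((rel.filter fun v => i ∈ Hv v ∧ i + l * J ∉ Hv v).card : ℝ))
    (fun i => Nat.cast_nonneg _) (fun i l => Nat.cast_nonneg _) n N' (n - N' * J) m (κ * rel.card)
    (by (clear * - hκ; positivity)) (by
      rw [sum_card_swap]
      refine le_trans (sum_le_sum fun v _ => ?_) (hsum.trans (by (clear * -; linarith)))
      exact_mod_cast card_le_card (fun i hi => (mem_filter.mp hi).2))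
    (by
      intro l hl
      rw [sum_card_swap]
      have h3 : ∀ v ∈ rel, (((range (n - N' * J)).filter fun i => i ∈ Hv v ∧ i + l * J ∉ Hv v).card : ℝ) ≤
          N' * J + ((Bad v).card : ℝ) := by
        intro v hv
        have hlJ : l * J ≤ N' * J := Nat.mul_le_mul_right J hl
        have h4 := card_transition (n := n) (Hv v) (Bad v) (hHv v hv) (l * J)
          (fun i hi hb hh => htr v hv i hi hb hh l hl)
          ((range (n - N' * J)).filter fun i => i ∈ Hv v ∧ i + l * J ∉ Hv v) (by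
            intro i hi
            rw [mem_filter, mem_range] at hi
            exact ⟨hi.2.1, by omega, hi.2.2⟩)
        have h5 : ((range (n - N' * J)).filter fun i => i ∈ Hv v ∧ i + l * J ∉ Hv v).card ≤
            N' * J + (Bad v).card := h4.trans (by omega)
        exact_mod_cast h5
      refine (sum_le_sum h3).trans ?_
      rw [sum_add_distrib, sum_const, nsmul_eq_mul]
      have h6 : (rel.card : ℝ) * (N' * J) ≤ rel.card * (κ * n / 4) :=
        mul_le_mul_of_nonneg_left (by linarith) hρ0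
      have h7 : 0 ≤ κ * rel.card * n := by (clear * - hκ; positivity)
      have h8 : κ * n * rel.card = κ * rel.card * n := by ring
      rw [h8] at hsum
      (clear * - hsum h6 h7; linarith))
    (by rw [hn1]; linarith) (by omega)
  exact ⟨i, by omega, h⟩

end Pool.Agent.Helper33.UB

end

section

set_option autoImplicit false

set_option linter.style.haveILetI false

namespace Pool.Agent.Helper45.FF

open Polynomial IntermediateField Pool.Agent.Helper16 TensorProduct IsDedekindDomain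

section kernel

variable {k K : Type} [Field k] [Field K] [Algebra k K]

theorem deriv_pow_p (p : ℕ) [CharP K p] (D : Derivation k K K) (y : K) : D (y ^ p) = 0 := by
  rw [Derivation.leibniz_pow]
  simp

/-- `D` as a derivation over the subfield of `p`-th powers. -/
noncomputable def derL (p : ℕ) [Fact p.Prime] [CharP K p] (D : Derivation k K K) :
    Derivation (frobenius K p).fieldRange K K :=
  Derivation.mk'
    { toFun := D
      map_add' := fun a b => map_add D a b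
      map_smul' := by
        rintro ⟨_, y, rfl⟩ b
        simp only [Subfield.smul_def, smul_eq_mul, RingHom.id_apply]
        rw [Derivation.leibniz]
        have : D (frobenius K p y) = 0 := by
          rw [frobenius_def]; exact deriv_pow_p p D y
        rw [this]
        simp }
    (fun a b => by
      change D (a * b) = _
      rw [Derivation.leibniz]
      rfl)

theorem derL_apply (p : ℕ) [Fact p.Prime] [CharP K p] (D : Derivation k K K) (x : K) :
    derL p D x = D x := rfl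

theorem derivative_eq_zero_of_lt {L : Type} [Field L] (p : ℕ) [Fact p.Prime] [CharP L p]
    (Q : L[X]) (hQ : Q.natDegree < p) (h : derivative Q = 0) : Q = C (Q.coeff 0) := by
  ext n
  rw [coeff_C]
  rcases Nat.eq_zero_or_pos n with hn | hn
  · simp [hn]
  · rw [if_neg (by omega)]
    by_cases hnd : n < p
    · have h1 := congrArg (fun R => coeff R (n - 1)) h
      simp only [coeff_derivative, coeff_zero] at h1
      have h2 : n - 1 + 1 = n := by omega
      rw [h2] at h1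
      rcases mul_eq_zero.1 h1 with h3 | h3
      · exact h3
      · exfalso
        have h4 : ((n : ℕ) : L) = 0 := by
          rw [← h3, ← h2]; push_cast; simp
        rw [CharP.cast_eq_zero_iff L p] at h4
        exact absurd (Nat.le_of_dvd hn h4) (by omega)
    · exact coeff_eq_zero_of_natDegree_lt (by omega)

theorem eq_zero_of_aeval_eq_zero (p : ℕ) [Fact p.Prime] [CharP K p] (D : Derivation k K K) (t : K)
    (hD : D t = 1) (n : ℕ) (Q : (frobenius K p).fieldRange[X]) (hn : Q.natDegree ≤ n) (hnp : n < p)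
    (h : aeval t Q = 0) : Q = 0 := by
  haveI : CharP (frobenius K p).fieldRange p :=
    (algebraMap (frobenius K p).fieldRange K).charP (algebraMap (frobenius K p).fieldRange K).injective p
  induction n generalizing Q with
  | zero =>
    rw [Nat.le_zero] at hn
    rw [eq_C_of_natDegree_eq_zero hn] at h ⊢
    rw [aeval_C] at h
    have := (map_eq_zero_iff _ (algebraMap (frobenius K p).fieldRange K).injective).1 h
    rw [this, C_0]
  | succ n ih =>
    have h1 : aeval t (derivative Q) = 0 := by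
      have h2 := Derivation.map_aeval (derL p D) Q t
      rw [h, map_zero, derL_apply, hD] at h2
      simpa using h2.symm
    have h3 : derivative Q = 0 := ih _ ((natDegree_derivative_le Q).trans (by omega)) (by omega) h1
    have h4 := derivative_eq_zero_of_lt p Q (by omega) h3
    rw [h4] at h ⊢
    rw [aeval_C] at h
    have := (map_eq_zero_iff _ (algebraMap (frobenius K p).fieldRange K).injective).1 h
    rw [this, C_0]

theorem adjoin_frob_eq_top (p : ℕ) [Fact p.Prime] [CharP k p] [CharP K p] [PerfectField k]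
    (t : K) [Algebra.IsSeparable k⟮t⟯ K] :
    IntermediateField.adjoin (frobenius K p).fieldRange {t} = ⊤ := by
  haveI : PerfectRing k p := PerfectField.toPerfectRing p
  let T := IntermediateField.adjoin (frobenius K p).fieldRange {t}
  let T1 : IntermediateField k K := T.toSubfield.toIntermediateField (by
    intro a
    obtain ⟨b, hb⟩ := surjective_frobenius k p a
    have h1 : algebraMap k K a ∈ (frobenius K p).fieldRange := by
      refine ⟨algebraMap k K b, ?_⟩
      rw [← hb, frobenius_def, frobenius_def, map_pow]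
    exact T.algebraMap_mem ⟨_, h1⟩)
  have h1 : k⟮t⟯ ≤ T1 := by
    rw [adjoin_simple_le_iff]
    exact mem_adjoin_simple_self _ t
  let T2 : IntermediateField k⟮t⟯ K := T.toSubfield.toIntermediateField (fun a => h1 a.2)
  haveI : ExpChar k⟮t⟯ p := by
    haveI : CharP k⟮t⟯ p := (algebraMap k⟮t⟯ K).charP (algebraMap k⟮t⟯ K).injective p
    infer_instance
  have h2 : IntermediateField.adjoin k⟮t⟯ ((· ^ p) '' (Set.univ : Set K)) ≤ T2 := by
    rw [adjoin_le_iff]
    rintro _ ⟨y, -, rfl⟩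
    have h1 : y ^ p ∈ (frobenius K p).fieldRange := ⟨y, frobenius_def p y⟩
    exact T.algebraMap_mem ⟨_, h1⟩
  rw [← adjoin_eq_adjoin_pow_expChar_of_isSeparable' k⟮t⟯ K Set.univ p, adjoin_univ] at h2
  rw [eq_top_iff]
  intro x _
  exact h2 (mem_top (x := x))

theorem exists_pow_of_deriv_eq_zero (p : ℕ) [Fact p.Prime] [CharP k p] [CharP K p] [PerfectField k]
    (t : K) [Algebra.IsSeparable k⟮t⟯ K] (D : Derivation k K K) (hD : D t = 1)
    (x : K) (hx : D x = 0) : ∃ y, y ^ p = x := by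
  let L := (frobenius K p).fieldRange
  haveI : CharP L p := (algebraMap L K).charP (algebraMap L K).injective p
  let a : L := ⟨t ^ p, ⟨t, frobenius_def p t⟩⟩
  have hp : 0 < p := (Fact.out : p.Prime).pos
  have hM : (X ^ p - C a : L[X]).Monic := monic_X_pow_sub_C a hp.ne'
  have hMt : aeval t (X ^ p - C a : L[X]) = 0 := by
    rw [map_sub, map_pow, aeval_X, aeval_C]
    exact sub_self _
  have hint : IsIntegral L t := ⟨_, hM, hMt⟩
  have h1 : x ∈ IntermediateField.adjoin L {t} := by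
    rw [adjoin_frob_eq_top (k := k) p t]; exact mem_top
  have h2 : x ∈ Algebra.adjoin L {t} := by
    rw [← IntermediateField.adjoin_simple_toSubalgebra_of_isAlgebraic hint.isAlgebraic]
    exact h1
  rw [Algebra.adjoin_singleton_eq_range_aeval] at h2
  obtain ⟨P, hP⟩ := h2
  have hP' : aeval t P = x := hP
  let Q := P %ₘ (X ^ p - C a : L[X])
  have hQ : aeval t Q = x := by
    have := P.modByMonic_add_div (X ^ p - C a : L[X])
    rw [← hP']
    conv_rhs => rw [← this]
    rw [map_add, map_mul, hMt, zero_mul, add_zero]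
  have hQd : Q.natDegree < p := by
    have := natDegree_modByMonic_lt P hM (by
      intro h
      have := congrArg natDegree h
      rw [natDegree_X_pow_sub_C] at this
      simp at this
      omega)
    rwa [natDegree_X_pow_sub_C] at this
  have h3 : aeval t (derivative Q) = 0 := by
    have h2 := Derivation.map_aeval (derL p D) Q t
    rw [hQ, derL_apply, derL_apply, hD, hx] at h2
    simpa using h2.symm
  have h4 : derivative Q = 0 :=
    eq_zero_of_aeval_eq_zero p D t hD (p - 1) _ ((natDegree_derivative_le Q).trans (by omega))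
      (by omega) h3
  have h5 := derivative_eq_zero_of_lt p Q hQd h4
  obtain ⟨y, hy⟩ := (Q.coeff 0).2
  refine ⟨y, ?_⟩
  rw [← hQ, h5, aeval_C]
  rw [frobenius_def] at hy
  exact hy

end kernel

end Pool.Agent.Helper45.FF

end

section

set_option autoImplicit false

set_option linter.unusedSectionVars false

open Finset Polynomial

namespace Pool.Agent.Helper36.S5

variable {κ : Type*} [Field κ] {A B : κ[X]} {d : ℕ}

/-- a multiplier `β/α` is special -/
def Special (α β : κ) : Prop := β ≠ 0 ∧ (α = β ∨ ∀ n : ℕ, 0 < n → α ^ n ≠ β ^ n)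

/-- the data of a special fixed point of `A/B` -/
def HasSpecial (A B : κ[X]) (d : ℕ) : Prop :=
  (A.coeff d ≠ 0 ∧ B.coeff d = 0 ∧ Special (A.coeff d) (B.coeff (d - 1))) ∨
  ∃ q : κ, A.eval q = q * B.eval q ∧ B.eval q ≠ 0 ∧
    Special (B.eval q) ((derivative A).eval q - q * (derivative B).eval q)

end Pool.Agent.Helper36.S5

end

section

set_option autoImplicit false

open Finset Polynomial

namespace Pool.Agent.Helper33.UB

open TreeDyn

/-- **One scale**, `J` is independent of `N'`. -/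
theorem scale' (d L : ℕ) (hd : 1 ≤ d) (hL : 1 ≤ L) (κ : ℝ) (hκ : 0 < κ) (hκ1 : κ ≤ 1) (ϑ : ℝ)
    (hϑ : 0 < ϑ) (hϑ1 : ϑ ≤ 1) :
    ∃ J : ℕ, 1 ≤ J ∧ ∀ N' : ℕ, 1 ≤ N' → 1 ≤ ϑ * N' → ∃ ϑ₁ : ℝ, 0 < ϑ₁ ∧ ϑ₁ < ϑ ∧ ∃ n0 : ℕ, ∀ n : ℕ, n0 ≤ n →
      ∀ {𝒱 𝒟 : Type*} (S : TreeDyn 𝒱 𝒟 d) (Lv : S.Levels L),
      ∃ Bad : Finset ℕ, Bad ⊆ range n ∧
        (Bad.card : ℝ) ≤ (Lv.unclean n (ϑ₁ * n) (ϑ * n)).card + κ * n ∧
        ∀ i < n, i ∉ Bad → i ∉ Lv.heavy n (ϑ * n) →
          (∃ ζ : 𝒱, ∀ l l', l < l' → l' ≤ N' → S.dir ζ (i + l * J) ≠ S.dir ζ (i + l' * J)) ∧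
          ∀ l ≤ N', i + l * J ∉ Lv.heavy n (ϑ * n) := by
  have hLr : (1 : ℝ) ≤ L := by exact_mod_cast hL
  have hdr : (1 : ℝ) ≤ d := by exact_mod_cast hd
  set β : ℝ := κ * ϑ / (4 * L) with hβ
  have hβ0 : 0 < β := by (clear * - hκ hϑ hL; positivity)
  set G : ℕ := ⌈4 / β⌉₊ with hG
  have hGβ : 4 ≤ ((G : ℝ) + 1) * β := by
    have h1 : 4 / β ≤ G := Nat.le_ceil _
    rw [div_le_iff₀ hβ0] at h1
    (clear * - hβ0 h1; nlinarith)
  set J : ℕ := G.factorial with hJ
  have hJ1 : 1 ≤ J := Nat.factorial_pos G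
  have hJr : (1 : ℝ) ≤ J := by exact_mod_cast hJ1
  refine ⟨J, hJ1, fun N' hN' hNϑ => ?_⟩
  have hN'r : (1 : ℝ) ≤ N' := by exact_mod_cast hN'
  set t : ℝ := ((N' * J : ℕ) : ℝ) with ht
  have htr : t = N' * J := by rw [ht]; push_cast; ring
  have ht1 : 1 ≤ t := by rw [htr]; (clear * - hJr hN'r; nlinarith)
  set c1 : ℝ := (L / ϑ) * (N' + 1) * ((t + 4 * t / κ) * d ^ (N' * J)) with hc1
  have hc1pos : 0 < c1 := by positivity
  set c2 : ℝ := (G + 1) ^ 2 * ((G + 4 * (G + 1) ^ 2) * d ^ G + 1) with hc2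
  have hc2pos : 0 < c2 := by positivity
  set ϑ₁ : ℝ := min (ϑ / 2) (min (κ / (4 * c1)) (1 / (4 * c2))) with hϑ₁
  have hϑ₁pos : 0 < ϑ₁ := by
    rw [hϑ₁]
    refine lt_min (by positivity) (lt_min (by positivity) (by positivity))
  have hb1 : c1 * ϑ₁ ≤ κ / 4 := by
    have : ϑ₁ ≤ κ / (4 * c1) := (min_le_right _ _).trans (min_le_left _ _)
    calc c1 * ϑ₁ ≤ c1 * (κ / (4 * c1)) := mul_le_mul_of_nonneg_left this hc1pos.le
      _ = κ / 4 := by field_simp
  have hb2 : c2 * ϑ₁ ≤ 1 / 4 := by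
    have : ϑ₁ ≤ 1 / (4 * c2) := (min_le_right _ _).trans (min_le_right _ _)
    calc c2 * ϑ₁ ≤ c2 * (1 / (4 * c2)) := mul_le_mul_of_nonneg_left this hc2pos.le
      _ = 1 / 4 := by (clear * - hc2pos; field_simp)
  refine ⟨ϑ₁, hϑ₁pos, lt_of_le_of_lt (min_le_left _ _) (by (clear * - hϑ; linarith)), ?_⟩
  refine ⟨⌈4 * (t + 1) / κ⌉₊ + G + 1, ?_⟩
  intro n hn 𝒱 𝒟 S Lv
  have hn1 : 1 ≤ n := by omega
  have hGn : G < n := by omega
  have hnr : (1 : ℝ) ≤ n := by exact_mod_cast hn1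
  have hn0 : (0 : ℝ) < n := by (clear * - hnr; linarith)
  have hGnr : (G : ℝ) < n := by exact_mod_cast hGn
  have hnt : t + 1 ≤ κ * n / 4 := by
    have h1 : 4 * (t + 1) / κ ≤ n := by
      have h2 : 4 * (t + 1) / κ ≤ ⌈4 * (t + 1) / κ⌉₊ := Nat.le_ceil _
      have h3 : ((⌈4 * (t + 1) / κ⌉₊ : ℕ) : ℝ) ≤ n := by exact_mod_cast (by omega)
      (clear * - h2 h3; linarith)
    rw [div_le_iff₀ hκ] at h1
    (clear * - h1; linarith)
  set θ' : ℝ := κ * n / (4 * t) with hθ'
  have hθ'pos : 0 < θ' := by positivity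
  set θ'' : ℝ := n / (4 * (G + 1) ^ 2) with hθ''
  have hθ''pos : 0 < θ'' := by (clear * - hn1 hκ hϑ hL; positivity)
  have e1 : (n : ℝ) / θ' = 4 * t / κ := by rw [hθ']; field_simp
  have e2 : (n : ℝ) / θ'' = 4 * (G + 1) ^ 2 := by rw [hθ'']; (clear * - hn1; field_simp)
  have e3 : (n : ℝ) / (ϑ * n) = 1 / ϑ := by field_simp
  have e4 : θ' * t = κ * n / 4 := by rw [hθ']; field_simp
  have e5 : ((G : ℝ) + 1) ^ 2 * θ'' = n / 4 := by rw [hθ'']; (clear * - hn1; field_simp)
  have hθΘ : θ' ≤ ϑ * n := by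
    rw [hθ', div_le_iff₀ (by positivity)]
    have h1 : κ * n ≤ 1 * n := mul_le_mul_of_nonneg_right hκ1 hn0.le
    have h2 : 1 ≤ ϑ * t := by
      rw [htr]
      calc (1 : ℝ) ≤ ϑ * N' := hNϑ
        _ ≤ ϑ * (N' * J) := by
          apply mul_le_mul_of_nonneg_left _ hϑ.le
          (clear * - hJr; nlinarith)
    (clear * - ht1 hnt h1 h2; nlinarith)
  obtain ⟨Bad, hsub, hcard, hcl⟩ := Lv.classify (n := n) hd (N' := N') (J := J) (G := G)
    (θ := ϑ₁ * n) (θ' := θ') (θ'' := θ'') (Θ := ϑ * n) (Θ' := β * n) (by positivity) hθ'pos hθ''pos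
    (by positivity) (by positivity) (by (clear * - hϑ1; nlinarith)) hθΘ hJ1
    (fun u h1 h2 => Nat.dvd_factorial h1 h2) (by
      unfold err
      rw [e2]
      have h1 : ((G : ℝ) + 1) ^ 2 * ((G * d ^ G + 4 * (G + 1) ^ 2 * d ^ G) * (ϑ₁ * n) + ϑ₁ * n + θ'') =
          c2 * ϑ₁ * n + n / 4 := by
        rw [← e5, hc2]; ring
      rw [h1]
      have h2 : c2 * ϑ₁ * n ≤ 1 / 4 * n := mul_le_mul_of_nonneg_right hb2 hn0.le
      have h3 : 4 * (n : ℝ) ≤ (G + 1) * (β * n) := by
        calc 4 * (n : ℝ) ≤ ((G : ℝ) + 1) * β * n := mul_le_mul_of_nonneg_right hGβ hn0.le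
          _ = (G + 1) * (β * n) := by ring
      (clear * - hnr hGnr h2 h3; linarith))
  refine ⟨Bad, hsub, ?_, hcl⟩
  refine hcard.trans ?_
  have h1 : (L : ℝ) * (n / (ϑ * n)) * (β * n + (N' + 1) * err d n (N' * J) (ϑ₁ * n) θ') =
      κ * n / 4 + c1 * ϑ₁ * n := by
    unfold err
    rw [e3, e1, ← ht, hc1, hβ]
    (clear * - hκ hL hϑ hN' ht1 hd hϑ₁pos hn1; field_simp)
  have h2 : c1 * ϑ₁ * n ≤ κ / 4 * n := mul_le_mul_of_nonneg_right hb1 hn0.le
  rw [h1, ← htr, e4]
  (clear * - hnt h2; linarith)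

/-- a sequence of scales -/
lemma exists_scales' (d L : ℕ) (hd : 1 ≤ d) (hL : 1 ≤ L) (κ : ℝ) (hκ : 0 < κ) (hκ1 : κ ≤ 1)
    (Nf : ℝ → ℕ → ℕ) (hNf : ∀ ϑ J, 0 < ϑ → 1 ≤ Nf ϑ J ∧ 1 ≤ ϑ * Nf ϑ J) :
    ∃ (ϑ : ℕ → ℝ) (J n0 : ℕ → ℕ), (∀ b, 0 < ϑ b ∧ ϑ b ≤ 1) ∧
      ∀ b, ScaleP d L κ (ϑ b) (ϑ (b + 1)) (Nf (ϑ b) (J b)) (J b) (n0 b) := by
  have hstep : ∀ ϑ : {ϑ : ℝ // 0 < ϑ ∧ ϑ ≤ 1}, ∃ (J n0 : ℕ) (ϑ₁ : {ϑ : ℝ // 0 < ϑ ∧ ϑ ≤ 1}),
      ScaleP d L κ ϑ.1 ϑ₁.1 (Nf ϑ.1 J) J n0 := by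
    rintro ⟨ϑ, h0, h1⟩
    obtain ⟨J, hJ, hrest⟩ := scale' d L hd hL κ hκ hκ1 ϑ h0 h1
    obtain ⟨ϑ₁, h2, h3, n0, hn0⟩ := hrest (Nf ϑ J) (hNf ϑ J h0).1 (hNf ϑ J h0).2
    exact ⟨J, n0, ⟨ϑ₁, h2, by (clear * - h1 h3; linarith)⟩, hJ, h2, h3, fun n hn 𝒱 𝒟 S Lv => hn0 n hn S Lv⟩
  choose J n0 nx hnx using hstep
  let seq : ℕ → {ϑ : ℝ // 0 < ϑ ∧ ϑ ≤ 1} := fun b => Nat.rec ⟨1, by norm_num, le_rfl⟩ (fun _ a => nx a) b
  exact ⟨fun b => (seq b).1, fun b => J (seq b), fun b => n0 (seq b), fun b => (seq b).2,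
    fun b => hnx (seq b)⟩

end Pool.Agent.Helper33.UB

end

section

set_option autoImplicit false

open Finset Polynomial

namespace Pool.Agent.Helper33.PT

open Pool.Agent.Helper33.UB TreeDyn

lemma sum_windows (b : ℕ → ℝ) (i w Q : ℕ) :
    ∑ q ∈ range Q, ∑ j ∈ Ico (i + q * w) (i + q * w + w), b j = ∑ s ∈ range (Q * w), b (i + s) := by
  induction Q with
  | zero => simp
  | succ Q ih =>
    rw [sum_range_succ, ih, Nat.succ_mul, sum_range_add, sum_Ico_eq_sum_range]
    congr 1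
    rw [Nat.add_sub_cancel_left]
    apply sum_congr rfl
    intro s _
    rw [add_assoc]

/-- choice of a window -/
lemma exists_window {V : Type} [DecidableEq V] (rel : Finset V) (b : ℕ → ℝ) (i w Q : ℕ) (t : ℝ) (ht : 0 < t)
    (hb : ∀ j, 0 ≤ b j) (hw : 1 ≤ w) (hQ : 1 ≤ Q)
    (hs : ∑ s ∈ range (Q * w), b (i + s) ≤ 4 * (t * rel.card) * (Q * w : ℕ)) (Ss : ℕ → Finset V) :
    ∃ q < Q, (∑ j ∈ Ico (i + q * w) (i + q * w + w), b j ≤ 8 * w * (t * rel.card)) ∧
      ∀ B ⊆ rel, (∀ v ∈ B, (∃ s, i + q * w ≤ i + s ∧ i + s < i + q * w + w ∧ v ∈ Ss s) ∧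
      ∀ s, i + s < i + q * w → v ∉ Ss s) → (B.card : ℝ) ≤ 2 * rel.card / Q := by
  classical
  set Fq : ℕ → Finset V := fun q => rel.filter fun v =>
    (∃ s, i + q * w ≤ i + s ∧ i + s < i + q * w + w ∧ v ∈ Ss s) ∧
      ∀ s, i + s < i + q * w → v ∉ Ss s with hFq
  have hdisj : ∀ q ∈ range Q, ∀ q' ∈ range Q, q ≠ q' → Disjoint (Fq q) (Fq q') := by
    have key : ∀ q q', q < q' → Disjoint (Fq q) (Fq q') := by
      intro q q' hqq
      rw [disjoint_left]
      intro v hv hv'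
      obtain ⟨s, h1, h2, h3⟩ := (mem_filter.mp hv).2.1
      refine (mem_filter.mp hv').2.2 s ?_ h3
      have : (q + 1) * w ≤ q' * w := Nat.mul_le_mul_right _ hqq
      rw [Nat.add_mul, one_mul] at this
      omega
    intro q _ q' _ hne
    rcases lt_or_gt_of_ne hne with h | h
    · exact key q q' h
    · exact (key q' q h).symm
  have hF : ∑ q ∈ range Q, ((Fq q).card : ℝ) ≤ rel.card := by
    have h1 : ((range Q).biUnion Fq).card = ∑ q ∈ range Q, (Fq q).card := card_biUnion hdisj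
    have h2 : ((range Q).biUnion Fq).card ≤ rel.card :=
      card_le_card (biUnion_subset.mpr fun q _ => filter_subset _ _)
    rw [h1] at h2
    exact_mod_cast h2
  have hB := sum_windows b i w Q
  have hQr : (1 : ℝ) ≤ Q := by exact_mod_cast hQ
  have hwr : (1 : ℝ) ≤ w := by exact_mod_cast hw
  have hρ : (0 : ℝ) ≤ rel.card := Nat.cast_nonneg _
  obtain ⟨q, hq, hqle⟩ : ∃ q ∈ range Q, (∑ j ∈ Ico (i + q * w) (i + q * w + w), b j) +
      4 * t * w * Q * (Fq q).card ≤ 8 * w * (t * rel.card) := by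
    by_contra hcon
    push Not at hcon
    have h1 : ∑ q ∈ range Q, 8 * w * (t * rel.card) < ∑ q ∈ range Q,
        ((∑ j ∈ Ico (i + q * w) (i + q * w + w), b j) + 4 * t * w * Q * (Fq q).card) :=
      sum_lt_sum_of_nonempty (by rw [nonempty_range_iff]; omega) hcon
    rw [sum_const, card_range, nsmul_eq_mul, sum_add_distrib, ← mul_sum, hB] at h1
    have h2 : 4 * t * w * Q * ∑ q ∈ range Q, ((Fq q).card : ℝ) ≤ 4 * t * w * Q * rel.card := by
      apply mul_le_mul_of_nonneg_left hF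
      positivity
    push_cast at hs
    nlinarith
  have hb0 : 0 ≤ ∑ j ∈ Ico (i + q * w) (i + q * w + w), b j := sum_nonneg fun j _ => hb j
  have hF0 : (0 : ℝ) ≤ (Fq q).card := Nat.cast_nonneg _
  refine ⟨q, mem_range.mp hq, ?_, ?_⟩
  · have : 0 ≤ 4 * t * w * Q * (Fq q).card := by positivity
    linarith
  · intro B hBs hB'
    have h1 : (B.card : ℝ) ≤ (Fq q).card := by
      exact_mod_cast card_le_card (fun v hv => mem_filter.mpr ⟨hBs hv, hB' v hv⟩ : B ⊆ Fq q)
    refine h1.trans ?_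
    rw [le_div_iff₀ (by linarith)]
    have h2 : 4 * t * w * (Q * (Fq q).card) ≤ 4 * t * w * (2 * rel.card) := by linarith
    have h3 := le_of_mul_le_mul_left h2 (by positivity)
    linarith

end Pool.Agent.Helper33.PT

end
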