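import Pool.Agent.Helper23.MB.Inst

/-!
Parts of Helper45.RatRed, Helper38.DT.Defs, Helper38.DT.PartC, Helper31.DT.PIns, Helper31.RRK.Der, Helper31.DT.SepDeg, Helper45.M8Desc, Helper45.M8Desc2, Helper91.DT.C, Helper91.DT.D, Helper91.DT.Six, Helper35.DT.Long, Helper38.DT.Main, Helper34.Dep.Emb, Helper53.PT.Star, Helper55.LW.Main, Helper55.LW.Spec
-/

attribute [-simp] Valuation.IsUniformizer.val
attribute [local instance 5000]
  Pool.Agent.Helper23.MB.Inst.rCharZero Pool.Agent.Helper23.MB.Inst.rALM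
  Pool.Agent.Helper23.MB.Inst.rARM Pool.Agent.Helper23.MB.Inst.rALSM
  Pool.Agent.Helper23.MB.Inst.rARSM Pool.Agent.Helper23.MB.Inst.rARRLE
  Pool.Agent.Helper23.MB.Inst.rALRLE Pool.Agent.Helper23.MB.Inst.rARRLT
  Pool.Agent.Helper23.MB.Inst.rALRLT Pool.Agent.Helper23.MB.Inst.rPMRLT
  Pool.Agent.Helper23.MB.Inst.rMPRLT Pool.Agent.Helper23.MB.Inst.rPMM
  Pool.Agent.Helper23.MB.Inst.rMPM Pool.Agent.Helper23.MB.Inst.rPMSM
  Pool.Agent.Helper23.MB.Inst.rMPSM Pool.Agent.Helper23.MB.Inst.rEAOL
  Pool.Agent.Helper23.MB.Inst.rIOR Pool.Agent.Helper23.MB.Inst.rISOR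
  Pool.Agent.Helper23.MB.Inst.rNZD Pool.Agent.Helper23.MB.Inst.zCharZero
  Pool.Agent.Helper23.MB.Inst.zALM Pool.Agent.Helper23.MB.Inst.zARM
  Pool.Agent.Helper23.MB.Inst.zIOR Pool.Agent.Helper23.MB.Inst.zISOR
  Pool.Agent.Helper23.MB.Inst.zNZD Pool.Agent.Helper23.MB.Inst.qCharZero
  Pool.Agent.Helper23.MB.Inst.free Pool.Agent.Helper23.MB.Inst.faith
  Pool.Agent.Helper23.MB.Inst.torsionFree Pool.Agent.Helper23.MB.Inst.rfFaith
  Pool.Agent.Helper23.MB.Inst.hAdd Pool.Agent.Helper23.MB.Inst.hAddM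
  Pool.Agent.Helper23.MB.Inst.hMul Pool.Agent.Helper23.MB.Inst.hMon
  Pool.Agent.Helper23.MB.Inst.hZero Pool.Agent.Helper23.MB.Inst.hOne
  Pool.Agent.Helper23.MB.Inst.hMZ Pool.Agent.Helper23.MB.Inst.hRing
  Pool.Agent.Helper23.MB.Inst.aAdd Pool.Agent.Helper23.MB.Inst.aAddM
  Pool.Agent.Helper23.MB.Inst.aMul Pool.Agent.Helper23.MB.Inst.aMon
  Pool.Agent.Helper23.MB.Inst.aZero Pool.Agent.Helper23.MB.Inst.aOne
  Pool.Agent.Helper23.MB.Inst.aMZ Pool.Agent.Helper23.MB.Inst.aRing

namespace Pool.Agent.Helper16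
end Pool.Agent.Helper16
namespace Pool.Agent.Helper33
end Pool.Agent.Helper33
namespace Pool.Agent.Helper34.Dep
end Pool.Agent.Helper34.Dep
namespace Pool.Agent.Helper38.DT
end Pool.Agent.Helper38.DT
namespace Pool.Agent.Helper45.FF
end Pool.Agent.Helper45.FF
namespace Pool.Agent.Helper45.FR
end Pool.Agent.Helper45.FR
namespace Pool.Agent.Helper45.S4
end Pool.Agent.Helper45.S4
namespace Pool.Agent.Helper45.S6
end Pool.Agent.Helper45.S6
namespace Pool.Agent.Helper47.EN
end Pool.Agent.Helper47.EN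
namespace Pool.Agent.Helper47.RR
end Pool.Agent.Helper47.RR
namespace Pool.Agent.Helper55.LW
end Pool.Agent.Helper55.LW
namespace Pool.Agent.Helper93.RatODE
end Pool.Agent.Helper93.RatODE

section

set_option autoImplicit false

set_option linter.style.haveILetI false

open Polynomial

namespace Pool.Agent.Helper45.FR

open Pool.Agent.Helper33 Pool.Agent.Helper93.RatODE

section phi

variable {K : Type*} [Field K] {L : Type*} [Field L] [Algebra K L]

/-- the cross product -/
def cr (a b : L × L) : L := a.1 * b.2 - a.2 * b.1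

variable {P Q : K[X]} {d : ℕ}

theorem cr_smul_right (c : L) (a b : L × L) : cr a (c • b) = c * cr a b := by
  simp only [cr, Prod.smul_fst, Prod.smul_snd, smul_eq_mul]; ring

theorem cr_smul_left (c : L) (a b : L × L) : cr (c • a) b = c * cr a b := by
  simp only [cr, Prod.smul_fst, Prod.smul_snd, smul_eq_mul]; ring

theorem cr_self (a : L × L) : cr a a = 0 := by
  simp only [cr]; ring

theorem cr_comm (a b : L × L) : cr a b = - cr b a := by
  simp only [cr]; ring

theorem exists_smul_of_cr {a b : L × L} (ha : a ≠ 0) (hb : b ≠ 0) (h : cr a b = 0) :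
    ∃ c : L, c ≠ 0 ∧ b = c • a := by
  have h' : a.1 * b.2 = a.2 * b.1 := sub_eq_zero.1 h
  by_cases h1 : a.1 = 0
  · have h2 : a.2 ≠ 0 := fun h2 => ha (Prod.ext h1 h2)
    have h3 : b.1 = 0 := by
      rw [h1, zero_mul] at h'
      rcases mul_eq_zero.1 h'.symm with h3 | h3
      · exact absurd h3 h2
      · exact h3
    have h4 : b.2 ≠ 0 := fun h4 => hb (Prod.ext h3 h4)
    refine ⟨b.2 / a.2, div_ne_zero h4 h2, Prod.ext ?_ ?_⟩
    · simp [h1, h3]
    · simp [h2]
  · have h3 : b.1 ≠ 0 := by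
      intro h3
      rw [h3, mul_zero] at h'
      rcases mul_eq_zero.1 h' with h4 | h4
      · exact h1 h4
      · exact hb (Prod.ext h3 h4)
    refine ⟨b.1 / a.1, div_ne_zero h3 h1, Prod.ext ?_ ?_⟩
    · simp [h1]
    · simp only [Prod.smul_snd, smul_eq_mul]
      field_simp
      rw [mul_comm b.2]
      rw [h', mul_comm]

theorem cr_trans {a b c : L × L} (ha : a ≠ 0) (hb : b ≠ 0) (hab : cr a b = 0) (hbc : cr b c = 0) :
    cr a c = 0 := by
  obtain ⟨e, he, rfl⟩ := exists_smul_of_cr ha hb hab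
  rw [cr_smul_left] at hbc
  rcases mul_eq_zero.1 hbc with h | h
  · exact absurd h he
  · exact h

end phi

end Pool.Agent.Helper45.FR

end

section

set_option autoImplicit false

namespace Pool.Agent.Helper38.DT

open Polynomial Pool.Agent.Helper93.RatODE

/-- `F / G` is a rational function of degree `d`. -/
structure IsRatD {K : Type} [Field K] (F G : K[X]) (d : ℕ) : Prop where
  cop : IsCoprime F G
  degF : F.natDegree ≤ d
  degG : G.natDegree ≤ d
  top : F.coeff d ≠ 0 ∨ G.coeff d ≠ 0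

/-- `F / G`, of degree `d`, is purely inseparable. -/
def PInsep {K : Type} [Field K] (F G : K[X]) (d : ℕ) : Prop :=
  (∃ ν : ℕ, d = ringExpChar K ^ ν) ∧
    ∃ a b c e : K, F = C a * X ^ d + C b ∧ G = C c * X ^ d + C e

end Pool.Agent.Helper38.DT

end

section

set_option autoImplicit false

set_option linter.style.haveILetI false

namespace Pool.Agent.Helper38.DT

open Polynomial IntermediateField Pool.Agent.Helper16

section partC

variable {E M : Type} [Field E] [Field M] [Algebra E M]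

theorem isRatD_max {A B : E[X]} (h : IsCoprime A B) (hA : A ≠ 0) (hB : B ≠ 0) {δ : ℕ}
    (hδ : max A.natDegree B.natDegree = δ) : IsRatD A B δ := by
  refine ⟨h, by omega, by omega, ?_⟩
  rcases max_choice A.natDegree B.natDegree with h1 | h1
  · left
    rw [← hδ, h1]
    exact leadingCoeff_ne_zero.2 hA
  · right
    rw [← hδ, h1]
    exact leadingCoeff_ne_zero.2 hB

end partC

end Pool.Agent.Helper38.DT

end

section

set_option autoImplicit false

namespace Pool.Agent.Helper31.DT

open Polynomial IntermediateField Pool.Agent.Helper93.RatODE Pool.Agent.Helper38.DT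

section ratfunc

variable {E : Type} [Field E]

theorem IsRatD.G_ne_zero {F G : E[X]} {d : ℕ} (hd : 2 ≤ d) (h : IsRatD F G d) : G ≠ 0 := by
  rintro rfl
  have h1 : IsUnit F := isCoprime_zero_right.1 h.cop
  have h2 := natDegree_eq_zero_of_isUnit h1
  rcases h.top with h3 | h3
  · exact h3 (coeff_eq_zero_of_natDegree_lt (by omega))
  · simp at h3

theorem IsRatD.swap {F G : E[X]} {d : ℕ} (h : IsRatD F G d) : IsRatD G F d :=
  ⟨h.cop.symm, h.degG, h.degF, h.top.symm⟩

/-- the rational function `F / G` -/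
noncomputable def rf (F G : E[X]) : RatFunc E := algebraMap E[X] (RatFunc E) F / algebraMap E[X] (RatFunc E) G

theorem rf_mul {F G : E[X]} (hG : G ≠ 0) :
    rf F G * algebraMap E[X] (RatFunc E) G = algebraMap E[X] (RatFunc E) F := by
  have : algebraMap E[X] (RatFunc E) G ≠ 0 := by
    simpa using hG
  unfold rf
  field_simp

theorem rf_ne_C {F G : E[X]} {d : ℕ} (hd : 2 ≤ d) (h : IsRatD F G d) :
    ¬ ∃ c : E, rf F G = RatFunc.C c := by
  rintro ⟨c, hc⟩
  have hG := IsRatD.G_ne_zero hd h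
  have h1 := rf_mul (F := F) hG
  rw [hc] at h1
  have h2 : C c * G = F := by
    apply RatFunc.algebraMap_injective (K := E)
    rw [map_mul, ← h1]
    congr 1
  have h3 : IsUnit G := by
    rw [← h2] at h
    exact isCoprime_self.1 (h.cop.of_mul_left_right)
  have h4 := natDegree_eq_zero_of_isUnit h3
  rcases h.top with h5 | h5
  · rw [← h2] at h5
    apply h5
    rw [coeff_C_mul, coeff_eq_zero_of_natDegree_lt (by omega : G.natDegree < d), mul_zero]
  · exact h5 (coeff_eq_zero_of_natDegree_lt (by omega))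

/-- If some power `X ^ (q ^ n)` with `q` the exponential characteristic is a rational function of
`F / G` then `F / G` is purely inseparable. -/
theorem pinsep_of_pow_mem (F G : E[X]) (d : ℕ) (hd : 2 ≤ d) (h : IsRatD F G d) (n : ℕ)
    (hn : (RatFunc.X : RatFunc E) ^ (ringExpChar E) ^ n ∈ E⟮rf F G⟯) : PInsep F G d := by
  have hG := IsRatD.G_ne_zero hd h
  have hF : F ≠ 0 := IsRatD.G_ne_zero hd (IsRatD.swap h)
  have hC := rf_ne_C hd h
  set f := rf F G with hf
  haveI : ExpChar E (ringExpChar E) := ringExpChar.expChar E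
  haveI : ExpChar E⟮f⟯ (ringExpChar E) :=
    expChar_of_injective_algebraMap (algebraMap E E⟮f⟯).injective _
  have h1 : (minpoly E⟮f⟯ (RatFunc.X : RatFunc E)).natSepDegree = 1 := by
    rw [minpoly.natSepDegree_eq_one_iff_pow_mem (ringExpChar E)]
    exact ⟨n, ⟨⟨_, hn⟩, rfl⟩⟩
  rw [minpoly.natSepDegree_eq_one_iff_eq_X_pow_sub_C (ringExpChar E)] at h1
  obtain ⟨m, y, hmin⟩ := h1
  -- degree of the minimal polynomial
  have hdeg : (minpoly E⟮f⟯ (RatFunc.X : RatFunc E)).natDegree =
      max f.num.natDegree f.denom.natDegree := by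
    rw [← minpoly.eq_of_irreducible (f.irreducible_minpolyX hC) f.minpolyX_aeval_X, mul_comm,
      natDegree_C_mul (inv_ne_zero (leadingCoeff_ne_zero.mpr fun H =>
        hC ((RatFunc.minpolyX_eq_zero_iff f).mp H))), f.natDegree_minpolyX]
  have hf0 : f ≠ 0 := by
    intro h0
    exact hC ⟨0, by rw [h0, map_zero]⟩
  have hnum : f.num ≠ 0 := RatFunc.num_ne_zero hf0
  have hden : f.denom ≠ 0 := f.denom_ne_zero
  have hcross : F * f.denom = G * f.num := by
    apply RatFunc.algebraMap_injective (K := E)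
    rw [map_mul, map_mul, ← rf_mul (F := F) hG, ← hf]
    have h2 : f * algebraMap E[X] (RatFunc E) f.denom = algebraMap E[X] (RatFunc E) f.num := by
      have h3 : algebraMap E[X] (RatFunc E) f.denom ≠ 0 := by simpa using hden
      nth_rw 1 [← f.num_div_denom]
      (clear * - h3; field_simp)
    rw [← h2]
    ring
  have hFd : F ∣ f.num := by
    apply h.cop.dvd_of_dvd_mul_left
    rw [← hcross]
    exact dvd_mul_right _ _
  have hGd : G ∣ f.denom := by
    apply h.cop.symm.dvd_of_dvd_mul_left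
    rw [hcross]
    exact dvd_mul_right _ _
  have hdD : d ≤ max f.num.natDegree f.denom.natDegree := by
    rcases h.top with h3 | h3
    · have h4 := le_natDegree_of_ne_zero h3
      exact h4.trans ((natDegree_le_of_dvd hFd hnum).trans (le_max_left _ _))
    · have h4 := le_natDegree_of_ne_zero h3
      exact h4.trans ((natDegree_le_of_dvd hGd hden).trans (le_max_right _ _))
  -- the polynomial F - f G
  let g : E⟮f⟯ := ⟨f, mem_adjoin_simple_self E f⟩
  let P : E⟮f⟯[X] := F.map (algebraMap E E⟮f⟯) - C g * G.map (algebraMap E E⟮f⟯)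
  have hPc : ∀ i, P.coeff i = algebraMap E E⟮f⟯ (F.coeff i) - g * algebraMap E E⟮f⟯ (G.coeff i) := by
    intro i
    simp [P, coeff_map]
  have hz : ∀ i, P.coeff i = 0 → F.coeff i = 0 ∧ G.coeff i = 0 := by
    intro i hi
    rw [hPc] at hi
    have h5 : RatFunc.C (F.coeff i) = f * RatFunc.C (G.coeff i) := by
      have := congrArg (fun x : E⟮f⟯ => (x : RatFunc E)) hi
      simp only [AddSubgroupClass.coe_sub, MulMemClass.coe_mul, ZeroMemClass.coe_zero] at this
      exact sub_eq_zero.1 this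
    by_cases h6 : G.coeff i = 0
    · refine ⟨?_, h6⟩
      rw [h6, map_zero, mul_zero] at h5
      exact (map_eq_zero _).1 h5
    · exfalso
      apply hC
      refine ⟨F.coeff i / G.coeff i, ?_⟩
      have h7 : RatFunc.C (G.coeff i) ≠ 0 := by
        rwa [Ne, map_eq_zero]
      rw [map_div₀, h5, mul_div_cancel_right₀ _ h7]
  have hP0 : P ≠ 0 := by
    intro h0
    rcases h.top with h3 | h3
    · exact h3 (hz d (by rw [h0, coeff_zero])).1
    · exact h3 (hz d (by rw [h0, coeff_zero])).2
  have hPdeg : P.natDegree ≤ d := by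
    refine (natDegree_sub_le _ _).trans (max_le ?_ ?_)
    · exact natDegree_map_le.trans h.degF
    · refine (natDegree_C_mul_le _ _).trans ?_
      exact natDegree_map_le.trans h.degG
  have hroot : aeval (RatFunc.X : RatFunc E) P = 0 := by
    simp only [P, map_sub, map_mul, aeval_C, aeval_map_algebraMap]
    have h8 : ∀ Q : E[X], aeval (RatFunc.X : RatFunc E) Q = algebraMap E[X] (RatFunc E) Q := by
      intro Q
      rw [RatFunc.aeval_X_left_eq_algebraMap]
    rw [h8, h8, ← rf_mul (F := F) hG]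
    exact sub_self _
  obtain ⟨R, hR⟩ := minpoly.dvd E⟮f⟯ (RatFunc.X : RatFunc E) hroot
  have hR0 : R ≠ 0 := by
    rintro rfl
    rw [mul_zero] at hR
    exact hP0 hR
  have hM0 : minpoly E⟮f⟯ (RatFunc.X : RatFunc E) ≠ 0 := by
    intro h0
    rw [h0, zero_mul] at hR
    exact hP0 hR
  have hRd : R.natDegree = 0 ∧ (minpoly E⟮f⟯ (RatFunc.X : RatFunc E)).natDegree = d := by
    have h9 := natDegree_mul hM0 hR0
    rw [← hR, hdeg] at h9
    omega
  rw [hmin, natDegree_X_pow_sub_C] at hRd
  obtain ⟨hR1, hdm⟩ := hRd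
  rw [eq_C_of_natDegree_eq_zero hR1, hmin, hdm] at hR
  have hmid : ∀ i, i ≠ 0 → i ≠ d → F.coeff i = 0 ∧ G.coeff i = 0 := by
    intro i hi0 hid
    apply hz
    rw [hR, coeff_mul_C, coeff_sub, coeff_X_pow, coeff_C, if_neg hid, if_neg hi0]
    ring
  refine ⟨⟨m, hdm.symm⟩, F.coeff d, F.coeff 0, G.coeff d, G.coeff 0, ?_, ?_⟩
  · ext i
    rw [coeff_add, coeff_C_mul, coeff_X_pow, coeff_C]
    by_cases hi0 : i = 0
    · subst hi0
      rw [if_neg (by omega), if_pos rfl]
      ring
    · rw [if_neg hi0]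
      by_cases hid : i = d
      · subst hid
        rw [if_pos rfl]
        ring
      · rw [if_neg hid, (hmid i hi0 hid).1]
        ring
  · ext i
    rw [coeff_add, coeff_C_mul, coeff_X_pow, coeff_C]
    by_cases hi0 : i = 0
    · subst hi0
      rw [if_neg (by omega), if_pos rfl]
      ring
    · rw [if_neg hi0]
      by_cases hid : i = d
      · subst hid
        rw [if_pos rfl]
        ring
      · rw [if_neg hid, (hmid i hi0 hid).2]
        ring

end ratfunc

end Pool.Agent.Helper31.DT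

end

section

set_option autoImplicit false

set_option linter.style.haveILetI false

namespace Pool.Agent.Helper31.RRK

open Polynomial IntermediateField Pool.Agent.Helper16 Pool.Agent.Helper33 Pool.Agent.Helper45.FF

open Pool.Agent.Helper45.S4 Pool.Agent.Helper47.RR

section unique

variable {k L M : Type} [Field k] [Field L] [Field M] [Algebra k L] [Algebra k M] [Algebra L M]
  [IsScalarTower k L M]

omit [IsScalarTower k L M] in
/-- A derivation which kills a separating element is zero. -/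
theorem deriv_eq_zero (t : L) [Algebra.IsSeparable k⟮t⟯ L] (D : Derivation k L M)
    (h : D t = 0) : D = 0 := by
  have h0 : ∀ y ∈ k⟮t⟯, D y = 0 := by
    intro y hy
    induction hy using IntermediateField.adjoin_induction with
    | mem z hz => rw [Set.mem_singleton_iff.1 hz, h]
    | algebraMap c => simp
    | add a b _ _ ha hb => rw [map_add, ha, hb, add_zero]
    | inv a _ ha => rw [Derivation.leibniz_inv, ha, smul_zero]
    | mul a b _ _ ha hb => rw [Derivation.leibniz, ha, hb, smul_zero, smul_zero, add_zero]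
  let D' : Derivation k⟮t⟯ L M := Derivation.mk'
    { toFun := D
      map_add' := fun a b => map_add D a b
      map_smul' := by
        rintro ⟨y, hy⟩ b
        change D (y * b) = y • D b
        rw [Derivation.leibniz, h0 y hy, smul_zero, add_zero] }
    (fun a b => by
      change D (a * b) = _
      rw [Derivation.leibniz]
      rfl)
  haveI : Algebra.FormallyEtale k⟮t⟯ L := Algebra.FormallyEtale.of_isSeparable _ _
  haveI : Algebra.FormallyUnramified k⟮t⟯ L := inferInstance
  haveI : Subsingleton (Ω[L⁄k⟮t⟯]) := inferInstance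
  have h1 : D' = 0 := by
    have := (D'.liftKaehlerDifferential_comp)
    rw [← this]
    ext a
    have h2 : KaehlerDifferential.D k⟮t⟯ L a = 0 := Subsingleton.elim _ _
    simp [h2]
  ext a
  exact congrArg (fun E : Derivation k⟮t⟯ L M => E a) h1

end unique

end Pool.Agent.Helper31.RRK

end

section

set_option autoImplicit false

set_option linter.style.haveILetI false

namespace Pool.Agent.Helper31.DT

open Polynomial IntermediateField Pool.Agent.Helper93.RatODE Pool.Agent.Helper38.DT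
  Pool.Agent.Helper16

section transfer

variable {E M : Type} [Field E] [Field M] [Algebra E M]

/-- the embedding of the rational function field given by a transcendental element -/
noncomputable def emb (z : M) (hz : Transcendental E z) : RatFunc E →ₐ[E] M :=
  IsFractionRing.liftAlgHom (A := E[X]) (g := aeval z) (transcendental_iff_injective.1 hz)

theorem emb_algebraMap (z : M) (hz : Transcendental E z) (P : E[X]) :
    emb z hz (algebraMap E[X] (RatFunc E) P) = aeval z P := by
  unfold emb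
  rw [IsFractionRing.liftAlgHom_apply, IsFractionRing.lift_algebraMap]
  rfl

theorem emb_X (z : M) (hz : Transcendental E z) : emb z hz RatFunc.X = z := by
  rw [← RatFunc.algebraMap_X, emb_algebraMap, aeval_X]

theorem emb_rf (z : M) (hz : Transcendental E z) (F G : E[X]) :
    emb z hz (rf F G) = aeval z F / aeval z G := by
  unfold rf
  rw [map_div₀, emb_algebraMap, emb_algebraMap]

theorem pinsep_of_pow_mem' (z : M) (hz : Transcendental E z) (F G : E[X]) (d : ℕ) (hd : 2 ≤ d)
    (h : IsRatD F G d) (n : ℕ)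
    (hn : z ^ (ringExpChar E) ^ n ∈ E⟮aeval z F / aeval z G⟯) : PInsep F G d := by
  apply pinsep_of_pow_mem F G d hd h n
  have h1 : (E⟮rf F G⟯).map (emb z hz) = E⟮aeval z F / aeval z G⟯ := by
    rw [IntermediateField.adjoin_map, Set.image_singleton, emb_rf]
  rw [← h1] at hn
  obtain ⟨y, hy, hy2⟩ := hn
  have h2 : emb z hz (RatFunc.X ^ (ringExpChar E) ^ n) = z ^ (ringExpChar E) ^ n := by
    rw [map_pow, emb_X]
  have h3 : (RatFunc.X : RatFunc E) ^ (ringExpChar E) ^ n = y := by
    apply (emb z hz).injective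
    exact h2.trans hy2.symm
  rw [h3]
  exact hy

end transfer

end Pool.Agent.Helper31.DT

end

section

set_option autoImplicit false

set_option linter.style.haveILetI false

namespace Pool.Agent.Helper45.M8

open Finset Polynomial Pool.Agent.Helper93.RatODE Pool.Agent.Helper45.FR

section lin

variable {L : Type*} [Field L]

/-- a matrix acting on pairs -/
def mp (A : Matrix (Fin 2) (Fin 2) L) (w : L × L) : L × L :=
  (A 0 0 * w.1 + A 0 1 * w.2, A 1 0 * w.1 + A 1 1 * w.2)

theorem cr_mp (A : Matrix (Fin 2) (Fin 2) L) (u w : L × L) :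
    cr (mp A u) (mp A w) = A.det * cr u w := by
  rw [Matrix.det_fin_two]
  simp only [cr, mp]
  ring

theorem mp_smul (A : Matrix (Fin 2) (Fin 2) L) (c : L) (w : L × L) : mp A (c • w) = c • mp A w := by
  simp only [mp, Prod.smul_fst, Prod.smul_snd, smul_eq_mul, Prod.smul_mk]
  ext
  · simp only; ring
  · simp only; ring

end lin

end Pool.Agent.Helper45.M8

end

section

set_option autoImplicit false

set_option linter.style.haveILetI false

namespace Pool.Agent.Helper45.M8

open Finset Polynomial Pool.Agent.Helper93.RatODE Pool.Agent.Helper45.FR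

/-- cross ratio, `a ↦ 0`, `b ↦ ∞`, `c ↦ 1` -/
noncomputable def crr {K : Type*} [Field K] (a b c y : K) : K :=
  (y - a) * (c - b) / ((y - b) * (c - a))

/-- invariance of the cross ratio -/
theorem crr_eq_of_mp {L : Type*} [Field L] (B : Matrix (Fin 2) (Fin 2) L) (hB : B.det ≠ 0)
    {a b c y a' b' c' y' : L}
    (ha : ∃ s : L, s ≠ 0 ∧ mp B (a, (1 : L)) = s • (a', (1 : L)))
    (hb : ∃ s : L, s ≠ 0 ∧ mp B (b, (1 : L)) = s • (b', (1 : L)))
    (hc : ∃ s : L, s ≠ 0 ∧ mp B (c, (1 : L)) = s • (c', (1 : L)))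
    (hy : ∃ s : L, s ≠ 0 ∧ mp B (y, (1 : L)) = s • (y', (1 : L))) :
    crr a b c y = crr a' b' c' y' := by
  obtain ⟨sa, hsa, ha⟩ := ha
  obtain ⟨sb, hsb, hb⟩ := hb
  obtain ⟨sc, hsc, hc⟩ := hc
  obtain ⟨sy, hsy, hy⟩ := hy
  have key : ∀ {u w u' w' s r : L}, mp B (u, (1 : L)) = s • (u', (1 : L)) →
      mp B (w, (1 : L)) = r • (w', (1 : L)) → B.det * (u - w) = s * r * (u' - w') := by
    intro u w u' w' s r h1 h2
    have h3 := cr_mp B (u, (1 : L)) (w, (1 : L))
    rw [h1, h2, cr_smul_left, cr_smul_right] at h3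
    simp only [cr] at h3
    linear_combination -h3
  have e1 := key hy ha
  have e2 := key hc hb
  have e3 := key hy hb
  have e4 := key hc ha
  unfold crr
  have hB2 : B.det * B.det ≠ 0 := mul_ne_zero hB hB
  rw [← mul_div_mul_left ((y - a) * (c - b)) ((y - b) * (c - a)) hB2]
  have e5 : B.det * B.det * ((y - a) * (c - b)) = (sy * sa * sc * sb) * ((y' - a') * (c' - b')) := by
    linear_combination (B.det * (c - b)) * e1 + (sy * sa * (y' - a')) * e2
  have e6 : B.det * B.det * ((y - b) * (c - a)) = (sy * sa * sc * sb) * ((y' - b') * (c' - a')) := by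
    linear_combination (B.det * (c - a)) * e3 + (sy * sb * (y' - b')) * e4
  rw [e5, e6, mul_div_mul_left]
  exact mul_ne_zero (mul_ne_zero (mul_ne_zero hsy hsa) hsc) hsb

variable {k L₁ L : Type*} [Field k] [Field L₁] [Field L] [Algebra k L₁] [Algebra L₁ L]
  [Algebra k L] [IsScalarTower k L₁ L]

theorem map_crr (a b c y : L₁) : algebraMap L₁ L (crr a b c y) =
    crr (algebraMap L₁ L a) (algebraMap L₁ L b) (algebraMap L₁ L c) (algebraMap L₁ L y) := by
  unfold crr
  simp only [map_div₀, map_mul, map_sub]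

end Pool.Agent.Helper45.M8

end

section

set_option autoImplicit false

namespace Pool.Agent.Helper91.DT

open Polynomial IntermediateField Pool.Agent.Helper93.RatODE Pool.Agent.Helper45.FR
  Pool.Agent.Helper38.DT

section pt

variable {K : Type} [Field K]

open Classical in
/-- the point of the projective line -/
noncomputable def pt (v : K × K) : Option K := if v.2 = 0 then none else some (v.1 / v.2)

theorem pt_eq_iff {v w : K × K} (hv : v ≠ 0) (hw : w ≠ 0) : pt v = pt w ↔ cr v w = 0 := by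
  unfold pt cr
  by_cases h1 : v.2 = 0
  · have h1' : v.1 ≠ 0 := fun h => hv (Prod.ext h h1)
    by_cases h2 : w.2 = 0
    · simp [h1, h2]
    · simp [h1, h2, h1']
  · by_cases h2 : w.2 = 0
    · have h2' : w.1 ≠ 0 := fun h => hw (Prod.ext h h2)
      simp [h1, h2, h2']
    · rw [if_neg h1, if_neg h2, Option.some_inj, div_eq_div_iff h1 h2, sub_eq_zero]
      constructor
      · intro h; rw [h]; ring
      · intro h; rw [h]; ring

theorem pt_smul {c : K} (hc : c ≠ 0) (v : K × K) : pt (c • v) = pt v := by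
  unfold pt
  by_cases h1 : v.2 = 0
  · simp [h1]
  · simp only [Prod.smul_fst, Prod.smul_snd, smul_eq_mul, mul_eq_zero, hc, h1, or_self, if_false]
    rw [mul_div_mul_left _ _ hc]

theorem pt_map {K' : Type} [Field K'] (f : K →+* K') (v : K × K) :
    pt (f v.1, f v.2) = (pt v).map f := by
  unfold pt
  by_cases h1 : v.2 = 0
  · simp [h1]
  · simp [h1]

end pt

end Pool.Agent.Helper91.DT

end

section

set_option autoImplicit false

namespace Pool.Agent.Helper91.DT

open Polynomial IntermediateField Pool.Agent.Helper93.RatODE Pool.Agent.Helper45.FR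
  Pool.Agent.Helper38.DT

theorem isRatD_of_map {K E : Type} [Field K] [Field E] [Algebra K E] {F G : K[X]} {d : ℕ}
    (h : IsRatD (F.map (algebraMap K E)) (G.map (algebraMap K E)) d) : IsRatD F G d where
  cop := (isCoprime_map _).1 h.cop
  degF := by have := h.degF; rwa [natDegree_map] at this
  degG := by have := h.degG; rwa [natDegree_map] at this
  top := by
    have := h.top
    rw [coeff_map, coeff_map] at this
    rcases this with h | h
    · exact Or.inl fun h0 => h (by rw [h0, map_zero])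
    · exact Or.inr fun h0 => h (by rw [h0, map_zero])

end Pool.Agent.Helper91.DT

end

section

set_option autoImplicit false

namespace Pool.Agent.Helper91.DT

open Polynomial IntermediateField Pool.Agent.Helper93.RatODE Pool.Agent.Helper45.FR
  Pool.Agent.Helper38.DT

section conj

variable {k E : Type} [Field k] [Field E] [Algebra k E]

/-- the action of a matrix on pairs -/
def mat (A : Matrix (Fin 2) (Fin 2) E) (v : E × E) : E × E :=
  (A 0 0 * v.1 + A 0 1 * v.2, A 1 0 * v.1 + A 1 1 * v.2)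

theorem cr_mat (A : Matrix (Fin 2) (Fin 2) E) (v w : E × E) :
    cr (mat A v) (mat A w) = A.det * cr v w := by
  rw [Matrix.det_fin_two]
  simp only [mat, cr]
  ring

theorem mat_ne_zero {A : Matrix (Fin 2) (Fin 2) E} (hA : A.det ≠ 0) {v : E × E} (hv : v ≠ 0) :
    mat A v ≠ 0 := by
  intro h
  have h1 : A 0 0 * v.1 + A 0 1 * v.2 = 0 := congrArg Prod.fst h
  have h2 : A 1 0 * v.1 + A 1 1 * v.2 = 0 := congrArg Prod.snd h
  rw [Matrix.det_fin_two] at hA
  apply hv
  refine Prod.ext ?_ ?_
  · refine (mul_eq_zero.1 (?_ : (A 0 0 * A 1 1 - A 0 1 * A 1 0) * v.1 = 0)).resolve_left hA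
    linear_combination A 1 1 * h1 - A 0 1 * h2
  · refine (mul_eq_zero.1 (?_ : (A 0 0 * A 1 1 - A 0 1 * A 1 0) * v.2 = 0)).resolve_left hA
    linear_combination A 0 0 * h2 - A 1 0 * h1

end conj

end Pool.Agent.Helper91.DT

end

section

set_option autoImplicit false

namespace Pool.Agent.Helper35.DT

open Polynomial Pool.Agent.Helper93.RatODE Pool.Agent.Helper45.FR Pool.Agent.Helper38.DT

section points

variable {k : Type} [Field k]

open Classical in
/-- the point of the projective line with the given coordinates -/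
noncomputable def pt (v : k × k) : Option k := if v.2 = 0 then none else some (v.1 / v.2)

/-- coordinates of a point -/
def lf : Option k → k × k
  | none => (1, 0)
  | some x => (x, 1)

theorem lf_ne (t : Option k) : lf t ≠ 0 := by
  cases t with
  | none => intro h; exact one_ne_zero (congrArg Prod.fst h)
  | some x => intro h; exact one_ne_zero (congrArg Prod.snd h)

theorem pt_lf (t : Option k) : pt (lf t) = t := by
  cases t with
  | none => simp [pt, lf]
  | some x => simp [pt, lf]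

theorem cr_lf_pt {v : k × k} (_hv : v ≠ 0) : cr (lf (pt v)) v = 0 := by
  by_cases h : v.2 = 0
  · simp [pt, h, lf, cr]
  · simp only [pt, h, if_false, lf, cr]
    field_simp
    ring

theorem pt_eq_iff {v w : k × k} (hv : v ≠ 0) (hw : w ≠ 0) : pt v = pt w ↔ cr v w = 0 := by
  constructor
  · intro h
    have h1 := cr_lf_pt hv
    have h2 := cr_lf_pt hw
    rw [h] at h1
    rw [cr_comm, neg_eq_zero] at h1
    exact cr_trans hv (lf_ne _) h1 h2
  · intro h
    obtain ⟨c, hc, rfl⟩ := exists_smul_of_cr hv hw h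
    by_cases h2 : v.2 = 0
    · simp [pt, h2]
    · have h3 : c * v.2 ≠ 0 := mul_ne_zero hc h2
      simp only [pt, h2, if_false, Prod.smul_snd, Prod.smul_fst, smul_eq_mul, h3]
      rw [mul_div_mul_left _ _ hc]

end points

section core

variable {k : Type} [Field k] [IsAlgClosed k]

open Classical in
/-- The number of solutions of `y ^ m = c` when `m` is nonzero in `k`. -/
theorem card_pow_eq {m : ℕ} (hm : (m : k) ≠ 0) {c : k} (hc : c ≠ 0) :
    (X ^ m - C c : k[X]).roots.toFinset.card = m := by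
  have hsep : (X ^ m - C c : k[X]).Separable := separable_X_pow_sub_C c hm hc
  have h1 : (X ^ m - C c : k[X]).roots.Nodup := nodup_roots hsep
  have h2 : Multiset.card (X ^ m - C c : k[X]).roots = (X ^ m - C c : k[X]).natDegree :=
    (splits_iff_card_roots.1 (IsAlgClosed.splits _))
  rw [Multiset.toFinset_card_of_nodup h1, h2, natDegree_X_pow_sub_C]

/-- The polynomial case. -/
theorem core_poly (P : k[X]) (D : ℕ) (hD : 2 ≤ D) (hP : P.natDegree = D)
    (h1 : ∀ x, P.eval (P.eval x) = x → P.eval x = x)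
    (h2 : ∀ x y, P.eval x = x → P.eval y = x → y = x) : False := by
  classical
  -- a fixed point
  obtain ⟨x₀, hx₀⟩ : ∃ x₀, P.eval x₀ = x₀ := by
    have hdeg : (P - X).natDegree = D := by
      rw [natDegree_sub_eq_left_of_natDegree_lt (by rw [natDegree_X, hP]; omega), hP]
    obtain ⟨x, hx⟩ := IsAlgClosed.exists_root (P - X) (by
      intro h
      rw [degree_eq_natDegree (by intro h0; rw [h0, natDegree_zero] at hdeg; omega), hdeg] at h
      have : D = 0 := by exact_mod_cast h
      omega)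
    refine ⟨x, ?_⟩
    rw [IsRoot.def, eval_sub, eval_X, sub_eq_zero] at hx
    exact hx
  set c := P.leadingCoeff with hcdef
  have hP0 : P ≠ 0 := by rintro rfl; rw [natDegree_zero] at hP; omega
  have hc : c ≠ 0 := leadingCoeff_ne_zero.2 hP0
  have hshape : P - C x₀ = C c * (X - C x₀) ^ D := by
    have hdeg : (P - C x₀).natDegree = D := by rw [natDegree_sub_C, hP]
    have hne : P - C x₀ ≠ 0 := by intro h0; rw [h0, natDegree_zero] at hdeg; omega
    have hlc : (P - C x₀).leadingCoeff = c := by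
      rw [hcdef, leadingCoeff, leadingCoeff, hdeg, hP, coeff_sub, coeff_C, if_neg (by omega),
        sub_zero]
    have hroots : (P - C x₀).roots = Multiset.replicate D x₀ := by
      rw [Multiset.eq_replicate]
      constructor
      · rw [← hdeg]; exact splits_iff_card_roots.1 (IsAlgClosed.splits _)
      · intro b hb
        rw [mem_roots hne, IsRoot.def, eval_sub, eval_C, sub_eq_zero] at hb
        exact h2 x₀ b hx₀ hb
    have := C_leadingCoeff_mul_prod_multiset_X_sub_C
      (splits_iff_card_roots.1 (IsAlgClosed.splits (P - C x₀)))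
    rw [← this, hlc, hroots, Multiset.map_replicate, Multiset.prod_replicate]
  have hev : ∀ x, P.eval x = x₀ + c * (x - x₀) ^ D := by
    intro x
    have := congrArg (eval x) hshape
    simp only [eval_sub, eval_C, eval_mul, eval_pow, eval_X] at this
    linear_combination this
  have hDk : (D : k) = 0 := by
    by_contra hDk
    obtain ⟨y, hy⟩ := IsAlgClosed.exists_pow_nat_eq (c⁻¹) (n := D - 1) (by omega)
    have hy0 : y ≠ 0 := by
      rintro rfl
      rw [zero_pow (by omega)] at hy
      exact inv_ne_zero hc hy.symm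
    have hyD : c * y ^ D = y := by
      have : y ^ D = y ^ (D - 1) * y := by rw [← pow_succ]; congr 1; omega
      rw [this, hy]
      field_simp
    have hcard := card_pow_eq hDk (c := y / c) (div_ne_zero hy0 hc)
    have hsub : (X ^ D - C (y / c) : k[X]).roots.toFinset ⊆ {y} := by
      intro z hz
      rw [Multiset.mem_toFinset, mem_roots (X_pow_sub_C_ne_zero (by omega) _), IsRoot.def,
        eval_sub, eval_pow, eval_X, eval_C, sub_eq_zero] at hz
      have h3 := h2 (x₀ + y) (x₀ + z) (by rw [hev]; simp [hyD]) (by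
        rw [hev, add_sub_cancel_left, hz]
        field_simp)
      rw [Finset.mem_singleton]
      exact add_left_cancel h3
    have := Finset.card_le_card hsub
    rw [hcard, Finset.card_singleton] at this
    omega
  have hD2 : ((D * D - 1 : ℕ) : k) ≠ 0 := by
    rw [Nat.cast_sub (by (clear * - hD; nlinarith)), Nat.cast_mul, hDk]
    simp
  have hcard := card_pow_eq hD2 (c := (c ^ (D + 1))⁻¹) (inv_ne_zero (pow_ne_zero _ hc))
  have hsub : (X ^ (D * D - 1) - C (c ^ (D + 1))⁻¹ : k[X]).roots.toFinset ⊆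
      (X ^ (D - 1) - C c⁻¹ : k[X]).roots.toFinset := by
    intro z hz
    rw [Multiset.mem_toFinset, mem_roots (X_pow_sub_C_ne_zero (by
        have : 4 ≤ D * D := by (clear * - hD; nlinarith)
        omega) _), IsRoot.def,
      eval_sub, eval_pow, eval_X, eval_C, sub_eq_zero] at hz
    have hz0 : z ≠ 0 := by
      rintro rfl
      rw [zero_pow (by
        have : 4 ≤ D * D := by (clear * - hD; nlinarith)
        omega)] at hz
      exact inv_ne_zero (pow_ne_zero _ hc) hz.symm
    have h3 : P.eval (P.eval (x₀ + z)) = x₀ + z := by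
      rw [hev, hev, add_sub_cancel_left, add_sub_cancel_left, mul_pow, ← pow_mul]
      have h4 : z ^ (D * D) = z ^ (D * D - 1) * z := by
        rw [← pow_succ]; congr 1
        have : 4 ≤ D * D := by (clear * - hD; nlinarith)
        omega
      rw [h4, hz]
      have : c ^ (D + 1) ≠ 0 := pow_ne_zero _ hc
      field_simp
      ring
    have h5 := h1 _ h3
    rw [hev, add_sub_cancel_left] at h5
    have h6 : c * z ^ D = z := add_left_cancel h5
    have h7 : z ^ D = z ^ (D - 1) * z := by rw [← pow_succ]; congr 1; omega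
    rw [Multiset.mem_toFinset, mem_roots (X_pow_sub_C_ne_zero (by omega) _), IsRoot.def,
      eval_sub, eval_pow, eval_X, eval_C, sub_eq_zero]
    rw [h7, ← mul_assoc] at h6
    have h8 : c * z ^ (D - 1) = 1 := mul_right_cancel₀ hz0 (by rw [h6, one_mul])
    field_simp
    linear_combination h8
  have h9 := Finset.card_le_card hsub
  rw [hcard] at h9
  have h10 : (X ^ (D - 1) - C c⁻¹ : k[X]).roots.toFinset.card ≤ D - 1 := by
    refine (Multiset.toFinset_card_le _).trans ?_
    refine (card_roots' _).trans ?_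
    rw [natDegree_X_pow_sub_C]
  have h11 : 2 * D ≤ D * D := Nat.mul_le_mul_right D hD
  omega

end core

end Pool.Agent.Helper35.DT

end

section

set_option autoImplicit false

set_option linter.style.haveILetI false

namespace Pool.Agent.Helper38.DT

open Polynomial IntermediateField Pool.Agent.Helper16 Pool.Agent.Helper45.S4 Pool.Agent.Helper45.FR
  Pool.Agent.Helper93.RatODE Pool.Agent.Helper45.S6 Pool.Agent.Helper47.EN Pool.Agent.Helper34.Dep

theorem pInsep_of_map {L E : Type} [Field L] [Field E] [Algebra L E] {F G : L[X]} {d : ℕ}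
    (hd : 2 ≤ d) (h : PInsep (F.map (algebraMap L E)) (G.map (algebraMap L E)) d) :
    PInsep F G d := by
  obtain ⟨⟨ν, hν⟩, a, b, c, e, hF, hG⟩ := h
  have hchar : ringExpChar E = ringExpChar L := by
    haveI : ExpChar L (ringExpChar L) := ringExpChar.expChar L
    haveI : ExpChar E (ringExpChar L) :=
      expChar_of_injective_algebraMap (algebraMap L E).injective _
    exact ringExpChar.eq E (ringExpChar L)
  have key : ∀ (H : L[X]) (a b : E), H.map (algebraMap L E) = C a * X ^ d + C b →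
      H = C (H.coeff d) * X ^ d + C (H.coeff 0) := by
    intro H a b hH
    ext i
    rw [coeff_add, coeff_C_mul, coeff_X_pow, coeff_C]
    by_cases h1 : i = d
    · subst h1
      simp [show i ≠ 0 by omega]
    · by_cases h2 : i = 0
      · subst h2
        simp [h1]
      · have h3 := congrArg (fun p => Polynomial.coeff p i) hH
        simp only [coeff_map, coeff_add, coeff_C_mul, coeff_X_pow, coeff_C, h1, h2, if_false,
          mul_zero, add_zero] at h3
        have h4 : H.coeff i = 0 := (map_eq_zero _).1 h3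
        simp [h1, h2, h4]
  exact ⟨⟨ν, by rw [hν, hchar]⟩, _, _, _, _, key F a b hF, key G c e hG⟩

theorem isRatD_map {L E : Type} [Field L] [Field E] [Algebra L E] {F G : L[X]} {d : ℕ}
    (h : IsRatD F G d) : IsRatD (F.map (algebraMap L E)) (G.map (algebraMap L E)) d := by
  refine ⟨(Polynomial.isCoprime_map _).2 h.cop, natDegree_map_le.trans h.degF,
    natDegree_map_le.trans h.degG, ?_⟩
  rw [coeff_map, coeff_map]
  rcases h.top with h1 | h1
  · left; simpa using h1
  · right; simpa using h1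

end Pool.Agent.Helper38.DT

end

section

set_option autoImplicit false

set_option linter.style.haveILetI false

namespace Pool.Agent.Helper34.Dep

open Polynomial Pool.Agent.Helper16 Pool.Agent.Helper47.RR IntermediateField

variable {k M M' K : Type} [Field k] [Field M] [Field M'] [Field K] [Algebra k M] [Algebra k M']
  [Algebra k K]

theorem finrank_extend (φ : M →ₐ[k] K) (T : M) (h : k⟮φ T⟯ ≤ φ.fieldRange) :
    Module.finrank k⟮φ T⟯ (extendScalars h) = Module.finrank k⟮T⟯ M := by
  have h1 : (k⟮T⟯).map φ = k⟮φ T⟯ := by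
    rw [IntermediateField.adjoin_map, Set.image_singleton]
  let i : k⟮T⟯ ≃ₐ[k] k⟮φ T⟯ :=
    (IntermediateField.equivMap k⟮T⟯ φ).trans (IntermediateField.equivOfEq h1)
  let j : M ≃+* (extendScalars h) := (AlgEquiv.ofInjectiveField φ).toRingEquiv
  symm
  apply Algebra.finrank_eq_of_equiv_equiv i.toRingEquiv j
  ext x
  rfl

/-- degree of a compositum -/
theorem finrank_compositum (φ : M →ₐ[k] K) (φ' : M' →ₐ[k] K) (T : M) (T' : M')
    (hTT : φ T = φ' T') (htop : φ.fieldRange ⊔ φ'.fieldRange = ⊤) :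
    Module.finrank k⟮φ T⟯ K ≤ Module.finrank k⟮T⟯ M * Module.finrank k⟮T'⟯ M' := by
  have h1 : k⟮φ T⟯ ≤ φ.fieldRange := by
    rw [IntermediateField.adjoin_simple_le_iff]
    exact ⟨T, rfl⟩
  have h2 : k⟮φ' T'⟯ ≤ φ'.fieldRange := by
    rw [IntermediateField.adjoin_simple_le_iff]
    exact ⟨T', rfl⟩
  have h3 : k⟮φ T⟯ ≤ φ'.fieldRange := by rw [hTT]; exact h2
  have h4 := IntermediateField.finrank_sup_le (extendScalars h1) (extendScalars h3)
  have h5 : extendScalars h1 ⊔ extendScalars h3 = ⊤ := by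
    apply top_le_iff.1
    intro x _
    rw [extendScalars_sup, mem_extendScalars, htop]
    trivial
  rw [h5, IntermediateField.finrank_top', finrank_extend φ T h1] at h4
  have h6 : Module.finrank k⟮φ T⟯ (extendScalars h3) = Module.finrank k⟮T'⟯ M' := by
    rw [← finrank_extend φ' T' h2]
    have : ∀ (a b : K) (hab : a = b) (ha : k⟮a⟯ ≤ φ'.fieldRange) (hb : k⟮b⟯ ≤ φ'.fieldRange),
        Module.finrank k⟮a⟯ (extendScalars ha) = Module.finrank k⟮b⟯ (extendScalars hb) := by
      intro a b hab ha hb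
      subst hab
      rfl
    exact this _ _ hTT _ _
  rwa [h6] at h4

end Pool.Agent.Helper34.Dep

end

section

set_option autoImplicit false

open Finset

namespace Pool.Agent.Helper33.PT

theorem star_local {C₁ c₀ ε err : ℝ} (hC₁ : 0 ≤ C₁) (hc₀ : 0 < c₀) (hε : 0 ≤ ε)
    (herr : 0 ≤ err) (g : ℕ → ℕ → ℝ) (s' : Finset ℕ) (a : ℕ → ℝ)
    (h1 : ∀ i ∈ s', ∀ j ∈ s', i ≠ j → a i + a j - err ≤ g i j ∧ g i j ≤ a i + a j + err)
    (hlow : ∀ i ∈ s', ∀ j ∈ s', i ≠ j → -(C₁ * ε) ≤ g i j) (N₀ M : ℕ)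
    (hst : ∀ u ⊆ s', N₀ < u.card → ∃ i ∈ u, ∃ j ∈ u, i ≠ j ∧ c₀ * ε ≤ g i j)
    (hn : s'.card = N₀ + 1 + M) :
    ((c₀ + C₁) * ((M + 1) * M) - (N₀ + 1 + M) * (N₀ + M) * C₁) * ε -
      2 * ((N₀ + 1 + M) * (N₀ + M)) * err ≤ ∑ i ∈ s', ∑ j ∈ s'.erase i, g i j := by
  classical
  set Gd := s'.filter fun i => c₀ * ε / 2 - err / 2 ≤ a i with hGd
  set B := s'.filter fun i => ¬ (c₀ * ε / 2 - err / 2 ≤ a i) with hB
  have hBc : B.card ≤ N₀ := by
    by_contra hcon
    obtain ⟨i, hi, j, hj, hij, hg⟩ := hst B (Finset.filter_subset _ _) (by omega)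
    rw [hB, Finset.mem_filter] at hi hj
    have := (h1 i hi.1 j hj.1 hij).2
    have h2 := hi.2
    have h3 := hj.2
    push Not at h2 h3
    (clear * - hi hj hg this; linarith)
  have hGB : Gd.card + B.card = s'.card := Finset.card_filter_add_card_filter_not _
  have hGc : M + 1 ≤ Gd.card := by omega
  have hpt : ∀ i ∈ s', ∀ j ∈ s'.erase i,
      -(C₁ * ε) + (if i ∈ Gd then (if j ∈ Gd then (c₀ + C₁) * ε else 0) else 0) - 2 * err ≤
        g i j := by
    intro i hi j hj
    rw [Finset.mem_erase] at hj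
    have h2 := h1 i hi j hj.2 (Ne.symm hj.1)
    have h3 := hlow i hi j hj.2 (Ne.symm hj.1)
    by_cases hi' : i ∈ Gd
    · by_cases hj' : j ∈ Gd
      · rw [if_pos hi', if_pos hj']
        rw [hGd, Finset.mem_filter] at hi' hj'
        have := hi'.2
        have := hj'.2
        (clear * - h2 hi' hj'; linarith [h2.1])
      · rw [if_pos hi', if_neg hj']
        (clear * - herr h3; linarith)
    · rw [if_neg hi']
      (clear * - herr h3; linarith)
  refine le_trans ?_ (Finset.sum_le_sum fun i hi => Finset.sum_le_sum fun j hj => hpt i hi j hj)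
  have hce : ∀ i ∈ s', ((s'.erase i).card : ℝ) = N₀ + M := by
    intro i hi
    rw [Finset.card_erase_of_mem hi, hn]
    have : N₀ + 1 + M - 1 = N₀ + M := by omega
    rw [this]; push_cast; ring
  have hin : ∀ i ∈ s', ∑ j ∈ s'.erase i,
      (-(C₁ * ε) + (if i ∈ Gd then (if j ∈ Gd then (c₀ + C₁) * ε else 0) else 0) - 2 * err) =
      (N₀ + M) * (-(C₁ * ε) - 2 * err) +
        (if i ∈ Gd then (Gd.card - 1 : ℝ) * ((c₀ + C₁) * ε) else 0) := by
    intro i hi
    have e1 : ∀ j, (-(C₁ * ε) + (if i ∈ Gd then (if j ∈ Gd then (c₀ + C₁) * ε else 0) else 0) -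
        2 * err) = (-(C₁ * ε) - 2 * err) +
          (if i ∈ Gd then (if j ∈ Gd then (c₀ + C₁) * ε else 0) else 0) := fun j => by ring
    simp_rw [e1]
    rw [Finset.sum_add_distrib, Finset.sum_const, nsmul_eq_mul, hce i hi]
    congr 1
    split_ifs with hi'
    · rw [← Finset.sum_filter, Finset.sum_const, nsmul_eq_mul]
      congr 1
      have e2 : (s'.erase i).filter (fun j => j ∈ Gd) = Gd.erase i := by
        ext j
        simp only [Finset.mem_filter, Finset.mem_erase]
        constructor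
        · rintro ⟨⟨h2, _⟩, h4⟩
          exact ⟨h2, h4⟩
        · rintro ⟨h2, h4⟩
          exact ⟨⟨h2, (Finset.mem_filter.1 h4).1⟩, h4⟩
      rw [e2, Finset.card_erase_of_mem hi', Nat.cast_sub (by omega)]
      simp
    · simp
  rw [Finset.sum_congr rfl hin, Finset.sum_add_distrib, Finset.sum_const, nsmul_eq_mul, hn,
    ← Finset.sum_filter]
  have e3 : s'.filter (fun i => i ∈ Gd) = Gd := by
    ext j
    simp only [Finset.mem_filter]
    exact ⟨fun h => h.2, fun h => ⟨(Finset.mem_filter.1 h).1, h⟩⟩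
  rw [e3, Finset.sum_const, nsmul_eq_mul]
  have h4 : ((M : ℝ) + 1) ≤ Gd.card := by exact_mod_cast hGc
  have h5 : ((M : ℝ) + 1) * M ≤ Gd.card * (Gd.card - 1 : ℝ) := by
    have : (0 : ℝ) ≤ M := Nat.cast_nonneg _
    (clear * - h4; nlinarith)
  have h6 : 0 ≤ (c₀ + C₁) * ε := by (clear * - hc₀ hC₁ hε; positivity)
  have h7 := mul_le_mul_of_nonneg_right h5 h6
  push_cast
  (clear * - h7; nlinarith [h7])

/-- T-STAR -/
theorem exists_big_cross (C₁ c₀ : ℝ) (hC₁ : 0 ≤ C₁) (hc₀ : 0 < c₀) (N₀ : ℕ) :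
    ∃ (n₁ : ℕ) (c₁ : ℝ), 0 < c₁ ∧
    ∀ {V : Type} (T : Finset V) (ε : V → ℝ) (g : V → ℕ → ℕ → ℝ) (s : Finset ℕ),
    (∀ v ∈ T, 0 ≤ ε v) → (∀ v i j, g v i j = g v j i) →
    (∀ i ∈ s, ∀ j ∈ s, i ≠ j → ∑ v ∈ T, g v i j = 0) →
    (∀ v ∈ T, ∀ i ∈ s, ∀ j ∈ s, i ≠ j → -(C₁ * ε v) ≤ g v i j) →
    (∀ v ∈ T, ∀ s' ⊆ s, N₀ < s'.card → ∃ i ∈ s', ∃ j ∈ s', i ≠ j ∧ c₀ * ε v ≤ g v i j) →
    n₁ ≤ s.card →
    ∃ i ∈ s, ∃ j ∈ s, ∃ l ∈ s, ∃ m ∈ s, i ≠ j ∧ i ≠ l ∧ i ≠ m ∧ j ≠ l ∧ j ≠ m ∧ l ≠ m ∧
      c₁ * ∑ v ∈ T, ε v ≤ ∑ v ∈ T, |g v i l + g v j m - g v i m - g v j l| := by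
  classical
  -- choice of `M`
  set D : ℝ := 2 * N₀ + N₀ ^ 2 + N₀ with hD
  obtain ⟨M, hM⟩ := exists_nat_ge ((C₁ * D + 1) / c₀ + 1)
  have hM1 : (1 : ℝ) ≤ M := by
    have : 0 ≤ (C₁ * D + 1) / c₀ := by (clear * - hC₁ hc₀; positivity)
    (clear * - hM this; linarith)
  have hM2 : C₁ * D + 1 ≤ c₀ * M := by
    have : (C₁ * D + 1) / c₀ ≤ M := by linarith
    rw [div_le_iff₀ hc₀] at this
    (clear * - this; linarith)
  have hcoef : 1 ≤ (c₀ + C₁) * ((M + 1) * M) - (N₀ + 1 + M) * (N₀ + M) * C₁ := by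
    have e : (c₀ + C₁) * (((M : ℝ) + 1) * M) - (N₀ + 1 + M) * (N₀ + M) * C₁ =
        c₀ * (M * (M + 1)) - C₁ * (2 * N₀ * M + N₀ ^ 2 + N₀) := by ring
    rw [e]
    have h1 : C₁ * (2 * N₀ * M + N₀ ^ 2 + N₀) ≤ C₁ * (D * M) := by
      apply mul_le_mul_of_nonneg_left _ hC₁
      have : (0 : ℝ) ≤ N₀ := Nat.cast_nonneg _
      rw [hD]
      (clear * - hM1 this; nlinarith [mul_nonneg (sq_nonneg (N₀ : ℝ)) (sub_nonneg.2 hM1),
        mul_nonneg this (sub_nonneg.2 hM1)])
    have h2 : (C₁ * D + 1) * M ≤ c₀ * M * M := mul_le_mul_of_nonneg_right hM2 (by (clear * - hM1; linarith))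
    (clear * - hM1 h1 h2 hc₀; nlinarith [mul_pos hc₀ (lt_of_lt_of_le one_pos hM1)])
  set n : ℕ := N₀ + 1 + M with hn
  have hn2 : 2 ≤ n := by
    have : 1 ≤ M := by exact_mod_cast hM1
    omega
  have hnR : (0 : ℝ) < n := by (clear * -; positivity)
  refine ⟨n + 2, 1 / (2 * n ^ 2 * (n + 2) ^ 4), by (clear * -; positivity), ?_⟩
  intro V T ε g s hε hsym hsum hlow hst hcard
  obtain ⟨t, hts, htc⟩ := Finset.exists_subset_card_eq hcard
  obtain ⟨p, q, hp, hq, hpq⟩ := Finset.one_lt_card_iff.1 (show 1 < t.card by omega)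
  set s' := (t.erase p).erase q with hs'
  have hs'c : s'.card = n := by
    rw [hs', Finset.card_erase_of_mem (Finset.mem_erase.2 ⟨hpq.symm, hq⟩),
      Finset.card_erase_of_mem hp, htc]
    omega
  have hs't : s' ⊆ t := (Finset.erase_subset _ _).trans (Finset.erase_subset _ _)
  by_contra hcon
  push Not at hcon
  set h := ∑ v ∈ T, ε v with hh
  set c₁ : ℝ := 1 / (2 * n ^ 2 * (n + 2) ^ 4) with hc₁
  -- the quadruples
  set Qd := (((t ×ˢ t) ×ˢ (t ×ˢ t)).filter fun x : (ℕ × ℕ) × (ℕ × ℕ) =>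
    x.1.1 ≠ x.1.2 ∧ x.1.1 ≠ x.2.1 ∧ x.1.1 ≠ x.2.2 ∧ x.1.2 ≠ x.2.1 ∧ x.1.2 ≠ x.2.2 ∧
      x.2.1 ≠ x.2.2) with hQd
  set chi : V → (ℕ × ℕ) × (ℕ × ℕ) → ℝ := fun v x =>
    |g v x.1.1 x.2.1 + g v x.1.2 x.2.2 - g v x.1.1 x.2.2 - g v x.1.2 x.2.1| with hchi
  set err : V → ℝ := fun v => ∑ x ∈ Qd, chi v x with herr
  have herr0 : ∀ v, 0 ≤ err v := fun v => Finset.sum_nonneg fun x _ => abs_nonneg _
  have hle : ∀ v, ∀ x ∈ Qd, chi v x ≤ err v := fun v x hx =>
    Finset.single_le_sum (f := fun x => chi v x) (fun y _ => abs_nonneg _) hx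
  have hq1 : ∀ x ∈ Qd, ∑ v ∈ T, chi v x < c₁ * h := by
    intro x hx
    rw [hQd, Finset.mem_filter, Finset.mem_product, Finset.mem_product, Finset.mem_product] at hx
    obtain ⟨⟨⟨h1, h2⟩, h3, h4⟩, h5, h6, h7, h8, h9, h10⟩ := hx
    exact hcon _ (hts h1) _ (hts h2) _ (hts h3) _ (hts h4) h5 h6 h7 h8 h9 h10
  have hmemQ : ∀ i ∈ s', ∀ j ∈ s', i ≠ j → (((i, q), (j, p)) : (ℕ × ℕ) × (ℕ × ℕ)) ∈ Qd := by
    intro i hi j hj hij
    have hi' := hi
    have hj' := hj
    rw [hs', Finset.mem_erase, Finset.mem_erase] at hi' hj'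
    rw [hQd, Finset.mem_filter, Finset.mem_product, Finset.mem_product, Finset.mem_product]
    exact ⟨⟨⟨hs't hi, hq⟩, hs't hj, hp⟩, hi'.1, hij, hi'.2.1, Ne.symm hj'.1, Ne.symm hpq,
      hj'.2.1⟩
  obtain ⟨i₀, j₀, hi₀, hj₀, hij₀⟩ := Finset.one_lt_card_iff.1 (show 1 < s'.card by omega)
  have hhpos : 0 < h := by
    have h1 := hq1 _ (hmemQ i₀ hi₀ j₀ hj₀ hij₀)
    have h2 : 0 ≤ ∑ v ∈ T, chi v ((i₀, q), (j₀, p)) :=
      Finset.sum_nonneg fun v _ => abs_nonneg _
    have h3 : 0 < c₁ := by (clear * -; positivity)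
    by_contra h4
    have : c₁ * h ≤ 0 := mul_nonpos_of_nonneg_of_nonpos h3.le (not_lt.1 h4)
    (clear * - h1 h2 this; linarith)
  -- local estimates
  have hloc : ∀ v ∈ T, ε v - 2 * (n * (n - 1)) * err v ≤ ∑ i ∈ s', ∑ j ∈ s'.erase i, g v i j := by
    intro v hv
    set a : ℕ → ℝ := fun i => (g v i p + g v i q - g v p q) / 2 with ha
    have h1 : ∀ i ∈ s', ∀ j ∈ s', i ≠ j →
        a i + a j - err v ≤ g v i j ∧ g v i j ≤ a i + a j + err v := by
      intro i hi j hj hij
      have h2 := (hle v _ (hmemQ i hi j hj hij))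
      have h3 := (hle v _ (hmemQ j hj i hi (Ne.symm hij)))
      simp only [hchi] at h2 h3
      rw [abs_le] at h2 h3
      have e1 := hsym v q p
      have e2 := hsym v q j
      have e3 := hsym v q i
      have e4 := hsym v j i
      simp only [ha]
      constructor <;> (clear * - h2 h3 e1 e2 e3 e4; linarith [h2.1, h2.2, h3.1, h3.2])
    have h2 := star_local (C₁ := C₁) (c₀ := c₀) (ε := ε v) (err := err v) hC₁ hc₀ (hε v hv)
      (herr0 v) (g v) s' a h1
      (fun i hi j hj hij => hlow v hv i (hts (hs't hi)) j (hts (hs't hj)) hij) N₀ M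
      (fun u hu hc => hst v hv u (hu.trans (hs't.trans hts)) hc) (by rw [hs'c])
    refine le_trans ?_ h2
    have h3 := mul_le_mul_of_nonneg_right hcoef (hε v hv)
    have h4 : ((n : ℝ)) = N₀ + 1 + M := by rw [hn]; push_cast; ring
    rw [h4]
    have e5 : ((N₀ : ℝ) + 1 + M) * (N₀ + 1 + M - 1) = (N₀ + 1 + M) * (N₀ + M) := by ring
    rw [e5]
    (clear * - h3; linarith)
  have hzero : ∑ v ∈ T, ∑ i ∈ s', ∑ j ∈ s'.erase i, g v i j = 0 := by
    rw [Finset.sum_comm]
    apply Finset.sum_eq_zero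
    intro i hi
    rw [Finset.sum_comm]
    apply Finset.sum_eq_zero
    intro j hj
    rw [Finset.mem_erase] at hj
    exact hsum i (hts (hs't hi)) j (hts (hs't hj.2)) (Ne.symm hj.1)
  have h5 : h - 2 * (n * (n - 1)) * ∑ v ∈ T, err v ≤ 0 := by
    rw [← hzero, hh, Finset.mul_sum, ← Finset.sum_sub_distrib]
    exact Finset.sum_le_sum hloc
  have h6 : ∑ v ∈ T, err v ≤ (n + 2) ^ 4 * (c₁ * h) := by
    rw [herr, Finset.sum_comm]
    have h7 : ∑ x ∈ Qd, ∑ v ∈ T, chi v x ≤ ∑ x ∈ Qd, c₁ * h :=
      Finset.sum_le_sum fun x hx => (hq1 x hx).le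
    refine h7.trans ?_
    rw [Finset.sum_const, nsmul_eq_mul]
    apply mul_le_mul_of_nonneg_right _ (by (clear * - hhpos; positivity))
    have h8 : Qd.card ≤ (n + 2) ^ 4 := by
      refine (Finset.card_filter_le _ _).trans ?_
      rw [Finset.card_product, Finset.card_product, htc]
      apply le_of_eq
      ring
    exact_mod_cast h8
  have h9 : ((n : ℝ) + 2) ^ 4 * (c₁ * h) = h / (2 * n ^ 2) := by
    rw [hc₁]
    (clear * - hn2 hhpos; field_simp)
  rw [h9] at h6
  have h10 : 2 * ((n : ℝ) * (n - 1)) * ∑ v ∈ T, err v ≤ 2 * (n * (n - 1)) * (h / (2 * n ^ 2)) := by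
    apply mul_le_mul_of_nonneg_left h6
    have : (2 : ℝ) ≤ n := by exact_mod_cast hn2
    have : (0 : ℝ) ≤ n - 1 := by (clear * - this; linarith)
    (clear * - this; positivity)
  have h11 : 2 * ((n : ℝ) * (n - 1)) * (h / (2 * n ^ 2)) = h * ((n - 1) / n) := by
    (clear * - hhpos hn2; field_simp)
  rw [h11] at h10
  have h12 : h * (((n : ℝ) - 1) / n) < h * 1 := by
    apply mul_lt_mul_of_pos_left _ hhpos
    rw [div_lt_one hnR]
    (clear * -; linarith)
  (clear * - h5 h10 h12; linarith)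

end Pool.Agent.Helper33.PT

end

section

set_option autoImplicit false

open Finset Polynomial

namespace Pool.Agent.Helper55.LW

open Pool.Agent.Helper33

variable {K : Type*} [Field K]

lemma sum_cst (c : ℝ) (m : ℕ) :
    ∑ i ∈ range m, ∑ _j ∈ range i, c = c * (m * ((m : ℝ) - 1) / 2) := by
  induction m with
  | zero => simp
  | succ m ih =>
    rw [Finset.sum_range_succ, ih, Finset.sum_const, card_range, nsmul_eq_mul]
    push_cast
    ring

/-- all coefficients have degree at most `D` -/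
def Bd (M : K[X][X]) (D : ℕ) : Prop := ∀ q, (M.coeff q).natDegree ≤ D

lemma Bd.mul {M N : K[X][X]} {D E : ℕ} (hM : Bd M D) (hN : Bd N E) : Bd (M * N) (D + E) := by
  intro q
  rw [Polynomial.coeff_mul]
  apply Polynomial.natDegree_sum_le_of_forall_le
  intro p _
  exact Polynomial.natDegree_mul_le.trans (Nat.add_le_add (hM _) (hN _))

lemma Bd.prod (D : ℕ) (P : ℕ → K[X][X]) (n : ℕ) (h : ∀ l < n, Bd (P l) D) :
    Bd (∏ l ∈ range n, P l) (n * D) := by
  induction n with
  | zero =>
    intro q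
    simp only [range_zero, prod_empty, Nat.zero_mul, Nat.le_zero]
    rw [Polynomial.coeff_one]
    split_ifs <;> simp
  | succ n ih =>
    rw [Finset.prod_range_succ, Nat.succ_mul]
    exact (ih fun l hl => h l (by omega)).mul (h n (by omega))

lemma Bd.lin {p : K[X]} {D : ℕ} (hp : p.natDegree ≤ D) : Bd (X - C p : K[X][X]) D := by
  intro q
  rw [Polynomial.coeff_sub, Polynomial.coeff_X, Polynomial.coeff_C]
  by_cases h0 : q = 0
  · subst h0
    simpa using hp
  · rw [if_neg h0, sub_zero]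
    split_ifs <;> simp

/-- monic polynomial with given roots -/
noncomputable def mp (z : ℕ → K) (c : ℕ) : K[X] := ∏ l ∈ range c, (X - C (z l))

lemma mp_monic (z : ℕ → K) (c : ℕ) : (mp z c).Monic := Polynomial.monic_prod_X_sub_C _ _

lemma mp_natDegree (z : ℕ → K) (c : ℕ) : (mp z c).natDegree = c := by
  unfold mp
  rw [Polynomial.natDegree_prod_of_monic _ _ (fun i _ => Polynomial.monic_X_sub_C _)]
  simp

lemma mp_eval (z : ℕ → K) (c : ℕ) (x : K) : (mp z c).eval x = ∏ l ∈ range c, (x - z l) := by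
  unfold mp
  rw [Polynomial.eval_prod]
  simp

/-- monic polynomial in `Y` with given roots in `K[X]` -/
noncomputable def mP (p : ℕ → K[X]) (c : ℕ) : K[X][X] := ∏ l ∈ range c, (X - C (p l))

lemma mP_monic (z : ℕ → K[X]) (c : ℕ) : (mP z c).Monic := Polynomial.monic_prod_X_sub_C _ _

lemma mP_natDegree (z : ℕ → K[X]) (c : ℕ) : (mP z c).natDegree = c := by
  unfold mP
  rw [Polynomial.natDegree_prod_of_monic _ _ (fun i _ => Polynomial.monic_X_sub_C _)]
  simp

lemma mP_eval (z : ℕ → K[X]) (c : ℕ) (x y : K) :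
    (mP z c).evalEval x y = ∏ l ∈ range c, (y - (z l).eval x) := by
  unfold mP
  rw [Polynomial.evalEval, Polynomial.eval_prod, Polynomial.eval_prod]
  simp

lemma Bd_mP (p : ℕ → K[X]) (c D : ℕ) (hp : ∀ l < c, (p l).natDegree ≤ D) :
    Bd (mP p c) (c * D) :=
  Bd.prod D _ c fun l hl => Bd.lin (hp l hl)

/-- the first factor -/
noncomputable def phi (R : ℕ) (z z' : ℕ → K) (c e : ℕ) : K[X] :=
  if c < R ∧ R ≤ e then mp z' c else mp z c

lemma phi_monic (R : ℕ) (z z' : ℕ → K) (c e : ℕ) : (phi R z z' c e).Monic := by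
  unfold phi
  split_ifs <;> exact mp_monic _ _

lemma phi_natDegree (R : ℕ) (z z' : ℕ → K) (c e : ℕ) : (phi R z z' c e).natDegree = c := by
  unfold phi
  split_ifs <;> exact mp_natDegree _ _

end Pool.Agent.Helper55.LW

end

section

set_option autoImplicit false

open Finset Polynomial

namespace Pool.Agent.Helper55.LWI

open Pool.Agent.Helper33 Pool.Agent.Helper55.LW

variable {K ι : Type*} [Field K]

/-- the line through `(xa, ya)` and `(xb, yb)` -/
noncomputable def linei (x y : ι → K) (a b : ι) : K[X] :=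
  C ((y a - y b) / (x a - x b)) * X + C ((x a * y b - x b * y a) / (x a - x b))

/-- the second factor -/
noncomputable def Mfi (x y : ι → K) (R : ℕ) (z z'' a b : ℕ → ι) (c e : ℕ) : K[X][X] :=
  if c < R ∧ R ≤ e then mP (fun l => linei x y (a l) (b l)) R * mP (fun l => C (y (z'' l))) (e - R)
  else mP (fun l => C (y (z l))) e

lemma Mfi_monic (x y : ι → K) (R : ℕ) (z z'' a b : ℕ → ι) (c e : ℕ) :
    (Mfi x y R z z'' a b c e).Monic := by
  unfold Mfi
  split_ifs
  · exact (mP_monic _ _).mul (mP_monic _ _)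
  · exact mP_monic _ _

lemma Mfi_natDegree (x y : ι → K) (R : ℕ) (z z'' a b : ℕ → ι) (c e : ℕ) :
    (Mfi x y R z z'' a b c e).natDegree = e := by
  unfold Mfi
  split_ifs with h
  · rw [(mP_monic _ _).natDegree_mul (mP_monic _ _), mP_natDegree, mP_natDegree]
    omega
  · exact mP_natDegree _ _

lemma linei_natDegree (x y : ι → K) (a b : ι) : (linei x y a b).natDegree ≤ 1 := by
  unfold linei
  exact Polynomial.natDegree_linear_le

lemma phi_Mfi_deg (x y : ι → K) (R : ℕ) (z z' z'' a b : ℕ → ι) (c e q : ℕ) (hc : c < R + R) :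
    (phi R (fun l => x (z l)) (fun l => x (z' l)) c e *
      (Mfi x y R z z'' a b c e).coeff q).natDegree < R + R := by
  refine lt_of_le_of_lt Polynomial.natDegree_mul_le ?_
  rw [phi_natDegree]
  by_cases h : c < R ∧ R ≤ e
  · have : Bd (Mfi x y R z z'' a b c e) (R * 1 + (e - R) * 0) := by
      unfold Mfi
      rw [if_pos h]
      exact (Bd_mP _ _ _ fun l _ => linei_natDegree x y _ _).mul
        (Bd_mP _ _ _ fun l _ => by simp)
    have := this q
    omega
  · have : Bd (Mfi x y R z z'' a b c e) (e * 0) := by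
      unfold Mfi
      rw [if_neg h]
      exact Bd_mP _ _ _ fun l _ => by simp
    have := this q
    omega

end Pool.Agent.Helper55.LWI

end
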