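import Pool.Agent.Helper23.MB.Inst

/-!
Parts of Helper33.PS.Heights, Helper93.RatRiccati, Helper45.RatRed, Helper33.UB.RatInst, Helper33.PT.Defs, Helper38.DT.Defs, Helper16.FF10, Helper38.DT.SubF, Helper47.RR.B1, Helper47.RR.B3, Helper91.DT.E, Helper94.AS.Small, Helper36.DT.Hom, Helper38.DT.Main, Helper34.Dep.Emb, Helper34.Dep.Aut, Helper45.UntwistAbs, Helper98.PS.K1, Helper11.PS.DetGain, Helper36.S5.Fixed, Helper36.S5.Descent, Helper36.S5.Nu, Helper36.S5.Core, Helper35.PS.Coord, Helper33.PS.Mods, Helper45.M8Main, Helper53.PT.Minor, Helper43.PT.LE, Helper53.PT.Pair, Helper36.PT.Norm, Helper36.PT.Level, Helper33.PT.Lev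
-/

attribute [-simp] Valuation.IsUniformizer.val
attribute [local instance 5000]
  Pool.Agent.Helper23.MB.Inst.rCharZero Pool.Agent.Helper23.MB.Inst.rALM
  Pool.Agent.Helper23.MB.Inst.rARM Pool.Agent.Helper23.MB.Inst.rALSM
  Pool.Agent.Helper23.MB.Inst.rARSM Pool.Agent.Helper23.MB.Inst.rARRLE
  Pool.Agent.Helper23.MB.Inst.rALRLE Pool.Agent.Helper23.MB.Inst.rARRLT
  Pool.Agent.Helper23.MB.Inst.rALRLT Pool.Agent.Helper23.MB.Inst.rPMRLT
  Pool.Agent.Helper23.MB.Inst.rMPRLT Pool.Agent.Helper23.MB.Inst.rPMM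
  Pool.Agent.Helper23.MB.Inst.rMPM Pool.Agent.Helper23.MB.Inst.rPMSM
  Pool.Agent.Helper23.MB.Inst.rMPSM Pool.Agent.Helper23.MB.Inst.rEAOL
  Pool.Agent.Helper23.MB.Inst.rIOR Pool.Agent.Helper23.MB.Inst.rISOR
  Pool.Agent.Helper23.MB.Inst.rNZD Pool.Agent.Helper23.MB.Inst.zCharZero
  Pool.Agent.Helper23.MB.Inst.zALM Pool.Agent.Helper23.MB.Inst.zARM
  Pool.Agent.Helper23.MB.Inst.zIOR Pool.Agent.Helper23.MB.Inst.zISOR
  Pool.Agent.Helper23.MB.Inst.zNZD Pool.Agent.Helper23.MB.Inst.qCharZero
  Pool.Agent.Helper23.MB.Inst.free Pool.Agent.Helper23.MB.Inst.faith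
  Pool.Agent.Helper23.MB.Inst.torsionFree Pool.Agent.Helper23.MB.Inst.rfFaith
  Pool.Agent.Helper23.MB.Inst.hAdd Pool.Agent.Helper23.MB.Inst.hAddM
  Pool.Agent.Helper23.MB.Inst.hMul Pool.Agent.Helper23.MB.Inst.hMon
  Pool.Agent.Helper23.MB.Inst.hZero Pool.Agent.Helper23.MB.Inst.hOne
  Pool.Agent.Helper23.MB.Inst.hMZ Pool.Agent.Helper23.MB.Inst.hRing
  Pool.Agent.Helper23.MB.Inst.aAdd Pool.Agent.Helper23.MB.Inst.aAddM
  Pool.Agent.Helper23.MB.Inst.aMul Pool.Agent.Helper23.MB.Inst.aMon
  Pool.Agent.Helper23.MB.Inst.aZero Pool.Agent.Helper23.MB.Inst.aOne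
  Pool.Agent.Helper23.MB.Inst.aMZ Pool.Agent.Helper23.MB.Inst.aRing

namespace Pool.Agent.Helper16
end Pool.Agent.Helper16
namespace Pool.Agent.Helper33
end Pool.Agent.Helper33
namespace Pool.Agent.Helper33.PS
end Pool.Agent.Helper33.PS
namespace Pool.Agent.Helper33.UB
end Pool.Agent.Helper33.UB
namespace Pool.Agent.Helper34.Dep
end Pool.Agent.Helper34.Dep
namespace Pool.Agent.Helper35.PS
end Pool.Agent.Helper35.PS
namespace Pool.Agent.Helper38.DT
end Pool.Agent.Helper38.DT
namespace Pool.Agent.Helper45.FF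
end Pool.Agent.Helper45.FF
namespace Pool.Agent.Helper45.FR
end Pool.Agent.Helper45.FR
namespace Pool.Agent.Helper45.S4
end Pool.Agent.Helper45.S4
namespace Pool.Agent.Helper45.S6
end Pool.Agent.Helper45.S6
namespace Pool.Agent.Helper47.EN
end Pool.Agent.Helper47.EN
namespace Pool.Agent.Helper47.RR
end Pool.Agent.Helper47.RR
namespace Pool.Agent.Helper51.RatTree
end Pool.Agent.Helper51.RatTree
namespace Pool.Agent.Helper55.RD
end Pool.Agent.Helper55.RD
namespace Pool.Agent.Helper93.RatODE
end Pool.Agent.Helper93.RatODE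
namespace Pool.Agent.Helper98.PS
end Pool.Agent.Helper98.PS

section

set_option autoImplicit false

open Finset Polynomial

namespace Pool.Agent.Helper33.PS

open Pool.Agent.Helper33.UB

/-- the cross ratio coordinate -/
noncomputable def cr {K : Type*} [Field K] (a b c y : K) : K :=
  (y - a) * (c - b) / ((y - b) * (c - a))

end Pool.Agent.Helper33.PS

end

section

set_option autoImplicit false

open Finset Polynomial

namespace Pool.Agent.Helper93.RatODE

variable {K : Type*} [Field K]

section derivation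

variable {D : K → K}

lemma D_zero (hadd : ∀ x y, D (x + y) = D x + D y) : D 0 = 0 := by
  have h := hadd 0 0
  rw [add_zero] at h
  exact left_eq_add.mp h

end derivation

end Pool.Agent.Helper93.RatODE

end

section

set_option autoImplicit false

set_option linter.style.haveILetI false

open Polynomial

namespace Pool.Agent.Helper45.FR

open Pool.Agent.Helper33 Pool.Agent.Helper93.RatODE

section defs

/-- orbit data of a rational map `P / Q` (all points finite) -/
structure RatOrbit {K : Type*} [Field K] (P Q : K[X]) (x : ℕ → K) (N : ℕ) : Prop where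
  ne : ∀ i, Q.eval (x i) ≠ 0
  step : ∀ i, x (i + 1) = P.eval (x i) / Q.eval (x i)
  inj : ∀ i j, i ≤ N → j ≤ N → x i = x j → i = j
  fin : (Set.range x).Finite

end defs

end Pool.Agent.Helper45.FR

end

section

set_option autoImplicit false

open Finset Polynomial

namespace Pool.Agent.Helper33.UB

open Pool.Agent.Helper51.RatTree Pool.Agent.Helper55.RD Pool.Agent.Helper93.RatODE
  Pool.Agent.Helper45.FR

section orb

variable {K : Type*} [Field K] {F G : K[X]} {x : ℕ → K} {N : ℕ}

/-- the finite invariant set -/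
noncomputable def rX (h : RatOrbit F G x N) : Finset K := h.fin.toFinset

lemma mem_rX (h : RatOrbit F G x N) (i : ℕ) : x i ∈ rX h := by
  unfold rX
  rw [Set.Finite.mem_toFinset]
  exact ⟨i, rfl⟩

lemma rX_spec (h : RatOrbit F G x N) : ∀ y ∈ rX h, G.eval y ≠ 0 ∧ F.eval y / G.eval y ∈ rX h := by
  intro y hy
  unfold rX at hy
  rw [Set.Finite.mem_toFinset] at hy
  obtain ⟨i, rfl⟩ := hy
  refine ⟨h.ne i, ?_⟩
  rw [← h.step i]
  exact mem_rX h (i + 1)

end orb

end Pool.Agent.Helper33.UB

end

section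

set_option autoImplicit false

open Finset Polynomial

namespace Pool.Agent.Helper33.PT

/-- the matrix of the monomials of bidegree `< m` -/
def PM {E ι : Type*} [Field E] (m : ℕ) (x y : ι → E) : Matrix ι (Fin m × Fin m) E :=
  Matrix.of fun i ab => x i ^ (ab.1 : ℕ) * y i ^ (ab.2 : ℕ)

end Pool.Agent.Helper33.PT

end

section

set_option autoImplicit false

namespace Pool.Agent.Helper38.DT

open Polynomial Pool.Agent.Helper93.RatODE

/-- Evaluation of the bihomogeneous form of bidegree `(m, n)` with coefficients `q`. -/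
def bev {K : Type} [Field K] (q : ℕ → ℕ → K) (m n : ℕ) (y0 y1 z0 z1 : K) : K :=
  ∑ a ∈ Finset.range (m + 1), ∑ b ∈ Finset.range (n + 1),
    q a b * y0 ^ a * y1 ^ (m - a) * z0 ^ b * z1 ^ (n - b)

end Pool.Agent.Helper38.DT

end

section

set_option autoImplicit false

set_option linter.style.haveILetI false

namespace Pool.Agent.Helper16

open Polynomial IntermediateField IsDedekindDomain

section

variable {K N : Type} [Field K] [Field N] [Algebra K N]

theorem linearIndependent_pow_mul (s : N) (hs : Transcendental K s) {n : ℕ} (x : Fin n → N)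
    (hx : LinearIndependent K⟮s⟯ x) (M : ℕ) :
    LinearIndependent K (fun p : Fin M × Fin n => s ^ (p.1 : ℕ) * x p.2) := by
  have h1 : LinearIndependent K (fun a : Fin M => (AdjoinSimple.gen K s) ^ (a : ℕ)) := by
    have h2 : LinearIndependent K (fun a : ℕ => (AdjoinSimple.gen K s) ^ a) := by
      have h3 : Transcendental K (AdjoinSimple.gen K s) := by
        intro h
        apply hs
        have := h.algebraMap (A := N)
        rwa [AdjoinSimple.algebraMap_gen] at this
      rw [transcendental_iff_injective] at h3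
      have h4 := (Polynomial.basisMonomials K).linearIndependent.map'
        (aeval (AdjoinSimple.gen K s) : K[X] →ₐ[K] K⟮s⟯).toLinearMap
        (LinearMap.ker_eq_bot.2 h3)
      have h5 : (fun a : ℕ => (AdjoinSimple.gen K s) ^ a) =
          (aeval (AdjoinSimple.gen K s) : K[X] →ₐ[K] K⟮s⟯).toLinearMap ∘
            (Polynomial.basisMonomials K) := by
        funext a
        simp [Polynomial.coe_basisMonomials, aeval_monomial]
      rw [h5]
      exact h4
    exact h2.comp _ Fin.val_injective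
  have h5 := linearIndependent_smul h1 hx
  have h6 : (fun p : Fin M × Fin n => s ^ (p.1 : ℕ) * x p.2) =
      fun p : Fin M × Fin n => (AdjoinSimple.gen K s) ^ (p.1 : ℕ) • x p.2 := by
    funext p
    rw [Algebra.smul_def, map_pow, AdjoinSimple.algebraMap_gen]
  rw [h6]
  exact h5

end

end Pool.Agent.Helper16

end

section

set_option autoImplicit false

set_option linter.style.haveILetI false

namespace Pool.Agent.Helper38.DT

open Polynomial IntermediateField Pool.Agent.Helper16 Pool.Agent.Helper45.S4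

section subf

variable {k L : Type} [Field k] [Field L] [Algebra k L]

theorem mem_of_le (t : L) (F : IntermediateField k L) (hF : k⟮t⟯ ≤ F) : t ∈ F :=
  hF (mem_adjoin_simple_self k t)

theorem map_adjoin_sub (t : L) (F : IntermediateField k L) (hF : k⟮t⟯ ≤ F) :
    (k⟮(⟨t, mem_of_le t F hF⟩ : F)⟯).map F.val = k⟮t⟯ := by
  rw [IntermediateField.adjoin_map, Set.image_singleton]
  rfl

theorem transcendental_sub (t : L) (ht : Transcendental k t) (F : IntermediateField k L)
    (hF : k⟮t⟯ ≤ F) : Transcendental k (⟨t, mem_of_le t F hF⟩ : F) := by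
  intro halg
  apply ht
  exact (isAlgebraic_iff (S := F)).1 halg

/-- the isomorphism between the two versions of `k(t)` -/
noncomputable def adjSub (t : L) (F : IntermediateField k L) (hF : k⟮t⟯ ≤ F) :
    k⟮(⟨t, mem_of_le t F hF⟩ : F)⟯ ≃ₐ[k] k⟮t⟯ :=
  (equivMap k⟮(⟨t, mem_of_le t F hF⟩ : F)⟯ F.val).trans (equivOfEq (map_adjoin_sub t F hF))

theorem finrank_sub (t : L) (F : IntermediateField k L) (hF : k⟮t⟯ ≤ F) :
    Module.finrank k⟮(⟨t, mem_of_le t F hF⟩ : F)⟯ F * Module.finrank F L =
      Module.finrank k⟮t⟯ L := by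
  rw [← relfinrank_mul_finrank_top hF]
  congr 1
  have h1 : (⊤ : IntermediateField k F).map F.val = F := by
    rw [← AlgHom.fieldRange_eq_map]
    exact fieldRange_val F
  have h2 := relfinrank_map_map (k⟮(⟨t, mem_of_le t F hF⟩ : F)⟯) ⊤ F.val
  rw [h1, map_adjoin_sub t F hF, relfinrank_top_right] at h2
  exact h2.symm

theorem isSeparable_sub (t : L) [Algebra.IsSeparable k⟮t⟯ L] (F : IntermediateField k L)
    (hF : k⟮t⟯ ≤ F) : Algebra.IsSeparable k⟮(⟨t, mem_of_le t F hF⟩ : F)⟯ F := by
  haveI : Algebra.IsSeparable k⟮t⟯ (extendScalars hF) :=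
    Algebra.isSeparable_tower_bot_of_isSeparable k⟮t⟯ (extendScalars hF) L
  let e₂ : (extendScalars hF) ≃+* F := RingEquiv.refl _
  exact Algebra.IsSeparable.of_equiv_equiv (A₁ := k⟮t⟯) (B₁ := extendScalars hF)
    (adjSub t F hF).symm.toRingEquiv e₂ (by
      ext a
      obtain ⟨b, rfl⟩ := (adjSub t F hF).surjective a
      change (((adjSub t F hF).symm (adjSub t F hF b) : F) : L) = _
      rw [AlgEquiv.symm_apply_apply]
      rfl)

end subf

end Pool.Agent.Helper38.DT

end

section

set_option autoImplicit false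

set_option linter.style.haveILetI false

namespace Pool.Agent.Helper47.RR

open Pool.Agent.Helper16 Pool.Agent.Helper45.S4

variable {k L : Type} [Field k] [Field L] [Algebra k L]

theorem abstract_step {V : Type} [AddCommGroup V] [Module k V] (P Q : Submodule k V) (hPQ : P ≤ Q)
    (hP : FiniteDimensional k P) (ev : V →ₗ[k] k) (h0 : ∀ x ∈ P, ev x = 0)
    (hker : ∀ x ∈ Q, ev x = 0 → x ∈ P) (hx : ∃ x ∈ Q, ev x ≠ 0) :
    FiniteDimensional k Q ∧ Module.finrank k Q = Module.finrank k P + 1 := by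
  let e : Q →ₗ[k] k := ev.comp Q.subtype
  have hk : LinearMap.ker e = P.comap Q.subtype := by
    ext x
    rw [LinearMap.mem_ker, Submodule.mem_comap]
    exact ⟨fun h => hker x x.2 h, fun h => h0 _ h⟩
  have hequiv : P.comap Q.subtype ≃ₗ[k] P := Submodule.comapSubtypeEquivOfLe hPQ
  haveI : FiniteDimensional k (LinearMap.ker e) := by
    rw [hk]
    exact hequiv.symm.finiteDimensional
  have hfinD : FiniteDimensional k Q := by
    haveI : FiniteDimensional k (LinearMap.range e) := inferInstance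
    haveI : FiniteDimensional k (Q ⧸ LinearMap.ker e) := e.quotKerEquivRange.symm.finiteDimensional
    exact Module.Finite.of_submodule_quotient (LinearMap.ker e)
  have hsurj : LinearMap.range e = ⊤ := by
    obtain ⟨x, hxQ, hx0⟩ := hx
    rw [LinearMap.range_eq_top]
    intro c
    refine ⟨(c / ev x) • ⟨x, hxQ⟩, ?_⟩
    rw [map_smul]
    change (c / ev x) * ev x = c
    exact div_mul_cancel₀ c hx0
  refine ⟨hfinD, ?_⟩
  have h8 := LinearMap.finrank_range_add_finrank_ker e
  rw [hsurj, finrank_top, Module.finrank_self, hk, hequiv.finrank_eq] at h8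
  omega

end Pool.Agent.Helper47.RR

end

section

set_option autoImplicit false

set_option linter.style.haveILetI false

namespace Pool.Agent.Helper47.RR

open Pool.Agent.Helper16 Pool.Agent.Helper45.S4

variable {k L : Type} [Field k] [Field L] [Algebra k L]

theorem abstract_dim {V W U : Type} [AddCommGroup V] [Module k V] [AddCommGroup W] [Module k W]
    [AddCommGroup U] [Module k U] [FiniteDimensional k V] [FiniteDimensional k W]
    (P : Submodule k U) (hP : FiniteDimensional k P) (f : V →ₗ[k] P) (g : W →ₗ[k] P)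
    (h : Module.finrank k P < Module.finrank k V + Module.finrank k W) :
    ∃ x : V, ∃ y : W, (x ≠ 0 ∨ y ≠ 0) ∧ f x = g y := by
  let F : V × W →ₗ[k] P := f.coprod (-g)
  have h1 : ¬ Function.Injective F := by
    intro hinj
    have := LinearMap.finrank_le_finrank_of_injective hinj
    rw [Module.finrank_prod] at this
    omega
  rw [injective_iff_map_eq_zero] at h1
  push Not at h1
  obtain ⟨⟨x, y⟩, h2, h3⟩ := h1
  refine ⟨x, y, ?_, ?_⟩
  · by_contra hcon
    push Not at hcon
    exact h3 (Prod.ext hcon.1 hcon.2)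
  · have h4 : f x + (-g) y = 0 := h2
    rw [LinearMap.neg_apply, ← sub_eq_add_neg, sub_eq_zero] at h4
    exact h4

end Pool.Agent.Helper47.RR

end

section

set_option autoImplicit false

namespace Pool.Agent.Helper91.DT

open Polynomial IntermediateField Pool.Agent.Helper93.RatODE Pool.Agent.Helper45.FR
  Pool.Agent.Helper38.DT

section forms

variable {K : Type} [Field K]

theorem bev_swap (q : ℕ → ℕ → K) (m n : ℕ) (y0 y1 z0 z1 : K) :
    bev q m n y0 y1 z0 z1 = bev (fun b a => q a b) n m z0 z1 y0 y1 := by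
  unfold bev
  rw [Finset.sum_comm]
  refine Finset.sum_congr rfl fun b _ => Finset.sum_congr rfl fun a _ => ?_
  ring

end forms

end Pool.Agent.Helper91.DT

end

section

set_option autoImplicit false

set_option linter.unusedSectionVars false

open Polynomial

namespace Pool.Agent.Helper94.AS

variable {p : ℕ} [hp : Fact p.Prime] {k : Type} [Field k] [CharP k p] (f : k[X])

theorem coeff_coeff_swap (B : k[X][X]) (i j : ℕ) :
    ((Bivariate.swap B).coeff i).coeff j = (B.coeff j).coeff i := by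
  induction B using Polynomial.induction_on' with
  | add a b ha hb => rw [map_add, coeff_add, coeff_add, coeff_add, coeff_add, ha, hb]
  | monomial n a =>
    induction a using Polynomial.induction_on' with
    | add a b ha hb =>
      rw [map_add, map_add, coeff_add, coeff_add, coeff_add, coeff_add, ha, hb]
    | monomial m c =>
      rw [Bivariate.swap_monomial_monomial]
      simp only [coeff_monomial]
      split_ifs <;> simp_all [coeff_monomial]

end Pool.Agent.Helper94.AS

end

section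

set_option autoImplicit false

namespace Pool.Agent.Helper36.DT

open Polynomial Finset Pool.Agent.Helper93.RatODE Pool.Agent.Helper38.DT

section ring

variable {R : Type*} [CommRing R]

/-- homogeneous evaluation -/
noncomputable def hv (F : R[X]) (n : ℕ) (u w : R) : R :=
  ∑ j ∈ range (n + 1), F.coeff j * u ^ j * w ^ (n - j)

theorem hv_eq (F : R[X]) (n : ℕ) (u w : R) :
    hv F n u w = MvPolynomial.eval ![u, w] (F.homogenize n) := by
  unfold hv homogenize
  rw [Finset.Nat.sum_antidiagonal_eq_sum_range_succ_mk, map_sum]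
  refine sum_congr rfl fun j _ => ?_
  rw [MvPolynomial.eval_monomial, Finsupp.prod_fintype _ _ (by simp)]
  simp [Fin.prod_univ_two, mul_assoc]

theorem hv_mul (F G : R[X]) {m n : ℕ} (hF : F.natDegree ≤ m) (hG : G.natDegree ≤ n) (u w : R) :
    hv (F * G) (m + n) u w = hv F m u w * hv G n u w := by
  rw [hv_eq, hv_eq, hv_eq, homogenize_mul _ _ hF hG, map_mul]

theorem hv_one (u w : R) : hv (1 : R[X]) 0 u w = 1 := by
  simp [hv]

theorem hv_pow (F : R[X]) {m : ℕ} (hF : F.natDegree ≤ m) (k : ℕ) (u w : R) :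
    hv (F ^ k) (k * m) u w = hv F m u w ^ k := by
  induction k with
  | zero => simp [hv_one]
  | succ k ih =>
    rw [pow_succ, Nat.succ_mul, hv_mul _ _ (natDegree_pow_le_of_le k hF) hF, ih, pow_succ]

theorem hv_add (F G : R[X]) (n : ℕ) (u w : R) : hv (F + G) n u w = hv F n u w + hv G n u w := by
  simp [hv, add_mul, sum_add_distrib]

theorem hv_zero (n : ℕ) (u w : R) : hv (0 : R[X]) n u w = 0 := by
  simp [hv]

theorem hv_sum {ι : Type*} (s : Finset ι) (F : ι → R[X]) (n : ℕ) (u w : R) :
    hv (∑ i ∈ s, F i) n u w = ∑ i ∈ s, hv (F i) n u w := by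
  classical
  induction s using Finset.induction_on with
  | empty => simp [hv_zero]
  | insert a s ha ih => rw [sum_insert ha, sum_insert ha, hv_add, ih]

theorem hv_C_mul (c : R) (F : R[X]) (n : ℕ) (u w : R) :
    hv (C c * F) n u w = c * hv F n u w := by
  simp [hv, mul_sum, mul_assoc]

theorem hv_mul_C (c : R) (F : R[X]) (n : ℕ) (u w : R) :
    hv (F * C c) n u w = hv F n u w * c := by
  rw [mul_comm, hv_C_mul, mul_comm]

theorem hv_map_C (F : R[X]) (n : ℕ) (u w : R) :
    hv (F.map (C : R →+* R[X])) n (C u) (C w) = C (hv F n u w) := by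
  simp [hv]

/-- bihomogeneous evaluation: the outer variable (degree `n`) is evaluated at `(z0, z1)`, the inner
variable (degree `m`) at `(y0, y1)` -/
noncomputable def hvv (F : R[X][X]) (m n : ℕ) (y0 y1 z0 z1 : R) : R :=
  hv (hv F n (C z0) (C z1)) m y0 y1

theorem natDegree_hv_le (F : R[X][X]) (m n : ℕ) (hF : ∀ b, (F.coeff b).natDegree ≤ m) (z0 z1 : R) :
    (hv F n (C z0) (C z1)).natDegree ≤ m := by
  unfold hv
  refine natDegree_sum_le_of_forall_le _ _ fun j _ => ?_
  rw [← C_pow, ← C_pow]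
  exact (natDegree_mul_C_le _ _).trans ((natDegree_mul_C_le _ _).trans (hF j))

theorem hvv_mul (F G : R[X][X]) {m n m' n' : ℕ} (hF : F.natDegree ≤ n) (hG : G.natDegree ≤ n')
    (hF' : ∀ b, (F.coeff b).natDegree ≤ m) (hG' : ∀ b, (G.coeff b).natDegree ≤ m')
    (y0 y1 z0 z1 : R) :
    hvv (F * G) (m + m') (n + n') y0 y1 z0 z1 =
      hvv F m n y0 y1 z0 z1 * hvv G m' n' y0 y1 z0 z1 := by
  unfold hvv
  rw [hv_mul _ _ hF hG, hv_mul _ _ (natDegree_hv_le _ _ _ hF' _ _) (natDegree_hv_le _ _ _ hG' _ _)]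

theorem hvv_sum {ι : Type*} (s : Finset ι) (F : ι → R[X][X]) (m n : ℕ) (y0 y1 z0 z1 : R) :
    hvv (∑ i ∈ s, F i) m n y0 y1 z0 z1 = ∑ i ∈ s, hvv (F i) m n y0 y1 z0 z1 := by
  unfold hvv
  rw [hv_sum, hv_sum]

theorem hvv_zero (m n : ℕ) (y0 y1 z0 z1 : R) : hvv (0 : R[X][X]) m n y0 y1 z0 z1 = 0 := by
  unfold hvv
  rw [hv_zero, hv_zero]

theorem hvv_prod (f g : R[X]) (m n : ℕ) (y0 y1 z0 z1 : R) :
    hvv (C f * g.map C) m n y0 y1 z0 z1 = hv f m y0 y1 * hv g n z0 z1 := by
  unfold hvv
  rw [hv_C_mul, hv_map_C, hv_mul_C]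

theorem hvv_coeff (F : R[X][X]) (m n : ℕ) (y0 y1 z0 z1 : R) :
    hvv F m n y0 y1 z0 z1 =
      ∑ b ∈ range (n + 1), hv (F.coeff b) m y0 y1 * (z0 ^ b * z1 ^ (n - b)) := by
  have h0 : hv F n (C z0) (C z1) = ∑ b ∈ range (n + 1), F.coeff b * C (z0 ^ b * z1 ^ (n - b)) := by
    unfold hv
    refine sum_congr rfl fun b _ => ?_
    rw [C_mul, C_pow, C_pow, mul_assoc]
  unfold hvv
  rw [h0, hv_sum]
  exact sum_congr rfl fun b _ => hv_mul_C _ _ _ _ _

end ring

section field

variable {E : Type} [Field E]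

theorem hvv_eq_bev (F : E[X][X]) (m n : ℕ) (y0 y1 z0 z1 : E) :
    hvv F m n y0 y1 z0 z1 = bev (fun a b => (F.coeff b).coeff a) m n y0 y1 z0 z1 := by
  rw [hvv_coeff]
  unfold bev hv
  rw [sum_comm]
  refine sum_congr rfl fun b _ => ?_
  rw [sum_mul]
  refine sum_congr rfl fun a _ => ?_
  ring

theorem hvv_swap (F : E[X][X]) (m n : ℕ) (y0 y1 z0 z1 : E) :
    hvv (Bivariate.swap F) n m z0 z1 y0 y1 = hvv F m n y0 y1 z0 z1 := by
  rw [hvv_eq_bev, hvv_eq_bev]
  unfold bev
  rw [sum_comm]
  refine sum_congr rfl fun b _ => ?_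
  refine sum_congr rfl fun a _ => ?_
  simp only [Pool.Agent.Helper94.AS.coeff_coeff_swap]
  ring

theorem natDegree_coeff_le_swap (F : E[X][X]) (b : ℕ) :
    (F.coeff b).natDegree ≤ (Bivariate.swap F).natDegree := by
  by_cases h : F.coeff b = 0
  · rw [h]; simp
  · apply le_natDegree_of_ne_zero
    intro h0
    have h1 := Pool.Agent.Helper94.AS.coeff_coeff_swap F (F.coeff b).natDegree b
    rw [h0, coeff_zero] at h1
    exact h (leadingCoeff_eq_zero.1 h1.symm)

theorem natDegree_swap_le (F : E[X][X]) (m : ℕ) (h : ∀ b, (F.coeff b).natDegree ≤ m) :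
    (Bivariate.swap F).natDegree ≤ m := by
  rw [natDegree_le_iff_coeff_eq_zero]
  intro a ha
  ext b
  rw [Pool.Agent.Helper94.AS.coeff_coeff_swap, coeff_zero]
  exact coeff_eq_zero_of_natDegree_lt ((h b).trans_lt ha)

end field

end Pool.Agent.Helper36.DT

end

section

set_option autoImplicit false

set_option linter.style.haveILetI false

namespace Pool.Agent.Helper38.DT

open Polynomial IntermediateField Pool.Agent.Helper16 Pool.Agent.Helper45.S4 Pool.Agent.Helper45.FR
  Pool.Agent.Helper93.RatODE Pool.Agent.Helper45.S6 Pool.Agent.Helper47.EN Pool.Agent.Helper34.Dep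

theorem ratOrbit_mono {K : Type} [Field K] {P Q : K[X]} {x : ℕ → K} {N N' : ℕ}
    (h : RatOrbit P Q x N) (hN : N' ≤ N) : RatOrbit P Q x N' :=
  ⟨h.ne, h.step, fun i j hi hj => h.inj i j (hi.trans hN) (hj.trans hN), h.fin⟩

end Pool.Agent.Helper38.DT

end

section

set_option autoImplicit false

set_option linter.style.haveILetI false

namespace Pool.Agent.Helper34.Dep

open Polynomial Pool.Agent.Helper16 Pool.Agent.Helper47.RR IntermediateField

variable {k M M' K : Type} [Field k] [Field M] [Field M'] [Field K] [Algebra k M] [Algebra k M']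
  [Algebra k K]

/-- the number of embeddings with a prescribed value at `T` -/
theorem card_embeddings_le (T : M) [FiniteDimensional k⟮T⟯ M] (T' : K) :
    {ψ : M →ₐ[k] K | ψ T = T'}.Finite ∧
      {ψ : M →ₐ[k] K | ψ T = T'}.ncard ≤ Module.finrank k⟮T⟯ M := by
  classical
  by_cases hne : ∃ ψ₀ : M →ₐ[k] K, ψ₀ T = T'
  swap
  · have : {ψ : M →ₐ[k] K | ψ T = T'} = ∅ := by
      ext ψ
      simp only [Set.mem_ofPred_eq, Set.mem_empty_iff_false, iff_false]
      exact fun h => hne ⟨ψ, h⟩
    rw [this]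
    simp
  obtain ⟨ψ₀, hψ₀⟩ := hne
  letI : Algebra k⟮T⟯ K := ((ψ₀ : M →+* K).comp (algebraMap k⟮T⟯ M)).toAlgebra
  have hT : ∀ (ψ : M →ₐ[k] K), ψ T = T' → ∀ x : k⟮T⟯, ψ (x : M) = ψ₀ (x : M) := by
    intro ψ hψ x
    have h1 : ψ.comp (k⟮T⟯).val = ψ₀.comp (k⟮T⟯).val := by
      apply IntermediateField.adjoin_algHom_ext
      intro y hy
      rw [Set.mem_singleton_iff] at hy
      subst hy
      change ψ y = ψ₀ y
      rw [hψ, hψ₀]
    exact DFunLike.congr_fun h1 x
  let f : {ψ : M →ₐ[k] K | ψ T = T'} → (M →ₐ[k⟮T⟯] K) := fun ψ =>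
    { (ψ.1 : M →+* K) with
      commutes' := fun x => hT ψ.1 ψ.2 x }
  have hf : Function.Injective f := by
    intro a b hab
    apply Subtype.ext
    ext x
    exact DFunLike.congr_fun hab x
  haveI : Finite {ψ : M →ₐ[k] K | ψ T = T'} := Finite.of_injective f hf
  refine ⟨Set.toFinite _, ?_⟩
  rw [← Nat.card_coe_set_eq]
  exact (Nat.card_le_card_of_injective f hf).trans (card_algHom_le_finrank _ _ _)

end Pool.Agent.Helper34.Dep

end

section

set_option autoImplicit false

set_option linter.style.haveILetI false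

namespace Pool.Agent.Helper34.Dep

open Polynomial Pool.Agent.Helper16 Pool.Agent.Helper47.RR IntermediateField

variable {k K B : Type} [Field k] [Field K] [Field B] [Algebra k K] [Algebra k B]

theorem isAlgebraic_of_trdeg (htr : Algebra.trdeg k K = 1) (E : IntermediateField k K) (T : K)
    (hTE : T ∈ E) (hT : Transcendental k T) : Algebra.IsAlgebraic E K := by
  have h1 := trdeg_add_eq k E (A := K)
  have h3 : Algebra.trdeg k E ≠ 0 := by
    intro h
    rw [trdeg_eq_zero_iff] at h
    have h4 : IsAlgebraic k (⟨T, hTE⟩ : E) := Algebra.IsAlgebraic.isAlgebraic _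
    exact hT (h4.algebraMap (A := K))
  rw [← trdeg_eq_zero_iff]
  rw [htr] at h1
  have h5 : 1 ≤ Algebra.trdeg k E := Cardinal.one_le_iff_ne_zero.2 h3
  have h6 : Algebra.trdeg k E < Cardinal.aleph0 := by
    refine lt_of_le_of_lt ?_ Cardinal.one_lt_aleph0
    rw [← h1]; exact le_self_add
  have h7 : Algebra.trdeg E K < Cardinal.aleph0 := by
    refine lt_of_le_of_lt ?_ Cardinal.one_lt_aleph0
    rw [← h1]; exact self_le_add_left _ _
  obtain ⟨a, ha⟩ := Cardinal.lt_aleph0.1 h6
  obtain ⟨b, hb⟩ := Cardinal.lt_aleph0.1 h7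
  rw [ha] at h5 h1
  rw [hb] at h1 ⊢
  norm_cast at h1 h5 ⊢
  omega

theorem alg_end_surjective [IsAlgClosed K] (htr : Algebra.trdeg k K = 1) (T : K)
    (hT : Transcendental k T) (ρ : K →ₐ[k] K) : Function.Surjective ρ := by
  have h1 : Transcendental k (ρ T) := by
    intro h
    exact hT ((isAlgebraic_algHom_iff ρ ρ.toRingHom.injective).1 h)
  haveI := isAlgebraic_of_trdeg htr ρ.fieldRange (ρ T) ⟨T, rfl⟩ h1
  haveI : IsAlgClosed ρ.fieldRange :=
    IsAlgClosed.of_ringEquiv K ρ.fieldRange (AlgEquiv.ofInjectiveField ρ).toRingEquiv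
  have h2 := (IsAlgClosed.algebraMap_bijective_of_isIntegral (k := ρ.fieldRange) (K := K)).2
  intro x
  obtain ⟨⟨y, z, hz⟩, hy⟩ := h2 x
  refine ⟨z, ?_⟩
  rw [← hy]
  exact hz

end Pool.Agent.Helper34.Dep

end

section

set_option autoImplicit false

set_option linter.style.haveILetI false

namespace Pool.Agent.Helper45.M8

open Polynomial IntermediateField Pool.Agent.Helper16 Pool.Agent.Helper45.FF Pool.Agent.Helper45.FR
  Pool.Agent.Helper45.S6 Pool.Agent.Helper93.RatODE

theorem ratOrbit_mono' {K : Type*} [Field K] {P Q : K[X]} {x : ℕ → K} {N N' : ℕ}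
    (h : RatOrbit P Q x N) (hN : N' ≤ N) : RatOrbit P Q x N' :=
  ⟨h.ne, h.step, fun i j hi hj hij => h.inj i j (hi.trans hN) (hj.trans hN) hij, h.fin⟩

end Pool.Agent.Helper45.M8

end

section

set_option autoImplicit false

open Finset Polynomial

namespace Pool.Agent.Helper98.PS

open Pool.Agent.Helper93.RatODE Pool.Agent.Helper55.RD

variable {K : Type*} [Field K]

section cdet

/-- coefficient determinant -/
noncomputable def cdet {ι : Type*} [Fintype ι] [DecidableEq ι] (p : ι → K[X]) (e : ι → ℕ) : K :=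
  (Matrix.of fun i j => (p i).coeff (e j)).det

variable {ι κ : Type*} [Fintype ι] [DecidableEq ι] [Fintype κ] [DecidableEq κ]

lemma cdet_comp (φ : κ ≃ ι) (p : ι → K[X]) (e : ι → ℕ) :
    cdet (fun i => p (φ i)) (fun i => e (φ i)) = cdet p e :=
  Matrix.det_submatrix_equiv_self φ (Matrix.of fun i j => (p i).coeff (e j))

lemma cdet_sq_perm (p : ι → K[X]) {N N' : ℕ} (e : ι ≃ Fin N) (e' : ι ≃ Fin N') :
    cdet p (fun i => (e i : ℕ)) ^ 2 = cdet p (fun i => (e' i : ℕ)) ^ 2 := by
  have hN : N = N' := by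
    have := Fintype.card_congr (e.symm.trans e')
    simpa using this
  subst hN
  have h : (Matrix.of fun i j => (p i).coeff (e' j : ℕ)) =
      (Matrix.of fun i j => (p i).coeff (e j : ℕ)).submatrix id (e'.trans e.symm) := by
    ext i j
    simp
  rw [cdet, cdet, h, Matrix.det_permute', mul_pow]
  have h2 : (((Equiv.Perm.sign (e'.trans e.symm) : ℤˣ) : ℤ) : K) ^ 2 = 1 := by
    rw [← Int.cast_pow, ← Units.val_pow_eq_pow_val, Int.units_sq]
    simp
  rw [h2, one_mul]

/-- the square of the coefficient determinant -/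
noncomputable def csq (p : ι → K[X]) : K := cdet p (fun i => (Fintype.equivFin ι i : ℕ)) ^ 2

lemma csq_eq (p : ι → K[X]) {N : ℕ} (e : ι ≃ Fin N) : csq p = cdet p (fun i => (e i : ℕ)) ^ 2 :=
  cdet_sq_perm p _ e

lemma csq_comp (φ : κ ≃ ι) (p : ι → K[X]) : csq (fun i => p (φ i)) = csq p := by
  rw [csq_eq (fun i => p (φ i)) (φ.trans (Fintype.equivFin ι)), csq]
  exact congrArg (· ^ 2) (cdet_comp φ p (fun i => (Fintype.equivFin ι i : ℕ)))

lemma csq_base (M : Matrix ι ι K) (p q : ι → K[X]) (h : ∀ i, p i = ∑ j, C (M i j) * q j) :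
    csq p = M.det ^ 2 * csq q := by
  have h1 : (Matrix.of fun i j => (p i).coeff (Fintype.equivFin ι j : ℕ)) =
      M * (Matrix.of fun i j => (q i).coeff (Fintype.equivFin ι j : ℕ)) := by
    ext i j
    rw [Matrix.mul_apply, Matrix.of_apply, h i, finsetSum_coeff]
    simp
  rw [csq, csq, cdet, h1, Matrix.det_mul, mul_pow]
  rfl

lemma csq_sylvester {f g : K[X]} {m n : ℕ} (hf : f.natDegree ≤ m) (hg : g.natDegree ≤ n) :
    csq (Sum.elim (fun i : Fin m => X ^ (i : ℕ) * g) (fun i : Fin n => X ^ (i : ℕ) * f)) =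
      resultant f g m n ^ 2 := by
  rw [csq_eq _ finSumFinEquiv, cdet, resultant, ← Matrix.det_transpose (sylvester f g m n)]
  congr 1
  rw [← Matrix.det_submatrix_equiv_self finSumFinEquiv (sylvester f g m n).transpose]
  congr 1
  ext i j
  rw [Matrix.submatrix_apply, Matrix.transpose_apply, Matrix.of_apply]
  rcases i with i | i
  · rw [Sum.elim_inl, coeff_X_pow_mul', finSumFinEquiv_apply_left, sylvester, Matrix.of_apply,
      Fin.addCases_left]
    by_cases h1 : (i : ℕ) ≤ (finSumFinEquiv j : ℕ)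
    · by_cases h2 : (finSumFinEquiv j : ℕ) ≤ i + n
      · rw [if_pos h1, if_pos ⟨h1, h2⟩]
      · rw [if_pos h1, if_neg (fun h => h2 h.2), coeff_eq_zero_of_natDegree_lt (by omega)]
    · rw [if_neg h1, if_neg (fun h => h1 h.1)]
  · rw [Sum.elim_inr, coeff_X_pow_mul', finSumFinEquiv_apply_right, sylvester, Matrix.of_apply,
      Fin.addCases_right]
    by_cases h1 : (i : ℕ) ≤ (finSumFinEquiv j : ℕ)
    · by_cases h2 : (finSumFinEquiv j : ℕ) ≤ i + m
      · rw [if_pos h1, if_pos ⟨h1, h2⟩]
      · rw [if_pos h1, if_neg (fun h => h2 h.2), coeff_eq_zero_of_natDegree_lt (by omega)]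
    · rw [if_neg h1, if_neg (fun h => h1 h.1)]

lemma csq_isEmpty [IsEmpty ι] (p : ι → K[X]) : csq p = 1 := by
  rw [csq, cdet, Matrix.det_isEmpty, one_pow]

end cdet

end Pool.Agent.Helper98.PS

end

section

set_option autoImplicit false

open Finset

namespace Pool.Agent.Helper11.PS

open Pool.Agent.Helper33

/-- the cut: `max (0, a + b - (m - 1))` -/
def cc (m a b : ℕ) : ℕ := a + b + 1 - m

/-- the coefficients of `x ^ a y ^ c (y - x) ^ (b - c)`, `c = cc m a b` -/
def tt (K : Type*) [Field K] (m a b p q : ℕ) : K :=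
  if cc m a b ≤ q ∧ q ≤ b ∧ p + q = a + b then
    (-1) ^ (b - q) * ((b - cc m a b).choose (q - cc m a b) : K) else 0

lemma sum_tt {K : Type*} [Field K] (m a b : ℕ) (ha : a < m) (hb : b < m) (x y : K) :
    ∑ q ∈ range m, ∑ p ∈ range m, x ^ p * y ^ q * tt K m a b p q =
      x ^ a * y ^ cc m a b * (y - x) ^ (b - cc m a b) := by
  have hc : cc m a b ≤ b := by unfold cc; omega
  have h1 : ∀ q ∈ range m, ∑ p ∈ range m, x ^ p * y ^ q * tt K m a b p q =
      if cc m a b ≤ q ∧ q ≤ b then x ^ (a + b - q) * y ^ q *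
        ((-1) ^ (b - q) * ((b - cc m a b).choose (q - cc m a b) : K)) else 0 := by
    intro q hq
    by_cases h : cc m a b ≤ q ∧ q ≤ b
    · rw [if_pos h, Finset.sum_eq_single (a + b - q)]
      · rw [tt, if_pos ⟨h.1, h.2, by omega⟩]
      · intro p _ hp
        rw [tt, if_neg, mul_zero]
        rintro ⟨-, -, h3⟩
        omega
      · intro hp
        exfalso
        apply hp
        rw [mem_range]
        have := h.1
        unfold cc at this
        omega
    · rw [if_neg h]
      apply Finset.sum_eq_zero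
      intro p _
      rw [tt, if_neg, mul_zero]
      rintro ⟨h1, h2, -⟩
      exact h ⟨h1, h2⟩
  rw [Finset.sum_congr rfl h1, ← Finset.sum_filter]
  have h2 : (range m).filter (fun q => cc m a b ≤ q ∧ q ≤ b) = Ico (cc m a b) (b + 1) := by
    ext q
    simp only [mem_filter, mem_range, mem_Ico]
    omega
  rw [h2, Finset.sum_Ico_eq_sum_range]
  have h3 : b + 1 - cc m a b = (b - cc m a b) + 1 := by omega
  rw [h3, sub_eq_add_neg y x, add_pow, Finset.mul_sum]
  apply Finset.sum_congr rfl
  intro j hj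
  rw [mem_range] at hj
  have e1 : a + b - (cc m a b + j) = a + (b - cc m a b - j) := by omega
  have e2 : b - (cc m a b + j) = b - cc m a b - j := by omega
  have e3 : cc m a b + j - cc m a b = j := by omega
  rw [e1, e2, e3, pow_add, pow_add, neg_pow x]
  ring

lemma tt_diag {K : Type*} [Field K] (m a b : ℕ) (ha : a < m) (p : ℕ) :
    tt K m a b p b = if p = a then 1 else 0 := by
  have hc : cc m a b ≤ b := by unfold cc; omega
  unfold tt
  by_cases h : p = a
  · rw [if_pos ⟨hc, le_rfl, by omega⟩, if_pos h]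
    simp
  · rw [if_neg, if_neg h]
    rintro ⟨-, -, h3⟩
    omega

lemma tt_lt {K : Type*} [Field K] (m a b p q : ℕ) (h : b < q) : tt K m a b p q = 0 := by
  unfold tt
  rw [if_neg]
  rintro ⟨-, h2, -⟩
  omega

/-- the change of basis -/
def TM (K : Type*) [Field K] (m : ℕ) : Matrix (Fin m × Fin m) (Fin m × Fin m) K :=
  Matrix.of fun pq ab => tt K m ab.1 ab.2 pq.1 pq.2

lemma det_TM (K : Type*) [Field K] (m : ℕ) : (TM K m).det = 1 := by
  have hT : (TM K m).BlockTriangular (fun pq => pq.2) := by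
    intro pq ab h
    exact tt_lt m ab.1 ab.2 pq.1 pq.2 h
  rw [hT.det_fintype]
  apply Finset.prod_eq_one
  intro k _
  have : (TM K m).toSquareBlock (fun pq => pq.2) k = 1 := by
    ext pq ab
    obtain ⟨⟨p, q⟩, hq⟩ := pq
    obtain ⟨⟨a, b⟩, hb⟩ := ab
    simp only at hq hb
    subst hq
    subst hb
    have e : (TM K m).toSquareBlock (fun pq => pq.2) b ⟨(p, b), rfl⟩ ⟨(a, b), rfl⟩ =
        tt K m a b p b := rfl
    refine e.trans ?_
    rw [tt_diag m a b a.2]
    simp only [Matrix.one_apply, Subtype.mk.injEq, Prod.mk.injEq, and_true, Fin.ext_iff]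
  rw [this, Matrix.det_one]

lemma sum_gain (m : ℕ) : (∑ ab : Fin m × Fin m, ((((ab.2 : ℕ) - cc m ab.1 ab.2 : ℕ)) : ℝ)) =
    (m * (m - 1) * (2 * m - 1) / 6 : ℝ) := by
  rw [Fintype.sum_prod_type_right]
  have h1 : ∀ b : Fin m, (∑ a : Fin m, ((((b : ℕ) - cc m a b : ℕ)) : ℝ)) =
      m * (b : ℝ) - (b : ℝ) * (b + 1) / 2 := by
    intro b
    rw [Fin.sum_univ_eq_sum_range (fun a => ((((b : ℕ) - cc m a b : ℕ)) : ℝ)) m]
    obtain ⟨b, hb⟩ := b
    simp only
    obtain ⟨n, rfl⟩ : ∃ n, m = n + b := ⟨m - b, by omega⟩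
    rw [Finset.sum_range_add]
    have e1 : ∀ a ∈ range n, ((b - cc (n + b) a b : ℕ) : ℝ) = b := by
      intro a ha
      rw [mem_range] at ha
      have : b - cc (n + b) a b = b := by unfold cc; omega
      rw [this]
    have e2 : ∀ j ∈ range b, ((b - cc (n + b) (n + j) b : ℕ) : ℝ) = (b - 1 : ℝ) - j := by
      intro j hj
      rw [mem_range] at hj
      have h3 : cc (n + b) (n + j) b = j + 1 := by unfold cc; omega
      rw [h3, Nat.cast_sub (by omega)]
      push_cast
      ring
    rw [Finset.sum_congr rfl e1, Finset.sum_congr rfl e2, Finset.sum_sub_distrib,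
      Finset.sum_const, Finset.sum_const, card_range, card_range, nsmul_eq_mul, nsmul_eq_mul]
    have e3 : ∀ k : ℕ, ∑ j ∈ range k, (j : ℝ) = k * (k - 1) / 2 := by
      intro k
      induction k with
      | zero => simp
      | succ k ih => rw [Finset.sum_range_succ, ih]; push_cast; ring
    rw [e3]
    push_cast
    ring
  rw [Finset.sum_congr rfl (fun b _ => h1 b)]
  have h2 : ∀ M : ℝ, ∀ n : ℕ, ∑ b ∈ range n, (M * (b : ℝ) - (b : ℝ) * (b + 1) / 2) =
      M * n * (n - 1) / 2 - (n - 1) * n * (n + 1) / 6 := by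
    intro M n
    induction n with
    | zero => simp
    | succ k ih => rw [Finset.sum_range_succ, ih]; push_cast; ring
  rw [Fin.sum_univ_eq_sum_range (fun b => ((m : ℝ) * (b : ℝ) - (b : ℝ) * (b + 1) / 2)) m, h2]
  ring

end Pool.Agent.Helper11.PS

end

section

set_option autoImplicit false

set_option linter.unusedSectionVars false

open Finset Polynomial

namespace Pool.Agent.Helper36.S5

variable {κ : Type*} [Field κ]

lemma re_one_div_one_sub {z : ℂ} (hz : z ≠ 1) (n : ℕ) (hn : 0 < n) (h : z ^ n = 1) :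
    (1 / (1 - z)).re = 1 / 2 := by
  have h1 : ‖z‖ = 1 := by
    have h2 : ‖z‖ ^ n = 1 := by rw [← norm_pow, h, norm_one]
    exact (pow_eq_one_iff_of_nonneg (norm_nonneg z) hn.ne').mp h2
  have h3 : z.re ^ 2 + z.im ^ 2 = 1 := by
    have h4 : Complex.normSq z = 1 := by rw [Complex.normSq_eq_norm_sq, h1]; norm_num
    rw [Complex.normSq_apply] at h4
    (clear * - h4; nlinarith)
  have h5 : z.re ≠ 1 := by
    intro h6
    apply hz
    rw [h6] at h3
    have h7 : z.im = 0 := by (clear * - h3; nlinarith)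
    apply Complex.ext
    · rw [h6, Complex.one_re]
    · rw [h7, Complex.one_im]
  rw [one_div, Complex.inv_re, Complex.normSq_apply]
  simp only [Complex.sub_re, Complex.one_re, Complex.sub_im, Complex.one_im]
  have h8 : (1 - z.re) * (1 - z.re) + (0 - z.im) * (0 - z.im) = 2 * (1 - z.re) := by (clear * - h3; nlinarith)
  rw [h8]
  have h9 : 1 - z.re ≠ 0 := fun h => h5 (by (clear * - h; linarith))
  field_simp

/-- the sum of `1/(1-λ)` is not one -/
lemma sum_ne_one [CharZero κ] {ι : Type*} (s : Finset ι) (lam : ι → κ)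
    (hl : ∀ i ∈ s, lam i = 0 ∨ (lam i ≠ 1 ∧ ∃ n : ℕ, 0 < n ∧ lam i ^ n = 1))
    (hs : 3 ≤ s.card) : ∑ i ∈ s, 1 / (1 - lam i) ≠ 1 := by
  classical
  intro hsum
  have halg : ∀ i ∈ s, IsAlgebraic ℚ (lam i) := by
    intro i hi
    rcases hl i hi with h | ⟨_, n, hn, h⟩
    · rw [h]; exact isAlgebraic_zero
    · refine ⟨X ^ n - 1, ?_, ?_⟩
      · exact (monic_X_pow_sub_C (1 : ℚ) hn.ne').ne_zero
      · simp [h]
  have hex : ∀ i : ι, ∃ m : algebraicClosure ℚ κ, i ∈ s → (m : κ) = lam i := by
    intro i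
    by_cases hi : i ∈ s
    · exact ⟨⟨lam i, mem_algebraicClosure_iff.mpr (halg i hi)⟩, fun _ => rfl⟩
    · exact ⟨0, fun h => absurd h hi⟩
  choose m hm using hex
  have h1 : ∑ i ∈ s, 1 / (1 - m i) = 1 := by
    apply Subtype.ext
    push_cast
    refine Eq.trans ?_ hsum
    refine sum_congr rfl fun i hi => ?_
    rw [hm i hi]
  have : Algebra.IsAlgebraic ℚ (algebraicClosure ℚ κ) := algebraicClosure.isAlgebraic ℚ κ
  obtain ⟨f⟩ : Nonempty ((algebraicClosure ℚ κ) →+* ℂ) :=
    ⟨(IsAlgClosed.lift : (algebraicClosure ℚ κ) →ₐ[ℚ] ℂ).toRingHom⟩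
  have h2 := congrArg f h1
  rw [map_sum, map_one] at h2
  have h3 := congrArg Complex.re h2
  rw [Complex.re_sum, Complex.one_re] at h3
  have h4 : ∀ i ∈ s, (1 / 2 : ℝ) ≤ (f (1 / (1 - m i))).re := by
    intro i hi
    rw [map_div₀, map_one, map_sub, map_one]
    rcases hl i hi with h | ⟨hne, n, hn, h⟩
    · have h5 : m i = 0 := by
        apply Subtype.ext
        rw [hm i hi, h]; rfl
      rw [h5, map_zero]; norm_num
    · have h5 : f (m i) ^ n = 1 := by
        rw [← map_pow]
        have : m i ^ n = 1 := by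
          apply Subtype.ext
          push_cast
          rw [hm i hi, h]
        rw [this, map_one]
      have h6 : f (m i) ≠ 1 := by
        intro h7
        apply hne
        have h8 : m i = 1 := f.injective (by rw [h7, map_one])
        rw [← hm i hi, h8]; rfl
      rw [re_one_div_one_sub h6 n hn h5]
  have h5 := Finset.sum_le_sum h4
  rw [h3, sum_const, nsmul_eq_mul] at h5
  have h6 : (3 : ℝ) ≤ s.card := by exact_mod_cast hs
  (clear * - h5 h6; linarith)

end Pool.Agent.Helper36.S5

end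

section

set_option autoImplicit false

open Finset Polynomial

namespace Pool.Agent.Helper36.S5

section XDeg

variable {R : Type*} [CommRing R]

/-- all coefficients have degree at most `D` -/
def XDeg (Q : R[X][X]) (D : ℕ) : Prop := ∀ i, (Q.coeff i).natDegree ≤ D

namespace XDeg

lemma mono {Q : R[X][X]} {D D' : ℕ} (h : XDeg Q D) (hD : D ≤ D') : XDeg Q D' :=
  fun i => (h i).trans hD

lemma zero (D : ℕ) : XDeg (0 : R[X][X]) D := fun i => by simp

lemma add {P Q : R[X][X]} {D : ℕ} (hP : XDeg P D) (hQ : XDeg Q D) : XDeg (P + Q) D :=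
  fun i => by rw [coeff_add]; exact natDegree_add_le_of_degree_le (hP i) (hQ i)

lemma neg {P : R[X][X]} {D : ℕ} (hP : XDeg P D) : XDeg (-P) D :=
  fun i => by rw [coeff_neg, natDegree_neg]; exact hP i

lemma sub {P Q : R[X][X]} {D : ℕ} (hP : XDeg P D) (hQ : XDeg Q D) : XDeg (P - Q) D := by
  rw [sub_eq_add_neg]; exact hP.add hQ.neg

lemma mul {P Q : R[X][X]} {D D' : ℕ} (hP : XDeg P D) (hQ : XDeg Q D') :
    XDeg (P * Q) (D + D') := fun i => by
  rw [coeff_mul]
  exact natDegree_sum_le_of_forall_le _ _ fun j _ =>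
    natDegree_mul_le_of_le (hP j.1) (hQ j.2)

lemma of_C {p : R[X]} {D : ℕ} (hp : p.natDegree ≤ D) : XDeg (C p) D := fun i => by
  rw [coeff_C]
  split_ifs
  · exact hp
  · simp

lemma of_X (D : ℕ) : XDeg (X : R[X][X]) D := fun i => by
  rw [coeff_X]
  split_ifs
  · simp
  · simp

lemma pow {P : R[X][X]} {D : ℕ} (hP : XDeg P D) (k : ℕ) : XDeg (P ^ k) (k * D) := by
  induction k with
  | zero => rw [pow_zero, zero_mul, ← C_1]; exact of_C (by simp)
  | succ k ih =>
    rw [pow_succ]
    have := ih.mul hP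
    rwa [← Nat.succ_mul] at this

lemma sum {ι : Type*} (s : Finset ι) {P : ι → R[X][X]} {D : ℕ}
    (h : ∀ i ∈ s, XDeg (P i) D) : XDeg (∑ i ∈ s, P i) D := by
  classical
  induction s using Finset.induction_on with
  | empty => exact zero D
  | insert a s ha ih =>
    rw [sum_insert ha]
    exact (h a (mem_insert_self a s)).add (ih fun i hi => h i (mem_insert_of_mem hi))

end XDeg

end XDeg

end Pool.Agent.Helper36.S5

end

section

set_option autoImplicit false

set_option linter.unusedSectionVars false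

open Finset Polynomial

namespace Pool.Agent.Helper36.S5

variable {O κ : Type*} [CommRing O] [IsDomain O] [Field κ]

/-- `O` is a discrete valuation ring with uniformizer `τ` and residue map `π` -/
structure Loc (π : O →+* κ) (τ : O) : Prop where
  ne : τ ≠ 0
  ker : ∀ x, π x = 0 ↔ τ ∣ x
  sep : ∀ x : O, (∀ ν : ℕ, τ ^ ν ∣ x) → x = 0

namespace Loc

variable {π : O →+* κ} {τ : O} (L : Loc π τ)

include L

lemma cancel (a b : O) (hb : π b ≠ 0) (ν : ℕ) (h : τ ^ ν ∣ a * b) : τ ^ ν ∣ a := by
  induction ν generalizing a with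
  | zero => simp
  | succ ν ih =>
    have h1 : π (a * b) = 0 := (L.ker _).mpr ((dvd_pow_self τ (Nat.succ_ne_zero ν)).trans h)
    rw [map_mul] at h1
    have h2 : τ ∣ a := (L.ker a).mp ((mul_eq_zero.mp h1).resolve_right hb)
    obtain ⟨a', rfl⟩ := h2
    rw [pow_succ'] at h ⊢
    rw [mul_assoc] at h
    exact mul_dvd_mul_left τ (ih a' ((mul_dvd_mul_iff_left L.ne).mp h))

lemma map_eq_zero (p : O[X]) : p.map π = 0 ↔ C τ ∣ p := by
  rw [C_dvd_iff_dvd_coeff, Polynomial.ext_iff]
  simp only [coeff_map, coeff_zero, L.ker]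

lemma map_map_eq_zero (p : O[X][X]) : p.map (mapRingHom π) = 0 ↔ C (C τ) ∣ p := by
  rw [C_dvd_iff_dvd_coeff, Polynomial.ext_iff]
  simp only [coeff_map, coeff_zero, coe_mapRingHom, L.map_eq_zero]

lemma dvd_of_eval (ν : ℕ) : ∀ (p : O[X]) (N : ℕ), p.natDegree ≤ N → ∀ (s : Finset ℕ)
    (y : ℕ → O), Set.InjOn (fun j => π (y j)) s → N < s.card →
    (∀ j ∈ s, τ ^ ν ∣ p.eval (y j)) → C (τ ^ ν) ∣ p := by
  classical
  induction ν with
  | zero => intro p N _ s y _ _ _; simp
  | succ ν ih =>
    intro p N hN s y hinj hs hd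
    have h1 : p.map π = 0 := by
      apply Polynomial.eq_zero_of_natDegree_lt_card_of_eval_eq_zero' (p.map π)
        (s.image fun j => π (y j))
      · intro z hz
        obtain ⟨j, hj, rfl⟩ := mem_image.mp hz
        rw [eval_map_apply]
        exact (L.ker _).mpr ((dvd_pow_self τ (Nat.succ_ne_zero ν)).trans (hd j hj))
      · rw [card_image_of_injOn hinj]
        exact (natDegree_map_le.trans hN).trans_lt hs
    obtain ⟨q, rfl⟩ := (L.map_eq_zero p).mp h1
    have h2 : C (τ ^ ν) ∣ q := by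
      apply ih q N ?_ s y hinj hs
      · intro j hj
        have := hd j hj
        rw [eval_mul, eval_C, pow_succ'] at this
        exact (mul_dvd_mul_iff_left L.ne).mp this
      · rwa [natDegree_C_mul L.ne] at hN
    rw [pow_succ', C_mul]
    exact mul_dvd_mul_left _ h2

lemma exists_leading (P : O[X][X]) (hP : P ≠ 0) : ∃ (t : ℕ) (Ps : O[X][X]),
    P = C (C (τ ^ t)) * Ps ∧ Ps.map (mapRingHom π) ≠ 0 := by
  have h1 : ∃ i j, (P.coeff i).coeff j ≠ 0 := by
    by_contra hcon
    push Not at hcon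
    apply hP
    ext i j
    simp [hcon i j]
  obtain ⟨i, j, hij⟩ := h1
  obtain ⟨N, hN⟩ : ∃ N : ℕ, ¬ τ ^ N ∣ (P.coeff i).coeff j := by
    by_contra hcon
    push Not at hcon
    exact hij (L.sep _ hcon)
  clear hij hP
  induction N generalizing P with
  | zero => simp at hN
  | succ N ih =>
    by_cases hm : P.map (mapRingHom π) = 0
    · obtain ⟨P₁, rfl⟩ := (L.map_map_eq_zero P).mp hm
      obtain ⟨t, Ps, h1, h2⟩ := ih P₁ (by
        intro h
        apply hN
        rw [coeff_C_mul, coeff_C_mul, pow_succ']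
        exact mul_dvd_mul_left τ h)
      refine ⟨t + 1, Ps, ?_, h2⟩
      rw [h1, pow_succ', C_mul, C_mul]; ring
    · exact ⟨0, P, by simp, hm⟩

end Loc

lemma eval_eval (P : O[X][X]) (r : O[X]) (x : O) :
    eval x (eval r P) = evalEval x (eval x r) P := by
  rw [evalEval, ← coe_evalRingHom x, ← eval₂_at_apply, ← eval₂_at_apply]
  congr 1
  simp

/-- the shift `P(X, X + cY)` -/
noncomputable def shift (c : O) (P : O[X][X]) : O[X][X] := P.comp (C X + C (C c) * X)

lemma shift_eval (c : O) (P : O[X][X]) (x u : O) :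
    evalEval x u (shift c P) = evalEval x (x + c * u) P := by
  rw [shift, evalEval, eval_comp, eval_eval]
  simp

lemma shift_ne_zero (c : O) (hc : c ≠ 0) (P : O[X][X]) (hP : P ≠ 0) : shift c P ≠ 0 := by
  intro h
  rw [shift, comp_eq_zero_iff] at h
  rcases h with h | ⟨_, h⟩
  · exact hP h
  · have := congrArg (fun q => q.coeff 1) h
    simp [coeff_X, coeff_C] at this
    exact hc this

lemma shift_natDegree (c : O) (P : O[X][X]) : (shift c P).natDegree ≤ P.natDegree := by
  rw [shift, natDegree_comp]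
  have : (C X + C (C c) * X : O[X][X]).natDegree ≤ 1 := by
    refine natDegree_add_le_of_degree_le ?_ ?_
    · simp
    · exact (natDegree_C_mul_le _ _).trans natDegree_X_le
  calc P.natDegree * _ ≤ P.natDegree * 1 := Nat.mul_le_mul_left _ this
    _ = _ := mul_one _

lemma shift_XDeg (c : O) (P : O[X][X]) {m D : ℕ} (hP : P.natDegree ≤ m) (hD : XDeg P D) :
    XDeg (shift c P) (D + m) := by
  rw [shift, comp, eval₂_eq_sum_range' C (lt_of_le_of_lt hP (Nat.lt_succ_self m))]
  apply XDeg.sum
  intro i hi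
  have hi' : i ≤ m := Nat.lt_succ_iff.mp (mem_range.mp hi)
  have h1 : XDeg (C X + C (C c) * X : O[X][X]) 1 := by
    refine XDeg.add (XDeg.of_C natDegree_X_le) ?_
    have := (XDeg.of_C (p := (C c : O[X])) (D := 1) (by simp)).mul (XDeg.of_X (R := O) 0)
    rwa [add_zero] at this
  refine ((XDeg.of_C (hD i)).mul (h1.pow i)).mono ?_
  omega

end Pool.Agent.Helper36.S5

end

section

set_option autoImplicit false

set_option linter.unusedSectionVars false

open Finset Polynomial

namespace Pool.Agent.Helper36.S5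

variable {O κ : Type*} [CommRing O] [IsDomain O] [Field κ]

/-- Two orbits (for `A/B` and `A₂/B₂`) with the same reduction; all points finite. -/
structure Pair (π : O →+* κ) (d : ℕ) (A B A₂ B₂ : O[X]) (x y : ℕ → O) (n : ℕ) : Prop where
  hA : A.natDegree ≤ d
  hB : B.natDegree ≤ d
  hA₂ : A₂.natDegree ≤ d
  hB₂ : B₂.natDegree ≤ d
  rA : A₂.map π = A.map π
  rB : B₂.map π = B.map π
  sx : ∀ j, j < n → x (j + 1) * B.eval (x j) = A.eval (x j)
  sy : ∀ j, j < n → y (j + 1) * B₂.eval (y j) = A₂.eval (y j)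
  inj : ∀ i j, i ≤ n → j ≤ n → π (x i) = π (x j) → i = j
  red : ∀ j, j ≤ n → π (y j) = π (x j)

variable {π : O →+* κ} {τ : O} {d : ℕ} {A B A₂ B₂ : O[X]} {x y : ℕ → O} {n : ℕ}

lemma Pair.stepx (P : Pair π d A B A₂ B₂ x y n) (j : ℕ) (hj : j < n) :
    π (x (j + 1)) * (B.map π).eval (π (x j)) = (A.map π).eval (π (x j)) := by
  rw [eval_map_apply, eval_map_apply, ← map_mul, P.sx j hj]

end Pool.Agent.Helper36.S5

end

section

set_option autoImplicit false

open Finset Polynomial

namespace Pool.Agent.Helper35.PS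

open Pool.Agent.Helper33 Pool.Agent.Helper33.PS Pool.Agent.Helper33.UB Pool.Agent.Helper45.FR
  Pool.Agent.Helper51.RatTree Pool.Agent.Helper93.RatODE

lemma mobius_sub {K : Type*} [Field K] {a b c e : K} {x x' : K} (hx : c * x + e ≠ 0)
    (hx' : c * x' + e ≠ 0) :
    (a * x + b) / (c * x + e) - (a * x' + b) / (c * x' + e) =
      (a * e - b * c) * (x - x') / ((c * x + e) * (c * x' + e)) := by
  rw [div_sub_div _ _ hx hx']
  congr 1
  ring

/-- M1b: Moebius invariance of the cross ratio (x = old points, z = new points, all finite) -/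
theorem cr_mobius {K : Type*} [Field K] {a b c e : K} (h : a * e - b * c ≠ 0) (x z : Fin 4 → K)
    (hx : ∀ i, c * x i + e ≠ 0) (hz : ∀ i, z i = (a * x i + b) / (c * x i + e)) :
    Helper33.PS.cr (z 0) (z 1) (z 2) (z 3) = Helper33.PS.cr (x 0) (x 1) (x 2) (x 3) := by
  have hs : ∀ i j, z i - z j = (a * e - b * c) * (x i - x j) / ((c * x i + e) * (c * x j + e)) := by
    intro i j
    rw [hz i, hz j, mobius_sub (hx i) (hx j)]
  have h0 := hx 0
  have h1 := hx 1
  have h2 := hx 2
  have h3 := hx 3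
  unfold Helper33.PS.cr
  rw [hs 3 0, hs 2 1, hs 3 1, hs 2 0]
  have e1 : (a * e - b * c) * (x 3 - x 0) / ((c * x 3 + e) * (c * x 0 + e)) *
      ((a * e - b * c) * (x 2 - x 1) / ((c * x 2 + e) * (c * x 1 + e))) =
      ((a * e - b * c) ^ 2 / ((c * x 0 + e) * (c * x 1 + e) * (c * x 2 + e) * (c * x 3 + e))) *
      ((x 3 - x 0) * (x 2 - x 1)) := by
    field_simp
  have e2 : (a * e - b * c) * (x 3 - x 1) / ((c * x 3 + e) * (c * x 1 + e)) *
      ((a * e - b * c) * (x 2 - x 0) / ((c * x 2 + e) * (c * x 0 + e))) =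
      ((a * e - b * c) ^ 2 / ((c * x 0 + e) * (c * x 1 + e) * (c * x 2 + e) * (c * x 3 + e))) *
      ((x 3 - x 1) * (x 2 - x 0)) := by
    field_simp
  rw [e1, e2, mul_div_mul_left]
  exact div_ne_zero (pow_ne_zero 2 h)
    (mul_ne_zero (mul_ne_zero (mul_ne_zero h0 h1) h2) h3)

end Pool.Agent.Helper35.PS

end

section

set_option autoImplicit false

open Finset Polynomial

namespace Pool.Agent.Helper33.PS

open Pool.Agent.Helper45.FR Pool.Agent.Helper33.UB Pool.Agent.Helper51.RatTree Pool.Agent.Helper93.RatODE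

theorem cr_mobius {K : Type*} [Field K] {a b c e : K} (h : a * e - b * c ≠ 0) (x z : Fin 4 → K)
    (hx : ∀ i, c * x i + e ≠ 0) (hz : ∀ i, z i = (a * x i + b) / (c * x i + e)) :
    cr (z 0) (z 1) (z 2) (z 3) = cr (x 0) (x 1) (x 2) (x 3) :=
  Pool.Agent.Helper35.PS.cr_mobius h x z hx hz

end Pool.Agent.Helper33.PS

end

section

set_option autoImplicit false

set_option linter.style.haveILetI false

namespace Pool.Agent.Helper45.M8

open Polynomial IntermediateField Pool.Agent.Helper16 Pool.Agent.Helper33 Pool.Agent.Helper33.PS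
  Pool.Agent.Helper45.FF Pool.Agent.Helper45.S4 Pool.Agent.Helper45.FR Pool.Agent.Helper45.S6

theorem ratOrbit_mono {K : Type*} [Field K] {P Q : K[X]} {x : ℕ → K} {N N' : ℕ}
    (h : RatOrbit P Q x N) (hN : N' ≤ N) : RatOrbit P Q x N' :=
  ⟨h.ne, h.step, fun i j hi hj hij => h.inj i j (hi.trans hN) (hj.trans hN) hij, h.fin⟩

end Pool.Agent.Helper45.M8

end

section

set_option autoImplicit false

open Finset Polynomial

namespace Pool.Agent.Helper33.PT

/-- T-REL: no relation implies that some minor is nonzero -/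
theorem exists_minor {E : Type} [Field E] (m : ℕ) (s : Finset ℕ) (x y : ℕ → E)
    (h : ∀ p : Polynomial (Polynomial E), p ≠ 0 → p.natDegree < m →
      (∀ i, (p.coeff i).natDegree < m) →
      ∃ j ∈ s, (p.eval (C (y j))).eval (x j) ≠ 0) :
    ∃ i : Fin m × Fin m → ℕ, (∀ a, i a ∈ s) ∧ (PM m (x ∘ i) (y ∘ i)).det ≠ 0 := by
  classical
  rcases Nat.eq_zero_or_pos m with rfl | hm
  · refine ⟨fun a => a.1.elim0, fun a => a.1.elim0, ?_⟩
    rw [Matrix.det_isEmpty]
    exact one_ne_zero
  -- the rows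
  set v : s → (Fin m × Fin m → E) := fun j ab => x j ^ (ab.1 : ℕ) * y j ^ (ab.2 : ℕ) with hv
  have hspan : Submodule.span E (Set.range v) = ⊤ := by
    by_contra hne
    obtain ⟨f, hf0, hf⟩ := Submodule.exists_le_ker_of_lt_top _ (lt_top_iff_ne_top.2 hne)
    set c : Fin m × Fin m → E := fun ab => f (Pi.single ab 1) with hc
    have hfc : ∀ w : Fin m × Fin m → E, f w = ∑ ab, w ab * c ab := by
      intro w
      conv_lhs => rw [← Finset.univ_sum_single w]
      rw [map_sum]
      refine Finset.sum_congr rfl fun ab _ => ?_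
      have : Pi.single ab (w ab) = w ab • (Pi.single ab (1 : E) : Fin m × Fin m → E) := by
        rw [← Pi.single_smul]; simp
      rw [this, map_smul, smul_eq_mul]
    obtain ⟨ab₀, hab₀⟩ : ∃ ab, c ab ≠ 0 := by
      by_contra hcon
      push Not at hcon
      apply hf0
      ext w
      simp [hcon] at hfc
      simp [hfc]
    set p : Polynomial (Polynomial E) :=
      ∑ b : Fin m, C (∑ a : Fin m, C (c (a, b)) * X ^ (a : ℕ)) * X ^ (b : ℕ) with hp
    have hcoef : ∀ n, p.coeff n = if hn : n < m then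
        ∑ a : Fin m, C (c (a, ⟨n, hn⟩)) * X ^ (a : ℕ) else 0 := by
      intro n
      rw [hp, finset_sum_coeff]
      simp_rw [coeff_C_mul_X_pow]
      split_ifs with hn
      · rw [Finset.sum_eq_single (⟨n, hn⟩ : Fin m)]
        · simp
        · intro b _ hb
          rw [if_neg]
          intro h
          exact hb (Fin.ext h.symm)
        · simp
      · apply Finset.sum_eq_zero
        intro b _
        rw [if_neg]
        intro h
        exact hn (h ▸ b.2)
    have hcoef2 : ∀ n (hn : n < m) k (hk : k < m), (p.coeff n).coeff k = c (⟨k, hk⟩, ⟨n, hn⟩) := by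
      intro n hn k hk
      rw [hcoef, dif_pos hn, finset_sum_coeff]
      simp_rw [coeff_C_mul_X_pow]
      rw [Finset.sum_eq_single (⟨k, hk⟩ : Fin m)]
      · simp
      · intro b _ hb
        rw [if_neg]
        intro h
        exact hb (Fin.ext h.symm)
      · simp
    have hp0 : p ≠ 0 := by
      intro h0
      apply hab₀
      have := hcoef2 ab₀.2 ab₀.2.2 ab₀.1 ab₀.1.2
      rw [h0] at this
      simpa using this.symm
    have hpd : p.natDegree < m := by
      have h1 : p.degree < m := by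
        rw [Polynomial.degree_lt_iff_coeff_zero]
        intro n hn
        rw [hcoef, dif_neg (by omega)]
      exact (Polynomial.natDegree_lt_iff_degree_lt hp0).2 h1
    have hpd2 : ∀ i, (p.coeff i).natDegree < m := by
      intro i
      by_cases h0 : p.coeff i = 0
      · rw [h0]; simpa using hm
      · refine (Polynomial.natDegree_lt_iff_degree_lt h0).2 ?_
        rw [Polynomial.degree_lt_iff_coeff_zero]
        intro n hn
        rw [hcoef]
        split_ifs with hi
        · rw [finset_sum_coeff]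
          apply Finset.sum_eq_zero
          intro b _
          rw [coeff_C_mul_X_pow, if_neg]
          intro h
          have := b.2
          omega
        · simp
    obtain ⟨j, hj, hne⟩ := h p hp0 hpd hpd2
    apply hne
    have h1 : v ⟨j, hj⟩ ∈ LinearMap.ker f := hf (Submodule.subset_span ⟨_, rfl⟩)
    rw [LinearMap.mem_ker, hfc] at h1
    rw [← h1, hp, Polynomial.eval_finset_sum, Polynomial.eval_finset_sum, Fintype.sum_prod_type,
      Finset.sum_comm]
    refine Finset.sum_congr rfl fun b _ => ?_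
    rw [Polynomial.eval_mul, Polynomial.eval_C, Polynomial.eval_mul, Polynomial.eval_finset_sum,
      Finset.sum_mul]
    refine Finset.sum_congr rfl fun a _ => ?_
    simp [hv]
    ring
  obtain ⟨κ, a, ha, hsp, hli⟩ := exists_linearIndependent' E v
  rw [hspan] at hsp
  let B : Module.Basis κ E (Fin m × Fin m → E) := Module.Basis.mk hli hsp.ge
  haveI : Fintype κ := FiniteDimensional.fintypeBasisIndex B
  have hcard : Fintype.card (Fin m × Fin m) = Fintype.card κ := by
    have h1 := Module.finrank_eq_card_basis B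
    rw [Module.finrank_fintype_fun_eq_card] at h1
    exact h1
  let e : Fin m × Fin m ≃ κ := Fintype.equivOfCardEq hcard
  refine ⟨fun ab => a (e ab), fun ab => (a (e ab)).2, ?_⟩
  have hli2 : LinearIndependent E ((v ∘ a) ∘ e) := hli.comp _ e.injective
  have hM : PM m (x ∘ fun ab => ((a (e ab) : s) : ℕ)) (y ∘ fun ab => ((a (e ab) : s) : ℕ)) =
      Matrix.of ((v ∘ a) ∘ e) := by
    ext ab cd
    rfl
  rw [hM]
  have h2 : IsUnit (Matrix.of ((v ∘ a) ∘ e)) :=
    Matrix.linearIndependent_rows_iff_isUnit.1 hli2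
  exact ((Matrix.isUnit_iff_isUnit_det _).1 h2).ne_zero

end Pool.Agent.Helper33.PT

end

section

set_option autoImplicit false

open Finset Polynomial

namespace Pool.Agent.Helper43.PT

open Pool.Agent.Helper33 Pool.Agent.Helper45.FR Pool.Agent.Helper33.UB Pool.Agent.Helper51.RatTree
  Pool.Agent.Helper93.RatODE Pool.Agent.Helper33.PS Pool.Agent.Helper55.RD Pool.Agent.Helper98.PS

/-- sum over the subsets of given size -/
lemma sum_powersetCard {K : Type} [DecidableEq K] (S : Finset K) (n : ℕ) (hn : 2 ≤ n) (f : K → K → ℝ) :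
    ∑ A ∈ S.powersetCard n, ∑ y ∈ A, ∑ z ∈ A with z ≠ y, f y z =
      ((S.card - 2).choose (n - 2) : ℝ) * ∑ y ∈ S, ∑ z ∈ S with z ≠ y, f y z := by
  have h1 : ∀ A ∈ S.powersetCard n, ∑ y ∈ A, ∑ z ∈ A with z ≠ y, f y z =
      ∑ y ∈ S, ∑ z ∈ S with z ≠ y, if ({y, z} : Finset K) ⊆ A then f y z else 0 := by
    intro A hA
    have hAS := (mem_powersetCard.1 hA).1
    rw [← inter_eq_right.2 hAS, ← filter_mem_eq_inter]
    rw [sum_filter]
    refine sum_congr rfl fun y hy => ?_
    rw [filter_filter, sum_filter, sum_filter]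
    by_cases hyA : y ∈ A
    · rw [if_pos hyA]
      refine sum_congr rfl fun z hz => ?_
      by_cases hzA : z ∈ A
      · by_cases hzy : z = y
        · simp [hzy]
        · rw [if_pos ⟨hzA, hzy⟩, if_pos hzy, if_pos]
          rw [insert_subset_iff, singleton_subset_iff]
          rw [mem_filter, mem_filter]
          exact ⟨⟨hy, hyA⟩, ⟨hz, hzA⟩⟩
      · rw [if_neg (fun h => hzA h.1)]
        by_cases hzy : z = y
        · rw [if_neg (not_not.2 hzy)]
        · rw [if_pos hzy, if_neg]
          rw [insert_subset_iff, singleton_subset_iff, mem_filter, mem_filter]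
          exact fun h => hzA h.2.2
    · rw [if_neg hyA, eq_comm]
      apply sum_eq_zero
      intro z hz
      by_cases hzy : z = y
      · rw [if_neg (not_not.2 hzy)]
      · rw [if_pos hzy, if_neg]
        rw [insert_subset_iff, singleton_subset_iff, mem_filter, mem_filter]
        exact fun h => hyA h.1.2
  rw [sum_congr rfl h1, sum_comm, mul_sum]
  refine sum_congr rfl fun y hy => ?_
  rw [sum_comm, mul_sum]
  refine sum_congr rfl fun z hz => ?_
  rw [mem_filter] at hz
  rw [← sum_filter, sum_const, nsmul_eq_mul]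
  congr 1
  have hcard : ({y, z} : Finset K).card = 2 := card_pair hz.2.symm
  have hsub : ({y, z} : Finset K) ⊆ S := by
    rw [insert_subset_iff, singleton_subset_iff]
    exact ⟨hy, hz.1⟩
  have h2 := card_filter_powersetCard_subset ({y, z} : Finset K) S n hsub (by rw [hcard]; exact hn)
  rw [hcard] at h2
  rw [h2]

end Pool.Agent.Helper43.PT

end

section

set_option autoImplicit false

open Finset Polynomial

namespace Pool.Agent.Helper33.PT

open Pool.Agent.Helper45.FR Pool.Agent.Helper33.UB Pool.Agent.Helper51.RatTree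
  Pool.Agent.Helper93.RatODE Pool.Agent.Helper33.PS Pool.Agent.Helper55.RD

section maps

variable {K E : Type} [Field K] [Field E] (θ : K →+* E) {F G : K[X]} {d : ℕ} {x : ℕ → K} {N : ℕ}

theorem ratOrbit_map (h : RatOrbit F G x N) :
    RatOrbit (F.map θ) (G.map θ) (fun j => θ (x j)) N where
  ne i := by rw [eval_map, eval₂_at_apply, Ne, map_eq_zero]; exact h.ne i
  step i := by
    rw [eval_map, eval₂_at_apply, eval_map, eval₂_at_apply, ← map_div₀, ← h.step i]
  inj i j hi hj hij := h.inj i j hi hj (θ.injective hij)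
  fin := by
    have : Set.range (fun j => θ (x j)) = θ '' Set.range x := by rw [← Set.range_comp]; rfl
    rw [this]; exact h.fin.image θ

end maps

end Pool.Agent.Helper33.PT

end

section

set_option autoImplicit false

namespace Pool.Agent.Helper36.PT

open Polynomial Finset Pool.Agent.Helper33 Pool.Agent.Helper33.PS Pool.Agent.Helper33.UB
  Pool.Agent.Helper45.FR Pool.Agent.Helper51.RatTree Pool.Agent.Helper93.RatODE
  Pool.Agent.Helper35.PS

section

variable {k K : Type} [Field k] [Field K] [Algebra k K]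

theorem RatOrbit_smul {F G : K[X]} {x : ℕ → K} {N : ℕ} {s : K} (hs : s ≠ 0)
    (h : RatOrbit F G x N) : RatOrbit (C s * F) (C s * G) x N := by
  refine ⟨fun i => ?_, fun i => ?_, h.inj, h.fin⟩
  · rw [eval_mul, eval_C]
    exact mul_ne_zero hs (h.ne i)
  · rw [eval_mul, eval_C, eval_mul, eval_C, mul_div_mul_left _ _ hs]
    exact h.step i

end

end Pool.Agent.Helper36.PT

end

section

set_option autoImplicit false

namespace Pool.Agent.Helper36.PT

open Polynomial Finset Pool.Agent.Helper33 Pool.Agent.Helper33.PS Pool.Agent.Helper33.UB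
  Pool.Agent.Helper45.FR Pool.Agent.Helper51.RatTree Pool.Agent.Helper93.RatODE
  Pool.Agent.Helper35.PS Pool.Agent.Helper55.RD

section

variable {K : Type} [Field K] (p : ℕ) [Fact p.Prime] [CharP K p]

theorem map_frob {F F₁ : K[X]} (hF : ∀ i, F₁.coeff i ^ p = F.coeff i) :
    F₁.map (frobenius K p) = F := by
  ext i
  rw [coeff_map, frobenius_def, hF]

theorem eval_frob {F F₁ : K[X]} (hF : ∀ i, F₁.coeff i ^ p = F.coeff i) (z : K) :
    F.eval (z ^ p) = F₁.eval z ^ p := by
  rw [← map_frob p hF]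
  rw [← frobenius_def, ← frobenius_def, eval_map_apply]

theorem ratOrbit_root {F G F₁ G₁ : K[X]} {x z : ℕ → K} {N N' a : ℕ} (hx : RatOrbit F G x N)
    (hF : ∀ i, F₁.coeff i ^ p = F.coeff i) (hG : ∀ i, G₁.coeff i ^ p = G.coeff i)
    (ha : a + N' ≤ N) (hz : ∀ j, z j ^ p = x (a + j)) : RatOrbit F₁ G₁ z N' := by
  have hp : p ≠ 0 := (Fact.out : p.Prime).ne_zero
  have hinj : ∀ u w : K, u ^ p = w ^ p → u = w := fun u w h => frobenius_inj K p h
  refine ⟨fun i h0 => ?_, fun i => ?_, fun i j hi hj hij => ?_, ?_⟩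
  · apply hx.ne (a + i)
    rw [← hz i, eval_frob p hG, h0, zero_pow hp]
  · apply hinj
    rw [div_pow, ← eval_frob p hF, ← eval_frob p hG, hz, hz, ← hx.step (a + i), add_assoc]
  · have h1 : x (a + i) = x (a + j) := by rw [← hz, ← hz, hij]
    have := hx.inj _ _ (by omega) (by omega) h1
    omega
  · refine Set.Finite.of_finite_image (f := fun u : K => u ^ p) (hx.fin.subset ?_)
      (fun u _ w _ h => hinj u w h)
    rintro _ ⟨_, ⟨j, rfl⟩, rfl⟩
    exact ⟨a + j, (hz j).symm⟩

end

end Pool.Agent.Helper36.PT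

end

section

set_option autoImplicit false

open Finset Polynomial

namespace Pool.Agent.Helper33.PT

open Pool.Agent.Helper33.UB Pool.Agent.Helper51.RatTree Pool.Agent.Helper55.RD
  Pool.Agent.Helper93.RatODE Pool.Agent.Helper45.FR Pool.Agent.Helper33.PS

section basic

variable {K : Type} [Field K]

lemma orbit_shift {F G : K[X]} {x : ℕ → K} {N : ℕ} (h : RatOrbit F G x N) (a N' : ℕ) (ha : a + N' ≤ N) :
    RatOrbit F G (fun j => x (a + j)) N' where
  ne i := h.ne _
  step i := h.step _
  inj i j hi hj e := by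
    have := h.inj (a + i) (a + j) (by omega) (by omega) e
    omega
  fin := h.fin.subset (by
    rintro _ ⟨j, rfl⟩
    exact ⟨a + j, rfl⟩)

lemma orbit_mono {F G : K[X]} {x : ℕ → K} {N N' : ℕ} (h : RatOrbit F G x N) (hN : N' ≤ N) :
    RatOrbit F G x N' :=
  ⟨h.ne, h.step, fun i j hi hj hij => h.inj i j (hi.trans hN) (hj.trans hN) hij, h.fin⟩

/-- derivations vanish on quotients of constants -/
lemma D_cr_zero {D : K → K} (hadd : ∀ x y, D (x + y) = D x + D y)
    (hmul : ∀ x y, D (x * y) = x * D y + y * D x) {a b c y : K} (ha : D a = 0) (hb : D b = 0)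
    (hc : D c = 0) (hy : D y = 0) : D (Pool.Agent.Helper33.PS.cr a b c y) = 0 := by
  have h0 : D 0 = 0 := by simpa using hadd 0 0
  have h1 : D 1 = 0 := by
    have := hmul 1 1
    simp only [mul_one, one_mul] at this
    simpa using this
  have hneg : ∀ z, D z = 0 → D (-z) = 0 := by
    intro z hz
    have h := hadd z (-z)
    rw [add_neg_cancel, h0, hz, zero_add] at h
    exact h.symm
  have hsub : ∀ z w, D z = 0 → D w = 0 → D (z - w) = 0 := by
    intro z w hz hw
    rw [sub_eq_add_neg, hadd, hz, hneg w hw, add_zero]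
  have hmul0 : ∀ z w, D z = 0 → D w = 0 → D (z * w) = 0 := by
    intro z w hz hw
    rw [hmul, hz, hw, mul_zero, mul_zero, add_zero]
  have hdiv : ∀ z w, D z = 0 → D w = 0 → D (z / w) = 0 := by
    intro z w hz hw
    by_cases hw0 : w = 0
    · rw [hw0, div_zero, h0]
    · have h := hmul w (z / w)
      rw [mul_div_cancel₀ z hw0, hz, hw, mul_zero, add_zero] at h
      exact (mul_eq_zero.mp h.symm).resolve_left hw0
  unfold Pool.Agent.Helper33.PS.cr
  exact hdiv _ _ (hmul0 _ _ (hsub _ _ hy ha) (hsub _ _ hc hb))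
    (hmul0 _ _ (hsub _ _ hy hb) (hsub _ _ hc ha))

end basic

end Pool.Agent.Helper33.PT

end
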