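import Pool.Agent.Helper55.RM.Defs
import Pool.Agent.Helper23.MB.Inst

/-!
Parts of Helper33.UB.AM, Helper33.UB.Greedy, Helper33.UB.RatInst, Helper38.DT.RelDeg, Helper38.DT.Ratio, Helper38.DT.PartC, Helper45.S4Res, Helper45.S6Field, Helper38.DT.PartD, Helper31.RRK.Tower, Helper45.S4Clos, Helper31.RRK.Diff, Helper16.TW1, Helper31.RRK.Frob, Helper45.Untwist, Helper91.DT.A, Helper91.DT.B, Helper91.DT.C, Helper35.DT.Long, Helper84.RRE, Helper31.EN.Push, Helper47.EN.Moebius, Helper47.EN.Lur, Helper47.EN.Final, Helper3.Dep.Biv, Helper64.Dep.PD, Helper34.Dep.Tw, Helper38.DT.Adapter, Helper45.GalW2, Helper98.PS.K1, Helper98.PS.M2, Helper98.PS.M5, Helper82.PS.IterGood, Helper36.S5.Fixed, Helper36.S5.Descent, Helper36.S5.Core, Helper35.PS.Coord, Helper33.PT.SelC2, Helper79.PT.Riccati, Helper82.PT.Log, Helper55.LW.Comb, Helper55.LW.Main, Helper11.PT.DetBase, Helper55.LW.Spec, Helper53.PT.Pair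
-/

attribute [-simp] Valuation.IsUniformizer.val
attribute [local instance 5000]
  Pool.Agent.Helper23.MB.Inst.rCharZero Pool.Agent.Helper23.MB.Inst.rALM
  Pool.Agent.Helper23.MB.Inst.rARM Pool.Agent.Helper23.MB.Inst.rALSM
  Pool.Agent.Helper23.MB.Inst.rARSM Pool.Agent.Helper23.MB.Inst.rARRLE
  Pool.Agent.Helper23.MB.Inst.rALRLE Pool.Agent.Helper23.MB.Inst.rARRLT
  Pool.Agent.Helper23.MB.Inst.rALRLT Pool.Agent.Helper23.MB.Inst.rPMRLT
  Pool.Agent.Helper23.MB.Inst.rMPRLT Pool.Agent.Helper23.MB.Inst.rPMM
  Pool.Agent.Helper23.MB.Inst.rMPM Pool.Agent.Helper23.MB.Inst.rPMSM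
  Pool.Agent.Helper23.MB.Inst.rMPSM Pool.Agent.Helper23.MB.Inst.rEAOL
  Pool.Agent.Helper23.MB.Inst.rIOR Pool.Agent.Helper23.MB.Inst.rISOR
  Pool.Agent.Helper23.MB.Inst.rNZD Pool.Agent.Helper23.MB.Inst.zCharZero
  Pool.Agent.Helper23.MB.Inst.zALM Pool.Agent.Helper23.MB.Inst.zARM
  Pool.Agent.Helper23.MB.Inst.zIOR Pool.Agent.Helper23.MB.Inst.zISOR
  Pool.Agent.Helper23.MB.Inst.zNZD Pool.Agent.Helper23.MB.Inst.qCharZero
  Pool.Agent.Helper23.MB.Inst.free Pool.Agent.Helper23.MB.Inst.faith
  Pool.Agent.Helper23.MB.Inst.torsionFree Pool.Agent.Helper23.MB.Inst.rfFaith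
  Pool.Agent.Helper23.MB.Inst.hAdd Pool.Agent.Helper23.MB.Inst.hAddM
  Pool.Agent.Helper23.MB.Inst.hMul Pool.Agent.Helper23.MB.Inst.hMon
  Pool.Agent.Helper23.MB.Inst.hZero Pool.Agent.Helper23.MB.Inst.hOne
  Pool.Agent.Helper23.MB.Inst.hMZ Pool.Agent.Helper23.MB.Inst.hRing
  Pool.Agent.Helper23.MB.Inst.aAdd Pool.Agent.Helper23.MB.Inst.aAddM
  Pool.Agent.Helper23.MB.Inst.aMul Pool.Agent.Helper23.MB.Inst.aMon
  Pool.Agent.Helper23.MB.Inst.aZero Pool.Agent.Helper23.MB.Inst.aOne
  Pool.Agent.Helper23.MB.Inst.aMZ Pool.Agent.Helper23.MB.Inst.aRing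

namespace Pool.Agent.Helper33.UB.TreeDyn
end Pool.Agent.Helper33.UB.TreeDyn

namespace Pool.Agent.Helper16
end Pool.Agent.Helper16
namespace Pool.Agent.Helper33
end Pool.Agent.Helper33
namespace Pool.Agent.Helper33.PS
end Pool.Agent.Helper33.PS
namespace Pool.Agent.Helper33.PT
end Pool.Agent.Helper33.PT
namespace Pool.Agent.Helper33.UB
end Pool.Agent.Helper33.UB
namespace Pool.Agent.Helper34.Dep
end Pool.Agent.Helper34.Dep
namespace Pool.Agent.Helper38.DT
end Pool.Agent.Helper38.DT
namespace Pool.Agent.Helper45.FF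
end Pool.Agent.Helper45.FF
namespace Pool.Agent.Helper45.FR
end Pool.Agent.Helper45.FR
namespace Pool.Agent.Helper45.S4
end Pool.Agent.Helper45.S4
namespace Pool.Agent.Helper45.S6
end Pool.Agent.Helper45.S6
namespace Pool.Agent.Helper47.EN
end Pool.Agent.Helper47.EN
namespace Pool.Agent.Helper47.RR
end Pool.Agent.Helper47.RR
namespace Pool.Agent.Helper51.RatTree
end Pool.Agent.Helper51.RatTree
namespace Pool.Agent.Helper55.LW
end Pool.Agent.Helper55.LW
namespace Pool.Agent.Helper55.RD
end Pool.Agent.Helper55.RD
namespace Pool.Agent.Helper64.Dep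
end Pool.Agent.Helper64.Dep
namespace Pool.Agent.Helper93.RatODE
end Pool.Agent.Helper93.RatODE

section

set_option autoImplicit false

open Finset Polynomial

namespace Pool.Agent.Helper33.UB

variable {K : Type*} [Field K] [DecidableEq K]

lemma sum_Ioi {r : ℕ} (φ : Fin r → Fin r → ℤ) (hsym : ∀ i j, φ i j = φ j i) (hdiag : ∀ i, φ i i = 0) :
    ∑ i, ∑ j, φ i j = 2 * ∑ i, ∑ j ∈ Ioi i, φ j i := by
  have h1 : ∀ i, ∑ j, φ i j = ∑ j ∈ Iio i, φ i j + ∑ j ∈ Ioi i, φ i j := by
    intro i
    have : (univ : Finset (Fin r)) = insert i (Iio i ∪ Ioi i) := by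
      ext j
      simp only [mem_univ, mem_insert, mem_union, mem_Iio, mem_Ioi, true_iff]
      rcases lt_trichotomy j i with h | h | h
      · exact Or.inr (Or.inl h)
      · exact Or.inl h
      · exact Or.inr (Or.inr h)
    rw [this, sum_insert (by simp), hdiag, zero_add, sum_union]
    rw [disjoint_left]
    intro j hj hj'
    rw [mem_Iio] at hj
    rw [mem_Ioi] at hj'
    exact lt_asymm hj hj'
  rw [sum_congr rfl (fun i _ => h1 i), sum_add_distrib]
  have h2 : ∑ i, ∑ j ∈ Iio i, φ i j = ∑ i, ∑ j ∈ Ioi i, φ j i := by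
    rw [Finset.sum_sigma', Finset.sum_sigma']
    apply sum_nbij' (fun x => ⟨x.2, x.1⟩) (fun x => ⟨x.2, x.1⟩)
    · rintro ⟨i, j⟩ h
      simp only [mem_sigma, mem_univ, mem_Iio, true_and] at h
      simp only [mem_sigma, mem_univ, mem_Ioi, true_and]
      exact h
    · rintro ⟨i, j⟩ h
      simp only [mem_sigma, mem_univ, mem_Ioi, true_and] at h
      simp only [mem_sigma, mem_univ, mem_Iio, true_and]
      exact h
    · rintro ⟨i, j⟩ _; rfl
    · rintro ⟨i, j⟩ _; rfl
    · rintro ⟨i, j⟩ _; rfl
  have h3 : ∑ i, ∑ j ∈ Ioi i, φ i j = ∑ i, ∑ j ∈ Ioi i, φ j i :=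
    sum_congr rfl fun i _ => sum_congr rfl fun j _ => hsym i j
  rw [h2, h3]
  ring

end Pool.Agent.Helper33.UB

end

section

set_option autoImplicit false

open Finset

namespace Pool.Agent.Helper33.UB

section greedy

variable {α : Type*} [DecidableEq α]

/-- a sum over a matching with few bad pairs -/
lemma sum_ge_of_greedy {m : ℕ} (g : Fin m → ℝ) (p : Fin m → Prop) [DecidablePred p] {c e N0 : ℝ}
    (hc : 0 ≤ c) (he : 0 ≤ e)
    (hbad : 2 * ((univ.filter fun i => ¬ p i).card : ℝ) ≤ N0) (hgood : ∀ i, p i → c ≤ g i)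
    (hall : ∀ i, -e ≤ g i) : m * c - N0 / 2 * (c + e) ≤ ∑ i, g i := by
  have h1 : ∀ i, c - (if p i then 0 else c + e) ≤ g i := by
    intro i
    by_cases hp : p i
    · rw [if_pos hp]; have := hgood i hp; linarith
    · rw [if_neg hp]; have := hall i; linarith
  have h2 := sum_le_sum (s := univ) fun i _ => h1 i
  have h3 : ∑ i, (if p i then 0 else c + e) = ((univ.filter fun i => ¬ p i).card : ℝ) * (c + e) := by
    rw [← sum_filter_add_sum_filter_not univ p]
    rw [sum_congr rfl (fun i hi => if_pos (mem_filter.mp hi).2),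
      sum_congr rfl (fun i hi => if_neg (mem_filter.mp hi).2), sum_const_zero, zero_add, sum_const,
      nsmul_eq_mul]
  rw [sum_sub_distrib, sum_const, card_univ, Fintype.card_fin, nsmul_eq_mul, h3] at h2
  have h4 : ((univ.filter fun i => ¬ p i).card : ℝ) * (c + e) ≤ N0 / 2 * (c + e) := by
    apply mul_le_mul_of_nonneg_right _ (by linarith)
    linarith
  linarith

end greedy

end Pool.Agent.Helper33.UB

end

section

set_option autoImplicit false

open Finset Polynomial

namespace Pool.Agent.Helper33.UB

open Pool.Agent.Helper51.RatTree Pool.Agent.Helper55.RD Pool.Agent.Helper93.RatODE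
  Pool.Agent.Helper45.FR

section height

variable {K : Type*} [Field K] {d : ℕ} {F G : K[X]}

/-- the rational map -/
noncomputable def rmap (F G : K[X]) (y : K) : K := F.eval y / G.eval y

lemma iterate_mem {X : Finset K} (hX : ∀ y ∈ X, rmap F G y ∈ X) {y : K} (hy : y ∈ X) (n : ℕ) :
    (rmap F G)^[n] y ∈ X := by
  induction n with
  | zero => exact hy
  | succ n ih =>
    rw [Function.iterate_succ', Function.comp]
    exact hX _ ih

end height

section basic

variable {K : Type*} [Field K] {d : ℕ} {F G : K[X]}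

lemma sub_ne_zero_of_coprime (hd : 2 ≤ d) (hcop : IsCoprime F G) (hF : F.natDegree ≤ d)
    (hG : G.natDegree ≤ d) (htop : F.coeff d ≠ 0 ∨ G.coeff d ≠ 0) (b : K) : F - C b * G ≠ 0 := by
  intro h
  have h1 : F = C b * G := sub_eq_zero.mp h
  have h2 : IsUnit G := by
    rw [h1] at hcop
    exact isCoprime_self.mp ((IsCoprime.mul_left_iff.mp hcop).2)
  obtain ⟨g, hg, hgG⟩ := Polynomial.isUnit_iff.mp h2
  rcases htop with h3 | h3
  · rw [h1, ← hgG, ← C_mul, coeff_C, if_neg (by omega)] at h3
    exact h3 rfl
  · rw [← hgG, coeff_C, if_neg (by omega)] at h3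
    exact h3 rfl

end basic

end Pool.Agent.Helper33.UB

end

section

set_option autoImplicit false

namespace Pool.Agent.Helper38.DT

open Polynomial IntermediateField

section deg

variable {E M : Type} [Field E] [Field M] [Algebra E M]

/-- the homomorphism `E(X) → M` sending `X` to a transcendental element -/
noncomputable def evRat {y : M} (hy : Transcendental E y) : RatFunc E →ₐ[E] M :=
  RatFunc.liftAlgHom (aeval y) (by
    intro p hp
    rw [Submonoid.mem_comap]
    refine mem_nonZeroDivisors_of_ne_zero ?_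
    intro h0
    exact hy ⟨p, nonZeroDivisors.ne_zero hp, h0⟩)

theorem evRat_div {y : M} (hy : Transcendental E y) (A B : E[X]) :
    evRat hy (algebraMap E[X] (RatFunc E) A / algebraMap E[X] (RatFunc E) B) =
      aeval y A / aeval y B := by
  unfold evRat
  rw [RatFunc.liftAlgHom_apply_div]

theorem evRat_X {y : M} (hy : Transcendental E y) : evRat hy RatFunc.X = y := by
  have := evRat_div hy (X : E[X]) 1
  simpa using this

theorem map_adjoin_evRat {y : M} (hy : Transcendental E y) (f : RatFunc E) :
    (E⟮f⟯).map (evRat hy) = E⟮evRat hy f⟯ := by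
  rw [IntermediateField.adjoin_map, Set.image_singleton]

theorem top_map_evRat {y : M} (hy : Transcendental E y) :
    (⊤ : IntermediateField E (RatFunc E)).map (evRat hy) = E⟮y⟯ := by
  rw [← RatFunc.adjoin_X, map_adjoin_evRat, evRat_X]

/-- the degree of `E(y)` over `E(A(y)/B(y))` -/
theorem relfinrank_ratio {y : M} (hy : Transcendental E y) {A B : E[X]} (hAB : IsCoprime A B)
    (hB : B ≠ 0) :
    relfinrank E⟮aeval y A / aeval y B⟯ E⟮y⟯ = max A.natDegree B.natDegree := by
  rw [← evRat_div hy, ← map_adjoin_evRat hy, ← top_map_evRat hy, relfinrank_map_map,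
    relfinrank_top_right]
  rw [RatFunc.finrank_eq_max_natDegree]
  set f : RatFunc E := algebraMap E[X] (RatFunc E) A / algebraMap E[X] (RatFunc E) B with hf
  have hB' : algebraMap E[X] (RatFunc E) B ≠ 0 := by
    simpa using hB
  have hd0 : algebraMap E[X] (RatFunc E) f.denom ≠ 0 := by
    simpa using f.denom_ne_zero
  have h1 : f.num * B = A * f.denom := by
    have h2 := f.num_div_denom
    rw [hf, ← hf, div_eq_div_iff hd0 hB', ← map_mul, ← map_mul] at h2
    exact (IsFractionRing.injective E[X] (RatFunc E)) h2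
  have h3 : f.denom ∣ B := RatFunc.denom_div_dvd A B
  have h4 : B ∣ f.denom := hAB.symm.dvd_of_dvd_mul_left (by rw [← h1]; exact dvd_mul_left _ _)
  have h5 : A ∣ f.num := hAB.dvd_of_dvd_mul_right (by rw [h1]; exact dvd_mul_right _ _)
  have h6 : f.num ∣ A := f.isCoprime_num_denom.dvd_of_dvd_mul_right (by rw [← h1]; exact dvd_mul_right _ _)
  rw [natDegree_eq_of_degree_eq (degree_eq_degree_of_associated (associated_of_dvd_dvd h3 h4)),
    natDegree_eq_of_degree_eq (degree_eq_degree_of_associated (associated_of_dvd_dvd h6 h5))]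

end deg

end Pool.Agent.Helper38.DT

end

section

set_option autoImplicit false

namespace Pool.Agent.Helper38.DT

open Polynomial IntermediateField

section ratio

variable {E M : Type} [Field E] [Field M] [Algebra E M]

theorem aeval_ne_zero {y : M} (hy : Transcendental E y) {A : E[X]} (hA : A ≠ 0) : aeval y A ≠ 0 :=
  fun h => hy ⟨A, hA, h⟩

theorem aeval_inj {y : M} (hy : Transcendental E y) {A B : E[X]} (h : aeval y A = aeval y B) :
    A = B := by
  by_contra hne
  exact aeval_ne_zero hy (sub_ne_zero.2 hne) (by rw [map_sub, h, sub_self])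

theorem exists_ratio {y : M} (hy : Transcendental E y) {u : M} (hu : u ∈ E⟮y⟯) :
    ∃ A B : E[X], IsCoprime A B ∧ B.Monic ∧ u * aeval y B = aeval y A := by
  classical
  obtain ⟨r, s, hrs⟩ := (mem_adjoin_simple_iff E u).1 hu
  by_cases hs : s = 0
  · refine ⟨0, 1, isCoprime_zero_left.2 isUnit_one, monic_one, ?_⟩
    rw [hrs, hs]
    simp
  set g := EuclideanDomain.gcd r s with hg
  have hg0 : g ≠ 0 := by
    intro h0
    rw [hg, EuclideanDomain.gcd_eq_zero_iff] at h0
    exact hs h0.2
  obtain ⟨r', hr'⟩ := EuclideanDomain.gcd_dvd_left r s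
  obtain ⟨s', hs'⟩ := EuclideanDomain.gcd_dvd_right r s
  rw [← hg] at hr' hs'
  have hs'0 : s' ≠ 0 := by
    rintro rfl
    exact hs (by rw [hs', mul_zero])
  have hcop : IsCoprime r' s' := by
    obtain h := EuclideanDomain.gcd_eq_gcd_ab r s
    rw [← hg] at h
    refine ⟨EuclideanDomain.gcdA r s, EuclideanDomain.gcdB r s, ?_⟩
    apply mul_left_cancel₀ hg0
    calc g * (EuclideanDomain.gcdA r s * r' + EuclideanDomain.gcdB r s * s')
        = (g * r') * EuclideanDomain.gcdA r s + (g * s') * EuclideanDomain.gcdB r s := by ring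
      _ = g * 1 := by rw [← hr', ← hs', ← h, mul_one]
  have hl : s'.leadingCoeff ≠ 0 := leadingCoeff_ne_zero.2 hs'0
  refine ⟨C s'.leadingCoeff⁻¹ * r', C s'.leadingCoeff⁻¹ * s', ?_, ?_, ?_⟩
  · exact (isCoprime_mul_unit_left (isUnit_C.2 (isUnit_iff_ne_zero.2 (inv_ne_zero hl))) r' s').2
      hcop
  · rw [Monic.def, leadingCoeff_mul, leadingCoeff_C, inv_mul_cancel₀ hl]
  · have h1 : u * aeval y s = aeval y r := by
      rw [hrs, div_mul_cancel₀ _ (aeval_ne_zero hy hs)]
    rw [hr', hs', map_mul, map_mul] at h1
    have h2 : u * aeval y s' = aeval y r' := by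
      apply mul_left_cancel₀ (aeval_ne_zero hy hg0)
      rw [← h1]
      ring
    rw [map_mul, map_mul, ← h2]
    ring

theorem ratio_unique {y : M} (hy : Transcendental E y) {A B A' B' : E[X]} (h : IsCoprime A B)
    (h' : IsCoprime A' B') (hB : B.Monic) (hB' : B'.Monic)
    (he : aeval y A * aeval y B' = aeval y A' * aeval y B) : A = A' ∧ B = B' := by
  rw [← map_mul, ← map_mul] at he
  have he' := aeval_inj hy he
  have h1 : B ∣ B' := h.symm.dvd_of_dvd_mul_left (by rw [he']; exact dvd_mul_left _ _)
  have h2 : B' ∣ B := h'.symm.dvd_of_dvd_mul_left (by rw [← he']; exact dvd_mul_left _ _)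
  have h3 : B = B' := eq_of_monic_of_associated hB hB' (associated_of_dvd_dvd h1 h2)
  refine ⟨?_, h3⟩
  rw [h3] at he'
  exact mul_right_cancel₀ hB'.ne_zero he'

end ratio

end Pool.Agent.Helper38.DT

end

section

set_option autoImplicit false

set_option linter.style.haveILetI false

namespace Pool.Agent.Helper38.DT

open Polynomial IntermediateField Pool.Agent.Helper16

section partC

variable {E M : Type} [Field E] [Field M] [Algebra E M]

/-- A long orbit of places gives a long orbit of values. -/
theorem orbit_inj {α : Type} (c : ℕ → α) (h : α → α) (hc : ∀ l, c (l + 1) = h (c l))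
    (N : ℕ) (hN : N < (Set.range c).encard) : ∀ i j, i ≤ N → j ≤ N → c i = c j → i = j := by
  have key : ∀ i j, i < j → j ≤ N → c i ≠ c j := by
    intro i j hij hjN heq
    have h1 : ∀ l, ∃ m < j, c l = c m := by
      intro l
      induction l with
      | zero => exact ⟨0, by omega, rfl⟩
      | succ l ih =>
        obtain ⟨m, hm, hlm⟩ := ih
        rcases Nat.lt_or_ge (m + 1) j with h2 | h2
        · exact ⟨m + 1, h2, by rw [hc, hc, hlm]⟩
        · have h3 : m + 1 = j := by omega
          exact ⟨i, hij, by rw [hc, hlm, ← hc, h3, heq]⟩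
    have h2 : Set.range c ⊆ c '' (Finset.range j : Set ℕ) := by
      rintro _ ⟨l, rfl⟩
      obtain ⟨m, hm, hlm⟩ := h1 l
      exact ⟨m, by simpa using hm, hlm.symm⟩
    have h3 := (Set.encard_le_encard h2).trans (Set.encard_image_le _ _)
    rw [Set.encard_coe_eq_coe_finsetCard, Finset.card_range] at h3
    have h4 : (N : ℕ∞) < (j : ℕ∞) := lt_of_lt_of_le hN h3
    have h5 : N < j := by exact_mod_cast h4
    omega
  intro i j hi hj hij
  rcases Nat.lt_trichotomy i j with h1 | h1 | h1
  · exact absurd hij (key i j h1 hj)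
  · exact h1
  · exact absurd hij.symm (key j i h1 hi)

end partC

end Pool.Agent.Helper38.DT

end

section

set_option autoImplicit false

set_option linter.style.haveILetI false

namespace Pool.Agent.Helper45.S4

open Polynomial IntermediateField Pool.Agent.Helper16 Pool.Agent.Helper33 Pool.Agent.Helper45.FF

variable {k L M : Type} [Field k] [Field L] [Field M] [Algebra k L] [Algebra k M] [Algebra L M]
  [IsScalarTower k L M]

/-- the degree over `k(s)` in a tower -/
theorem finrank_tower (s : L) : Module.finrank k⟮algebraMap L M s⟯ M =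
    Module.finrank k⟮s⟯ L * Module.finrank L M := by
  have h1 : (k⟮s⟯).map (IsScalarTower.toAlgHom k L M) = k⟮algebraMap L M s⟯ := by
    rw [IntermediateField.adjoin_map, Set.image_singleton]
    rfl
  let i : k⟮s⟯ ≃ₐ[k] k⟮algebraMap L M s⟯ :=
    (IntermediateField.equivMap k⟮s⟯ (IsScalarTower.toAlgHom k L M)).trans
      (IntermediateField.equivOfEq h1)
  rw [Module.finrank_mul_finrank k⟮s⟯ L M]
  symm
  apply Algebra.finrank_eq_of_equiv_equiv i.toRingEquiv (RingEquiv.refl M)
  ext x
  rfl

end Pool.Agent.Helper45.S4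

end

section

set_option autoImplicit false

set_option linter.style.haveILetI false

namespace Pool.Agent.Helper45.S6

open Polynomial IntermediateField Pool.Agent.Helper16 Pool.Agent.Helper33 Pool.Agent.Helper45.FF

variable (k K : Type) [Field k] [Field K] [Algebra k K]

theorem finiteDimensional_of (hfg : (⊤ : IntermediateField k K).FG) (x : K)
    (halg : Algebra.IsAlgebraic (IntermediateField.adjoin k {x}) K) : FiniteDimensional k⟮x⟯ K := by
  have h1 : Algebra.EssFiniteType k K := IntermediateField.fg_top_iff.1 hfg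
  haveI : Algebra.EssFiniteType k⟮x⟯ K := Algebra.EssFiniteType.of_comp k k⟮x⟯ K
  haveI : Algebra.IsAlgebraic k⟮x⟯ K := halg
  exact Algebra.finite_of_essFiniteType_of_isAlgebraic

end Pool.Agent.Helper45.S6

end

section

set_option autoImplicit false

set_option linter.style.haveILetI false

namespace Pool.Agent.Helper38.DT

open Polynomial IntermediateField Pool.Agent.Helper16 Pool.Agent.Helper45.S4 Pool.Agent.Helper45.FR
  Pool.Agent.Helper93.RatODE

section twist

variable {L Om : Type} [Field L] [Field Om] [Algebra L Om]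

/-- `a ^ (p ^ e)` lies in the subfield `S` of `L` -/
def InP (S : Subfield L) (p e : ℕ) (a : Om) : Prop := ∃ b ∈ S, a ^ p ^ e = algebraMap L Om b

theorem InP.mono {S : Subfield L} {p e e' : ℕ} {a : Om} (h : InP S p e a) (he : e ≤ e') :
    InP S p e' a := by
  obtain ⟨b, hb, hab⟩ := h
  obtain ⟨m, rfl⟩ := Nat.exists_eq_add_of_le he
  refine ⟨b ^ p ^ m, S.pow_mem hb _, ?_⟩
  rw [pow_add, pow_mul, hab, map_pow]

theorem exists_common {S : Subfield L} {p : ℕ} (T : Set Om) (hT : T.Finite)
    (h : ∀ a ∈ T, ∃ e, InP S p e a) : ∃ e, ∀ a ∈ T, InP S p e a := by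
  classical
  choose! f hf using h
  refine ⟨hT.toFinset.sup f, fun a ha => (hf a ha).mono ?_⟩
  exact Finset.le_sup (f := f) (hT.mem_toFinset.2 ha)

end twist

end Pool.Agent.Helper38.DT

end

section

set_option autoImplicit false

set_option linter.style.haveILetI false

namespace Pool.Agent.Helper31.RRK

open Polynomial IntermediateField Pool.Agent.Helper16 Pool.Agent.Helper33 Pool.Agent.Helper45.FF

open Pool.Agent.Helper45.S4 Pool.Agent.Helper47.RR

section tower

variable {k L M : Type} [Field k] [Field L] [Field M] [Algebra k L] [Algebra k M] [Algebra L M]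
  [IsScalarTower k L M]

variable [FiniteDimensional L M]

omit [IsScalarTower k L M] [FiniteDimensional L M] in
theorem ne_zero_of_ext {D : Derivation k L L} (hD : D ≠ 0) {D' : Derivation k M M}
    (h : ∀ x : L, D' (algebraMap L M x) = algebraMap L M (D x)) : D' ≠ 0 := by
  rintro rfl
  apply hD
  ext x
  have := h x
  rw [Derivation.coe_zero, Pi.zero_apply] at this
  rw [Derivation.coe_zero, Pi.zero_apply]
  exact (map_eq_zero _).1 this.symm

end tower

end Pool.Agent.Helper31.RRK

end

section

set_option autoImplicit false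

set_option linter.style.haveILetI false

namespace Pool.Agent.Helper45.S4

open Polynomial IntermediateField Pool.Agent.Helper16 Pool.Agent.Helper33 Pool.Agent.Helper45.FF

/-- Galois closure of a finite separable extension, with the bound `n!` for the Galois group. -/
theorem exists_galois_closure_gen (F L : Type) [Field F] [Field L] [Algebra F L]
    [FiniteDimensional F L] [Algebra.IsSeparable F L] :
    ∃ (M : Type) (_ : Field M) (_ : Algebra F M) (_ : Algebra L M), IsScalarTower F L M ∧
      FiniteDimensional F M ∧ FiniteDimensional L M ∧ IsGalois F M ∧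
      Nat.card (M ≃ₐ[F] M) ≤ (Module.finrank F L).factorial := by
  classical
  let pb := Field.powerBasisOfFiniteOfSeparable F L
  let p := minpoly F pb.gen
  have hp0 : p ≠ 0 := minpoly.ne_zero pb.isIntegral_gen
  have hsep : p.Separable := Algebra.IsSeparable.isSeparable F pb.gen
  have hdeg : p.natDegree = Module.finrank F L := by
    rw [pb.finrank, ← pb.natDegree_minpoly]
  have hpdeg : p.degree ≠ 0 := (minpoly.degree_pos pb.isIntegral_gen).ne'
  haveI : IsGalois F p.SplittingField := IsGalois.of_separable_splitting_field hsep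
  have hroot : ∃ y : p.SplittingField, aeval y p = 0 := by
    obtain ⟨y, hy⟩ := (SplittingField.splits p).exists_eval_eq_zero (by
      rw [degree_map]; exact hpdeg)
    exact ⟨y, by rwa [eval_map_algebraMap] at hy⟩
  obtain ⟨y, hy⟩ := hroot
  let f : L →ₐ[F] p.SplittingField := pb.lift y hy
  letI : Algebra L p.SplittingField := f.toRingHom.toAlgebra
  haveI : IsScalarTower F L p.SplittingField := IsScalarTower.of_algebraMap_eq fun x =>
    (f.commutes x).symm
  refine ⟨p.SplittingField, inferInstance, inferInstance, inferInstance, inferInstance,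
    inferInstance, FiniteDimensional.right F L _, inferInstance, ?_⟩
  haveI : Fact ((p.map (algebraMap F p.SplittingField)).Splits) := ⟨SplittingField.splits p⟩
  have hinj := Gal.galActionHom_injective p p.SplittingField
  haveI : Finite (p.rootSet p.SplittingField) := inferInstance
  have h1 : Nat.card p.Gal ≤ Nat.card (Equiv.Perm (p.rootSet p.SplittingField)) :=
    Nat.card_le_card_of_injective _ hinj
  rw [Nat.card_perm] at h1
  refine le_trans h1 (Nat.factorial_le ?_)
  rw [← hdeg, Nat.card_coe_set_eq]
  exact ncard_rootSet_le p _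

end Pool.Agent.Helper45.S4

end

section

set_option autoImplicit false

set_option linter.style.haveILetI false

set_option linter.unusedSectionVars false

namespace Pool.Agent.Helper31.RRK

open Polynomial IntermediateField Pool.Agent.Helper16 Pool.Agent.Helper33 Pool.Agent.Helper45.FF

open Pool.Agent.Helper45.S4 Pool.Agent.Helper47.RR

open scoped Pointwise

variable {k L M : Type} [Field k] [Field L] [Field M] [Algebra k L] [Algebra k M] [Algebra L M]
  [IsScalarTower k L M]

theorem D_aeval (D : Derivation k L L) (D' : Derivation k M M)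
    (h : ∀ x : L, D' (algebraMap L M x) = algebraMap L M (D x)) (x : M) (Q : L[X]) :
    D' (aeval x Q) = Q.sum (fun i a => algebraMap L M (D a) * x ^ i) +
      aeval x (derivative Q) * D' x := by
  induction Q using Polynomial.induction_on' with
  | add p q hp hq =>
    rw [map_add, map_add, hp, hq, sum_add_index, derivative_add, map_add]
    · ring
    · intro i; simp
    · intro i a b; rw [map_add, map_add]; ring
  | monomial n a =>
    rw [aeval_monomial, sum_monomial_index, Derivation.leibniz, Derivation.leibniz_pow, h,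
      derivative_monomial, aeval_monomial]
    · simp only [smul_eq_mul, nsmul_eq_mul, map_mul, _root_.map_natCast]
      ring
    · simp

end Pool.Agent.Helper31.RRK

end

section

set_option autoImplicit false

set_option linter.style.haveILetI false

namespace Pool.Agent.Helper16

open Polynomial IntermediateField IsDedekindDomain

section trdeg

theorem trdeg_ratFunc (L : Type) [Field L] : Algebra.trdeg L (RatFunc L) = 1 := by
  have h1 := trdeg_add_eq L L[X] (A := RatFunc L)
  haveI : Algebra.IsAlgebraic L[X] (RatFunc L) := IsLocalization.isAlgebraic (RatFunc L) (nonZeroDivisors L[X])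
  rw [Polynomial.trdeg_of_isDomain, trdeg_eq_zero, add_zero] at h1
  exact h1.symm

end trdeg

end Pool.Agent.Helper16

end

section

set_option autoImplicit false

set_option linter.style.haveILetI false

namespace Pool.Agent.Helper31.RRK

open Polynomial IntermediateField Pool.Agent.Helper16 Pool.Agent.Helper33 Pool.Agent.Helper45.FF

open Pool.Agent.Helper45.S4 Pool.Agent.Helper47.RR

section frob

variable {k L : Type} [Field k] [Field L] [Algebra k L]

/-- The intermediate field of the `p ^ m`-th powers. -/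
noncomputable def powField (k L : Type) [Field k] [Field L] [Algebra k L] [IsAlgClosed k] (p m : ℕ)
    [ExpChar k p] [ExpChar L p] : IntermediateField k L where
  __ := (iterateFrobenius L p m).fieldRange
  algebraMap_mem' := fun c => by
    change algebraMap k L c ∈ (iterateFrobenius L p m).fieldRange
    rw [RingHom.mem_fieldRange]
    refine ⟨algebraMap k L ((iterateFrobeniusEquiv k p m).symm c), ?_⟩
    rw [← RingHom.map_iterateFrobenius]
    congr 1
    exact (iterateFrobeniusEquiv k p m).apply_symm_apply c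

theorem mem_powField [IsAlgClosed k] (p m : ℕ) [ExpChar k p] [ExpChar L p] (x : L) :
    x ∈ powField k L p m ↔ ∃ y : L, y ^ p ^ m = x := by
  change x ∈ (iterateFrobenius L p m).fieldRange ↔ _
  rw [RingHom.mem_fieldRange]
  rfl

end frob

end Pool.Agent.Helper31.RRK

end

section

set_option autoImplicit false

set_option linter.style.haveILetI false

namespace Pool.Agent.Helper45.M8

open Finset Polynomial Pool.Agent.Helper93.RatODE Pool.Agent.Helper45.FR

section tw

variable (p : ℕ) (k L : Type) [Field k] [Field L] [Algebra k L]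

/-- `L` seen as a subfield of itself through the Frobenius -/
def Tw (_ : ℕ) (L : Type) : Type := L

noncomputable instance : Field (Tw p L) := inferInstanceAs (Field L)

variable [hp : Fact p.Prime]

noncomputable instance [CharP L p] : Algebra (Tw p L) L :=
  RingHom.toAlgebra (frobenius L p : L →+* L)

noncomputable instance [CharP k p] [PerfectRing k p] : Algebra k (Tw p L) :=
  RingHom.toAlgebra (((algebraMap k L).comp ((frobeniusEquiv k p).symm : k →+* k)) : k →+* L)

theorem tw_algebraMap [CharP L p] (y : L) : algebraMap (Tw p L) L y = y ^ p := rfl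

instance [CharP L p] [CharP k p] [PerfectRing k p] : IsScalarTower k (Tw p L) L :=
  IsScalarTower.of_algebraMap_eq fun c => by
    rw [tw_algebraMap]
    change _ = (algebraMap k L ((frobeniusEquiv k p).symm c)) ^ p
    rw [← map_pow]
    congr 1
    exact (frobeniusEquiv_symm_pow_p k p c).symm

end tw

section untwist

variable {k L : Type} [Field k] [Field L] [Algebra k L]

open IntermediateField in
theorem mem_range_of_isAlgebraic [IsAlgClosed k] (c : L) (hc : IsAlgebraic k c) :
    ∃ a : k, algebraMap k L a = c := by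
  haveI : Algebra.IsAlgebraic k k⟮c⟯ := IntermediateField.isAlgebraic_adjoin_simple hc.isIntegral
  have h1 : Function.Bijective (algebraMap k k⟮c⟯) :=
    IsAlgClosed.algebraMap_bijective_of_isIntegral
  obtain ⟨a, ha⟩ := h1.2 (AdjoinSimple.gen k c)
  exact ⟨a, by rw [IsScalarTower.algebraMap_apply k k⟮c⟯ L, ha, AdjoinSimple.algebraMap_gen]⟩

end untwist

end Pool.Agent.Helper45.M8

end

section

set_option autoImplicit false

namespace Pool.Agent.Helper91.DT

open Polynomial IntermediateField

section places

variable {k L M : Type} [Field k] [Field L] [Field M] [Algebra k L] [Algebra L M] [Algebra k M]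
  [IsScalarTower k L M]

theorem finrank_adjoin_tower (g : L) :
    Module.finrank k⟮algebraMap L M g⟯ M = Module.finrank k⟮g⟯ L * Module.finrank L M := by
  set f : L →ₐ[k] M := IsScalarTower.toAlgHom k L M with hf
  have h1 : k⟮g⟯.map f = k⟮algebraMap L M g⟯ := by
    rw [IntermediateField.adjoin_map, Set.image_singleton]
    rfl
  rw [Module.finrank_mul_finrank k⟮g⟯ L M, ← h1]
  symm
  refine Algebra.finrank_eq_of_equiv_equiv (IntermediateField.equivMap k⟮g⟯ f).toRingEquiv
    (RingEquiv.refl M) ?_
  ext x
  rfl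

end places

end Pool.Agent.Helper91.DT

end

section

set_option autoImplicit false

namespace Pool.Agent.Helper91.DT

open Polynomial IntermediateField Pool.Agent.Helper93.RatODE Pool.Agent.Helper45.FR
  Pool.Agent.Helper38.DT

open Pool.Agent.Helper55.RM (lift ext IsRat Isotrivial Conj PotGood prePer)

section forms

variable {K : Type} [Field K]

/-- the pair of forms of degree `d` given by `F`, `G` -/
noncomputable def frm (F G : K[X]) (d : ℕ) : Fin 2 → MvPolynomial (Fin 2) K :=
  ![F.homogenize d, G.homogenize d]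

theorem ext_frm {K₁ : Type} [Field K₁] [Algebra K K₁] (F G : K[X]) (d : ℕ) :
    ext K₁ (frm F G d) = frm (F.map (algebraMap K K₁)) (G.map (algebraMap K K₁)) d := by
  funext i
  fin_cases i
  · exact (homogenize_map (algebraMap K K₁) F d).symm
  · exact (homogenize_map (algebraMap K K₁) G d).symm

theorem frm_hom (F G : K[X]) (d : ℕ) : ∀ i, (frm F G d i).IsHomogeneous d := by
  intro i
  fin_cases i
  · exact isHomogeneous_homogenize F
  · exact isHomogeneous_homogenize G

end forms

end Pool.Agent.Helper91.DT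

end

section

set_option autoImplicit false

namespace Pool.Agent.Helper91.DT

open Polynomial IntermediateField Pool.Agent.Helper93.RatODE Pool.Agent.Helper45.FR
  Pool.Agent.Helper38.DT

open Pool.Agent.Helper55.RM (lift ext IsRat Isotrivial Conj PotGood prePer)

section bound

variable {k M : Type} [Field k] [IsAlgClosed k] [Field M] [Algebra k M]

theorem potGood_of_good {F G : M[X]} {d : ℕ} (v : Pool.Agent.Helper55.RM.Place k M)
    (hF : F.natDegree ≤ d) (hG : G.natDegree ≤ d)
    (h1 : ∀ j, v.val (F.coeff j) ≤ 1) (h2 : ∀ j, v.val (G.coeff j) ≤ 1)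
    (h3 : v.val (resultant F G d d) = 1) : PotGood v d (frm F G d) := by
  refine ⟨M, inferInstance, inferInstance, inferInstance, inferInstance, inferInstance, v, 1,
    frm F G d, fun x => Iff.rfl, ⟨by simp, 1, one_ne_zero, fun x => ?_⟩, frm_hom F G d, ?_, ?_⟩
  · rw [ext_frm, Matrix.one_mulVec, Matrix.one_mulVec, one_smul]
    simp
  · intro i m
    fin_cases i
    · change v.val ((F.homogenize d).coeff m) ≤ 1
      rw [coeff_homogenize]
      split_ifs
      · exact h1 _
      · simp
    · change v.val ((G.homogenize d).coeff m) ≤ 1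
      rw [coeff_homogenize]
      split_ifs
      · exact h2 _
      · simp
  · change v.val (resultant (MvPolynomial.aeval ![X, 1] (F.homogenize d))
      (MvPolynomial.aeval ![X, 1] (G.homogenize d)) d d) = 1
    rw [aeval_homogenize_X_one F hF, aeval_homogenize_X_one G hG]
    exact h3

end bound

end Pool.Agent.Helper91.DT

end

section

set_option autoImplicit false

namespace Pool.Agent.Helper35.DT

open Polynomial Pool.Agent.Helper93.RatODE Pool.Agent.Helper45.FR Pool.Agent.Helper38.DT

section dynamics

/-- If a surjective self-map has only finitely many preperiodic points then some iterate of it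
fixes all of them, and they have no other preimages under this iterate. -/
theorem exists_iterate {T : Type} (h : T → T) (hs : Function.Surjective h)
    (hfin : {t | ∃ a b : ℕ, a < b ∧ h^[a] t = h^[b] t}.Finite) :
    ∃ M : ℕ, 1 ≤ M ∧ (∀ t, (∃ a b : ℕ, a < b ∧ h^[a] t = h^[b] t) → h^[M] t = t) ∧
      ∀ s t, (∃ a b : ℕ, a < b ∧ h^[a] t = h^[b] t) → h^[M] s = t → s = t := by
  set S : Set T := {t | ∃ a b : ℕ, a < b ∧ h^[a] t = h^[b] t} with hS
  have h1 : ∀ t ∈ S, h t ∈ S := by
    rintro t ⟨a, b, hab, he⟩
    refine ⟨a, b, hab, ?_⟩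
    rw [← Function.iterate_succ_apply, ← Function.iterate_succ_apply,
      Function.iterate_succ_apply', Function.iterate_succ_apply', he]
  have h2 : ∀ t, h t ∈ S → t ∈ S := by
    rintro t ⟨a, b, hab, he⟩
    refine ⟨a + 1, b + 1, by omega, ?_⟩
    rw [Function.iterate_succ_apply, Function.iterate_succ_apply, he]
  have h2' : ∀ n t, h^[n] t ∈ S → t ∈ S := by
    intro n
    induction n with
    | zero => intro t ht; exact ht
    | succ n ih =>
      intro t ht
      rw [Function.iterate_succ_apply'] at ht
      exact ih t (h2 _ ht)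
  have : Finite S := hfin
  let g : S → S := fun t => ⟨h t.1, h1 t.1 t.2⟩
  have hg : Function.Surjective g := by
    rintro ⟨t, ht⟩
    obtain ⟨s, rfl⟩ := hs t
    exact ⟨⟨s, h2 s ht⟩, rfl⟩
  let e : Equiv.Perm S := Equiv.ofBijective g ⟨Finite.injective_iff_surjective.2 hg, hg⟩
  have hgn : ∀ (n : ℕ) (t : S), ((e ^ n) t).1 = h^[n] t.1 := by
    intro n
    induction n with
    | zero => intro t; rfl
    | succ n ih =>
      intro t
      rw [pow_succ', Equiv.Perm.mul_apply, Function.iterate_succ_apply', ← ih]
      rfl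
  have hpos : 0 < orderOf e := orderOf_pos e
  have hM : ∀ t ∈ S, h^[orderOf e] t = t := by
    intro t ht
    have := hgn (orderOf e) ⟨t, ht⟩
    rw [pow_orderOf_eq_one] at this
    exact this.symm
  refine ⟨orderOf e, hpos, hM, ?_⟩
  rintro s t ht rfl
  exact (hM s (h2' _ s ht)).symm

end dynamics

end Pool.Agent.Helper35.DT

end

section

set_option autoImplicit false

namespace Pool.Agent.Helper84.RRE

open Pool.Agent.Helper16 Pool.Agent.Helper45.FF Pool.Agent.Helper47.RR IntermediateField

variable {k L : Type} [Field k] [Field L] [Algebra k L]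

/-- Over an algebraically closed field the algebraic elements are the constants. -/
theorem transcendental_of_not_const [IsAlgClosed k] {f : L} (hf : ∀ c : k, algebraMap k L c ≠ f) :
    Transcendental k f := by
  intro h
  have h1 : IsIntegral k f := h.isIntegral
  have : FiniteDimensional k k⟮f⟯ := adjoin.finiteDimensional h1
  obtain ⟨c, hc⟩ := (IsAlgClosed.algebraMap_bijective_of_isIntegral (k := k) (K := k⟮f⟯)).2
    (⟨f, mem_adjoin_simple_self k f⟩)
  exact hf c (congrArg Subtype.val hc)

/-- If every element of a subspace is a constant, then its dimension is at most one. -/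
theorem finrank_le_one_of_const (V : Submodule k L) (h : ∀ f ∈ V, ∃ c : k, algebraMap k L c = f) :
    Module.finrank k V ≤ 1 := by
  have h1 : V ≤ Submodule.span k {(1:L)} := by
    intro f hf
    obtain ⟨c, hc⟩ := h f hf
    rw [Submodule.mem_span_singleton]
    exact ⟨c, by rw [← hc, Algebra.algebraMap_eq_smul_one]⟩
  calc Module.finrank k V ≤ Module.finrank k (Submodule.span k {(1:L)}) :=
        Submodule.finrank_mono h1
    _ = 1 := finrank_span_singleton one_ne_zero

end Pool.Agent.Helper84.RRE

end

section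

set_option autoImplicit false

set_option linter.style.haveILetI false

namespace Pool.Agent.Helper31.EN

open Polynomial IntermediateField Pool.Agent.Helper16 Pool.Agent.Helper45.S4

open Pool.Agent.Helper47.RR Pool.Agent.Helper47.EN

section insep

variable {k L M : Type} [Field k] [Field L] [Field M] [Algebra k L] [Algebra k M] [Algebra L M]
  [IsScalarTower k L M]

/-- In a finite purely inseparable extension, some power of every element, with exponent the degree,
lies in the base field. -/
theorem pow_finrank_mem [FiniteDimensional L M] [IsPurelyInseparable L M] (x : M) :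
    ∃ y : L, algebraMap L M y = x ^ Module.finrank L M := by
  obtain ⟨p, hp⟩ := ExpChar.exists L
  haveI := hp
  obtain ⟨m, hm⟩ := IsPurelyInseparable.finrank_eq_pow L M p
  obtain ⟨n, b, hb⟩ := IsPurelyInseparable.minpoly_eq_X_pow_sub_C L p x
  have h3 : x ^ p ^ n = algebraMap L M b := by
    have := minpoly.aeval L x
    rw [hb, map_sub, map_pow, aeval_X, aeval_C, sub_eq_zero] at this
    exact this
  have h4 : p ^ n ≤ p ^ m := by
    have := minpoly.natDegree_le (A := L) x
    rwa [hb, natDegree_X_pow_sub_C, hm] at this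
  rw [hm]
  by_cases hp1 : p = 1
  · subst hp1
    exact ⟨b, by rw [← h3]; simp⟩
  · have hp2 : 1 < p := by
      have := expChar_pos L p
      omega
    have h6 : n ≤ m := (Nat.pow_le_pow_iff_right hp2).1 h4
    refine ⟨b ^ p ^ (m - n), ?_⟩
    rw [map_pow, ← h3, ← pow_mul, ← pow_add, Nat.add_sub_cancel' h6]

end insep

end Pool.Agent.Helper31.EN

end

section

set_option autoImplicit false

set_option linter.style.haveILetI false

namespace Pool.Agent.Helper47.EN

open IntermediateField Polynomial

variable {k M : Type} [Field k] [Field M] [Algebra k M]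

theorem moebius_ratFunc (f : RatFunc k) (hf : k⟮f⟯ = ⊤) :
    f.num.natDegree ≤ 1 ∧ f.denom.natDegree ≤ 1 := by
  have h1 := f.finrank_eq_max_natDegree
  rw [hf, IntermediateField.finrank_top] at h1
  exact ⟨(le_max_left _ _).trans h1.ge, (le_max_right _ _).trans h1.ge⟩

theorem moebius (y y' : M) (hy : Transcendental k y) (h : k⟮y'⟯ = k⟮y⟯) :
    ∃ a b c d : k, a * d - b * c ≠ 0 ∧ algebraMap k M c * y + algebraMap k M d ≠ 0 ∧
      y' = (algebraMap k M a * y + algebraMap k M b) /
        (algebraMap k M c * y + algebraMap k M d) := by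
  let e := RatFunc.algEquivOfTranscendental y hy
  let j : RatFunc k →ₐ[k] M := k⟮y⟯.val.comp (e : RatFunc k →ₐ[k] k⟮y⟯)
  have hj : ∀ u, j u = (e u : M) := fun _ => rfl
  have hy' : y' ∈ k⟮y⟯ := by
    rw [← h]
    exact mem_adjoin_simple_self k y'
  obtain ⟨f, hf⟩ := e.surjective ⟨y', hy'⟩
  have hf' : j f = y' := by rw [hj, hf]
  have hjr : j.fieldRange = k⟮y⟯ := by
    ext x
    constructor
    · rintro ⟨u, rfl⟩
      exact (e u).2
    · intro hx
      obtain ⟨u, hu⟩ := e.surjective ⟨x, hx⟩
      exact ⟨u, by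
        change (e u : M) = x
        rw [hu]⟩
  have htop : k⟮f⟯ = ⊤ := by
    have h1 : (k⟮f⟯).map j = (⊤ : IntermediateField k (RatFunc k)).map j := by
      rw [IntermediateField.adjoin_map, Set.image_singleton, hf', h, ← hjr,
        ← AlgHom.fieldRange_eq_map]
    exact IntermediateField.map_injective j h1
  obtain ⟨h1, h2⟩ := moebius_ratFunc f htop
  have hnum : f.num = C (f.num.coeff 1) * X + C (f.num.coeff 0) :=
    Polynomial.eq_X_add_C_of_natDegree_le_one h1
  have hden : f.denom = C (f.denom.coeff 1) * X + C (f.denom.coeff 0) :=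
    Polynomial.eq_X_add_C_of_natDegree_le_one h2
  have hyf : y' = aeval y f.num / aeval y f.denom := by
    rw [← hf', hj]
    exact RatFunc.algEquivOfTranscendental_apply y hy f
  have hden0 : aeval y f.denom ≠ 0 := by
    intro h0
    exact f.denom_ne_zero ((transcendental_iff_injective.1 hy) (by rw [h0, map_zero]))
  refine ⟨f.num.coeff 1, f.num.coeff 0, f.denom.coeff 1, f.denom.coeff 0, ?_, ?_, ?_⟩
  · intro hdet
    -- the pair would be proportional, so `y'` constant
    obtain ⟨l, hl⟩ : ∃ l : k, f.num = C l * f.denom := by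
      set a := f.num.coeff 1
      set b := f.num.coeff 0
      set c := f.denom.coeff 1
      set d := f.denom.coeff 0
      by_cases hc : c = 0
      · have hd : d ≠ 0 := by
          intro hd
          apply f.denom_ne_zero
          rw [hden, hc, hd]
          simp
        have ha : a = 0 := by
          rw [hc, mul_zero, sub_zero] at hdet
          exact (mul_eq_zero.1 hdet).resolve_right hd
        refine ⟨b / d, ?_⟩
        rw [hnum, hden, ha, hc]
        simp only [map_zero, zero_mul, zero_add]
        rw [← C_mul, div_mul_cancel₀ _ hd]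
      · refine ⟨a / c, ?_⟩
        rw [hnum, hden, mul_add, ← mul_assoc, ← C_mul, ← C_mul, div_mul_cancel₀ _ hc]
        congr 2
        field_simp
        linear_combination -hdet
    have hyl : y' = algebraMap k M l := by
      rw [hyf, hl, map_mul, aeval_C, mul_div_assoc, div_self hden0, mul_one]
    have hbot : k⟮y'⟯ = ⊥ := by
      rw [adjoin_simple_eq_bot_iff, hyl]
      exact IntermediateField.algebraMap_mem _ l
    have hyb : y ∈ (⊥ : IntermediateField k M) := by
      rw [← hbot, h]
      exact mem_adjoin_simple_self k y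
    obtain ⟨c, hc⟩ := mem_bot.1 hyb
    apply hy
    rw [← hc]
    exact isAlgebraic_algebraMap c
  · rw [hden] at hden0
    simpa using hden0
  · rw [hyf, hnum, hden]
    simp

end Pool.Agent.Helper47.EN

end

section

set_option autoImplicit false

namespace Pool.Agent.Helper47.EN

open IntermediateField Polynomial

variable {k M : Type} [Field k] [Field M] [Algebra k M]

theorem luroth (u : M) (hu : Transcendental k u) (R : IntermediateField k M) (hR : R ≤ k⟮u⟯)
    [FiniteDimensional R M] : ∃ y, Transcendental k y ∧ R = k⟮y⟯ := by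
  let e := RatFunc.algEquivOfTranscendental u hu
  let j : RatFunc k →ₐ[k] M := k⟮u⟯.val.comp (e : RatFunc k →ₐ[k] k⟮u⟯)
  have hjr : ∀ x ∈ k⟮u⟯, ∃ z, j z = x := by
    intro x hx
    obtain ⟨z, hz⟩ := e.surjective ⟨x, hx⟩
    exact ⟨z, by
      change (e z : M) = x
      rw [hz]⟩
  let E : IntermediateField k (RatFunc k) := R.comap j
  have hE : E.map j = R := by
    ext x
    constructor
    · rintro ⟨z, hz, rfl⟩
      exact hz
    · intro hx
      obtain ⟨z, rfl⟩ := hjr x (hR hx)
      exact ⟨z, hx, rfl⟩
  have h1 := RatFunc.Luroth.eq_adjoin_generator (E := E)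
  have h2 : R = k⟮j (RatFunc.Luroth.generator E)⟯ := by
    rw [← hE]
    conv_lhs => rw [h1]
    rw [IntermediateField.adjoin_map, Set.image_singleton]
  refine ⟨_, ?_, h2⟩
  intro hal
  have h3 : Algebra.IsAlgebraic k R := by
    rw [h2]
    exact isAlgebraic_adjoin_simple hal.isIntegral
  have h4 : Algebra.IsAlgebraic k M := Algebra.IsAlgebraic.trans k R M
  exact hu (Algebra.IsAlgebraic.isAlgebraic u)

end Pool.Agent.Helper47.EN

end

section

set_option autoImplicit false

set_option linter.style.haveILetI false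

namespace Pool.Agent.Helper47.EN

open Pool.Agent.Helper16 Pool.Agent.Helper45.S4 Pool.Agent.Helper47.RR IntermediateField

variable {k M : Type} [Field k] [Field M] [Algebra k M]

/-- Artin's theorem for a finite group of automorphisms of an arbitrary extension. -/
theorem artin (A : Subgroup (M ≃ₐ[k] M)) (hA : (A : Set (M ≃ₐ[k] M)).Finite) :
    FiniteDimensional (fixedField A) M ∧ Algebra.IsSeparable (fixedField A) M ∧
      Module.finrank (fixedField A) M ≤ (A : Set (M ≃ₐ[k] M)).ncard := by
  haveI : Finite A := hA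
  letI := Fintype.ofFinite A
  refine ⟨?_, ?_, ?_⟩
  · exact inferInstanceAs (FiniteDimensional (FixedPoints.subfield A M) M)
  · exact inferInstanceAs (Algebra.IsSeparable (FixedPoints.subfield A M) M)
  · have h1 := FixedPoints.finrank_le_card A M
    have h2 : Fintype.card A = (A : Set (M ≃ₐ[k] M)).ncard := by
      rw [← Nat.card_eq_fintype_card]
      rfl
    rw [← h2]
    exact h1

end Pool.Agent.Helper47.EN

end

section

set_option autoImplicit false

set_option linter.style.haveILetI false

namespace Pool.Agent.Helper3.Dep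

open Polynomial Pool.Agent.Helper34.Dep Pool.Agent.Helper16 IntermediateField

open scoped Polynomial.Bivariate

variable {k M : Type} [Field k] [Field M] [Algebra k M]

theorem aevalAeval_eq_eval₂ {K : Type} [Field K] [Algebra k K] (x y : K) (R : k[X][Y]) :
    R.aevalAeval x y = eval₂ (aeval x : k[X] →ₐ[k] K).toRingHom y R := by
  induction R using Polynomial.induction_on' with
  | add p q hp hq => rw [map_add, hp, hq, eval₂_add]
  | monomial n a => simp

end Pool.Agent.Helper3.Dep

end

section

set_option autoImplicit false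

set_option linter.style.haveILetI false

namespace Pool.Agent.Helper64.Dep

open Polynomial Pool.Agent.Helper16 Pool.Agent.Helper47.RR IntermediateField

open Pool.Agent.Helper34.Dep

open scoped Polynomial.Bivariate

section local_order

variable {k M : Type} [Field k] [Field M] [Algebra k M]

theorem aevalAeval_eq_sum (P : k[X][Y]) (a b : M) :
    P.aevalAeval a b = ∑ i ∈ Finset.range (P.natDegree + 1), aeval a (P.coeff i) * b ^ i := by
  conv_lhs => rw [P.as_sum_range_C_mul_X_pow, map_sum]
  refine Finset.sum_congr rfl fun i _ => ?_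
  rw [map_mul, map_pow, aevalAeval_C, aevalAeval_Y]

end local_order

end Pool.Agent.Helper64.Dep

end

section

set_option autoImplicit false

set_option linter.style.haveILetI false

namespace Pool.Agent.Helper34.Dep

open Polynomial Pool.Agent.Helper16 Pool.Agent.Helper47.RR IntermediateField Pool.Agent.Helper64.Dep

/-- the constants, as an extension of themselves along an automorphism -/
def KK {k : Type} [Field k] (_ : k ≃+* k) : Type := k

/-- a field with twisted constants -/
def Tw {k : Type} [Field k] (_ : k ≃+* k) (M : Type) : Type := M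

section

variable {k : Type} [Field k] (g : k ≃+* k) (M : Type) [Field M] [Algebra k M]

noncomputable instance instFieldKK : Field (KK g) := ‹Field k›

noncomputable instance instAlgebraKK : Algebra k (KK g) := (g : k →+* k).toAlgebra

noncomputable instance instFieldTw : Field (Tw g M) := ‹Field M›

noncomputable instance instAlgebraTw : Algebra k (Tw g M) :=
  ((algebraMap k M).comp (g : k →+* k)).toAlgebra

noncomputable instance instAlgebraKKTw : Algebra (KK g) (Tw g M) := ‹Algebra k M›

instance instTowerTw : IsScalarTower k (KK g) (Tw g M) :=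
  IsScalarTower.of_algebraMap_eq fun _ => rfl

/-- the identity -/
def toTw (u : M) : Tw g M := u

variable {M}

theorem tw_adjoin (S : Set M) (x : M) :
    x ∈ IntermediateField.adjoin k S ↔ toTw g M x ∈ IntermediateField.adjoin k (toTw g M '' S) := by
  have h1 : Set.range (algebraMap k (Tw g M)) = Set.range (algebraMap k M) := by
    ext y
    constructor
    · rintro ⟨a, rfl⟩; exact ⟨g a, rfl⟩
    · rintro ⟨a, rfl⟩
      exact ⟨g.symm a, by
        change algebraMap k M (g (g.symm a)) = _
        rw [RingEquiv.apply_symm_apply]⟩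
  have h2 : toTw g M '' S = S := Set.image_id S
  change x ∈ Subfield.closure (Set.range (algebraMap k M) ∪ S) ↔
    x ∈ Subfield.closure (Set.range (algebraMap k (Tw g M)) ∪ toTw g M '' S)
  rw [h1, h2]
  rfl

theorem tw_transcendental (u : M) (hu : Transcendental k u) :
    Transcendental k (toTw g M u) := by
  rintro ⟨p, hp, hp0⟩
  refine hu ⟨p.map (g : k →+* k), ?_, ?_⟩
  · rwa [Ne, Polynomial.map_eq_zero_iff g.injective]
  · rw [aeval_def, eval₂_map]
    exact hp0

end

end Pool.Agent.Helper34.Dep

end

section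

set_option autoImplicit false

set_option linter.style.haveILetI false

namespace Pool.Agent.Helper38.DT

open Polynomial IntermediateField Pool.Agent.Helper16 Pool.Agent.Helper45.FR
  Pool.Agent.Helper45.S6 Pool.Agent.Helper33.PS

/-- a polynomial in two variables, as an element of `MvPolynomial (Fin 2) E` -/
noncomputable def toMv {E : Type} [Field E] (m : ℕ) (q : Polynomial (Polynomial E)) :
    MvPolynomial (Fin 2) E :=
  ∑ i ∈ Finset.range m, ∑ j ∈ Finset.range m,
    MvPolynomial.monomial (Finsupp.single 0 j + Finsupp.single 1 i) ((q.coeff i).coeff j)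

theorem coeff_toMv {E : Type} [Field E] (m : ℕ) (q : Polynomial (Polynomial E)) (s : Fin 2 →₀ ℕ) :
    MvPolynomial.coeff s (toMv m q) =
      if s 0 < m ∧ s 1 < m then (q.coeff (s 1)).coeff (s 0) else 0 := by
  classical
  have hs : ∀ i j : ℕ, (Finsupp.single (0 : Fin 2) j + Finsupp.single 1 i = s) ↔ (j = s 0 ∧ i = s 1) := by
    intro i j
    constructor
    · intro h
      rw [← h]
      simp
    · rintro ⟨rfl, rfl⟩
      ext a
      fin_cases a <;> simp
  unfold toMv
  rw [MvPolynomial.coeff_sum]
  simp_rw [MvPolynomial.coeff_sum, MvPolynomial.coeff_monomial, hs]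
  by_cases h0 : s 0 < m
  · by_cases h1 : s 1 < m
    · rw [if_pos ⟨h0, h1⟩, Finset.sum_eq_single (s 1), Finset.sum_eq_single (s 0)]
      · simp
      · intro j _ hj
        rw [if_neg (fun h => hj h.1)]
      · intro h
        exact absurd (Finset.mem_range.2 h0) h
      · intro i _ hi
        refine Finset.sum_eq_zero fun j _ => ?_
        rw [if_neg (fun h => hi h.2)]
      · intro h
        exact absurd (Finset.mem_range.2 h1) h
    · rw [if_neg (fun h => h1 h.2)]
      refine Finset.sum_eq_zero fun i hi => Finset.sum_eq_zero fun j _ => ?_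
      rw [if_neg]
      rintro ⟨-, rfl⟩
      exact h1 (Finset.mem_range.1 hi)
  · rw [if_neg (fun h => h0 h.1)]
    refine Finset.sum_eq_zero fun i _ => Finset.sum_eq_zero fun j hj => ?_
    rw [if_neg]
    rintro ⟨rfl, -⟩
    exact h0 (Finset.mem_range.1 hj)

theorem toMv_ne_zero {E : Type} [Field E] {m : ℕ} {q : Polynomial (Polynomial E)} (hq : q ≠ 0)
    (h1 : q.natDegree < m) (h2 : ∀ i, (q.coeff i).natDegree < m) : toMv m q ≠ 0 := by
  intro h
  have hc : (q.coeff q.natDegree).coeff (q.coeff q.natDegree).natDegree ≠ 0 := by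
    rw [Polynomial.coeff_natDegree, Polynomial.coeff_natDegree, Polynomial.leadingCoeff_ne_zero,
      Polynomial.leadingCoeff_ne_zero]
    exact hq
  have h3 := coeff_toMv m q (Finsupp.single 0 (q.coeff q.natDegree).natDegree +
    Finsupp.single 1 q.natDegree)
  rw [h, MvPolynomial.coeff_zero] at h3
  have e0 : (Finsupp.single (0 : Fin 2) (q.coeff q.natDegree).natDegree +
    Finsupp.single 1 q.natDegree : Fin 2 →₀ ℕ) 0 = (q.coeff q.natDegree).natDegree := by simp
  have e1 : (Finsupp.single (0 : Fin 2) (q.coeff q.natDegree).natDegree +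
    Finsupp.single 1 q.natDegree : Fin 2 →₀ ℕ) 1 = q.natDegree := by simp
  rw [e0, e1, if_pos ⟨h2 _, h1⟩] at h3
  exact hc h3.symm

theorem degreeOf_toMv {E : Type} [Field E] (m : ℕ) (q : Polynomial (Polynomial E)) (i : Fin 2) :
    (toMv m q).degreeOf i ≤ m := by
  classical
  rw [MvPolynomial.degreeOf_le_iff]
  intro s hs
  rw [MvPolynomial.mem_support_iff, coeff_toMv] at hs
  by_cases h : s 0 < m ∧ s 1 < m
  · fin_cases i
    · exact h.1.le
    · exact h.2.le
  · rw [if_neg h] at hs
    exact absurd rfl hs

theorem eval_toMv {E : Type} [Field E] {m : ℕ} {q : Polynomial (Polynomial E)}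
    (h1 : q.natDegree < m) (h2 : ∀ i, (q.coeff i).natDegree < m) (a b : E) :
    MvPolynomial.eval ![a, b] (toMv m q) = (q.eval (C b)).eval a := by
  classical
  unfold toMv
  rw [map_sum, Polynomial.eval_eq_sum_range' h1, Polynomial.eval_finsetSum]
  refine Finset.sum_congr rfl fun i _ => ?_
  rw [map_sum, Polynomial.eval_mul, ← Polynomial.C_pow, Polynomial.eval_C,
    Polynomial.eval_eq_sum_range' (h2 i), Finset.sum_mul]
  refine Finset.sum_congr rfl fun j _ => ?_
  rw [MvPolynomial.eval_monomial, Finsupp.prod_fintype _ _ (fun _ => pow_zero _), Fin.prod_univ_two]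
  simp
  ring

end Pool.Agent.Helper38.DT

end

section

set_option autoImplicit false

set_option linter.style.haveILetI false

set_option linter.unusedSectionVars false

namespace Pool.Agent.Helper45.GW

open Polynomial IntermediateField Pool.Agent.Helper16 Pool.Agent.Helper33
  Pool.Agent.Helper45.FF Pool.Agent.Helper45.S4

section der

variable {k F L : Type} [Field k] [Field F] [Field L] [Algebra k F] [Algebra k L]
  [Algebra F L] [IsScalarTower k F L] [IsAlgClosed k] [Algebra.IsAlgebraic F L]

/-- implicit differentiation -/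
theorem deriv_implicit (D : Derivation k L L) (g : F[X]) (y : L) (hy : aeval y g = 0) :
    aeval y (derivative g) * D y =
      -∑ i ∈ Finset.range (g.natDegree + 1), D (algebraMap F L (g.coeff i)) * y ^ i := by
  have h1 : D (aeval y g) = 0 := by rw [hy, map_zero]
  have h2 : aeval y (derivative g) = ∑ i ∈ Finset.range (g.natDegree + 1),
      algebraMap F L (g.coeff i) * ((i : L) * y ^ (i - 1)) := by
    conv_lhs => rw [g.as_sum_range_C_mul_X_pow]
    rw [derivative_sum, map_sum]
    refine Finset.sum_congr rfl fun i _ => ?_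
    rw [derivative_C_mul, derivative_X_pow, map_mul, map_mul, aeval_C, aeval_C, map_pow, aeval_X,
      map_natCast]
  rw [aeval_eq_sum_range, map_sum] at h1
  rw [h2, Finset.sum_mul, eq_neg_iff_add_eq_zero, ← Finset.sum_add_distrib, ← h1]
  refine Finset.sum_congr rfl fun i _ => ?_
  rw [Algebra.smul_def, Derivation.leibniz, Derivation.leibniz_pow]
  simp only [smul_eq_mul, nsmul_eq_mul]
  ring

end der

end Pool.Agent.Helper45.GW

end

section

set_option autoImplicit false

open Finset Polynomial

namespace Pool.Agent.Helper98.PS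

open Pool.Agent.Helper93.RatODE Pool.Agent.Helper55.RD

variable {K : Type*} [Field K]

section step1

lemma eq_sum_coeff {p : K[X]} {ι : Type*} [Fintype ι] {N : ℕ} (e : ι ≃ Fin N) (hp : p.natDegree < N) :
    p = ∑ j, C (p.coeff (e j : ℕ)) * X ^ (e j : ℕ) := by
  rw [Equiv.sum_comp e (fun j : Fin N => C (p.coeff (j : ℕ)) * X ^ (j : ℕ)),
    Fin.sum_univ_eq_sum_range (fun j : ℕ => C (p.coeff j) * X ^ j) N]
  exact as_sum_range_C_mul_X_pow' p hp

end step1

section step2

/-- the exponent -/
def rexp (d : ℕ) : ℕ → ℕ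
  | 0 => 0
  | k + 1 => d * rexp d k + ∑ i ∈ range (d ^ k), i

lemma rexp_eq (d : ℕ) (hd : 1 ≤ d) (k : ℕ) :
    2 * (d * (d - 1)) * rexp d k + d ^ k * k * (d - 1) + d ^ k = d ^ k * d ^ k := by
  induction k with
  | zero => simp [rexp]
  | succ k ih =>
    obtain ⟨e, rfl⟩ : ∃ e, d = e + 1 := ⟨d - 1, by omega⟩
    have h1 : (∑ i ∈ range ((e + 1) ^ k), i) * 2 = (e + 1) ^ k * ((e + 1) ^ k - 1) :=
      sum_range_id_mul_two _
    obtain ⟨m, hm⟩ : ∃ m, (e + 1) ^ k = m + 1 := ⟨(e + 1) ^ k - 1, by
      have : 0 < (e + 1) ^ k := by (clear * -; positivity)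
      omega⟩
    rw [rexp, pow_succ]
    rw [hm] at ih h1 ⊢
    simp only [Nat.add_sub_cancel] at ih h1 ⊢
    zify at ih h1 ⊢
    linear_combination (e + 1 : ℤ) * ih + ((e : ℤ) + 1) * e * h1

end step2

end Pool.Agent.Helper98.PS

end

section

set_option autoImplicit false

open Finset Polynomial

namespace Pool.Agent.Helper98.PS

open Pool.Agent.Helper33 Pool.Agent.Helper33.PS Pool.Agent.Helper93.RatODE Pool.Agent.Helper55.RD

variable {K : Type*} [Field K]

section scaling

lemma resultant_scale (c : K) (A B : K[X]) (δ : ℕ) :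
    resultant (C c * A) (C c * B) δ δ = c ^ (2 * δ) * resultant A B δ δ := by
  rw [resultant_C_mul_left, resultant_C_mul_right, ← mul_assoc, ← pow_add, two_mul]

end scaling

section numerics

lemma exists_pow_ge (δ : ℕ) (hδ : 2 ≤ δ) (C₁ C₂ : ℝ) : ∃ k : ℕ, C₁ * k + C₂ ≤ (δ : ℝ) ^ k := by
  have h1 : (1 : ℝ) < δ := by exact_mod_cast hδ
  have h2 := tendsto_pow_const_div_const_pow_of_one_lt 1 h1
  set C := |C₁| + |C₂| + 1 with hC
  have hCpos : 0 < C := by (clear * -; positivity)
  have h3 := h2.eventually (gt_mem_nhds (show (0 : ℝ) < 1 / C by (clear * -; positivity)))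
  obtain ⟨k, hk1, hk2⟩ := (h3.and (Filter.eventually_ge_atTop 1)).exists
  refine ⟨k, ?_⟩
  have hpos : (0 : ℝ) < (δ : ℝ) ^ k := by (clear * - hδ; positivity)
  rw [pow_one, div_lt_div_iff₀ hpos hCpos, one_mul] at hk1
  have hk2' : (1 : ℝ) ≤ k := by exact_mod_cast hk2
  have h5 : C₁ * k ≤ |C₁| * k := mul_le_mul_of_nonneg_right (le_abs_self _) (by positivity)
  have h6 : C₂ ≤ |C₂| * k := (le_abs_self _).trans (le_mul_of_one_le_right (abs_nonneg _) hk2')
  have h7 : (k : ℝ) * C = |C₁| * k + |C₂| * k + k := by rw [hC]; ring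
  (clear * - hk1 hk2' h5 h6; linarith)

end numerics

end Pool.Agent.Helper98.PS

end

section

set_option autoImplicit false

open Finset Polynomial

namespace Pool.Agent.Helper98.PS

open Pool.Agent.Helper33 Pool.Agent.Helper33.PS Pool.Agent.Helper93.RatODE Pool.Agent.Helper55.RD

section linalg

/-- if all maximal minors vanish then the columns are dependent -/
lemma exists_ker {K : Type*} [Field K] {ι : Type*} [Fintype ι] [DecidableEq ι] (N : ℕ)
    (r : ℕ → ι → K)
    (h : ∀ φ : ι → ℕ, (∀ i, φ i < N) → (Matrix.of fun i c => r (φ i) c).det = 0) :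
    ∃ coef : ι → K, coef ≠ 0 ∧ ∀ j < N, ∑ c, coef c * r j c = 0 := by
  classical
  set v : Fin N → (ι → K) := fun j => r j with hv
  by_cases htop : Submodule.span K (Set.range v) = ⊤
  · exfalso
    obtain ⟨κ, a, ha, hspan, hli⟩ := exists_linearIndependent' K v
    rw [htop] at hspan
    let b : Module.Basis κ K (ι → K) := Module.Basis.mk hli (by rw [hspan])
    let e : ι ≃ κ := (Pi.basisFun K ι).indexEquiv b
    have h1 := h (fun i => (a (e i) : ℕ)) (fun i => (a (e i)).2)
    have h2 : LinearIndependent K (Matrix.of fun i c => r ((a (e i) : Fin N) : ℕ) c).row := by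
      have := hli.comp e e.injective
      exact this
    have h3 := Matrix.linearIndependent_rows_iff_isUnit.mp h2
    rw [Matrix.isUnit_iff_isUnit_det, h1] at h3
    exact not_isUnit_zero h3
  · obtain ⟨f, hf, hle⟩ := Submodule.exists_le_ker_of_lt_top _ (lt_top_iff_ne_top.mpr htop)
    refine ⟨fun c => f (Pi.single c 1), ?_, ?_⟩
    · intro h0
      apply hf
      refine LinearMap.pi_ext' fun c => LinearMap.ext_ring ?_
      have := congrFun h0 c
      simpa using this
    · intro j hj
      have h1 : f (r j) = 0 := hle (Submodule.subset_span ⟨⟨j, hj⟩, rfl⟩)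
      rw [← h1]
      conv_rhs => rw [← Finset.univ_sum_single (r j)]
      rw [map_sum]
      refine sum_congr rfl fun c _ => ?_
      have : (Pi.single c (r j c) : ι → K) = r j c • (Pi.single c (1 : K) : ι → K) := by
        rw [← Pi.single_smul, smul_eq_mul, mul_one]
      rw [this, map_smul, smul_eq_mul, mul_comm]

end linalg

end Pool.Agent.Helper98.PS

end

section

set_option autoImplicit false

open Polynomial Finset Pool.Agent.Helper33 Pool.Agent.Helper33.PS Pool.Agent.Helper55.RD
  Pool.Agent.Helper93.RatODE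

namespace Pool.Agent.Helper82.PS

section tele

/-- the telescoping sum -/
def TT (d : ℕ) (h : ℕ → ℤ) (m : ℕ) : ℤ := ∑ t ∈ range m, (d : ℤ) ^ (m - 1 - t) * h t

lemma TT_succ (d : ℕ) (h : ℕ → ℤ) (m : ℕ) : TT d h (m + 1) = d * TT d h m + h m := by
  unfold TT
  rw [sum_range_succ, mul_sum]
  congr 1
  · refine sum_congr rfl fun t ht => ?_
    rw [mem_range] at ht
    have : m + 1 - 1 - t = (m - 1 - t) + 1 := by (clear * - ht; omega)
    rw [this, pow_succ]
    ring
  · simp

lemma TT_succ' (d : ℕ) (h : ℕ → ℤ) (m : ℕ) :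
    TT d h (m + 1) = (d : ℤ) ^ m * h 0 + TT d (fun t => h (t + 1)) m := by
  unfold TT
  rw [sum_range_succ', add_comm]
  congr 1
  refine sum_congr rfl fun t ht => ?_
  have : m + 1 - 1 - (t + 1) = m - 1 - t := by (clear * -; omega)
  rw [this]

lemma TT_nonneg (d : ℕ) (h : ℕ → ℤ) (m : ℕ) (hh : ∀ t < m, 0 ≤ h t) : 0 ≤ TT d h m := by
  unfold TT
  refine sum_nonneg fun t ht => ?_
  rw [mem_range] at ht
  exact mul_nonneg (pow_nonneg (by positivity) _) (hh t ht)

lemma le_TT (d : ℕ) (h : ℕ → ℤ) (m : ℕ) (hm : 1 ≤ m) (hh : ∀ t < m, 0 ≤ h t) :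
    (d : ℤ) ^ (m - 1) * h 0 ≤ TT d h m := by
  obtain ⟨m, rfl⟩ := Nat.exists_eq_add_of_le' hm
  rw [TT_succ', Nat.add_sub_cancel]
  have := TT_nonneg d (fun t => h (t + 1)) m fun t ht => hh (t + 1) (by omega)
  (clear * - this; linarith)

end tele

end Pool.Agent.Helper82.PS

end

section

set_option autoImplicit false

set_option linter.unusedSectionVars false

open Finset Polynomial

namespace Pool.Agent.Helper36.S5

variable {κ : Type*} [Field κ]

lemma lagrange_sum [IsAlgClosed κ] [DecidableEq κ] (p B : κ[X]) (n : ℕ) (hn : p.natDegree = n + 1)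
    (hB : B.natDegree ≤ n) (hsep : ∀ x, p.eval x = 0 → (derivative p).eval x ≠ 0) :
    p.roots.toFinset.card = n + 1 ∧
      ∑ x ∈ p.roots.toFinset, B.eval x / (derivative p).eval x =
        B.coeff n / p.coeff (n + 1) := by
  have hp0 : p ≠ 0 := by rintro rfl; simp at hn
  have hcard : Multiset.card p.roots = n + 1 := by
    rw [← hn]; exact (IsAlgClosed.splits p).natDegree_eq_card_roots.symm
  have hnodup : p.roots.Nodup := by
    rw [Multiset.nodup_iff_count_le_one]
    intro a
    rw [count_roots]
    by_contra hcon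
    push Not at hcon
    have h1 := (one_lt_rootMultiplicity_iff_isRoot hp0).mp hcon
    exact hsep a h1.1 h1.2
  set s := p.roots.toFinset with hs
  have hsval : s.val = p.roots := by rw [hs, Multiset.toFinset_val, hnodup.dedup]
  have hscard : s.card = n + 1 := by rw [Finset.card, hsval, hcard]
  refine ⟨hscard, ?_⟩
  have hlc : p.leadingCoeff = p.coeff (n + 1) := by rw [leadingCoeff, hn]
  have hlc0 : p.leadingCoeff ≠ 0 := leadingCoeff_ne_zero.mpr hp0
  have hpe : p = C p.leadingCoeff * Lagrange.nodal s id := by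
    conv_lhs => rw [(IsAlgClosed.splits p).eq_prod_roots]
    rw [Lagrange.nodal, Finset.prod, hsval]
    simp
  have hinj : Set.InjOn (id : κ → κ) s := Set.injOn_id _
  have hdeg : B.degree < s.card := by
    rw [hscard]
    exact (degree_le_natDegree).trans_lt (by exact_mod_cast Nat.lt_succ_of_le hB)
  have h1 := Lagrange.coeff_eq_sum hinj hdeg
  rw [hscard, Nat.add_sub_cancel] at h1
  rw [h1, ← hlc, sum_div]
  refine sum_congr rfl fun x hx => ?_
  have h2 : (derivative p).eval x = p.leadingCoeff * ∏ j ∈ s.erase x, (x - j) := by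
    conv_lhs => rw [hpe, derivative_C_mul, eval_mul, eval_C]
    congr 1
    have h3 := Lagrange.eval_nodal_derivative_eval_node_eq (v := (id : κ → κ)) hx
    rw [id] at h3
    rw [h3, Lagrange.eval_nodal]
    simp
  rw [h2]
  simp only [id]
  rw [div_div, mul_comm]

end Pool.Agent.Helper36.S5

end

section

set_option autoImplicit false

open Finset Polynomial

namespace Pool.Agent.Helper36.S5

variable {κ : Type*} [Field κ]

/-- the constant of the descent -/
def TT (d : ℕ) : ℕ → ℕ → ℕ
  | 0, D => D
  | e + 1, D => max (TT d e D) (TT d e (D + (D * d + 2 * d * (e + 1)))) + D + 1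

end Pool.Agent.Helper36.S5

end

section

set_option autoImplicit false

set_option linter.unusedSectionVars false

open Finset Polynomial

namespace Pool.Agent.Helper36.S5

variable {O κ : Type*} [CommRing O] [IsDomain O] [Field κ]

variable {π : O →+* κ} {τ : O} {d : ℕ} {A B A₂ B₂ : O[X]} {x y : ℕ → O} {n : ℕ}

/-- constant -/
def CC (d m D : ℕ) : ℕ := 2 * d * TT d m (D + m)

end Pool.Agent.Helper36.S5

end

section

set_option autoImplicit false

open Finset Polynomial

namespace Pool.Agent.Helper35.PS

open Pool.Agent.Helper33 Pool.Agent.Helper33.PS Pool.Agent.Helper33.UB Pool.Agent.Helper45.FR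
  Pool.Agent.Helper51.RatTree Pool.Agent.Helper93.RatODE

section conj

variable {K : Type*} [Field K]

variable {F G : K[X]} {d : ℕ} {a b c e : K}

lemma lin_cop (h : a * e - b * c ≠ 0) : IsCoprime (C e * X - C b : K[X]) (C a - C c * X) := by
  refine ⟨C ((a * e - b * c)⁻¹ * c), C ((a * e - b * c)⁻¹ * e), ?_⟩
  have h1 : C ((a * e - b * c)⁻¹ * c) * (C e * X - C b) + C ((a * e - b * c)⁻¹ * e) * (C a - C c * X) =
      C ((a * e - b * c)⁻¹ * (a * e - b * c)) := by
    simp only [C_mul, C_sub]
    ring
  rw [h1, inv_mul_cancel₀ h, C_1]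

lemma isCoprime_comb (h : a * e - b * c ≠ 0) {U W : K[X]} (hUW : IsCoprime U W) :
    IsCoprime (C a * U + C b * W) (C c * U + C e * W) := by
  obtain ⟨s, t, hst⟩ := hUW
  refine ⟨C (a * e - b * c)⁻¹ * (s * C e - t * C c), C (a * e - b * c)⁻¹ * (t * C a - s * C b), ?_⟩
  have h1 : C (a * e - b * c)⁻¹ * (s * C e - t * C c) * (C a * U + C b * W) +
      C (a * e - b * c)⁻¹ * (t * C a - s * C b) * (C c * U + C e * W) =
      C ((a * e - b * c)⁻¹ * (a * e - b * c)) * (s * U + t * W) := by
    simp only [C_mul, C_sub]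
    ring
  rw [h1, inv_mul_cancel₀ h, hst, C_1, one_mul]

end conj

end Pool.Agent.Helper35.PS

end

section

set_option autoImplicit false

open Finset Polynomial

namespace Pool.Agent.Helper33.PT

open Pool.Agent.Helper33.UB TreeDyn

/-- choice of an index -/
lemma exists_start (b : ℕ → ℝ) (n W n1 : ℕ) (t : ℝ) (ht : 0 ≤ t) (hb : ∀ j, 0 ≤ b j)
    (hs : ∑ j ∈ range n, b j ≤ 2 * t * n) (hn1 : n1 + W ≤ n) (hn : n ≤ 2 * n1) (h1 : 1 ≤ n1) :
    ∃ i < n1, ∑ s ∈ range W, b (i + s) ≤ 4 * t * W := by
  by_contra hcon
  push Not at hcon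
  have h2 : ∑ i ∈ range n1, 4 * t * W < ∑ i ∈ range n1, ∑ s ∈ range W, b (i + s) :=
    sum_lt_sum_of_nonempty (by rw [nonempty_range_iff]; omega) fun i hi => hcon i (mem_range.mp hi)
  have h3 : ∑ i ∈ range n1, ∑ s ∈ range W, b (i + s) ≤ W * (2 * t * n) := by
    rw [sum_comm]
    calc _ ≤ ∑ s ∈ range W, (2 * t * n) := by
          apply sum_le_sum
          intro s hs'
          rw [mem_range] at hs'
          refine le_trans ?_ hs
          have : ∑ i ∈ range n1, b (i + s) = ∑ j ∈ (range n1).image (fun i => i + s), b j := by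
            rw [sum_image]
            intro x _ y _ hxy
            exact Nat.add_right_cancel hxy
          rw [this]
          apply sum_le_sum_of_subset_of_nonneg
          · intro j hj
            obtain ⟨i, hi, rfl⟩ := mem_image.mp hj
            rw [mem_range] at hi ⊢
            omega
          · intro j _ _
            exact hb j
      _ = W * (2 * t * n) := by rw [sum_const, card_range, nsmul_eq_mul]
  rw [sum_const, card_range, nsmul_eq_mul] at h2
  have h4 : (n : ℝ) ≤ 2 * n1 := by exact_mod_cast hn
  have h5 : (W : ℝ) * (2 * t * n) ≤ n1 * (4 * t * W) := by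
    have : 0 ≤ (W : ℝ) * t := by positivity
    nlinarith
  linarith

end Pool.Agent.Helper33.PT

end

section

set_option autoImplicit false

open Finset Polynomial

namespace Pool.Agent.Helper79.PT

open Pool.Agent.Helper45.FR Pool.Agent.Helper33.UB Pool.Agent.Helper51.RatTree Pool.Agent.Helper93.RatODE
  Pool.Agent.Helper33.PS Pool.Agent.Helper55.RD

/-- intersection of a set with its translate -/
lemma card_shift (a w t : ℕ) (s : Finset ℕ) (hs : s ⊆ Finset.Ico a (a + w)) :
    2 * s.card ≤ (s.filter fun j => j + t ∈ s).card + (w + t) := by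
  classical
  have h1 : (s.image fun j => j + t).card = s.card :=
    card_image_of_injective _ (fun i j h => by simpa using h)
  have h2 : s ∪ (s.image fun j => j + t) ⊆ Finset.Ico a (a + w + t) := by
    intro j hj
    rcases mem_union.mp hj with hj | hj
    · have := Finset.mem_Ico.mp (hs hj)
      exact Finset.mem_Ico.mpr ⟨by omega, by omega⟩
    · obtain ⟨i, hi, rfl⟩ := mem_image.mp hj
      have := Finset.mem_Ico.mp (hs hi)
      exact Finset.mem_Ico.mpr ⟨by omega, by omega⟩
  have h3 := card_le_card h2
  rw [Nat.card_Ico] at h3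
  have h4 := card_union_add_card_inter s (s.image fun j => j + t)
  have h5 : (s ∩ (s.image fun j => j + t)).card ≤ (s.filter fun j => j + t ∈ s).card := by
    apply card_le_card_of_injOn (fun j => j - t)
    · intro j hj
      obtain ⟨hj1, hj2⟩ := mem_inter.mp (mem_coe.mp hj)
      obtain ⟨i, hi, rfl⟩ := mem_image.mp hj2
      refine mem_coe.mpr (mem_filter.mpr ?_)
      simp only [Nat.add_sub_cancel]
      exact ⟨hi, hj1⟩
    · intro j hj l hl e
      obtain ⟨-, hj2⟩ := mem_inter.mp (mem_coe.mp hj)
      obtain ⟨-, hl2⟩ := mem_inter.mp (mem_coe.mp hl)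
      obtain ⟨i, -, rfl⟩ := mem_image.mp hj2
      obtain ⟨i', -, rfl⟩ := mem_image.mp hl2
      simp only [Nat.add_sub_cancel] at e
      rw [e]
  omega

end Pool.Agent.Helper79.PT

end

section

set_option autoImplicit false

open Finset Polynomial

namespace Pool.Agent.Helper82.PT

open Pool.Agent.Helper33 Pool.Agent.Helper33.PS Pool.Agent.Helper33.PT

section unt

variable {K : Type*} [Field K] {D : K → K}

lemma D_zero (hadd : ∀ x y, D (x + y) = D x + D y) : D 0 = 0 := by
  have h := hadd 0 0
  rw [add_zero] at h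
  exact left_eq_add.mp h

lemma D_one (hmul : ∀ x y, D (x * y) = x * D y + y * D x) : D 1 = 0 := by
  have h := hmul 1 1
  rw [mul_one, one_mul] at h
  exact left_eq_add.mp h

lemma D_sum (hadd : ∀ x y, D (x + y) = D x + D y) {ι : Type*} (s : Finset ι) (f : ι → K) :
    D (∑ i ∈ s, f i) = ∑ i ∈ s, D (f i) := by
  classical
  induction s using Finset.induction_on with
  | empty => simp [D_zero hadd]
  | insert a s ha ih => rw [sum_insert ha, sum_insert ha, hadd, ih]

lemma D_pow (hmul : ∀ x y, D (x * y) = x * D y + y * D x) {z : K} (hz : D z = 0) (n : ℕ) :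
    D (z ^ n) = 0 := by
  induction n with
  | zero => simp [D_one hmul]
  | succ n ih => rw [pow_succ, hmul, ih, hz]; ring

/-- coefficientwise derivative -/
noncomputable def pD (D : K → K) (d : ℕ) (F : K[X]) : K[X] :=
  ∑ i ∈ range (d + 1), C (D (F.coeff i)) * X ^ i

lemma pD_natDegree (d : ℕ) (F : K[X]) : (pD D d F).natDegree ≤ d := by
  unfold pD
  apply natDegree_sum_le_of_forall_le
  intro i hi
  have h1 : i ≤ d := by have := mem_range.mp hi; omega
  exact (natDegree_C_mul_X_pow_le _ _).trans h1

lemma pD_coeff (hadd : ∀ x y, D (x + y) = D x + D y) {d : ℕ} {F : K[X]} (hF : F.natDegree ≤ d) (i : ℕ) :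
    (pD D d F).coeff i = D (F.coeff i) := by
  unfold pD
  rw [finsetSum_coeff]
  simp only [coeff_C_mul, coeff_X_pow]
  by_cases hi : i ∈ range (d + 1)
  · rw [sum_eq_single_of_mem i hi]
    · simp
    · intro b _ hb
      rw [if_neg (Ne.symm hb)]; ring
  · have h1 : F.coeff i = 0 := by
      apply coeff_eq_zero_of_natDegree_lt
      have := mem_range.not.mp hi
      omega
    rw [h1, D_zero hadd]
    apply sum_eq_zero
    intro b hb
    rw [if_neg (by rintro rfl; exact hi hb)]; ring

lemma pD_eval (hadd : ∀ x y, D (x + y) = D x + D y) (hmul : ∀ x y, D (x * y) = x * D y + y * D x)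
    {d : ℕ} {F : K[X]} (hF : F.natDegree ≤ d) {z : K} (hz : D z = 0) :
    D (F.eval z) = (pD D d F).eval z := by
  rw [eval_eq_sum_range' (Nat.lt_succ_of_le hF), D_sum hadd]
  unfold pD
  rw [eval_finsetSum]
  apply sum_congr rfl
  intro i _
  rw [hmul, D_pow hmul hz]
  simp only [eval_mul, eval_C, eval_pow, eval_X]
  ring

end unt

end Pool.Agent.Helper82.PT

end

section

set_option autoImplicit false

open Finset

namespace Pool.Agent.Helper55.LW

/-- 2-transitivity of the symmetric group -/
lemma exists_perm {ι : Type*} [DecidableEq ι] {i j i' j' : ι} (h : i ≠ j) (h' : i' ≠ j') :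
    ∃ τ : Equiv.Perm ι, τ i = i' ∧ τ j = j' := by
  refine ⟨Equiv.swap (Equiv.swap i i' j) j' * Equiv.swap i i', ?_, ?_⟩
  · rw [Equiv.Perm.mul_apply, Equiv.swap_apply_left]
    apply Equiv.swap_apply_of_ne_of_ne
    · intro hc
      apply h
      have h2 : Equiv.swap i i' i = Equiv.swap i i' j := by
        rw [Equiv.swap_apply_left]; exact hc
      exact (Equiv.swap i i').injective h2
    · exact h'
  · rw [Equiv.Perm.mul_apply, Equiv.swap_apply_left]

/-- the averaging lemma -/
lemma exists_perm_le {ι : Type*} [Fintype ι] [DecidableEq ι] (wt G : ι → ι → ℝ)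
    (hwt : ∀ i, wt i i = 0) (hcard : 2 ≤ Fintype.card ι) :
    ∃ σ : Equiv.Perm ι, (∑ i, ∑ j, wt i j * G (σ i) (σ j)) *
      ((Fintype.card ι : ℝ) * ((Fintype.card ι : ℝ) - 1)) ≤
      (∑ i, ∑ j, wt i j) * (∑ i, ∑ j, if i = j then 0 else G i j) := by
  classical
  set m : ℝ := (Fintype.card ι : ℝ) with hm
  have hm2 : (2 : ℝ) ≤ m := by rw [hm]; exact_mod_cast hcard
  obtain ⟨i₀, j₀, h₀⟩ : ∃ i j : ι, i ≠ j := by
    have : 1 < Fintype.card ι := by omega
    exact Fintype.one_lt_card_iff.mp this
  set T : ℝ := ∑ i, ∑ j, if i = j then 0 else G i j with hT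
  set S : ℝ := ∑ σ : Equiv.Perm ι, G (σ i₀) (σ j₀) with hS
  have hconst : ∀ i j, i ≠ j → ∑ σ : Equiv.Perm ι, G (σ i) (σ j) = S := by
    intro i j hij
    obtain ⟨τ, h1, h2⟩ := exists_perm h₀ hij
    rw [hS, ← Equiv.sum_comp (Equiv.mulRight τ) (fun σ : Equiv.Perm ι => G (σ i₀) (σ j₀))]
    apply Finset.sum_congr rfl
    intro σ _
    simp only [Equiv.coe_mulRight, Equiv.Perm.mul_apply, h1, h2]
  -- total
  have hinv : ∀ σ : Equiv.Perm ι, (∑ i, ∑ j, if i = j then 0 else G (σ i) (σ j)) = T := by
    intro σ
    rw [hT, ← Equiv.sum_comp σ (fun i => ∑ j, if i = j then 0 else G i j)]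
    apply Finset.sum_congr rfl
    intro i _
    rw [← Equiv.sum_comp σ (fun j => if σ i = j then 0 else G (σ i) j)]
    apply Finset.sum_congr rfl
    intro j _
    by_cases h : i = j
    · simp [h]
    · rw [if_neg h, if_neg (fun hc => h (σ.injective hc))]
  have hcount : ∀ c : ℝ, (∑ i : ι, ∑ j : ι, if i = j then 0 else c) = m * (m - 1) * c := by
    intro c
    have : ∀ i : ι, (∑ j : ι, if i = j then 0 else c) = (m - 1) * c := by
      intro i
      have h1 : (∑ j : ι, if i = j then 0 else c) = ∑ j : ι, (c - if i = j then c else 0) := by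
        apply Finset.sum_congr rfl
        intro j _
        by_cases h : i = j
        · simp [h]
        · simp [h]
      rw [h1, Finset.sum_sub_distrib, Finset.sum_const, Finset.card_univ, nsmul_eq_mul,
        Finset.sum_ite_eq, if_pos (Finset.mem_univ i), ← hm]
      ring
    rw [Finset.sum_congr rfl (fun i _ => this i), Finset.sum_const, Finset.card_univ,
      nsmul_eq_mul, ← hm]
    ring
  have h1 : m * (m - 1) * S = ((Fintype.card (Equiv.Perm ι) : ℝ)) * T := by
    have e1 : (∑ σ : Equiv.Perm ι, ∑ i, ∑ j, if i = j then 0 else G (σ i) (σ j)) =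
        (Fintype.card (Equiv.Perm ι) : ℝ) * T := by
      rw [Finset.sum_congr rfl (fun σ _ => hinv σ), Finset.sum_const, Finset.card_univ,
        nsmul_eq_mul]
    rw [← e1, Finset.sum_comm, ← hcount S]
    apply Finset.sum_congr rfl
    intro i _
    rw [Finset.sum_comm]
    apply Finset.sum_congr rfl
    intro j _
    by_cases h : i = j
    · simp [h]
    · simp only [if_neg h]
      exact (hconst i j h).symm
  have h2 : (∑ σ : Equiv.Perm ι, ∑ i, ∑ j, wt i j * G (σ i) (σ j)) = (∑ i, ∑ j, wt i j) * S := by
    rw [Finset.sum_comm, Finset.sum_mul]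
    apply Finset.sum_congr rfl
    intro i _
    rw [Finset.sum_comm, Finset.sum_mul]
    apply Finset.sum_congr rfl
    intro j _
    by_cases h : i = j
    · subst h
      simp [hwt]
    · rw [← Finset.mul_sum, hconst i j h]
  by_contra hcon
  push Not at hcon
  have h3 : ∑ σ : Equiv.Perm ι, ((∑ i, ∑ j, wt i j) * T) <
      ∑ σ : Equiv.Perm ι, (∑ i, ∑ j, wt i j * G (σ i) (σ j)) * (m * (m - 1)) :=
    Finset.sum_lt_sum_of_nonempty ⟨1, Finset.mem_univ _⟩ (fun σ _ => hcon σ)
  rw [← Finset.sum_mul Finset.univ (fun σ : Equiv.Perm ι => ∑ i, ∑ j, wt i j * G (σ i) (σ j)), h2,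
    Finset.sum_const, Finset.card_univ, nsmul_eq_mul] at h3
  have h4 : (∑ i, ∑ j, wt i j) * S * (m * (m - 1)) =
      (Fintype.card (Equiv.Perm ι) : ℝ) * ((∑ i, ∑ j, wt i j) * T) := by
    calc (∑ i, ∑ j, wt i j) * S * (m * (m - 1)) = (∑ i, ∑ j, wt i j) * (m * (m - 1) * S) := by ring
      _ = _ := by rw [h1]; ring
  rw [h4] at h3
  exact lt_irrefl _ h3

end Pool.Agent.Helper55.LW

end

section

set_option autoImplicit false

open Finset Polynomial

namespace Pool.Agent.Helper55.LW

open Pool.Agent.Helper33

variable {K : Type*} [Field K]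

lemma sum_w (R : ℕ) (β β' β'' : ℕ → ℝ) (κ : ℝ) :
    ∑ c ∈ range (R + R), ∑ e ∈ range (R + R),
      (if c < R ∧ R ≤ e then β' c + β'' (e - R) + κ else β c + β e) =
      3 * R * ∑ c ∈ range (R + R), β c + R * ∑ c ∈ range R, β' c + R * ∑ c ∈ range R, β'' c +
        R ^ 2 * κ := by
  rw [Finset.sum_range_add]
  have h1 : ∀ c ∈ range R, ∑ e ∈ range (R + R),
      (if c < R ∧ R ≤ e then β' c + β'' (e - R) + κ else β c + β e) =
      (R * β c + ∑ e ∈ range R, β e) + (R * β' c + ∑ e ∈ range R, β'' e + R * κ) := by
    intro c hc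
    rw [mem_range] at hc
    rw [Finset.sum_range_add]
    congr 1
    · have : ∀ e ∈ range R, (if c < R ∧ R ≤ e then β' c + β'' (e - R) + κ else β c + β e) =
          β c + β e := by
        intro e he
        rw [mem_range] at he
        rw [if_neg (by omega)]
      rw [Finset.sum_congr rfl this, Finset.sum_add_distrib, Finset.sum_const, card_range,
        nsmul_eq_mul]
    · have : ∀ e ∈ range R, (if c < R ∧ R ≤ R + e then β' c + β'' (R + e - R) + κ
          else β c + β (R + e)) = β' c + β'' e + κ := by
        intro e he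
        rw [if_pos ⟨hc, by omega⟩, Nat.add_sub_cancel_left]
      rw [Finset.sum_congr rfl this, Finset.sum_add_distrib, Finset.sum_add_distrib,
        Finset.sum_const, Finset.sum_const, card_range, nsmul_eq_mul, nsmul_eq_mul]
  have h2 : ∀ c ∈ range R, ∑ e ∈ range (R + R),
      (if R + c < R ∧ R ≤ e then β' (R + c) + β'' (e - R) + κ else β (R + c) + β e) =
      2 * R * β (R + c) + ∑ e ∈ range (R + R), β e := by
    intro c hc
    have : ∀ e ∈ range (R + R), (if R + c < R ∧ R ≤ e then β' (R + c) + β'' (e - R) + κ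
        else β (R + c) + β e) = β (R + c) + β e := by
      intro e he
      rw [if_neg (by omega)]
    rw [Finset.sum_congr rfl this, Finset.sum_add_distrib, Finset.sum_const, card_range,
      nsmul_eq_mul]
    push_cast
    ring
  rw [Finset.sum_congr rfl h1, Finset.sum_congr rfl h2]
  simp only [Finset.sum_add_distrib, Finset.sum_const, card_range, nsmul_eq_mul,
    ← Finset.mul_sum]
  rw [Finset.sum_range_add]
  ring

/-- the weights of the pairs -/
noncomputable def Wt (R i j : ℕ) : ℝ :=
  if i < R then 1 else if R ≤ j then 1 else if i = R + j then R else 0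

lemma sum_Wt (R : ℕ) (F : ℕ → ℕ → ℝ) :
    ∑ i ∈ range (R + R), ∑ j ∈ range i, Wt R i j * F i j =
      ∑ i ∈ range R, ∑ j ∈ range i, F i j + ∑ c ∈ range R, ∑ l ∈ range c, F (R + c) (R + l) +
        R * ∑ c ∈ range R, F (R + c) c := by
  rw [Finset.sum_range_add, add_assoc]
  congr 1
  · apply Finset.sum_congr rfl
    intro i hi
    apply Finset.sum_congr rfl
    intro j _
    rw [mem_range] at hi
    rw [Wt, if_pos hi, one_mul]
  · rw [Finset.mul_sum, ← Finset.sum_add_distrib]
    apply Finset.sum_congr rfl
    intro c hc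
    rw [mem_range] at hc
    rw [Finset.sum_range_add, add_comm]
    congr 1
    · apply Finset.sum_congr rfl
      intro l _
      rw [Wt, if_neg (by omega), if_pos (by omega), one_mul]
    · rw [Finset.sum_eq_single c]
      · rw [Wt, if_neg (by omega), if_neg (by omega), if_pos rfl]
      · intro j hj hjc
        rw [mem_range] at hj
        rw [Wt, if_neg (by omega), if_neg (by omega), if_neg (by omega), zero_mul]
      · intro h
        exact absurd (mem_range.mpr hc) h

end Pool.Agent.Helper55.LW

end

section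

set_option autoImplicit false

open Finset Polynomial

namespace Pool.Agent.Helper11.PT

open Pool.Agent.Helper33 Pool.Agent.Helper33.PT Pool.Agent.Helper55.LW

lemma monic_leja {E : Type*} [Field E] (u : ℕ → E) (c : ℕ) :
    (∏ l ∈ range c, ((X : E[X]) - C (u l))).Monic ∧
      (∏ l ∈ range c, ((X : E[X]) - C (u l))).natDegree = c := by
  constructor
  · exact monic_prod_of_monic _ _ (fun l _ => monic_X_sub_C _)
  · rw [natDegree_prod_of_monic _ _ (fun l _ => monic_X_sub_C _)]
    simp

end Pool.Agent.Helper11.PT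

end

section

set_option autoImplicit false

open Finset Polynomial

namespace Pool.Agent.Helper55.LWI

open Pool.Agent.Helper33 Pool.Agent.Helper55.LW

variable {K ι : Type*} [Field K]

/-- extension of a family to a sequence -/
noncomputable def exti [Nonempty ι] {m : ℕ} (f : Fin m → ι) (i : ℕ) : ι :=
  if h : i < m then f ⟨i, h⟩ else Classical.arbitrary ι

lemma exti_val [Nonempty ι] {m : ℕ} (f : Fin m → ι) (i : Fin m) : exti f i = f i := by
  rw [exti, dif_pos i.2]

end Pool.Agent.Helper55.LWI

end

section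

set_option autoImplicit false

open Finset Polynomial

namespace Pool.Agent.Helper33.PT

open Pool.Agent.Helper45.FR Pool.Agent.Helper33.UB Pool.Agent.Helper51.RatTree
  Pool.Agent.Helper93.RatODE Pool.Agent.Helper33.PS Pool.Agent.Helper55.RD

section maps

variable {K E : Type} [Field K] [Field E] (θ : K →+* E) {F G : K[X]} {d : ℕ} {x : ℕ → K} {N : ℕ}

theorem rmap_map (y : K) : rmap (F.map θ) (G.map θ) (θ y) = θ (rmap F G y) := by
  unfold rmap
  rw [eval_map, eval₂_at_apply, eval_map, eval₂_at_apply, ← map_div₀]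

theorem iterate_rmap_map (n : ℕ) (y : K) :
    (rmap (F.map θ) (G.map θ))^[n] (θ y) = θ ((rmap F G)^[n] y) := by
  induction n generalizing y with
  | zero => rfl
  | succ n ih => rw [Function.iterate_succ_apply, rmap_map, ih, Function.iterate_succ_apply]

end maps

end Pool.Agent.Helper33.PT

end
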