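import Pool.Agent.Helper23.MB.Inst

/-!
Parts of Helper33.UB.AM, Helper33.UB.Inst, Helper33.UB.LB, Helper93.RatRiccati, Helper33.FieldRed, Helper33.UB.RatInst, Helper38.DT.RelDeg, Helper45.S6Count, Helper31.RRK.Frob, Helper31.DT.SepDeg, Helper45.M8Trans, Helper91.DT.B, Helper91.DT.D, Helper91.DT.E, Helper13.EN.V2, Helper36.DT.Min, Helper34.Dep.Aut, Helper98.PS.K1, Helper36.S5.LemmaR2, Helper36.S5.Descent, Helper35.PS.Coord, Helper45.M8Main, Helper55.LW.Comb, Helper55.LW.Basis, Helper55.LW.Main, Helper55.LW.Spec, Helper53.PT.Pair, Helper36.PT.Level, Helper33.PT.Lev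
-/

attribute [-simp] Valuation.IsUniformizer.val
attribute [local instance 5000]
  Pool.Agent.Helper23.MB.Inst.rCharZero Pool.Agent.Helper23.MB.Inst.rALM
  Pool.Agent.Helper23.MB.Inst.rARM Pool.Agent.Helper23.MB.Inst.rALSM
  Pool.Agent.Helper23.MB.Inst.rARSM Pool.Agent.Helper23.MB.Inst.rARRLE
  Pool.Agent.Helper23.MB.Inst.rALRLE Pool.Agent.Helper23.MB.Inst.rARRLT
  Pool.Agent.Helper23.MB.Inst.rALRLT Pool.Agent.Helper23.MB.Inst.rPMRLT
  Pool.Agent.Helper23.MB.Inst.rMPRLT Pool.Agent.Helper23.MB.Inst.rPMM
  Pool.Agent.Helper23.MB.Inst.rMPM Pool.Agent.Helper23.MB.Inst.rPMSM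
  Pool.Agent.Helper23.MB.Inst.rMPSM Pool.Agent.Helper23.MB.Inst.rEAOL
  Pool.Agent.Helper23.MB.Inst.rIOR Pool.Agent.Helper23.MB.Inst.rISOR
  Pool.Agent.Helper23.MB.Inst.rNZD Pool.Agent.Helper23.MB.Inst.zCharZero
  Pool.Agent.Helper23.MB.Inst.zALM Pool.Agent.Helper23.MB.Inst.zARM
  Pool.Agent.Helper23.MB.Inst.zIOR Pool.Agent.Helper23.MB.Inst.zISOR
  Pool.Agent.Helper23.MB.Inst.zNZD Pool.Agent.Helper23.MB.Inst.qCharZero
  Pool.Agent.Helper23.MB.Inst.free Pool.Agent.Helper23.MB.Inst.faith
  Pool.Agent.Helper23.MB.Inst.torsionFree Pool.Agent.Helper23.MB.Inst.rfFaith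
  Pool.Agent.Helper23.MB.Inst.hAdd Pool.Agent.Helper23.MB.Inst.hAddM
  Pool.Agent.Helper23.MB.Inst.hMul Pool.Agent.Helper23.MB.Inst.hMon
  Pool.Agent.Helper23.MB.Inst.hZero Pool.Agent.Helper23.MB.Inst.hOne
  Pool.Agent.Helper23.MB.Inst.hMZ Pool.Agent.Helper23.MB.Inst.hRing
  Pool.Agent.Helper23.MB.Inst.aAdd Pool.Agent.Helper23.MB.Inst.aAddM
  Pool.Agent.Helper23.MB.Inst.aMul Pool.Agent.Helper23.MB.Inst.aMon
  Pool.Agent.Helper23.MB.Inst.aZero Pool.Agent.Helper23.MB.Inst.aOne
  Pool.Agent.Helper23.MB.Inst.aMZ Pool.Agent.Helper23.MB.Inst.aRing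

namespace Pool.Agent.Helper16
end Pool.Agent.Helper16
namespace Pool.Agent.Helper33
end Pool.Agent.Helper33
namespace Pool.Agent.Helper33.PS
end Pool.Agent.Helper33.PS
namespace Pool.Agent.Helper33.UB
end Pool.Agent.Helper33.UB
namespace Pool.Agent.Helper35.PS
end Pool.Agent.Helper35.PS
namespace Pool.Agent.Helper38.DT
end Pool.Agent.Helper38.DT
namespace Pool.Agent.Helper45.FF
end Pool.Agent.Helper45.FF
namespace Pool.Agent.Helper45.FR
end Pool.Agent.Helper45.FR
namespace Pool.Agent.Helper45.S4
end Pool.Agent.Helper45.S4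
namespace Pool.Agent.Helper45.S6
end Pool.Agent.Helper45.S6
namespace Pool.Agent.Helper47.RR
end Pool.Agent.Helper47.RR
namespace Pool.Agent.Helper51.RatTree
end Pool.Agent.Helper51.RatTree
namespace Pool.Agent.Helper55.LW
end Pool.Agent.Helper55.LW
namespace Pool.Agent.Helper55.RD
end Pool.Agent.Helper55.RD
namespace Pool.Agent.Helper93.RatODE
end Pool.Agent.Helper93.RatODE

section

set_option autoImplicit false

open Finset Polynomial

namespace Pool.Agent.Helper33.UB

/-- signs making a quadratic form nonpositive -/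
lemma exists_signs {ι : Type*} [DecidableEq ι] (ψ : ι → ι → ℤ) (hsym : ∀ i j, ψ i j = ψ j i)
    (hdiag : ∀ i, ψ i i = 0) (s : Finset ι) :
    ∃ ε : ι → ℤ, (∀ i, ε i = 1 ∨ ε i = -1) ∧ ∑ i ∈ s, ∑ j ∈ s, ε i * ε j * ψ i j ≤ 0 := by
  induction s using Finset.induction_on with
  | empty => exact ⟨fun _ => 1, fun _ => Or.inl rfl, by simp⟩
  | insert a s ha ih =>
    obtain ⟨ε, hε, hsum⟩ := ih
    set σ : ℤ := ∑ j ∈ s, ε j * ψ a j with hσ
    set c : ℤ := if 0 ≤ σ then -1 else 1 with hc
    have hcσ : c * σ ≤ 0 := by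
      rw [hc]; split_ifs with h
      · linarith
      · linarith
    refine ⟨Function.update ε a c, ?_, ?_⟩
    · intro i
      by_cases hi : i = a
      · subst hi
        rw [Function.update_self, hc]
        split_ifs
        · exact Or.inr rfl
        · exact Or.inl rfl
      · rw [Function.update_of_ne hi]
        exact hε i
    · have hne : ∀ i ∈ s, i ≠ a := by
        rintro i hi rfl; exact ha hi
      have h1 : ∀ i ∈ s, Function.update ε a c i = ε i := fun i hi =>
        Function.update_of_ne (hne i hi) _ _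
      rw [sum_insert ha, sum_insert ha, Function.update_self, hdiag, mul_zero, zero_add]
      have e1 : ∑ j ∈ s, c * Function.update ε a c j * ψ a j = c * σ := by
        rw [hσ, mul_sum]
        apply sum_congr rfl
        intro j hj
        rw [h1 j hj]; ring
      have e2 : ∑ i ∈ s, ∑ j ∈ insert a s, Function.update ε a c i * Function.update ε a c j * ψ i j =
          c * σ + ∑ i ∈ s, ∑ j ∈ s, ε i * ε j * ψ i j := by
        rw [hσ, mul_sum, ← sum_add_distrib]
        apply sum_congr rfl
        intro i hi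
        rw [sum_insert ha, Function.update_self, h1 i hi, hsym i a]
        congr 1
        · ring
        · apply sum_congr rfl
          intro j hj
          rw [h1 j hj]
      rw [e1, e2]
      linarith

end Pool.Agent.Helper33.UB

end

section

set_option autoImplicit false

open Finset Polynomial

namespace Pool.Agent.Helper33.UB

/-- a polynomial relation of complexity `r` between `x` and `Dx` on a finite set -/
def Rel {K : Type*} [Field K] (D : K → K) (r : ℕ) (s : Finset K) : Prop :=
  ∃ A Cp : K[X], (A ≠ 0 ∨ Cp ≠ 0) ∧ A.natDegree ≤ r - 1 ∧ (A ≠ 0 → 1 ≤ r) ∧ Cp.natDegree ≤ r + 1 ∧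
    ∀ x ∈ s, A.eval x * D x = Cp.eval x

end Pool.Agent.Helper33.UB

end

section

set_option autoImplicit false

open Polynomial Finset

namespace Pool.Agent.Helper33.UB

variable {K : Type*} [Field K]

/-- Taylor coefficients are coefficients of the translate -/
lemma tc_linear_prod (a : K) (s : Finset K) :
    taylor a (∏ z ∈ s, (X - C z)) = ∏ z ∈ s, (X - C (z - a)) := by
  rw [taylor_apply, Polynomial.prod_comp]
  apply prod_congr rfl
  intro z _
  simp only [sub_comp, X_comp, C_comp, C_sub]
  ring

end Pool.Agent.Helper33.UB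

end

section

set_option autoImplicit false

open Finset Polynomial

namespace Pool.Agent.Helper93.RatODE

variable {K : Type*} [Field K]

section derivation

variable {D : K → K}

lemma D_sub (hadd : ∀ x y, D (x + y) = D x + D y) (x y : K) : D (x - y) = D x - D y := by
  have h := hadd (x - y) y
  rw [sub_add_cancel] at h
  rw [h]; ring

end derivation

end Pool.Agent.Helper93.RatODE

end

section

set_option autoImplicit false

open Polynomial IntermediateField

namespace Pool.Agent.Helper33

section constants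

variable (k K : Type) [Field k] [Field K] [Algebra k K]

/-- the algebraic closure of the constants in `K̄` -/
noncomputable abbrev kb : IntermediateField k (AlgebraicClosure K) := algebraicClosure k (AlgebraicClosure K)

instance : IsAlgClosed (kb k K) :=
  (algebraicClosure.isAlgClosure k (AlgebraicClosure K)).isAlgClosed

end constants

end Pool.Agent.Helper33

end

section

set_option autoImplicit false

open Finset Polynomial

namespace Pool.Agent.Helper33.UB

open Pool.Agent.Helper51.RatTree Pool.Agent.Helper55.RD Pool.Agent.Helper93.RatODE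
  Pool.Agent.Helper45.FR

section basic

variable {K : Type*} [Field K] {d : ℕ} {F G : K[X]}

lemma hmax_of_top (hF : F.natDegree ≤ d) (hG : G.natDegree ≤ d) (htop : F.coeff d ≠ 0 ∨ G.coeff d ≠ 0) :
    F.natDegree = d ∨ G.natDegree = d := by
  rcases htop with h | h
  · exact Or.inl (le_antisymm hF (le_natDegree_of_ne_zero h))
  · exact Or.inr (le_antisymm hG (le_natDegree_of_ne_zero h))

end basic

end Pool.Agent.Helper33.UB

end

section

set_option autoImplicit false

namespace Pool.Agent.Helper38.DT

open Polynomial IntermediateField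

section deg

variable {E M : Type} [Field E] [Field M] [Algebra E M]

/-- the degree of an endomorphism is computed on any rational subfield of finite index which it
preserves -/
theorem relfinrank_endo (Ψ : M →ₐ[E] M) (y : M) (hy : Ψ y ∈ E⟮y⟯)
    (hfin : Module.finrank E⟮y⟯ M ≠ 0) :
    relfinrank E⟮Ψ y⟯ E⟮y⟯ = Module.finrank Ψ.fieldRange M := by
  have h1 : E⟮Ψ y⟯ ≤ E⟮y⟯ := by
    rw [adjoin_simple_le_iff]
    exact hy
  have h2 := relfinrank_mul_finrank_top h1
  have h3 : E⟮Ψ y⟯ = (E⟮y⟯).map Ψ := by
    rw [IntermediateField.adjoin_map, Set.image_singleton]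
  have h4 : E⟮Ψ y⟯ ≤ Ψ.fieldRange := by
    rw [adjoin_simple_le_iff]
    exact ⟨y, rfl⟩
  have h5 := relfinrank_mul_finrank_top h4
  have h6 : relfinrank E⟮Ψ y⟯ Ψ.fieldRange = Module.finrank E⟮y⟯ M := by
    rw [h3, AlgHom.fieldRange_eq_map, relfinrank_map_map, relfinrank_top_right]
  rw [h6] at h5
  rw [← h5, mul_comm] at h2
  exact Nat.eq_of_mul_eq_mul_left (Nat.pos_of_ne_zero hfin) h2

end deg

end Pool.Agent.Helper38.DT

end

section

set_option autoImplicit false

set_option linter.style.haveILetI false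

open Polynomial

namespace Pool.Agent.Helper45.S6

open Pool.Agent.Helper33 Pool.Agent.Helper93.RatODE Pool.Agent.Helper45.FR

section defs

variable {Ω : Type} [Field Ω]

/-- the map on vectors -/
noncomputable def Phi (F G : MvPolynomial (Fin 2) Ω) (v : Fin 2 → Ω) : Fin 2 → Ω :=
  ![MvPolynomial.eval v F, MvPolynomial.eval v G]

/-- the pair of coordinates -/
def pr (v : Fin 2 → Ω) : Ω × Ω := (v 0, v 1)

/-- isotriviality in the sense of S17873 -/
def Isotriv (k : Type) [Field k] [Algebra k Ω] (F G : MvPolynomial (Fin 2) Ω) (d : ℕ) : Prop :=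
  ∃ (A : Matrix (Fin 2) (Fin 2) Ω) (F' G' : MvPolynomial (Fin 2) Ω),
    A.det ≠ 0 ∧ F'.IsHomogeneous d ∧ G'.IsHomogeneous d ∧
    (∀ m, IsAlgebraic k (F'.coeff m) ∧ IsAlgebraic k (G'.coeff m)) ∧
    ∀ v : Fin 2 → Ω, v ≠ 0 → ∃ c : Ω, c ≠ 0 ∧
      ![MvPolynomial.eval (A.mulVec v) F, MvPolynomial.eval (A.mulVec v) G] =
        c • A.mulVec ![MvPolynomial.eval v F', MvPolynomial.eval v G']

theorem pr_ne_zero {v : Fin 2 → Ω} (hv : v ≠ 0) : pr v ≠ 0 := by
  intro h
  apply hv
  ext i
  fin_cases i
  · exact congrArg Prod.fst h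
  · exact congrArg Prod.snd h

end defs

end Pool.Agent.Helper45.S6

end

section

set_option autoImplicit false

set_option linter.style.haveILetI false

namespace Pool.Agent.Helper31.RRK

open Polynomial IntermediateField Pool.Agent.Helper16 Pool.Agent.Helper33 Pool.Agent.Helper45.FF

open Pool.Agent.Helper45.S4 Pool.Agent.Helper47.RR

section semilinear

variable {k L k' L' : Type} [Field k] [Field L] [Algebra k L] [Field k'] [Field L'] [Algebra k' L']

theorem semilin_symm {τ : k ≃+* k'} {e : L ≃+* L'}
    (h : ∀ c, e (algebraMap k L c) = algebraMap k' L' (τ c)) (c : k') :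
    e.symm (algebraMap k' L' c) = algebraMap k L (τ.symm c) := by
  rw [e.symm_apply_eq, h, τ.apply_symm_apply]

end semilinear

end Pool.Agent.Helper31.RRK

end

section

set_option autoImplicit false

set_option linter.style.haveILetI false

namespace Pool.Agent.Helper31.DT

open Polynomial IntermediateField Pool.Agent.Helper93.RatODE Pool.Agent.Helper38.DT
  Pool.Agent.Helper16

section transfer

variable {E M : Type} [Field E] [Field M] [Algebra E M]

theorem aeval_ne_zero {z : M} (hz : Transcendental E z) {P : E[X]} (hP : P ≠ 0) :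
    aeval z P ≠ 0 := by
  intro h
  exact hP ((transcendental_iff.1 hz) P h)

end transfer

section degree

theorem finSepDegree_eq_of_equiv_equiv {F K F' K' : Type} [Field F] [Field K] [Field F'] [Field K']
    [Algebra F K] [Algebra F' K'] [Algebra.IsAlgebraic F' K'] (i : F ≃+* F') (j : K ≃+* K')
    (h : ∀ x, j (algebraMap F K x) = algebraMap F' K' (i x)) :
    Field.finSepDegree F K = Field.finSepDegree F' K' := by
  letI : Algebra F F' := (i : F →+* F').toAlgebra
  letI : Algebra F K' := ((algebraMap F' K').comp (i : F →+* F')).toAlgebra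
  haveI : IsScalarTower F F' K' := IsScalarTower.of_algebraMap_eq (fun _ => rfl)
  have h1 := Field.finSepDegree_mul_finSepDegree_of_isAlgebraic F F' K'
  have h2 : Field.finSepDegree F F' = 1 := by
    rw [← Field.finSepDegree_eq_of_equiv F F F' (AlgEquiv.ofRingEquiv (f := i) (fun _ => rfl)),
      Field.finSepDegree_self]
  have h3 : Field.finSepDegree F K = Field.finSepDegree F K' :=
    Field.finSepDegree_eq_of_equiv F K K' (AlgEquiv.ofRingEquiv (f := j) (fun x => h x))
  rw [h2, one_mul] at h1
  rw [h3, h1]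

end degree

end Pool.Agent.Helper31.DT

end

section

set_option autoImplicit false

set_option linter.style.haveILetI false

namespace Pool.Agent.Helper45.M8

open Finset Polynomial Pool.Agent.Helper93.RatODE Pool.Agent.Helper45.FR

section vec

variable {k L : Type*} [Field k] [Field L] [Algebra k L]

theorem mulVec_zero' (A : Matrix (Fin 2) (Fin 2) L) (v : Fin 2 → L) :
    A.mulVec v 0 = A 0 0 * v 0 + A 0 1 * v 1 := by
  simp [Matrix.mulVec, dotProduct, Fin.sum_univ_two]

theorem mulVec_one' (A : Matrix (Fin 2) (Fin 2) L) (v : Fin 2 → L) :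
    A.mulVec v 1 = A 1 0 * v 0 + A 1 1 * v 1 := by
  simp [Matrix.mulVec, dotProduct, Fin.sum_univ_two]

end vec

end Pool.Agent.Helper45.M8

end

section

set_option autoImplicit false

namespace Pool.Agent.Helper91.DT

open Polynomial IntermediateField Pool.Agent.Helper93.RatODE Pool.Agent.Helper45.FR
  Pool.Agent.Helper38.DT

section iso

theorem mem_range_of_isAlgebraic {k E : Type} [Field k] [IsAlgClosed k] [Field E] [Algebra k E]
    {x : E} (hx : IsAlgebraic k x) : ∃ a : k, algebraMap k E a = x :=
  minpoly.mem_range_of_degree_eq_one k x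
    (IsAlgClosed.degree_eq_one_of_irreducible k (minpoly.irreducible hx.isIntegral))

end iso

end Pool.Agent.Helper91.DT

end

section

set_option autoImplicit false

namespace Pool.Agent.Helper91.DT

open Polynomial IntermediateField Pool.Agent.Helper93.RatODE Pool.Agent.Helper45.FR
  Pool.Agent.Helper38.DT

section trdeg

variable {k E : Type} [Field k] [Field E] [Algebra k E]

theorem exists_transcendental (hE : Algebra.trdeg k E = 1) : ∃ t : E, Transcendental k t := by
  by_contra h
  push Not at h
  have h1 : Algebra.IsAlgebraic k E := ⟨fun x => by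
    have := h x
    rwa [Transcendental, not_not] at this⟩
  have h3 : Algebra.trdeg k E = 0 := trdeg_eq_zero
  rw [h3] at hE
  exact zero_ne_one hE

theorem trdeg_intermediate (hE : Algebra.trdeg k E = 1) (L : IntermediateField k E) (t : E)
    (ht : Transcendental k t) (htL : t ∈ L) :
    Algebra.trdeg k L = 1 ∧ Algebra.IsAlgebraic L E := by
  have h1 := trdeg_add_eq k L (A := E)
  rw [hE] at h1
  have ht' : Transcendental k (⟨t, htL⟩ : L) := by
    intro h
    exact ht (h.algHom L.val)
  have h2 : AlgebraicIndependent k (fun _ : Unit => (⟨t, htL⟩ : L)) :=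
    algebraicIndependent_unique_type_iff.2 ht'
  have h3 : 1 ≤ Algebra.trdeg k L := by
    have := h2.lift_cardinalMk_le_trdeg
    simpa using this
  have h4 : Algebra.trdeg L E = 0 := by
    by_contra hne
    have h5 : 1 ≤ Algebra.trdeg L E := Cardinal.one_le_iff_ne_zero.2 hne
    have h6 : (1 : Cardinal) + 1 ≤ 1 := by
      calc (1 : Cardinal) + 1 ≤ Algebra.trdeg k L + Algebra.trdeg L E := add_le_add h3 h5
        _ = 1 := h1
    norm_num at h6
  rw [h4, add_zero] at h1
  exact ⟨h1, trdeg_eq_zero_iff.1 h4⟩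

end trdeg

section lifting

variable {k E : Type} [Field k] [Field E] [Algebra k E]

theorem exists_lift_poly {K : IntermediateField k E} (p : E[X]) (hp : ∀ j, p.coeff j ∈ K) :
    ∃ q : K[X], q.map (algebraMap K E) = p := by
  have h1 : p ∈ lifts (algebraMap K E) := by
    rw [lifts_iff_coeff_lifts]
    intro n
    exact ⟨⟨p.coeff n, hp n⟩, rfl⟩
  exact (mem_lifts p).1 h1

end lifting

end Pool.Agent.Helper91.DT

end

section

set_option autoImplicit false

namespace Pool.Agent.Helper91.DT

open Polynomial IntermediateField Pool.Agent.Helper93.RatODE Pool.Agent.Helper45.FR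
  Pool.Agent.Helper38.DT

section forms

variable {K : Type} [Field K]

/-- the form of `bev` in the second pair -/
noncomputable def pz (q : ℕ → ℕ → K) (m n : ℕ) (y : K × K) : K[X] :=
  ∑ b ∈ Finset.range (n + 1),
    C (∑ a ∈ Finset.range (m + 1), q a b * y.1 ^ a * y.2 ^ (m - a)) * X ^ b

theorem pz_coeff (q : ℕ → ℕ → K) (m n : ℕ) (y : K × K) (b : ℕ) : (pz q m n y).coeff b =
    if b < n + 1 then ∑ a ∈ Finset.range (m + 1), q a b * y.1 ^ a * y.2 ^ (m - a) else 0 := by
  unfold pz
  rw [finsetSum_coeff]
  simp only [coeff_C_mul_X_pow]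
  rw [Finset.sum_ite_eq]
  simp only [Finset.mem_range]

theorem pz_natDegree (q : ℕ → ℕ → K) (m n : ℕ) (y : K × K) : (pz q m n y).natDegree ≤ n := by
  rw [natDegree_le_iff_coeff_eq_zero]
  intro b hb
  rw [pz_coeff, if_neg (by omega)]

end forms

end Pool.Agent.Helper91.DT

end

section

set_option autoImplicit false

set_option linter.style.haveILetI false

namespace Pool.Agent.Helper47.EN

open Pool.Agent.Helper16 Pool.Agent.Helper45.S4 Pool.Agent.Helper47.RR IntermediateField Polynomial

variable {k L M : Type} [Field k] [Field L] [Field M] [Algebra k L] [Algebra k M]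

theorem hsymm (γ : M ≃+* M) (γ₀ : k ≃+* k)
    (hγ : ∀ c : k, γ (algebraMap k M c) = algebraMap k M (γ₀ c)) :
    ∀ c : k, γ.symm (algebraMap k M c) = algebraMap k M (γ₀.symm c) := by
  intro c
  rw [RingEquiv.symm_apply_eq, hγ, RingEquiv.apply_symm_apply]

theorem exists_iterate_eq {α : Type} (f : α → α) (S : Finset α) (hS : S.Nonempty)
    (hf : ∀ x ∈ S, f x ∈ S) : ∃ i, 1 ≤ i ∧ i ≤ S.card ∧ ∃ x ∈ S, f^[i] x = x := by
  classical
  obtain ⟨x0, hx0⟩ := hS
  have hmem : ∀ j, f^[j] x0 ∈ S := by
    intro j
    induction j with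
    | zero => exact hx0
    | succ j ih => rw [Function.iterate_succ', Function.comp_apply]; exact hf _ ih
  have hc : S.card < (Finset.range (S.card + 1)).card := by simp
  obtain ⟨a, ha, b, hb, hab, he⟩ := Finset.exists_ne_map_eq_of_card_lt_of_maps_to hc
    (f := fun j => f^[j] x0) (fun j _ => hmem j)
  wlog hlt : a < b generalizing a b
  · exact this b hb a ha (Ne.symm hab) he.symm (by omega)
  simp only [Finset.mem_range] at ha hb
  refine ⟨b - a, by omega, by omega, f^[a] x0, hmem a, ?_⟩
  rw [← Function.iterate_add_apply, Nat.sub_add_cancel hlt.le]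
  exact he.symm

theorem transcendental_sub_c (h : M) (hh : Transcendental k h) (c : k) :
    Transcendental k (h - algebraMap k M c) := by
  intro hcon
  apply hh
  have := hcon.add (isAlgebraic_algebraMap (R := k) (A := M) c)
  simpa using this

theorem adjoin_sub_c (h : M) (c : k) : k⟮h - algebraMap k M c⟯ = k⟮h⟯ := by
  apply le_antisymm
  · rw [adjoin_simple_le_iff]
    exact sub_mem (mem_adjoin_simple_self k h) (IntermediateField.algebraMap_mem _ c)
  · rw [adjoin_simple_le_iff]
    have h1 := add_mem (mem_adjoin_simple_self k (h - algebraMap k M c))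
      (IntermediateField.algebraMap_mem (k⟮h - algebraMap k M c⟯) c)
    simpa using h1

theorem adjoin_inv' (h : M) : k⟮h⁻¹⟯ = k⟮h⟯ := by
  apply le_antisymm
  · rw [adjoin_simple_le_iff]
    exact inv_mem (mem_adjoin_simple_self k h)
  · rw [adjoin_simple_le_iff]
    have h1 := inv_mem (mem_adjoin_simple_self k h⁻¹)
    simpa using h1

end Pool.Agent.Helper47.EN

end

section

set_option autoImplicit false

set_option linter.style.haveILetI false

namespace Pool.Agent.Helper36.DT

open Polynomial IntermediateField Pool.Agent.Helper16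

theorem aevalAeval_eq_eval₂ {E M : Type} [Field E] [Field M] [Algebra E M] (y z : M)
    (R : E[X][X]) : R.aevalAeval y z = R.eval₂ (aeval y : E[X] →ₐ[E] M).toRingHom z := by
  induction R using Polynomial.induction_on' with
  | add a b ha hb => rw [map_add, eval₂_add, ha, hb]
  | monomial n a =>
    rw [eval₂_monomial, ← C_mul_X_pow_eq_monomial, map_mul, map_pow, aevalAeval_C, aevalAeval_Y]
    rfl

end Pool.Agent.Helper36.DT

end

section

set_option autoImplicit false

set_option linter.style.haveILetI false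

namespace Pool.Agent.Helper34.Dep

open Polynomial Pool.Agent.Helper16 Pool.Agent.Helper47.RR IntermediateField

variable {k K B : Type} [Field k] [Field K] [Field B] [Algebra k K] [Algebra k B]

theorem exists_extension {F A B : Type} [Field F] [Field A] [Field B] [Algebra F A]
    [Algebra.IsAlgebraic F A] [IsAlgClosed B] (θ : F →+* B) :
    ∃ ρ : A →+* B, ρ.comp (algebraMap F A) = θ := by
  letI := θ.toAlgebra
  refine ⟨((IsAlgClosed.lift : A →ₐ[F] B) : A →+* B), ?_⟩
  ext x
  exact AlgHom.commutes (IsAlgClosed.lift : A →ₐ[F] B) x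

end Pool.Agent.Helper34.Dep

end

section

set_option autoImplicit false

open Finset Polynomial

namespace Pool.Agent.Helper98.PS

open Pool.Agent.Helper93.RatODE Pool.Agent.Helper55.RD

variable {K : Type*} [Field K]

section step1

/-- the family `X^c A^b B^(m-1-b)` -/
noncomputable def TF (A B : K[X]) (d m : ℕ) (bc : Fin m × Fin d) : K[X] :=
  A ^ (bc.1 : ℕ) * B ^ (m - 1 - (bc.1 : ℕ)) * X ^ (bc.2 : ℕ)

lemma natDegree_TF {A B : K[X]} {d m : ℕ} (hA : A.natDegree ≤ d) (hB : B.natDegree ≤ d)
    (bc : Fin m × Fin d) : (TF A B d m bc).natDegree < m * d := by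
  obtain ⟨b, c⟩ := bc
  have h1 : (A ^ (b : ℕ)).natDegree ≤ b * d := natDegree_pow_le_of_le _ hA
  have h2 : (B ^ (m - 1 - (b : ℕ))).natDegree ≤ (m - 1 - b) * d := natDegree_pow_le_of_le _ hB
  have h3 : (X ^ (c : ℕ) : K[X]).natDegree ≤ c := natDegree_X_pow_le _
  have h4 := natDegree_mul_le_of_le (natDegree_mul_le_of_le h1 h2) h3
  have hb := b.2
  have hc := c.2
  have h5 : (b : ℕ) * d + (m - 1 - b) * d = (m - 1) * d := by
    rw [← add_mul]; congr 1; omega
  have h6 : (m - 1) * d + d = m * d := by
    nth_rewrite 2 [← one_mul d]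
    rw [← add_mul]; congr 1; omega
  unfold TF
  simp only
  omega

/-- peeling off the last block -/
def peel (m d : ℕ) : (Fin m × Fin d) ⊕ Fin d ≃ Fin (m + 1) × Fin d where
  toFun := Sum.elim (fun bc => (bc.1.castSucc, bc.2)) (fun c => (Fin.last m, c))
  invFun bc := Fin.lastCases (motive := fun _ => (Fin m × Fin d) ⊕ Fin d) (Sum.inr bc.2)
    (fun b => Sum.inl (b, bc.2)) bc.1
  left_inv x := by
    rcases x with ⟨b, c⟩ | c <;> simp
  right_inv bc := by
    obtain ⟨b, c⟩ := bc
    induction b using Fin.lastCases <;> simp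

end step1

end Pool.Agent.Helper98.PS

end

section

set_option autoImplicit false

open Finset Polynomial

namespace Pool.Agent.Helper36.S5

variable {κ : Type*} [Field κ]

lemma dvd_derivative_absurd [CharZero κ] {B : κ[X]} (hB : 0 < B.natDegree)
    (h : B ∣ derivative B) : False := by
  have hB0 : B ≠ 0 := by rintro rfl; simp at hB
  have h0 : derivative B ≠ 0 := by
    intro h0
    have := Polynomial.derivative_eq_zero.mp h0
    omega
  have h1 := natDegree_le_of_dvd h h0
  have h2 := natDegree_derivative_lt hB.ne'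
  omega

end Pool.Agent.Helper36.S5

end

section

set_option autoImplicit false

open Finset Polynomial

namespace Pool.Agent.Helper36.S5

variable {κ : Type*} [Field κ]

/-- a nonzero polynomial of degree at most `D` is nonzero at one of `D + 1` distinct points -/
lemma exists_ne_zero (q : κ[X]) (hq : q ≠ 0) (D : ℕ) (hD : q.natDegree ≤ D) (x : ℕ → κ)
    (b : ℕ) (hinj : ∀ i j, b ≤ i → i ≤ b + D → b ≤ j → j ≤ b + D → x i = x j → i = j) :
    ∃ j, b ≤ j ∧ j ≤ b + D ∧ q.eval (x j) ≠ 0 := by
  classical
  by_contra hcon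
  push Not at hcon
  apply hq
  apply Polynomial.eq_zero_of_natDegree_lt_card_of_eval_eq_zero' q
    ((Finset.Icc b (b + D)).image x)
  · intro y hy
    obtain ⟨j, hj, rfl⟩ := Finset.mem_image.mp hy
    rw [Finset.mem_Icc] at hj
    exact hcon j hj.1 hj.2
  · rw [Finset.card_image_of_injOn]
    · rw [Nat.card_Icc]; omega
    · intro i hi j hj hij
      rw [Finset.mem_coe, Finset.mem_Icc] at hi hj
      exact hinj i j hi.1 hi.2 hj.1 hj.2 hij

end Pool.Agent.Helper36.S5

end

section

set_option autoImplicit false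

open Finset Polynomial

namespace Pool.Agent.Helper35.PS

open Pool.Agent.Helper33 Pool.Agent.Helper33.PS Pool.Agent.Helper33.UB Pool.Agent.Helper45.FR
  Pool.Agent.Helper51.RatTree Pool.Agent.Helper93.RatODE

section conj

variable {K : Type*} [Field K]

variable {F G : K[X]} {d : ℕ} {a b c e : K}

lemma lin2 : (C a - C c * X : K[X]).natDegree ≤ 1 ∧ (C a - C c * X : K[X]).coeff 1 = -c := by
  constructor
  · refine (natDegree_sub_le _ _).trans (max_le ?_ ?_)
    · rw [natDegree_C]; exact Nat.zero_le _
    · exact (natDegree_C_mul_le _ _).trans natDegree_X_le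
  · rw [coeff_sub, coeff_C_mul, coeff_X_one, coeff_C, if_neg one_ne_zero, mul_one, zero_sub]

end conj

end Pool.Agent.Helper35.PS

end

section

set_option autoImplicit false

set_option linter.style.haveILetI false

namespace Pool.Agent.Helper45.M8

open Polynomial IntermediateField Pool.Agent.Helper16 Pool.Agent.Helper33 Pool.Agent.Helper33.PS
  Pool.Agent.Helper45.FF Pool.Agent.Helper45.S4 Pool.Agent.Helper45.FR Pool.Agent.Helper45.S6

theorem adjoin_gen_eq_top (k : Type) {L : Type} [Field k] [Field L] [Algebra k L] (t : L) :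
    (k⟮AdjoinSimple.gen k t⟯ : IntermediateField k k⟮t⟯) = ⊤ := by
  apply IntermediateField.lift_injective k⟮t⟯
  rw [IntermediateField.lift_adjoin_simple, IntermediateField.lift_top]
  rfl

end Pool.Agent.Helper45.M8

end

section

set_option autoImplicit false

open Finset

namespace Pool.Agent.Helper55.LW

lemma exists_leja {K : Type*} [DecidableEq K] [Nonempty K] (w : K → K → ℝ) (X : Finset K) (U : K → ℝ) (r : ℕ)
    (hr : r ≤ X.card) :
    ∃ z : ℕ → K, (∀ c < r, z c ∈ X) ∧ (∀ c < r, ∀ l < c, z c ≠ z l) ∧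
      ∀ c < r, ∀ x ∈ X, (∀ l < c, x ≠ z l) →
        ∑ l ∈ range c, w (z c) (z l) + U (z c) ≤ ∑ l ∈ range c, w x (z l) + U x := by
  induction r with
  | zero =>
    exact ⟨fun _ => Classical.arbitrary K, fun c hc => by omega, fun c hc => by omega,
      fun c hc => by omega⟩
  | succ r ih =>
    obtain ⟨z, h1, h2, h3⟩ := ih (by omega)
    have hne : (X \ (range r).image z).Nonempty := by
      rw [← Finset.card_pos]
      have e1 : ((range r).image z).card ≤ r := Finset.card_image_le.trans (by simp)
      have e2 := Finset.le_card_sdiff ((range r).image z) X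
      omega
    obtain ⟨a, ha, hmin⟩ := Finset.exists_min_image (X \ (range r).image z)
      (fun x => ∑ l ∈ range r, w x (z l) + U x) hne
    rw [mem_sdiff, mem_image] at ha
    have haz : ∀ l < r, a ≠ z l := by
      intro l hl hc
      exact ha.2 ⟨l, mem_range.mpr hl, hc.symm⟩
    have hsame : ∀ c < r, Function.update z r a c = z c := by
      intro c hc
      exact Function.update_of_ne (by omega) _ _
    have hr' : Function.update z r a r = a := Function.update_self _ _ _
    refine ⟨Function.update z r a, ?_, ?_, ?_⟩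
    · intro c hc
      rcases Nat.lt_succ_iff_lt_or_eq.mp hc with h | h
      · rw [hsame c h]; exact h1 c h
      · rw [h, hr']; exact ha.1
    · intro c hc l hl
      rcases Nat.lt_succ_iff_lt_or_eq.mp hc with h | h
      · rw [hsame c h, hsame l (by omega)]; exact h2 c h l hl
      · subst h
        rw [hr', hsame l hl]; exact haz l hl
    · intro c hc x hx hxl
      have hsum : ∀ y : K, ∀ c' ≤ r, ∑ l ∈ range c', w y (Function.update z r a l) =
          ∑ l ∈ range c', w y (z l) := by
        intro y c' hc'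
        apply Finset.sum_congr rfl
        intro l hl
        rw [mem_range] at hl
        rw [hsame l (by omega)]
      rw [hsum _ c (by omega), hsum _ c (by omega)]
      rcases Nat.lt_succ_iff_lt_or_eq.mp hc with h | h
      · rw [hsame c h]
        refine h3 c h x hx ?_
        intro l hl
        rw [← hsame l (by omega)]
        exact hxl l hl
      · subst h
        rw [hr']
        apply hmin
        rw [mem_sdiff, mem_image]
        refine ⟨hx, ?_⟩
        rintro ⟨l, hl, hlx⟩
        rw [mem_range] at hl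
        apply hxl l hl
        rw [hsame l hl, hlx]

end Pool.Agent.Helper55.LW

end

section

set_option autoImplicit false

open Finset Polynomial

namespace Pool.Agent.Helper55.LW

variable {K : Type*} [Field K]

/-- a family of bivariate polynomials `φ(X) M(Y)` with `φ`, `M` monic -/
lemma det_basis (m : ℕ) (φ : Fin m × Fin m → K[X]) (M : Fin m × Fin m → K[X][X])
    (hφ : ∀ ce, (φ ce).Monic) (hφd : ∀ ce, (φ ce).natDegree = ce.1)
    (hM : ∀ ce, (M ce).Monic) (hMd : ∀ ce, (M ce).natDegree = ce.2)
    (hdeg : ∀ ce q, (φ ce * (M ce).coeff q).natDegree < m)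
    (x y : Fin m × Fin m → K) :
    (Matrix.of fun j (ce : Fin m × Fin m) => (φ ce).eval (x j) * (M ce).evalEval (x j) (y j)).det =
      (Matrix.of fun j (pq : Fin m × Fin m) => x j ^ (pq.1 : ℕ) * y j ^ (pq.2 : ℕ)).det := by
  classical
  set T : Matrix (Fin m × Fin m) (Fin m × Fin m) K :=
    Matrix.of fun pq ce => (φ ce * (M ce).coeff pq.2).coeff pq.1 with hT
  have hdet : T.det = 1 := by
    have hbt : T.BlockTriangular (fun pq => toLex (pq.2, pq.1)) := by
      intro pq ce h
      rw [Prod.Lex.toLex_lt_toLex] at h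
      simp only at h
      rw [hT, Matrix.of_apply]
      rcases h with h | ⟨h1, h2⟩
      · rw [Polynomial.coeff_eq_zero_of_natDegree_lt (p := M ce)]
        · simp
        · rw [hMd]; exact h
      · have e1 : (M ce).coeff pq.2 = 1 := by
          have := hM ce
          rw [Polynomial.Monic, Polynomial.leadingCoeff, hMd ce, h1] at this
          exact this
        rw [e1, mul_one]
        apply Polynomial.coeff_eq_zero_of_natDegree_lt
        rw [hφd]; exact h2
    rw [hbt.det_fintype]
    apply Finset.prod_eq_one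
    intro k _
    have : T.toSquareBlock (fun pq => toLex (pq.2, pq.1)) k = 1 := by
      ext pq ce
      obtain ⟨⟨p, q⟩, hq⟩ := pq
      obtain ⟨⟨c, e⟩, he⟩ := ce
      simp only at hq he
      have hqe : toLex (q, p) = toLex (e, c) := hq.trans he.symm
      have h2 : (q, p) = (e, c) := toLex.injective hqe
      rw [Prod.mk.injEq] at h2
      obtain ⟨rfl, rfl⟩ := h2
      have e0 : T.toSquareBlock (fun pq => toLex (pq.2, pq.1)) k ⟨(p, q), hq⟩ ⟨(p, q), he⟩ =
          (φ (p, q) * (M (p, q)).coeff q).coeff p := rfl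
      rw [e0]
      have e1 : (M (p, q)).coeff q = 1 := by
        have := hM (p, q)
        rw [Polynomial.Monic, Polynomial.leadingCoeff, hMd (p, q)] at this
        exact this
      have e2 : (φ (p, q)).coeff p = 1 := by
        have := hφ (p, q)
        rw [Polynomial.Monic, Polynomial.leadingCoeff, hφd (p, q)] at this
        exact this
      rw [e1, mul_one, e2]
      rw [Matrix.one_apply_eq]
    rw [this, Matrix.det_one]
  have hmul : (Matrix.of fun j (ce : Fin m × Fin m) =>
      (φ ce).eval (x j) * (M ce).evalEval (x j) (y j)) =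
      (Matrix.of fun j (pq : Fin m × Fin m) => x j ^ (pq.1 : ℕ) * y j ^ (pq.2 : ℕ)) * T := by
    ext j ce
    rw [Matrix.of_apply, Matrix.mul_apply, Fintype.sum_prod_type_right]
    have h1 : ∀ q : Fin m, (∑ p : Fin m, (Matrix.of fun j (pq : Fin m × Fin m) =>
        x j ^ (pq.1 : ℕ) * y j ^ (pq.2 : ℕ)) j (p, q) * T (p, q) ce) =
        (φ ce * (M ce).coeff q).eval (x j) * y j ^ (q : ℕ) := by
      intro q
      rw [Polynomial.eval_eq_sum_range' (hdeg ce q), Finset.sum_mul,
        ← Fin.sum_univ_eq_sum_range (fun i => (φ ce * (M ce).coeff q).coeff i * x j ^ i * y j ^ (q : ℕ)) m]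
      apply Finset.sum_congr rfl
      intro p _
      simp only [hT, Matrix.of_apply]
      ring
    rw [Finset.sum_congr rfl (fun q _ => h1 q)]
    have hMm : (M ce).natDegree < m := by rw [hMd]; exact ce.2.2
    rw [Polynomial.evalEval, Polynomial.eval_eq_sum_range' hMm, Polynomial.eval_finsetSum,
      ← Fin.sum_univ_eq_sum_range (fun i => eval (x j) ((M ce).coeff i * C (y j) ^ i)) m,
      Finset.mul_sum]
    apply Finset.sum_congr rfl
    intro q _
    simp only [eval_mul, eval_pow, eval_C]
    ring
  rw [hmul, Matrix.det_mul, hdet, mul_one]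

end Pool.Agent.Helper55.LW

end

section

set_option autoImplicit false

open Finset Polynomial

namespace Pool.Agent.Helper55.LW

open Pool.Agent.Helper33

variable {K : Type*} [Field K]

lemma sum_pair (f : ℕ → ℝ) (m : ℕ) :
    ∑ i ∈ range m, ∑ j ∈ range i, (f i + f j) = ((m : ℝ) - 1) * ∑ i ∈ range m, f i := by
  induction m with
  | zero => simp
  | succ m ih =>
    rw [Finset.sum_range_succ, ih, Finset.sum_add_distrib, Finset.sum_const, card_range,
      nsmul_eq_mul, Finset.sum_range_succ]
    push_cast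
    ring

lemma sum_sym (G : ℕ → ℕ → ℝ) (hG : ∀ i j, G i j = G j i) (m : ℕ) :
    ∑ i ∈ range m, ∑ j ∈ range m, (if i = j then 0 else G i j) =
      2 * ∑ i ∈ range m, ∑ j ∈ range i, G i j := by
  induction m with
  | zero => simp
  | succ m ih =>
    rw [Finset.sum_range_succ]
    have e1 : ∑ i ∈ range m, ∑ j ∈ range (m + 1), (if i = j then 0 else G i j) =
        ∑ i ∈ range m, ∑ j ∈ range m, (if i = j then 0 else G i j) + ∑ i ∈ range m, G m i := by
      rw [← Finset.sum_add_distrib]
      apply Finset.sum_congr rfl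
      intro i hi
      rw [mem_range] at hi
      rw [Finset.sum_range_succ, if_neg (by omega), hG i m]
    have e2 : ∑ j ∈ range (m + 1), (if m = j then 0 else G m j) = ∑ j ∈ range m, G m j := by
      rw [Finset.sum_range_succ, if_pos rfl, add_zero]
      apply Finset.sum_congr rfl
      intro j hj
      rw [mem_range] at hj
      rw [if_neg (by omega)]
    rw [e1, e2, ih, Finset.sum_range_succ]
    ring

lemma sum_lt (m : ℕ) (F : ℕ → ℕ → ℝ) :
    ∑ i : Fin m, ∑ j : Fin m, (if (j : ℕ) < i then F i j else 0) =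
      ∑ i ∈ range m, ∑ j ∈ range i, F i j := by
  rw [← Fin.sum_univ_eq_sum_range (fun i => ∑ j ∈ range i, F i j) m]
  apply Finset.sum_congr rfl
  intro i _
  rw [Fin.sum_univ_eq_sum_range (fun j => if j < (i : ℕ) then F i j else 0) m,
    ← Finset.sum_filter]
  congr 1
  ext j
  simp only [mem_filter, mem_range]
  have := i.2
  omega

end Pool.Agent.Helper55.LW

end

section

set_option autoImplicit false

open Finset Polynomial

namespace Pool.Agent.Helper55.LWI

open Pool.Agent.Helper33 Pool.Agent.Helper55.LW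

variable {K ι : Type*} [Field K]

/-- concatenation -/
def cati (R : ℕ) (a z : ℕ → ι) (i : ℕ) : ι := if i < R then a i else z (i - R)

end Pool.Agent.Helper55.LWI

end

section

set_option autoImplicit false

open Finset Polynomial

namespace Pool.Agent.Helper33.PT

open Pool.Agent.Helper45.FR Pool.Agent.Helper33.UB Pool.Agent.Helper51.RatTree
  Pool.Agent.Helper93.RatODE Pool.Agent.Helper33.PS Pool.Agent.Helper55.RD

/-- choice of the exponent -/
theorem exists_kp (d : ℕ) (hd : 2 ≤ d) (C κ : ℝ) (hκ : 0 < κ) :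
    ∃ kp : ℕ, 1 ≤ kp ∧ C * (kp / (d : ℝ) ^ kp) ≤ κ := by
  have hd1 : (1 : ℝ) < d := by exact_mod_cast (by omega : 1 < d)
  have h1 := tendsto_pow_const_div_const_pow_of_one_lt 1 hd1
  have h2 : Filter.Tendsto (fun n : ℕ => C * ((n : ℝ) ^ 1 / (d : ℝ) ^ n)) Filter.atTop
      (nhds (C * 0)) := h1.const_mul C
  rw [mul_zero] at h2
  obtain ⟨kp, h3, h4⟩ := ((h2.eventually (gt_mem_nhds hκ)).and
    (Filter.eventually_ge_atTop 1)).exists
  refine ⟨kp, h4, ?_⟩
  rw [pow_one] at h3
  exact h3.le

end Pool.Agent.Helper33.PT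

end

section

set_option autoImplicit false

namespace Pool.Agent.Helper36.PT

open Polynomial Finset Pool.Agent.Helper33 Pool.Agent.Helper33.PS Pool.Agent.Helper33.UB
  Pool.Agent.Helper45.FR Pool.Agent.Helper51.RatTree Pool.Agent.Helper93.RatODE
  Pool.Agent.Helper35.PS Pool.Agent.Helper55.RD

section

variable {K : Type} [Field K] (p : ℕ) [Fact p.Prime] [CharP K p]

theorem exists_root_poly {F : K[X]} (hF : ∀ i, ∃ c, c ^ p = F.coeff i) :
    ∃ F₁ : K[X], ∀ i, F₁.coeff i ^ p = F.coeff i := by
  choose r hr using hF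
  refine ⟨∑ i ∈ range (F.natDegree + 1), monomial i (r i), fun i => ?_⟩
  rw [finsetSum_coeff]
  simp only [coeff_monomial]
  rw [sum_ite_eq' (range (F.natDegree + 1)) i]
  split_ifs with h
  · exact hr i
  · rw [mem_range] at h
    rw [coeff_eq_zero_of_natDegree_lt (by omega), zero_pow (Fact.out : p.Prime).ne_zero]

end

end Pool.Agent.Helper36.PT

end

section

set_option autoImplicit false

open Finset Polynomial

namespace Pool.Agent.Helper33.PT

open Pool.Agent.Helper33.UB Pool.Agent.Helper51.RatTree Pool.Agent.Helper55.RD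
  Pool.Agent.Helper93.RatODE Pool.Agent.Helper45.FR Pool.Agent.Helper33.PS

section basic

variable {K : Type} [Field K]

lemma riccati_zero {α β γ a b c : K} (hab : a ≠ b) (hac : a ≠ c) (hbc : b ≠ c)
    (ha : α * a ^ 2 + β * a + γ = 0) (hb : α * b ^ 2 + β * b + γ = 0)
    (hc : α * c ^ 2 + β * c + γ = 0) : α = 0 ∧ β = 0 ∧ γ = 0 := by
  have h1 : (a - b) * (α * (a + b) + β) = 0 := by linear_combination ha - hb
  have h2 : (a - c) * (α * (a + c) + β) = 0 := by linear_combination ha - hc
  have h1' := (mul_eq_zero.mp h1).resolve_left (sub_ne_zero.mpr hab)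
  have h2' := (mul_eq_zero.mp h2).resolve_left (sub_ne_zero.mpr hac)
  have h3 : α * (b - c) = 0 := by linear_combination h1' - h2'
  have hα := (mul_eq_zero.mp h3).resolve_right (sub_ne_zero.mpr hbc)
  subst hα
  have hβ : β = 0 := by linear_combination h1'
  subst hβ
  exact ⟨rfl, rfl, by linear_combination ha⟩

lemma D_const {D : K → K} (p : ℕ) [Fact p.Prime] [CharP K p]
    (hadd : ∀ x y, D (x + y) = D x + D y) (hmul : ∀ x y, D (x * y) = x * D y + y * D x) (z : K) :
    D (z ^ p) = 0 := by
  have h0 : D 0 = 0 := by simpa using hadd 0 0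
  have h1 : D 1 = 0 := by
    have := hmul 1 1
    simp only [mul_one, one_mul] at this
    simpa using this
  have hpow : ∀ n : ℕ, D (z ^ (n + 1)) = (n + 1 : ℕ) * (z ^ n * D z) := by
    intro n
    induction n with
    | zero => simp
    | succ n ih =>
      rw [pow_succ, hmul, ih]
      push_cast
      ring
  obtain ⟨m, hm⟩ : ∃ m, p = m + 1 := ⟨p - 1, by have := (Fact.out : p.Prime).pos; omega⟩
  have h2 := hpow m
  rw [← hm] at h2
  rw [h2, CharP.cast_eq_zero, zero_mul]

end basic

end Pool.Agent.Helper33.PT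

end
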