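import Pool.Agent.Helper23.MB.Inst

/-!
Parts of Helper16.FF1, Helper16.FF2, Helper16.FF3, Helper16.FF4, Helper16.BBDefs, Helper16.Place, Helper16.FF5, Helper16.FF6, Helper16.FF7, Helper16.FF8
-/

attribute [-simp] Valuation.IsUniformizer.val
attribute [local instance 5000]
  Pool.Agent.Helper23.MB.Inst.rCharZero Pool.Agent.Helper23.MB.Inst.rALM
  Pool.Agent.Helper23.MB.Inst.rARM Pool.Agent.Helper23.MB.Inst.rALSM
  Pool.Agent.Helper23.MB.Inst.rARSM Pool.Agent.Helper23.MB.Inst.rARRLE
  Pool.Agent.Helper23.MB.Inst.rALRLE Pool.Agent.Helper23.MB.Inst.rARRLT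
  Pool.Agent.Helper23.MB.Inst.rALRLT Pool.Agent.Helper23.MB.Inst.rPMRLT
  Pool.Agent.Helper23.MB.Inst.rMPRLT Pool.Agent.Helper23.MB.Inst.rPMM
  Pool.Agent.Helper23.MB.Inst.rMPM Pool.Agent.Helper23.MB.Inst.rPMSM
  Pool.Agent.Helper23.MB.Inst.rMPSM Pool.Agent.Helper23.MB.Inst.rEAOL
  Pool.Agent.Helper23.MB.Inst.rIOR Pool.Agent.Helper23.MB.Inst.rISOR
  Pool.Agent.Helper23.MB.Inst.rNZD Pool.Agent.Helper23.MB.Inst.zCharZero
  Pool.Agent.Helper23.MB.Inst.zALM Pool.Agent.Helper23.MB.Inst.zARM
  Pool.Agent.Helper23.MB.Inst.zIOR Pool.Agent.Helper23.MB.Inst.zISOR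
  Pool.Agent.Helper23.MB.Inst.zNZD Pool.Agent.Helper23.MB.Inst.qCharZero
  Pool.Agent.Helper23.MB.Inst.free Pool.Agent.Helper23.MB.Inst.faith
  Pool.Agent.Helper23.MB.Inst.torsionFree Pool.Agent.Helper23.MB.Inst.rfFaith
  Pool.Agent.Helper23.MB.Inst.hAdd Pool.Agent.Helper23.MB.Inst.hAddM
  Pool.Agent.Helper23.MB.Inst.hMul Pool.Agent.Helper23.MB.Inst.hMon
  Pool.Agent.Helper23.MB.Inst.hZero Pool.Agent.Helper23.MB.Inst.hOne
  Pool.Agent.Helper23.MB.Inst.hMZ Pool.Agent.Helper23.MB.Inst.hRing
  Pool.Agent.Helper23.MB.Inst.aAdd Pool.Agent.Helper23.MB.Inst.aAddM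
  Pool.Agent.Helper23.MB.Inst.aMul Pool.Agent.Helper23.MB.Inst.aMon
  Pool.Agent.Helper23.MB.Inst.aZero Pool.Agent.Helper23.MB.Inst.aOne
  Pool.Agent.Helper23.MB.Inst.aMZ Pool.Agent.Helper23.MB.Inst.aRing

section

set_option autoImplicit false

set_option linter.style.haveILetI false

namespace Pool.Agent.Helper16

open Polynomial IntermediateField

section Setup

/-- `N` as a `K[X]`-algebra via `X ↦ s`. -/
@[reducible] noncomputable def algX (K : Type) {N : Type} [Field K] [Field N] [Algebra K N] (s : N) :
    Algebra K[X] N := (aeval s : K[X] →ₐ[K] N).toRingHom.toAlgebra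

/-- `K(s)` as a `K[X]`-algebra via `X ↦ s`. -/
@[reducible] noncomputable def algXF (K : Type) {N : Type} [Field K] [Field N] [Algebra K N] (s : N) :
    Algebra K[X] K⟮s⟯ := (aeval (AdjoinSimple.gen K s) : K[X] →ₐ[K] K⟮s⟯).toRingHom.toAlgebra

variable {K N : Type} [Field K] [Field N] [Algebra K N]

theorem algX_apply (s : N) (p : K[X]) : @algebraMap K[X] N _ _ (algX K s) p = aeval s p := rfl

theorem algXF_apply (s : N) (p : K[X]) : (@algebraMap K[X] K⟮s⟯ _ _ (algXF K s) p : N) = aeval s p := by
  change ((aeval (AdjoinSimple.gen K s) p : K⟮s⟯) : N) = aeval s p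
  have := aeval_algebraMap_apply N (AdjoinSimple.gen K s) p
  rw [AdjoinSimple.algebraMap_gen] at this
  exact this.symm

theorem towerXF (s : N) : @IsScalarTower K[X] K⟮s⟯ N (algXF K s).toSMul _ (algX K s).toSMul := by
  letI := algXF K s
  letI := algX K s
  refine IsScalarTower.of_algebraMap_eq fun p => ?_
  rw [algX_apply]
  exact (algXF_apply s p).symm

theorem towerX (s : N) : @IsScalarTower K K[X] N _ (algX K s).toSMul _ := by
  letI := algX K s
  refine IsScalarTower.of_algebraMap_eq fun p => ?_
  rw [algX_apply]
  simp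

theorem faithfulX (s : N) (hs : Transcendental K s) : @FaithfulSMul K[X] N (algX K s).toSMul := by
  letI := algX K s
  rw [faithfulSMul_iff_algebraMap_injective]
  exact transcendental_iff_injective.1 hs

theorem isFractionRing_algXF (s : N) (hs : Transcendental K s) :
    @IsFractionRing K[X] _ K⟮s⟯ _ (algXF K s) := by
  letI := algXF K s
  letI := algX K s
  haveI := towerXF (K := K) s
  haveI : FaithfulSMul K[X] K⟮s⟯ := by
    rw [faithfulSMul_iff_algebraMap_injective]
    intro p q h
    apply transcendental_iff_injective.1 hs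
    rw [← algXF_apply, ← algXF_apply, h]
  refine IsFractionRing.of_field K[X] K⟮s⟯ fun z => ?_
  obtain ⟨p, q, h⟩ := (mem_adjoin_simple_iff K (z : N)).1 z.2
  refine ⟨p, q, ?_⟩
  apply Subtype.ext
  rw [h]
  simp only [IntermediateField.coe_div, algXF_apply]

end Setup

end Pool.Agent.Helper16

end

section

set_option autoImplicit false

set_option linter.style.haveILetI false

namespace Pool.Agent.Helper16

open Polynomial IntermediateField

section IntOver

variable {K N : Type} [Field K] [Field N] [Algebra K N]

/-- `x` is integral over `K[s]`. -/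
def IntOver (K : Type) {N : Type} [Field K] [Field N] [Algebra K N] (s x : N) : Prop :=
  (aeval s : K[X] →ₐ[K] N).toRingHom.IsIntegralElem x

theorem IntOver.add {s x y : N} (hx : IntOver K s x) (hy : IntOver K s y) : IntOver K s (x + y) := by
  letI := algX K s
  exact IsIntegral.add (R := K[X]) hx hy

theorem IntOver.mul {s x y : N} (hx : IntOver K s x) (hy : IntOver K s y) : IntOver K s (x * y) := by
  letI := algX K s
  exact IsIntegral.mul (R := K[X]) hx hy

theorem IntOver.aeval_mem (s : N) (p : K[X]) : IntOver K s (aeval s p) := by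
  letI := algX K s
  exact isIntegral_algebraMap (R := K[X]) (A := N) (x := p)

theorem IntOver.self (s : N) : IntOver K s s := by
  simpa using IntOver.aeval_mem (K := K) s X

theorem IntOver.const (s : N) (a : K) : IntOver K s (algebraMap K N a) := by
  simpa using IntOver.aeval_mem (K := K) s (C a)

theorem IntOver.zero (s : N) : IntOver K s 0 := by
  simpa using IntOver.const (K := K) s 0

theorem IntOver.smul {s x : N} (a : K) (hx : IntOver K s x) : IntOver K s (a • x) := by
  rw [Algebra.smul_def]
  exact (IntOver.const s a).mul hx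

theorem IntOver.pow {s x : N} (hx : IntOver K s x) (n : ℕ) : IntOver K s (x ^ n) := by
  letI := algX K s
  exact IsIntegral.pow (R := K[X]) hx n

theorem IntOver.of_isIntegral {s x : N} (hx : IsIntegral K x) : IntOver K s x := by
  letI := algX K s
  haveI := towerX (K := K) s
  exact IsIntegral.tower_top (R := K) (A := K[X]) hx

theorem IntOver.mem_valuationSubring {s x : N} (hx : IntOver K s x) (V : ValuationSubring N)
    (hK : ∀ a : K, algebraMap K N a ∈ V) (hs : s ∈ V) : x ∈ V := by
  have hmem : ∀ p : K[X], aeval s p ∈ V := by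
    intro p
    induction p using Polynomial.induction_on' with
    | add p q hp hq => rw [map_add]; exact V.add_mem _ _ hp hq
    | monomial n a =>
      rw [aeval_monomial]
      exact V.mul_mem _ _ (hK a) (V.toSubring.pow_mem hs n)
  let g : K[X] →+* V := RingHom.codRestrict (aeval s : K[X] →ₐ[K] N).toRingHom V hmem
  have hcomp : ((algebraMap V N).comp g) = (aeval s : K[X] →ₐ[K] N).toRingHom := by
    ext <;> rfl
  have h1 : (algebraMap V N).IsIntegralElem x := by
    apply RingHom.IsIntegralElem.of_comp (f := g)
    rw [hcomp]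
    exact hx
  obtain ⟨y, hy⟩ := IsIntegrallyClosed.isIntegral_iff.1 (show IsIntegral V x from h1)
  rw [← hy]
  exact y.2

/-- An element integral over both `K[s]` and `K[s⁻¹]` is algebraic over `K`. -/
theorem isIntegral_of_intOver_of_intOver_inv {s x : N} (h1 : IntOver K s x)
    (h2 : IntOver K s⁻¹ x) : IsIntegral K x := by
  have key : x ∈ (integralClosure (Subring.closure (Set.range (algebraMap K N))) N).toSubring := by
    rw [← iInf_valuationSubring_superset]
    rw [Subring.mem_iInf]
    rintro ⟨V, hV⟩
    have hK : ∀ a : K, algebraMap K N a ∈ V := fun a => hV ⟨a, rfl⟩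
    rcases V.mem_or_inv_mem s with hs | hs
    · exact h1.mem_valuationSubring V hK hs
    · exact h2.mem_valuationSubring V hK hs
  have h3 : IsIntegral (Subring.closure (Set.range (algebraMap K N))) x := key
  have hcl : ∀ y : Subring.closure (Set.range (algebraMap K N)), ∃ a : K, algebraMap K N a = y := by
    intro y
    have : Subring.closure (Set.range (algebraMap K N)) ≤ (algebraMap K N).range := by
      rw [Subring.closure_le]
      rintro _ ⟨a, rfl⟩
      exact ⟨a, rfl⟩
    exact this y.2
  obtain ⟨p, hp, hp0⟩ := h3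
  have hinj : Function.Injective (algebraMap K N) := (algebraMap K N).injective
  choose c hc using hcl
  let g : (Subring.closure (Set.range (algebraMap K N))) →+* K :=
    { toFun := c
      map_one' := hinj (by rw [hc]; simp)
      map_mul' := fun a b => hinj (by rw [map_mul, hc, hc, hc]; simp)
      map_zero' := hinj (by rw [hc]; simp)
      map_add' := fun a b => hinj (by rw [map_add, hc, hc, hc]; simp) }
  have hg : (algebraMap K N).comp g = algebraMap (Subring.closure (Set.range (algebraMap K N))) N := by
    ext y
    exact hc y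
  have h4 : (algebraMap K N).IsIntegralElem x := by
    apply RingHom.IsIntegralElem.of_comp (f := g)
    rw [hg]
    exact ⟨p, hp, hp0⟩
  exact h4

theorem not_intOver_inv {t : N} (ht : Transcendental K t) : ¬ IntOver K t t⁻¹ := by
  intro h
  letI := algX K t
  letI := algXF K t
  haveI := towerXF (K := K) t
  haveI := isFractionRing_algXF t ht
  have h1 : @IsIntegral K[X] N _ _ _ t⁻¹ := h
  have h2 : @IsIntegral K[X] K⟮t⟯ _ _ _ (AdjoinSimple.gen K t)⁻¹ := by
    rw [← isIntegral_algebraMap_iff (algebraMap K⟮t⟯ N).injective]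
    rw [map_inv₀, AdjoinSimple.algebraMap_gen]
    exact h1
  obtain ⟨p, hp⟩ := IsIntegrallyClosed.isIntegral_iff.1 h2
  have h3 : (aeval t p : N) = t⁻¹ := by
    rw [← algXF_apply, hp]
    simp
  have ht0 : t ≠ 0 := by
    rintro rfl
    exact ht (isAlgebraic_zero)
  have h4 : aeval t (p * X - 1 : K[X]) = 0 := by
    simp [h3, ht0]
  have h5 : p * X - 1 = 0 := by
    by_contra hne
    exact ht ⟨_, hne, h4⟩
  have h6 := congrArg (Polynomial.eval 0) h5
  simp at h6

/-- Key injectivity: if `b` is integral over `K[s]` and `s * b` is integral over `K[s⁻¹]`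
then `b = 0`. -/
theorem eq_zero_of_intOver {s b : N} (hs : Transcendental K s) (h1 : IntOver K s b)
    (h2 : IntOver K s⁻¹ (s * b)) : b = 0 := by
  have hs0 : s ≠ 0 := by
    rintro rfl
    exact hs (isAlgebraic_zero)
  have hsinv : Transcendental K s⁻¹ := by
    intro h
    apply hs
    simpa using IsAlgebraic.inv h
  have h3 : IntOver K s⁻¹ b := by
    have := (IntOver.self (K := K) s⁻¹).mul h2
    rwa [← mul_assoc, inv_mul_cancel₀ hs0, one_mul] at this
  have h4 : IsIntegral K b := isIntegral_of_intOver_of_intOver_inv h1 h3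
  by_contra hb
  have h5 : IntOver K s⁻¹ b⁻¹ := IntOver.of_isIntegral h4.inv
  have h6 := h2.mul h5
  rw [mul_assoc, mul_inv_cancel₀ hb, mul_one] at h6
  apply not_intOver_inv hsinv
  rwa [inv_inv]

end IntOver

end Pool.Agent.Helper16

end

section

set_option autoImplicit false

set_option linter.style.haveILetI false

namespace Pool.Agent.Helper16

open Polynomial IntermediateField

section Claim3

variable {K N : Type} [Field K] [Field N] [Algebra K N]

theorem card_le_of_indep_mod {ι : Type} [Fintype ι] (t : N) (ht : Transcendental K t)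
    [FiniteDimensional K⟮t⟯ N] (m : ℕ) (β : ι → N) (hβ : ∀ i, IntOver K t (β i))
    (hind : ∀ c : ι → K, ∀ y : N, IntOver K t y → ∑ i, c i • β i = t ^ m * y → c = 0) :
    Fintype.card ι ≤ Module.finrank K⟮t⟯ N * m := by
  classical
  letI := algX K t
  letI := algXF K t
  haveI := towerXF (K := K) t
  haveI := towerX (K := K) t
  haveI := isFractionRing_algXF t ht
  haveI := faithfulX t ht
  let M : Submodule K[X] N := Submodule.span K[X] (Set.range β)
  haveI : Module.Finite K[X] M := Module.Finite.span_of_finite K[X] (Set.finite_range β)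
  haveI : Module.IsTorsionFree K[X] N := inferInstance
  haveI : Module.Free K[X] M := inferInstance
  let b := Module.Free.chooseBasis K[X] M
  let J := Module.Free.ChooseBasisIndex K[X] M
  have hJ : Fintype.card J ≤ Module.finrank K⟮t⟯ N := by
    have h1 : LinearIndependent K[X] (fun j => (b j : N)) := by
      have := b.linearIndependent
      exact this.map' M.subtype (Submodule.ker_subtype M)
    have h2 : LinearIndependent K⟮t⟯ (fun j => (b j : N)) :=
      (LinearIndependent.iff_fractionRing K[X] K⟮t⟯).1 h1
    exact h2.fintype_card_le_finrank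
  have hMint : ∀ y ∈ M, IntOver K t y := by
    intro y hy
    have : M ≤ Subalgebra.toSubmodule (integralClosure K[X] N) := by
      rw [Submodule.span_le]
      rintro _ ⟨i, rfl⟩
      exact hβ i
    exact this hy
  have hβM : ∀ i, β i ∈ M := fun i => Submodule.subset_span ⟨i, rfl⟩
  let β' : ι → M := fun i => ⟨β i, hβM i⟩
  let T : (ι → K) →ₗ[K] (J → Fin m → K) :=
    LinearMap.pi fun j => LinearMap.pi fun l =>
      (Polynomial.lcoeff K l.val) ∘ₗ
        (((Finsupp.lapply (R := K[X]) j ∘ₗ b.repr.toLinearMap).restrictScalars K) ∘ₗ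
          Fintype.linearCombination K β')
  have hTa : ∀ c j l, T c j l = (b.repr (∑ i, c i • β' i) j).coeff l.val := by
    intro c j l
    rfl
  have hT : Function.Injective T := by
    rw [injective_iff_map_eq_zero]
    intro c hc
    have h1 : ∀ j, X ^ m ∣ b.repr (∑ i, c i • β' i) j := by
      intro j
      rw [Polynomial.X_pow_dvd_iff]
      intro l hl
      have := congrFun (congrFun hc j) ⟨l, hl⟩
      rw [hTa] at this
      exact this
    choose q hq using h1
    let y : M := ∑ j, q j • b j
    have h2 : ∑ i, c i • β' i = (X ^ m : K[X]) • y := by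
      rw [← b.sum_repr (∑ i, c i • β' i), Finset.smul_sum]
      refine Finset.sum_congr rfl fun j _ => ?_
      rw [hq j, mul_smul]
    refine hind c y (hMint y y.2) ?_
    have h4 : ∑ i, c i • β i = ((∑ i, c i • β' i : M) : N) := by
      rw [AddSubmonoidClass.coe_finsetSum]
      rfl
    rw [h4, h2, Submodule.coe_smul, Algebra.smul_def, algX_apply]
    simp
  have h := LinearMap.finrank_le_finrank_of_injective hT
  simp only [Module.finrank_fintype_fun_eq_card, Module.finrank_pi_fintype, Finset.sum_const,
    Finset.card_univ, smul_eq_mul, Fintype.card_fin] at h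
  calc Fintype.card ι ≤ Fintype.card J * m := h
    _ ≤ _ := Nat.mul_le_mul_right _ hJ

end Claim3

end Pool.Agent.Helper16

end

section

set_option autoImplicit false

set_option linter.style.haveILetI false

namespace Pool.Agent.Helper16

open Polynomial IntermediateField

section Fin

variable {K N : Type} [Field K] [Field N] [Algebra K N]

theorem intOver_of_monic {t y : N} (P : N[X]) (hP : P.Monic) (hc : ∀ j, IntOver K t (P.coeff j))
    (hy : P.eval y = 0) : IntOver K t y := by
  letI := algX K t
  let C := integralClosure K[X] N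
  have hl : P ∈ Polynomial.lifts (algebraMap C N) := by
    rw [Polynomial.lifts_iff_coeff_lifts]
    intro j
    exact ⟨⟨P.coeff j, hc j⟩, rfl⟩
  obtain ⟨Q, hQ, -, hQm⟩ := Polynomial.lifts_and_natDegree_eq_and_monic hl hP
  have h1 : IsIntegral C y := by
    refine ⟨Q, hQm, ?_⟩
    rw [← Polynomial.eval_map, hQ, hy]
  exact isIntegral_trans (R := K[X]) (A := C) y h1

theorem intOver_inv_aeval_mul {s : N} (hs0 : s ≠ 0) (a : K[X]) (e : ℕ) (he : a.natDegree ≤ e) :
    IntOver K s⁻¹ (aeval s a * s⁻¹ ^ e) := by
  rw [Polynomial.aeval_eq_sum_range' (n := e + 1) (by omega), Finset.sum_mul]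
  refine Finset.sum_induction _ (fun x => IntOver K s⁻¹ x) (fun _ _ => IntOver.add)
    (IntOver.zero _) ?_
  intro i hi
  rw [Finset.mem_range] at hi
  have h1 : a.coeff i • s ^ i * s⁻¹ ^ e = a.coeff i • (s⁻¹ ^ (e - i)) := by
    rw [smul_mul_assoc]
    congr 1
    have : e = i + (e - i) := by omega
    rw [this, pow_add, ← mul_assoc, ← mul_pow, mul_inv_cancel₀ hs0, one_pow, one_mul]
    congr 1
    omega
  rw [h1]
  exact ((IntOver.self _).pow _).smul _

theorem exists_twist {s x : N} (hs0 : s ≠ 0) (hx : IntOver K s x) :
    ∃ e : ℕ, ∀ e', e ≤ e' → IntOver K s⁻¹ (s⁻¹ ^ e' * x) := by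
  obtain ⟨P, hP, hP0⟩ := hx
  let e := P.support.sup (fun j => (P.coeff j).natDegree)
  have he : ∀ j, (P.coeff j).natDegree ≤ e := by
    intro j
    by_cases hj : j ∈ P.support
    · exact Finset.le_sup (f := fun j => (P.coeff j).natDegree) hj
    · rw [Polynomial.notMem_support_iff.1 hj]; simp
  have main : IntOver K s⁻¹ (s⁻¹ ^ e * x) := by
    let P' : N[X] := P.map (aeval s : K[X] →ₐ[K] N).toRingHom
    have hP' : P'.Monic := hP.map _
    refine intOver_of_monic (scaleRoots P' (s⁻¹ ^ e)) ?_ ?_ ?_
    · exact (monic_scaleRoots_iff _).2 hP'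
    · intro j
      rw [coeff_scaleRoots]
      rcases lt_trichotomy j P'.natDegree with hj | hj | hj
      · obtain ⟨k, hk⟩ : ∃ k, P'.natDegree - j = k + 1 := ⟨P'.natDegree - j - 1, by omega⟩
        rw [hk, pow_succ, mul_comm ((s⁻¹ ^ e) ^ k), ← mul_assoc]
        refine IntOver.mul ?_ (((IntOver.self _).pow _).pow _)
        rw [Polynomial.coeff_map]
        exact intOver_inv_aeval_mul hs0 _ _ (he j)
      · rw [hj, hP'.coeff_natDegree, Nat.sub_self, pow_zero, one_mul]
        simpa using IntOver.const (K := K) s⁻¹ 1
      · rw [coeff_eq_zero_of_natDegree_lt hj, zero_mul]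
        exact IntOver.zero _
    · have h0 : P'.eval x = 0 := by
        rw [Polynomial.eval_map]; exact hP0
      have := scaleRoots_eval₂_mul (f := RingHom.id N) (p := P') (r := x) (s := s⁻¹ ^ e)
      simp only [RingHom.id_apply, eval₂_id] at this
      rw [this, h0, mul_zero]
  refine ⟨e, fun e' he' => ?_⟩
  obtain ⟨d, rfl⟩ := Nat.exists_eq_add_of_le he'
  rw [pow_add, mul_comm (s⁻¹ ^ e), mul_assoc]
  exact ((IntOver.self _).pow _).mul main

theorem transcendental_ne_zero {s : N} (hs : Transcendental K s) : s ≠ 0 := by
  rintro rfl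
  exact hs isAlgebraic_zero

theorem transcendental_inv {s : N} (hs : Transcendental K s) : Transcendental K s⁻¹ := by
  intro h
  apply hs
  simpa using IsAlgebraic.inv h

theorem adjoin_inv_eq (s : N) : K⟮s⁻¹⟯ = K⟮s⟯ := by
  apply le_antisymm
  · rw [adjoin_simple_le_iff]
    exact inv_mem (mem_adjoin_simple_self K s)
  · rw [adjoin_simple_le_iff]
    have := inv_mem (mem_adjoin_simple_self K s⁻¹)
    rwa [inv_inv] at this

theorem finrank_inv (s : N) : Module.finrank K⟮s⁻¹⟯ N = Module.finrank K⟮s⟯ N := by
  rw [adjoin_inv_eq]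

theorem finiteDimensional_inv (s : N) [h : FiniteDimensional K⟮s⟯ N] :
    FiniteDimensional K⟮s⁻¹⟯ N := by
  rw [adjoin_inv_eq]; exact h

/-- The integral closure of `K[s]` in a finite extension of `K(s)` is a finite module. -/
theorem finite_integralClosure (s : N) (hs : Transcendental K s) [FiniteDimensional K⟮s⟯ N] :
    @Module.Finite K[X] (@integralClosure K[X] N _ _ (algX K s)) _ _
      (@Algebra.toModule _ _ _ _ (@Subalgebra.algebra _ _ _ _ (algX K s) _)) := by
  classical
  letI := algX K s
  letI := algXF K s
  haveI := towerXF (K := K) s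
  haveI := towerX (K := K) s
  haveI := isFractionRing_algXF s hs
  haveI := faithfulX s hs
  haveI := finiteDimensional_inv (K := K) s
  have hs0 := transcendental_ne_zero hs
  obtain ⟨S, ω, hω⟩ := FiniteDimensional.exists_is_basis_integral K[X] K⟮s⟯ N
  let B := integralClosure K[X] N
  let ω' : S → B := fun i => ⟨ω i, hω i⟩
  let B₀ : Submodule K[X] B := Submodule.span K[X] (Set.range ω')
  haveI : Module.Finite K[X] B₀ := Module.Finite.span_of_finite K[X] (Set.finite_range ω')
  have hcardS : Fintype.card S = Module.finrank K⟮s⟯ N := (Module.finrank_eq_card_basis ω).symm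
  -- uniform twist for the basis
  choose e he using fun i => exists_twist hs0 (show IntOver K s (ω i) from hω i)
  let E := Finset.univ.sup e
  have hE : ∀ i, IntOver K s⁻¹ (s⁻¹ ^ E * ω i) := fun i =>
    he i E (Finset.le_sup (Finset.mem_univ i))
  haveI : Module.Finite K (B ⧸ B₀) := by
    have hr : Module.rank K (B ⧸ B₀) ≤ ((Module.finrank K⟮s⟯ N * E : ℕ) : Cardinal) := by
      apply rank_le
      intro T hT
      let bj : T → B := fun j => (B₀.mkQ_surjective j.1).choose
      have hbj : ∀ j, B₀.mkQ (bj j) = j.1 := fun j => (B₀.mkQ_surjective j.1).choose_spec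
      choose c hc using fun j => exists_twist hs0 (show IntOver K s ((bj j : B) : N) from (bj j).2)
      let M := Finset.univ.sup c
      let D := M + E
      have hD : ∀ j, IntOver K s⁻¹ (s⁻¹ ^ D * ((bj j : B) : N)) := fun j =>
        hc j D ((Finset.le_sup (Finset.mem_univ j)).trans (Nat.le_add_right M E))
      let γ : (S × Fin (M + 1)) ⊕ T → N := Sum.elim (fun x => s ^ x.2.val * ω x.1) (fun j => (bj j : N))
      have hγ : ∀ x, IntOver K s (γ x) := by
        rintro (⟨i, a⟩ | j)
        · exact ((IntOver.self s).pow _).mul (hω i)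
        · exact (bj j).2
      have hcard := card_le_of_indep_mod (K := K) s⁻¹ (transcendental_inv hs) (D + 1)
        (fun x => s⁻¹ ^ D * γ x) (by
          rintro (⟨i, a⟩ | j)
          · change IntOver K s⁻¹ (s⁻¹ ^ D * (s ^ a.val * ω i))
            have h1 : s⁻¹ ^ D * (s ^ a.val * ω i) = s⁻¹ ^ (M - a.val) * (s⁻¹ ^ E * ω i) := by
              have h2 : D = (M - a.val) + E + a.val := by
                have := a.isLt
                omega
              rw [h2, pow_add, pow_add]
              have h3 : s⁻¹ ^ a.val * s ^ a.val = 1 := by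
                rw [← mul_pow, inv_mul_cancel₀ hs0, one_pow]
              linear_combination (s⁻¹ ^ (M - a.val) * s⁻¹ ^ E * ω i) * h3
            rw [h1]
            exact ((IntOver.self _).pow _).mul (hE i)
          · exact hD j) (by
          intro d y hy hd
          have h1 : ∑ x, d x • (s⁻¹ ^ D * γ x) = s⁻¹ ^ D * ∑ x, d x • γ x := by
            rw [Finset.mul_sum]
            refine Finset.sum_congr rfl fun x _ => ?_
            rw [mul_smul_comm]
          rw [h1, pow_succ, mul_assoc] at hd
          have h2 : ∑ x, d x • γ x = s⁻¹ * y :=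
            mul_left_cancel₀ (pow_ne_zero D (inv_ne_zero hs0)) hd
          have h3 : ∑ x, d x • γ x = 0 := by
            apply eq_zero_of_intOver (K := K) hs
            · exact Finset.sum_induction _ (fun x => IntOver K s x) (fun _ _ => IntOver.add)
                (IntOver.zero _) (fun x _ => (hγ x).smul _)
            · rw [h2, ← mul_assoc, mul_inv_cancel₀ hs0, one_mul]
              exact hy
          rw [Fintype.sum_sum_type] at h3
          -- reduce modulo B₀
          let z : B := ∑ x : S × Fin (M + 1), (C (d (Sum.inl x)) * X ^ x.2.val : K[X]) • ω' x.1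
          have hz : z ∈ B₀ := Submodule.sum_mem _ fun x _ =>
            Submodule.smul_mem _ _ (Submodule.subset_span ⟨x.1, rfl⟩)
          have hzN : (z : N) = ∑ x : S × Fin (M + 1), d (Sum.inl x) • γ (Sum.inl x) := by
            simp only [z, AddSubmonoidClass.coe_finsetSum]
            refine Finset.sum_congr rfl fun x _ => ?_
            rw [Subalgebra.coe_smul, Algebra.smul_def, algX_apply]
            simp only [map_mul, aeval_C, map_pow, aeval_X, Algebra.smul_def, ω', γ, Sum.elim_inl]
            ring
          have h4 : z + ∑ j, d (Sum.inr j) • bj j = 0 := by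
            apply Subtype.ext
            rw [AddMemClass.coe_add, hzN, AddSubmonoidClass.coe_finsetSum]
            exact h3
          have h5 : ∑ j : T, d (Sum.inr j) • (j : B ⧸ B₀) = 0 := by
            have h6 := congrArg (B₀.mkQ) h4
            rw [map_add, map_zero, Submodule.mkQ_apply, (Submodule.Quotient.mk_eq_zero B₀).2 hz,
              zero_add, map_sum] at h6
            rw [← h6]
            refine Finset.sum_congr rfl fun j _ => ?_
            rw [← hbj j]
            rfl
          have h7 : ∀ j, d (Sum.inr j) = 0 :=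
            Fintype.linearIndependent_iff.1 hT (fun j => d (Sum.inr j)) h5
          have h8 : ∑ x : S × Fin (M + 1), d (Sum.inl x) • γ (Sum.inl x) = 0 := by
            rw [← h3]
            simp [h7]
          have h9 : ∀ i : S, (∑ a : Fin (M + 1), C (d (Sum.inl (i, a))) * X ^ a.val : K[X]) = 0 := by
            have hli : LinearIndependent K[X] (fun i => ω i) :=
              (LinearIndependent.iff_fractionRing K[X] K⟮s⟯).2 ω.linearIndependent
            refine Fintype.linearIndependent_iff.1 hli _ ?_
            rw [← h8, Fintype.sum_prod_type]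
            refine Finset.sum_congr rfl fun i _ => ?_
            rw [Finset.sum_smul]
            refine Finset.sum_congr rfl fun a _ => ?_
            rw [Algebra.smul_def, algX_apply]
            simp only [map_mul, aeval_C, map_pow, aeval_X, Algebra.smul_def, γ, Sum.elim_inl]
            ring
          funext x
          rcases x with ⟨i, a⟩ | j
          · have h10 := congrArg (fun p => Polynomial.coeff p a.val) (h9 i)
            simp only [finsetSum_coeff, coeff_C_mul_X_pow, coeff_zero] at h10
            rw [Finset.sum_eq_single a] at h10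
            · simpa using h10
            · intro a' _ ha'
              rw [if_neg]
              intro h
              exact ha' (Fin.ext h.symm)
            · intro h
              exact absurd (Finset.mem_univ a) h
          · exact h7 j)
      rw [Fintype.card_sum, Fintype.card_prod, Fintype.card_fin, hcardS, finrank_inv,
        Fintype.card_coe] at hcard
      have h11 : D + 1 = (M + 1) + E := by omega
      have h12 : Module.finrank K⟮s⟯ N * (D + 1) =
          Module.finrank K⟮s⟯ N * (M + 1) + Module.finrank K⟮s⟯ N * E := by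
        rw [h11, Nat.mul_add]
      rw [h12] at hcard
      exact Nat.le_of_add_le_add_left hcard
    have hlt : Module.rank K (B ⧸ B₀) < Cardinal.aleph0 := lt_of_le_of_lt hr (Cardinal.natCast_lt_aleph0)
    exact Module.rank_lt_aleph0_iff.1 hlt
  haveI : Module.Finite K[X] (B ⧸ B₀) := Module.Finite.of_restrictScalars_finite K K[X] (B ⧸ B₀)
  exact Module.Finite.of_submodule_quotient B₀

end Fin

end Pool.Agent.Helper16

end

section

set_option autoImplicit false

namespace Pool.Agent.Helper16

/-- A place of the field extension `N/K`: a surjective (normalised) discrete valuation of `N`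
with values in `ℤ ∪ {∞}` (written multiplicatively) which is trivial on `K`. -/
structure Place (K N : Type) [Field K] [Field N] [Algebra K N] where
  /-- the valuation -/
  val : Valuation N (WithZero (Multiplicative ℤ))
  surj : Function.Surjective val
  triv : ∀ a : K, a ≠ 0 → val (algebraMap K N a) = 1

/-- The order of `f` at the place `v` (with the convention `ord 0 = 0`). -/
noncomputable def Place.ord {K N : Type} [Field K] [Field N] [Algebra K N] (v : Place K N)
    (f : N) : ℤ := -WithZero.log (v.val f)

/-- The valuation ring of a place, as a `K`-subalgebra of `N`. -/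
def Place.ring {K N : Type} [Field K] [Field N] [Algebra K N] (v : Place K N) :
    Subalgebra K N where
  carrier := {x | v.val x ≤ 1}
  mul_mem' := fun {a b} ha hb => (map_mul v.val a b).trans_le (mul_le_one' ha hb)
  add_mem' := fun {a b} ha hb => (v.val.map_add a b).trans (max_le ha hb)
  algebraMap_mem' := fun a => (em (a = 0)).elim
    (fun h => by simp [h]) (fun h => (v.triv a h).le)

end Pool.Agent.Helper16

end

section

set_option autoImplicit false

set_option linter.style.haveILetI false

namespace Pool.Agent.Helper16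

open Polynomial IntermediateField

namespace Place

variable {K N : Type} [Field K] [Field N] [Algebra K N]

theorem ext_val {v w : Place K N} (h : v.val = w.val) : v = w := by
  cases v; cases w; cases h; rfl

theorem val_algebraMap_le (v : Place K N) (a : K) : v.val (algebraMap K N a) ≤ 1 := by
  by_cases ha : a = 0
  · subst ha; simp
  · exact (v.triv a ha).le

theorem mem_ring (v : Place K N) (x : N) : x ∈ v.ring ↔ v.val x ≤ 1 := Iff.rfl

theorem isUnit_iff (v : Place K N) (x : v.ring) : IsUnit x ↔ v.val (x : N) = 1 := by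
  constructor
  · rintro ⟨u, rfl⟩
    have h1 : v.val ((u : v.ring) : N) ≤ 1 := (u : v.ring).2
    have h2 : v.val (((u⁻¹ : v.ringˣ) : v.ring) : N) ≤ 1 := ((u⁻¹ : v.ringˣ) : v.ring).2
    have h3 : ((u : v.ring) : N) * (((u⁻¹ : v.ringˣ) : v.ring) : N) = 1 := by
      have := u.mul_inv
      exact congrArg Subtype.val this
    have h4 := congrArg v.val h3
    rw [map_mul, map_one] at h4
    refine le_antisymm h1 ?_
    by_contra h5
    rw [not_le] at h5
    have : v.val ((u : v.ring) : N) * v.val (((u⁻¹ : v.ringˣ) : v.ring) : N) < 1 :=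
      mul_lt_one_of_lt_of_le h5 h2
    rw [h4] at this
    exact lt_irrefl _ this
  · intro h
    have hx0 : (x : N) ≠ 0 := by
      intro h0
      rw [h0, map_zero] at h
      exact zero_ne_one h
    have h1 : (x : N)⁻¹ ∈ v.ring := by
      rw [mem_ring, map_inv₀, h, inv_one]
    refine ⟨⟨x, ⟨(x : N)⁻¹, h1⟩, ?_, ?_⟩, rfl⟩
    · apply Subtype.ext
      exact mul_inv_cancel₀ hx0
    · apply Subtype.ext
      exact inv_mul_cancel₀ hx0

instance (v : Place K N) : IsLocalRing v.ring := by
  refine IsLocalRing.of_nonunits_add ?_
  intro a b ha hb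
  rw [mem_nonunits_iff, isUnit_iff] at *
  have ha' : v.val (a : N) < 1 := lt_of_le_of_ne a.2 ha
  have hb' : v.val (b : N) < 1 := lt_of_le_of_ne b.2 hb
  have : v.val ((a : N) + (b : N)) < 1 := v.val.map_add_lt ha' hb'
  exact this.ne

theorem mem_maximalIdeal (v : Place K N) (x : v.ring) :
    x ∈ IsLocalRing.maximalIdeal v.ring ↔ v.val (x : N) < 1 := by
  rw [IsLocalRing.mem_maximalIdeal, mem_nonunits_iff, isUnit_iff]
  exact ⟨fun h => lt_of_le_of_ne x.2 h, fun h => h.ne⟩

/-- The residue field of a place. -/
abbrev resField (v : Place K N) : Type := IsLocalRing.ResidueField v.ring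

/-- The degree of a place. -/
noncomputable def deg (v : Place K N) : ℕ := Module.finrank K v.resField

section ord

variable (v : Place K N)

theorem ord_zero : v.ord 0 = 0 := by simp [ord]

theorem ord_nonneg_iff {x : N} (hx : x ≠ 0) : 0 ≤ v.ord x ↔ v.val x ≤ 1 := by
  unfold ord
  rw [← WithZero.log_le_log (by simpa using hx) one_ne_zero, WithZero.log_one]
  omega

end ord

end Place

end Pool.Agent.Helper16

end

section

set_option autoImplicit false

set_option linter.style.haveILetI false

namespace Pool.Agent.Helper16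

open Polynomial IntermediateField IsDedekindDomain

theorem valuation_eq_of_le {N : Type} [Field N] (v w : Valuation N (WithZero (Multiplicative ℤ)))
    (hv : Function.Surjective v) (hw : Function.Surjective w)
    (h : ∀ x, w x ≤ 1 → v x ≤ 1) : v = w := by
  have h1 : ∀ x, w x = 1 → v x = 1 := by
    intro x hx
    have hx0 : x ≠ 0 := by
      rintro rfl
      rw [map_zero] at hx
      exact zero_ne_one hx
    refine le_antisymm (h x hx.le) ?_
    have := h x⁻¹ (by rw [map_inv₀, hx, inv_one])
    rw [map_inv₀] at this
    exact (inv_le_one₀ (zero_lt_iff.2 (by simpa using hx0))).1 this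
  obtain ⟨p, hp⟩ := hw (WithZero.exp (-1 : ℤ))
  have hp0 : p ≠ 0 := by
    rintro rfl
    rw [map_zero] at hp
    exact WithZero.exp_ne_zero hp.symm
  have h2 : ∀ x (n : ℤ), x ≠ 0 → w x = WithZero.exp (-n) → v x = (v p) ^ n := by
    intro x n hx hn
    have h3 : w (x * (p ^ n)⁻¹) = 1 := by
      rw [map_mul, map_inv₀, map_zpow₀, hn, hp, ← WithZero.exp_zsmul]
      simp
    have h4 := h1 _ h3
    rw [map_mul, map_inv₀, map_zpow₀] at h4
    exact (mul_inv_eq_one₀ (zpow_ne_zero _ (by simpa using hp0))).1 h4
  have h5 : v p ≤ 1 := h p (by rw [hp, ← WithZero.exp_zero, WithZero.exp_le_exp]; norm_num)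
  have hvp0 : v p ≠ 0 := by simpa using hp0
  have key : ∀ x, x ≠ 0 → WithZero.log (v x) = WithZero.log (v p) * (-WithZero.log (w x)) := by
    intro x hx
    have hwx : w x ≠ 0 := by simpa using hx
    have := h2 x (-WithZero.log (w x)) hx (by rw [neg_neg, WithZero.exp_log hwx])
    rw [this, WithZero.log_zpow]
    simp [mul_comm]
  obtain ⟨y, hy⟩ := hv (WithZero.exp (-1 : ℤ))
  have hy0 : y ≠ 0 := by
    rintro rfl
    rw [map_zero] at hy
    exact WithZero.exp_ne_zero hy.symm
  have h6 := key y hy0
  rw [hy, WithZero.log_exp] at h6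
  have h7 : WithZero.log (v p) ≤ 0 := by
    have := (WithZero.log_le_log hvp0 one_ne_zero).2 h5
    simpa using this
  have h8 : WithZero.log (v p) = -1 := by
    have h9 : WithZero.log (v p) * WithZero.log (w y) = 1 := by (clear * - h6; linarith)
    rcases Int.eq_one_or_neg_one_of_mul_eq_one h9 with h | h
    · omega
    · exact h
  ext x
  by_cases hx : x = 0
  · subst hx; simp
  · have h10 := key x hx
    rw [h8] at h10
    have h11 : WithZero.log (v x) = WithZero.log (w x) := by linarith
    rw [← WithZero.exp_log (show v x ≠ 0 by simpa using hx), h11,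
      WithZero.exp_log (show w x ≠ 0 by simpa using hx)]

section Ded

variable {K N : Type} [Field K] [Field N] [Algebra K N]

/-- The integral closure of `K[s]` in `N`. -/
@[reducible] noncomputable def IC (K : Type) {N : Type} [Field K] [Field N] [Algebra K N] (s : N) :
    @Subalgebra K[X] N _ _ (algX K s) := @integralClosure K[X] N _ _ (algX K s)

theorem isDedekindDomain_IC (s : N) (hs : Transcendental K s) [FiniteDimensional K⟮s⟯ N] :
    IsDedekindDomain (IC K s) := by
  letI := algX K s
  letI := algXF K s
  haveI := towerXF (K := K) s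
  haveI := isFractionRing_algXF s hs
  haveI := faithfulX s hs
  haveI := finite_integralClosure s hs
  haveI : IsNoetherianRing (IC K s) := IsNoetherianRing.of_finite K[X] (IC K s)
  haveI : IsIntegrallyClosed (IC K s) :=
    integralClosure.isIntegrallyClosedOfFiniteExtension K⟮s⟯
  haveI : Ring.DimensionLEOne (IC K s) := Ring.DimensionLEOne.of_isIntegral K[X] (IC K s)
  exact { }

theorem isFractionRing_IC (s : N) (hs : Transcendental K s) [FiniteDimensional K⟮s⟯ N] :
    IsFractionRing (IC K s) N := by
  letI := algX K s
  letI := algXF K s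
  haveI := towerXF (K := K) s
  haveI := isFractionRing_algXF s hs
  haveI := faithfulX s hs
  exact integralClosure.isFractionRing_of_finite_extension K⟮s⟯ N

end Ded

end Pool.Agent.Helper16

end

section

set_option autoImplicit false

set_option linter.style.haveILetI false

namespace Pool.Agent.Helper16

open Polynomial IntermediateField IsDedekindDomain

section Ded

variable {K N : Type} [Field K] [Field N] [Algebra K N]

/-- Elements integral over `K[s]` are regular at all places where `s` is regular. -/
theorem IntOver.mem_ring {s x : N} (hx : IntOver K s x) (v : Place K N) (hs : v.val s ≤ 1) :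
    v.val x ≤ 1 := by
  have := hx.mem_valuationSubring v.val.valuationSubring (fun a => v.val_algebraMap_le a) hs
  exact this

/-- The place attached to a prime of the integral closure of `K[s]`. -/
noncomputable def placeOfPrime (s : N) (hs : Transcendental K s) [FiniteDimensional K⟮s⟯ N]
    (P : HeightOneSpectrum (IC K s)) : Place K N :=
  haveI := isDedekindDomain_IC s hs
  haveI := isFractionRing_IC s hs
  { val := P.valuation N
    surj := P.valuation_surjective N
    triv := by
      intro a ha
      have h1 : IsUnit (⟨algebraMap K N a, IntOver.const s a⟩ : IC K s) := by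
        refine ⟨⟨⟨algebraMap K N a, IntOver.const s a⟩, ⟨algebraMap K N a⁻¹, IntOver.const s a⁻¹⟩,
          ?_, ?_⟩, rfl⟩
        · apply Subtype.ext
          change algebraMap K N a * algebraMap K N a⁻¹ = 1
          rw [← map_mul, mul_inv_cancel₀ ha, map_one]
        · apply Subtype.ext
          change algebraMap K N a⁻¹ * algebraMap K N a = 1
          rw [← map_mul, inv_mul_cancel₀ ha, map_one]
      have h2 := P.valuation_of_algebraMap (K := N) (⟨algebraMap K N a, IntOver.const s a⟩ : IC K s)
      have h3 : P.intValuation (⟨algebraMap K N a, IntOver.const s a⟩ : IC K s) = 1 := by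
        rw [HeightOneSpectrum.intValuation_eq_one_iff]
        intro hmem
        exact P.isPrime.ne_top (Ideal.eq_top_of_isUnit_mem _ hmem h1)
      rw [h3] at h2
      exact h2 }

theorem placeOfPrime_val_algebraMap (s : N) (hs : Transcendental K s) [FiniteDimensional K⟮s⟯ N]
    (P : HeightOneSpectrum (IC K s)) (b : IC K s) : (placeOfPrime s hs P).val (b : N) ≤ 1 := by
  haveI := isDedekindDomain_IC s hs
  haveI := isFractionRing_IC s hs
  exact P.valuation_le_one (K := N) b

theorem placeOfPrime_val_lt (s : N) (hs : Transcendental K s) [FiniteDimensional K⟮s⟯ N]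
    (P : HeightOneSpectrum (IC K s)) (b : IC K s) :
    (placeOfPrime s hs P).val (b : N) < 1 ↔ b ∈ P.asIdeal := by
  haveI := isDedekindDomain_IC s hs
  haveI := isFractionRing_IC s hs
  exact P.valuation_lt_one_iff_mem (K := N) b

theorem exists_placeOfPrime (s : N) (hs : Transcendental K s) [FiniteDimensional K⟮s⟯ N]
    (v : Place K N) (hv : v.val s ≤ 1) : ∃ P, placeOfPrime s hs P = v := by
  haveI := isDedekindDomain_IC s hs
  haveI := isFractionRing_IC s hs
  let P : Ideal (IC K s) :=
    { carrier := {b | v.val (b : N) < 1}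
      add_mem' := fun {a b} ha hb => v.val.map_add_lt ha hb
      zero_mem' := by
        change v.val ((0 : IC K s) : N) < 1
        simp
      smul_mem' := by
        intro c b hb
        change v.val ((c * b : IC K s) : N) < 1
        have h1 : ((c * b : IC K s) : N) = (c : N) * (b : N) := rfl
        rw [h1, map_mul, mul_comm]
        exact mul_lt_one_of_lt_of_le hb (IntOver.mem_ring (K := K) c.2 v hv) }
  have hmem : ∀ b : IC K s, b ∈ P ↔ v.val (b : N) < 1 := fun b => Iff.rfl
  have hprime : P.IsPrime := by
    refine ⟨?_, ?_⟩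
    · rw [Ideal.ne_top_iff_one, hmem]
      have h1 : ((1 : IC K s) : N) = 1 := rfl
      rw [h1, map_one]
      exact lt_irrefl _
    · intro a b hab
      rw [hmem] at hab
      have h1 : ((a * b : IC K s) : N) = (a : N) * (b : N) := rfl
      rw [h1, map_mul] at hab
      by_contra hcon
      rw [not_or, hmem, hmem, not_lt, not_lt] at hcon
      exact absurd hab (not_lt.2 (one_le_mul hcon.1 hcon.2))
  have hbot : P ≠ ⊥ := by
    intro h0
    obtain ⟨y, hy⟩ := v.surj (WithZero.exp (1 : ℤ))
    obtain ⟨a, b, hb, hab⟩ := IsFractionRing.div_surjective (A := IC K s) y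
    have hu : ∀ c : IC K s, c ≠ 0 → v.val (c : N) = 1 := by
      intro c hc
      refine le_antisymm (IntOver.mem_ring (K := K) c.2 v hv) ?_
      by_contra hlt
      rw [not_le] at hlt
      have : c ∈ P := hlt
      rw [h0] at this
      exact hc this
    have hb0 : b ≠ 0 := nonZeroDivisors.ne_zero hb
    have h1 : v.val (algebraMap (IC K s) N b) = 1 := hu b hb0
    rw [← hab, map_div₀, h1, div_one] at hy
    by_cases ha : a = 0
    · rw [ha, map_zero, map_zero] at hy
      exact WithZero.exp_ne_zero hy.symm
    · have h2 : v.val (algebraMap (IC K s) N a) = 1 := hu a ha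
      rw [h2, ← WithZero.exp_zero, WithZero.exp_inj] at hy
      omega
  let Q : HeightOneSpectrum (IC K s) := ⟨P, hprime, hbot⟩
  refine ⟨Q, ?_⟩
  apply Place.ext_val
  symm
  apply valuation_eq_of_le _ _ v.surj (placeOfPrime s hs Q).surj
  intro x hx
  obtain ⟨n, d, hnd⟩ := Q.exists_primeCompl_mul_eq_of_integer (K := N) x hx
  have hd : v.val (algebraMap (IC K s) N d) = 1 := by
    refine le_antisymm (IntOver.mem_ring (K := K) d.1.2 v hv) ?_
    by_contra hlt
    rw [not_le] at hlt
    exact d.2 hlt
  have h1 := congrArg v.val hnd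
  rw [map_mul, hd, mul_one] at h1
  rw [h1]
  exact IntOver.mem_ring (K := K) n.2 v hv

end Ded

end Pool.Agent.Helper16

end

section

set_option autoImplicit false

set_option linter.style.haveILetI false

namespace Pool.Agent.Helper16

open Polynomial IntermediateField IsDedekindDomain

section Ded

variable {K N : Type} [Field K] [Field N] [Algebra K N]

/-- `s` as an element of the integral closure of `K[s]`. -/
def sIC (K : Type) {N : Type} [Field K] [Field N] [Algebra K N] (s : N) : IC K s :=
  ⟨s, IntOver.self s⟩

theorem algebraMap_X_IC (s : N) :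
    letI := algX K s
    algebraMap K[X] (IC K s) X = sIC K s := by
  letI := algX K s
  apply Subtype.ext
  change aeval s (X : K[X]) = s
  simp

theorem liesOver_of_mem (s : N) (P : HeightOneSpectrum (IC K s)) (h : sIC K s ∈ P.asIdeal) :
    letI := algX K s
    P.asIdeal.LiesOver (Ideal.span {(X : K[X])}) := by
  letI := algX K s
  have hmax : (Ideal.span {(X : K[X])}).IsMaximal :=
    PrincipalIdealRing.isMaximal_of_irreducible irreducible_X
  refine ⟨?_⟩
  apply hmax.eq_of_le
  · intro h1
    apply P.isPrime.ne_top
    rw [Ideal.eq_top_iff_one] at h1 ⊢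
    simpa using h1
  · rw [Ideal.span_singleton_le_iff_mem]
    change algebraMap K[X] (IC K s) X ∈ P.asIdeal
    rw [algebraMap_X_IC]
    exact h

theorem exists_resEquiv (s : N) (hs : Transcendental K s) [FiniteDimensional K⟮s⟯ N]
    (P : HeightOneSpectrum (IC K s)) :
    letI := algX K s
    haveI := towerX (K := K) s
    Nonempty ((IC K s ⧸ P.asIdeal) ≃ₐ[K] (placeOfPrime s hs P).resField) := by
  letI := algX K s
  haveI := towerX (K := K) s
  haveI := isDedekindDomain_IC s hs
  haveI := isFractionRing_IC s hs
  haveI : P.asIdeal.IsMaximal := P.isMaximal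
  let v := placeOfPrime s hs P
  let ψ : IC K s →ₐ[K] v.resField :=
    { toFun := fun b => IsLocalRing.residue v.ring ⟨(b : N), placeOfPrime_val_algebraMap s hs P b⟩
      map_one' := map_one _
      map_mul' := fun a b => by rw [← map_mul]; rfl
      map_zero' := map_zero _
      map_add' := fun a b => by rw [← map_add]; rfl
      commutes' := fun a => by
        have h1 : (⟨((algebraMap K (IC K s) a : IC K s) : N),
            placeOfPrime_val_algebraMap s hs P _⟩ : v.ring) = algebraMap K v.ring a := by
          rfl
        rw [h1]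
        rfl }
  have hψ : ∀ b, ψ b = 0 ↔ b ∈ P.asIdeal := by
    intro b
    change IsLocalRing.residue v.ring _ = 0 ↔ _
    rw [IsLocalRing.residue_eq_zero_iff, Place.mem_maximalIdeal]
    exact placeOfPrime_val_lt s hs P b
  have hsurj : Function.Surjective ψ := by
    intro r
    obtain ⟨⟨x, hx⟩, rfl⟩ := IsLocalRing.residue_surjective r
    obtain ⟨n, d, hnd⟩ := P.exists_primeCompl_mul_eq_of_integer (K := N) x hx
    obtain ⟨e, i, hi, he⟩ := P.isMaximal.exists_inv d.2
    refine ⟨n * e, ?_⟩
    change IsLocalRing.residue v.ring _ = IsLocalRing.residue v.ring _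
    rw [← sub_eq_zero, ← map_sub, IsLocalRing.residue_eq_zero_iff, Place.mem_maximalIdeal]
    have h1 : (n * e : IC K s) = (n : N) * (e : N) := rfl
    have h2 : (e : N) * ((d : IC K s) : N) + (i : N) = 1 := by
      have := congrArg (Subtype.val) he
      exact this
    have h3 : x * ((d : IC K s) : N) = (n : N) := hnd
    have h4 : ((n * e : IC K s) : N) - x = - (x * (i : N)) := by
      rw [h1, ← h3]
      linear_combination x * h2
    change v.val (((n * e : IC K s) : N) - x) < 1
    rw [h4, Valuation.map_neg, map_mul, mul_comm]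
    exact mul_lt_one_of_lt_of_le ((placeOfPrime_val_lt s hs P i).2 hi) hx
  have hker : RingHom.ker ψ = P.asIdeal := by
    ext b
    exact hψ b
  exact ⟨(Ideal.quotientEquivAlgOfEq K hker.symm).trans (Ideal.quotientKerAlgEquivOfSurjective hsurj)⟩

theorem map_span_X (s : N) :
    letI := algX K s
    (Ideal.span {(X : K[X])}).map (algebraMap K[X] (IC K s)) = Ideal.span {sIC K s} := by
  letI := algX K s
  rw [Ideal.map_span, Set.image_singleton, algebraMap_X_IC]

theorem sIC_ne_zero {s : N} (hs : Transcendental K s) : sIC K s ≠ 0 := by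
  intro h
  exact transcendental_ne_zero hs (congrArg Subtype.val h)

end Ded

end Pool.Agent.Helper16

end

section

set_option autoImplicit false

set_option linter.style.haveILetI false

namespace Pool.Agent.Helper16

open Polynomial IntermediateField IsDedekindDomain

section

variable {K N : Type} [Field K] [Field N] [Algebra K N]

theorem Place.exists_uniformizer (v : Place K N) : ∃ f : N, f ≠ 0 ∧ v.val f = WithZero.exp (-1 : ℤ) := by
  obtain ⟨f, hf⟩ := v.surj (WithZero.exp (-1 : ℤ))
  refine ⟨f, ?_, hf⟩
  rintro rfl
  rw [map_zero] at hf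
  exact WithZero.exp_ne_zero hf.symm

end

end Pool.Agent.Helper16

end
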