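import Pool.Agent.Helper23.MB.Inst

/-!
Parts of Helper33.PlaceSys, Helper33.DVBasic, Helper55.RD.Hom, Helper55.RD.Res, Helper55.RD.Val, Helper55.RD.Energy, Helper55.RD.Content, Helper55.RD.Sys, Helper55.RD.Tr, Helper55.RD.Comb, Helper55.RD.Core, Helper55.RD.Core2, Helper55.RD.LC, Helper55.RD.RatLB, Helper55.RM.Iso2
-/

attribute [-simp] Valuation.IsUniformizer.val
attribute [local instance 5000]
  Pool.Agent.Helper23.MB.Inst.rCharZero Pool.Agent.Helper23.MB.Inst.rALM
  Pool.Agent.Helper23.MB.Inst.rARM Pool.Agent.Helper23.MB.Inst.rALSM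
  Pool.Agent.Helper23.MB.Inst.rARSM Pool.Agent.Helper23.MB.Inst.rARRLE
  Pool.Agent.Helper23.MB.Inst.rALRLE Pool.Agent.Helper23.MB.Inst.rARRLT
  Pool.Agent.Helper23.MB.Inst.rALRLT Pool.Agent.Helper23.MB.Inst.rPMRLT
  Pool.Agent.Helper23.MB.Inst.rMPRLT Pool.Agent.Helper23.MB.Inst.rPMM
  Pool.Agent.Helper23.MB.Inst.rMPM Pool.Agent.Helper23.MB.Inst.rPMSM
  Pool.Agent.Helper23.MB.Inst.rMPSM Pool.Agent.Helper23.MB.Inst.rEAOL
  Pool.Agent.Helper23.MB.Inst.rIOR Pool.Agent.Helper23.MB.Inst.rISOR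
  Pool.Agent.Helper23.MB.Inst.rNZD Pool.Agent.Helper23.MB.Inst.zCharZero
  Pool.Agent.Helper23.MB.Inst.zALM Pool.Agent.Helper23.MB.Inst.zARM
  Pool.Agent.Helper23.MB.Inst.zIOR Pool.Agent.Helper23.MB.Inst.zISOR
  Pool.Agent.Helper23.MB.Inst.zNZD Pool.Agent.Helper23.MB.Inst.qCharZero
  Pool.Agent.Helper23.MB.Inst.free Pool.Agent.Helper23.MB.Inst.faith
  Pool.Agent.Helper23.MB.Inst.torsionFree Pool.Agent.Helper23.MB.Inst.rfFaith
  Pool.Agent.Helper23.MB.Inst.hAdd Pool.Agent.Helper23.MB.Inst.hAddM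
  Pool.Agent.Helper23.MB.Inst.hMul Pool.Agent.Helper23.MB.Inst.hMon
  Pool.Agent.Helper23.MB.Inst.hZero Pool.Agent.Helper23.MB.Inst.hOne
  Pool.Agent.Helper23.MB.Inst.hMZ Pool.Agent.Helper23.MB.Inst.hRing
  Pool.Agent.Helper23.MB.Inst.aAdd Pool.Agent.Helper23.MB.Inst.aAddM
  Pool.Agent.Helper23.MB.Inst.aMul Pool.Agent.Helper23.MB.Inst.aMon
  Pool.Agent.Helper23.MB.Inst.aZero Pool.Agent.Helper23.MB.Inst.aOne
  Pool.Agent.Helper23.MB.Inst.aMZ Pool.Agent.Helper23.MB.Inst.aRing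

namespace Pool.Agent.Helper33
end Pool.Agent.Helper33
namespace Pool.Agent.Helper51.RatTree
end Pool.Agent.Helper51.RatTree
namespace Pool.Agent.Helper55.RD
end Pool.Agent.Helper55.RD

section

set_option autoImplicit false

namespace Pool.Agent.Helper33

/-- An abstract discrete valuation, additive notation, with junk value at `0`. -/
structure DV (K : Type*) [Field K] where
  /-- the order function (junk value at `0`) -/
  o : K → ℤ
  mul : ∀ x y : K, x ≠ 0 → y ≠ 0 → o (x * y) = o x + o y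
  add : ∀ x y : K, x ≠ 0 → y ≠ 0 → x + y ≠ 0 → min (o x) (o y) ≤ o (x + y)

end Pool.Agent.Helper33

end

section

set_option autoImplicit false

namespace Pool.Agent.Helper33

namespace DV

variable {K : Type*} [Field K] (v : DV K)

lemma o_one : v.o 1 = 0 := by
  have := v.mul 1 1 one_ne_zero one_ne_zero
  rw [mul_one] at this
  omega

lemma o_neg_one : v.o (-1) = 0 := by
  have h := v.mul (-1) (-1) (neg_ne_zero.mpr one_ne_zero) (neg_ne_zero.mpr one_ne_zero)
  rw [neg_mul_neg, mul_one, v.o_one] at h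
  omega

lemma o_neg (x : K) : v.o (-x) = v.o x := by
  by_cases hx : x = 0
  · simp [hx]
  · have h := v.mul (-1) x (neg_ne_zero.mpr one_ne_zero) hx
    rw [neg_one_mul, v.o_neg_one] at h
    omega

lemma o_inv (x : K) (hx : x ≠ 0) : v.o x⁻¹ = - v.o x := by
  have h := v.mul x x⁻¹ hx (inv_ne_zero hx)
  rw [mul_inv_cancel₀ hx, v.o_one] at h
  omega

lemma o_div (x y : K) (hx : x ≠ 0) (hy : y ≠ 0) : v.o (x / y) = v.o x - v.o y := by
  rw [div_eq_mul_inv, v.mul x _ hx (inv_ne_zero hy), v.o_inv y hy]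
  ring

lemma o_pow (x : K) (hx : x ≠ 0) (n : ℕ) : v.o (x ^ n) = n * v.o x := by
  induction n with
  | zero => simp [v.o_one]
  | succ n ih =>
    rw [pow_succ, v.mul _ _ (pow_ne_zero n hx) hx, ih]
    push_cast
    ring

lemma o_prod {ι : Type*} (s : Finset ι) (f : ι → K) (hf : ∀ i ∈ s, f i ≠ 0) :
    v.o (∏ i ∈ s, f i) = ∑ i ∈ s, v.o (f i) := by
  classical
  induction s using Finset.induction_on with
  | empty => simp [v.o_one]
  | insert a s ha ih =>
    rw [Finset.prod_insert ha, Finset.sum_insert ha,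
      v.mul _ _ (hf a (Finset.mem_insert_self a s))
        (Finset.prod_ne_zero_iff.mpr fun i hi => hf i (Finset.mem_insert_of_mem hi)),
      ih fun i hi => hf i (Finset.mem_insert_of_mem hi)]

/-- `x` has valuation at least `c`. -/
def ge (c : ℝ) (x : K) : Prop := x = 0 ∨ c ≤ (v.o x : ℝ)

variable {v}

lemma ge_zero (c : ℝ) : v.ge c 0 := Or.inl rfl

lemma ge_self (x : K) : v.ge (v.o x) x := Or.inr le_rfl

lemma ge_mono {c c' : ℝ} {x : K} (h : v.ge c x) (hc : c' ≤ c) : v.ge c' x := by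
  rcases h with h | h
  · exact Or.inl h
  · exact Or.inr (hc.trans h)

lemma ge_le {c : ℝ} {x : K} (h : v.ge c x) (hx : x ≠ 0) : c ≤ (v.o x : ℝ) := by
  rcases h with h | h
  · exact absurd h hx
  · exact h

lemma ge_neg {c : ℝ} {x : K} (h : v.ge c x) : v.ge c (-x) := by
  rcases h with h | h
  · left; simp [h]
  · right; rwa [v.o_neg]

lemma ge_add {c : ℝ} {x y : K} (hx : v.ge c x) (hy : v.ge c y) : v.ge c (x + y) := by
  by_cases hx0 : x = 0
  · simpa [hx0] using hy
  by_cases hy0 : y = 0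
  · simpa [hy0] using hx
  by_cases hxy : x + y = 0
  · exact Or.inl hxy
  right
  have h1 := ge_le hx hx0
  have h2 := ge_le hy hy0
  have h3 := v.add x y hx0 hy0 hxy
  have h4 : (min (v.o x) (v.o y) : ℝ) ≤ (v.o (x + y) : ℝ) := by exact_mod_cast h3
  exact (le_min h1 h2).trans h4

lemma ge_sub {c : ℝ} {x y : K} (hx : v.ge c x) (hy : v.ge c y) : v.ge c (x - y) := by
  rw [sub_eq_add_neg]; exact ge_add hx (ge_neg hy)

lemma ge_sum {ι : Type*} {c : ℝ} (s : Finset ι) (f : ι → K) (h : ∀ i ∈ s, v.ge c (f i)) :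
    v.ge c (∑ i ∈ s, f i) := by
  classical
  induction s using Finset.induction_on with
  | empty => simp [ge_zero]
  | insert a s ha ih =>
    rw [Finset.sum_insert ha]
    exact ge_add (h a (Finset.mem_insert_self a s)) (ih fun i hi => h i (Finset.mem_insert_of_mem hi))

lemma ge_mul {c c' : ℝ} {x y : K} (hx : v.ge c x) (hy : v.ge c' y) : v.ge (c + c') (x * y) := by
  by_cases hx0 : x = 0
  · left; simp [hx0]
  by_cases hy0 : y = 0
  · left; simp [hy0]
  right
  rw [v.mul x y hx0 hy0]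
  push_cast
  exact add_le_add (ge_le hx hx0) (ge_le hy hy0)

lemma ge_one : v.ge 0 1 := by
  right; simp [v.o_one]

lemma ge_pow {c : ℝ} {x : K} (hx : v.ge c x) (n : ℕ) : v.ge (n * c) (x ^ n) := by
  induction n with
  | zero => simpa using ge_one
  | succ n ih =>
    rw [pow_succ]
    refine ge_mono (ge_mul ih hx) (le_of_eq ?_)
    push_cast; ring

end DV

end Pool.Agent.Helper33

end

section

set_option autoImplicit false

open Polynomial Finset

namespace Pool.Agent.Helper55.RD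

section hom

variable {R A B : Type*} [CommRing R] [CommRing A] [Algebra R A] [CommRing B] [Algebra R B]

/-- the value at `(a, b)` of the form of degree `n` given by `f` -/
noncomputable def hom (n : ℕ) (f : R[X]) (a b : A) : A :=
  ∑ kl ∈ antidiagonal n, algebraMap R A (f.coeff kl.1) * a ^ kl.1 * b ^ kl.2

lemma hom_eq_aeval (n : ℕ) (f : R[X]) (a b : A) :
    hom n f a b = MvPolynomial.aeval ![a, b] (f.homogenize n) := by
  rw [homogenize, map_sum, hom]
  refine sum_congr rfl fun kl _ => ?_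
  rw [MvPolynomial.aeval_monomial]
  rw [Finsupp.prod_fintype _ _ (by simp)]
  simp [Fin.prod_univ_two, mul_assoc, Finsupp.update_apply]

lemma hom_mul {m n : ℕ} {f g : R[X]} (hf : f.natDegree ≤ m) (hg : g.natDegree ≤ n) (a b : A) :
    hom (m + n) (f * g) a b = hom m f a b * hom n g a b := by
  rw [hom_eq_aeval, hom_eq_aeval, hom_eq_aeval, homogenize_mul f g hf hg, map_mul]

lemma hom_add (n : ℕ) (f g : R[X]) (a b : A) : hom n (f + g) a b = hom n f a b + hom n g a b := by
  simp only [hom, coeff_add, map_add, add_mul, sum_add_distrib]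

lemma hom_C_mul (n : ℕ) (c : R) (f : R[X]) (a b : A) :
    hom n (C c * f) a b = algebraMap R A c * hom n f a b := by
  simp only [hom, coeff_C_mul, map_mul, mul_sum, mul_assoc]

lemma hom_neg (n : ℕ) (f : R[X]) (a b : A) : hom n (-f) a b = - hom n f a b := by
  simp [hom]

lemma hom_sub (n : ℕ) (f g : R[X]) (a b : A) : hom n (f - g) a b = hom n f a b - hom n g a b := by
  rw [sub_eq_add_neg, hom_add, hom_neg, sub_eq_add_neg]

lemma hom_zero (n : ℕ) (a b : A) : hom n (0 : R[X]) a b = 0 := by simp [hom]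

lemma hom_sum {ι : Type*} (n : ℕ) (s : Finset ι) (f : ι → R[X]) (a b : A) :
    hom n (∑ i ∈ s, f i) a b = ∑ i ∈ s, hom n (f i) a b := by
  classical
  induction s using Finset.induction_on with
  | empty => simp [hom_zero]
  | insert i s hi ih => rw [sum_insert hi, sum_insert hi, hom_add, ih]

lemma hom_zero_deg (f : R[X]) (a b : A) : hom 0 f a b = algebraMap R A (f.coeff 0) := by
  simp [hom]

lemma hom_one_deg (f : R[X]) (a b : A) :
    hom 1 f a b = algebraMap R A (f.coeff 1) * a + algebraMap R A (f.coeff 0) * b := by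
  rw [hom, Nat.antidiagonal_succ]
  simp
  ring

lemma hom_pow {m : ℕ} {f : R[X]} (hf : f.natDegree ≤ m) (k : ℕ) (a b : A) :
    hom (k * m) (f ^ k) a b = hom m f a b ^ k := by
  induction k with
  | zero =>
    simp [hom_zero_deg]
  | succ k ih =>
    have h1 : (f ^ k).natDegree ≤ k * m := natDegree_pow_le_of_le k hf
    rw [pow_succ, add_mul, one_mul, hom_mul h1 hf, ih, pow_succ]

lemma hom_smul_smul (n : ℕ) (f : R[X]) (c a b : A) :
    hom n f (c * a) (c * b) = c ^ n * hom n f a b := by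
  simp only [hom, mul_sum]
  refine sum_congr rfl fun kl hkl => ?_
  rw [HasAntidiagonal.mem_antidiagonal] at hkl
  rw [mul_pow, mul_pow, ← hkl, pow_add]
  ring

lemma natDegree_hom_le {n d : ℕ} (f : R[X]) {p q : R[X]} (hp : p.natDegree ≤ d)
    (hq : q.natDegree ≤ d) : (hom n f p q).natDegree ≤ n * d := by
  unfold hom
  refine natDegree_sum_le_of_forall_le _ _ fun kl hkl => ?_
  rw [HasAntidiagonal.mem_antidiagonal] at hkl
  have h1 : (p ^ kl.1).natDegree ≤ kl.1 * d := natDegree_pow_le_of_le _ hp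
  have h2 : (q ^ kl.2).natDegree ≤ kl.2 * d := natDegree_pow_le_of_le _ hq
  have h3 : (algebraMap R R[X] (f.coeff kl.1) * p ^ kl.1).natDegree ≤ kl.1 * d := by
    rw [Polynomial.algebraMap_apply]
    exact (natDegree_C_mul_le _ _).trans h1
  refine (natDegree_mul_le_of_le h3 h2).trans (le_of_eq ?_)
  rw [← add_mul, hkl]

/-- evaluation of a composition -/
lemma hom_hom {n d : ℕ} (f : R[X]) {p q : R[X]} (hp : p.natDegree ≤ d) (hq : q.natDegree ≤ d)
    (a b : A) : hom (n * d) (hom n f p q) a b = hom n f (hom d p a b) (hom d q a b) := by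
  conv_lhs => rw [hom.eq_def n f p q, hom_sum]
  rw [hom.eq_def n f (hom d p a b)]
  refine sum_congr rfl fun kl hkl => ?_
  rw [HasAntidiagonal.mem_antidiagonal] at hkl
  have h1 : (p ^ kl.1).natDegree ≤ kl.1 * d := natDegree_pow_le_of_le _ hp
  have h2 : (q ^ kl.2).natDegree ≤ kl.2 * d := natDegree_pow_le_of_le _ hq
  rw [← hkl, add_mul, mul_assoc, Polynomial.algebraMap_apply, Algebra.algebraMap_self_apply, hom_C_mul,
    hom_mul h1 h2, hom_pow hp, hom_pow hq]
  ring

lemma map_hom {S : Type*} [CommRing S] (φ : R →+* S) (n : ℕ) (f p q : R[X]) :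
    (hom n f p q).map φ = hom n (f.map φ) (p.map φ) (q.map φ) := by
  simp [hom, Polynomial.map_sum]

end hom

end Pool.Agent.Helper55.RD

end

section

set_option autoImplicit false

open Polynomial Finset

namespace Pool.Agent.Helper55.RD

section res

variable {R : Type*} [CommRing R]

lemma resultant_mul_left' {f₁ f₂ g : R[X]} {m₁ m₂ n : ℕ} (h₁ : f₁.natDegree ≤ m₁)
    (h₂ : f₂.natDegree ≤ m₂) (hg : g.natDegree ≤ n) :
    resultant (f₁ * f₂) g (m₁ + m₂) n = resultant f₁ g m₁ n * resultant f₂ g m₂ n := by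
  obtain ⟨k₁, rfl⟩ := Nat.exists_eq_add_of_le h₁
  obtain ⟨k₂, rfl⟩ := Nat.exists_eq_add_of_le h₂
  have h3 : f₁.natDegree + k₁ + (f₂.natDegree + k₂) =
      (f₁.natDegree + f₂.natDegree) + (k₁ + k₂) := by ring
  rw [h3, resultant_add_left_deg _ _ _ _ _ natDegree_mul_le, resultant_mul_left _ _ _ _ hg,
    resultant_add_left_deg _ _ _ _ _ le_rfl, resultant_add_left_deg _ _ _ _ _ le_rfl]
  ring

end res

section field

variable {K : Type*} [Field K]

lemma resultant_gl2 {p q : K[X]} {d : ℕ} (hp : p.natDegree ≤ d) (hq : q.natDegree ≤ d)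
    (a b c e : K) :
    resultant (C a * p + C b * q) (C c * p + C e * q) d d =
      (a * e - b * c) ^ d * resultant p q d d := by
  have hC : ∀ x : K, (C x).natDegree + d ≤ d := fun x => by simp
  by_cases ha : a = 0
  · subst ha
    rw [C_0, zero_mul, zero_add, resultant_C_mul_left]
    have h1 : C c * p + C e * q = C c * p + q * C e := by ring
    rw [h1, resultant_add_mul_right _ _ _ _ _ (hC e) hq, resultant_C_mul_right, resultant_comm,
      zero_mul, zero_sub, neg_pow (b * c), mul_pow]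
    have h2 : ((-1 : K)) ^ (d * d) = (-1) ^ d := by
      rcases Nat.even_or_odd d with h | h
      · rw [(h.mul_left d).neg_one_pow, h.neg_one_pow]
      · rw [(h.mul h).neg_one_pow, h.neg_one_pow]
    rw [h2]
    ring
  · have h1 : C c * p + C e * q =
        C ((a * e - b * c) / a) * q + (C a * p + C b * q) * C (c / a) := by
      have h2 : C c = C a * C (c / a) := by rw [← C_mul, mul_div_cancel₀ _ ha]
      have h3 : C e = C ((a * e - b * c) / a) + C b * C (c / a) := by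
        rw [← C_mul, ← C_add]
        congr 1
        field_simp
        ring
      rw [h3, h2]
      ring
    have h4 : (C a * p + C b * q).natDegree ≤ d :=
      natDegree_add_le_of_degree_le ((natDegree_C_mul_le _ _).trans hp)
        ((natDegree_C_mul_le _ _).trans hq)
    rw [h1, resultant_add_mul_right _ _ _ _ _ (hC _) h4, resultant_C_mul_right]
    have h5 : C a * p + C b * q = C a * p + q * C b := by ring
    rw [h5, resultant_add_mul_left _ _ _ _ _ (hC b) hq, resultant_C_mul_left, ← mul_assoc,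
      ← mul_pow, div_mul_cancel₀ _ ha]

lemma eq_of_natDegree_le_one {f : K[X]} (hf : f.natDegree ≤ 1) :
    f = C (f.coeff 1) * X + C (f.coeff 0) * 1 := by
  rw [mul_one]
  exact eq_X_add_C_of_natDegree_le_one hf

lemma resultant_one_one {f g : K[X]} (hf : f.natDegree ≤ 1) (hg : g.natDegree ≤ 1) :
    resultant f g 1 1 = f.coeff 1 * g.coeff 0 - f.coeff 0 * g.coeff 1 := by
  have h := resultant_gl2 (p := (X : K[X])) (q := 1) (d := 1) (natDegree_X_le) (by simp)
    (f.coeff 1) (f.coeff 0) (g.coeff 1) (g.coeff 0)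
  rw [← eq_of_natDegree_le_one hf, ← eq_of_natDegree_le_one hg] at h
  rw [h]
  simp

/-- the composition formula, as a property of a pair of forms -/
def Comp (m : ℕ) (f : K[X]) (n : ℕ) (g : K[X]) : Prop :=
  ∀ (d : ℕ) (p q : K[X]), p.natDegree ≤ d → q.natDegree ≤ d →
    resultant (hom m f p q) (hom n g p q) (m * d) (n * d) =
      resultant f g m n ^ d * resultant p q d d ^ (m * n)

lemma neg_one_pow_mul_self (a d : ℕ) : ((-1 : K)) ^ (a * (d * d)) = (-1) ^ (a * d) := by
  rcases Nat.even_or_odd d with h | h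
  · rw [((h.mul_left d).mul_left a).neg_one_pow, (h.mul_left a).neg_one_pow]
  · rw [mul_comm a, pow_mul, (h.mul h).neg_one_pow, mul_comm a, pow_mul, h.neg_one_pow]

lemma Comp.symm {m n : ℕ} {f g : K[X]} (h : Comp m f n g) : Comp n g m f := by
  intro d p q hp hq
  rw [resultant_comm, h d p q hp hq, resultant_comm g f, mul_pow, ← pow_mul]
  have h1 : n * d * (m * d) = (n * m) * (d * d) := by ring
  rw [h1, neg_one_pow_mul_self, mul_comm m n]
  ring

lemma Comp.mul {m₁ m₂ n : ℕ} {f₁ f₂ g : K[X]} (h₁ : Comp m₁ f₁ n g) (h₂ : Comp m₂ f₂ n g)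
    (hf₁ : f₁.natDegree ≤ m₁) (hf₂ : f₂.natDegree ≤ m₂) (hg : g.natDegree ≤ n) :
    Comp (m₁ + m₂) (f₁ * f₂) n g := by
  intro d p q hp hq
  rw [hom_mul hf₁ hf₂, add_mul,
    resultant_mul_left' (natDegree_hom_le f₁ hp hq) (natDegree_hom_le f₂ hp hq)
      (natDegree_hom_le g hp hq), h₁ d p q hp hq, h₂ d p q hp hq,
    resultant_mul_left' hf₁ hf₂ hg, add_mul, pow_add]
  ring

lemma comp_zero (n : ℕ) (f g : K[X]) : Comp 0 f n g := by
  intro d p q _ _
  rw [zero_mul, hom_zero_deg, resultant_zero_left_deg, resultant_zero_left_deg, zero_mul, pow_zero,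
    mul_one, ← pow_mul]
  simp

lemma comp_one_one {f g : K[X]} (hf : f.natDegree ≤ 1) (hg : g.natDegree ≤ 1) : Comp 1 f 1 g := by
  intro d p q hp hq
  rw [hom_one_deg, hom_one_deg, one_mul, resultant_one_one hf hg, mul_one, pow_one]
  exact resultant_gl2 hp hq _ _ _ _

/-- over an algebraically closed field, a form is a product of linear forms -/
lemma comp_of_linear [IsAlgClosed K] {n : ℕ} {g : K[X]} (hg : g.natDegree ≤ n)
    (h : ∀ f : K[X], f.natDegree ≤ 1 → Comp 1 f n g) :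
    ∀ (m : ℕ) (f : K[X]), f.natDegree ≤ m → Comp m f n g := by
  intro m
  induction m with
  | zero => intro f _; exact comp_zero n f g
  | succ m ih =>
    intro f hf
    by_cases h1 : f.natDegree ≤ m
    · have h2 := Comp.mul (ih f h1) (h 1 (by simp)) h1 (by simp) hg
      rwa [mul_one] at h2
    · have h2 : f.natDegree = m + 1 := by omega
      obtain ⟨r, hr⟩ := IsAlgClosed.exists_root f (by
        intro h3
        have h4 : f.natDegree = 0 := natDegree_eq_of_degree_eq_some h3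
        rw [h4] at h2
        exact absurd h2 (by simp))
      obtain ⟨f', hf'⟩ := dvd_iff_isRoot.2 hr
      have hf0 : f ≠ 0 := by rintro rfl; simp at h2
      have hf'0 : f' ≠ 0 := by rintro rfl; simp at hf'; exact hf0 hf'
      have h3 : f'.natDegree = m := by
        rw [hf', natDegree_mul (X_sub_C_ne_zero r) hf'0, natDegree_X_sub_C] at h2
        omega
      have h4 := Comp.mul (ih f' h3.le) (h (X - C r) (by simp)) h3.le (by simp) hg
      rwa [mul_comm, ← hf'] at h4

lemma comp_of_isAlgClosed [IsAlgClosed K] {m n : ℕ} {f g : K[X]} (hf : f.natDegree ≤ m)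
    (hg : g.natDegree ≤ n) : Comp m f n g := by
  refine comp_of_linear hg (fun f hf => ?_) m f hf
  exact (comp_of_linear hf (fun g hg => comp_one_one hg hf) n g hg).symm

/-- **Resultant of a composition.** -/
theorem resultant_hom {m n d : ℕ} {f g p q : K[X]} (hf : f.natDegree ≤ m) (hg : g.natDegree ≤ n)
    (hp : p.natDegree ≤ d) (hq : q.natDegree ≤ d) :
    resultant (hom m f p q) (hom n g p q) (m * d) (n * d) =
      resultant f g m n ^ d * resultant p q d d ^ (m * n) := by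
  apply (algebraMap K (AlgebraicClosure K)).injective
  have h : ∀ {a : ℕ} {u : K[X]}, u.natDegree ≤ a →
      (u.map (algebraMap K (AlgebraicClosure K))).natDegree ≤ a := fun hu =>
    natDegree_map_le.trans hu
  rw [map_mul, map_pow, map_pow, ← resultant_map_map, ← resultant_map_map, ← resultant_map_map,
    map_hom, map_hom]
  exact comp_of_isAlgClosed (h hf) (h hg) d _ _ (h hp) (h hq)

end field

end Pool.Agent.Helper55.RD

end

section

set_option autoImplicit false

open Polynomial Finset Pool.Agent.Helper33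

namespace Pool.Agent.Helper55.RD

section val

variable {K : Type*} [Field K] {v : DV K}

lemma ge_prod {ι : Type*} (s : Finset ι) (f : ι → K) (c : ι → ℝ) (h : ∀ i ∈ s, v.ge (c i) (f i)) :
    v.ge (∑ i ∈ s, c i) (∏ i ∈ s, f i) := by
  classical
  induction s using Finset.induction_on with
  | empty => simpa using DV.ge_one
  | insert a s ha ih =>
    rw [sum_insert ha, prod_insert ha]
    exact DV.ge_mul (h a (mem_insert_self a s)) (ih fun i hi => h i (mem_insert_of_mem hi))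

lemma ge_sign {c : ℝ} {x : K} {n : Type*} [Fintype n] [DecidableEq n] (σ : Equiv.Perm n)
    (h : v.ge c x) : v.ge c (((Equiv.Perm.sign σ : ℤˣ) : ℤ) * x : K) := by
  rcases Int.units_eq_one_or (Equiv.Perm.sign σ) with h1 | h1
  · rw [h1]; simpa using h
  · rw [h1]; simpa using DV.ge_neg h

lemma ge_det {n : Type*} [Fintype n] [DecidableEq n] (M : Matrix n n K) (c : n → ℝ)
    (h : ∀ i j, v.ge (c j) (M i j)) : v.ge (∑ j, c j) M.det := by
  rw [Matrix.det_apply']
  exact DV.ge_sum _ _ fun σ _ => ge_sign σ (ge_prod _ _ _ fun i _ => h (σ i) i)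

lemma ge_det_zero {n : Type*} [Fintype n] [DecidableEq n] (M : Matrix n n K)
    (h : ∀ i j, v.ge 0 (M i j)) : v.ge 0 M.det := by
  have := ge_det M (fun _ => 0) h
  simpa using this

lemma ge_adjugate {n : Type*} [Fintype n] [DecidableEq n] (M : Matrix n n K)
    (h : ∀ i j, v.ge 0 (M i j)) (i j : n) : v.ge 0 (M.adjugate i j) := by
  rw [Matrix.adjugate_apply]
  refine ge_det_zero _ fun a b => ?_
  rw [Matrix.updateRow_apply]
  split_ifs
  · rw [Pi.single_apply]
    split_ifs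
    · exact DV.ge_one
    · exact DV.ge_zero 0
  · exact h a b

lemma exists_le_of_sum {ι : Type*} (v : DV K) (s : Finset ι) (f : ι → K) (h : ∑ i ∈ s, f i ≠ 0) :
    ∃ i ∈ s, f i ≠ 0 ∧ v.o (f i) ≤ v.o (∑ i ∈ s, f i) := by
  by_contra hcon
  push Not at hcon
  have h1 : v.ge (v.o (∑ i ∈ s, f i) + 1 : ℝ) (∑ i ∈ s, f i) := by
    refine DV.ge_sum _ _ fun i hi => ?_
    by_cases h0 : f i = 0
    · exact Or.inl h0
    · have := hcon i hi h0
      right
      exact_mod_cast this
  have h2 := DV.ge_le h1 h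
  linarith

end val

section vand

variable {R : Type*} [CommRing R]

lemma shift_sum {N m n : ℕ} (hN : N = m + n) (j : ℕ) (hj : j < m) (c : ℕ → R) (a b : R) :
    ∑ k ∈ range N, a ^ k * b ^ (N - (k + 1)) * (if j ≤ k ∧ k ≤ j + n then c (k - j) else 0) =
      a ^ j * b ^ (m - (j + 1)) * ∑ kl ∈ HasAntidiagonal.antidiagonal n, c kl.1 * a ^ kl.1 * b ^ kl.2 := by
  subst hN
  rw [Finset.Nat.sum_antidiagonal_eq_sum_range_succ_mk, mul_sum]
  symm
  refine sum_bij_ne_zero (fun k _ _ => j + k) ?_ ?_ ?_ ?_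
  · intro k hk _
    rw [mem_range] at hk ⊢
    omega
  · intro k₁ _ _ k₂ _ _ h
    omega
  · intro k hk hne
    have h1 : j ≤ k ∧ k ≤ j + n := by
      by_contra h
      rw [if_neg h, mul_zero] at hne
      exact hne rfl
    refine ⟨k - j, by rw [mem_range]; omega, ?_, by omega⟩
    rw [if_pos h1] at hne
    intro h
    apply hne
    rw [← h]
    have e1 : k = j + (k - j) := by omega
    have e2 : m + n - (k + 1) = (m - (j + 1)) + (n - (k - j)) := by omega
    rw [e2, pow_add]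
    conv_lhs => rw [e1, pow_add]
    simp only [Nat.add_sub_cancel_left]
    ring
  · intro k hk _
    rw [mem_range] at hk
    rw [if_pos ⟨by omega, by omega⟩]
    have e2 : m + n - (j + k + 1) = (m - (j + 1)) + (n - k) := by omega
    rw [e2, pow_add, pow_add, Nat.add_sub_cancel_left]
    ring

/-- The row of monomials. -/
def mon {m : ℕ} (u w : R) (j : Fin m) : R := u ^ j.1 * w ^ (m - (j.1 + 1))

lemma vand_row_mul_sylvester (f g : R[X]) (m n : ℕ) (a b : R) (j : Fin (m + n)) :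
    ∑ k : Fin (m + n), (a ^ k.1 * b ^ (m + n - (k.1 + 1))) * sylvester f g m n k j =
      Fin.addCases (motive := fun _ => R) (fun j₁ => mon a b j₁ * hom n g a b)
        (fun j₁ => mon a b j₁ * hom m f a b) j := by
  refine Fin.addCases (fun j₁ => ?_) (fun j₁ => ?_) j
  · rw [Fin.addCases_left]
    simp only [sylvester, Matrix.of_apply, Fin.addCases_left, Set.mem_Icc, mon, hom]
    rw [Fin.sum_univ_eq_sum_range (fun k => a ^ k * b ^ (m + n - (k + 1)) *
      (if j₁.1 ≤ k ∧ k ≤ j₁.1 + n then g.coeff (k - j₁.1) else 0)) (m + n)]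
    rw [shift_sum rfl j₁.1 j₁.2]
    simp
  · rw [Fin.addCases_right]
    simp only [sylvester, Matrix.of_apply, Fin.addCases_right, Set.mem_Icc, mon, hom]
    rw [Fin.sum_univ_eq_sum_range (fun k => a ^ k * b ^ (m + n - (k + 1)) *
      (if j₁.1 ≤ k ∧ k ≤ j₁.1 + m then f.coeff (k - j₁.1) else 0)) (m + n)]
    rw [shift_sum (add_comm m n) j₁.1 j₁.2]
    simp

end vand

end Pool.Agent.Helper55.RD

end

section

set_option autoImplicit false

open Polynomial Finset Pool.Agent.Helper33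

namespace Pool.Agent.Helper55.RD

variable {K : Type*} [Field K]

/-- the determinant of two vectors -/
def wedge (a b : K × K) : K := a.1 * b.2 - a.2 * b.1

lemma wedge_swap (a b : K × K) : wedge b a = - wedge a b := by
  simp only [wedge]; ring

lemma wedge_self (a : K × K) : wedge a a = 0 := by
  simp only [wedge]; ring

open Classical in
/-- the valuation of the wedge, zero if the wedge is zero -/
noncomputable def W (v : DV K) (a b : K × K) : ℤ := if wedge a b = 0 then 0 else v.o (wedge a b)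

lemma W_comm (v : DV K) (a b : K × K) : W v a b = W v b a := by
  unfold W
  by_cases h : wedge a b = 0
  · rw [if_pos h, if_pos (by rw [wedge_swap, h, neg_zero])]
  · rw [if_neg h, if_neg (by rw [wedge_swap]; exact neg_ne_zero.2 h), wedge_swap a b, v.o_neg]

lemma W_self (v : DV K) (a : K × K) : W v a a = 0 := by
  unfold W; rw [wedge_self, if_pos rfl]

lemma W_of_ne {v : DV K} {a b : K × K} (h : wedge a b ≠ 0) : W v a b = v.o (wedge a b) := by
  unfold W; rw [if_neg h]

lemma sum_Ioi {r : ℕ} (φ : Fin r → Fin r → ℤ) (hsym : ∀ i j, φ i j = φ j i)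
    (hdiag : ∀ i, φ i i = 0) : ∑ i, ∑ j, φ i j = 2 * ∑ i, ∑ j ∈ Ioi i, φ j i := by
  have h1 : ∀ i, ∑ j, φ i j = ∑ j ∈ Iio i, φ i j + ∑ j ∈ Ioi i, φ i j := by
    intro i
    have : (univ : Finset (Fin r)) = insert i (Iio i ∪ Ioi i) := by
      ext j
      simp only [mem_univ, mem_insert, mem_union, mem_Iio, mem_Ioi, true_iff]
      rcases lt_trichotomy j i with h | h | h
      · exact Or.inr (Or.inl h)
      · exact Or.inl h
      · exact Or.inr (Or.inr h)
    rw [this, sum_insert (by simp), hdiag, zero_add, sum_union]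
    rw [disjoint_left]
    intro j hj hj'
    rw [mem_Iio] at hj
    rw [mem_Ioi] at hj'
    exact lt_asymm hj hj'
  rw [sum_congr rfl (fun i _ => h1 i), sum_add_distrib]
  have h2 : ∑ i, ∑ j ∈ Iio i, φ i j = ∑ i, ∑ j ∈ Ioi i, φ j i := by
    rw [Finset.sum_sigma', Finset.sum_sigma']
    apply sum_nbij' (fun x => ⟨x.2, x.1⟩) (fun x => ⟨x.2, x.1⟩)
    · rintro ⟨i, j⟩ h
      simp only [mem_sigma, mem_univ, mem_Iio, true_and] at h
      simp only [mem_sigma, mem_univ, mem_Ioi, true_and]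
      exact h
    · rintro ⟨i, j⟩ h
      simp only [mem_sigma, mem_univ, mem_Ioi, true_and] at h
      simp only [mem_sigma, mem_univ, mem_Iio, true_and]
      exact h
    · rintro ⟨i, j⟩ _; rfl
    · rintro ⟨i, j⟩ _; rfl
    · rintro ⟨i, j⟩ _; rfl
  have h3 : ∑ i, ∑ j ∈ Ioi i, φ i j = ∑ i, ∑ j ∈ Ioi i, φ j i :=
    sum_congr rfl fun i _ => sum_congr rfl fun j _ => hsym i j
  rw [h2, h3]
  ring

/-- the matrix of monomials of degree `n - 1` at `n` points -/
def PV {n : ℕ} (y : Fin n → K × K) : Matrix (Fin n) (Fin n) K :=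
  Matrix.projVandermonde (fun i => (y i).1) (fun i => (y i).2)

lemma PV_apply {n : ℕ} (y : Fin n → K × K) (i j : Fin n) :
    PV y i j = mon (y i).1 (y i).2 j := by
  simp [PV, Matrix.projVandermonde_apply, mon, Fin.val_rev]

lemma det_PV (v : DV K) {n : ℕ} (y : Fin n → K × K) (hy : ∀ i j, i ≠ j → wedge (y i) (y j) ≠ 0) :
    (PV y).det ≠ 0 ∧ 2 * v.o (PV y).det = ∑ i, ∑ j, W v (y i) (y j) := by
  have hdet : (PV y).det = ∏ i, ∏ j ∈ Ioi i, wedge (y j) (y i) := by
    rw [PV, Matrix.det_projVandermonde]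
    refine prod_congr rfl fun i _ => prod_congr rfl fun j _ => ?_
    simp only [wedge]; ring
  have hne : ∀ i : Fin n, ∀ j ∈ Ioi i, wedge (y j) (y i) ≠ 0 := fun i j hj =>
    hy j i (ne_of_gt (mem_Ioi.1 hj))
  have hne2 : ∀ i ∈ (univ : Finset (Fin n)), ∏ j ∈ Ioi i, wedge (y j) (y i) ≠ 0 :=
    fun i _ => prod_ne_zero_iff.2 (hne i)
  rw [hdet]
  refine ⟨prod_ne_zero_iff.2 hne2, ?_⟩
  rw [v.o_prod _ _ hne2, sum_Ioi (fun i j => W v (y i) (y j)) (fun i j => W_comm v _ _)
    (fun i => W_self v _)]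
  congr 1
  refine sum_congr rfl fun i _ => ?_
  rw [v.o_prod _ _ (hne i)]
  exact sum_congr rfl fun j hj => (W_of_ne (hne i j hj)).symm

section split

variable {D : ℕ}

/-- the left part of the rows -/
noncomputable def Lrow (g : K[X]) (y : Fin (D + D) → K × K) (i j : Fin (D + D)) : K :=
  Fin.addCases (motive := fun _ => K) (fun j₁ => mon (y i).1 (y i).2 j₁ * hom D g (y i).1 (y i).2)
    (fun _ => 0) j

/-- the right part of the rows -/
noncomputable def Rrow (f : K[X]) (y : Fin (D + D) → K × K) (i j : Fin (D + D)) : K :=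
  Fin.addCases (motive := fun _ => K) (fun _ => 0)
    (fun j₁ => mon (y i).1 (y i).2 j₁ * hom D f (y i).1 (y i).2) j

lemma PV_mul_sylvester (f g : K[X]) (y : Fin (D + D) → K × K) :
    PV y * sylvester f g D D = Matrix.of (Lrow g y + Rrow f y) := by
  ext i j
  rw [Matrix.mul_apply]
  have h := vand_row_mul_sylvester f g D D (y i).1 (y i).2 j
  have h2 : ∀ k : Fin (D + D), PV y i k = (y i).1 ^ k.1 * (y i).2 ^ (D + D - (k.1 + 1)) :=
    fun k => PV_apply y i k
  simp only [h2, h]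
  simp only [Matrix.of_apply, Pi.add_apply, Lrow, Rrow]
  refine Fin.addCases (fun j₁ => ?_) (fun j₁ => ?_) j
  · rw [Fin.addCases_left, Fin.addCases_left, Fin.addCases_left, add_zero]
  · rw [Fin.addCases_right, Fin.addCases_right, Fin.addCases_right, zero_add]

/-- the determinant with the rows of `s` on the left -/
noncomputable def Ms (f g : K[X]) (y : Fin (D + D) → K × K) (s : Finset (Fin (D + D))) :
    Matrix (Fin (D + D)) (Fin (D + D)) K := Matrix.of (s.piecewise (Lrow g y) (Rrow f y))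

lemma det_PV_mul_resultant (f g : K[X]) (y : Fin (D + D) → K × K) :
    (PV y).det * resultant f g D D = ∑ s : Finset (Fin (D + D)), (Ms f g y s).det := by
  rw [resultant, ← Matrix.det_mul, PV_mul_sylvester]
  exact (Matrix.detRowAlternating (R := K) (n := Fin (D + D))).toMultilinearMap.map_add_univ
    (Lrow g y) (Rrow f y)

lemma card_of_det_ne_zero {f g : K[X]} {y : Fin (D + D) → K × K} {s : Finset (Fin (D + D))}
    (h : (Ms f g y s).det ≠ 0) : s.card = D := by
  rw [Matrix.det_apply'] at h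
  obtain ⟨σ, -, hσ⟩ := exists_ne_zero_of_sum_ne_zero h
  have hprod := right_ne_zero_of_mul hσ
  rw [prod_ne_zero_iff] at hprod
  have hL : ∀ j : Fin D, σ (Fin.castAdd D j) ∈ s := by
    intro j
    by_contra hn
    apply hprod (Fin.castAdd D j) (mem_univ _)
    simp only [Ms, Matrix.of_apply, piecewise_eq_of_notMem _ _ _ hn, Rrow, Fin.addCases_left]
  have hR : ∀ j : Fin D, σ (Fin.natAdd D j) ∉ s := by
    intro j hn
    apply hprod (Fin.natAdd D j) (mem_univ _)
    simp only [Ms, Matrix.of_apply, piecewise_eq_of_mem _ _ _ hn, Lrow, Fin.addCases_right]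
  have h1 : s = univ.map ((Fin.castAddEmb D).trans σ.toEmbedding) := by
    ext i
    simp only [mem_map, mem_univ, true_and, Function.Embedding.trans_apply, Equiv.coe_toEmbedding]
    constructor
    · intro hi
      obtain ⟨j, rfl⟩ := σ.surjective i
      induction j using Fin.addCases with
      | left j => exact ⟨j, rfl⟩
      | right j => exact absurd hi (hR j)
    · rintro ⟨j, rfl⟩
      exact hL j
  rw [h1, card_map, card_univ, Fintype.card_fin]

lemma sum_orderEmb {α : Type*} [LinearOrder α] {k : ℕ} (s : Finset α) (h : s.card = k)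
    {M : Type*} [AddCommMonoid M] (φ : α → M) :
    ∑ i : Fin k, φ (s.orderEmbOfFin h i) = ∑ i ∈ s, φ i := by
  conv_rhs => rw [← map_orderEmbOfFin_univ s h, sum_map]
  rfl

lemma o_sign (v : DV K) {n : Type*} [Fintype n] [DecidableEq n] (σ : Equiv.Perm n) (x : K) :
    v.o (((Equiv.Perm.sign σ : ℤˣ) : ℤ) * x : K) = v.o x := by
  rcases Int.units_eq_one_or (Equiv.Perm.sign σ) with h1 | h1
  · rw [h1]; simp
  · rw [h1]; simp [v.o_neg]

lemma o_det_Ms (v : DV K) {f g : K[X]} {y : Fin (D + D) → K × K}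
    (hy : ∀ i j, i ≠ j → wedge (y i) (y j) ≠ 0) {s : Finset (Fin (D + D))}
    (h : (Ms f g y s).det ≠ 0) :
    (∀ i ∈ s, hom D g (y i).1 (y i).2 ≠ 0) ∧ (∀ i ∈ sᶜ, hom D f (y i).1 (y i).2 ≠ 0) ∧
    2 * v.o (Ms f g y s).det = 2 * ∑ i ∈ s, v.o (hom D g (y i).1 (y i).2) +
      2 * ∑ i ∈ sᶜ, v.o (hom D f (y i).1 (y i).2) + ∑ i ∈ s, ∑ j ∈ s, W v (y i) (y j) +
      ∑ i ∈ sᶜ, ∑ j ∈ sᶜ, W v (y i) (y j) := by
  have hs : s.card = D := card_of_det_ne_zero h
  have hs' : sᶜ.card = D := by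
    rw [card_compl, Fintype.card_fin, hs]; omega
  set E := finSumEquivOfFinset hs hs' with hE
  set e₁ := s.orderEmbOfFin hs with he₁
  set e₂ := sᶜ.orderEmbOfFin hs' with he₂
  let A : Matrix (Fin D) (Fin D) K :=
    Matrix.of fun i j => hom D g (y (e₁ i)).1 (y (e₁ i)).2 * PV (fun i => y (e₁ i)) i j
  let B : Matrix (Fin D) (Fin D) K :=
    Matrix.of fun i j => hom D f (y (e₂ i)).1 (y (e₂ i)).2 * PV (fun i => y (e₂ i)) i j
  have hblock : (Ms f g y s).reindex E.symm finSumFinEquiv.symm = Matrix.fromBlocks A 0 0 B := by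
    ext i j
    rw [Matrix.reindex_apply, Matrix.submatrix_apply, Equiv.symm_symm, Equiv.symm_symm]
    rcases i with i | i <;> rcases j with j | j
    · have hm : E (Sum.inl i) ∈ s := by
        rw [hE, finSumEquivOfFinset_inl]; exact orderEmbOfFin_mem s hs i
      simp only [Ms, Matrix.of_apply, piecewise_eq_of_mem _ _ _ hm, Lrow, finSumFinEquiv_apply_left,
        Fin.addCases_left, Matrix.fromBlocks_apply₁₁, A, PV_apply]
      rw [hE, finSumEquivOfFinset_inl, mul_comm]
    · have hm : E (Sum.inl i) ∈ s := by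
        rw [hE, finSumEquivOfFinset_inl]; exact orderEmbOfFin_mem s hs i
      simp only [Ms, Matrix.of_apply, piecewise_eq_of_mem _ _ _ hm, Lrow,
        finSumFinEquiv_apply_right, Fin.addCases_right, Matrix.fromBlocks_apply₁₂,
        Matrix.zero_apply]
    · have hm : E (Sum.inr i) ∉ s := by
        rw [hE, finSumEquivOfFinset_inr, ← mem_compl]; exact orderEmbOfFin_mem sᶜ hs' i
      simp only [Ms, Matrix.of_apply, piecewise_eq_of_notMem _ _ _ hm, Rrow,
        finSumFinEquiv_apply_left, Fin.addCases_left, Matrix.fromBlocks_apply₂₁,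
        Matrix.zero_apply]
    · have hm : E (Sum.inr i) ∉ s := by
        rw [hE, finSumEquivOfFinset_inr, ← mem_compl]; exact orderEmbOfFin_mem sᶜ hs' i
      simp only [Ms, Matrix.of_apply, piecewise_eq_of_notMem _ _ _ hm, Rrow,
        finSumFinEquiv_apply_right, Fin.addCases_right, Matrix.fromBlocks_apply₂₂, B, PV_apply]
      rw [hE, finSumEquivOfFinset_inr, mul_comm]
  have hdet := congrArg Matrix.det hblock
  rw [Matrix.det_reindex, Matrix.det_fromBlocks_zero₂₁] at hdet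
  have hA : A.det = (∏ i, hom D g (y (e₁ i)).1 (y (e₁ i)).2) * (PV fun i => y (e₁ i)).det :=
    Matrix.det_mul_column _ _
  have hB : B.det = (∏ i, hom D f (y (e₂ i)).1 (y (e₂ i)).2) * (PV fun i => y (e₂ i)).det :=
    Matrix.det_mul_column _ _
  have ho : v.o (Ms f g y s).det = v.o (A.det * B.det) := by
    rw [← hdet, o_sign]
  have hne : A.det * B.det ≠ 0 := by
    rw [← hdet]
    refine mul_ne_zero ?_ h
    rcases Int.units_eq_one_or (Equiv.Perm.sign (finSumFinEquiv.symm.trans E.symm.symm)) with h1 | h1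
    · rw [h1]; simp
    · rw [h1]; simp
  have hA0 := left_ne_zero_of_mul hne
  have hB0 := right_ne_zero_of_mul hne
  rw [hA] at hA0
  rw [hB] at hB0
  have hAp := left_ne_zero_of_mul hA0
  have hBp := left_ne_zero_of_mul hB0
  have hAp' : ∀ i ∈ (univ : Finset (Fin D)), hom D g (y (e₁ i)).1 (y (e₁ i)).2 ≠ 0 :=
    prod_ne_zero_iff.1 hAp
  have hBp' : ∀ i ∈ (univ : Finset (Fin D)), hom D f (y (e₂ i)).1 (y (e₂ i)).2 ≠ 0 :=
    prod_ne_zero_iff.1 hBp
  obtain ⟨hPA0, hPA⟩ := det_PV v (fun i => y (e₁ i)) fun i j hij => hy _ _ fun h => hij (e₁.injective h)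
  obtain ⟨hPB0, hPB⟩ := det_PV v (fun i => y (e₂ i)) fun i j hij => hy _ _ fun h => hij (e₂.injective h)
  refine ⟨?_, ?_, ?_⟩
  · intro i hi
    rw [← map_orderEmbOfFin_univ s hs, mem_map] at hi
    obtain ⟨j, -, rfl⟩ := hi
    exact hAp' j (mem_univ j)
  · intro i hi
    rw [← map_orderEmbOfFin_univ sᶜ hs', mem_map] at hi
    obtain ⟨j, -, rfl⟩ := hi
    exact hBp' j (mem_univ j)
  · have e1 := sum_orderEmb s hs (fun i => v.o (hom D g (y i).1 (y i).2))
    have e2 := sum_orderEmb sᶜ hs' (fun i => v.o (hom D f (y i).1 (y i).2))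
    have e3 : ∑ i ∈ s, ∑ j ∈ s, W v (y i) (y j) = ∑ i, ∑ j, W v (y (e₁ i)) (y (e₁ j)) := by
      rw [← sum_orderEmb s hs]
      exact sum_congr rfl fun i _ => (sum_orderEmb s hs _).symm
    have e4 : ∑ i ∈ sᶜ, ∑ j ∈ sᶜ, W v (y i) (y j) = ∑ i, ∑ j, W v (y (e₂ i)) (y (e₂ j)) := by
      rw [← sum_orderEmb sᶜ hs']
      exact sum_congr rfl fun i _ => (sum_orderEmb sᶜ hs' _).symm
    rw [ho, hA, hB, v.mul _ _ (mul_ne_zero hAp hPA0) (mul_ne_zero hBp hPB0),
      v.mul _ _ hAp hPA0, v.mul _ _ hBp hPB0, v.o_prod _ _ hAp', v.o_prod _ _ hBp', e3, e4,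
      ← hPA, ← hPB, ← e1, ← e2]
    ring

theorem energy_fin (v : DV K) {f g : K[X]} (hres : resultant f g D D ≠ 0)
    (y : Fin (D + D) → K × K) (hy : ∀ i j, i ≠ j → wedge (y i) (y j) ≠ 0) (μ : Fin (D + D) → ℝ)
    (hf : ∀ i, v.ge (μ i) (hom D f (y i).1 (y i).2))
    (hg : ∀ i, v.ge (μ i) (hom D g (y i).1 (y i).2)) :
    ∃ s : Finset (Fin (D + D)), s.card = D ∧
      ∑ i, μ i ≤ v.o (resultant f g D D) + ∑ i ∈ s, ∑ j ∈ sᶜ, (W v (y i) (y j) : ℝ) := by
  obtain ⟨hP0, hP⟩ := det_PV v y hy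
  have hne : (PV y).det * resultant f g D D ≠ 0 := mul_ne_zero hP0 hres
  rw [det_PV_mul_resultant] at hne
  obtain ⟨s, -, hs0, hs⟩ := exists_le_of_sum v _ _ hne
  rw [← det_PV_mul_resultant, v.mul _ _ hP0 hres] at hs
  obtain ⟨hG, hF, ho⟩ := o_det_Ms v hy hs0
  refine ⟨s, card_of_det_ne_zero hs0, ?_⟩
  have h1 : ∑ i ∈ s, μ i ≤ ∑ i ∈ s, (v.o (hom D g (y i).1 (y i).2) : ℝ) :=
    sum_le_sum fun i hi => DV.ge_le (hg i) (hG i hi)
  have h2 : ∑ i ∈ sᶜ, μ i ≤ ∑ i ∈ sᶜ, (v.o (hom D f (y i).1 (y i).2) : ℝ) :=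
    sum_le_sum fun i hi => DV.ge_le (hf i) (hF i hi)
  have h3 : ∑ i, μ i = ∑ i ∈ s, μ i + ∑ i ∈ sᶜ, μ i := (sum_add_sum_compl s μ).symm
  have h4 : ∑ i, ∑ j, W v (y i) (y j) = ∑ i ∈ s, ∑ j ∈ s, W v (y i) (y j) +
      ∑ i ∈ sᶜ, ∑ j ∈ sᶜ, W v (y i) (y j) + 2 * ∑ i ∈ s, ∑ j ∈ sᶜ, W v (y i) (y j) := by
    have e1 : ∀ i, ∑ j, W v (y i) (y j) = ∑ j ∈ s, W v (y i) (y j) + ∑ j ∈ sᶜ, W v (y i) (y j) :=
      fun i => (sum_add_sum_compl s _).symm
    rw [sum_congr rfl fun i _ => e1 i, sum_add_distrib, ← sum_add_sum_compl s,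
      ← sum_add_sum_compl s (fun i => ∑ j ∈ sᶜ, W v (y i) (y j))]
    have e2 : ∑ i ∈ sᶜ, ∑ j ∈ s, W v (y i) (y j) = ∑ i ∈ s, ∑ j ∈ sᶜ, W v (y i) (y j) := by
      rw [sum_comm]
      exact sum_congr rfl fun i _ => sum_congr rfl fun j _ => W_comm v _ _
    rw [e2]
    ring
  have h5 : ∑ i ∈ s, v.o (hom D g (y i).1 (y i).2) + ∑ i ∈ sᶜ, v.o (hom D f (y i).1 (y i).2) ≤
      v.o (resultant f g D D) + ∑ i ∈ s, ∑ j ∈ sᶜ, W v (y i) (y j) := by
    (clear * - hP hs ho h4; linarith)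
  have h6 : (∑ i ∈ s, (v.o (hom D g (y i).1 (y i).2) : ℝ)) +
      ∑ i ∈ sᶜ, (v.o (hom D f (y i).1 (y i).2) : ℝ) ≤
      v.o (resultant f g D D) + ∑ i ∈ s, ∑ j ∈ sᶜ, (W v (y i) (y j) : ℝ) := by
    exact_mod_cast h5
  linarith

/-- **The energy inequality** for a pair of forms of degree `D` and `2D` vectors. -/
theorem energy (v : DV K) {ι : Type*} [DecidableEq ι] {f g : K[X]} (hres : resultant f g D D ≠ 0)
    (T : Finset ι) (hT : T.card = D + D) (y : ι → K × K)
    (hy : ∀ i ∈ T, ∀ j ∈ T, i ≠ j → wedge (y i) (y j) ≠ 0) (μ : ι → ℝ)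
    (hf : ∀ i ∈ T, v.ge (μ i) (hom D f (y i).1 (y i).2))
    (hg : ∀ i ∈ T, v.ge (μ i) (hom D g (y i).1 (y i).2)) :
    ∃ s ⊆ T, s.card = D ∧
      ∑ i ∈ T, μ i ≤ v.o (resultant f g D D) + ∑ i ∈ s, ∑ j ∈ T \ s, (W v (y i) (y j) : ℝ) := by
  let e : T ≃ Fin (D + D) := T.equivFinOfCardEq hT
  let z : Fin (D + D) → ι := fun i => (e.symm i : ι)
  have hz : ∀ i, z i ∈ T := fun i => (e.symm i).2
  have hinj : Function.Injective z := fun i j h => e.symm.injective (Subtype.ext h)
  have hsurj : ∀ i ∈ T, ∃ k, z k = i := fun i hi => ⟨e ⟨i, hi⟩, by simp [z]⟩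
  obtain ⟨s, hs, h⟩ := energy_fin v hres (fun i => y (z i))
    (fun i j hij => hy _ (hz i) _ (hz j) fun h => hij (hinj h)) (fun i => μ (z i))
    (fun i => hf _ (hz i)) (fun i => hg _ (hz i))
  have hTz : T = univ.map ⟨z, hinj⟩ := by
    ext i
    simp only [mem_map, mem_univ, true_and, Function.Embedding.coeFn_mk]
    exact ⟨hsurj i, by rintro ⟨k, rfl⟩; exact hz k⟩
  have hc : T \ s.map ⟨z, hinj⟩ = sᶜ.map ⟨z, hinj⟩ := by
    rw [hTz, ← Finset.map_sdiff]
    congr 1
  refine ⟨s.map ⟨z, hinj⟩, ?_, by rw [card_map, hs], ?_⟩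
  · intro i hi
    obtain ⟨k, -, rfl⟩ := mem_map.1 hi
    exact hz k
  · rw [hc, sum_map]
    simp only [sum_map, Function.Embedding.coeFn_mk]
    rw [hTz, sum_map]
    exact h

end split

section cramer

/-- **Lagrange interpolation**, Cramer form. -/
theorem cramer (v : DV K) {ι : Type*} [DecidableEq ι] {n : ℕ} {f : K[X]} (hfn : f.natDegree ≤ n)
    (T : Finset ι)
    (hT : T.card = n + 1) (y : ι → K × K) (hy1 : ∀ i ∈ T, v.ge 0 (y i).1)
    (hy2 : ∀ i ∈ T, v.ge 0 (y i).2) (β c : ℝ) 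
    (hy : ∀ i ∈ T, ∀ j ∈ T, i ≠ j → wedge (y i) (y j) ≠ 0 ∧ (v.o (wedge (y i) (y j)) : ℝ) ≤ β)
    (hf : ∀ i ∈ T, v.ge c (hom n f (y i).1 (y i).2)) (k : ℕ) :
    v.ge (c - (n + 1) * n / 2 * β) (f.coeff k) := by
  let e : T ≃ Fin (n + 1) := T.equivFinOfCardEq hT
  let z : Fin (n + 1) → ι := fun i => (e.symm i : ι)
  have hz : ∀ i, z i ∈ T := fun i => (e.symm i).2
  have hinj : Function.Injective z := fun i j h => e.symm.injective (Subtype.ext h)
  have hne : ∀ i j, i ≠ j → z i ≠ z j := fun i j hij h => hij (hinj h)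
  obtain ⟨hP0, hP⟩ := det_PV v (fun i => y (z i))
    (fun i j hij => (hy _ (hz i) _ (hz j) (hne i j hij)).1)
  set M := PV (fun i => y (z i)) with hM
  have hint : ∀ i j, v.ge 0 (M i j) := by
    intro i j
    rw [hM, PV_apply, mon]
    have h1 := DV.ge_mul (DV.ge_pow (hy1 _ (hz i)) j.1) (DV.ge_pow (hy2 _ (hz i)) (n + 1 - (j.1 + 1)))
    simpa using h1
  have hbound : (v.o M.det : ℝ) ≤ (n + 1) * n / 2 * β := by
    have h1 : ∑ i : Fin (n + 1), ∑ j : Fin (n + 1), (W v (y (z i)) (y (z j)) : ℝ) ≤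
        ∑ i : Fin (n + 1), ∑ j : Fin (n + 1), if i = j then 0 else β := by
      refine sum_le_sum fun i _ => sum_le_sum fun j _ => ?_
      split_ifs with h
      · rw [h, W_self]; simp
      · have := hy _ (hz i) _ (hz j) (hne i j h)
        rw [W_of_ne this.1]
        exact this.2
    have h2 : ∑ i : Fin (n + 1), ∑ j : Fin (n + 1), (if i = j then 0 else β) = (n + 1) * n * β := by
      have h3 : ∀ i : Fin (n + 1), ∑ j : Fin (n + 1), (if i = j then 0 else β) = n * β := by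
        intro i
        rw [← add_sum_erase univ _ (mem_univ i), if_pos rfl, zero_add]
        rw [sum_congr rfl (g := fun _ => β)]
        · simp [card_erase_of_mem]
        · intro j hj
          rw [if_neg (ne_of_mem_erase hj).symm]
      rw [sum_congr rfl fun i _ => h3 i]
      simp
      ring
    have h3 : (2 * v.o M.det : ℝ) = ∑ i : Fin (n + 1), ∑ j : Fin (n + 1), (W v (y (z i)) (y (z j)) : ℝ) := by
      exact_mod_cast hP
    linarith
  have hmul : M.mulVec (fun k : Fin (n + 1) => f.coeff k) =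
      fun i => hom n f (y (z i)).1 (y (z i)).2 := by
    funext i
    simp only [Matrix.mulVec, dotProduct, hM, PV_apply, mon, hom]
    rw [Finset.Nat.sum_antidiagonal_eq_sum_range_succ_mk,
      Fin.sum_univ_eq_sum_range (fun k => (y (z i)).1 ^ k * (y (z i)).2 ^ (n + 1 - (k + 1)) *
        f.coeff k) (n + 1)]
    refine sum_congr rfl fun k _ => ?_
    simp only [Nat.add_sub_add_right, Algebra.algebraMap_self, RingHom.id_apply]
    ring
  by_cases hk : n < k
  · rw [coeff_eq_zero_of_natDegree_lt (lt_of_le_of_lt hfn hk)]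
    exact DV.ge_zero _
  have h1 : v.ge c (M.det * f.coeff k) := by
    have h2 : M.adjugate.mulVec (fun i => hom n f (y (z i)).1 (y (z i)).2) =
        M.det • (fun k : Fin (n + 1) => f.coeff k) := by
      rw [← hmul, Matrix.mulVec_mulVec, Matrix.adjugate_mul, Matrix.smul_mulVec, Matrix.one_mulVec]
    have h3 := congrFun h2 ⟨k, by omega⟩
    simp only [Pi.smul_apply, smul_eq_mul] at h3
    rw [← h3, Matrix.mulVec, dotProduct]
    refine DV.ge_sum _ _ fun i _ => ?_
    have := DV.ge_mul (ge_adjugate M hint ⟨k, by omega⟩ i) (hf _ (hz i))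
    rwa [zero_add] at this
  by_cases h0 : f.coeff k = 0
  · exact Or.inl h0
  right
  have h4 := DV.ge_le h1 (mul_ne_zero hP0 h0)
  rw [v.mul _ _ hP0 h0] at h4
  push_cast at h4
  (clear * - hbound h4; linarith)

end cramer

end Pool.Agent.Helper55.RD

end

section

set_option autoImplicit false

open Polynomial Finset Pool.Agent.Helper33

namespace Pool.Agent.Helper55.RD

variable {K : Type*} [Field K] {v : DV K}

/-- integral form -/
def IntP (v : DV K) (f : K[X]) : Prop := ∀ k, v.ge 0 (f.coeff k)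

/-- primitive vector -/
def Prim (v : DV K) (x : K × K) : Prop :=
  v.ge 0 x.1 ∧ v.ge 0 x.2 ∧ ((x.1 ≠ 0 ∧ v.o x.1 = 0) ∨ (x.2 ≠ 0 ∧ v.o x.2 = 0))

lemma ge_hom_zero {n : ℕ} {f : K[X]} (hf : IntP v f) {a b : K} (ha : v.ge 0 a) (hb : v.ge 0 b) :
    v.ge 0 (hom n f a b) := by
  refine DV.ge_sum _ _ fun kl _ => ?_
  have h1 := DV.ge_mul (DV.ge_mul (hf kl.1) (DV.ge_pow ha kl.1)) (DV.ge_pow hb kl.2)
  simpa using h1

lemma ge_sylvester {f g : K[X]} {m n : ℕ} {a b : ℝ} (hf : ∀ k, v.ge a (f.coeff k))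
    (hg : ∀ k, v.ge b (g.coeff k)) (i j : Fin (m + n)) :
    v.ge (Fin.addCases (motive := fun _ => ℝ) (fun _ => b) (fun _ => a) j) (sylvester f g m n i j) := by
  refine Fin.addCases (fun j₁ => ?_) (fun j₁ => ?_) j
  · simp only [sylvester, Matrix.of_apply, Fin.addCases_left]
    split_ifs
    · exact hg _
    · exact DV.ge_zero _
  · simp only [sylvester, Matrix.of_apply, Fin.addCases_right]
    split_ifs
    · exact hf _
    · exact DV.ge_zero _

lemma ge_resultant {f g : K[X]} {m n : ℕ} {a b : ℝ} (hf : ∀ k, v.ge a (f.coeff k))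
    (hg : ∀ k, v.ge b (g.coeff k)) : v.ge (m * b + n * a) (resultant f g m n) := by
  have h := ge_det (sylvester f g m n) _ (fun i j => ge_sylvester hf hg i j)
  rw [Fin.sum_univ_add] at h
  simpa [resultant] using h

/-- upper bound of the value at a primitive vector -/
theorem le_resultant {f g : K[X]} {d : ℕ} (hd : 1 ≤ d) (hres : resultant f g d d ≠ 0) (hf : IntP v f)
    (hg : IntP v g) {x : K × K} (hx : Prim v x) {c : ℝ} (h1 : v.ge c (hom d f x.1 x.2))
    (h2 : v.ge c (hom d g x.1 x.2)) : c ≤ v.o (resultant f g d d) := by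
  set M := sylvester f g d d with hM
  have hint : ∀ i j, v.ge 0 (M i j) := by
    intro i j
    have := ge_sylvester (m := d) (n := d) hf hg i j
    refine Fin.addCases (fun j₁ => ?_) (fun j₁ => ?_) j
    · have := ge_sylvester (m := d) (n := d) hf hg i (Fin.castAdd d j₁)
      rwa [Fin.addCases_left] at this
    · have := ge_sylvester (m := d) (n := d) hf hg i (Fin.natAdd d j₁)
      rwa [Fin.addCases_right] at this
  let m : Fin (d + d) → K := fun k => x.1 ^ k.1 * x.2 ^ (d + d - (k.1 + 1))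
  have hrow : ∀ j, v.ge c (Matrix.vecMul m M j) := by
    intro j
    have h3 : Matrix.vecMul m M j = Fin.addCases (motive := fun _ => K)
        (fun j₁ => mon x.1 x.2 j₁ * hom d g x.1 x.2)
        (fun j₁ => mon x.1 x.2 j₁ * hom d f x.1 x.2) j := by
      rw [← vand_row_mul_sylvester f g d d x.1 x.2 j]
      rfl
    rw [h3]
    have hmon : ∀ j₁ : Fin d, v.ge 0 (mon x.1 x.2 j₁) := by
      intro j₁
      have := DV.ge_mul (DV.ge_pow hx.1 j₁.1) (DV.ge_pow hx.2.1 (d - (j₁.1 + 1)))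
      simpa [mon] using this
    refine Fin.addCases (fun j₁ => ?_) (fun j₁ => ?_) j
    · rw [Fin.addCases_left]
      have := DV.ge_mul (hmon j₁) h2
      rwa [zero_add] at this
    · rw [Fin.addCases_right]
      have := DV.ge_mul (hmon j₁) h1
      rwa [zero_add] at this
  have hmul : ∀ j, v.ge c (m j * resultant f g d d) := by
    intro j
    have h3 : Matrix.vecMul (Matrix.vecMul m M) M.adjugate = M.det • m := by
      rw [Matrix.vecMul_vecMul, Matrix.mul_adjugate, Matrix.vecMul_smul, Matrix.vecMul_one]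
    have h4 := congrFun h3 j
    simp only [Pi.smul_apply, smul_eq_mul] at h4
    rw [mul_comm, resultant, ← hM, ← h4, Matrix.vecMul, dotProduct]
    refine DV.ge_sum _ _ fun i _ => ?_
    have := DV.ge_mul (hrow i) (ge_adjugate M hint i j)
    rwa [add_zero] at this
  rcases hx.2.2 with ⟨hx0, hx1⟩ | ⟨hx0, hx1⟩
  · have h3 := hmul ⟨d + d - 1, by omega⟩
    have h4 : m ⟨d + d - 1, by omega⟩ = x.1 ^ (d + d - 1) := by
      simp only [m]
      rw [show d + d - (d + d - 1 + 1) = 0 by omega, pow_zero, mul_one]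
    rw [h4] at h3
    have h5 := DV.ge_le h3 (mul_ne_zero (pow_ne_zero _ hx0) hres)
    rw [v.mul _ _ (pow_ne_zero _ hx0) hres, v.o_pow _ hx0, hx1] at h5
    simpa using h5
  · have h3 := hmul ⟨0, by omega⟩
    have h4 : m ⟨0, by omega⟩ = x.2 ^ (d + d - 1) := by
      simp only [m]
      rw [pow_zero, one_mul]
    rw [h4] at h3
    have h5 := DV.ge_le h3 (mul_ne_zero (pow_ne_zero _ hx0) hres)
    rw [v.mul _ _ (pow_ne_zero _ hx0) hres, v.o_pow _ hx0, hx1] at h5
    simpa using h5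

/-- the form `x ↦ Φ(x) ∧ w` -/
noncomputable def wform (f g : K[X]) (w : K × K) : K[X] := C w.2 * f - C w.1 * g

lemma natDegree_wform {f g : K[X]} {d : ℕ} (hf : f.natDegree ≤ d) (hg : g.natDegree ≤ d)
    (w : K × K) : (wform f g w).natDegree ≤ d :=
  (natDegree_sub_le_of_le ((natDegree_C_mul_le _ _).trans hf)
    ((natDegree_C_mul_le _ _).trans hg)).trans (max_self d).le

lemma hom_wform (d : ℕ) (f g : K[X]) (w x : K × K) :
    hom d (wform f g w) x.1 x.2 = wedge (hom d f x.1 x.2, hom d g x.1 x.2) w := by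
  rw [wform, hom_sub, hom_C_mul, hom_C_mul, wedge]
  simp
  ring

/-- bound of the content of `x ↦ Φ(x) ∧ w` -/
theorem content_wform {f g : K[X]} {d : ℕ} (hfd : f.natDegree ≤ d) (hgd : g.natDegree ≤ d)
    (hres : resultant f g d d ≠ 0) (hf : IntP v f)
    (hg : IntP v g) {w : K × K} (hw : Prim v w) {κ : ℝ} (h : ∀ k, v.ge κ ((wform f g w).coeff k)) :
    d * κ ≤ v.o (resultant f g d d) := by
  rcases hw.2.2 with ⟨hw0, hw1⟩ | ⟨hw0, hw1⟩
  · have h1 := resultant_gl2 hfd hgd w.2 (-w.1) 1 0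
    have h2 : C w.2 * f + C (-w.1) * g = wform f g w := by
      rw [wform, C_neg]; ring
    have h3 : C (1 : K) * f + C 0 * g = f := by simp
    rw [h2, h3] at h1
    have h4 : w.2 * 0 - -w.1 * 1 = w.1 := by ring
    rw [h4] at h1
    have h5 := ge_resultant (m := d) (n := d) h hf
    rw [h1] at h5
    have h6 := DV.ge_le h5 (mul_ne_zero (pow_ne_zero _ hw0) hres)
    rw [v.mul _ _ (pow_ne_zero _ hw0) hres, v.o_pow _ hw0, hw1] at h6
    simpa using h6
  · have h1 := resultant_gl2 hfd hgd w.2 (-w.1) 0 1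
    have h2 : C w.2 * f + C (-w.1) * g = wform f g w := by
      rw [wform, C_neg]; ring
    have h3 : C (0 : K) * f + C 1 * g = g := by simp
    rw [h2, h3] at h1
    have h4 : w.2 * 1 - -w.1 * 0 = w.2 := by ring
    rw [h4] at h1
    have h5 := ge_resultant (m := d) (n := d) h hg
    rw [h1] at h5
    have h6 := DV.ge_le h5 (mul_ne_zero (pow_ne_zero _ hw0) hres)
    rw [v.mul _ _ (pow_ne_zero _ hw0) hres, v.o_pow _ hw0, hw1] at h6
    simpa using h6

end Pool.Agent.Helper55.RD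

end

section

set_option autoImplicit false

open Polynomial Finset Pool.Agent.Helper33

namespace Pool.Agent.Helper55.RD

variable {K : Type*} [Field K]

/-- A family of (pre)periodic points of the pair of forms `(F, G)` of degree `d`, with the local
height `H`. -/
structure Sys (v : DV K) (d : ℕ) (ι : Type*) where
  F : K[X]
  G : K[X]
  hF : F.natDegree ≤ d
  hG : G.natDegree ≤ d
  hR : resultant F G d d ≠ 0
  x : ι → K × K
  hx : ∀ i j, i ≠ j → wedge (x i) (x j) ≠ 0
  hx0 : ∀ i, x i ≠ 0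
  φ : ι → ι
  c : ι → K
  hc : ∀ i, c i ≠ 0
  hΦF : ∀ i, hom d F (x i).1 (x i).2 = c i * (x (φ i)).1
  hΦG : ∀ i, hom d G (x i).1 (x i).2 = c i * (x (φ i)).2
  H : ι → ℝ
  hH : ∀ i, d * H i = v.o (c i) + H (φ i)

namespace Sys

variable {v : DV K} {d : ℕ} {ι : Type*} (S : Sys v d ι)

/-- normalised valuation of the resultant -/
noncomputable def r : ℝ := v.o (resultant S.F S.G d d) / (d * (d - 1))

/-- the local Arakelov-Green function -/
noncomputable def g (i j : ι) : ℝ := W v (S.x i) (S.x j) - S.H i - S.H j + S.r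

lemma g_comm (i j : ι) : S.g i j = S.g j i := by
  unfold g; rw [W_comm]; ring

lemma W_eq (i j : ι) : (W v (S.x i) (S.x j) : ℝ) = S.g i j + S.H i + S.H j - S.r := by
  unfold g; ring

lemma o_res (hd : 2 ≤ d) : (v.o (resultant S.F S.G d d) : ℝ) = d * (d - 1) * S.r := by
  have h1 : (d : ℝ) ≠ 0 := by (clear * - hd; positivity)
  have h2 : (d : ℝ) - 1 ≠ 0 := by
    have : (2 : ℝ) ≤ d := by exact_mod_cast hd
    (clear * - this; linarith)
  rw [r]
  field_simp

/-- integral forms, primitive vectors -/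
structure Good : Prop where
  intF : IntP v S.F
  intG : IntP v S.G
  prim : ∀ i, Prim v (S.x i)

variable {S}

lemma ge_of_prim {x : K × K} (hx : Prim v x) {c : K} {a : ℝ} (h1 : v.ge a (c * x.1))
    (h2 : v.ge a (c * x.2)) : v.ge a c := by
  by_cases hc : c = 0
  · exact Or.inl hc
  right
  rcases hx.2.2 with ⟨h3, h4⟩ | ⟨h3, h4⟩
  · have := DV.ge_le h1 (mul_ne_zero hc h3)
    rw [v.mul _ _ hc h3, h4, add_zero] at this
    exact this
  · have := DV.ge_le h2 (mul_ne_zero hc h3)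
    rw [v.mul _ _ hc h3, h4, add_zero] at this
    exact this

lemma ge_mul_of_ge {c x : K} (hx : v.ge 0 x) : v.ge (v.o c) (c * x) := by
  have := DV.ge_mul (DV.ge_self (v := v) c) hx
  rwa [add_zero] at this

lemma Good.c_nonneg (h : S.Good) (i : ι) : (0 : ℝ) ≤ v.o (S.c i) := by
  refine DV.ge_le (ge_of_prim (h.prim (S.φ i)) ?_ ?_) (S.hc i)
  · rw [← S.hΦF]; exact ge_hom_zero h.intF (h.prim i).1 (h.prim i).2.1
  · rw [← S.hΦG]; exact ge_hom_zero h.intG (h.prim i).1 (h.prim i).2.1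

lemma Good.c_le (h : S.Good) (hd : 2 ≤ d) (i : ι) : (v.o (S.c i) : ℝ) ≤ d * (d - 1) * S.r := by
  rw [← S.o_res hd]
  refine le_resultant (by omega) S.hR h.intF h.intG (h.prim i) ?_ ?_
  · rw [S.hΦF]; exact ge_mul_of_ge (h.prim _).1
  · rw [S.hΦG]; exact ge_mul_of_ge (h.prim _).2.1

lemma Good.H_le [Finite ι] (h : S.Good) (hd : 2 ≤ d) (i : ι) : S.H i ≤ d * S.r := by
  have hne : Nonempty ι := ⟨i⟩
  obtain ⟨i₀, hi₀⟩ := Finite.exists_max S.H
  have h1 := S.hH i₀
  have h2 := h.c_le hd i₀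
  have h3 := hi₀ (S.φ i₀)
  have h4 : (2 : ℝ) ≤ d := by exact_mod_cast hd
  have h5 : S.H i₀ ≤ d * S.r := by nlinarith
  exact (hi₀ i).trans h5

section iter

variable (S)

/-- the iterates -/
noncomputable def it : ℕ → K[X] × K[X]
  | 0 => (X, 1)
  | k + 1 => (hom d S.F (it k).1 (it k).2, hom d S.G (it k).1 (it k).2)

lemma natDegree_it (k : ℕ) : (S.it k).1.natDegree ≤ d ^ k ∧ (S.it k).2.natDegree ≤ d ^ k := by
  induction k with
  | zero => simp [it]
  | succ k ih =>
    rw [pow_succ']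
    exact ⟨natDegree_hom_le _ ih.1 ih.2, natDegree_hom_le _ ih.1 ih.2⟩

lemma res_it (hd : 2 ≤ d) (k : ℕ) : resultant (S.it k).1 (S.it k).2 (d ^ k) (d ^ k) ≠ 0 ∧
    (v.o (resultant (S.it k).1 (S.it k).2 (d ^ k) (d ^ k)) : ℝ) = d ^ k * (d ^ k - 1) * S.r := by
  induction k with
  | zero =>
    have h : resultant (X : K[X]) 1 1 1 = 1 := by
      rw [resultant_one_one natDegree_X_le (by simp)]
      simp
    simp only [it, pow_zero, h]
    simp [v.o_one]
  | succ k ih =>
    have h1 := resultant_hom S.hF S.hG (S.natDegree_it k).1 (S.natDegree_it k).2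
    have e1 : (S.it (k + 1)).1 = hom d S.F (S.it k).1 (S.it k).2 := rfl
    have e2 : (S.it (k + 1)).2 = hom d S.G (S.it k).1 (S.it k).2 := rfl
    rw [e1, e2, pow_succ', h1]
    refine ⟨mul_ne_zero (pow_ne_zero _ S.hR) (pow_ne_zero _ ih.1), ?_⟩
    rw [v.mul _ _ (pow_ne_zero _ S.hR) (pow_ne_zero _ ih.1), v.o_pow _ S.hR, v.o_pow _ ih.1]
    push_cast
    rw [ih.2, S.o_res hd]
    ring

lemma hom_it (k : ℕ) (i : ι) : ∃ C : K, C ≠ 0 ∧
    hom (d ^ k) (S.it k).1 (S.x i).1 (S.x i).2 = C * (S.x (S.φ^[k] i)).1 ∧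
    hom (d ^ k) (S.it k).2 (S.x i).1 (S.x i).2 = C * (S.x (S.φ^[k] i)).2 ∧
    (v.o C : ℝ) = d ^ k * S.H i - S.H (S.φ^[k] i) := by
  induction k with
  | zero =>
    refine ⟨1, one_ne_zero, ?_, ?_, ?_⟩
    · simp [it, hom_one_deg]
    · simp [it, hom_one_deg, coeff_one]
    · simp [v.o_one]
  | succ k ih =>
    obtain ⟨C, hC, h1, h2, h3⟩ := ih
    refine ⟨C ^ d * S.c (S.φ^[k] i), mul_ne_zero (pow_ne_zero _ hC) (S.hc _), ?_, ?_, ?_⟩
    · rw [pow_succ']
      have e1 : (S.it (k + 1)).1 = hom d S.F (S.it k).1 (S.it k).2 := rfl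
      rw [e1, hom_hom _ (S.natDegree_it k).1 (S.natDegree_it k).2, h1, h2, hom_smul_smul, S.hΦF,
        Function.iterate_succ_apply']
      ring
    · rw [pow_succ']
      have e1 : (S.it (k + 1)).2 = hom d S.G (S.it k).1 (S.it k).2 := rfl
      rw [e1, hom_hom _ (S.natDegree_it k).1 (S.natDegree_it k).2, h1, h2, hom_smul_smul, S.hΦG,
        Function.iterate_succ_apply']
      ring
    · rw [v.mul _ _ (pow_ne_zero _ hC) (S.hc _), v.o_pow _ hC]
      have h4 := S.hH (S.φ^[k] i)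
      push_cast
      rw [h3, Function.iterate_succ_apply']
      rw [pow_succ]
      (clear * - h4; linarith)

variable {S}

/-- the energy inequality for preperiodic points -/
theorem Good.energy [Finite ι] [DecidableEq ι] (h : S.Good) (hd : 2 ≤ d) (k : ℕ) (T : Finset ι)
    (hT : T.card = d ^ k + d ^ k) :
    ∃ s ⊆ T, s.card = d ^ k ∧
      -((2 * d - 1) * d ^ k * S.r) ≤ ∑ i ∈ s, ∑ j ∈ T \ s, S.g i j := by
  choose C hC0 hC1 hC2 hC3 using S.hom_it k
  obtain ⟨s, hs, hsc, hs2⟩ := RD.energy v (S.res_it hd k).1 T hT S.x (fun i _ j _ hij => S.hx i j hij)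
    (fun i => v.o (C i))
    (fun i _ => by rw [hC1]; exact ge_mul_of_ge (h.prim _).1)
    (fun i _ => by rw [hC2]; exact ge_mul_of_ge (h.prim _).2.1)
  refine ⟨s, hs, hsc, ?_⟩
  rw [(S.res_it hd k).2] at hs2
  have hcard : (T \ s).card = d ^ k := by
    rw [card_sdiff_of_subset hs, hT, hsc]; omega
  have e1 : ∑ i ∈ s, ∑ j ∈ T \ s, (W v (S.x i) (S.x j) : ℝ) =
      ∑ i ∈ s, ∑ j ∈ T \ s, S.g i j + d ^ k * ∑ i ∈ T, S.H i - d ^ k * d ^ k * S.r := by
    have e2 : ∀ i, ∑ j ∈ T \ s, (W v (S.x i) (S.x j) : ℝ) =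
        ∑ j ∈ T \ s, S.g i j + d ^ k * S.H i + ∑ j ∈ T \ s, S.H j - d ^ k * S.r := by
      intro i
      rw [sum_congr rfl fun j _ => S.W_eq i j]
      rw [sum_sub_distrib, sum_add_distrib, sum_add_distrib, sum_const, sum_const, hcard]
      simp only [nsmul_eq_mul, Nat.cast_pow]
    rw [sum_congr rfl fun i _ => e2 i]
    rw [sum_sub_distrib, sum_add_distrib, sum_add_distrib, sum_const, sum_const, hsc, ← mul_sum,
      ← sum_sdiff hs]
    simp only [nsmul_eq_mul, Nat.cast_pow]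
    ring
  have e3 : ∑ i ∈ T, (v.o (C i) : ℝ) = d ^ k * ∑ i ∈ T, S.H i - ∑ i ∈ T, S.H (S.φ^[k] i) := by
    rw [sum_congr rfl fun i _ => hC3 i, sum_sub_distrib, mul_sum]
  have e4 : ∑ i ∈ T, S.H (S.φ^[k] i) ≤ (d ^ k + d ^ k) * (d * S.r) := by
    have := sum_le_sum (s := T) fun i _ => h.H_le hd (S.φ^[k] i)
    refine this.trans (le_of_eq ?_)
    rw [sum_const, hT]
    simp
  rw [e1, e3] at hs2
  (clear * - hs2 e4; nlinarith)

end iter

end Sys

end Pool.Agent.Helper55.RD

end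

section

set_option autoImplicit false

open Polynomial Finset Pool.Agent.Helper33

namespace Pool.Agent.Helper55.RD

variable {K : Type*} [Field K]

/-- a two by two matrix -/
structure M2 (K : Type*) where
  a : K
  b : K
  c : K
  e : K

namespace M2

/-- determinant -/
def det (N : M2 K) : K := N.a * N.e - N.b * N.c

/-- the action on vectors -/
def app (N : M2 K) (x : K × K) : K × K := (N.a * x.1 + N.b * x.2, N.c * x.1 + N.e * x.2)

/-- the adjugate on vectors -/
def adj (N : M2 K) (x : K × K) : K × K := (N.e * x.1 - N.b * x.2, N.a * x.2 - N.c * x.1)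

lemma app_adj (N : M2 K) (x : K × K) : N.app (N.adj x) = (N.det * x.1, N.det * x.2) := by
  simp only [app, adj, det]
  refine Prod.ext ?_ ?_ <;> ring

lemma adj_app (N : M2 K) (x : K × K) : N.adj (N.app x) = (N.det * x.1, N.det * x.2) := by
  simp only [app, adj, det]
  refine Prod.ext ?_ ?_ <;> ring

lemma wedge_app (N : M2 K) (x y : K × K) : wedge (N.app x) (N.app y) = N.det * wedge x y := by
  simp only [app, wedge, det]; ring

end M2

/-- substitution in a form -/
noncomputable def pb (d : ℕ) (N : M2 K) (F : K[X]) : K[X] :=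
  hom d F (C N.a * X + C N.b) (C N.c * X + C N.e)

/-- first component of the conjugate -/
noncomputable def trF (d : ℕ) (N : M2 K) (κ : K) (F G : K[X]) : K[X] :=
  C (κ * N.e) * pb d N F + C (-(κ * N.b)) * pb d N G

/-- second component of the conjugate -/
noncomputable def trG (d : ℕ) (N : M2 K) (κ : K) (F G : K[X]) : K[X] :=
  C (-(κ * N.c)) * pb d N F + C (κ * N.a) * pb d N G

lemma natDegree_lin (a b : K) : (C a * X + C b).natDegree ≤ 1 := natDegree_linear_le

lemma natDegree_pb {d : ℕ} (N : M2 K) {F : K[X]} : (pb d N F).natDegree ≤ d := by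
  have := natDegree_hom_le (n := d) F (natDegree_lin N.a N.b) (natDegree_lin N.c N.e)
  rwa [mul_one] at this

lemma hom_pb {d : ℕ} (N : M2 K) (F : K[X]) (x : K × K) :
    hom d (pb d N F) x.1 x.2 = hom d F (N.app x).1 (N.app x).2 := by
  have := hom_hom (n := d) F (natDegree_lin N.a N.b) (natDegree_lin N.c N.e) x.1 x.2
  rw [mul_one] at this
  rw [pb, this, hom_one_deg, hom_one_deg]
  simp [M2.app]

lemma natDegree_trF {d : ℕ} (N : M2 K) (κ : K) {F G : K[X]} : (trF d N κ F G).natDegree ≤ d :=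
  (natDegree_add_le_of_le ((natDegree_C_mul_le _ _).trans (natDegree_pb N))
    ((natDegree_C_mul_le _ _).trans (natDegree_pb N))).trans (max_self d).le

lemma natDegree_trG {d : ℕ} (N : M2 K) (κ : K) {F G : K[X]} : (trG d N κ F G).natDegree ≤ d :=
  (natDegree_add_le_of_le ((natDegree_C_mul_le _ _).trans (natDegree_pb N))
    ((natDegree_C_mul_le _ _).trans (natDegree_pb N))).trans (max_self d).le

lemma resultant_tr {d : ℕ} (N : M2 K) (κ : K) {F G : K[X]} (hF : F.natDegree ≤ d)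
    (hG : G.natDegree ≤ d) :
    resultant (trF d N κ F G) (trG d N κ F G) d d =
      (κ ^ 2 * N.det) ^ d * (N.det ^ (d * d) * resultant F G d d) := by
  rw [trF, trG, resultant_gl2 (natDegree_pb N) (natDegree_pb N)]
  have h := resultant_hom hF hG (natDegree_lin N.a N.b) (natDegree_lin N.c N.e)
  rw [mul_one, resultant_one_one (natDegree_lin N.a N.b) (natDegree_lin N.c N.e), pow_one] at h
  simp only [coeff_add, coeff_C_mul, coeff_X_one, coeff_C_zero, coeff_X_zero, mul_one, mul_zero,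
    zero_add] at h
  rw [coeff_C_of_ne_zero one_ne_zero, coeff_C_of_ne_zero one_ne_zero, add_zero, add_zero] at h
  rw [pb, pb, h, M2.det]
  ring

lemma hom_trF {d : ℕ} (N : M2 K) (κ : K) (F G : K[X]) (x : K × K) :
    hom d (trF d N κ F G) x.1 x.2 = κ * (N.e * hom d F (N.app x).1 (N.app x).2 -
      N.b * hom d G (N.app x).1 (N.app x).2) := by
  rw [trF, hom_add, hom_C_mul, hom_C_mul, hom_pb, hom_pb]
  simp
  ring

lemma hom_trG {d : ℕ} (N : M2 K) (κ : K) (F G : K[X]) (x : K × K) :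
    hom d (trG d N κ F G) x.1 x.2 = κ * (N.a * hom d G (N.app x).1 (N.app x).2 -
      N.c * hom d F (N.app x).1 (N.app x).2) := by
  rw [trG, hom_add, hom_C_mul, hom_C_mul, hom_pb, hom_pb]
  simp
  ring

lemma exists_prim (v : DV K) {y : K × K} (hy : y ≠ 0) : ∃ μ : K, μ ≠ 0 ∧
    Prim v (μ * y.1, μ * y.2) := by
  have key : ∀ a b : K, a ≠ 0 → (b = 0 ∨ v.o a ≤ v.o b) →
      a⁻¹ ≠ 0 ∧ v.ge 0 (a⁻¹ * b) ∧ v.ge 0 (a⁻¹ * a) ∧ a⁻¹ * a ≠ 0 ∧ v.o (a⁻¹ * a) = 0 := by
    intro a b ha hb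
    refine ⟨inv_ne_zero ha, ?_, ?_, ?_, ?_⟩
    · rcases hb with hb | hb
      · left; rw [hb, mul_zero]
      · by_cases hb0 : b = 0
        · left; rw [hb0, mul_zero]
        right
        rw [v.mul _ _ (inv_ne_zero ha) hb0, v.o_inv _ ha]
        push_cast
        have : (v.o a : ℝ) ≤ v.o b := by exact_mod_cast hb
        linarith
    · rw [inv_mul_cancel₀ ha]; exact DV.ge_one
    · rw [inv_mul_cancel₀ ha]; exact one_ne_zero
    · rw [inv_mul_cancel₀ ha]; exact v.o_one
  by_cases h1 : y.1 = 0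
  · have h2 : y.2 ≠ 0 := fun h => hy (Prod.ext h1 h)
    obtain ⟨k1, k2, k3, k4, k5⟩ := key y.2 y.1 h2 (Or.inl h1)
    exact ⟨y.2⁻¹, k1, k2, k3, Or.inr ⟨k4, k5⟩⟩
  by_cases h2 : y.2 = 0
  · obtain ⟨k1, k2, k3, k4, k5⟩ := key y.1 y.2 h1 (Or.inl h2)
    exact ⟨y.1⁻¹, k1, k3, k2, Or.inl ⟨k4, k5⟩⟩
  rcases le_total (v.o y.1) (v.o y.2) with h | h
  · obtain ⟨k1, k2, k3, k4, k5⟩ := key y.1 y.2 h1 (Or.inr h)
    exact ⟨y.1⁻¹, k1, k3, k2, Or.inl ⟨k4, k5⟩⟩
  · obtain ⟨k1, k2, k3, k4, k5⟩ := key y.2 y.1 h2 (Or.inr h)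
    exact ⟨y.2⁻¹, k1, k2, k3, Or.inr ⟨k4, k5⟩⟩

/-- exact content zero of a pair -/
def Cont0 (v : DV K) (F G : K[X]) : Prop :=
  ∃ k, (F.coeff k ≠ 0 ∧ v.o (F.coeff k) = 0) ∨ (G.coeff k ≠ 0 ∧ v.o (G.coeff k) = 0)

lemma exists_content (v : DV K) {F G : K[X]} (h : F ≠ 0 ∨ G ≠ 0) : ∃ κ : K, κ ≠ 0 ∧
    IntP v (C κ * F) ∧ IntP v (C κ * G) ∧ Cont0 v (C κ * F) (C κ * G) := by
  classical
  let A : Finset K := (F.support.image F.coeff) ∪ (G.support.image G.coeff)
  have hA : A.Nonempty := by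
    rcases h with h | h
    · obtain ⟨k, hk⟩ := nonempty_support_iff.2 h
      exact ⟨F.coeff k, mem_union_left _ (mem_image_of_mem _ hk)⟩
    · obtain ⟨k, hk⟩ := nonempty_support_iff.2 h
      exact ⟨G.coeff k, mem_union_right _ (mem_image_of_mem _ hk)⟩
  obtain ⟨a, ha, hmin⟩ := exists_min_image A v.o hA
  have ha0 : a ≠ 0 := by
    rcases mem_union.1 ha with h | h
    · obtain ⟨k, hk, rfl⟩ := mem_image.1 h
      exact mem_support_iff.1 hk
    · obtain ⟨k, hk, rfl⟩ := mem_image.1 h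
      exact mem_support_iff.1 hk
  have hge : ∀ b : K, b = 0 ∨ b ∈ A → v.ge 0 (a⁻¹ * b) := by
    intro b hb
    by_cases hb0 : b = 0
    · left; rw [hb0, mul_zero]
    rcases hb with hb | hb
    · exact absurd hb hb0
    right
    rw [v.mul _ _ (inv_ne_zero ha0) hb0, v.o_inv _ ha0]
    have : (v.o a : ℝ) ≤ v.o b := by exact_mod_cast hmin b hb
    push_cast
    linarith
  have hone : a⁻¹ * a ≠ 0 ∧ v.o (a⁻¹ * a) = 0 := by
    rw [inv_mul_cancel₀ ha0]; exact ⟨one_ne_zero, v.o_one⟩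
  refine ⟨a⁻¹, inv_ne_zero ha0, fun k => ?_, fun k => ?_, ?_⟩
  · rw [coeff_C_mul]
    refine hge _ ?_
    by_cases h0 : F.coeff k = 0
    · exact Or.inl h0
    · exact Or.inr (mem_union_left _ (mem_image_of_mem _ (mem_support_iff.2 h0)))
  · rw [coeff_C_mul]
    refine hge _ ?_
    by_cases h0 : G.coeff k = 0
    · exact Or.inl h0
    · exact Or.inr (mem_union_right _ (mem_image_of_mem _ (mem_support_iff.2 h0)))
  · rcases mem_union.1 ha with h | h
    · obtain ⟨k, -, hk⟩ := mem_image.1 h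
      refine ⟨k, Or.inl ?_⟩
      rw [coeff_C_mul, hk]; exact hone
    · obtain ⟨k, -, hk⟩ := mem_image.1 h
      refine ⟨k, Or.inr ?_⟩
      rw [coeff_C_mul, hk]; exact hone

lemma wedge_ne_zero_of_scale {x y x' y' : K × K} {N : M2 K} {l m : K} (hl : l ≠ 0)
    (hm : m ≠ 0) (h : wedge x y ≠ 0) (hx : N.app x' = (l * x.1, l * x.2))
    (hy : N.app y' = (m * y.1, m * y.2)) :
    wedge x' y' ≠ 0 ∧ N.det * wedge x' y' = l * m * wedge x y := by
  have h1 := N.wedge_app x' y'
  rw [hx, hy] at h1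
  have h2 : wedge (l * x.1, l * x.2) (m * y.1, m * y.2) = l * m * wedge x y := by
    simp only [wedge]; ring
  rw [h2] at h1
  refine ⟨?_, h1.symm⟩
  intro h0
  rw [h0, mul_zero] at h1
  exact mul_ne_zero (mul_ne_zero hl hm) h h1

end Pool.Agent.Helper55.RD

end

section

set_option autoImplicit false

open Finset

namespace Pool.Agent.Helper55.RD

/-- Ramsey numbers (upper bounds) -/
def ram : ℕ → ℕ → ℕ
  | 0, _ => 0
  | _ + 1, 0 => 0
  | m + 1, n + 1 => ram m (n + 1) + ram (m + 1) n + 1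

end Pool.Agent.Helper55.RD

end

section

set_option autoImplicit false

open Polynomial Finset Pool.Agent.Helper33

namespace Pool.Agent.Helper55.RD

variable {K : Type*} [Field K] {v : DV K}

lemma prim_wedge {x u w : K × K} (hx : Prim v x) (hu : v.ge 0 u.1 ∧ v.ge 0 u.2)
    (hw : v.ge 0 w.1 ∧ v.ge 0 w.2) {c : ℝ} (h1 : v.ge c (wedge x u)) (h2 : v.ge c (wedge x w)) :
    v.ge c (wedge u w) := by
  have e1 : wedge u w * x.1 = wedge x w * u.1 - wedge x u * w.1 := by simp only [wedge]; ring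
  have e2 : wedge u w * x.2 = wedge x w * u.2 - wedge x u * w.2 := by simp only [wedge]; ring
  have key : ∀ {a b : K}, v.ge c a → v.ge 0 b → v.ge c (a * b) := by
    intro a b ha hb
    have := DV.ge_mul ha hb
    rwa [add_zero] at this
  refine Sys.ge_of_prim hx ?_ ?_
  · rw [e1]; exact DV.ge_sub (key h2 hu.1) (key h1 hw.1)
  · rw [e2]; exact DV.ge_sub (key h2 hu.2) (key h1 hw.2)

lemma Prim.int {x : K × K} (hx : Prim v x) : v.ge 0 x.1 ∧ v.ge 0 x.2 := ⟨hx.1, hx.2.1⟩

lemma ge_wedge {x y : K × K} (hx : Prim v x) (hy : Prim v y) : v.ge 0 (wedge x y) := by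
  have h1 := DV.ge_mul hx.1 hy.2.1
  have h2 := DV.ge_mul hx.2.1 hy.1
  rw [add_zero] at h1 h2
  exact DV.ge_sub h1 h2

/-- negation of smallness -/
lemma ge_of_not_small {x : K} {c : ℝ} (h : ¬ (x ≠ 0 ∧ (v.o x : ℝ) ≤ c)) : v.ge (⌊c⌋ + 1) x := by
  by_cases hx : x = 0
  · exact Or.inl hx
  right
  have h1 : c < v.o x := by
    by_contra h2
    exact h ⟨hx, not_lt.1 h2⟩
  have h2 : ⌊c⌋ < v.o x := Int.floor_lt.2 h1
  exact_mod_cast h2

lemma not_ge_of_small {x : K} {c : ℝ} (h : x ≠ 0 ∧ (v.o x : ℝ) ≤ c) : ¬ v.ge (⌊c⌋ + 1) x := by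
  intro h2
  have h3 := DV.ge_le h2 h.1
  have h4 := Int.lt_floor_add_one c
  linarith [h.2]

namespace Sys

variable {d : ℕ} {ι : Type*} {S : Sys v d ι}

lemma card_large_c (hS : S.Good) (h0 : Cont0 v S.F S.G) [DecidableEq ι] {β : ℝ} {T : Finset ι}
    (hT : ∀ i ∈ T, ∀ j ∈ T, i ≠ j → (v.o (wedge (S.x i) (S.x j)) : ℝ) ≤ β)
    (hlarge : ∀ i ∈ T, (d + 1) * d / 2 * β < v.o (S.c i)) : T.card ≤ d := by
  by_contra hcon
  push Not at hcon
  obtain ⟨T', hT', hcard⟩ := exists_subset_card_eq (Nat.succ_le_of_lt hcon)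
  set c₀ : ℝ := (d + 1) * d / 2 * β with hc₀
  have hge : ∀ i ∈ T', v.ge (⌊c₀⌋ + 1) (S.c i) := fun i hi =>
    ge_of_not_small fun h => absurd h.2 (not_le.2 (hlarge i (hT' hi)))
  have hF : ∀ k, v.ge (⌊c₀⌋ + 1 - c₀) (S.F.coeff k) := fun k =>
    cramer v S.hF T' hcard S.x (fun i _ => (hS.prim i).1) (fun i _ => (hS.prim i).2.1) β _
      (fun i hi j hj hij => ⟨S.hx i j hij, hT i (hT' hi) j (hT' hj) hij⟩)
      (fun i hi => by
        rw [S.hΦF]
        have := DV.ge_mul (hge i hi) (hS.prim (S.φ i)).1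
        rwa [add_zero] at this) k
  have hG : ∀ k, v.ge (⌊c₀⌋ + 1 - c₀) (S.G.coeff k) := fun k =>
    cramer v S.hG T' hcard S.x (fun i _ => (hS.prim i).1) (fun i _ => (hS.prim i).2.1) β _
      (fun i hi j hj hij => ⟨S.hx i j hij, hT i (hT' hi) j (hT' hj) hij⟩)
      (fun i hi => by
        rw [S.hΦG]
        have := DV.ge_mul (hge i hi) (hS.prim (S.φ i)).2.1
        rwa [add_zero] at this) k
  have hlt := Int.lt_floor_add_one c₀
  obtain ⟨k, hk | hk⟩ := h0
  · have := DV.ge_le (hF k) hk.1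
    rw [hk.2] at this
    push_cast at this
    linarith
  · have := DV.ge_le (hG k) hk.1
    rw [hk.2] at this
    push_cast at this
    linarith

lemma card_large_wedge (hd : 2 ≤ d) (hS : S.Good) [DecidableEq ι] {β : ℝ} {T : Finset ι}
    (hT : ∀ i ∈ T, ∀ j ∈ T, i ≠ j → (v.o (wedge (S.x i) (S.x j)) : ℝ) ≤ β) {w : K × K}
    (hw : Prim v w)
    (hlarge : ∀ i ∈ T, ¬ (wedge (S.x (S.φ i)) w ≠ 0 ∧
      (v.o (wedge (S.x (S.φ i)) w) : ℝ) ≤ (d - 1) * S.r + (d + 1) * d / 2 * β)) : T.card ≤ d := by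
  by_contra hcon
  push Not at hcon
  obtain ⟨T', hT', hcard⟩ := exists_subset_card_eq (Nat.succ_le_of_lt hcon)
  set c₀ : ℝ := (d - 1) * S.r + (d + 1) * d / 2 * β with hc₀
  have hge : ∀ i ∈ T', v.ge (⌊c₀⌋ + 1) (wedge (S.x (S.φ i)) w) := fun i hi =>
    ge_of_not_small (hlarge i (hT' hi))
  have hP : ∀ k, v.ge (⌊c₀⌋ + 1 - (d + 1) * d / 2 * β) ((wform S.F S.G w).coeff k) := fun k =>
    cramer v (natDegree_wform S.hF S.hG w) T' hcard S.x (fun i _ => (hS.prim i).1)
      (fun i _ => (hS.prim i).2.1) β _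
      (fun i hi j hj hij => ⟨S.hx i j hij, hT i (hT' hi) j (hT' hj) hij⟩)
      (fun i hi => by
        rw [hom_wform, S.hΦF, S.hΦG]
        have e : wedge (S.c i * (S.x (S.φ i)).1, S.c i * (S.x (S.φ i)).2) w =
            S.c i * wedge (S.x (S.φ i)) w := by simp only [wedge]; ring
        rw [e]
        have h1 : v.ge 0 (S.c i) := Or.inr (hS.c_nonneg i)
        have := DV.ge_mul h1 (hge i hi)
        rwa [zero_add] at this) k
  have h1 := content_wform S.hF S.hG S.hR hS.intF hS.intG hw hP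
  rw [S.o_res hd] at h1
  have hlt := Int.lt_floor_add_one c₀
  have hd' : (0 : ℝ) < d := by positivity
  have h2 : (⌊c₀⌋ + 1 - (d + 1) * d / 2 * β : ℝ) ≤ (d - 1) * S.r := by
    have : (d : ℝ) * (⌊c₀⌋ + 1 - (d + 1) * d / 2 * β) ≤ d * ((d - 1) * S.r) := by linarith
    exact le_of_mul_le_mul_left this hd'
  linarith

end Sys

end Pool.Agent.Helper55.RD

end

section

set_option autoImplicit false

open Polynomial Finset Pool.Agent.Helper33

namespace Pool.Agent.Helper55.RD

variable {K : Type*} [Field K] {v : DV K}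

/-- the small constant -/
noncomputable def ep (d : ℕ) : ℝ := 1 / (128 * d ^ 2)

lemma ep_pos {d : ℕ} (hd : 2 ≤ d) : 0 < ep d := by
  unfold ep; (clear * - hd; positivity)

lemma ep_eq {d : ℕ} (hd : 2 ≤ d) : (d : ℝ) ^ 2 * ep d = 1 / 128 := by
  unfold ep
  have : (d : ℝ) ≠ 0 := by positivity
  field_simp

/-- the size of the clique needed in the core lemma -/
def n₀ (d : ℕ) : ℕ := (d + 1) * d ^ 6 + d + 3

end Pool.Agent.Helper55.RD

end

section

set_option autoImplicit false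

open Polynomial Finset Pool.Agent.Helper33

namespace Pool.Agent.Helper55.RD

variable {K : Type*} [Field K] {v : DV K}

/-- number of points needed in the local lower bound -/
def N₀ (d : ℕ) : ℕ := ram (n₀ d) (d ^ 11 + d ^ 11) + (d + d)

lemma trF_smul (d : ℕ) (N : M2 K) (κ : K) (F G : K[X]) :
    trF d N κ F G = C κ * trF d N 1 F G := by
  simp only [trF, C_neg, C_mul, C_1]; ring

end Pool.Agent.Helper55.RD

end

section

set_option autoImplicit false

open Polynomial Finset Pool.Agent.Helper33 Pool.Agent.Helper51.RatTree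

namespace Pool.Agent.Helper55.RD

variable {K : Type*} [Field K]

/-- the value of the form at an affine point -/
lemma hom_eval {d : ℕ} {P : K[X]} (hP : P.natDegree ≤ d) (x : K) : hom d P x 1 = P.eval x := by
  rw [hom, Finset.Nat.sum_antidiagonal_eq_sum_range_succ_mk, eval_eq_sum_range' (Nat.lt_succ_of_le hP)]
  simp

end Pool.Agent.Helper55.RD

end

section

set_option autoImplicit false

open Polynomial Finset Pool.Agent.Helper33 Pool.Agent.Helper55.RD

namespace Pool.Agent.Helper55.RM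

section map

variable {K K' : Type} [Field K] [Field K'] (f : K →+* K')

/-- base change -/
def mapM2 (N : M2 K) : M2 K' := ⟨f N.a, f N.b, f N.c, f N.e⟩

end map

end Pool.Agent.Helper55.RM

end
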