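import Pool.Agent.Helper55.RM.Defs
import Pool.Agent.Helper23.MB.Inst

/-!
Parts of Helper55.RD.Comb, Helper55.RD.RatLB, Helper16.BBDefs, Helper16.FF8, Helper55.RM.Form, Helper55.RM.Glob, Helper55.RM.Iso, Helper55.RM.Pack
-/

attribute [-simp] Valuation.IsUniformizer.val
attribute [local instance 5000]
  Pool.Agent.Helper23.MB.Inst.rCharZero Pool.Agent.Helper23.MB.Inst.rALM
  Pool.Agent.Helper23.MB.Inst.rARM Pool.Agent.Helper23.MB.Inst.rALSM
  Pool.Agent.Helper23.MB.Inst.rARSM Pool.Agent.Helper23.MB.Inst.rARRLE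
  Pool.Agent.Helper23.MB.Inst.rALRLE Pool.Agent.Helper23.MB.Inst.rARRLT
  Pool.Agent.Helper23.MB.Inst.rALRLT Pool.Agent.Helper23.MB.Inst.rPMRLT
  Pool.Agent.Helper23.MB.Inst.rMPRLT Pool.Agent.Helper23.MB.Inst.rPMM
  Pool.Agent.Helper23.MB.Inst.rMPM Pool.Agent.Helper23.MB.Inst.rPMSM
  Pool.Agent.Helper23.MB.Inst.rMPSM Pool.Agent.Helper23.MB.Inst.rEAOL
  Pool.Agent.Helper23.MB.Inst.rIOR Pool.Agent.Helper23.MB.Inst.rISOR
  Pool.Agent.Helper23.MB.Inst.rNZD Pool.Agent.Helper23.MB.Inst.zCharZero
  Pool.Agent.Helper23.MB.Inst.zALM Pool.Agent.Helper23.MB.Inst.zARM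
  Pool.Agent.Helper23.MB.Inst.zIOR Pool.Agent.Helper23.MB.Inst.zISOR
  Pool.Agent.Helper23.MB.Inst.zNZD Pool.Agent.Helper23.MB.Inst.qCharZero
  Pool.Agent.Helper23.MB.Inst.free Pool.Agent.Helper23.MB.Inst.faith
  Pool.Agent.Helper23.MB.Inst.torsionFree Pool.Agent.Helper23.MB.Inst.rfFaith
  Pool.Agent.Helper23.MB.Inst.hAdd Pool.Agent.Helper23.MB.Inst.hAddM
  Pool.Agent.Helper23.MB.Inst.hMul Pool.Agent.Helper23.MB.Inst.hMon
  Pool.Agent.Helper23.MB.Inst.hZero Pool.Agent.Helper23.MB.Inst.hOne
  Pool.Agent.Helper23.MB.Inst.hMZ Pool.Agent.Helper23.MB.Inst.hRing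
  Pool.Agent.Helper23.MB.Inst.aAdd Pool.Agent.Helper23.MB.Inst.aAddM
  Pool.Agent.Helper23.MB.Inst.aMul Pool.Agent.Helper23.MB.Inst.aMon
  Pool.Agent.Helper23.MB.Inst.aZero Pool.Agent.Helper23.MB.Inst.aOne
  Pool.Agent.Helper23.MB.Inst.aMZ Pool.Agent.Helper23.MB.Inst.aRing

namespace Pool.Agent.Helper33
end Pool.Agent.Helper33
namespace Pool.Agent.Helper51.RatTree
end Pool.Agent.Helper51.RatTree
namespace Pool.Agent.Helper55.RD
end Pool.Agent.Helper55.RD

section

set_option autoImplicit false

open Finset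

namespace Pool.Agent.Helper55.RD

theorem greedy {ι : Type*} [DecidableEq ι] (Bad : ι → ι → Prop) [DecidableRel Bad]
    (hsym : ∀ i j, Bad i j → Bad j i)
    (C : Finset ι) (d : ℕ) (hdeg : ∀ j ∈ C, (C.filter fun i => Bad i j).card ≤ d) :
    ∀ D : ℕ, (d + 1) * D ≤ C.card → ∃ B ⊆ C, B.card = D ∧ ∀ i ∈ B, ∀ j ∈ B, i ≠ j → ¬ Bad i j := by
  intro D
  induction D with
  | zero => intro _; exact ⟨∅, empty_subset _, card_empty, by simp⟩
  | succ D ih =>
    intro hD
    obtain ⟨B, hB, hBc, hBP⟩ := ih (by rw [mul_add] at hD; omega)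
    have h1 : (B.biUnion fun j => insert j (C.filter fun i => Bad i j)).card ≤ D * (d + 1) := by
      rw [← hBc]
      refine card_biUnion_le_card_mul _ _ _ fun j hj => ?_
      exact (card_insert_le _ _).trans (Nat.add_le_add_right (hdeg j (hB hj)) 1)
    obtain ⟨t, ht, ht2⟩ : ∃ t ∈ C, t ∉ B.biUnion fun j => insert j (C.filter fun i => Bad i j) := by
      by_contra hcon
      push Not at hcon
      have h2 := card_le_card (show C ⊆ _ from hcon)
      rw [mul_add, mul_comm] at hD
      omega
    rw [mem_biUnion] at ht2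
    push Not at ht2
    have h3 : ∀ j ∈ B, t ≠ j ∧ ¬ Bad t j := by
      intro j hj
      have := ht2 j hj
      rw [mem_insert, not_or, mem_filter, not_and] at this
      exact ⟨this.1, this.2 ht⟩
    have htB : t ∉ B := fun h => (h3 t h).1 rfl
    refine ⟨insert t B, insert_subset ht hB, by rw [card_insert_of_notMem htB, hBc], ?_⟩
    intro i hi j hj hij
    rcases mem_insert.1 hi with hi' | hi'
    · rcases mem_insert.1 hj with hj' | hj'
      · exact absurd (hi'.trans hj'.symm) hij
      · rw [hi']; exact (h3 j hj').2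
    · rcases mem_insert.1 hj with hj' | hj'
      · rw [hj']; exact fun h => (h3 i hi').2 (hsym _ _ h)
      · exact hBP i hi' j hj' hij

end Pool.Agent.Helper55.RD

end

section

set_option autoImplicit false

open Polynomial Finset Pool.Agent.Helper33 Pool.Agent.Helper51.RatTree

namespace Pool.Agent.Helper55.RD

variable {K : Type*} [Field K]

lemma resultant_ne_zero_of_isCoprime {P Q : K[X]} {d : ℕ} (h : IsCoprime P Q)
    (hP : P.natDegree ≤ d) (hQ : Q.natDegree ≤ d) (hmax : P.natDegree = d ∨ Q.natDegree = d)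
    (hd : 1 ≤ d) : resultant P Q d d ≠ 0 := by
  have key : ∀ {P Q : K[X]}, IsCoprime P Q → Q.natDegree ≤ d → P.natDegree = d →
      resultant P Q d d ≠ 0 := by
    intro P Q h hQ hP
    obtain ⟨k, hk⟩ := Nat.exists_eq_add_of_le hQ
    have h0 : P.coeff d ≠ 0 := by
      rw [← hP, coeff_natDegree, Ne, leadingCoeff_eq_zero]
      rintro rfl
      simp at hP
      omega
    have h1 : resultant P Q d (Q.natDegree + k) = P.coeff d ^ k * resultant P Q d Q.natDegree :=
      resultant_add_right_deg _ _ _ _ _ le_rfl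
    rw [← hk] at h1
    rw [h1]
    refine mul_ne_zero (pow_ne_zero _ h0) ?_
    rw [← hP]
    exact resultant_ne_zero P Q h
  rcases hmax with h1 | h1
  · exact key h hQ h1
  · rw [resultant_comm]
    exact mul_ne_zero (pow_ne_zero _ (neg_ne_zero.2 one_ne_zero)) (key h.symm hP h1)

end Pool.Agent.Helper55.RD

end

section

set_option autoImplicit false

namespace Pool.Agent.Helper16

/-- `N` is a function field of one variable over `K`: a finitely generated field extension of
transcendence degree one. -/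
def IsFunctionField (K N : Type) [Field K] [Field N] [Algebra K N] : Prop :=
  Algebra.EssFiniteType K N ∧ Algebra.trdeg K N = 1

end Pool.Agent.Helper16

end

section

set_option autoImplicit false

set_option linter.style.haveILetI false

namespace Pool.Agent.Helper16

open Polynomial IntermediateField IsDedekindDomain

section

variable {K N : Type} [Field K] [Field N] [Algebra K N]

theorem finiteDimensional_of_fg_of_isAlgebraic (F E : Type) [Field F] [Field E] [Algebra F E]
    [Algebra.EssFiniteType F E] [Algebra.IsAlgebraic F E] : FiniteDimensional F E := by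
  obtain ⟨S, hS⟩ := IntermediateField.fg_top F E
  haveI : FiniteDimensional F (IntermediateField.adjoin F (S : Set E)) :=
    IntermediateField.finiteDimensional_adjoin (fun x _ => (Algebra.IsAlgebraic.isAlgebraic x).isIntegral)
  rw [hS] at this
  exact (IntermediateField.topEquiv (F := F) (E := E)).toLinearEquiv.finiteDimensional

theorem IsFunctionField.finiteDimensional (h : IsFunctionField K N) (f : N)
    (hf : Transcendental K f) : FiniteDimensional K⟮f⟯ N := by
  haveI := h.1
  have h1 : AlgebraicIndependent K (fun _ : Unit => f) :=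
    algebraicIndependent_unique_type_iff.2 hf
  have h2 : IsTranscendenceBasis K (fun _ : Unit => f) :=
    h1.isTranscendenceBasis_of_trdeg_le_of_finite (by rw [h.2]; simp)
  have h3 := h2.isAlgebraic_field
  have h4 : Set.range (fun _ : Unit => f) = {f} := Set.range_const
  rw [h4] at h3
  haveI : Algebra.EssFiniteType K⟮f⟯ N := Algebra.EssFiniteType.of_comp K K⟮f⟯ N
  exact finiteDimensional_of_fg_of_isAlgebraic K⟮f⟯ N

theorem exp_neg_one_lt : WithZero.exp (-1 : ℤ) < 1 := by
  rw [← WithZero.exp_zero, WithZero.exp_lt_exp]; norm_num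

end

end Pool.Agent.Helper16

end

section

set_option autoImplicit false

open Polynomial Finset Pool.Agent.Helper33 Pool.Agent.Helper55.RD

namespace Pool.Agent.Helper55.RM

section deh

variable {L : Type} [Field L]

/-- dehomogenisation -/
noncomputable def deh (P : MvPolynomial (Fin 2) L) : L[X] := MvPolynomial.aeval ![X, 1] P

lemma deh_eq_sum (P : MvPolynomial (Fin 2) L) :
    deh P = ∑ m ∈ P.support, C (P.coeff m) * X ^ (m 0) := by
  rw [deh, MvPolynomial.aeval_def, MvPolynomial.eval₂_eq']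
  refine sum_congr rfl fun m _ => ?_
  simp [Fin.prod_univ_two]

lemma natDegree_deh {P : MvPolynomial (Fin 2) L} {d : ℕ} (hP : P.IsHomogeneous d) :
    (deh P).natDegree ≤ d := by
  rw [deh_eq_sum]
  refine natDegree_sum_le_of_forall_le _ _ fun m hm => ?_
  refine (natDegree_C_mul_X_pow_le _ _).trans ?_
  have h1 := hP (MvPolynomial.mem_support_iff.1 hm)
  rw [Finsupp.weight_apply, Finsupp.sum_fintype _ _ (by simp)] at h1
  simp [Fin.sum_univ_two] at h1
  omega

lemma deh_homogenize {f : L[X]} {d : ℕ} (hf : f.natDegree ≤ d) : deh (f.homogenize d) = f :=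
  aeval_homogenize_X_one f hf

lemma deh_map {L₁ : Type} [Field L₁] (f : L →+* L₁) (P : MvPolynomial (Fin 2) L) :
    deh (MvPolynomial.map f P) = (deh P).map f := by
  induction P using MvPolynomial.induction_on with
  | C a => simp [deh]
  | add p q hp hq =>
    simp only [deh, map_add, Polynomial.map_add] at hp hq ⊢
    rw [hp, hq]
  | mul_X p i hp =>
    simp only [deh, map_mul, MvPolynomial.map_X, MvPolynomial.aeval_X, Polynomial.map_mul] at hp ⊢
    rw [hp]
    fin_cases i <;> simp

end deh

end Pool.Agent.Helper55.RM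

end

section

set_option autoImplicit false

open Polynomial Finset Pool.Agent.Helper33 Pool.Agent.Helper55.RD

namespace Pool.Agent.Helper55.RM

section

variable {k L : Type} [Field k] [Field L] [Algebra k L]

theorem isFunctionField_of (hfg : (⊤ : IntermediateField k L).FG)
    (htr : ∃ x : L, Transcendental k x ∧ Algebra.IsAlgebraic (IntermediateField.adjoin k {x}) L) :
    Pool.Agent.Helper16.IsFunctionField k L := by
  obtain ⟨x, hx, halg⟩ := htr
  refine ⟨IntermediateField.fg_top_iff.1 hfg, ?_⟩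
  have h1 : AlgebraicIndependent k (fun _ : Unit => x) :=
    algebraicIndependent_unique_type_iff.2 hx
  have h2 : IsTranscendenceBasis k (fun _ : Unit => x) := by
    rw [h1.isTranscendenceBasis_iff_isAlgebraic]
    have : Set.range (fun _ : Unit => x) = {x} := by simp
    rw [this]
    rw [← IntermediateField.isAlgebraic_adjoin_iff_top]
    exact halg
  have h3 := h2.lift_cardinalMk_eq_trdeg
  simpa using h3.symm

end

end Pool.Agent.Helper55.RM

end

section

set_option autoImplicit false

open Polynomial Finset Pool.Agent.Helper33 Pool.Agent.Helper55.RD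

namespace Pool.Agent.Helper55.RM

section core

variable {k₁ L : Type} [Field k₁] [Field L] [Algebra k₁ L]

/-- coefficientwise application of a functional -/
noncomputable def app (π : L →ₗ[k₁] k₁) (d : ℕ) (f : L[X]) : k₁[X] :=
  ∑ i ∈ range (d + 1), monomial i (π (f.coeff i))

lemma coeff_app (π : L →ₗ[k₁] k₁) {d : ℕ} {f : L[X]} (hf : f.natDegree ≤ d) (n : ℕ) :
    (app π d f).coeff n = π (f.coeff n) := by
  rw [app, finsetSum_coeff]
  simp only [coeff_monomial]
  rw [sum_ite_eq' (range (d + 1)) n fun i => π (f.coeff i)]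
  split_ifs with h
  · rfl
  · rw [coeff_eq_zero_of_natDegree_lt, map_zero]
    rw [mem_range] at h
    omega

lemma natDegree_app (π : L →ₗ[k₁] k₁) {d : ℕ} (f : L[X]) : (app π d f).natDegree ≤ d := by
  refine natDegree_sum_le_of_forall_le _ _ fun i hi => ?_
  refine (natDegree_monomial_le _).trans ?_
  rw [mem_range] at hi
  omega

lemma eval_app (π : L →ₗ[k₁] k₁) {d : ℕ} {f : L[X]} (hf : f.natDegree ≤ d) (t : k₁) :
    (app π d f).eval t = π (f.eval (algebraMap k₁ L t)) := by
  rw [eval_eq_sum_range' (Nat.lt_succ_of_le (natDegree_app π f)),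
    eval_eq_sum_range' (Nat.lt_succ_of_le hf), map_sum]
  refine sum_congr rfl fun i _ => ?_
  rw [coeff_app π hf, ← map_pow, mul_comm (f.coeff i), ← Algebra.smul_def, map_smul, smul_eq_mul,
    mul_comm]

lemma natDegree_eq_of_resultant_ne_zero {f g : L[X]} {d : ℕ} (hf : f.natDegree ≤ d)
    (hg : g.natDegree ≤ d) (hR : resultant f g d d ≠ 0) : f.natDegree = d ∨ g.natDegree = d := by
  by_contra hcon
  rw [not_or] at hcon
  exact hR (resultant_eq_zero_of_lt_lt _ _ _ _ (lt_of_le_of_ne hf hcon.1)
    (lt_of_le_of_ne hg hcon.2))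

lemma isCoprime_of_resultant_ne_zero {f g : L[X]} {d : ℕ} (hd : 1 ≤ d) (hf : f.natDegree ≤ d)
    (hg : g.natDegree ≤ d) (hR : resultant f g d d ≠ 0) : IsCoprime f g := by
  obtain ⟨p, q, -, -, h⟩ := exists_mul_add_mul_eq_C_resultant f g hf hg (Or.inl (by omega))
  refine ⟨C (resultant f g d d)⁻¹ * p, C (resultant f g d d)⁻¹ * q, ?_⟩
  calc C (resultant f g d d)⁻¹ * p * f + C (resultant f g d d)⁻¹ * q * g
      = C (resultant f g d d)⁻¹ * (f * p + g * q) := by ring
    _ = 1 := by rw [h, ← C_mul, inv_mul_cancel₀ hR, C_1]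

theorem iso_core {d : ℕ} (hd : 1 ≤ d) {f g : L[X]} (hf : f.natDegree ≤ d) (hg : g.natDegree ≤ d)
    (hR : resultant f g d d ≠ 0) (T : Finset k₁) (hT : d + d + 1 ≤ T.card)
    (h : ∀ t ∈ T, ∃ (c : L) (p q : k₁), f.eval (algebraMap k₁ L t) = c * algebraMap k₁ L p ∧
      g.eval (algebraMap k₁ L t) = c * algebraMap k₁ L q) :
    ∃ (l : L) (f' g' : k₁[X]), l ≠ 0 ∧ f'.natDegree ≤ d ∧ g'.natDegree ≤ d ∧
      f = C l * f'.map (algebraMap k₁ L) ∧ g = C l * g'.map (algebraMap k₁ L) := by
  classical
  have hcop := isCoprime_of_resultant_ne_zero hd hf hg hR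
  have hdeg := natDegree_eq_of_resultant_ne_zero hf hg hR
  have hinj := (algebraMap k₁ L).injective
  -- a nonzero coefficient
  obtain ⟨u, hu, n, hn⟩ : ∃ u : L, u ≠ 0 ∧ ∃ n, f.coeff n = u ∨ g.coeff n = u := by
    rcases hdeg with h1 | h1
    · refine ⟨f.coeff d, ?_, d, Or.inl rfl⟩
      rw [← h1, coeff_natDegree, Ne, leadingCoeff_eq_zero]
      rintro rfl
      simp at h1; omega
    · refine ⟨g.coeff d, ?_, d, Or.inr rfl⟩
      rw [← h1, coeff_natDegree, Ne, leadingCoeff_eq_zero]
      rintro rfl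
      simp at h1; omega
  obtain ⟨π₀, hπ₀⟩ := LinearMap.exists_leftInverse_of_injective (Algebra.linearMap k₁ L)
    (LinearMap.ker_eq_bot.2 hinj)
  have hπ₀1 : π₀ 1 = 1 := by
    have := LinearMap.congr_fun hπ₀ 1
    simpa using this
  set π : L →ₗ[k₁] k₁ := π₀ ∘ₗ LinearMap.mulLeft k₁ u⁻¹ with hπ
  have hπu : π u = 1 := by
    rw [hπ, LinearMap.comp_apply, LinearMap.mulLeft_apply, inv_mul_cancel₀ hu, hπ₀1]
  set f' := app π d f with hf'
  set g' := app π d g with hg'
  have hne : ¬ (f' = 0 ∧ g' = 0) := by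
    rintro ⟨h1, h2⟩
    rcases hn with hn | hn
    · have := coeff_app π hf n
      rw [← hf', h1, hn, hπu] at this
      simp at this
    · have := coeff_app π hg n
      rw [← hg', h2, hn, hπu] at this
      simp at this
  have hf'd : f'.natDegree ≤ d := natDegree_app π f
  have hg'd : g'.natDegree ≤ d := natDegree_app π g
  have hker : ∀ (a : k₁) (x : L), π (algebraMap k₁ L a * x) = a * π x := by
    intro a x
    rw [← Algebra.smul_def, map_smul, smul_eq_mul]
  have hmap : ∀ (P : k₁[X]) (t : k₁), (P.map (algebraMap k₁ L)).eval (algebraMap k₁ L t) =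
      algebraMap k₁ L (P.eval t) := fun P t => by
    rw [eval_map, eval₂_at_apply]
  have hzero : f * g'.map (algebraMap k₁ L) - g * f'.map (algebraMap k₁ L) = 0 := by
    refine eq_zero_of_natDegree_lt_card_of_eval_eq_zero' _ (T.image (algebraMap k₁ L)) ?_ ?_
    · intro x hx
      obtain ⟨t, ht, rfl⟩ := mem_image.1 hx
      obtain ⟨c, p, q, h1, h2⟩ := h t ht
      have h3 : q * f'.eval t = p * g'.eval t := by
        rw [hf', hg', eval_app π hf, eval_app π hg, ← hker, ← hker, h1, h2]
        congr 1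
        ring
      rw [eval_sub, eval_mul, eval_mul, hmap, hmap, h1, h2]
      have h4 : algebraMap k₁ L q * algebraMap k₁ L (f'.eval t) =
          algebraMap k₁ L p * algebraMap k₁ L (g'.eval t) := by
        rw [← map_mul, ← map_mul, h3]
      linear_combination (-c) * h4
    · rw [card_image_of_injective _ hinj]
      have h1 : (f * g'.map (algebraMap k₁ L) - g * f'.map (algebraMap k₁ L)).natDegree ≤ d + d := by
        refine (natDegree_sub_le _ _).trans (max_le ?_ ?_)
        · exact natDegree_mul_le.trans (add_le_add hf (natDegree_map_le.trans hg'd))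
        · exact natDegree_mul_le.trans (add_le_add hg (natDegree_map_le.trans hf'd))
      omega
  have heq : f * g'.map (algebraMap k₁ L) = g * f'.map (algebraMap k₁ L) := sub_eq_zero.1 hzero
  have hf0 : f ≠ 0 := by
    rintro rfl
    rw [isCoprime_zero_left] at hcop
    have := natDegree_eq_zero_of_isUnit hcop
    rw [natDegree_zero, this] at hdeg
    omega
  have hg0 : g ≠ 0 := by
    rintro rfl
    rw [isCoprime_zero_right] at hcop
    have := natDegree_eq_zero_of_isUnit hcop
    rw [natDegree_zero, this] at hdeg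
    omega
  obtain ⟨q, hq⟩ : f ∣ f'.map (algebraMap k₁ L) := by
    refine hcop.dvd_of_dvd_mul_left ?_
    rw [← heq]
    exact dvd_mul_right _ _
  have hq' : g'.map (algebraMap k₁ L) = g * q := by
    rw [hq] at heq
    have : f * g'.map (algebraMap k₁ L) = f * (g * q) := by rw [heq]; ring
    exact mul_left_cancel₀ hf0 this
  have hq0 : q ≠ 0 := by
    rintro rfl
    rw [mul_zero, Polynomial.map_eq_zero] at hq hq'
    exact hne ⟨hq, hq'⟩
  have hqdeg : q.natDegree = 0 := by
    rcases hdeg with h1 | h1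
    · have h2 := natDegree_mul hf0 hq0
      rw [← hq, h1] at h2
      have h3 := (natDegree_map_le (f := algebraMap k₁ L) (p := f')).trans hf'd
      omega
    · have h2 := natDegree_mul hg0 hq0
      rw [← hq', h1] at h2
      have h3 := (natDegree_map_le (f := algebraMap k₁ L) (p := g')).trans hg'd
      omega
  obtain ⟨c, rfl⟩ := natDegree_eq_zero.1 hqdeg
  have hc : c ≠ 0 := by
    rintro rfl
    exact hq0 C_0
  refine ⟨c⁻¹, f', g', inv_ne_zero hc, hf'd, hg'd, ?_, ?_⟩
  · rw [hq, mul_comm f, ← mul_assoc, ← C_mul, inv_mul_cancel₀ hc, C_1, one_mul]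
  · rw [hq', mul_comm g, ← mul_assoc, ← C_mul, inv_mul_cancel₀ hc, C_1, one_mul]

end core

end Pool.Agent.Helper55.RM

end

section

set_option autoImplicit false

open Polynomial Finset Pool.Agent.Helper33 Pool.Agent.Helper55.RD

namespace Pool.Agent.Helper55.RM

section pack

variable {L : Type} [Field L] {d : ℕ} {Φ : Fin 2 → MvPolynomial (Fin 2) L}

lemma lift_ne_zero (h : IsRat d Φ) {x : Fin 2 → L} (hx : x ≠ 0) : lift Φ x ≠ 0 := by
  intro h0
  apply hx
  have h1 := h.2 (fun i => algebraMap L (AlgebraicClosure L) (x i)) (by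
    funext i
    have h2 := congrFun h0 i
    have h3 := MvPolynomial.map_eval (algebraMap L (AlgebraicClosure L)) x (Φ i)
    change MvPolynomial.eval _ (MvPolynomial.map _ (Φ i)) = 0
    change MvPolynomial.eval x (Φ i) = 0 at h2
    rw [h2, map_zero] at h3
    exact h3.symm)
  funext i
  have h2 := congrFun h1 i
  simpa using h2

/-- the map on the projective line -/
noncomputable def fmap (h : IsRat d Φ) (p : Projectivization L (Fin 2 → L)) :
    Projectivization L (Fin 2 → L) :=
  Projectivization.mk L (lift Φ p.rep) (lift_ne_zero h p.rep_nonzero)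

lemma iter_ne_zero (h : IsRat d Φ) (n : ℕ) {v : Fin 2 → L} (hv : v ≠ 0) : (lift Φ)^[n] v ≠ 0 := by
  induction n with
  | zero => exact hv
  | succ n ih =>
    rw [Function.iterate_succ_apply']
    exact lift_ne_zero h ih

end pack

end Pool.Agent.Helper55.RM

end
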