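import Pool.Agent.Helper23.MB.L00_ab1
import Pool.Agent.Helper23.MB.L00_ab2
import Pool.Agent.Helper23.MB.L00_ab3
import Pool.Agent.Helper23.MB.L00_ab4
import Pool.Agent.Helper23.MB.L00_ab7
import Pool.Agent.Helper23.MB.L00_ab8
import Pool.Agent.Helper23.MB.L00_abc1

/-!
Parts of Helper33.PSys, Helper33.DVBasic, Helper33.UB.AM, Helper33.UB.AM2, Helper33.PS.Defs, Helper33.UB.Inst, Helper33.UB.Select2, Helper33.UB.PolyTree, Helper51.RatTree, Helper55.RD.Base, Helper55.RD.RatLB, Helper33.UB.RatInst, Helper98.PS.M2, Helper98.PS.M5, Helper33.UB.Sel3, Helper43.PT.LE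
-/

attribute [-simp] Valuation.IsUniformizer.val
attribute [local instance 5000]
  Pool.Agent.Helper23.MB.Inst.rCharZero Pool.Agent.Helper23.MB.Inst.rALM
  Pool.Agent.Helper23.MB.Inst.rARM Pool.Agent.Helper23.MB.Inst.rALSM
  Pool.Agent.Helper23.MB.Inst.rARSM Pool.Agent.Helper23.MB.Inst.rARRLE
  Pool.Agent.Helper23.MB.Inst.rALRLE Pool.Agent.Helper23.MB.Inst.rARRLT
  Pool.Agent.Helper23.MB.Inst.rALRLT Pool.Agent.Helper23.MB.Inst.rPMRLT
  Pool.Agent.Helper23.MB.Inst.rMPRLT Pool.Agent.Helper23.MB.Inst.rPMM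
  Pool.Agent.Helper23.MB.Inst.rMPM Pool.Agent.Helper23.MB.Inst.rPMSM
  Pool.Agent.Helper23.MB.Inst.rMPSM Pool.Agent.Helper23.MB.Inst.rEAOL
  Pool.Agent.Helper23.MB.Inst.rIOR Pool.Agent.Helper23.MB.Inst.rISOR
  Pool.Agent.Helper23.MB.Inst.rNZD Pool.Agent.Helper23.MB.Inst.zCharZero
  Pool.Agent.Helper23.MB.Inst.zALM Pool.Agent.Helper23.MB.Inst.zARM
  Pool.Agent.Helper23.MB.Inst.zIOR Pool.Agent.Helper23.MB.Inst.zISOR
  Pool.Agent.Helper23.MB.Inst.zNZD Pool.Agent.Helper23.MB.Inst.qCharZero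
  Pool.Agent.Helper23.MB.Inst.free Pool.Agent.Helper23.MB.Inst.faith
  Pool.Agent.Helper23.MB.Inst.torsionFree Pool.Agent.Helper23.MB.Inst.rfFaith
  Pool.Agent.Helper23.MB.Inst.hAdd Pool.Agent.Helper23.MB.Inst.hAddM
  Pool.Agent.Helper23.MB.Inst.hMul Pool.Agent.Helper23.MB.Inst.hMon
  Pool.Agent.Helper23.MB.Inst.hZero Pool.Agent.Helper23.MB.Inst.hOne
  Pool.Agent.Helper23.MB.Inst.hMZ Pool.Agent.Helper23.MB.Inst.hRing
  Pool.Agent.Helper23.MB.Inst.aAdd Pool.Agent.Helper23.MB.Inst.aAddM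
  Pool.Agent.Helper23.MB.Inst.aMul Pool.Agent.Helper23.MB.Inst.aMon
  Pool.Agent.Helper23.MB.Inst.aZero Pool.Agent.Helper23.MB.Inst.aOne
  Pool.Agent.Helper23.MB.Inst.aMZ Pool.Agent.Helper23.MB.Inst.aRing

namespace Pool.Agent.Helper33.UB.TreeDyn
end Pool.Agent.Helper33.UB.TreeDyn

namespace Pool.Agent.Helper33
end Pool.Agent.Helper33
namespace Pool.Agent.Helper33.PS
end Pool.Agent.Helper33.PS
namespace Pool.Agent.Helper33.UB
end Pool.Agent.Helper33.UB
namespace Pool.Agent.Helper33.UB.TreeDyn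
end Pool.Agent.Helper33.UB.TreeDyn
namespace Pool.Agent.Helper45.FR
end Pool.Agent.Helper45.FR
namespace Pool.Agent.Helper51.RatTree
end Pool.Agent.Helper51.RatTree
namespace Pool.Agent.Helper55.RD
end Pool.Agent.Helper55.RD
namespace Pool.Agent.Helper93.RatODE
end Pool.Agent.Helper93.RatODE
namespace Pool.Agent.Helper98.PS
end Pool.Agent.Helper98.PS

section

set_option autoImplicit false

namespace Pool.Agent.Helper33

/-- A place system: an abstract function field of one variable `K` over `k`, any characteristic. -/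
structure PSys (k K V : Type*) [Field k] [Field K] [Algebra k K] where
  /-- the valuation attached to a place -/
  pl : V → DV K
  /-- every nonzero element has finitely many zeros and poles -/
  ord_finite : ∀ x : K, x ≠ 0 → {v : V | (pl v).o x ≠ 0}.Finite
  /-- the product formula -/
  sum_ord : ∀ x : K, x ≠ 0 → ∑ᶠ v, (pl v).o x = 0
  /-- the derivation -/
  D : K → K
  D_add : ∀ x y : K, D (x + y) = D x + D y
  D_mul : ∀ x y : K, D (x * y) = x * D y + y * D x
  /-- the error term -/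
  e : V → ℕ
  e_finite : {v : V | e v ≠ 0}.Finite
  ord_D : ∀ (v : V) (x : K), x ≠ 0 → D x ≠ 0 → (pl v).o x - 1 - (e v : ℤ) ≤ (pl v).o (D x)
  ord_D' : ∀ (v : V) (x : K), x ≠ 0 → D x ≠ 0 → 0 ≤ (pl v).o x → -(e v : ℤ) ≤ (pl v).o (D x)
  /-- an element without zeros and poles is constant -/
  const : ∀ x : K, x ≠ 0 → (∀ v, (pl v).o x = 0) → ∃ c : k, algebraMap k K c = x

end Pool.Agent.Helper33

end

section

set_option autoImplicit false

namespace Pool.Agent.Helper33

namespace DV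

variable {K : Type*} [Field K] (v : DV K)

lemma o_sub_comm (x y : K) : v.o (x - y) = v.o (y - x) := by
  rw [← v.o_neg (x - y), neg_sub]

end DV

end Pool.Agent.Helper33

end

section

set_option autoImplicit false

open Finset Polynomial

namespace Pool.Agent.Helper33.UB

variable {K : Type*} [Field K] [DecidableEq K]

/-- symmetric version of the order of a difference -/
def od (v : DV K) (x y : K) : ℤ := if x = y then 0 else v.o (x - y)

lemma od_comm (v : DV K) (x y : K) : od v x y = od v y x := by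
  unfold od
  by_cases h : x = y
  · simp [h]
  · rw [if_neg h, if_neg (Ne.symm h), v.o_sub_comm]

lemma od_self (v : DV K) (x : K) : od v x x = 0 := by
  unfold od; simp

lemma od_of_ne (v : DV K) {x y : K} (h : x ≠ y) : od v x y = v.o (x - y) := by
  unfold od; rw [if_neg h]

lemma two_mul_o_det_cm {r : ℕ} (v : DV K) (a : Fin r → K) (ha : Function.Injective a) :
    (cm a).det ≠ 0 ∧ 2 * v.o (cm a).det = ∑ i, ∑ j, od v (a i) (a j) := by
  have hne : ∀ i j, i ≠ j → a i - a j ≠ 0 := fun i j hij => sub_ne_zero.mpr fun h => hij (ha h)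
  have hV : ∏ i : Fin r, ∏ j ∈ Ioi i, (a j - a i) ≠ 0 := by
    rw [prod_ne_zero_iff]
    intro i _
    rw [prod_ne_zero_iff]
    intro j hj
    exact hne j i (ne_of_gt (mem_Ioi.mp hj))
  have hR : ∏ s : Fin r, ∏ t ∈ univ.erase s, (a s - a t) ≠ 0 := by
    rw [prod_ne_zero_iff]
    intro i _
    rw [prod_ne_zero_iff]
    intro j hj
    exact hne i j (Ne.symm (mem_erase.mp hj).1)
  have hdet : (cm a).det ≠ 0 := by
    intro h
    have := det_cm_mul a
    rw [h, zero_mul] at this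
    exact hR this.symm
  refine ⟨hdet, ?_⟩
  have h1 : v.o ((cm a).det * ∏ i : Fin r, ∏ j ∈ Ioi i, (a j - a i)) =
      v.o (∏ s : Fin r, ∏ t ∈ univ.erase s, (a s - a t)) := by rw [det_cm_mul]
  rw [v.mul _ _ hdet hV, v.o_prod _ _ (fun i _ => ?_), v.o_prod _ _ (fun i _ => ?_)] at h1
  rotate_left
  · rw [prod_ne_zero_iff]
    intro j hj
    exact hne i j (Ne.symm (mem_erase.mp hj).1)
  · rw [prod_ne_zero_iff]
    intro j hj
    exact hne j i (ne_of_gt (mem_Ioi.mp hj))
  have h2 : ∑ i : Fin r, v.o (∏ j ∈ Ioi i, (a j - a i)) = ∑ i, ∑ j ∈ Ioi i, od v (a j) (a i) := by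
    apply sum_congr rfl
    intro i _
    rw [v.o_prod _ _ (fun j hj => hne j i (ne_of_gt (mem_Ioi.mp hj)))]
    apply sum_congr rfl
    intro j hj
    rw [od_of_ne v fun h => (ne_of_gt (mem_Ioi.mp hj)) (ha h)]
  have h3 : ∑ s : Fin r, v.o (∏ t ∈ univ.erase s, (a s - a t)) = ∑ i, ∑ j, od v (a i) (a j) := by
    apply sum_congr rfl
    intro i _
    rw [v.o_prod _ _ (fun j hj => hne i j (Ne.symm (mem_erase.mp hj).1))]
    rw [← add_sum_erase univ _ (mem_univ i), od_self, zero_add]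
    apply sum_congr rfl
    intro j hj
    rw [od_of_ne v fun h => (Ne.symm (mem_erase.mp hj).1) (ha h)]
  have h4 := sum_Ioi (fun i j => od v (a i) (a j)) (fun i j => od_comm v _ _) (fun i => od_self v _)
  rw [h2, h3] at h1
  linarith

end Pool.Agent.Helper33.UB

end

section

set_option autoImplicit false

open Finset

namespace Pool.Agent.Helper33

namespace PSys

variable {k K V : Type*} [Field k] [Field K] [Algebra k K] (P : PSys k K V)

lemma D_zero : P.D 0 = 0 := by
  have h := P.D_add 0 0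
  rw [add_zero] at h
  exact left_eq_add.mp h

lemma D_one : P.D 1 = 0 := by
  have h := P.D_mul 1 1
  rw [mul_one, one_mul] at h
  exact left_eq_add.mp h

lemma D_neg (x : K) : P.D (-x) = - P.D x := by
  have h := P.D_add x (-x)
  rw [add_neg_cancel, P.D_zero] at h
  exact (neg_eq_of_add_eq_zero_right h.symm).symm

lemma D_sub (x y : K) : P.D (x - y) = P.D x - P.D y := by
  rw [sub_eq_add_neg, P.D_add, P.D_neg, sub_eq_add_neg]

lemma D_div (x y : K) (hy : y ≠ 0) : P.D (x / y) = (y * P.D x - x * P.D y) / y ^ 2 := by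
  have h1 : P.D ((x / y) * y) = (x / y) * P.D y + y * P.D (x / y) := P.D_mul _ _
  rw [div_mul_cancel₀ x hy] at h1
  field_simp at h1 ⊢
  linear_combination -h1

/-- total error -/
noncomputable def E : ℕ := ∑ v ∈ P.e_finite.toFinset, P.e v

lemma sum_e_le (T : Finset V) : ∑ v ∈ T, P.e v ≤ P.E := by
  classical
  unfold E
  calc ∑ v ∈ T, P.e v = ∑ v ∈ T.filter (fun v => P.e v ≠ 0), P.e v := by
        rw [Finset.sum_filter_ne_zero]
    _ ≤ ∑ v ∈ P.e_finite.toFinset, P.e v := by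
        apply Finset.sum_le_sum_of_subset
        intro v hv
        simpa using (Finset.mem_filter.mp hv).2

lemma sum_eq_zero (T : Finset V) (x : K) (hx : x ≠ 0) (h : ∀ v, v ∉ T → (P.pl v).o x = 0) :
    ∑ v ∈ T, (P.pl v).o x = 0 := by
  rw [← P.sum_ord x hx]
  symm
  apply finsum_eq_sum_of_support_subset
  intro v hv
  by_contra hvT
  exact hv (h v (by simpa using hvT))

lemma exists_finset (R : Finset K) (hR : ∀ x ∈ R, x ≠ 0) :
    ∃ T : Finset V, (∀ v, v ∉ T → P.e v = 0) ∧ (∀ x ∈ R, ∀ v, v ∉ T → (P.pl v).o x = 0) := by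
  classical
  induction R using Finset.induction_on with
  | empty =>
    refine ⟨P.e_finite.toFinset, fun v hv => ?_, by simp⟩
    simpa using hv
  | insert a s ha ih =>
    obtain ⟨T, h1, h2⟩ := ih fun x hx => hR x (Finset.mem_insert_of_mem hx)
    have hfin := P.ord_finite a (hR a (Finset.mem_insert_self a s))
    refine ⟨T ∪ hfin.toFinset, fun v hv => h1 v fun h => hv (Finset.mem_union_left _ h), ?_⟩
    intro x hx v hv
    rw [Finset.mem_union, not_or] at hv
    rcases Finset.mem_insert.mp hx with rfl | hx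
    · simpa using hv.2
    · exact h2 x hx v hv.1

end PSys

namespace UB

section tau

variable {k K V : Type*} [Field k] [Field K] [Algebra k K] [DecidableEq K] (P : PSys k K V)

lemma tau_eq (D : K → K) {p q c c' : K} (h1 : p ≠ q) (h2 : p ≠ c) (h3 : p ≠ c') (h4 : q ≠ c)
    (h5 : q ≠ c') (h6 : c ≠ c') :
    tau D {p, q, c, c'} = D p / ((p - q) * ((p - c) * (p - c'))) + (D q / ((q - p) * ((q - c) * (q - c'))) +
      (D c / ((c - p) * ((c - q) * (c - c'))) + D c' / ((c' - p) * ((c' - q) * (c' - c))))) := by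
  unfold tau om
  rw [sum_insert (by simp [h1, h2, h3]), sum_insert (by simp [h4, h5]), sum_insert (by simp [h6]),
    sum_singleton]
  have e1 : ({p, q, c, c'} : Finset K).erase p = {q, c, c'} := by
    ext x; simp only [mem_erase, mem_insert, mem_singleton]
    constructor
    · rintro ⟨a, b⟩; tauto
    · rintro (rfl | rfl | rfl) <;> simp [h1.symm, h2.symm, h3.symm]
  have e2 : ({p, q, c, c'} : Finset K).erase q = {p, c, c'} := by
    ext x; simp only [mem_erase, mem_insert, mem_singleton]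
    constructor
    · rintro ⟨a, b⟩; tauto
    · rintro (rfl | rfl | rfl) <;> simp [h1, h4.symm, h5.symm]
  have e3 : ({p, q, c, c'} : Finset K).erase c = {p, q, c'} := by
    ext x; simp only [mem_erase, mem_insert, mem_singleton]
    constructor
    · rintro ⟨a, b⟩; tauto
    · rintro (rfl | rfl | rfl) <;> simp [h2, h4, h6.symm]
  have e4 : ({p, q, c, c'} : Finset K).erase c' = {p, q, c} := by
    ext x; simp only [mem_erase, mem_insert, mem_singleton]
    constructor
    · rintro ⟨a, b⟩; tauto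
    · rintro (rfl | rfl | rfl) <;> simp [h3, h5, h6]
  rw [e1, e2, e3, e4]
  rw [prod_insert (by simp [h4, h5]), prod_insert (by simp [h6]), prod_singleton]
  rw [prod_insert (by simp [h2, h3]), prod_insert (by simp [h6]), prod_singleton]
  rw [prod_insert (by simp [h1, h3]), prod_insert (by simp [h5]), prod_singleton]
  rw [prod_insert (by simp [h1, h2]), prod_insert (by simp [h4]), prod_singleton]

/-- order of the four point sum -/
lemma tau_order (v : V) {p q c c' : K} (h1 : p ≠ q) (h2 : p ≠ c) (h3 : p ≠ c') (h4 : q ≠ c)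
    (h5 : q ≠ c') (h6 : c ≠ c') :
    tau P.D {p, q, c, c'} = 0 ∨
      (-((P.pl v).o (p - c) + (P.pl v).o (q - c') + (P.pl v).o (p - c') + (P.pl v).o (q - c)) - 2 -
        2 * (P.e v : ℤ) ≤ 2 * (P.pl v).o (tau P.D {p, q, c, c'}) ∧
      ((P.pl v).o (p - q) + (P.pl v).o (c - c') = (P.pl v).o (p - c) + (P.pl v).o (q - c') →
        (P.pl v).o (p - q) + (P.pl v).o (c - c') = (P.pl v).o (p - c') + (P.pl v).o (q - c) →
        -((P.pl v).o (p - c) + (P.pl v).o (q - c') + (P.pl v).o (p - c') + (P.pl v).o (q - c)) -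
        2 * (P.e v : ℤ) ≤ 2 * (P.pl v).o (tau P.D {p, q, c, c'}))) := by
  have n1 : p - q ≠ 0 := sub_ne_zero.mpr h1
  have n2 : p - c ≠ 0 := sub_ne_zero.mpr h2
  have n3 : p - c' ≠ 0 := sub_ne_zero.mpr h3
  have n4 : q - c ≠ 0 := sub_ne_zero.mpr h4
  have n5 : q - c' ≠ 0 := sub_ne_zero.mpr h5
  have n6 : c - c' ≠ 0 := sub_ne_zero.mpr h6
  set lam : K := ((p - c) * (q - c')) / ((p - c') * (q - c)) with hlam
  have hlam0 : lam ≠ 0 := div_ne_zero (mul_ne_zero n2 n5) (mul_ne_zero n3 n4)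
  have hone : 1 - lam = ((q - p) * (c - c')) / ((p - c') * (q - c)) := by
    rw [hlam]; field_simp; ring
  have hone0 : 1 - lam ≠ 0 := by
    rw [hone]
    exact div_ne_zero (mul_ne_zero (sub_ne_zero.mpr h1.symm) n6) (mul_ne_zero n3 n4)
  have hDlam : P.D lam = lam * ((p - q) * (c - c')) * tau P.D {p, q, c, c'} := by
    rw [tau_eq P.D h1 h2 h3 h4 h5 h6, hlam, P.D_div _ _ (mul_ne_zero n3 n4), P.D_mul, P.D_mul,
      P.D_sub, P.D_sub, P.D_sub, P.D_sub]
    have m1 : q - p ≠ 0 := sub_ne_zero.mpr h1.symm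
    have m2 : c - p ≠ 0 := sub_ne_zero.mpr h2.symm
    have m3 : c' - p ≠ 0 := sub_ne_zero.mpr h3.symm
    have m4 : c - q ≠ 0 := sub_ne_zero.mpr h4.symm
    have m5 : c' - q ≠ 0 := sub_ne_zero.mpr h5.symm
    have m6 : c' - c ≠ 0 := sub_ne_zero.mpr h6.symm
    rw [← neg_sub p q, ← neg_sub p c, ← neg_sub p c', ← neg_sub q c, ← neg_sub q c', ← neg_sub c c']
    field_simp
    ring
  by_cases ht : tau P.D {p, q, c, c'} = 0
  · exact Or.inl ht
  right
  have hD : P.D lam ≠ 0 := by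
    rw [hDlam]
    exact mul_ne_zero (mul_ne_zero hlam0 (mul_ne_zero n1 n6)) ht
  have hD1 : P.D (1 - lam) = - P.D lam := by rw [P.D_sub, P.D_one, zero_sub]
  have hD1' : P.D (1 - lam) ≠ 0 := by rw [hD1]; exact neg_ne_zero.mpr hD
  have o1 : (P.pl v).o (P.D lam) = (P.pl v).o lam + ((P.pl v).o (p - q) + (P.pl v).o (c - c')) +
      (P.pl v).o (tau P.D {p, q, c, c'}) := by
    rw [hDlam, (P.pl v).mul _ _ (mul_ne_zero hlam0 (mul_ne_zero n1 n6)) ht,
      (P.pl v).mul _ _ hlam0 (mul_ne_zero n1 n6), (P.pl v).mul _ _ n1 n6]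
  have o2 : (P.pl v).o lam = (P.pl v).o (p - c) + (P.pl v).o (q - c') - ((P.pl v).o (p - c') +
      (P.pl v).o (q - c)) := by
    rw [hlam, DV.o_div _ _ _ (mul_ne_zero n2 n5) (mul_ne_zero n3 n4), (P.pl v).mul _ _ n2 n5,
      (P.pl v).mul _ _ n3 n4]
  have o3 : (P.pl v).o (1 - lam) = (P.pl v).o (p - q) + (P.pl v).o (c - c') - ((P.pl v).o (p - c') +
      (P.pl v).o (q - c)) := by
    have m1 : q - p ≠ 0 := sub_ne_zero.mpr h1.symm
    rw [hone, DV.o_div _ _ _ (mul_ne_zero m1 n6) (mul_ne_zero n3 n4), (P.pl v).mul _ _ m1 n6,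
      (P.pl v).mul _ _ n3 n4, DV.o_sub_comm _ q p]
  have a1 := P.ord_D v lam hlam0 hD
  have a2 := P.ord_D' v lam hlam0 hD
  have b1 := P.ord_D v (1 - lam) hone0 hD1'
  have b2 := P.ord_D' v (1 - lam) hone0 hD1'
  rw [hD1, DV.o_neg] at b1 b2
  have c1 := (P.pl v).add lam (1 - lam) hlam0 hone0 (by simp)
  rw [add_sub_cancel, DV.o_one] at c1
  have c2 := (P.pl v).add 1 (-lam) one_ne_zero (neg_ne_zero.mpr hlam0) (by rwa [← sub_eq_add_neg])
  rw [← sub_eq_add_neg, DV.o_one, DV.o_neg] at c2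
  have c3 := (P.pl v).add 1 (-(1 - lam)) one_ne_zero (neg_ne_zero.mpr hone0) (by simpa using hlam0)
  rw [← sub_eq_add_neg, DV.o_one, DV.o_neg, sub_sub_cancel] at c3
  constructor
  · omega
  · intro s1 s2
    have := a2 (by omega)
    (clear * - o1 o2 o3 s1 s2 this; omega)

end tau

section det

variable {K : Type*} [Field K] {v : DV K}

lemma ge_prod {ι : Type*} (s : Finset ι) (c : ι → ℝ) (f : ι → K) (h : ∀ i ∈ s, v.ge (c i) (f i)) :
    v.ge (∑ i ∈ s, c i) (∏ i ∈ s, f i) := by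
  classical
  induction s using Finset.induction_on with
  | empty => simpa using DV.ge_one
  | insert a s ha ih =>
    rw [Finset.sum_insert ha, Finset.prod_insert ha]
    exact DV.ge_mul (h a (Finset.mem_insert_self a s)) (ih fun i hi => h i (Finset.mem_insert_of_mem hi))

lemma det_ge {r : ℕ} (M : Matrix (Fin r) (Fin r) K) (α β : Fin r → ℝ)
    (h : ∀ s t, v.ge (α s + β t) (M s t)) : v.ge (∑ s, α s + ∑ t, β t) M.det := by
  rw [Matrix.det_apply]
  apply DV.ge_sum
  intro σ _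
  have h1 : v.ge (∑ s, α s + ∑ t, β t) (∏ i, M (σ i) i) := by
    have h2 := ge_prod (v := v) univ (fun i => α (σ i) + β i) (fun i => M (σ i) i) (fun i _ => h _ _)
    rwa [sum_add_distrib, Equiv.sum_comp σ α] at h2
  rcases Int.units_eq_one_or (Equiv.Perm.sign σ) with h3 | h3
  · rw [h3, one_smul]; exact h1
  · rw [h3, Units.neg_smul, one_smul]; exact DV.ge_neg h1

/-- `I` is a star at `v` -/
def Star (v : DV K) (I : Finset K) : Prop :=
  ∀ p ∈ I, ∀ q ∈ I, ∀ c ∈ I, ∀ c' ∈ I, p ≠ q → p ≠ c → p ≠ c' → q ≠ c → q ≠ c' → c ≠ c' →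
    v.o (p - q) + v.o (c - c') = v.o (p - c) + v.o (q - c')

end det

section localam

variable {k K V : Type*} [Field k] [Field K] [Algebra k K] [DecidableEq K] (P : PSys k K V)

/-- oriented local inequality -/
lemma local_oriented (v : V) {I : Finset K} {r : ℕ} {A B : Fin (r + 1) → K} (h : Enum I A B)
    (hdet : (hankel P.D I r).det ≠ 0) (δ : ℤ) (hδ : δ = 1 ∨ (δ = 0 ∧ Star (P.pl v) I))
    (hor : ∑ i : Fin r, ∑ j : Fin r, od (P.pl v) (A i.succ) (A j.succ) +
      ∑ i : Fin r, ∑ j : Fin r, od (P.pl v) (B i.succ) (B j.succ) -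
      2 * ∑ i : Fin r, ∑ j : Fin r, od (P.pl v) (A i.succ) (B j.succ) +
      2 * ∑ i : Fin r, od (P.pl v) (A i.succ) (B i.succ) ≤ 0) :
    0 ≤ 4 * (P.pl v).o (hankel P.D I r).det + 4 * r * (δ + P.e v) +
      ∑ x ∈ I, ∑ y ∈ I, od (P.pl v) x y - 2 * ∑ i, od (P.pl v) (A i) (B i) := by
  set a : Fin r → K := fun i => A i.succ with ha
  set b : Fin r → K := fun i => B i.succ with hb
  have hainj : Function.Injective a := fun i j hij => Fin.succ_injective _ (h.injA hij)
  have hbinj : Function.Injective b := fun i j hij => Fin.succ_injective _ (h.injB hij)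
  obtain ⟨ha0, ha2⟩ := two_mul_o_det_cm (P.pl v) a hainj
  obtain ⟨hb0, hb2⟩ := two_mul_o_det_cm (P.pl v) b hbinj
  set M := cm a * hankel P.D I r * (cm b).transpose with hM
  have hMdet : M.det = (cm a).det * (hankel P.D I r).det * (cm b).det := by
    rw [hM, Matrix.det_mul, Matrix.det_mul, Matrix.det_transpose]
  have hM0 : M.det ≠ 0 := by
    rw [hMdet]; exact mul_ne_zero (mul_ne_zero ha0 hdet) hb0
  have hMo : (P.pl v).o M.det = (P.pl v).o (cm a).det + (P.pl v).o (hankel P.D I r).det +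
      (P.pl v).o (cm b).det := by
    rw [hMdet, (P.pl v).mul _ _ (mul_ne_zero ha0 hdet) hb0, (P.pl v).mul _ _ ha0 hdet]
  set α : Fin r → ℝ := fun s => -(((od (P.pl v) (a s) (A 0) : ℝ) + od (P.pl v) (a s) (B 0)) / 2) -
    δ - P.e v with hα
  set β : Fin r → ℝ := fun t => -(((od (P.pl v) (b t) (A 0) : ℝ) + od (P.pl v) (b t) (B 0)) / 2) with hβ
  have hge : ∀ s t, (P.pl v).ge (α s + β t) (M s t) := by
    intro s t
    rw [hM, entry_eq P.D h s t]
    have h1 : A s.succ ≠ B t.succ := h.ne _ _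
    have h2 : A s.succ ≠ A 0 := fun e => Fin.succ_ne_zero _ (h.injA e)
    have h3 : A s.succ ≠ B 0 := h.ne _ _
    have h4 : B t.succ ≠ A 0 := (h.ne _ _).symm
    have h5 : B t.succ ≠ B 0 := fun e => Fin.succ_ne_zero _ (h.injB e)
    have h6 : A 0 ≠ B 0 := h.ne _ _
    rcases tau_order P v h1 h2 h3 h4 h5 h6 with h0 | ⟨h7, h8⟩
    · exact Or.inl h0
    right
    have key : -((P.pl v).o (A s.succ - A 0) + (P.pl v).o (B t.succ - B 0) +
        (P.pl v).o (A s.succ - B 0) + (P.pl v).o (B t.succ - A 0)) - 2 * δ - 2 * (P.e v : ℤ) ≤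
        2 * (P.pl v).o (tau P.D {A s.succ, B t.succ, A 0, B 0}) := by
      rcases hδ with rfl | ⟨rfl, hst⟩
      · (clear * - h7; linarith)
      · have s1 := hst _ (h.memA s.succ) _ (h.memB t.succ) _ (h.memA 0) _ (h.memB 0) h1 h2 h3 h4 h5 h6
        have s2 := hst _ (h.memA s.succ) _ (h.memB t.succ) _ (h.memB 0) _ (h.memA 0) h1 h3 h2 h5 h4
          h6.symm
        rw [DV.o_sub_comm _ (B 0) (A 0)] at s2
        have := h8 s1 s2
        (clear * - this; linarith)
    have keyr : (-((P.pl v).o (A s.succ - A 0) + (P.pl v).o (B t.succ - B 0) +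
        (P.pl v).o (A s.succ - B 0) + (P.pl v).o (B t.succ - A 0)) - 2 * δ - 2 * (P.e v : ℝ)) ≤
        2 * (P.pl v).o (tau P.D {A s.succ, B t.succ, A 0, B 0}) := by exact_mod_cast key
    rw [hα, hβ, ha, hb]
    simp only
    rw [od_of_ne _ h2, od_of_ne _ h3, od_of_ne _ h4, od_of_ne _ h5]
    (clear * - keyr; linarith)
  have hdetge := DV.ge_le (det_ge M α β hge) hM0
  have hsumα : ∑ s, α s = -((∑ s, (od (P.pl v) (a s) (A 0) : ℝ)) + ∑ s, (od (P.pl v) (a s) (B 0) : ℝ)) / 2 -
      r * (δ + P.e v) := by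
    rw [hα]
    simp only [sum_sub_distrib, sum_neg_distrib, ← sum_div, sum_add_distrib, sum_const, card_univ,
      Fintype.card_fin, nsmul_eq_mul]
    ring
  have hsumβ : ∑ s, β s = -((∑ s, (od (P.pl v) (b s) (A 0) : ℝ)) + ∑ s, (od (P.pl v) (b s) (B 0) : ℝ)) / 2 := by
    rw [hβ]
    simp only [sum_neg_distrib, ← sum_div, sum_add_distrib]
    ring
  rw [hsumα, hsumβ, hMo] at hdetge
  have hdet2 : -(∑ s, od (P.pl v) (a s) (A 0) + ∑ s, od (P.pl v) (a s) (B 0) +
      (∑ s, od (P.pl v) (b s) (A 0) + ∑ s, od (P.pl v) (b s) (B 0))) - 2 * r * (δ + P.e v) ≤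
      ∑ i, ∑ j, od (P.pl v) (a i) (a j) + 2 * (P.pl v).o (hankel P.D I r).det +
        ∑ i, ∑ j, od (P.pl v) (b i) (b j) := by
    rw [← ha2, ← hb2]
    have : ((-(∑ s, od (P.pl v) (a s) (A 0) + ∑ s, od (P.pl v) (a s) (B 0) +
      (∑ s, od (P.pl v) (b s) (A 0) + ∑ s, od (P.pl v) (b s) (B 0))) - 2 * r * (δ + P.e v) : ℤ) : ℝ) ≤
      ((2 * (P.pl v).o (cm a).det + 2 * (P.pl v).o (hankel P.D I r).det +
        2 * (P.pl v).o (cm b).det : ℤ) : ℝ) := by
      push_cast at hdetge ⊢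
      (clear * - hdetge; linarith)
    exact_mod_cast this
  -- the total sum
  have hTot : ∑ x ∈ I, ∑ y ∈ I, od (P.pl v) x y =
      ∑ i, ∑ j, od (P.pl v) (a i) (a j) + ∑ i, ∑ j, od (P.pl v) (b i) (b j) +
      2 * ∑ i, ∑ j, od (P.pl v) (a i) (b j) +
      2 * (∑ s, od (P.pl v) (a s) (A 0) + ∑ s, od (P.pl v) (a s) (B 0) +
      (∑ s, od (P.pl v) (b s) (A 0) + ∑ s, od (P.pl v) (b s) (B 0))) + 2 * od (P.pl v) (A 0) (B 0) := by
    have e0 : ∀ x, ∑ y ∈ I, od (P.pl v) x y = (od (P.pl v) x (A 0) + ∑ j, od (P.pl v) x (a j)) +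
        (od (P.pl v) x (B 0) + ∑ j, od (P.pl v) x (b j)) := by
      intro x
      rw [h.sum, Fin.sum_univ_succ, Fin.sum_univ_succ]
    simp only [e0]
    rw [h.sum, Fin.sum_univ_succ, Fin.sum_univ_succ]
    rw [od_self, od_self, od_comm _ (B 0) (A 0)]
    simp only [sum_add_distrib]
    have f1 : ∑ j, od (P.pl v) (A 0) (a j) = ∑ j, od (P.pl v) (a j) (A 0) :=
      sum_congr rfl fun j _ => od_comm _ _ _
    have f2 : ∑ j, od (P.pl v) (A 0) (b j) = ∑ j, od (P.pl v) (b j) (A 0) :=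
      sum_congr rfl fun j _ => od_comm _ _ _
    have f3 : ∑ j, od (P.pl v) (B 0) (a j) = ∑ j, od (P.pl v) (a j) (B 0) :=
      sum_congr rfl fun j _ => od_comm _ _ _
    have f4 : ∑ j, od (P.pl v) (B 0) (b j) = ∑ j, od (P.pl v) (b j) (B 0) :=
      sum_congr rfl fun j _ => od_comm _ _ _
    have f5 : ∑ i, ∑ j, od (P.pl v) (b i) (a j) = ∑ i, ∑ j, od (P.pl v) (a i) (b j) := by
      rw [sum_comm]
      exact sum_congr rfl fun i _ => sum_congr rfl fun j _ => od_comm _ _ _
    rw [f1, f2, f3, f4]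
    change _ + (_ + _ + _) + _ = _ at *
    have g1 : ∀ i : Fin r, A i.succ = a i := fun _ => rfl
    have g2 : ∀ i : Fin r, B i.succ = b i := fun _ => rfl
    simp only [g1, g2]
    rw [f5]
    ring
  rw [hTot, Fin.sum_univ_succ]
  have g1 : ∀ i : Fin r, A i.succ = a i := fun _ => rfl
  have g2 : ∀ i : Fin r, B i.succ = b i := fun _ => rfl
  simp only [g1, g2] at hor ⊢
  (clear * - hdet2 hor; linarith)

/-- **Local inequality** for any enumeration. -/
lemma local_am (v : V) {I : Finset K} {r : ℕ} {A B : Fin (r + 1) → K} (h : Enum I A B)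
    (hdet : (hankel P.D I r).det ≠ 0) (δ : ℤ) (hδ : δ = 1 ∨ (δ = 0 ∧ Star (P.pl v) I)) :
    0 ≤ 4 * (P.pl v).o (hankel P.D I r).det + 4 * r * (δ + P.e v) +
      ∑ x ∈ I, ∑ y ∈ I, od (P.pl v) x y - 2 * ∑ i, od (P.pl v) (A i) (B i) := by
  classical
  set φ : K → K → ℤ := od (P.pl v) with hφ
  have hφc : ∀ x y, φ x y = φ y x := fun x y => od_comm _ _ _
  have hφs : ∀ x, φ x x = 0 := fun x => od_self _ _
  obtain ⟨ε, hε, hsum⟩ := exists_signs
    (fun i j : Fin r => if i = j then (0 : ℤ) else φ (A i.succ) (A j.succ) + φ (B i.succ) (B j.succ) -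
      φ (A i.succ) (B j.succ) - φ (B i.succ) (A j.succ)) (by
      intro i j
      by_cases hij : i = j
      · simp [hij]
      · rw [if_neg hij, if_neg (Ne.symm hij), hφc (A j.succ), hφc (B j.succ), hφc (A j.succ),
          hφc (B j.succ) (A i.succ)]
        ring) (by intro i; simp) univ
  set p : Fin (r + 1) → Prop := fun i => (Fin.cons 1 ε : Fin (r + 1) → ℤ) i = 1 with hp
  have hsw := h.swap p
  have hp0 : p 0 := by rw [hp]; simp
  have hps : ∀ i : Fin r, p i.succ ↔ ε i = 1 := by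
    intro i; rw [hp]; simp
  have := local_oriented P v hsw hdet δ hδ (by
    refine le_trans (le_of_eq ?_) hsum
    have key : ∀ i j : Fin r, ε i * ε j * (if i = j then (0 : ℤ) else
        φ (A i.succ) (A j.succ) + φ (B i.succ) (B j.succ) -
        φ (A i.succ) (B j.succ) - φ (B i.succ) (A j.succ)) =
        φ (if p i.succ then A i.succ else B i.succ) (if p j.succ then A j.succ else B j.succ) +
        φ (if p i.succ then B i.succ else A i.succ) (if p j.succ then B j.succ else A j.succ) -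
        φ (if p i.succ then A i.succ else B i.succ) (if p j.succ then B j.succ else A j.succ) -
        φ (if p j.succ then A j.succ else B j.succ) (if p i.succ then B i.succ else A i.succ) +
        (if i = j then 2 * φ (if p i.succ then A i.succ else B i.succ)
          (if p i.succ then B i.succ else A i.succ) else 0) := by
      intro i j
      by_cases hij : i = j
      · subst hij
        rw [if_pos rfl, if_pos rfl, mul_zero, hφs, hφs]
        ring
      · rw [if_neg hij, if_neg hij, add_zero]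
        simp only [hps]
        rcases hε i with h1 | h1 <;> rcases hε j with h2 | h2
        · rw [h1, h2]; simp only [if_true]; rw [hφc (A j.succ) (B i.succ)]; ring
        · rw [h1, h2]; simp only [if_true]
          rw [if_neg (by norm_num), if_neg (by norm_num), hφc (B j.succ) (B i.succ)]; ring
        · rw [h1, h2]; simp only [if_true]
          rw [if_neg (by norm_num), if_neg (by norm_num), hφc (A j.succ) (A i.succ)]; ring
        · rw [h1, h2]
          rw [if_neg (by norm_num), if_neg (by norm_num), if_neg (by norm_num), if_neg (by norm_num),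
            hφc (B j.succ) (A i.succ)]; ring
    simp only [key, sum_add_distrib, sum_sub_distrib]
    have e1 : ∑ i : Fin r, ∑ j : Fin r, φ (if p j.succ then A j.succ else B j.succ)
        (if p i.succ then B i.succ else A i.succ) =
        ∑ i : Fin r, ∑ j : Fin r, φ (if p i.succ then A i.succ else B i.succ)
        (if p j.succ then B j.succ else A j.succ) := sum_comm
    have e2 : ∑ i : Fin r, ∑ j : Fin r, (if i = j then 2 * φ (if p i.succ then A i.succ else B i.succ)
          (if p i.succ then B i.succ else A i.succ) else 0) =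
        2 * ∑ i : Fin r, φ (if p i.succ then A i.succ else B i.succ)
          (if p i.succ then B i.succ else A i.succ) := by
      rw [mul_sum]
      apply sum_congr rfl
      intro i _
      rw [sum_ite_eq]
      simp
    rw [e1, e2]
    ring)
  refine this.trans (le_of_eq ?_)
  congr 2
  apply sum_congr rfl
  intro i _
  by_cases hpi : p i
  · rw [if_pos hpi, if_pos hpi]
  · rw [if_neg hpi, if_neg hpi, od_comm]

/-- **The Arakelov matching inequality.** -/
theorem am {I : Finset K} {r : ℕ} (hdet : (hankel P.D I r).det ≠ 0) (T S : Finset V)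
    (hTe : ∀ v, v ∉ T → P.e v = 0)
    (hTI : ∀ v, v ∉ T → ∀ x ∈ I, ∀ y ∈ I, x ≠ y → (P.pl v).o (x - y) = 0)
    (hS : ∀ v ∈ T, v ∉ S → Star (P.pl v) I) (A B : V → Fin (r + 1) → K)
    (hE : ∀ v ∈ T, Enum I (A v) (B v)) :
    ∑ v ∈ T, ∑ i, (P.pl v).o (A v i - B v i) ≤ 2 * r * ((S.card : ℤ) + P.E) := by
  classical
  rcases T.eq_empty_or_nonempty with rfl | ⟨v0, hv0⟩
  · rw [sum_empty]; (clear * -; positivity)
  obtain ⟨T1, _, hT1⟩ := P.exists_finset {(hankel P.D I r).det} (by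
    intro x hx; rw [mem_singleton] at hx; rw [hx]; exact hdet)
  have hT1' := hT1 _ (mem_singleton_self _)
  set T2 := T ∪ T1 with hT2
  have s1 := P.sum_eq_zero T2 _ hdet (fun v hv => hT1' v fun h => hv (mem_union_right _ h))
  have hout : ∀ v, v ∉ T → 0 ≤ (P.pl v).o (hankel P.D I r).det := by
    intro v hv
    have hod : ∀ x ∈ I, ∀ y ∈ I, od (P.pl v) x y = 0 := by
      intro x hx y hy
      unfold od
      split_ifs with h
      · rfl
      · exact hTI v hv x hx y hy h
    have := local_am P v (hE v0 hv0) hdet 0 (Or.inr ⟨rfl, by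
      intro p hp q hq c hc c' hc' h1 h2 h3 h4 h5 h6
      rw [hTI v hv p hp q hq h1, hTI v hv c hc c' hc' h6, hTI v hv p hp c hc h2,
        hTI v hv q hq c' hc' h5]⟩)
    rw [hTe v hv, sum_congr rfl (fun x hx => sum_congr rfl fun y hy => hod x hx y hy),
      sum_congr rfl (fun i _ => hod _ ((hE v0 hv0).memA i) _ ((hE v0 hv0).memB i))] at this
    simp only [sum_const_zero] at this
    push_cast at this
    (clear * - this; linarith)
  have s2 : ∑ v ∈ T, (P.pl v).o (hankel P.D I r).det ≤ 0 := by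
    rw [← s1, hT2, ← sum_sdiff subset_union_left]
    have : 0 ≤ ∑ v ∈ (T ∪ T1) \ T, (P.pl v).o (hankel P.D I r).det := by
      apply sum_nonneg
      intro v hv
      exact hout v (mem_sdiff.mp hv).2
    (clear * - this; linarith)
  have s3 : ∑ v ∈ T, ∑ x ∈ I, ∑ y ∈ I, od (P.pl v) x y = 0 := by
    rw [sum_comm]
    apply sum_eq_zero
    intro x hx
    rw [sum_comm]
    apply sum_eq_zero
    intro y hy
    by_cases hxy : x = y
    · apply sum_eq_zero
      intro v _
      rw [hxy, od_self]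
    · rw [sum_congr rfl (fun v _ => od_of_ne (P.pl v) hxy)]
      exact P.sum_eq_zero T (x - y) (sub_ne_zero.mpr hxy) fun v hv => hTI v hv x hx y hy hxy
  have s4 : ∀ v ∈ T, 2 * ∑ i, (P.pl v).o (A v i - B v i) ≤
      4 * (P.pl v).o (hankel P.D I r).det + 4 * r * ((if v ∈ S then 1 else 0) + P.e v) +
      ∑ x ∈ I, ∑ y ∈ I, od (P.pl v) x y := by
    intro v hv
    have := local_am P v (hE v hv) hdet (if v ∈ S then 1 else 0) (by
      by_cases h : v ∈ S
      · left; rw [if_pos h]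
      · right; exact ⟨by rw [if_neg h], hS v hv h⟩)
    rw [sum_congr rfl (fun i _ => od_of_ne (P.pl v) ((hE v hv).ne i i))] at this
    linarith
  have s5 := sum_le_sum s4
  simp only [sum_add_distrib, ← mul_sum] at s5
  rw [s3] at s5
  have s6 : ∑ v ∈ T, (if v ∈ S then (1 : ℤ) else 0) ≤ S.card := by
    rw [sum_ite_mem, sum_const, nsmul_eq_mul, mul_one]
    exact_mod_cast card_le_card inter_subset_right
  have s7 : ∑ v ∈ T, (P.e v : ℤ) ≤ P.E := by exact_mod_cast P.sum_e_le T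
  have s8 : 4 * (r : ℤ) * (∑ v ∈ T, (if v ∈ S then (1 : ℤ) else 0) + ∑ v ∈ T, (P.e v : ℤ)) ≤
      4 * r * ((S.card : ℤ) + P.E) := by
    apply mul_le_mul_of_nonneg_left (by (clear * - s6 s7; linarith)) (by (clear * -; positivity))
  (clear * - s2 s5 s8; linarith)

end localam

end UB

end Pool.Agent.Helper33

end

section

set_option autoImplicit false

open Polynomial

namespace Pool.Agent.Helper33.PS

/-- order of the pole -/
noncomputable def neg {K : Type*} [Field K] (v : DV K) (x : K) : ℤ :=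
  open Classical in if x = 0 then 0 else max 0 (-(v.o x))

/-- height -/
noncomputable def ht {k K V : Type*} [Field k] [Field K] [Algebra k K] (P : PSys k K V) (x : K) : ℤ :=
  ∑ᶠ v, neg (P.pl v) x

end Pool.Agent.Helper33.PS

end

section

set_option autoImplicit false

open Finset Polynomial

namespace Pool.Agent.Helper33.UB

/-- a long orbit with its local data -/
structure GInst {k K V : Type*} [Field k] [Field K] [Algebra k K] [DecidableEq K] (P : PSys k K V)
    (c : GConst) (N : ℕ) (M : ℝ) where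
  /-- the orbit -/
  x : ℕ → K
  /-- the relevant places -/
  T : Finset V
  inj : ∀ i j, i ≤ N → j ≤ N → x i = x j → i = j
  Te : ∀ v, v ∉ T → P.e v = 0
  Tx : ∀ v, v ∉ T → ∀ i j, i ≤ N → j ≤ N → i ≠ j → (P.pl v).o (x i - x j) = 0
  /-- badness -/
  ε : V → ℝ
  ε_nonneg : ∀ v ∈ T, 0 ≤ ε v
  disc : ∀ v ∈ T, 0 < ε v → c.δ0 ≤ ε v
  /-- local heights -/
  β : V → ℕ → ℝ
  sumβ : ∀ i, i ≤ N → ∑ v ∈ T, β v i = 0
  lower : ∀ v ∈ T, ∀ i j, i ≤ N → j ≤ N → i ≠ j →
    -(c.C1 * ε v) ≤ (P.pl v).o (x i - x j) + β v i + β v j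
  lb : ∀ v ∈ T, ∀ s : Finset ℕ, (∀ i ∈ s, i ≤ N) → c.N0 < s.card →
    ∃ i ∈ s, ∃ j ∈ s, i ≠ j ∧ c.c0 * ε v ≤ (P.pl v).o (x i - x j) + β v i + β v j
  /-- vertices -/
  Vx : V → Type
  /-- directions -/
  Dr : V → Type
  /-- the trees -/
  S : ∀ v, TreeDyn (Vx v) (Dr v) c.d
  /-- the levels -/
  Lv : ∀ v, (S v).Levels (c.depth M)
  star : ∀ v ∈ T, ∀ ζ : Vx v, ∀ s : Finset ℕ, (∀ i ∈ s, i ≤ N) →
    (∀ i ∈ s, ∀ j ∈ s, i ≠ j → (S v).dir ζ i ≠ (S v).dir ζ j) → Star (P.pl v) (s.image x)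
  deep : ∀ v ∈ T, ε v < M → ∀ i j, i ≤ N → j ≤ N → i ≠ j →
    (S v).dir ((Lv v).vtx (c.depth M - 1) i) j = (S v).dir ((Lv v).vtx (c.depth M - 1) i) i →
    c.C1 * M + 5 ≤ (P.pl v).o (x i - x j) + β v i + β v j
  good : ∀ v ∈ T, ε v = 0 → ∀ s : Finset ℕ, (∀ i ∈ s, i ≤ N) → ¬ Star (P.pl v) (s.image x) →
    ∃ i ∈ s, ∃ j ∈ s, i < j ∧ c.c1 ≤ (P.pl v).o (x i - x j) + β v i + β v j
  persist : ∀ v ∈ T, ε v = 0 → ∀ i j, i < j → j < N →
    c.c1 ≤ (P.pl v).o (x i - x j) + β v i + β v j →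
    c.c1 ≤ (P.pl v).o (x (i + 1) - x (j + 1)) + β v (i + 1) + β v (j + 1)
  trans : ∀ v ∈ T, ε v = 0 → ∀ i j l, i < j → j < l → l ≤ N →
    c.c1 ≤ (P.pl v).o (x i - x j) + β v i + β v j →
    c.c1 ≤ (P.pl v).o (x j - x l) + β v j + β v l →
    c.c1 ≤ (P.pl v).o (x i - x l) + β v i + β v l
  ode : ∀ r : ℕ, ∀ Λ : Finset ℕ, c.nYOf r ≤ Λ.card → (∀ j ∈ Λ, j + c.mOf r ≤ N) →
    Rel P.D r (Λ.image x) → Rel P.D r (Λ.image fun j => x (j + c.mOf r)) →
    ∃ Λ' ⊆ Λ, Λ.card ≤ Λ'.card + r ∧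
      ∀ v ∈ T, Star (P.pl v) (Λ'.image fun j => x (j + c.mOf r))

namespace GInst

variable {k K V : Type*} [Field k] [Field K] [Algebra k K] [DecidableEq K] {P : PSys k K V}
  {c : GConst} {N : ℕ} {M : ℝ} (I : GInst P c N M)

/-- the Green function -/
noncomputable def g (v : V) (i j : ℕ) : ℝ := (P.pl v).o (I.x i - I.x j) + I.β v i + I.β v j

/-- total badness -/
noncomputable def h : ℝ := ∑ v ∈ I.T, I.ε v

lemma sum_g {i j : ℕ} (hi : i ≤ N) (hj : j ≤ N) (hij : i ≠ j) : ∑ v ∈ I.T, I.g v i j = 0 := by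
  unfold g
  rw [sum_add_distrib, sum_add_distrib, I.sumβ i hi, I.sumβ j hj, add_zero, add_zero]
  have h1 : I.x i - I.x j ≠ 0 := sub_ne_zero.mpr fun h => hij (I.inj i j hi hj h)
  exact_mod_cast P.sum_eq_zero I.T _ h1 fun v hv => I.Tx v hv i j hi hj hij

/-- number of very bad places -/
lemma card_bad {t : ℝ} (ht : 0 < t) (s : Finset V) (hs : s ⊆ I.T) (h : ∀ v ∈ s, t ≤ I.ε v) :
    (s.card : ℝ) ≤ I.h / t := by
  rw [le_div_iff₀ ht]
  calc (s.card : ℝ) * t = ∑ v ∈ s, t := by rw [sum_const, nsmul_eq_mul]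
    _ ≤ ∑ v ∈ s, I.ε v := sum_le_sum h
    _ ≤ I.h := sum_le_sum_of_subset_of_nonneg hs fun v hv _ => I.ε_nonneg v hv

/-- the `lb` matching -/
lemma exists_lb_matching {R : ℕ} (hR : c.N0 * (c.c0 + c.C1) ≤ (R + 1) * c.c0) {v : V} (hv : v ∈ I.T)
    (s : Finset ℕ) (hs : ∀ i ∈ s, i ≤ N) (hcard : s.card = 2 * (R + 1)) :
    ∃ A B : Fin (R + 1) → ℕ, Enum s A B ∧
      (R + 1) * (c.c0 / 2 * I.ε v) ≤ ∑ i, I.g v (A i) (B i) := by
  classical
  obtain ⟨A, B, hE, hbad⟩ := exists_greedy (fun i j => c.c0 * I.ε v ≤ I.g v i j) c.N0 (R + 1) s hcard (by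
    intro s' hs' hs''
    exact I.lb v hv s' (fun i hi => hs i (hs' hi)) hs'')
  refine ⟨A, B, hE, ?_⟩
  have hε := I.ε_nonneg v hv
  have hc0 := c.hc0
  have hC1 := c.hC1
  have h1 := sum_ge_of_greedy (fun i => I.g v (A i) (B i)) (fun i => c.c0 * I.ε v ≤ I.g v (A i) (B i))
    (c := c.c0 * I.ε v) (e := c.C1 * I.ε v) (N0 := c.N0) (by (clear * - hc0 hε; positivity))
    (mul_nonneg (by (clear * - hC1; linarith)) hε) (by exact_mod_cast hbad) (fun i hi => hi)
    (fun i => I.lower v hv _ _ (hs _ (hE.memA i)) (hs _ (hE.memB i)) (hE.ne i i))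
  refine le_trans ?_ h1
  push_cast
  have h2 : c.N0 * (c.c0 + c.C1) * I.ε v ≤ (R + 1) * c.c0 * I.ε v := mul_le_mul_of_nonneg_right hR hε
  (clear * - h2; linarith)

/-- image of an enumeration -/
lemma enum_image {x : ℕ → K} {s : Finset ℕ} (hinj : Set.InjOn x (s : Set ℕ)) {m : ℕ}
    {A B : Fin m → ℕ} (h : Enum s A B) : Enum (s.image x) (fun i => x (A i)) (fun i => x (B i)) := by
  refine ⟨fun i j hij => h.injA (hinj (h.memA i) (h.memA j) hij),
    fun i j hij => h.injB (hinj (h.memB i) (h.memB j) hij), fun i j hij =>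
      h.ne i j (hinj (h.memA i) (h.memB j) hij), ?_⟩
  conv_lhs => rw [h.cover]
  rw [image_union, image_image, image_image]
  rfl

lemma injOn {s : Finset ℕ} (hs : ∀ i ∈ s, i ≤ N) : Set.InjOn I.x (s : Set ℕ) :=
  fun i hi j hj h => I.inj i j (hs i hi) (hs j hj) h

/-- sums of Green functions over matchings -/
lemma sum_matching {m : ℕ} {s : Finset ℕ} {A B : Fin m → ℕ} (hE : Enum s A B) (v : V) :
    ∑ i, I.g v (A i) (B i) = ∑ i, ((P.pl v).o (I.x (A i) - I.x (B i)) : ℝ) + ∑ j ∈ s, I.β v j := by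
  unfold g
  rw [hE.sum, sum_add_distrib, sum_add_distrib]
  ring

/-- closeness at a good place persists -/
lemma persist_iter {v : V} (hv : v ∈ I.T) (hε : I.ε v = 0) {i j : ℕ} (hij : i < j)
    (h : c.c1 ≤ I.g v i j) : ∀ t, j + t ≤ N → c.c1 ≤ I.g v (i + t) (j + t) := by
  intro t
  induction t with
  | zero => intro _; exact h
  | succ t ih =>
    intro ht
    exact I.persist v hv hε (i + t) (j + t) (by omega) (by omega) (ih (by omega))

lemma persist_mul {v : V} (hv : v ∈ I.T) (hε : I.ε v = 0) {i m : ℕ} (hm : 1 ≤ m)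
    (h : c.c1 ≤ I.g v i (i + m)) {n : ℕ} (hn : i ≤ n) : ∀ q, 1 ≤ q → n + q * m ≤ N →
      c.c1 ≤ I.g v n (n + q * m) := by
  intro q
  induction q with
  | zero => intro h0; omega
  | succ q ih =>
    intro _ hq
    have hstep : ∀ a, i ≤ a → a + m ≤ N → c.c1 ≤ I.g v a (a + m) := by
      intro a ha haN
      have := I.persist_iter hv hε (by omega) h (a - i) (by omega)
      rwa [show i + (a - i) = a by omega, show i + m + (a - i) = a + m by omega] at this
    rw [Nat.succ_mul] at hq ⊢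
    rcases Nat.eq_zero_or_pos q with rfl | hq0
    · rw [zero_mul, zero_add]
      exact hstep n hn (by omega)
    · have h1 := ih hq0 (by omega)
      have h2 := hstep (n + q * m) (by omega) (by omega)
      have hqm : 1 ≤ q * m := Nat.mul_pos hq0 hm
      rw [show n + (q * m + m) = n + q * m + m by ring]
      exact I.trans v hv hε n (n + q * m) (n + q * m + m) (by omega) (by omega) (by omega) h1 h2

end GInst

end Pool.Agent.Helper33.UB

end

section

set_option autoImplicit false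

open Finset Polynomial

namespace Pool.Agent.Helper33.UB

open TreeDyn

namespace GInst

variable {k K V : Type*} [Field k] [Field K] [Algebra k K] [DecidableEq K] {P : PSys k K V}
  {c : GConst} {N : ℕ} {M : ℝ} (I : GInst P c N M)

open Classical in
/-- relevant places -/
noncomputable def rel (n Nst : ℕ) : Finset V :=
  I.T.filter fun v => (0 < I.ε v ∧ I.ε v < M) ∨ (I.ε v = 0 ∧ c.c1 ≤ I.g v n (n + Nst))

end GInst

end Pool.Agent.Helper33.UB

end

section

set_option autoImplicit false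

open Polynomial Finset

namespace Pool.Agent.Helper33.UB

variable {K : Type*} [Field K]

/-- closed disc -/
def ball (v : DV K) (x : K) (r : ℤ) : Set K := {z | z = x ∨ r ≤ v.o (z - x)}

section ball

variable {v : DV K}

lemma mem_ball {x z : K} {r : ℤ} : z ∈ ball v x r ↔ z = x ∨ r ≤ v.o (z - x) := Iff.rfl

lemma mem_ball_self (x : K) (r : ℤ) : x ∈ ball v x r := Or.inl rfl

lemma mem_ball_symm {x z : K} {r : ℤ} (h : z ∈ ball v x r) : x ∈ ball v z r := by
  rcases h with h | h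
  · exact Or.inl h.symm
  · right; rwa [v.o_sub_comm]

lemma mem_ball_trans {x y z : K} {r : ℤ} (h1 : x ∈ ball v y r) (h2 : y ∈ ball v z r) :
    x ∈ ball v z r := by
  by_cases hxz : x = z
  · exact Or.inl hxz
  rcases h1 with rfl | h1
  · exact h2
  rcases h2 with rfl | h2
  · exact Or.inr h1
  by_cases hxy : x = y
  · subst hxy; exact Or.inr h2
  by_cases hyz : y = z
  · subst hyz; exact Or.inr h1
  right
  have h3 := v.add (x - y) (y - z) (sub_ne_zero.mpr hxy) (sub_ne_zero.mpr hyz) (by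
    rw [sub_add_sub_cancel]; exact sub_ne_zero.mpr hxz)
  rw [sub_add_sub_cancel] at h3
  exact (le_min h1 h2).trans h3

lemma mem_ball_iff_ge {x z : K} {r : ℤ} : z ∈ ball v x r ↔ v.ge (r : ℝ) (z - x) := by
  rw [mem_ball]
  unfold DV.ge
  rw [sub_eq_zero]
  constructor
  · rintro (h | h)
    · exact Or.inl h
    · right; exact_mod_cast h
  · rintro (h | h)
    · exact Or.inl h
    · right; exact_mod_cast h

end ball

section tree

/-- vertices: discs with their radius -/
def PV (v : DV K) : Type _ := {p : Set K × ℤ // ∃ x, p.1 = ball v x p.2}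

/-- the disc as a vertex -/
def PV.mk (v : DV K) (x : K) (r : ℤ) : PV v := ⟨(ball v x r, r), x, rfl⟩

lemma PV.o_of_notMem {v : DV K} {a y z z' : K} {r : ℤ} (hy : y ∉ ball v a r) (hz : z ∈ ball v a r)
    (hz' : z' ∈ ball v a r) : v.o (y - z) = v.o (y - z') := by
  by_cases hzz : z = z'
  · rw [hzz]
  have h1 : z ∈ ball v z' r := mem_ball_trans hz (mem_ball_symm hz')
  have h1' : r ≤ v.o (z - z') := by
    rcases mem_ball.mp h1 with h | h
    · exact absurd h hzz
    · exact h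
  have h2 : y ∉ ball v z r := fun h => hy (mem_ball_trans h hz)
  have h3 : y ∉ ball v z' r := fun h => hy (mem_ball_trans h hz')
  rw [mem_ball, not_or] at h2 h3
  have h4 := v.add (y - z) (z - z') (sub_ne_zero.mpr h2.1) (sub_ne_zero.mpr hzz) (by
    rw [sub_add_sub_cancel]; exact sub_ne_zero.mpr h3.1)
  rw [sub_add_sub_cancel] at h4
  have h5 := v.add (y - z') (z' - z) (sub_ne_zero.mpr h3.1) (sub_ne_zero.mpr (Ne.symm hzz)) (by
    rw [sub_add_sub_cancel]; exact sub_ne_zero.mpr h2.1)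
  rw [sub_add_sub_cancel, v.o_sub_comm z' z] at h5
  omega

end tree

end Pool.Agent.Helper33.UB

end

section

set_option autoImplicit false

open Polynomial Finset Pool.Agent.Helper33 Pool.Agent.Helper33.UB

namespace Pool.Agent.Helper51.RatTree

variable {K : Type*} [Field K]

open Classical in
/-- order of `y` in the coordinate at the disc of centre `a` and radius `r` -/
noncomputable def nn (v : DV K) (a : K) (r : ℤ) (y : K) : ℤ := if y = a then r else min (v.o (y - a)) r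

section nn

variable {v : DV K} {a : K} {r : ℤ}

lemma nn_le (y : K) : nn v a r y ≤ r := by
  unfold nn
  split_ifs
  · exact le_rfl
  · exact min_le_right _ _

lemma nn_of_mem {y : K} (h : y ∈ ball v a r) : nn v a r y = r := by
  unfold nn
  split_ifs with h1
  · rfl
  · rcases h with h | h
    · exact absurd h h1
    · exact min_eq_right h

lemma nn_of_notMem {y : K} (h : y ∉ ball v a r) : nn v a r y = v.o (y - a) ∧ v.o (y - a) < r := by
  rw [mem_ball, not_or, not_le] at h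
  unfold nn
  rw [if_neg h.1]
  exact ⟨min_eq_left h.2.le, h.2⟩

lemma ge_nn (y : K) : v.ge (nn v a r y) (y - a) := by
  by_cases h : y ∈ ball v a r
  · rw [nn_of_mem h]
    exact mem_ball_iff_ge.mp h
  · rw [(nn_of_notMem h).1]
    exact DV.ge_self _

end nn

end Pool.Agent.Helper51.RatTree

end

section

set_option autoImplicit false

open Polynomial Finset Pool.Agent.Helper33 Pool.Agent.Helper51.RatTree

namespace Pool.Agent.Helper55.RD

variable {K : Type*} [Field K] {v : DV K}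

/-- the Gromov product of two points at a vertex -/
noncomputable def gp (v : DV K) (a : K) (r : ℤ) (x y : K) : ℤ :=
  v.o (x - y) + r - nn v a r x - nn v a r y

end Pool.Agent.Helper55.RD

end

section

set_option autoImplicit false

open Polynomial Finset Pool.Agent.Helper33 Pool.Agent.Helper51.RatTree

namespace Pool.Agent.Helper55.RD

variable {K : Type*} [Field K]

/-- the local Arakelov-Green function in affine coordinates -/
noncomputable def gg (v : DV K) (d : ℕ) (P Q : K[X]) (H : K → ℝ) (x y : K) : ℝ :=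
  v.o (x - y) - H x - H y + v.o (resultant P Q d d) / (d * (d - 1))

/-- the constant in the local lower bound -/
noncomputable def c₀ (d : ℕ) : ℝ := ep d / (d * (d - 1))

end Pool.Agent.Helper55.RD

end

section

set_option autoImplicit false

open Finset Polynomial

namespace Pool.Agent.Helper33.UB

open Pool.Agent.Helper51.RatTree Pool.Agent.Helper55.RD Pool.Agent.Helper93.RatODE
  Pool.Agent.Helper45.FR

section inst

variable {k K V : Type} [Field k] [Field K] [Algebra k K] {P : PSys k K V}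
  {F G : K[X]} {x : ℕ → K} {N d : ℕ}

/-- local data -/
structure RLoc (v : DV K) (F G : K[X]) (d : ℕ) (X : Finset K) (H : K → ℝ) where
  ε : ℕ
  a : K
  r : ℤ
  close : ∀ x ∈ X, ∀ y ∈ X, x ≠ y → |gg v d F G H x y - gp v a r x y| ≤ 2 * ε
  lb : ∀ s ⊆ X, N₀ d ≤ s.card → ∃ x ∈ s, ∃ y ∈ s, x ≠ y ∧ c₀ d * ε ≤ gg v d F G H x y
  good : ε = 0 → ∀ x ∈ X, ∀ y ∈ X, F.eval x / G.eval x ≠ F.eval y / G.eval y →
        gp v a r x y ≤ gp v a r (F.eval x / G.eval x) (F.eval y / G.eval y)

end inst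

end Pool.Agent.Helper33.UB

end

section

set_option autoImplicit false

open Finset Polynomial

namespace Pool.Agent.Helper98.PS

open Pool.Agent.Helper33 Pool.Agent.Helper33.PS Pool.Agent.Helper93.RatODE Pool.Agent.Helper55.RD

variable {K : Type*} [Field K]

section anyplace

lemma neg_nonneg' (v : DV K) (x : K) : 0 ≤ neg v x := by
  unfold neg
  split_ifs
  · exact le_rfl
  · exact le_max_left _ _

lemma ge_neg_self (v : DV K) (x : K) : v.ge (-(neg v x : ℝ)) x := by
  by_cases h : x = 0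
  · exact Or.inl h
  right
  unfold neg
  rw [if_neg h]
  have h1 : -(v.o x) ≤ max 0 (-(v.o x)) := le_max_right _ _
  have h2 : (-(max 0 (-(v.o x))) : ℤ) ≤ v.o x := by (clear * - h1; omega)
  exact_mod_cast h2

lemma ge_neg_pow (v : DV K) (x : K) {a b : ℕ} (hab : a ≤ b) :
    v.ge (-((b : ℝ) * neg v x)) (x ^ a) := by
  refine DV.ge_mono (DV.ge_pow (ge_neg_self v x) a) ?_
  have h1 : (0 : ℝ) ≤ neg v x := by exact_mod_cast neg_nonneg' v x
  have h2 : (a : ℝ) ≤ b := by exact_mod_cast hab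
  (clear * - h1 h2; nlinarith)

end anyplace

section global

variable {k₀ V : Type*} [Field k₀] [Algebra k₀ K]

lemma finite_neg (P : PSys k₀ K V) (x : K) : (Function.support fun v => neg (P.pl v) x).Finite := by
  by_cases hx : x = 0
  · have : (Function.support fun v => neg (P.pl v) x) = ∅ := by
      rw [Function.support_eq_empty_iff]
      funext v
      simp [neg, hx]
    rw [this]
    exact Set.finite_empty
  · refine (P.ord_finite x hx).subset fun v hv => ?_
    rw [Function.mem_support] at hv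
    rw [Set.mem_ofPred_eq]
    intro h0
    apply hv
    unfold neg
    rw [if_neg hx, h0]
    simp

end global

end Pool.Agent.Helper98.PS

end

section

set_option autoImplicit false

open Finset Polynomial

namespace Pool.Agent.Helper98.PS

open Pool.Agent.Helper33 Pool.Agent.Helper33.PS Pool.Agent.Helper93.RatODE Pool.Agent.Helper55.RD

section localbound

variable {K : Type*} [Field K]

lemma ge_det_rw2 (v : DV K) (x y : ℕ → K) (d k : ℕ) (φ : Fin (d ^ k) × Fin (d ^ k) → ℕ) :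
    v.ge (∑ i, ∑ t : Fin k, -(((d - 1 : ℕ) : ℝ) * (neg v (x (φ i + t)) + neg v (y (φ i + t)))))
      (Matrix.of fun i c => rw2 x y d k (φ i) c).det := by
  rw [← Matrix.det_transpose]
  refine ge_det _ _ fun c l => ?_
  rw [Matrix.transpose_apply, Matrix.of_apply, rw2, ← prod_mul_distrib]
  refine ge_prod _ _ _ fun t _ => ?_
  have h1 := ge_neg_pow v (x (φ l + t)) (a := (finFunctionFinEquiv.symm c.1 : Fin k → Fin d) t)
    (b := d - 1) (by have := ((finFunctionFinEquiv.symm c.1 : Fin k → Fin d) t).2; omega)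
  have h2 := ge_neg_pow v (y (φ l + t)) (a := (finFunctionFinEquiv.symm c.2 : Fin k → Fin d) t)
    (b := d - 1) (by have := ((finFunctionFinEquiv.symm c.2 : Fin k → Fin d) t).2; omega)
  refine DV.ge_mono (DV.ge_mul h1 h2) (le_of_eq ?_)
  ring

end localbound

end Pool.Agent.Helper98.PS

end

section

set_option autoImplicit false

open Finset Polynomial

namespace Pool.Agent.Helper33.UB

open TreeDyn

namespace GInst

variable {k K V : Type*} [Field k] [Field K] [Algebra k K] [DecidableEq K] {P : PSys k K V}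
  {c : GConst} {N : ℕ} {M : ℝ} (I : GInst P c N M)

/-- **Main inequality** with a gain at heavy places -/
theorem main_ineq' {R : ℕ} (hR : c.N0 * (c.c0 + c.C1) ≤ (R + 1) * c.c0) (hM : 0 ≤ M)
    (s : Finset ℕ) (hs : ∀ i ∈ s, i ≤ N) (hcard : s.card = 2 * (R + 1))
    (hdet : (hankel P.D (s.image I.x) R).det ≠ 0) (Hg Loss : Finset V) (hHg : Hg ⊆ I.T)
    (hstar : ∀ v ∈ I.T, v ∉ Hg → v ∉ Loss → Star (P.pl v) (s.image I.x))
    (hheavy : ∀ v ∈ Hg, I.ε v < M ∧ ∃ N1 : ℕ, (N1 : ℝ) ≤ 2 * (R + 1) / 5 ∧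
      ∀ s' ⊆ s, N1 < s'.card → ∃ i ∈ s', ∃ j ∈ s', i ≠ j ∧ c.C1 * M + 5 ≤ I.g v i j) :
    c.c0 / 2 * I.h + M / 10 * Hg.card ≤ 2 * (Loss.card + P.E) := by
  classical
  have hc0 := c.hc0
  have hC1 := c.hC1
  have hc01 := c.hc01
  -- the matchings
  have hex : ∀ v ∈ I.T, ∃ A B : Fin (R + 1) → ℕ, Enum s A B ∧
      (R + 1) * (c.c0 / 2 * I.ε v + (if v ∈ Hg then 2 + M / 10 else 0)) ≤ ∑ i, I.g v (A i) (B i) := by
    intro v hv
    by_cases hvH : v ∈ Hg
    · rw [if_pos hvH]
      obtain ⟨hεM, N1, hN1, hrel⟩ := hheavy v hvH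
      obtain ⟨A, B, hE, hbad⟩ := exists_greedy (fun i j => c.C1 * M + 5 ≤ I.g v i j) N1 (R + 1) s hcard hrel
      refine ⟨A, B, hE, ?_⟩
      have hε := I.ε_nonneg v hv
      have hCM : 0 ≤ c.C1 * M := mul_nonneg (by (clear * - hC1; linarith)) hM
      have h1 := sum_ge_of_greedy (fun i => I.g v (A i) (B i))
        (fun i => c.C1 * M + 5 ≤ I.g v (A i) (B i))
        (c := c.C1 * M + 5) (e := c.C1 * M) (N0 := N1) (by (clear * - hCM; linarith)) hCM
        (by exact_mod_cast hbad) (fun i hi => hi) (fun i => by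
          have h2 := I.lower v hv _ _ (hs _ (hE.memA i)) (hs _ (hE.memB i)) (hE.ne i i)
          have h3 : c.C1 * I.ε v ≤ c.C1 * M := mul_le_mul_of_nonneg_left hεM.le (by (clear * - hC1; linarith))
          change -(c.C1 * M) ≤ (P.pl v).o (I.x (A i) - I.x (B i)) + I.β v (A i) + I.β v (B i)
          (clear * - h2 h3; linarith))
      refine le_trans ?_ h1
      push_cast
      have h4 : (N1 : ℝ) / 2 * (c.C1 * M + 5 + c.C1 * M) ≤ (R + 1) / 5 * (c.C1 * M + 5 + c.C1 * M) := by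
        apply mul_le_mul_of_nonneg_right _ (by (clear * - hCM; linarith))
        (clear * - hN1; linarith)
      have h5 : c.c0 / 2 * I.ε v ≤ M / 2 := by
        have : c.c0 * I.ε v ≤ 1 * M := mul_le_mul hc01 hεM.le hε (by norm_num)
        (clear * - this; linarith)
      have h6 : M ≤ c.C1 * M := by (clear * - hM hC1; nlinarith)
      have hRr : (0 : ℝ) ≤ R := Nat.cast_nonneg R
      have h7 : ((R : ℝ) + 1) * (c.c0 / 2 * I.ε v + (2 + M / 10)) ≤ (R + 1) * (3 / 5 * (c.C1 * M) + 4) := by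
        apply mul_le_mul_of_nonneg_left _ (by (clear * -; linarith))
        linarith
      (clear * - h4 h7; linarith)
    · rw [if_neg hvH, add_zero]
      exact I.exists_lb_matching hR hv s hs hcard
  choose! A B hE hsum using hex
  have ham := am P (I := s.image I.x) hdet I.T (Hg ∪ Loss) I.Te (by
    intro v hv x hx y hy hxy
    obtain ⟨i, hi, rfl⟩ := mem_image.mp hx
    obtain ⟨j, hj, rfl⟩ := mem_image.mp hy
    exact I.Tx v hv i j (hs i hi) (hs j hj) fun e => hxy (by rw [e]))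
    (fun v hv hvS => hstar v hv (fun h => hvS (mem_union_left _ h)) (fun h => hvS (mem_union_right _ h)))
    (fun v i => I.x (A v i)) (fun v i => I.x (B v i))
    (fun v hv => enum_image (I.injOn hs) (hE v hv))
  have h1 : ∑ v ∈ I.T, ∑ i, I.g v (A v i) (B v i) =
      ((∑ v ∈ I.T, ∑ i, (P.pl v).o (I.x (A v i) - I.x (B v i)) : ℤ) : ℝ) := by
    rw [sum_congr rfl (fun v hv => I.sum_matching (hE v hv) v), sum_add_distrib]
    have : ∑ v ∈ I.T, ∑ j ∈ s, I.β v j = 0 := by
      rw [sum_comm]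
      exact sum_eq_zero fun j hj => I.sumβ j (hs j hj)
    rw [this, add_zero]
    push_cast
    rfl
  have h2 := sum_le_sum hsum
  rw [h1] at h2
  have h3 : ((∑ v ∈ I.T, ∑ i, (P.pl v).o (I.x (A v i) - I.x (B v i)) : ℤ) : ℝ) ≤
      2 * R * (((Hg ∪ Loss).card : ℝ) + P.E) := by
    have : ((∑ v ∈ I.T, ∑ i, (P.pl v).o (I.x (A v i) - I.x (B v i)) : ℤ) : ℝ) ≤
      ((2 * R * (((Hg ∪ Loss).card : ℤ) + P.E) : ℤ) : ℝ) := by exact_mod_cast ham
    push_cast at this ⊢
    exact this
  have h4 : ((Hg ∪ Loss).card : ℝ) ≤ Hg.card + Loss.card := by exact_mod_cast card_union_le _ _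
  have h5 : ∑ v ∈ I.T, ((R : ℝ) + 1) * (c.c0 / 2 * I.ε v + (if v ∈ Hg then 2 + M / 10 else 0)) =
      (R + 1) * (c.c0 / 2 * I.h + (2 + M / 10) * Hg.card) := by
    rw [← mul_sum, sum_add_distrib, ← mul_sum, sum_ite_mem, inter_eq_right.mpr hHg, sum_const,
      nsmul_eq_mul]
    unfold h
    ring
  rw [h5] at h2
  have hRr : (0 : ℝ) ≤ R := Nat.cast_nonneg R
  have hEr : (0 : ℝ) ≤ P.E := Nat.cast_nonneg _
  have h6 : (2 : ℝ) * R * (((Hg ∪ Loss).card : ℝ) + P.E) ≤ (R + 1) * (2 * (Hg.card + Loss.card + P.E)) := by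
    have h7 : (0 : ℝ) ≤ ((Hg ∪ Loss).card : ℝ) + P.E := by (clear * -; positivity)
    (clear * - h4; nlinarith)
  have h8 : ((R : ℝ) + 1) * (c.c0 / 2 * I.h + (2 + M / 10) * Hg.card) ≤
      (R + 1) * (2 * (Hg.card + Loss.card + P.E)) := by (clear * - h2 h3 h6; linarith)
  have h9 := le_of_mul_le_mul_left h8 (by (clear * -; linarith) : (0 : ℝ) < R + 1)
  (clear * - h9; linarith)

/-- **The inequality at a selected index**, with all outputs. -/
theorem claim1' (hM : 0 < M) {n Nst : ℕ} (hN : n + Nst ≤ N) {R N' J : ℕ} {ϑ : ℝ} (hϑ : 0 < ϑ)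
    (hn : 1 ≤ n)
    (hRϑ : 5 / ϑ ≤ R + 1) (hR : c.N0 * (c.c0 + c.C1) ≤ (R + 1) * c.c0) (hJ1 : 1 ≤ J)
    (hdvd : ∀ l, 1 ≤ l → l ≤ N' → l * J ∣ Nst) (hNst : 1 ≤ Nst) (Bad : V → Finset ℕ)
    (hcl : ∀ v, ∀ i < n, i ∉ Bad v → i ∉ (I.Lv v).heavy n (ϑ * n) →
          ∃ ζ : I.Vx v, ∀ l l', l < l' → l' ≤ N' →
            (I.S v).dir ζ (i + l * J) ≠ (I.S v).dir ζ (i + l' * J))
    {i : ℕ} (hi : i + N' * J < n) (s : Finset ℕ) (hs : ∀ j ∈ s, ∃ l ≤ N', j = i + l * J)
    (hcard : s.card = 2 * (R + 1)) (hdet : (hankel P.D (s.image I.x) R).det ≠ 0) (tT tU : ℝ)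
    (hT : ∀ B ⊆ I.rel n Nst, (∀ v ∈ B, i ∈ Bad v) → (B.card : ℝ) ≤ tT)
    (hU : ∀ j ∈ s, ∀ B ⊆ I.rel n Nst, (∀ v ∈ B, i ∈ (I.Lv v).heavy n (ϑ * n) ∧
      j ∉ (I.Lv v).heavy n (ϑ * n)) → (B.card : ℝ) ≤ tU) :
    ∃ Hg Loss : Finset V, Hg ⊆ I.T ∧ Loss ⊆ I.T ∧ (Loss.card : ℝ) ≤ I.h / M + tT + 10 * tU ∧
      c.c0 / 2 * I.h + M / 10 * Hg.card ≤ 2 * (Loss.card + P.E) ∧
      ∀ v ∈ I.T, v ∉ Hg → v ∉ Loss →
        (∃ ζ : I.Vx v, ∀ l l', l < l' → l' ≤ N' →
            (I.S v).dir ζ (i + l * J) ≠ (I.S v).dir ζ (i + l' * J)) ∨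
        (I.ε v = 0 ∧ ∀ l l', l < l' → l' ≤ N' → I.g v (i + l * J) (i + l' * J) < c.c1) := by
  classical
  set Θ : ℝ := ϑ * n with hΘ
  have hnr : (1 : ℝ) ≤ n := by exact_mod_cast hn
  have hsN : ∀ j ∈ s, j ≤ N := by
    intro j hj
    obtain ⟨l, hl, rfl⟩ := hs j hj
    have := Nat.mul_le_mul_right J hl
    omega
  have hsn : ∀ j ∈ s, j < n := by
    intro j hj
    obtain ⟨l, hl, rfl⟩ := hs j hj
    have := Nat.mul_le_mul_right J hl
    omega
  set kf : V → ℕ := fun v => (s.filter fun j => j ∉ (I.Lv v).heavy n Θ).card with hkf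
  set Hg : Finset V := (I.rel n Nst).filter fun v => I.ε v < M ∧ i ∈ (I.Lv v).heavy n Θ ∧
    5 * (kf v : ℝ) ≤ R + 1 with hHg
  set L1 : Finset V := I.T.filter fun v => M ≤ I.ε v with hL1
  set L2 : Finset V := (I.rel n Nst).filter fun v => i ∈ Bad v with hL2
  set L3 : Finset V := (I.rel n Nst).filter fun v => i ∈ (I.Lv v).heavy n Θ ∧ ¬ (5 * (kf v : ℝ) ≤ R + 1)
    with hL3
  have hrelT : I.rel n Nst ⊆ I.T := by
    unfold rel; exact filter_subset _ _
  have hsep : ∀ v ∈ I.T, v ∉ Hg → v ∉ L1 ∪ (L2 ∪ L3) →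
        (∃ ζ : I.Vx v, ∀ l l', l < l' → l' ≤ N' →
            (I.S v).dir ζ (i + l * J) ≠ (I.S v).dir ζ (i + l' * J)) ∨
        (I.ε v = 0 ∧ ∀ l l', l < l' → l' ≤ N' → I.g v (i + l * J) (i + l' * J) < c.c1) := by
    intro v hv hvH hvL
    rw [mem_union, not_or, mem_union, not_or] at hvL
    have hεM : I.ε v < M := by
      by_contra h
      push Not at h
      exact hvL.1 (mem_filter.mpr ⟨hv, h⟩)
    by_cases hvr : v ∈ I.rel n Nst
    · left
      have hnb : i ∉ Bad v := fun h => hvL.2.1 (mem_filter.mpr ⟨hvr, h⟩)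
      have hnh : i ∉ (I.Lv v).heavy n Θ := by
        intro h
        by_cases h5 : 5 * (kf v : ℝ) ≤ R + 1
        · exact hvH (mem_filter.mpr ⟨hvr, hεM, h, h5⟩)
        · exact hvL.2.2 (mem_filter.mpr ⟨hvr, h, h5⟩)
      exact hcl v i (by omega) hnb hnh
    · right
      have hε0 : I.ε v = 0 := by
        rcases (I.ε_nonneg v hv).lt_or_eq with h | h
        · exfalso
          apply hvr
          unfold rel
          exact mem_filter.mpr ⟨hv, Or.inl ⟨h, hεM⟩⟩
        · exact h.symm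
      refine ⟨hε0, ?_⟩
      intro l l' hll hl'
      by_contra hclose
      push Not at hclose
      apply hvr
      unfold rel
      refine mem_filter.mpr ⟨hv, Or.inr ⟨hε0, ?_⟩⟩
      have hl'J := Nat.mul_le_mul_right J hl'
      set m := (l' - l) * J with hm
      have hm1 : 1 ≤ m := Nat.mul_pos (by omega) hJ1
      have hbm : i + l' * J = i + l * J + m := by
        rw [hm, add_assoc, ← Nat.add_mul]
        congr 2
        omega
      obtain ⟨q, hq⟩ := hdvd (l' - l) (by omega) (by omega)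
      have hq1 : 1 ≤ q := by
        rcases Nat.eq_zero_or_pos q with h | h
        · rw [h, mul_zero] at hq; omega
        · exact h
      rw [hbm] at hclose
      have h1 := I.persist_mul hv hε0 hm1 hclose (n := n) (by omega) q hq1 (by
        rw [mul_comm q m, ← hq]; exact hN)
      rwa [mul_comm q m, ← hq] at h1
  have hLT : L1 ∪ (L2 ∪ L3) ⊆ I.T := union_subset (filter_subset _ _)
    (union_subset ((filter_subset _ _).trans hrelT) ((filter_subset _ _).trans hrelT))
  have hHT : Hg ⊆ I.T := (filter_subset _ _).trans hrelT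
  have hlossb : ((L1 ∪ (L2 ∪ L3)).card : ℝ) ≤ I.h / M + tT + 10 * tU := by
    have h1 := I.card_bad hM L1 (filter_subset _ _) (fun v hv => (mem_filter.mp hv).2)
    have h2 := hT L2 (filter_subset _ _) (fun v hv => (mem_filter.mp hv).2)
    have h3 : (L3.card : ℝ) ≤ 10 * tU := by
      have hRr : (0 : ℝ) ≤ R := Nat.cast_nonneg R
      have e1 : (L3.card : ℝ) * (R + 1) ≤ ∑ v ∈ L3, 5 * (kf v : ℝ) := by
        rw [← nsmul_eq_mul, ← sum_const]
        apply sum_le_sum
        intro v hv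
        have := (mem_filter.mp hv).2.2
        push Not at this
        exact this.le
      have e2 : ∑ v ∈ L3, (kf v : ℝ) = ∑ j ∈ s, ((L3.filter fun v => j ∉ (I.Lv v).heavy n Θ).card : ℝ) := by
        have : ∑ v ∈ L3, kf v = ∑ j ∈ s, (L3.filter fun v => j ∉ (I.Lv v).heavy n Θ).card := by
          simp only [hkf, card_filter]
          exact sum_comm
        exact_mod_cast this
      have e3 : ∑ j ∈ s, ((L3.filter fun v => j ∉ (I.Lv v).heavy n Θ).card : ℝ) ≤ ∑ j ∈ s, tU := by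
        apply sum_le_sum
        intro j hj
        apply hU j hj _ ((filter_subset _ _).trans (filter_subset _ _))
        intro v hv
        have hv1 := (mem_filter.mp hv).1
        have hv2 := (mem_filter.mp hv).2
        have hv3 := (mem_filter.mp hv1).2
        exact ⟨hv3.1, hv2⟩
      rw [sum_const, hcard, nsmul_eq_mul] at e3
      push_cast at e3
      rw [← mul_sum, e2] at e1
      have e4 : (L3.card : ℝ) * (R + 1) ≤ (10 * tU) * (R + 1) := by (clear * - e1 e3; linarith)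
      exact le_of_mul_le_mul_right e4 (by (clear * -; linarith))
    have h4 : (((L1 ∪ (L2 ∪ L3)).card : ℕ) : ℝ) ≤ L1.card + (L2.card + L3.card) := by
      have := (card_union_le L1 (L2 ∪ L3)).trans (Nat.add_le_add_left (card_union_le L2 L3) _)
      exact_mod_cast this
    (clear * - h1 h2 h3 h4; linarith)
  have hmain := I.main_ineq' hR hM.le s hsN hcard hdet Hg (L1 ∪ (L2 ∪ L3)) hHT ?_ ?_
  · exact ⟨Hg, L1 ∪ (L2 ∪ L3), hHT, hLT, hlossb, hmain, hsep⟩
  · -- stars elsewhere
    intro v hv hvH hvL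
    rcases hsep v hv hvH hvL with ⟨ζ, hζ⟩ | ⟨hε0, hno⟩
    · apply I.star v hv ζ s hsN
      intro a ha b hb hab
      obtain ⟨l, hl, rfl⟩ := hs a ha
      obtain ⟨l', hl', rfl⟩ := hs b hb
      rcases lt_trichotomy l l' with h | h | h
      · exact hζ l l' h hl'
      · subst h; exact absurd rfl hab
      · exact (hζ l' l h hl).symm
    · by_contra hst
      obtain ⟨a, ha, b, hb, hab, hclose⟩ := I.good v hv hε0 s hsN hst
      obtain ⟨l, hl, rfl⟩ := hs a ha
      obtain ⟨l', hl', rfl⟩ := hs b hb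
      have hll : l < l' := by
        by_contra h
        push Not at h
        have := Nat.mul_le_mul_right J h
        omega
      exact absurd hclose (not_le.mpr (hno l l' hll hl'))
  · -- heavy places
    intro v hv
    rw [hHg, mem_filter] at hv
    obtain ⟨hvr, hεM, hih, h5⟩ := hv
    refine ⟨hεM, kf v + ⌊1 / ϑ⌋₊, ?_, ?_⟩
    · push_cast
      have h1 : (⌊1 / ϑ⌋₊ : ℝ) ≤ 1 / ϑ := Nat.floor_le (by positivity)
      have h2 : 5 / ϑ = 5 * (1 / ϑ) := by ring
      rw [h2] at hRϑ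
      (clear * - hRϑ h5 h1; linarith)
    · intro s' hs' hs'card
      set s2 := s'.filter fun j => j ∈ (I.Lv v).heavy n Θ with hs2
      have h1 := card_filter_add_card_filter_not (s := s') (fun j => j ∈ (I.Lv v).heavy n Θ)
      have h2 : (s'.filter fun j => ¬ j ∈ (I.Lv v).heavy n Θ).card ≤ kf v :=
        card_le_card (filter_subset_filter _ hs')
      have h3 : ⌊1 / ϑ⌋₊ < s2.card := by
        have : (s'.filter fun j => j ∈ (I.Lv v).heavy n Θ).card = s2.card := rfl
        omega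
      have h4 : 1 / ϑ < s2.card := (Nat.floor_lt (by positivity)).mp h3
      rw [div_lt_iff₀ hϑ] at h4
      obtain ⟨a, ha, b, hb, hab, hdir⟩ := exists_deep_pair (I.Lv v) (c.hdepth M) (n := n) (Θ := Θ) s2
        (fun j hj => (mem_filter.mp hj).2) (by
          rw [hΘ]
          (clear * - h4 hnr; nlinarith))
      have ha' := (mem_filter.mp ha).1
      have hb' := (mem_filter.mp hb).1
      exact ⟨a, ha', b, hb', hab, I.deep v (hrelT hvr) hεM a b (hsN a (hs' ha')) (hsN b (hs' hb')) hab hdir⟩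

end GInst

end Pool.Agent.Helper33.UB

end

section

set_option autoImplicit false

open Finset Polynomial

namespace Pool.Agent.Helper43.PT

open Pool.Agent.Helper33 Pool.Agent.Helper45.FR Pool.Agent.Helper33.UB Pool.Agent.Helper51.RatTree
  Pool.Agent.Helper93.RatODE Pool.Agent.Helper33.PS Pool.Agent.Helper55.RD Pool.Agent.Helper98.PS

section local_

variable {K : Type} [Field K] {v : DV K} {F G : K[X]} {d : ℕ} {X : Finset K}

lemma close3 (H : K → ℝ) (R : RLoc v F G d X H) (h3 : 3 ≤ X.card) {y : K} (hy : y ∈ X) :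
    -(6 * R.ε : ℝ) ≤ v.o (resultant F G d d) / (d * (d - 1)) - R.r - 2 * H y + 2 * nn v R.a R.r y := by
  classical
  obtain ⟨z, hz, hzy⟩ := exists_mem_ne (show 1 < X.card by omega) y
  obtain ⟨w, hw, hwy, hwz⟩ : ∃ w ∈ X, w ≠ y ∧ w ≠ z := by
    have : ((X.erase y).erase z).Nonempty := by
      rw [← card_pos]
      have h1 : (X.erase y).card = X.card - 1 := card_erase_of_mem hy
      have h2 : ((X.erase y).erase z).card = (X.erase y).card - 1 :=
        card_erase_of_mem (mem_erase.2 ⟨hzy, hz⟩)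
      omega
    obtain ⟨w, hw⟩ := this
    rw [mem_erase, mem_erase] at hw
    exact ⟨w, hw.2.2, hw.2.1, hw.1⟩
  have a1 := abs_le.1 (R.close y hy z hz hzy.symm)
  have a2 := abs_le.1 (R.close y hy w hw hwy.symm)
  have a3 := abs_le.1 (R.close z hz w hw hwz.symm)
  unfold gg gp at a1 a2 a3
  push_cast at a1 a2 a3
  linarith [a1.1, a2.1, a3.2]

/-- the energy of the points of a Vandermonde matrix -/
lemma vand_energy {n : ℕ} (y : Fin n → K) (hy : Function.Injective y) :
    (Matrix.vandermonde y).det ≠ 0 ∧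
      2 * v.o (Matrix.vandermonde y).det = ∑ i, ∑ j, if j = i then 0 else v.o (y i - y j) := by
  have hdet := Matrix.det_vandermonde y
  have hne : ∀ i : Fin n, ∀ j ∈ Ioi i, y j - y i ≠ 0 := fun i j hj =>
    sub_ne_zero.2 fun e => (ne_of_gt (mem_Ioi.1 hj)) (hy e)
  have hne2 : ∀ i ∈ (univ : Finset (Fin n)), ∏ j ∈ Ioi i, (y j - y i) ≠ 0 :=
    fun i _ => prod_ne_zero_iff.2 (hne i)
  rw [hdet]
  refine ⟨prod_ne_zero_iff.2 hne2, ?_⟩
  rw [v.o_prod _ _ hne2, Pool.Agent.Helper55.RD.sum_Ioi (fun i j => if j = i then 0 else v.o (y i - y j))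
    (fun i j => by
      by_cases h : j = i
      · rw [if_pos h, if_pos h.symm]
      · rw [if_neg h, if_neg (fun e => h e.symm), v.o_sub_comm])
    (fun i => by rw [if_pos rfl])]
  congr 1
  refine sum_congr rfl fun i _ => ?_
  rw [v.o_prod _ _ (hne i)]
  refine sum_congr rfl fun j hj => ?_
  rw [if_neg (fun e => (ne_of_gt (mem_Ioi.1 hj)) e.symm)]

end local_

end Pool.Agent.Helper43.PT

end
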