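import Pool.Agent.Helper23.MB.L00_ab1
import Pool.Agent.Helper23.MB.L00_ab3
import Pool.Agent.Helper23.MB.L00_ab5
import Pool.Agent.Helper23.MB.L00_ab6
import Pool.Agent.Helper23.MB.L00_ab7
import Pool.Agent.Helper23.MB.L00_ab8
import Pool.Agent.Helper23.MB.L00_abc1
import Pool.Agent.Helper23.MB.L00_abc2

/-!
Parts of Helper93.RatIso, Helper45.RatRed, Helper33.PT.Defs, Helper45.S6Main, Helper38.DT.Transport, Helper45.M8Trans, Helper45.M8Desc2, Helper45.DT.Descent, Helper91.DT.B, Helper91.DT.C, Helper91.DT.Six, Helper35.DT.Long, Helper38.DT.Main, Helper35.PS.Coord, Helper36.PT.Norm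
-/

attribute [-simp] Valuation.IsUniformizer.val
attribute [local instance 5000]
  Pool.Agent.Helper23.MB.Inst.rCharZero Pool.Agent.Helper23.MB.Inst.rALM
  Pool.Agent.Helper23.MB.Inst.rARM Pool.Agent.Helper23.MB.Inst.rALSM
  Pool.Agent.Helper23.MB.Inst.rARSM Pool.Agent.Helper23.MB.Inst.rARRLE
  Pool.Agent.Helper23.MB.Inst.rALRLE Pool.Agent.Helper23.MB.Inst.rARRLT
  Pool.Agent.Helper23.MB.Inst.rALRLT Pool.Agent.Helper23.MB.Inst.rPMRLT
  Pool.Agent.Helper23.MB.Inst.rMPRLT Pool.Agent.Helper23.MB.Inst.rPMM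
  Pool.Agent.Helper23.MB.Inst.rMPM Pool.Agent.Helper23.MB.Inst.rPMSM
  Pool.Agent.Helper23.MB.Inst.rMPSM Pool.Agent.Helper23.MB.Inst.rEAOL
  Pool.Agent.Helper23.MB.Inst.rIOR Pool.Agent.Helper23.MB.Inst.rISOR
  Pool.Agent.Helper23.MB.Inst.rNZD Pool.Agent.Helper23.MB.Inst.zCharZero
  Pool.Agent.Helper23.MB.Inst.zALM Pool.Agent.Helper23.MB.Inst.zARM
  Pool.Agent.Helper23.MB.Inst.zIOR Pool.Agent.Helper23.MB.Inst.zISOR
  Pool.Agent.Helper23.MB.Inst.zNZD Pool.Agent.Helper23.MB.Inst.qCharZero
  Pool.Agent.Helper23.MB.Inst.free Pool.Agent.Helper23.MB.Inst.faith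
  Pool.Agent.Helper23.MB.Inst.torsionFree Pool.Agent.Helper23.MB.Inst.rfFaith
  Pool.Agent.Helper23.MB.Inst.hAdd Pool.Agent.Helper23.MB.Inst.hAddM
  Pool.Agent.Helper23.MB.Inst.hMul Pool.Agent.Helper23.MB.Inst.hMon
  Pool.Agent.Helper23.MB.Inst.hZero Pool.Agent.Helper23.MB.Inst.hOne
  Pool.Agent.Helper23.MB.Inst.hMZ Pool.Agent.Helper23.MB.Inst.hRing
  Pool.Agent.Helper23.MB.Inst.aAdd Pool.Agent.Helper23.MB.Inst.aAddM
  Pool.Agent.Helper23.MB.Inst.aMul Pool.Agent.Helper23.MB.Inst.aMon
  Pool.Agent.Helper23.MB.Inst.aZero Pool.Agent.Helper23.MB.Inst.aOne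
  Pool.Agent.Helper23.MB.Inst.aMZ Pool.Agent.Helper23.MB.Inst.aRing

namespace Pool.Agent.Helper16
end Pool.Agent.Helper16
namespace Pool.Agent.Helper33
end Pool.Agent.Helper33
namespace Pool.Agent.Helper33.PS
end Pool.Agent.Helper33.PS
namespace Pool.Agent.Helper33.UB
end Pool.Agent.Helper33.UB
namespace Pool.Agent.Helper34.Dep
end Pool.Agent.Helper34.Dep
namespace Pool.Agent.Helper35.PS
end Pool.Agent.Helper35.PS
namespace Pool.Agent.Helper38.DT
end Pool.Agent.Helper38.DT
namespace Pool.Agent.Helper45.FF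
end Pool.Agent.Helper45.FF
namespace Pool.Agent.Helper45.FR
end Pool.Agent.Helper45.FR
namespace Pool.Agent.Helper45.M8
end Pool.Agent.Helper45.M8
namespace Pool.Agent.Helper45.S4
end Pool.Agent.Helper45.S4
namespace Pool.Agent.Helper45.S6
end Pool.Agent.Helper45.S6
namespace Pool.Agent.Helper47.EN
end Pool.Agent.Helper47.EN
namespace Pool.Agent.Helper51.RatTree
end Pool.Agent.Helper51.RatTree
namespace Pool.Agent.Helper93.RatODE
end Pool.Agent.Helper93.RatODE

section

set_option autoImplicit false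

open Finset Polynomial

namespace Pool.Agent.Helper93.RatODE

section more

variable {K : Type*} [Field K]

/-- `hev` is the evaluation of Mathlib's homogenisation. -/
lemma aeval_homogenize {S : Type*} [CommRing S] [Algebra K S] (P : K[X]) (n : ℕ) (v : Fin 2 → S) :
    MvPolynomial.aeval v (P.homogenize n) = hev P n (v 0) (v 1) := by
  unfold Polynomial.homogenize hev
  rw [map_sum, Finset.Nat.sum_antidiagonal_eq_sum_range_succ_mk]
  apply sum_congr rfl
  intro j hj
  rw [MvPolynomial.aeval_monomial, Finsupp.update_eq_add_single (by simp),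
    Finsupp.prod_add_index' (by simp) (by intros; rw [pow_add]), Finsupp.prod_single_index (by simp),
    Finsupp.prod_single_index (by simp)]
  ring

end more

section iso

variable {k K : Type*} [Field k] [Field K] [Algebra k K]

/-- The polynomial identities of `exists_conj_of_cross`, evaluated at pairs in a field extension `L`, in
the language of forms in two variables. -/
theorem conj_aeval {L : Type*} [Field L] [Algebra K L] [Algebra k L] [IsScalarTower k K L]
    {P Q : K[X]} {d : ℕ} {A : Matrix (Fin 2) (Fin 2) K} {P' Q' : k[X]} {c : K}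
    (h1 : (hev P d (C (A 0 0) * X + C (A 0 1)) (C (A 1 0) * X + C (A 1 1)) : K[X]) =
        C c * (C (A 0 0) * P'.map (algebraMap k K) + C (A 0 1) * Q'.map (algebraMap k K)))
    (h2 : (hev Q d (C (A 0 0) * X + C (A 0 1)) (C (A 1 0) * X + C (A 1 1)) : K[X]) =
        C c * (C (A 1 0) * P'.map (algebraMap k K) + C (A 1 1) * Q'.map (algebraMap k K)))
    (v : Fin 2 → L) :
    ![MvPolynomial.aeval ((A.map (algebraMap K L)).mulVec v) (P.homogenize d),
      MvPolynomial.aeval ((A.map (algebraMap K L)).mulVec v) (Q.homogenize d)] =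
    algebraMap K L c • (A.map (algebraMap K L)).mulVec
      ![MvPolynomial.aeval v (P'.homogenize d), MvPolynomial.aeval v (Q'.homogenize d)] := by
  rw [aeval_homogenize, aeval_homogenize, aeval_homogenize, aeval_homogenize]
  have e0 : (A.map (algebraMap K L)).mulVec v 0 =
      algebraMap K L (A 0 0) * v 0 + algebraMap K L (A 0 1) * v 1 := by
    simp [Matrix.mulVec, dotProduct, Fin.sum_univ_two]
  have e1 : (A.map (algebraMap K L)).mulVec v 1 =
      algebraMap K L (A 1 0) * v 0 + algebraMap K L (A 1 1) * v 1 := by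
    simp [Matrix.mulVec, dotProduct, Fin.sum_univ_two]
  have key : ∀ R : K[X], hev R d ((A.map (algebraMap K L)).mulVec v 0)
      ((A.map (algebraMap K L)).mulVec v 1) =
      hev (hev R d (C (A 0 0) * X + C (A 0 1)) (C (A 1 0) * X + C (A 1 1)) : K[X]) d (v 0) (v 1) := by
    intro R
    have h3 := hev_comp R d (q := 1) (U := C (A 0 0) * X + C (A 0 1))
      (W := C (A 1 0) * X + C (A 1 1)) natDegree_linear_le natDegree_linear_le (v 0) (v 1)
    rw [mul_one] at h3
    rw [h3, hev_linear, hev_linear, e0, e1]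
  rw [key, key, h1, h2]
  simp only [hev_C_mul, hev_add, hev_map_poly]
  ext i
  fin_cases i
  · simp [Matrix.mulVec, dotProduct, Fin.sum_univ_two]
  · simp [Matrix.mulVec, dotProduct, Fin.sum_univ_two]

end iso

end Pool.Agent.Helper93.RatODE

end

section

set_option autoImplicit false

set_option linter.style.haveILetI false

open Polynomial

namespace Pool.Agent.Helper45.FR

open Pool.Agent.Helper33 Pool.Agent.Helper93.RatODE

section defs

/-- `P / Q` is conjugate over `K` to a rational map over `k` -/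
def ConstConj (k : Type*) {K : Type*} [Field k] [Field K] [Algebra k K] (P Q : K[X]) (d : ℕ) :
    Prop :=
  ∃ (A : Matrix (Fin 2) (Fin 2) K) (P' Q' : k[X]) (c : K), A.det ≠ 0 ∧ c ≠ 0 ∧
      P'.natDegree ≤ d ∧ Q'.natDegree ≤ d ∧
      IsCoprime (P'.map (algebraMap k K)) (Q'.map (algebraMap k K)) ∧
      (P'.coeff d ≠ 0 ∨ Q'.coeff d ≠ 0) ∧
      (hev P d (C (A 0 0) * X + C (A 0 1)) (C (A 1 0) * X + C (A 1 1)) : K[X]) =
        C c * (C (A 0 0) * P'.map (algebraMap k K) + C (A 0 1) * Q'.map (algebraMap k K)) ∧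
      (hev Q d (C (A 0 0) * X + C (A 0 1)) (C (A 1 0) * X + C (A 1 1)) : K[X]) =
        C c * (C (A 1 0) * P'.map (algebraMap k K) + C (A 1 1) * Q'.map (algebraMap k K))

end defs

section phi

variable {K : Type*} [Field K] {L : Type*} [Field L] [Algebra K L]

/-- the map on pairs -/
noncomputable def phi (P Q : K[X]) (d : ℕ) (v : L × L) : L × L := (hev P d v.1 v.2, hev Q d v.1 v.2)

variable {P Q : K[X]} {d : ℕ}

theorem phi_iter (n : ℕ) (v : L × L) : (phi P Q d)^[n] v =
    (hev (iter P Q d n).1 (d ^ n) v.1 v.2, hev (iter P Q d n).2 (d ^ n) v.1 v.2) := by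
  induction n with
  | zero =>
    simp [iter, hev, Finset.sum_range_succ, coeff_one]
  | succ n ih =>
    rw [Function.iterate_succ_apply', ih]
    have hU := (iter_natDegree (P := P) (Q := Q) (d := d) n).1
    have hW := (iter_natDegree (P := P) (Q := Q) (d := d) n).2
    rw [pow_succ']
    change (hev P d _ _, hev Q d _ _) = (hev (hev P d _ _) _ _ _, hev (hev Q d _ _) _ _ _)
    rw [hev_comp P d hU hW, hev_comp Q d hU hW]

theorem phi_smul (c : L) (v : L × L) : phi P Q d (c • v) = c ^ d • phi P Q d v := by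
  ext
  · exact hev_smul_arg P d c v.1 v.2
  · exact hev_smul_arg Q d c v.1 v.2

theorem phi_ne_zero (h : IsCoprime P Q) (hP : P.natDegree ≤ d) (hQ : Q.natDegree ≤ d)
    (htop : P.coeff d ≠ 0 ∨ Q.coeff d ≠ 0) {v : L × L} (hv : v ≠ 0) : phi P Q d v ≠ 0 := by
  intro h0
  have h1 : hev P d v.1 v.2 = 0 := congrArg Prod.fst h0
  have h2 : hev Q d v.1 v.2 = 0 := congrArg Prod.snd h0
  have := hev_no_common_zero h hP hQ htop h1 h2
  exact hv (Prod.ext this.1 this.2)

theorem phi_iter_ne_zero (h : IsCoprime P Q) (hP : P.natDegree ≤ d) (hQ : Q.natDegree ≤ d)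
    (htop : P.coeff d ≠ 0 ∨ Q.coeff d ≠ 0) {v : L × L} (hv : v ≠ 0) (n : ℕ) :
    (phi P Q d)^[n] v ≠ 0 := by
  induction n with
  | zero => exact hv
  | succ n ih =>
    rw [Function.iterate_succ_apply']
    exact phi_ne_zero h hP hQ htop ih

theorem cr_phi_iter (h : IsCoprime P Q) (hP : P.natDegree ≤ d) (hQ : Q.natDegree ≤ d)
    (htop : P.coeff d ≠ 0 ∨ Q.coeff d ≠ 0) {a b : L × L} (ha : a ≠ 0) (hb : b ≠ 0)
    (hab : cr a b = 0) (n : ℕ) : cr ((phi P Q d)^[n] a) ((phi P Q d)^[n] b) = 0 := by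
  induction n with
  | zero => exact hab
  | succ n ih =>
    rw [Function.iterate_succ_apply', Function.iterate_succ_apply']
    obtain ⟨c, hc, he⟩ := exists_smul_of_cr (phi_iter_ne_zero h hP hQ htop ha n)
      (phi_iter_ne_zero h hP hQ htop hb n) ih
    rw [he, phi_smul, cr_smul_right, cr_self, mul_zero]

/-- the orbit of a preperiodic point is projectively finite -/
theorem exists_lt_cr (h : IsCoprime P Q) (hP : P.natDegree ≤ d) (hQ : Q.natDegree ≤ d)
    (htop : P.coeff d ≠ 0 ∨ Q.coeff d ≠ 0) {v : L × L} (hv : v ≠ 0) {m n : ℕ} (hmn : m < n)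
    (he : cr ((phi P Q d)^[m] v) ((phi P Q d)^[n] v) = 0) (i : ℕ) :
    ∃ j < n, cr ((phi P Q d)^[i] v) ((phi P Q d)^[j] v) = 0 := by
  induction i using Nat.strong_induction_on with
  | _ i ih =>
    by_cases hi : i < n
    · exact ⟨i, hi, cr_self _⟩
    · push Not at hi
      have h1 : cr ((phi P Q d)^[i - n + m] v) ((phi P Q d)^[i] v) = 0 := by
        have h2 := cr_phi_iter h hP hQ htop (phi_iter_ne_zero h hP hQ htop hv m)
          (phi_iter_ne_zero h hP hQ htop hv n) he (i - n)
        rw [← Function.iterate_add_apply, ← Function.iterate_add_apply] at h2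
        rwa [Nat.sub_add_cancel hi] at h2
      obtain ⟨j, hj, hj'⟩ := ih (i - n + m) (by omega)
      refine ⟨j, hj, ?_⟩
      rw [cr_comm, neg_eq_zero] at h1
      exact cr_trans (phi_iter_ne_zero h hP hQ htop hv i)
        (phi_iter_ne_zero h hP hQ htop hv (i - n + m)) h1 hj'

theorem finite_range_of_inv (h : IsCoprime P Q) (hP : P.natDegree ≤ d) (hQ : Q.natDegree ≤ d)
    (htop : P.coeff d ≠ 0 ∨ Q.coeff d ≠ 0) {v : L × L} (hv : v ≠ 0) {m n : ℕ} (hmn : m < n)
    (he : cr ((phi P Q d)^[m] v) ((phi P Q d)^[n] v) = 0) {T : Type*} (g : L × L → T)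
    (hg : ∀ (c : L) (w : L × L), c ≠ 0 → g (c • w) = g w) :
    (Set.range fun i => g ((phi P Q d)^[i] v)).Finite := by
  classical
  refine ((Finset.range n).image (fun i => g ((phi P Q d)^[i] v))).finite_toSet.subset ?_
  rintro _ ⟨i, rfl⟩
  simp only [Finset.coe_image, Set.mem_image, Finset.coe_range, Set.mem_Iio]
  obtain ⟨j, hj, hj'⟩ := exists_lt_cr h hP hQ htop hv hmn he i
  refine ⟨j, hj, ?_⟩
  obtain ⟨c, hc, hce⟩ := exists_smul_of_cr (phi_iter_ne_zero h hP hQ htop hv i)
        (phi_iter_ne_zero h hP hQ htop hv j) hj'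
  rw [hce, hg c _ hc]

end phi

section coincidence

variable {K : Type*} [Field K] {P Q : K[X]} {d : ℕ}

/-- the polynomial whose roots are the finite points with `f^a z = f^b z` -/
noncomputable def coinc (P Q : K[X]) (d a b : ℕ) : K[X] :=
  (iter P Q d a).1 * (iter P Q d b).2 - (iter P Q d a).2 * (iter P Q d b).1

theorem coinc_ne_zero (h : IsCoprime P Q) (hP : P.natDegree ≤ d) (hQ : Q.natDegree ≤ d)
    (htop : P.coeff d ≠ 0 ∨ Q.coeff d ≠ 0) (hd : 2 ≤ d) {a b : ℕ} (hab : a < b) :
    coinc P Q d a b ≠ 0 := by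
  intro h0
  unfold coinc at h0
  set Ua := (iter P Q d a).1
  set Wa := (iter P Q d a).2
  set Ub := (iter P Q d b).1
  set Wb := (iter P Q d b).2
  obtain ⟨α, β, hαβ⟩ := iter_isCoprime h hP hQ htop a
  change α * Ua + β * Wa = 1 at hαβ
  obtain ⟨γ, δ, hγδ⟩ := iter_isCoprime h hP hQ htop b
  change γ * Ub + δ * Wb = 1 at hγδ
  have h1 : Ub = Ua * (α * Ub + β * Wb) := by
    linear_combination (-Ub) * hαβ - β * h0
  have h2 : Wb = Wa * (α * Ub + β * Wb) := by
    linear_combination (-Wb) * hαβ + α * h0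
  have hunit : IsUnit (α * Ub + β * Wb) := by
    apply IsUnit.of_mul_eq_one (γ * Ua + δ * Wa)
    linear_combination hγδ - γ * h1 - δ * h2
  obtain ⟨e, he, he'⟩ := Polynomial.isUnit_iff.1 hunit
  rw [← he'] at h1 h2
  have hda : d ^ a < d ^ b := Nat.pow_lt_pow_right (by omega) hab
  have h3 : Ub.coeff (d ^ b) = 0 := by
    rw [h1, coeff_mul_C, coeff_eq_zero_of_natDegree_lt, zero_mul]
    exact lt_of_le_of_lt (iter_natDegree a).1 hda
  have h4 : Wb.coeff (d ^ b) = 0 := by
    rw [h2, coeff_mul_C, coeff_eq_zero_of_natDegree_lt, zero_mul]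
    exact lt_of_le_of_lt (iter_natDegree a).2 hda
  rcases iter_coeff h hP hQ htop b with h5 | h5
  · exact h5 h3
  · exact h5 h4

theorem coinc_aeval {L : Type*} [Field L] [Algebra K L] (v : L × L) (hv : v.2 ≠ 0) (a b : ℕ)
    (h : cr ((phi P Q d)^[a] v) ((phi P Q d)^[b] v) = 0) : aeval (v.1 / v.2) (coinc P Q d a b) = 0 := by
  rw [phi_iter, phi_iter] at h
  have ha1 := iter_natDegree (P := P) (Q := Q) (d := d) a
  have hb1 := iter_natDegree (P := P) (Q := Q) (d := d) b
  simp only [cr] at h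
  rw [hev_eq _ _ ha1.1 _ _ hv, hev_eq _ _ hb1.2 _ _ hv, hev_eq _ _ ha1.2 _ _ hv,
    hev_eq _ _ hb1.1 _ _ hv] at h
  have h2 : v.2 ^ d ^ a * v.2 ^ d ^ b * aeval (v.1 / v.2) (coinc P Q d a b) = 0 := by
    rw [← h]
    unfold coinc
    rw [map_sub, map_mul, map_mul]
    ring
  rcases mul_eq_zero.1 h2 with h3 | h3
  · exact absurd h3 (mul_ne_zero (pow_ne_zero _ hv) (pow_ne_zero _ hv))
  · exact h3

end coincidence

section change

variable {K : Type*} [Field K] {P Q : K[X]} {d : ℕ}

/-- first component after the coordinate change `w = (v₂, v₁ - t v₂)` -/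
noncomputable def chP (Q : K[X]) (d : ℕ) (t : K) : K[X] := hev Q d (C t * X + C 1) (C 1 * X + C 0 : K[X])

/-- second component after the coordinate change -/
noncomputable def chQ (P Q : K[X]) (d : ℕ) (t : K) : K[X] :=
  hev P d (C t * X + C 1) (C 1 * X + C 0 : K[X]) - C t * hev Q d (C t * X + C 1) (C 1 * X + C 0 : K[X])

theorem ch_isCoprime (h : IsCoprime P Q) (hP : P.natDegree ≤ d) (hQ : Q.natDegree ≤ d)
    (htop : P.coeff d ≠ 0 ∨ Q.coeff d ≠ 0) (t : K) : IsCoprime (chP Q d t) (chQ P Q d t) := by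
  have hUW : IsCoprime (C t * X + C 1 : K[X]) (C 1 * X + C 0 : K[X]) :=
    ⟨1, -C t, by simp⟩
  obtain ⟨α, β, hαβ⟩ := hev_isCoprime h hP hQ htop hUW
  refine ⟨β + α * C t, α, ?_⟩
  unfold chP chQ
  linear_combination hαβ

theorem ch_natDegree (t : K) :
    (chP Q d t).natDegree ≤ d ∧ (chQ P Q d t).natDegree ≤ d := by
  have h1 := hev_natDegree P d (U := C t * X + C 1) (W := C 1 * X + C 0) (q := 1)
    natDegree_linear_le natDegree_linear_le
  have h2 := hev_natDegree Q d (U := C t * X + C 1) (W := C 1 * X + C 0) (q := 1)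
    natDegree_linear_le natDegree_linear_le
  rw [mul_one] at h1 h2
  refine ⟨h2, (natDegree_sub_le _ _).trans (max_le h1 ((natDegree_C_mul_le _ _).trans h2))⟩

theorem ch_coeff (h : IsCoprime P Q) (hP : P.natDegree ≤ d) (hQ : Q.natDegree ≤ d)
    (htop : P.coeff d ≠ 0 ∨ Q.coeff d ≠ 0) (t : K) :
    (chP Q d t).coeff d ≠ 0 ∨ (chQ P Q d t).coeff d ≠ 0 := by
  have h1 := hev_coeff_ne h hP hQ htop (U := C t * X + C 1) (W := C 1 * X + C 0) (q := 1)
    natDegree_linear_le natDegree_linear_le (by right; simp)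
  rw [mul_one] at h1
  by_contra hcon
  push Not at hcon
  obtain ⟨hc1, hc2⟩ := hcon
  unfold chP at hc1
  unfold chQ at hc2
  rw [coeff_sub, coeff_C_mul, hc1, mul_zero, sub_zero] at hc2
  rcases h1 with h1 | h1
  · exact h1 hc2
  · exact h1 hc1

theorem ch_hev {L : Type*} [Field L] [Algebra K L] (t : K) (u w : L) :
    hev (chP Q d t) d u w = hev Q d (algebraMap K L t * u + w) u ∧
    hev (chQ P Q d t) d u w = hev P d (algebraMap K L t * u + w) u -
      algebraMap K L t * hev Q d (algebraMap K L t * u + w) u := by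
  have key : ∀ R : K[X], hev (hev R d (C t * X + C 1) (C 1 * X + C 0 : K[X])) d u w =
      hev R d (algebraMap K L t * u + w) u := by
    intro R
    have h3 := hev_comp R d (q := 1) (U := C t * X + C 1)
      (W := C 1 * X + C 0) natDegree_linear_le natDegree_linear_le u w
    rw [mul_one] at h3
    rw [h3, hev_linear, hev_linear]
    simp
  refine ⟨key Q, ?_⟩
  unfold chQ
  rw [sub_eq_add_neg, ← neg_mul, ← C_neg, hev_add, hev_C_mul, key, key, map_neg]
  ring

/-- **Change of coordinate making the orbit finite.** -/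
theorem exists_ratOrbit [Infinite K] (h : IsCoprime P Q) (hP : P.natDegree ≤ d)
    (hQ : Q.natDegree ≤ d) (htop : P.coeff d ≠ 0 ∨ Q.coeff d ≠ 0) {v : K × K} (hv : v ≠ 0)
    {m n : ℕ} (hmn : m < n) (he : cr ((phi P Q d)^[m] v) ((phi P Q d)^[n] v) = 0) (N : ℕ)
    (hno : ∀ a b : ℕ, a < b → b ≤ N → cr ((phi P Q d)^[a] v) ((phi P Q d)^[b] v) ≠ 0) :
    ∃ (t : K) (x : ℕ → K), RatOrbit (chP Q d t) (chQ P Q d t) x N := by
  set w : ℕ → K × K := fun i => (phi P Q d)^[i] v with hw
  have hw0 : ∀ i, w i ≠ 0 := phi_iter_ne_zero h hP hQ htop hv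
  have hfin1 : (Set.range fun i => (w i).1 / (w i).2).Finite :=
    finite_range_of_inv h hP hQ htop hv hmn he (fun a => a.1 / a.2) (by
      intro c a hc
      simp only [Prod.smul_fst, Prod.smul_snd, smul_eq_mul]
      exact mul_div_mul_left _ _ hc)
  obtain ⟨t, ht⟩ := hfin1.exists_notMem
  have hb : ∀ i, (w i).1 - t * (w i).2 ≠ 0 := by
    intro i hi
    by_cases h2 : (w i).2 = 0
    · rw [h2, mul_zero, sub_zero] at hi
      exact hw0 i (Prod.ext hi h2)
    · apply ht
      refine ⟨i, ?_⟩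
      simp only
      rw [div_eq_iff h2]
      exact sub_eq_zero.1 hi
  have hstep : ∀ i, w (i + 1) = phi P Q d (w i) := fun i => Function.iterate_succ_apply' _ i v
  -- evaluation
  have hev' : ∀ (R : K[X]) (i : ℕ), hev R d (t * ((w i).2 / ((w i).1 - t * (w i).2)) + 1)
      ((w i).2 / ((w i).1 - t * (w i).2)) =
      (((w i).1 - t * (w i).2)⁻¹) ^ d * hev R d (w i).1 (w i).2 := by
    intro R i
    rw [← hev_smul_arg]
    congr 1
    · have := hb i
      field_simp
      ring
    · rw [div_eq_inv_mul]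
  have hchev : ∀ (R : K[X]) (y : K), (hev R d (C t * X + C 1) (C 1 * X + C 0 : K[X])).eval y =
      hev R d (t * y + 1) y := by
    intro R y
    rw [hev_eval]
    simp
  have hP1 : ∀ i, (chP Q d t).eval ((w i).2 / ((w i).1 - t * (w i).2)) =
      (((w i).1 - t * (w i).2)⁻¹) ^ d * (w (i + 1)).2 := by
    intro i
    unfold chP
    rw [hchev, hev', hstep]
    rfl
  have hQ1 : ∀ i, (chQ P Q d t).eval ((w i).2 / ((w i).1 - t * (w i).2)) =
      (((w i).1 - t * (w i).2)⁻¹) ^ d * ((w (i + 1)).1 - t * (w (i + 1)).2) := by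
    intro i
    unfold chQ
    rw [eval_sub, eval_mul, eval_C, hchev, hchev, hev', hev', hstep]
    change _ = _ * (hev P d _ _ - t * hev Q d _ _)
    ring
  refine ⟨t, fun i => (w i).2 / ((w i).1 - t * (w i).2), ?_, ?_, ?_, ?_⟩
  · intro i
    rw [hQ1]
    exact mul_ne_zero (pow_ne_zero _ (inv_ne_zero (hb i))) (hb (i + 1))
  · intro i
    rw [hP1, hQ1, mul_div_mul_left _ _ (pow_ne_zero _ (inv_ne_zero (hb i)))]
  · intro i j hi hj hij
    have hcr : cr (w i) (w j) = 0 := by
      rw [div_eq_div_iff (hb i) (hb j)] at hij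
      simp only [cr]
      linear_combination (-1 : K) * hij
    rcases lt_trichotomy i j with hlt | hlt | hlt
    · exact absurd hcr (hno i j hlt hj)
    · exact hlt
    · rw [cr_comm, neg_eq_zero] at hcr
      exact absurd hcr (hno j i hlt hi)
  · exact finite_range_of_inv h hP hQ htop hv hmn he (fun a => a.2 / (a.1 - t * a.2)) (by
      intro c a hc
      simp only [Prod.smul_fst, Prod.smul_snd, smul_eq_mul]
      rw [← mul_div_mul_left a.2 (a.1 - t * a.2) hc]
      congr 1
      ring)

end change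

end Pool.Agent.Helper45.FR

end

section

set_option autoImplicit false

open Finset Polynomial

namespace Pool.Agent.Helper33.PT

/-- the energy of a finite set: sum over the ordered pairs of distinct indices -/
noncomputable def En {E ι : Type*} [Field E] [DecidableEq ι] (v : DV E) (x : ι → E) (H : ι → ℝ)
    (q : ℝ) (S : Finset ι) : ℝ :=
  ∑ i ∈ S, ∑ j ∈ S with j ≠ i, ((v.o (x i - x j) : ℝ) - H i - H j + q)

end Pool.Agent.Helper33.PT

end

section

set_option autoImplicit false

set_option linter.style.haveILetI false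

namespace Pool.Agent.Helper45.S6

open Polynomial IntermediateField Pool.Agent.Helper16 Pool.Agent.Helper33 Pool.Agent.Helper45.FF
  Pool.Agent.Helper45.FR

/-- **The abstract statement** for function fields of degree at most `n` over a rational function
field `k(t)`, `k` algebraically closed: a finite orbit with more than `N` distinct points forces
the rational map to be conjugate to a map over `k`. The extension `L / k(t)` may be assumed
separable. -/
def AbsS (k : Type) [Field k] (d n : ℕ) : Prop :=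
  ∃ N : ℕ, ∀ (L : Type) [Field L] [Algebra k L] (t : L), IsFunctionField k L →
    Transcendental k t → Algebra.IsSeparable k⟮t⟯ L → Module.finrank k⟮t⟯ L ≤ n →
    ∀ F G : L[X], IsCoprime F G → F.natDegree ≤ d → G.natDegree ≤ d →
      (F.coeff d ≠ 0 ∨ G.coeff d ≠ 0) → ∀ x : ℕ → L, RatOrbit F G x N → ConstConj k F G d

end Pool.Agent.Helper45.S6

end

section

set_option autoImplicit false

namespace Pool.Agent.Helper38.DT

open Polynomial Pool.Agent.Helper93.RatODE Pool.Agent.Helper45.FR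

theorem map_hev {K K' : Type} [Field K] [Field K'] (f : K →+* K') (P : K[X]) (n : ℕ) (U W : K[X]) :
    (hev P n U W : K[X]).map f = hev (P.map f) n (U.map f) (W.map f) := by
  unfold hev
  rw [Polynomial.map_sum]
  refine Finset.sum_congr rfl fun j _ => ?_
  rw [Polynomial.map_mul, Polynomial.map_mul, Polynomial.map_pow, Polynomial.map_pow, coeff_map]
  congr 2
  exact Polynomial.map_C f

theorem constConj_hom {k K K' : Type} [Field k] [Field K] [Field K'] [Algebra k K] [Algebra k K']
    (f : K →+* K') (f₀ : k →+* k) (hf : ∀ a, f (algebraMap k K a) = algebraMap k K' (f₀ a))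
    (P Q : K[X]) (d : ℕ) (h : ConstConj k P Q d) : ConstConj k (P.map f) (Q.map f) d := by
  obtain ⟨A, P', Q', c, hA, hc, hP', hQ', hcop, htop, h1, h2⟩ := h
  have hcomp : f.comp (algebraMap k K) = (algebraMap k K').comp f₀ := by
    ext a; exact hf a
  have hmap : ∀ R : k[X], (R.map (algebraMap k K)).map f = (R.map f₀).map (algebraMap k K') := by
    intro R
    rw [Polynomial.map_map, Polynomial.map_map, hcomp]
  refine ⟨A.map f, P'.map f₀, Q'.map f₀, f c, ?_, ?_, natDegree_map_le.trans hP',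
    natDegree_map_le.trans hQ', ?_, ?_, ?_, ?_⟩
  · have : (A.map f).det = f A.det := by
      simp [Matrix.det_fin_two]
    rw [this]
    simpa using hA
  · simpa using hc
  · rw [← hmap, ← hmap]
    exact (Polynomial.isCoprime_map f).2 hcop
  · rw [coeff_map, coeff_map]
    rcases htop with h | h
    · left; simpa using h
    · right; simpa using h
  · have h3 := congrArg (Polynomial.map f) h1
    rw [map_hev] at h3
    simp only [Polynomial.map_add, Polynomial.map_mul, Polynomial.map_C, Polynomial.map_X,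
      hmap] at h3
    exact h3
  · have h3 := congrArg (Polynomial.map f) h2
    rw [map_hev] at h3
    simp only [Polynomial.map_add, Polynomial.map_mul, Polynomial.map_C, Polynomial.map_X,
      hmap] at h3
    exact h3

theorem constConj_map {k L E : Type} [Field k] [Field L] [Field E] [Algebra k L] [Algebra k E]
    [Algebra L E] [IsScalarTower k L E] (A B : L[X]) (d : ℕ) (h : ConstConj k A B d) :
    ConstConj k (A.map (algebraMap L E)) (B.map (algebraMap L E)) d :=
  constConj_hom (algebraMap L E) (RingHom.id k)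
    (fun a => (IsScalarTower.algebraMap_apply k L E a).symm) A B d h

end Pool.Agent.Helper38.DT

end

section

set_option autoImplicit false

set_option linter.style.haveILetI false

namespace Pool.Agent.Helper45.M8

open Finset Polynomial Pool.Agent.Helper93.RatODE Pool.Agent.Helper45.FR

section vec

variable {k L : Type*} [Field k] [Field L] [Algebra k L]

/-- the form of `P` and `Q` evaluated on a vector -/
noncomputable def fv {K : Type*} [Field K] [Algebra K L] (P Q : K[X]) (d : ℕ) (v : Fin 2 → L) :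
    Fin 2 → L :=
  ![hev P d (v 0) (v 1), hev Q d (v 0) (v 1)]

theorem fv_eq_aeval {K : Type*} [Field K] [Algebra K L] (P Q : K[X]) (d : ℕ) (v : Fin 2 → L) :
    fv P Q d v = ![MvPolynomial.aeval v (P.homogenize d), MvPolynomial.aeval v (Q.homogenize d)] := by
  rw [aeval_homogenize, aeval_homogenize]; rfl

/-- from vectors to polynomials -/
theorem constConj_of_vec [Infinite L] {P Q : L[X]} {d : ℕ} (A : Matrix (Fin 2) (Fin 2) L)
    (P' Q' : k[X]) (c : L) (hA : A.det ≠ 0) (hc : c ≠ 0) (hP' : P'.natDegree ≤ d)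
    (hQ' : Q'.natDegree ≤ d)
    (hcop : IsCoprime (P'.map (algebraMap k L)) (Q'.map (algebraMap k L)))
    (htop : P'.coeff d ≠ 0 ∨ Q'.coeff d ≠ 0)
    (h : ∀ v : Fin 2 → L, fv P Q d (A.mulVec v) = c • A.mulVec (fv P' Q' d v)) :
    ConstConj k P Q d := by
  have hev1 : ∀ (R : k[X]) (y : L), R.natDegree ≤ d →
      hev R d y (1 : L) = (R.map (algebraMap k L)).eval y := by
    intro R y hR
    rw [hev_eq R d hR y 1 one_ne_zero, one_pow, one_mul, div_one, eval_map_algebraMap]
  refine ⟨A, P', Q', c, hA, hc, hP', hQ', hcop, htop, ?_, ?_⟩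
  · apply Polynomial.funext
    intro y
    have h1 := congrFun (h ![y, 1]) 0
    simp only [fv, Matrix.cons_val_zero, Matrix.cons_val_one, Pi.smul_apply, smul_eq_mul,
      mulVec_zero', mulVec_one'] at h1
    rw [hev_eval]
    simp only [eval_add, eval_mul, eval_C, eval_X]
    rw [← hev1 P' y hP', ← hev1 Q' y hQ']
    simpa using h1
  · apply Polynomial.funext
    intro y
    have h1 := congrFun (h ![y, 1]) 1
    simp only [fv, Matrix.cons_val_zero, Matrix.cons_val_one, Pi.smul_apply, smul_eq_mul,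
      mulVec_zero', mulVec_one'] at h1
    rw [hev_eval]
    simp only [eval_add, eval_mul, eval_C, eval_X]
    rw [← hev1 P' y hP', ← hev1 Q' y hQ']
    simpa using h1

end vec

section trans

variable {k L₁ L : Type*} [Field k] [Field L₁] [Field L] [Algebra k L₁] [Algebra L₁ L]
  [Algebra k L] [IsScalarTower k L₁ L]

/-- **Transfer**: `P / Q` over `L` is conjugate to `P₁ / Q₁` over `L₁`, which (after the change of
coordinate `ch`) is conjugate to a map over `k`. -/
theorem constConj_trans [Infinite L] {P Q : L[X]} {d : ℕ} (A₁ : Matrix (Fin 2) (Fin 2) L)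
    (P₁ Q₁ : L₁[X]) (c₁ : L) (hA₁ : A₁.det ≠ 0) (hc₁ : c₁ ≠ 0)
    (h1 : (hev P d (C (A₁ 0 0) * X + C (A₁ 0 1)) (C (A₁ 1 0) * X + C (A₁ 1 1)) : L[X]) =
        C c₁ * (C (A₁ 0 0) * P₁.map (algebraMap L₁ L) + C (A₁ 0 1) * Q₁.map (algebraMap L₁ L)))
    (h2 : (hev Q d (C (A₁ 0 0) * X + C (A₁ 0 1)) (C (A₁ 1 0) * X + C (A₁ 1 1)) : L[X]) =
        C c₁ * (C (A₁ 1 0) * P₁.map (algebraMap L₁ L) + C (A₁ 1 1) * Q₁.map (algebraMap L₁ L)))
    (t : L₁) (h : ConstConj k (chP Q₁ d t) (chQ P₁ Q₁ d t) d) : ConstConj k P Q d := by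
  obtain ⟨A, P', Q', c, hA, hc, hP', hQ', hcop, htop, e1, e2⟩ := h
  let B : Matrix (Fin 2) (Fin 2) L := A.map (algebraMap L₁ L)
  let T : Matrix (Fin 2) (Fin 2) L := !![algebraMap L₁ L t, 1; 1, 0]
  have hB : B.det ≠ 0 := by
    have : B.det = algebraMap L₁ L A.det := by
      simp only [B, Matrix.det_fin_two, Matrix.map_apply, map_sub, map_mul]
    rw [this]
    exact (_root_.map_ne_zero _).2 hA
  have hT : T.det ≠ 0 := by
    simp [T, Matrix.det_fin_two]
  -- `ch` composed with `B`
  have s1 : ∀ v : Fin 2 → L, fv (chP Q₁ d t) (chQ P₁ Q₁ d t) d (B.mulVec v) =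
      algebraMap L₁ L c • B.mulVec (fv P' Q' d v) := by
    intro v
    rw [fv_eq_aeval, fv_eq_aeval]
    exact conj_aeval (L := L) e1 e2 v
  -- the coordinate change `T`
  have s2 : ∀ w : Fin 2 → L, fv P₁ Q₁ d (T.mulVec w) =
      T.mulVec (fv (chP Q₁ d t) (chQ P₁ Q₁ d t) d w) := by
    intro w
    have h3 := ch_hev (P := P₁) (Q := Q₁) (d := d) t (w 0) (w 1)
    have ht0 : T.mulVec w 0 = algebraMap L₁ L t * w 0 + w 1 := by
      rw [mulVec_zero']; simp [T]
    have ht1 : T.mulVec w 1 = w 0 := by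
      rw [mulVec_one']; simp [T]
    ext i
    fin_cases i
    · simp only [Fin.zero_eta]
      rw [mulVec_zero']
      simp only [fv, Matrix.cons_val_zero, Matrix.cons_val_one]
      rw [ht0, ht1, h3.1, h3.2]
      simp [T]
    · simp only [Fin.mk_one]
      rw [mulVec_one']
      simp only [fv, Matrix.cons_val_zero, Matrix.cons_val_one]
      rw [ht0, ht1, h3.1, h3.2]
      simp [T]
  -- the first conjugation
  have s3 : ∀ v : Fin 2 → L, fv P Q d (A₁.mulVec v) = c₁ • A₁.mulVec (fv P₁ Q₁ d v) := by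
    intro v
    rw [fv_eq_aeval, fv_eq_aeval]
    have := conj_aeval (L := L) h1 h2 v
    simpa using this
  refine constConj_of_vec (A₁ * (T * B)) P' Q' (c₁ * algebraMap L₁ L c) ?_ ?_ hP' hQ' ?_ htop ?_
  · rw [Matrix.det_mul, Matrix.det_mul]
    exact mul_ne_zero hA₁ (mul_ne_zero hT hB)
  · exact mul_ne_zero hc₁ ((_root_.map_ne_zero _).2 hc)
  · have h3 := hcop.map (mapRingHom (algebraMap L₁ L))
    simp only [coe_mapRingHom, Polynomial.map_map] at h3
    rwa [← IsScalarTower.algebraMap_eq] at h3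
  · intro v
    rw [← Matrix.mulVec_mulVec, ← Matrix.mulVec_mulVec, s3, s2, s1, Matrix.mulVec_smul,
      Matrix.mulVec_smul, smul_smul, ← Matrix.mulVec_mulVec, ← Matrix.mulVec_mulVec]

end trans

end Pool.Agent.Helper45.M8

end

section

set_option autoImplicit false

set_option linter.style.haveILetI false

namespace Pool.Agent.Helper45.M8

open Finset Polynomial Pool.Agent.Helper93.RatODE Pool.Agent.Helper45.FR

section orb

variable {K : Type*} [Field K] {P Q : K[X]} {d : ℕ}

/-- Change of coordinate making the orbit finite, with the coordinates of the points. -/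
theorem exists_ratOrbit_coord [Infinite K] (h : IsCoprime P Q) (hP : P.natDegree ≤ d)
    (hQ : Q.natDegree ≤ d) (htop : P.coeff d ≠ 0 ∨ Q.coeff d ≠ 0) {v : K × K} (hv : v ≠ 0)
    {m n : ℕ} (hmn : m < n) (he : cr ((phi P Q d)^[m] v) ((phi P Q d)^[n] v) = 0) (N : ℕ)
    (hno : ∀ a b : ℕ, a < b → b ≤ N → cr ((phi P Q d)^[a] v) ((phi P Q d)^[b] v) ≠ 0) :
    ∃ (t : K) (x : ℕ → K), RatOrbit (chP Q d t) (chQ P Q d t) x N ∧
      ∀ i, ∃ s : K, s ≠ 0 ∧ (phi P Q d)^[i] v = s • (t * x i + 1, x i) := by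
  set w : ℕ → K × K := fun i => (phi P Q d)^[i] v with hw
  have hw0 : ∀ i, w i ≠ 0 := phi_iter_ne_zero h hP hQ htop hv
  have hfin1 : (Set.range fun i => (w i).1 / (w i).2).Finite :=
    finite_range_of_inv h hP hQ htop hv hmn he (fun a => a.1 / a.2) (by
      intro c a hc
      simp only [Prod.smul_fst, Prod.smul_snd, smul_eq_mul]
      exact mul_div_mul_left _ _ hc)
  obtain ⟨t, ht⟩ := hfin1.exists_notMem
  have hb : ∀ i, (w i).1 - t * (w i).2 ≠ 0 := by
    intro i hi
    by_cases h2 : (w i).2 = 0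
    · rw [h2, mul_zero, sub_zero] at hi
      exact hw0 i (Prod.ext hi h2)
    · apply ht
      refine ⟨i, ?_⟩
      simp only
      rw [div_eq_iff h2]
      exact sub_eq_zero.1 hi
  have hstep : ∀ i, w (i + 1) = phi P Q d (w i) := fun i => Function.iterate_succ_apply' _ i v
  -- evaluation
  have hev' : ∀ (R : K[X]) (i : ℕ), hev R d (t * ((w i).2 / ((w i).1 - t * (w i).2)) + 1)
      ((w i).2 / ((w i).1 - t * (w i).2)) =
      (((w i).1 - t * (w i).2)⁻¹) ^ d * hev R d (w i).1 (w i).2 := by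
    intro R i
    rw [← hev_smul_arg]
    congr 1
    · have := hb i
      field_simp
      ring
    · rw [div_eq_inv_mul]
  have hchev : ∀ (R : K[X]) (y : K), (hev R d (C t * X + C 1) (C 1 * X + C 0 : K[X])).eval y =
      hev R d (t * y + 1) y := by
    intro R y
    rw [hev_eval]
    simp
  have hP1 : ∀ i, (chP Q d t).eval ((w i).2 / ((w i).1 - t * (w i).2)) =
      (((w i).1 - t * (w i).2)⁻¹) ^ d * (w (i + 1)).2 := by
    intro i
    unfold chP
    rw [hchev, hev', hstep]
    rfl
  have hQ1 : ∀ i, (chQ P Q d t).eval ((w i).2 / ((w i).1 - t * (w i).2)) =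
      (((w i).1 - t * (w i).2)⁻¹) ^ d * ((w (i + 1)).1 - t * (w (i + 1)).2) := by
    intro i
    unfold chQ
    rw [eval_sub, eval_mul, eval_C, hchev, hchev, hev', hev', hstep]
    change _ = _ * (hev P d _ _ - t * hev Q d _ _)
    ring
  refine ⟨t, fun i => (w i).2 / ((w i).1 - t * (w i).2), ⟨?_, ?_, ?_, ?_⟩, ?_⟩
  · intro i
    rw [hQ1]
    exact mul_ne_zero (pow_ne_zero _ (inv_ne_zero (hb i))) (hb (i + 1))
  · intro i
    rw [hP1, hQ1, mul_div_mul_left _ _ (pow_ne_zero _ (inv_ne_zero (hb i)))]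
  · intro i j hi hj hij
    have hcr : cr (w i) (w j) = 0 := by
      rw [div_eq_div_iff (hb i) (hb j)] at hij
      simp only [cr]
      linear_combination (-1 : K) * hij
    rcases lt_trichotomy i j with hlt | hlt | hlt
    · exact absurd hcr (hno i j hlt hj)
    · exact hlt
    · rw [cr_comm, neg_eq_zero] at hcr
      exact absurd hcr (hno j i hlt hi)
  · exact finite_range_of_inv h hP hQ htop hv hmn he (fun a => a.2 / (a.1 - t * a.2)) (by
      intro c a hc
      simp only [Prod.smul_fst, Prod.smul_snd, smul_eq_mul]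
      rw [← mul_div_mul_left a.2 (a.1 - t * a.2) hc]
      congr 1
      ring)
  · intro i
    refine ⟨(w i).1 - t * (w i).2, hb i, ?_⟩
    have := hb i
    refine Prod.ext ?_ ?_
    · change (w i).1 = ((w i).1 - t * (w i).2) * (t * ((w i).2 / ((w i).1 - t * (w i).2)) + 1)
      field_simp
      ring
    · change (w i).2 = ((w i).1 - t * (w i).2) * ((w i).2 / ((w i).1 - t * (w i).2))
      rw [← mul_div_assoc, mul_comm, mul_div_assoc, div_self this, mul_one]

end orb

end Pool.Agent.Helper45.M8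

end

section

set_option autoImplicit false

set_option linter.style.haveILetI false

namespace Pool.Agent.Helper38.DT

open Polynomial Pool.Agent.Helper93.RatODE Pool.Agent.Helper45.FR Pool.Agent.Helper45.M8

/-- conjugation of a rational function by a matrix -/
theorem exists_conj_matrix {K : Type} [Field K] {P Q : K[X]} {d : ℕ} (h : IsRatD P Q d)
    (M : Matrix (Fin 2) (Fin 2) K) (hM : M.det ≠ 0) :
    ∃ P₁ Q₁ : K[X], IsRatD P₁ Q₁ d ∧ ∀ (S : Type) [Field S] [Algebra K S] (v : S × S),
      phi P Q d (mp (M.map (algebraMap K S)) v) =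
        mp (M.map (algebraMap K S)) (phi P₁ Q₁ d v) := by
  obtain ⟨hcop, hP, hQ, htop⟩ := h
  rw [Matrix.det_fin_two] at hM
  obtain ⟨m00, h00⟩ : ∃ m, M 0 0 = m := ⟨_, rfl⟩
  obtain ⟨m01, h01⟩ : ∃ m, M 0 1 = m := ⟨_, rfl⟩
  obtain ⟨m10, h10⟩ : ∃ m, M 1 0 = m := ⟨_, rfl⟩
  obtain ⟨m11, h11⟩ : ∃ m, M 1 1 = m := ⟨_, rfl⟩
  rw [h00, h01, h10, h11] at hM
  obtain ⟨δ, hδ⟩ : ∃ δ, m00 * m11 - m01 * m10 = δ := ⟨_, rfl⟩
  rw [hδ] at hM
  set U : K[X] := C m00 * X + C m01 with hU
  set W : K[X] := C m10 * X + C m11 with hW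
  have dU : U.natDegree ≤ 1 := natDegree_linear_le
  have dW : W.natDegree ≤ 1 := natDegree_linear_le
  have hUW : IsCoprime U W := by
    refine ⟨C (-(δ⁻¹ * m10)), C (δ⁻¹ * m00), ?_⟩
    have : C (-(δ⁻¹ * m10)) * U + C (δ⁻¹ * m00) * W = C (δ⁻¹ * δ) := by
      rw [hU, hW, ← hδ]
      simp only [C_mul, C_neg, C_sub]
      ring
    rw [this, inv_mul_cancel₀ hM, C_1]
  have htopUW : U.coeff 1 ≠ 0 ∨ W.coeff 1 ≠ 0 := by
    by_contra hcon
    push Not at hcon
    simp only [hU, hW, coeff_add, coeff_C_mul, coeff_X_one, mul_one, coeff_C_succ, add_zero] at hcon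
    rw [hcon.1, hcon.2, zero_mul, mul_zero, sub_zero] at hδ
    exact hM hδ.symm
  obtain ⟨RP, hRP⟩ : ∃ RP : K[X], hev P d U W = RP := ⟨_, rfl⟩
  obtain ⟨RQ, hRQ⟩ : ∃ RQ : K[X], hev Q d U W = RQ := ⟨_, rfl⟩
  have dRP : RP.natDegree ≤ d := by
    have := hev_natDegree P d dU dW
    rwa [mul_one, hRP] at this
  have dRQ : RQ.natDegree ≤ d := by
    have := hev_natDegree Q d dU dW
    rwa [mul_one, hRQ] at this
  have cRR : IsCoprime RP RQ := by
    rw [← hRP, ← hRQ]
    exact hev_isCoprime hcop hP hQ htop hUW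
  have tRR : RP.coeff d ≠ 0 ∨ RQ.coeff d ≠ 0 := by
    have := hev_coeff_ne hcop hP hQ htop dU dW htopUW
    rwa [mul_one, hRP, hRQ] at this
  have eRP : ∀ (S : Type) [Field S] [Algebra K S] (u w : S), hev RP d u w =
      hev P d (algebraMap K S m00 * u + algebraMap K S m01 * w)
        (algebraMap K S m10 * u + algebraMap K S m11 * w) := by
    intro S _ _ u w
    have h3 := hev_comp P d dU dW u w
    rw [mul_one, hRP, hU, hW, hev_linear, hev_linear] at h3
    exact h3
  have eRQ : ∀ (S : Type) [Field S] [Algebra K S] (u w : S), hev RQ d u w =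
      hev Q d (algebraMap K S m00 * u + algebraMap K S m01 * w)
        (algebraMap K S m10 * u + algebraMap K S m11 * w) := by
    intro S _ _ u w
    have h3 := hev_comp Q d dU dW u w
    rw [mul_one, hRQ, hU, hW, hev_linear, hev_linear] at h3
    exact h3
  refine ⟨C (δ⁻¹ * m11) * RP + C (-(δ⁻¹ * m01)) * RQ, C (-(δ⁻¹ * m10)) * RP + C (δ⁻¹ * m00) * RQ,
    ⟨?_, ?_, ?_, ?_⟩, ?_⟩
  · obtain ⟨a, b, hab⟩ := cRR
    refine ⟨a * C m00 + b * C m10, a * C m01 + b * C m11, ?_⟩
    have hδ1 : C δ⁻¹ * (C m00 * C m11 - C m01 * C m10) = (1 : K[X]) := by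
      rw [← C_mul, ← C_mul, ← C_sub, hδ, ← C_mul, inv_mul_cancel₀ hM, C_1]
    simp only [C_mul, C_neg]
    linear_combination (a * RP + b * RQ) * hδ1 + hab
  · exact natDegree_add_le_of_degree_le ((natDegree_C_mul_le _ _).trans dRP)
      ((natDegree_C_mul_le _ _).trans dRQ)
  · exact natDegree_add_le_of_degree_le ((natDegree_C_mul_le _ _).trans dRP)
      ((natDegree_C_mul_le _ _).trans dRQ)
  · by_contra hcon
    push Not at hcon
    obtain ⟨c1, c2⟩ := hcon
    rw [coeff_add, coeff_C_mul, coeff_C_mul] at c1 c2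
    have hδ1 : δ⁻¹ * (m00 * m11 - m01 * m10) = 1 := by rw [hδ, inv_mul_cancel₀ hM]
    have e1 : RP.coeff d = 0 := by
      linear_combination m00 * c1 + m01 * c2 - RP.coeff d * hδ1
    have e2 : RQ.coeff d = 0 := by
      linear_combination m10 * c1 + m11 * c2 - RQ.coeff d * hδ1
    rcases tRR with h | h
    · exact h e1
    · exact h e2
  · intro S _ _ v
    have hδ1 : algebraMap K S δ⁻¹ * (algebraMap K S m00 * algebraMap K S m11 -
        algebraMap K S m01 * algebraMap K S m10) = 1 := by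
      rw [← map_mul, ← map_mul, ← map_sub, hδ, ← map_mul, inv_mul_cancel₀ hM, map_one]
    simp only [phi, mp, Matrix.map_apply, h00, h01, h10, h11]
    rw [← eRP, ← eRQ, hev_add, hev_add, hev_C_mul, hev_C_mul, hev_C_mul, hev_C_mul]
    simp only [map_mul, map_neg]
    refine Prod.ext ?_ ?_
    · simp only
      linear_combination (-hev RP d v.1 v.2) * hδ1
    · simp only
      linear_combination (-hev RQ d v.1 v.2) * hδ1

theorem constConj_of_pair {k L : Type} [Field k] [Field L] [Algebra k L] [Infinite L]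
    {P Q : L[X]} {d : ℕ} (A : Matrix (Fin 2) (Fin 2) L)
    (P' Q' : k[X]) (c : L) (hA : A.det ≠ 0) (hc : c ≠ 0) (hPQ : IsRatD P' Q' d)
    (h : ∀ v : L × L, phi P Q d (mp A v) = c • mp A (phi P' Q' d v)) :
    ConstConj k P Q d := by
  refine constConj_of_vec A P' Q' c hA hc hPQ.degF hPQ.degG ?_ hPQ.top ?_
  · rw [← coe_mapRingHom]
    exact hPQ.cop.map _
  · intro v
    have h1 := h (v 0, v 1)
    have h2 := congrArg Prod.fst h1
    have h3 := congrArg Prod.snd h1
    ext i
    fin_cases i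
    · simp only [Fin.zero_eta, Pi.smul_apply, smul_eq_mul]
      rw [mulVec_zero' A (fv _ _ d v)]
      simp only [fv, mulVec_zero' A v, mulVec_one' A v, Matrix.cons_val_zero, Matrix.cons_val_one]
      exact h2
    · simp only [Fin.mk_one, Pi.smul_apply, smul_eq_mul]
      rw [mulVec_one' A (fv _ _ d v)]
      simp only [fv, mulVec_zero' A v, mulVec_one' A v, Matrix.cons_val_zero, Matrix.cons_val_one]
      exact h3

theorem pair_of_constConj {k L : Type} [Field k] [Field L] [Algebra k L]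
    {P Q : L[X]} {d : ℕ} {A : Matrix (Fin 2) (Fin 2) L}
    {P' Q' : k[X]} {c : L}
    (h1 : (hev P d (C (A 0 0) * X + C (A 0 1)) (C (A 1 0) * X + C (A 1 1)) : L[X]) =
        C c * (C (A 0 0) * P'.map (algebraMap k L) + C (A 0 1) * Q'.map (algebraMap k L)))
    (h2 : (hev Q d (C (A 0 0) * X + C (A 0 1)) (C (A 1 0) * X + C (A 1 1)) : L[X]) =
        C c * (C (A 1 0) * P'.map (algebraMap k L) + C (A 1 1) * Q'.map (algebraMap k L)))
    (v : L × L) : phi P Q d (mp A v) = c • mp A (phi P' Q' d v) := by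
  have e := conj_aeval (L := L) h1 h2 ![v.1, v.2]
  rw [← fv_eq_aeval, ← fv_eq_aeval] at e
  have e0 := congrFun e 0
  have e1 := congrFun e 1
  simp only [fv, Pi.smul_apply, smul_eq_mul, mulVec_zero', mulVec_one', Matrix.cons_val_zero,
    Matrix.cons_val_one, Matrix.map_apply, Algebra.algebraMap_self, RingHom.id_apply] at e0 e1
  exact Prod.ext e0 e1

end Pool.Agent.Helper38.DT

end

section

set_option autoImplicit false

namespace Pool.Agent.Helper91.DT

open Polynomial IntermediateField Pool.Agent.Helper93.RatODE Pool.Agent.Helper45.FR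
  Pool.Agent.Helper38.DT

open Pool.Agent.Helper55.RD (hom)

open Pool.Agent.Helper55.RM (lift ext IsRat Isotrivial Conj PotGood prePer)

section forms

variable {K : Type} [Field K]

theorem hev_map_coeff {K₁ : Type} [Field K₁] [Algebra K K₁] {A : Type} [CommRing A] [Algebra K A]
    [Algebra K₁ A] [IsScalarTower K K₁ A] (P : K[X]) (n : ℕ) (a b : A) :
    hev (P.map (algebraMap K K₁)) n a b = hev P n a b := by
  unfold hev
  simp only [coeff_map, ← IsScalarTower.algebraMap_apply]

end forms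

section iso

theorem hev_ringHom {K K₁ : Type} [Field K] [Field K₁] (ε : K →+* K₁) (P : K[X]) (n : ℕ)
    (a b : K) : ε (hev P n a b) = hev (P.map ε) n (ε a) (ε b) := by
  simp [hev, map_sum]

theorem hev_one {K : Type} [Field K] {P : K[X]} {n : ℕ} (hP : P.natDegree ≤ n) (y : K) :
    hev P n y 1 = P.eval y := by
  rw [hev_eq_eval P n hP y 1 one_ne_zero]
  simp

/-- conjugacy from an identity of values -/
theorem constConj_of_values {k E : Type} [Field k] [Field E]
    [Algebra k E] {F G : E[X]} {d : ℕ} (hFG : IsRatD F G d) [IsAlgClosed E]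
    (A : Matrix (Fin 2) (Fin 2) E) (hdet : A.det ≠ 0) (P' Q' : k[X]) (hP' : P'.natDegree ≤ d)
    (hQ' : Q'.natDegree ≤ d) (c : E) (hc : c ≠ 0)
    (h : ∀ u w : E, hev F d (A 0 0 * u + A 0 1 * w) (A 1 0 * u + A 1 1 * w) =
        c * (A 0 0 * hev P' d u w + A 0 1 * hev Q' d u w) ∧
      hev G d (A 0 0 * u + A 0 1 * w) (A 1 0 * u + A 1 1 * w) =
        c * (A 1 0 * hev P' d u w + A 1 1 * hev Q' d u w)) :
    ConstConj k F G d := by
  have hinj := (algebraMap k E).injective
  have hdet' : A 0 0 * A 1 1 - A 0 1 * A 1 0 ≠ 0 := by rwa [Matrix.det_fin_two] at hdet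
  have hne : ∀ u w : E, (u ≠ 0 ∨ w ≠ 0) → ¬ (hev P' d u w = 0 ∧ hev Q' d u w = 0) := by
    rintro u w huw ⟨h1, h2⟩
    obtain ⟨h3, h4⟩ := h u w
    rw [h1, h2, mul_zero, mul_zero, add_zero, mul_zero] at h3 h4
    obtain ⟨h5, h6⟩ := hev_no_common_zero hFG.cop hFG.degF hFG.degG hFG.top h3 h4
    have h7 : (A 0 0 * A 1 1 - A 0 1 * A 1 0) * u = 0 := by
      linear_combination A 1 1 * h5 - A 0 1 * h6
    have h8 : (A 0 0 * A 1 1 - A 0 1 * A 1 0) * w = 0 := by
      linear_combination A 0 0 * h6 - A 1 0 * h5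
    rcases huw with h | h
    · exact h ((mul_eq_zero.1 h7).resolve_left hdet')
    · exact h ((mul_eq_zero.1 h8).resolve_left hdet')
  have hPE : (P'.map (algebraMap k E)).natDegree ≤ d := natDegree_map_le.trans hP'
  have hQE : (Q'.map (algebraMap k E)).natDegree ≤ d := natDegree_map_le.trans hQ'
  refine ⟨A, P', Q', c, hdet, hc, hP', hQ', ?_, ?_, ?_, ?_⟩
  · rw [isCoprime_iff_aeval_ne_zero_of_isAlgClosed E E]
    intro a
    by_contra hcon
    rw [not_or, not_not, not_not] at hcon
    refine hne a 1 (Or.inr one_ne_zero) ⟨?_, ?_⟩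
    · rw [← hev_map_coeff (K₁ := E) P', hev_one hPE, ← coe_aeval_eq_eval]
      exact hcon.1
    · rw [← hev_map_coeff (K₁ := E) Q', hev_one hQE, ← coe_aeval_eq_eval]
      exact hcon.2
  · by_contra hcon
    push Not at hcon
    refine hne 1 0 (Or.inl one_ne_zero) ⟨?_, ?_⟩
    · rw [hev_right_zero, hcon.1, map_zero, zero_mul]
    · rw [hev_right_zero, hcon.2, map_zero, zero_mul]
  · refine Polynomial.funext fun y => ?_
    rw [hev_eval]
    simp only [eval_add, eval_mul, eval_C, eval_X]
    rw [← hev_one hPE, ← hev_one hQE, hev_map_coeff, hev_map_coeff]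
    have := (h y 1).1
    simp only [mul_one] at this
    exact this
  · refine Polynomial.funext fun y => ?_
    rw [hev_eval]
    simp only [eval_add, eval_mul, eval_C, eval_X]
    rw [← hev_one hPE, ← hev_one hQE, hev_map_coeff, hev_map_coeff]
    have := (h y 1).2
    simp only [mul_one] at this
    exact this

end iso

end Pool.Agent.Helper91.DT

end

section

set_option autoImplicit false

namespace Pool.Agent.Helper91.DT

open Polynomial IntermediateField Pool.Agent.Helper93.RatODE Pool.Agent.Helper45.FR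
  Pool.Agent.Helper38.DT

open Pool.Agent.Helper55.RD (hom)

open Pool.Agent.Helper55.RM (lift ext IsRat Isotrivial Conj PotGood prePer)

section pt

variable {K : Type} [Field K]

/-- iterates of proportional vectors -/
theorem phi_iter_smul {F G : K[X]} {d : ℕ} (c : K) (v : K × K) (n : ℕ) :
    (phi F G d)^[n] (c • v) = c ^ d ^ n • (phi F G d)^[n] v := by
  induction n with
  | zero => simp
  | succ n ih =>
    rw [Function.iterate_succ_apply', Function.iterate_succ_apply', ih, phi_smul, ← pow_mul,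
      ← pow_succ]

theorem phi_iter_map {K' : Type} [Field K'] [Algebra K K'] {F G : K[X]} {d : ℕ} (v : K × K)
    (n : ℕ) : (phi (F.map (algebraMap K K')) (G.map (algebraMap K K')) d)^[n]
      (algebraMap K K' v.1, algebraMap K K' v.2) =
    (algebraMap K K' ((phi F G d)^[n] v).1, algebraMap K K' ((phi F G d)^[n] v).2) := by
  induction n with
  | zero => rfl
  | succ n ih =>
    rw [Function.iterate_succ_apply', Function.iterate_succ_apply', ih]
    unfold phi
    simp only
    rw [hev_ringHom, hev_ringHom]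

end pt

end Pool.Agent.Helper91.DT

end

section

set_option autoImplicit false

namespace Pool.Agent.Helper91.DT

open Polynomial IntermediateField Pool.Agent.Helper93.RatODE Pool.Agent.Helper45.FR
  Pool.Agent.Helper38.DT

/-- The statement of DT7. -/
def DT7 (k : Type) [Field k] : Prop :=
  ∀ (A B : k[X]) (δ : ℕ), 2 ≤ δ → IsRatD A B δ → ∀ N : ℕ,
    ∃ v : k × k, v ≠ 0 ∧ (∃ a b : ℕ, a < b ∧ cr ((phi A B δ)^[a] v) ((phi A B δ)^[b] v) = 0) ∧
      ∀ i ≤ N, ∀ j ≤ N, cr ((phi A B δ)^[i] v) ((phi A B δ)^[j] v) = 0 → i = j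

end Pool.Agent.Helper91.DT

end

section

set_option autoImplicit false

namespace Pool.Agent.Helper35.DT

open Polynomial Pool.Agent.Helper93.RatODE Pool.Agent.Helper45.FR Pool.Agent.Helper38.DT

section core

variable {k : Type} [Field k] [IsAlgClosed k]

/-- The case where infinity is fixed. -/
theorem core_inf (U W : k[X]) (D : ℕ) (hD : 2 ≤ D) (h : IsRatD U W D) (hW : W.coeff D = 0)
    (h1 : ∀ v : k × k, v ≠ 0 → cr (phi U W D (phi U W D v)) v = 0 → cr (phi U W D v) v = 0)
    (h2 : ∀ v w : k × k, v ≠ 0 → w ≠ 0 → cr (phi U W D v) v = 0 → cr (phi U W D w) v = 0 →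
      cr w v = 0) : False := by
  have hphi : ∀ x : k, phi U W D (x, 1) = (U.eval x, W.eval x) := by
    intro x
    ext
    · change hev U D x 1 = _
      rw [hev_eq_eval U D h.degF _ _ one_ne_zero]
      simp
    · change hev W D x 1 = _
      rw [hev_eq_eval W D h.degG _ _ one_ne_zero]
      simp
  have hphi' : phi U W D ((1, 0) : k × k) = (U.coeff D, W.coeff D) := by
    ext
    · change hev U D (1 : k) 0 = _
      rw [hev_right_zero]
      simp
    · change hev W D (1 : k) 0 = _
      rw [hev_right_zero]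
      simp
  have hinf : cr (phi U W D ((1, 0) : k × k)) (1, 0) = 0 := by
    rw [hphi', hW]
    simp [cr]
  have hne1 : ((1, 0) : k × k) ≠ 0 := fun h0 => one_ne_zero (congrArg Prod.fst h0)
  have hne2 : ∀ x : k, ((x, 1) : k × k) ≠ 0 := fun x h0 => one_ne_zero (congrArg Prod.snd h0)
  have hWroot : ∀ x : k, W.eval x ≠ 0 := by
    intro x hx
    have h3 := h2 (1, 0) (x, 1) hne1 (hne2 x) hinf (by rw [hphi, hx]; simp [cr])
    simp [cr] at h3
  have hWdeg : W.degree = 0 := by
    by_contra hd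
    obtain ⟨x, hx⟩ := IsAlgClosed.exists_root W hd
    exact hWroot x hx
  obtain ⟨w, hw⟩ : ∃ w, W = C w := ⟨_, eq_C_of_degree_eq_zero hWdeg⟩
  have hw0 : w ≠ 0 := by
    intro h0
    apply hWroot 0
    rw [hw, h0]
    simp
  have hUdeg : U.natDegree = D := by
    have hU : U.coeff D ≠ 0 := by
      rcases h.top with h0 | h0
      · exact h0
      · exact absurd hW h0
    exact le_antisymm h.degF (le_natDegree_of_ne_zero hU)
  apply core_poly (C w⁻¹ * U) D hD
  · rw [natDegree_C_mul (inv_ne_zero hw0), hUdeg]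
  · intro x hx
    have h3 := h1 (x, 1) (hne2 x) (by
      have e1 : phi U W D (x, 1) = w • ((eval x (C w⁻¹ * U), 1) : k × k) := by
        rw [hphi, hw, eval_C, eval_mul, eval_C]
        ext
        · simp [hw0]
        · simp
      rw [e1, phi_smul, cr_smul_left, hphi, hw, eval_C]
      have e2 : eval (eval x (C w⁻¹ * U)) U = w * x := by
        rw [eval_mul, eval_C] at hx
        have h5 := congrArg (fun z => w * z) hx
        simp only [mul_inv_cancel_left₀ hw0] at h5
        exact h5
      rw [e2]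
      simp [cr])
    rw [hphi, hw, eval_C] at h3
    simp only [cr] at h3
    rw [eval_mul, eval_C]
    field_simp
    linear_combination h3
  · intro x y hx hy
    rw [eval_mul, eval_C] at hx hy
    field_simp at hx hy
    have h3 := h2 (x, 1) (y, 1) (hne2 x) (hne2 y) (by
      rw [hphi, hw, eval_C, hx]
      simp [cr]) (by
      rw [hphi, hw, eval_C, hy]
      simp [cr])
    simp only [cr] at h3
    linear_combination h3

/-- The general case. -/
theorem core_rat (U W : k[X]) (D : ℕ) (hD : 2 ≤ D) (h : IsRatD U W D)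
    (h1 : ∀ v : k × k, v ≠ 0 → cr (phi U W D (phi U W D v)) v = 0 → cr (phi U W D v) v = 0)
    (h2 : ∀ v w : k × k, v ≠ 0 → w ≠ 0 → cr (phi U W D v) v = 0 → cr (phi U W D w) v = 0 →
      cr w v = 0) : False := by
  by_cases hW : W.coeff D = 0
  · exact core_inf U W D hD h hW h1 h2
  -- a finite fixed point
  have hWdeg : W.natDegree = D := le_antisymm h.degG (le_natDegree_of_ne_zero hW)
  have hW0 : W ≠ 0 := by rintro rfl; simp at hW
  obtain ⟨t, ht⟩ : ∃ t, U.eval t = t * W.eval t := by
    have hdeg : (X * W).natDegree = D + 1 := by rw [natDegree_X_mul hW0, hWdeg]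
    have hdeg' : (U - X * W).natDegree = D + 1 := by
      rw [natDegree_sub_eq_right_of_natDegree_lt (by
        rw [hdeg]
        exact lt_of_le_of_lt h.degF (Nat.lt_succ_self D)), hdeg]
    obtain ⟨x, hx⟩ := IsAlgClosed.exists_root (U - X * W) (by
      intro h0
      rw [degree_eq_natDegree (by intro h0; rw [h0, natDegree_zero] at hdeg'; omega), hdeg'] at h0
      have : D + 1 = 0 := by exact_mod_cast h0
      omega)
    refine ⟨x, ?_⟩
    rw [IsRoot.def, eval_sub, eval_mul, eval_X, sub_eq_zero] at hx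
    exact hx
  set θ : k × k → k × k := fun v => (v.2, v.1 - t * v.2) with hθ
  set θ' : k × k → k × k := fun v => (t * v.1 + v.2, v.1) with hθ'
  have e1 : ∀ v, θ (θ' v) = v := by
    intro v; ext <;> simp [hθ, hθ']
  have e2 : ∀ v, θ' (θ v) = v := by
    intro v; ext <;> simp [hθ, hθ']
  have e3 : ∀ a b, cr (θ a) (θ b) = - cr a b := by
    intro a b; simp only [hθ, cr]; ring
  have e4 : ∀ v, phi (chP W D t) (chQ U W D t) D v = θ (phi U W D (θ' v)) := by
    intro v
    obtain ⟨h3, h4⟩ := ch_hev (P := U) (Q := W) (d := D) t v.1 v.2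
    ext
    · exact h3
    · exact h4
  have e5 : ∀ v, v ≠ 0 → θ' v ≠ 0 := by
    intro v hv h0
    apply hv
    rw [← e1 v, h0]
    simp [hθ]
  have hcr : ∀ a b, cr (θ a) b = - cr a (θ' b) := by
    intro a b
    conv_lhs => rw [← e1 b]
    exact e3 _ _
  apply core_inf (chP W D t) (chQ U W D t) D hD
    ⟨ch_isCoprime h.cop h.degF h.degG h.top t, (ch_natDegree (P := U) t).1, (ch_natDegree t).2,
      ch_coeff h.cop h.degF h.degG h.top t⟩
  · have h3 := congrArg Prod.snd (e4 (1, 0))
    have h4 : (phi (chP W D t) (chQ U W D t) D ((1, 0) : k × k)).2 = (chQ U W D t).coeff D := by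
      change hev (chQ U W D t) D (1 : k) 0 = _
      rw [hev_right_zero]
      simp
    rw [← h4, h3]
    have h5 : θ' (1, 0) = (t, 1) := by simp [hθ']
    rw [h5]
    change hev U D t 1 - t * hev W D t 1 = 0
    rw [hev_eq_eval U D h.degF _ _ one_ne_zero, hev_eq_eval W D h.degG _ _ one_ne_zero]
    simp only [one_pow, one_mul, div_one]
    rw [ht, sub_self]
  · intro v hv h3
    rw [e4, e4, e2, hcr, neg_eq_zero] at h3
    have h4 := h1 (θ' v) (e5 v hv) h3
    rw [e4, hcr, h4, neg_zero]
  · intro v w hv hw h3 h4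
    rw [e4, hcr, neg_eq_zero] at h3 h4
    have h5 := h2 (θ' v) (θ' w) (e5 v hv) (e5 w hw) h3 h4
    have h6 := e3 (θ' w) (θ' v)
    rw [e1, e1, h5, neg_zero] at h6
    exact h6

end core

end Pool.Agent.Helper35.DT

end

section

set_option autoImplicit false

set_option linter.style.haveILetI false

namespace Pool.Agent.Helper38.DT

open Polynomial IntermediateField Pool.Agent.Helper16 Pool.Agent.Helper45.S4 Pool.Agent.Helper45.FR
  Pool.Agent.Helper93.RatODE Pool.Agent.Helper45.S6 Pool.Agent.Helper47.EN Pool.Agent.Helper34.Dep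

/-- independence of conjugate orbits: every bounded relation forces the map to be constant -/
def Indep (k : Type) [Field k] (d n : ℕ) : Prop :=
  ∀ m : ℕ, ∃ N : ℕ, ∀ (L : Type) [Field L] [Algebra k L] (t : L), IsFunctionField k L →
    Transcendental k t → Algebra.IsSeparable k⟮t⟯ L → Module.finrank k⟮t⟯ L ≤ n →
    ∀ F G : L[X], IsCoprime F G → F.natDegree ≤ d → G.natDegree ≤ d →
      (F.coeff d ≠ 0 ∨ G.coeff d ≠ 0) → ∀ x : ℕ → L, RatOrbit F G x N →
      ∀ τ : L →ₐ[k⟮t⟯] AlgebraicClosure L, (∃ a, τ a ≠ algebraMap L (AlgebraicClosure L) a) →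
      ∀ P : MvPolynomial (Fin 2) (AlgebraicClosure L), P ≠ 0 → (∀ i, P.degreeOf i ≤ m) →
        (∀ j ≤ N, MvPolynomial.eval ![algebraMap L (AlgebraicClosure L) (x j), τ (x j)] P = 0) →
        ConstConj k F G d

end Pool.Agent.Helper38.DT

end

section

set_option autoImplicit false

open Finset Polynomial

namespace Pool.Agent.Helper35.PS

open Pool.Agent.Helper33 Pool.Agent.Helper33.PS Pool.Agent.Helper33.UB Pool.Agent.Helper45.FR
  Pool.Agent.Helper51.RatTree Pool.Agent.Helper93.RatODE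

section conj

variable {K : Type*} [Field K]

/-- the numerator and the denominator of the conjugated map -/
noncomputable def cjP (F G : K[X]) (d : ℕ) (a b c e : K) : K[X] :=
  C a * hev F d (C e * X - C b) (C a - C c * X) + C b * hev G d (C e * X - C b) (C a - C c * X)

/-- the denominator of the conjugated map -/
noncomputable def cjQ (F G : K[X]) (d : ℕ) (a b c e : K) : K[X] :=
  C c * hev F d (C e * X - C b) (C a - C c * X) + C e * hev G d (C e * X - C b) (C a - C c * X)

variable {F G : K[X]} {d : ℕ} {a b c e : K}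

lemma IsRat.conj (h : a * e - b * c ≠ 0) (hFG : IsRat F G d) :
    IsRat (cjP F G d a b c e) (cjQ F G d a b c e) d := by
  have hU := lin1 (b := b) (e := e)
  have hW := lin2 (a := a) (c := c)
  have h1 := hev_natDegree F d hU.1 hW.1
  have h2 := hev_natDegree G d hU.1 hW.1
  have hc := hev_isCoprime hFG.cop hFG.dA hFG.dB hFG.top (lin_cop h)
  have ht := hev_coeff_ne hFG.cop hFG.dA hFG.dB hFG.top hU.1 hW.1 (by
    rw [hU.2, hW.2]
    by_contra hcon
    push Not at hcon
    apply h
    rw [hcon.1, neg_eq_zero.mp hcon.2]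
    ring)
  rw [mul_one] at h1 h2 ht
  refine ⟨isCoprime_comb h hc, ?_, ?_, ?_⟩
  · exact (natDegree_add_le _ _).trans (max_le ((natDegree_C_mul_le _ _).trans h1)
      ((natDegree_C_mul_le _ _).trans h2))
  · exact (natDegree_add_le _ _).trans (max_le ((natDegree_C_mul_le _ _).trans h1)
      ((natDegree_C_mul_le _ _).trans h2))
  · unfold cjP cjQ
    rw [coeff_add, coeff_C_mul, coeff_C_mul, coeff_add, coeff_C_mul, coeff_C_mul]
    by_contra hcon
    push Not at hcon
    obtain ⟨e1, e2⟩ := hcon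
    set f := (hev F d (C e * X - C b) (C a - C c * X) : K[X]).coeff d
    set g := (hev G d (C e * X - C b) (C a - C c * X) : K[X]).coeff d
    have e3 : (a * e - b * c) * f = 0 := by linear_combination e * e1 - b * e2
    have e4 : (a * e - b * c) * g = 0 := by linear_combination a * e2 - c * e1
    rcases ht with ht | ht
    · exact ht ((mul_eq_zero.mp e3).resolve_left h)
    · exact ht ((mul_eq_zero.mp e4).resolve_left h)

lemma cj_eval (hF : F.natDegree ≤ d) (hG : G.natDegree ≤ d) {x : K} (hx : c * x + e ≠ 0) :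
    (cjP F G d a b c e).eval ((a * x + b) / (c * x + e)) =
      ((a * e - b * c) / (c * x + e)) ^ d * (a * F.eval x + b * G.eval x) ∧
    (cjQ F G d a b c e).eval ((a * x + b) / (c * x + e)) =
      ((a * e - b * c) / (c * x + e)) ^ d * (c * F.eval x + e * G.eval x) := by
  have h1 : (C e * X - C b : K[X]).eval ((a * x + b) / (c * x + e)) =
      (a * e - b * c) / (c * x + e) * x := by
    simp only [eval_sub, eval_mul, eval_C, eval_X]
    rw [mul_div_assoc', div_sub' hx, div_mul_eq_mul_div]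
    congr 1
    ring
  have h2 : (C a - C c * X : K[X]).eval ((a * x + b) / (c * x + e)) =
      (a * e - b * c) / (c * x + e) * 1 := by
    simp only [eval_sub, eval_mul, eval_C, eval_X]
    rw [mul_div_assoc', sub_div' hx, mul_one]
    congr 1
    ring
  have h3 : ∀ H : K[X], H.natDegree ≤ d → (hev H d (C e * X - C b) (C a - C c * X) : K[X]).eval
      ((a * x + b) / (c * x + e)) = ((a * e - b * c) / (c * x + e)) ^ d * H.eval x := by
    intro H hH
    rw [hev_eval, h1, h2, hev_smul_arg, hev_eq_eval H d hH x 1 one_ne_zero, div_one, one_pow, one_mul]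
  unfold cjP cjQ
  simp only [eval_add, eval_mul, eval_C]
  rw [h3 F hF, h3 G hG]
  constructor <;> ring

lemma RatOrbit.conj (h : a * e - b * c ≠ 0) (hF : F.natDegree ≤ d) (hG : G.natDegree ≤ d)
    {x : ℕ → K} {N : ℕ} (hx : RatOrbit F G x N) (hne : ∀ j, c * x j + e ≠ 0) :
    RatOrbit (cjP F G d a b c e) (cjQ F G d a b c e) (fun j => (a * x j + b) / (c * x j + e)) N := by
  have key : ∀ j, c * F.eval (x j) + e * G.eval (x j) = G.eval (x j) * (c * x (j + 1) + e) ∧
      a * F.eval (x j) + b * G.eval (x j) = G.eval (x j) * (a * x (j + 1) + b) := by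
    intro j
    have h1 := hx.ne j
    rw [hx.step j]
    constructor <;> field_simp
  have hs : ∀ j, ((a * e - b * c) / (c * x j + e)) ^ d ≠ 0 := fun j =>
    pow_ne_zero _ (div_ne_zero h (hne j))
  refine ⟨?_, ?_, ?_, ?_⟩
  · intro j
    rw [(cj_eval hF hG (hne j)).2, (key j).1]
    exact mul_ne_zero (hs j) (mul_ne_zero (hx.ne j) (hne (j + 1)))
  · intro j
    rw [(cj_eval hF hG (hne j)).1, (cj_eval hF hG (hne j)).2, (key j).1, (key j).2,
      mul_div_mul_left _ _ (hs j), mul_div_mul_left _ _ (hx.ne j)]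
  · intro i j hi hj hij
    apply hx.inj i j hi hj
    have h1 := mobius_sub (a := a) (b := b) (hne i) (hne j)
    rw [hij, sub_self, eq_comm, div_eq_zero_iff] at h1
    rcases h1 with h1 | h1
    · exact sub_eq_zero.mp ((mul_eq_zero.mp h1).resolve_left h)
    · exact absurd h1 (mul_ne_zero (hne i) (hne j))
  · have : Set.range (fun j => (a * x j + b) / (c * x j + e)) =
        (fun y => (a * y + b) / (c * y + e)) '' Set.range x := by
      rw [← Set.range_comp]; rfl
    rw [this]
    exact hx.fin.image _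

end conj

end Pool.Agent.Helper35.PS

end

section

set_option autoImplicit false

namespace Pool.Agent.Helper36.PT

open Polynomial Finset Pool.Agent.Helper33 Pool.Agent.Helper33.PS Pool.Agent.Helper33.UB
  Pool.Agent.Helper45.FR Pool.Agent.Helper51.RatTree Pool.Agent.Helper93.RatODE
  Pool.Agent.Helper35.PS

section

variable {k K : Type} [Field k] [Field K] [Algebra k K]

theorem hev_comp_poly (P : K[X]) (n : ℕ) {U W : K[X]} {q : ℕ} (hU : U.natDegree ≤ q)
    (hW : W.natDegree ≤ q) (u w : K[X]) :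
    hev (hev P n U W) (n * q) u w = hev P n (hev U q u w) (hev W q u w) := by
  apply IsFractionRing.injective K[X] (RatFunc K)
  have h := fun (R : K[X]) (m : ℕ) (a b : K[X]) =>
    hev_map (IsScalarTower.toAlgHom K K[X] (RatFunc K)) R m a b
  simp only [IsScalarTower.coe_toAlgHom'] at h
  rw [h, h, h, h]
  exact hev_comp P n hU hW _ _

theorem constConj_of_conj {F G : K[X]} {d : ℕ} {a b c e : K} (h : a * e - b * c ≠ 0)
    (hF : F.natDegree ≤ d) (hG : G.natDegree ≤ d)
    (hc : ConstConj k (cjP F G d a b c e) (cjQ F G d a b c e) d) : ConstConj k F G d := by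
  obtain ⟨A, P', Q', s, hA, hs, h1, h2, h3, h4, h5, h6⟩ := hc
  set U : K[X] := C (A 0 0) * X + C (A 0 1) with hU
  set W : K[X] := C (A 1 0) * X + C (A 1 1) with hW
  set p := P'.map (algebraMap k K) with hp
  set q := Q'.map (algebraMap k K) with hq
  -- the two forms in the new coordinate
  set U1 : K[X] := C (e * A 0 0 - b * A 1 0) * X + C (e * A 0 1 - b * A 1 1) with hU1
  set W1 : K[X] := C (a * A 1 0 - c * A 0 0) * X + C (a * A 1 1 - c * A 0 1) with hW1
  have hu : hev (C e * X - C b : K[X]) 1 U W = U1 := by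
    have : hev (C e * X - C b : K[X]) 1 U W = C e * U - C b * W := by
      simp [hev, sum_range_succ, coeff_X, coeff_C]
      ring
    rw [this, hU, hW, hU1]
    simp only [C_sub, C_mul]
    ring
  have hw : hev (C a - C c * X : K[X]) 1 U W = W1 := by
    have : hev (C a - C c * X : K[X]) 1 U W = C a * W - C c * U := by
      simp [hev, sum_range_succ, coeff_X, coeff_C]
      ring
    rw [this, hU, hW, hW1]
    simp only [C_sub, C_mul]
    ring
  have key : ∀ R : K[X], hev (hev R d (C e * X - C b) (C a - C c * X)) d U W = hev R d U1 W1 := by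
    intro R
    have := hev_comp_poly R d (lin1 (b := b) (e := e)).1 (lin2 (a := a) (c := c)).1 U W
    rw [mul_one, hu, hw] at this
    exact this
  have h5' : C a * hev F d U1 W1 + C b * hev G d U1 W1 = C s * (C (A 0 0) * p + C (A 0 1) * q) := by
    rw [← h5]
    unfold cjP
    rw [hev_add, hev_C_mul, hev_C_mul, key, key, C_eq_algebraMap, C_eq_algebraMap]
  have h6' : C c * hev F d U1 W1 + C e * hev G d U1 W1 = C s * (C (A 1 0) * p + C (A 1 1) * q) := by
    rw [← h6]
    unfold cjQ
    rw [hev_add, hev_C_mul, hev_C_mul, key, key, C_eq_algebraMap, C_eq_algebraMap]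
  set D := a * e - b * c with hD
  have hDC : (C D : K[X]) ≠ 0 := C_ne_zero.2 h
  refine ⟨!![e * A 0 0 - b * A 1 0, e * A 0 1 - b * A 1 1; a * A 1 0 - c * A 0 0,
    a * A 1 1 - c * A 0 1], P', Q', D⁻¹ * s, ?_, mul_ne_zero (inv_ne_zero h) hs, h1, h2, h3, h4,
    ?_, ?_⟩
  · rw [Matrix.det_fin_two_of]
    have : (e * A 0 0 - b * A 1 0) * (a * A 1 1 - c * A 0 1) - (e * A 0 1 - b * A 1 1) *
        (a * A 1 0 - c * A 0 0) = D * A.det := by
      rw [Matrix.det_fin_two, hD]
      ring
    rw [this]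
    exact mul_ne_zero h hA
  · change hev F d U1 W1 = C (D⁻¹ * s) * (C (e * A 0 0 - b * A 1 0) * p + C (e * A 0 1 - b * A 1 1) * q)
    apply mul_left_cancel₀ hDC
    rw [← mul_assoc, ← C_mul, ← mul_assoc, mul_inv_cancel₀ h, one_mul]
    have e1 : C D * hev F d U1 W1 = C e * (C a * hev F d U1 W1 + C b * hev G d U1 W1) -
        C b * (C c * hev F d U1 W1 + C e * hev G d U1 W1) := by
      rw [hD]
      simp only [C_sub, C_mul]
      ring
    rw [e1, h5', h6']
    simp only [C_sub, C_mul]
    ring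
  · change hev G d U1 W1 = C (D⁻¹ * s) * (C (a * A 1 0 - c * A 0 0) * p + C (a * A 1 1 - c * A 0 1) * q)
    apply mul_left_cancel₀ hDC
    rw [← mul_assoc, ← C_mul, ← mul_assoc, mul_inv_cancel₀ h, one_mul]
    have e1 : C D * hev G d U1 W1 = C a * (C c * hev F d U1 W1 + C e * hev G d U1 W1) -
        C c * (C a * hev F d U1 W1 + C b * hev G d U1 W1) := by
      rw [hD]
      simp only [C_sub, C_mul]
      ring
    rw [e1, h5', h6']
    simp only [C_sub, C_mul]
    ring

end

end Pool.Agent.Helper36.PT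

end
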