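import Pool.Agent.Helper23.MB.L00_ab0
import Pool.Agent.Helper23.MB.L00_ab1
import Pool.Agent.Helper23.MB.L00_ab5
import Pool.Agent.Helper23.MB.L00_ab6
import Pool.Agent.Helper23.MB.L00_ab7
import Pool.Agent.Helper23.MB.L00_ab8
import Pool.Agent.Helper23.MB.L00_abc0
import Pool.Agent.Helper23.MB.L00_abc1
import Pool.Agent.Helper23.MB.L00_abc2

/-!
Parts of Helper33.DVBasic, Helper51.RatTree, Helper55.RD.Base, Helper55.RD.RatLB, Helper16.Place, Helper45.FFChar0, Helper45.RatUBP, Helper33.PS.Ext, Helper45.S4Res, Helper38.DT.IterEndo, Helper31.RRK.Der, Helper31.RRK.Tower, Helper16.TW1, Helper31.RRK.Frob, Helper91.DT.B, Helper91.DT.D, Helper91.DT.E, Helper47.EN.Defs, Helper47.EN.Final, Helper38.DT.Main, Helper34.Dep.Bz, Helper34.Dep.Tw, Helper45.GalW1, Helper82.PS.IterGood, Helper36.S5.General, Helper36.S5.Descent, Helper43.PT.LE, Helper36.PT.Norm, Helper36.PT.Level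
-/

attribute [-simp] Valuation.IsUniformizer.val
attribute [local instance 5000]
  Pool.Agent.Helper23.MB.Inst.rCharZero Pool.Agent.Helper23.MB.Inst.rALM
  Pool.Agent.Helper23.MB.Inst.rARM Pool.Agent.Helper23.MB.Inst.rALSM
  Pool.Agent.Helper23.MB.Inst.rARSM Pool.Agent.Helper23.MB.Inst.rARRLE
  Pool.Agent.Helper23.MB.Inst.rALRLE Pool.Agent.Helper23.MB.Inst.rARRLT
  Pool.Agent.Helper23.MB.Inst.rALRLT Pool.Agent.Helper23.MB.Inst.rPMRLT
  Pool.Agent.Helper23.MB.Inst.rMPRLT Pool.Agent.Helper23.MB.Inst.rPMM
  Pool.Agent.Helper23.MB.Inst.rMPM Pool.Agent.Helper23.MB.Inst.rPMSM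
  Pool.Agent.Helper23.MB.Inst.rMPSM Pool.Agent.Helper23.MB.Inst.rEAOL
  Pool.Agent.Helper23.MB.Inst.rIOR Pool.Agent.Helper23.MB.Inst.rISOR
  Pool.Agent.Helper23.MB.Inst.rNZD Pool.Agent.Helper23.MB.Inst.zCharZero
  Pool.Agent.Helper23.MB.Inst.zALM Pool.Agent.Helper23.MB.Inst.zARM
  Pool.Agent.Helper23.MB.Inst.zIOR Pool.Agent.Helper23.MB.Inst.zISOR
  Pool.Agent.Helper23.MB.Inst.zNZD Pool.Agent.Helper23.MB.Inst.qCharZero
  Pool.Agent.Helper23.MB.Inst.free Pool.Agent.Helper23.MB.Inst.faith
  Pool.Agent.Helper23.MB.Inst.torsionFree Pool.Agent.Helper23.MB.Inst.rfFaith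
  Pool.Agent.Helper23.MB.Inst.hAdd Pool.Agent.Helper23.MB.Inst.hAddM
  Pool.Agent.Helper23.MB.Inst.hMul Pool.Agent.Helper23.MB.Inst.hMon
  Pool.Agent.Helper23.MB.Inst.hZero Pool.Agent.Helper23.MB.Inst.hOne
  Pool.Agent.Helper23.MB.Inst.hMZ Pool.Agent.Helper23.MB.Inst.hRing
  Pool.Agent.Helper23.MB.Inst.aAdd Pool.Agent.Helper23.MB.Inst.aAddM
  Pool.Agent.Helper23.MB.Inst.aMul Pool.Agent.Helper23.MB.Inst.aMon
  Pool.Agent.Helper23.MB.Inst.aZero Pool.Agent.Helper23.MB.Inst.aOne
  Pool.Agent.Helper23.MB.Inst.aMZ Pool.Agent.Helper23.MB.Inst.aRing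

namespace Pool.Agent.Helper16
end Pool.Agent.Helper16
namespace Pool.Agent.Helper33
end Pool.Agent.Helper33
namespace Pool.Agent.Helper33.PS
end Pool.Agent.Helper33.PS
namespace Pool.Agent.Helper33.UB
end Pool.Agent.Helper33.UB
namespace Pool.Agent.Helper34.Dep
end Pool.Agent.Helper34.Dep
namespace Pool.Agent.Helper35.PS
end Pool.Agent.Helper35.PS
namespace Pool.Agent.Helper38.DT
end Pool.Agent.Helper38.DT
namespace Pool.Agent.Helper45.FF
end Pool.Agent.Helper45.FF
namespace Pool.Agent.Helper45.FR
end Pool.Agent.Helper45.FR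
namespace Pool.Agent.Helper45.S4
end Pool.Agent.Helper45.S4
namespace Pool.Agent.Helper45.S6
end Pool.Agent.Helper45.S6
namespace Pool.Agent.Helper47.EN
end Pool.Agent.Helper47.EN
namespace Pool.Agent.Helper47.RR
end Pool.Agent.Helper47.RR
namespace Pool.Agent.Helper51.RatTree
end Pool.Agent.Helper51.RatTree
namespace Pool.Agent.Helper55.RD
end Pool.Agent.Helper55.RD
namespace Pool.Agent.Helper64.Dep
end Pool.Agent.Helper64.Dep
namespace Pool.Agent.Helper93.RatODE
end Pool.Agent.Helper93.RatODE
namespace Pool.Agent.Helper98.PS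
end Pool.Agent.Helper98.PS

section

set_option autoImplicit false

namespace Pool.Agent.Helper33

namespace DV

variable {K : Type*} [Field K] (v : DV K)

variable {v}

/-- strict domination -/
lemma ord_add_of_ge {c : ℝ} {x y : K} (hx : x ≠ 0) (hy : v.ge c y) (hc : (v.o x : ℝ) < c) :
    x + y ≠ 0 ∧ v.o (x + y) = v.o x := by
  by_cases hy0 : y = 0
  · simp [hy0, hx]
  have h1 : (v.o x : ℝ) < v.o y := hc.trans_le (ge_le hy hy0)
  have h1' : v.o x < v.o y := by exact_mod_cast h1
  have hne : x + y ≠ 0 := by
    intro h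
    have : x = -y := eq_neg_of_add_eq_zero_left h
    rw [this, v.o_neg] at h1'
    exact lt_irrefl _ h1'
  refine ⟨hne, le_antisymm ?_ ?_⟩
  · have h2 := v.add (x + y) (-y) hne (neg_ne_zero.mpr hy0) (by simpa using hx)
    rw [v.o_neg, add_neg_cancel_right] at h2
    rcases le_total (v.o (x + y)) (v.o y) with h | h
    · rwa [min_eq_left h] at h2
    · rw [min_eq_right h] at h2; omega
  · have h2 := v.add x y hx hy0 hne
    rwa [min_eq_left h1'.le] at h2

end DV

end Pool.Agent.Helper33

end

section

set_option autoImplicit false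

open Polynomial Finset Pool.Agent.Helper33 Pool.Agent.Helper33.UB

namespace Pool.Agent.Helper51.RatTree

variable {K : Type*} [Field K]

section push

variable {v : DV K} {a b : K} {r s : ℤ} {P Q : K[X]} {d : ℕ}

/-- the order of a difference of images -/
lemma o_image_sub {y z : K} (hy : Q.eval y ≠ 0) (hz : Q.eval z ≠ 0)
    (hne : P.eval y / Q.eval y ≠ P.eval z / Q.eval z) :
    (P - C b * Q).eval y * Q.eval z - (P - C b * Q).eval z * Q.eval y ≠ 0 ∧
    v.o (P.eval y / Q.eval y - P.eval z / Q.eval z) =
      v.o ((P - C b * Q).eval y * Q.eval z - (P - C b * Q).eval z * Q.eval y) -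
        v.o (Q.eval y) - v.o (Q.eval z) := by
  have h1 : P.eval y / Q.eval y - P.eval z / Q.eval z =
      ((P - C b * Q).eval y * Q.eval z - (P - C b * Q).eval z * Q.eval y) /
        (Q.eval y * Q.eval z) := by
    simp only [eval_sub, eval_mul, eval_C]
    field_simp
    ring
  have h2 : (P - C b * Q).eval y * Q.eval z - (P - C b * Q).eval z * Q.eval y ≠ 0 := by
    intro h
    rw [h, zero_div, sub_eq_zero] at h1
    exact hne h1
  refine ⟨h2, ?_⟩
  rw [h1, v.o_div _ _ h2 (mul_ne_zero hy hz), v.mul _ _ hy hz]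
  ring

end push

section tree

variable {v : DV K} {P Q : K[X]} {d : ℕ}

lemma natDegree_sub_le' (hPd : P.natDegree ≤ d) (hQd : Q.natDegree ≤ d) (b : K) :
    (P - C b * Q).natDegree ≤ d :=
  (natDegree_sub_le _ _).trans (max_le hPd ((natDegree_C_mul_le b Q).trans hQd))

end tree

end Pool.Agent.Helper51.RatTree

end

section

set_option autoImplicit false

open Polynomial Finset Pool.Agent.Helper33 Pool.Agent.Helper51.RatTree

namespace Pool.Agent.Helper55.RD

variable {K : Type*} [Field K] {v : DV K}

lemma not_ge_one_of_prim {X : K × K} (hX : Prim v X) (h1 : v.ge 1 X.1) (h2 : v.ge 1 X.2) : False := by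
  rcases hX.2.2 with ⟨h3, h4⟩ | ⟨h3, h4⟩
  · have := DV.ge_le h1 h3
    rw [h4] at this
    norm_num at this
  · have := DV.ge_le h2 h3
    rw [h4] at this
    norm_num at this

lemma ge_int_iff {x : K} (hx : x ≠ 0) (n : ℤ) : v.ge (n : ℝ) x ↔ n ≤ v.o x := by
  constructor
  · intro h
    have := DV.ge_le h hx
    exact_mod_cast this
  · intro h
    right
    exact_mod_cast h

end Pool.Agent.Helper55.RD

end

section

set_option autoImplicit false

open Polynomial Finset Pool.Agent.Helper33 Pool.Agent.Helper51.RatTree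

namespace Pool.Agent.Helper55.RD

variable {K : Type*} [Field K]

/-- the system attached to a finite invariant set of a rational function -/
noncomputable def sysOf (v : DV K) {d : ℕ} {P Q : K[X]} (hP : P.natDegree ≤ d) (hQ : Q.natDegree ≤ d)
    (hres : resultant P Q d d ≠ 0) (X : Finset K)
    (hX : ∀ x ∈ X, Q.eval x ≠ 0 ∧ P.eval x / Q.eval x ∈ X) (H : K → ℝ)
    (hH : ∀ x ∈ X, H (P.eval x / Q.eval x) + v.o (Q.eval x) = d * H x) : Sys v d X where
  F := P
  G := Q
  hF := hP
  hG := hQ
  hR := hres
  x := fun i => (i.1, 1)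
  hx := by
    intro i j hij
    have : wedge ((i.1, 1) : K × K) (j.1, 1) = i.1 - j.1 := by simp [wedge]
    rw [this]
    exact sub_ne_zero.2 fun h => hij (Subtype.ext h)
  hx0 := by
    intro i h
    exact one_ne_zero (congrArg Prod.snd h)
  φ := fun i => ⟨P.eval i.1 / Q.eval i.1, (hX i.1 i.2).2⟩
  c := fun i => Q.eval i.1
  hc := fun i => (hX i.1 i.2).1
  hΦF := by
    intro i
    have := (hX i.1 i.2).1
    rw [hom_eval hP]
    field_simp
  hΦG := by
    intro i
    rw [hom_eval hQ]
    simp
  H := fun i => H i.1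
  hH := by
    intro i
    have := hH i.1 i.2
    simp only
    (clear * - this; linarith)

lemma trF_one (d : ℕ) {F G : K[X]} (hF : F.natDegree ≤ d) :
    trF d ⟨1, 0, 0, 1⟩ 1 F G = F := by
  have h : pb d (⟨1, 0, 0, 1⟩ : M2 K) F = F := by
    simp only [pb, C_1, C_0, one_mul, zero_mul, add_zero, zero_add]
    rw [hom, Finset.Nat.sum_antidiagonal_eq_sum_range_succ_mk]
    conv_rhs => rw [F.as_sum_range_C_mul_X_pow' (Nat.lt_succ_of_le hF)]
    simp
  simp [trF, h]

lemma trG_one (d : ℕ) {F G : K[X]} (hG : G.natDegree ≤ d) :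
    trG d ⟨1, 0, 0, 1⟩ 1 F G = G := by
  have h : pb d (⟨1, 0, 0, 1⟩ : M2 K) G = G := by
    simp only [pb, C_1, C_0, one_mul, zero_mul, add_zero, zero_add]
    rw [hom, Finset.Nat.sum_antidiagonal_eq_sum_range_succ_mk]
    conv_rhs => rw [G.as_sum_range_C_mul_X_pow' (Nat.lt_succ_of_le hG)]
    simp
  simp [trG, h]

end Pool.Agent.Helper55.RD

end

section

set_option autoImplicit false

set_option linter.style.haveILetI false

namespace Pool.Agent.Helper16

open Polynomial IntermediateField

namespace Place

variable {K N : Type} [Field K] [Field N] [Algebra K N]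

section ord

variable (v : Place K N)

theorem ord_neg_iff {x : N} (hx : x ≠ 0) : v.ord x < 0 ↔ 1 < v.val x := by
  unfold ord
  rw [← WithZero.log_lt_log one_ne_zero (by simpa using hx), WithZero.log_one]
  omega

end ord

end Place

end Pool.Agent.Helper16

end

section

set_option autoImplicit false

set_option linter.style.haveILetI false

namespace Pool.Agent.Helper45.FF

open Polynomial IntermediateField Pool.Agent.Helper16 TensorProduct IsDedekindDomain

open Pool.Agent.Helper33

section common

variable {k K : Type} [Field k] [Field K] [Algebra k K]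

theorem exists_ord_eq_one (v : Place k K) : ∃ x : K, x ≠ 0 ∧ v.ord x = 1 := by
  obtain ⟨π, hπ0, hπ⟩ := v.exists_uniformizer
  refine ⟨π, hπ0, ?_⟩
  rw [Place.ord, hπ, WithZero.log_exp]
  norm_num

end common

end Pool.Agent.Helper45.FF

end

section

set_option autoImplicit false

set_option linter.style.haveILetI false

open Polynomial

namespace Pool.Agent.Helper45.FR

open Pool.Agent.Helper33 Pool.Agent.Helper93.RatODE

section descent

variable {M L : Type*} [Field M] [Field L] [Algebra M L] {d : ℕ}

theorem top_of_no_zero {P Q : M[X]}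
    (h0 : ∀ u w : L, hev P d u w = 0 → hev Q d u w = 0 → u = 0 ∧ w = 0) :
    P.coeff d ≠ 0 ∨ Q.coeff d ≠ 0 := by
  by_contra hcon
  push Not at hcon
  have h1 : hev P d (1 : L) (0 : L) = 0 := by rw [hev_right_zero, hcon.1]; simp
  have h2 : hev Q d (1 : L) (0 : L) = 0 := by rw [hev_right_zero, hcon.2]; simp
  exact one_ne_zero (h0 1 0 h1 h2).1

end descent

end Pool.Agent.Helper45.FR

end

section

set_option autoImplicit false

open Finset Polynomial

namespace Pool.Agent.Helper33.PS

open Pool.Agent.Helper33.UB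

lemma IsRat.map {K E : Type*} [Field K] [Field E] (φ : K →+* E) {A B : K[X]} {d : ℕ}
    (h : IsRat A B d) : IsRat (A.map φ) (B.map φ) d where
  cop := h.cop.map (mapRingHom φ)
  dA := natDegree_map_le.trans h.dA
  dB := natDegree_map_le.trans h.dB
  top := by
    rcases h.top with h1 | h1
    · left; rw [coeff_map, Ne, map_eq_zero]; exact h1
    · right; rw [coeff_map, Ne, map_eq_zero]; exact h1

/-- two rational maps which agree at many points -/
lemma cross_eq_zero_of_agree {E : Type*} [Field E] {A B A' B' : E[X]} {d : ℕ} (h : IsRat A B d)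
    (h' : IsRat A' B' d) (s : Finset E) (hs : 2 * d < s.card)
    (hag : ∀ x ∈ s, B.eval x ≠ 0 ∧ B'.eval x ≠ 0 ∧ A.eval x / B.eval x = A'.eval x / B'.eval x) :
    A' * B = A * B' := by
  rw [← sub_eq_zero]
  apply eq_zero_of_natDegree_lt_card_of_eval_eq_zero' _ s
  · intro x hx
    obtain ⟨h1, h2, h3⟩ := hag x hx
    rw [div_eq_div_iff h1 h2] at h3
    rw [eval_sub, eval_mul, eval_mul, h3]
    ring
  · refine lt_of_le_of_lt (natDegree_sub_le _ _) ?_
    apply max_lt
    · exact lt_of_le_of_lt (natDegree_mul_le.trans (add_le_add h'.dA h.dB)) (by omega)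
    · exact lt_of_le_of_lt (natDegree_mul_le.trans (add_le_add h.dA h'.dB)) (by omega)

end Pool.Agent.Helper33.PS

end

section

set_option autoImplicit false

set_option linter.style.haveILetI false

namespace Pool.Agent.Helper45.S4

open Polynomial IntermediateField Pool.Agent.Helper16 Pool.Agent.Helper33 Pool.Agent.Helper45.FF

variable {k L M : Type} [Field k] [Field L] [Field M] [Algebra k L] [Algebra k M] [Algebra L M]
  [IsScalarTower k L M]

section defs

variable (hN : IsFunctionField k L) [Algebra.IsAlgebraic L M]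

theorem place_ext {v v' : Place k L} (h : ∀ x, v.val x ≤ 1 → v'.val x ≤ 1) : v = v' :=
  (Place.ext_val (valuation_eq_of_le v'.val v.val v'.surj v.surj h)).symm

end defs

theorem isFunctionField_ext (hN : IsFunctionField k L) [FiniteDimensional L M] :
    IsFunctionField k M := by
  haveI := hN.1
  refine ⟨Algebra.EssFiniteType.comp k L M, ?_⟩
  have h1 := trdeg_add_eq k L (A := M)
  rw [hN.2, trdeg_eq_zero (R := L) (A := M), add_zero] at h1
  exact h1.symm

end Pool.Agent.Helper45.S4

end

section

set_option autoImplicit false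

set_option linter.style.haveILetI false

namespace Pool.Agent.Helper38.DT

open Polynomial Pool.Agent.Helper93.RatODE Pool.Agent.Helper45.FR

section iterEndo

variable {E M : Type} [Field E] [Field M] [Algebra E M]

theorem isRatD_iter (F G : E[X]) (d : ℕ) (hFG : IsRatD F G d) (a : ℕ) :
    IsRatD (iter F G d a).1 (iter F G d a).2 (d ^ a) :=
  ⟨iter_isCoprime hFG.cop hFG.degF hFG.degG hFG.top a, (iter_natDegree a).1, (iter_natDegree a).2,
    iter_coeff hFG.cop hFG.degF hFG.degG hFG.top a⟩

end iterEndo

end Pool.Agent.Helper38.DT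

end

section

set_option autoImplicit false

set_option linter.style.haveILetI false

namespace Pool.Agent.Helper31.RRK

open Polynomial IntermediateField Pool.Agent.Helper16 Pool.Agent.Helper33 Pool.Agent.Helper45.FF

open Pool.Agent.Helper45.S4 Pool.Agent.Helper47.RR

section ord

variable {k L : Type} [Field k] [Field L] [Algebra k L]

variable (v : Place k L) (D : Derivation k L L)

/-- The order of a derivation at a place: the order of `D π`, for any uniformiser `π`. -/
noncomputable def ordDer : ℤ := v.ord (D v.exists_uniformizer.choose)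

end ord

end Pool.Agent.Helper31.RRK

end

section

set_option autoImplicit false

set_option linter.style.haveILetI false

namespace Pool.Agent.Helper31.RRK

open Polynomial IntermediateField Pool.Agent.Helper16 Pool.Agent.Helper33 Pool.Agent.Helper45.FF

open Pool.Agent.Helper45.S4 Pool.Agent.Helper47.RR

section rational

variable {k L : Type} [Field k] [Field L] [Algebra k L]

theorem val_eq_exp_of_ord {v : Place k L} {x : L} (hx : x ≠ 0) {n : ℤ} (h : v.ord x = n) :
    v.val x = WithZero.exp (-n) := by
  have h0 : v.val x ≠ 0 := by simpa using hx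
  rw [← h, Place.ord, neg_neg, WithZero.exp_log h0]

end rational

end Pool.Agent.Helper31.RRK

end

section

set_option autoImplicit false

set_option linter.style.haveILetI false

namespace Pool.Agent.Helper16

open Polynomial IntermediateField IsDedekindDomain

section trdeg

/-- Finite extensions of function fields are function fields. -/
theorem IsFunctionField.of_finite {k K L : Type} [Field k] [Field K] [Field L] [Algebra k K]
    [Algebra K L] [Algebra k L] [IsScalarTower k K L] (hK : IsFunctionField k K)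
    [FiniteDimensional K L] : IsFunctionField k L := by
  haveI := hK.1
  refine ⟨Algebra.EssFiniteType.comp k K L, ?_⟩
  have h1 := trdeg_add_eq k K (A := L)
  rw [trdeg_eq_zero (R := K) (A := L), add_zero] at h1
  rw [← h1, hK.2]

end trdeg

end Pool.Agent.Helper16

end

section

set_option autoImplicit false

set_option linter.style.haveILetI false

namespace Pool.Agent.Helper31.RRK

open Polynomial IntermediateField Pool.Agent.Helper16 Pool.Agent.Helper33 Pool.Agent.Helper45.FF

open Pool.Agent.Helper45.S4 Pool.Agent.Helper47.RR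

section bound

variable {k L : Type} [Field k] [Field L] [Algebra k L]

theorem isFunctionField_fieldRange (hN : IsFunctionField k L) {M : Type}
    [Field M] [Algebra k M] (φ : L →ₐ[k] M) : IsFunctionField k φ.fieldRange := by
  have e : L ≃ₐ[k] φ.fieldRange := AlgEquiv.ofInjectiveField φ
  refine ⟨?_, ?_⟩
  · haveI := hN.1
    exact Algebra.EssFiniteType.of_surjective e.toAlgHom e.surjective
  · rw [← hN.2]
    exact (e.trdeg_eq).symm

end bound

end Pool.Agent.Helper31.RRK

end

section

set_option autoImplicit false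

namespace Pool.Agent.Helper91.DT

open Polynomial IntermediateField Pool.Agent.Helper93.RatODE Pool.Agent.Helper45.FR
  Pool.Agent.Helper38.DT

open Pool.Agent.Helper55.RD (hom)

open Pool.Agent.Helper55.RM (lift ext IsRat Isotrivial Conj PotGood prePer)

section forms

variable {K : Type} [Field K]

theorem hom_eq_hev {A : Type} [CommRing A] [Algebra K A] (P : K[X]) (n : ℕ) (a b : A) :
    hom n P a b = hev P n a b := by
  rw [hom, Finset.Nat.sum_antidiagonal_eq_sum_range_succ_mk, hev]

end forms

end Pool.Agent.Helper91.DT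

end

section

set_option autoImplicit false

namespace Pool.Agent.Helper91.DT

open Polynomial IntermediateField Pool.Agent.Helper93.RatODE Pool.Agent.Helper45.FR
  Pool.Agent.Helper38.DT

open Pool.Agent.Helper55.RD (hom)

open Pool.Agent.Helper55.RM (lift ext IsRat Isotrivial Conj PotGood prePer)

theorem resultant_ne_zero_of_isRatD {K : Type} [Field K] {F G : K[X]} {d : ℕ} (hd : 2 ≤ d)
    (h : IsRatD F G d) : resultant F G d d ≠ 0 := by
  refine Pool.Agent.Helper55.RD.resultant_ne_zero_of_isCoprime h.cop h.degF h.degG ?_ (by omega)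
  rcases h.top with h1 | h1
  · exact Or.inl (le_antisymm h.degF (le_natDegree_of_ne_zero h1))
  · exact Or.inr (le_antisymm h.degG (le_natDegree_of_ne_zero h1))

end Pool.Agent.Helper91.DT

end

section

set_option autoImplicit false

namespace Pool.Agent.Helper91.DT

open Polynomial IntermediateField Pool.Agent.Helper93.RatODE Pool.Agent.Helper45.FR
  Pool.Agent.Helper38.DT

section forms

variable {K : Type} [Field K]

theorem pt_mem_roots {P : K[X]} {n : ℕ} (hP0 : P ≠ 0) (hP : P.natDegree ≤ n) {z : K × K}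
    (h : hev P n z.1 z.2 = 0) [DecidableEq K] [DecidableEq (Option K)] :
    pt z ∈ P.roots.toFinset.image some ∪ {none} := by
  unfold pt
  by_cases h2 : z.2 = 0
  · simp [h2]
  · rw [if_neg h2]
    rw [hev_eq_eval P n hP _ _ h2] at h
    have h3 := (mul_eq_zero.1 h).resolve_left (pow_ne_zero _ h2)
    rw [Finset.mem_union]
    left
    rw [Finset.mem_image]
    exact ⟨_, by rw [Multiset.mem_toFinset, mem_roots hP0]; exact h3, rfl⟩

/-- a nonzero form of degree `n` has at most `n` zeros -/
theorem card_zeros_form {P : K[X]} {n : ℕ} (hP0 : P ≠ 0) (hP : P.natDegree ≤ n)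
    (T : Finset (Option K)) (hT : ∀ q ∈ T, ∃ z : K × K, z ≠ 0 ∧ q = pt z ∧ hev P n z.1 z.2 = 0) :
    T.card ≤ n := by
  classical
  have hroots : P.roots.toFinset.card ≤ P.natDegree :=
    (Multiset.toFinset_card_le _).trans (card_roots' P)
  by_cases hc : P.coeff n = 0
  · have hlt : P.natDegree < n := by
      refine lt_of_le_of_ne hP fun h => hP0 ?_
      rw [← h, coeff_natDegree, leadingCoeff_eq_zero] at hc
      exact hc
    have hsub : T ⊆ P.roots.toFinset.image some ∪ {none} := by
      intro q hq
      obtain ⟨z, -, rfl, h⟩ := hT q hq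
      exact pt_mem_roots hP0 hP h
    refine (Finset.card_le_card hsub).trans ((Finset.card_union_le _ _).trans ?_)
    have := Finset.card_image_le (s := P.roots.toFinset) (f := some)
    rw [Finset.card_singleton]
    omega
  · have hsub : T ⊆ P.roots.toFinset.image some := by
      intro q hq
      obtain ⟨z, hz, rfl, h⟩ := hT q hq
      have h1 := pt_mem_roots hP0 hP h
      rw [Finset.mem_union] at h1
      rcases h1 with h1 | h1
      · exact h1
      · exfalso
        rw [Finset.mem_singleton] at h1
        unfold pt at h1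
        split_ifs at h1 with h2
        have h3 : z.1 ≠ 0 := fun h3 => hz (Prod.ext h3 h2)
        rw [h2, hev_right_zero] at h
        rcases mul_eq_zero.1 h with h4 | h4
        · exact hc (by simpa using h4)
        · exact h3 (eq_zero_of_pow_eq_zero h4)
    refine (Finset.card_le_card hsub).trans ?_
    have := Finset.card_image_le (s := P.roots.toFinset) (f := some)
    omega

theorem bev_eq_hev (q : ℕ → ℕ → K) (m n : ℕ) (y z : K × K) :
    bev q m n y.1 y.2 z.1 z.2 = hev (pz q m n y) n z.1 z.2 := by
  unfold bev hev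
  rw [Finset.sum_comm]
  refine Finset.sum_congr rfl fun b hb => ?_
  rw [Finset.mem_range] at hb
  rw [pz_coeff, if_pos hb, Algebra.algebraMap_self, RingHom.id_apply, Finset.sum_mul,
    Finset.sum_mul]

end forms

end Pool.Agent.Helper91.DT

end

section

set_option autoImplicit false

set_option linter.style.haveILetI false

namespace Pool.Agent.Helper47.EN

open Pool.Agent.Helper16 Pool.Agent.Helper45.S4 Pool.Agent.Helper47.RR

variable {k L M N : Type} [Field k] [Field L] [Field M] [Field N] [Algebra k L] [Algebra k M]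
  [Algebra k N]

/-- an extension of function fields is algebraic -/
theorem isAlgebraic_of_hom (hL : IsFunctionField k L) (hM : IsFunctionField k M) [Algebra L M]
    [IsScalarTower k L M] : Algebra.IsAlgebraic L M := by
  have h1 := trdeg_add_eq k L (A := M)
  rw [hL.2, hM.2] at h1
  rw [← trdeg_eq_zero_iff]
  have h3 : Algebra.trdeg L M < Cardinal.aleph0 := by
    refine lt_of_le_of_lt ?_ Cardinal.one_lt_aleph0
    rw [← h1]
    exact self_le_add_left _ _
  obtain ⟨n, hn⟩ := Cardinal.lt_aleph0.1 h3
  rw [hn] at h1 ⊢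
  norm_cast at h1 ⊢
  omega

end Pool.Agent.Helper47.EN

end

section

set_option autoImplicit false

set_option linter.style.haveILetI false

namespace Pool.Agent.Helper47.EN

open Pool.Agent.Helper16 Pool.Agent.Helper45.S4 Pool.Agent.Helper47.RR IntermediateField

variable {k M : Type} [Field k] [Field M] [Algebra k M]

section main

variable [IsAlgClosed k] (hM : IsFunctionField k M)

/-- semilinear automorphisms stabilising `k(y)` act by Möbius transformations -/
theorem moebius_of_stable (y : M) (hy : Transcendental k y) (γ : M ≃+* M) (γ₀ : k ≃+* k)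
    (hγ : ∀ c, γ (algebraMap k M c) = algebraMap k M (γ₀ c))
    (h1 : γ y ∈ k⟮y⟯) (h2 : γ.symm y ∈ k⟮y⟯) :
    ∃ a b c d : k, a * d - b * c ≠ 0 ∧ algebraMap k M c * y + algebraMap k M d ≠ 0 ∧
      γ y = (algebraMap k M a * y + algebraMap k M b) /
        (algebraMap k M c * y + algebraMap k M d) := by
  apply moebius y (γ y) hy
  apply le_antisymm
  · rw [adjoin_simple_le_iff]
    exact h1
  · rw [adjoin_simple_le_iff]
    -- the preimage of `k(γ y)` is an intermediate field containing `y`
    let S : IntermediateField k M :=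
      { (k⟮γ y⟯.toSubfield.comap (γ : M →+* M)) with
        algebraMap_mem' := fun c => by
          change γ (algebraMap k M c) ∈ k⟮γ y⟯
          rw [hγ]
          exact k⟮γ y⟯.algebraMap_mem _ }
    have hS : ∀ x, x ∈ S ↔ γ x ∈ k⟮γ y⟯ := fun _ => Iff.rfl
    have hyS : k⟮y⟯ ≤ S := by
      rw [adjoin_simple_le_iff, hS]
      exact mem_adjoin_simple_self k (γ y)
    have h3 := hyS h2
    rw [hS, RingEquiv.apply_symm_apply] at h3
    exact h3

theorem pow_comm (φ : M →ₐ[k] M) (γ : M ≃+* M) (hcomm : ∀ x, γ (φ x) = φ (γ x)) (i : ℕ) (x : M) :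
    γ ((φ ^ i) x) = (φ ^ i) (γ x) := by
  induction i generalizing x with
  | zero => rfl
  | succ n ih =>
    rw [pow_succ]
    change γ ((φ ^ n) (φ x)) = (φ ^ n) (φ (γ x))
    rw [ih, hcomm]

theorem symm_comm (ψ : M →ₐ[k] M) (γ : M ≃+* M) (hcomm : ∀ x, γ (ψ x) = ψ (γ x)) (x : M) :
    γ.symm (ψ x) = ψ (γ.symm x) := by
  rw [RingEquiv.symm_apply_eq, hcomm, RingEquiv.apply_symm_apply]

end main

end Pool.Agent.Helper47.EN

end

section

set_option autoImplicit false

set_option linter.style.haveILetI false

namespace Pool.Agent.Helper38.DT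

open Polynomial IntermediateField Pool.Agent.Helper16 Pool.Agent.Helper45.S4 Pool.Agent.Helper45.FR
  Pool.Agent.Helper93.RatODE Pool.Agent.Helper45.S6 Pool.Agent.Helper47.EN Pool.Agent.Helper34.Dep

/-- the statement of the rational quotient theorem -/
def QuotStmt : Prop := ∀ (k M : Type) [Field k] [IsAlgClosed k] [Field M] [Algebra k M]
    (_ : IsFunctionField k M) (phi : M →ₐ[k] M) (_ : 2 ≤ Field.finSepDegree phi.fieldRange M)
    (h : M) (_ : Transcendental k h) (_ : phi h ∈ k⟮h⟯),
    ∃ (i : ℕ) (y : M), 1 ≤ i ∧ i ≤ Module.finrank k⟮h⟯ M ∧ Transcendental k y ∧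
      (phi ^ i) y ∈ k⟮y⟯ ∧
      Module.finrank k⟮y⟯ M ≤
        2 * (2 * Module.finrank k⟮h⟯ M + Module.finrank k⟮(phi ^ i) h⟯ M) + 1 ∧
      ∀ (g : M ≃+* M) (g0 : k ≃+* k), (∀ c, g (algebraMap k M c) = algebraMap k M (g0 c)) →
        (∀ x, g (phi x) = phi (g x)) →
        ∃ a b c d : k, a * d - b * c ≠ 0 ∧ algebraMap k M c * y + algebraMap k M d ≠ 0 ∧
          g y = (algebraMap k M a * y + algebraMap k M b) /
            (algebraMap k M c * y + algebraMap k M d)

theorem trdeg_eq_one {k L E : Type} [Field k] [Field L] [Field E] [Algebra k L] [Algebra k E]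
    [Algebra L E] [IsScalarTower k L E] [Algebra.IsAlgebraic L E] (hL : IsFunctionField k L) :
    Algebra.trdeg k E = 1 := by
  have h1 := trdeg_add_eq k L (A := E)
  rw [hL.2, trdeg_eq_zero (R := L) (A := E), add_zero] at h1
  exact h1.symm

end Pool.Agent.Helper38.DT

end

section

set_option autoImplicit false

set_option linter.style.haveILetI false

namespace Pool.Agent.Helper34.Dep

open Polynomial Pool.Agent.Helper16 Pool.Agent.Helper47.RR IntermediateField Pool.Agent.Helper64.Dep

variable {k M M' K : Type} [Field k] [Field M] [Field M'] [Field K] [Algebra k M] [Algebra k M']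
  [Algebra k K]

theorem fieldRange_fg (hM : IsFunctionField k M) (φ : M →ₐ[k] K) : φ.fieldRange.FG := by
  haveI := hM.1
  obtain ⟨t, ht, htop⟩ := IntermediateField.fg_def.1 (IntermediateField.fg_top k M)
  rw [AlgHom.fieldRange_eq_map, ← htop, IntermediateField.adjoin_map]
  exact IntermediateField.fg_adjoin_of_finite (ht.image _)

end Pool.Agent.Helper34.Dep

end

section

set_option autoImplicit false

set_option linter.style.haveILetI false

namespace Pool.Agent.Helper34.Dep

open Polynomial Pool.Agent.Helper16 Pool.Agent.Helper47.RR IntermediateField Pool.Agent.Helper64.Dep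

section

variable {k : Type} [Field k] (g : k ≃+* k) (M : Type) [Field M] [Algebra k M]

variable {M}

theorem tw_isFunctionField (hM : IsFunctionField k M) : IsFunctionField k (Tw g M) := by
  have hsurj : Function.Surjective (algebraMap k (KK g)) := g.surjective
  haveI h1 : Algebra.EssFiniteType (KK g) (Tw g M) := hM.1
  haveI h2 : Module.Finite k (KK g) := Module.Finite.of_surjective (Algebra.linearMap k (KK g)) hsurj
  haveI h3 : Algebra.EssFiniteType k (KK g) := inferInstance
  have h4 : Algebra.trdeg (KK g) (Tw g M) = 1 := hM.2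
  haveI h6 : Algebra.IsAlgebraic k (KK g) := Algebra.IsAlgebraic.of_finite k (KK g)
  refine ⟨Algebra.EssFiniteType.comp k (KK g) (Tw g M), ?_⟩
  have h5 := trdeg_add_eq k (KK g) (A := Tw g M)
  rw [h4, trdeg_eq_zero (R := k) (A := KK g), zero_add] at h5
  exact h5.symm

end

end Pool.Agent.Helper34.Dep

end

section

set_option autoImplicit false

set_option linter.style.haveILetI false

set_option linter.unusedSectionVars false

namespace Pool.Agent.Helper45.GW

open Polynomial IntermediateField Pool.Agent.Helper16 Pool.Agent.Helper33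
  Pool.Agent.Helper45.FF Pool.Agent.Helper45.S4

section one

variable {k L : Type} [Field k] [Field L] [Algebra k L]

theorem val_eq_exp (v : Place k L) {x : L} (hx : x ≠ 0) : v.val x = WithZero.exp (-(v.ord x)) := by
  have h0 : v.val x ≠ 0 := by simpa using hx
  rw [Place.ord, neg_neg, WithZero.exp_log h0]

theorem val_of_ord_one (v : Place k L) {x : L} (hx : v.ord x = 1) :
    v.val x = WithZero.exp (-1 : ℤ) := by
  rw [val_eq_exp v, hx]
  rintro rfl
  rw [Place.ord_zero] at hx
  exact absurd hx (by norm_num)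

end one

end Pool.Agent.Helper45.GW

end

section

set_option autoImplicit false

open Polynomial Finset Pool.Agent.Helper33 Pool.Agent.Helper33.PS Pool.Agent.Helper55.RD
  Pool.Agent.Helper93.RatODE

namespace Pool.Agent.Helper82.PS

section HH

variable {K : Type*} [Field K] {v : DV K}

lemma hom_scale {d : ℕ} {P : K[X]} (hP : P.natDegree ≤ d) (z s : K) :
    hom d P (s⁻¹ * z) (s⁻¹ * 1) = s⁻¹ ^ d * P.eval z := by
  rw [hom_smul_smul, hom_eval hP]

end HH

section tele

variable {K : Type*} [Field K] {v : DV K} {d : ℕ} {A B : K[X]}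

lemma orb_iter (hA : A.natDegree ≤ d) (hB : B.natDegree ≤ d) {z : ℕ → K} {n : ℕ} (hz : Orb A B z n)
    (m : ℕ) (hm : m ≤ n) :
    (iter A B d m).2.eval (z 0) ≠ 0 ∧
      (iter A B d m).1.eval (z 0) / (iter A B d m).2.eval (z 0) = z m := by
  have h := iter_orbit (P := A) (Q := B) hA hB z 0 m (fun j hj => by
    rw [zero_add]
    exact ⟨hz.ne j (by omega), hz.step j (by omega)⟩)
  rwa [zero_add] at h

end tele

section main

variable {k K : Type*} [Field k] [Field K] [Algebra k K] {v : DV K}

omit [Algebra k K] in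
lemma exists_avoid [Infinite k] {G : K[X]} (hG : G ≠ 0) {G₀ : k[X]} (hG₀ : G₀ ≠ 0) (φ : k → K)
    (hφ : Function.Injective φ) : ∃ s : k, G.eval (φ s) ≠ 0 ∧ G₀.eval s ≠ 0 := by
  classical
  have h1 : {x : K | G.eval x = 0}.Finite := by
    refine (G.roots.toFinset.finite_toSet).subset fun x hx => ?_
    simp only [mem_coe, Multiset.mem_toFinset, mem_roots hG, IsRoot.def]
    exact hx
  have h2 : {s : k | G₀.eval s = 0}.Finite := by
    refine (G₀.roots.toFinset.finite_toSet).subset fun x hx => ?_
    simp only [mem_coe, Multiset.mem_toFinset, mem_roots hG₀, IsRoot.def]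
    exact hx
  have h3 : (φ ⁻¹' {x : K | G.eval x = 0}).Finite := h1.preimage hφ.injOn
  obtain ⟨s, hs⟩ := (h3.union h2).exists_notMem
  rw [Set.mem_union, not_or] at hs
  exact ⟨s, hs.1, hs.2⟩

end main

end Pool.Agent.Helper82.PS

end

section

set_option autoImplicit false

set_option linter.unusedSectionVars false

open Finset Polynomial

namespace Pool.Agent.Helper36.S5

variable {κ : Type*} [Field κ]

namespace Rat

variable {A B : κ[X]} {d : ℕ}

lemma W0 [CharZero κ] (h : Rat A B d) (hd : 1 ≤ d) : wr A B ≠ 0 := by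
  intro hW
  rw [wr, sub_eq_zero] at hW
  have hB0 := h.B0 hd
  have h1 : B ∣ derivative B := by
    apply h.cop.symm.dvd_of_dvd_mul_left
    rw [← hW]; exact dvd_mul_left _ _
  have hBd : B.natDegree = 0 := by
    by_contra hne
    exact dvd_derivative_absurd (Nat.pos_of_ne_zero hne) h1
  have h2 : derivative A * B = 0 := by
    rw [hW, derivative_of_natDegree_zero hBd, mul_zero]
  have h3 : derivative A = 0 := (mul_eq_zero.mp h2).resolve_right hB0
  have hAd : A.natDegree = 0 := Polynomial.derivative_eq_zero.mp h3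
  rcases h.top with h4 | h4
  · exact h4 (coeff_eq_zero_of_natDegree_lt (by omega))
  · exact h4 (coeff_eq_zero_of_natDegree_lt (by omega))

lemma gg_ne [CharZero κ] (h : Rat A B d) (hd : 1 ≤ d) : gg A B ≠ 0 :=
  div_ne_zero (io_ne (h.W0 hd)) (pow_ne_zero _ (io_ne (h.B0 hd)))

end Rat

end Pool.Agent.Helper36.S5

end

section

set_option autoImplicit false

open Finset Polynomial

namespace Pool.Agent.Helper36.S5

variable {κ : Type*} [Field κ]

lemma Rat.natDegree_wr {A B : κ[X]} {d : ℕ} (h : Rat A B d) : (wr A B).natDegree ≤ 2 * d := by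
  rw [wr]
  refine (natDegree_sub_le _ _).trans (max_le ?_ ?_)
  · refine (natDegree_mul_le_of_le ((natDegree_derivative_le A).trans ?_) h.dB).trans
      (le_of_eq (two_mul d).symm)
    exact (Nat.sub_le _ _).trans h.dA
  · refine (natDegree_mul_le_of_le h.dA ((natDegree_derivative_le B).trans ?_)).trans
      (le_of_eq (two_mul d).symm)
    exact (Nat.sub_le _ _).trans h.dB

end Pool.Agent.Helper36.S5

end

section

set_option autoImplicit false

open Finset Polynomial

namespace Pool.Agent.Helper43.PT

open Pool.Agent.Helper33 Pool.Agent.Helper45.FR Pool.Agent.Helper33.UB Pool.Agent.Helper51.RatTree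
  Pool.Agent.Helper93.RatODE Pool.Agent.Helper33.PS Pool.Agent.Helper55.RD Pool.Agent.Helper98.PS

section local_

variable {K : Type} [Field K] {v : DV K} {F G : K[X]} {d : ℕ} {X : Finset K}

lemma isRat_res {K : Type} [Field K] {F G : K[X]} {d : ℕ} (hd : 1 ≤ d) (hFG : IsRat F G d) :
    resultant F G d d ≠ 0 :=
  resultant_ne_zero_of_isCoprime hFG.cop hFG.dA hFG.dB
    (hmax_of_top hFG.dA hFG.dB hFG.top) hd

end local_

end Pool.Agent.Helper43.PT

end

section

set_option autoImplicit false

namespace Pool.Agent.Helper36.PT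

open Polynomial Finset Pool.Agent.Helper33 Pool.Agent.Helper33.PS Pool.Agent.Helper33.UB
  Pool.Agent.Helper45.FR Pool.Agent.Helper51.RatTree Pool.Agent.Helper93.RatODE
  Pool.Agent.Helper35.PS

section

variable {k K : Type} [Field k] [Field K] [Algebra k K]

theorem IsRat_smul {F G : K[X]} {d : ℕ} {s : K} (hs : s ≠ 0) (h : IsRat F G d) :
    IsRat (C s * F) (C s * G) d := by
  have hu : IsUnit (C s) := isUnit_C.2 (isUnit_iff_ne_zero.2 hs)
  refine ⟨?_, (natDegree_C_mul_le _ _).trans h.dA, (natDegree_C_mul_le _ _).trans h.dB, ?_⟩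
  · exact (isCoprime_mul_unit_left hu F G).2 h.cop
  · rw [coeff_C_mul, coeff_C_mul]
    exact h.top.imp (mul_ne_zero hs) (mul_ne_zero hs)

end

end Pool.Agent.Helper36.PT

end

section

set_option autoImplicit false

namespace Pool.Agent.Helper36.PT

open Polynomial Finset Pool.Agent.Helper33 Pool.Agent.Helper33.PS Pool.Agent.Helper33.UB
  Pool.Agent.Helper45.FR Pool.Agent.Helper51.RatTree Pool.Agent.Helper93.RatODE
  Pool.Agent.Helper35.PS Pool.Agent.Helper55.RD

section

variable {K : Type} [Field K] (p : ℕ) [Fact p.Prime] [CharP K p]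

theorem isRat_root {d : ℕ} {F G F₁ G₁ : K[X]} (hFG : IsRat F G d)
    (hF : ∀ i, F₁.coeff i ^ p = F.coeff i) (hG : ∀ i, G₁.coeff i ^ p = G.coeff i) :
    IsRat F₁ G₁ d := by
  have hp : p ≠ 0 := (Fact.out : p.Prime).ne_zero
  have h1 := map_frob p hF
  have h2 := map_frob p hG
  refine ⟨?_, ?_, ?_, ?_⟩
  · have h3 := hFG.cop
    rw [← h1, ← h2] at h3
    exact (isCoprime_map (frobenius K p)).1 h3
  · have h3 := hFG.dA
    rwa [← h1, natDegree_map] at h3
  · have h3 := hFG.dB
    rwa [← h2, natDegree_map] at h3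
  · have h3 := hFG.top
    rw [← hF, ← hG] at h3
    exact h3.imp (fun h h0 => h (by rw [h0, zero_pow hp])) (fun h h0 => h (by rw [h0, zero_pow hp]))

end

section

variable {k K : Type} [Field k] [Field K] [Algebra k K] (p : ℕ) [Fact p.Prime] [CharP K p]

theorem map_hev_frob (P : K[X]) (n : ℕ) (U W : K[X]) :
    (hev P n U W).map (frobenius K p) =
      hev (P.map (frobenius K p)) n (U.map (frobenius K p)) (W.map (frobenius K p)) := by
  unfold hev
  rw [Polynomial.map_sum]
  refine sum_congr rfl fun j _ => ?_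
  rw [Polynomial.map_mul, Polynomial.map_mul, Polynomial.map_pow, Polynomial.map_pow,
    ← C_eq_algebraMap, map_C, coeff_map, C_eq_algebraMap]

end

end Pool.Agent.Helper36.PT

end
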