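import Pool.Agent.Helper23.MB.L00_ab7
import Pool.Agent.Helper23.MB.L00_ab8
import Pool.Agent.Helper23.MB.L00_abc0
import Pool.Agent.Helper23.MB.L00_abc1
import Pool.Agent.Helper23.MB.L00_abc2

/-!
Parts of Helper33.LocalLagrange, Helper33.UB.LB, Helper51.RatTree, Helper16.Place, Helper45.FFPlaces, Helper45.S4Der, Helper16.FF10, Helper47.RR.Defs, Helper31.RRK.Tower, Helper13.RR.A, Helper47.RR.B1, Helper47.RR.B2, Helper47.RR.B3, Helper31.RRK.Frob, Helper47.EN.Ext
-/

attribute [-simp] Valuation.IsUniformizer.val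
attribute [local instance 5000]
  Pool.Agent.Helper23.MB.Inst.rCharZero Pool.Agent.Helper23.MB.Inst.rALM
  Pool.Agent.Helper23.MB.Inst.rARM Pool.Agent.Helper23.MB.Inst.rALSM
  Pool.Agent.Helper23.MB.Inst.rARSM Pool.Agent.Helper23.MB.Inst.rARRLE
  Pool.Agent.Helper23.MB.Inst.rALRLE Pool.Agent.Helper23.MB.Inst.rARRLT
  Pool.Agent.Helper23.MB.Inst.rALRLT Pool.Agent.Helper23.MB.Inst.rPMRLT
  Pool.Agent.Helper23.MB.Inst.rMPRLT Pool.Agent.Helper23.MB.Inst.rPMM
  Pool.Agent.Helper23.MB.Inst.rMPM Pool.Agent.Helper23.MB.Inst.rPMSM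
  Pool.Agent.Helper23.MB.Inst.rMPSM Pool.Agent.Helper23.MB.Inst.rEAOL
  Pool.Agent.Helper23.MB.Inst.rIOR Pool.Agent.Helper23.MB.Inst.rISOR
  Pool.Agent.Helper23.MB.Inst.rNZD Pool.Agent.Helper23.MB.Inst.zCharZero
  Pool.Agent.Helper23.MB.Inst.zALM Pool.Agent.Helper23.MB.Inst.zARM
  Pool.Agent.Helper23.MB.Inst.zIOR Pool.Agent.Helper23.MB.Inst.zISOR
  Pool.Agent.Helper23.MB.Inst.zNZD Pool.Agent.Helper23.MB.Inst.qCharZero
  Pool.Agent.Helper23.MB.Inst.free Pool.Agent.Helper23.MB.Inst.faith
  Pool.Agent.Helper23.MB.Inst.torsionFree Pool.Agent.Helper23.MB.Inst.rfFaith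
  Pool.Agent.Helper23.MB.Inst.hAdd Pool.Agent.Helper23.MB.Inst.hAddM
  Pool.Agent.Helper23.MB.Inst.hMul Pool.Agent.Helper23.MB.Inst.hMon
  Pool.Agent.Helper23.MB.Inst.hZero Pool.Agent.Helper23.MB.Inst.hOne
  Pool.Agent.Helper23.MB.Inst.hMZ Pool.Agent.Helper23.MB.Inst.hRing
  Pool.Agent.Helper23.MB.Inst.aAdd Pool.Agent.Helper23.MB.Inst.aAddM
  Pool.Agent.Helper23.MB.Inst.aMul Pool.Agent.Helper23.MB.Inst.aMon
  Pool.Agent.Helper23.MB.Inst.aZero Pool.Agent.Helper23.MB.Inst.aOne
  Pool.Agent.Helper23.MB.Inst.aMZ Pool.Agent.Helper23.MB.Inst.aRing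

namespace Pool.Agent.Helper16
end Pool.Agent.Helper16
namespace Pool.Agent.Helper33
end Pool.Agent.Helper33
namespace Pool.Agent.Helper33.UB
end Pool.Agent.Helper33.UB
namespace Pool.Agent.Helper45.FF
end Pool.Agent.Helper45.FF
namespace Pool.Agent.Helper45.S4
end Pool.Agent.Helper45.S4
namespace Pool.Agent.Helper47.RR
end Pool.Agent.Helper47.RR

section

set_option autoImplicit false

open Polynomial

namespace Pool.Agent.Helper33

variable {K : Type*} [Field K]

/-- Gauss-type lower bound for a polynomial. -/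
def geP (v : DV K) (c e : ℝ) (P : K[X]) : Prop := ∀ i : ℕ, v.ge (e - i * c) (P.coeff i)

lemma geP_mul {v : DV K} {c e e' : ℝ} {P Q : K[X]} (hP : geP v c e P) (hQ : geP v c e' Q) :
    geP v c (e + e') (P * Q) := by
  intro n
  rw [coeff_mul]
  apply DV.ge_sum
  rintro ⟨i, j⟩ hij
  rw [Finset.HasAntidiagonal.mem_antidiagonal] at hij
  simp only at hij ⊢
  refine DV.ge_mono (DV.ge_mul (hP i) (hQ j)) (le_of_eq ?_)
  rw [← hij]; push_cast; ring

lemma geP_one {v : DV K} {c : ℝ} : geP v c 0 (1 : K[X]) := by
  intro i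
  rw [coeff_one]
  split_ifs with h
  · subst h; simpa using DV.ge_one
  · exact DV.ge_zero _

lemma geP_C_mul {v : DV K} {c e e' : ℝ} {u : K} {P : K[X]} (hu : v.ge e u) (hP : geP v c e' P) :
    geP v c (e + e') (C u * P) := by
  intro i
  rw [coeff_C_mul]
  refine DV.ge_mono (DV.ge_mul hu (hP i)) (le_of_eq ?_)
  ring

lemma geP_sum {v : DV K} {c e : ℝ} {ι : Type*} (s : Finset ι) (P : ι → K[X])
    (h : ∀ i ∈ s, geP v c e (P i)) : geP v c e (∑ i ∈ s, P i) := by
  intro n
  rw [finsetSum_coeff]
  exact DV.ge_sum _ _ fun i hi => h i hi n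

end Pool.Agent.Helper33

end

section

set_option autoImplicit false

open Polynomial Finset

namespace Pool.Agent.Helper33.UB

variable {K : Type*} [Field K]

lemma geP_prod' {v : DV K} {c : ℝ} {ι : Type*} [DecidableEq ι] (s : Finset ι) (e : ι → ℝ) (P : ι → K[X])
    (h : ∀ i ∈ s, geP v c (e i) (P i)) : geP v c (∑ i ∈ s, e i) (∏ i ∈ s, P i) := by
  induction s using Finset.induction_on with
  | empty => simpa using geP_one
  | insert a s ha ih =>
    rw [Finset.prod_insert ha, Finset.sum_insert ha]
    exact geP_mul (h a (Finset.mem_insert_self a s)) (ih fun i hi => h i (Finset.mem_insert_of_mem hi))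

end Pool.Agent.Helper33.UB

end

section

set_option autoImplicit false

open Polynomial Finset Pool.Agent.Helper33 Pool.Agent.Helper33.UB

namespace Pool.Agent.Helper51.RatTree

variable {K : Type*} [Field K]

section gauss

/-- Gauss norm of a polynomial at a disc -/
noncomputable def gn (v : DV K) (a : K) (r : ℤ) (φ : K[X]) : ℤ :=
  open Classical in
  if h : (taylor a φ).support.Nonempty then
    (taylor a φ).support.inf' h fun j => v.o ((taylor a φ).coeff j) + j * r
  else 0

variable {v : DV K} {a : K} {r : ℤ} {φ ψ : K[X]}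

lemma gn_le {j : ℕ} (hj : (taylor a φ).coeff j ≠ 0) :
    gn v a r φ ≤ v.o ((taylor a φ).coeff j) + j * r := by
  have hmem : j ∈ (taylor a φ).support := mem_support_iff.mpr hj
  unfold gn
  rw [dif_pos ⟨j, hmem⟩]
  exact inf'_le _ hmem

lemma exists_gn (hφ : φ ≠ 0) : ∃ j : ℕ, (taylor a φ).coeff j ≠ 0 ∧
    gn v a r φ = v.o ((taylor a φ).coeff j) + j * r := by
  have hne : (taylor a φ).support.Nonempty := by
    rw [nonempty_support_iff]
    exact fun h => hφ (taylor_injective a (by rw [h, map_zero]))
  unfold gn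
  rw [dif_pos hne]
  obtain ⟨j, hj, he⟩ := exists_mem_eq_inf' hne
    fun j : ℕ => v.o ((taylor a φ).coeff j) + j * r
  exact ⟨j, mem_support_iff.mp hj, he⟩

lemma geP_gn (φ : K[X]) : geP v (r : ℝ) (gn v a r φ) (taylor a φ) := by
  intro i
  by_cases h : (taylor a φ).coeff i = 0
  · exact Or.inl h
  right
  have h1 := gn_le (v := v) (r := r) h
  have h2 : (gn v a r φ : ℝ) ≤ v.o ((taylor a φ).coeff i) + i * r := by exact_mod_cast h1
  (clear * - h2; linarith)

lemma le_gn (hφ : φ ≠ 0) {e : ℝ} (h : geP v (r : ℝ) e (taylor a φ)) : e ≤ gn v a r φ := by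
  obtain ⟨j, hj, he⟩ := exists_gn (v := v) (a := a) (r := r) hφ
  have h1 := DV.ge_le (h j) hj
  have h2 : (gn v a r φ : ℝ) = v.o ((taylor a φ).coeff j) + j * r := by exact_mod_cast he
  linarith

lemma gn_C_mul {c : K} (hc : c ≠ 0) (hφ : φ ≠ 0) : gn v a r (C c * φ) = v.o c + gn v a r φ := by
  have hcφ : C c * φ ≠ 0 := mul_ne_zero (by rwa [ne_eq, C_eq_zero]) hφ
  apply le_antisymm
  · obtain ⟨j, hj, he⟩ := exists_gn (v := v) (a := a) (r := r) hφ
    have h1 : (taylor a (C c * φ)).coeff j = c * (taylor a φ).coeff j := by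
      rw [taylor_mul, taylor_C, coeff_C_mul]
    have h2 : (taylor a (C c * φ)).coeff j ≠ 0 := by
      rw [h1]; exact mul_ne_zero hc hj
    have h3 := gn_le (v := v) (r := r) h2
    rw [h1, v.mul _ _ hc hj] at h3
    omega
  · have h1 : geP v (r : ℝ) (v.o c + gn v a r φ) (taylor a (C c * φ)) := by
      rw [taylor_mul, taylor_C]
      exact geP_C_mul (DV.ge_self c) (geP_gn φ)
    have := le_gn hcφ h1
    exact_mod_cast this

lemma geP_sub {c e : ℝ} {φ ψ : K[X]} (h1 : geP v c e φ) (h2 : geP v c e ψ) : geP v c e (φ - ψ) := by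
  intro i
  rw [coeff_sub]
  exact DV.ge_sub (h1 i) (h2 i)

lemma geP_mono {c e e' : ℝ} {φ : K[X]} (h1 : geP v c e φ) (h : e' ≤ e) : geP v c e' φ := by
  intro i
  exact DV.ge_mono (h1 i) (by linarith)

/-- the Gauss norms of `P - b Q` are bounded -/
lemma exists_bound {P Q : K[X]} (hQ : Q ≠ 0) (hPQ : ∀ b : K, P - C b * Q ≠ 0) :
    ∃ B : ℤ, ∀ b : K, gn v a r (P - C b * Q) ≤ B := by
  obtain ⟨j2, hj2, hg2⟩ := exists_gn (v := v) (a := a) (r := r) hQ
  set b0 := (taylor a P).coeff j2 / (taylor a Q).coeff j2 with hb0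
  obtain ⟨j1, hj1, -⟩ := exists_gn (v := v) (a := a) (r := r) (hPQ b0)
  have hco : ∀ (b : K) (j : ℕ), (taylor a (P - C b * Q)).coeff j =
      (taylor a P).coeff j - b * (taylor a Q).coeff j := by
    intro b j
    rw [map_sub, taylor_mul, taylor_C, coeff_sub, coeff_C_mul]
  rw [hco] at hj1
  set m := (taylor a Q).coeff j2 * ((taylor a P).coeff j1 - b0 * (taylor a Q).coeff j1) with hm
  have hm0 : m ≠ 0 := mul_ne_zero hj2 hj1
  refine ⟨v.o m + (j1 + j2) * r - gn v a r Q, fun b => ?_⟩
  have h1 := geP_gn (v := v) (a := a) (r := r) (P - C b * Q) j1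
  have h2 := geP_gn (v := v) (a := a) (r := r) (P - C b * Q) j2
  have h3 := geP_gn (v := v) (a := a) (r := r) Q j1
  have h4 := geP_gn (v := v) (a := a) (r := r) Q j2
  have h5 : m = (taylor a (P - C b * Q)).coeff j1 * (taylor a Q).coeff j2 -
      (taylor a (P - C b * Q)).coeff j2 * (taylor a Q).coeff j1 := by
    rw [hco, hco, hm, hb0]
    field_simp
    ring
  have h6 : v.ge ((gn v a r (P - C b * Q) : ℝ) + gn v a r Q - (j1 + j2) * r) m := by
    rw [h5]
    apply DV.ge_sub
    · refine DV.ge_mono (DV.ge_mul h1 h4) (le_of_eq ?_)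
      ring
    · refine DV.ge_mono (DV.ge_mul h2 h3) (le_of_eq ?_)
      ring
  have h7 := DV.ge_le h6 hm0
  have h8 : gn v a r (P - C b * Q) + gn v a r Q - (j1 + j2) * r ≤ v.o m := by exact_mod_cast h7
  (clear * - h8; linarith)

/-- the centre of the image disc -/
lemma exists_max {P Q : K[X]} (v : DV K) (a : K) (r : ℤ) (hQ : Q ≠ 0)
    (hPQ : ∀ b : K, P - C b * Q ≠ 0) :
    ∃ b : K, ∀ b' : K, gn v a r (P - C b' * Q) ≤ gn v a r (P - C b * Q) := by
  obtain ⟨B, hB⟩ := exists_bound (v := v) (a := a) (r := r) hQ hPQ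
  obtain ⟨m, ⟨b, hb⟩, hmax⟩ := Int.exists_greatest_of_bdd
    (P := fun n => ∃ b : K, gn v a r (P - C b * Q) = n)
    ⟨B, fun n ⟨b, hb⟩ => hb ▸ hB b⟩ ⟨_, 0, rfl⟩
  exact ⟨b, fun b' => by rw [hb]; exact hmax _ ⟨b', rfl⟩⟩

/-- independence of the reductions -/
lemma gn_comb_le {P Q : K[X]} (hQ : Q ≠ 0) (hPQ : ∀ b : K, P - C b * Q ≠ 0) {b : K}
    (hmax : ∀ b' : K, gn v a r (P - C b' * Q) ≤ gn v a r (P - C b * Q)) {α β : K} (hα : α ≠ 0) :
    gn v a r (C α * (P - C b * Q) + C β * Q) ≤ v.o α + gn v a r (P - C b * Q) ∧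
    (β ≠ 0 → gn v a r (C α * (P - C b * Q) + C β * Q) ≤ v.o β + gn v a r Q) := by
  have h1 : C α * (P - C b * Q) + C β * Q = C α * (P - C (b - β / α) * Q) := by
    have : C β = C α * C (β / α) := by
      rw [← C_mul]
      congr 1
      field_simp
    rw [this, C_sub]
    ring
  have h2 : gn v a r (C α * (P - C b * Q) + C β * Q) ≤ v.o α + gn v a r (P - C b * Q) := by
    rw [h1, gn_C_mul hα (hPQ _)]
    have := hmax (b - β / α)
    omega
  refine ⟨h2, fun hβ => ?_⟩
  set e := gn v a r (C α * (P - C b * Q) + C β * Q) with he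
  have h3 : geP v (r : ℝ) e (taylor a (C β * Q)) := by
    have h4 : C β * Q = (C α * (P - C b * Q) + C β * Q) - C α * (P - C b * Q) := by ring
    rw [h4, map_sub]
    apply geP_sub
    · exact geP_gn _
    · refine geP_mono (geP_gn _) ?_
      rw [gn_C_mul hα (hPQ _)]
      exact_mod_cast h2
  have hβQ : C β * Q ≠ 0 := mul_ne_zero (by rwa [ne_eq, C_eq_zero]) hQ
  have h5 := le_gn hβQ h3
  rw [gn_C_mul hβ hQ] at h5
  exact_mod_cast h5

end gauss

section tree

variable {v : DV K} {P Q : K[X]} {d : ℕ}

/-- centre of the image disc -/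
noncomputable def ctr (v : DV K) (hQ : Q ≠ 0) (hPQ : ∀ b : K, P - C b * Q ≠ 0) (a : K) (r : ℤ) : K :=
  (exists_max v a r hQ hPQ).choose

/-- radius of the image disc -/
noncomputable def rad (v : DV K) (hQ : Q ≠ 0) (hPQ : ∀ b : K, P - C b * Q ≠ 0) (a : K) (r : ℤ) : ℤ :=
  gn v a r (P - C (ctr v hQ hPQ a r) * Q) - gn v a r Q

lemma gn_sub_rad (hQ : Q ≠ 0) (hPQ : ∀ b : K, P - C b * Q ≠ 0) (a : K) (r : ℤ) :
    gn v a r (P - C (ctr v hQ hPQ a r) * Q) - rad v hQ hPQ a r = gn v a r Q := by
  unfold rad
  ring

end tree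

end Pool.Agent.Helper51.RatTree

end

section

set_option autoImplicit false

set_option linter.style.haveILetI false

namespace Pool.Agent.Helper16

open Polynomial IntermediateField

namespace Place

variable {K N : Type} [Field K] [Field N] [Algebra K N]

/-- The residue of an element of `N` at a place; junk value `0` if the element is not regular. -/
noncomputable def res (v : Place K N) (x : N) : v.resField :=
  open scoped Classical in
  if h : x ∈ v.ring then IsLocalRing.residue v.ring ⟨x, h⟩ else 0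

theorem res_of_mem (v : Place K N) {x : N} (h : x ∈ v.ring) :
    v.res x = IsLocalRing.residue v.ring ⟨x, h⟩ := dif_pos h

section res

variable (v : Place K N)

theorem res_add {x y : N} (hx : x ∈ v.ring) (hy : y ∈ v.ring) :
    v.res (x + y) = v.res x + v.res y := by
  rw [res_of_mem v hx, res_of_mem v hy, res_of_mem v (add_mem hx hy), ← map_add]
  rfl

theorem res_mul {x y : N} (hx : x ∈ v.ring) (hy : y ∈ v.ring) :
    v.res (x * y) = v.res x * v.res y := by
  rw [res_of_mem v hx, res_of_mem v hy, res_of_mem v (mul_mem hx hy), ← map_mul]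
  rfl

theorem res_algebraMap (a : K) : v.res (algebraMap K N a) = algebraMap K v.resField a := by
  rw [res_of_mem v (v.ring.algebraMap_mem a)]
  rfl

theorem res_one : v.res 1 = 1 := by
  rw [res_of_mem v (one_mem _)]
  exact map_one _

theorem res_neg {x : N} (hx : x ∈ v.ring) : v.res (-x) = - v.res x := by
  rw [res_of_mem v hx, res_of_mem v (neg_mem hx), ← map_neg]
  rfl

theorem res_sub {x y : N} (hx : x ∈ v.ring) (hy : y ∈ v.ring) :
    v.res (x - y) = v.res x - v.res y := by
  rw [sub_eq_add_neg, res_add v hx (neg_mem hy), res_neg v hy, sub_eq_add_neg]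

theorem res_pow {x : N} (hx : x ∈ v.ring) (n : ℕ) : v.res (x ^ n) = v.res x ^ n := by
  induction n with
  | zero => simp [res_one]
  | succ n ih => rw [pow_succ, res_mul v (pow_mem hx n) hx, ih, pow_succ]

theorem res_eq_zero_iff {x : N} (hx : x ∈ v.ring) : v.res x = 0 ↔ v.val x < 1 := by
  rw [res_of_mem v hx, IsLocalRing.residue_eq_zero_iff, mem_maximalIdeal]

theorem res_aeval {x : N} (hx : x ∈ v.ring) (p : K[X]) :
    aeval x p ∈ v.ring ∧ v.res (aeval x p) = aeval (v.res x) p := by
  induction p using Polynomial.induction_on' with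
  | add p q hp hq =>
    rw [map_add, map_add]
    exact ⟨add_mem hp.1 hq.1, by rw [res_add v hp.1 hq.1, hp.2, hq.2]⟩
  | monomial n a =>
    rw [aeval_monomial, aeval_monomial]
    refine ⟨mul_mem (v.ring.algebraMap_mem a) (pow_mem hx n), ?_⟩
    rw [res_mul v (v.ring.algebraMap_mem a) (pow_mem hx n), res_algebraMap, res_pow v hx]

end res

end Place

end Pool.Agent.Helper16

end

section

set_option autoImplicit false

set_option linter.style.haveILetI false

namespace Pool.Agent.Helper45.FF

open Polynomial IntermediateField Pool.Agent.Helper16 TensorProduct IsDedekindDomain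

section final

variable {k K : Type} [Field k] [Field K] [Algebra k K]

theorem val_le_exp_iff (v : Place k K) (x : K) (hx : x ≠ 0) (n : ℤ) :
    v.val x ≤ WithZero.exp n ↔ -n ≤ v.ord x := by
  have h0 : v.val x ≠ 0 := by simpa using hx
  rw [Place.ord, ← WithZero.log_le_log h0 WithZero.exp_ne_zero, WithZero.log_exp]
  omega

theorem val_D_mul (v : Place k K) (D : Derivation k K K) (E : WithZero (Multiplicative ℤ))
    (x y : K) (hx : v.val (D x) ≤ E * v.val x) (hy : v.val (D y) ≤ E * v.val y) :
    v.val (D (x * y)) ≤ E * v.val (x * y) := by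
  rw [Derivation.leibniz]
  refine (v.val.map_add _ _).trans (max_le ?_ ?_)
  · rw [smul_eq_mul, map_mul, map_mul, mul_left_comm]
    exact mul_le_mul_right hy _
  · rw [smul_eq_mul, map_mul, map_mul, mul_comm (v.val x), mul_left_comm]
    exact mul_le_mul_right hx _

theorem val_D_inv (v : Place k K) (D : Derivation k K K) (E : WithZero (Multiplicative ℤ))
    (x : K) (hx : v.val (D x) ≤ E * v.val x) : v.val (D x⁻¹) ≤ E * v.val x⁻¹ := by
  by_cases h0 : x = 0
  · subst h0; simp
  have hv0 : v.val x ≠ 0 := by simpa using h0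
  rw [Derivation.leibniz_inv, smul_eq_mul, map_mul, Valuation.map_neg, map_pow, map_inv₀]
  calc (v.val x)⁻¹ ^ 2 * v.val (D x) ≤ (v.val x)⁻¹ ^ 2 * (E * v.val x) := mul_le_mul_right hx _
    _ = E * (v.val x)⁻¹ := by
      (clear * - hv0; field_simp)

theorem val_D_pow (v : Place k K) (D : Derivation k K K) (E : WithZero (Multiplicative ℤ))
    (x : K) (hx : v.val (D x) ≤ E * v.val x) (n : ℕ) : v.val (D (x ^ n)) ≤ E * v.val (x ^ n) := by
  induction n with
  | zero => simp
  | succ n ih =>
    rw [pow_succ]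
    exact val_D_mul v D E _ _ ih hx

theorem val_D_zpow (v : Place k K) (D : Derivation k K K) (E : WithZero (Multiplicative ℤ))
    (x : K) (hx : v.val (D x) ≤ E * v.val x) (n : ℤ) : v.val (D (x ^ n)) ≤ E * v.val (x ^ n) := by
  cases n with
  | ofNat n => simpa using val_D_pow v D E x hx n
  | negSucc n =>
    rw [zpow_negSucc]
    exact val_D_inv v D E _ (val_D_pow v D E x hx (n + 1))

theorem ord_D_ge_gen (v : Place k K) (D : Derivation k K K) (e : ℕ)
    (he : ∀ x, v.val x ≤ 1 → v.val (D x) ≤ WithZero.exp (e : ℤ)) (x : K) (hx : x ≠ 0)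
    (hDx : D x ≠ 0) : v.ord x - 1 - (e : ℤ) ≤ v.ord (D x) := by
  obtain ⟨π, hπ0, hπ⟩ := v.exists_uniformizer
  let E : WithZero (Multiplicative ℤ) := WithZero.exp ((e : ℤ) + 1)
  have h1 : v.val (D π) ≤ E * v.val π := by
    rw [hπ, ← WithZero.exp_add]
    refine (he π ?_).trans (by simp)
    rw [hπ]; exact exp_neg_one_lt.le
  let n : ℤ := v.ord x
  have hx0 : v.val x ≠ 0 := by simpa using hx
  have hvx : v.val x = WithZero.exp (-n) := by
    change v.val x = WithZero.exp (-(-WithZero.log (v.val x)))
    rw [neg_neg, WithZero.exp_log hx0]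
  let u : K := x * π ^ (-n)
  have hu : v.val u = 1 := by
    rw [map_mul, map_zpow₀, hπ, hvx, ← WithZero.exp_zsmul, ← WithZero.exp_add]
    simp
  have hxu : x = π ^ n * u := by
    change x = π ^ n * (x * π ^ (-n))
    rw [zpow_neg]
    (clear * - hπ0 hx; field_simp)
  have h2 : v.val (D u) ≤ E * v.val u := by
    rw [hu, mul_one]
    refine (he u hu.le).trans ?_
    rw [WithZero.exp_le_exp]
    omega
  have h3 := val_D_mul v D E _ _ (val_D_zpow v D E π h1 n) h2
  rw [← hxu, hvx, ← WithZero.exp_add, val_le_exp_iff v _ hDx] at h3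
  change n - 1 - (e : ℤ) ≤ _
  omega

end final

end Pool.Agent.Helper45.FF

end

section

set_option autoImplicit false

set_option linter.style.haveILetI false

namespace Pool.Agent.Helper45.S4

open Polynomial IntermediateField Pool.Agent.Helper16 Pool.Agent.Helper33 Pool.Agent.Helper45.FF

variable {k L : Type} [Field k] [Field L] [Algebra k L]

section der

variable (v : Place k L) (D : Derivation k L L)

theorem val_exp_lt_iff (x : L) (hx : x ≠ 0) (n : ℤ) : WithZero.exp n < v.val x ↔ v.ord x < -n := by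
  rw [← not_le, val_le_exp_iff v x hx, not_le]

end der

end Pool.Agent.Helper45.S4

end

section

set_option autoImplicit false

set_option linter.style.haveILetI false

namespace Pool.Agent.Helper16

open Polynomial IntermediateField IsDedekindDomain

section

variable {K N : Type} [Field K] [Field N] [Algebra K N]

/-- Functions with bounded pole order at a place. -/
def Place.filt (v : Place K N) (k : ℤ) : Submodule K N where
  carrier := {f | v.val f ≤ WithZero.exp k}
  add_mem' := fun {a b} ha hb => (v.val.map_add a b).trans (max_le ha hb)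
  zero_mem' := by
    change v.val 0 ≤ _
    rw [map_zero]
    exact zero_le
  smul_mem' := by
    intro c x hx
    change v.val (c • x) ≤ _
    rw [Algebra.smul_def, map_mul]
    calc v.val (algebraMap K N c) * v.val x ≤ 1 * v.val x := by
          gcongr
          exact v.val_algebraMap_le c
      _ = v.val x := one_mul _
      _ ≤ _ := hx

theorem Place.mem_filt (v : Place K N) (k : ℤ) (f : N) : f ∈ v.filt k ↔ v.val f ≤ WithZero.exp k :=
  Iff.rfl

theorem Place.finrank_le_cut (v : Place K N) (hv : Module.Finite K v.resField) (k : ℤ)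
    (W : Submodule K N) [FiniteDimensional K W] (hW : W ≤ v.filt (k + 1)) :
    Module.finrank K W ≤ Module.finrank K (W ⊓ v.filt k : Submodule K N) + v.deg := by
  obtain ⟨π, hπ0, hπ⟩ := v.exists_uniformizer
  have hmem : ∀ f ∈ W, f * π ^ (k + 1) ∈ v.ring := by
    intro f hf
    have h1 : v.val f ≤ WithZero.exp (k + 1) := hW hf
    rw [v.mem_ring, map_mul, map_zpow₀, hπ, ← WithZero.exp_zsmul]
    calc v.val f * WithZero.exp ((k + 1) • (-1 : ℤ)) ≤
          WithZero.exp (k + 1) * WithZero.exp ((k + 1) • (-1 : ℤ)) := by (clear * - h1; gcongr)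
      _ = 1 := by
          rw [← WithZero.exp_add]
          simp
  let T : W →ₗ[K] v.resField :=
    { toFun := fun f => v.res ((f : N) * π ^ (k + 1))
      map_add' := by
        intro f g
        rw [← v.res_add (hmem _ f.2) (hmem _ g.2), ← add_mul]
        rfl
      map_smul' := by
        intro c f
        have h1 : ((c • f : W) : N) * π ^ (k + 1) = algebraMap K N c * ((f : N) * π ^ (k + 1)) := by
          rw [Submodule.coe_smul, Algebra.smul_def, mul_assoc]
        rw [h1, v.res_mul (v.ring.algebraMap_mem c) (hmem _ f.2), v.res_algebraMap,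
          RingHom.id_apply, Algebra.smul_def] }
  have h1 := LinearMap.finrank_range_add_finrank_ker T
  have h2 : Module.finrank K (LinearMap.range T) ≤ v.deg := Submodule.finrank_le _
  have h3 : Module.finrank K (LinearMap.ker T) ≤
      Module.finrank K (W ⊓ v.filt k : Submodule K N) := by
    have h4 : ∀ f : LinearMap.ker T, ((f : W) : N) ∈ (W ⊓ v.filt k : Submodule K N) := by
      intro f
      refine ⟨(f : W).2, ?_⟩
      have h5 : v.res (((f : W) : N) * π ^ (k + 1)) = 0 := f.2
      rw [v.res_eq_zero_iff (hmem _ (f : W).2), map_mul, map_zpow₀, hπ, ← WithZero.exp_zsmul] at h5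
      change v.val ((f : W) : N) ≤ _
      by_cases h6 : ((f : W) : N) = 0
      · rw [h6, map_zero]
        exact zero_le
      · have h7 : v.val ((f : W) : N) ≠ 0 := by simpa using h6
        rw [← WithZero.exp_log h7] at h5 ⊢
        rw [← WithZero.exp_add, ← WithZero.exp_zero, WithZero.exp_lt_exp] at h5
        rw [WithZero.exp_le_exp]
        simp at h5
        (clear * - h5; omega)
    let ι : LinearMap.ker T →ₗ[K] (W ⊓ v.filt k : Submodule K N) :=
      { toFun := fun f => ⟨((f : W) : N), h4 f⟩
        map_add' := fun f g => rfl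
        map_smul' := fun c f => rfl }
    apply LinearMap.finrank_le_finrank_of_injective (f := ι)
    intro f g hfg
    have h8 : ((f : W) : N) = ((g : W) : N) :=
      congrArg (fun z : (W ⊓ v.filt k : Submodule K N) => (z : N)) hfg
    exact Subtype.ext (Subtype.ext h8)
  omega

theorem Place.finrank_le_cut_nat (v : Place K N) (hv : Module.Finite K v.resField) (k : ℕ)
    (W : Submodule K N) [FiniteDimensional K W] (hW : W ≤ v.filt k) :
    Module.finrank K W ≤ Module.finrank K (W ⊓ v.filt 0 : Submodule K N) + k * v.deg := by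
  induction k generalizing W with
  | zero =>
    have : W ⊓ v.filt 0 = W := inf_eq_left.2 (by simpa using hW)
    rw [this]
    omega
  | succ k ih =>
    have h1 := v.finrank_le_cut hv k W (by simpa using hW)
    haveI : FiniteDimensional K (W ⊓ v.filt (k : ℤ) : Submodule K N) :=
      Submodule.finiteDimensional_inf_left _ _
    have h2 := ih (W ⊓ v.filt (k : ℤ)) inf_le_right
    have h3 : (W ⊓ v.filt (k : ℤ)) ⊓ v.filt 0 ≤ W ⊓ v.filt 0 :=
      inf_le_inf_right _ inf_le_left
    have h4 : Module.finrank K ((W ⊓ v.filt (k : ℤ)) ⊓ v.filt 0 : Submodule K N) ≤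
        Module.finrank K (W ⊓ v.filt 0 : Submodule K N) := by
      haveI : FiniteDimensional K (W ⊓ v.filt 0 : Submodule K N) :=
        Submodule.finiteDimensional_inf_left _ _
      exact Submodule.finrank_mono h3
    have h5 : (k + 1) * v.deg = k * v.deg + v.deg := by ring
    omega

theorem finrank_le_cut_finset (hres : ∀ v : Place K N, Module.Finite K v.resField)
    (T : Finset (Place K N)) (k : Place K N → ℕ)
    (W : Submodule K N) [FiniteDimensional K W] (hW : ∀ v ∈ T, W ≤ v.filt (k v)) :
    Module.finrank K W ≤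
      Module.finrank K (W ⊓ ⨅ v ∈ T, v.filt 0 : Submodule K N) + ∑ v ∈ T, k v * v.deg := by
  classical
  induction T using Finset.induction_on with
  | empty =>
    have h0 : W ⊓ ⨅ v ∈ (∅ : Finset (Place K N)), v.filt 0 = W := by simp
    rw [h0]
    simp
  | insert a T ha ih =>
    have h1 := ih (fun v hv => hW v (Finset.mem_insert_of_mem hv))
    haveI : FiniteDimensional K (W ⊓ ⨅ v ∈ T, v.filt 0 : Submodule K N) :=
      Submodule.finiteDimensional_inf_left _ _
    have h2 := a.finrank_le_cut_nat (hres a) (k a) (W ⊓ ⨅ v ∈ T, v.filt 0)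
      (inf_le_left.trans (hW a (Finset.mem_insert_self _ _)))
    rw [Finset.sum_insert ha]
    have h3 : (W ⊓ ⨅ v ∈ T, v.filt 0) ⊓ a.filt 0 = W ⊓ ⨅ v ∈ insert a T, v.filt 0 := by
      rw [Finset.iInf_insert, inf_assoc, inf_comm (⨅ v ∈ T, v.filt 0)]
    rw [h3] at h2
    omega

end

end Pool.Agent.Helper16

end

section

set_option autoImplicit false

set_option linter.style.haveILetI false

namespace Pool.Agent.Helper47.RR

open Pool.Agent.Helper16

/-- Divisors. -/
abbrev Dv (k L : Type) [Field k] [Field L] [Algebra k L] : Type := Place k L →₀ ℤ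

variable {k L : Type} [Field k] [Field L] [Algebra k L]

/-- The degree of a divisor (all places are meant to have degree one). -/
noncomputable def degD (D : Dv k L) : ℤ := D.sum fun _ n => n

/-- The Riemann-Roch space of a divisor. -/
def Lsp (D : Dv k L) : Submodule k L := ⨅ v : Place k L, v.filt (D v)

theorem mem_Lsp (D : Dv k L) (f : L) :
    f ∈ Lsp D ↔ ∀ v : Place k L, v.val f ≤ WithZero.exp (D v) := by
  unfold Lsp
  rw [Submodule.mem_iInf]
  rfl

/-- Pre-adeles (repartitions): families of functions, indexed by the places, almost all of them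
regular at their place. -/
def Ad (k L : Type) [Field k] [Field L] [Algebra k L] : Submodule k (Place k L → L) where
  carrier := {α | {v : Place k L | ¬ v.val (α v) ≤ 1}.Finite}
  add_mem' := fun {a b} ha hb => (ha.union hb).subset (by
    intro v hv
    by_contra hcon
    simp only [Set.mem_union, Set.mem_ofPred_eq, not_or, not_not] at hcon
    exact hv ((v.val.map_add _ _).trans (max_le hcon.1 hcon.2)))
  zero_mem' := by
    simp
  smul_mem' := fun c a ha => ha.subset (by
    intro v hv hcon
    apply hv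
    change v.val (c • a v) ≤ 1
    rw [Algebra.smul_def, map_mul]
    exact mul_le_one' (v.val_algebraMap_le c) hcon)

/-- The pre-adeles bounded by a divisor. -/
def AdD (D : Dv k L) : Submodule k (Place k L → L) where
  carrier := {α | ∀ v : Place k L, v.val (α v) ≤ WithZero.exp (D v)}
  add_mem' := fun {_ _} ha hb v => (v.val.map_add _ _).trans (max_le (ha v) (hb v))
  zero_mem' := fun v => by simp
  smul_mem' := fun c a ha v => (v.filt (D v)).smul_mem c (ha v)

theorem mem_AdD (D : Dv k L) (α : Place k L → L) :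
    α ∈ AdD D ↔ ∀ v : Place k L, v.val (α v) ≤ WithZero.exp (D v) := Iff.rfl

/-- A weight on pre-adeles: `Om D` is the space of Weil differentials `ω` with `(ω) ≥ D`, i.e. the
space of `k`-linear forms on the pre-adeles which vanish on the pre-adeles bounded by `D` and on the
diagonal. -/
def Om (D : Dv k L) : Submodule k (Ad k L →ₗ[k] k) where
  carrier := {ω | (∀ α : Ad k L, (α : Place k L → L) ∈ AdD D → ω α = 0) ∧
    ∀ (α : Ad k L) (x : L), (∀ v, (α : Place k L → L) v = x) → ω α = 0}
  add_mem' := fun {a b} ha hb => ⟨fun α hα => by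
      rw [LinearMap.add_apply, ha.1 α hα, hb.1 α hα, add_zero],
    fun α x hα => by rw [LinearMap.add_apply, ha.2 α x hα, hb.2 α x hα, add_zero]⟩
  zero_mem' := ⟨fun _ _ => rfl, fun _ _ _ => rfl⟩
  smul_mem' := fun c a ha => ⟨fun α hα => by
      rw [LinearMap.smul_apply, ha.1 α hα, smul_zero],
    fun α x hα => by rw [LinearMap.smul_apply, ha.2 α x hα, smul_zero]⟩

/-- `ell D = dim L(D)`. -/
noncomputable def ell (D : Dv k L) : ℤ := Module.finrank k (Lsp D)

/-- The genus of the function field `L/k`. -/
noncomputable def genus (k L : Type) [Field k] [Field L] [Algebra k L] : ℤ :=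
  sSup (Set.range fun D : Dv k L => degD D - ell D) + 1

end Pool.Agent.Helper47.RR

end

section

set_option autoImplicit false

set_option linter.style.haveILetI false

namespace Pool.Agent.Helper31.RRK

open Polynomial IntermediateField Pool.Agent.Helper16 Pool.Agent.Helper33 Pool.Agent.Helper45.FF

open Pool.Agent.Helper45.S4 Pool.Agent.Helper47.RR

section cdeg

variable {k L : Type} [Field k] [Field L] [Algebra k L]

theorem degD_eq_sum (A : Dv k L) (S : Finset (Place k L)) (hS : A.support ⊆ S) :
    degD A = ∑ v ∈ S, A v := by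
  unfold degD
  exact Finsupp.sum_of_support_subset A hS _ (fun _ _ => rfl)

theorem degD_add' (A B : Dv k L) : degD (A + B) = degD A + degD B :=
  Finsupp.sum_add_index' (fun _ => rfl) (fun _ _ _ => rfl)

theorem degD_neg' (A : Dv k L) : degD (-A) = - degD A := by
  have := degD_add' A (-A)
  rw [add_neg_cancel] at this
  have h0 : degD (0 : Dv k L) = 0 := Finsupp.sum_zero_index
  (clear * - this h0; omega)

end cdeg

section tower

variable {k L M : Type} [Field k] [Field L] [Field M] [Algebra k L] [Algebra k M] [Algebra L M]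
  [IsScalarTower k L M]

variable [FiniteDimensional L M]

theorem degD_nonneg {A : Dv k M} (h : ∀ w, 0 ≤ A w) : 0 ≤ degD A := by
  unfold degD
  exact Finset.sum_nonneg (fun w _ => h w)

end tower

end Pool.Agent.Helper31.RRK

end

section

set_option autoImplicit false

set_option linter.style.haveILetI false

namespace Pool.Agent.Helper47.RR

open Pool.Agent.Helper16 Pool.Agent.Helper45.FF Pool.Agent.Helper45.S4 Polynomial IntermediateField

variable {k L : Type} [Field k] [Field L] [Algebra k L]

theorem degD_zero : degD (0 : Dv k L) = 0 := Finsupp.sum_zero_index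

theorem degD_add (D E : Dv k L) : degD (D + E) = degD D + degD E :=
  Finsupp.sum_add_index' (fun _ => rfl) (fun _ _ _ => rfl)

theorem degD_single (v : Place k L) (n : ℤ) : degD (Finsupp.single v n : Dv k L) = n :=
  Finsupp.sum_single_index rfl

theorem degD_neg (D : Dv k L) : degD (-D) = - degD D := by
  have h := degD_add D (-D)
  rw [add_neg_cancel, degD_zero] at h
  omega

theorem degD_sub (D E : Dv k L) : degD (D - E) = degD D - degD E := by
  rw [sub_eq_add_neg, degD_add, degD_neg]
  ring

theorem degD_nsmul (n : ℕ) (D : Dv k L) : degD (n • D) = n * degD D := by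
  induction n with
  | zero => simp [degD_zero]
  | succ n ih =>
    rw [succ_nsmul, degD_add, ih]
    push_cast
    ring

theorem degD_nonneg {D : Dv k L} (h : 0 ≤ D) : 0 ≤ degD D :=
  Finset.sum_nonneg fun v _ => h v

theorem degD_mono {D E : Dv k L} (h : D ≤ E) : degD D ≤ degD E := by
  have h1 : 0 ≤ degD (E - D) := degD_nonneg (sub_nonneg.2 h)
  rw [degD_sub] at h1
  omega

theorem eq_of_le_of_degD {D E : Dv k L} (h : D ≤ E) (hd : degD E ≤ degD D) : D = E := by
  classical
  have h1 : 0 ≤ E - D := sub_nonneg.2 h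
  have h2 : degD (E - D) = 0 := by
    have := degD_nonneg h1
    rw [degD_sub] at this ⊢
    omega
  have h3 : ∀ v ∈ (E - D).support, (E - D) v = 0 :=
    (Finset.sum_eq_zero_iff_of_nonneg fun v _ => h1 v).1 h2
  have h4 : E - D = 0 := by
    ext v
    by_cases hv : v ∈ (E - D).support
    · exact h3 v hv
    · exact Finsupp.notMem_support_iff.1 hv
  exact (sub_eq_zero.1 h4).symm

theorem degD_eq_sum {D : Dv k L} (S : Finset (Place k L)) (hS : ∀ v, v ∉ S → D v = 0) :
    degD D = ∑ v ∈ S, D v := by
  classical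
  refine Finsupp.sum_of_support_subset D ?_ _ (fun _ _ => rfl)
  intro v hv
  by_contra h
  exact (Finsupp.mem_support_iff.1 hv) (hS v h)

theorem mem_Lsp_iff_ord (D : Dv k L) {f : L} (hf : f ≠ 0) :
    f ∈ Lsp D ↔ ∀ v : Place k L, - D v ≤ v.ord f := by
  rw [mem_Lsp]
  exact forall_congr' fun v => val_le_exp_iff v f hf (D v)

theorem Lsp_mono {D E : Dv k L} (h : D ≤ E) : Lsp D ≤ Lsp E := by
  intro f hf
  rw [mem_Lsp] at hf ⊢
  exact fun v => (hf v).trans (WithZero.exp_le_exp.2 (h v))

/-- the residue map on functions with bounded pole order -/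
noncomputable def cutMap (v : Place k L) (n : ℤ) (W : Submodule k L) (hW : W ≤ v.filt (n + 1))
    (π : L) (hπ : v.val π = WithZero.exp (-1 : ℤ)) : W →ₗ[k] v.resField :=
  have hmem : ∀ f ∈ W, f * π ^ (n + 1) ∈ v.ring := by
    intro f hf
    have h1 : v.val f ≤ WithZero.exp (n + 1) := hW hf
    rw [v.mem_ring, map_mul, map_zpow₀, hπ, ← WithZero.exp_zsmul]
    calc v.val f * WithZero.exp ((n + 1) • (-1 : ℤ)) ≤
          WithZero.exp (n + 1) * WithZero.exp ((n + 1) • (-1 : ℤ)) := by (clear * - h1; gcongr)
      _ = 1 := by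
          rw [← WithZero.exp_add]
          simp
  { toFun := fun f => v.res ((f : L) * π ^ (n + 1))
    map_add' := by
      intro f g
      rw [← v.res_add (hmem _ f.2) (hmem _ g.2), ← add_mul]
      rfl
    map_smul' := by
      intro c f
      have h1 : ((c • f : W) : L) * π ^ (n + 1) = algebraMap k L c * ((f : L) * π ^ (n + 1)) := by
        rw [Submodule.coe_smul, Algebra.smul_def, mul_assoc]
      rw [h1, v.res_mul (v.ring.algebraMap_mem c) (hmem _ f.2), v.res_algebraMap,
        RingHom.id_apply, Algebra.smul_def] }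

theorem ker_cutMap (v : Place k L) (n : ℤ) (W : Submodule k L) (hW : W ≤ v.filt (n + 1))
    (π : L) (hπ : v.val π = WithZero.exp (-1 : ℤ)) (f : W) :
    f ∈ LinearMap.ker (cutMap v n W hW π hπ) ↔ (f : L) ∈ v.filt n := by
  have hmem : (f : L) * π ^ (n + 1) ∈ v.ring := by
    have h1 : v.val (f : L) ≤ WithZero.exp (n + 1) := hW f.2
    rw [v.mem_ring, map_mul, map_zpow₀, hπ, ← WithZero.exp_zsmul]
    calc v.val (f : L) * WithZero.exp ((n + 1) • (-1 : ℤ)) ≤
          WithZero.exp (n + 1) * WithZero.exp ((n + 1) • (-1 : ℤ)) := by (clear * - h1; gcongr)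
      _ = 1 := by
          rw [← WithZero.exp_add]
          simp
  rw [LinearMap.mem_ker]
  change v.res ((f : L) * π ^ (n + 1)) = 0 ↔ _
  rw [v.res_eq_zero_iff hmem, map_mul, map_zpow₀, hπ, ← WithZero.exp_zsmul, v.mem_filt]
  by_cases h6 : (f : L) = 0
  · rw [h6, map_zero, zero_mul]
    exact ⟨fun _ => zero_le, fun _ => zero_lt_one⟩
  · have h7 : v.val (f : L) ≠ 0 := by simpa using h6
    rw [← WithZero.exp_log h7, ← WithZero.exp_add, ← WithZero.exp_zero, WithZero.exp_lt_exp,
      WithZero.exp_le_exp]
    simp only [smul_eq_mul]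
    omega

theorem finite_of_cut (v : Place k L) (hv : Module.Finite k v.resField) (n : ℤ)
    (W W' : Submodule k L) (hW : W ≤ v.filt (n + 1)) (hW' : W ⊓ v.filt n ≤ W')
    [FiniteDimensional k W'] : FiniteDimensional k W := by
  obtain ⟨π, hπ0, hπ⟩ := v.exists_uniformizer
  let T := cutMap v n W hW π hπ
  have h1 : ∀ f : LinearMap.ker T, ((f : W) : L) ∈ W' := fun f =>
    hW' ⟨(f : W).2, (ker_cutMap v n W hW π hπ f).1 f.2⟩
  let ι : LinearMap.ker T →ₗ[k] W' :=
    { toFun := fun f => ⟨((f : W) : L), h1 f⟩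
      map_add' := fun f g => rfl
      map_smul' := fun c f => rfl }
  have hι : Function.Injective ι := by
    intro f g hfg
    have h8 : ((f : W) : L) = ((g : W) : L) := congrArg (fun z : W' => (z : L)) hfg
    exact Subtype.ext (Subtype.ext h8)
  haveI : FiniteDimensional k (LinearMap.ker T) := FiniteDimensional.of_injective ι hι
  haveI : FiniteDimensional k (W ⧸ LinearMap.ker T) :=
    FiniteDimensional.of_injective _ (LinearMap.ker_eq_bot.1 (Submodule.ker_liftQ_eq_bot' _ T rfl))
  exact Module.Finite.of_submodule_quotient (LinearMap.ker T)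

theorem Lsp_le_filt (D : Dv k L) (v : Place k L) : Lsp D ≤ v.filt (D v) :=
  iInf_le (fun v : Place k L => v.filt (D v)) v

theorem Lsp_inf_filt (D : Dv k L) (v : Place k L) (n : ℤ) (hn : 0 ≤ n) :
    Lsp (D + Finsupp.single v n) ⊓ v.filt (D v) = Lsp D := by
  classical
  apply le_antisymm
  · rintro f ⟨h1, h2⟩
    rw [SetLike.mem_coe, mem_Lsp] at h1
    rw [mem_Lsp]
    intro w
    by_cases hw : w = v
    · subst hw
      exact h2
    · have := h1 w
      rwa [Finsupp.add_apply, Finsupp.single_eq_of_ne hw, add_zero] at this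
  · refine le_inf (Lsp_mono ?_) (Lsp_le_filt D v)
    intro w
    rw [Finsupp.add_apply]
    have : 0 ≤ (Finsupp.single v n : Dv k L) w := by
      rw [Finsupp.single_apply]
      split_ifs <;> omega
    omega

theorem ell_nonneg (D : Dv k L) : 0 ≤ ell D := Int.natCast_nonneg _

end Pool.Agent.Helper47.RR

end

section

set_option autoImplicit false

set_option linter.style.haveILetI false

namespace Pool.Agent.Helper47.RR

open Pool.Agent.Helper16 Pool.Agent.Helper45.S4

variable {k L : Type} [Field k] [Field L] [Algebra k L]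

theorem AdD_le_Ad (D : Dv k L) : AdD D ≤ Ad k L := by
  intro α hα
  refine D.support.finite_toSet.subset ?_
  intro v hv
  by_contra hcon
  apply hv
  have h := hα v
  have h0 : D v = 0 := by simpa using hcon
  rwa [h0, WithZero.exp_zero] at h

theorem Om_anti {D D' : Dv k L} (h : D ≤ D') : Om D' ≤ Om D := by
  intro ω hω
  refine ⟨fun α hα => hω.1 α ?_, hω.2⟩
  intro v
  exact (hα v).trans (WithZero.exp_le_exp.2 (h v))

theorem le_add_single (D : Dv k L) (v : Place k L) : D ≤ D + Finsupp.single v 1 := by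
  classical
  intro w
  rw [Finsupp.add_apply, Finsupp.single_apply]
  split_ifs <;> omega

end Pool.Agent.Helper47.RR

end

section

set_option autoImplicit false

set_option linter.style.haveILetI false

namespace Pool.Agent.Helper47.RR

open Pool.Agent.Helper16 Pool.Agent.Helper45.S4

variable {k L : Type} [Field k] [Field L] [Algebra k L]

/-- induction along `D ≤ D'` -/
theorem le_induction {D D' : Dv k L} (h : D ≤ D') (P : Dv k L → Prop) (hbase : P D')
    (hstep : ∀ E : Dv k L, ∀ v : Place k L, D ≤ E → P (E + Finsupp.single v 1) → P E) : P D := by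
  classical
  obtain ⟨F, rfl⟩ : ∃ F : Dv k L, D' = D + F := ⟨D' - D, by abel⟩
  have hF : 0 ≤ F := by
    intro v
    have := h v
    rw [Finsupp.add_apply] at this
    rw [Finsupp.zero_apply]
    omega
  have key : ∀ n : ℕ, ∀ F : Dv k L, 0 ≤ F → degD F = n → P (D + F) → P D := by
    intro n
    induction n with
    | zero =>
      intro F hF hd hP
      have h0 : F = 0 := by
        ext v
        by_contra hv
        have h1 : ∀ w ∈ F.support, 0 ≤ F w := fun w _ => hF w
        have h2 := (Finset.sum_eq_zero_iff_of_nonneg h1).1 (by exact_mod_cast hd) v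
          (Finsupp.mem_support_iff.2 hv)
        exact hv h2
      rwa [h0, add_zero] at hP
    | succ n ih =>
      intro F hF hd hP
      have hne : F ≠ 0 := by
        rintro rfl
        simp [degD] at hd
        omega
      obtain ⟨v, hv⟩ := Finsupp.ne_iff.1 hne
      have hv1 : 1 ≤ F v := by
        have := hF v
        rw [Finsupp.zero_apply] at this hv
        omega
      have hF' : 0 ≤ F - Finsupp.single v 1 := by
        intro w
        rw [Finsupp.sub_apply, Finsupp.single_apply, Finsupp.zero_apply]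
        have := hF w
        rw [Finsupp.zero_apply] at this
        split_ifs with hw
        · rw [← hw]; omega
        · omega
      apply ih (F - Finsupp.single v 1) hF'
      · have h1 : degD F = degD (F - Finsupp.single v 1) + 1 := by
          conv_lhs => rw [← sub_add_cancel F (Finsupp.single v 1)]
          rw [degD_add, degD_single]
        rw [h1] at hd
        push_cast at hd
        omega
      · apply hstep (D + (F - Finsupp.single v 1)) v (by
          intro w
          rw [Finsupp.add_apply]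
          have := hF' w
          rw [Finsupp.zero_apply] at this
          omega)
        rwa [add_assoc, sub_add_cancel]
  have hdnn : 0 ≤ degD F := Finset.sum_nonneg fun w _ => hF w
  exact key (degD F).toNat F hF (by rw [Int.toNat_of_nonneg hdnn]) hbase

end Pool.Agent.Helper47.RR

end

section

set_option autoImplicit false

set_option linter.style.haveILetI false

namespace Pool.Agent.Helper47.RR

open Pool.Agent.Helper16 Pool.Agent.Helper45.S4

variable {k L : Type} [Field k] [Field L] [Algebra k L]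

variable [IsAlgClosed k]

theorem Om_sup {D E : Dv k L} {ω : Ad k L →ₗ[k] k} (h1 : ω ∈ Om D) (h2 : ω ∈ Om E) :
    ω ∈ Om (D ⊔ E) := by
  classical
  refine ⟨fun α hα => ?_, h1.2⟩
  let β : Place k L → L := fun v => if E v ≤ D v then (α : Place k L → L) v else 0
  let γ : Place k L → L := fun v => if E v ≤ D v then 0 else (α : Place k L → L) v
  have hβ : β ∈ AdD D := by
    intro v
    simp only [β]
    split_ifs with h
    · have := hα v
      rwa [Finsupp.sup_apply, sup_eq_left.2 h] at this
    · rw [map_zero]; exact zero_le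
  have hγ : γ ∈ AdD E := by
    intro v
    simp only [γ]
    split_ifs with h
    · rw [map_zero]; exact zero_le
    · have := hα v
      rwa [Finsupp.sup_apply, sup_eq_right.2 (le_of_not_ge h)] at this
  have hsum : α = (⟨β, AdD_le_Ad D hβ⟩ : Ad k L) + ⟨γ, AdD_le_Ad E hγ⟩ := by
    refine Subtype.ext (funext fun v => ?_)
    change (α : Place k L → L) v = β v + γ v
    simp only [β, γ]
    split_ifs <;> simp
  rw [hsum, map_add, h1.1 _ hβ, h2.1 _ hγ, add_zero]

end Pool.Agent.Helper47.RR

end

section

set_option autoImplicit false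

set_option linter.style.haveILetI false

namespace Pool.Agent.Helper31.RRK

open Polynomial IntermediateField Pool.Agent.Helper16 Pool.Agent.Helper33 Pool.Agent.Helper45.FF

open Pool.Agent.Helper45.S4 Pool.Agent.Helper47.RR

section semilinear

variable {k L k' L' : Type} [Field k] [Field L] [Algebra k L] [Field k'] [Field L'] [Algebra k' L']

/-- Transport of a place along a semilinear isomorphism. -/
def plMap (τ : k ≃+* k') (e : L ≃+* L') (h : ∀ c, e (algebraMap k L c) = algebraMap k' L' (τ c))
    (v : Place k L) : Place k' L' where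
  val := v.val.comap (e.symm : L' →+* L)
  surj := v.surj.comp e.symm.surjective
  triv := fun a ha => by
    obtain ⟨b, rfl⟩ := τ.surjective a
    have hb : b ≠ 0 := by
      rintro rfl
      simp at ha
    change v.val (e.symm (algebraMap k' L' (τ b))) = 1
    rw [← h, e.symm_apply_apply]
    exact v.triv b hb

/-- Places correspond to places. -/
def plEquiv (τ : k ≃+* k') (e : L ≃+* L')
    (h : ∀ c, e (algebraMap k L c) = algebraMap k' L' (τ c)) : Place k L ≃ Place k' L' where
  toFun := plMap τ e h
  invFun := plMap τ.symm e.symm (semilin_symm h)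
  left_inv := fun v => by
    apply Place.ext_val
    ext x
    change v.val (e.symm (e x)) = v.val x
    rw [e.symm_apply_apply]
  right_inv := fun v => by
    apply Place.ext_val
    ext x
    change v.val (e (e.symm x)) = v.val x
    rw [e.apply_symm_apply]

theorem degD_equivMapDomain (f : Place k L ≃ Place k' L') (D : Dv k L) :
    degD (Finsupp.equivMapDomain f D : Dv k' L') = degD D := by
  unfold degD
  rw [Finsupp.sum_equivMapDomain]

theorem ell_equivMapDomain (τ : k ≃+* k') (e : L ≃+* L')
    (h : ∀ c, e (algebraMap k L c) = algebraMap k' L' (τ c)) (D : Dv k L) :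
    ell (Finsupp.equivMapDomain (plEquiv τ e h) D : Dv k' L') = ell D := by
  unfold ell
  have hmem : ∀ x : L, x ∈ Lsp D ↔
      e x ∈ Lsp (Finsupp.equivMapDomain (plEquiv τ e h) D : Dv k' L') := by
    intro x
    rw [mem_Lsp, mem_Lsp]
    constructor
    · intro hx w
      obtain ⟨v, rfl⟩ := (plEquiv τ e h).surjective w
      rw [Finsupp.equivMapDomain_apply, Equiv.symm_apply_apply]
      change v.val (e.symm (e x)) ≤ _
      rw [e.symm_apply_apply]
      exact hx v
    · intro hx v
      have h1 := hx (plEquiv τ e h v)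
      rw [Finsupp.equivMapDomain_apply, Equiv.symm_apply_apply] at h1
      change v.val (e.symm (e x)) ≤ _ at h1
      rwa [e.symm_apply_apply] at h1
  let j : Lsp D ≃+ Lsp (Finsupp.equivMapDomain (plEquiv τ e h) D : Dv k' L') :=
    { toFun := fun x => ⟨e x, (hmem x).1 x.2⟩
      invFun := fun y => ⟨e.symm y, by
        rw [hmem, e.apply_symm_apply]
        exact y.2⟩
      left_inv := fun x => Subtype.ext (e.symm_apply_apply _)
      right_inv := fun x => Subtype.ext (e.apply_symm_apply _)
      map_add' := fun x y => Subtype.ext (map_add e _ _) }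
  have h1 : Cardinal.lift.{0} (Module.rank k (Lsp D)) = Cardinal.lift.{0} (Module.rank k'
      (Lsp (Finsupp.equivMapDomain (plEquiv τ e h) D : Dv k' L'))) := by
    apply lift_rank_eq_of_equiv_equiv τ j τ.bijective
    intro c x
    apply Subtype.ext
    change e (c • (x : L)) = τ c • e (x : L)
    rw [Algebra.smul_def, Algebra.smul_def, map_mul, h]
  unfold Module.finrank
  rw [Cardinal.lift_id, Cardinal.lift_id] at h1
  rw [h1]

/-- **Semilinear invariance of the genus.** -/
theorem genus_eq_of_semilinear (τ : k ≃+* k') (e : L ≃+* L')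
    (h : ∀ c, e (algebraMap k L c) = algebraMap k' L' (τ c)) : genus k L = genus k' L' := by
  unfold genus
  congr 2
  ext n
  constructor
  · rintro ⟨D, rfl⟩
    refine ⟨Finsupp.equivMapDomain (plEquiv τ e h) D, ?_⟩
    change degD (Finsupp.equivMapDomain (plEquiv τ e h) D : Dv k' L') - ell _ = _
    rw [degD_equivMapDomain, ell_equivMapDomain]
  · rintro ⟨D, rfl⟩
    refine ⟨Finsupp.equivMapDomain (plEquiv τ.symm e.symm (semilin_symm h)) D, ?_⟩
    change degD (Finsupp.equivMapDomain _ D : Dv k L) - ell _ = _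
    rw [degD_equivMapDomain, ell_equivMapDomain]

theorem genus_eq_of_algEquiv {M : Type} [Field M] [Algebra k M] (e : L ≃ₐ[k] M) :
    genus k L = genus k M :=
  genus_eq_of_semilinear (RingEquiv.refl k) e.toRingEquiv (fun c => e.commutes c)

end semilinear

section frob

variable {k L : Type} [Field k] [Field L] [Algebra k L]

theorem genus_powField [IsAlgClosed k] (p m : ℕ) [ExpChar k p] [ExpChar L p] :
    genus k L = genus k (powField k L p m) := by
  let f : L →+* powField k L p m := (iterateFrobenius L p m).codRestrict (powField k L p m)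
    (fun x => (mem_powField p m _).2 ⟨x, rfl⟩)
  have hf : ∀ x, ((f x : powField k L p m) : L) = x ^ p ^ m := fun x => rfl
  have hbij : Function.Bijective f := by
    refine ⟨f.injective, ?_⟩
    rintro ⟨x, hx⟩
    obtain ⟨y, hy⟩ := (mem_powField p m _).1 hx
    exact ⟨y, Subtype.ext hy⟩
  refine genus_eq_of_semilinear (iterateFrobeniusEquiv k p m) (RingEquiv.ofBijective f hbij) ?_
  intro c
  apply Subtype.ext
  change (algebraMap k L c) ^ p ^ m = algebraMap k L (c ^ p ^ m)
  rw [map_pow]

end frob

end Pool.Agent.Helper31.RRK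

end

section

set_option autoImplicit false

set_option linter.style.haveILetI false

namespace Pool.Agent.Helper47.EN

open Pool.Agent.Helper16 Pool.Agent.Helper45.S4 Pool.Agent.Helper47.RR IntermediateField

open Pool.Agent.Helper45.FF

variable {k L M : Type} [Field k] [Field L] [Field M] [Algebra k L] [Algebra k M]

theorem Lsp_add {D E : Dv k M} (hD : ∀ v, 0 ≤ D v) (hE : ∀ v, 0 ≤ E v) {f g : M}
    (hf : f ∈ Lsp D) (hg : g ∈ Lsp E) : f - g ∈ Lsp (D + E) := by
  rw [mem_Lsp] at hf hg ⊢
  intro v
  refine (v.val.map_sub _ _).trans (max_le ?_ ?_)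
  · refine (hf v).trans (WithZero.exp_le_exp.2 ?_)
    rw [Finsupp.add_apply]
    linarith [hE v]
  · refine (hg v).trans (WithZero.exp_le_exp.2 ?_)
    rw [Finsupp.add_apply]
    (clear * - hD; linarith [hD v])

end Pool.Agent.Helper47.EN

end
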