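import Pool.Agent.Helper23.MB.L00_ab0
import Pool.Agent.Helper23.MB.L00_ab4
import Pool.Agent.Helper23.MB.L00_ab6
import Pool.Agent.Helper23.MB.L00_ab8
import Pool.Agent.Helper23.MB.L00_abc0

/-!
Parts of Helper67.EN.NormSep, Helper36.S5.Lead, Helper36.S5.LemmaR, Helper36.S5.LemmaR2, Helper36.S5.Rigid, Helper36.S5.General, Helper36.S5.Mob, Helper36.S5.Core
-/

attribute [-simp] Valuation.IsUniformizer.val
attribute [local instance 5000]
  Pool.Agent.Helper23.MB.Inst.rCharZero Pool.Agent.Helper23.MB.Inst.rALM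
  Pool.Agent.Helper23.MB.Inst.rARM Pool.Agent.Helper23.MB.Inst.rALSM
  Pool.Agent.Helper23.MB.Inst.rARSM Pool.Agent.Helper23.MB.Inst.rARRLE
  Pool.Agent.Helper23.MB.Inst.rALRLE Pool.Agent.Helper23.MB.Inst.rARRLT
  Pool.Agent.Helper23.MB.Inst.rALRLT Pool.Agent.Helper23.MB.Inst.rPMRLT
  Pool.Agent.Helper23.MB.Inst.rMPRLT Pool.Agent.Helper23.MB.Inst.rPMM
  Pool.Agent.Helper23.MB.Inst.rMPM Pool.Agent.Helper23.MB.Inst.rPMSM
  Pool.Agent.Helper23.MB.Inst.rMPSM Pool.Agent.Helper23.MB.Inst.rEAOL
  Pool.Agent.Helper23.MB.Inst.rIOR Pool.Agent.Helper23.MB.Inst.rISOR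
  Pool.Agent.Helper23.MB.Inst.rNZD Pool.Agent.Helper23.MB.Inst.zCharZero
  Pool.Agent.Helper23.MB.Inst.zALM Pool.Agent.Helper23.MB.Inst.zARM
  Pool.Agent.Helper23.MB.Inst.zIOR Pool.Agent.Helper23.MB.Inst.zISOR
  Pool.Agent.Helper23.MB.Inst.zNZD Pool.Agent.Helper23.MB.Inst.qCharZero
  Pool.Agent.Helper23.MB.Inst.free Pool.Agent.Helper23.MB.Inst.faith
  Pool.Agent.Helper23.MB.Inst.torsionFree Pool.Agent.Helper23.MB.Inst.rfFaith
  Pool.Agent.Helper23.MB.Inst.hAdd Pool.Agent.Helper23.MB.Inst.hAddM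
  Pool.Agent.Helper23.MB.Inst.hMul Pool.Agent.Helper23.MB.Inst.hMon
  Pool.Agent.Helper23.MB.Inst.hZero Pool.Agent.Helper23.MB.Inst.hOne
  Pool.Agent.Helper23.MB.Inst.hMZ Pool.Agent.Helper23.MB.Inst.hRing
  Pool.Agent.Helper23.MB.Inst.aAdd Pool.Agent.Helper23.MB.Inst.aAddM
  Pool.Agent.Helper23.MB.Inst.aMul Pool.Agent.Helper23.MB.Inst.aMon
  Pool.Agent.Helper23.MB.Inst.aZero Pool.Agent.Helper23.MB.Inst.aOne
  Pool.Agent.Helper23.MB.Inst.aMZ Pool.Agent.Helper23.MB.Inst.aRing

namespace Pool.Agent.Helper16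
end Pool.Agent.Helper16
namespace Pool.Agent.Helper45.S4
end Pool.Agent.Helper45.S4

section

set_option autoImplicit false

set_option linter.style.haveILetI false

set_option linter.unusedSectionVars false

namespace Pool.Agent.Helper47.RR

open Pool.Agent.Helper16 Pool.Agent.Helper45.S4

section gal

variable {k L N : Type} [Field k] [Field L] [Field N] [Algebra k L] [Algebra k N] [Algebra L N]
  [IsScalarTower k L N]

theorem place_ord_pow {k L : Type} [Field k] [Field L] [Algebra k L] (v : Place k L) (x : L)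
    (n : ℕ) : v.ord (x ^ n) = n * v.ord x := by
  unfold Place.ord
  rw [map_pow, WithZero.log_pow]
  simp

end gal

end Pool.Agent.Helper47.RR

end

section

set_option autoImplicit false

open Finset Polynomial

namespace Pool.Agent.Helper36.S5

variable {R : Type*} [CommRing R]

/-- padding: `hsub` at a larger index -/
lemma hsub_pad (A B : R[X]) (n m : ℕ) (q : R[X]) (hq : q.natDegree ≤ n) (h : n ≤ m) :
    hsub A B m q = hsub A B n q * B ^ (m - n) := by
  rw [hsub, hsub, sum_mul]
  have hsub' : range (n + 1) ⊆ range (m + 1) := range_subset_range.mpr (by omega)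
  rw [← sum_subset hsub' (fun i _ hi => ?_)]
  · refine sum_congr rfl fun i hi => ?_
    have hi' : i ≤ n := Nat.lt_succ_iff.mp (mem_range.mp hi)
    rw [mul_assoc, mul_assoc, ← pow_add]
    congr 3; omega
  · have : q.coeff i = 0 := coeff_eq_zero_of_natDegree_lt (by
      simp only [mem_range, not_lt] at hi; omega)
    rw [this]; simp

end Pool.Agent.Helper36.S5

end

section

set_option autoImplicit false

open Finset Polynomial

namespace Pool.Agent.Helper36.S5

variable {κ : Type*} [Field κ]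

/-- order of the Wronskian at a zero of one of the two polynomials -/
lemma wr_order [CharZero κ] (A B : κ[X]) (z : κ) (hA : A.eval z = 0) (hA0 : A ≠ 0)
    (hB : B.eval z ≠ 0) :
    ∃ (m : ℕ) (S W₂ : κ[X]), A = (X - C z) ^ (m + 1) * S ∧ S.eval z ≠ 0 ∧
      wr A B = (X - C z) ^ m * W₂ ∧ W₂.eval z ≠ 0 := by
  obtain ⟨S, hS, hS'⟩ := exists_eq_pow_rootMultiplicity_mul_and_not_dvd A hA0 z
  have hm : 0 < A.rootMultiplicity z := (rootMultiplicity_pos hA0).mpr hA
  obtain ⟨m, hm'⟩ : ∃ m, A.rootMultiplicity z = m + 1 := ⟨_, (Nat.succ_pred_eq_of_pos hm).symm⟩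
  rw [hm'] at hS
  have hSz : S.eval z ≠ 0 := fun h => hS' (dvd_iff_isRoot.mpr h)
  refine ⟨m, S, ((m + 1 : ℕ) : κ[X]) * S * B + (X - C z) * (derivative S * B - S * derivative B),
    hS, hSz, ?_, ?_⟩
  · rw [wr, hS, derivative_mul, derivative_pow]
    simp only [derivative_sub, derivative_X, derivative_C, sub_zero, mul_one,
      Nat.add_sub_cancel]
    rw [pow_succ]
    simp only [map_natCast]
    ring
  · simp only [eval_add, eval_mul, eval_sub, eval_X, eval_C, sub_self, zero_mul, add_zero,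
      eval_natCast]
    refine mul_ne_zero (mul_ne_zero ?_ hSz) hB
    exact_mod_cast Nat.succ_ne_zero m

lemma wr_comm (A B : κ[X]) : wr B A = - wr A B := by
  rw [wr, wr]; ring

namespace Spec

variable {d : ℕ} {A B : κ[X]} {α β : κ}

lemma leadW (h : Spec d A B α β) : Lead (wr A B) (2 * (d - 1)) (α * β) := by
  have h1 := lead_wr h.lA h.lB
  obtain ⟨s, hs⟩ : ∃ s, d = s + 2 := ⟨d - 2, by have := h.hd; omega⟩
  subst hs
  have e : (((s + 2 : ℕ) : κ) - ((s + 2 - 1 : ℕ) : κ)) * (α * β) = α * β := by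
    rw [show s + 2 - 1 = s + 1 by omega]
    push_cast
    ring
  rw [e] at h1
  have e2 : s + 2 + (s + 2 - 1) = 2 * (s + 2 - 1) + 1 := by omega
  constructor
  · by_cases hw : wr A B = 0
    · rw [hw]; simp
    · have := h1.1
      rw [natDegree_X_mul hw, e2] at this
      omega
  · rw [← coeff_X_mul, ← e2]
    exact h1.2

end Spec

end Pool.Agent.Helper36.S5

end

section

set_option autoImplicit false

open Finset Polynomial

namespace Pool.Agent.Helper36.S5

variable {κ : Type*} [Field κ]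

lemma wr_sub_mul (A B : κ[X]) (z : κ) : wr (A - C z * B) B = wr A B := by
  rw [wr, wr, derivative_sub, derivative_C_mul]; ring

lemma hsub_pow [Infinite κ] (A B : κ[X]) (hB : B ≠ 0) (p : κ[X]) (m k : ℕ)
    (hp : p.natDegree ≤ m) : hsub A B (k * m) (p ^ k) = (hsub A B m p) ^ k := by
  induction k with
  | zero =>
    rw [pow_zero, pow_zero, zero_mul]
    rw [hsub_C A B 1 (by simp)]
  | succ k ih =>
    have e : (k + 1) * m = k * m + m := by ring
    rw [e, pow_succ, hsub_mul A B hB (p ^ k) p (k * m) m (natDegree_pow_le_of_le k hp) hp, ih,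
      pow_succ]

lemma hsub_linear (A B : κ[X]) (z : κ) : hsub A B 1 (X - C z) = A - C z * B := by
  rw [hsub]
  simp [sum_range_succ, coeff_X, coeff_C]
  ring

/-- Case `α = β` (multiplier one) -/
lemma Spec.lemmaR_one [IsAlgClosed κ] [CharZero κ] {d : ℕ} {A B : κ[X]} {α : κ}
    (h : Spec d A B α α) {U : κ[X]} (hU : U ≠ 0) (l : ℕ) (hl : 1 ≤ l)
    (ha : U.natDegree ≤ 2 * l)
    (heq : hsub A B U.natDegree U * B ^ (2 * l - U.natDegree) = (wr A B) ^ l * U) : False := by
  classical
  have hd := h.hd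
  set a := U.natDegree with ha'
  set u := U.leadingCoeff with hu
  have hu0 : u ≠ 0 := leadingCoeff_ne_zero.mpr hU
  set p : κ[X] := X * B - A with hp
  have hp0 : p ≠ 0 := by
    intro h0
    obtain ⟨z, hz⟩ := h.exists_rootB
    have : A.eval z = 0 := by
      have h1 : A = X * B := by rw [← sub_eq_zero, ← neg_eq_zero, neg_sub]; exact h0
      rw [h1]; simp [hz]
    exact h.A_ne hz this
  obtain ⟨e, he⟩ : ∃ e, d = e + 1 := ⟨d - 1, by omega⟩
  have he1 : d - 1 = e := by omega
  have lB : Lead B e α := h.lB.cast he1 rfl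
  have lA : Lead A (e + 1) α := h.lA.cast he rfl
  have lXB : Lead (X * B) (e + 1) α := (Lead.X'.mul lB).cast (by ring) (by ring)
  have lp' : Lead p (e + 1) 0 := (lXB.sub lA).cast rfl (by ring)
  have hr : p.natDegree ≤ e := by
    by_contra hcon
    have h1 : p.natDegree = e + 1 := le_antisymm lp'.1 (by omega)
    have h2 : p.leadingCoeff = 0 := by rw [leadingCoeff, h1]; exact lp'.2
    exact hp0 (leadingCoeff_eq_zero.mp h2)
  set r := p.natDegree with hr'
  have lp : Lead p r p.leadingCoeff := Lead.of_natDegree p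
  have hlp0 : p.leadingCoeff ≠ 0 := leadingCoeff_ne_zero.mpr hp0
  -- the first geometric sum
  set S : κ[X] := ∑ i ∈ range (a + 1), C (U.coeff i) *
    (B ^ (2 * l - i) * ∑ j ∈ range i, (X * B) ^ j * A ^ (i - 1 - j)) with hS
  have hS1 : B ^ (2 * l) * U - hsub A B a U * B ^ (2 * l - a) = p * S := by
    have hU1 : B ^ (2 * l) * U = ∑ i ∈ range (a + 1), C (U.coeff i) *
        ((X * B) ^ i * B ^ (2 * l - i)) := by
      conv_lhs => rw [U.as_sum_range_C_mul_X_pow]
      rw [mul_sum]
      refine sum_congr rfl fun i hi => ?_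
      have hi' : i ≤ a := Nat.lt_succ_iff.mp (mem_range.mp hi)
      have : B ^ (2 * l) = B ^ i * B ^ (2 * l - i) := by rw [← pow_add]; congr 1; omega
      rw [this, mul_pow]; ring
    have hU2 : hsub A B a U * B ^ (2 * l - a) = ∑ i ∈ range (a + 1), C (U.coeff i) *
        (A ^ i * B ^ (2 * l - i)) := by
      rw [hsub, sum_mul]
      refine sum_congr rfl fun i hi => ?_
      have hi' : i ≤ a := Nat.lt_succ_iff.mp (mem_range.mp hi)
      have : B ^ (2 * l - i) = B ^ (a - i) * B ^ (2 * l - a) := by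
        rw [← pow_add]; congr 1; (clear * - d A B ha e hi'; omega)
      rw [this]; ring
    rw [hU1, hU2, ← sum_sub_distrib, hS, mul_sum]
    refine sum_congr rfl fun i _ => ?_
    have hg := (Commute.all (X * B) A).mul_geom_sum₂ i
    rw [hp]
    linear_combination (-(C (U.coeff i) * B ^ (2 * l - i))) * hg
  have lS : Lead (X * S) ((2 * l - 1) * e + a) (a * (u * α ^ (2 * l - 1))) := by
    have key : ∀ i ∈ range (a + 1), Lead (X * (C (U.coeff i) *
        (B ^ (2 * l - i) * ∑ j ∈ range i, (X * B) ^ j * A ^ (i - 1 - j))))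
        ((2 * l - 1) * e + a) (if i = a then a * (u * α ^ (2 * l - 1)) else 0) := by
      intro i hi
      have hi' : i ≤ a := Nat.lt_succ_iff.mp (mem_range.mp hi)
      rcases Nat.eq_zero_or_pos i with h0 | hpos
      · subst h0
        rw [range_zero, sum_empty, mul_zero, mul_zero, mul_zero]
        split_ifs with hh
        · rw [← hh]; simp [Lead]
        · simp [Lead]
      · have h1 : Lead (∑ j ∈ range i, (X * B) ^ j * A ^ (i - 1 - j)) ((i - 1) * (e + 1))
            (i * α ^ (i - 1)) := by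
          have h2 : ∀ j ∈ range i, Lead ((X * B) ^ j * A ^ (i - 1 - j)) ((i - 1) * (e + 1))
              (α ^ (i - 1)) := by
            intro j hj
            have hj' : j < i := mem_range.mp hj
            refine ((lXB.pow j).mul (lA.pow (i - 1 - j))).cast ?_ ?_
            · rw [← add_mul]; congr 1; omega
            · rw [← pow_add]; congr 1; omega
          refine (Lead.sum _ h2).cast rfl ?_
          rw [sum_const, card_range, nsmul_eq_mul]
        have h3 := (Lead.X'.mul (((lB.pow (2 * l - i)).mul h1).C_mul (U.coeff i)))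
        have h4 : Lead (X * (C (U.coeff i) *
            (B ^ (2 * l - i) * ∑ j ∈ range i, (X * B) ^ j * A ^ (i - 1 - j))))
            ((2 * l - 1) * e + i) (i * (U.coeff i * α ^ (2 * l - 1))) := by
          refine h3.cast ?_ ?_
          · obtain ⟨i', rfl⟩ : ∃ i', i = i' + 1 := ⟨i - 1, by omega⟩
            obtain ⟨l', hl'⟩ : ∃ l', 2 * l = i' + 1 + l' := ⟨2 * l - (i' + 1), by omega⟩
            have e1 : 2 * l - (i' + 1) = l' := by omega
            have e2 : 2 * l - 1 = i' + l' := by omega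
            rw [e1, e2, Nat.add_sub_cancel]
            ring
          · have e3 : α ^ (2 * l - 1) = α ^ (2 * l - i) * α ^ (i - 1) := by
              rw [← pow_add]; congr 1; (clear * - d A B hl ha e hi' hpos; omega)
            rw [e3]; ring
        rcases hi'.lt_or_eq with hlt | heq'
        · rw [if_neg hlt.ne]
          exact h4.lt (by omega)
        · rw [if_pos heq']
          refine h4.cast (by rw [heq']) ?_
          rw [heq', hu, leadingCoeff]
    have h5 := Lead.sum _ key
    rw [sum_ite_eq' (range (a + 1)) a, if_pos (mem_range.mpr (by omega)), ← mul_sum] at h5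
    exact h5
  -- the second geometric sum
  have hW : B ^ 2 - wr A B = wr p B := by
    rw [wr, wr, hp, derivative_sub, derivative_mul, derivative_X]; ring
  set T : κ[X] := ∑ j ∈ range l, (B ^ 2) ^ j * (wr A B) ^ (l - 1 - j) with hT
  have hT1 : wr p B * T = (B ^ 2) ^ l - (wr A B) ^ l := by
    rw [← hW, hT]
    exact (Commute.all (B ^ 2) (wr A B)).mul_geom_sum₂ l
  have lW : Lead (wr A B) (2 * e) (α * α) := h.leadW.cast (by rw [he1]) rfl
  have lT : Lead T ((l - 1) * (2 * e)) (l * (α * α) ^ (l - 1)) := by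
    have h2 : ∀ j ∈ range l, Lead ((B ^ 2) ^ j * (wr A B) ^ (l - 1 - j)) ((l - 1) * (2 * e))
        ((α * α) ^ (l - 1)) := by
      intro j hj
      have hj' : j < l := mem_range.mp hj
      refine (((lB.pow 2).pow j).mul (lW.pow (l - 1 - j))).cast ?_ ?_
      · rw [← add_mul]; congr 1; (clear * - d A B U hl e hj'; omega)
      · rw [← pow_two, ← pow_add]; congr 1; omega
    refine (Lead.sum _ h2).cast rfl ?_
    rw [sum_const, card_range, nsmul_eq_mul]
  have lwp := lead_wr lp lB
  -- comparison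
  have hmain : p * (X * S) = (X * wr p B) * T * U := by
    have h1 : (B ^ 2) ^ l = B ^ (2 * l) := by rw [← pow_mul]
    rw [h1] at hT1
    linear_combination (-X) * hS1 - X * heq + (-(X * U)) * hT1
  have L1 := lp.mul lS
  have L2 := (lwp.mul lT).mul (Lead.of_natDegree U)
  rw [← ha', ← hu, ← hmain] at L2
  have hdeg : r + e + (l - 1) * (2 * e) + a = r + ((2 * l - 1) * e + a) := by
    obtain ⟨l', rfl⟩ : ∃ l', l = l' + 1 := ⟨l - 1, by omega⟩
    rw [Nat.add_sub_cancel, show 2 * (l' + 1) - 1 = 2 * l' + 1 by omega]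
    ring
  have hcmp := L1.unique (L2.cast hdeg rfl)
  have hα : (α * α) ^ (l - 1) * α = α ^ (2 * l - 1) := by
    rw [← pow_two, ← pow_mul, ← pow_succ]; congr 1; omega
  have hfin : (a : κ) = ((r : κ) - e) * l := by
    have h1 : p.leadingCoeff * u * α ^ (2 * l - 1) * (a : κ) =
        p.leadingCoeff * u * α ^ (2 * l - 1) * (((r : κ) - e) * l) := by
      rw [← hα] at hcmp ⊢
      linear_combination hcmp
    exact mul_left_cancel₀ (mul_ne_zero (mul_ne_zero hlp0 hu0) (pow_ne_zero _ h.α0)) h1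
  have hnat : a + (e - r) * l = 0 := by
    have h1 : ((a + (e - r) * l : ℕ) : κ) = 0 := by
      rw [Nat.cast_add, Nat.cast_mul, Nat.cast_sub hr, hfin]; ring
    exact_mod_cast h1
  have ha0 : a = 0 := by omega
  -- now `U` is constant
  have h1 : hsub A B a U = U := by rw [ha0]; exact hsub_C A B U (by rw [← ha']; exact ha0)
  rw [h1, ha0, Nat.sub_zero] at heq
  have h2 : (B ^ 2) ^ l = (wr A B) ^ l := by
    rw [← pow_mul]
    exact mul_left_cancel₀ hU (by linear_combination heq)
  have h3 : B ^ 2 ∣ wr A B := (UniqueFactorizationMonoid.pow_dvd_pow_iff_dvd (by omega)).mp (dvd_of_eq h2)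
  have h4 : B ∣ A * derivative B := by
    have h5 : B ∣ wr A B := (dvd_pow_self B two_ne_zero).trans h3
    have h6 : A * derivative B = derivative A * B - wr A B := by rw [wr]; ring
    rw [h6]
    exact dvd_sub (dvd_mul_left _ _) h5
  have h5 : B ∣ derivative B := h.co.symm.dvd_of_dvd_mul_left h4
  refine dvd_derivative_absurd ?_ h5
  rw [h.lB.natDegree_eq h.β0]; omega

/-- Case: multiplier not a root of unity -/
lemma Spec.lemmaR_ne [IsAlgClosed κ] [CharZero κ] {d : ℕ} {A B : κ[X]} {α β : κ}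
    (h : Spec d A B α β) (hsp : ∀ n : ℕ, 0 < n → α ^ n ≠ β ^ n) {U : κ[X]} (hU : U ≠ 0) (l : ℕ)
    (hl : 1 ≤ l) (ha : U.natDegree ≤ 2 * l)
    (heq : hsub A B U.natDegree U * B ^ (2 * l - U.natDegree) = (wr A B) ^ l * U) : False := by
  classical
  have hd := h.hd
  set a := U.natDegree with ha'
  set u := U.leadingCoeff with hu
  have hu0 : u ≠ 0 := leadingCoeff_ne_zero.mpr hU
  have lU : Lead U a u := Lead.of_natDegree U
  -- `a = l`
  have hal : a = l := by
    have L1 := (lead_hsub A B h.lA h.lB (by omega) U lU le_rfl).mul (h.lB.pow (2 * l - a))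
    have L2 := (h.leadW.pow l).mul lU
    rw [← heq] at L2
    have hdeg : a * d + (a - a) * (d - 1) + (2 * l - a) * (d - 1) = l * (2 * (d - 1)) + a := by
      obtain ⟨e, rfl⟩ : ∃ e, d = e + 1 := ⟨d - 1, by omega⟩
      obtain ⟨s, hs⟩ : ∃ s, 2 * l = a + s := ⟨2 * l - a, by omega⟩
      have e1 : 2 * l - a = s := by omega
      rw [e1, Nat.sub_self, Nat.add_sub_cancel]
      have : l * (2 * e) = (2 * l) * e := by ring
      rw [this, hs]; ring
    have hcmp := (L1.cast hdeg rfl).unique L2
    rw [Nat.sub_self, pow_zero, mul_one] at hcmp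
    have hcmp2 : α ^ a * β ^ (2 * l - a) = α ^ l * β ^ l := by
      apply mul_left_cancel₀ hu0
      rw [mul_pow] at hcmp
      linear_combination hcmp
    by_contra hne
    rcases lt_or_gt_of_ne hne with hlt | hgt
    · have e1 : β ^ (2 * l - a) = β ^ (l - a) * β ^ l := by rw [← pow_add]; congr 1; omega
      have e2 : α ^ l = α ^ a * α ^ (l - a) := by rw [← pow_add]; congr 1; (clear * - hdeg hlt; omega)
      rw [e1, e2] at hcmp2
      have : α ^ (l - a) = β ^ (l - a) := by
        apply mul_left_cancel₀ (mul_ne_zero (pow_ne_zero a h.α0) (pow_ne_zero l h.β0))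
        linear_combination -hcmp2
      exact hsp (l - a) (by omega) this
    · have e1 : β ^ l = β ^ (a - l) * β ^ (2 * l - a) := by rw [← pow_add]; congr 1; omega
      have e2 : α ^ a = α ^ l * α ^ (a - l) := by rw [← pow_add]; congr 1; omega
      rw [e1, e2] at hcmp2
      have : α ^ (a - l) = β ^ (a - l) := by
        apply mul_left_cancel₀
          (mul_ne_zero (pow_ne_zero l h.α0) (pow_ne_zero (2 * l - a) h.β0))
        linear_combination hcmp2
      exact hsp (a - l) (by omega) this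
  rw [hal, show 2 * l - l = l by omega] at heq
  -- a root of `B`
  obtain ⟨z, hz⟩ := h.exists_rootB
  obtain ⟨m, S, W₂, hBS, hS, hWr, hW₂⟩ := wr_order B A z hz h.B0 (h.A_ne hz)
  have hXz : (X - C z : κ[X]) ≠ 0 := X_sub_C_ne_zero z
  have hdvd : (X - C z) ^ l ∣ U := by
    have h1 : (X - C z) ^ l * (hsub A B l U * S ^ l) = (-W₂) ^ l * U := by
      apply mul_left_cancel₀ (pow_ne_zero (m * l) hXz)
      have hB : B ^ l = (X - C z) ^ (m * l) * ((X - C z) ^ l * S ^ l) := by
        rw [hBS, mul_pow, ← pow_mul]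
        have : (m + 1) * l = m * l + l := by ring
        rw [this, pow_add]; ring
      have hW : (wr A B) ^ l = (X - C z) ^ (m * l) * (-W₂) ^ l := by
        rw [wr_comm, hWr, pow_mul, ← mul_pow]; congr 1; ring
      rw [hB, hW] at heq
      linear_combination heq
    have h2 : IsCoprime ((X - C z) ^ l) ((-W₂) ^ l) := by
      apply IsCoprime.pow
      apply isCoprime_of_no_root _ _ _ hXz
      intro x hx
      have hxz : x = z := by
        rw [eval_sub, eval_X, eval_C, sub_eq_zero] at hx; exact hx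
      rw [hxz, eval_neg]
      exact neg_ne_zero.mpr hW₂
    exact h2.dvd_of_dvd_mul_left ⟨_, h1.symm⟩
  have hUeq : U = (X - C z) ^ l * C u := by
    obtain ⟨T, hT⟩ := hdvd
    have hT0 : T ≠ 0 := by rintro rfl; rw [mul_zero] at hT; exact hU hT
    have hmon : ((X - C z) ^ l : κ[X]).Monic := (monic_X_sub_C z).pow l
    have h1 : T.natDegree = 0 := by
      have h2 := congrArg natDegree hT
      rw [hmon.natDegree_mul' hT0, (monic_X_sub_C z).natDegree_pow, natDegree_X_sub_C,
        ← ha', hal] at h2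
      (clear * - d U h2; omega)
    have h3 : T = C u := by
      rw [eq_C_of_natDegree_eq_zero h1]
      congr 1
      rw [hu, hT, leadingCoeff_mul, hmon.leadingCoeff, one_mul, leadingCoeff, h1]
    rw [← h3]; exact hT
  have hhs : hsub A B l U = (A - C z * B) ^ l * C u := by
    have h1 := hsub_mul A B h.B0 ((X - C z) ^ l) (C u) (l * 1) 0
      (natDegree_pow_le_of_le l (natDegree_X_sub_C z).le) (by simp)
    rw [add_zero, mul_one, ← hUeq, hsub_C A B (C u) (by simp)] at h1
    have h2 := hsub_pow A B h.B0 (X - C z) 1 l (natDegree_X_sub_C z).le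
    rw [mul_one, hsub_linear] at h2
    rw [h1, h2]
  -- a root of `A - z B`
  set A₁ : κ[X] := A - C z * B with hA₁
  have lA₁ : Lead A₁ d α := by
    have h1 : Lead (C z * B) d 0 := (h.lB.C_mul z).lt (by omega)
    exact (h.lA.sub h1).cast rfl (by ring)
  have hA₁0 : A₁ ≠ 0 := lA₁.ne_zero h.α0
  obtain ⟨z', hz'⟩ : ∃ z', A₁.eval z' = 0 := by
    apply IsAlgClosed.exists_root
    rw [degree_eq_natDegree hA₁0, lA₁.natDegree_eq h.α0]
    exact_mod_cast (by omega : d ≠ 0)
  have hBz' : B.eval z' ≠ 0 := by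
    intro hB
    have h1 : A.eval z' = 0 := by
      rw [hA₁, eval_sub, eval_mul, hB, mul_zero, sub_zero] at hz'; exact hz'
    exact h.A_ne hB h1
  have hzz : z' - z ≠ 0 := by
    intro h0
    apply hBz'
    rw [sub_eq_zero.mp h0]; exact hz
  obtain ⟨m', S', W₃, hAS, hS', hWr', hW₃⟩ := wr_order A₁ B z' hz' hA₁0 hBz'
  rw [hA₁, wr_sub_mul] at hWr'
  rw [hhs] at heq
  have hXz' : (X - C z' : κ[X]) ≠ 0 := X_sub_C_ne_zero z'
  have h1 : (X - C z') ^ l * (S' ^ l * B ^ l) = W₃ ^ l * (X - C z) ^ l := by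
    apply mul_left_cancel₀ (pow_ne_zero (m' * l) hXz')
    apply mul_right_cancel₀ (b := C u) (by rw [Ne, C_eq_zero]; exact hu0)
    have hA : A₁ ^ l = (X - C z') ^ (m' * l) * ((X - C z') ^ l * S' ^ l) := by
      rw [hAS, mul_pow, ← pow_mul]
      have : (m' + 1) * l = m' * l + l := by ring
      rw [this, pow_add]; ring
    have hW : (wr A B) ^ l = (X - C z') ^ (m' * l) * W₃ ^ l := by
      rw [hWr', pow_mul, ← mul_pow]
    rw [hUeq, hW, hA] at heq
    linear_combination heq
  have h2 := congrArg (eval z') h1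
  simp only [eval_mul, eval_pow, eval_sub, eval_X, eval_C, sub_self] at h2
  rw [zero_pow (by omega), zero_mul] at h2
  exact mul_ne_zero (pow_ne_zero l hW₃) (pow_ne_zero l hzz) h2.symm

/-- **Lemma R**, polynomial form -/
theorem Spec.lemmaR [IsAlgClosed κ] [CharZero κ] {d : ℕ} {A B : κ[X]} {α β : κ}
    (h : Spec d A B α β) {U : κ[X]} (hU : U ≠ 0) (l : ℕ)
    (hl : 1 ≤ l) (ha : U.natDegree ≤ 2 * l)
    (heq : hsub A B U.natDegree U * B ^ (2 * l - U.natDegree) = (wr A B) ^ l * U) : False := by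
  rcases h.sp with h1 | h1
  · subst h1
    exact h.lemmaR_one hU l hl ha heq
  · exact h.lemmaR_ne h1 hU l hl ha heq

end Pool.Agent.Helper36.S5

end

section

set_option autoImplicit false

open Finset Polynomial

namespace Pool.Agent.Helper36.S5

section Abstract

variable {F : Type*} [Field F]

lemma lead_linear (g G : F) : Lead (C g * X + C G) 1 g := by
  have h1 : Lead (C g * X) 1 g := (Lead.X'.C_mul g).cast rfl (by ring)
  have h2 : Lead (C G : F[X]) 1 0 := (Lead.C' G).lt one_pos
  exact (h1.add h2).cast rfl (by ring)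

lemma coeff_linear_pow (g G : F) (k : ℕ) :
    ((C g * X + C G) ^ (k + 1)).coeff k = (k + 1) * g ^ k * G := by
  induction k with
  | zero => simp
  | succ k ih =>
    rw [pow_succ, mul_add, coeff_add, mul_comm (C g) X, ← mul_assoc, coeff_mul_C, coeff_mul_C,
      mul_comm (_ ^ _) X, coeff_X_mul]
    have h1 : ((X * C g + C G) ^ (k + 1)).coeff k = (k + 1) * g ^ k * G := by
      rw [mul_comm X (C g)]; exact ih
    have h2 : ((X * C g + C G) ^ (k + 1)).coeff (k + 1) = g ^ (k + 1) := by
      rw [mul_comm X (C g)]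
      have := ((lead_linear g G).pow (k + 1)).2
      rwa [mul_one] at this
    rw [h1, h2]
    push_cast
    ring

lemma coeff_comp_linear (g G : F) (k : ℕ) (P : F[X]) (hP : P.natDegree ≤ k + 1) :
    (P.comp (C g * X + C G)).coeff k = P.coeff (k + 1) * ((k + 1) * g ^ k * G) +
      P.coeff k * g ^ k := by
  rw [comp, eval₂_eq_sum_range' C (lt_of_le_of_lt hP (Nat.lt_succ_self _)), finsetSum_coeff,
    sum_range_succ, sum_range_succ, sum_eq_zero, zero_add, coeff_C_mul, coeff_C_mul,
    coeff_linear_pow, add_comm]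
  · congr 1
    have := ((lead_linear g G).pow k).2
    rw [mul_one] at this
    rw [this]
  · intro i hi
    rw [coeff_C_mul]
    have h1 : Lead ((C g * X + C G) ^ i) k 0 :=
      ((lead_linear g G).pow i).lt (by rw [mul_one]; exact mem_range.mp hi)
    rw [h1.2, mul_zero]

/-- the rigid case -/
theorem rigid (φ : F →+* F) (g G : F) (hg : g ≠ 0) (e : ℕ) (he : 1 ≤ e) (heF : (e : F) ≠ 0)
    (M : F[X]) (hM : M.Monic) (hdeg : M.natDegree = e)
    (h : (M.map φ).comp (C g * X + C G) = C (g ^ e) * M)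
    (HR : ∀ l : ℕ, 1 ≤ l → ∀ b : F, φ b = g ^ l * b → b = 0) :
    ∃ ub : F, φ ub = g * ub + G ∧ M = (X - C ub) ^ e := by
  obtain ⟨k, rfl⟩ : ∃ k, e = k + 1 := ⟨e - 1, by omega⟩
  set ub : F := -(M.coeff k / ((k + 1 : ℕ) : F)) with hub
  have hlead : M.coeff (k + 1) = 1 := by rw [← hdeg]; exact hM
  have h1 : φ ub = g * ub + G := by
    have h2 := congrArg (fun P => P.coeff k) h
    rw [coeff_comp_linear g G k (M.map φ) (by rw [natDegree_map, hdeg]), coeff_map, coeff_map,
      hlead, map_one, one_mul, coeff_C_mul] at h2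
    have h3 : φ (M.coeff k) = g * M.coeff k - ((k + 1 : ℕ) : F) * G := by
      apply mul_right_cancel₀ (pow_ne_zero k hg)
      push_cast
      rw [pow_succ] at h2
      linear_combination h2
    rw [hub, map_neg, map_div₀, map_natCast, h3]
    field_simp
    ring
  refine ⟨ub, h1, ?_⟩
  set N : F[X] := M.comp (X + C ub) with hN
  have hNlead : Lead N (k + 1) 1 := by
    have hm : N.Monic := by
      rw [hN]; exact hM.comp_X_add_C ub
    have hnd : N.natDegree = k + 1 := by
      rw [hN, natDegree_comp, natDegree_X_add_C, mul_one, hdeg]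
    exact ⟨hnd.le, by rw [← hnd]; exact hm⟩
  have h4 : (N.map φ).comp (C g * X) = C (g ^ (k + 1)) * N := by
    have e1 : N.map φ = (M.map φ).comp (X + C (φ ub)) := by
      rw [hN, Polynomial.map_comp, Polynomial.map_add, map_X, map_C]
    rw [e1, comp_assoc, add_comp, X_comp, C_comp, h1]
    have e2 : (C g * X + C (g * ub + G) : F[X]) = (C g * X + C G).comp (X + C ub) := by
      simp only [add_comp, mul_comp, C_comp, X_comp, map_add, map_mul]
      ring
    rw [e2, ← comp_assoc, h, mul_comp, C_comp]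
  have h5 : ∀ i, i < k + 1 → N.coeff i = 0 := by
    intro i hi
    have h6 := congrArg (fun P => P.coeff i) h4
    rw [comp_C_mul_X_coeff, coeff_map, coeff_C_mul] at h6
    apply HR (k + 1 - i) (by omega)
    apply mul_right_cancel₀ (pow_ne_zero i hg)
    have e3 : g ^ (k + 1) = g ^ (k + 1 - i) * g ^ i := by rw [← pow_add]; congr 1; omega
    rw [e3] at h6
    linear_combination h6
  have h7 : N = X ^ (k + 1) := by
    ext i
    rw [coeff_X_pow]
    split_ifs with hi
    · rw [hi]; exact hNlead.2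
    · rcases lt_or_gt_of_ne hi with hlt | hgt
      · exact h5 i hlt
      · exact coeff_eq_zero_of_natDegree_lt (hNlead.1.trans_lt hgt)
  have h8 : M = N.comp (X - C ub) := by
    rw [hN, comp_assoc]
    simp
  rw [h8, h7, pow_comp, X_comp]

end Abstract

section FF

variable {κ : Type*} [Field κ]

variable {d : ℕ} {A B : κ[X]} {α β : κ}

/-- **Lemma R** -/
theorem Spec.lemmaRF [IsAlgClosed κ] [CharZero κ] (h : Spec d A B α β) (l : ℕ) (hl : 1 ≤ l)
    (b : FractionRing κ[X]) (heq : h.phi b = gg A B ^ l * b) : b = 0 := by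
  by_contra hb
  obtain ⟨U, v, _, hU, _, h2, h3⟩ := h.denomF b hb l 0 (by
    rw [map_zero, zero_div, add_zero]; exact heq)
  rw [zero_mul, add_zero] at h3
  exact h.lemmaR hU l hl h2 h3

/-- **Lemma O** -/
theorem Spec.lemmaO [IsAlgClosed κ] (h : Spec d A B α β)
    (b : FractionRing κ[X]) (E : κ[X])
    (heq : h.phi b = gg A B * b + io κ E / io κ B ^ 2) :
    ∃ p : κ[X], p.natDegree ≤ 2 ∧ b = io κ p ∧ hsub A B 2 p = wr A B * p + E := by
  by_cases hb : b = 0
  · subst hb
    rw [map_zero, mul_zero, zero_add] at heq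
    have h1 : io κ E = 0 := by
      rcases div_eq_zero_iff.mp heq.symm with h1 | h1
      · exact h1
      · exact absurd h1 (pow_ne_zero _ (io_ne h.B0))
    have h2 : E = 0 := by apply io_inj; rw [h1, map_zero]
    refine ⟨0, by simp, by simp, ?_⟩
    rw [h2, hsub]; simp
  · obtain ⟨U, v, hv, hU, hb', h2, h3⟩ := h.denomF b hb 1 E (by
      rw [pow_one]; exact heq)
    rw [pow_one, mul_one] at h3
    rw [mul_one] at h2
    refine ⟨C v⁻¹ * U, (natDegree_C_mul_le _ _).trans h2, ?_, ?_⟩
    · rw [hb', map_mul]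
      have h4 : io κ (C v) ≠ 0 := io_ne (by rw [Ne, C_eq_zero]; exact hv)
      have h5 : io κ (C v⁻¹) * io κ (C v) = 1 := by
        rw [← map_mul, ← C_mul, inv_mul_cancel₀ hv, C_1, map_one]
      rw [div_eq_iff h4]
      linear_combination (-(io κ U)) * h5
    · rw [hsub_C_mul, hsub_pad A B U.natDegree 2 U le_rfl h2, h3]
      have h5 : (C v⁻¹ * C v : κ[X]) = 1 := by rw [← C_mul, inv_mul_cancel₀ hv, C_1]
      linear_combination E * h5

end FF

end Pool.Agent.Helper36.S5

end

section

set_option autoImplicit false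

set_option linter.unusedSectionVars false

open Finset Polynomial

namespace Pool.Agent.Helper36.S5

variable {κ : Type*} [Field κ]

lemma lead_mob (q : κ) : Lead (C q * X + 1 : κ[X]) 1 q := by
  have := lead_linear q 1
  rwa [C_1] at this

/-- `hsub` for the Moebius transformation -/
lemma lead_hsub_mob (q : κ) (n : ℕ) (P : κ[X]) (hP : P.natDegree ≤ n) :
    Lead (hsub (C q * X + 1) X n P) n (P.eval q) := by
  have key : ∀ i ∈ range (n + 1), Lead (C (P.coeff i) * ((C q * X + 1) ^ i * X ^ (n - i))) n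
      (P.coeff i * q ^ i) := by
    intro i hi
    have hi' : i ≤ n := Nat.lt_succ_iff.mp (mem_range.mp hi)
    refine ((((lead_mob q).pow i).mul ((Lead.X' (R := κ)).pow (n - i))).C_mul (P.coeff i)).cast
      ?_ ?_
    · omega
    · rw [one_pow, mul_one]
  have := Lead.sum _ key
  rw [eval_eq_sum_range' (lt_of_le_of_lt hP (Nat.lt_succ_self n))]
  exact this

end Pool.Agent.Helper36.S5

end

section

set_option autoImplicit false

set_option linter.unusedSectionVars false

open Finset Polynomial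

namespace Pool.Agent.Helper36.S5

variable {κ : Type*} [Field κ] {A B : κ[X]} {d : ℕ}

/-- the transformed map has a special fixed point at infinity -/
lemma Rat.spec_mob [IsAlgClosed κ] [CharZero κ] (h : Rat A B d) (hd : 2 ≤ d) (q : κ)
    (hq : A.eval q = q * B.eval q) (hBq : B.eval q ≠ 0)
    (hsp : Special (B.eval q) ((derivative A).eval q - q * (derivative B).eval q)) :
    Spec d (A₁ q d B) (B₁ q d A B) (B.eval q)
      ((derivative A).eval q - q * (derivative B).eval q) := by
  have lA : Lead (A₁ q d B) d (B.eval q) := lead_hsub_mob q d B h.dB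
  have hP : (A - C q * B).natDegree ≤ d :=
    (natDegree_sub_le _ _).trans (max_le h.dA ((natDegree_C_mul_le _ _).trans h.dB))
  have hroot : (A - C q * B).eval q = 0 := by
    rw [eval_sub, eval_mul, eval_C, hq, sub_self]
  obtain ⟨P₂, hP₂⟩ := dvd_iff_isRoot.mpr hroot
  have hne : A - C q * B ≠ 0 := sub_ne_zero.mpr (h.not_const (by omega) q)
  have hP₂0 : P₂ ≠ 0 := by rintro rfl; rw [mul_zero] at hP₂; exact hne hP₂
  have hP₂d : P₂.natDegree ≤ d - 1 := by
    rw [hP₂, (monic_X_sub_C q).natDegree_mul' hP₂0, natDegree_X_sub_C] at hP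
    omega
  have hlin : hsub (C q * X + 1) X 1 (X - C q) = 1 := by rw [hsub_linear]; ring
  have hB₁ : B₁ q d A B = hsub (C q * X + 1) X (d - 1) P₂ := by
    rw [B₁, hP₂]
    have h1 := hsub_mul (C q * X + 1) X X_ne_zero (X - C q) P₂ 1 (d - 1)
      (natDegree_X_sub_C q).le hP₂d
    rw [show 1 + (d - 1) = d by omega, hlin, one_mul] at h1
    exact h1
  have hP₂q : P₂.eval q = (derivative A).eval q - q * (derivative B).eval q := by
    have h1 := congrArg (fun P => (derivative P).eval q) hP₂
    simpa using h1.symm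
  have lB : Lead (B₁ q d A B) (d - 1)
      ((derivative A).eval q - q * (derivative B).eval q) := by
    rw [hB₁, ← hP₂q]
    exact lead_hsub_mob q (d - 1) P₂ hP₂d
  refine ⟨hd, lA, lB, hBq, hsp.1, ?_, hsp.2⟩
  apply isCoprime_of_no_root _ _ _ (lA.ne_zero hBq)
  intro w hw hw'
  by_cases hw0 : w = 0
  · subst hw0
    have e1 : (A₁ q d B).eval 0 = B.coeff d := by
      rw [A₁, hsub_eval_of_root _ _ _ _ _ (by simp)]; simp
    have e2 : (B₁ q d A B).eval 0 = (A - C q * B).coeff d := by
      rw [B₁, hsub_eval_of_root _ _ _ _ _ (by simp)]; simp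
    rw [e1] at hw
    rw [e2, coeff_sub, coeff_C_mul, hw, mul_zero, sub_zero] at hw'
    rcases h.top with h1 | h1
    · exact h1 hw'
    · exact h1 hw
  · have hy : (q + 1 / w) * (X : κ[X]).eval w = (C q * X + 1 : κ[X]).eval w := by
      simp only [eval_X, eval_add, eval_mul, eval_C, eval_one]
      field_simp
    rw [A₁, hsub_eval _ _ d B h.dB w _ hy] at hw
    rw [B₁, hsub_eval _ _ d _ hP w _ hy] at hw'
    have hX : (X : κ[X]).eval w ≠ 0 := by rw [eval_X]; exact hw0
    have h1 := (mul_eq_zero.mp hw).resolve_left (pow_ne_zero _ hX)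
    have h2 := (mul_eq_zero.mp hw').resolve_left (pow_ne_zero _ hX)
    rw [eval_sub, eval_mul, eval_C, h1, mul_zero, sub_zero] at h2
    exact eval_ne_of_coprime h.cop h2 h1

/-- **Lemma R** in a general coordinate -/
theorem Rat.lemmaR [IsAlgClosed κ] [CharZero κ] (h : Rat A B d) (hd : 2 ≤ d)
    (hsp : HasSpecial A B d) (hd1 : 1 ≤ d) (l : ℕ) (hl : 1 ≤ l)
    (b : FractionRing κ[X]) (heq : h.phi hd1 b = gg A B ^ l * b) : b = 0 := by
  rcases hsp with ⟨hA, hB, hs⟩ | ⟨q, hq, hBq, hs⟩
  · have lB : Lead B (d - 1) (B.coeff (d - 1)) := by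
      refine ⟨?_, rfl⟩
      by_contra hcon
      have h1 : B.natDegree = d := le_antisymm h.dB (by omega)
      have h2 : B.leadingCoeff = 0 := by rw [leadingCoeff, h1]; exact hB
      exact h.B0 hd1 (leadingCoeff_eq_zero.mp h2)
    have hspec : Spec d A B (A.coeff d) (B.coeff (d - 1)) :=
      ⟨hd, Lead.of_le h.dA, lB, hA, hs.1, h.cop, hs.2⟩
    exact hspec.lemmaRF l hl b heq
  · have hspec := h.spec_mob hd q hq hBq hs
    have hX := io_X_ne (κ := κ)
    have h1 : hspec.phi (io κ X ^ (2 * l) * mob q b) =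
        gg (A₁ q d B) (B₁ q d A B) ^ l * (io κ X ^ (2 * l) * mob q b) := by
      have e3 : hspec.phi (io κ X) = io κ (A₁ q d B) / io κ (B₁ q d A B) := by
        rw [hspec.phi_io, phi0, coe_eval₂RingHom, eval₂_X]
      rw [map_mul, map_pow, e3, phi_mob h hd hspec hd1, heq, map_mul, map_pow]
      have h2 := gg_transform h hd hspec
      rw [pow_mul, pow_mul, ← mul_assoc, ← mul_assoc, ← mul_pow, ← mul_pow, h2]
      congr 2
      ring
    have h2 := hspec.lemmaRF l hl _ h1
    have h3 : mob q b = 0 := (mul_eq_zero.mp h2).resolve_left (pow_ne_zero _ hX)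
    exact (map_eq_zero (mob q)).mp h3

/-- **Lemma O** in a general coordinate -/
theorem Rat.lemmaO [IsAlgClosed κ] [CharZero κ] (h : Rat A B d) (hd : 2 ≤ d)
    (hsp : HasSpecial A B d) (hd1 : 1 ≤ d) (b : FractionRing κ[X]) (E : κ[X])
    (hE : E.natDegree ≤ 2 * d)
    (heq : h.phi hd1 b = gg A B * b + io κ E / io κ B ^ 2) :
    ∃ p : κ[X], p.natDegree ≤ 2 ∧ b = io κ p ∧ hsub A B 2 p = wr A B * p + E := by
  have hB' := io_ne (h.B0 hd1)
  -- it suffices that `b` is a polynomial of degree at most two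
  have hsuff : ∀ p : κ[X], p.natDegree ≤ 2 → b = io κ p → hsub A B 2 p = wr A B * p + E := by
    intro p hp hb
    apply io_inj
    rw [phi0_apply A B (h.B0 hd1) 2 p hp, map_add, map_mul, ← h.phi_io hd1 p, ← hb, heq, gg]
    field_simp
  suffices hmain : ∃ p : κ[X], p.natDegree ≤ 2 ∧ b = io κ p by
    obtain ⟨p, hp1, hp2⟩ := hmain
    exact ⟨p, hp1, hp2, hsuff p hp1 hp2⟩
  rcases hsp with ⟨hA, hB, hs⟩ | ⟨q, hq, hBq, hs⟩
  · have lB : Lead B (d - 1) (B.coeff (d - 1)) := by
      refine ⟨?_, rfl⟩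
      by_contra hcon
      have h1 : B.natDegree = d := le_antisymm h.dB (by omega)
      have h2 : B.leadingCoeff = 0 := by rw [leadingCoeff, h1]; exact hB
      exact h.B0 hd1 (leadingCoeff_eq_zero.mp h2)
    have hspec : Spec d A B (A.coeff d) (B.coeff (d - 1)) :=
      ⟨hd, Lead.of_le h.dA, lB, hA, hs.1, h.cop, hs.2⟩
    obtain ⟨p, hp1, hp2, _⟩ := hspec.lemmaO b E heq
    exact ⟨p, hp1, hp2⟩
  · have hspec := h.spec_mob hd q hq hBq hs
    have hX := io_X_ne (κ := κ)
    have hA₁ := io_ne hspec.A0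
    have hB₁ := io_ne hspec.B0
    set E₁ : κ[X] := hsub (C q * X + 1) X (2 * d) E with hE₁
    have h1 : hspec.phi (io κ X ^ 2 * mob q b) =
        gg (A₁ q d B) (B₁ q d A B) * (io κ X ^ 2 * mob q b) +
          io κ E₁ / io κ (B₁ q d A B) ^ 2 := by
      have e3 : hspec.phi (io κ X) = io κ (A₁ q d B) / io κ (B₁ q d A B) := by
        rw [hspec.phi_io, phi0, coe_eval₂RingHom, eval₂_X]
      have e4 : mob q (io κ E) = io κ E₁ / io κ X ^ (2 * d) := mob_io q E (2 * d) hE
      have e6 : mob q (io κ B) = io κ (A₁ q d B) / io κ X ^ d := by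
        rw [mob_io q B d h.dB, A₁]
      rw [map_mul, map_pow, e3, phi_mob h hd hspec hd1, heq, map_add, map_mul, map_div₀,
        map_pow, e4, e6]
      have h2 := gg_transform h hd hspec
      rw [← mul_assoc, h2, mul_add]
      congr 1
      · ring
      · rw [div_pow, div_pow, ← pow_mul, mul_comm d 2]
        field_simp
    obtain ⟨p₁, hp1, hp2, _⟩ := hspec.lemmaO _ E₁ h1
    refine ⟨hsub 1 (X - C q) 2 p₁, ?_, ?_⟩
    · exact natDegree_sum_le_of_forall_le _ _ fun i _ => by
        refine (natDegree_C_mul_le _ _).trans ?_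
        rw [one_pow, one_mul]
        exact (natDegree_pow_le_of_le _ (natDegree_X_sub_C q).le).trans (by omega)
    · apply (mob q).injective
      have e1 : mob q (io κ (X - C q)) = 1 / io κ X := by
        rw [mob_io q (X - C q) 1 (natDegree_X_sub_C q).le, hsub_linear, pow_one]
        congr 1
        rw [show (C q * X + 1 - C q * X : κ[X]) = 1 by ring, map_one]
      have e2 : ∀ a : κ, mob q (io κ (C a)) = io κ (C a) := by
        intro a
        rw [mob_io q (C a) 0 (by simp), hsub_C _ _ _ (by simp), pow_zero, div_one]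
      have e3 : mob q (io κ (hsub 1 (X - C q) 2 p₁)) = io κ p₁ / io κ X ^ 2 := by
        rw [hsub, map_sum, map_sum]
        simp only [map_mul, map_pow, e1, e2, one_pow, one_mul]
        have h3 : io κ p₁ = ∑ i ∈ range (2 + 1), io κ (C (p₁.coeff i)) * io κ X ^ i := by
          conv_lhs => rw [p₁.as_sum_range_C_mul_X_pow' (lt_of_le_of_lt hp1 (Nat.lt_succ_self 2))]
          rw [map_sum]
          simp only [map_mul, map_pow]
        rw [h3, sum_div]
        refine sum_congr rfl fun i hi => ?_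
        have hi' : i ≤ 2 := Nat.lt_succ_iff.mp (mem_range.mp hi)
        have e4 : io κ X ^ 2 = io κ X ^ i * io κ X ^ (2 - i) := by
          rw [← pow_add]; congr 1; omega
        rw [e4, div_pow, one_pow]
        field_simp
      rw [e3, ← hp2]
      (clear * - hX; field_simp)

end Pool.Agent.Helper36.S5

end

section

set_option autoImplicit false

set_option linter.unusedSectionVars false

open Finset Polynomial

namespace Pool.Agent.Helper36.S5

variable {O κ : Type*} [CommRing O] [IsDomain O] [Field κ]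

variable {π : O →+* κ} {τ : O} {d : ℕ} {A B A₂ B₂ : O[X]} {x y : ℕ → O} {n : ℕ}

lemma Pair.B_ne (P : Pair π d A B A₂ B₂ x y n) (hco : IsCoprime (A.map π) (B.map π)) (j : ℕ)
    (hj : j < n) : (B.map π).eval (π (x j)) ≠ 0 := by
  intro h0
  have h1 := P.stepx j hj
  rw [h0, mul_zero] at h1
  exact eval_ne_of_coprime hco h1.symm h0

/-- the linearised recursion at level `ν` -/
theorem Pair.linear (P : Pair π d A B A₂ B₂ x y n) (L : Loc π τ)
    (hco : IsCoprime (A.map π) (B.map π)) (ν : ℕ) (hν : 1 ≤ ν) (b : ℕ) (hb : b + 2 * d < n)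
    (u : ℕ → O) (hu : ∀ j, b ≤ j → j ≤ n → y j = x j + τ ^ ν * u j) :
    ∃ E : κ[X], E.natDegree ≤ 2 * d ∧ ∀ j, b ≤ j → j < n →
      π (u (j + 1)) * (B.map π).eval (π (x j)) ^ 2 =
        (wr (A.map π) (B.map π)).eval (π (x j)) * π (u j) + E.eval (π (x j)) := by
  classical
  set Δ : O[X] := A₂ * B - A * B₂ with hΔ
  have hΔd : Δ.natDegree ≤ 2 * d := by
    rw [hΔ]
    refine (natDegree_sub_le _ _).trans (max_le ?_ ?_)
    · exact (natDegree_mul_le_of_le P.hA₂ P.hB).trans (by (clear * - n ν b; omega))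
    · exact (natDegree_mul_le_of_le P.hA P.hB₂).trans (by omega)
  -- the local expansion
  have key : ∀ j, b ≤ j → j < n → ∃ k : O,
      Δ.eval (y j) * B.eval (x j) = τ ^ ν * (B₂.eval (y j) * (u (j + 1) * B.eval (y j) *
        B.eval (x j) - u j * ((derivative A).eval (x j) * B.eval (x j) -
          A.eval (x j) * (derivative B).eval (x j) + τ ^ ν * k))) := by
    intro j hj hj'
    obtain ⟨kA, hkA⟩ := A.binomExpansion (x j) (τ ^ ν * u j)
    obtain ⟨kB, hkB⟩ := B.binomExpansion (x j) (τ ^ ν * u j)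
    rw [← hu j hj hj'.le] at hkA hkB
    have h1 := P.sx j hj'
    have h2 := P.sy j hj'
    rw [hu (j + 1) (by omega) (by omega)] at h2
    refine ⟨u j * (kA * B.eval (x j) - A.eval (x j) * kB), ?_⟩
    rw [hΔ, eval_sub, eval_mul, eval_mul, ← h2]
    have h3 : A.eval (x j) * B.eval (y j) - A.eval (y j) * B.eval (x j) =
        -(τ ^ ν * u j * ((derivative A).eval (x j) * B.eval (x j) -
          A.eval (x j) * (derivative B).eval (x j) +
          τ ^ ν * (u j * (kA * B.eval (x j) - A.eval (x j) * kB)))) := by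
      rw [hkA, hkB]; ring
    linear_combination (B₂.eval (y j)) * h3 + (B₂.eval (y j) * B.eval (y j)) * h1
  -- divisibility of `Δ`
  have hdiv : C (τ ^ ν) ∣ Δ := by
    apply L.dvd_of_eval ν Δ (2 * d) hΔd (Finset.Ico b n) y
    · intro i hi j hj hij
      rw [Finset.mem_coe, Finset.mem_Ico] at hi hj
      have hij' : π (y i) = π (y j) := hij
      rw [P.red i (by omega), P.red j (by omega)] at hij'
      exact P.inj i j (by omega) (by omega) hij'
    · rw [Nat.card_Ico]; omega
    · intro j hj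
      rw [Finset.mem_Ico] at hj
      obtain ⟨k, hk⟩ := key j hj.1 hj.2
      apply L.cancel (Δ.eval (y j)) (B.eval (x j))
      · have := P.B_ne hco j hj.2
        rwa [eval_map_apply] at this
      · exact ⟨_, hk⟩
  obtain ⟨E, hE⟩ := hdiv
  have hτν : τ ^ ν ≠ 0 := pow_ne_zero ν L.ne
  have hπτ : π τ = 0 := (L.ker τ).mpr dvd_rfl
  refine ⟨E.map π, ?_, ?_⟩
  · rw [hE, natDegree_C_mul hτν] at hΔd
    exact natDegree_map_le.trans hΔd
  · intro j hj hj'
    obtain ⟨k, hk⟩ := key j hj hj'
    rw [hE, eval_mul, eval_C, mul_assoc] at hk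
    have h1 := congrArg π (mul_left_cancel₀ hτν hk)
    have hB := P.B_ne hco j hj'
    have eB₂ : π (B₂.eval (y j)) = (B.map π).eval (π (x j)) := by
      rw [← P.red j hj'.le, ← P.rB, eval_map_apply]
    have eB : π (B.eval (y j)) = (B.map π).eval (π (x j)) := by
      rw [← P.red j hj'.le, eval_map_apply]
    have eE : π (E.eval (y j)) = (E.map π).eval (π (x j)) := by
      rw [← P.red j hj'.le, eval_map_apply]
    have eW : (wr (A.map π) (B.map π)).eval (π (x j)) =
        π ((derivative A).eval (x j)) * π (B.eval (x j)) -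
          π (A.eval (x j)) * π ((derivative B).eval (x j)) := by
      rw [wr, eval_sub, eval_mul, eval_mul, derivative_map, derivative_map, eval_map_apply,
        eval_map_apply, eval_map_apply, eval_map_apply]
    simp only [map_mul, map_sub, map_add, map_pow, hπτ] at h1
    rw [zero_pow (by omega), zero_mul, add_zero, ← eW, eB₂, eB, eE,
      ← eval_map_apply (f := π) (p := B)] at h1
    apply mul_left_cancel₀ hB
    linear_combination -h1

end Pool.Agent.Helper36.S5

end
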