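import Pool.Agent.Helper23.MB.L00_ab0
import Pool.Agent.Helper23.MB.L00_ab1
import Pool.Agent.Helper23.MB.L00_ab3
import Pool.Agent.Helper23.MB.L00_ab5
import Pool.Agent.Helper23.MB.L00_ab6
import Pool.Agent.Helper23.MB.L00_ab7
import Pool.Agent.Helper23.MB.L00_ab8
import Pool.Agent.Helper23.MB.L00_abc0
import Pool.Agent.Helper23.MB.L00_abc1
import Pool.Agent.Helper23.MB.L00_abc2

/-!
Parts of Helper33.DVBasic, Helper33.PS.Defs, Helper55.RD.Base, Helper33.PS.Ext, Helper45.S4Der, Helper38.DT.Val, Helper38.DT.Mob, Helper31.RRK.Der, Helper31.RRK.Diff, Helper82.PS.Good, Helper98.PS.M5, Helper82.PS.Red, Helper82.PS.Window, Helper36.PS.Residue, Helper36.PS.Rigidity, Helper55.LW.Main, Helper55.LW.Spec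
-/

attribute [-simp] Valuation.IsUniformizer.val
attribute [local instance 5000]
  Pool.Agent.Helper23.MB.Inst.rCharZero Pool.Agent.Helper23.MB.Inst.rALM
  Pool.Agent.Helper23.MB.Inst.rARM Pool.Agent.Helper23.MB.Inst.rALSM
  Pool.Agent.Helper23.MB.Inst.rARSM Pool.Agent.Helper23.MB.Inst.rARRLE
  Pool.Agent.Helper23.MB.Inst.rALRLE Pool.Agent.Helper23.MB.Inst.rARRLT
  Pool.Agent.Helper23.MB.Inst.rALRLT Pool.Agent.Helper23.MB.Inst.rPMRLT
  Pool.Agent.Helper23.MB.Inst.rMPRLT Pool.Agent.Helper23.MB.Inst.rPMM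
  Pool.Agent.Helper23.MB.Inst.rMPM Pool.Agent.Helper23.MB.Inst.rPMSM
  Pool.Agent.Helper23.MB.Inst.rMPSM Pool.Agent.Helper23.MB.Inst.rEAOL
  Pool.Agent.Helper23.MB.Inst.rIOR Pool.Agent.Helper23.MB.Inst.rISOR
  Pool.Agent.Helper23.MB.Inst.rNZD Pool.Agent.Helper23.MB.Inst.zCharZero
  Pool.Agent.Helper23.MB.Inst.zALM Pool.Agent.Helper23.MB.Inst.zARM
  Pool.Agent.Helper23.MB.Inst.zIOR Pool.Agent.Helper23.MB.Inst.zISOR
  Pool.Agent.Helper23.MB.Inst.zNZD Pool.Agent.Helper23.MB.Inst.qCharZero
  Pool.Agent.Helper23.MB.Inst.free Pool.Agent.Helper23.MB.Inst.faith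
  Pool.Agent.Helper23.MB.Inst.torsionFree Pool.Agent.Helper23.MB.Inst.rfFaith
  Pool.Agent.Helper23.MB.Inst.hAdd Pool.Agent.Helper23.MB.Inst.hAddM
  Pool.Agent.Helper23.MB.Inst.hMul Pool.Agent.Helper23.MB.Inst.hMon
  Pool.Agent.Helper23.MB.Inst.hZero Pool.Agent.Helper23.MB.Inst.hOne
  Pool.Agent.Helper23.MB.Inst.hMZ Pool.Agent.Helper23.MB.Inst.hRing
  Pool.Agent.Helper23.MB.Inst.aAdd Pool.Agent.Helper23.MB.Inst.aAddM
  Pool.Agent.Helper23.MB.Inst.aMul Pool.Agent.Helper23.MB.Inst.aMon
  Pool.Agent.Helper23.MB.Inst.aZero Pool.Agent.Helper23.MB.Inst.aOne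
  Pool.Agent.Helper23.MB.Inst.aMZ Pool.Agent.Helper23.MB.Inst.aRing

namespace Pool.Agent.Helper16
end Pool.Agent.Helper16
namespace Pool.Agent.Helper33
end Pool.Agent.Helper33
namespace Pool.Agent.Helper33.PS
end Pool.Agent.Helper33.PS
namespace Pool.Agent.Helper33.UB
end Pool.Agent.Helper33.UB
namespace Pool.Agent.Helper36.S5
end Pool.Agent.Helper36.S5
namespace Pool.Agent.Helper45.FF
end Pool.Agent.Helper45.FF
namespace Pool.Agent.Helper45.S4
end Pool.Agent.Helper45.S4
namespace Pool.Agent.Helper47.RR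
end Pool.Agent.Helper47.RR
namespace Pool.Agent.Helper51.RatTree
end Pool.Agent.Helper51.RatTree
namespace Pool.Agent.Helper55.LW
end Pool.Agent.Helper55.LW
namespace Pool.Agent.Helper55.RD
end Pool.Agent.Helper55.RD
namespace Pool.Agent.Helper93.RatODE
end Pool.Agent.Helper93.RatODE

section

set_option autoImplicit false

namespace Pool.Agent.Helper33

namespace DV

variable {K : Type*} [Field K] (v : DV K)

variable {v}

lemma ge_inv {c : ℝ} {x : K} (hx : x ≠ 0) (h : (v.o x : ℝ) ≤ c) : v.ge (-c) x⁻¹ := by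
  right; rw [v.o_inv x hx]; push_cast; linarith

end DV

end Pool.Agent.Helper33

end

section

set_option autoImplicit false

open Polynomial

namespace Pool.Agent.Helper33.PS

/-- good reduction of `A / B` (degree `d`) in the given coordinate -/
def IsGood {K : Type*} [Field K] (v : DV K) (d : ℕ) (A B : K[X]) : Prop :=
  ∃ c : K, c ≠ 0 ∧ (∀ i, v.ge (v.o c) (A.coeff i)) ∧ (∀ i, v.ge (v.o c) (B.coeff i)) ∧
    v.o (resultant A B d d) = 2 * d * v.o c

/-- `k` is the residue field of `v` -/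
structure ResK (k : Type*) {K : Type*} [Field k] [Field K] [Algebra k K] (v : DV K) : Prop where
  const : ∀ c : k, c ≠ 0 → v.o (algebraMap k K c) = 0
  res : ∀ x : K, v.ge 0 x → ∃ c : k, v.ge 1 (x - algebraMap k K c)

end Pool.Agent.Helper33.PS

end

section

set_option autoImplicit false

open Polynomial Finset Pool.Agent.Helper33 Pool.Agent.Helper51.RatTree

namespace Pool.Agent.Helper55.RD

variable {K : Type*} [Field K] {v : DV K}

lemma ge_pow_sub_pow {c : ℝ} {a b : K} (ha : v.ge 0 a) (hb : v.ge 0 b) (h : v.ge c (a - b)) (n : ℕ) :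
    v.ge c (a ^ n - b ^ n) := by
  induction n with
  | zero => simp [DV.ge_zero]
  | succ n ih =>
    have e : a ^ (n + 1) - b ^ (n + 1) = a ^ n * (a - b) + (a ^ n - b ^ n) * b := by ring
    rw [e]
    have h1 := DV.ge_mul (DV.ge_pow ha n) h
    have h2 := DV.ge_mul ih hb
    rw [mul_zero, zero_add] at h1
    rw [add_zero] at h2
    exact DV.ge_add h1 h2

lemma ge_hom_sub {c : ℝ} {n : ℕ} {f : K[X]} (hf : IntP v f) {a b a' b' : K} (ha : v.ge 0 a)
    (hb : v.ge 0 b) (ha' : v.ge 0 a') (hb' : v.ge 0 b') (h1 : v.ge c (a - a'))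
    (h2 : v.ge c (b - b')) : v.ge c (hom n f a b - hom n f a' b') := by
  rw [hom, hom, ← sum_sub_distrib]
  refine DV.ge_sum _ _ fun kl _ => ?_
  have e : (algebraMap K K) (f.coeff kl.1) * a ^ kl.1 * b ^ kl.2 -
      (algebraMap K K) (f.coeff kl.1) * a' ^ kl.1 * b' ^ kl.2 =
      f.coeff kl.1 * ((a ^ kl.1 - a' ^ kl.1) * b ^ kl.2 + a' ^ kl.1 * (b ^ kl.2 - b' ^ kl.2)) := by
    simp only [Algebra.algebraMap_self, RingHom.id_apply]; ring
  rw [e]
  have k1 := DV.ge_mul (ge_pow_sub_pow ha ha' h1 kl.1) (DV.ge_pow hb kl.2)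
  have k2 := DV.ge_mul (DV.ge_pow ha' kl.1) (ge_pow_sub_pow hb hb' h2 kl.2)
  rw [mul_zero, add_zero] at k1
  rw [mul_zero, zero_add] at k2
  have := DV.ge_mul (hf kl.1) (DV.ge_add k1 k2)
  rwa [zero_add] at this

/-- the Bezoutian -/
lemma ge_bezoutian {n : ℕ} {f g : K[X]} (hf : IntP v f) (hg : IntP v g) {x y : K × K}
    (hx : Prim v x) (hy : Prim v y) {c : ℝ} (h : v.ge c (wedge x y)) :
    v.ge c (hom n f x.1 x.2 * hom n g y.1 y.2 - hom n g x.1 x.2 * hom n f y.1 y.2) := by
  have key : ∀ s : K, v.ge 0 s → v.ge c (y.1 - s * x.1) → v.ge c (y.2 - s * x.2) →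
      v.ge c (hom n f x.1 x.2 * hom n g y.1 y.2 - hom n g x.1 x.2 * hom n f y.1 y.2) := by
    intro s hs h1 h2
    have i1 : v.ge 0 (s * x.1) := by have := DV.ge_mul hs hx.1; rwa [add_zero] at this
    have i2 : v.ge 0 (s * x.2) := by have := DV.ge_mul hs hx.2.1; rwa [add_zero] at this
    have k1 := ge_hom_sub (n := n) hf hy.1 hy.2.1 i1 i2 h1 h2
    have k2 := ge_hom_sub (n := n) hg hy.1 hy.2.1 i1 i2 h1 h2
    rw [hom_smul_smul] at k1 k2
    have e : hom n f x.1 x.2 * hom n g y.1 y.2 - hom n g x.1 x.2 * hom n f y.1 y.2 =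
        hom n f x.1 x.2 * (hom n g y.1 y.2 - s ^ n * hom n g x.1 x.2) -
        hom n g x.1 x.2 * (hom n f y.1 y.2 - s ^ n * hom n f x.1 x.2) := by ring
    rw [e]
    have l1 := DV.ge_mul (ge_hom_zero (n := n) hf hx.1 hx.2.1) k2
    have l2 := DV.ge_mul (ge_hom_zero (n := n) hg hx.1 hx.2.1) k1
    rw [zero_add] at l1 l2
    exact DV.ge_sub l1 l2
  rcases hx.2.2 with ⟨h3, h4⟩ | ⟨h3, h4⟩
  · have hinv : v.ge 0 x.1⁻¹ := by
      have := DV.ge_inv (v := v) (c := 0) h3 (by rw [h4]; simp)
      simpa using this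
    refine key (y.1 * x.1⁻¹) ?_ ?_ ?_
    · have := DV.ge_mul hy.1 hinv; rwa [add_zero] at this
    · rw [mul_assoc, inv_mul_cancel₀ h3, mul_one, sub_self]; exact DV.ge_zero _
    · have e : y.2 - y.1 * x.1⁻¹ * x.2 = wedge x y * x.1⁻¹ := by
        simp only [wedge]; field_simp
      rw [e]
      have := DV.ge_mul h hinv; rwa [add_zero] at this
  · have hinv : v.ge 0 x.2⁻¹ := by
      have := DV.ge_inv (v := v) (c := 0) h3 (by rw [h4]; simp)
      simpa using this
    refine key (y.2 * x.2⁻¹) ?_ ?_ ?_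
    · have := DV.ge_mul hy.2.1 hinv; rwa [add_zero] at this
    · have e : y.1 - y.2 * x.2⁻¹ * x.1 = -(wedge x y * x.2⁻¹) := by
        simp only [wedge]; field_simp; ring
      rw [e]
      have := DV.ge_mul h hinv
      rw [add_zero] at this
      exact DV.ge_neg this
    · rw [mul_assoc, inv_mul_cancel₀ h3, mul_one, sub_self]; exact DV.ge_zero _

lemma Sys.Good.W_le_of_good {d : ℕ} (hd : 2 ≤ d) {ι : Type*} {S : Sys v d ι} (hS : S.Good)
    (hr : S.r = 0) {i j : ι} (hij : i ≠ j) (hφ : S.φ i ≠ S.φ j) :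
    W v (S.x i) (S.x j) ≤ W v (S.x (S.φ i)) (S.x (S.φ j)) := by
  have hc : ∀ i, v.o (S.c i) = 0 := by
    intro i
    have h1 := hS.c_nonneg i
    have h2 := hS.c_le hd i
    rw [hr, mul_zero] at h2
    have h3 : (v.o (S.c i) : ℝ) = 0 := le_antisymm h2 h1
    exact_mod_cast h3
  have h1 := ge_bezoutian (n := d) hS.intF hS.intG (hS.prim i) (hS.prim j)
    (DV.ge_self (v := v) (wedge (S.x i) (S.x j)))
  rw [S.hΦF, S.hΦG, S.hΦF, S.hΦG] at h1
  have e : S.c i * (S.x (S.φ i)).1 * (S.c j * (S.x (S.φ j)).2) -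
      S.c i * (S.x (S.φ i)).2 * (S.c j * (S.x (S.φ j)).1) =
      S.c i * S.c j * wedge (S.x (S.φ i)) (S.x (S.φ j)) := by simp only [wedge]; ring
  rw [e] at h1
  have hw := S.hx _ _ hφ
  have h2 := DV.ge_le h1 (mul_ne_zero (mul_ne_zero (S.hc i) (S.hc j)) hw)
  rw [v.mul _ _ (mul_ne_zero (S.hc i) (S.hc j)) hw, v.mul _ _ (S.hc i) (S.hc j), hc, hc] at h2
  rw [W_of_ne (S.hx i j hij), W_of_ne hw]
  have h3 : v.o (wedge (S.x i) (S.x j)) ≤ 0 + 0 + v.o (wedge (S.x (S.φ i)) (S.x (S.φ j))) := by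
    exact_mod_cast h2
  omega

end Pool.Agent.Helper55.RD

end

section

set_option autoImplicit false

open Finset Polynomial

namespace Pool.Agent.Helper33.PS

open Pool.Agent.Helper33.UB

/-- a ring homomorphism compatible with two valuations up to a positive factor -/
structure VHom {K E : Type*} [Field K] [Field E] (φ : K →+* E) (v : DV K) (w : DV E) where
  /-- the ramification index -/
  r : ℕ
  r_pos : 1 ≤ r
  spec : ∀ y : K, y ≠ 0 → w.o (φ y) = r * v.o y

namespace VHom

variable {K E : Type*} [Field K] [Field E] {φ : K →+* E} {v : DV K} {w : DV E} (h : VHom φ v w)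

include h

lemma ge_zero {y : K} (hy : v.ge 0 y) : w.ge 0 (φ y) := by
  by_cases h0 : y = 0
  · left; rw [h0, map_zero]
  right
  have h1 : 0 ≤ v.o y := by exact_mod_cast DV.ge_le hy h0
  rw [h.spec y h0]
  have : 0 ≤ (h.r : ℤ) * v.o y := by positivity
  exact_mod_cast this

lemma ge_one {y : K} (hy : v.ge 1 y) : w.ge 1 (φ y) := by
  by_cases h0 : y = 0
  · left; rw [h0, map_zero]
  right
  have h1 : 1 ≤ v.o y := by exact_mod_cast DV.ge_le hy h0
  rw [h.spec y h0]
  have h2 := h.r_pos
  have : 1 ≤ (h.r : ℤ) * v.o y := by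
    have : (1 : ℤ) ≤ h.r := by exact_mod_cast h2
    nlinarith
  exact_mod_cast this

lemma o_zero {y : K} (h0 : y ≠ 0) (hy : v.o y = 0) : w.o (φ y) = 0 := by
  rw [h.spec y h0, hy, mul_zero]

lemma isGood {d : ℕ} {A B : K[X]} (hres : resultant A B d d ≠ 0) (hg : IsGood v d A B) :
    IsGood w d (A.map φ) (B.map φ) := by
  obtain ⟨c, hc, hA, hB, hr⟩ := hg
  have key : ∀ y : K, v.ge (v.o c) y → w.ge (w.o (φ c)) (φ y) := by
    intro y hy
    by_cases h0 : y = 0
    · left; rw [h0, map_zero]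
    right
    have h1 : v.o c ≤ v.o y := by exact_mod_cast DV.ge_le hy h0
    rw [h.spec y h0, h.spec c hc]
    have : (h.r : ℤ) * v.o c ≤ (h.r : ℤ) * v.o y := mul_le_mul_of_nonneg_left h1 (by positivity)
    exact_mod_cast this
  refine ⟨φ c, by rw [Ne, map_eq_zero]; exact hc, fun i => ?_, fun i => ?_, ?_⟩
  · rw [coeff_map]; exact key _ (hA i)
  · rw [coeff_map]; exact key _ (hB i)
  · rw [resultant_map_map, h.spec _ hres, h.spec c hc, hr]
    ring

end VHom

lemma resultant_ne_zero_of_isRat {K : Type*} [Field K] {A B : K[X]} {d : ℕ} (hd : 1 ≤ d)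
    (h : IsRat A B d) : resultant A B d d ≠ 0 := by
  apply Pool.Agent.Helper55.RD.resultant_ne_zero_of_isCoprime h.cop h.dA h.dB ?_ hd
  rcases h.top with h3 | h3
  · exact Or.inl (le_antisymm h.dA (le_natDegree_of_ne_zero h3))
  · exact Or.inr (le_antisymm h.dB (le_natDegree_of_ne_zero h3))

end Pool.Agent.Helper33.PS

end

section

set_option autoImplicit false

set_option linter.style.haveILetI false

namespace Pool.Agent.Helper45.S4

open Polynomial IntermediateField Pool.Agent.Helper16 Pool.Agent.Helper33 Pool.Agent.Helper45.FF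

variable {k L : Type} [Field k] [Field L] [Algebra k L]

theorem res_unique (v : Place k L) (x : L) (c c' : k) (h : v.val (x - algebraMap k L c) < 1)
    (h' : v.val (x - algebraMap k L c') < 1) : c = c' := by
  by_contra hne
  have h1 : v.val (algebraMap k L (c' - c)) = 1 := v.triv _ (sub_ne_zero.2 (Ne.symm hne))
  have h2 : algebraMap k L (c' - c) = (x - algebraMap k L c) - (x - algebraMap k L c') := by
    rw [map_sub]; ring
  have h3 : v.val (algebraMap k L (c' - c)) < 1 := by
    rw [h2]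
    exact lt_of_le_of_lt (v.val.map_sub _ _) (max_lt h h')
  exact absurd h1 h3.ne

end Pool.Agent.Helper45.S4

end

section

set_option autoImplicit false

set_option linter.style.haveILetI false

namespace Pool.Agent.Helper38.DT

open Polynomial IntermediateField Pool.Agent.Helper16 Pool.Agent.Helper45.FF
  Pool.Agent.Helper45.S4

section val

variable {E M : Type} [Field E] [Field M] [Algebra E M]

/-- the function `y` has the value `c` at the place `w` -/
def HasVal (w : Place E M) (y : M) (c : E) : Prop := w.val (y - algebraMap E M c) < 1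

variable {w : Place E M} {u v : M} {a b c : E}

theorem HasVal.unique (h : HasVal w u a) (h' : HasVal w u b) : a = b := res_unique w u a b h h'

theorem val_const_le (w : Place E M) (c : E) : w.val (algebraMap E M c) ≤ 1 := by
  by_cases hc : c = 0
  · simp [hc]
  · exact (w.triv c hc).le

theorem HasVal.le (h : HasVal w u a) : w.val u ≤ 1 := by
  have h1 : u = (u - algebraMap E M a) + algebraMap E M a := by ring
  rw [h1]
  exact (w.val.map_add _ _).trans (max_le (le_of_lt h) (val_const_le w a))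

theorem hasVal_const (w : Place E M) (c : E) : HasVal w (algebraMap E M c) c := by
  unfold HasVal
  rw [sub_self, map_zero]
  exact zero_lt_one

theorem HasVal.add (h : HasVal w u a) (h' : HasVal w v b) : HasVal w (u + v) (a + b) := by
  unfold HasVal at *
  have h1 : u + v - algebraMap E M (a + b) = (u - algebraMap E M a) + (v - algebraMap E M b) := by
    rw [map_add]; ring
  rw [h1]
  exact lt_of_le_of_lt (w.val.map_add _ _) (max_lt h h')

theorem HasVal.mul (h : HasVal w u a) (h' : HasVal w v b) : HasVal w (u * v) (a * b) := by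
  have hv := h'.le
  unfold HasVal at *
  have h1 : u * v - algebraMap E M (a * b) = (u - algebraMap E M a) * v +
      algebraMap E M a * (v - algebraMap E M b) := by
    rw [map_mul]; ring
  rw [h1]
  refine lt_of_le_of_lt (w.val.map_add _ _) (max_lt ?_ ?_)
  · rw [map_mul]
    exact lt_of_le_of_lt (mul_le_of_le_one_right' hv) h
  · rw [map_mul]
    exact lt_of_le_of_lt (mul_le_of_le_one_left' (val_const_le w a)) h'

theorem HasVal.pow (h : HasVal w u a) (n : ℕ) : HasVal w (u ^ n) (a ^ n) := by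
  induction n with
  | zero =>
    rw [pow_zero, pow_zero]
    have := hasVal_const w (1 : E)
    rwa [map_one] at this
  | succ n ih => rw [pow_succ, pow_succ]; exact ih.mul h

theorem HasVal.aeval (h : HasVal w u a) (A : E[X]) : HasVal w (aeval u A) (A.eval a) := by
  induction A using Polynomial.induction_on' with
  | add p q hp hq => rw [map_add, eval_add]; exact hp.add hq
  | monomial n c =>
    rw [aeval_monomial, eval_monomial]
    exact (hasVal_const w c).mul (h.pow n)

theorem HasVal.val_eq_one (h : HasVal w u a) (ha : a ≠ 0) : w.val u = 1 := by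
  refine le_antisymm h.le ?_
  by_contra hcon
  rw [not_le] at hcon
  have h0 : HasVal w u 0 := by
    unfold HasVal
    rw [map_zero, sub_zero]
    exact hcon
  exact ha (h.unique h0)

theorem HasVal.ne_zero (h : HasVal w u a) (ha : a ≠ 0) : u ≠ 0 := by
  rintro rfl
  have := h.val_eq_one ha
  rw [map_zero] at this
  exact zero_ne_one this

theorem HasVal.inv (h : HasVal w u a) (ha : a ≠ 0) : HasVal w u⁻¹ a⁻¹ := by
  have h1 := h.val_eq_one ha
  have hu := h.ne_zero ha
  have ha' : algebraMap E M a ≠ 0 := by simpa using ha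
  unfold HasVal at *
  have h2 : u⁻¹ - algebraMap E M a⁻¹ = -(u - algebraMap E M a) * (u⁻¹ * (algebraMap E M a)⁻¹) := by
    rw [map_inv₀]
    field_simp
    ring
  rw [h2, map_mul, Valuation.map_neg, map_mul, map_inv₀, map_inv₀, h1, w.triv a ha]
  simpa using h

theorem HasVal.div (h : HasVal w u a) (h' : HasVal w v b) (hb : b ≠ 0) : HasVal w (u / v) (a / b) := by
  rw [div_eq_mul_inv, div_eq_mul_inv]
  exact h.mul (h'.inv hb)

end val

end Pool.Agent.Helper38.DT

end

section

set_option autoImplicit false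

set_option linter.style.haveILetI false

namespace Pool.Agent.Helper38.DT

open Polynomial IntermediateField Pool.Agent.Helper16

section mob

variable {E M : Type} [Field E] [Field M] [Algebra E M]

theorem HasVal.mob {w : Place E M} {y : M} {b : E} (h : HasVal w y b)
    (A : Matrix (Fin 2) (Fin 2) E) (hb : A 1 0 * b + A 1 1 ≠ 0) :
    HasVal w (mob A y) ((A 0 0 * b + A 0 1) / (A 1 0 * b + A 1 1)) :=
  (((hasVal_const w _).mul h).add (hasVal_const w _)).div
    (((hasVal_const w _).mul h).add (hasVal_const w _)) hb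

/-- A Moebius transformation with three fixed values is the identity. -/
theorem mob_eq_self {y : M} (hy : Transcendental E y) {A : Matrix (Fin 2) (Fin 2) E}
    (hA : A.det ≠ 0) (w : Fin 3 → Place E M) (c : Fin 3 → E) (hc : Function.Injective c)
    (h1 : ∀ i, HasVal (w i) y (c i)) (h2 : ∀ i, HasVal (w i) (mob A y) (c i)) : mob A y = y := by
  have h3 : ∀ i, A 0 0 * c i + A 0 1 = c i * (A 1 0 * c i + A 1 1) := by
    intro i
    have h4 : mob A y * (algebraMap E M (A 1 0) * y + algebraMap E M (A 1 1)) =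
        algebraMap E M (A 0 0) * y + algebraMap E M (A 0 1) :=
      div_mul_cancel₀ _ (lin_ne_zero hy (det_row hA 1))
    have h5 := (h2 i).mul (((hasVal_const (w i) (A 1 0)).mul (h1 i)).add (hasVal_const (w i) (A 1 1)))
    rw [h4] at h5
    exact (((hasVal_const (w i) (A 0 0)).mul (h1 i)).add (hasVal_const (w i) (A 0 1))).unique h5
  have h01 : c 0 - c 1 ≠ 0 := sub_ne_zero.2 fun h => by simpa using hc h
  have h02 : c 0 - c 2 ≠ 0 := sub_ne_zero.2 fun h => by simpa using hc h
  have h12 : c 1 - c 2 ≠ 0 := sub_ne_zero.2 fun h => by simpa using hc h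
  have e0 := h3 0
  have e1 := h3 1
  have e2 := h3 2
  have f1 : A 0 0 = A 1 0 * (c 0 + c 1) + A 1 1 := by
    apply mul_right_cancel₀ h01
    linear_combination e0 - e1
  have f2 : A 0 0 = A 1 0 * (c 0 + c 2) + A 1 1 := by
    apply mul_right_cancel₀ h02
    linear_combination e0 - e2
  have g1 : A 1 0 = 0 := by
    apply mul_right_cancel₀ h12
    linear_combination f2 - f1
  have g2 : A 0 0 = A 1 1 := by rw [f1, g1]; ring
  have g3 : A 0 1 = 0 := by
    have := e0
    rw [g1, g2] at this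
    linear_combination this
  have g4 : A 1 1 ≠ 0 := by
    intro h
    apply hA
    rw [Matrix.det_fin_two, g2, h, g1]; ring
  have g4' : algebraMap E M (A 1 1) ≠ 0 := by simpa using g4
  unfold mob
  rw [g1, g2, g3]
  simp only [map_zero, zero_mul, zero_add, add_zero]
  exact mul_div_cancel_left₀ _ g4'

end mob

end Pool.Agent.Helper38.DT

end

section

set_option autoImplicit false

set_option linter.style.haveILetI false

namespace Pool.Agent.Helper31.RRK

open Polynomial IntermediateField Pool.Agent.Helper16 Pool.Agent.Helper33 Pool.Agent.Helper45.FF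

open Pool.Agent.Helper45.S4 Pool.Agent.Helper47.RR

section ord

variable {k L : Type} [Field k] [Field L] [Algebra k L]

variable (v : Place k L) (D : Derivation k L L)

theorem exists_frac_ring (x : L) : ∃ a b : L, v.val a ≤ 1 ∧ v.val b ≤ 1 ∧ b ≠ 0 ∧ x = a * b⁻¹ := by
  rcases le_total (v.val x) 1 with h | h
  · exact ⟨x, 1, h, by simp, one_ne_zero, by simp⟩
  · by_cases hx : x = 0
    · exact ⟨0, 1, by simp, by simp, one_ne_zero, by simp [hx]⟩
    refine ⟨1, x⁻¹, by simp, ?_, inv_ne_zero hx, by simp⟩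
    rw [map_inv₀]
    exact inv_le_one_of_one_le₀ h

end ord

end Pool.Agent.Helper31.RRK

end

section

set_option autoImplicit false

set_option linter.style.haveILetI false

set_option linter.unusedSectionVars false

namespace Pool.Agent.Helper31.RRK

open Polynomial IntermediateField Pool.Agent.Helper16 Pool.Agent.Helper33 Pool.Agent.Helper45.FF

open Pool.Agent.Helper45.S4 Pool.Agent.Helper47.RR

open scoped Pointwise

variable {k L M : Type} [Field k] [Field L] [Field M] [Algebra k L] [Algebra k M] [Algebra L M]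
  [IsScalarTower k L M]

variable [IsAlgClosed k] {hN : IsFunctionField k L} [FiniteDimensional L M]

section ring

variable {F : Type} [Field F] [Algebra k F] (v : Place k F)

instance instFracRing : IsFractionRing v.ring F := by
  haveI : FaithfulSMul v.ring F := inferInstance
  apply IsFractionRing.of_field
  intro z
  obtain ⟨a, b, ha, hb, hb0, rfl⟩ := exists_frac_ring v z
  exact ⟨⟨a, ha⟩, ⟨b, hb⟩, by rw [div_eq_mul_inv]; rfl⟩

end ring

end Pool.Agent.Helper31.RRK

end

section

set_option autoImplicit false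

open Polynomial Finset Pool.Agent.Helper33 Pool.Agent.Helper33.PS Pool.Agent.Helper55.RD

namespace Pool.Agent.Helper82.PS

variable {K : Type*} [Field K] {v : DV K}

lemma intP_scale {A : K[X]} {c : K} (hc : c ≠ 0) (hA : ∀ i, v.ge (v.o c) (A.coeff i)) :
    IntP v (C c⁻¹ * A) := by
  intro i
  rw [coeff_C_mul]
  have h1 : v.ge (-(v.o c : ℝ)) c⁻¹ := DV.ge_inv hc le_rfl
  have h2 := DV.ge_mul h1 (hA i)
  rwa [neg_add_cancel] at h2

lemma resultant_scale {A B : K[X]} {d : ℕ} {c : K} :
    resultant (C c⁻¹ * A) (C c⁻¹ * B) d d = (c⁻¹) ^ d * ((c⁻¹) ^ d * resultant A B d d) := by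
  rw [resultant_C_mul_left, resultant_C_mul_right]

lemma o_resultant_scale {A B : K[X]} {d : ℕ} {c : K} (hc : c ≠ 0) (hR : resultant A B d d ≠ 0) :
    v.o (resultant (C c⁻¹ * A) (C c⁻¹ * B) d d) = v.o (resultant A B d d) - 2 * d * v.o c := by
  have h1 : (c⁻¹) ^ d ≠ 0 := pow_ne_zero _ (inv_ne_zero hc)
  rw [resultant_scale, v.mul _ _ h1 (mul_ne_zero h1 hR), v.mul _ _ h1 hR,
    v.o_pow _ (inv_ne_zero hc), v.o_inv c hc]
  ring

lemma ge_eval {P : K[X]} (hP : IntP v P) {x : K} (hx : v.ge 0 x) : v.ge 0 (P.eval x) := by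
  have h := ge_hom_zero (n := P.natDegree) hP hx (b := 1) DV.ge_one
  rwa [hom_eval le_rfl] at h

/-- G1 -/
theorem o_eval_of_good {K : Type*} [Field K] (v : DV K) {d : ℕ} (hd : 1 ≤ d) {A B : K[X]}
    (hAB : IsRat A B d)
    {c : K} (hc : c ≠ 0) (hA : ∀ i, v.ge (v.o c) (A.coeff i)) (hB : ∀ i, v.ge (v.o c) (B.coeff i))
    (hr : v.o (resultant A B d d) = 2 * d * v.o c) {x : K} (hx : v.ge 0 x) (hBx : B.eval x ≠ 0)
    (hfx : v.ge 0 (A.eval x / B.eval x)) : v.o (B.eval x) = v.o c := by
  have hR : resultant A B d d ≠ 0 := resultant_ne_zero_of_isRat hd hAB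
  have hf : IntP v (C c⁻¹ * A) := intP_scale hc hA
  have hg : IntP v (C c⁻¹ * B) := intP_scale hc hB
  have hR' : resultant (C c⁻¹ * A) (C c⁻¹ * B) d d ≠ 0 := by
    rw [resultant_scale]
    exact mul_ne_zero (pow_ne_zero _ (inv_ne_zero hc)) (mul_ne_zero (pow_ne_zero _ (inv_ne_zero hc)) hR)
  have hdg : (C c⁻¹ * B).natDegree ≤ d := (natDegree_C_mul_le _ _).trans hAB.dB
  have hdf : (C c⁻¹ * A).natDegree ≤ d := (natDegree_C_mul_le _ _).trans hAB.dA
  have hgx : (C c⁻¹ * B).eval x ≠ 0 := by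
    rw [eval_mul, eval_C]; exact mul_ne_zero (inv_ne_zero hc) hBx
  have h1 : v.ge (v.o ((C c⁻¹ * B).eval x)) (hom d (C c⁻¹ * A) x 1) := by
    rw [hom_eval hdf]
    have h2 : (C c⁻¹ * A).eval x = (C c⁻¹ * B).eval x * (A.eval x / B.eval x) := by
      simp only [eval_mul, eval_C]
      (clear * - hBx hc; field_simp)
    rw [h2]
    have h3 := DV.ge_mul (DV.ge_self (v := v) ((C c⁻¹ * B).eval x)) hfx
    rwa [add_zero] at h3
  have h2 : v.ge (v.o ((C c⁻¹ * B).eval x)) (hom d (C c⁻¹ * B) x 1) := by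
    rw [hom_eval hdg]; exact DV.ge_self _
  have hprim : Prim v (x, 1) := ⟨hx, DV.ge_one, Or.inr ⟨one_ne_zero, v.o_one⟩⟩
  have h3 := le_resultant hd hR' hf hg hprim h1 h2
  rw [o_resultant_scale hc hR, hr, sub_self] at h3
  have h4 : (0 : ℝ) ≤ v.o ((C c⁻¹ * B).eval x) := DV.ge_le (ge_eval hg hx) hgx
  have h5 : v.o ((C c⁻¹ * B).eval x) = - v.o c + v.o (B.eval x) := by
    rw [eval_mul, eval_C, v.mul _ _ (inv_ne_zero hc) hBx, v.o_inv c hc]
  rw [h5] at h3 h4
  push_cast at h3 h4
  have h6 : (v.o (B.eval x) : ℝ) = v.o c := by (clear * - h4 h3; linarith)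
  exact_mod_cast h6

/-- the difference quotient of the pair -/
lemma ge_cross {P Q : K[X]} (hP : IntP v P) (hQ : IntP v Q) {x y : K} (hx : v.ge 0 x)
    (hy : v.ge 0 y) {c : ℝ} (hxy : v.ge c (x - y)) :
    v.ge c (P.eval x * Q.eval y - P.eval y * Q.eval x) := by
  have key : ∀ P : K[X], IntP v P → v.ge c (P.eval x - P.eval y) := by
    intro P hP
    have h1 : P.eval x - P.eval y = ∑ i ∈ range (P.natDegree + 1),
        P.coeff i * ((∑ j ∈ range i, x ^ j * y ^ (i - 1 - j)) * (x - y)) := by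
      rw [eval_eq_sum_range, eval_eq_sum_range, ← sum_sub_distrib]
      refine sum_congr rfl fun i _ => ?_
      rw [(Commute.all x y).geom_sum₂_mul]
      ring
    rw [h1]
    refine DV.ge_sum _ _ fun i _ => ?_
    have h2 : v.ge 0 (∑ j ∈ range i, x ^ j * y ^ (i - 1 - j)) := by
      refine DV.ge_sum _ _ fun j _ => ?_
      have := DV.ge_mul (DV.ge_pow hx j) (DV.ge_pow hy (i - 1 - j))
      simpa using this
    have h3 := DV.ge_mul (hP i) (DV.ge_mul h2 hxy)
    rwa [zero_add, zero_add] at h3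
  have h1 : P.eval x * Q.eval y - P.eval y * Q.eval x =
      (P.eval x - P.eval y) * Q.eval y - P.eval y * (Q.eval x - Q.eval y) := by ring
  rw [h1]
  have h2 := DV.ge_mul (key P hP) (ge_eval hQ hy)
  have h3 := DV.ge_mul (ge_eval hP hy) (key Q hQ)
  rw [add_zero] at h2
  rw [zero_add] at h3
  exact DV.ge_sub h2 h3

/-- G2 -/
theorem congr_of_good {K : Type*} [Field K] (v : DV K) {d : ℕ} {A B : K[X]} (hAB : IsRat A B d)
    (hg : IsGood v d A B) {x y : K} (hx : v.ge 0 x) (hy : v.ge 0 y) (hBx : B.eval x ≠ 0)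
    (hBy : B.eval y ≠ 0) (hfx : v.ge 0 (A.eval x / B.eval x)) (hfy : v.ge 0 (A.eval y / B.eval y))
    (ν : ℕ) (hxy : v.ge ν (x - y)) : v.ge ν (A.eval x / B.eval x - A.eval y / B.eval y) := by
  rcases Nat.eq_zero_or_pos d with hd | hd
  · subst hd
    have h1 := eq_C_of_natDegree_le_zero hAB.dA
    have h2 := eq_C_of_natDegree_le_zero hAB.dB
    rw [h1, h2]
    left
    simp
  obtain ⟨c, hc, hA, hB, hr⟩ := hg
  have h1 := o_eval_of_good v hd hAB hc hA hB hr hx hBx hfx
  have h2 := o_eval_of_good v hd hAB hc hA hB hr hy hBy hfy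
  have hf : IntP v (C c⁻¹ * A) := intP_scale hc hA
  have hg : IntP v (C c⁻¹ * B) := intP_scale hc hB
  have h3 := ge_cross hf hg hx hy hxy
  have hgx : (C c⁻¹ * B).eval x ≠ 0 := by
    rw [eval_mul, eval_C]; exact mul_ne_zero (inv_ne_zero hc) hBx
  have hgy : (C c⁻¹ * B).eval y ≠ 0 := by
    rw [eval_mul, eval_C]; exact mul_ne_zero (inv_ne_zero hc) hBy
  have hox : v.o ((C c⁻¹ * B).eval x) = 0 := by
    rw [eval_mul, eval_C, v.mul _ _ (inv_ne_zero hc) hBx, v.o_inv c hc, h1]; ring
  have hoy : v.o ((C c⁻¹ * B).eval y) = 0 := by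
    rw [eval_mul, eval_C, v.mul _ _ (inv_ne_zero hc) hBy, v.o_inv c hc, h2]; ring
  have h4 : A.eval x / B.eval x - A.eval y / B.eval y =
      ((C c⁻¹ * A).eval x * (C c⁻¹ * B).eval y - (C c⁻¹ * A).eval y * (C c⁻¹ * B).eval x) *
        (((C c⁻¹ * B).eval x)⁻¹ * ((C c⁻¹ * B).eval y)⁻¹) := by
    simp only [eval_mul, eval_C]
    (clear * - hBy hBx hc; field_simp)
  rw [h4]
  have h5 : v.ge (-0 : ℝ) ((C c⁻¹ * B).eval x)⁻¹ := DV.ge_inv hgx (by rw [hox]; simp)
  have h6 : v.ge (-0 : ℝ) ((C c⁻¹ * B).eval y)⁻¹ := DV.ge_inv hgy (by rw [hoy]; simp)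
  have h7 := DV.ge_mul h3 (DV.ge_mul h5 h6)
  simpa using h7

end Pool.Agent.Helper82.PS

end

section

set_option autoImplicit false

open Finset Polynomial

namespace Pool.Agent.Helper98.PS

open Pool.Agent.Helper33 Pool.Agent.Helper33.PS Pool.Agent.Helper93.RatODE Pool.Agent.Helper55.RD

section localbound

variable {K : Type*} [Field K]

lemma scaled {v : DV K} {A B : K[X]} {d n : ℕ} (hd : 1 ≤ d) (hAB : IsRat A B d) {x : ℕ → K}
    (hx : Orb A B x n) (hg : IsGood v d A B) (hint : ∀ j ≤ n, v.ge 0 (x j)) :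
    ∃ c : K, c ≠ 0 ∧ IntP v (C c * A) ∧ IntP v (C c * B) ∧
      ∀ j < n, v.o ((C c * B).eval (x j)) = 0 := by
  obtain ⟨c, hc, hA, hB, hr⟩ := hg
  have hcge : v.ge (-(v.o c : ℝ)) c⁻¹ := by
    right; rw [v.o_inv c hc]; push_cast; exact le_rfl
  refine ⟨c⁻¹, inv_ne_zero hc, ?_, ?_, ?_⟩
  · intro j
    rw [coeff_C_mul]
    simpa using DV.ge_mul hcge (hA j)
  · intro j
    rw [coeff_C_mul]
    simpa using DV.ge_mul hcge (hB j)
  · intro j hj
    have h1 := Helper82.PS.o_eval_of_good v hd hAB hc hA hB hr (hint j hj.le) (hx.ne j hj)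
      (by rw [← hx.step j hj]; exact hint (j + 1) hj)
    rw [eval_mul, eval_C, v.mul _ _ (inv_ne_zero hc) (hx.ne j hj), h1, v.o_inv c hc]
    omega

end localbound

end Pool.Agent.Helper98.PS

end

section

set_option autoImplicit false

open Polynomial Finset Pool.Agent.Helper33 Pool.Agent.Helper33.PS Pool.Agent.Helper55.RD

namespace Pool.Agent.Helper82.PS

/-- the valuation ring -/
def vring {K : Type*} [Field K] (v : DV K) : Subring K where
  carrier := {x | v.ge 0 x}
  mul_mem' := by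
    intro a b ha hb
    have := DV.ge_mul ha hb
    simpa using this
  one_mem' := DV.ge_one
  add_mem' := fun ha hb => DV.ge_add ha hb
  zero_mem' := DV.ge_zero 0
  neg_mem' := fun ha => DV.ge_neg ha

variable {k K : Type*} [Field k] [Field K] [Algebra k K] {v : DV K}

lemma ge_const (hv : ResK k v) (c : k) : v.ge 0 (algebraMap k K c) := by
  by_cases hc : c = 0
  · left; rw [hc, map_zero]
  · right; rw [hv.const c hc]; simp

lemma res_unique (hv : ResK k v) {x : K} {c c' : k} (h : v.ge 1 (x - algebraMap k K c))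
    (h' : v.ge 1 (x - algebraMap k K c')) : c = c' := by
  by_contra hne
  have h1 : c' - c ≠ 0 := sub_ne_zero.mpr (Ne.symm hne)
  have h2 := DV.ge_sub h h'
  have h3 : x - algebraMap k K c - (x - algebraMap k K c') = algebraMap k K (c' - c) := by
    rw [map_sub]; ring
  rw [h3] at h2
  have h4 := DV.ge_le h2 (by rw [Ne, map_eq_zero]; exact h1)
  rw [hv.const _ h1] at h4
  norm_num at h4

/-- the reduction homomorphism -/
noncomputable def red (hv : ResK k v) : vring v →+* k where
  toFun x := (hv.res x x.2).choose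
  map_one' := by
    refine res_unique hv (hv.res _ (1 : vring v).2).choose_spec ?_
    left; simp
  map_mul' x y := by
    refine res_unique hv (hv.res _ (x * y).2).choose_spec ?_
    have hx := (hv.res _ x.2).choose_spec
    have hy := (hv.res _ y.2).choose_spec
    set a := (hv.res _ x.2).choose
    set b := (hv.res _ y.2).choose
    have h1 : ((x * y : vring v) : K) - algebraMap k K (a * b) =
        (x : K) * ((y : K) - algebraMap k K b) + algebraMap k K b * ((x : K) - algebraMap k K a) := by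
      rw [map_mul]; push_cast; ring
    rw [h1]
    have h2 := DV.ge_mul x.2 hy
    have h3 := DV.ge_mul (ge_const hv b) hx
    rw [zero_add] at h2 h3
    exact DV.ge_add h2 h3
  map_zero' := by
    refine res_unique hv (hv.res _ (0 : vring v).2).choose_spec ?_
    left; simp
  map_add' x y := by
    refine res_unique hv (hv.res _ (x + y).2).choose_spec ?_
    have hx := (hv.res _ x.2).choose_spec
    have hy := (hv.res _ y.2).choose_spec
    set a := (hv.res _ x.2).choose
    set b := (hv.res _ y.2).choose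
    have h1 : ((x + y : vring v) : K) - algebraMap k K (a + b) =
        ((x : K) - algebraMap k K a) + ((y : K) - algebraMap k K b) := by
      rw [map_add]; push_cast; ring
    rw [h1]
    exact DV.ge_add hx hy

lemma red_spec (hv : ResK k v) (x : vring v) : v.ge 1 ((x : K) - algebraMap k K (red hv x)) :=
  (hv.res x x.2).choose_spec

/-- lift of an integral polynomial to the valuation ring -/
lemma exists_lift {P : K[X]} (hP : IntP v P) :
    ∃ P' : (vring v)[X], P'.map (vring v).subtype = P ∧ P'.natDegree = P.natDegree := by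
  have h : (↑P.coeffs : Set K) ⊆ vring v := by
    intro x hx
    rw [mem_coe, mem_coeffs_iff] at hx
    obtain ⟨n, _, rfl⟩ := hx
    exact hP n
  exact ⟨P.toSubring (vring v) h, map_toSubring _ _ _, natDegree_toSubring _ _ _⟩

/-- reduction of a pair of polynomials, with resultants and values -/
theorem exists_red (hv : ResK k v) {A B : K[X]} (hA : IntP v A) (hB : IntP v B) (d : ℕ) :
    ∃ A₀ B₀ : k[X], A₀.natDegree ≤ A.natDegree ∧ B₀.natDegree ≤ B.natDegree ∧
      (∀ i, v.ge 1 (A.coeff i - algebraMap k K (A₀.coeff i))) ∧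
      (∀ i, v.ge 1 (B.coeff i - algebraMap k K (B₀.coeff i))) ∧
      v.ge 1 (resultant A B d d - algebraMap k K (resultant A₀ B₀ d d)) ∧
      (∀ x : K, ∀ c : k, v.ge 0 x → v.ge 1 (x - algebraMap k K c) →
        v.ge 1 (A.eval x - algebraMap k K (A₀.eval c)) ∧
        v.ge 1 (B.eval x - algebraMap k K (B₀.eval c))) := by
  obtain ⟨A', hA', hdA⟩ := exists_lift hA
  obtain ⟨B', hB', hdB⟩ := exists_lift hB
  have hcoef : ∀ (P : K[X]) (P' : (vring v)[X]), P'.map (vring v).subtype = P → ∀ i,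
      v.ge 1 (P.coeff i - algebraMap k K ((P'.map (red hv)).coeff i)) := by
    intro P P' h i
    rw [← h, coeff_map, coeff_map]
    exact red_spec hv _
  have heval : ∀ (P : K[X]) (P' : (vring v)[X]), P'.map (vring v).subtype = P →
      ∀ x : K, ∀ c : k, v.ge 0 x → v.ge 1 (x - algebraMap k K c) →
      v.ge 1 (P.eval x - algebraMap k K ((P'.map (red hv)).eval c)) := by
    intro P P' h x c hx hc
    have h1 : P.eval x = (P'.eval ⟨x, hx⟩ : vring v) := by
      rw [← h, eval_map]
      exact eval₂_at_apply (vring v).subtype (⟨x, hx⟩ : vring v)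
    have h2 : red hv ⟨x, hx⟩ = c := res_unique hv (red_spec hv _) hc
    rw [h1, ← h2, eval_map, eval₂_at_apply]
    exact red_spec hv _
  refine ⟨A'.map (red hv), B'.map (red hv), natDegree_map_le.trans hdA.le,
    natDegree_map_le.trans hdB.le, hcoef A A' hA', hcoef B B' hB', ?_, fun x c hx hc =>
      ⟨heval A A' hA' x c hx hc, heval B B' hB' x c hx hc⟩⟩
  have h1 := resultant_map_map A' B' d d (vring v).subtype
  rw [hA', hB'] at h1
  have h2 := resultant_map_map A' B' d d (red hv)
  rw [h1, h2]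
  exact red_spec hv _

end Pool.Agent.Helper82.PS

end

section

set_option autoImplicit false

open Polynomial Finset Pool.Agent.Helper33 Pool.Agent.Helper33.PS Pool.Agent.Helper55.RD

namespace Pool.Agent.Helper82.PS

variable {K : Type*} [Field K]

/-- congruences propagate forward along the orbit -/
lemma orb_congr (v : DV K) {d : ℕ} {A B : K[X]} (hAB : IsRat A B d)
    (hg : IsGood v d A B) {z : ℕ → K} {n : ℕ} (hz : Orb A B z n) (hint : ∀ j ≤ n, v.ge 0 (z j))
    {a b : ℕ} (h : v.ge 1 (z a - z b)) (s : ℕ) (ha : a + s ≤ n) (hb : b + s ≤ n) :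
    v.ge 1 (z (a + s) - z (b + s)) := by
  induction s with
  | zero => simpa using h
  | succ s ih =>
    have h1 := ih (by omega) (by omega)
    have ea : z (a + (s + 1)) = A.eval (z (a + s)) / B.eval (z (a + s)) := hz.step (a + s) (by omega)
    have eb : z (b + (s + 1)) = A.eval (z (b + s)) / B.eval (z (b + s)) := hz.step (b + s) (by omega)
    have h2 := congr_of_good v hAB hg (x := z (a + s)) (y := z (b + s)) (hint _ (by omega))
      (hint _ (by omega)) (hz.ne _ (by omega)) (hz.ne _ (by omega))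
      (by rw [← ea]; exact hint _ (by omega)) (by rw [← eb]; exact hint _ (by omega)) 1
      (by simpa using h1)
    rw [ea, eb]
    simpa using h2

end Pool.Agent.Helper82.PS

end

section

set_option autoImplicit false

open Finset Polynomial

namespace Pool.Agent.Helper36.PS

open Pool.Agent.Helper33 Pool.Agent.Helper33.PS Pool.Agent.Helper36.S5

variable {k E : Type*} [Field k] [Field E] [Algebra k E]

/-- the valuation ring -/
def Oring (w : DV E) : Subring E where
  carrier := {x | w.ge 0 x}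
  mul_mem' {a b} ha hb := by
    have := DV.ge_mul (v := w) ha hb
    rwa [add_zero] at this
  one_mem' := DV.ge_one
  add_mem' {a b} ha hb := DV.ge_add (v := w) ha hb
  zero_mem' := DV.ge_zero _
  neg_mem' {a} ha := DV.ge_neg (v := w) ha

lemma res_unique {w : DV E} (hw : ResK k w) {x : E} {c c' : k}
    (h : w.ge 1 (x - algebraMap k E c)) (h' : w.ge 1 (x - algebraMap k E c')) : c = c' := by
  by_contra hne
  have h1 : w.ge 1 (algebraMap k E (c' - c)) := by
    have h2 := DV.ge_sub h h'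
    have e : x - algebraMap k E c - (x - algebraMap k E c') = algebraMap k E (c' - c) := by
      rw [map_sub]; ring
    rwa [e] at h2
  have h2 : c' - c ≠ 0 := sub_ne_zero.mpr (Ne.symm hne)
  have h3 : algebraMap k E (c' - c) ≠ 0 := by
    rw [Ne, map_eq_zero]; exact h2
  have h4 := DV.ge_le h1 h3
  rw [hw.const _ h2] at h4
  norm_num at h4

/-- the residue -/
noncomputable def resFun {w : DV E} (hw : ResK k w) (x : Oring w) : k := (hw.res x.1 x.2).choose

lemma resFun_spec {w : DV E} (hw : ResK k w) (x : Oring w) :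
    w.ge 1 (x.1 - algebraMap k E (resFun hw x)) := (hw.res x.1 x.2).choose_spec

lemma resFun_eq {w : DV E} (hw : ResK k w) (x : Oring w) (c : k)
    (h : w.ge 1 (x.1 - algebraMap k E c)) : resFun hw x = c :=
  res_unique hw (resFun_spec hw x) h

lemma ge_const {w : DV E} (hw : ResK k w) (c : k) : w.ge 0 (algebraMap k E c) := by
  by_cases hc : c = 0
  · rw [hc, map_zero]; exact DV.ge_zero _
  · right; rw [hw.const c hc]; simp

/-- the residue map -/
noncomputable def resMap {w : DV E} (hw : ResK k w) : Oring w →+* k where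
  toFun := resFun hw
  map_one' := resFun_eq hw 1 1 (by simp [DV.ge_zero])
  map_zero' := resFun_eq hw 0 0 (by simp [DV.ge_zero])
  map_add' x y := by
    apply resFun_eq
    have h := DV.ge_add (resFun_spec hw x) (resFun_spec hw y)
    have e : x.1 - algebraMap k E (resFun hw x) + (y.1 - algebraMap k E (resFun hw y)) =
        (x + y : Oring w).1 - algebraMap k E (resFun hw x + resFun hw y) := by
      rw [map_add]; push_cast; ring
    rwa [e] at h
  map_mul' x y := by
    apply resFun_eq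
    have h1 := DV.ge_mul (resFun_spec hw x) y.2
    have h2 := DV.ge_mul (ge_const hw (resFun hw x)) (resFun_spec hw y)
    rw [add_zero] at h1
    rw [zero_add] at h2
    have h := DV.ge_add h1 h2
    have e : (x.1 - algebraMap k E (resFun hw x)) * y.1 +
        algebraMap k E (resFun hw x) * (y.1 - algebraMap k E (resFun hw y)) =
        (x * y : Oring w).1 - algebraMap k E (resFun hw x * resFun hw y) := by
      rw [map_mul]; push_cast; ring
    rwa [e] at h

lemma resMap_const {w : DV E} (hw : ResK k w) (c : k) (h : algebraMap k E c ∈ Oring w) :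
    resMap hw ⟨algebraMap k E c, h⟩ = c :=
  resFun_eq hw _ c (by simp [DV.ge_zero])

lemma resMap_eq_zero {w : DV E} (hw : ResK k w) (x : Oring w) :
    resMap hw x = 0 ↔ w.ge 1 x.1 := by
  constructor
  · intro h
    have h1 := resFun_spec hw x
    have h2 : resFun hw x = 0 := h
    rwa [h2, map_zero, sub_zero] at h1
  · intro h
    exact resFun_eq hw x 0 (by rwa [map_zero, sub_zero])

lemma resMap_eq {w : DV E} (hw : ResK k w) (x y : Oring w) :
    resMap hw x = resMap hw y ↔ w.ge 1 (x.1 - y.1) := by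
  rw [← sub_eq_zero, ← map_sub, resMap_eq_zero]
  rfl

lemma resMap_ne_zero {w : DV E} (hw : ResK k w) (x : Oring w) (hx : x.1 ≠ 0) (h : w.o x.1 = 0) :
    resMap hw x ≠ 0 := by
  intro h0
  have h1 := DV.ge_le ((resMap_eq_zero hw x).mp h0) hx
  rw [h] at h1
  norm_num at h1

/-- a uniformiser -/
lemma exists_uniformiser (w : DV E) (hw : ∃ x : E, x ≠ 0 ∧ w.o x ≠ 0) :
    ∃ t : E, t ≠ 0 ∧ 0 < w.o t ∧ ∀ x : E, x ≠ 0 → 0 < w.o x → w.o t ≤ w.o x := by
  classical
  obtain ⟨x, hx, hox⟩ := hw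
  have hex : ∃ n : ℕ, 0 < n ∧ ∃ y : E, y ≠ 0 ∧ w.o y = n := by
    rcases lt_or_gt_of_ne hox with h | h
    · refine ⟨(-(w.o x)).toNat, by omega, x⁻¹, inv_ne_zero hx, ?_⟩
      rw [w.o_inv x hx]; omega
    · exact ⟨(w.o x).toNat, by omega, x, hx, by omega⟩
  obtain ⟨h1, t, ht, hot⟩ := Nat.find_spec hex
  refine ⟨t, ht, by omega, fun y hy hoy => ?_⟩
  rw [hot]
  have h2 := Nat.find_min' hex (m := (w.o y).toNat) ⟨by omega, y, hy, by omega⟩
  omega

theorem exists_loc {w : DV E} (hw : ResK k w) (hnt : ∃ x : E, x ≠ 0 ∧ w.o x ≠ 0) :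
    ∃ τ : Oring w, 0 < w.o τ.1 ∧ Loc (resMap hw) τ := by
  obtain ⟨t, ht, hot, hmin⟩ := exists_uniformiser w hnt
  have htO : t ∈ Oring w := Or.inr (by exact_mod_cast hot.le)
  refine ⟨⟨t, htO⟩, hot, ?_, ?_, ?_⟩
  · intro h; exact ht (congrArg Subtype.val h)
  · intro x
    rw [resMap_eq_zero]
    constructor
    · intro h
      by_cases hx : x.1 = 0
      · have : x = 0 := Subtype.ext hx
        rw [this]; exact dvd_zero _
      · have h1 : 1 ≤ w.o x.1 := by
          have := DV.ge_le h hx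
          exact_mod_cast this
        have h2 := hmin x.1 hx (by omega)
        have h3 : x.1 / t ∈ Oring w := by
          right
          rw [w.o_div _ _ hx ht]
          push_cast
          have : (w.o t : ℝ) ≤ w.o x.1 := by exact_mod_cast h2
          (clear * - this; linarith)
        refine ⟨⟨x.1 / t, h3⟩, ?_⟩
        apply Subtype.ext
        push_cast
        field_simp
    · rintro ⟨y, rfl⟩
      have h1 : w.ge 1 t := Or.inr (by
        have : (1 : ℤ) ≤ w.o t := by omega
        exact_mod_cast this)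
      have h2 := DV.ge_mul h1 y.2
      rw [add_zero] at h2
      exact h2
  · intro x hx
    by_contra hne
    have hx0 : x.1 ≠ 0 := fun h => hne (Subtype.ext h)
    obtain ⟨y, hy⟩ := hx ((w.o x.1).toNat + 1)
    have hy0 : y.1 ≠ 0 := by
      intro h
      apply hx0
      rw [hy]; push_cast; rw [h, mul_zero]
    have h1 : 0 ≤ w.o y.1 := by
      have := DV.ge_le y.2 hy0
      exact_mod_cast this
    have h2 : w.o x.1 = ((w.o x.1).toNat + 1 : ℕ) * w.o t + w.o y.1 := by
      have h3 : x.1 = t ^ ((w.o x.1).toNat + 1) * y.1 := by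
        conv_lhs => rw [hy]
        push_cast
        rfl
      conv_lhs => rw [h3]
      rw [w.mul _ _ (pow_ne_zero _ ht) hy0, w.o_pow t ht]
    have h3 : 0 ≤ w.o x.1 := by
      have := DV.ge_le x.2 hx0
      exact_mod_cast this
    have h4 : (((w.o x.1).toNat + 1 : ℕ) : ℤ) * 1 ≤ (((w.o x.1).toNat + 1 : ℕ) : ℤ) * w.o t :=
      mul_le_mul_of_nonneg_left (by omega) (by (clear * -; positivity))
    push_cast at h2 h4
    rw [Int.toNat_of_nonneg h3] at h2 h4
    linarith

/-- lifting polynomials -/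
lemma exists_lift {w : DV E} (P : E[X]) (hP : ∀ i, w.ge 0 (P.coeff i)) :
    ∃ Po : (Oring w)[X], Po.map (Oring w).subtype = P := by
  have h : P ∈ Polynomial.lifts (Oring w).subtype := by
    rw [lifts_iff_coeff_lifts]
    intro n
    exact ⟨⟨P.coeff n, hP n⟩, rfl⟩
  exact (mem_lifts P).mp h

lemma exists_lift₂ {w : DV E} (P : E[X][X]) (hP : ∀ i j, w.ge 0 ((P.coeff i).coeff j)) :
    ∃ Po : (Oring w)[X][X], Po.map (mapRingHom (Oring w).subtype) = P := by
  have h : P ∈ Polynomial.lifts (mapRingHom (Oring w).subtype) := by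
    rw [lifts_iff_coeff_lifts]
    intro n
    obtain ⟨q, hq⟩ := exists_lift (P.coeff n) (hP n)
    exact ⟨q, hq⟩
  exact (mem_lifts P).mp h

end Pool.Agent.Helper36.PS

end

section

set_option autoImplicit false

open Finset Polynomial

namespace Pool.Agent.Helper36.PS

open Pool.Agent.Helper33 Pool.Agent.Helper33.PS Pool.Agent.Helper36.S5 Pool.Agent.Helper93.RatODE

section Good

variable {k E : Type*} [Field k] [Field E] [Algebra k E]

lemma rat_of_resultant {A B : k[X]} {d : ℕ} (hd : 1 ≤ d) (hA : A.natDegree ≤ d)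
    (hB : B.natDegree ≤ d) (hr : resultant A B d d ≠ 0) : Rat A B d := by
  refine ⟨?_, hA, hB, ?_⟩
  · obtain ⟨p, q, _, _, h⟩ := exists_mul_add_mul_eq_C_resultant A B hA hB (Or.inl (by omega))
    refine ⟨C (resultant A B d d)⁻¹ * p, C (resultant A B d d)⁻¹ * q, ?_⟩
    have h1 : C (resultant A B d d)⁻¹ * p * A + C (resultant A B d d)⁻¹ * q * B =
        C (resultant A B d d)⁻¹ * (A * p + B * q) := by ring
    rw [h1, h, ← C_mul, inv_mul_cancel₀ hr, C_1]
  · by_contra hcon
    push Not at hcon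
    apply hr
    have key : ∀ P : k[X], P.natDegree ≤ d → P.coeff d = 0 → P.natDegree < d := by
      intro P hP hPd
      rcases hP.lt_or_eq with h | h
      · exact h
      · exfalso
        have h1 : P.leadingCoeff = 0 := by rw [leadingCoeff, h]; exact hPd
        rw [leadingCoeff_eq_zero.mp h1] at h
        simp at h
        omega
    exact resultant_eq_zero_of_lt_lt _ _ _ _ (key A hA hcon.1) (key B hB hcon.2)

/-- integral model with good reduction -/
lemma exists_model {w : DV E} (hw : ResK k w) {A B : E[X]} {d : ℕ} (hd : 1 ≤ d)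
    (hAB : IsRat A B d) (hg : IsGood w d A B) :
    ∃ (c : E) (Ao Bo : (Oring w)[X]), c ≠ 0 ∧ Ao.map (Oring w).subtype = C c * A ∧
      Bo.map (Oring w).subtype = C c * B ∧ Ao.natDegree ≤ d ∧ Bo.natDegree ≤ d ∧
      Rat (Ao.map (resMap hw)) (Bo.map (resMap hw)) d := by
  obtain ⟨c, hc, hA, hB, hR⟩ := hg
  have hinj : Function.Injective (Oring w).subtype := Subtype.val_injective
  have hint : ∀ P : E[X], (∀ i, w.ge (w.o c) (P.coeff i)) → ∀ i, w.ge 0 ((C c⁻¹ * P).coeff i) := by
    intro P hP i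
    rw [coeff_C_mul]
    have h2 := DV.ge_mul (DV.ge_inv hc le_rfl) (hP i)
    rwa [neg_add_cancel] at h2
  obtain ⟨Ao, hAo⟩ := exists_lift (C c⁻¹ * A) (hint A hA)
  obtain ⟨Bo, hBo⟩ := exists_lift (C c⁻¹ * B) (hint B hB)
  have hAd : Ao.natDegree ≤ d := by
    rw [← natDegree_map_eq_of_injective hinj, hAo]
    exact (natDegree_C_mul_le _ _).trans hAB.dA
  have hBd : Bo.natDegree ≤ d := by
    rw [← natDegree_map_eq_of_injective hinj, hBo]
    exact (natDegree_C_mul_le _ _).trans hAB.dB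
  refine ⟨c⁻¹, Ao, Bo, inv_ne_zero hc, hAo, hBo, hAd, hBd, ?_⟩
  apply rat_of_resultant hd (natDegree_map_le.trans hAd) (natDegree_map_le.trans hBd)
  rw [resultant_map_map]
  have hmax : A.natDegree = d ∨ B.natDegree = d := by
    rcases hAB.top with h | h
    · exact Or.inl (le_antisymm hAB.dA (le_natDegree_of_ne_zero h))
    · exact Or.inr (le_antisymm hAB.dB (le_natDegree_of_ne_zero h))
  have hR0 : resultant A B d d ≠ 0 :=
    Pool.Agent.Helper55.RD.resultant_ne_zero_of_isCoprime hAB.cop hAB.dA hAB.dB hmax hd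
  have e1 : (resultant Ao Bo d d).1 = (c⁻¹) ^ d * ((c⁻¹) ^ d * resultant A B d d) := by
    have h1 : (Oring w).subtype (resultant Ao Bo d d) =
        resultant (C c⁻¹ * A) (C c⁻¹ * B) d d := by
      rw [← resultant_map_map, hAo, hBo]
    rw [resultant_C_mul_left, resultant_C_mul_right] at h1
    exact h1
  have h1 : (c⁻¹) ^ d ≠ 0 := pow_ne_zero _ (inv_ne_zero hc)
  apply resMap_ne_zero
  · rw [e1]; exact mul_ne_zero h1 (mul_ne_zero h1 hR0)
  · rw [e1, w.mul _ _ h1 (mul_ne_zero h1 hR0), w.mul _ _ h1 hR0,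
      w.o_pow _ (inv_ne_zero hc), w.o_inv c hc, hR]
    ring

end Good

end Pool.Agent.Helper36.PS

end

section

set_option autoImplicit false

open Finset Polynomial

namespace Pool.Agent.Helper55.LW

open Pool.Agent.Helper33

variable {K : Type*} [Field K]

lemma ge_prod {v : DV K} {ι : Type*} (s : Finset ι) (c : ι → ℝ) (f : ι → K)
    (h : ∀ i ∈ s, v.ge (c i) (f i)) : v.ge (∑ i ∈ s, c i) (∏ i ∈ s, f i) := by
  classical
  induction s using Finset.induction_on with
  | empty => simpa using DV.ge_one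
  | insert a s ha ih =>
    rw [Finset.prod_insert ha, Finset.sum_insert ha]
    exact DV.ge_mul (h a (Finset.mem_insert_self a s)) (ih fun i hi => h i (Finset.mem_insert_of_mem hi))

lemma ge_det {v : DV K} {ι : Type*} [Fintype ι] [DecidableEq ι] (A : Matrix ι ι K) (r w : ι → ℝ)
    (h : ∀ i j, v.ge (r i + w j) (A i j)) : v.ge (∑ i, r i + ∑ j, w j) A.det := by
  rw [Matrix.det_apply']
  apply DV.ge_sum
  intro σ _
  have h1 : v.ge 0 (((Equiv.Perm.sign σ : ℤˣ) : ℤ) : K) := by
    rcases Int.units_eq_one_or (Equiv.Perm.sign σ) with h | h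
    · rw [h]; simpa using (DV.ge_one (v := v))
    · rw [h]
      simpa using DV.ge_neg (DV.ge_one (v := v))
  have h2 := ge_prod Finset.univ (fun i => r (σ i) + w i) (fun i => A (σ i) i)
    (fun i _ => h (σ i) i)
  rw [Finset.sum_add_distrib, Equiv.sum_comp σ r] at h2
  have h3 := DV.ge_mul h1 h2
  rwa [zero_add] at h3

end Pool.Agent.Helper55.LW

end

section

set_option autoImplicit false

open Finset Polynomial

namespace Pool.Agent.Helper55.LWI

open Pool.Agent.Helper33 Pool.Agent.Helper55.LW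

variable {K ι : Type*} [Field K]

/-- pair energy -/
noncomputable def gi (v : DV K) (x : ι → K) (H : ι → ℝ) (q : ℝ) (a b : ι) : ℝ :=
  (v.o (x a - x b) : ℝ) - H a - H b + q

/-- energy of the first `m` terms of a sequence of indices -/
noncomputable def Es (v : DV K) (x : ι → K) (H : ι → ℝ) (q : ℝ) (t : ℕ → ι) (m : ℕ) : ℝ :=
  ∑ i ∈ range m, ∑ j ∈ range i, gi v x H q (t i) (t j)

lemma sum_beta (v : DV K) (x : ι → K) (H : ι → ℝ) (q : ℝ) (z : ℕ → ι) (m : ℕ) :
    ∑ c ∈ range m, (∑ l ∈ range c, (v.o (x (z c) - x (z l)) : ℝ) + -(((m : ℝ) - 1) * H (z c))) =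
      Es v x H q z m - q * (m * ((m : ℝ) - 1) / 2) := by
  have h1 : Es v x H q z m = ∑ c ∈ range m, ∑ l ∈ range c, (v.o (x (z c) - x (z l)) : ℝ) -
      ∑ c ∈ range m, ∑ l ∈ range c, (H (z c) + H (z l)) + ∑ c ∈ range m, ∑ _l ∈ range c, q := by
    unfold Es gi
    rw [← Finset.sum_sub_distrib, ← Finset.sum_add_distrib]
    apply Finset.sum_congr rfl
    intro c _
    rw [← Finset.sum_sub_distrib, ← Finset.sum_add_distrib]
    apply Finset.sum_congr rfl
    intro l _
    ring
  rw [h1, sum_pair (fun i => H (z i)), sum_cst, Finset.sum_add_distrib, Finset.sum_neg_distrib,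
    ← Finset.mul_sum]
  ring

lemma Es_cat (v : DV K) (x : ι → K) (H : ι → ℝ) (q : ℝ) (a z : ℕ → ι) (R : ℕ) :
    Es v x H q (cati R a z) (R + R) = Es v x H q a R +
      ∑ c ∈ range R, (∑ l ∈ range R, gi v x H q (z c) (a l) +
        ∑ l ∈ range c, gi v x H q (z c) (z l)) := by
  unfold Es
  rw [Finset.sum_range_add]
  congr 1
  · apply Finset.sum_congr rfl
    intro i hi
    apply Finset.sum_congr rfl
    intro j hj
    rw [mem_range] at hi hj
    rw [cati, cati, if_pos hi, if_pos (by omega)]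
  · apply Finset.sum_congr rfl
    intro c hc
    rw [Finset.sum_range_add]
    congr 1
    · apply Finset.sum_congr rfl
      intro l hl
      rw [mem_range] at hl
      rw [cati, cati, if_neg (by omega), if_pos hl, Nat.add_sub_cancel_left]
    · apply Finset.sum_congr rfl
      intro l _
      rw [cati, cati, if_neg (by omega), if_neg (by omega), Nat.add_sub_cancel_left,
        Nat.add_sub_cancel_left]

lemma sum_beta' (v : DV K) (x : ι → K) (H : ι → ℝ) (q : ℝ) (a z : ℕ → ι) (R : ℕ) :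
    ∑ c ∈ range R, (∑ l ∈ range c, (v.o (x (z c) - x (z l)) : ℝ) +
      (∑ l ∈ range R, (v.o (x (z c) - x (a l)) : ℝ) + -(((R : ℝ) + R - 1) * H (z c)))) =
      Es v x H q (cati R a z) (R + R) - Es v x H q a R + R * ∑ l ∈ range R, H (a l) -
        q * ((R : ℝ) ^ 2 + R * ((R : ℝ) - 1) / 2) := by
  rw [Es_cat]
  have h1 : ∑ c ∈ range R, (∑ l ∈ range R, gi v x H q (z c) (a l) +
      ∑ l ∈ range c, gi v x H q (z c) (z l)) =
      ∑ c ∈ range R, (∑ l ∈ range c, (v.o (x (z c) - x (z l)) : ℝ) +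
        ∑ l ∈ range R, (v.o (x (z c) - x (a l)) : ℝ))
      - ∑ c ∈ range R, ∑ l ∈ range c, (H (z c) + H (z l)) + ∑ c ∈ range R, ∑ _l ∈ range c, q
      - (∑ c ∈ range R, ∑ l ∈ range R, (H (z c) + H (a l))) +
        ∑ _c ∈ range R, ∑ _l ∈ range R, q := by
    simp only [← Finset.sum_sub_distrib, ← Finset.sum_add_distrib]
    unfold gi
    apply Finset.sum_congr rfl
    intro c _
    rw [← sub_eq_zero]
    simp only [Finset.sum_add_distrib, Finset.sum_sub_distrib]
    ring
  rw [h1, sum_pair (fun i => H (z i)), sum_cst]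
  simp only [Finset.sum_add_distrib, Finset.sum_const, card_range, nsmul_eq_mul,
    Finset.sum_neg_distrib, ← Finset.mul_sum]
  ring

lemma ge_leja {v : DV K} {x y : ι → K} {X : Finset ι} {U : ι → ℝ} {z : ℕ → ι} {r : ℕ}
    (hxy : ∀ i ∈ X, ∀ j ∈ X, i ≠ j → y i ≠ y j ∧ v.o (y i - y j) = v.o (x i - x j))
    (hz1 : ∀ c < r, z c ∈ X)
    (hz : ∀ c < r, ∀ i ∈ X, (∀ l < c, i ≠ z l) →
      ∑ l ∈ range c, (v.o (x (z c) - x (z l)) : ℝ) + U (z c) ≤
        ∑ l ∈ range c, (v.o (x i - x (z l)) : ℝ) + U i)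
    {c : ℕ} (hc : c < r) {i : ι} (hi : i ∈ X) :
    v.ge (∑ l ∈ range c, (v.o (x (z c) - x (z l)) : ℝ) + U (z c) - U i)
      (∏ l ∈ range c, (y i - y (z l))) := by
  by_cases h : ∃ l < c, i = z l
  · obtain ⟨l, hl, hxl⟩ := h
    left
    exact Finset.prod_eq_zero (mem_range.mpr hl) (by rw [hxl, sub_self])
  · push Not at h
    right
    have h2 : ∀ l ∈ range c, y i - y (z l) ≠ 0 ∧ v.o (y i - y (z l)) = v.o (x i - x (z l)) := by
      intro l hl
      rw [mem_range] at hl
      have := hxy i hi (z l) (hz1 l (by omega)) (h l hl)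
      exact ⟨sub_ne_zero.mpr this.1, this.2⟩
    rw [v.o_prod _ _ (fun l hl => (h2 l hl).1), Finset.sum_congr rfl (fun l hl => (h2 l hl).2)]
    push_cast
    have := hz c hc i hi h
    (clear * - this; linarith)

/-- the secant lines -/
lemma ge_line {v : DV K} {δ : ℝ} {xa xb xi ya yb yi : K} (hab : xa ≠ xb) (hai : xi ≠ xa)
    (hbi : xi ≠ xb) (hδ : v.ge δ ((yi - ya) / (xi - xa) - (yi - yb) / (xi - xb))) :
    v.ge ((v.o (xi - xa) : ℝ) + v.o (xi - xb) - v.o (xa - xb) + δ)
      (yi - ((ya - yb) / (xa - xb) * xi + (xa * yb - xb * ya) / (xa - xb))) := by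
  have hab' : xa - xb ≠ 0 := sub_ne_zero.mpr hab
  have hxa' : xi - xa ≠ 0 := sub_ne_zero.mpr hai
  have hxb' : xi - xb ≠ 0 := sub_ne_zero.mpr hbi
  have e : yi - ((ya - yb) / (xa - xb) * xi + (xa * yb - xb * ya) / (xa - xb)) =
      (xi - xa) * ((xi - xb) * ((xa - xb)⁻¹ *
        ((yi - ya) / (xi - xa) - (yi - yb) / (xi - xb)))) := by
    field_simp
    ring
  rw [e]
  refine DV.ge_mono (DV.ge_mul (DV.ge_self (xi - xa)) (DV.ge_mul (DV.ge_self (xi - xb))
    (DV.ge_mul (DV.ge_inv hab' le_rfl) hδ))) (le_of_eq ?_)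
  ring

/-- **Lemma W**, for given pairs. -/
theorem lemmaW_aux (v : DV K) (X : Finset ι) (x y : ι → K) (hx : Set.InjOn x (X : Set ι))
    (hy : Set.InjOn y (X : Set ι))
    (hiso : ∀ i ∈ X, ∀ j ∈ X, i ≠ j → v.o (y i - y j) = v.o (x i - x j)) (δ : ℝ)
    (hδ : ∀ i ∈ X, ∀ j ∈ X, ∀ l ∈ X, i ≠ j → i ≠ l → j ≠ l →
      v.ge δ ((y i - y j) / (x i - x j) - (y i - y l) / (x i - x l)))
    (H : ι → ℝ) (q : ℝ) (R : ℕ)
    (hR : R + R ≤ X.card) (E : ℝ)
    (hE : ∀ t : ℕ → ι, (∀ i < R + R, t i ∈ X) → (∀ i < R + R, ∀ j < i, t i ≠ t j) →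
      E ≤ Es v x H q t (R + R))
    (a b : ℕ → ι) (haX : ∀ l < R, a l ∈ X) (hbX : ∀ l < R, b l ∈ X)
    (haa : ∀ l < R, ∀ j < l, a l ≠ a j) (hbb : ∀ l < R, ∀ j < l, b l ≠ b j)
    (hab : ∀ l < R, a l ≠ b l)
    (hPsi : Es v x H q a R + Es v x H q b R + R * ∑ l ∈ range R, gi v x H q (a l) (b l) ≤ E)
    (I : Fin (R + R) × Fin (R + R) → ι) (hI : ∀ j, I j ∈ X) :
    v.ge (2 * ((R : ℝ) + R - 1) * ∑ j, H (I j) - q * ((R : ℝ) + R - 1) * ((R : ℝ) + R) ^ 2 +
        2 * ((R : ℝ) + R) * E + (R : ℝ) ^ 3 * δ)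
      (Matrix.of fun j (pq : Fin (R + R) × Fin (R + R)) =>
        x (I j) ^ (pq.1 : ℕ) * (y (I j)) ^ (pq.2 : ℕ)).det := by
  classical
  rcases Nat.eq_zero_or_pos R with hR0 | hRpos
  · subst hR0
    have : IsEmpty (Fin (0 + 0)) := ⟨fun i => absurd i.2 (by omega)⟩
    rw [Matrix.det_isEmpty]
    simpa using (DV.ge_one (v := v))
  have hne : Nonempty ι := ⟨a 0⟩
  set n : ℝ := (R : ℝ) + R - 1 with hn
  -- Leja sequences
  obtain ⟨z, hz1, hz2, hz3⟩ := exists_leja (fun y y' => (v.o (x y - x y') : ℝ)) X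
    (fun y => -(n * H y)) (R + R) hR
  have hcardA : R ≤ (X \ (range R).image a).card := by
    have e1 : ((range R).image a).card ≤ R := Finset.card_image_le.trans (by simp)
    have e2 := Finset.le_card_sdiff ((range R).image a) X
    omega
  have hcardB : R ≤ (X \ (range R).image b).card := by
    have e1 : ((range R).image b).card ≤ R := Finset.card_image_le.trans (by simp)
    have e2 := Finset.le_card_sdiff ((range R).image b) X
    omega
  obtain ⟨z', hz1', hz2', hz3'⟩ := exists_leja (fun y y' => (v.o (x y - x y') : ℝ))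
    (X \ (range R).image a)
    (fun y => ∑ l ∈ range R, (v.o (x y - x (a l)) : ℝ) + -(n * H y)) R hcardA
  obtain ⟨z'', hz1'', hz2'', hz3''⟩ := exists_leja (fun y y' => (v.o (x y - x y') : ℝ))
    (X \ (range R).image b)
    (fun y => ∑ l ∈ range R, (v.o (x y - x (b l)) : ℝ) + -(n * H y)) R hcardB
  -- isometries
  have hxx : ∀ i ∈ X, ∀ j ∈ X, i ≠ j → x i ≠ x j ∧ v.o (x i - x j) = v.o (x i - x j) :=
    fun i hi j hj hij => ⟨fun h => hij (hx hi hj h), rfl⟩
  have hyy : ∀ i ∈ X, ∀ j ∈ X, i ≠ j → y i ≠ y j ∧ v.o (y i - y j) = v.o (x i - x j) :=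
    fun i hi j hj hij => ⟨fun h => hij (hy hi hj h), hiso i hi j hj hij⟩
  -- the constants
  set β : ℕ → ℝ := fun c => ∑ l ∈ range c, (v.o (x (z c) - x (z l)) : ℝ) + -(n * H (z c)) with hβ
  set β' : ℕ → ℝ := fun c => ∑ l ∈ range c, (v.o (x (z' c) - x (z' l)) : ℝ) +
    (∑ l ∈ range R, (v.o (x (z' c) - x (a l)) : ℝ) + -(n * H (z' c))) with hβ'
  set β'' : ℕ → ℝ := fun c => ∑ l ∈ range c, (v.o (x (z'' c) - x (z'' l)) : ℝ) +
    (∑ l ∈ range R, (v.o (x (z'' c) - x (b l)) : ℝ) + -(n * H (z'' c))) with hβ''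
  set κ : ℝ := -∑ l ∈ range R, (v.o (x (a l) - x (b l)) : ℝ) + R * δ with hκ
  -- change of basis
  rw [← det_basis (R + R) (fun ce => phi R (fun l => x (z l)) (fun l => x (z' l)) ce.1 ce.2)
    (fun ce => Mfi x y R z z'' a b ce.1 ce.2)
    (fun ce => phi_monic _ _ _ _ _) (fun ce => phi_natDegree _ _ _ _ _)
    (fun ce => Mfi_monic _ _ _ _ _ _ _ _ _) (fun ce => Mfi_natDegree _ _ _ _ _ _ _ _ _)
    (fun ce q => phi_Mfi_deg x y R z z' z'' a b ce.1 ce.2 q ce.1.2) (fun j => x (I j))
    (fun j => y (I j))]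
  -- entries
  have hentry : ∀ j (ce : Fin (R + R) × Fin (R + R)), v.ge (2 * n * H (I j) +
      (if (ce.1 : ℕ) < R ∧ R ≤ (ce.2 : ℕ) then β' ce.1 + β'' (ce.2 - R) + κ
        else β ce.1 + β ce.2))
      ((phi R (fun l => x (z l)) (fun l => x (z' l)) ce.1 ce.2).eval (x (I j)) *
        (Mfi x y R z z'' a b ce.1 ce.2).evalEval (x (I j)) (y (I j))) := by
    intro j ce
    obtain ⟨⟨c, hc⟩, ⟨e, he⟩⟩ := ce
    simp only
    set i := I j with hi
    have hiX : i ∈ X := hI j
    by_cases h : c < R ∧ R ≤ e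
    · rw [if_pos h]
      unfold phi Mfi
      rw [if_pos h, if_pos h, mp_eval, Polynomial.evalEval_mul, mP_eval, mP_eval]
      simp only [eval_C]
      -- i in A or B: zero
      by_cases hiA : i ∈ (range R).image a
      · left
        rw [mem_image] at hiA
        obtain ⟨l, hl, hly⟩ := hiA
        have : ∏ l ∈ range R, (y i - (linei x y (a l) (b l)).eval (x i)) = 0 := by
          apply Finset.prod_eq_zero hl
          have hne : x (a l) - x (b l) ≠ 0 :=
            sub_ne_zero.mpr (hxx _ (haX l (mem_range.mp hl)) _ (hbX l (mem_range.mp hl))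
              (hab l (mem_range.mp hl))).1
          unfold linei
          simp only [eval_add, eval_mul, eval_C, eval_X]
          rw [← hly]
          field_simp
          ring
        rw [this]
        ring
      by_cases hiB : i ∈ (range R).image b
      · left
        rw [mem_image] at hiB
        obtain ⟨l, hl, hly⟩ := hiB
        have : ∏ l ∈ range R, (y i - (linei x y (a l) (b l)).eval (x i)) = 0 := by
          apply Finset.prod_eq_zero hl
          have hne : x (a l) - x (b l) ≠ 0 :=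
            sub_ne_zero.mpr (hxx _ (haX l (mem_range.mp hl)) _ (hbX l (mem_range.mp hl))
              (hab l (mem_range.mp hl))).1
          unfold linei
          simp only [eval_add, eval_mul, eval_C, eval_X]
          rw [← hly]
          field_simp
          ring
        rw [this]
        ring
      have h1 := ge_leja (v := v) (x := x) (y := x)
        (U := fun y => ∑ l ∈ range R, (v.o (x y - x (a l)) : ℝ) + -(n * H y)) (z := z')
        (fun i hi j hj => hxx i (mem_sdiff.mp hi).1 j (mem_sdiff.mp hj).1) hz1' hz3' h.1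
        (mem_sdiff.mpr ⟨hiX, hiA⟩)
      have h2 := ge_leja (v := v) (x := x) (y := y)
        (U := fun y => ∑ l ∈ range R, (v.o (x y - x (b l)) : ℝ) + -(n * H y)) (z := z'')
        (fun i hi j hj => hyy i (mem_sdiff.mp hi).1 j (mem_sdiff.mp hj).1) hz1'' hz3''
        (show e - R < R by omega) (mem_sdiff.mpr ⟨hiX, hiB⟩)
      have h3 : v.ge (∑ l ∈ range R, ((v.o (x i - x (a l)) : ℝ) + v.o (x i - x (b l)) -
          v.o (x (a l) - x (b l)) + δ))
          (∏ l ∈ range R, (y i - (linei x y (a l) (b l)).eval (x i))) := by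
        apply ge_prod
        intro l hl
        have hl' := mem_range.mp hl
        have hia : i ≠ a l := fun h => hiA (mem_image.mpr ⟨l, hl, h.symm⟩)
        have hib : i ≠ b l := fun h => hiB (mem_image.mpr ⟨l, hl, h.symm⟩)
        have := ge_line (v := v) (hxx _ (haX l hl') _ (hbX l hl') (hab l hl')).1
          (hxx _ hiX _ (haX l hl') hia).1 (hxx _ hiX _ (hbX l hl') hib).1
          (hδ i hiX _ (haX l hl') _ (hbX l hl') hia hib (hab l hl'))
        unfold linei
        simp only [eval_add, eval_mul, eval_C, eval_X]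
        exact this
      refine DV.ge_mono (DV.ge_mul h1 (DV.ge_mul h3 h2)) (le_of_eq ?_)
      rw [hβ', hβ'', hκ]
      simp only [Finset.sum_add_distrib, Finset.sum_sub_distrib, Finset.sum_const, card_range,
        nsmul_eq_mul]
      ring
    · rw [if_neg h]
      unfold phi Mfi
      rw [if_neg h, if_neg h, mp_eval, mP_eval]
      simp only [eval_C]
      have h1 := ge_leja (v := v) (x := x) (y := x) (U := fun y => -(n * H y)) (z := z) hxx hz1
        hz3 hc hiX
      have h2 := ge_leja (v := v) (x := x) (y := y) (U := fun y => -(n * H y)) (z := z) hyy hz1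
        hz3 he hiX
      refine DV.ge_mono (DV.ge_mul h1 h2) (le_of_eq ?_)
      rw [hβ]
      ring
  have hdet := ge_det (Matrix.of fun j (ce : Fin (R + R) × Fin (R + R)) =>
    (phi R (fun l => x (z l)) (fun l => x (z' l)) ce.1 ce.2).eval (x (I j)) *
      (Mfi x y R z z'' a b ce.1 ce.2).evalEval (x (I j)) (y (I j)))
    (fun j => 2 * n * H (I j)) (fun ce => if (ce.1 : ℕ) < R ∧ R ≤ (ce.2 : ℕ) then
      β' ce.1 + β'' (ce.2 - R) + κ else β ce.1 + β ce.2) hentry
  refine DV.ge_mono hdet ?_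
  -- the total
  have hW : ∑ ce : Fin (R + R) × Fin (R + R), (if (ce.1 : ℕ) < R ∧ R ≤ (ce.2 : ℕ) then
      β' ce.1 + β'' (ce.2 - R) + κ else β ce.1 + β ce.2) =
      3 * R * ∑ c ∈ range (R + R), β c + R * ∑ c ∈ range R, β' c + R * ∑ c ∈ range R, β'' c +
        R ^ 2 * κ := by
    rw [← sum_w, Fintype.sum_prod_type,
      ← Fin.sum_univ_eq_sum_range (fun c => ∑ e ∈ range (R + R),
        (if c < R ∧ R ≤ e then β' c + β'' (e - R) + κ else β c + β e)) (R + R)]
    apply Finset.sum_congr rfl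
    intro c _
    rw [← Fin.sum_univ_eq_sum_range (fun e =>
        (if (c : ℕ) < R ∧ R ≤ e then β' c + β'' (e - R) + κ else β c + β e)) (R + R)]
  rw [hW]
  have hS0 := sum_beta v x H q z (R + R)
  have hS1 := sum_beta' v x H q a z' R
  have hS2 := sum_beta' v x H q b z'' R
  have hn' : (((R + R : ℕ) : ℝ) - 1) = n := by rw [hn]; push_cast; ring
  rw [hn'] at hS0
  rw [← hn] at hS1 hS2
  have hS0' : ∑ c ∈ range (R + R), β c = Es v x H q z (R + R) -
      q * (((R + R : ℕ) : ℝ) * n / 2) := hS0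
  have hS1' : ∑ c ∈ range R, β' c = Es v x H q (cati R a z') (R + R) - Es v x H q a R +
      R * ∑ l ∈ range R, H (a l) - q * ((R : ℝ) ^ 2 + R * ((R : ℝ) - 1) / 2) := hS1
  have hS2' : ∑ c ∈ range R, β'' c = Es v x H q (cati R b z'') (R + R) - Es v x H q b R +
      R * ∑ l ∈ range R, H (b l) - q * ((R : ℝ) ^ 2 + R * ((R : ℝ) - 1) / 2) := hS2
  have hG : ∑ l ∈ range R, (v.o (x (a l) - x (b l)) : ℝ) =
      ∑ l ∈ range R, gi v x H q (a l) (b l) +
      ∑ l ∈ range R, H (a l) + ∑ l ∈ range R, H (b l) - R * q := by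
    have : ∀ l ∈ range R, (v.o (x (a l) - x (b l)) : ℝ) =
        gi v x H q (a l) (b l) + H (a l) + H (b l) - q := by
      intro l _
      unfold gi
      ring
    rw [Finset.sum_congr rfl this]
    simp only [Finset.sum_add_distrib, Finset.sum_sub_distrib, Finset.sum_const, card_range,
      nsmul_eq_mul]
  have hE0 : E ≤ Es v x H q z (R + R) := hE z hz1 hz2
  have hE1 : E ≤ Es v x H q (cati R a z') (R + R) := by
    apply hE
    · intro i hi
      unfold cati
      split_ifs with h
      · exact haX i h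
      · exact (mem_sdiff.mp (hz1' (i - R) (by omega))).1
    · intro i hi j hj
      unfold cati
      by_cases h : i < R
      · rw [if_pos h, if_pos (by omega)]
        exact haa i h j hj
      · rw [if_neg h]
        by_cases h' : j < R
        · rw [if_pos h']
          intro hc
          exact (mem_sdiff.mp (hz1' (i - R) (by omega))).2
            (mem_image.mpr ⟨j, mem_range.mpr h', hc.symm⟩)
        · rw [if_neg h']
          exact hz2' (i - R) (by omega) (j - R) (by omega)
  have hE2 : E ≤ Es v x H q (cati R b z'') (R + R) := by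
    apply hE
    · intro i hi
      unfold cati
      split_ifs with h
      · exact hbX i h
      · exact (mem_sdiff.mp (hz1'' (i - R) (by omega))).1
    · intro i hi j hj
      unfold cati
      by_cases h : i < R
      · rw [if_pos h, if_pos (by omega)]
        exact hbb i h j hj
      · rw [if_neg h]
        by_cases h' : j < R
        · rw [if_pos h']
          intro hc
          exact (mem_sdiff.mp (hz1'' (i - R) (by omega))).2
            (mem_image.mpr ⟨j, mem_range.mpr h', hc.symm⟩)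
        · rw [if_neg h']
          exact hz2'' (i - R) (by omega) (j - R) (by omega)
  rw [hS0', hS1', hS2', hκ, hG, ← Finset.mul_sum]
  have hR0 : (0 : ℝ) ≤ R := Nat.cast_nonneg R
  push_cast
  rw [hn]
  (clear * - hR0 hE0 hE1 hE2 hPsi; nlinarith [mul_nonneg hR0 (sub_nonneg.mpr hE0), mul_nonneg hR0 (sub_nonneg.mpr hE1),
    mul_nonneg hR0 (sub_nonneg.mpr hE2), mul_nonneg hR0 (sub_nonneg.mpr hPsi)])

end Pool.Agent.Helper55.LWI

end
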