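import Pool.Agent.Helper23.MB.L00_ab1
import Pool.Agent.Helper23.MB.L00_ab5
import Pool.Agent.Helper23.MB.L00_ab6
import Pool.Agent.Helper23.MB.L00_ab8
import Pool.Agent.Helper23.MB.L00_abc0
import Pool.Agent.Helper23.MB.L00_abc1
import Pool.Agent.Helper23.MB.L00_abc2

/-!
Parts of Helper51.RatTree, Helper45.FFPlaces, Helper38.DT.Defs, Helper45.S6Field, Helper36.DT.Min, Helper36.DT.Hom, Helper36.DT.Main, Helper38.DT.Main
-/

attribute [-simp] Valuation.IsUniformizer.val
attribute [local instance 5000]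
  Pool.Agent.Helper23.MB.Inst.rCharZero Pool.Agent.Helper23.MB.Inst.rALM
  Pool.Agent.Helper23.MB.Inst.rARM Pool.Agent.Helper23.MB.Inst.rALSM
  Pool.Agent.Helper23.MB.Inst.rARSM Pool.Agent.Helper23.MB.Inst.rARRLE
  Pool.Agent.Helper23.MB.Inst.rALRLE Pool.Agent.Helper23.MB.Inst.rARRLT
  Pool.Agent.Helper23.MB.Inst.rALRLT Pool.Agent.Helper23.MB.Inst.rPMRLT
  Pool.Agent.Helper23.MB.Inst.rMPRLT Pool.Agent.Helper23.MB.Inst.rPMM
  Pool.Agent.Helper23.MB.Inst.rMPM Pool.Agent.Helper23.MB.Inst.rPMSM
  Pool.Agent.Helper23.MB.Inst.rMPSM Pool.Agent.Helper23.MB.Inst.rEAOL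
  Pool.Agent.Helper23.MB.Inst.rIOR Pool.Agent.Helper23.MB.Inst.rISOR
  Pool.Agent.Helper23.MB.Inst.rNZD Pool.Agent.Helper23.MB.Inst.zCharZero
  Pool.Agent.Helper23.MB.Inst.zALM Pool.Agent.Helper23.MB.Inst.zARM
  Pool.Agent.Helper23.MB.Inst.zIOR Pool.Agent.Helper23.MB.Inst.zISOR
  Pool.Agent.Helper23.MB.Inst.zNZD Pool.Agent.Helper23.MB.Inst.qCharZero
  Pool.Agent.Helper23.MB.Inst.free Pool.Agent.Helper23.MB.Inst.faith
  Pool.Agent.Helper23.MB.Inst.torsionFree Pool.Agent.Helper23.MB.Inst.rfFaith
  Pool.Agent.Helper23.MB.Inst.hAdd Pool.Agent.Helper23.MB.Inst.hAddM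
  Pool.Agent.Helper23.MB.Inst.hMul Pool.Agent.Helper23.MB.Inst.hMon
  Pool.Agent.Helper23.MB.Inst.hZero Pool.Agent.Helper23.MB.Inst.hOne
  Pool.Agent.Helper23.MB.Inst.hMZ Pool.Agent.Helper23.MB.Inst.hRing
  Pool.Agent.Helper23.MB.Inst.aAdd Pool.Agent.Helper23.MB.Inst.aAddM
  Pool.Agent.Helper23.MB.Inst.aMul Pool.Agent.Helper23.MB.Inst.aMon
  Pool.Agent.Helper23.MB.Inst.aZero Pool.Agent.Helper23.MB.Inst.aOne
  Pool.Agent.Helper23.MB.Inst.aMZ Pool.Agent.Helper23.MB.Inst.aRing

namespace Pool.Agent.Helper16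
end Pool.Agent.Helper16
namespace Pool.Agent.Helper33
end Pool.Agent.Helper33
namespace Pool.Agent.Helper33.UB
end Pool.Agent.Helper33.UB
namespace Pool.Agent.Helper34.Dep
end Pool.Agent.Helper34.Dep
namespace Pool.Agent.Helper38.DT
end Pool.Agent.Helper38.DT
namespace Pool.Agent.Helper45.FF
end Pool.Agent.Helper45.FF
namespace Pool.Agent.Helper45.FR
end Pool.Agent.Helper45.FR
namespace Pool.Agent.Helper45.S4
end Pool.Agent.Helper45.S4
namespace Pool.Agent.Helper45.S6
end Pool.Agent.Helper45.S6
namespace Pool.Agent.Helper47.EN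
end Pool.Agent.Helper47.EN
namespace Pool.Agent.Helper93.RatODE
end Pool.Agent.Helper93.RatODE

section

set_option autoImplicit false

open Polynomial Finset Pool.Agent.Helper33 Pool.Agent.Helper33.UB

namespace Pool.Agent.Helper51.RatTree

variable {K : Type*} [Field K]

section push

variable {v : DV K} {a b : K} {r s : ℤ} {P Q : K[X]} {d : ℕ}

lemma eval_div {y : K} (hy : Q.eval y ≠ 0) :
    P.eval y / Q.eval y = b + (P - C b * Q).eval y / Q.eval y := by
  simp only [eval_sub, eval_mul, eval_C]
  field_simp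
  ring

end push

end Pool.Agent.Helper51.RatTree

end

section

set_option autoImplicit false

set_option linter.style.haveILetI false

namespace Pool.Agent.Helper45.FF

open Polynomial IntermediateField Pool.Agent.Helper16 TensorProduct IsDedekindDomain

section final

variable {k K : Type} [Field k] [Field K] [Algebra k K]

theorem isFunctionField_of (hfg : (⊤ : IntermediateField k K).FG)
    (htr : ∃ x : K, Transcendental k x ∧ Algebra.IsAlgebraic (IntermediateField.adjoin k {x}) K) :
    IsFunctionField k K := by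
  obtain ⟨x, hx, halg⟩ := htr
  refine ⟨IntermediateField.fg_top_iff.1 hfg, ?_⟩
  have h1 : AlgebraicIndependent k (fun _ : Unit => x) :=
    algebraicIndependent_unique_type_iff.2 hx
  have h2 : IsTranscendenceBasis k (fun _ : Unit => x) := by
    rw [h1.isTranscendenceBasis_iff_isAlgebraic]
    have : Set.range (fun _ : Unit => x) = {x} := by simp
    rw [this]
    rw [← IntermediateField.isAlgebraic_adjoin_iff_top]
    exact halg
  have h3 := h2.lift_cardinalMk_eq_trdeg
  simpa using h3.symm

end final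

end Pool.Agent.Helper45.FF

end

section

set_option autoImplicit false

namespace Pool.Agent.Helper38.DT

open Polynomial Pool.Agent.Helper93.RatODE

/-- A correspondence between `P¹` and `P¹` (finite over both factors) which is invariant under
`(A / B, U / W)`, where `A / B` has degree `δ` and `U / W` has degree `e`. -/
structure Corr {K : Type} [Field K] (q : ℕ → ℕ → K) (m n : ℕ) (A B : K[X]) (δ : ℕ) (U W : K[X])
    (e : ℕ) : Prop where
  left : ∀ y0 y1 : K, (y0 ≠ 0 ∨ y1 ≠ 0) → ∃ z0 z1 : K, bev q m n y0 y1 z0 z1 ≠ 0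
  right : ∀ z0 z1 : K, (z0 ≠ 0 ∨ z1 ≠ 0) → ∃ y0 y1 : K, bev q m n y0 y1 z0 z1 ≠ 0
  pos : 1 ≤ n
  inv : ∀ y0 y1 z0 z1 : K, bev q m n y0 y1 z0 z1 = 0 →
    bev q m n (hev A δ y0 y1) (hev B δ y0 y1) (hev U e z0 z1) (hev W e z0 z1) = 0

end Pool.Agent.Helper38.DT

end

section

set_option autoImplicit false

set_option linter.style.haveILetI false

namespace Pool.Agent.Helper45.S6

open Polynomial IntermediateField Pool.Agent.Helper16 Pool.Agent.Helper33 Pool.Agent.Helper45.FF

variable (k K : Type) [Field k] [Field K] [Algebra k K]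

attribute [-instance] LieRinehartAlgebra.toIsScalarTower NormedSpace.toModule
  NormedAlgebra.toAlgebra in
/-- **The compositum with the constants.** -/
theorem exists_compositum (x : K) (hx : Transcendental k x) [FiniteDimensional k⟮x⟯ K]
    (E : IntermediateField K (AlgebraicClosure K)) [FiniteDimensional K E] :
    ∃ (M : IntermediateField (kb k K) (AlgebraicClosure K)) (t : M),
      (∀ y ∈ E, y ∈ M) ∧ Transcendental (kb k K) t ∧ IsFunctionField (kb k K) M ∧
      Module.finrank (kb k K)⟮t⟯ M ≤ Module.finrank k⟮x⟯ K * Module.finrank K E := by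
  classical
  set Ω := AlgebraicClosure K with hΩ
  let x' : Ω := algebraMap K Ω x
  let E0 : IntermediateField (kb k K) Ω := (kb k K)⟮x'⟯
  have hmem : ∀ z : K, z ∈ k⟮x⟯ → algebraMap K Ω z ∈ E0 := by
    intro z hz
    have h2 : (IntermediateField.adjoin k {x}).map (IsScalarTower.toAlgHom k K Ω) ≤
        E0.restrictScalars k := by
      rw [IntermediateField.adjoin_map, IntermediateField.adjoin_le_iff]
      rintro _ ⟨s, hs, rfl⟩
      have h3 : (IsScalarTower.toAlgHom k K Ω) s ∈ E0 := by
        refine IntermediateField.subset_adjoin (kb k K) _ ?_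
        rw [Set.mem_singleton_iff] at hs ⊢
        rw [hs]
        rfl
      exact h3
    exact h2 ⟨z, hz, rfl⟩
  let φ : k⟮x⟯ →+* E0 :=
    { toFun := fun z => ⟨algebraMap K Ω z, hmem z z.2⟩
      map_one' := by ext; simp
      map_mul' := by intro a b; ext; simp
      map_zero' := by ext; simp
      map_add' := by intro a b; ext; simp }
  letI : Algebra k⟮x⟯ E0 := φ.toAlgebra
  haveI : IsScalarTower k⟮x⟯ E0 Ω := IsScalarTower.of_algebraMap_eq fun z => rfl
  haveI : IsScalarTower k⟮x⟯ K Ω := IsScalarTower.of_algebraMap_eq fun z => rfl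
  let E' : IntermediateField k⟮x⟯ Ω := E.restrictScalars k⟮x⟯
  haveI : FiniteDimensional k⟮x⟯ E := by
    haveI : IsScalarTower k⟮x⟯ K E := IsScalarTower.of_algebraMap_eq fun z => rfl
    exact FiniteDimensional.trans k⟮x⟯ K E
  haveI hfdE' : FiniteDimensional k⟮x⟯ E' := this
  have hfr : Module.finrank k⟮x⟯ E' = Module.finrank k⟮x⟯ K * Module.finrank K E := by
    haveI : IsScalarTower k⟮x⟯ K E := IsScalarTower.of_algebraMap_eq fun z => rfl
    exact (Module.finrank_mul_finrank k⟮x⟯ K E).symm
  let M0 : IntermediateField E0 Ω := IntermediateField.adjoin E0 (E' : Set Ω)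
  have hrank : Module.rank E0 M0 ≤ Module.rank k⟮x⟯ E' :=
    IntermediateField.adjoin_rank_le_of_isAlgebraic_right E0 E'
  haveI hfdM0 : FiniteDimensional E0 M0 := by
    rw [FiniteDimensional, ← Module.rank_lt_aleph0_iff]
    exact lt_of_le_of_lt hrank (Module.rank_lt_aleph0_iff.2 hfdE')
  have hfrM0 : Module.finrank E0 M0 ≤ Module.finrank k⟮x⟯ E' := by
    have h1 := hrank
    rw [← Module.finrank_eq_rank, ← Module.finrank_eq_rank] at h1
    exact_mod_cast h1
  let M : IntermediateField (kb k K) Ω := M0.restrictScalars (kb k K)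
  have hx'M : x' ∈ M := M0.algebraMap_mem ⟨x', IntermediateField.mem_adjoin_simple_self _ _⟩
  let t : M := ⟨x', hx'M⟩
  have hx't : Transcendental (kb k K) x' := by
    have h1 : Transcendental k x' := by
      intro h
      exact hx ((isAlgebraic_algebraMap_iff (algebraMap K Ω).injective).mp h)
    exact h1.algebraicClosure
  have ht : Transcendental (kb k K) t := by
    intro h
    exact hx't (IntermediateField.isAlgebraic_iff.mp h)
  -- the degree
  have hlift : IntermediateField.lift (kb k K)⟮t⟯ = E0 := by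
    rw [IntermediateField.lift_adjoin_simple]
  let i : (kb k K)⟮t⟯ ≃ₐ[kb k K] E0 :=
    (IntermediateField.liftAlgEquiv (kb k K)⟮t⟯).trans (IntermediateField.equivOfEq hlift)
  have hdeg : Module.finrank (kb k K)⟮t⟯ M = Module.finrank E0 M0 := by
    let j : M ≃+* M0 := RingEquiv.refl M0
    refine Algebra.finrank_eq_of_equiv_equiv (R₁ := E0) (S₁ := M0) i.toRingEquiv j ?_
    apply RingHom.ext
    intro y
    rfl
  haveI hfdt : FiniteDimensional (kb k K)⟮t⟯ M := by
    apply Module.finite_of_finrank_pos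
    rw [hdeg]
    exact Module.finrank_pos
  haveI : Algebra.EssFiniteType (kb k K) (kb k K)⟮t⟯ := by
    rw [IntermediateField.essFiniteType_iff]
    exact ⟨{t}, by simp⟩
  have hess : Algebra.EssFiniteType (kb k K) M :=
    Algebra.EssFiniteType.comp (kb k K) (kb k K)⟮t⟯ M
  refine ⟨M, t, ?_, ht, ?_, ?_⟩
  · intro y hy
    exact IntermediateField.subset_adjoin E0 _ hy
  · apply isFunctionField_of (IntermediateField.fg_top_iff.2 hess)
    exact ⟨t, ht, inferInstance⟩
  · rw [hdeg, ← hfr]
    exact hfrM0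

end Pool.Agent.Helper45.S6

end

section

set_option autoImplicit false

set_option linter.style.haveILetI false

namespace Pool.Agent.Helper36.DT

open Polynomial IntermediateField Pool.Agent.Helper16

theorem exists_relation {E M : Type} [Field E] [Field M] [Algebra E M]
    (hM : IsFunctionField E M) (y z : M) (hy : Transcendental E y) :
    ∃ P : E[X][X], P ≠ 0 ∧ P.aevalAeval y z = 0 := by
  haveI := hM.finiteDimensional y hy
  letI := algXF E y
  letI := algX E y
  haveI := towerXF (K := E) y
  haveI := isFractionRing_algXF (K := E) y hy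
  have h1 : IsAlgebraic E⟮y⟯ z := Algebra.IsAlgebraic.isAlgebraic z
  have h2 : IsAlgebraic E[X] z := (IsFractionRing.isAlgebraic_iff E[X] E⟮y⟯ M).2 h1
  obtain ⟨P, hP, hz⟩ := h2
  refine ⟨P, hP, ?_⟩
  have h3 : aeval z P = P.aevalAeval y z := by
    rw [aeval_def, aevalAeval_eq_eval₂]
    rfl
  rw [← h3, hz]

/-- Two functions on a curve satisfy an irreducible relation which divides all relations. -/
theorem exists_prime_relation {E M : Type} [Field E] [Field M] [Algebra E M]
    (hM : IsFunctionField E M) (y z : M) (hy : Transcendental E y) :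
    ∃ Q : E[X][X], Prime Q ∧ Q.aevalAeval y z = 0 ∧
      ∀ P : E[X][X], P.aevalAeval y z = 0 → Q ∣ P := by
  classical
  set 𝔭 : Ideal E[X][X] := RingHom.ker (aevalAeval (R := E) y z) with h𝔭
  haveI : 𝔭.IsPrime := RingHom.ker_isPrime _
  have hne : 𝔭 ≠ ⊥ := by
    obtain ⟨P, hP, h0⟩ := exists_relation hM y z hy
    intro h
    exact hP ((Ideal.mem_bot).1 (h ▸ (RingHom.mem_ker.2 h0)))
  obtain ⟨Q, hQ, hQp⟩ := Ideal.IsPrime.exists_mem_prime_of_ne_bot ‹_› hne
  have hQ0 : Q.aevalAeval y z = 0 := RingHom.mem_ker.1 hQ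
  have hdeg : Q.natDegree ≠ 0 := by
    intro h
    rw [eq_C_of_natDegree_eq_zero h, aevalAeval_C] at hQ0
    have h1 : Q.coeff 0 = 0 := (transcendental_iff.1 hy) _ hQ0
    apply hQp.ne_zero
    rw [eq_C_of_natDegree_eq_zero h, h1, C_0]
  have hprim : Q.IsPrimitive := hQp.irreducible.isPrimitive hdeg
  refine ⟨Q, hQp, hQ0, fun P hP => ?_⟩
  letI := algX E y
  haveI := faithfulX (K := E) y hy
  -- the embedding of the fraction field
  let K := FractionRing E[X]
  have hinj : Function.Injective (algebraMap E[X] M) := FaithfulSMul.algebraMap_injective _ _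
  let θ : K →+* M := IsFractionRing.lift hinj
  have hθ : ∀ p : E[X], θ (algebraMap E[X] K p) = aeval y p := fun p => by
    change IsFractionRing.lift hinj (algebraMap E[X] K p) = _
    rw [IsFractionRing.lift_algebraMap]
    rfl
  have hev : ∀ R : E[X][X], (R.map (algebraMap E[X] K)).eval₂ θ z = R.aevalAeval y z := by
    intro R
    rw [eval₂_map]
    have h1 : θ.comp (algebraMap E[X] K) = (aeval y : E[X] →ₐ[E] M).toRingHom := by
      ext p
      · simp [hθ]
      · simp [hθ]
    rw [h1, aevalAeval_eq_eval₂]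
  have hirr : Irreducible (Q.map (algebraMap E[X] K)) :=
    (hprim.irreducible_iff_irreducible_map_fraction_map).1 hQp.irreducible
  have hdvd : Q.map (algebraMap E[X] K) ∣ P.map (algebraMap E[X] K) := by
    by_contra hcon
    have hcop : IsCoprime (Q.map (algebraMap E[X] K)) (P.map (algebraMap E[X] K)) :=
      (hirr.coprime_iff_not_dvd).2 hcon
    obtain ⟨a, b, hab⟩ := hcop
    have h1 := congrArg (fun R => R.eval₂ θ z) hab
    simp only [eval₂_add, eval₂_mul, hev, hQ0, hP, mul_zero, add_zero, eval₂_one] at h1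
    exact zero_ne_one h1
  by_cases hP0 : P = 0
  · rw [hP0]; exact dvd_zero _
  have hcont : algebraMap E[X] K P.content ≠ 0 := by
    rw [Ne, IsFractionRing.to_map_eq_zero_iff, content_eq_zero_iff]
    exact hP0
  have h2 : Q.map (algebraMap E[X] K) ∣ P.primPart.map (algebraMap E[X] K) := by
    have h3 : P.map (algebraMap E[X] K) =
        C (algebraMap E[X] K P.content) * P.primPart.map (algebraMap E[X] K) := by
      conv_lhs => rw [P.eq_C_content_mul_primPart]
      rw [Polynomial.map_mul, map_C]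
    rw [h3] at hdvd
    exact (IsUnit.dvd_mul_left (isUnit_C.2 (isUnit_iff_ne_zero.2 hcont))).1 hdvd
  have h4 : Q ∣ P.primPart :=
    IsPrimitive.dvd_of_fraction_map_dvd_fraction_map (K := K) hprim h2
  exact h4.trans P.primPart_dvd

end Pool.Agent.Helper36.DT

end

section

set_option autoImplicit false

namespace Pool.Agent.Helper36.DT

open Polynomial Finset Pool.Agent.Helper93.RatODE Pool.Agent.Helper38.DT

section field

variable {E : Type} [Field E]

theorem hv_eq_hev (F : E[X]) (n : ℕ) (u w : E) : hv F n u w = hev F n u w := by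
  simp [hv, hev]

/-- A primitive polynomial has a nonzero fibre over every point of the projective line. -/
theorem exists_hvv_ne_zero [Infinite E] (Q : E[X][X]) (hQ : Q.IsPrimitive) (hQ0 : Q ≠ 0) (y0 y1 : E)
    (hy : y0 ≠ 0 ∨ y1 ≠ 0) :
    ∃ z0 z1 : E, hvv Q (Bivariate.swap Q).natDegree Q.natDegree y0 y1 z0 z1 ≠ 0 := by
  classical
  set m := (Bivariate.swap Q).natDegree with hm
  set n := Q.natDegree with hn
  by_contra hcon
  push Not at hcon
  -- all fibre coefficients vanish
  have h1 : ∀ b ≤ n, hv (Q.coeff b) m y0 y1 = 0 := by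
    set g : E[X] := ∑ b ∈ range (n + 1), monomial b (hv (Q.coeff b) m y0 y1) with hg
    have h2 : g = 0 := by
      apply Polynomial.funext
      intro z
      have := hcon z 1
      rw [hvv_coeff] at this
      rw [hg, eval_finsetSum, eval_zero, ← this]
      refine sum_congr rfl fun b _ => ?_
      rw [eval_monomial]
      ring
    intro b hb
    have h3 := congrArg (fun p => Polynomial.coeff p b) h2
    simp only [hg, finsetSum_coeff, coeff_monomial, coeff_zero] at h3
    rw [sum_ite_eq' (range (n + 1)) b] at h3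
    rwa [if_pos (mem_range.2 (by omega))] at h3
  by_cases h0 : y1 = 0
  · subst h0
    have hy0 : y0 ≠ 0 := by simpa using hy
    have h2 : (Bivariate.swap Q).leadingCoeff ≠ 0 := by
      rw [Ne, leadingCoeff_eq_zero, EmbeddingLike.map_eq_zero_iff]
      exact hQ0
    apply h2
    rw [leadingCoeff, ← hm]
    ext b
    rw [Pool.Agent.Helper94.AS.coeff_coeff_swap, coeff_zero]
    by_cases hb : b ≤ n
    · have h3 := h1 b hb
      rw [hv_eq_hev, hev_right_zero] at h3
      rcases mul_eq_zero.1 h3 with h4 | h4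
      · simpa using h4
      · exact absurd h4 (pow_ne_zero _ hy0)
    · rw [coeff_eq_zero_of_natDegree_lt (not_le.1 hb), coeff_zero]
  · have h2 : ∀ b, (X - C (y0 / y1)) ∣ Q.coeff b := by
      intro b
      by_cases hb : b ≤ n
      · rw [dvd_iff_isRoot, IsRoot.def]
        have h3 := h1 b hb
        rw [hv_eq_hev, hev_eq_eval _ _ (natDegree_coeff_le_swap Q b) _ _ h0] at h3
        rcases mul_eq_zero.1 h3 with h4 | h4
        · exact absurd h4 (pow_ne_zero _ h0)
        · exact h4
      · rw [coeff_eq_zero_of_natDegree_lt (not_le.1 hb)]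
        exact dvd_zero _
    have h3 := hQ _ (C_dvd_iff_dvd_coeff _ _ |>.2 h2)
    exact not_isUnit_X_sub_C _ h3

end field

end Pool.Agent.Helper36.DT

end

section

set_option autoImplicit false

namespace Pool.Agent.Helper36.DT

open Polynomial Finset Pool.Agent.Helper93.RatODE Pool.Agent.Helper38.DT Pool.Agent.Helper16

/-- two functions `y`, `z` on a curve with an endomorphism `Ψ` lying over `A / B` and `U / W`
give an invariant correspondence. -/
theorem dt8 {E M : Type} [Field E] [IsAlgClosed E] [Field M] [Algebra E M]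
    (hM : IsFunctionField E M) (Ψ : M →ₐ[E] M) (y z : M) (hy : Transcendental E y)
    (hz : Transcendental E z) (A B U W : E[X]) (δ e : ℕ) (hAB : IsRatD A B δ)
    (hUW : IsRatD U W e) (h1 : Ψ y * aeval y B = aeval y A) (h2 : Ψ z * aeval z W = aeval z U) :
    ∃ (q : ℕ → ℕ → E) (m n : ℕ), Corr q m n A B δ U W e := by
  classical
  have : Infinite E := IsAlgClosed.instInfinite
  obtain ⟨Q, hQp, hQ0, hQd⟩ := exists_prime_relation hM y z hy
  have hQn : Q.natDegree ≠ 0 := by
    intro h
    rw [eq_C_of_natDegree_eq_zero h, aevalAeval_C] at hQ0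
    have h1 : Q.coeff 0 = 0 := (transcendental_iff.1 hy) _ hQ0
    apply hQp.ne_zero
    rw [eq_C_of_natDegree_eq_zero h, h1, C_0]
  have hsp : Prime (Bivariate.swap Q) :=
    (MulEquiv.prime_iff (Bivariate.swap (R := E)).toMulEquiv).2 hQp
  have hsm : (Bivariate.swap Q).natDegree ≠ 0 := by
    intro h
    have h3 : (Bivariate.swap Q).aevalAeval z y = 0 := by
      rw [Bivariate.aevalAeval_swap, hQ0]
    rw [eq_C_of_natDegree_eq_zero h, aevalAeval_C] at h3
    have h1 : (Bivariate.swap Q).coeff 0 = 0 := (transcendental_iff.1 hz) _ h3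
    apply hsp.ne_zero
    rw [eq_C_of_natDegree_eq_zero h, h1, C_0]
  have hprim : Q.IsPrimitive := hQp.irreducible.isPrimitive hQn
  have hsprim : (Bivariate.swap Q).IsPrimitive := hsp.irreducible.isPrimitive hsm
  set m := (Bivariate.swap Q).natDegree with hm
  set n := Q.natDegree with hn
  refine ⟨fun a b => (Q.coeff b).coeff a, m, n, ?_, ?_, Nat.one_le_iff_ne_zero.2 hQn, ?_⟩
  · intro y0 y1 hy01
    obtain ⟨z0, z1, h⟩ := exists_hvv_ne_zero Q hprim hQp.ne_zero y0 y1 hy01
    exact ⟨z0, z1, by rwa [hvv_eq_bev] at h⟩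
  · intro z0 z1 hz01
    obtain ⟨y0, y1, h⟩ := exists_hvv_ne_zero (Bivariate.swap Q) hsprim hsp.ne_zero z0 z1 hz01
    rw [Bivariate.swap_swap_apply, hvv_swap, hvv_eq_bev] at h
    exact ⟨y0, y1, h⟩
  · intro y0 y1 z0 z1 h0
    -- the composed polynomial
    set P : E[X][X] := ∑ b ∈ range (n + 1), ∑ a ∈ range (m + 1),
      C (C ((Q.coeff b).coeff a) * (A ^ a * B ^ (m - a))) * (U ^ b * W ^ (n - b)).map C with hP
    have hPev : hvv P (m * δ) (n * e) y0 y1 z0 z1 =
        bev (fun a b => (Q.coeff b).coeff a) m n (hev A δ y0 y1) (hev B δ y0 y1)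
          (hev U e z0 z1) (hev W e z0 z1) := by
      rw [hP, hvv_sum]
      unfold bev
      rw [sum_comm]
      refine sum_congr rfl fun b hb => ?_
      rw [hvv_sum]
      refine sum_congr rfl fun a ha => ?_
      rw [mem_range] at ha hb
      rw [hvv_prod, hv_C_mul]
      have e1 : m * δ = a * δ + (m - a) * δ := by rw [← add_mul]; congr 1; omega
      have e2 : n * e = b * e + (n - b) * e := by rw [← add_mul]; congr 1; omega
      rw [e1, e2, hv_mul _ _ (natDegree_pow_le_of_le a hAB.degF)
        (natDegree_pow_le_of_le (m - a) hAB.degG), hv_mul _ _ (natDegree_pow_le_of_le b hUW.degF)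
        (natDegree_pow_le_of_le (n - b) hUW.degG), hv_pow _ hAB.degF, hv_pow _ hAB.degG,
        hv_pow _ hUW.degF, hv_pow _ hUW.degG, hv_eq_hev, hv_eq_hev, hv_eq_hev, hv_eq_hev]
      ring
    rw [← hPev]
    -- `P` vanishes at `(y, z)`
    have hQsum : ∑ b ∈ range (n + 1), ∑ a ∈ range (m + 1),
        algebraMap E M ((Q.coeff b).coeff a) * y ^ a * z ^ b = 0 := by
      rw [← hQ0, aevalAeval_eq_eval₂, eval₂_eq_sum_range]
      refine sum_congr rfl fun b _ => ?_
      rw [AlgHom.toRingHom_eq_coe, RingHom.coe_coe,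
        aeval_eq_sum_range' (n := m + 1) (Nat.lt_succ_of_le (natDegree_coeff_le_swap Q b)), sum_mul]
      refine sum_congr rfl fun a _ => ?_
      rw [Algebra.smul_def]
    have hPz : P.aevalAeval y z = 0 := by
      have h3 : P.aevalAeval y z = aeval y B ^ m * aeval z W ^ n *
          Ψ (∑ b ∈ range (n + 1), ∑ a ∈ range (m + 1),
            algebraMap E M ((Q.coeff b).coeff a) * y ^ a * z ^ b) := by
        rw [hP, map_sum, map_sum, mul_sum]
        refine sum_congr rfl fun b hb => ?_
        rw [map_sum, map_sum, mul_sum]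
        refine sum_congr rfl fun a ha => ?_
        rw [mem_range] at ha hb
        have h5 : ∀ g : E[X], (g.map (C : E →+* E[X])).aevalAeval y z = aeval z g := by
          intro g
          rw [← Bivariate.swap_C, Bivariate.aevalAeval_swap, aevalAeval_C]
        rw [map_mul, h5, aevalAeval_C]
        simp only [map_mul, map_pow, aeval_C, AlgHom.commutes]
        rw [← h1, ← h2, mul_pow, mul_pow]
        have e1 : aeval y B ^ m = aeval y B ^ a * aeval y B ^ (m - a) := by
          rw [← pow_add]; congr 1; omega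
        have e2 : aeval z W ^ n = aeval z W ^ b * aeval z W ^ (n - b) := by
          rw [← pow_add]; congr 1; omega
        rw [e1, e2]
        ring
      rw [h3, hQsum, map_zero, mul_zero]
    obtain ⟨T, hT⟩ := hQd P hPz
    by_cases hT0 : T = 0
    · rw [hT, hT0, mul_zero, hvv_zero]
    have hQne : Q ≠ 0 := hQp.ne_zero
    -- degrees
    have hPn : P.natDegree ≤ n * e := by
      rw [hP]
      refine natDegree_sum_le_of_forall_le _ _ fun b hb => ?_
      refine natDegree_sum_le_of_forall_le _ _ fun a _ => ?_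
      rw [mem_range] at hb
      refine (natDegree_C_mul_le _ _).trans (natDegree_map_le.trans ?_)
      have e2 : n * e = b * e + (n - b) * e := by rw [← add_mul]; congr 1; omega
      rw [e2]
      exact natDegree_mul_le_of_le (natDegree_pow_le_of_le b hUW.degF)
        (natDegree_pow_le_of_le (n - b) hUW.degG)
    have hPm : ∀ b, (P.coeff b).natDegree ≤ m * δ := by
      intro b'
      rw [hP, finsetSum_coeff]
      refine natDegree_sum_le_of_forall_le _ _ fun b _ => ?_
      rw [finsetSum_coeff]
      refine natDegree_sum_le_of_forall_le _ _ fun a ha => ?_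
      rw [mem_range] at ha
      rw [coeff_C_mul, coeff_map]
      refine (natDegree_mul_C_le _ _).trans ((natDegree_C_mul_le _ _).trans ?_)
      have e1 : m * δ = a * δ + (m - a) * δ := by rw [← add_mul]; congr 1; omega
      rw [e1]
      exact natDegree_mul_le_of_le (natDegree_pow_le_of_le a hAB.degF)
        (natDegree_pow_le_of_le (m - a) hAB.degG)
    have hTn : n + T.natDegree = P.natDegree := by
      rw [hT, natDegree_mul hQne hT0]
    have hTm : m + (Bivariate.swap T).natDegree = (Bivariate.swap P).natDegree := by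
      rw [hT, map_mul, natDegree_mul hsp.ne_zero]
      rwa [Ne, EmbeddingLike.map_eq_zero_iff]
    have hsP := natDegree_swap_le P (m * δ) hPm
    obtain ⟨n', hn'⟩ : ∃ n', n * e = n + n' := Nat.exists_eq_add_of_le (by omega)
    obtain ⟨m', hm'⟩ : ∃ m', m * δ = m + m' := Nat.exists_eq_add_of_le (by omega)
    rw [hn', hm', hT, hvv_mul Q T le_rfl (by omega) (natDegree_coeff_le_swap Q)
      (fun b => (natDegree_coeff_le_swap T b).trans (by omega)), hvv_eq_bev Q, h0, zero_mul]

end Pool.Agent.Helper36.DT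

end

section

set_option autoImplicit false

set_option linter.style.haveILetI false

namespace Pool.Agent.Helper38.DT

open Polynomial IntermediateField Pool.Agent.Helper16 Pool.Agent.Helper45.S4 Pool.Agent.Helper45.FR
  Pool.Agent.Helper93.RatODE Pool.Agent.Helper45.S6 Pool.Agent.Helper47.EN Pool.Agent.Helper34.Dep

/-- the statement of DT8 -/
def CorrStmt : Prop := ∀ {E M : Type} [Field E] [IsAlgClosed E] [Field M] [Algebra E M]
    (_ : IsFunctionField E M) (Ψ : M →ₐ[E] M) (y z : M) (_ : Transcendental E y)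
    (_ : Transcendental E z) (A B U W : E[X]) (δ e : ℕ) (_ : IsRatD A B δ)
    (_ : IsRatD U W e) (_ : Ψ y * aeval y B = aeval y A) (_ : Ψ z * aeval z W = aeval z U),
    ∃ (q : ℕ → ℕ → E) (m n : ℕ), Corr q m n A B δ U W e

theorem corrStmt : CorrStmt := by
  intro E M _ _ _ _ hM Ψ y z hy hz A B U W δ e hAB hUW h1 h2
  exact Pool.Agent.Helper36.DT.dt8 hM Ψ y z hy hz A B U W δ e hAB hUW h1 h2

end Pool.Agent.Helper38.DT

end
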