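import Pool.Agent.Helper23.MB.L00_ab0
import Pool.Agent.Helper23.MB.L00_ab1
import Pool.Agent.Helper23.MB.L00_ab2
import Pool.Agent.Helper23.MB.L00_ab6
import Pool.Agent.Helper23.MB.L00_ab7
import Pool.Agent.Helper23.MB.L00_ab8
import Pool.Agent.Helper23.MB.L00_abc0
import Pool.Agent.Helper23.MB.L00_abc1
import Pool.Agent.Helper23.MB.L00_abc2

/-!
Parts of Helper16.Place, Helper45.S6Count, Helper64.Dep.PD, Helper98.PS.K1, Helper98.PS.M2, Helper11.PS.DetGain, Helper98.PS.M5, Helper36.S5.Descent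
-/

attribute [-simp] Valuation.IsUniformizer.val
attribute [local instance 5000]
  Pool.Agent.Helper23.MB.Inst.rCharZero Pool.Agent.Helper23.MB.Inst.rALM
  Pool.Agent.Helper23.MB.Inst.rARM Pool.Agent.Helper23.MB.Inst.rALSM
  Pool.Agent.Helper23.MB.Inst.rARSM Pool.Agent.Helper23.MB.Inst.rARRLE
  Pool.Agent.Helper23.MB.Inst.rALRLE Pool.Agent.Helper23.MB.Inst.rARRLT
  Pool.Agent.Helper23.MB.Inst.rALRLT Pool.Agent.Helper23.MB.Inst.rPMRLT
  Pool.Agent.Helper23.MB.Inst.rMPRLT Pool.Agent.Helper23.MB.Inst.rPMM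
  Pool.Agent.Helper23.MB.Inst.rMPM Pool.Agent.Helper23.MB.Inst.rPMSM
  Pool.Agent.Helper23.MB.Inst.rMPSM Pool.Agent.Helper23.MB.Inst.rEAOL
  Pool.Agent.Helper23.MB.Inst.rIOR Pool.Agent.Helper23.MB.Inst.rISOR
  Pool.Agent.Helper23.MB.Inst.rNZD Pool.Agent.Helper23.MB.Inst.zCharZero
  Pool.Agent.Helper23.MB.Inst.zALM Pool.Agent.Helper23.MB.Inst.zARM
  Pool.Agent.Helper23.MB.Inst.zIOR Pool.Agent.Helper23.MB.Inst.zISOR
  Pool.Agent.Helper23.MB.Inst.zNZD Pool.Agent.Helper23.MB.Inst.qCharZero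
  Pool.Agent.Helper23.MB.Inst.free Pool.Agent.Helper23.MB.Inst.faith
  Pool.Agent.Helper23.MB.Inst.torsionFree Pool.Agent.Helper23.MB.Inst.rfFaith
  Pool.Agent.Helper23.MB.Inst.hAdd Pool.Agent.Helper23.MB.Inst.hAddM
  Pool.Agent.Helper23.MB.Inst.hMul Pool.Agent.Helper23.MB.Inst.hMon
  Pool.Agent.Helper23.MB.Inst.hZero Pool.Agent.Helper23.MB.Inst.hOne
  Pool.Agent.Helper23.MB.Inst.hMZ Pool.Agent.Helper23.MB.Inst.hRing
  Pool.Agent.Helper23.MB.Inst.aAdd Pool.Agent.Helper23.MB.Inst.aAddM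
  Pool.Agent.Helper23.MB.Inst.aMul Pool.Agent.Helper23.MB.Inst.aMon
  Pool.Agent.Helper23.MB.Inst.aZero Pool.Agent.Helper23.MB.Inst.aOne
  Pool.Agent.Helper23.MB.Inst.aMZ Pool.Agent.Helper23.MB.Inst.aRing

namespace Pool.Agent.Helper16
end Pool.Agent.Helper16
namespace Pool.Agent.Helper33
end Pool.Agent.Helper33
namespace Pool.Agent.Helper33.PS
end Pool.Agent.Helper33.PS
namespace Pool.Agent.Helper34.Dep
end Pool.Agent.Helper34.Dep
namespace Pool.Agent.Helper45.FR
end Pool.Agent.Helper45.FR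
namespace Pool.Agent.Helper47.RR
end Pool.Agent.Helper47.RR
namespace Pool.Agent.Helper55.RD
end Pool.Agent.Helper55.RD
namespace Pool.Agent.Helper93.RatODE
end Pool.Agent.Helper93.RatODE

section

set_option autoImplicit false

set_option linter.style.haveILetI false

namespace Pool.Agent.Helper16

open Polynomial IntermediateField

namespace Place

variable {K N : Type} [Field K] [Field N] [Algebra K N]

section ord

variable (v : Place K N)

theorem ord_one : v.ord 1 = 0 := by simp [ord]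

theorem ord_algebraMap (a : K) : v.ord (algebraMap K N a) = 0 := by
  by_cases ha : a = 0
  · subst ha; simp [ord]
  · unfold ord
    rw [v.triv a ha]
    simp

end ord

end Place

end Pool.Agent.Helper16

end

section

set_option autoImplicit false

set_option linter.style.haveILetI false

open Polynomial

namespace Pool.Agent.Helper45.S6

open Pool.Agent.Helper33 Pool.Agent.Helper93.RatODE Pool.Agent.Helper45.FR

section defs

variable {Ω : Type} [Field Ω]

/-- dehomogenised pair -/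
structure Dehom (F G : MvPolynomial (Fin 2) Ω) (d : ℕ) {M : Type} [Field M] [Algebra M Ω]
    (P Q : M[X]) : Prop where
  natP : P.natDegree ≤ d
  natQ : Q.natDegree ≤ d
  evP : ∀ v : Fin 2 → Ω, MvPolynomial.eval v F = hev P d (v 0) (v 1)
  evQ : ∀ v : Fin 2 → Ω, MvPolynomial.eval v G = hev Q d (v 0) (v 1)
  cop : IsCoprime P Q
  top : P.coeff d ≠ 0 ∨ Q.coeff d ≠ 0

end defs

end Pool.Agent.Helper45.S6

end

section

set_option autoImplicit false

set_option linter.style.haveILetI false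

namespace Pool.Agent.Helper64.Dep

open Polynomial Pool.Agent.Helper16 Pool.Agent.Helper47.RR IntermediateField

open Pool.Agent.Helper34.Dep

open scoped Polynomial.Bivariate

section local_order

variable {k M : Type} [Field k] [Field M] [Algebra k M]

/-- the local pole order -/
noncomputable def lp (v : Place k M) (h : M) : ℕ := (-(v.ord h)).toNat

theorem lp_le_iff (v : Place k M) (h : M) (n : ℕ) :
    lp v h ≤ n ↔ v.val h ≤ WithZero.exp (n : ℤ) := by
  unfold lp
  by_cases h0 : h = 0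
  · subst h0
    simp [v.ord_zero]
  · have hv : v.val h ≠ 0 := by simpa using h0
    rw [← WithZero.log_le_iff_le_exp hv, Int.toNat_le]
    unfold Place.ord
    rw [neg_neg]

theorem val_le_lp (v : Place k M) (h : M) : v.val h ≤ WithZero.exp (lp v h : ℤ) :=
  (lp_le_iff v h _).1 le_rfl

theorem lp_add (v : Place k M) (a b : M) : lp v (a + b) ≤ max (lp v a) (lp v b) := by
  rw [lp_le_iff]
  refine (v.val.map_add a b).trans (max_le ?_ ?_)
  · exact (lp_le_iff v a _).1 (le_max_left _ _)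
  · exact (lp_le_iff v b _).1 (le_max_right _ _)

theorem lp_sum {ι : Type} (v : Place k M) (s : Finset ι) (f : ι → M) (n : ℕ)
    (h : ∀ i ∈ s, lp v (f i) ≤ n) : lp v (∑ i ∈ s, f i) ≤ n := by
  rw [lp_le_iff]
  exact v.val.map_sum_le fun i hi => (lp_le_iff v _ _).1 (h i hi)

theorem lp_mul (v : Place k M) (a b : M) : lp v (a * b) ≤ lp v a + lp v b := by
  rw [lp_le_iff, map_mul, Nat.cast_add, WithZero.exp_add]
  exact mul_le_mul' (val_le_lp v a) (val_le_lp v b)

theorem lp_neg (v : Place k M) (a : M) : lp v (-a) = lp v a := by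
  unfold lp Place.ord
  rw [Valuation.map_neg]

theorem lp_algebraMap (v : Place k M) (c : k) : lp v (algebraMap k M c) = 0 := by
  unfold lp
  rw [v.ord_algebraMap]
  rfl

theorem lp_one (v : Place k M) : lp v 1 = 0 := by
  unfold lp
  rw [v.ord_one]
  rfl

theorem lp_pow (v : Place k M) (a : M) (n : ℕ) : lp v (a ^ n) ≤ n * lp v a := by
  induction n with
  | zero => simp [lp_one]
  | succ n ih =>
    rw [pow_succ, Nat.succ_mul]
    exact (lp_mul v _ _).trans (Nat.add_le_add_right ih _)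

theorem lp_aeval (v : Place k M) (p : k[X]) (a : M) : lp v (aeval a p) ≤ p.natDegree * lp v a := by
  rw [aeval_eq_sum_range]
  refine lp_sum v _ _ _ fun i hi => ?_
  rw [Algebra.smul_def]
  refine (lp_mul v _ _).trans ?_
  rw [lp_algebraMap, zero_add]
  refine (lp_pow v a i).trans (Nat.mul_le_mul_right _ ?_)
  have := Finset.mem_range.1 hi
  omega

theorem lp_aevalAeval (v : Place k M) (P : k[X][Y]) (m : ℕ) (hP : BiDeg P m) (a b : M) :
    lp v (P.aevalAeval a b) ≤ m * lp v a + m * lp v b := by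
  rw [aevalAeval_eq_sum]
  refine lp_sum v _ _ _ fun i hi => ?_
  refine (lp_mul v _ _).trans (Nat.add_le_add ?_ ?_)
  · exact (lp_aeval v _ a).trans (Nat.mul_le_mul_right _ (hP.2 i))
  · refine (lp_pow v b i).trans (Nat.mul_le_mul_right _ ?_)
    have := Finset.mem_range.1 hi
    have := hP.1
    omega

end local_order

end Pool.Agent.Helper64.Dep

end

section

set_option autoImplicit false

open Finset Polynomial

namespace Pool.Agent.Helper98.PS

open Pool.Agent.Helper93.RatODE Pool.Agent.Helper55.RD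

variable {K : Type*} [Field K]

section step1

lemma resultant_pow_left' {A B : K[X]} {d : ℕ} (hA : A.natDegree ≤ d) (hB : B.natDegree ≤ d)
    (m : ℕ) : resultant (A ^ m) B (m * d) d = resultant A B d d ^ m := by
  induction m with
  | zero => simp
  | succ m ih =>
    rw [pow_succ, add_mul, one_mul, resultant_mul_left' (natDegree_pow_le_of_le m hA) hA hB, ih,
      pow_succ]

lemma csq_TF_succ {A B : K[X]} {d : ℕ} (hA : A.natDegree ≤ d) (hB : B.natDegree ≤ d) (m : ℕ) :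
    csq (TF A B d (m + 1)) = csq (TF A B d m) * (resultant A B d d ^ m) ^ 2 := by
  set q : (Fin m × Fin d) ⊕ Fin d → K[X] :=
    Sum.elim (fun bc => X ^ (finProdFinEquiv bc : ℕ) * B) (fun c => X ^ (c : ℕ) * A ^ m) with hq
  have h1 : csq q = (resultant A B d d ^ m) ^ 2 := by
    rw [← resultant_pow_left' hA hB, ← csq_sylvester (natDegree_pow_le_of_le m hA) hB,
      ← csq_comp (Equiv.sumCongr finProdFinEquiv (Equiv.refl (Fin d)))]
    congr 1
    funext x
    rcases x with x | x <;> rfl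
  set M : Matrix (Fin m × Fin d) (Fin m × Fin d) K :=
    Matrix.of fun i j => (TF A B d m i).coeff (finProdFinEquiv j : ℕ) with hM
  have h2 : M.det ^ 2 = csq (TF A B d m) := by
    rw [csq_eq _ finProdFinEquiv]
    rfl
  rw [← csq_comp (peel m d), csq_base (Matrix.fromBlocks M 0 0 1) _ q, h1,
    Matrix.det_fromBlocks_zero₂₁, Matrix.det_one, mul_one, h2]
  intro i
  rcases i with ⟨b, c⟩ | c
  · rw [Fintype.sum_sum_type]
    have e1 : TF A B d (m + 1) (peel m d (Sum.inl (b, c))) = TF A B d m (b, c) * B := by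
      have hb := b.2
      simp only [TF, peel, Equiv.coe_fn_mk, Sum.elim_inl, Fin.val_castSucc]
      rw [show m + 1 - 1 - (b : ℕ) = m - 1 - (b : ℕ) + 1 by omega, pow_succ]
      ring
    rw [e1]
    conv_lhs => rw [eq_sum_coeff finProdFinEquiv (natDegree_TF hA hB (b, c)), sum_mul]
    simp [hM, hq, mul_assoc]
  · rw [Fintype.sum_sum_type]
    have e1 : TF A B d (m + 1) (peel m d (Sum.inr c)) = X ^ (c : ℕ) * A ^ m := by
      simp only [TF, peel, Equiv.coe_fn_mk, Sum.elim_inr, Fin.val_last]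
      rw [show m + 1 - 1 - m = 0 by omega, pow_zero, mul_one, mul_comm]
    rw [e1]
    simp [hq, Matrix.one_apply]

lemma csq_TF {A B : K[X]} {d : ℕ} (hA : A.natDegree ≤ d) (hB : B.natDegree ≤ d) (m : ℕ) :
    csq (TF A B d m) = (resultant A B d d ^ (∑ i ∈ range m, i)) ^ 2 := by
  induction m with
  | zero => rw [csq_isEmpty]; simp
  | succ m ih =>
    rw [csq_TF_succ hA hB, ih, sum_range_succ, pow_add, mul_pow]

end step1

section step2

lemma hev_eq_hom {S : Type*} [CommRing S] [Algebra K S] (P : K[X]) (n : ℕ) (u w : S) :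
    hev P n u w = hom n P u w := by
  rw [hev, hom, Finset.Nat.sum_antidiagonal_eq_sum_range_succ_mk]

lemma iter_comp {A B : K[X]} {d : ℕ} (hA : A.natDegree ≤ d) (hB : B.natDegree ≤ d) (t : ℕ) :
    iter A B d (t + 1) = (hom (d ^ t) (iter A B d t).1 A B, hom (d ^ t) (iter A B d t).2 A B) := by
  have h0 : ∀ P : K[X], P.natDegree ≤ d → hom d P (X : K[X]) 1 = P := by
    intro P hP
    rw [← hev_eq_hom, hev, Finset.sum_congr rfl (g := fun j => C (P.coeff j) * X ^ j)
      (fun j _ => by rw [one_pow, mul_one]; rfl)]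
    exact (as_sum_range_C_mul_X_pow' P (by omega)).symm
  induction t with
  | zero =>
    simp only [iter, pow_zero, hom_one_deg, hev_eq_hom, h0 A hA, h0 B hB]
    simp [coeff_one]
  | succ t ih =>
    have h1 : (iter A B d (t + 1 + 1)).1 =
      hom d A (iter A B d (t + 1)).1 (iter A B d (t + 1)).2 := (hev_eq_hom _ _ _ _)
    have h2 : (iter A B d (t + 1 + 1)).2 =
      hom d B (iter A B d (t + 1)).1 (iter A B d (t + 1)).2 := (hev_eq_hom _ _ _ _)
    have h3 : (iter A B d (t + 1)).1 = hom d A (iter A B d t).1 (iter A B d t).2 :=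
      (hev_eq_hom _ _ _ _)
    have h4 : (iter A B d (t + 1)).2 = hom d B (iter A B d t).1 (iter A B d t).2 :=
      (hev_eq_hom _ _ _ _)
    have h5 := hom_hom (A := K[X]) A (iter_natDegree (P := A) (Q := B) (d := d) t).1
      (iter_natDegree (P := A) (Q := B) (d := d) t).2 A B (n := d)
    have h6 := hom_hom (A := K[X]) B (iter_natDegree (P := A) (Q := B) (d := d) t).1
      (iter_natDegree (P := A) (Q := B) (d := d) t).2 A B (n := d)
    rw [Prod.ext_iff]
    refine ⟨?_, ?_⟩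
    · rw [h1]
      conv_lhs => rw [ih]
      rw [h3, pow_succ, mul_comm (d ^ t) d, h5]
    · rw [h2]
      conv_lhs => rw [ih]
      rw [h4, pow_succ, mul_comm (d ^ t) d, h6]

lemma hom_prod {S : Type*} [CommRing S] [Algebra K S] {ι : Type*} (s : Finset ι) (n : ι → ℕ)
    (f : ι → K[X]) (hf : ∀ i ∈ s, (f i).natDegree ≤ n i) (a b : S) :
    hom (∑ i ∈ s, n i) (∏ i ∈ s, f i) a b = ∏ i ∈ s, hom (n i) (f i) a b := by
  classical
  induction s using Finset.induction_on with
  | empty => simp [hom_zero_deg]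
  | insert i s hi ih =>
    rw [sum_insert hi, prod_insert hi, prod_insert hi,
      hom_mul (hf i (mem_insert_self i s))
        ((natDegree_prod_le _ _).trans (sum_le_sum fun j hj => hf j (mem_insert_of_mem hj))),
      ih fun j hj => hf j (mem_insert_of_mem hj)]

lemma SP_cons {A B : K[X]} {d : ℕ} (hd : 1 ≤ d) (hA : A.natDegree ≤ d) (hB : B.natDegree ≤ d)
    (k : ℕ) (c : Fin d) (a : Fin k → Fin d) :
    SP A B d (k + 1) (Fin.cons c a) = X ^ (c : ℕ) * hom (d ^ k - 1) (SP A B d k a) A B := by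
  rw [SP, Fin.prod_univ_succ, ← sum_pow_sub_one d k hd, SP,
    hom_prod univ _ _ (fun t _ => natDegree_SP_factor a t)]
  congr 1
  · simp [iter]
  · refine prod_congr rfl fun t _ => ?_
    rw [Fin.cons_succ, Fin.val_succ, iter_comp hA hB]
    have hat := (a t).2
    have e : (d - 1) * d ^ (t : ℕ) = a t * d ^ (t : ℕ) + (d - 1 - a t) * d ^ (t : ℕ) := by
      rw [← add_mul]; congr 1; omega
    rw [e, hom_mul (natDegree_pow_le_of_le _ (iter_natDegree (t : ℕ)).1)
      (natDegree_pow_le_of_le _ (iter_natDegree (t : ℕ)).2), hom_pow (iter_natDegree (t : ℕ)).1,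
      hom_pow (iter_natDegree (t : ℕ)).2]

open Kronecker in
lemma csq_SP_succ {A B : K[X]} {d : ℕ} (hd : 1 ≤ d) (hA : A.natDegree ≤ d) (hB : B.natDegree ≤ d)
    (k : ℕ) : csq (SP A B d (k + 1)) = csq (SP A B d k) ^ d * csq (TF A B d (d ^ k)) := by
  set e : (Fin k → Fin d) ≃ Fin (d ^ k) := finFunctionFinEquiv
  set M : Matrix (Fin k → Fin d) (Fin k → Fin d) K :=
    Matrix.of fun i j => (SP A B d k i).coeff (e j : ℕ) with hM
  have h2 : M.det ^ 2 = csq (SP A B d k) := by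
    rw [csq_eq _ e]
    rfl
  set q : Fin d × (Fin k → Fin d) → K[X] := fun ca => TF A B d (d ^ k) (e ca.2, ca.1) with hq
  have h3 : csq q = csq (TF A B d (d ^ k)) := by
    rw [← csq_comp ((Equiv.prodComm (Fin d) (Fin k → Fin d)).trans
      (Equiv.prodCongr e (Equiv.refl (Fin d))))]
    rfl
  rw [← csq_comp (Fin.consEquiv fun _ => Fin d), csq_base ((1 : Matrix (Fin d) (Fin d) K) ⊗ₖ M) _ q,
    h3, Matrix.det_kronecker, Matrix.det_one, one_pow, one_mul, Fintype.card_fin, ← pow_mul,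
    mul_comm d 2, pow_mul, h2]
  rintro ⟨c, a⟩
  change SP A B d (k + 1) (Fin.cons c a) = _
  rw [SP_cons hd hA hB, ← hev_eq_hom, hev, Nat.sub_add_cancel (Nat.one_le_pow _ _ (by omega)),
    Fintype.sum_prod_type, Finset.sum_eq_single c]
  · rw [mul_sum, ← Fin.sum_univ_eq_sum_range (fun j => (X : K[X]) ^ (c : ℕ) *
      (algebraMap K K[X] ((SP A B d k a).coeff j) * A ^ j * B ^ (d ^ k - 1 - j))) (d ^ k),
      ← Equiv.sum_comp e]
    refine sum_congr rfl fun a' _ => ?_
    simp only [hq, TF, Matrix.kroneckerMap_apply, Matrix.one_apply_eq, hM, Matrix.of_apply, one_mul]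
    rw [Polynomial.algebraMap_apply, Algebra.algebraMap_self_apply]
    ring
  · intro c' _ hc'
    refine sum_eq_zero fun a' _ => ?_
    rw [Matrix.kroneckerMap_apply, Matrix.one_apply_ne hc'.symm, zero_mul, C_0, zero_mul]
  · intro h; exact absurd (mem_univ c) h

lemma csq_SP {A B : K[X]} {d : ℕ} (hd : 1 ≤ d) (hA : A.natDegree ≤ d) (hB : B.natDegree ≤ d)
    (k : ℕ) : csq (SP A B d k) = (resultant A B d d ^ rexp d k) ^ 2 := by
  induction k with
  | zero =>
    rw [csq_eq _ finFunctionFinEquiv]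
    have : cdet (SP A B d 0) (fun i => (finFunctionFinEquiv i : ℕ)) = 1 := by
      have h1 : (Matrix.of fun i j : Fin 0 → Fin d =>
          (SP A B d 0 i).coeff (finFunctionFinEquiv j : ℕ)) = (1 : Matrix _ _ K) := by
        ext i j
        rw [Subsingleton.elim i j, Matrix.one_apply_eq, Matrix.of_apply]
        simp [SP]
      rw [cdet, h1, Matrix.det_one]
    rw [this]
    simp [rexp]
  | succ k ih =>
    rw [csq_SP_succ hd hA hB, ih, csq_TF hA hB, rexp, pow_add, mul_pow, ← pow_mul _ 2 d,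
      mul_comm 2 d, pow_mul _ d 2, ← pow_mul _ _ d, mul_comm (rexp d k) d]

end step2

/-- K1 (m = d^k, r = m(m-1)/(2d(d-1)) - mk/(2d), i.e. r(1)=0, r(k+1) = d r(k) + m(m-1)/2) -/
theorem SP_det' {K : Type*} [Field K] {A B : K[X]} {d : ℕ} (hd : 2 ≤ d) (hA : A.natDegree ≤ d)
    (hB : B.natDegree ≤ d) (k : ℕ) (e : (Fin k → Fin d) ≃ Fin (d ^ k)) :
    ∃ r : ℕ, 2 * (d * (d - 1)) * r + d ^ k * k * (d - 1) + d ^ k = d ^ k * d ^ k ∧
      ((Matrix.of fun a (c : Fin (d ^ k)) => (SP A B d k (e.symm a)).coeff (c : ℕ)).det =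
        resultant A B d d ^ r ∨
      (Matrix.of fun a (c : Fin (d ^ k)) => (SP A B d k (e.symm a)).coeff (c : ℕ)).det =
        - resultant A B d d ^ r) := by
  refine ⟨rexp d k, rexp_eq d (by omega) k, ?_⟩
  rw [← sq_eq_sq_iff_eq_or_eq_neg, ← csq_SP (by omega) hA hB, csq_eq _ e]
  congr 1
  rw [cdet, ← Matrix.det_submatrix_equiv_self e.symm]
  congr 1
  ext i j
  simp

end Pool.Agent.Helper98.PS

end

section

set_option autoImplicit false

open Finset Polynomial

namespace Pool.Agent.Helper98.PS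

open Pool.Agent.Helper33 Pool.Agent.Helper33.PS Pool.Agent.Helper93.RatODE Pool.Agent.Helper55.RD

variable {K : Type*} [Field K]

section localbound

variable {v : DV K} {A B : K[X]} {δ k n : ℕ} {z : ℕ → K}

lemma ge_eval {P : K[X]} (hP : IntP v P) {x : K} (hx : v.ge 0 x) : v.ge 0 (P.eval x) := by
  rw [eval_eq_sum_range]
  refine DV.ge_sum _ _ fun i _ => ?_
  have := DV.ge_mul (hP i) (DV.ge_pow hx i)
  simpa using this

lemma o_B_nonneg (hBi : IntP v B) (hz : Orb A B z n) (hint : ∀ i ≤ n, v.ge 0 (z i)) (j : ℕ)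
    (hj : j < n) : 0 ≤ v.o (B.eval (z j)) := by
  have h := DV.ge_le (ge_eval hBi (hint j hj.le)) (hz.ne j hj)
  exact_mod_cast h

lemma ge_A (hz : Orb A B z n) (hint : ∀ i ≤ n, v.ge 0 (z i)) (j : ℕ)
    (hj : j < n) : v.ge (v.o (B.eval (z j))) (A.eval (z j)) := by
  have h1 : A.eval (z j) = z (j + 1) * B.eval (z j) := by
    rw [hz.step j hj, div_mul_cancel₀ _ (hz.ne j hj)]
  rw [h1]
  have := DV.ge_mul (hint (j + 1) hj) (DV.ge_self (v := v) (B.eval (z j)))
  rwa [zero_add] at this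

lemma o_B_le (hδ : 1 ≤ δ) (hA : A.natDegree ≤ δ) (hB : B.natDegree ≤ δ)
    (hres : resultant A B δ δ ≠ 0) (hAi : IntP v A) (hBi : IntP v B) (hz : Orb A B z n)
    (hint : ∀ i ≤ n, v.ge 0 (z i)) (j : ℕ) (hj : j < n) :
    v.o (B.eval (z j)) ≤ v.o (resultant A B δ δ) := by
  have h := le_resultant (x := (z j, 1)) hδ hres hAi hBi
    ⟨hint j hj.le, DV.ge_one, Or.inr ⟨one_ne_zero, v.o_one⟩⟩ (c := v.o (B.eval (z j)))
    (by rw [hom_eval hA]; exact ge_A hz hint j hj) (by rw [hom_eval hB]; exact DV.ge_self _)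
  exact_mod_cast h

lemma card_B_pos (hA : A.natDegree ≤ δ) (hB : B.natDegree ≤ δ)
    (hprim : ∃ i, (A.coeff i ≠ 0 ∧ v.o (A.coeff i) = 0) ∨ (B.coeff i ≠ 0 ∧ v.o (B.coeff i) = 0))
    (hz : Orb A B z n)
    (hint : ∀ i ≤ n, v.ge 0 (z i)) (hne : ∀ i ≤ n, ∀ j ≤ n, z i = z j → i = j)
    (hdiff : ∀ i ≤ n, ∀ j ≤ n, i ≠ j → v.o (z i - z j) = 0) (T : Finset ℕ) (hT : ∀ j ∈ T, j < n)
    (hTB : ∀ j ∈ T, 1 ≤ v.o (B.eval (z j))) : T.card ≤ δ := by
  by_contra hcard
  push Not at hcard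
  obtain ⟨T', hT', hcard'⟩ := Finset.exists_subset_card_eq (n := δ + 1) hcard
  have key : ∀ P : K[X], P.natDegree ≤ δ → (∀ j ∈ T, v.ge 1 (P.eval (z j))) →
      ∀ i, v.ge 1 (P.coeff i) := by
    intro P hP hval i
    have h := cramer v hP T' hcard' (fun j => (z j, (1 : K))) (fun j hj => hint j (hT j (hT' hj)).le)
      (fun j _ => DV.ge_one) 0 1 (by
        intro i hi j hj hij
        have hi' := (hT i (hT' hi)).le
        have hj' := (hT j (hT' hj)).le
        have e : wedge ((z i, (1 : K))) ((z j, (1 : K))) = z i - z j := by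
          simp [wedge]
        rw [e]
        refine ⟨sub_ne_zero.mpr fun h => hij (hne i hi' j hj' h), ?_⟩
        rw [hdiff i hi' j hj' hij]
        simp) (by
        intro j hj
        rw [hom_eval hP]
        exact hval j (hT' hj)) i
    simpa using h
  have hBv : ∀ j ∈ T, v.ge 1 (B.eval (z j)) := fun j hj => Or.inr (by exact_mod_cast hTB j hj)
  have hAv : ∀ j ∈ T, v.ge 1 (A.eval (z j)) := fun j hj =>
    DV.ge_mono (ge_A hz hint j (hT j hj)) (by exact_mod_cast hTB j hj)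
  obtain ⟨i, ⟨h0, h1⟩ | ⟨h0, h1⟩⟩ := hprim
  · have := DV.ge_le (key A hA hAv i) h0
    rw [h1] at this
    norm_num at this
  · have := DV.ge_le (key B hB hBv i) h0
    rw [h1] at this
    norm_num at this

lemma sum_B_le (hδ : 1 ≤ δ) (hA : A.natDegree ≤ δ) (hB : B.natDegree ≤ δ)
    (hres : resultant A B δ δ ≠ 0) (hAi : IntP v A) (hBi : IntP v B)
    (hprim : ∃ i, (A.coeff i ≠ 0 ∧ v.o (A.coeff i) = 0) ∨ (B.coeff i ≠ 0 ∧ v.o (B.coeff i) = 0))
    (hz : Orb A B z n)
    (hint : ∀ i ≤ n, v.ge 0 (z i)) (hne : ∀ i ≤ n, ∀ j ≤ n, z i = z j → i = j)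
    (hdiff : ∀ i ≤ n, ∀ j ≤ n, i ≠ j → v.o (z i - z j) = 0) (t m : ℕ) (hm : t + m ≤ n) :
    ∑ l ∈ range m, v.o (B.eval (z (l + t))) ≤ δ * v.o (resultant A B δ δ) := by
  classical
  set T := (range m).filter fun l => 1 ≤ v.o (B.eval (z (l + t))) with hT
  have h1 : ∑ l ∈ range m, v.o (B.eval (z (l + t))) =
      ∑ l ∈ T, v.o (B.eval (z (l + t))) := by
    rw [hT, sum_filter]
    refine sum_congr rfl fun l hl => ?_
    rw [mem_range] at hl
    split_ifs with h
    · rfl
    · have := o_B_nonneg hBi hz hint (l + t) (by omega)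
      omega
  rw [h1]
  have hρ : 0 ≤ v.o (resultant A B δ δ) := by
    have := ge_resultant (m := δ) (n := δ) hAi hBi
    have := DV.ge_le this hres
    have h3 : (0 : ℝ) ≤ v.o (resultant A B δ δ) := by simpa using this
    exact_mod_cast h3
  have hc : T.card ≤ δ := by
    have := card_B_pos hA hB hprim hz hint hne hdiff (T.map (addRightEmbedding t)) (by
      intro j hj
      rw [mem_map] at hj
      obtain ⟨l, hl, rfl⟩ := hj
      rw [hT, mem_filter, mem_range] at hl
      simp only [addRightEmbedding_apply]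
      omega) (by
      intro j hj
      rw [mem_map] at hj
      obtain ⟨l, hl, rfl⟩ := hj
      rw [hT, mem_filter, mem_range] at hl
      exact hl.2)
    rwa [card_map] at this
  calc ∑ l ∈ T, v.o (B.eval (z (l + t))) ≤ ∑ l ∈ T, v.o (resultant A B δ δ) := by
        refine sum_le_sum fun l hl => ?_
        rw [hT, mem_filter, mem_range] at hl
        exact o_B_le hδ hA hB hres hAi hBi hz hint (l + t) (by omega)
    _ = T.card * v.o (resultant A B δ δ) := by simp
    _ ≤ δ * v.o (resultant A B δ δ) := by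
        exact mul_le_mul_of_nonneg_right (by exact_mod_cast hc) hρ

lemma o_iter_succ (hA : A.natDegree ≤ δ) (hB : B.natDegree ≤ δ) (hz : Orb A B z n) (l t : ℕ)
    (hl : l + t < n) : v.o ((iter A B δ (t + 1)).2.eval (z l)) =
      δ * v.o ((iter A B δ t).2.eval (z l)) + v.o (B.eval (z (l + t))) := by
  obtain ⟨h1, h2⟩ := iter_orb hA hB hz l t hl.le
  have e2 : (iter A B δ (t + 1)).2.eval (z l) =
      (iter A B δ t).2.eval (z l) ^ δ * B.eval (z (l + t)) := by
    change (hev B δ (iter A B δ t).1 (iter A B δ t).2).eval (z l) = _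
    rw [hev_eval, hev_eq_eval B δ hB _ _ h1, h2, mul_div_cancel_left₀ _ h1]
  rw [e2, v.mul _ _ (pow_ne_zero _ h1) (hz.ne _ hl), v.o_pow _ h1]

lemma sum_W_le (hδ : 1 ≤ δ) (hA : A.natDegree ≤ δ) (hB : B.natDegree ≤ δ)
    (hres : resultant A B δ δ ≠ 0) (hAi : IntP v A) (hBi : IntP v B)
    (hprim : ∃ i, (A.coeff i ≠ 0 ∧ v.o (A.coeff i) = 0) ∨ (B.coeff i ≠ 0 ∧ v.o (B.coeff i) = 0))
    (hz : Orb A B z n)
    (hint : ∀ i ≤ n, v.ge 0 (z i)) (hne : ∀ i ≤ n, ∀ j ≤ n, z i = z j → i = j)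
    (hdiff : ∀ i ≤ n, ∀ j ≤ n, i ≠ j → v.o (z i - z j) = 0) (m t : ℕ) (hm : t + m ≤ n + 1) :
    (δ - 1 : ℤ) * ∑ l ∈ range m, v.o ((iter A B δ t).2.eval (z l)) +
      δ * v.o (resultant A B δ δ) ≤ δ * v.o (resultant A B δ δ) * δ ^ t := by
  induction t with
  | zero => simp [iter, v.o_one]
  | succ t ih =>
    have h1 : ∑ l ∈ range m, v.o ((iter A B δ (t + 1)).2.eval (z l)) =
        δ * ∑ l ∈ range m, v.o ((iter A B δ t).2.eval (z l)) +
          ∑ l ∈ range m, v.o (B.eval (z (l + t))) := by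
      rw [mul_sum, ← sum_add_distrib]
      refine sum_congr rfl fun l hl => ?_
      rw [mem_range] at hl
      exact o_iter_succ hA hB hz l t (by omega)
    have h2 := sum_B_le hδ hA hB hres hAi hBi hprim hz hint hne hdiff t m (by omega)
    have h3 := ih (by omega)
    rw [h1, pow_succ]
    have hδ' : (1 : ℤ) ≤ δ := by exact_mod_cast hδ
    (clear * - h2 n hδ h3; nlinarith [mul_le_mul_of_nonneg_left h2 (by omega : (0 : ℤ) ≤ (δ : ℤ) - 1),
      mul_le_mul_of_nonneg_left h3 (by omega : (0 : ℤ) ≤ (δ : ℤ))])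

lemma sum_rowf_le (hδ : 2 ≤ δ) (hA : A.natDegree ≤ δ) (hB : B.natDegree ≤ δ)
    (hres : resultant A B δ δ ≠ 0) (hAi : IntP v A) (hBi : IntP v B)
    (hprim : ∃ i, (A.coeff i ≠ 0 ∧ v.o (A.coeff i) = 0) ∨ (B.coeff i ≠ 0 ∧ v.o (B.coeff i) = 0))
    (hz : Orb A B z n)
    (hint : ∀ i ≤ n, v.ge 0 (z i)) (hne : ∀ i ≤ n, ∀ j ≤ n, z i = z j → i = j)
    (hdiff : ∀ i ≤ n, ∀ j ≤ n, i ≠ j → v.o (z i - z j) = 0) (m k : ℕ) (hm : k + m ≤ n + 1) :
    ∑ l ∈ range m, v.o (rowf A B δ k (z l)) ≤ δ * v.o (resultant A B δ δ) * δ ^ k := by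
  have h0 : ∀ l ∈ range m, v.o (rowf A B δ k (z l)) =
      ∑ t ∈ range k, (δ - 1 : ℤ) * v.o ((iter A B δ t).2.eval (z l)) := by
    intro l hl
    rw [mem_range] at hl
    rw [rowf, v.o_prod]
    · rw [← Fin.sum_univ_eq_sum_range (fun t => (δ - 1 : ℤ) * v.o ((iter A B δ t).2.eval (z l))) k]
      refine sum_congr rfl fun t _ => ?_
      rw [v.o_pow _ (iter_orb hA hB hz l t (by have := t.2; omega)).1]
      push_cast [Nat.cast_sub (by omega : 1 ≤ δ)]
      ring
    · intro t _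
      exact pow_ne_zero _ (iter_orb hA hB hz l t (by have := t.2; omega)).1
  rw [sum_congr rfl h0, sum_comm]
  have hρ : 0 ≤ v.o (resultant A B δ δ) := by
    have := ge_resultant (m := δ) (n := δ) hAi hBi
    have := DV.ge_le this hres
    have h3 : (0 : ℝ) ≤ v.o (resultant A B δ δ) := by simpa using this
    exact_mod_cast h3
  have hδ' : (2 : ℤ) ≤ δ := by exact_mod_cast hδ
  clear h0
  induction k with
  | zero => simp; (clear * - hδ hρ; positivity)
  | succ k ih =>
    rw [sum_range_succ, pow_succ, ← mul_sum]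
    have h3 := ih (by omega)
    have h4 := sum_W_le (by omega) hA hB hres hAi hBi hprim hz hint hne hdiff m k (by omega)
    have h5 : (0 : ℤ) ≤ δ * v.o (resultant A B δ δ) * δ ^ k := by (clear * - hδ hρ; positivity)
    have h6 : (0 : ℤ) ≤ δ * v.o (resultant A B δ δ) := by (clear * - hδ hρ; positivity)
    (clear * - h3 h4 h6 hδ' h5; nlinarith [mul_le_mul_of_nonneg_left hδ' h5])

lemma o_vandermonde {m : ℕ} (hne : ∀ i < m, ∀ j < m, z i = z j → i = j)
    (hdiff : ∀ i < m, ∀ j < m, i ≠ j → v.o (z i - z j) = 0) :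
    (Matrix.vandermonde fun l : Fin m => z l).det ≠ 0 ∧
      v.o (Matrix.vandermonde fun l : Fin m => z l).det = 0 := by
  have h0 : ∀ i : Fin m, ∀ j ∈ Ioi i, z j - z i ≠ 0 := by
    intro i j hj
    rw [mem_Ioi] at hj
    refine sub_ne_zero.mpr fun h => ?_
    have := hne j j.2 i i.2 h
    have h2 : (i : ℕ) < j := hj
    omega
  have h1 : (Matrix.vandermonde fun l : Fin m => z l).det ≠ 0 := by
    rw [Matrix.det_vandermonde]
    exact prod_ne_zero_iff.mpr fun i _ => prod_ne_zero_iff.mpr fun j hj => h0 i j hj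
  refine ⟨h1, ?_⟩
  rw [Matrix.det_vandermonde, v.o_prod _ _ fun i _ => prod_ne_zero_iff.mpr fun j hj => h0 i j hj]
  refine sum_eq_zero fun i _ => ?_
  rw [v.o_prod _ _ fun j hj => h0 i j hj]
  refine sum_eq_zero fun j hj => ?_
  rw [mem_Ioi] at hj
  have h2 : (i : ℕ) < j := hj
  exact hdiff j j.2 i i.2 (by omega)

lemma det_Mz_ne_zero (hδ : 1 ≤ δ) (hA : A.natDegree ≤ δ) (hB : B.natDegree ≤ δ)
    (hres : resultant A B δ δ ≠ 0) (hz : Orb A B z n) (hn : δ ^ k + k ≤ n + 1)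
    (hne : ∀ i ≤ n, ∀ j ≤ n, z i = z j → i = j) : (Mz z δ k).det ≠ 0 := by
  have h1 := det_identity hδ hA hB hz hn
  have h2 : (Matrix.of fun a (c : Fin (δ ^ k)) =>
        (SP A B δ k (finFunctionFinEquiv.symm a)).coeff (c : ℕ)).det ^ 2 =
      (resultant A B δ δ ^ rexp δ k) ^ 2 := by
    rw [← csq_SP hδ hA hB, csq_eq _ finFunctionFinEquiv]
    congr 1
    rw [cdet, ← Matrix.det_submatrix_equiv_self finFunctionFinEquiv.symm]
    congr 1
    ext i j
    rw [Matrix.submatrix_apply, Matrix.of_apply, Matrix.of_apply, Equiv.apply_symm_apply]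
  have h3 : (Matrix.of fun a (c : Fin (δ ^ k)) =>
        (SP A B δ k (finFunctionFinEquiv.symm a)).coeff (c : ℕ)).det ≠ 0 := by
    intro h0
    rw [h0, zero_pow two_ne_zero] at h2
    exact pow_ne_zero _ (pow_ne_zero _ hres) h2.symm
  have h4 : (Matrix.vandermonde fun l : Fin (δ ^ k) => z l).det ≠ 0 := by
    rw [Matrix.det_vandermonde_ne_zero_iff]
    intro i j hij
    exact Fin.ext (hne i (by have := i.2; omega) j (by have := j.2; omega) hij)
  intro h0
  rw [h0, mul_zero] at h1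
  exact mul_ne_zero h4 h3 h1.symm

/-- the local estimate, normalised -/
lemma local_bound (hδ : 2 ≤ δ) (hA : A.natDegree ≤ δ) (hB : B.natDegree ≤ δ)
    (hres : resultant A B δ δ ≠ 0) (hAi : IntP v A) (hBi : IntP v B)
    (hprim : ∃ i, (A.coeff i ≠ 0 ∧ v.o (A.coeff i) = 0) ∨ (B.coeff i ≠ 0 ∧ v.o (B.coeff i) = 0))
    (hz : Orb A B z n) (hn : δ ^ k + k ≤ n + 1)
    (hint : ∀ i ≤ n, v.ge 0 (z i)) (hne : ∀ i ≤ n, ∀ j ≤ n, z i = z j → i = j)
    (hdiff : ∀ i ≤ n, ∀ j ≤ n, i ≠ j → v.o (z i - z j) = 0)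
    (hρ : 1 ≤ v.o (resultant A B δ δ)) (hr : δ * δ ^ k ≤ rexp δ k) :
    (rexp δ k : ℤ) - δ * δ ^ k ≤ v.o (Mz z δ k).det := by
  have h1 := det_identity (by omega : 1 ≤ δ) hA hB hz hn
  have hC2 : (Matrix.of fun a (c : Fin (δ ^ k)) =>
        (SP A B δ k (finFunctionFinEquiv.symm a)).coeff (c : ℕ)).det ^ 2 =
      (resultant A B δ δ ^ rexp δ k) ^ 2 := by
    rw [← csq_SP (by omega : 1 ≤ δ) hA hB, csq_eq _ finFunctionFinEquiv]
    congr 1
    rw [cdet, ← Matrix.det_submatrix_equiv_self finFunctionFinEquiv.symm]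
    congr 1
    ext i j
    rw [Matrix.submatrix_apply, Matrix.of_apply, Matrix.of_apply, Equiv.apply_symm_apply]
  set Cd := (Matrix.of fun a (c : Fin (δ ^ k)) =>
        (SP A B δ k (finFunctionFinEquiv.symm a)).coeff (c : ℕ)).det with hCd
  have hC0 : Cd ≠ 0 := by
    intro h0
    rw [h0, zero_pow two_ne_zero] at hC2
    exact pow_ne_zero _ (pow_ne_zero _ hres) hC2.symm
  have hCo : v.o Cd = rexp δ k * v.o (resultant A B δ δ) := by
    have h2 := congrArg v.o hC2
    rw [v.o_pow _ hC0, v.o_pow _ (pow_ne_zero _ hres), v.o_pow _ hres] at h2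
    push_cast at h2
    (clear * - h2; linarith)
  obtain ⟨hV0, hVo⟩ := o_vandermonde (v := v) (z := z) (m := δ ^ k)
    (fun i hi j hj => hne i (by omega) j (by omega))
    (fun i hi j hj => hdiff i (by (clear * - v A B hn hi j; omega)) j (by omega))
  have hM0 : (Mz z δ k).det ≠ 0 := det_Mz_ne_zero (by omega) hA hB hres hz hn hne
  have hR0 : ∀ l : Fin (δ ^ k), rowf A B δ k (z l) ≠ 0 := by
    intro l
    refine prod_ne_zero_iff.mpr fun t _ => ?_
    have := t.2
    have := l.2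
    exact pow_ne_zero _ (iter_orb hA hB hz l t (by omega)).1
  have h2 := congrArg v.o h1
  rw [v.mul _ _ (prod_ne_zero_iff.mpr fun l _ => hR0 l) hM0, v.mul _ _ hV0 hC0, hVo, hCo,
    v.o_prod _ _ fun l _ => hR0 l,
    Fin.sum_univ_eq_sum_range (fun l => v.o (rowf A B δ k (z l))) (δ ^ k)] at h2
  have h3 := sum_rowf_le hδ hA hB hres hAi hBi hprim hz hint hne hdiff (δ ^ k) k (by omega)
  have hr' : (δ : ℤ) * δ ^ k ≤ rexp δ k := by exact_mod_cast hr
  (clear * - h2 h3 hρ hr; nlinarith [mul_le_mul_of_nonneg_left hρ (by linarith : (0 : ℤ) ≤ (rexp δ k : ℤ) - δ * δ ^ k)])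

end localbound

section scaling

lemma isRat_res_ne_zero {A B : K[X]} {δ : ℕ} (hδ : 1 ≤ δ) (h : IsRat A B δ) :
    resultant A B δ δ ≠ 0 := by
  refine resultant_ne_zero_of_isCoprime h.cop h.dA h.dB ?_ hδ
  rcases h.top with h1 | h1
  · exact Or.inl (le_antisymm h.dA (le_natDegree_of_ne_zero h1))
  · exact Or.inr (le_antisymm h.dB (le_natDegree_of_ne_zero h1))

end scaling

end Pool.Agent.Helper98.PS

end

section

set_option autoImplicit false

open Finset

namespace Pool.Agent.Helper11.PS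

open Pool.Agent.Helper33

/-- M5a: the gain near the diagonal -/
theorem det_gain {K : Type*} [Field K] (v : DV K) (m : ℕ) (x y : Fin m × Fin m → K)
    (hx : ∀ i, v.ge 0 (x i)) (hy : ∀ i, v.ge 0 (y i)) (hxy : ∀ i, v.ge 1 (y i - x i)) :
    v.ge (m * (m - 1) * (2 * m - 1) / 6 : ℝ)
      (Matrix.of fun i (ab : Fin m × Fin m) => x i ^ (ab.1 : ℕ) * y i ^ (ab.2 : ℕ)).det := by
  set M : Matrix (Fin m × Fin m) (Fin m × Fin m) K :=
    Matrix.of fun i (ab : Fin m × Fin m) => x i ^ (ab.1 : ℕ) * y i ^ (ab.2 : ℕ) with hM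
  have h1 : M.det = (M * TM K m).det := by
    rw [Matrix.det_mul, det_TM, mul_one]
  have h2 : ∀ i ab, (M * TM K m) i ab =
      x i ^ (ab.1 : ℕ) * y i ^ cc m ab.1 ab.2 * (y i - x i) ^ ((ab.2 : ℕ) - cc m ab.1 ab.2) := by
    intro i ab
    rw [← sum_tt m ab.1 ab.2 ab.1.2 ab.2.2, Matrix.mul_apply, Fintype.sum_prod_type_right,
      ← Fin.sum_univ_eq_sum_range
        (fun q => ∑ p ∈ range m, x i ^ p * y i ^ q * tt K m ab.1 ab.2 p q) m]
    apply Finset.sum_congr rfl
    intro q _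
    rw [← Fin.sum_univ_eq_sum_range (fun p => x i ^ p * y i ^ (q : ℕ) * tt K m ab.1 ab.2 p q) m]
    rfl
  have h3 : ∀ i ab, v.ge (((ab.2 : ℕ) - cc m ab.1 ab.2 : ℕ) : ℝ) ((M * TM K m) i ab) := by
    intro i ab
    rw [h2]
    have e1 := DV.ge_pow (hx i) (ab.1 : ℕ)
    have e2 := DV.ge_pow (hy i) (cc m ab.1 ab.2)
    have e3 := DV.ge_pow (hxy i) ((ab.2 : ℕ) - cc m ab.1 ab.2)
    refine DV.ge_mono (DV.ge_mul (DV.ge_mul e1 e2) e3) (le_of_eq ?_)
    ring
  rw [h1, Matrix.det_apply, ← sum_gain]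
  apply DV.ge_sum
  intro σ _
  have h4 : v.ge (∑ ab : Fin m × Fin m, ((((ab.2 : ℕ) - cc m ab.1 ab.2 : ℕ)) : ℝ))
      (∏ ab, (M * TM K m) (σ ab) ab) := by
    have : ∀ s : Finset (Fin m × Fin m),
        v.ge (∑ ab ∈ s, ((((ab.2 : ℕ) - cc m ab.1 ab.2 : ℕ)) : ℝ))
          (∏ ab ∈ s, (M * TM K m) (σ ab) ab) := by
      intro s
      induction s using Finset.induction_on with
      | empty => simpa using DV.ge_one
      | insert a s ha ih =>
        rw [Finset.prod_insert ha, Finset.sum_insert ha]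
        exact DV.ge_mul (h3 _ _) ih
    exact this univ
  rcases Int.units_eq_one_or (Equiv.Perm.sign σ) with h | h
  · rw [h, one_smul]; exact h4
  · rw [h, Units.neg_smul, one_smul]; exact DV.ge_neg h4

end Pool.Agent.Helper11.PS

end

section

set_option autoImplicit false

open Finset Polynomial

namespace Pool.Agent.Helper98.PS

open Pool.Agent.Helper33 Pool.Agent.Helper33.PS Pool.Agent.Helper93.RatODE Pool.Agent.Helper55.RD

section algebra

variable {K : Type*} [Field K]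

lemma det_CM_ne_zero {A B : K[X]} {d k : ℕ} (hd : 2 ≤ d) (hAB : IsRat A B d) :
    (CM A B d k).det ≠ 0 := by
  have hres := isRat_res_ne_zero (by omega) hAB
  obtain ⟨r, _, h | h⟩ := SP_det' hd hAB.dA hAB.dB k finFunctionFinEquiv
  · rw [CM, h]; exact pow_ne_zero _ hres
  · rw [CM, h]; exact neg_ne_zero.mpr (pow_ne_zero _ hres)

end algebra

section localbound

variable {K : Type*} [Field K]

lemma intP_one (v : DV K) : IntP v (1 : K[X]) := by
  intro i
  rw [coeff_one]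
  split_ifs
  · exact DV.ge_one
  · exact DV.ge_zero 0

lemma intP_mul {v : DV K} {P Q : K[X]} (hP : IntP v P) (hQ : IntP v Q) : IntP v (P * Q) := by
  intro i
  rw [coeff_mul]
  refine DV.ge_sum _ _ fun j _ => ?_
  simpa using DV.ge_mul (hP j.1) (hQ j.2)

lemma intP_pow {v : DV K} {P : K[X]} (hP : IntP v P) (n : ℕ) : IntP v (P ^ n) := by
  induction n with
  | zero => rw [pow_zero]; exact intP_one v
  | succ n ih => rw [pow_succ]; exact intP_mul ih hP

lemma intP_prod {v : DV K} {ι : Type*} (s : Finset ι) (P : ι → K[X]) (hP : ∀ i ∈ s, IntP v (P i)) :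
    IntP v (∏ i ∈ s, P i) := by
  classical
  induction s using Finset.induction_on with
  | empty => rw [prod_empty]; exact intP_one v
  | insert a s ha ih =>
    rw [prod_insert ha]
    exact intP_mul (hP a (mem_insert_self a s)) (ih fun i hi => hP i (mem_insert_of_mem hi))

lemma intP_sum {v : DV K} {ι : Type*} (s : Finset ι) (P : ι → K[X]) (hP : ∀ i ∈ s, IntP v (P i)) :
    IntP v (∑ i ∈ s, P i) := by
  intro j
  rw [finsetSum_coeff]
  exact DV.ge_sum _ _ fun i hi => hP i hi j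

lemma intP_C {v : DV K} {a : K} (ha : v.ge 0 a) : IntP v (C a) := by
  intro i
  rw [coeff_C]
  split_ifs
  · exact ha
  · exact DV.ge_zero 0

lemma intP_hev {v : DV K} {P U W : K[X]} (hP : IntP v P) (hU : IntP v U) (hW : IntP v W) (n : ℕ) :
    IntP v (hev P n U W) := by
  rw [hev]
  refine intP_sum _ _ fun i _ => ?_
  refine intP_mul (intP_mul ?_ (intP_pow hU _)) (intP_pow hW _)
  exact intP_C (hP i)

lemma intP_iter {v : DV K} {A B : K[X]} (hA : IntP v A) (hB : IntP v B) (d t : ℕ) :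
    IntP v (iter A B d t).1 ∧ IntP v (iter A B d t).2 := by
  induction t with
  | zero =>
    refine ⟨?_, intP_one v⟩
    intro i
    simp only [iter, coeff_X]
    split_ifs
    · exact DV.ge_one
    · exact DV.ge_zero 0
  | succ t ih => exact ⟨intP_hev hA ih.1 ih.2 d, intP_hev hB ih.1 ih.2 d⟩

lemma ge_CM {v : DV K} {A B : K[X]} (hA : IntP v A) (hB : IntP v B) (d k : ℕ)
    (a c : Fin (d ^ k)) : v.ge 0 (CM A B d k a c) := by
  rw [CM, Matrix.of_apply]
  have : IntP v (SP A B d k (finFunctionFinEquiv.symm a)) := by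
    rw [SP]
    exact intP_prod _ _ fun t _ => intP_mul (intP_pow (intP_iter hA hB d t).1 _)
      (intP_pow (intP_iter hA hB d t).2 _)
  exact this c

lemma o_rowf {v : DV K} {A B : K[X]} {d k n : ℕ} (hAB : IsRat A B d) {x : ℕ → K}
    (hx : Orb A B x n) (hB0 : ∀ j < n, v.o (B.eval (x j)) = 0) (j : ℕ) (hj : j + k ≤ n + 1) :
    v.o (rowf A B d k (x j)) = 0 := by
  have h0 : ∀ t, j + t ≤ n → v.o ((iter A B d t).2.eval (x j)) = 0 := by
    intro t
    induction t with
    | zero => intro _; simp [iter, v.o_one]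
    | succ t ih =>
      intro ht
      rw [o_iter_succ hAB.dA hAB.dB hx j t (by omega), ih (by omega), hB0 _ (by omega)]
      simp
  rw [rowf, v.o_prod]
  · refine sum_eq_zero fun t _ => ?_
    have := t.2
    rw [v.o_pow _ (iter_orb hAB.dA hAB.dB hx j t (by omega)).1, h0 t (by omega), mul_zero]
  · intro t _
    have := t.2
    exact pow_ne_zero _ (iter_orb hAB.dA hAB.dB hx j t (by omega)).1

lemma ge_of_unit_mul {v : DV K} {c : ℝ} {u D : K} (hu : u ≠ 0) (hu0 : v.o u = 0)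
    (h : v.ge c (u * D)) : v.ge c D := by
  by_cases hD : D = 0
  · exact Or.inl hD
  · right
    have := DV.ge_le h (mul_ne_zero hu hD)
    rwa [v.mul _ _ hu hD, hu0, zero_add] at this

open Kronecker in
/-- normalised local gain -/
lemma local_gain {v : DV K} {A B A' B' : K[X]} {d k n : ℕ} (hd : 1 ≤ d) (hAB : IsRat A B d)
    (hAB' : IsRat A' B' d) {x y : ℕ → K} (hx : Orb A B x n) (hy : Orb A' B' y n)
    (hA : IntP v A) (hB : IntP v B) (hA' : IntP v A') (hB' : IntP v B')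
    (hB0 : ∀ j < n, v.o (B.eval (x j)) = 0) (hB0' : ∀ j < n, v.o (B'.eval (y j)) = 0)
    (hint : ∀ j ≤ n, v.ge 0 (x j) ∧ v.ge 0 (y j) ∧ v.ge 1 (y j - x j))
    (φ : Fin (d ^ k) × Fin (d ^ k) → ℕ) (hφ : ∀ i, φ i ≤ n ∧ φ i + k ≤ n + 1) :
    v.ge (((d ^ k : ℕ) : ℝ) * (((d ^ k : ℕ) : ℝ) - 1) * (2 * ((d ^ k : ℕ) : ℝ) - 1) / 6)
      (Matrix.of fun i c => rw2 x y d k (φ i) c).det := by
  have hrow : ∀ i, rowf A B d k (x (φ i)) * rowf A' B' d k (y (φ i)) ≠ 0 := fun i =>
    mul_ne_zero (rowf_ne_zero hAB hx _ (hφ i).2) (rowf_ne_zero hAB' hy _ (hφ i).2)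
  refine ge_of_unit_mul (u := ∏ i, (rowf A B d k (x (φ i)) * rowf A' B' d k (y (φ i))))
    (prod_ne_zero_iff.mpr fun i _ => hrow i) ?_ ?_
  · rw [v.o_prod _ _ fun i _ => hrow i]
    refine sum_eq_zero fun i _ => ?_
    rw [v.mul _ _ (rowf_ne_zero hAB hx _ (hφ i).2) (rowf_ne_zero hAB' hy _ (hφ i).2),
      o_rowf hAB hx hB0 _ (hφ i).2, o_rowf hAB' hy hB0' _ (hφ i).2, add_zero]
  · rw [det_identity2 hd hAB hAB' hx hy φ fun i => (hφ i).2]
    have h1 := Helper11.PS.det_gain v (d ^ k) (fun i => x (φ i)) (fun i => y (φ i))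
      (fun i => (hint _ (hφ i).1).1) (fun i => (hint _ (hφ i).1).2.1)
      (fun i => (hint _ (hφ i).1).2.2)
    have h2 : v.ge 0 ((CM A B d k) ⊗ₖ (CM A' B' d k)).det := by
      have := ge_det (v := v) ((CM A B d k) ⊗ₖ (CM A' B' d k)) (fun _ => 0) fun i j => by
        rw [Matrix.kroneckerMap_apply]
        simpa using DV.ge_mul (ge_CM hA hB d k i.1 j.1) (ge_CM hA' hB' d k i.2 j.2)
      simpa using this
    have h3 := DV.ge_mul h1 h2
    rwa [add_zero] at h3

end localbound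

end Pool.Agent.Helper98.PS

end

section

set_option autoImplicit false

open Finset Polynomial

namespace Pool.Agent.Helper36.S5

variable {κ : Type*} [Field κ]

lemma natDegree_hsub_le (A B : κ[X]) {d : ℕ} (hA : A.natDegree ≤ d) (hB : B.natDegree ≤ d)
    (n : ℕ) (q : κ[X]) : (hsub A B n q).natDegree ≤ n * d := by
  refine natDegree_sum_le_of_forall_le _ _ fun i hi => ?_
  have hi' : i ≤ n := Nat.lt_succ_iff.mp (mem_range.mp hi)
  refine (natDegree_C_mul_le _ _).trans ?_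
  refine (natDegree_mul_le_of_le (natDegree_pow_le_of_le i hA)
    (natDegree_pow_le_of_le (n - i) hB)).trans ?_
  rw [← add_mul]
  exact Nat.mul_le_mul_right _ (by omega)

/-- the transform of `Q` -/
noncomputable def trf (A B E : κ[X]) (D e : ℕ) (Q : κ[X][X]) : κ[X][X] :=
  ∑ i ∈ range (e + 1), C (hsub A B D (Q.coeff i)) * ((C (wr A B) * X + C E) ^ i *
    C (B ^ (2 * (e - i))))

lemma trf_eval (A B E : κ[X]) (D e : ℕ) (Q : κ[X][X]) (hQ : Q.natDegree ≤ e)
    (hD : XDeg Q D) (x y u w : κ) (h : y * B.eval x = A.eval x)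
    (hw : w * B.eval x ^ 2 = (wr A B).eval x * u + E.eval x) :
    evalEval x u (trf A B E D e Q) = B.eval x ^ (D + 2 * e) * evalEval y w Q := by
  rw [trf, evalEval, eval_finsetSum, eval_finsetSum, evalEval,
    eval_eq_sum_range' (lt_of_le_of_lt hQ (Nat.lt_succ_self _)), eval_finsetSum, mul_sum]
  refine sum_congr rfl fun i hi => ?_
  have hi' : i ≤ e := Nat.lt_succ_iff.mp (mem_range.mp hi)
  simp only [eval_mul, eval_pow, eval_add, eval_C, eval_X]
  rw [hsub_eval A B D _ (hD i) x y h, ← hw, mul_pow, ← pow_mul]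
  have : eval x B ^ (D + 2 * e) = eval x B ^ D * eval x B ^ (2 * i) *
      eval x B ^ (2 * (e - i)) := by
    rw [← pow_add, ← pow_add]; congr 1; omega
  rw [this]; ring

lemma trf_XDeg (A B E : κ[X]) {d : ℕ} (hA : A.natDegree ≤ d) (hB : B.natDegree ≤ d)
    (hW : (wr A B).natDegree ≤ 2 * d) (hE : E.natDegree ≤ 2 * d) (D e : ℕ) (Q : κ[X][X]) :
    XDeg (trf A B E D e Q) (D * d + 2 * d * e) := by
  apply XDeg.sum
  intro i hi
  have hi' : i ≤ e := Nat.lt_succ_iff.mp (mem_range.mp hi)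
  have h1 : XDeg (C (wr A B) * X + C E) (2 * d) := by
    refine XDeg.add ?_ (XDeg.of_C hE)
    have := (XDeg.of_C hW).mul (XDeg.of_X (R := κ) 0)
    rwa [add_zero] at this
  have h2 : (B ^ (2 * (e - i))).natDegree ≤ 2 * (e - i) * d := natDegree_pow_le_of_le _ hB
  have h3 := (XDeg.of_C (natDegree_hsub_le A B hA hB D (Q.coeff i))).mul
    ((h1.pow i).mul (XDeg.of_C h2))
  refine h3.mono ?_
  obtain ⟨s, rfl⟩ : ∃ s, e = i + s := ⟨e - i, by omega⟩
  rw [Nat.add_sub_cancel_left]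
  have : i * (2 * d) + 2 * s * d = 2 * d * (i + s) := by ring
  omega

lemma trf_lead (A B E : κ[X]) (D e : ℕ) (Q : κ[X][X]) (hQ : Q.natDegree ≤ e) :
    Lead (trf A B E D e Q) e (hsub A B D (Q.coeff e) * (wr A B) ^ e) := by
  have hl : ∀ i, Lead ((C (wr A B) * X + C E : κ[X][X]) ^ i) i ((wr A B) ^ i) := by
    intro i
    have h1 : Lead (C (wr A B) * X : κ[X][X]) 1 (wr A B) :=
      (Lead.X'.C_mul (wr A B)).cast rfl (by ring)
    have h2 : Lead (C E : κ[X][X]) 1 0 := (Lead.C' E).lt one_pos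
    exact (((h1.add h2).cast rfl (by ring)).pow i).cast (by ring) rfl
  have key : ∀ i ∈ range (e + 1), Lead (C (hsub A B D (Q.coeff i)) *
      ((C (wr A B) * X + C E) ^ i * C (B ^ (2 * (e - i))))) e
      (if i = e then hsub A B D (Q.coeff e) * (wr A B) ^ e else 0) := by
    intro i hi
    have hi' : i ≤ e := Nat.lt_succ_iff.mp (mem_range.mp hi)
    have h1 := ((hl i).mul (Lead.C' (B ^ (2 * (e - i))))).C_mul (hsub A B D (Q.coeff i))
    rw [add_zero] at h1
    rcases hi'.lt_or_eq with hlt | heq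
    · rw [if_neg hlt.ne]; exact h1.lt hlt
    · subst heq
      rw [if_pos rfl]
      refine h1.cast rfl ?_
      rw [Nat.sub_self, mul_zero, pow_zero, mul_one]
  have h5 := Lead.sum _ key
  rw [sum_ite_eq' (range (e + 1)) e, if_pos (mem_range.mpr (by omega))] at h5
  exact h5

lemma trf_map (A B E : κ[X]) (hB : B ≠ 0) (D e : ℕ) (Q : κ[X][X]) (hQ : Q.natDegree ≤ e)
    (hD : XDeg Q D) :
    (trf A B E D e Q).map (io κ) = C (io κ B ^ (D + 2 * e)) *
      ((Q.map (phi0 A B)).comp (C (gg A B) * X + C (io κ E / io κ B ^ 2))) := by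
  have hB' := io_ne hB
  rw [trf, Polynomial.map_sum, comp, eval₂_eq_sum_range' C
    (lt_of_le_of_lt ((natDegree_map_le).trans hQ) (Nat.lt_succ_self e)), mul_sum]
  refine sum_congr rfl fun i hi => ?_
  have hi' : i ≤ e := Nat.lt_succ_iff.mp (mem_range.mp hi)
  rw [Polynomial.map_mul, Polynomial.map_mul, Polynomial.map_pow, Polynomial.map_add,
    Polynomial.map_mul, map_C, map_C, map_C, map_C, map_X, phi0_apply A B hB D _ (hD i),
    coeff_map, map_pow]
  have e1 : (C (io κ (wr A B)) * X + C (io κ E) : (FractionRing κ[X])[X]) =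
      C (io κ B ^ 2) * (C (gg A B) * X + C (io κ E / io κ B ^ 2)) := by
    rw [mul_add, ← mul_assoc, ← C_mul, ← C_mul, gg]
    congr 3
    · (clear * - hB'; field_simp)
    · (clear * - hB'; field_simp)
  rw [e1, mul_pow, ← C_pow, ← pow_mul]
  have : io κ B ^ (D + 2 * e) = io κ B ^ D * io κ B ^ (2 * i) *
      io κ B ^ (2 * (e - i)) := by
    rw [← pow_add, ← pow_add]; congr 1; omega
  rw [this]
  simp only [C_mul, C_pow]
  ring

end Pool.Agent.Helper36.S5

end
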