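import Pool.Agent.Helper23.MB.L00_ab1
import Pool.Agent.Helper23.MB.L00_ab5
import Pool.Agent.Helper23.MB.L00_ab7
import Pool.Agent.Helper23.MB.L00_abc0
import Pool.Agent.Helper23.MB.L00_abc2

/-!
Parts of Helper45.FFPlaces, Helper45.S4Res, Helper38.DT.IterEndo, Helper31.RRK.Der, Helper31.RRK.Tower, Helper31.RRK.Frob, Helper45.M8Conj
-/

attribute [-simp] Valuation.IsUniformizer.val
attribute [local instance 5000]
  Pool.Agent.Helper23.MB.Inst.rCharZero Pool.Agent.Helper23.MB.Inst.rALM
  Pool.Agent.Helper23.MB.Inst.rARM Pool.Agent.Helper23.MB.Inst.rALSM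
  Pool.Agent.Helper23.MB.Inst.rARSM Pool.Agent.Helper23.MB.Inst.rARRLE
  Pool.Agent.Helper23.MB.Inst.rALRLE Pool.Agent.Helper23.MB.Inst.rARRLT
  Pool.Agent.Helper23.MB.Inst.rALRLT Pool.Agent.Helper23.MB.Inst.rPMRLT
  Pool.Agent.Helper23.MB.Inst.rMPRLT Pool.Agent.Helper23.MB.Inst.rPMM
  Pool.Agent.Helper23.MB.Inst.rMPM Pool.Agent.Helper23.MB.Inst.rPMSM
  Pool.Agent.Helper23.MB.Inst.rMPSM Pool.Agent.Helper23.MB.Inst.rEAOL
  Pool.Agent.Helper23.MB.Inst.rIOR Pool.Agent.Helper23.MB.Inst.rISOR
  Pool.Agent.Helper23.MB.Inst.rNZD Pool.Agent.Helper23.MB.Inst.zCharZero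
  Pool.Agent.Helper23.MB.Inst.zALM Pool.Agent.Helper23.MB.Inst.zARM
  Pool.Agent.Helper23.MB.Inst.zIOR Pool.Agent.Helper23.MB.Inst.zISOR
  Pool.Agent.Helper23.MB.Inst.zNZD Pool.Agent.Helper23.MB.Inst.qCharZero
  Pool.Agent.Helper23.MB.Inst.free Pool.Agent.Helper23.MB.Inst.faith
  Pool.Agent.Helper23.MB.Inst.torsionFree Pool.Agent.Helper23.MB.Inst.rfFaith
  Pool.Agent.Helper23.MB.Inst.hAdd Pool.Agent.Helper23.MB.Inst.hAddM
  Pool.Agent.Helper23.MB.Inst.hMul Pool.Agent.Helper23.MB.Inst.hMon
  Pool.Agent.Helper23.MB.Inst.hZero Pool.Agent.Helper23.MB.Inst.hOne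
  Pool.Agent.Helper23.MB.Inst.hMZ Pool.Agent.Helper23.MB.Inst.hRing
  Pool.Agent.Helper23.MB.Inst.aAdd Pool.Agent.Helper23.MB.Inst.aAddM
  Pool.Agent.Helper23.MB.Inst.aMul Pool.Agent.Helper23.MB.Inst.aMon
  Pool.Agent.Helper23.MB.Inst.aZero Pool.Agent.Helper23.MB.Inst.aOne
  Pool.Agent.Helper23.MB.Inst.aMZ Pool.Agent.Helper23.MB.Inst.aRing

namespace Pool.Agent.Helper16
end Pool.Agent.Helper16
namespace Pool.Agent.Helper33
end Pool.Agent.Helper33
namespace Pool.Agent.Helper45.FF
end Pool.Agent.Helper45.FF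
namespace Pool.Agent.Helper45.FR
end Pool.Agent.Helper45.FR
namespace Pool.Agent.Helper45.S4
end Pool.Agent.Helper45.S4
namespace Pool.Agent.Helper47.RR
end Pool.Agent.Helper47.RR
namespace Pool.Agent.Helper93.RatODE
end Pool.Agent.Helper93.RatODE

section

set_option autoImplicit false

set_option linter.style.haveILetI false

namespace Pool.Agent.Helper45.FF

open Polynomial IntermediateField Pool.Agent.Helper16 TensorProduct IsDedekindDomain

section deriv

variable {k K : Type} [Field k] [Field K] [Algebra k K]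

theorem exists_deriv (t : K) (ht : Transcendental k t) [Algebra.IsSeparable k⟮t⟯ K] :
    ∃ D : Derivation k K K, D t = 1 := by
  letI := algX k t
  letI := algXF k t
  haveI := towerXF (K := k) t
  haveI := towerX (K := k) t
  haveI := isFractionRing_algXF t ht
  haveI : Algebra.FormallyEtale k[X] k⟮t⟯ :=
    Algebra.FormallyEtale.of_isLocalization (nonZeroDivisors k[X])
  haveI : Algebra.FormallyEtale k⟮t⟯ K := Algebra.FormallyEtale.of_isSeparable _ _
  haveI : Algebra.FormallyEtale k[X] K := Algebra.FormallyEtale.comp k[X] k⟮t⟯ K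
  let e1 := (KaehlerDifferential.tensorKaehlerEquivOfFormallyEtale k k[X] K).symm
  let e2 : K ⊗[k[X]] (Ω[k[X]⁄k]) ≃ₗ[K] K ⊗[k[X]] k[X] :=
    (KaehlerDifferential.polynomialEquiv k).baseChange k[X] K _ _
  let e3 : K ⊗[k[X]] k[X] ≃ₗ[K] K := AlgebraTensorModule.rid k[X] K K
  let f : Ω[K⁄k] →ₗ[K] K := (e3.toLinearMap ∘ₗ e2.toLinearMap) ∘ₗ e1.toLinearMap
  refine ⟨f.compDer (KaehlerDifferential.D k K), ?_⟩
  have h1 : t = algebraMap k[X] K X := by
    change t = aeval t X
    simp
  change e3 (e2 (e1 (KaehlerDifferential.D k K t))) = 1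
  conv_lhs => rw [h1]
  have h2 : e1 (KaehlerDifferential.D k K (algebraMap k[X] K X)) =
      1 ⊗ₜ KaehlerDifferential.D k k[X] X :=
    KaehlerDifferential.tensorKaehlerEquivOfFormallyEtale_symm_D_algebraMap k k[X] K X
  rw [h2]
  have h3 : e2 ((1 : K) ⊗ₜ[k[X]] KaehlerDifferential.D k k[X] X) = (1 : K) ⊗ₜ[k[X]] (1 : k[X]) := by
    simp [e2]
  rw [h3]
  simp [e3]

end deriv

end Pool.Agent.Helper45.FF

end

section

set_option autoImplicit false

set_option linter.style.haveILetI false

namespace Pool.Agent.Helper45.S4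

open Polynomial IntermediateField Pool.Agent.Helper16 Pool.Agent.Helper33 Pool.Agent.Helper45.FF

variable {k L M : Type} [Field k] [Field L] [Field M] [Algebra k L] [Algebra k M] [Algebra L M]
  [IsScalarTower k L M]

omit [Algebra k L] [IsScalarTower k L M] in
theorem not_trivial_on [Algebra.IsAlgebraic L M] (w : Place k M) :
    ∃ y : L, 1 < w.val (algebraMap L M y) := by
  by_contra hcon
  push Not at hcon
  -- then every element of `M` has value at most one
  obtain ⟨z, hz⟩ := w.surj (WithZero.exp (1 : ℤ))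
  have hz1 : 1 < w.val z := by
    rw [hz, ← WithZero.exp_zero, WithZero.exp_lt_exp]; norm_num
  have hint : IsIntegral L z := (Algebra.IsAlgebraic.isAlgebraic z).isIntegral
  obtain ⟨p, hp, hpz⟩ := hint
  have hn : p.natDegree ≠ 0 := by
    intro h0
    rw [hp.natDegree_eq_zero.1 h0, eval₂_one] at hpz
    exact one_ne_zero hpz
  have h1 : z ^ p.natDegree = - ∑ i ∈ Finset.range p.natDegree, algebraMap L M (p.coeff i) * z ^ i := by
    rw [eval₂_eq_sum_range, Finset.sum_range_succ, Monic.coeff_natDegree hp, map_one, one_mul] at hpz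
    linear_combination hpz
  have h2 : w.val (z ^ p.natDegree) ≤ w.val (z ^ (p.natDegree - 1)) := by
    rw [h1, Valuation.map_neg]
    apply Valuation.map_sum_le
    intro i hi
    rw [Finset.mem_range] at hi
    rw [map_mul, map_pow, map_pow]
    calc w.val (algebraMap L M (p.coeff i)) * w.val z ^ i ≤ 1 * w.val z ^ i :=
          mul_le_mul_left (hcon _) _
      _ = w.val z ^ i := one_mul _
      _ ≤ w.val z ^ (p.natDegree - 1) := pow_le_pow_right₀ hz1.le (by omega)
  rw [map_pow, map_pow] at h2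
  have h3 : w.val z ^ (p.natDegree - 1) < w.val z ^ p.natDegree :=
    pow_lt_pow_right₀ hz1 (by omega)
  exact absurd h2 (not_le.2 h3)

end Pool.Agent.Helper45.S4

end

section

set_option autoImplicit false

set_option linter.style.haveILetI false

namespace Pool.Agent.Helper38.DT

open Polynomial Pool.Agent.Helper93.RatODE Pool.Agent.Helper45.FR

section iterEndo

variable {E M : Type} [Field E] [Field M] [Algebra E M]

theorem iter_snd_ne_zero (F G : E[X]) (d : ℕ) (hd : 2 ≤ d) (hFG : IsRatD F G d) (a : ℕ) :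
    (iter F G d a).2 ≠ 0 := by
  intro h0
  have h1 := iter_isCoprime hFG.cop hFG.degF hFG.degG hFG.top a
  have h2 := iter_coeff hFG.cop hFG.degF hFG.degG hFG.top a
  rw [h0, isCoprime_zero_right] at h1
  rw [h0, coeff_zero] at h2
  have h3 : 1 ≤ d ^ a := Nat.one_le_pow _ _ (by omega)
  rcases h2 with h2 | h2
  · apply h2
    apply coeff_eq_zero_of_natDegree_lt
    rw [natDegree_eq_zero_of_isUnit h1]
    omega
  · exact h2 rfl

end iterEndo

end Pool.Agent.Helper38.DT

end

section

set_option autoImplicit false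

set_option linter.style.haveILetI false

namespace Pool.Agent.Helper31.RRK

open Polynomial IntermediateField Pool.Agent.Helper16 Pool.Agent.Helper33 Pool.Agent.Helper45.FF

open Pool.Agent.Helper45.S4 Pool.Agent.Helper47.RR

section unique

variable {k L M : Type} [Field k] [Field L] [Field M] [Algebra k L] [Algebra k M] [Algebra L M]
  [IsScalarTower k L M]

omit [Algebra L M] [IsScalarTower k L M] in
theorem exists_separating [IsAlgClosed k] (hN : IsFunctionField k L) :
    ∃ t : L, Transcendental k t ∧ Algebra.IsSeparable k⟮t⟯ L := by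
  classical
  haveI := hN.1
  obtain ⟨S, hS1, hS2⟩ := exists_isTranscendenceBasis_and_isSeparable_of_perfectField k L
  have hcard : S.card = 1 := by
    have h3 := hS1.lift_cardinalMk_eq_trdeg
    rw [hN.2] at h3
    simpa using h3
  obtain ⟨t, rfl⟩ := Finset.card_eq_one.1 hcard
  refine ⟨t, ?_, ?_⟩
  · have := hS1.1
    have h2 := this.transcendental ⟨t, by simp⟩
    exact h2
  · rw [Finset.coe_singleton] at hS2
    exact hS2

/-- There is a nonzero derivation. -/
theorem exists_ne_zero [IsAlgClosed k] (hN : IsFunctionField k L) :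
    ∃ D : Derivation k L L, D ≠ 0 := by
  obtain ⟨t, ht, hs⟩ := exists_separating hN
  obtain ⟨D, hD⟩ := exists_deriv t ht
  refine ⟨D, ?_⟩
  rintro rfl
  simp at hD

/-- The space of derivations is one-dimensional. -/
theorem exists_eq_smul [IsAlgClosed k] (hN : IsFunctionField k L) {D : Derivation k L L}
    (hD : D ≠ 0) (D' : Derivation k L L) : ∃ h : L, D' = h • D := by
  obtain ⟨t, ht, hs⟩ := exists_separating hN
  have hDt : D t ≠ 0 := fun h => hD (deriv_eq_zero t D h)
  refine ⟨D' t / D t, ?_⟩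
  rw [← sub_eq_zero]
  apply deriv_eq_zero t
  simp only [Derivation.coe_sub, Derivation.coe_smul, Pi.sub_apply, Pi.smul_apply, smul_eq_mul]
  field_simp
  ring

end unique

end Pool.Agent.Helper31.RRK

end

section

set_option autoImplicit false

set_option linter.style.haveILetI false

namespace Pool.Agent.Helper31.RRK

open Polynomial IntermediateField Pool.Agent.Helper16 Pool.Agent.Helper33 Pool.Agent.Helper45.FF

open Pool.Agent.Helper45.S4 Pool.Agent.Helper47.RR

section tower

variable {k L M : Type} [Field k] [Field L] [Field M] [Algebra k L] [Algebra k M] [Algebra L M]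
  [IsScalarTower k L M]

/-- Derivations extend to finite separable extensions. -/
theorem exists_extension [IsAlgClosed k] (hN : IsFunctionField k L) [FiniteDimensional L M]
    [Algebra.IsSeparable L M] (D : Derivation k L L) :
    ∃ D' : Derivation k M M, ∀ x : L, D' (algebraMap L M x) = algebraMap L M (D x) := by
  obtain ⟨t, ht, hs⟩ := exists_separating hN
  have hsM : Transcendental k (algebraMap L M t) := by
    rwa [transcendental_algebraMap_iff (algebraMap L M).injective]
  haveI : Algebra.IsSeparable k⟮t⟯ M := Algebra.IsSeparable.trans k⟮t⟯ L M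
  have h1 : (k⟮t⟯).map (IsScalarTower.toAlgHom k L M) = k⟮algebraMap L M t⟯ := by
    rw [IntermediateField.adjoin_map, Set.image_singleton]
    rfl
  let i : k⟮t⟯ ≃ₐ[k] k⟮algebraMap L M t⟯ :=
    (IntermediateField.equivMap k⟮t⟯ (IsScalarTower.toAlgHom k L M)).trans
      (IntermediateField.equivOfEq h1)
  haveI : Algebra.IsSeparable k⟮algebraMap L M t⟯ M := by
    refine Algebra.IsSeparable.of_equiv_equiv i.toRingEquiv (RingEquiv.refl M) ?_
    ext x
    rfl
  obtain ⟨D1, hD1⟩ := exists_deriv (algebraMap L M t) hsM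
  refine ⟨algebraMap L M (D t) • D1, ?_⟩
  let E1 : Derivation k L M := (algebraMap L M (D t) • D1).compAlgebraMap L
  let E2 : Derivation k L M := (Algebra.linearMap L M).compDer D
  have h2 : E1 - E2 = 0 := by
    apply deriv_eq_zero t
    change algebraMap L M (D t) • D1 (algebraMap L M t) - algebraMap L M (D t) = 0
    rw [hD1]
    simp
  intro x
  have h3 : (E1 - E2) x = 0 := by rw [h2]; rfl
  exact sub_eq_zero.1 h3

end tower

end Pool.Agent.Helper31.RRK

end

section

set_option autoImplicit false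

set_option linter.style.haveILetI false

namespace Pool.Agent.Helper31.RRK

open Polynomial IntermediateField Pool.Agent.Helper16 Pool.Agent.Helper33 Pool.Agent.Helper45.FF

open Pool.Agent.Helper45.S4 Pool.Agent.Helper47.RR

section frob

variable {k L : Type} [Field k] [Field L] [Algebra k L]

theorem finrank_powField_le [IsAlgClosed k] (hN : IsFunctionField k L) (p m : ℕ) [ExpChar k p]
    [ExpChar L p] : FiniteDimensional (powField k L p m) L ∧
      Module.finrank (powField k L p m) L ≤ p ^ m := by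
  obtain ⟨t, ht, hs⟩ := exists_separating hN
  haveI : ExpChar (powField k L p m) p := expChar_of_injective_algebraMap
    (algebraMap k (powField k L p m)).injective p
  haveI : IsPurelyInseparable (powField k L p m) L := by
    rw [isPurelyInseparable_iff_pow_mem _ p]
    intro x
    exact ⟨m, ⟨⟨x ^ p ^ m, (mem_powField p m _).2 ⟨x, rfl⟩⟩, rfl⟩⟩
  have hadj : (powField k L p m)⟮t⟯ = ⊤ := by
    rw [eq_top_iff]
    intro x _
    haveI h1 : IsPurelyInseparable (powField k L p m)⟮t⟯ L := inferInstance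
    haveI h2 : Algebra.IsSeparable (powField k L p m)⟮t⟯ L := by
      have hle : k⟮t⟯ ≤ ((powField k L p m)⟮t⟯).restrictScalars k := by
        rw [adjoin_simple_le_iff]
        exact mem_adjoin_simple_self _ t
      letI : Algebra k⟮t⟯ (powField k L p m)⟮t⟯ := (IntermediateField.inclusion hle).toAlgebra
      haveI : IsScalarTower k⟮t⟯ (powField k L p m)⟮t⟯ L :=
        IsScalarTower.of_algebraMap_eq (fun x => rfl)
      exact Algebra.isSeparable_tower_top_of_isSeparable k⟮t⟯ _ L
    obtain ⟨y, hy⟩ := IsPurelyInseparable.surjective_algebraMap_of_isSeparable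
      (powField k L p m)⟮t⟯ L x
    rw [← hy]
    exact y.2
  let a : powField k L p m := ⟨t ^ p ^ m, (mem_powField p m _).2 ⟨t, rfl⟩⟩
  have hpm : p ^ m ≠ 0 := pow_ne_zero _ (expChar_pos k p).ne'
  have hmon : (X ^ p ^ m - C a : (powField k L p m)[X]).Monic := monic_X_pow_sub_C a hpm
  have hroot : aeval t (X ^ p ^ m - C a : (powField k L p m)[X]) = 0 := by
    rw [map_sub, map_pow, aeval_X, aeval_C]
    exact sub_self _
  have hint : IsIntegral (powField k L p m) t := ⟨_, hmon, hroot⟩
  have h3 := adjoin.finrank hint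
  have h4 : (minpoly (powField k L p m) t).natDegree ≤ p ^ m := by
    have := natDegree_le_of_dvd (minpoly.dvd _ t hroot) hmon.ne_zero
    rwa [natDegree_X_pow_sub_C] at this
  have h5 : Module.finrank (powField k L p m) L = (minpoly (powField k L p m) t).natDegree := by
    rw [← h3, hadj]
    exact (IntermediateField.finrank_top').symm
  refine ⟨?_, h5 ▸ h4⟩
  apply FiniteDimensional.of_finrank_pos
  rw [h5]
  exact minpoly.natDegree_pos hint

/-- A subfield `E` with `L / E` purely inseparable is a field of powers. -/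
theorem exists_eq_powField [IsAlgClosed k] (hN : IsFunctionField k L) (p : ℕ) [ExpChar k p]
    [ExpChar L p] (E : IntermediateField k L) [FiniteDimensional E L] [IsPurelyInseparable E L] :
    ∃ m, E = powField k L p m ∧ Module.finrank E L = p ^ m := by
  haveI : ExpChar E p := expChar_of_injective_algebraMap (algebraMap k E).injective p
  obtain ⟨m, hm⟩ := IsPurelyInseparable.finrank_eq_pow E L p
  refine ⟨m, ?_, hm⟩
  obtain ⟨h1, h2⟩ := finrank_powField_le hN p m
  refine (eq_of_le_of_finrank_le' ?_ (h2.trans hm.ge)).symm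
  intro x hx
  obtain ⟨y, rfl⟩ := (mem_powField p m _).1 hx
  obtain ⟨n, b, hb⟩ := IsPurelyInseparable.minpoly_eq_X_pow_sub_C E p y
  have h3 : y ^ p ^ n = algebraMap E L b := by
    have := minpoly.aeval E y
    rw [hb, map_sub, map_pow, aeval_X, aeval_C, sub_eq_zero] at this
    exact this
  have h4 : p ^ n ≤ p ^ m := by
    have := minpoly.natDegree_le (A := E) y
    rwa [hb, natDegree_X_pow_sub_C, hm] at this
  have h5 : y ^ p ^ n ∈ E := by
    rw [h3]
    exact b.2
  by_cases hp : p = 1
  · subst hp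
    simpa using h5
  · have hp2 : 1 < p := by
      have := expChar_pos k p
      omega
    have h6 : n ≤ m := (Nat.pow_le_pow_iff_right hp2).1 h4
    have h7 : y ^ p ^ m = (y ^ p ^ n) ^ p ^ (m - n) := by
      rw [← pow_mul, ← pow_add, Nat.add_sub_cancel' h6]
    rw [h7]
    exact pow_mem h5 _

end frob

end Pool.Agent.Helper31.RRK

end

section

set_option autoImplicit false

set_option linter.style.haveILetI false

namespace Pool.Agent.Helper45.M8

open Finset Polynomial Pool.Agent.Helper93.RatODE Pool.Agent.Helper45.FR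

section explicit

variable {k K : Type*} [Field k] [Field K] [Algebra k K]

/-- **Descent along cross ratios** (copy of helper93's `exists_conj_of_cross`, keeping track of the
matrix). -/
theorem exists_conj_explicit {P Q : K[X]} {d : ℕ} (hd : 1 ≤ d) (hPQ : IsCoprime P Q)
    (hP : P.natDegree ≤ d) (hQ : Q.natDegree ≤ d) (htop : P.coeff d ≠ 0 ∨ Q.coeff d ≠ 0)
    (x : ℕ → K)
    (hx : ∀ i ≤ 2 * d, Q.eval (x i) ≠ 0 ∧ x (i + 1) = P.eval (x i) / Q.eval (x i))
    (hinj : ∀ i ≤ 2 * d, ∀ j ≤ 2 * d, x i = x j → i = j)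
    (hcross : ∀ i ≤ 2 * d + 1, ∃ c : k,
      algebraMap k K c = (x i - x 0) * (x 1 - x 2) / ((x i - x 2) * (x 1 - x 0))) :
    ∃ (A : Matrix (Fin 2) (Fin 2) K) (P' Q' : k[X]) (c : K), A.det ≠ 0 ∧ c ≠ 0 ∧
      P'.natDegree ≤ d ∧ Q'.natDegree ≤ d ∧
      IsCoprime (P'.map (algebraMap k K)) (Q'.map (algebraMap k K)) ∧
      (P'.coeff d ≠ 0 ∨ Q'.coeff d ≠ 0) ∧
      (hev P d (C (A 0 0) * X + C (A 0 1)) (C (A 1 0) * X + C (A 1 1)) : K[X]) =
        C c * (C (A 0 0) * P'.map (algebraMap k K) + C (A 0 1) * Q'.map (algebraMap k K)) ∧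
      (hev Q d (C (A 0 0) * X + C (A 0 1)) (C (A 1 0) * X + C (A 1 1)) : K[X]) =
        C c * (C (A 1 0) * P'.map (algebraMap k K) + C (A 1 1) * Q'.map (algebraMap k K)) ∧
      A 0 1 = x 0 * A 1 1 ∧ A 1 1 ≠ 0 := by
  classical
  have h01 : x 1 - x 0 ≠ 0 := by
    intro h
    have := hinj 1 (by omega) 0 (by omega) (sub_eq_zero.mp h)
    omega
  have h12 : x 1 - x 2 ≠ 0 := by
    intro h
    have := hinj 1 (by omega) 2 (by omega) (sub_eq_zero.mp h)
    omega
  have h02 : x 0 - x 2 ≠ 0 := by
    intro h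
    have := hinj 0 (by omega) 2 (by omega) (sub_eq_zero.mp h)
    omega
  -- the Moebius matrix
  obtain ⟨m11, hm11⟩ : ∃ m, m = x 1 - x 2 := ⟨_, rfl⟩
  obtain ⟨m12, hm12⟩ : ∃ m, m = -(x 0 * (x 1 - x 2)) := ⟨_, rfl⟩
  obtain ⟨m21, hm21⟩ : ∃ m, m = x 1 - x 0 := ⟨_, rfl⟩
  obtain ⟨m22, hm22⟩ : ∃ m, m = -(x 2 * (x 1 - x 0)) := ⟨_, rfl⟩
  set δ := m11 * m22 - m12 * m21 with hδ
  have hδ0 : δ ≠ 0 := by
    have : δ = (x 1 - x 2) * (x 1 - x 0) * (x 0 - x 2) := by
      rw [hδ, hm11, hm12, hm21, hm22]; ring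
    rw [this]
    exact mul_ne_zero (mul_ne_zero h12 h01) h02
  set a : ℕ → K := fun i => m11 * x i + m12 with ha
  set b : ℕ → K := fun i => m21 * x i + m22 with hb
  have ha' : ∀ i, a i = (x i - x 0) * (x 1 - x 2) := fun i => by
    simp only [ha, hm11, hm12]; ring
  have hb' : ∀ i, b i = (x i - x 2) * (x 1 - x 0) := fun i => by
    simp only [hb, hm21, hm22]; ring
  -- the conjugated map
  set U0 : K[X] := C m22 * X + C (-m12) with hU0
  set W0 : K[X] := C (-m21) * X + C m11 with hW0
  have dU0 : U0.natDegree ≤ 1 := natDegree_linear_le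
  have dW0 : W0.natDegree ≤ 1 := natDegree_linear_le
  have hUW : IsCoprime U0 W0 := by
    refine ⟨C (δ⁻¹ * m21), C (δ⁻¹ * m22), ?_⟩
    have : C (δ⁻¹ * m21) * U0 + C (δ⁻¹ * m22) * W0 = C (δ⁻¹ * δ) := by
      rw [hU0, hW0, hδ]
      simp only [C_mul, C_neg, C_sub]
      ring
    rw [this, inv_mul_cancel₀ hδ0, C_1]
  have htopUW : U0.coeff 1 ≠ 0 ∨ W0.coeff 1 ≠ 0 := by
    right
    have : W0.coeff 1 = -(x 1 - x 0) := by rw [hW0]; simp [hm21]
    rw [this]
    exact neg_ne_zero.mpr h01
  set P1 : K[X] := hev P d U0 W0 with hP1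
  set Q1 : K[X] := hev Q d U0 W0 with hQ1
  have dP1 : P1.natDegree ≤ d := by
    have := hev_natDegree P d dU0 dW0
    rwa [mul_one] at this
  have dQ1 : Q1.natDegree ≤ d := by
    have := hev_natDegree Q d dU0 dW0
    rwa [mul_one] at this
  have cop1 : IsCoprime P1 Q1 := hev_isCoprime hPQ hP hQ htop hUW
  have top1 : P1.coeff d ≠ 0 ∨ Q1.coeff d ≠ 0 := by
    have := hev_coeff_ne hPQ hP hQ htop dU0 dW0 htopUW
    rwa [mul_one] at this
  set Pt : K[X] := C m11 * P1 + C m12 * Q1 with hPt
  set Qt : K[X] := C m21 * P1 + C m22 * Q1 with hQt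
  have dPt : Pt.natDegree ≤ d :=
    natDegree_add_le_of_degree_le ((natDegree_C_mul_le _ _).trans dP1)
      ((natDegree_C_mul_le _ _).trans dQ1)
  have dQt : Qt.natDegree ≤ d :=
    natDegree_add_le_of_degree_le ((natDegree_C_mul_le _ _).trans dP1)
      ((natDegree_C_mul_le _ _).trans dQ1)
  have eP1 : C δ * P1 = C m22 * Pt + C (-m12) * Qt := by
    rw [hPt, hQt, hδ]; simp only [C_mul, C_neg, C_sub]; ring
  have eQ1 : C δ * Q1 = C (-m21) * Pt + C m11 * Qt := by
    rw [hPt, hQt, hδ]; simp only [C_mul, C_neg, C_sub]; ring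
  have copt : IsCoprime Pt Qt := by
    obtain ⟨s, t, hst⟩ := cop1
    refine ⟨C δ⁻¹ * (s * C m22 + t * C (-m21)), C δ⁻¹ * (s * C (-m12) + t * C m11), ?_⟩
    have h1 : C δ⁻¹ * C δ = (1 : K[X]) := by rw [← C_mul, inv_mul_cancel₀ hδ0, C_1]
    linear_combination (C δ⁻¹ * C δ) * hst - (C δ⁻¹ * s) * eP1 - (C δ⁻¹ * t) * eQ1 + h1
  have topt : Pt.coeff d ≠ 0 ∨ Qt.coeff d ≠ 0 := by
    by_contra hcon
    push Not at hcon
    have h1 := congrArg (fun p => coeff p d) eP1
    have h2 := congrArg (fun p => coeff p d) eQ1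
    simp only [coeff_add, coeff_C_mul, hcon.1, hcon.2, mul_zero, add_zero] at h1 h2
    rcases top1 with h | h
    · rcases mul_eq_zero.mp h1 with h3 | h3
      · exact hδ0 h3
      · exact h h3
    · rcases mul_eq_zero.mp h2 with h3 | h3
      · exact hδ0 h3
      · exact h h3
  -- the points
  choose! t ht using hcross
  set al : ℕ → k := fun i => if b i = 0 then 1 else t i with hal
  set be : ℕ → k := fun i => if b i = 0 then 0 else 1 with hbe
  set s : ℕ → K := fun i => if b i = 0 then a i else b i with hs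
  have hab : ∀ i, a i ≠ 0 ∨ b i ≠ 0 := by
    intro i
    by_contra hcon
    push Not at hcon
    have h1 : m22 * a i - m12 * b i = δ * x i := by simp only [ha, hb, hδ]; ring
    have h2 : -m21 * a i + m11 * b i = δ := by simp only [ha, hb, hδ]; ring
    rw [hcon.1, hcon.2] at h2
    apply hδ0
    rw [← h2]; ring
  have hs0 : ∀ i, s i ≠ 0 := by
    intro i
    simp only [hs]
    split_ifs with h
    · rcases hab i with h1 | h1
      · exact h1
      · exact absurd h h1
    · exact h
  have hsa : ∀ i ≤ 2 * d + 1, a i = s i * algebraMap k K (al i) := by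
    intro i hi
    simp only [hs, hal]
    split_ifs with h
    · simp
    · rw [ht i hi, ← ha', ← hb']
      field_simp
  have hsb : ∀ i ≤ 2 * d + 1, b i = s i * algebraMap k K (be i) := by
    intro i hi
    simp only [hs, hbe]
    split_ifs with h
    · simp [h]
    · simp
  -- values of the conjugated map
  have hval1 : ∀ (R : K[X]) (i : ℕ), R.natDegree ≤ d → hev (hev R d U0 W0) d (a i) (b i) =
      δ ^ d * R.eval (x i) := by
    intro R i hR
    have h1 := hev_comp R d dU0 dW0 (a i) (b i)
    rw [mul_one] at h1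
    rw [h1, hU0, hW0, hev_linear, hev_linear]
    have e1 : algebraMap K K m22 * a i + algebraMap K K (-m12) * b i = δ * x i := by
      simp only [ha, hb, hδ, Algebra.algebraMap_self, RingHom.id_apply]; ring
    have e2 : algebraMap K K (-m21) * a i + algebraMap K K m11 * b i = δ * 1 := by
      simp only [ha, hb, hδ, Algebra.algebraMap_self, RingHom.id_apply]; ring
    rw [e1, e2, hev_smul_arg, hev_eq_eval R d hR _ _ one_ne_zero]
    simp
  have hvalP : ∀ i ≤ 2 * d, hev Pt d (a i) (b i) = δ ^ d * Q.eval (x i) * a (i + 1) := by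
    intro i hi
    obtain ⟨hQ0, hx1⟩ := hx i hi
    rw [hPt, hev_add, hev_C_mul, hev_C_mul, hP1, hQ1, hval1 P i hP, hval1 Q i hQ]
    simp only [ha, hx1, Algebra.algebraMap_self, RingHom.id_apply]
    (clear * - hQ0 hδ0; field_simp)
  have hvalQ : ∀ i ≤ 2 * d, hev Qt d (a i) (b i) = δ ^ d * Q.eval (x i) * b (i + 1) := by
    intro i hi
    obtain ⟨hQ0, hx1⟩ := hx i hi
    rw [hQt, hev_add, hev_C_mul, hev_C_mul, hP1, hQ1, hval1 P i hP, hval1 Q i hQ]
    simp only [hb, hx1, Algebra.algebraMap_self, RingHom.id_apply]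
    (clear * - hQ0 hδ0; field_simp)
  -- the same in terms of the constants
  have hkey : ∀ i ≤ 2 * d, ∃ κ : K, hev Pt d (algebraMap k K (al i)) (algebraMap k K (be i)) =
      κ * algebraMap k K (al (i + 1)) ∧
      hev Qt d (algebraMap k K (al i)) (algebraMap k K (be i)) = κ * algebraMap k K (be (i + 1)) := by
    intro i hi
    have h1 := hvalP i hi
    have h2 := hvalQ i hi
    rw [hsa i (by omega), hsb i (by omega), hev_smul_arg, hsa (i + 1) (by omega)] at h1
    rw [hsa i (by omega), hsb i (by omega), hev_smul_arg, hsb (i + 1) (by omega)] at h2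
    have h3 := pow_ne_zero d (hs0 i)
    refine ⟨δ ^ d * Q.eval (x i) * s (i + 1) / s i ^ d, ?_, ?_⟩
    · field_simp
      linear_combination h1
    · field_simp
      linear_combination h2
  -- a functional
  obtain ⟨φ, hφ⟩ : ∃ φ : Module.Dual k K, φ (Pt.coeff d) ≠ 0 ∨ φ (Qt.coeff d) ≠ 0 := by
    by_contra hcon
    push Not at hcon
    rcases topt with h | h
    · exact h ((Module.forall_dual_apply_eq_zero_iff k _).mp fun φ => (hcon φ).1)
    · exact h ((Module.forall_dual_apply_eq_zero_iff k _).mp fun φ => (hcon φ).2)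
  let app : K[X] → k[X] := fun F => ∑ j ∈ range (d + 1), C (φ (F.coeff j)) * X ^ j
  have app_coeff : ∀ (F : K[X]) (j : ℕ), j ≤ d → (app F).coeff j = φ (F.coeff j) := by
    intro F j hj
    change (∑ j ∈ range (d + 1), C (φ (F.coeff j)) * X ^ j).coeff j = _
    rw [finsetSum_coeff, sum_eq_single j]
    · simp
    · intro i _ hi
      rw [coeff_C_mul_X_pow, if_neg (Ne.symm hi)]
    · intro h; exact absurd (mem_range.mpr (by omega)) h
  have app_deg : ∀ F : K[X], (app F).natDegree ≤ d := by
    intro F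
    apply natDegree_sum_le_of_forall_le
    intro i hi
    refine (natDegree_C_mul_X_pow_le _ _).trans ?_
    rw [mem_range] at hi
    omega
  have app_hev : ∀ (F : K[X]) (u w c : k),
      φ (hev F d (algebraMap k K u) (algebraMap k K w) * algebraMap k K c) =
        hev (app F) d u w * c := by
    intro F u w c
    unfold hev
    rw [sum_mul, sum_mul, map_sum]
    apply sum_congr rfl
    intro j hj
    rw [mem_range] at hj
    rw [app_coeff F j (by omega)]
    have : algebraMap K K (F.coeff j) * algebraMap k K u ^ j * algebraMap k K w ^ (d - j) *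
        algebraMap k K c = (u ^ j * w ^ (d - j) * c) • F.coeff j := by
      rw [Algebra.smul_def, map_mul, map_mul, map_pow, map_pow, Algebra.algebraMap_self,
        RingHom.id_apply]
      ring
    rw [this, map_smul, smul_eq_mul, Algebra.algebraMap_self, RingHom.id_apply]
    ring
  set P' := app Pt with hP'
  set Q' := app Qt with hQ'
  have hsys : ∀ i ≤ 2 * d, hev P' d (al i) (be i) * be (i + 1) = hev Q' d (al i) (be i) * al (i + 1) := by
    intro i hi
    obtain ⟨κ, h1, h2⟩ := hkey i hi
    rw [← app_hev, ← app_hev, h1, h2]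
    congr 1
    ring
  set PK := P'.map (algebraMap k K) with hPK
  set QK := Q'.map (algebraMap k K) with hQK
  have dPK : PK.natDegree ≤ d := natDegree_map_le.trans (app_deg _)
  have dQK : QK.natDegree ≤ d := natDegree_map_le.trans (app_deg _)
  have hsysK : ∀ i ≤ 2 * d, hev PK d (algebraMap k K (al i)) (algebraMap k K (be i)) *
      algebraMap k K (be (i + 1)) = hev QK d (algebraMap k K (al i)) (algebraMap k K (be i)) *
      algebraMap k K (al (i + 1)) := by
    intro i hi
    have h1 := congrArg (algebraMap k K) (hsys i hi)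
    rw [map_mul, map_mul] at h1
    have h2 := hev_map (Algebra.ofId k K) P' d (al i) (be i)
    have h3 := hev_map (Algebra.ofId k K) Q' d (al i) (be i)
    rw [Algebra.ofId_apply, Algebra.ofId_apply, Algebra.ofId_apply] at h2 h3
    rw [h2, h3] at h1
    rw [hPK, hQK, hev_map_poly, hev_map_poly]
    exact h1
  -- the resultant-like polynomial vanishes
  set R : K[X] := PK * Qt - QK * Pt with hR
  have dR : R.natDegree ≤ d + d :=
    (natDegree_sub_le_of_le (natDegree_mul_le.trans (Nat.add_le_add dPK dQt))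
      (natDegree_mul_le.trans (Nat.add_le_add dQK dPt))).trans (max_self _).le
  have hRval : ∀ i ≤ 2 * d, hev R (d + d) (algebraMap k K (al i)) (algebraMap k K (be i)) = 0 := by
    intro i hi
    obtain ⟨κ, h1, h2⟩ := hkey i hi
    have h3 := hsysK i hi
    have e1 : R = PK * Qt + C (-1) * (QK * Pt) := by
      rw [hR, C_neg, C_1]; ring
    rw [e1, hev_add, hev_C_mul, hev_mul dPK dQt, hev_mul dQK dPt, h1, h2]
    rw [Algebra.algebraMap_self, RingHom.id_apply]
    linear_combination κ * h3
  have hR0 : R = 0 := by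
    have hb2 : ∀ i ≤ 2 * d, b i = 0 ↔ i = 2 := by
      intro i hi
      rw [hb', mul_eq_zero]
      constructor
      · rintro (h | h)
        · exact hinj i hi 2 (by omega) (sub_eq_zero.mp h)
        · exact absurd h h01
      · rintro rfl; left; ring
    have htopR : R.coeff (d + d) = 0 := by
      have h1 := hRval 2 (by omega)
      have h2 : b 2 = 0 := (hb2 2 (by omega)).mpr rfl
      simp only [hal, hbe, if_pos h2, map_one, map_zero, hev_right_zero, one_pow, mul_one,
        Algebra.algebraMap_self, RingHom.id_apply] at h1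
      exact h1
    by_contra hRne
    have hdeg : R.natDegree < d + d := by
      refine lt_of_le_of_ne dR ?_
      intro h
      rw [← h] at htopR
      exact hRne (leadingCoeff_eq_zero.mp htopR)
    apply hRne
    set I := (range (2 * d + 1)).erase 2 with hI
    have hinjt : Set.InjOn (fun i => a i / b i) (I : Set ℕ) := by
      intro i hi j hj hij
      simp only [hI, coe_erase, coe_range, Set.mem_sdiff, Set.mem_Iio, Set.mem_singleton_iff] at hi hj
      have bi : b i ≠ 0 := fun h => hi.2 ((hb2 i (by omega)).mp h)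
      have bj : b j ≠ 0 := fun h => hj.2 ((hb2 j (by omega)).mp h)
      simp only at hij
      rw [div_eq_div_iff bi bj] at hij
      have h1 : δ * (x i - x j) = 0 := by
        have : a i * b j - a j * b i = δ * (x i - x j) := by
          simp only [ha, hb, hδ]; ring
        rw [← this, hij]; ring
      rcases mul_eq_zero.mp h1 with h | h
      · exact absurd h hδ0
      · exact hinj i (by omega) j (by omega) (sub_eq_zero.mp h)
    apply eq_zero_of_natDegree_lt_card_of_eval_eq_zero' R (I.image fun i => a i / b i)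
    · intro y hy
      obtain ⟨i, hi, rfl⟩ := mem_image.mp hy
      rw [hI, mem_erase, mem_range] at hi
      have bi : b i ≠ 0 := fun h => hi.1 ((hb2 i (by omega)).mp h)
      have h1 := hRval i (by omega)
      simp only [hal, hbe, if_neg bi, map_one] at h1
      rw [hev_eq_eval R _ dR _ _ one_ne_zero, ht i (by omega), ← ha', ← hb'] at h1
      simpa using h1
    · rw [card_image_of_injOn hinjt, hI, card_erase_of_mem (mem_range.mpr (by omega)), card_range]
      omega
  have hcomm : PK * Qt = QK * Pt := sub_eq_zero.mp hR0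
  obtain ⟨e, heP, heQ⟩ : ∃ e : K[X], PK = e * Pt ∧ QK = e * Qt := by
    obtain ⟨s', t', hst⟩ := copt
    refine ⟨s' * PK + t' * QK, ?_, ?_⟩
    · linear_combination (-PK) * hst + t' * hcomm
    · linear_combination (-QK) * hst - s' * hcomm
  have hKtop : PK.coeff d ≠ 0 ∨ QK.coeff d ≠ 0 := by
    rw [hPK, hQK, coeff_map, coeff_map, hP', hQ', app_coeff _ _ le_rfl, app_coeff _ _ le_rfl]
    rcases hφ with h | h
    · left; exact (_root_.map_ne_zero _).mpr h
    · right; exact (_root_.map_ne_zero _).mpr h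
  have he0 : e ≠ 0 := by
    rintro rfl
    rw [zero_mul] at heP heQ
    rw [heP, heQ] at hKtop
    simp at hKtop
  have hedeg : e.natDegree = 0 := by
    rcases topt with h | h
    · have h1 : Pt.natDegree = d := natDegree_eq_of_le_of_coeff_ne_zero dPt h
      have hPt0 : Pt ≠ 0 := by rintro h2; rw [h2, coeff_zero] at h; exact h rfl
      have h2 := natDegree_mul he0 hPt0
      rw [← heP, h1] at h2
      omega
    · have h1 : Qt.natDegree = d := natDegree_eq_of_le_of_coeff_ne_zero dQt h
      have hQt0 : Qt ≠ 0 := by rintro h2; rw [h2, coeff_zero] at h; exact h rfl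
      have h2 := natDegree_mul he0 hQt0
      rw [← heQ, h1] at h2
      omega
  obtain ⟨c', hc'⟩ : ∃ c', e = C c' := ⟨e.coeff 0, eq_C_of_natDegree_eq_zero hedeg⟩
  have hc0 : c' ≠ 0 := by
    rintro rfl; rw [hc', C_0] at he0; exact he0 rfl
  have hcc : C (δ * c')⁻¹ * (C δ * C c') = (1 : K[X]) := by
    rw [← C_mul, ← C_mul, inv_mul_cancel₀ (mul_ne_zero hδ0 hc0), C_1]
  refine ⟨!![m22, -m12; -m21, m11], P', Q', (δ * c')⁻¹, ?_, inv_ne_zero (mul_ne_zero hδ0 hc0),
    app_deg _, app_deg _, ?_, ?_, ?_, ?_, ?_, ?_⟩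
  · rw [Matrix.det_fin_two_of]
    have : m22 * m11 - -m12 * -m21 = δ := by rw [hδ]; ring
    rw [this]; exact hδ0
  · rw [← hPK, ← hQK, heP, heQ, hc']
    have hu : IsUnit (C c' : K[X]) := isUnit_C.mpr hc0.isUnit
    exact (isCoprime_mul_unit_left hu Pt Qt).mpr copt
  · rcases hφ with h | h
    · left; rw [hP', app_coeff _ _ le_rfl]; exact h
    · right; rw [hQ', app_coeff _ _ le_rfl]; exact h
  · simp only [Matrix.of_apply, Matrix.cons_val', Matrix.cons_val_zero, Matrix.cons_val_one,
      Matrix.cons_val_fin_one]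
    change P1 = C (δ * c')⁻¹ * (C m22 * PK + C (-m12) * QK)
    rw [heP, heQ, hc']
    linear_combination (-P1) * hcc + (C (δ * c')⁻¹ * C c') * eP1
  · simp only [Matrix.of_apply, Matrix.cons_val', Matrix.cons_val_zero, Matrix.cons_val_one,
      Matrix.cons_val_fin_one]
    change Q1 = C (δ * c')⁻¹ * (C (-m21) * PK + C m11 * QK)
    rw [heP, heQ, hc']
    linear_combination (-Q1) * hcc + (C (δ * c')⁻¹ * C c') * eQ1
  · simp only [Matrix.of_apply, Matrix.cons_val', Matrix.cons_val_zero, Matrix.cons_val_one,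
      Matrix.cons_val_fin_one]
    rw [hm12, hm11]; ring
  · simp only [Matrix.of_apply, Matrix.cons_val', Matrix.cons_val_zero, Matrix.cons_val_one,
      Matrix.cons_val_fin_one]
    rw [hm11]; exact h12

end explicit

end Pool.Agent.Helper45.M8

end
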