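import Pool.Agent.Helper23.MB.L00_ab1
import Pool.Agent.Helper23.MB.L00_ab2
import Pool.Agent.Helper23.MB.L00_ab6
import Pool.Agent.Helper23.MB.L00_ab7
import Pool.Agent.Helper23.MB.L00_ab8
import Pool.Agent.Helper23.MB.L00_abc0
import Pool.Agent.Helper23.MB.L00_abc1
import Pool.Agent.Helper23.MB.L00_abc2

/-!
Parts of Helper45.FFPlaces, Helper45.FFChar0, Helper33.UB.RatInst, Helper16.FF10, Helper45.S4Gal, Helper47.EN.Defs, Helper61.BBGermA, Helper47.EN.Group, Helper13.EN.V2, Helper47.EN.Final, Helper3.Dep.Biv, Helper45.GalW1, Helper45.M8Gal, Helper43.PT.LE, Helper53.PT.Pair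
-/

attribute [-simp] Valuation.IsUniformizer.val
attribute [local instance 5000]
  Pool.Agent.Helper23.MB.Inst.rCharZero Pool.Agent.Helper23.MB.Inst.rALM
  Pool.Agent.Helper23.MB.Inst.rARM Pool.Agent.Helper23.MB.Inst.rALSM
  Pool.Agent.Helper23.MB.Inst.rARSM Pool.Agent.Helper23.MB.Inst.rARRLE
  Pool.Agent.Helper23.MB.Inst.rALRLE Pool.Agent.Helper23.MB.Inst.rARRLT
  Pool.Agent.Helper23.MB.Inst.rALRLT Pool.Agent.Helper23.MB.Inst.rPMRLT
  Pool.Agent.Helper23.MB.Inst.rMPRLT Pool.Agent.Helper23.MB.Inst.rPMM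
  Pool.Agent.Helper23.MB.Inst.rMPM Pool.Agent.Helper23.MB.Inst.rPMSM
  Pool.Agent.Helper23.MB.Inst.rMPSM Pool.Agent.Helper23.MB.Inst.rEAOL
  Pool.Agent.Helper23.MB.Inst.rIOR Pool.Agent.Helper23.MB.Inst.rISOR
  Pool.Agent.Helper23.MB.Inst.rNZD Pool.Agent.Helper23.MB.Inst.zCharZero
  Pool.Agent.Helper23.MB.Inst.zALM Pool.Agent.Helper23.MB.Inst.zARM
  Pool.Agent.Helper23.MB.Inst.zIOR Pool.Agent.Helper23.MB.Inst.zISOR
  Pool.Agent.Helper23.MB.Inst.zNZD Pool.Agent.Helper23.MB.Inst.qCharZero
  Pool.Agent.Helper23.MB.Inst.free Pool.Agent.Helper23.MB.Inst.faith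
  Pool.Agent.Helper23.MB.Inst.torsionFree Pool.Agent.Helper23.MB.Inst.rfFaith
  Pool.Agent.Helper23.MB.Inst.hAdd Pool.Agent.Helper23.MB.Inst.hAddM
  Pool.Agent.Helper23.MB.Inst.hMul Pool.Agent.Helper23.MB.Inst.hMon
  Pool.Agent.Helper23.MB.Inst.hZero Pool.Agent.Helper23.MB.Inst.hOne
  Pool.Agent.Helper23.MB.Inst.hMZ Pool.Agent.Helper23.MB.Inst.hRing
  Pool.Agent.Helper23.MB.Inst.aAdd Pool.Agent.Helper23.MB.Inst.aAddM
  Pool.Agent.Helper23.MB.Inst.aMul Pool.Agent.Helper23.MB.Inst.aMon
  Pool.Agent.Helper23.MB.Inst.aZero Pool.Agent.Helper23.MB.Inst.aOne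
  Pool.Agent.Helper23.MB.Inst.aMZ Pool.Agent.Helper23.MB.Inst.aRing

namespace Pool.Agent.Helper16
end Pool.Agent.Helper16
namespace Pool.Agent.Helper33
end Pool.Agent.Helper33
namespace Pool.Agent.Helper33.PS
end Pool.Agent.Helper33.PS
namespace Pool.Agent.Helper33.UB
end Pool.Agent.Helper33.UB
namespace Pool.Agent.Helper34.Dep
end Pool.Agent.Helper34.Dep
namespace Pool.Agent.Helper45.FF
end Pool.Agent.Helper45.FF
namespace Pool.Agent.Helper45.FR
end Pool.Agent.Helper45.FR
namespace Pool.Agent.Helper45.S4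
end Pool.Agent.Helper45.S4
namespace Pool.Agent.Helper47.RR
end Pool.Agent.Helper47.RR
namespace Pool.Agent.Helper51.RatTree
end Pool.Agent.Helper51.RatTree
namespace Pool.Agent.Helper55.RD
end Pool.Agent.Helper55.RD
namespace Pool.Agent.Helper93.RatODE
end Pool.Agent.Helper93.RatODE
namespace Pool.Agent.Helper98.PS
end Pool.Agent.Helper98.PS

section

set_option autoImplicit false

set_option linter.style.haveILetI false

namespace Pool.Agent.Helper45.FF

open Polynomial IntermediateField Pool.Agent.Helper16 TensorProduct IsDedekindDomain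

section bound

variable {k K : Type} [Field k] [Field K] [Algebra k K]

/-- the error denominator for `D` over `k[s]` -/
theorem exists_denominator (s : K) (hs : Transcendental k s) [FiniteDimensional k⟮s⟯ K]
    (D : Derivation k K K) (q : k[X]) (hD : D s = aeval s q) :
    ∃ g : K, g ≠ 0 ∧ IntOver k s g ∧ ∀ x, IntOver k s x → IntOver k s (g * D x) := by
  classical
  letI := algX k s
  letI := algXF k s
  haveI := towerXF (K := k) s
  haveI := towerX (K := k) s
  haveI := isFractionRing_algXF s hs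
  haveI := faithfulX s hs
  haveI : Algebra.IsAlgebraic k⟮s⟯ K := inferInstance
  haveI : Algebra.IsAlgebraic k[X] K := by
    haveI : Algebra.IsAlgebraic k[X] k⟮s⟯ := IsLocalization.isAlgebraic k⟮s⟯ (nonZeroDivisors k[X])
    exact Algebra.IsAlgebraic.trans k[X] k⟮s⟯ K
  obtain ⟨S, hS⟩ := (finite_integralClosure s hs).fg_top
  obtain ⟨c, hc0, hc⟩ := Algebra.IsAlgebraic.exists_integral_multiples (R := k[X]) (A := K)
    (S.image (fun b : IC k s => D (b : K)))
  have hg0 : aeval s c ≠ 0 := by
    intro h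
    exact hs ⟨c, hc0, h⟩
  refine ⟨aeval s c, hg0, IntOver.aeval_mem s c, ?_⟩
  intro x hx
  have key : ∀ y : integralClosure k[X] K, y ∈ Submodule.span k[X] (S : Set (integralClosure k[X] K)) →
      IntOver k s (aeval s c * D (y : K)) := by
    intro y hy
    induction hy using Submodule.span_induction with
    | mem b hb =>
      have h1 := hc (D (b : K)) (Finset.mem_image_of_mem _ hb)
      rw [Algebra.smul_def, algX_apply] at h1
      exact h1
    | zero => simpa using IntOver.zero (K := k) s
    | add a b _ _ ha hb =>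
      have h1 : aeval s c * D ((a + b : integralClosure k[X] K) : K) =
          aeval s c * D (a : K) + aeval s c * D (b : K) := by
        rw [Subalgebra.coe_add, map_add, mul_add]
      rw [h1]
      exact ha.add hb
    | smul f b _ hb =>
      have h1 : aeval s c * D ((f • b : integralClosure k[X] K) : K) =
          aeval s f * (aeval s c * D (b : K)) + aeval s c * (b : K) * (aeval s (derivative f) * aeval s q) := by
        rw [Subalgebra.coe_smul, Algebra.smul_def, algX_apply, Derivation.leibniz, Derivation.map_aeval, hD]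
        simp only [smul_eq_mul]
        ring
      rw [h1]
      have hb' : IntOver k s (b : K) := b.2
      exact ((IntOver.aeval_mem s f).mul hb).add
        (((IntOver.aeval_mem s c).mul hb').mul ((IntOver.aeval_mem s _).mul (IntOver.aeval_mem s q)))
  have := key ⟨x, hx⟩ (by rw [hS]; exact Submodule.mem_top)
  exact this

end bound

end Pool.Agent.Helper45.FF

end

section

set_option autoImplicit false

set_option linter.style.haveILetI false

namespace Pool.Agent.Helper45.FF

open Polynomial IntermediateField Pool.Agent.Helper16 TensorProduct IsDedekindDomain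

open Pool.Agent.Helper33

section char0

variable {k K : Type} [Field k] [Field K] [Algebra k K]

/-- In characteristic zero the kernel of a nonzero derivation consists of constants. -/
theorem const_of_deriv_eq_zero [IsAlgClosed k] [CharZero k] (hN : IsFunctionField k K)
    (D : Derivation k K K) (t : K) (hD : D t = 1) (x : K) (hx : D x = 0) :
    ∃ c : k, algebraMap k K c = x := by
  by_cases hxa : IsAlgebraic k x
  · have : IsIntegral k x := hxa.isIntegral
    haveI : FiniteDimensional k k⟮x⟯ := adjoin.finiteDimensional this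
    obtain ⟨c, hc⟩ := (IsAlgClosed.algebraMap_bijective_of_isIntegral (k := k) (K := k⟮x⟯)).2
      (⟨x, mem_adjoin_simple_self k x⟩)
    exact ⟨c, congrArg Subtype.val hc⟩
  · exfalso
    haveI := hN.finiteDimensional x hxa
    haveI : CharZero K := charZero_of_injective_algebraMap (algebraMap k K).injective
    haveI : CharZero k⟮x⟯ := charZero_of_injective_algebraMap (algebraMap k k⟮x⟯).injective
    haveI : Algebra.IsSeparable k⟮x⟯ K := inferInstance
    have h0 : ∀ y ∈ k⟮x⟯, D y = 0 := by
      intro y hy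
      induction hy using IntermediateField.adjoin_induction with
      | mem z hz => rw [Set.mem_singleton_iff.1 hz, hx]
      | algebraMap c => simp
      | add a b _ _ ha hb => rw [map_add, ha, hb, add_zero]
      | inv a _ ha => rw [Derivation.leibniz_inv, ha, smul_zero]
      | mul a b _ _ ha hb => rw [Derivation.leibniz, ha, hb, smul_zero, smul_zero, add_zero]
    let D' : Derivation k⟮x⟯ K K := Derivation.mk'
      { toFun := D
        map_add' := fun a b => map_add D a b
        map_smul' := by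
          rintro ⟨y, hy⟩ b
          change D (y * b) = y * D b
          rw [Derivation.leibniz, h0 y hy, smul_zero, add_zero, smul_eq_mul] }
      (fun a b => by
        change D (a * b) = _
        rw [Derivation.leibniz]
        rfl)
    have hDt : D' t = 1 := hD
    haveI : Algebra.FormallyEtale k⟮x⟯ K := Algebra.FormallyEtale.of_isSeparable _ _
    haveI : Algebra.FormallyUnramified k⟮x⟯ K := inferInstance
    haveI : Subsingleton (Ω[K⁄k⟮x⟯]) := inferInstance
    have h1 : D' = 0 := by
      have := (D'.liftKaehlerDifferential_comp)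
      rw [← this]
      ext a
      have h2 : KaehlerDifferential.D k⟮x⟯ K a = 0 := Subsingleton.elim _ _
      simp [h2]
    rw [h1] at hDt
    simp at hDt

end char0

end Pool.Agent.Helper45.FF

end

section

set_option autoImplicit false

open Finset Polynomial

namespace Pool.Agent.Helper33.UB

open Pool.Agent.Helper51.RatTree Pool.Agent.Helper55.RD Pool.Agent.Helper93.RatODE
  Pool.Agent.Helper45.FR

section height

variable {K : Type*} [Field K] {d : ℕ} {F G : K[X]}

/-- the local height of an orbit point -/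
noncomputable def ratH (v : DV K) (d : ℕ) (F G : K[X]) (y : K) : ℝ :=
  ∑' n : ℕ, (v.o (G.eval ((rmap F G)^[n] y)) : ℝ) / (d : ℝ) ^ (n + 1)

lemma ratH_summable (v : DV K) (hd : 2 ≤ d) {X : Finset K} (hX : ∀ y ∈ X, rmap F G y ∈ X) {y : K}
    (hy : y ∈ X) :
    Summable fun n : ℕ => (v.o (G.eval ((rmap F G)^[n] y)) : ℝ) / (d : ℝ) ^ (n + 1) := by
  have hdr : (2 : ℝ) ≤ d := by exact_mod_cast hd
  set B : ℝ := ∑ z ∈ X, |(v.o (G.eval z) : ℝ)| with hB
  have hgeo : Summable fun n : ℕ => B * ((1 / (d : ℝ)) ^ n) := by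
    apply Summable.mul_left
    apply summable_geometric_of_lt_one (by (clear * - hd; positivity))
    rw [div_lt_one (by (clear * - hdr; linarith))]
    (clear * - hdr; linarith)
  refine Summable.of_norm_bounded hgeo ?_
  intro n
  rw [Real.norm_eq_abs, abs_div, abs_of_pos (by positivity : (0 : ℝ) < (d : ℝ) ^ (n + 1))]
  have h1 : |(v.o (G.eval ((rmap F G)^[n] y)) : ℝ)| ≤ B :=
    single_le_sum (f := fun z => |(v.o (G.eval z) : ℝ)|) (fun _ _ => abs_nonneg _) (iterate_mem hX hy n)
  have hB0 : 0 ≤ B := (abs_nonneg _).trans h1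
  rw [one_div, inv_pow, ← div_eq_mul_inv]
  calc _ ≤ B / (d : ℝ) ^ (n + 1) := by gcongr
    _ ≤ B / (d : ℝ) ^ n := by
      apply div_le_div_of_nonneg_left hB0 (by positivity)
      apply pow_le_pow_right₀ (by (clear * - hdr; linarith)) (by omega)

lemma ratH_rec (v : DV K) (hd : 2 ≤ d) {X : Finset K} (hX : ∀ y ∈ X, rmap F G y ∈ X) {y : K}
    (hy : y ∈ X) : ratH v d F G (F.eval y / G.eval y) + v.o (G.eval y) = d * ratH v d F G y := by
  have hdr : (2 : ℝ) ≤ d := by exact_mod_cast hd
  have h1 := (ratH_summable v hd hX hy).tsum_eq_zero_add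
  have h2 : ∀ n : ℕ, (v.o (G.eval ((rmap F G)^[n + 1] y)) : ℝ) / (d : ℝ) ^ (n + 1 + 1) =
      (1 / (d : ℝ)) * ((v.o (G.eval ((rmap F G)^[n] (rmap F G y))) : ℝ) / (d : ℝ) ^ (n + 1)) := by
    intro n
    rw [Function.iterate_succ, Function.comp]
    field_simp
    ring
  unfold ratH
  rw [h1, tsum_congr h2, tsum_mul_left]
  have h3 : (rmap F G)^[0] y = y := rfl
  rw [h3]
  change (∑' n : ℕ, (v.o (G.eval ((rmap F G)^[n] (rmap F G y))) : ℝ) / (d : ℝ) ^ (n + 1)) + _ = _
  field_simp
  ring

end height

end Pool.Agent.Helper33.UB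

end

section

set_option autoImplicit false

set_option linter.style.haveILetI false

namespace Pool.Agent.Helper16

open Polynomial IntermediateField IsDedekindDomain

section

variable {K N : Type} [Field K] [Field N] [Algebra K N]

theorem exists_integral_basis (s : N) (hs : Transcendental K s) [FiniteDimensional K⟮s⟯ N] :
    ∃ x : Fin (Module.finrank K⟮s⟯ N) → N, LinearIndependent K⟮s⟯ x ∧ ∀ i, IntOver K s (x i) := by
  letI := algX K s
  letI := algXF K s
  haveI := towerXF (K := K) s
  haveI := isFractionRing_algXF s hs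
  haveI := faithfulX s hs
  let b := Module.finBasis K⟮s⟯ N
  have h1 : ∀ i, ∃ d : K⟮s⟯, d ≠ 0 ∧ IntOver K s (d • b i) := by
    intro i
    have halg : IsAlgebraic K[X] (b i) := by
      rw [IsFractionRing.isAlgebraic_iff K[X] K⟮s⟯ N]
      exact Algebra.IsAlgebraic.isAlgebraic _
    obtain ⟨y, hy, hint⟩ := halg.exists_integral_multiple
    refine ⟨algebraMap K[X] K⟮s⟯ y, ?_, ?_⟩
    · rw [Ne, FaithfulSMul.algebraMap_eq_zero_iff]
      exact hy
    · have h2 : algebraMap K[X] K⟮s⟯ y • b i = y • b i := by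
        rw [algebraMap_smul]
      rw [h2]
      exact hint
  choose d hd hint using h1
  refine ⟨fun i => d i • b i, ?_, hint⟩
  have := b.linearIndependent.units_smul (fun i => Units.mk0 (d i) (hd i))
  exact this

end

end Pool.Agent.Helper16

end

section

set_option autoImplicit false

set_option linter.style.haveILetI false

namespace Pool.Agent.Helper45.S4

open Polynomial IntermediateField Pool.Agent.Helper16 Pool.Agent.Helper33 Pool.Agent.Helper45.FF

section act

variable {k M : Type} [Field k] [Field M] [Algebra k M]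

/-- the action of automorphisms on places: `(act σ w) x = w (σ⁻¹ x)` -/
noncomputable def act (σ : M ≃ₐ[k] M) (w : Place k M) : Place k M where
  val := w.val.comap (σ.symm : M →+* M)
  surj := fun y => by
    obtain ⟨x, hx⟩ := w.surj y
    refine ⟨σ x, ?_⟩
    rw [Valuation.comap_apply]
    change w.val (σ.symm (σ x)) = y
    rw [AlgEquiv.symm_apply_apply, hx]
  triv := fun a ha => by
    rw [Valuation.comap_apply]
    change w.val (σ.symm (algebraMap k M a)) = 1
    rw [AlgEquiv.commutes]
    exact w.triv a ha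

theorem act_val (σ : M ≃ₐ[k] M) (w : Place k M) (x : M) : (act σ w).val x = w.val (σ.symm x) := rfl

theorem act_ord (σ : M ≃ₐ[k] M) (w : Place k M) (x : M) : (act σ w).ord x = w.ord (σ.symm x) := rfl

theorem act_ord_apply (σ : M ≃ₐ[k] M) (w : Place k M) (x : M) : (act σ w).ord (σ x) = w.ord x := by
  rw [act_ord, AlgEquiv.symm_apply_apply]

theorem act_one (w : Place k M) : act (1 : M ≃ₐ[k] M) w = w := Place.ext_val (by ext x; rfl)

theorem act_mul (σ τ : M ≃ₐ[k] M) (w : Place k M) : act (σ * τ) w = act σ (act τ w) :=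
  Place.ext_val (by ext x; rfl)

end act

end Pool.Agent.Helper45.S4

end

section

set_option autoImplicit false

set_option linter.style.haveILetI false

namespace Pool.Agent.Helper47.EN

open Pool.Agent.Helper16 Pool.Agent.Helper45.S4 Pool.Agent.Helper47.RR

variable {k L M N : Type} [Field k] [Field L] [Field M] [Field N] [Algebra k L] [Algebra k M]
  [Algebra k N]

/-- semilinear automorphisms act on places: `(tw γ w) x = w (γ x)` -/
noncomputable def tw (γ : M ≃+* M) (γ₀ : k ≃+* k)
    (hγ : ∀ c : k, γ (algebraMap k M c) = algebraMap k M (γ₀ c)) (w : Place k M) : Place k M where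
  val := w.val.comap (γ : M →+* M)
  surj := fun y => by
    obtain ⟨x, hx⟩ := w.surj y
    refine ⟨γ.symm x, ?_⟩
    rw [Valuation.comap_apply]
    change w.val (γ (γ.symm x)) = y
    rw [RingEquiv.apply_symm_apply, hx]
  triv := fun a ha => by
    rw [Valuation.comap_apply]
    change w.val (γ (algebraMap k M a)) = 1
    rw [hγ]
    exact w.triv _ (by simpa using ha)

theorem tw_val (γ : M ≃+* M) (γ₀ : k ≃+* k)
    (hγ : ∀ c : k, γ (algebraMap k M c) = algebraMap k M (γ₀ c)) (w : Place k M) (x : M) :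
    (tw γ γ₀ hγ w).val x = w.val (γ x) := rfl

theorem tw_ord (γ : M ≃+* M) (γ₀ : k ≃+* k)
    (hγ : ∀ c : k, γ (algebraMap k M c) = algebraMap k M (γ₀ c)) (w : Place k M) (x : M) :
    (tw γ γ₀ hγ w).ord x = w.ord (γ x) := rfl

end Pool.Agent.Helper47.EN

end

section

set_option autoImplicit false

set_option linter.style.haveILetI false

namespace Pool.Agent.Helper61.BBGermA

open Polynomial Pool.Agent.Helper16

/-- An element of small value at a place below a valuation ring is in the maximal ideal. -/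
theorem mem_maximalIdeal_of_val {F Om : Type} [Field F] [Field Om] [Algebra F Om]
    (O : ValuationSubring Om) (E : IntermediateField F Om) (v : Place F E)
    (hv : ∀ x : E, v.val x ≤ 1 ↔ (x : Om) ∈ O) (y : E) (hy : v.val y < 1) :
    (⟨(y : Om), (hv y).1 hy.le⟩ : O) ∈ IsLocalRing.maximalIdeal O := by
  rw [IsLocalRing.mem_maximalIdeal, mem_nonunits_iff]
  intro h
  rw [isUnit_iff_exists_inv] at h
  obtain ⟨z, hz⟩ := h
  have h2 : (y : Om) * (z : Om) = 1 := congrArg Subtype.val hz
  have hy0 : (y : Om) ≠ 0 := by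
    intro h0
    rw [h0, zero_mul] at h2
    exact zero_ne_one h2
  have h3 : (z : Om) = ((y⁻¹ : E) : Om) := by
    rw [IntermediateField.coe_inv]
    exact eq_inv_of_mul_eq_one_right h2
  have h4 : v.val y⁻¹ ≤ 1 := by
    rw [hv, ← h3]
    exact z.2
  have hyE : y ≠ 0 := by
    rintro rfl
    exact hy0 rfl
  have h5 : v.val y * v.val y⁻¹ = 1 := by
    rw [← map_mul, mul_inv_cancel₀ hyE, map_one]
  have h6 : v.val y * v.val y⁻¹ < 1 := mul_lt_one_of_lt_of_le hy h4
  rw [h5] at h6
  exact lt_irrefl _ h6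

end Pool.Agent.Helper61.BBGermA

end

section

set_option autoImplicit false

set_option linter.style.haveILetI false

namespace Pool.Agent.Helper47.EN

open Pool.Agent.Helper16 Pool.Agent.Helper45.S4 Pool.Agent.Helper47.RR IntermediateField

variable {k M : Type} [Field k] [Field M] [Algebra k M]

section kinds

variable (hM : IsFunctionField k M)

theorem act_inv_act (a : M ≃ₐ[k] M) (P : Place k M) : act a (act a⁻¹ P) = P := by
  rw [← Helper45.S4.act_mul, mul_inv_cancel, Helper45.S4.act_one]

end kinds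

end Pool.Agent.Helper47.EN

end

section

set_option autoImplicit false

set_option linter.style.haveILetI false

namespace Pool.Agent.Helper47.EN

open Pool.Agent.Helper16 Pool.Agent.Helper45.S4 Pool.Agent.Helper47.RR IntermediateField Polynomial

variable {k L M : Type} [Field k] [Field L] [Field M] [Algebra k L] [Algebra k M]

theorem tw_tw_symm (γ : M ≃+* M) (γ₀ : k ≃+* k)
    (hγ : ∀ c : k, γ (algebraMap k M c) = algebraMap k M (γ₀ c))
    (hγ' : ∀ c : k, γ.symm (algebraMap k M c) = algebraMap k M (γ₀.symm c)) (w : Place k M) :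
    tw γ γ₀ hγ (tw γ.symm γ₀.symm hγ' w) = w := by
  apply Place.ext_val
  ext x
  rw [tw_val, tw_val, RingEquiv.symm_apply_apply]

theorem tw_injective (γ : M ≃+* M) (γ₀ : k ≃+* k)
    (hγ : ∀ c : k, γ (algebraMap k M c) = algebraMap k M (γ₀ c)) :
    Function.Injective (tw γ γ₀ hγ) := by
  intro v w h
  apply Place.ext_val
  ext x
  have h1 : (tw γ γ₀ hγ v).val (γ.symm x) = (tw γ γ₀ hγ w).val (γ.symm x) := by rw [h]
  rw [tw_val, tw_val, RingEquiv.apply_symm_apply] at h1
  exact h1

theorem tw_surjective (γ : M ≃+* M) (γ₀ : k ≃+* k)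
    (hγ : ∀ c : k, γ (algebraMap k M c) = algebraMap k M (γ₀ c)) :
    Function.Surjective (tw γ γ₀ hγ) := fun w =>
  ⟨tw γ.symm γ₀.symm (hsymm γ γ₀ hγ) w, tw_tw_symm γ γ₀ hγ _ w⟩

end Pool.Agent.Helper47.EN

end

section

set_option autoImplicit false

set_option linter.style.haveILetI false

namespace Pool.Agent.Helper47.EN

open Pool.Agent.Helper16 Pool.Agent.Helper45.S4 Pool.Agent.Helper47.RR IntermediateField

variable {k M : Type} [Field k] [Field M] [Algebra k M]

section semi

variable (hM : IsFunctionField k M) (γ : M ≃+* M) (γ₀ : k ≃+* k)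
  (hγ : ∀ c : k, γ (algebraMap k M c) = algebraMap k M (γ₀ c))

include hγ in
theorem symm_semi (c : k) : γ.symm (algebraMap k M c) = algebraMap k M (γ₀.symm c) := by
  rw [RingEquiv.symm_apply_eq, hγ, RingEquiv.apply_symm_apply]

/-- conjugation of an automorphism by a semilinear automorphism -/
noncomputable def conjSemi (a : M ≃ₐ[k] M) : M ≃ₐ[k] M :=
  AlgEquiv.ofRingEquiv (f := (γ.trans a.toRingEquiv).trans γ.symm) (fun c => by
    change γ.symm (a (γ (algebraMap k M c))) = _
    rw [hγ, AlgEquiv.commutes, ← hγ, RingEquiv.symm_apply_apply])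

theorem conjSemi_apply (a : M ≃ₐ[k] M) (x : M) :
    conjSemi γ γ₀ hγ a x = γ.symm (a (γ x)) := rfl

theorem conjSemi_symm_apply (a : M ≃ₐ[k] M) (x : M) :
    (conjSemi γ γ₀ hγ a).symm x = γ.symm (a.symm (γ x)) := by
  rw [AlgEquiv.symm_apply_eq, conjSemi_apply, RingEquiv.apply_symm_apply,
    AlgEquiv.apply_symm_apply, RingEquiv.symm_apply_apply]

theorem act_conjSemi (a : M ≃ₐ[k] M) (P : Place k M) :
    act (conjSemi γ γ₀ hγ a) P =
      tw γ γ₀ hγ (act a (tw γ.symm γ₀.symm (symm_semi γ γ₀ hγ) P)) := by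
  apply Place.ext_val
  ext x
  rw [tw_val, act_val, act_val, tw_val, conjSemi_symm_apply]

theorem tw_tw (P : Place k M) :
    tw γ γ₀ hγ (tw γ.symm γ₀.symm (symm_semi γ γ₀ hγ) P) = P := by
  apply Place.ext_val
  ext x
  rw [tw_val, tw_val, RingEquiv.symm_apply_apply]

end semi

end Pool.Agent.Helper47.EN

end

section

set_option autoImplicit false

set_option linter.style.haveILetI false

namespace Pool.Agent.Helper3.Dep

open Polynomial Pool.Agent.Helper34.Dep Pool.Agent.Helper16 IntermediateField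

open scoped Polynomial.Bivariate

variable {k M : Type} [Field k] [Field M] [Algebra k M]

theorem exists_primitive_multiple (T : M) (hT : Transcendental k T) (p : k⟮T⟯[X]) (hp : p ≠ 0) :
    ∃ (R : k[X][Y]) (c : k⟮T⟯), c ≠ 0 ∧ R.IsPrimitive ∧
      R.map (aeval (AdjoinSimple.gen k T) : k[X] →ₐ[k] k⟮T⟯).toRingHom = C c * p ∧
      R.natDegree = p.natDegree := by
  classical
  let _ : NormalizedGCDMonoid k[X] := UniqueFactorizationMonoid.toNormalizedGCDMonoid k[X]
  letI := algXF k T
  haveI := isFractionRing_algXF T hT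
  have hθ : (aeval (AdjoinSimple.gen k T) : k[X] →ₐ[k] k⟮T⟯).toRingHom = algebraMap k[X] k⟮T⟯ := rfl
  have hinj : Function.Injective (algebraMap k[X] k⟮T⟯) := IsFractionRing.injective _ _
  rw [hθ]
  obtain ⟨b, hb, hmap⟩ := IsLocalization.integerNormalization_spec (nonZeroDivisors k[X]) p
  set q := IsLocalization.integerNormalization (nonZeroDivisors k[X]) p with hq
  have hb0 : b ≠ 0 := nonZeroDivisors.ne_zero hb
  have hb1 : algebraMap k[X] k⟮T⟯ b ≠ 0 := by
    rwa [Ne, map_eq_zero_iff _ hinj]
  have hmap' : q.map (algebraMap k[X] k⟮T⟯) = C (algebraMap k[X] k⟮T⟯ b) * p := by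
    rw [hmap, Algebra.smul_def]
    rfl
  have hq0 : q ≠ 0 := by
    intro h
    rw [h, Polynomial.map_zero] at hmap'
    exact mul_ne_zero (by rwa [Ne, C_eq_zero]) hp hmap'.symm
  have hc0 : q.content ≠ 0 := by
    rw [Ne, content_eq_zero_iff]
    exact hq0
  have hc1 : algebraMap k[X] k⟮T⟯ q.content ≠ 0 := by
    rwa [Ne, map_eq_zero_iff _ hinj]
  refine ⟨q.primPart, algebraMap k[X] k⟮T⟯ b / algebraMap k[X] k⟮T⟯ q.content,
    div_ne_zero hb1 hc1, isPrimitive_primPart q, ?_, ?_⟩
  · have h1 := eq_C_content_mul_primPart q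
    have h2 := congrArg (Polynomial.map (algebraMap k[X] k⟮T⟯)) h1
    rw [Polynomial.map_mul, map_C, hmap'] at h2
    have h3 : (C (algebraMap k[X] k⟮T⟯ q.content) : k⟮T⟯[X]) ≠ 0 := by rwa [Ne, C_eq_zero]
    apply mul_left_cancel₀ h3
    rw [← h2, ← mul_assoc, ← C_mul, mul_div_cancel₀ _ hc1]
  · rw [natDegree_primPart, ← natDegree_map_eq_of_injective hinj q, hmap', natDegree_C_mul hb1]

/-- minimal bivariate polynomial of `u` over `k(T)` -/
theorem exists_biv [IsAlgClosed k] (T u : M) (hT : Transcendental k T)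
    (hu : IsAlgebraic k⟮T⟯ u) :
    ∃ R : k[X][Y], R.aevalAeval T u = 0 ∧ (∀ c : k, R.map (evalRingHom c) ≠ 0) ∧
      R.natDegree ≤ Module.finrank k⟮T⟯ k⟮T⟯⟮u⟯ ∧
      ∀ (K : Type) [Field K] [Algebra k K] [IsAlgClosed K] (T' u' : K), Transcendental k T' →
        Algebra.IsAlgebraic k⟮T⟯ M → R.aevalAeval T' u' = 0 →
        ∃ ψ : M →ₐ[k] K, ψ T = T' ∧ ψ u = u' := by
  have hui : IsIntegral k⟮T⟯ u := hu.isIntegral
  have hp0 : minpoly k⟮T⟯ u ≠ 0 := minpoly.ne_zero hui
  obtain ⟨R, c, hc, hR, hmap, hdeg⟩ := exists_primitive_multiple T hT (minpoly k⟮T⟯ u) hp0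
  refine ⟨R, ?_, map_ne_zero_of_isPrimitive R hR, ?_, ?_⟩
  · rw [aevalAeval_eq_eval₂]
    have h1 : (aeval T : k[X] →ₐ[k] M).toRingHom = (algebraMap k⟮T⟯ M).comp
        (aeval (AdjoinSimple.gen k T) : k[X] →ₐ[k] k⟮T⟯).toRingHom := by
      ext a
      · simp
      · simp
    rw [h1, ← eval₂_map, hmap, eval₂_mul, ← aeval_def, ← aeval_def, minpoly.aeval, mul_zero]
  · rw [hdeg, adjoin.finrank hui]
  · intro K _ _ _ T' u' hT' halg h0
    letI := algXF k T
    haveI := isFractionRing_algXF T hT
    have hinj : Function.Injective ((aeval T' : k[X] →ₐ[k] K) : k[X] →+* K) :=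
      transcendental_iff_injective.1 hT'
    let j : k⟮T⟯ →+* K := IsFractionRing.lift hinj
    have hj : ∀ a : k[X], j (aeval (AdjoinSimple.gen k T) a) = aeval T' a := fun a =>
      IsFractionRing.lift_algebraMap hinj a
    have hjk : ∀ a : k, j (algebraMap k k⟮T⟯ a) = algebraMap k K a := by
      intro a
      have := hj (C a)
      simpa using this
    have hjT : j (AdjoinSimple.gen k T) = T' := by
      have := hj X
      simpa using this
    letI : Algebra k⟮T⟯ K := j.toAlgebra
    have hja : ∀ a, algebraMap k⟮T⟯ K a = j a := fun a => rfl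
    haveI : IsScalarTower k k⟮T⟯ K := IsScalarTower.of_algebraMap_eq fun a => by
      rw [hja, hjk]
    have h2 : (aeval T' : k[X] →ₐ[k] K).toRingHom = (algebraMap k⟮T⟯ K).comp
        (aeval (AdjoinSimple.gen k T) : k[X] →ₐ[k] k⟮T⟯).toRingHom := by
      ext a
      · change aeval T' (C a) = j (aeval (AdjoinSimple.gen k T) (C a))
        rw [hj]
      · change aeval T' X = j (aeval (AdjoinSimple.gen k T) X)
        rw [hj]
    rw [aevalAeval_eq_eval₂, h2, ← eval₂_map, hmap, eval₂_mul, ← aeval_def, ← aeval_def, aeval_C,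
      mul_eq_zero, map_eq_zero_iff _ (algebraMap k⟮T⟯ K).injective] at h0
    have h3 : aeval u' (minpoly k⟮T⟯ u) = 0 := h0.resolve_left hc
    obtain ⟨φ, hφ⟩ := exists_algHom_of_splits_of_aeval (F := k⟮T⟯) (E := M) (K := K)
      (fun s => ⟨(halg.isAlgebraic s).isIntegral, IsAlgClosed.splits _⟩) h3
    refine ⟨φ.restrictScalars k, ?_, hφ⟩
    have h4 : φ (algebraMap k⟮T⟯ M (AdjoinSimple.gen k T)) = T' := by
      rw [φ.commutes, hja, hjT]
    simpa using h4

end Pool.Agent.Helper3.Dep

end

section

set_option autoImplicit false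

set_option linter.style.haveILetI false

set_option linter.unusedSectionVars false

namespace Pool.Agent.Helper45.GW

open Polynomial IntermediateField Pool.Agent.Helper16 Pool.Agent.Helper33
  Pool.Agent.Helper45.FF Pool.Agent.Helper45.S4

section two

variable {k L M : Type} [Field k] [Field L] [Field M] [Algebra k L] [Algebra k M] [Algebra L M]
  [IsScalarTower k L M] [IsAlgClosed k] [Algebra.IsAlgebraic L M]

theorem val_act_eq (σ : M ≃ₐ[k] M) (w : Place k M) (hσ : act σ w = w) (x : M) :
    w.val (σ x) = w.val x := by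
  conv_lhs => rw [← hσ]
  rw [act_val, AlgEquiv.symm_apply_apply]

end two

end Pool.Agent.Helper45.GW

end

section

set_option autoImplicit false

set_option linter.style.haveILetI false

namespace Pool.Agent.Helper45.M8

open Polynomial IntermediateField Pool.Agent.Helper16 Pool.Agent.Helper33 Pool.Agent.Helper33.PS
  Pool.Agent.Helper45.FF Pool.Agent.Helper45.S4

variable {k L : Type} [Field k] [Field L] [Algebra k L]

/-- the action as a permutation of the places -/
noncomputable def actEquiv (σ : L ≃ₐ[k] L) : Place k L ≃ Place k L where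
  toFun := act σ
  invFun := act σ⁻¹
  left_inv := fun w => by rw [← act_mul, inv_mul_cancel, act_one]
  right_inv := fun w => by rw [← act_mul, mul_inv_cancel, act_one]

end Pool.Agent.Helper45.M8

end

section

set_option autoImplicit false

open Finset Polynomial

namespace Pool.Agent.Helper43.PT

open Pool.Agent.Helper33 Pool.Agent.Helper45.FR Pool.Agent.Helper33.UB Pool.Agent.Helper51.RatTree
  Pool.Agent.Helper93.RatODE Pool.Agent.Helper33.PS Pool.Agent.Helper55.RD Pool.Agent.Helper98.PS

section local_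

variable {K : Type} [Field K] {v : DV K} {F G : K[X]} {d : ℕ} {X : Finset K}

/-- orders of the denominators of the iterates -/
lemma o_iter (hd : 2 ≤ d) (hF : F.natDegree ≤ d) (hG : G.natDegree ≤ d)
    (hX : ∀ y ∈ X, G.eval y ≠ 0 ∧ F.eval y / G.eval y ∈ X) {y : K} (hy : y ∈ X) (t : ℕ) :
    (iter F G d t).2.eval y ≠ 0 ∧
      (iter F G d t).1.eval y = (rmap F G)^[t] y * (iter F G d t).2.eval y ∧
      (v.o ((iter F G d t).2.eval y) : ℝ) =
        (d : ℝ) ^ t * ratH v d F G y - ratH v d F G ((rmap F G)^[t] y) := by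
  have hX' : ∀ z ∈ X, rmap F G z ∈ X := fun z hz => (hX z hz).2
  have hmem : ∀ n, (rmap F G)^[n] y ∈ X := iterate_mem hX' hy
  have horb : ∀ m, (iter F G d m).2.eval y ≠ 0 ∧
      (iter F G d m).1.eval y / (iter F G d m).2.eval y = (rmap F G)^[m] y := by
    intro m
    have h := iter_orbit hF hG (fun n => (rmap F G)^[n] y) 0 m (by
      intro j _
      refine ⟨(hX _ (hmem _)).1, ?_⟩
      rw [Function.iterate_succ']
      rfl)
    simpa using h
  refine ⟨(horb t).1, ?_, ?_⟩
  · rw [← (horb t).2, div_mul_cancel₀ _ (horb t).1]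
  · induction t with
    | zero => simp [iter, v.o_one]
    | succ t ih =>
      have e2 : (iter F G d (t + 1)).2.eval y =
          (iter F G d t).2.eval y ^ d * G.eval ((rmap F G)^[t] y) := by
        change (hev G d (iter F G d t).1 (iter F G d t).2).eval y = _
        rw [hev_eval, hev_eq_eval G d hG _ _ (horb t).1, (horb t).2]
      have h3 := ratH_rec v hd hX' (hmem t)
      have h4 : F.eval ((rmap F G)^[t] y) / G.eval ((rmap F G)^[t] y) = (rmap F G)^[t + 1] y := by
        rw [Function.iterate_succ']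
        rfl
      rw [h4] at h3
      rw [e2, v.mul _ _ (pow_ne_zero _ (horb t).1) (hX _ (hmem t)).1, v.o_pow _ (horb t).1]
      push_cast
      rw [ih]
      rw [pow_succ]
      linear_combination h3

end local_

end Pool.Agent.Helper43.PT

end

section

set_option autoImplicit false

open Finset Polynomial

namespace Pool.Agent.Helper33.PT

open Pool.Agent.Helper45.FR Pool.Agent.Helper33.UB Pool.Agent.Helper51.RatTree
  Pool.Agent.Helper93.RatODE Pool.Agent.Helper33.PS Pool.Agent.Helper55.RD

section maps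

variable {K E : Type} [Field K] [Field E] (θ : K →+* E) {F G : K[X]} {d : ℕ} {x : ℕ → K} {N : ℕ}

variable {v : DV K} {w : DV E} {r : ℕ}

theorem ratH_map (hr : ∀ y, y ≠ 0 → w.o (θ y) = r * v.o y) (h : RatOrbit F G x N) {y : K}
    (hy : y ∈ rX h) : ratH w d (F.map θ) (G.map θ) (θ y) = r * ratH v d F G y := by
  unfold ratH
  rw [← tsum_mul_left]
  apply tsum_congr
  intro n
  have h1 : G.eval ((rmap F G)^[n] y) ≠ 0 :=
    (rX_spec h _ (iterate_mem (fun z hz => (rX_spec h z hz).2) hy n)).1
  rw [iterate_rmap_map, eval_map, eval₂_at_apply, hr _ h1]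
  push_cast
  ring

end maps

end Pool.Agent.Helper33.PT

end
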