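import Pool.Agent.Helper23.MB.L00_ab0
import Pool.Agent.Helper23.MB.L00_ab1
import Pool.Agent.Helper23.MB.L00_ab2
import Pool.Agent.Helper23.MB.L00_ab4
import Pool.Agent.Helper23.MB.L00_ab5
import Pool.Agent.Helper23.MB.L00_ab6
import Pool.Agent.Helper23.MB.L00_ab7
import Pool.Agent.Helper23.MB.L00_ab8
import Pool.Agent.Helper23.MB.L00_abc0
import Pool.Agent.Helper23.MB.L00_abc1
import Pool.Agent.Helper23.MB.L00_abc2

/-!
Parts of Helper93.RatHev, Helper93.RatRiccati, Helper45.FFPlaces, Helper45.RatUBP, Helper16.FF9, Helper45.S4Res, Helper31.RRK.Diff, Helper31.DT.SepDeg, Helper61.BBGermA, Helper34.Dep.Defs, Helper13.EN.V2, Helper47.EN.Final, Helper34.Dep.Ex, Helper64.Dep.PD, Helper34.Dep.Bz, Helper34.Dep.Tw, Helper34.Dep.Aut, Helper34.Dep.Core, Helper45.GalW1, Helper98.PS.M2, Helper82.PS.IterGood, Helper36.S5.Fixed, Helper36.PS.Residue, Helper36.PS.Rigidity, Helper79.PT.Riccati, Helper82.PT.Log, Helper43.PT.LE, Helper36.PT.Mob, Helper33.PT.Mods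
-/

attribute [-simp] Valuation.IsUniformizer.val
attribute [local instance 5000]
  Pool.Agent.Helper23.MB.Inst.rCharZero Pool.Agent.Helper23.MB.Inst.rALM
  Pool.Agent.Helper23.MB.Inst.rARM Pool.Agent.Helper23.MB.Inst.rALSM
  Pool.Agent.Helper23.MB.Inst.rARSM Pool.Agent.Helper23.MB.Inst.rARRLE
  Pool.Agent.Helper23.MB.Inst.rALRLE Pool.Agent.Helper23.MB.Inst.rARRLT
  Pool.Agent.Helper23.MB.Inst.rALRLT Pool.Agent.Helper23.MB.Inst.rPMRLT
  Pool.Agent.Helper23.MB.Inst.rMPRLT Pool.Agent.Helper23.MB.Inst.rPMM
  Pool.Agent.Helper23.MB.Inst.rMPM Pool.Agent.Helper23.MB.Inst.rPMSM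
  Pool.Agent.Helper23.MB.Inst.rMPSM Pool.Agent.Helper23.MB.Inst.rEAOL
  Pool.Agent.Helper23.MB.Inst.rIOR Pool.Agent.Helper23.MB.Inst.rISOR
  Pool.Agent.Helper23.MB.Inst.rNZD Pool.Agent.Helper23.MB.Inst.zCharZero
  Pool.Agent.Helper23.MB.Inst.zALM Pool.Agent.Helper23.MB.Inst.zARM
  Pool.Agent.Helper23.MB.Inst.zIOR Pool.Agent.Helper23.MB.Inst.zISOR
  Pool.Agent.Helper23.MB.Inst.zNZD Pool.Agent.Helper23.MB.Inst.qCharZero
  Pool.Agent.Helper23.MB.Inst.free Pool.Agent.Helper23.MB.Inst.faith
  Pool.Agent.Helper23.MB.Inst.torsionFree Pool.Agent.Helper23.MB.Inst.rfFaith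
  Pool.Agent.Helper23.MB.Inst.hAdd Pool.Agent.Helper23.MB.Inst.hAddM
  Pool.Agent.Helper23.MB.Inst.hMul Pool.Agent.Helper23.MB.Inst.hMon
  Pool.Agent.Helper23.MB.Inst.hZero Pool.Agent.Helper23.MB.Inst.hOne
  Pool.Agent.Helper23.MB.Inst.hMZ Pool.Agent.Helper23.MB.Inst.hRing
  Pool.Agent.Helper23.MB.Inst.aAdd Pool.Agent.Helper23.MB.Inst.aAddM
  Pool.Agent.Helper23.MB.Inst.aMul Pool.Agent.Helper23.MB.Inst.aMon
  Pool.Agent.Helper23.MB.Inst.aZero Pool.Agent.Helper23.MB.Inst.aOne
  Pool.Agent.Helper23.MB.Inst.aMZ Pool.Agent.Helper23.MB.Inst.aRing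

namespace Pool.Agent.Helper16
end Pool.Agent.Helper16
namespace Pool.Agent.Helper33
end Pool.Agent.Helper33
namespace Pool.Agent.Helper33.PS
end Pool.Agent.Helper33.PS
namespace Pool.Agent.Helper33.PT
end Pool.Agent.Helper33.PT
namespace Pool.Agent.Helper33.UB
end Pool.Agent.Helper33.UB
namespace Pool.Agent.Helper34.Dep
end Pool.Agent.Helper34.Dep
namespace Pool.Agent.Helper36.DT
end Pool.Agent.Helper36.DT
namespace Pool.Agent.Helper36.S5
end Pool.Agent.Helper36.S5
namespace Pool.Agent.Helper38.DT
end Pool.Agent.Helper38.DT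
namespace Pool.Agent.Helper45.FF
end Pool.Agent.Helper45.FF
namespace Pool.Agent.Helper45.FR
end Pool.Agent.Helper45.FR
namespace Pool.Agent.Helper45.S4
end Pool.Agent.Helper45.S4
namespace Pool.Agent.Helper47.EN
end Pool.Agent.Helper47.EN
namespace Pool.Agent.Helper47.RR
end Pool.Agent.Helper47.RR
namespace Pool.Agent.Helper51.RatTree
end Pool.Agent.Helper51.RatTree
namespace Pool.Agent.Helper55.RD
end Pool.Agent.Helper55.RD
namespace Pool.Agent.Helper61.BBGermA
end Pool.Agent.Helper61.BBGermA
namespace Pool.Agent.Helper64.Dep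
end Pool.Agent.Helper64.Dep
namespace Pool.Agent.Helper93.RatODE
end Pool.Agent.Helper93.RatODE
namespace Pool.Agent.Helper98.PS
end Pool.Agent.Helper98.PS

section

set_option autoImplicit false

open Finset Polynomial

namespace Pool.Agent.Helper93.RatODE

variable {K : Type*} [Field K]

section ring

variable {S T : Type*} [CommRing S] [Algebra K S] [CommRing T] [Algebra K T]

lemma hev_zero_poly (n : ℕ) (u w : S) : hev (0 : K[X]) n u w = 0 := by
  simp [hev]

end ring

section iterates

variable {P Q : K[X]} {d : ℕ}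

/-- **Iterates of a rational function** along orbits. -/
theorem exists_iterate (h : IsCoprime P Q) (hP : P.natDegree ≤ d) (hQ : Q.natDegree ≤ d)
    (hmax : max P.natDegree Q.natDegree = d) (hd : 1 ≤ d) (m : ℕ) :
    ∃ U W : K[X], IsCoprime U W ∧ U.natDegree ≤ d ^ m ∧ W.natDegree ≤ d ^ m ∧
      (U.coeff (d ^ m) ≠ 0 ∨ W.coeff (d ^ m) ≠ 0) ∧
      (∀ x : ℕ → K, (∀ i, Q.eval (x i) ≠ 0 ∧ x (i + 1) = P.eval (x i) / Q.eval (x i)) →
        ∀ i, W.eval (x i) ≠ 0 ∧ U.eval (x i) / W.eval (x i) = x (i + m)) ∧
      (∀ (x : ℕ → K) (i : ℕ), (∀ j < m, Q.eval (x (i + j)) ≠ 0 ∧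
          x (i + j + 1) = P.eval (x (i + j)) / Q.eval (x (i + j))) →
        W.eval (x i) ≠ 0 ∧ U.eval (x i) / W.eval (x i) = x (i + m)) := by
  have htop : P.coeff d ≠ 0 ∨ Q.coeff d ≠ 0 := by
    rcases max_choice P.natDegree Q.natDegree with h1 | h1
    · left
      rw [hmax] at h1
      rw [h1]
      change P.leadingCoeff ≠ 0
      rw [leadingCoeff_ne_zero]
      rintro rfl
      rw [natDegree_zero] at h1; omega
    · right
      rw [hmax] at h1
      rw [h1]
      change Q.leadingCoeff ≠ 0
      rw [leadingCoeff_ne_zero]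
      rintro rfl
      rw [natDegree_zero] at h1; omega
  refine ⟨(iter P Q d m).1, (iter P Q d m).2, iter_isCoprime h hP hQ htop m, (iter_natDegree m).1,
    (iter_natDegree m).2, iter_coeff h hP hQ htop m, ?_, ?_⟩
  · intro x hx i
    exact iter_orbit hP hQ x i m fun j _ => hx (i + j)
  · intro x i hx
    exact iter_orbit hP hQ x i m hx

end iterates

end Pool.Agent.Helper93.RatODE

end

section

set_option autoImplicit false

open Finset Polynomial

namespace Pool.Agent.Helper93.RatODE

open Pool.Agent.Helper33.UB (mapD mapD_natDegree D_eval)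

variable {K : Type*} [Field K]

variable [DecidableEq K]

omit [DecidableEq K] in
/-- **Solutions of a Riccati equation have constant cross ratios.** -/
theorem D_cross_eq_zero {D : K → K} (hadd : ∀ x y, D (x + y) = D x + D y)
    (hmul : ∀ x y, D (x * y) = x * D y + y * D x) {α β γ a b c e : K}
    (ha : D a = α * a ^ 2 + β * a + γ) (hb : D b = α * b ^ 2 + β * b + γ)
    (hc : D c = α * c ^ 2 + β * c + γ) (he : D e = α * e ^ 2 + β * e + γ) :
    D ((a - c) * (b - e) / ((a - e) * (b - c))) = 0 := by
  by_cases hw : (a - e) * (b - c) = 0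
  · rw [hw, div_zero]; exact D_zero hadd
  have h1 := D_div hmul (u := (a - c) * (b - e)) hw
  rw [hmul, hmul, D_sub hadd, D_sub hadd, D_sub hadd, D_sub hadd, ha, hb, hc, he] at h1
  have h2 : ((a - e) * (b - c)) ^ 2 * D ((a - c) * (b - e) / ((a - e) * (b - c))) = 0 := by
    rw [h1]; ring
  rcases mul_eq_zero.mp h2 with h | h
  · exact absurd h (pow_ne_zero _ hw)
  · exact h

end Pool.Agent.Helper93.RatODE

end

section

set_option autoImplicit false

set_option linter.style.haveILetI false

namespace Pool.Agent.Helper45.FF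

open Polynomial IntermediateField Pool.Agent.Helper16 TensorProduct IsDedekindDomain

section bound

variable {k K : Type} [Field k] [Field K] [Algebra k K]

theorem exists_frac (s : K) (hs : Transcendental k s) [FiniteDimensional k⟮s⟯ K]
    (v : Place k K) (hv : v.val s ≤ 1) (x : K) (hx : v.val x ≤ 1) :
    ∃ a b : K, IntOver k s a ∧ IntOver k s b ∧ v.val b = 1 ∧ x * b = a := by
  obtain ⟨P, rfl⟩ := exists_placeOfPrime s hs v hv
  haveI := isDedekindDomain_IC s hs
  haveI := isFractionRing_IC s hs
  obtain ⟨n, d, h⟩ := P.exists_primeCompl_mul_eq_of_integer (K := K) x hx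
  refine ⟨n, (d : IC k s), n.2, (d : IC k s).2, ?_, h⟩
  exact (P.valuation_eq_one_iff_notMem (K := K)).2 d.2

theorem val_D_le (s : K) (hs : Transcendental k s) [FiniteDimensional k⟮s⟯ K]
    (D : Derivation k K K) (g : K) (hg : ∀ x, IntOver k s x → IntOver k s (g * D x))
    (v : Place k K) (hv : v.val s ≤ 1) (x : K) (hx : v.val x ≤ 1) :
    v.val g * v.val (D x) ≤ 1 := by
  obtain ⟨a, b, ha, hb, hb1, hab⟩ := exists_frac s hs v hv x hx
  have hDa : v.val (g * D a) ≤ 1 := (hg a ha).mem_ring v hv
  have hDb : v.val (g * D b) ≤ 1 := (hg b hb).mem_ring v hv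
  have h1 : g * D x * b = g * D a - x * (g * D b) := by
    rw [← hab, Derivation.leibniz]
    simp only [smul_eq_mul]
    ring
  have h2 : v.val (g * D x * b) ≤ 1 := by
    rw [h1]
    refine (v.val.map_sub _ _).trans (max_le hDa ?_)
    rw [map_mul]
    exact mul_le_one' hx hDb
  rwa [map_mul, map_mul, hb1, mul_one] at h2

end bound

end Pool.Agent.Helper45.FF

end

section

set_option autoImplicit false

set_option linter.style.haveILetI false

open Polynomial

namespace Pool.Agent.Helper45.FR

open Pool.Agent.Helper33 Pool.Agent.Helper93.RatODE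

section descent

variable {M L : Type*} [Field M] [Field L] [Algebra M L] {d : ℕ}

theorem isCoprime_of_no_zero [IsAlgClosed L] {P Q : M[X]} (hP : P.natDegree ≤ d)
    (hQ : Q.natDegree ≤ d)
    (h0 : ∀ u w : L, hev P d u w = 0 → hev Q d u w = 0 → u = 0 ∧ w = 0) : IsCoprime P Q := by
  have key : ∀ r : L, aeval r P = 0 → aeval r Q = 0 → False := by
    intro r h1 h2
    have h3 : hev P d r (1 : L) = 0 := by
      rw [hev_eq P d hP r 1 one_ne_zero]; simp [h1]
    have h4 : hev Q d r (1 : L) = 0 := by
      rw [hev_eq Q d hQ r 1 one_ne_zero]; simp [h2]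
    exact one_ne_zero (h0 r 1 h3 h4).2
  apply isCoprime_of_irreducible_dvd
  · rintro ⟨rfl, rfl⟩
    exact key 0 (by simp) (by simp)
  · intro z hz h1 h2
    obtain ⟨r, hr⟩ := IsAlgClosed.exists_aeval_eq_zero L z (by
      intro hdeg
      exact hz.not_isUnit (isUnit_iff_degree_eq_zero.2 hdeg))
    obtain ⟨a, rfl⟩ := h1
    obtain ⟨b, rfl⟩ := h2
    exact key r (by rw [map_mul, hr, zero_mul]) (by rw [map_mul, hr, zero_mul])

end descent

end Pool.Agent.Helper45.FR

end

section

set_option autoImplicit false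

set_option linter.style.haveILetI false

namespace Pool.Agent.Helper16

open Polynomial IntermediateField IsDedekindDomain

section

variable {K N : Type} [Field K] [Field N] [Algebra K N]

/-- Every non-trivial valuation ring of a function field `N/K` containing `K` is the ring of a
place. -/
theorem IsFunctionField.exists_place (hN : IsFunctionField K N) (O : ValuationSubring N)
    (hK : ∀ a : K, algebraMap K N a ∈ O) (y : N) (hy : y ∉ O) :
    ∃ v : Place K N, ∀ x, v.val x ≤ 1 ↔ x ∈ O := by
  have hy0 : y ≠ 0 := by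
    rintro rfl
    exact hy (zero_mem _)
  have hytr : Transcendental K y := by
    intro halg
    exact hy ((IntOver.of_isIntegral (s := (0 : N)) halg.isIntegral).mem_valuationSubring O hK
      (zero_mem _))
  have hs : Transcendental K y⁻¹ := transcendental_inv hytr
  haveI := hN.finiteDimensional y⁻¹ hs
  haveI := isDedekindDomain_IC y⁻¹ hs
  haveI := isFractionRing_IC y⁻¹ hs
  have hsO : y⁻¹ ∈ O := by
    rcases O.mem_or_inv_mem y with h | h
    · exact absurd h hy
    · exact h
  have hIC : ∀ b : IC K y⁻¹, (b : N) ∈ O := fun b =>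
    IntOver.mem_valuationSubring (K := K) b.2 O hK hsO
  let P : Ideal (IC K y⁻¹) :=
    { carrier := {b | O.valuation (b : N) < 1}
      add_mem' := fun {a b} ha hb => O.valuation.map_add_lt ha hb
      zero_mem' := by
        change O.valuation ((0 : IC K y⁻¹) : N) < 1
        simp
      smul_mem' := by
        intro c b hb
        change O.valuation ((c * b : IC K y⁻¹) : N) < 1
        have h1 : ((c * b : IC K y⁻¹) : N) = (c : N) * (b : N) := rfl
        rw [h1, map_mul, mul_comm]
        exact mul_lt_one_of_lt_of_le hb ((O.valuation_le_one_iff _).2 (hIC c)) }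
  have hmem : ∀ b : IC K y⁻¹, b ∈ P ↔ O.valuation (b : N) < 1 := fun b => Iff.rfl
  have hprime : P.IsPrime := by
    refine ⟨?_, ?_⟩
    · rw [Ideal.ne_top_iff_one, hmem]
      have h1 : ((1 : IC K y⁻¹) : N) = 1 := rfl
      rw [h1, map_one]
      exact lt_irrefl _
    · intro a b hab
      rw [hmem] at hab
      have h1 : ((a * b : IC K y⁻¹) : N) = (a : N) * (b : N) := rfl
      rw [h1, map_mul] at hab
      by_contra hcon
      rw [not_or, hmem, hmem, not_lt, not_lt] at hcon
      exact absurd hab (not_lt.2 (one_le_mul hcon.1 hcon.2))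
  have hsP : sIC K y⁻¹ ∈ P := by
    rw [hmem]
    change O.valuation y⁻¹ < 1
    rw [map_inv₀]
    apply inv_lt_one_of_one_lt₀
    rw [← not_le, O.valuation_le_one_iff]
    exact hy
  have hbot : P ≠ ⊥ := by
    intro h0
    rw [h0] at hsP
    exact sIC_ne_zero hs hsP
  let Q : HeightOneSpectrum (IC K y⁻¹) := ⟨P, hprime, hbot⟩
  have hsub : ∀ x, (placeOfPrime y⁻¹ hs Q).val x ≤ 1 → x ∈ O := by
    intro x hx
    obtain ⟨n, d, hnd⟩ := Q.exists_primeCompl_mul_eq_of_integer (K := N) x hx
    have hd : O.valuation (algebraMap (IC K y⁻¹) N d) = 1 := by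
      refine le_antisymm ((O.valuation_le_one_iff _).2 (hIC d)) ?_
      by_contra hlt
      rw [not_le] at hlt
      exact d.2 hlt
    have h1 := congrArg O.valuation hnd
    rw [map_mul, hd, mul_one] at h1
    rw [← O.valuation_le_one_iff, h1, O.valuation_le_one_iff]
    exact hIC n
  refine ⟨placeOfPrime y⁻¹ hs Q, fun x => ⟨hsub x, fun hx => ?_⟩⟩
  by_contra hlt
  rw [not_le] at hlt
  set w := placeOfPrime y⁻¹ hs Q with hw
  have hx0 : x ≠ 0 := by
    rintro rfl
    simp at hlt
  -- a power of `x` has larger value than `y`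
  have h3 : ∃ n : ℕ, w.val y ≤ (w.val x) ^ n := by
    have h4 : 0 < WithZero.log (w.val x) := by
      have := (WithZero.log_lt_log one_ne_zero (by simpa using hx0)).2 hlt
      simpa using this
    refine ⟨(WithZero.log (w.val y)).toNat, ?_⟩
    rw [← WithZero.log_le_log (by simpa using hy0) (pow_ne_zero _ (by simpa using hx0)),
      WithZero.log_pow]
    have h5 : WithZero.log (w.val y) ≤ ((WithZero.log (w.val y)).toNat : ℤ) := Int.self_le_toNat _
    have h6 : ((WithZero.log (w.val y)).toNat : ℤ) ≤
        ((WithZero.log (w.val y)).toNat : ℤ) * WithZero.log (w.val x) := by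
      nlinarith
    simpa using h5.trans h6
  obtain ⟨n, hn⟩ := h3
  apply hy
  have h7 : y * (x ^ n)⁻¹ ∈ O := by
    apply hsub
    rw [map_mul, map_inv₀, map_pow]
    apply mul_inv_le_one_of_le₀ hn
    exact zero_le
  have h8 : y = (y * (x ^ n)⁻¹) * x ^ n := by
    field_simp
  rw [h8]
  exact O.mul_mem _ _ h7 (O.toSubring.pow_mem hx n)

end

end Pool.Agent.Helper16

end

section

set_option autoImplicit false

set_option linter.style.haveILetI false

namespace Pool.Agent.Helper45.S4

open Polynomial IntermediateField Pool.Agent.Helper16 Pool.Agent.Helper33 Pool.Agent.Helper45.FF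

variable {k L M : Type} [Field k] [Field L] [Field M] [Algebra k L] [Algebra k M] [Algebra L M]
  [IsScalarTower k L M]

theorem exists_transcendental (hN : IsFunctionField k L) : ∃ t : L, Transcendental k t := by
  have h1 : Algebra.trdeg k L ≠ 0 := by rw [hN.2]; exact one_ne_zero
  rw [trdeg_ne_zero_iff] at h1
  exact h1.1

end Pool.Agent.Helper45.S4

end

section

set_option autoImplicit false

set_option linter.style.haveILetI false

set_option linter.unusedSectionVars false

namespace Pool.Agent.Helper31.RRK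

open Polynomial IntermediateField Pool.Agent.Helper16 Pool.Agent.Helper33 Pool.Agent.Helper45.FF

open Pool.Agent.Helper45.S4 Pool.Agent.Helper47.RR

open scoped Pointwise

variable {k L M : Type} [Field k] [Field L] [Field M] [Algebra k L] [Algebra k M] [Algebra L M]
  [IsScalarTower k L M]

variable [IsAlgClosed k] {hN : IsFunctionField k L} [FiniteDimensional L M]

section ring

variable {F : Type} [Field F] [Algebra k F] (v : Place k F)

instance instValRing : ValuationRing v.ring := by
  refine { cond' := fun a b => ?_ }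
  by_cases hb : (b : F) = 0
  · exact ⟨0, Or.inl (Subtype.ext (by simp [hb]))⟩
  by_cases ha : (a : F) = 0
  · exact ⟨0, Or.inr (Subtype.ext (by simp [ha]))⟩
  rcases le_total (v.val (a : F)) (v.val (b : F)) with h | h
  · refine ⟨⟨(a : F) / b, ?_⟩, Or.inr (Subtype.ext ?_)⟩
    · rw [v.mem_ring, map_div₀]
      exact div_le_one_of_le₀ h zero_le
    · change (b : F) * (a / b) = a
      field_simp
  · refine ⟨⟨(b : F) / a, ?_⟩, Or.inl (Subtype.ext ?_)⟩
    · rw [v.mem_ring, map_div₀]
      exact div_le_one_of_le₀ h zero_le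
    · change (a : F) * (b / a) = b
      field_simp

end ring

end Pool.Agent.Helper31.RRK

end

section

set_option autoImplicit false

set_option linter.style.haveILetI false

namespace Pool.Agent.Helper31.DT

open Polynomial IntermediateField Pool.Agent.Helper93.RatODE Pool.Agent.Helper38.DT
  Pool.Agent.Helper16

section transfer

variable {E M : Type} [Field E] [Field M] [Algebra E M]

theorem iter_snd_ne_zero {F G : E[X]} {d : ℕ} (hd : 2 ≤ d) (h : IsRatD F G d) (m : ℕ) :
    (iter F G d m).2 ≠ 0 := by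
  rcases Nat.eq_zero_or_pos m with rfl | hm
  · simp [iter]
  · have h1 : IsRatD (iter F G d m).1 (iter F G d m).2 (d ^ m) :=
      ⟨iter_isCoprime h.cop h.degF h.degG h.top m, (iter_natDegree (P := F) (Q := G) (d := d) m).1,
        (iter_natDegree (P := F) (Q := G) (d := d) m).2, iter_coeff h.cop h.degF h.degG h.top m⟩
    apply IsRatD.G_ne_zero _ h1
    calc 2 ≤ d := hd
      _ = d ^ 1 := (pow_one d).symm
      _ ≤ d ^ m := Nat.pow_le_pow_right (by omega) hm

/-- the iterates of `F / G` at `z` are rational functions of `F / G` at `z` -/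
theorem iter_mem {F G : E[X]} {d : ℕ} (hd : 2 ≤ d) (h : IsRatD F G d) {z : M}
    (hz : Transcendental E z) (m : ℕ) :
    aeval z (iter F G d (m + 1)).1 / aeval z (iter F G d (m + 1)).2 ∈
      E⟮aeval z F / aeval z G⟯ := by
  induction m with
  | zero =>
    have h1 : (iter F G d 1).1 = F ∧ (iter F G d 1).2 = G := by
      constructor
      · change hev F d (X : E[X]) 1 = F
        unfold hev
        simp only [one_pow, mul_one, algebraMap_eq]
        exact (as_sum_range_C_mul_X_pow' (n := d + 1) F (by have := h.degF; omega)).symm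
      · change hev G d (X : E[X]) 1 = G
        unfold hev
        simp only [one_pow, mul_one, algebraMap_eq]
        exact (as_sum_range_C_mul_X_pow' (n := d + 1) G (by have := h.degG; omega)).symm
    rw [zero_add, h1.1, h1.2]
    exact mem_adjoin_simple_self E _
  | succ m ih =>
    set U := (iter F G d (m + 1)).1 with hU
    set W := (iter F G d (m + 1)).2 with hW
    have hW0 : aeval z W ≠ 0 := aeval_ne_zero hz (iter_snd_ne_zero hd h (m + 1))
    have h1 : aeval z (iter F G d (m + 1 + 1)).1 = hev F d (aeval z U) (aeval z W) := by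
      change aeval z (hev F d U W) = _
      rw [hev_map]
    have h2 : aeval z (iter F G d (m + 1 + 1)).2 = hev G d (aeval z U) (aeval z W) := by
      change aeval z (hev G d U W) = _
      rw [hev_map]
    rw [h1, h2, hev_eq F d h.degF _ _ hW0, hev_eq G d h.degG _ _ hW0,
      mul_div_mul_left _ _ (pow_ne_zero _ hW0)]
    have h3 : ∀ P : E[X], aeval (aeval z U / aeval z W) P ∈ E⟮aeval z F / aeval z G⟯ := by
      intro P
      have h4 := Polynomial.aeval_algebraMap_apply M
        (⟨_, ih⟩ : E⟮aeval z F / aeval z G⟯) P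
      change aeval (aeval z U / aeval z W) P = _ at h4
      rw [h4]
      exact (aeval _ P : E⟮aeval z F / aeval z G⟯).2
    exact div_mem (h3 F) (h3 G)

end transfer

end Pool.Agent.Helper31.DT

end

section

set_option autoImplicit false

set_option linter.style.haveILetI false

namespace Pool.Agent.Helper61.BBGermA

open Polynomial Pool.Agent.Helper16

theorem isFunctionField_adjoin {F Om : Type} [Field F] [Field Om] [Algebra F Om]
    (h1 : Algebra.trdeg F Om = 1) (S : Set Om) (hS : S.Finite) (s : Om) (hs : s ∈ S)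
    (htr : Transcendental F s) : IsFunctionField F (IntermediateField.adjoin F S) := by
  refine ⟨?_, ?_⟩
  · rw [IntermediateField.essFiniteType_iff]
    exact IntermediateField.fg_adjoin_of_finite hS
  · have h2 := trdeg_add_eq F (IntermediateField.adjoin F S) (A := Om)
    have h3 : Algebra.trdeg F (IntermediateField.adjoin F S) ≠ 0 := by
      intro h
      rw [trdeg_eq_zero_iff] at h
      have h4 : IsAlgebraic F (⟨s, IntermediateField.subset_adjoin F S hs⟩ :
          IntermediateField.adjoin F S) := Algebra.IsAlgebraic.isAlgebraic _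
      exact htr (h4.algebraMap (A := Om))
    refine le_antisymm ?_ (Cardinal.one_le_iff_ne_zero.2 h3)
    calc Algebra.trdeg F (IntermediateField.adjoin F S) ≤ _ + _ := le_self_add
      _ = 1 := by rw [h2, h1]

end Pool.Agent.Helper61.BBGermA

end

section

set_option autoImplicit false

set_option linter.style.haveILetI false

namespace Pool.Agent.Helper34.Dep

open Polynomial Pool.Agent.Helper16 Pool.Agent.Helper47.RR

open scoped Polynomial.Bivariate

/-- `x` is regular at the place `w` with value `a` -/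
def Pv {k M : Type} [Field k] [Field M] [Algebra k M] (w : Place k M) (x : M) (a : k) : Prop :=
  w.val (x - algebraMap k M a) < 1

end Pool.Agent.Helper34.Dep

end

section

set_option autoImplicit false

set_option linter.style.haveILetI false

namespace Pool.Agent.Helper47.EN

open Pool.Agent.Helper16 Pool.Agent.Helper45.S4 Pool.Agent.Helper47.RR IntermediateField Polynomial

variable {k L M : Type} [Field k] [Field L] [Field M] [Algebra k L] [Algebra k M]

/-- the value of a polynomial at a place -/
theorem val_aeval_sub (w : Place k M) (h : M) (c : k) (hc : w.val (h - algebraMap k M c) < 1)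
    (p : k[X]) : w.val (aeval h p - algebraMap k M (p.eval c)) < 1 := by
  obtain ⟨q, hq⟩ := X_sub_C_dvd_sub_C_eval (a := c) (p := p)
  have h1 : aeval h p - algebraMap k M (p.eval c) = (h - algebraMap k M c) * aeval h q := by
    have h2 := congrArg (aeval h) hq
    simpa using h2
  have hle : w.val h ≤ 1 := by
    have h3 : h = (h - algebraMap k M c) + algebraMap k M c := by ring
    rw [h3]
    exact (w.val.map_add _ _).trans (max_le hc.le (w.val_algebraMap_le c))
  have hq' : w.val (aeval h q) ≤ 1 := by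
    have : aeval h q ∈ w.ring := by
      have h4 : h ∈ w.ring := hle
      have := (aeval (⟨h, h4⟩ : w.ring) q).2
      have h5 : ((aeval (⟨h, h4⟩ : w.ring) q : w.ring) : M) = aeval h q := by
        have := (aeval_algHom_apply (w.ring.val) (⟨h, h4⟩ : w.ring) q)
        exact this.symm
      rw [← h5]
      exact this
    exact this
  rw [h1, map_mul]
  calc w.val (h - algebraMap k M c) * w.val (aeval h q) ≤ w.val (h - algebraMap k M c) * 1 :=
        mul_le_mul_right hq' _
    _ < 1 := by rwa [mul_one]

theorem val_aeval_eq_one (w : Place k M) (h : M) (c : k) (hc : w.val (h - algebraMap k M c) < 1)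
    (p : k[X]) (hp : p.eval c ≠ 0) : w.val (aeval h p) = 1 := by
  have h1 := val_aeval_sub w h c hc p
  have h2 := w.triv _ hp
  have h3 : aeval h p = (aeval h p - algebraMap k M (p.eval c)) + algebraMap k M (p.eval c) := by
    ring
  rw [h3, Valuation.map_add_eq_of_lt_right (h := by rw [h2]; exact h1), h2]

/-- the value of a polynomial at a pole -/
theorem val_aeval_pole (w : Place k M) (h : M) (hw : 1 < w.val h) (p : k[X]) (hp : p ≠ 0) :
    w.val (aeval h p) = w.val h ^ p.natDegree := by
  have key : ∀ n : ℕ, ∀ p : k[X], p.natDegree = n → p ≠ 0 →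
      w.val (aeval h p) = w.val h ^ p.natDegree := by
    intro n
    induction n using Nat.strong_induction_on with
    | _ n ih =>
      intro p hpn hp
      by_cases hn : n = 0
      · rw [hpn, hn, pow_zero]
        rw [hn] at hpn
        obtain ⟨a, rfl⟩ : ∃ a, p = C a := ⟨_, eq_C_of_natDegree_eq_zero hpn⟩
        rw [aeval_C]
        exact w.triv _ (by simpa using hp)
      · have h1 := p.eraseLead_add_C_mul_X_pow
        have hlc : w.val (aeval h (C p.leadingCoeff * X ^ p.natDegree)) = w.val h ^ p.natDegree := by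
          rw [map_mul, aeval_C, map_mul, w.triv _ (leadingCoeff_ne_zero.2 hp), one_mul, map_pow,
            aeval_X, map_pow]
        conv_lhs => rw [← h1, map_add]
        by_cases he : p.eraseLead = 0
        · rw [he, map_zero, zero_add, hlc]
        · have h2 : p.eraseLead.natDegree < n := by
            have := eraseLead_natDegree_lt_or_eraseLead_eq_zero p
            rcases this with h | h
            · omega
            · exact absurd h he
          have h3 := ih _ h2 p.eraseLead rfl he
          rw [Valuation.map_add_eq_of_lt_right, hlc]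
          rw [h3, hlc]
          exact pow_lt_pow_right₀ hw (by omega)
  exact key _ p rfl hp

end Pool.Agent.Helper47.EN

end

section

set_option autoImplicit false

set_option linter.style.haveILetI false

namespace Pool.Agent.Helper47.EN

open Pool.Agent.Helper16 Pool.Agent.Helper45.S4 Pool.Agent.Helper47.RR IntermediateField

variable {k M : Type} [Field k] [Field M] [Algebra k M]

section main

variable [IsAlgClosed k] (hM : IsFunctionField k M)

/-- a power of a non-surjective endomorphism does not fix a transcendental function -/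
theorem surjective_of_pow_eq (hM : IsFunctionField k M) (φ : M →ₐ[k] M) (h : M)
    (hh : Transcendental k h) (i : ℕ) (hi : 1 ≤ i) (heq : (φ ^ i) h = h) :
    Function.Surjective φ := by
  haveI : FiniteDimensional k⟮h⟯ M := hM.finiteDimensional h hh
  have hfix : ∀ x ∈ k⟮h⟯, (φ ^ i) x = x := by
    intro x hx
    let S : IntermediateField k M :=
      { carrier := {x | (φ ^ i) x = x}
        mul_mem' := fun {a b} ha hb => by
          change (φ ^ i) (a * b) = a * b
          rw [map_mul]
          exact congrArg₂ _ ha hb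
        add_mem' := fun {a b} ha hb => by
          change (φ ^ i) (a + b) = a + b
          rw [map_add]
          exact congrArg₂ _ ha hb
        algebraMap_mem' := fun c => (φ ^ i).commutes c
        inv_mem' := fun a ha => by
          change (φ ^ i) a⁻¹ = a⁻¹
          rw [map_inv₀]
          exact congrArg _ ha }
    have hS : k⟮h⟯ ≤ S := by
      rw [adjoin_simple_le_iff]
      exact heq
    exact hS hx
  let f : M →ₗ[k⟮h⟯] M :=
    { toFun := fun x => (φ ^ i) x
      map_add' := fun x y => map_add (φ ^ i) x y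
      map_smul' := fun c x => by
        change (φ ^ i) (c • x) = c • (φ ^ i) x
        rw [Algebra.smul_def, map_mul, Algebra.smul_def]
        congr 1
        exact hfix _ c.2 }
  have hinj : Function.Injective f := (φ ^ i).toRingHom.injective
  have hsurj := LinearMap.surjective_of_injective hinj
  intro y
  obtain ⟨x, hx⟩ := hsurj y
  obtain ⟨n, rfl⟩ : ∃ n, i = n + 1 := ⟨i - 1, by omega⟩
  refine ⟨(φ ^ n) x, ?_⟩
  rw [← hx]
  change _ = (φ ^ (n + 1)) x
  rw [pow_succ']
  rfl

end main

end Pool.Agent.Helper47.EN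

end

section

set_option autoImplicit false

set_option linter.style.haveILetI false

namespace Pool.Agent.Helper34.Dep

open Polynomial Pool.Agent.Helper16 Pool.Agent.Helper47.RR Pool.Agent.Helper61.BBGermA

open scoped Polynomial.Bivariate

/-- the place below a germ -/
theorem Germ.exists_place {k K : Type} [Field k] [Field K] [Algebra k K] (g : Germ k K)
    {M : Type} [Field M] [Algebra k M] (hM : IsFunctionField k M) (φ : M →ₐ[k] K) :
    ∃ w : Place k M, (∀ u, w.val u ≤ 1 ↔ φ u ∈ g.O) ∧ ∀ u a, Pv w u a ↔ g.Val (φ u) a := by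
  have hex : ∃ y : M, φ y ∉ g.O := by
    by_contra hcon
    push Not at hcon
    let f : M →+* k := g.red.comp ((φ : M →+* K).codRestrict g.O.toSubring hcon)
    let F : M →ₐ[k] k := { f with
      commutes' := fun a => by
        obtain ⟨h, ha⟩ := g.red_const a
        change g.red ⟨φ (algebraMap k M a), _⟩ = a
        simp only [AlgHom.commutes]
        exact ha }
    obtain ⟨s, hs⟩ := Pool.Agent.Helper45.S4.exists_transcendental hM
    have h1 : IsAlgebraic k (F s) := isAlgebraic_algebraMap (R := k) (A := k) (F s)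
    exact hs ((isAlgebraic_algHom_iff F F.toRingHom.injective).1 h1)
  obtain ⟨y, hy⟩ := hex
  obtain ⟨w, hw⟩ := hM.exists_place (g.comap φ).O (fun a => (g.comap φ).const_mem a) y hy
  have hw' : ∀ u, w.val u ≤ 1 ↔ φ u ∈ g.O := fun u => hw u
  refine ⟨w, hw', fun u a => ?_⟩
  rw [g.val_iff, ← AlgHom.commutes φ, ← map_sub]
  unfold Pv
  set x := u - algebraMap k M a
  by_cases hx : x = 0
  · rw [hx, map_zero, map_zero]
    constructor
    · intro _
      rw [← g.val_zero_iff]; exact g.val_zero
    · intro _; exact zero_lt_one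
  have h1 : w.val x < 1 ↔ ¬ w.val x⁻¹ ≤ 1 := by
    rw [map_inv₀, not_le, one_lt_inv₀ (zero_lt_iff.2 (by simpa using hx))]
  rw [h1, hw', map_inv₀, ValuationSubring.mem_nonunits_iff, ← g.O.valuation_le_one_iff, map_inv₀,
    not_le, one_lt_inv₀]
  rw [zero_lt_iff]
  simpa using hx

end Pool.Agent.Helper34.Dep

end

section

set_option autoImplicit false

set_option linter.style.haveILetI false

namespace Pool.Agent.Helper64.Dep

open Polynomial Pool.Agent.Helper16 Pool.Agent.Helper47.RR IntermediateField

open Pool.Agent.Helper34.Dep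

open scoped Polynomial.Bivariate

section PD

variable {k M M' : Type} [Field k] [Field M] [Field M'] [Algebra k M] [Algebra k M']
  (hM : IsFunctionField k M) (hM' : IsFunctionField k M')

variable [IsAlgClosed k]

omit [Field M'] [Algebra k M'] in
theorem exists_algebraMap_of_isAlgebraic {a : M} (ha : IsAlgebraic k a) :
    ∃ c : k, algebraMap k M c = a := by
  haveI h1 : Algebra.IsAlgebraic k k⟮a⟯ := IntermediateField.isAlgebraic_adjoin fun x hx => by
    rw [Set.mem_singleton_iff.1 hx]
    exact ha.isIntegral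
  have h2 : Function.Bijective (algebraMap k k⟮a⟯) :=
    IsAlgClosed.algebraMap_bijective_of_isIntegral
  obtain ⟨c, hc⟩ := h2.2 ⟨a, IntermediateField.mem_adjoin_simple_self k a⟩
  exact ⟨c, congrArg Subtype.val hc⟩

end PD

end Pool.Agent.Helper64.Dep

end

section

set_option autoImplicit false

set_option linter.style.haveILetI false

namespace Pool.Agent.Helper34.Dep

open Polynomial Pool.Agent.Helper16 Pool.Agent.Helper47.RR IntermediateField Pool.Agent.Helper64.Dep

variable {k M M' K : Type} [Field k] [Field M] [Field M'] [Field K] [Algebra k M] [Algebra k M']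
  [Algebra k K]

/-- a finitely generated subfield containing a transcendental element is a function field -/
theorem isFunctionField_of_fg (htr : Algebra.trdeg k K = 1) (E : IntermediateField k K)
    (hE : E.FG) (s : K) (hs : s ∈ E) (hst : Transcendental k s) : IsFunctionField k E := by
  refine ⟨IntermediateField.essFiniteType_iff.2 hE, ?_⟩
  have h2 := trdeg_add_eq k E (A := K)
  have h3 : Algebra.trdeg k E ≠ 0 := by
    intro h
    rw [trdeg_eq_zero_iff] at h
    have h4 : IsAlgebraic k (⟨s, hs⟩ : E) := Algebra.IsAlgebraic.isAlgebraic _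
    exact hst (h4.algebraMap (A := K))
  refine le_antisymm ?_ (Cardinal.one_le_iff_ne_zero.2 h3)
  calc Algebra.trdeg k E ≤ _ + _ := le_self_add
    _ = 1 := by rw [h2, htr]

end Pool.Agent.Helper34.Dep

end

section

set_option autoImplicit false

set_option linter.style.haveILetI false

namespace Pool.Agent.Helper34.Dep

open Polynomial Pool.Agent.Helper16 Pool.Agent.Helper47.RR IntermediateField Pool.Agent.Helper64.Dep

section

variable {k : Type} [Field k] (g : k ≃+* k) (M : Type) [Field M] [Algebra k M]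

variable {M}

/-- twisted place -/
def twPlace (w : Place k M) : Place k (Tw g M) where
  val := w.val
  surj := w.surj
  triv := fun a ha => w.triv (g a) (by simpa using ha)

theorem twPlace_Pv (w : Place k M) (u : M) (a : k) :
    Pv (twPlace g w) (toTw g M u) a ↔ Pv w u (g a) := Iff.rfl

end

end Pool.Agent.Helper34.Dep

end

section

set_option autoImplicit false

set_option linter.style.haveILetI false

namespace Pool.Agent.Helper34.Dep

open Polynomial Pool.Agent.Helper16 Pool.Agent.Helper47.RR IntermediateField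

variable {k K B : Type} [Field k] [Field K] [Field B] [Algebra k K] [Algebra k B]

theorem exists_hom [IsAlgClosed B] (T : K) (hT : Transcendental k T)
    [Algebra.IsAlgebraic k⟮T⟯ K] (u : B) (hu : Transcendental k u) :
    ∃ ρ : K →ₐ[k] B, ρ T = u := by
  letI := algXF k T
  haveI := isFractionRing_algXF T hT
  have hinj : Function.Injective ((aeval u : k[X] →ₐ[k] B) : k[X] →+* B) :=
    transcendental_iff_injective.1 hu
  let θ : k⟮T⟯ →+* B := IsFractionRing.lift hinj
  have hθ : ∀ p : k[X], θ (algebraMap k[X] k⟮T⟯ p) = aeval u p :=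
    fun p => IsFractionRing.lift_algebraMap hinj p
  obtain ⟨ρ, hρ⟩ := exists_extension (A := K) θ
  have hρ' : ∀ p : k[X], ρ (aeval T p) = aeval u p := by
    intro p
    rw [← hθ, ← hρ, RingHom.comp_apply]
    congr 1
    exact (algXF_apply T p).symm
  refine ⟨{ ρ with commutes' := fun c => ?_ }, ?_⟩
  · have := hρ' (C c)
    rw [aeval_C, aeval_C] at this
    exact this
  · have := hρ' X
    rw [aeval_X, aeval_X] at this
    exact this

theorem exists_aut [IsAlgClosed K] (htr : Algebra.trdeg k K = 1) (T : K)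
    (hT : Transcendental k T) (u : K) (hu : Transcendental k u) : ∃ ρ : K ≃ₐ[k] K, ρ T = u := by
  haveI := isAlgebraic_of_trdeg htr k⟮T⟯ T (mem_adjoin_simple_self k T) hT
  obtain ⟨ρ, hρ⟩ := exists_hom (k := k) T hT u hu
  exact ⟨AlgEquiv.ofBijective ρ ⟨ρ.toRingHom.injective, alg_end_surjective htr T hT ρ⟩, hρ⟩

end Pool.Agent.Helper34.Dep

end

section

set_option autoImplicit false

set_option linter.style.haveILetI false

namespace Pool.Agent.Helper34.Dep

open Polynomial Pool.Agent.Helper16 Pool.Agent.Helper47.RR IntermediateField Pool.Agent.Helper64.Dep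
  Pool.Agent.Helper93.RatODE Pool.Agent.Helper47.EN

open scoped Polynomial.Bivariate

section aux

variable {k K : Type} [Field k] [Field K] [Algebra k K]

theorem iter_fK (F G : k[X]) (d : ℕ) (hF : F.natDegree ≤ d) (hG : G.natDegree ≤ d) (u : K) (n : ℕ)
    (h : ∀ i < n, aeval ((fK F G)^[i] u) G ≠ 0) :
    aeval u (iter F G d n).2 ≠ 0 ∧
      (fK F G)^[n] u * aeval u (iter F G d n).2 = aeval u (iter F G d n).1 := by
  induction n with
  | zero => simp [iter]
  | succ n ih =>
    obtain ⟨h1, h2⟩ := ih fun i hi => h i (by omega)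
    have h3 := h n (by omega)
    have h4 : aeval u (iter F G d n).1 / aeval u (iter F G d n).2 = (fK F G)^[n] u := by
      rw [← h2, mul_div_assoc, div_self h1, mul_one]
    have e1 : aeval u (iter F G d (n + 1)).1 =
        aeval u (iter F G d n).2 ^ d * aeval ((fK F G)^[n] u) F := by
      change aeval u (hev F d (iter F G d n).1 (iter F G d n).2) = _
      rw [hev_map, hev_eq F d hF _ _ h1, h4]
    have e2 : aeval u (iter F G d (n + 1)).2 =
        aeval u (iter F G d n).2 ^ d * aeval ((fK F G)^[n] u) G := by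
      change aeval u (hev G d (iter F G d n).1 (iter F G d n).2) = _
      rw [hev_map, hev_eq G d hG _ _ h1, h4]
    refine ⟨?_, ?_⟩
    · rw [e2]; exact mul_ne_zero (pow_ne_zero _ h1) h3
    · rw [e1, e2, Function.iterate_succ_apply']
      change aeval ((fK F G)^[n] u) F / aeval ((fK F G)^[n] u) G * _ = _
      (clear * - h3 h1; field_simp)

end aux

end Pool.Agent.Helper34.Dep

end

section

set_option autoImplicit false

set_option linter.style.haveILetI false

set_option linter.unusedSectionVars false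

namespace Pool.Agent.Helper45.GW

open Polynomial IntermediateField Pool.Agent.Helper16 Pool.Agent.Helper33
  Pool.Agent.Helper45.FF Pool.Agent.Helper45.S4

section one

variable {k L : Type} [Field k] [Field L] [Algebra k L]

/-- one-units -/
def OU (v : Place k L) (δ : ℕ) (z : L) : Prop := v.val (z - 1) ≤ WithZero.exp (-(δ : ℤ))

variable {v : Place k L} {δ : ℕ}

theorem OU.val_eq_one (hδ : 1 ≤ δ) {z : L} (hz : OU v δ z) : v.val z = 1 := by
  have h1 : v.val (z - 1) < 1 := by
    refine lt_of_le_of_lt hz ?_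
    rw [← WithZero.exp_zero, WithZero.exp_lt_exp]
    omega
  have h2 : z = (z - 1) + 1 := by ring
  rw [h2, Valuation.map_add_eq_of_lt_right _ (by rw [map_one]; exact h1), map_one]

theorem OU.mul (hδ : 1 ≤ δ) {z z' : L} (hz : OU v δ z) (hz' : OU v δ z') : OU v δ (z * z') := by
  have h1 : z * z' - 1 = (z - 1) * z' + (z' - 1) := by ring
  unfold OU
  rw [h1]
  refine (v.val.map_add _ _).trans (max_le ?_ hz')
  rw [map_mul, hz'.val_eq_one hδ, mul_one]
  exact hz

theorem OU.one : OU v δ 1 := by
  unfold OU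
  rw [sub_self, map_zero]
  exact zero_le

theorem OU.inv (hδ : 1 ≤ δ) {z : L} (hz : OU v δ z) : OU v δ z⁻¹ := by
  have hv := hz.val_eq_one hδ
  have hz0 : z ≠ 0 := by
    rintro rfl
    rw [map_zero] at hv
    exact zero_ne_one hv
  have h1 : z⁻¹ - 1 = -((z - 1) * z⁻¹) := by field_simp; ring
  unfold OU
  rw [h1, Valuation.map_neg, map_mul, map_inv₀, hv, inv_one, mul_one]
  exact hz

theorem OU.pow (hδ : 1 ≤ δ) {z : L} (hz : OU v δ z) (n : ℕ) : OU v δ (z ^ n) := by
  induction n with
  | zero => rw [pow_zero]; exact OU.one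
  | succ n ih => rw [pow_succ]; exact ih.mul hδ hz

theorem OU.zpow (hδ : 1 ≤ δ) {z : L} (hz : OU v δ z) (n : ℤ) : OU v δ (z ^ n) := by
  cases n with
  | ofNat n => rw [Int.ofNat_eq_natCast, zpow_natCast]; exact hz.pow hδ n
  | negSucc n => rw [zpow_negSucc]; exact (hz.pow hδ _).inv hδ

end one

end Pool.Agent.Helper45.GW

end

section

set_option autoImplicit false

open Finset Polynomial

namespace Pool.Agent.Helper98.PS

open Pool.Agent.Helper33 Pool.Agent.Helper33.PS Pool.Agent.Helper93.RatODE Pool.Agent.Helper55.RD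

variable {K : Type*} [Field K]

section scaling

/-- choice of the normalising coefficient -/
lemma exists_min_coeff (v : DV K) {A B : K[X]} (h : A ≠ 0 ∨ B ≠ 0) :
    ∃ c : K, c ≠ 0 ∧ (∀ i, v.ge (v.o c) (A.coeff i)) ∧ (∀ i, v.ge (v.o c) (B.coeff i)) ∧
      ∃ i, A.coeff i = c ∨ B.coeff i = c := by
  classical
  set T : Finset K := ((A.support.image A.coeff) ∪ (B.support.image B.coeff)) with hT
  have hTne : T.Nonempty := by
    rcases h with h | h
    · obtain ⟨i, hi⟩ := Polynomial.support_nonempty.mpr h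
      exact ⟨A.coeff i, mem_union_left _ (mem_image_of_mem _ hi)⟩
    · obtain ⟨i, hi⟩ := Polynomial.support_nonempty.mpr h
      exact ⟨B.coeff i, mem_union_right _ (mem_image_of_mem _ hi)⟩
  obtain ⟨c, hcT, hc⟩ := exists_min_image T v.o hTne
  have hA : ∀ i, v.ge (v.o c) (A.coeff i) := by
    intro i
    by_cases h0 : A.coeff i = 0
    · exact Or.inl h0
    · right
      exact_mod_cast hc _ (mem_union_left _ (mem_image_of_mem _ (Polynomial.mem_support_iff.mpr h0)))
  have hB : ∀ i, v.ge (v.o c) (B.coeff i) := by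
    intro i
    by_cases h0 : B.coeff i = 0
    · exact Or.inl h0
    · right
      exact_mod_cast hc _ (mem_union_right _ (mem_image_of_mem _ (Polynomial.mem_support_iff.mpr h0)))
  rw [hT, mem_union, mem_image, mem_image] at hcT
  rcases hcT with ⟨i, hi, h1⟩ | ⟨i, hi, h1⟩
  · exact ⟨c, h1 ▸ Polynomial.mem_support_iff.mp hi, hA, hB, i, Or.inl h1⟩
  · exact ⟨c, h1 ▸ Polynomial.mem_support_iff.mp hi, hA, hB, i, Or.inr h1⟩

end scaling

end Pool.Agent.Helper98.PS

end

section

set_option autoImplicit false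

open Polynomial Finset Pool.Agent.Helper33 Pool.Agent.Helper33.PS Pool.Agent.Helper55.RD
  Pool.Agent.Helper93.RatODE

namespace Pool.Agent.Helper82.PS

section tele

variable {K : Type*} [Field K] {v : DV K} {d : ℕ} {A B : K[X]}

lemma iter_eval_succ (hA : A.natDegree ≤ d) (hB : B.natDegree ≤ d) (m : ℕ) {x : K}
    (hx : (iter A B d m).2.eval x ≠ 0) :
    (iter A B d (m + 1)).1.eval x =
        (iter A B d m).2.eval x ^ d * A.eval ((iter A B d m).1.eval x / (iter A B d m).2.eval x) ∧
      (iter A B d (m + 1)).2.eval x =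
        (iter A B d m).2.eval x ^ d * B.eval ((iter A B d m).1.eval x / (iter A B d m).2.eval x) := by
  constructor
  · change (hev A d (iter A B d m).1 (iter A B d m).2).eval x = _
    rw [hev_eval, hev_eq_eval A d hA _ _ hx]
  · change (hev B d (iter A B d m).1 (iter A B d m).2).eval x = _
    rw [hev_eval, hev_eq_eval B d hB _ _ hx]

/-- the orbit of a generic point -/
lemma exists_orb (hA : A.natDegree ≤ d) (hB : B.natDegree ≤ d) {x : K} {n : ℕ}
    (hx : ∀ m ≤ n, (iter A B d m).2.eval x ≠ 0) : ∃ z : ℕ → K, z 0 = x ∧ Orb A B z n := by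
  refine ⟨fun m => (iter A B d m).1.eval x / (iter A B d m).2.eval x, by simp [iter], ?_, ?_⟩
  · intro j hj h0
    have h1 := (iter_eval_succ hA hB j (hx j (by omega))).2
    rw [h0, mul_zero] at h1
    exact hx (j + 1) (by omega) h1
  · intro j hj
    obtain ⟨h1, h2⟩ := iter_eval_succ hA hB j (hx j (by omega))
    rw [h1, h2, mul_div_mul_left _ _ (pow_ne_zero _ (hx j (by omega)))]

lemma iter_ne_zero (hd : 1 ≤ d) (h : IsRat A B d) (m : ℕ) : (iter A B d m).2 ≠ 0 := by
  intro h0
  have h1 := iter_isCoprime h.cop h.dA h.dB h.top m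
  have h2 := iter_coeff h.cop h.dA h.dB h.top m
  rw [h0, isCoprime_zero_right] at h1
  rw [h0, coeff_zero] at h2
  have h3 : (iter A B d m).1.coeff (d ^ m) ≠ 0 := by
    rcases h2 with h2 | h2
    · exact h2
    · exact absurd rfl h2
  have h4 := natDegree_eq_zero_of_isUnit h1
  have h5 := le_natDegree_of_ne_zero h3
  have h6 : 1 ≤ d ^ m := Nat.one_le_pow _ _ hd
  omega

/-- the product of the denominators of the first iterates -/
noncomputable def GG (A B : K[X]) (d n : ℕ) : K[X] := ∏ m ∈ range (n + 1), (iter A B d m).2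

lemma GG_ne_zero (hd : 1 ≤ d) (h : IsRat A B d) (n : ℕ) : GG A B d n ≠ 0 :=
  prod_ne_zero_iff.mpr fun m _ => iter_ne_zero hd h m

lemma exists_orb' (h : IsRat A B d) {x : K} {n : ℕ} (hx : (GG A B d n).eval x ≠ 0) :
    ∃ z : ℕ → K, z 0 = x ∧ Orb A B z n := by
  apply exists_orb h.dA h.dB
  intro m hm h0
  apply hx
  rw [GG, eval_prod]
  exact prod_eq_zero (mem_range.mpr (Nat.lt_succ_of_le hm)) h0

end tele

end Pool.Agent.Helper82.PS

end

section

set_option autoImplicit false

set_option linter.unusedSectionVars false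

open Finset Polynomial

namespace Pool.Agent.Helper36.S5

variable {κ : Type*} [Field κ]

/-- every rational map of degree `≥ 2` has a special fixed point -/
theorem Rat.hasSpecial [IsAlgClosed κ] [CharZero κ] {A B : κ[X]} {d : ℕ} (h : Rat A B d)
    (hd : 2 ≤ d) : HasSpecial A B d := by
  classical
  by_contra hcon
  rw [HasSpecial, not_or] at hcon
  obtain ⟨hinfty, hfin⟩ := hcon
  have hnot : ∀ {α β : κ}, ¬ Special α β → α ≠ 0 → α - β ≠ 0 ∧
      (β / α = 0 ∨ (β / α ≠ 1 ∧ ∃ n : ℕ, 0 < n ∧ (β / α) ^ n = 1)) := by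
    intro α β hS hα
    by_cases hβ : β = 0
    · rw [hβ]; simp [hα]
    · rw [Special, not_and, not_or] at hS
      obtain ⟨h1, h2⟩ := hS hβ
      push Not at h2
      obtain ⟨n, hn, h3⟩ := h2
      refine ⟨sub_ne_zero.mpr h1, Or.inr ⟨?_, n, hn, ?_⟩⟩
      · intro h4
        rw [div_eq_one_iff_eq hα] at h4
        exact h1 h4.symm
      · rw [div_pow, h3, div_self (pow_ne_zero n hβ)]
  set p : κ[X] := X * B - A with hp
  have hroot : ∀ x, p.eval x = 0 → A.eval x = x * B.eval x ∧ B.eval x ≠ 0 := by
    intro x hx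
    have h1 : A.eval x = x * B.eval x := by
      rw [hp, eval_sub, eval_mul, eval_X, sub_eq_zero] at hx; exact hx.symm
    refine ⟨h1, fun h2 => ?_⟩
    rw [h2, mul_zero] at h1
    exact eval_ne_of_coprime h.cop h1 h2
  have hder : ∀ x, (derivative p).eval x =
      B.eval x - ((derivative A).eval x - x * (derivative B).eval x) := by
    intro x
    rw [hp, derivative_sub, derivative_mul, derivative_X]
    simp
    ring
  have hxs : ∀ x, p.eval x = 0 → ¬ Special (B.eval x)
      ((derivative A).eval x - x * (derivative B).eval x) := by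
    intro x hx hS
    obtain ⟨h1, h2⟩ := hroot x hx
    exact hfin ⟨x, h1, h2, hS⟩
  have hsep : ∀ x, p.eval x = 0 → (derivative p).eval x ≠ 0 := by
    intro x hx
    rw [hder]
    exact (hnot (hxs x hx) (hroot x hx).2).1
  have hterm : ∀ x ∈ p.roots.toFinset, B.eval x / (derivative p).eval x =
      1 / (1 - ((derivative A).eval x - x * (derivative B).eval x) / B.eval x) := by
    intro x hx
    rw [Multiset.mem_toFinset] at hx
    have hx0 : p.eval x = 0 := (mem_roots'.mp hx).2
    have h2 := (hroot x hx0).2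
    have h3 := hsep x hx0
    rw [hder] at h3 ⊢
    field_simp
  have hl : ∀ x ∈ p.roots.toFinset,
      (((derivative A).eval x - x * (derivative B).eval x) / B.eval x = 0 ∨
      (((derivative A).eval x - x * (derivative B).eval x) / B.eval x ≠ 1 ∧ ∃ n : ℕ, 0 < n ∧
        (((derivative A).eval x - x * (derivative B).eval x) / B.eval x) ^ n = 1)) := by
    intro x hx
    rw [Multiset.mem_toFinset] at hx
    have hx0 : p.eval x = 0 := (mem_roots'.mp hx).2
    exact (hnot (hxs x hx0) (hroot x hx0).2).2
  have lXB : Lead (X * B) (d + 1) (B.coeff d) :=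
    ((Lead.X').mul (Lead.of_le h.dB)).cast (by ring) (by ring)
  have lA : Lead A (d + 1) 0 := (Lead.of_le h.dA).lt (Nat.lt_succ_self d)
  by_cases hBd : B.coeff d = 0
  · -- infinity is fixed
    have hAd : A.coeff d ≠ 0 := by
      rcases h.top with h1 | h1
      · exact h1
      · exact absurd hBd h1
    have hBdeg : B.natDegree ≤ d - 1 := by
      by_contra hcon2
      have h1 : B.natDegree = d := le_antisymm h.dB (by omega)
      have h2 : B.leadingCoeff = 0 := by rw [leadingCoeff, h1]; exact hBd
      exact h.B0 (by omega) (leadingCoeff_eq_zero.mp h2)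
    have hS : ¬ Special (A.coeff d) (B.coeff (d - 1)) := fun hS => hinfty ⟨hAd, hBd, hS⟩
    obtain ⟨hne, hlam⟩ := hnot hS hAd
    have lp : Lead p d (B.coeff (d - 1) - A.coeff d) := by
      have h1 : Lead (X * B) d (B.coeff (d - 1)) :=
        ((Lead.X').mul (Lead.of_le hBdeg)).cast (by omega) (by ring)
      exact h1.sub (Lead.of_le h.dA)
    have hne' : B.coeff (d - 1) - A.coeff d ≠ 0 := by
      intro h1; apply hne; linear_combination -h1
    have hpn : p.natDegree = (d - 1) + 1 := by rw [lp.natDegree_eq hne']; omega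
    obtain ⟨hcard, hsum⟩ := lagrange_sum p B (d - 1) hpn hBdeg hsep
    have hpc : p.coeff (d - 1 + 1) = B.coeff (d - 1) - A.coeff d := by
      rw [show d - 1 + 1 = d by omega]; exact lp.2
    rw [hpc] at hsum
    let lam : Option κ → κ := fun o => match o with
      | none => B.coeff (d - 1) / A.coeff d
      | some x => ((derivative A).eval x - x * (derivative B).eval x) / B.eval x
    apply sum_ne_one (Finset.insertNone p.roots.toFinset) lam
    · intro o ho
      cases o with
      | none => exact hlam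
      | some x => exact hl x (by simpa using ho)
    · rw [Finset.card_insertNone, hcard]; omega
    · rw [Finset.sum_insertNone]
      have h1 : ∑ x ∈ p.roots.toFinset, 1 / (1 - lam (some x)) =
          ∑ x ∈ p.roots.toFinset, B.eval x / (derivative p).eval x :=
        sum_congr rfl fun x hx => (hterm x hx).symm
      rw [h1, hsum]
      change 1 / (1 - B.coeff (d - 1) / A.coeff d) + _ = 1
      have h2 : 1 - B.coeff (d - 1) / A.coeff d = (A.coeff d - B.coeff (d - 1)) / A.coeff d := by
        field_simp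
      rw [h2, one_div_div, ← neg_sub (A.coeff d), div_neg, ← sub_eq_add_neg, ← sub_div,
        div_self hne]
  · have lp : Lead p (d + 1) (B.coeff d) := (lXB.sub lA).cast rfl (by ring)
    have hpn : p.natDegree = d + 1 := lp.natDegree_eq hBd
    obtain ⟨hcard, hsum⟩ := lagrange_sum p B d hpn h.dB hsep
    rw [lp.2, div_self hBd] at hsum
    apply sum_ne_one p.roots.toFinset
      (fun x => ((derivative A).eval x - x * (derivative B).eval x) / B.eval x) hl
    · rw [hcard]; omega
    · refine Eq.trans ?_ hsum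
      exact sum_congr rfl fun x hx => (hterm x hx).symm

end Pool.Agent.Helper36.S5

end

section

set_option autoImplicit false

open Finset Polynomial

namespace Pool.Agent.Helper36.PS

open Pool.Agent.Helper33 Pool.Agent.Helper33.PS Pool.Agent.Helper36.S5

variable {k E : Type*} [Field k] [Field E] [Algebra k E]

/-- clearing denominators -/
lemma exists_clear {w : DV E} {t : E} (ht : t ≠ 0) (hot : 0 < w.o t) (P : E[X][X]) :
    ∃ N : ℕ, ∀ i j, w.ge 0 (t ^ N * (P.coeff i).coeff j) := by
  classical
  refine ⟨∑ i ∈ P.support, ∑ j ∈ (P.coeff i).support, (-(w.o ((P.coeff i).coeff j))).toNat,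
    fun i j => ?_⟩
  by_cases h0 : (P.coeff i).coeff j = 0
  · rw [h0, mul_zero]; exact DV.ge_zero _
  · right
    rw [w.mul _ _ (pow_ne_zero _ ht) h0, w.o_pow t ht]
    have hi : i ∈ P.support := by
      rw [mem_support_iff]; intro h; rw [h] at h0; exact h0 (by simp)
    have hj : j ∈ (P.coeff i).support := by rw [mem_support_iff]; exact h0
    set N := ∑ i ∈ P.support, ∑ j ∈ (P.coeff i).support, (-(w.o ((P.coeff i).coeff j))).toNat
      with hN
    have h1 : (-(w.o ((P.coeff i).coeff j))).toNat ≤ N := by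
      calc (-(w.o ((P.coeff i).coeff j))).toNat
          ≤ ∑ j ∈ (P.coeff i).support, (-(w.o ((P.coeff i).coeff j))).toNat :=
            Finset.single_le_sum (f := fun j => (-(w.o ((P.coeff i).coeff j))).toNat)
              (fun _ _ => Nat.zero_le _) hj
        _ ≤ N := Finset.single_le_sum
            (f := fun i => ∑ j ∈ (P.coeff i).support, (-(w.o ((P.coeff i).coeff j))).toNat)
              (fun _ _ => Nat.zero_le _) hi
    have h2 : -(w.o ((P.coeff i).coeff j)) ≤ (N : ℤ) := by
      have h3 := Int.self_le_toNat (-(w.o ((P.coeff i).coeff j)))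
      have h4 : (((-(w.o ((P.coeff i).coeff j))).toNat : ℕ) : ℤ) ≤ (N : ℤ) := by
        exact_mod_cast h1
      (clear * - h1 h3; linarith)
    have h3 : (N : ℤ) * 1 ≤ N * w.o t := mul_le_mul_of_nonneg_left (by omega) (by (clear * -; positivity))
    have h4 : (0 : ℤ) ≤ N * w.o t + w.o ((P.coeff i).coeff j) := by (clear * - h2 h3; linarith)
    exact_mod_cast h4

end Pool.Agent.Helper36.PS

end

section

set_option autoImplicit false

open Finset Polynomial

namespace Pool.Agent.Helper36.PS

open Pool.Agent.Helper33 Pool.Agent.Helper33.PS Pool.Agent.Helper36.S5 Pool.Agent.Helper93.RatODE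

/-- two rational functions of the same degree which agree at many points -/
lemma proportional {k : Type*} [Field k] {A B A' B' : k[X]} {d : ℕ} (hd : 1 ≤ d)
    (h : Rat A B d) (h' : Rat A' B' d) (heq : A * B' = A' * B) :
    ∃ u : k, u ≠ 0 ∧ A' = C u * A ∧ B' = C u * B := by
  have hB0 := h.B0 hd
  have h1 : B ∣ B' := h.cop.symm.dvd_of_dvd_mul_left ⟨A', by rw [heq]; ring⟩
  have h2 : B' ∣ B := h'.cop.symm.dvd_of_dvd_mul_left ⟨A, by rw [← heq]; ring⟩
  obtain ⟨s, hs⟩ := h1
  obtain ⟨t, ht⟩ := h2
  have hst : s * t = 1 := by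
    apply mul_left_cancel₀ hB0
    rw [← mul_assoc, ← hs, ← ht, mul_one]
  have hsu : IsUnit s := IsUnit.of_mul_eq_one _ hst
  obtain ⟨u, hu, hus⟩ := Polynomial.isUnit_iff.mp hsu
  refine ⟨u, hu.ne_zero, ?_, ?_⟩
  · apply mul_right_cancel₀ hB0
    rw [← heq, hs, hus]; ring
  · rw [hs, hus]; ring

end Pool.Agent.Helper36.PS

end

section

set_option autoImplicit false

open Finset Polynomial

namespace Pool.Agent.Helper79.PT

open Pool.Agent.Helper45.FR Pool.Agent.Helper33.UB Pool.Agent.Helper51.RatTree Pool.Agent.Helper93.RatODE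
  Pool.Agent.Helper33.PS Pool.Agent.Helper55.RD

/-- T-RIC: a relation on a dense subset of a long window gives a Riccati equation on the tail -/
theorem riccati_tail (d r : ℕ) (hd : 2 ≤ d) : ∃ n₀ : ℕ, ∀ {K : Type} [Field K] [DecidableEq K] {D : K → K}
    (_ : ∀ x y, D (x + y) = D x + D y) (_ : ∀ x y, D (x * y) = x * D y + y * D x)
    {F G : K[X]} (_ : IsRat F G d) {x : ℕ → K} (_ : ∀ j, G.eval (x j) ≠ 0)
    (_ : ∀ j, x (j + 1) = F.eval (x j) / G.eval (x j)) (a w : ℕ) (_ : n₀ ≤ w)
    (_ : Set.InjOn x (Set.Icc a (a + w))) (s : Finset ℕ) (_ : s ⊆ Finset.Ico a (a + w))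
    (_ : 9 * w ≤ 10 * s.card) (_ : Pool.Agent.Helper33.UB.Rel D r (s.image x)),
    ∃ i, a ≤ i ∧ i ≤ a + w ∧ ∃ α β γ : K, ∀ j, i ≤ j → D (x j) = α * x j ^ 2 + β * x j + γ := by
  refine ⟨2 * ((r + 1) * d ^ (r + 1) + 4 * d + 10 * r + 20), ?_⟩
  intro K _ _ D hadd hmul F G hFG x hne hstep a w hw hinj s hs hcard hrel
  have hmaxdeg : max F.natDegree G.natDegree = d := by
    rcases hFG.top with h | h
    · have := le_natDegree_of_ne_zero h
      have := hFG.dA
      have := hFG.dB
      omega
    · have := le_natDegree_of_ne_zero h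
      have := hFG.dA
      have := hFG.dB
      omega
  obtain ⟨U, W, hUW, hU, hW, hUWtop, hit, -⟩ := exists_iterate hFG.cop hFG.dA hFG.dB hmaxdeg
    (by omega : 1 ≤ d) (r + 1)
  have hit' := hit x (fun i => ⟨hne i, hstep i⟩)
  set Λ := s.filter fun j => j + (r + 1) ∈ s with hΛ
  have hΛc : 2 * s.card ≤ Λ.card + (w + (r + 1)) := card_shift a w (r + 1) s hs
  have hIcc : ∀ j ∈ s, j ∈ Set.Icc a (a + w) := fun j hj => by
    have := Finset.mem_Ico.mp (hs hj)
    exact ⟨this.1, this.2.le⟩
  have hΛs : ∀ j ∈ Λ, j ∈ s ∧ j + (r + 1) ∈ s := fun j hj => mem_filter.mp hj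
  obtain ⟨A, Cp, h0, hA, hAr, hC, hrel⟩ := hrel
  have hinj1 : Set.InjOn x (Λ : Set ℕ) := fun i hi j hj e =>
    hinj (hIcc i (hΛs i hi).1) (hIcc j (hΛs j hj).1) e
  have hinj2 : Set.InjOn (fun j => x (j + (r + 1))) (Λ : Set ℕ) := fun i hi j hj e => by
    have := hinj (hIcc _ (hΛs i hi).2) (hIcc _ (hΛs j hj).2) e
    omega
  have himg : (Λ.image x).image (fun y => U.eval y / W.eval y) = Λ.image fun j => x (j + (r + 1)) := by
    rw [image_image]
    apply image_congr
    intro j _
    exact (hit' j).2
  have hc1 : (Λ.image x).card = Λ.card := card_image_of_injOn hinj1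
  have hc2 : (Λ.image fun j => x (j + (r + 1))).card = Λ.card := card_image_of_injOn hinj2
  have hΛbig : (r + 1) * d ^ (r + 1) + 2 * r + 5 < Λ.card := by omega
  obtain ⟨α, β, γ, hαβ⟩ := riccati_of_ode hadd hmul hUW hU hW hUWtop r (by
      calc r < 2 ^ r := Nat.lt_two_pow_self
        _ ≤ 2 ^ (r + 1) := Nat.pow_le_pow_right (by norm_num) (by omega)
        _ ≤ d ^ (r + 1) := Nat.pow_le_pow_left hd _) (Λ.image x) (by
      intro y hy
      obtain ⟨j, hj, rfl⟩ := mem_image.mp hy
      exact (hit' j).1) (by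
      rw [hc1]; omega) (by
      rw [himg, hc2]
      have : 1 ≤ (r + 1) * d ^ (r + 1) := Nat.mul_pos (by omega) (by positivity)
      omega) h0 hA hAr hC (by
      intro y hy
      obtain ⟨j, hj, rfl⟩ := mem_image.mp hy
      rw [(hit' j).2]
      exact hrel _ (mem_image_of_mem _ (hΛs j hj).2)) h0 hA hC (by
      intro y hy
      obtain ⟨j, hj, rfl⟩ := mem_image.mp hy
      exact hrel _ (mem_image_of_mem _ (hΛs j hj).1))
  rw [himg] at hαβ
  -- the good indices
  set s' := s.filter fun i => D (x i) = α * x i ^ 2 + β * x i + γ with hs'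
  have hs'Ico : s' ⊆ Finset.Ico a (a + w) := (filter_subset _ _).trans hs
  have hs'c : Λ.card ≤ s'.card + r := by
    have h3 := card_filter_add_card_filter_not (s := Λ)
      (fun j => D (x (j + (r + 1))) = α * x (j + (r + 1)) ^ 2 + β * x (j + (r + 1)) + γ)
    have h4 : (Λ.filter fun j => ¬ (D (x (j + (r + 1))) = α * x (j + (r + 1)) ^ 2 +
        β * x (j + (r + 1)) + γ)).card ≤ r := by
      refine le_trans ?_ hαβ
      apply card_le_card_of_injOn (fun j => x (j + (r + 1)))
      · intro j hj
        have hj' := mem_filter.mp hj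
        exact mem_coe.mpr (mem_filter.mpr ⟨mem_image_of_mem _ hj'.1, hj'.2⟩)
      · intro i hi j hj e
        exact hinj2 (mem_filter.mp hi).1 (mem_filter.mp hj).1 e
    have h5 : (Λ.filter fun j => D (x (j + (r + 1))) = α * x (j + (r + 1)) ^ 2 +
        β * x (j + (r + 1)) + γ).card ≤ s'.card := by
      apply card_le_card_of_injOn (fun j => j + (r + 1))
      · intro j hj
        obtain ⟨hj1, hj2⟩ := mem_filter.mp (mem_coe.mp hj)
        exact mem_coe.mpr (mem_filter.mpr ⟨(hΛs j hj1).2, hj2⟩)
      · intro i _ j _ e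
        simpa using e
    omega
  -- the polynomial identity
  set V : K[X] := C α * X ^ 2 + C β * X + C γ with hV
  have hVe : ∀ z, V.eval z = α * z ^ 2 + β * z + γ := fun z => by simp [hV]
  set Q : K[X] := (C α * F ^ 2 + C β * (F * G) + C γ * G ^ 2) -
    ((mapD D F * G - F * mapD D G) + (derivative F * G - F * derivative G) * V) with hQ
  have hQdeg : Q.natDegree ≤ 2 * d + 2 := by
    have dV : V.natDegree ≤ 2 := by
      rw [hV]
      refine natDegree_add_le_of_degree_le (natDegree_add_le_of_degree_le ?_ ?_) ?_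
      · exact natDegree_C_mul_X_pow_le _ _
      · exact (natDegree_C_mul_le _ _).trans (natDegree_X_le.trans (by norm_num))
      · rw [natDegree_C]; norm_num
    have dF := hFG.dA
    have dG := hFG.dB
    have m1 : (mapD D F).natDegree ≤ d := (mapD_natDegree D F).trans dF
    have m2 : (mapD D G).natDegree ≤ d := (mapD_natDegree D G).trans dG
    have m3 : (derivative F).natDegree ≤ d := (natDegree_derivative_le F).trans (by omega)
    have m4 : (derivative G).natDegree ≤ d := (natDegree_derivative_le G).trans (by omega)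
    have mm : ∀ {P R : K[X]} {p q : ℕ}, P.natDegree ≤ p → R.natDegree ≤ q → (P * R).natDegree ≤ p + q :=
      fun h1 h2 => natDegree_mul_le.trans (Nat.add_le_add h1 h2)
    have sb : ∀ {P R : K[X]} {p : ℕ}, P.natDegree ≤ p → R.natDegree ≤ p → (P - R).natDegree ≤ p :=
      fun h1 h2 => (natDegree_sub_le _ _).trans (max_le h1 h2)
    have ad : ∀ {P R : K[X]} {p : ℕ}, P.natDegree ≤ p → R.natDegree ≤ p → (P + R).natDegree ≤ p :=
      fun h1 h2 => natDegree_add_le_of_degree_le h1 h2
    have cm : ∀ {P : K[X]} {p : ℕ} (c : K), P.natDegree ≤ p → (C c * P).natDegree ≤ p :=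
      fun c h1 => (natDegree_C_mul_le _ _).trans h1
    rw [hQ]
    refine sb (ad (ad (cm _ ?_) (cm _ ?_)) (cm _ ?_)) (ad (sb ?_ ?_) ?_)
    · exact natDegree_pow_le.trans (by omega)
    · exact (mm dF dG).trans (by omega)
    · exact natDegree_pow_le.trans (by omega)
    · exact (mm m1 dG).trans (by omega)
    · exact (mm dF m2).trans (by omega)
    · exact (mm (sb (mm m3 dG) (mm dF m4)) dV).trans (by omega)
  have hQe : ∀ i, D (x i) = V.eval (x i) →
      Q.eval (x i) = G.eval (x i) ^ 2 * (V.eval (x (i + 1)) - D (x (i + 1))) := by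
    intro i hi
    have h1 := D_div hmul (u := F.eval (x i)) (hne i)
    rw [← hstep i, D_eval hadd hmul, D_eval hadd hmul, hi] at h1
    have h2 : x (i + 1) * G.eval (x i) = F.eval (x i) := by
      rw [hstep i, div_mul_cancel₀ _ (hne i)]
    have h3 : Q.eval (x i) = (α * F.eval (x i) ^ 2 + β * (F.eval (x i) * G.eval (x i)) +
        γ * G.eval (x i) ^ 2) - (((mapD D F).eval (x i) * G.eval (x i) -
        F.eval (x i) * (mapD D G).eval (x i)) + ((derivative F).eval (x i) * G.eval (x i) -
        F.eval (x i) * (derivative G).eval (x i)) * V.eval (x i)) := by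
      rw [hQ]
      simp only [eval_sub, eval_add, eval_mul, eval_pow, eval_C]
    rw [h3, hVe (x (i + 1))]
    rw [← h2]
    rw [← h2] at h1
    linear_combination h1
  have hQ0 : Q = 0 := by
    set s2 := s'.filter fun j => j + 1 ∈ s' with hs2
    have hs2c : 2 * s'.card ≤ s2.card + (w + 1) := card_shift a w 1 s' hs'Ico
    apply eq_zero_of_natDegree_lt_card_of_eval_eq_zero' Q (s2.image x)
    · intro y hy
      obtain ⟨i, hi, rfl⟩ := mem_image.mp hy
      obtain ⟨hi1, hi2⟩ := mem_filter.mp hi
      have e1 := (mem_filter.mp hi1).2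
      have e2 := (mem_filter.mp hi2).2
      rw [hQe i (by rw [hVe]; exact e1), hVe, ← e2, sub_self, mul_zero]
    · have hinj3 : Set.InjOn x (s2 : Set ℕ) := fun i hi j hj e =>
        hinj (hIcc i (mem_filter.mp (mem_filter.mp (mem_coe.mp hi)).1).1)
          (hIcc j (mem_filter.mp (mem_filter.mp (mem_coe.mp hj)).1).1) e
      rw [card_image_of_injOn hinj3]
      omega
  have hs'ne : s'.Nonempty := by
    rw [← card_pos]; omega
  obtain ⟨i, hi⟩ := hs'ne
  have hi1 := Finset.mem_Ico.mp (hs'Ico hi)
  refine ⟨i, hi1.1, hi1.2.le, α, β, γ, ?_⟩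
  intro j hj
  induction j, hj using Nat.le_induction with
  | base => exact (mem_filter.mp hi).2
  | succ j hj ih =>
    have h1 := hQe j (by rw [hVe]; exact ih)
    rw [hQ0, eval_zero] at h1
    have h2 := mul_eq_zero.mp h1.symm
    rcases h2 with h2 | h2
    · exact absurd h2 (pow_ne_zero 2 (hne j))
    · rw [← hVe]
      exact (sub_eq_zero.mp h2).symm

end Pool.Agent.Helper79.PT

end

section

set_option autoImplicit false

open Finset Polynomial

namespace Pool.Agent.Helper82.PT

open Pool.Agent.Helper33 Pool.Agent.Helper33.PS Pool.Agent.Helper33.PT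

/-- T-UNT: the coefficients of a normalised map are constants for `D` -/
theorem coeff_const_of_points {K : Type} [Field K] {D : K → K}
    (hadd : ∀ x y, D (x + y) = D x + D y) (hmul : ∀ x y, D (x * y) = x * D y + y * D x) {d : ℕ}
    {F G : K[X]} (hFG : IsRat F G d) (hnorm : ∃ i, F.coeff i = 1 ∨ G.coeff i = 1) (s : Finset K)
    (hs : 2 * d < s.card) (h : ∀ z ∈ s, D z = 0 ∧ G.eval z ≠ 0 ∧ D (F.eval z / G.eval z) = 0) :
    ∀ i, D (F.coeff i) = 0 ∧ D (G.coeff i) = 0 := by
  have hz : ∀ z ∈ s, ((pD D d F) * G - F * (pD D d G)).eval z = 0 := by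
    intro z hzs
    obtain ⟨h1, h2, h3⟩ := h z hzs
    have e1 : D (F.eval z) = F.eval z / G.eval z * D (G.eval z) := by
      have := hmul (F.eval z / G.eval z) (G.eval z)
      rw [div_mul_cancel₀ _ h2, h3] at this
      rw [this]; ring
    rw [pD_eval hadd hmul hFG.dA h1, pD_eval hadd hmul hFG.dB h1] at e1
    rw [eval_sub, eval_mul, eval_mul, e1]
    field_simp
    ring
  have hdeg : ((pD D d F) * G - F * (pD D d G)).natDegree ≤ 2 * d := by
    refine (natDegree_sub_le _ _).trans (max_le ?_ ?_)
    · exact natDegree_mul_le.trans (by have := pD_natDegree (D := D) d F; have := hFG.dB; omega)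
    · exact natDegree_mul_le.trans (by have := pD_natDegree (D := D) d G; have := hFG.dA; omega)
  have h0 : (pD D d F) * G - F * (pD D d G) = 0 :=
    eq_zero_of_natDegree_lt_card_of_eval_eq_zero' _ s hz (by omega)
  obtain ⟨a, b, hab⟩ := hFG.cop
  set la : K[X] := a * pD D d F + b * pD D d G with hla
  have hF1 : pD D d F = F * la := by
    rw [hla]
    linear_combination (-(pD D d F)) * hab + b * h0
  have hG1 : pD D d G = G * la := by
    rw [hla]
    linear_combination (-(pD D d G)) * hab - a * h0
  have hcst : la.natDegree = 0 := by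
    by_cases hl : la = 0
    · rw [hl, natDegree_zero]
    rcases hFG.top with ht | ht
    · have hF0 : F ≠ 0 := by rintro rfl; simp at ht
      have h1 : d ≤ F.natDegree := le_natDegree_of_ne_zero ht
      have h2 := pD_natDegree (D := D) d F
      rw [hF1, natDegree_mul hF0 hl] at h2
      omega
    · have hG0 : G ≠ 0 := by rintro rfl; simp at ht
      have h1 : d ≤ G.natDegree := le_natDegree_of_ne_zero ht
      have h2 := pD_natDegree (D := D) d G
      rw [hG1, natDegree_mul hG0 hl] at h2
      omega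
  obtain ⟨l, hl⟩ : ∃ l, la = C l := ⟨_, eq_C_of_natDegree_eq_zero hcst⟩
  have hFc : ∀ i, D (F.coeff i) = F.coeff i * l := by
    intro i
    rw [← pD_coeff hadd hFG.dA, hF1, hl, coeff_mul_C]
  have hGc : ∀ i, D (G.coeff i) = G.coeff i * l := by
    intro i
    rw [← pD_coeff hadd hFG.dB, hG1, hl, coeff_mul_C]
  have hl0 : l = 0 := by
    obtain ⟨i, hi | hi⟩ := hnorm
    · have := hFc i
      rw [hi, D_one hmul, one_mul] at this
      exact this.symm
    · have := hGc i
      rw [hi, D_one hmul, one_mul] at this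
      exact this.symm
  intro i
  rw [hFc, hGc, hl0]
  simp

end Pool.Agent.Helper82.PT

end

section

set_option autoImplicit false

open Finset Polynomial

namespace Pool.Agent.Helper43.PT

open Pool.Agent.Helper33 Pool.Agent.Helper45.FR Pool.Agent.Helper33.UB Pool.Agent.Helper51.RatTree
  Pool.Agent.Helper93.RatODE Pool.Agent.Helper33.PS Pool.Agent.Helper55.RD Pool.Agent.Helper98.PS

section local_

variable {K : Type} [Field K] {v : DV K} {F G : K[X]} {d : ℕ} {X : Finset K}

/-- sum of the complementary exponents -/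
lemma sum_exp (d κ : ℕ) : 2 * ∑ i : Fin (d ^ κ), ∑ t : Fin κ,
    ((d : ℝ) - 1 - ((finFunctionFinEquiv.symm i) t : ℕ)) = κ * (d : ℝ) ^ κ * (d - 1) := by
  have h1 : ∑ i : Fin (d ^ κ), ∑ t : Fin κ, ((d : ℝ) - 1 - ((finFunctionFinEquiv.symm i) t : ℕ)) =
      ∑ α : Fin κ → Fin d, ∑ t : Fin κ, ((d : ℝ) - 1 - (α t : ℕ)) :=
    Equiv.sum_comp finFunctionFinEquiv.symm (fun α : Fin κ → Fin d => ∑ t : Fin κ, ((d : ℝ) - 1 - (α t : ℕ)))
  have h2 : ∑ α : Fin κ → Fin d, ∑ t : Fin κ, ((d : ℝ) - 1 - (α t : ℕ)) =
      ∑ α : Fin κ → Fin d, ∑ t : Fin κ, ((α t : ℕ) : ℝ) := by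
    rw [← Equiv.sum_comp (Equiv.piCongrRight fun _ : Fin κ => (Fin.revPerm : Equiv.Perm (Fin d)))
      (fun α : Fin κ → Fin d => ∑ t : Fin κ, ((α t : ℕ) : ℝ))]
    refine sum_congr rfl fun α _ => sum_congr rfl fun t _ => ?_
    simp only [Equiv.piCongrRight_apply, Pi.map_apply, Fin.revPerm_apply, Fin.val_rev]
    rw [Nat.cast_sub (by have := (α t).2; omega)]
    push_cast
    ring
  rw [h1, two_mul]
  nth_rewrite 2 [h2]
  rw [← sum_add_distrib]
  have h3 : ∀ α : Fin κ → Fin d, (∑ t : Fin κ, ((d : ℝ) - 1 - (α t : ℕ))) + ∑ t : Fin κ, ((α t : ℕ) : ℝ) =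
      κ * (d - 1) := by
    intro α
    rw [← sum_add_distrib]
    simp
    ring
  rw [sum_congr rfl fun α _ => h3 α, sum_const, card_univ, Fintype.card_fun, Fintype.card_fin,
    Fintype.card_fin, nsmul_eq_mul]
  push_cast
  ring

end local_

end Pool.Agent.Helper43.PT

end

section

set_option autoImplicit false

namespace Pool.Agent.Helper36.PT

open Polynomial Finset Pool.Agent.Helper93.RatODE Pool.Agent.Helper36.DT

variable {E : Type} [Field E]

theorem hev_mobius_ne_zero (N : ℕ) (a b c e : E) (h : a * e - b * c ≠ 0) (f : E[X])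
    (hf : f.natDegree ≤ N) (hf0 : f ≠ 0) :
    hev f N (C a * X + C b) (C c * X + C e) ≠ 0 := by
  intro h0
  have h1 : hev (hev f N (C a * X + C b) (C c * X + C e)) (N * 1)
      (algebraMap E[X] (RatFunc E) (C e * X - C b))
      (algebraMap E[X] (RatFunc E) (-(C c * X) + C a)) = 0 := by
    rw [h0, hev_zero_poly]
  have hU : (C a * X + C b : E[X]).natDegree ≤ 1 := natDegree_linear_le
  have hW : (C c * X + C e : E[X]).natDegree ≤ 1 := natDegree_linear_le
  rw [hev_comp f N hU hW] at h1
  have e1 : hev (C a * X + C b : E[X]) 1 (algebraMap E[X] (RatFunc E) (C e * X - C b))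
      (algebraMap E[X] (RatFunc E) (-(C c * X) + C a)) =
      algebraMap E[X] (RatFunc E) (C (a * e - b * c) * X) := by
    have : hev (C a * X + C b : E[X]) 1 (C e * X - C b) (-(C c * X) + C a) =
        C (a * e - b * c) * X := by
      simp [hev, sum_range_succ, coeff_X, coeff_C]
      ring
    have h2 := hev_map (IsScalarTower.toAlgHom E E[X] (RatFunc E)) (C a * X + C b : E[X]) 1
      (C e * X - C b) (-(C c * X) + C a)
    rw [this] at h2
    exact h2.symm
  have e2 : hev (C c * X + C e : E[X]) 1 (algebraMap E[X] (RatFunc E) (C e * X - C b))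
      (algebraMap E[X] (RatFunc E) (-(C c * X) + C a)) =
      algebraMap E[X] (RatFunc E) (C (a * e - b * c)) := by
    have : hev (C c * X + C e : E[X]) 1 (C e * X - C b) (-(C c * X) + C a) =
        C (a * e - b * c) := by
      simp [hev, sum_range_succ, coeff_X, coeff_C]
      ring
    have h2 := hev_map (IsScalarTower.toAlgHom E E[X] (RatFunc E)) (C c * X + C e : E[X]) 1
      (C e * X - C b) (-(C c * X) + C a)
    rw [this] at h2
    exact h2.symm
  rw [e1, e2] at h1
  have hD : algebraMap E[X] (RatFunc E) (C (a * e - b * c)) ≠ 0 := by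
    rw [Ne, IsFractionRing.to_map_eq_zero_iff, C_eq_zero]
    exact h
  rw [hev_eq f N hf _ _ hD, map_mul, mul_div_cancel_left₀ _ hD] at h1
  rcases mul_eq_zero.1 h1 with h2 | h2
  · exact pow_ne_zero _ hD h2
  · have h3 : aeval (algebraMap E[X] (RatFunc E) X) f = algebraMap E[X] (RatFunc E) f := by
      rw [aeval_algebraMap_apply, aeval_X_left_apply]
    rw [h3, IsFractionRing.to_map_eq_zero_iff] at h2
    exact hf0 h2

theorem rel_mobius_inner (m : ℕ) (a b c e : E) (h : a * e - b * c ≠ 0)
    (p : Polynomial (Polynomial E)) (hp : p ≠ 0) (hp1 : p.natDegree < m)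
    (hp2 : ∀ i, (p.coeff i).natDegree < m) :
    ∃ q : Polynomial (Polynomial E), q ≠ 0 ∧ q.natDegree < m ∧ (∀ i, (q.coeff i).natDegree < m) ∧
      ∀ x y : E, c * x + e ≠ 0 →
        (q.eval (C y)).eval x =
          (c * x + e) ^ (m - 1) * (p.eval (C y)).eval ((a * x + b) / (c * x + e)) := by
  classical
  have hm : 1 ≤ m := by omega
  set T : E[X] → E[X] := fun f => hev f (m - 1) (C a * X + C b) (C c * X + C e) with hT
  have hTdeg : ∀ f, (T f).natDegree ≤ m - 1 := by
    intro f
    have := hev_natDegree f (m - 1) (U := C a * X + C b) (W := C c * X + C e) (q := 1)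
      natDegree_linear_le natDegree_linear_le
    rwa [mul_one] at this
  set q : Polynomial (Polynomial E) := ∑ j ∈ range m, monomial j (T (p.coeff j)) with hq
  have hqc : ∀ i, q.coeff i = if i ∈ range m then T (p.coeff i) else 0 := by
    intro i
    rw [hq, finsetSum_coeff]
    simp only [coeff_monomial]
    rw [sum_ite_eq' (range m) i]
  refine ⟨q, ?_, ?_, ?_, ?_⟩
  · intro h0
    have h1 := hqc p.natDegree
    rw [if_pos (mem_range.2 hp1), h0, coeff_zero] at h1
    have h2 : p.coeff p.natDegree ≠ 0 := by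
      rw [coeff_natDegree, Ne, leadingCoeff_eq_zero]
      exact hp
    exact hev_mobius_ne_zero (m - 1) a b c e h _ (by have := hp2 p.natDegree; omega) h2 h1.symm
  · rw [Nat.lt_iff_le_pred (by omega), natDegree_le_iff_coeff_eq_zero]
    intro i hi
    rw [hqc, if_neg (by rw [mem_range]; omega)]
  · intro i
    rw [hqc]
    split_ifs
    · have := hTdeg (p.coeff i)
      omega
    · rw [natDegree_zero]; omega
  · intro x y hx
    have h1 : q.eval (C y) = ∑ j ∈ range m, T (p.coeff j) * C (y ^ j) := by
      rw [hq, eval_finsetSum]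
      refine sum_congr rfl fun j _ => ?_
      rw [eval_monomial, C_pow]
    have h2 : p.eval (C y) = ∑ j ∈ range m, p.coeff j * C (y ^ j) := by
      rw [eval_eq_sum_range' hp1]
      refine sum_congr rfl fun j _ => ?_
      rw [C_pow]
    rw [h1, h2, eval_finsetSum, eval_finsetSum, mul_sum]
    refine sum_congr rfl fun j _ => ?_
    rw [eval_mul, eval_C, eval_mul, eval_C, hT]
    simp only [hev_eval]
    rw [show (C a * X + C b : E[X]).eval x = a * x + b by simp,
      show (C c * X + C e : E[X]).eval x = c * x + e by simp,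
      hev_eq_eval _ _ (by have := hp2 j; omega) _ _ hx]
    ring

/-- T-MOB: relations and changes of coordinates -/
theorem rel_mobius (m : ℕ) (a b c e a' b' c' e' : E) (h : a * e - b * c ≠ 0)
    (h' : a' * e' - b' * c' ≠ 0) (p : Polynomial (Polynomial E)) (hp : p ≠ 0) (hp1 : p.natDegree < m)
    (hp2 : ∀ i, (p.coeff i).natDegree < m) :
    ∃ q : Polynomial (Polynomial E), q ≠ 0 ∧ q.natDegree < m ∧ (∀ i, (q.coeff i).natDegree < m) ∧
      ∀ x y : E, c * x + e ≠ 0 → c' * y + e' ≠ 0 →
        (p.eval (C ((a' * y + b') / (c' * y + e')))).eval ((a * x + b) / (c * x + e)) = 0 →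
        (q.eval (C y)).eval x = 0 := by
  obtain ⟨p1, h1, h2, h3, h4⟩ := rel_mobius_inner m a b c e h p hp hp1 hp2
  have hm : 1 ≤ m := by omega
  have hs0 : Bivariate.swap p1 ≠ 0 := by
    rw [Ne, EmbeddingLike.map_eq_zero_iff]
    exact h1
  have hs1 : (Bivariate.swap p1).natDegree < m := by
    have := natDegree_swap_le p1 (m - 1) (fun b => by have := h3 b; omega)
    omega
  have hs2 : ∀ i, ((Bivariate.swap p1).coeff i).natDegree < m := by
    intro i
    have := natDegree_coeff_le_swap (Bivariate.swap p1) i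
    rw [Bivariate.swap_swap_apply] at this
    omega
  obtain ⟨p2, g1, g2, g3, g4⟩ := rel_mobius_inner m a' b' c' e' h' _ hs0 hs1 hs2
  refine ⟨Bivariate.swap p2, ?_, ?_, ?_, ?_⟩
  · rw [Ne, EmbeddingLike.map_eq_zero_iff]
    exact g1
  · have := natDegree_swap_le p2 (m - 1) (fun b => by have := g3 b; omega)
    omega
  · intro i
    have := natDegree_coeff_le_swap (Bivariate.swap p2) i
    rw [Bivariate.swap_swap_apply] at this
    omega
  · intro x y hx hy h0
    rw [eval_swap, g4 y x hy, eval_swap, h4 x _ hx, h0, mul_zero, mul_zero]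

end Pool.Agent.Helper36.PT

end

section

set_option autoImplicit false

open Finset Polynomial

namespace Pool.Agent.Helper33.PT

open Pool.Agent.Helper45.FR Pool.Agent.Helper33.UB Pool.Agent.Helper51.RatTree Pool.Agent.Helper93.RatODE
  Pool.Agent.Helper33.PS Pool.Agent.Helper55.RD

/-- T-RIC: a relation on a dense subset of a long window gives a Riccati equation on the tail -/
theorem riccati_tail (d r : ℕ) (hd : 2 ≤ d) : ∃ n₀ : ℕ, ∀ {K : Type} [Field K] [DecidableEq K] {D : K → K}
    (_ : ∀ x y, D (x + y) = D x + D y) (_ : ∀ x y, D (x * y) = x * D y + y * D x)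
    {F G : K[X]} (_ : IsRat F G d) {x : ℕ → K} (_ : ∀ j, G.eval (x j) ≠ 0)
    (_ : ∀ j, x (j + 1) = F.eval (x j) / G.eval (x j)) (a w : ℕ) (_ : n₀ ≤ w)
    (_ : Set.InjOn x (Set.Icc a (a + w))) (s : Finset ℕ) (_ : s ⊆ Finset.Ico a (a + w))
    (_ : 9 * w ≤ 10 * s.card) (_ : Pool.Agent.Helper33.UB.Rel D r (s.image x)),
    ∃ i, a ≤ i ∧ i ≤ a + w ∧ ∃ α β γ : K, ∀ j, i ≤ j → D (x j) = α * x j ^ 2 + β * x j + γ :=
  Pool.Agent.Helper79.PT.riccati_tail d r hd

/-- T-UNT: the coefficients of a normalised map are constants for `D` -/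
theorem coeff_const_of_points {K : Type} [Field K] {D : K → K}
    (hadd : ∀ x y, D (x + y) = D x + D y) (hmul : ∀ x y, D (x * y) = x * D y + y * D x) {d : ℕ}
    {F G : K[X]} (hFG : IsRat F G d) (hnorm : ∃ i, F.coeff i = 1 ∨ G.coeff i = 1) (s : Finset K)
    (hs : 2 * d < s.card) (h : ∀ z ∈ s, D z = 0 ∧ G.eval z ≠ 0 ∧ D (F.eval z / G.eval z) = 0) :
    ∀ i, D (F.coeff i) = 0 ∧ D (G.coeff i) = 0 :=
  Pool.Agent.Helper82.PT.coeff_const_of_points hadd hmul hFG hnorm s hs h

end Pool.Agent.Helper33.PT

end
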