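import Pool.Agent.Helper23.MB.L00_abc0
import Pool.Agent.Helper23.MB.L00_abc1
import Pool.Agent.Helper23.MB.L00_abc2

/-!
Parts of Helper55.RD.Sys, Helper16.Place, Helper16.FF6, Helper16.FF7, Helper16.FF8, Helper55.RM.Loc, Helper55.RM.Loc2
-/

attribute [-simp] Valuation.IsUniformizer.val
attribute [local instance 5000]
  Pool.Agent.Helper23.MB.Inst.rCharZero Pool.Agent.Helper23.MB.Inst.rALM
  Pool.Agent.Helper23.MB.Inst.rARM Pool.Agent.Helper23.MB.Inst.rALSM
  Pool.Agent.Helper23.MB.Inst.rARSM Pool.Agent.Helper23.MB.Inst.rARRLE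
  Pool.Agent.Helper23.MB.Inst.rALRLE Pool.Agent.Helper23.MB.Inst.rARRLT
  Pool.Agent.Helper23.MB.Inst.rALRLT Pool.Agent.Helper23.MB.Inst.rPMRLT
  Pool.Agent.Helper23.MB.Inst.rMPRLT Pool.Agent.Helper23.MB.Inst.rPMM
  Pool.Agent.Helper23.MB.Inst.rMPM Pool.Agent.Helper23.MB.Inst.rPMSM
  Pool.Agent.Helper23.MB.Inst.rMPSM Pool.Agent.Helper23.MB.Inst.rEAOL
  Pool.Agent.Helper23.MB.Inst.rIOR Pool.Agent.Helper23.MB.Inst.rISOR
  Pool.Agent.Helper23.MB.Inst.rNZD Pool.Agent.Helper23.MB.Inst.zCharZero
  Pool.Agent.Helper23.MB.Inst.zALM Pool.Agent.Helper23.MB.Inst.zARM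
  Pool.Agent.Helper23.MB.Inst.zIOR Pool.Agent.Helper23.MB.Inst.zISOR
  Pool.Agent.Helper23.MB.Inst.zNZD Pool.Agent.Helper23.MB.Inst.qCharZero
  Pool.Agent.Helper23.MB.Inst.free Pool.Agent.Helper23.MB.Inst.faith
  Pool.Agent.Helper23.MB.Inst.torsionFree Pool.Agent.Helper23.MB.Inst.rfFaith
  Pool.Agent.Helper23.MB.Inst.hAdd Pool.Agent.Helper23.MB.Inst.hAddM
  Pool.Agent.Helper23.MB.Inst.hMul Pool.Agent.Helper23.MB.Inst.hMon
  Pool.Agent.Helper23.MB.Inst.hZero Pool.Agent.Helper23.MB.Inst.hOne
  Pool.Agent.Helper23.MB.Inst.hMZ Pool.Agent.Helper23.MB.Inst.hRing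
  Pool.Agent.Helper23.MB.Inst.aAdd Pool.Agent.Helper23.MB.Inst.aAddM
  Pool.Agent.Helper23.MB.Inst.aMul Pool.Agent.Helper23.MB.Inst.aMon
  Pool.Agent.Helper23.MB.Inst.aZero Pool.Agent.Helper23.MB.Inst.aOne
  Pool.Agent.Helper23.MB.Inst.aMZ Pool.Agent.Helper23.MB.Inst.aRing

namespace Pool.Agent.Helper33
end Pool.Agent.Helper33
namespace Pool.Agent.Helper55.RD
end Pool.Agent.Helper55.RD

section

set_option autoImplicit false

open Polynomial Finset Pool.Agent.Helper33

namespace Pool.Agent.Helper55.RD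

variable {K : Type*} [Field K]

namespace Sys

variable {v : DV K} {d : ℕ} {ι : Type*} (S : Sys v d ι)

variable {S}

lemma Good.H_nonneg [Finite ι] (h : S.Good) (hd : 2 ≤ d) (i : ι) : 0 ≤ S.H i := by
  have hne : Nonempty ι := ⟨i⟩
  obtain ⟨i₀, hi₀⟩ := Finite.exists_min S.H
  have h1 := S.hH i₀
  have h2 := h.c_nonneg i₀
  have h3 := hi₀ (S.φ i₀)
  have h4 : (2 : ℝ) ≤ d := by exact_mod_cast hd
  have h5 : 0 ≤ S.H i₀ := by (clear * - h1 h2 h3 h4; nlinarith)
  exact h5.trans (hi₀ i)

end Sys

end Pool.Agent.Helper55.RD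

end

section

set_option autoImplicit false

set_option linter.style.haveILetI false

namespace Pool.Agent.Helper16

open Polynomial IntermediateField

namespace Place

variable {K N : Type} [Field K] [Field N] [Algebra K N]

section ord

variable (v : Place K N)

theorem ord_inv (x : N) : v.ord x⁻¹ = - v.ord x := by
  unfold ord
  rw [map_inv₀, WithZero.log_inv]

theorem ord_pos_iff {x : N} (hx : x ≠ 0) : 0 < v.ord x ↔ v.val x < 1 := by
  unfold ord
  rw [← WithZero.log_lt_log (by simpa using hx) one_ne_zero, WithZero.log_one]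
  omega

theorem ord_eq_zero_iff {x : N} (hx : x ≠ 0) : v.ord x = 0 ↔ v.val x = 1 := by
  constructor
  · intro h
    refine le_antisymm ((v.ord_nonneg_iff hx).1 h.ge) ?_
    by_contra hlt
    rw [not_le] at hlt
    have := (v.ord_pos_iff hx).2 hlt
    omega
  · intro h
    unfold ord
    rw [h]
    simp

end ord

end Place

end Pool.Agent.Helper16

end

section

set_option autoImplicit false

set_option linter.style.haveILetI false

namespace Pool.Agent.Helper16

open Polynomial IntermediateField IsDedekindDomain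

section Ded

variable {K N : Type} [Field K] [Field N] [Algebra K N]

theorem placeOfPrime_injective (s : N) (hs : Transcendental K s) [FiniteDimensional K⟮s⟯ N] :
    Function.Injective (placeOfPrime (K := K) s hs) := by
  intro P Q h
  apply HeightOneSpectrum.ext
  ext b
  rw [← placeOfPrime_val_lt s hs P, ← placeOfPrime_val_lt s hs Q, h]

end Ded

end Pool.Agent.Helper16

end

section

set_option autoImplicit false

set_option linter.style.haveILetI false

namespace Pool.Agent.Helper16

open Polynomial IntermediateField IsDedekindDomain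

section Ded

variable {K N : Type} [Field K] [Field N] [Algebra K N]

theorem deg_placeOfPrime (s : N) (hs : Transcendental K s) [FiniteDimensional K⟮s⟯ N]
    (P : HeightOneSpectrum (IC K s)) (h : sIC K s ∈ P.asIdeal) :
    letI := algX K s
    (placeOfPrime s hs P).deg = P.asIdeal.inertiaDeg K[X] ∧
      Module.Finite K (placeOfPrime s hs P).resField := by
  letI := algX K s
  haveI := towerX (K := K) s
  haveI := isDedekindDomain_IC s hs
  haveI := isFractionRing_IC s hs
  haveI := finite_integralClosure s hs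
  have hmax : (Ideal.span {(X : K[X])}).IsMaximal :=
    PrincipalIdealRing.isMaximal_of_irreducible irreducible_X
  haveI : P.asIdeal.IsMaximal := P.isMaximal
  haveI := liesOver_of_mem s P h
  obtain ⟨e1⟩ := exists_resEquiv s hs P
  haveI : Module.Free (K[X] ⧸ Ideal.span {(X : K[X])}) (IC K s ⧸ P.asIdeal) := by
    letI := Ideal.Quotient.field (Ideal.span {(X : K[X])})
    infer_instance
  have h1 : Module.finrank K (K[X] ⧸ Ideal.span {(X : K[X])}) = 1 := by
    rw [finrank_quotient_span_eq_natDegree, natDegree_X]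
  constructor
  · rw [Place.deg, ← e1.toLinearEquiv.finrank_eq,
      Ideal.inertiaDeg_eq_of_isMaximal (Ideal.span {(X : K[X])})]
    have h2 := Module.finrank_mul_finrank K (K[X] ⧸ Ideal.span {(X : K[X])}) (IC K s ⧸ P.asIdeal)
    rw [h1, one_mul] at h2
    exact h2.symm
  · haveI : Module.Finite K (K[X] ⧸ Ideal.span {(X : K[X])}) :=
      Module.finite_of_finrank_pos (by rw [h1]; exact one_pos)
    haveI : Module.Finite (K[X] ⧸ Ideal.span {(X : K[X])}) (IC K s ⧸ P.asIdeal) :=
      Module.Finite.of_restrictScalars_finite K[X] _ _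
    haveI : Module.Finite K (IC K s ⧸ P.asIdeal) :=
      Module.Finite.trans (K[X] ⧸ Ideal.span {(X : K[X])}) _
    exact Module.Finite.equiv e1.toLinearEquiv

theorem ord_placeOfPrime (s : N) (hs : Transcendental K s) [FiniteDimensional K⟮s⟯ N]
    (P : HeightOneSpectrum (IC K s)) (h : sIC K s ∈ P.asIdeal) :
    letI := algX K s
    (placeOfPrime s hs P).ord s = (P.asIdeal.ramificationIdx K[X] : ℤ) := by
  letI := algX K s
  haveI := towerX (K := K) s
  haveI := isDedekindDomain_IC s hs
  haveI := isFractionRing_IC s hs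
  haveI := liesOver_of_mem s P h
  haveI := P.isPrime
  have hmap := map_span_X (K := K) s
  have hne : (Ideal.span {(X : K[X])}).map (algebraMap K[X] (IC K s)) ≠ ⊥ := by
    rw [hmap]
    simpa using sIC_ne_zero hs
  rw [Ideal.IsDedekindDomain.ramificationIdx_eq_multiplicity (Ideal.span {(X : K[X])}) P.asIdeal hne,
    hmap]
  have h1 := P.valuation_of_algebraMap (K := N) (sIC K s)
  rw [P.intValuation_eq_exp_neg_multiplicity (sIC_ne_zero hs)] at h1
  have h2 : (placeOfPrime s hs P).val s = WithZero.exp (-(multiplicity P.asIdeal (Ideal.span {sIC K s}) : ℤ)) := h1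
  rw [Place.ord, h2, WithZero.log_exp, neg_neg]

/-- The zeros of `s`, and the formula `∑ ord_v(s) deg(v) = [N : K(s)]`. -/
theorem sum_zeros (s : N) (hs : Transcendental K s) [FiniteDimensional K⟮s⟯ N] :
    ∃ S : Finset (Place K N), (∀ v, v ∈ S ↔ v.val s < 1) ∧
      ∑ v ∈ S, v.ord s * (v.deg : ℤ) = (Module.finrank K⟮s⟯ N : ℤ) := by
  classical
  letI := algX K s
  letI := algXF K s
  haveI := towerXF (K := K) s
  haveI := towerX (K := K) s
  haveI := isFractionRing_algXF s hs
  haveI := faithfulX s hs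
  haveI := isDedekindDomain_IC s hs
  haveI := isFractionRing_IC s hs
  haveI := finite_integralClosure s hs
  have hmax : (Ideal.span {(X : K[X])}).IsMaximal :=
    PrincipalIdealRing.isMaximal_of_irreducible irreducible_X
  haveI : (Ideal.span {(X : K[X])}).IsPrime := hmax.isPrime
  let p := Ideal.span {(X : K[X])}
  letI : Fintype (p.primesOver (IC K s)) := Fintype.ofFinite _
  have hp0 : p ≠ ⊥ := by
    simp [p]
  let F : p.primesOver (IC K s) → HeightOneSpectrum (IC K s) := fun q =>
    ⟨q.1, q.2.1, Ideal.ne_bot_of_mem_primesOver hp0 q.2⟩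
  have hF : ∀ q, sIC K s ∈ (F q).asIdeal := by
    intro q
    have h1 : p ≤ q.1.under K[X] := by
      rw [← q.2.2.over]
    have h2 : (X : K[X]) ∈ q.1.under K[X] := h1 (Ideal.mem_span_singleton_self X)
    have h3 : algebraMap K[X] (IC K s) X ∈ q.1 := h2
    rw [algebraMap_X_IC] at h3
    exact h3
  have hFinj : Function.Injective F := by
    intro q r h
    apply Subtype.ext
    exact congrArg HeightOneSpectrum.asIdeal h
  refine ⟨Finset.univ.image (fun q => placeOfPrime s hs (F q)), ?_, ?_⟩
  · intro v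
    rw [Finset.mem_image]
    constructor
    · rintro ⟨q, -, rfl⟩
      exact (placeOfPrime_val_lt s hs (F q) (sIC K s)).2 (hF q)
    · intro hv
      obtain ⟨P, rfl⟩ := exists_placeOfPrime s hs v hv.le
      have h1 : sIC K s ∈ P.asIdeal := (placeOfPrime_val_lt s hs P (sIC K s)).1 hv
      refine ⟨⟨P.asIdeal, P.isPrime, liesOver_of_mem s P h1⟩, Finset.mem_univ _, rfl⟩
  · rw [Finset.sum_image (fun a _ b _ h => hFinj (placeOfPrime_injective s hs h))]
    have h1 := Ideal.sum_ramification_inertia_eq_finrank p (IC K s)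
    have h2 := IsFractionRing.finrank_eq K[X] K⟮s⟯ (IC K s) N
    rw [h2, ← h1]
    push_cast
    refine Finset.sum_congr rfl fun q _ => ?_
    rw [ord_placeOfPrime s hs (F q) (hF q), (deg_placeOfPrime s hs (F q) (hF q)).1]

end Ded

end Pool.Agent.Helper16

end

section

set_option autoImplicit false

set_option linter.style.haveILetI false

namespace Pool.Agent.Helper16

open Polynomial IntermediateField IsDedekindDomain

section

variable {K N : Type} [Field K] [Field N] [Algebra K N]

theorem Place.val_eq_one_of_algebraic (v : Place K N) {f : N} (hf : IsAlgebraic K f) (hf0 : f ≠ 0) :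
    v.val f = 1 := by
  have h1 : ∀ g : N, IsAlgebraic K g → v.val g ≤ 1 := by
    intro g hg
    have h2 : IntOver K (0 : N) g := IntOver.of_isIntegral hg.isIntegral
    exact h2.mem_ring v (by simp)
  refine le_antisymm (h1 f hf) ?_
  have := h1 f⁻¹ hf.inv
  rw [map_inv₀] at this
  exact (inv_le_one₀ (zero_lt_iff.2 (by simpa using hf0))).1 this

theorem Place.transcendental_of_val_ne_one (v : Place K N) {f : N} (hf0 : f ≠ 0)
    (hv : v.val f ≠ 1) : Transcendental K f :=
  fun hf => hv (v.val_eq_one_of_algebraic hf hf0)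

theorem Place.finite_resField (hN : IsFunctionField K N) (v : Place K N) :
    Module.Finite K v.resField := by
  obtain ⟨f, hf0, hf⟩ := v.exists_uniformizer
  have hlt : v.val f < 1 := by rw [hf]; exact exp_neg_one_lt
  have htr := v.transcendental_of_val_ne_one hf0 hlt.ne
  haveI := hN.finiteDimensional f htr
  obtain ⟨P, rfl⟩ := exists_placeOfPrime f htr v hlt.le
  exact (deg_placeOfPrime f htr P ((placeOfPrime_val_lt f htr P (sIC K f)).1 hlt)).2

theorem Place.deg_pos (hN : IsFunctionField K N) (v : Place K N) : 0 < v.deg := by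
  haveI := v.finite_resField hN
  exact Module.finrank_pos

/-- Zeros of a transcendental element. -/
theorem IsFunctionField.zeros (hN : IsFunctionField K N) (f : N) (hf : Transcendental K f) :
    ∃ S : Finset (Place K N), (∀ v, v ∈ S ↔ v.val f < 1) ∧
      ∑ v ∈ S, v.ord f * (v.deg : ℤ) = (Module.finrank K⟮f⟯ N : ℤ) ∧
      0 < Module.finrank K⟮f⟯ N := by
  haveI := hN.finiteDimensional f hf
  obtain ⟨S, h1, h2⟩ := sum_zeros f hf
  exact ⟨S, h1, h2, Module.finrank_pos⟩

/-- The product formula. -/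
theorem IsFunctionField.product_formula (hN : IsFunctionField K N) (f : N) :
    ∃ S : Finset (Place K N), (∀ v, v ∈ S ↔ v.ord f ≠ 0) ∧
      ∑ v ∈ S, v.ord f * (v.deg : ℤ) = 0 := by
  classical
  by_cases hf0 : f = 0
  · subst hf0
    exact ⟨∅, fun v => by simp [v.ord_zero], by simp⟩
  by_cases hf : IsAlgebraic K f
  · refine ⟨∅, fun v => ?_, by simp⟩
    simp [(v.ord_eq_zero_iff hf0).2 (v.val_eq_one_of_algebraic hf hf0)]
  · obtain ⟨S, h1, h2, -⟩ := hN.zeros f hf
    obtain ⟨T, h3, h4, -⟩ := hN.zeros f⁻¹ (transcendental_inv hf)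
    rw [finrank_inv] at h4
    have hT : ∀ v : Place K N, v ∈ T ↔ 1 < v.val f := by
      intro v
      rw [h3, map_inv₀, inv_lt_one₀ (zero_lt_iff.2 (by simpa using hf0))]
    have hdisj : Disjoint S T := by
      rw [Finset.disjoint_left]
      intro v hv hv'
      rw [h1] at hv
      rw [hT] at hv'
      exact lt_asymm hv hv'
    refine ⟨S ∪ T, fun v => ?_, ?_⟩
    · rw [Finset.mem_union, h1, hT, Ne, v.ord_eq_zero_iff hf0]
      constructor
      · rintro (h | h)
        · exact h.ne
        · exact h.ne'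
      · intro h
        exact lt_or_gt_of_ne h
    · rw [Finset.sum_union hdisj, h2]
      have h5 : ∑ v ∈ T, v.ord f * (v.deg : ℤ) = - ∑ v ∈ T, v.ord f⁻¹ * (v.deg : ℤ) := by
        rw [← Finset.sum_neg_distrib]
        refine Finset.sum_congr rfl fun v _ => ?_
        rw [v.ord_inv]
        ring
      rw [h5, h4]
      ring

end

end Pool.Agent.Helper16

end

section

set_option autoImplicit false

open Polynomial Finset Pool.Agent.Helper33 Pool.Agent.Helper55.RD

namespace Pool.Agent.Helper55.RM

namespace Place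

variable {k L : Type} [Field k] [Field L] [Algebra k L]

/-- conversion -/
def ofP (v : Pool.Agent.Helper16.Place k L) : Place k L := ⟨v.val, v.surj, v.triv⟩

end Place

end Pool.Agent.Helper55.RM

end

section

set_option autoImplicit false

open Polynomial Finset Pool.Agent.Helper33 Pool.Agent.Helper55.RD

namespace Pool.Agent.Helper55.RM

variable {k L : Type} [Field k] [Field L] [Algebra k L]

/-- the pairing of integral points for a good model of good reduction -/
lemma g_nonneg_of_good {K : Type*} [Field K] {v : DV K} {d : ℕ} (hd : 2 ≤ d) {ι : Type*} [Finite ι]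
    {S : Sys v d ι} (hS : S.Good) (h0 : v.o (resultant S.F S.G d d) = 0) {i j : ι} (hij : i ≠ j) :
    0 ≤ S.g i j := by
  have hr : S.r = 0 := by rw [Sys.r, h0]; simp
  have hH : ∀ i, S.H i = 0 := by
    intro i
    have h1 := hS.H_nonneg hd i
    have h2 := hS.H_le hd i
    rw [hr, mul_zero] at h2
    exact le_antisymm h2 h1
  rw [Sys.g, hH, hH, hr, W_of_ne (S.hx i j hij)]
  have h1 := DV.ge_le (ge_wedge (hS.prim i) (hS.prim j)) (S.hx i j hij)
  linarith

end Pool.Agent.Helper55.RM

end
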