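import Pool.Agent.Helper23.MB.L00_abc0
import Pool.Agent.Helper23.MB.L00_abc1
import Pool.Agent.Helper23.MB.L00_abc2

/-!
Parts of Helper55.RD.Sys, Helper55.RD.Tr, Helper55.RD.Comb, Helper55.RD.Core2, Helper55.RD.LC, Helper16.Place, Helper55.RM.Loc, Helper55.RM.Glob, Helper55.RM.Pack
-/

attribute [-simp] Valuation.IsUniformizer.val
attribute [local instance 5000]
  Pool.Agent.Helper23.MB.Inst.rCharZero Pool.Agent.Helper23.MB.Inst.rALM
  Pool.Agent.Helper23.MB.Inst.rARM Pool.Agent.Helper23.MB.Inst.rALSM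
  Pool.Agent.Helper23.MB.Inst.rARSM Pool.Agent.Helper23.MB.Inst.rARRLE
  Pool.Agent.Helper23.MB.Inst.rALRLE Pool.Agent.Helper23.MB.Inst.rARRLT
  Pool.Agent.Helper23.MB.Inst.rALRLT Pool.Agent.Helper23.MB.Inst.rPMRLT
  Pool.Agent.Helper23.MB.Inst.rMPRLT Pool.Agent.Helper23.MB.Inst.rPMM
  Pool.Agent.Helper23.MB.Inst.rMPM Pool.Agent.Helper23.MB.Inst.rPMSM
  Pool.Agent.Helper23.MB.Inst.rMPSM Pool.Agent.Helper23.MB.Inst.rEAOL
  Pool.Agent.Helper23.MB.Inst.rIOR Pool.Agent.Helper23.MB.Inst.rISOR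
  Pool.Agent.Helper23.MB.Inst.rNZD Pool.Agent.Helper23.MB.Inst.zCharZero
  Pool.Agent.Helper23.MB.Inst.zALM Pool.Agent.Helper23.MB.Inst.zARM
  Pool.Agent.Helper23.MB.Inst.zIOR Pool.Agent.Helper23.MB.Inst.zISOR
  Pool.Agent.Helper23.MB.Inst.zNZD Pool.Agent.Helper23.MB.Inst.qCharZero
  Pool.Agent.Helper23.MB.Inst.free Pool.Agent.Helper23.MB.Inst.faith
  Pool.Agent.Helper23.MB.Inst.torsionFree Pool.Agent.Helper23.MB.Inst.rfFaith
  Pool.Agent.Helper23.MB.Inst.hAdd Pool.Agent.Helper23.MB.Inst.hAddM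
  Pool.Agent.Helper23.MB.Inst.hMul Pool.Agent.Helper23.MB.Inst.hMon
  Pool.Agent.Helper23.MB.Inst.hZero Pool.Agent.Helper23.MB.Inst.hOne
  Pool.Agent.Helper23.MB.Inst.hMZ Pool.Agent.Helper23.MB.Inst.hRing
  Pool.Agent.Helper23.MB.Inst.aAdd Pool.Agent.Helper23.MB.Inst.aAddM
  Pool.Agent.Helper23.MB.Inst.aMul Pool.Agent.Helper23.MB.Inst.aMon
  Pool.Agent.Helper23.MB.Inst.aZero Pool.Agent.Helper23.MB.Inst.aOne
  Pool.Agent.Helper23.MB.Inst.aMZ Pool.Agent.Helper23.MB.Inst.aRing

namespace Pool.Agent.Helper33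
end Pool.Agent.Helper33
namespace Pool.Agent.Helper55.RD
end Pool.Agent.Helper55.RD

section

set_option autoImplicit false

open Polynomial Finset Pool.Agent.Helper33

namespace Pool.Agent.Helper55.RD

variable {K : Type*} [Field K]

namespace Sys

variable {v : DV K} {d : ℕ} {ι : Type*} (S : Sys v d ι)

variable {S}

lemma Good.r_nonneg (h : S.Good) (hd : 2 ≤ d) : 0 ≤ S.r := by
  have h1 := ge_resultant (m := d) (n := d) h.intF h.intG
  have h2 := DV.ge_le h1 S.hR
  have h3 : (2 : ℝ) ≤ d := by exact_mod_cast hd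
  rw [r]
  have h4 : (0 : ℝ) ≤ v.o (resultant S.F S.G d d) := by simpa using h2
  exact div_nonneg h4 (mul_nonneg (by linarith) (by (clear * - h3; linarith)))

end Sys

end Pool.Agent.Helper55.RD

end

section

set_option autoImplicit false

open Polynomial Finset Pool.Agent.Helper33

namespace Pool.Agent.Helper55.RD

variable {K : Type*} [Field K]

/-- **Change of coordinates.** -/
theorem Sys.exists_tr {v : DV K} {d : ℕ} {ι : Type*} (hd : 2 ≤ d) (S : Sys v d ι) (N : M2 K)
    (hN : N.det ≠ 0) (κ : K) (hκ : κ ≠ 0) :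
    ∃ S' : Sys v d ι, S'.F = trF d N κ S.F S.G ∧ S'.G = trG d N κ S.F S.G ∧ S'.φ = S.φ ∧
      (∀ i, Prim v (S'.x i)) ∧ (∀ i j, i ≠ j → S'.g i j = S.g i j) ∧
      ∀ i, ∃ l : K, l ≠ 0 ∧ N.app (S'.x i) = (l * (S.x i).1, l * (S.x i).2) := by
  have hadj : ∀ i, N.adj (S.x i) ≠ 0 := by
    intro i h
    have h1 := N.app_adj (S.x i)
    rw [h] at h1
    apply S.hx0 i
    have h2 : N.app 0 = 0 := by simp [M2.app]
    rw [h2] at h1
    have h3 := congrArg Prod.fst h1
    have h4 := congrArg Prod.snd h1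
    simp only [Prod.fst_zero, Prod.snd_zero] at h3 h4
    exact Prod.ext ((mul_eq_zero.1 h3.symm).resolve_left hN)
      ((mul_eq_zero.1 h4.symm).resolve_left hN)
  choose μ hμ0 hμ using fun i => exists_prim v (hadj i)
  set l : ι → K := fun i => μ i * N.det with hl
  have hl0 : ∀ i, l i ≠ 0 := fun i => mul_ne_zero (hμ0 i) hN
  set x' : ι → K × K := fun i => (μ i * (N.adj (S.x i)).1, μ i * (N.adj (S.x i)).2) with hx'
  have happ : ∀ i, N.app (x' i) = (l i * (S.x i).1, l i * (S.x i).2) := by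
    intro i
    have h1 := N.app_adj (S.x i)
    have h2 : N.app (x' i) = (μ i * (N.app (N.adj (S.x i))).1, μ i * (N.app (N.adj (S.x i))).2) := by
      simp only [hx', M2.app]
      refine Prod.ext ?_ ?_ <;> ring
    rw [h2, h1]
    refine Prod.ext ?_ ?_ <;> (simp only [hl]; ring)
  have hw : ∀ i j, i ≠ j → wedge (x' i) (x' j) ≠ 0 ∧
      N.det * wedge (x' i) (x' j) = l i * l j * wedge (S.x i) (S.x j) := fun i j hij =>
    wedge_ne_zero_of_scale (hl0 i) (hl0 j) (S.hx i j hij) (happ i) (happ j)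
  have hres := resultant_tr N κ S.hF S.hG
  have hres0 : resultant (trF d N κ S.F S.G) (trG d N κ S.F S.G) d d ≠ 0 := by
    rw [hres]
    exact mul_ne_zero (pow_ne_zero _ (mul_ne_zero (pow_ne_zero _ hκ) hN))
      (mul_ne_zero (pow_ne_zero _ hN) S.hR)
  have hd1 : (d : ℝ) - 1 ≠ 0 := by
    have : (2 : ℝ) ≤ d := by exact_mod_cast hd
    linarith
  have hd0 : (d : ℝ) ≠ 0 := by positivity
  have heval : ∀ i, hom d S.F (N.app (x' i)).1 (N.app (x' i)).2 =
      l i ^ d * (S.c i * (S.x (S.φ i)).1) ∧ hom d S.G (N.app (x' i)).1 (N.app (x' i)).2 =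
      l i ^ d * (S.c i * (S.x (S.φ i)).2) := by
    intro i
    rw [happ i]
    simp only
    rw [hom_smul_smul, hom_smul_smul, S.hΦF, S.hΦG]
    exact ⟨rfl, rfl⟩
  have hadj2 : ∀ i, N.e * (S.x i).1 - N.b * (S.x i).2 = N.det * (l i)⁻¹ * (x' i).1 ∧
      N.a * (S.x i).2 - N.c * (S.x i).1 = N.det * (l i)⁻¹ * (x' i).2 := by
    intro i
    have h1 := N.adj_app (x' i)
    rw [happ i] at h1
    have h3 := congrArg Prod.fst h1
    have h4 := congrArg Prod.snd h1
    simp only [M2.adj] at h3 h4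
    constructor
    · have : l i * (N.e * (S.x i).1 - N.b * (S.x i).2) = N.det * (x' i).1 := by
        rw [← h3]; ring
      rw [mul_assoc, mul_comm ((l i)⁻¹), ← mul_assoc, ← this]
      field_simp [hl0 i]
    · have : l i * (N.a * (S.x i).2 - N.c * (S.x i).1) = N.det * (x' i).2 := by
        rw [← h4]; ring
      rw [mul_assoc, mul_comm ((l i)⁻¹), ← mul_assoc, ← this]
      field_simp [hl0 i]
  have hκN : κ * N.det ≠ 0 := mul_ne_zero hκ hN
  let S' : Sys v d ι :=
    { F := trF d N κ S.F S.G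
      G := trG d N κ S.F S.G
      hF := natDegree_trF N κ
      hG := natDegree_trG N κ
      hR := hres0
      x := x'
      hx := fun i j hij => (hw i j hij).1
      hx0 := by
        intro i h
        rcases (hμ i).2.2 with ⟨h1, -⟩ | ⟨h1, -⟩
        · exact h1 (congrArg Prod.fst h)
        · exact h1 (congrArg Prod.snd h)
      φ := S.φ
      c := fun i => κ * N.det * (l i ^ d * S.c i * (l (S.φ i))⁻¹)
      hc := fun i => mul_ne_zero hκN (mul_ne_zero (mul_ne_zero (pow_ne_zero _ (hl0 i)) (S.hc i))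
        (inv_ne_zero (hl0 _)))
      hΦF := by
        intro i
        rw [hom_trF, (heval i).1, (heval i).2]
        have h1 := (hadj2 (S.φ i)).1
        linear_combination (κ * l i ^ d * S.c i) * h1
      hΦG := by
        intro i
        rw [hom_trG, (heval i).1, (heval i).2]
        have h1 := (hadj2 (S.φ i)).2
        linear_combination (κ * l i ^ d * S.c i) * h1
      H := fun i => S.H i + v.o (l i) + (v.o κ + v.o N.det) / (d - 1)
      hH := by
        intro i
        have h1 := S.hH i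
        rw [v.mul _ _ hκN (mul_ne_zero (mul_ne_zero (pow_ne_zero _ (hl0 i)) (S.hc i))
          (inv_ne_zero (hl0 _))), v.mul _ _ hκ hN, v.mul _ _ (mul_ne_zero (pow_ne_zero _ (hl0 i))
          (S.hc i)) (inv_ne_zero (hl0 _)), v.mul _ _ (pow_ne_zero _ (hl0 i)) (S.hc i),
          v.o_pow _ (hl0 i), v.o_inv _ (hl0 _)]
        push_cast
        field_simp
        linear_combination ((d : ℝ) - 1) * h1 }
  refine ⟨S', rfl, rfl, rfl, hμ, ?_, fun i => ⟨l i, hl0 i, happ i⟩⟩
  intro i j hij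
  have h1 : S'.r = S.r + (2 * v.o κ + (1 + d) * v.o N.det) / (d - 1) := by
    have h2 : S'.r = v.o (resultant (trF d N κ S.F S.G) (trG d N κ S.F S.G) d d) / (d * (d - 1)) :=
      rfl
    rw [h2, hres, v.mul _ _ (pow_ne_zero _ (mul_ne_zero (pow_ne_zero _ hκ) hN))
      (mul_ne_zero (pow_ne_zero _ hN) S.hR), v.o_pow _ (mul_ne_zero (pow_ne_zero _ hκ) hN),
      v.mul _ _ (pow_ne_zero _ hκ) hN, v.o_pow _ hκ, v.mul _ _ (pow_ne_zero _ hN) S.hR,
      v.o_pow _ hN, Sys.r]
    push_cast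
    field_simp
    ring
  have h3 : (W v (S'.x i) (S'.x j) : ℝ) = v.o (l i) + v.o (l j) + W v (S.x i) (S.x j) - v.o N.det := by
    have h4 : S'.x = x' := rfl
    rw [h4, W_of_ne (hw i j hij).1, W_of_ne (S.hx i j hij)]
    have h5 := congrArg v.o (hw i j hij).2
    rw [v.mul _ _ hN (hw i j hij).1, v.mul _ _ (mul_ne_zero (hl0 i) (hl0 j)) (S.hx i j hij),
      v.mul _ _ (hl0 i) (hl0 j)] at h5
    have h6 : (v.o N.det : ℝ) + v.o (wedge (x' i) (x' j)) =
        v.o (l i) + v.o (l j) + v.o (wedge (S.x i) (S.x j)) := by exact_mod_cast h5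
    linarith
  have h7 : S'.H i = S.H i + v.o (l i) + (v.o κ + v.o N.det) / (d - 1) := rfl
  have h8 : S'.H j = S.H j + v.o (l j) + (v.o κ + v.o N.det) / (d - 1) := rfl
  rw [Sys.g, Sys.g, h1, h3, h7, h8]
  field_simp
  ring

end Pool.Agent.Helper55.RD

end

section

set_option autoImplicit false

open Finset

namespace Pool.Agent.Helper55.RD

theorem ramsey {ι : Type*} [DecidableEq ι] (P : ι → ι → Prop) (hsym : ∀ i j, P i j → P j i) :
    ∀ (m n : ℕ) (T : Finset ι), ram m n ≤ T.card →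
      (∃ A ⊆ T, A.card = m ∧ ∀ i ∈ A, ∀ j ∈ A, i ≠ j → P i j) ∨
      (∃ B ⊆ T, B.card = n ∧ ∀ i ∈ B, ∀ j ∈ B, i ≠ j → ¬ P i j) := by
  classical
  intro m
  induction m with
  | zero =>
    intro n T _
    exact Or.inl ⟨∅, empty_subset _, card_empty, by simp⟩
  | succ m ihm =>
    intro n
    induction n with
    | zero =>
      intro T _
      exact Or.inr ⟨∅, empty_subset _, card_empty, by simp⟩
    | succ n ihn =>
      intro T hT
      rw [ram] at hT
      obtain ⟨t, ht⟩ : T.Nonempty := card_pos.1 (by omega)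
      have h1 : ((T.erase t).filter fun i => P t i).card +
          ((T.erase t).filter fun i => ¬ P t i).card = T.card - 1 := by
        rw [card_filter_add_card_filter_not, card_erase_of_mem ht]
      by_cases h2 : ram m (n + 1) ≤ ((T.erase t).filter fun i => P t i).card
      · rcases ihm (n + 1) _ h2 with ⟨A, hA, hAc, hAP⟩ | ⟨B, hB, hBc, hBP⟩
        · have htA : t ∉ A := fun h => by
            have := hA h
            simp at this
          refine Or.inl ⟨insert t A, ?_, by rw [card_insert_of_notMem htA, hAc], ?_⟩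
          · intro i hi
            rcases mem_insert.1 hi with rfl | hi
            · exact ht
            · exact mem_of_mem_erase (mem_filter.1 (hA hi)).1
          · intro i hi j hj hij
            rcases mem_insert.1 hi with hi' | hi'
            · rcases mem_insert.1 hj with hj' | hj'
              · exact absurd (hi'.trans hj'.symm) hij
              · rw [hi']; exact (mem_filter.1 (hA hj')).2
            · rcases mem_insert.1 hj with hj' | hj'
              · rw [hj']; exact hsym _ _ (mem_filter.1 (hA hi')).2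
              · exact hAP i hi' j hj' hij
        · exact Or.inr ⟨B, fun i hi => mem_of_mem_erase (mem_filter.1 (hB hi)).1, hBc, hBP⟩
      · have h3 : ram (m + 1) n ≤ ((T.erase t).filter fun i => ¬ P t i).card := by omega
        rcases ihn _ h3 with ⟨A, hA, hAc, hAP⟩ | ⟨B, hB, hBc, hBP⟩
        · exact Or.inl ⟨A, fun i hi => mem_of_mem_erase (mem_filter.1 (hA hi)).1, hAc, hAP⟩
        · have htB : t ∉ B := fun h => by
            have := hB h
            simp at this
          refine Or.inr ⟨insert t B, ?_, by rw [card_insert_of_notMem htB, hBc], ?_⟩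
          · intro i hi
            rcases mem_insert.1 hi with rfl | hi
            · exact ht
            · exact mem_of_mem_erase (mem_filter.1 (hB hi)).1
          · intro i hi j hj hij
            rcases mem_insert.1 hi with hi' | hi'
            · rcases mem_insert.1 hj with hj' | hj'
              · exact absurd (hi'.trans hj'.symm) hij
              · rw [hi']; exact (mem_filter.1 (hB hj')).2
            · rcases mem_insert.1 hj with hj' | hj'
              · rw [hj']; exact fun h => (mem_filter.1 (hB hi')).2 (hsym _ _ h)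
              · exact hBP i hi' j hj' hij

end Pool.Agent.Helper55.RD

end

section

set_option autoImplicit false

open Polynomial Finset Pool.Agent.Helper33

namespace Pool.Agent.Helper55.RD

variable {K : Type*} [Field K] {v : DV K}

namespace Sys

variable {d : ℕ} {ι : Type*} {S : Sys v d ι}

theorem core (hd : 2 ≤ d) [Finite ι] [DecidableEq ι] (hS : S.Good) (h0 : Cont0 v S.F S.G)
    (hr : 0 < S.r) (C : Finset ι) {a b c : ι} (ha : a ∈ C) (hb : b ∈ C) (hc : c ∈ C)
    (hab : a ≠ b) (hac : a ≠ c) (hbc : b ≠ c) (wab : v.o (wedge (S.x a) (S.x b)) = 0)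
    (wac : v.o (wedge (S.x a) (S.x c)) = 0) (wbc : v.o (wedge (S.x b) (S.x c)) = 0)
    (hC : ∀ i ∈ C, ∀ j ∈ C, i ≠ j → |S.g i j| ≤ ep d * S.r) (hcard : n₀ d ≤ C.card) : False := by
  classical
  set r := S.r with hrdef
  set e := ep d with hedef
  have he : 0 < e := ep_pos hd
  have hde : (d : ℝ) ^ 2 * e = 1 / 128 := ep_eq hd
  have hd2 : (2 : ℝ) ≤ d := by exact_mod_cast hd
  have hde1 : (d : ℝ) * e ≤ 1 / 256 := by (clear * - hde hd2; nlinarith)
  have hee : e ≤ 1 / 512 := by (clear * - hde1 he hd2; nlinarith)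
  have her : 0 < e * r := mul_pos he hr
  have hW : ∀ i j, i ≠ j → (v.o (wedge (S.x i) (S.x j)) : ℝ) = S.g i j + S.H i + S.H j - r := by
    intro i j hij
    rw [← S.W_eq i j, W_of_ne (S.hx i j hij)]
  have hW0 : ∀ i j, i ≠ j → (0 : ℝ) ≤ v.o (wedge (S.x i) (S.x j)) := fun i j hij =>
    DV.ge_le (ge_wedge (hS.prim i) (hS.prim j)) (S.hx i j hij)
  have gab := abs_le.1 (hC a ha b hb hab)
  have gac := abs_le.1 (hC a ha c hc hac)
  have gbc := abs_le.1 (hC b hb c hc hbc)
  have eab := hW a b hab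
  have eac := hW a c hac
  have ebc := hW b c hbc
  rw [wab] at eab
  rw [wac] at eac
  rw [wbc] at ebc
  push_cast at eab eac ebc
  have hHa : |S.H a - r / 2| ≤ 3 / 2 * (e * r) := by
    rw [abs_le]; constructor <;> (clear * - gab gac gbc eab eac ebc; linarith)
  have hHb : |S.H b - r / 2| ≤ 3 / 2 * (e * r) := by
    rw [abs_le]; constructor <;> (clear * - gab gac gbc eab eac ebc; linarith)
  have hH : ∀ i ∈ C, |S.H i - r / 2| ≤ 5 / 2 * (e * r) := by
    intro i hi
    by_cases hia : i = a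
    · rw [hia]; (clear * - her hHa; linarith)
    by_cases hib : i = b
    · rw [hib]; (clear * - her hHb; linarith)
    have h1 : v.o (wedge (S.x i) (S.x a)) = 0 ∨ v.o (wedge (S.x i) (S.x b)) = 0 := by
      by_contra hcon
      rw [not_or] at hcon
      have ka := hW0 i a hia
      have kb := hW0 i b hib
      have ka' : 0 ≤ v.o (wedge (S.x i) (S.x a)) := by exact_mod_cast ka
      have kb' : 0 ≤ v.o (wedge (S.x i) (S.x b)) := by exact_mod_cast kb
      have la : v.ge 1 (wedge (S.x i) (S.x a)) := by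
        right
        have : 1 ≤ v.o (wedge (S.x i) (S.x a)) := by omega
        exact_mod_cast this
      have lb : v.ge 1 (wedge (S.x i) (S.x b)) := by
        right
        have : 1 ≤ v.o (wedge (S.x i) (S.x b)) := by omega
        exact_mod_cast this
      have := DV.ge_le (prim_wedge (hS.prim i) (hS.prim a).int (hS.prim b).int la lb) (S.hx a b hab)
      rw [wab] at this
      norm_num at this
    rcases h1 with h1 | h1
    · have e1 := hW i a hia
      rw [h1] at e1
      have g1 := abs_le.1 (hC i hi a ha hia)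
      have k1 := abs_le.1 hHa
      push_cast at e1
      rw [abs_le]; constructor <;> (clear * - gab gac gbc eab eac ebc g1 e1; linarith)
    · have e1 := hW i b hib
      rw [h1] at e1
      have g1 := abs_le.1 (hC i hi b hb hib)
      have k1 := abs_le.1 hHb
      push_cast at e1
      rw [abs_le]; constructor <;> (clear * - gab gac gbc eab eac ebc g1 e1; linarith)
  set β : ℝ := 6 * (e * r) with hβ
  have hβC : ∀ i ∈ C, ∀ j ∈ C, i ≠ j → (v.o (wedge (S.x i) (S.x j)) : ℝ) ≤ β := by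
    intro i hi j hj hij
    rw [hW i j hij]
    have g1 := abs_le.1 (hC i hi j hj hij)
    have k1 := abs_le.1 (hH i hi)
    have k2 := abs_le.1 (hH j hj)
    linarith
  set A0 : ℝ := (d + 1) * d / 2 * β with hA0
  have hA0r : A0 ≤ 9 / 256 * r := by
    rw [hA0, hβ]
    have : (d + 1) * d / 2 * (6 * (e * r)) = 3 * (d ^ 2 * e + d * e) * r := by ring
    rw [this, hde]
    (clear * - hr hde1; nlinarith)
  have hA0pos : 0 ≤ A0 := by
    rw [hA0, hβ]; (clear * - hd he hr; positivity)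
  -- the good indices
  set C' := C.filter fun i => (v.o (S.c i) : ℝ) ≤ A0 with hC'
  have hC'card : C.card ≤ C'.card + d := by
    have h1 : (C \ C').card ≤ d := by
      refine card_large_c hS h0 (β := β) ?_ ?_
      · intro i hi j hj hij
        exact hβC i (mem_sdiff.1 hi).1 j (mem_sdiff.1 hj).1 hij
      · intro i hi
        rw [mem_sdiff, hC', mem_filter, not_and] at hi
        exact not_le.1 (hi.2 hi.1)
    have h2 := card_sdiff_of_subset (show C' ⊆ C from filter_subset _ _)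
    omega
  set y : ι → K × K := fun i => S.x (S.φ i) with hy
  set b0 : ℝ := (d - 1) * r + A0 with hb0
  obtain ⟨B, hBC, hBcard, hB⟩ := greedy
    (fun i j => ¬ (wedge (y i) (y j) ≠ 0 ∧ (v.o (wedge (y i) (y j)) : ℝ) ≤ b0))
    (by
      intro i j h h2
      apply h
      rw [wedge_swap (y j), v.o_neg]
      exact ⟨neg_ne_zero.2 h2.1, h2.2⟩)
    C' d (by
      intro j _
      refine card_large_wedge hd hS (β := β) (w := y j) ?_ (hS.prim _) ?_
      · intro i hi j hj hij
        exact hβC i (mem_filter.1 (mem_filter.1 hi).1).1 j (mem_filter.1 (mem_filter.1 hj).1).1 hij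
      · intro i hi
        exact (mem_filter.1 hi).2) (d ^ 6) (by unfold n₀ at hcard; omega)
  have hB' : ∀ i ∈ B, ∀ j ∈ B, i ≠ j →
      wedge (y i) (y j) ≠ 0 ∧ (v.o (wedge (y i) (y j)) : ℝ) ≤ b0 := fun i hi j hj hij =>
    not_not.1 (hB i hi j hj hij)
  -- the indices far from the images
  set L := C.filter fun l => ∀ i ∈ B, wedge (S.x l) (y i) ≠ 0 ∧
    (v.o (wedge (S.x l) (y i)) : ℝ) ≤ β with hL
  have hLcard : C.card ≤ L.card + d ^ 6 := by
    have h1 : C \ L ⊆ B.biUnion fun i => C.filter fun l =>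
          ¬ (wedge (S.x l) (y i) ≠ 0 ∧ (v.o (wedge (S.x l) (y i)) : ℝ) ≤ β) := by
      intro l hl
      rw [mem_sdiff, hL, mem_filter, not_and] at hl
      obtain ⟨hlC, hl2⟩ := hl
      replace hl2 := hl2 hlC
      simp only [not_forall] at hl2
      obtain ⟨i, hi, hil⟩ := hl2
      exact mem_biUnion.2 ⟨i, hi, mem_filter.2 ⟨hlC, hil⟩⟩
    have h2 : (B.biUnion fun i => C.filter fun l =>
          ¬ (wedge (S.x l) (y i) ≠ 0 ∧ (v.o (wedge (S.x l) (y i)) : ℝ) ≤ β)).card ≤ B.card * 1 := by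
      refine card_biUnion_le_card_mul _ _ _ fun i _ => ?_
      rw [card_le_one]
      intro l hl l' hl'
      by_contra hne
      rw [mem_filter] at hl hl'
      have g1 := ge_of_not_small hl.2
      have g2 := ge_of_not_small hl'.2
      have g1' : v.ge (⌊β⌋ + 1) (wedge (y i) (S.x l)) := by
        rw [wedge_swap]; exact DV.ge_neg g1
      have g2' : v.ge (⌊β⌋ + 1) (wedge (y i) (S.x l')) := by
        rw [wedge_swap]; exact DV.ge_neg g2
      have g3 := prim_wedge (hS.prim (S.φ i)) (hS.prim l).int (hS.prim l').int g1' g2'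
      exact not_ge_of_small ⟨S.hx l l' hne, hβC l hl.1 l' hl'.1 hne⟩ g3
    have h3 := card_le_card h1
    have h4 := card_sdiff_of_subset (show L ⊆ C from filter_subset _ _)
    omega
  have hd6 : 64 ≤ d ^ 6 := by
    calc 64 = 2 ^ 6 := by norm_num
      _ ≤ d ^ 6 := Nat.pow_le_pow_left hd 6
  obtain ⟨A, hAL, hAcard⟩ := exists_subset_card_eq (show d ^ 6 ≤ L.card by
    unfold n₀ at hcard
    have : (d + 1) * d ^ 6 = d * d ^ 6 + d ^ 6 := by ring
    have h2 : 2 * d ^ 6 ≤ d * d ^ 6 := Nat.mul_le_mul_right _ hd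
    omega)
  have hAC : ∀ l ∈ A, l ∈ C := fun l hl => (mem_filter.1 (hAL hl)).1
  have hAB : ∀ l ∈ A, ∀ i ∈ B, wedge (S.x l) (y i) ≠ 0 ∧
      (v.o (wedge (S.x l) (y i)) : ℝ) ≤ β := fun l hl => (mem_filter.1 (hAL hl)).2
  have hBC2 : ∀ i ∈ B, i ∈ C ∧ (v.o (S.c i) : ℝ) ≤ A0 := fun i hi => mem_filter.1 (hBC hi)
  -- heights of the images
  have hHy : ∀ i ∈ B, d * (r / 2 - 5 / 2 * (e * r)) - A0 ≤ S.H (S.φ i) := by
    intro i hi
    have h1 := S.hH i
    have h2 := abs_le.1 (hH i (hBC2 i hi).1)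
    have h3 := (hBC2 i hi).2
    have h4 : r / 2 - 5 / 2 * (e * r) ≤ S.H i := by (clear * - h2; linarith)
    have h5 : (d : ℝ) * (r / 2 - 5 / 2 * (e * r)) ≤ d * S.H i :=
      mul_le_mul_of_nonneg_left h4 (by positivity)
    (clear * - h1 h3 h5; linarith)
  have hder : d * (e * r) ≤ 1 / 256 * r := by
    rw [← mul_assoc]; exact mul_le_mul_of_nonneg_right hde1 hr.le
  have heer : e * r ≤ 1 / 512 * r := mul_le_mul_of_nonneg_right hee hr.le
  have hWy : ∀ i j, S.φ i ≠ S.φ j → (v.o (wedge (y i) (y j)) : ℝ) =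
      S.g (S.φ i) (S.φ j) + S.H (S.φ i) + S.H (S.φ j) - r := fun i j hij => hW _ _ hij
  have hφne : ∀ i ∈ B, ∀ j ∈ B, i ≠ j → S.φ i ≠ S.φ j := by
    intro i hi j hj hij h
    apply (hB' i hi j hj hij).1
    simp only [hy]
    rw [h, wedge_self]
  have gyy : ∀ i ∈ B, ∀ j ∈ B, i ≠ j → S.g (S.φ i) (S.φ j) ≤ r / 8 := by
    intro i hi j hj hij
    have h1 := hWy i j (hφne i hi j hj hij)
    have h2 := (hB' i hi j hj hij).2
    have h3 := hHy i hi
    have h4 := hHy j hj
    have h5 : d * (r / 2 - 5 / 2 * (e * r)) = d * r / 2 - 5 / 2 * (d * (e * r)) := by ring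
    rw [h5] at h3 h4
    (clear * - hA0r hder h1 h2 h3 h4; linarith)
  have hlφ : ∀ l ∈ A, ∀ i ∈ B, l ≠ S.φ i := by
    intro l hl i hi h
    apply (hAB l hl i hi).1
    simp only [hy]
    rw [h, wedge_self]
  have gxy : ∀ l ∈ A, ∀ i ∈ B, S.g l (S.φ i) ≤ r / 8 - (d - 1) / 2 * r := by
    intro l hl i hi
    have h1 := hW l (S.φ i) (hlφ l hl i hi)
    have h2 := (hAB l hl i hi).2
    simp only [hy] at h2
    have h3 := hHy i hi
    have h4 := abs_le.1 (hH l (hAC l hl))
    have h5 : d * (r / 2 - 5 / 2 * (e * r)) = d * r / 2 - 5 / 2 * (d * (e * r)) := by ring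
    rw [h5] at h3
    linarith
  have gxx : ∀ l ∈ A, ∀ l' ∈ A, l ≠ l' → S.g l l' ≤ r / 8 := by
    intro l hl l' hl' hne
    have := abs_le.1 (hC l (hAC l hl) l' (hAC l' hl') hne)
    (clear * - her heer this; linarith)
  -- the set of `2D` points
  set T := A ∪ B.image S.φ with hT
  have hdisj : Disjoint A (B.image S.φ) := by
    rw [disjoint_left]
    intro l hl hl2
    obtain ⟨i, hi, hil⟩ := mem_image.1 hl2
    exact hlφ l hl i hi hil.symm
  have hTcard : T.card = d ^ 6 + d ^ 6 := by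
    rw [hT, card_union_of_disjoint hdisj, hAcard, card_image_of_injOn, hBcard]
    intro i hi j hj h
    by_contra hne
    exact hφne i hi j hj hne h
  obtain ⟨s, hsT, hscard, hen⟩ := hS.energy hd 6 T hTcard
  rw [← hrdef] at hen
  have hTs : (T \ s).card = d ^ 6 := by
    rw [card_sdiff_of_subset hsT, hTcard, hscard]; omega
  let u : ι → ℝ := fun i => if i ∈ A then 1 else 0
  have hterm : ∀ i ∈ s, ∀ j ∈ T \ s, S.g i j ≤
      r / 8 - (d - 1) / 2 * r * (u i + u j - 2 * (u i * u j)) := by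
    intro i hi j hj
    have hiT := hsT hi
    rw [mem_sdiff] at hj
    have hij : i ≠ j := fun h => hj.2 (h ▸ hi)
    rw [hT, mem_union] at hiT
    have hjT := hj.1
    rw [hT, mem_union] at hjT
    by_cases hiA : i ∈ A <;> by_cases hjA : j ∈ A
    · have := gxx i hiA j hjA hij
      simp only [u, if_pos hiA, if_pos hjA]
      (clear * - this; linarith)
    · obtain ⟨j', hj', rfl⟩ := mem_image.1 (hjT.resolve_left hjA)
      have := gxy i hiA j' hj'
      simp only [u, if_pos hiA, if_neg hjA]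
      (clear * - this; linarith)
    · obtain ⟨i', hi', rfl⟩ := mem_image.1 (hiT.resolve_left hiA)
      have := gxy j hjA i' hi'
      rw [S.g_comm] at this
      simp only [u, if_neg hiA, if_pos hjA]
      (clear * - this; linarith)
    · obtain ⟨i', hi', rfl⟩ := mem_image.1 (hiT.resolve_left hiA)
      obtain ⟨j', hj', rfl⟩ := mem_image.1 (hjT.resolve_left hjA)
      have := gyy i' hi' j' hj' (fun h => hij (by rw [h]))
      simp only [u, if_neg hiA, if_neg hjA]
      (clear * - this; linarith)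
  have hsum := sum_le_sum fun i hi => sum_le_sum (hterm i hi)
  have hu : ∑ i ∈ s, u i + ∑ j ∈ T \ s, u j = d ^ 6 := by
    rw [add_comm, sum_sdiff hsT]
    have : ∑ i ∈ T, u i = ((T.filter fun i => i ∈ A).card : ℝ) := by
      rw [card_filter]; push_cast; rfl
    rw [this]
    have h2 : T.filter (fun i => i ∈ A) = A := by
      ext i
      rw [mem_filter, hT, mem_union]
      constructor
      · exact fun h => h.2
      · exact fun h => ⟨Or.inl h, h⟩
    rw [h2, hAcard]
    push_cast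
    rfl
  set p := ∑ i ∈ s, u i with hp
  set p' := ∑ j ∈ T \ s, u j with hp'
  have hsum2 : ∑ i ∈ s, ∑ j ∈ T \ s, (r / 8 - (d - 1) / 2 * r * (u i + u j - 2 * (u i * u j))) =
      (d : ℝ) ^ 6 * d ^ 6 * (r / 8) - (d - 1) / 2 * r * (d ^ 6 * (p + p') - 2 * (p * p')) := by
    have h1 : ∀ i, ∑ j ∈ T \ s, (r / 8 - (d - 1) / 2 * r * (u i + u j - 2 * (u i * u j))) =
        (d : ℝ) ^ 6 * (r / 8) - (d - 1) / 2 * r * (d ^ 6 * u i + p' - 2 * (u i * p')) := by
      intro i
      rw [sum_sub_distrib, sum_const, hTs, ← mul_sum, sum_sub_distrib, sum_add_distrib, sum_const,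
        hTs, ← mul_sum, ← mul_sum, ← hp']
      simp only [nsmul_eq_mul, Nat.cast_pow]
    rw [sum_congr rfl fun i _ => h1 i]
    rw [sum_sub_distrib, sum_const, hscard, ← mul_sum, sum_sub_distrib, sum_add_distrib, sum_const,
      hscard, ← mul_sum, ← mul_sum, ← sum_mul, ← hp]
    simp only [nsmul_eq_mul, Nat.cast_pow]
    ring
  rw [hsum2] at hsum
  have hD64 : (64 : ℝ) ≤ (d : ℝ) ^ 6 := by exact_mod_cast hd6
  set D : ℝ := (d : ℝ) ^ 6 with hD
  have hfin := hen.trans hsum
  have hp2 : p' = D - p := by (clear * - hu; linarith)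
  rw [hp2] at hfin
  have h1 : D * (p + (D - p)) - 2 * (p * (D - p)) ≥ D ^ 2 / 2 := by (clear * -; nlinarith [sq_nonneg (p - D / 2)])
  have h2 : (d - 1) / 2 * r * (D ^ 2 / 2) ≤
      (d - 1) / 2 * r * (D * (p + (D - p)) - 2 * (p * (D - p))) := by
    refine mul_le_mul_of_nonneg_left h1 ?_
    exact mul_nonneg (by (clear * - he hd2 hee; linarith)) hr.le
  have h3 : -((2 * d - 1) * D * r) ≤ D * D * (r / 8) - (d - 1) / 2 * r * (D ^ 2 / 2) := by (clear * - hfin h2; linarith)
  have h4 : D * r * (D * (2 * d - 3) / 8) ≤ D * r * (2 * d - 1) := by (clear * - hfin h2; nlinarith)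
  have h5 : D * (2 * d - 3) / 8 ≤ 2 * d - 1 :=
    le_of_mul_le_mul_left h4 (mul_pos (by (clear * - he hee hD64; linarith)) hr)
  have h6 : 64 * (2 * (d : ℝ) - 3) ≤ D * (2 * d - 3) :=
    mul_le_mul_of_nonneg_right hD64 (by (clear * - he hd2 hee; linarith))
  (clear * - he hd2 hee h5 h6; linarith)

end Sys

end Pool.Agent.Helper55.RD

end

section

set_option autoImplicit false

open Polynomial Finset Pool.Agent.Helper33

namespace Pool.Agent.Helper55.RD

variable {K : Type*} [Field K] {v : DV K}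

lemma trG_smul (d : ℕ) (N : M2 K) (κ : K) (F G : K[X]) :
    trG d N κ F G = C κ * trG d N 1 F G := by
  simp only [trG, C_neg, C_mul, C_1]; ring

namespace Sys

variable {d : ℕ} {ι : Type*} {S : Sys v d ι}

/-- coordinates in which three given points are `0, 1, ∞` -/
lemma exists_star (hd : 2 ≤ d) (S : Sys v d ι) {a b c : ι} (hab : a ≠ b) (hac : a ≠ c)
    (hbc : b ≠ c) : ∃ (N : M2 K) (κ : K) (S' : Sys v d ι), N.det ≠ 0 ∧ κ ≠ 0 ∧
      S'.F = trF d N κ S.F S.G ∧ S'.G = trG d N κ S.F S.G ∧ S'.Good ∧ Cont0 v S'.F S'.G ∧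
      (∀ i j, i ≠ j → S'.g i j = S.g i j) ∧ v.o (wedge (S'.x a) (S'.x b)) = 0 ∧
      v.o (wedge (S'.x a) (S'.x c)) = 0 ∧ v.o (wedge (S'.x b) (S'.x c)) = 0 := by
  set A := S.x a with hA
  set B := S.x b with hB
  set E := S.x c with hE
  have wAB : wedge A B ≠ 0 := S.hx a b hab
  have wEB : wedge E B ≠ 0 := S.hx c b hbc.symm
  have wAE : wedge A E ≠ 0 := S.hx a c hac
  set l1 := wedge E B with hl1
  set l2 := wedge A E with hl2
  have hrel1 : l1 * A.1 + l2 * B.1 = wedge A B * E.1 := by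
    simp only [hl1, hl2, wedge]; ring
  have hrel2 : l1 * A.2 + l2 * B.2 = wedge A B * E.2 := by
    simp only [hl1, hl2, wedge]; ring
  let N : M2 K := ⟨l1 * A.1, l2 * B.1, l1 * A.2, l2 * B.2⟩
  have hNdet : N.det = l1 * l2 * wedge A B := by
    simp only [N, M2.det, wedge]; ring
  have hN : N.det ≠ 0 := by
    rw [hNdet]; exact mul_ne_zero (mul_ne_zero wEB wAE) wAB
  have hne : trF d N 1 S.F S.G ≠ 0 ∨ trG d N 1 S.F S.G ≠ 0 := by
    by_contra hcon
    rw [not_or, not_not, not_not] at hcon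
    have h1 := resultant_tr N 1 S.hF S.hG
    rw [hcon.1, hcon.2, resultant_zero_right] at h1
    rw [zero_pow (by omega), zero_mul] at h1
    exact mul_ne_zero (pow_ne_zero _ (mul_ne_zero (pow_ne_zero _ one_ne_zero) hN))
      (mul_ne_zero (pow_ne_zero _ hN) S.hR) h1.symm
  obtain ⟨κ, hκ, hi1, hi2, hcont⟩ := exists_content v hne
  rw [← trF_smul] at hi1 hcont
  rw [← trG_smul] at hi2 hcont
  obtain ⟨S', hF', hG', -, hprim, hg, happ⟩ := S.exists_tr hd N hN κ hκ
  refine ⟨N, κ, S', hN, hκ, hF', hG', ⟨by rw [hF']; exact hi1, by rw [hG']; exact hi2, hprim⟩,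
    by rw [hF', hG']; exact hcont, hg, ?_⟩
  obtain ⟨la, hla, ha⟩ := happ a
  obtain ⟨lb, hlb, hb⟩ := happ b
  obtain ⟨lc, hlc, hc⟩ := happ c
  have ha1 := congrArg Prod.fst ha
  have ha2 := congrArg Prod.snd ha
  have hb1 := congrArg Prod.fst hb
  have hb2 := congrArg Prod.snd hb
  have hc1 := congrArg Prod.fst hc
  have hc2 := congrArg Prod.snd hc
  simp only [M2.app, N, ← hA, ← hB, ← hE] at ha1 ha2 hb1 hb2 hc1 hc2
  have xa2 : (S'.x a).2 = 0 := by
    have : l2 * wedge A B * (S'.x a).2 = 0 := by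
      simp only [wedge]
      linear_combination A.1 * ha2 - A.2 * ha1
    exact (mul_eq_zero.1 this).resolve_left (mul_ne_zero wAE wAB)
  have xb1 : (S'.x b).1 = 0 := by
    have : l1 * wedge A B * (S'.x b).1 = 0 := by
      simp only [wedge]
      linear_combination B.2 * hb1 - B.1 * hb2
    exact (mul_eq_zero.1 this).resolve_left (mul_ne_zero wEB wAB)
  have xc : (S'.x c).1 = (S'.x c).2 := by
    have h3 : wedge A B * ((l1 * A.1 * (S'.x c).1 + l2 * B.1 * (S'.x c).2)) =
        lc * (l1 * A.1 + l2 * B.1) := by rw [hc1, hrel1]; ring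
    have h4 : wedge A B * ((l1 * A.2 * (S'.x c).1 + l2 * B.2 * (S'.x c).2)) =
        lc * (l1 * A.2 + l2 * B.2) := by rw [hc2, hrel2]; ring
    have h5 : l1 * l2 * wedge A B * wedge A B * ((S'.x c).1 - (S'.x c).2) = 0 := by
      have e1 : l1 * wedge A B * (wedge A B * (S'.x c).1 - lc) = 0 := by
        have : wedge A B = A.1 * B.2 - A.2 * B.1 := rfl
        linear_combination B.2 * h3 - B.1 * h4 + (l1 * wedge A B * (S'.x c).1 - l1 * lc) * this
      have e2 : l2 * wedge A B * (wedge A B * (S'.x c).2 - lc) = 0 := by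
        have : wedge A B = A.1 * B.2 - A.2 * B.1 := rfl
        linear_combination A.1 * h4 - A.2 * h3 + (l2 * wedge A B * (S'.x c).2 - l2 * lc) * this
      linear_combination l2 * e1 - l1 * e2
    have h6 := (mul_eq_zero.1 h5).resolve_left
      (mul_ne_zero (mul_ne_zero (mul_ne_zero wEB wAE) wAB) wAB)
    exact sub_eq_zero.1 h6
  have pa : (S'.x a).1 ≠ 0 ∧ v.o (S'.x a).1 = 0 := by
    rcases (hprim a).2.2 with h | h
    · exact h
    · exact absurd xa2 h.1
  have pb : (S'.x b).2 ≠ 0 ∧ v.o (S'.x b).2 = 0 := by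
    rcases (hprim b).2.2 with h | h
    · exact absurd xb1 h.1
    · exact h
  have pc : (S'.x c).2 ≠ 0 ∧ v.o (S'.x c).2 = 0 := by
    rcases (hprim c).2.2 with h | h
    · rw [xc] at h; exact h
    · exact h
  refine ⟨?_, ?_, ?_⟩
  · have : wedge (S'.x a) (S'.x b) = (S'.x a).1 * (S'.x b).2 := by simp [wedge, xa2]
    rw [this, v.mul _ _ pa.1 pb.1, pa.2, pb.2, add_zero]
  · have : wedge (S'.x a) (S'.x c) = (S'.x a).1 * (S'.x c).2 := by simp [wedge, xa2]
    rw [this, v.mul _ _ pa.1 pc.1, pa.2, pc.2, add_zero]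
  · have : wedge (S'.x b) (S'.x c) = -((S'.x b).2 * (S'.x c).2) := by simp [wedge, xb1, xc]
    rw [this, v.o_neg, v.mul _ _ pb.1 pc.1, pb.2, pc.2, add_zero]

/-- **The local lower bound.** -/
theorem lower_bound [Finite ι] [DecidableEq ι] (hd : 2 ≤ d) (S S₀ : Sys v d ι) (hS₀ : S₀.Good)
    (hg₀ : ∀ i j, i ≠ j → S₀.g i j = S.g i j)
    (hmin : ∀ (N : M2 K) (κ : K), N.det ≠ 0 → κ ≠ 0 → IntP v (trF d N κ S.F S.G) →
      IntP v (trG d N κ S.F S.G) → v.o (resultant S₀.F S₀.G d d) ≤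
        v.o (resultant (trF d N κ S.F S.G) (trG d N κ S.F S.G) d d))
    (T : Finset ι) (hT : N₀ d ≤ T.card) :
    ∃ i ∈ T, ∃ j ∈ T, i ≠ j ∧ ep d * S₀.r ≤ S₀.g i j := by
  classical
  by_contra hcon
  push Not at hcon
  have hr0 := hS₀.r_nonneg hd
  have hd2 : (2 : ℝ) ≤ d := by exact_mod_cast hd
  rcases hr0.eq_or_lt with hr | hr
  · -- good reduction
    obtain ⟨T', hT', hT'c⟩ := exists_subset_card_eq (show d ^ 1 + d ^ 1 ≤ T.card by
      unfold N₀ at hT; rw [pow_one]; omega)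
    obtain ⟨s, hs, hsc, hen⟩ := hS₀.energy hd 1 T' hT'c
    rw [← hr, mul_zero, neg_zero] at hen
    have hsc' : (T' \ s).card = d ^ 1 := by rw [card_sdiff_of_subset hs, hT'c, hsc]; omega
    have hne : s.Nonempty := card_pos.1 (by rw [hsc, pow_one]; omega)
    have hne' : (T' \ s).Nonempty := card_pos.1 (by rw [hsc', pow_one]; omega)
    have hlt : ∑ i ∈ s, ∑ j ∈ T' \ s, S₀.g i j < 0 := by
      refine sum_neg (fun i hi => sum_neg (fun j hj => ?_) hne') hne
      rw [mem_sdiff] at hj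
      have h1 := hcon i (hT' (hs hi)) j (hT' hj.1) (fun h => hj.2 (h ▸ hi))
      rwa [← hr, mul_zero] at h1
    (clear * - hen hlt; linarith)
  · rcases ramsey (fun i j => -(ep d * S₀.r) ≤ S₀.g i j) (fun i j h => by rw [S₀.g_comm]; exact h)
      (n₀ d) (d ^ 11 + d ^ 11) T (by unfold N₀ at hT; omega) with ⟨A, hA, hAc, hAP⟩ | ⟨B, hB, hBc, hBP⟩
    · -- the clique
      obtain ⟨U, hU, hUc⟩ := exists_subset_card_eq (show 3 ≤ A.card by
        rw [hAc]; unfold n₀; omega)
      obtain ⟨a, b, c, hab, hac, hbc, rfl⟩ := card_eq_three.1 hUc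
      have ha : a ∈ A := hU (by simp)
      have hb : b ∈ A := hU (by simp)
      have hc : c ∈ A := hU (by simp)
      obtain ⟨N, κ, S', hN, hκ, hF', hG', hS', h0, hg, w1, w2, w3⟩ := S.exists_star hd hab hac hbc
      have hle : S₀.r ≤ S'.r := by
        have h1 := hmin N κ hN hκ (by rw [← hF']; exact hS'.intF) (by rw [← hG']; exact hS'.intG)
        rw [← hF', ← hG'] at h1
        unfold Sys.r
        have : (0 : ℝ) ≤ d * (d - 1) := mul_nonneg (by (clear * - hd2; linarith)) (by (clear * - hd2; linarith))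
        exact div_le_div_of_nonneg_right (by exact_mod_cast h1) this
      have hpos := ep_pos hd
      have hle2 : ep d * S₀.r ≤ ep d * S'.r := mul_le_mul_of_nonneg_left hle hpos.le
      refine S'.core hd hS' h0 (hr.trans_le hle) A ha hb hc hab hac hbc w1 w2 w3 ?_ hAc.ge
      intro i hi j hj hij
      rw [hg i j hij, ← hg₀ i j hij, abs_le]
      have h1 := hAP i hi j hj hij
      have h2 := hcon i (hA hi) j (hA hj) hij
      constructor <;> (clear * - hle2 h1 h2; linarith)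
    · obtain ⟨s, hs, hsc, hen⟩ := hS₀.energy hd 11 B hBc
      have hsc' : (B \ s).card = d ^ 11 := by rw [card_sdiff_of_subset hs, hBc, hsc]; omega
      have hle : ∑ i ∈ s, ∑ j ∈ B \ s, S₀.g i j ≤ ∑ i ∈ s, ∑ j ∈ B \ s, -(ep d * S₀.r) := by
        refine sum_le_sum fun i hi => sum_le_sum fun j hj => ?_
        rw [mem_sdiff] at hj
        exact (not_le.1 (hBP i (hs hi) j hj.1 (fun h => hj.2 (h ▸ hi)))).le
      rw [sum_const, sum_const, hsc, hsc'] at hle
      simp only [nsmul_eq_mul, Nat.cast_pow] at hle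
      have h1 := hen.trans hle
      have hpos : (0 : ℝ) < (d : ℝ) ^ 11 * S₀.r := by (clear * - hd hr; positivity)
      have h2 : (d : ℝ) ^ 11 * S₀.r * (d ^ 11 * ep d) ≤ (d : ℝ) ^ 11 * S₀.r * (2 * d - 1) := by
        (clear * - hen hle; nlinarith)
      have h3 := le_of_mul_le_mul_left h2 hpos
      have h4 := ep_eq hd
      have h5 : (d : ℝ) ^ 11 * ep d = (d : ℝ) ^ 9 / 128 := by
        calc (d : ℝ) ^ 11 * ep d = (d : ℝ) ^ 9 * ((d : ℝ) ^ 2 * ep d) := by ring
          _ = (d : ℝ) ^ 9 / 128 := by rw [h4]; ring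
      rw [h5] at h3
      have h6 : (256 : ℝ) ≤ (d : ℝ) ^ 8 := by
        calc (256 : ℝ) = 2 ^ 8 := by norm_num
          _ ≤ (d : ℝ) ^ 8 := pow_le_pow_left₀ (by norm_num) hd2 8
      have h7 : 256 * (d : ℝ) ≤ d ^ 9 := by
        calc 256 * (d : ℝ) ≤ (d : ℝ) ^ 8 * d := mul_le_mul_of_nonneg_right h6 (by (clear * - hd2; linarith))
          _ = (d : ℝ) ^ 9 := by ring
      (clear * - h3 h7; linarith)

/-- **Minimal model and the local lower bound.** -/
theorem exists_min_model [Finite ι] [DecidableEq ι] (hd : 2 ≤ d) (S : Sys v d ι) :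
    ∃ (N : M2 K) (κ : K) (S₀ : Sys v d ι), N.det ≠ 0 ∧ κ ≠ 0 ∧ S₀.F = trF d N κ S.F S.G ∧
      S₀.G = trG d N κ S.F S.G ∧ S₀.Good ∧ (∀ i j, i ≠ j → S₀.g i j = S.g i j) ∧
      (∀ i, ∃ l : K, l ≠ 0 ∧ N.app (S₀.x i) = (l * (S.x i).1, l * (S.x i).2)) ∧
      ∀ T : Finset ι, N₀ d ≤ T.card → ∃ i ∈ T, ∃ j ∈ T, i ≠ j ∧ ep d * S₀.r ≤ S₀.g i j := by
  classical
  let P : ℕ → Prop := fun n => ∃ (N : M2 K) (κ : K), N.det ≠ 0 ∧ κ ≠ 0 ∧
    IntP v (trF d N κ S.F S.G) ∧ IntP v (trG d N κ S.F S.G) ∧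
    v.o (resultant (trF d N κ S.F S.G) (trG d N κ S.F S.G) d d) ≤ n
  have hne : ∀ N : M2 K, N.det ≠ 0 → trF d N 1 S.F S.G ≠ 0 ∨ trG d N 1 S.F S.G ≠ 0 := by
    intro N hN
    by_contra hcon
    rw [not_or, not_not, not_not] at hcon
    have h1 := resultant_tr N 1 S.hF S.hG
    rw [hcon.1, hcon.2, resultant_zero_right] at h1
    rw [zero_pow (by omega), zero_mul] at h1
    exact mul_ne_zero (pow_ne_zero _ (mul_ne_zero (pow_ne_zero _ one_ne_zero) hN))
      (mul_ne_zero (pow_ne_zero _ hN) S.hR) h1.symm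
  have hex : ∃ n, P n := by
    let N : M2 K := ⟨1, 0, 0, 1⟩
    have hN : N.det ≠ 0 := by simp [N, M2.det]
    obtain ⟨κ, hκ, hi1, hi2, -⟩ := exists_content v (hne N hN)
    rw [← trF_smul] at hi1
    rw [← trG_smul] at hi2
    exact ⟨_, N, κ, hN, hκ, hi1, hi2, Int.self_le_toNat _⟩
  obtain ⟨N, κ, hN, hκ, hi1, hi2, hle⟩ := Nat.find_spec hex
  obtain ⟨S₀, hF', hG', -, hprim, hg, happ⟩ := S.exists_tr hd N hN κ hκ
  have hgood : S₀.Good := ⟨by rw [hF']; exact hi1, by rw [hG']; exact hi2, hprim⟩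
  refine ⟨N, κ, S₀, hN, hκ, hF', hG', hgood, hg, happ, fun T hT => ?_⟩
  refine lower_bound hd S S₀ hgood hg ?_ T hT
  intro N' κ' hN' hκ' hi1' hi2'
  rw [hF', hG']
  refine hle.trans ?_
  have hres0 : resultant (trF d N' κ' S.F S.G) (trG d N' κ' S.F S.G) d d ≠ 0 := by
    rw [resultant_tr N' κ' S.hF S.hG]
    exact mul_ne_zero (pow_ne_zero _ (mul_ne_zero (pow_ne_zero _ hκ') hN'))
      (mul_ne_zero (pow_ne_zero _ hN') S.hR)
  have h0 : 0 ≤ v.o (resultant (trF d N' κ' S.F S.G) (trG d N' κ' S.F S.G) d d) := by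
    have h1 := DV.ge_le (ge_resultant (m := d) (n := d) hi1' hi2') hres0
    have h2 : (0 : ℝ) ≤ v.o (resultant (trF d N' κ' S.F S.G) (trG d N' κ' S.F S.G) d d) := by
      simpa using h1
    exact_mod_cast h2
  have h3 : P (v.o (resultant (trF d N' κ' S.F S.G) (trG d N' κ' S.F S.G) d d)).toNat :=
    ⟨N', κ', hN', hκ', hi1', hi2', Int.self_le_toNat _⟩
  have h4 := Nat.find_min' hex h3
  have h5 : ((Nat.find hex : ℕ) : ℤ) ≤
      (v.o (resultant (trF d N' κ' S.F S.G) (trG d N' κ' S.F S.G) d d)).toNat := by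
    exact_mod_cast h4
  rw [Int.toNat_of_nonneg h0] at h5
  exact h5

end Sys

end Pool.Agent.Helper55.RD

end

section

set_option autoImplicit false

set_option linter.style.haveILetI false

namespace Pool.Agent.Helper16

open Polynomial IntermediateField

namespace Place

variable {K N : Type} [Field K] [Field N] [Algebra K N]

section ord

variable (v : Place K N)

theorem ord_mul {x y : N} (hx : x ≠ 0) (hy : y ≠ 0) : v.ord (x * y) = v.ord x + v.ord y := by
  unfold ord
  rw [map_mul, WithZero.log_mul (by simpa using hx) (by simpa using hy)]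
  ring

end ord

end Place

end Pool.Agent.Helper16

end

section

set_option autoImplicit false

open Polynomial Finset Pool.Agent.Helper33 Pool.Agent.Helper55.RD

namespace Pool.Agent.Helper55.RM

lemma o_zpow {K : Type*} [Field K] (v : DV K) {x : K} (hx : x ≠ 0) (n : ℤ) :
    v.o (x ^ n) = n * v.o x := by
  obtain ⟨m, rfl | rfl⟩ := n.eq_nat_or_neg
  · rw [zpow_natCast, v.o_pow _ hx]
  · rw [zpow_neg, zpow_natCast, v.o_inv _ (pow_ne_zero _ hx), v.o_pow _ hx]
    ring

namespace Place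

variable {k L : Type} [Field k] [Field L] [Algebra k L]

/-- conversion -/
def toP (v : Place k L) : Pool.Agent.Helper16.Place k L := ⟨v.val, v.surj, v.triv⟩

/-- the discrete valuation of a place -/
noncomputable def dv (v : Place k L) : DV L where
  o := v.toP.ord
  mul := fun x y hx hy => v.toP.ord_mul hx hy
  add := by
    intro x y hx hy hxy
    have h1 := v.val.map_add x y
    have hx0 : v.val x ≠ 0 := by simpa using hx
    have hy0 : v.val y ≠ 0 := by simpa using hy
    have hxy0 : v.val (x + y) ≠ 0 := by simpa using hxy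
    simp only [Pool.Agent.Helper16.Place.ord, toP]
    rcases le_max_iff.1 h1 with h2 | h2
    · rw [← WithZero.log_le_log hxy0 hx0] at h2
      exact min_le_of_left_le (by omega)
    · rw [← WithZero.log_le_log hxy0 hy0] at h2
      exact min_le_of_right_le (by omega)

lemma dv_nonneg_iff (v : Place k L) {x : L} (hx : x ≠ 0) : 0 ≤ v.dv.o x ↔ v.val x ≤ 1 :=
  v.toP.ord_nonneg_iff hx

lemma ge_zero_iff (v : Place k L) {x : L} : v.dv.ge 0 x ↔ v.val x ≤ 1 := by
  by_cases hx : x = 0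
  · subst hx
    simp [DV.ge]
  · rw [← v.dv_nonneg_iff hx, DV.ge]
    simp [hx]

lemma exists_ram {L₁ : Type} [Field L₁] [Algebra k L₁] [Algebra L L₁] (v : Place k L)
    (w : Place k L₁) (h : ∀ x : L, w.val (algebraMap L L₁ x) ≤ 1 ↔ v.val x ≤ 1) :
    ∃ e : ℤ, 0 < e ∧ ∀ x : L, x ≠ 0 → w.dv.o (algebraMap L L₁ x) = e * v.dv.o x := by
  obtain ⟨π, hπ0, hπ⟩ := v.toP.exists_uniformizer
  have hπ1 : v.dv.o π = 1 := by
    change -WithZero.log (v.val π) = 1
    have : v.val π = WithZero.exp (-1 : ℤ) := hπ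
    rw [this]
    simp
  have hinj := (algebraMap L L₁).injective
  have hmap : ∀ x : L, x ≠ 0 → algebraMap L L₁ x ≠ 0 := fun x hx => by simpa using hx
  have hunit : ∀ u : L, u ≠ 0 → v.dv.o u = 0 → w.dv.o (algebraMap L L₁ u) = 0 := by
    intro u hu h0
    have h1 : 0 ≤ w.dv.o (algebraMap L L₁ u) := by
      rw [w.dv_nonneg_iff (hmap u hu), h, ← v.dv_nonneg_iff hu, h0]
    have h2 : 0 ≤ w.dv.o (algebraMap L L₁ u⁻¹) := by
      rw [w.dv_nonneg_iff (hmap _ (inv_ne_zero hu)), h, ← v.dv_nonneg_iff (inv_ne_zero hu),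
        v.dv.o_inv _ hu, h0]
      simp
    rw [map_inv₀, w.dv.o_inv _ (hmap u hu)] at h2
    omega
  refine ⟨w.dv.o (algebraMap L L₁ π), ?_, ?_⟩
  · by_contra hcon
    have h1 : 0 ≤ w.dv.o (algebraMap L L₁ π⁻¹) := by
      rw [map_inv₀, w.dv.o_inv _ (hmap π hπ0)]
      omega
    rw [w.dv_nonneg_iff (hmap _ (inv_ne_zero hπ0)), h, ← v.dv_nonneg_iff (inv_ne_zero hπ0),
      v.dv.o_inv _ hπ0, hπ1] at h1
    omega
  · intro x hx
    have h1 : v.dv.o (x * π ^ (-(v.dv.o x))) = 0 := by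
      rw [v.dv.mul _ _ hx (zpow_ne_zero _ hπ0), o_zpow _ hπ0, hπ1]
      ring
    have h2 := hunit _ (mul_ne_zero hx (zpow_ne_zero _ hπ0)) h1
    rw [map_mul, map_zpow₀, w.dv.mul _ _ (hmap x hx) (zpow_ne_zero _ (hmap π hπ0)),
      o_zpow _ (hmap π hπ0)] at h2
    (clear * - h2; linarith)

end Place

section

variable {k L : Type} [Field k] [Field L] [Algebra k L]

lemma intP_deh (v : Place k L) {P : MvPolynomial (Fin 2) L} (h : ∀ m, v.val (P.coeff m) ≤ 1) :
    IntP v.dv (deh P) := by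
  intro n
  rw [deh_eq_sum, finsetSum_coeff]
  refine DV.ge_sum _ _ fun m _ => ?_
  rw [coeff_C_mul, coeff_X_pow]
  split_ifs
  · rw [mul_one, v.ge_zero_iff]; exact h m
  · rw [mul_zero]; exact DV.ge_zero _

end

end Pool.Agent.Helper55.RM

end

section

set_option autoImplicit false

open Polynomial Finset Pool.Agent.Helper33 Pool.Agent.Helper55.RD

namespace Pool.Agent.Helper55.RM

/-- multicolour Ramsey bounds -/
def mram (n : ℕ) : ℕ → ℕ
  | 0 => 2
  | s + 1 => ram n (mram n s)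

theorem multi_ramsey {ι γ : Type*} [DecidableEq ι] [DecidableEq γ] (n : ℕ) (P : γ → ι → ι → Prop)
    (hsym : ∀ c i j, P c i j → P c j i) (Γ : Finset γ) :
    ∀ T : Finset ι, mram n Γ.card ≤ T.card → (∀ i ∈ T, ∀ j ∈ T, i ≠ j → ∃ c ∈ Γ, P c i j) →
      ∃ c ∈ Γ, ∃ A ⊆ T, A.card = n ∧ ∀ i ∈ A, ∀ j ∈ A, i ≠ j → P c i j := by
  induction Γ using Finset.induction_on with
  | empty =>
    intro T hT h
    rw [card_empty, mram] at hT
    obtain ⟨i, hi, j, hj, hij⟩ := one_lt_card.1 (show 1 < T.card by omega)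
    obtain ⟨c, hc, -⟩ := h i hi j hj hij
    simp at hc
  | insert c Γ hc ih =>
    intro T hT h
    rw [card_insert_of_notMem hc, mram] at hT
    rcases ramsey (P c) (hsym c) n (mram n Γ.card) T hT with ⟨A, hA, hAc, hAP⟩ | ⟨B, hB, hBc, hBP⟩
    · exact ⟨c, mem_insert_self _ _, A, hA, hAc, hAP⟩
    · obtain ⟨c', hc', A, hA, hAc, hAP⟩ := ih B hBc.ge (by
        intro i hi j hj hij
        obtain ⟨c', hc', h'⟩ := h i (hB hi) j (hB hj) hij
        rcases mem_insert.1 hc' with rfl | hc'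
        · exact absurd h' (hBP i hi j hj hij)
        · exact ⟨c', hc', h'⟩)
      exact ⟨c', mem_insert_of_mem hc', A, hA.trans hB, hAc, hAP⟩

end Pool.Agent.Helper55.RM

end

section

set_option autoImplicit false

open Polynomial Finset Pool.Agent.Helper33 Pool.Agent.Helper55.RD

namespace Pool.Agent.Helper55.RM

/-- the bound -/
def bound (d s : ℕ) : ℕ := ∑ s' ∈ range (s + 1), mram (N₀ d) s' + (d + d + 2)

end Pool.Agent.Helper55.RM

end
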