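import Pool.Agent.Helper23.MB.L00_abc1
import Pool.Agent.Helper23.MB.L00_abc2

/-!
Parts of Helper55.RD.ASys, Helper55.RM.Form, Helper55.RM.Loc, Helper55.RM.Loc2, Helper55.RM.Iso2, Helper55.RM.Pack
-/

attribute [-simp] Valuation.IsUniformizer.val
attribute [local instance 5000]
  Pool.Agent.Helper23.MB.Inst.rCharZero Pool.Agent.Helper23.MB.Inst.rALM
  Pool.Agent.Helper23.MB.Inst.rARM Pool.Agent.Helper23.MB.Inst.rALSM
  Pool.Agent.Helper23.MB.Inst.rARSM Pool.Agent.Helper23.MB.Inst.rARRLE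
  Pool.Agent.Helper23.MB.Inst.rALRLE Pool.Agent.Helper23.MB.Inst.rARRLT
  Pool.Agent.Helper23.MB.Inst.rALRLT Pool.Agent.Helper23.MB.Inst.rPMRLT
  Pool.Agent.Helper23.MB.Inst.rMPRLT Pool.Agent.Helper23.MB.Inst.rPMM
  Pool.Agent.Helper23.MB.Inst.rMPM Pool.Agent.Helper23.MB.Inst.rPMSM
  Pool.Agent.Helper23.MB.Inst.rMPSM Pool.Agent.Helper23.MB.Inst.rEAOL
  Pool.Agent.Helper23.MB.Inst.rIOR Pool.Agent.Helper23.MB.Inst.rISOR
  Pool.Agent.Helper23.MB.Inst.rNZD Pool.Agent.Helper23.MB.Inst.zCharZero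
  Pool.Agent.Helper23.MB.Inst.zALM Pool.Agent.Helper23.MB.Inst.zARM
  Pool.Agent.Helper23.MB.Inst.zIOR Pool.Agent.Helper23.MB.Inst.zISOR
  Pool.Agent.Helper23.MB.Inst.zNZD Pool.Agent.Helper23.MB.Inst.qCharZero
  Pool.Agent.Helper23.MB.Inst.free Pool.Agent.Helper23.MB.Inst.faith
  Pool.Agent.Helper23.MB.Inst.torsionFree Pool.Agent.Helper23.MB.Inst.rfFaith
  Pool.Agent.Helper23.MB.Inst.hAdd Pool.Agent.Helper23.MB.Inst.hAddM
  Pool.Agent.Helper23.MB.Inst.hMul Pool.Agent.Helper23.MB.Inst.hMon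
  Pool.Agent.Helper23.MB.Inst.hZero Pool.Agent.Helper23.MB.Inst.hOne
  Pool.Agent.Helper23.MB.Inst.hMZ Pool.Agent.Helper23.MB.Inst.hRing
  Pool.Agent.Helper23.MB.Inst.aAdd Pool.Agent.Helper23.MB.Inst.aAddM
  Pool.Agent.Helper23.MB.Inst.aMul Pool.Agent.Helper23.MB.Inst.aMon
  Pool.Agent.Helper23.MB.Inst.aZero Pool.Agent.Helper23.MB.Inst.aOne
  Pool.Agent.Helper23.MB.Inst.aMZ Pool.Agent.Helper23.MB.Inst.aRing

namespace Pool.Agent.Helper33
end Pool.Agent.Helper33
namespace Pool.Agent.Helper55.RD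
end Pool.Agent.Helper55.RD

section

set_option autoImplicit false

open Polynomial Finset Pool.Agent.Helper33

namespace Pool.Agent.Helper55.RD

/-- A finite invariant family of points of a pair of forms `(F, G)` of degree `d`. -/
structure ASys (K : Type*) [Field K] (d : ℕ) (ι : Type*) where
  F : K[X]
  G : K[X]
  hF : F.natDegree ≤ d
  hG : G.natDegree ≤ d
  hR : resultant F G d d ≠ 0
  x : ι → K × K
  hx : ∀ i j, i ≠ j → wedge (x i) (x j) ≠ 0
  hx0 : ∀ i, x i ≠ 0
  φ : ι → ι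
  c : ι → K
  hc : ∀ i, c i ≠ 0
  hΦF : ∀ i, hom d F (x i).1 (x i).2 = c i * (x (φ i)).1
  hΦG : ∀ i, hom d G (x i).1 (x i).2 = c i * (x (φ i)).2

namespace ASys

variable {K : Type*} [Field K] {d : ℕ} {ι : Type*} (S : ASys K d ι)

/-- the scalar of the iterate -/
noncomputable def Ck : ℕ → ι → K
  | 0, _ => 1
  | k + 1, i => Ck k i ^ d * S.c (S.φ^[k] i)

lemma Ck_ne_zero (k : ℕ) (i : ι) : S.Ck k i ≠ 0 := by
  induction k with
  | zero => simp [Ck]
  | succ k ih => exact mul_ne_zero (pow_ne_zero _ ih) (S.hc _)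

lemma Ck_succ' (k : ℕ) (i : ι) : S.Ck (k + 1) i = S.c i ^ (d ^ k) * S.Ck k (S.φ i) := by
  induction k with
  | zero => simp [Ck]
  | succ k ih =>
    have h1 : S.Ck (k + 1 + 1) i = S.Ck (k + 1) i ^ d * S.c (S.φ^[k + 1] i) := rfl
    have h2 : S.Ck (k + 1) (S.φ i) = S.Ck k (S.φ i) ^ d * S.c (S.φ^[k] (S.φ i)) := rfl
    rw [h1, h2, ih, Function.iterate_succ_apply]
    ring

lemma exists_period [Finite ι] (φ : ι → ι) : ∃ m n : ℕ, 0 < n ∧ φ^[m + n] = φ^[m] := by
  obtain ⟨a, b, hab, h⟩ := Finite.exists_ne_map_eq_of_infinite (fun n : ℕ => φ^[n])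
  rcases lt_or_gt_of_ne hab with h1 | h1
  · refine ⟨a, b - a, by omega, ?_⟩
    rw [show a + (b - a) = b by omega]
    exact h.symm
  · refine ⟨b, a - b, by omega, ?_⟩
    rw [show b + (a - b) = a by omega]
    exact h

/-- preperiod -/
noncomputable def m [Finite ι] : ℕ := (exists_period S.φ).choose

/-- period -/
noncomputable def n [Finite ι] : ℕ := (exists_period S.φ).choose_spec.choose

variable [Finite ι]

lemma n_pos : 0 < S.n := (exists_period S.φ).choose_spec.choose_spec.1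

lemma per : S.φ^[S.m + S.n] = S.φ^[S.m] := (exists_period S.φ).choose_spec.choose_spec.2

/-- the exponent -/
noncomputable def E : ℕ := d ^ (S.m + S.n) - d ^ S.m

lemma E_pos (hd : 2 ≤ d) : 0 < S.E := by
  have := Nat.pow_lt_pow_right (show 1 < d by omega) (show S.m < S.m + S.n by have := S.n_pos; omega)
  unfold E
  omega

lemma E_add (hd : 2 ≤ d) : S.E + d ^ S.m = d ^ (S.m + S.n) := by
  have := Nat.pow_le_pow_right (show 0 < d by omega) (show S.m ≤ S.m + S.n by omega)
  unfold E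
  omega

/-- the element defining the height of a point -/
noncomputable def b (i : ι) : K := S.Ck (S.m + S.n) i / S.Ck S.m i

lemma b_ne_zero (i : ι) : S.b i ≠ 0 := div_ne_zero (S.Ck_ne_zero _ _) (S.Ck_ne_zero _ _)

lemma b_pow (hd : 2 ≤ d) (i : ι) : S.b i ^ d = S.c i ^ S.E * S.b (S.φ i) := by
  have h1 : S.Ck (S.m + S.n + 1) i = S.Ck (S.m + S.n) i ^ d * S.c (S.φ^[S.m + S.n] i) := rfl
  have h2 : S.Ck (S.m + 1) i = S.Ck S.m i ^ d * S.c (S.φ^[S.m] i) := rfl
  rw [S.per] at h1
  have h3 := S.Ck_succ' (S.m + S.n) i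
  have h4 := S.Ck_succ' S.m i
  have h5 : S.b i ^ d = S.Ck (S.m + S.n + 1) i / S.Ck (S.m + 1) i := by
    rw [h1, h2, mul_div_mul_right _ _ (S.hc _), b, div_pow]
  rw [h5, h3, h4, ← S.E_add hd, pow_add, b]
  have hc := S.hc i
  have hC := S.Ck_ne_zero S.m (S.φ i)
  (clear * - hc hC; field_simp)

/-- the local system at a valuation -/
noncomputable def toSys (hd : 2 ≤ d) (v : DV K) : Sys v d ι where
  F := S.F
  G := S.G
  hF := S.hF
  hG := S.hG
  hR := S.hR
  x := S.x
  hx := S.hx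
  hx0 := S.hx0
  φ := S.φ
  c := S.c
  hc := S.hc
  hΦF := S.hΦF
  hΦG := S.hΦG
  H := fun i => v.o (S.b i) / S.E
  hH := by
    intro i
    have hE : (S.E : ℝ) ≠ 0 := by
      have := S.E_pos hd
      (clear * - this; positivity)
    have h1 := congrArg v.o (S.b_pow hd i)
    rw [v.o_pow _ (S.b_ne_zero i), v.mul _ _ (pow_ne_zero _ (S.hc i)) (S.b_ne_zero _),
      v.o_pow _ (S.hc i)] at h1
    have h2 : (d : ℝ) * v.o (S.b i) = S.E * v.o (S.c i) + v.o (S.b (S.φ i)) := by
      exact_mod_cast h1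
    field_simp
    (clear * - h2; linarith)

/-- the element whose valuation is a multiple of the Arakelov-Green function -/
noncomputable def z (i j : ι) : K :=
  wedge (S.x i) (S.x j) ^ (S.E * (d * (d - 1))) * resultant S.F S.G d d ^ S.E /
    (S.b i * S.b j) ^ (d * (d - 1))

lemma z_ne_zero {i j : ι} (hij : i ≠ j) : S.z i j ≠ 0 :=
  div_ne_zero (mul_ne_zero (pow_ne_zero _ (S.hx i j hij)) (pow_ne_zero _ S.hR))
    (pow_ne_zero _ (mul_ne_zero (S.b_ne_zero i) (S.b_ne_zero j)))

/-- the multiplicity -/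
noncomputable def M : ℝ := S.E * (d * (d - 1))

lemma M_pos (hd : 2 ≤ d) : 0 < S.M := by
  have h1 : (2 : ℝ) ≤ d := by exact_mod_cast hd
  have h2 : (0 : ℝ) < S.E := by exact_mod_cast S.E_pos hd
  exact mul_pos h2 (mul_pos (by (clear * - h1; linarith)) (by (clear * - h1; linarith)))

lemma o_z (hd : 2 ≤ d) (v : DV K) {i j : ι} (hij : i ≠ j) :
    (v.o (S.z i j) : ℝ) = S.M * (S.toSys hd v).g i j := by
  have hE : (S.E : ℝ) ≠ 0 := by
    have := S.E_pos hd
    (clear * - this; positivity)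
  have hd1 : (d : ℝ) - 1 ≠ 0 := by
    have : (2 : ℝ) ≤ d := by exact_mod_cast hd
    (clear * - this; linarith)
  have hd0 : (d : ℝ) ≠ 0 := by positivity
  have hw := S.hx i j hij
  have hbb := mul_ne_zero (S.b_ne_zero i) (S.b_ne_zero j)
  have hcast : ((d - 1 : ℕ) : ℝ) = d - 1 := by
    rw [Nat.cast_sub (by omega)]; simp
  rw [z, v.o_div _ _ (mul_ne_zero (pow_ne_zero _ hw) (pow_ne_zero _ S.hR)) (pow_ne_zero _ hbb),
    v.mul _ _ (pow_ne_zero _ hw) (pow_ne_zero _ S.hR), v.o_pow _ hw, v.o_pow _ S.hR,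
    v.o_pow _ hbb, v.mul _ _ (S.b_ne_zero i) (S.b_ne_zero j)]
  have e1 : (S.toSys hd v).x = S.x := rfl
  have e2 : (S.toSys hd v).H = fun i => (v.o (S.b i) : ℝ) / S.E := rfl
  have e3 : (S.toSys hd v).F = S.F := rfl
  have e4 : (S.toSys hd v).G = S.G := rfl
  rw [Sys.g, Sys.r, e1, e2, e3, e4, W_of_ne hw, M]
  push_cast
  rw [hcast]
  field_simp
  ring

end ASys

section map

variable {K L : Type*} [Field K] [Field L] {d : ℕ} {ι : Type*}

lemma map_hom' (f : K →+* L) (n : ℕ) (p : K[X]) (a b : K) :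
    f (hom n p a b) = hom n (p.map f) (f a) (f b) := by
  simp [hom, map_sum]

lemma map_wedge (f : K →+* L) (x y : K × K) :
    wedge (f x.1, f x.2) (f y.1, f y.2) = f (wedge x y) := by
  simp [wedge]

/-- base change of an algebraic system -/
noncomputable def ASys.map (f : K →+* L) (S : ASys K d ι) : ASys L d ι where
  F := S.F.map f
  G := S.G.map f
  hF := natDegree_map_le.trans S.hF
  hG := natDegree_map_le.trans S.hG
  hR := by
    rw [resultant_map_map]
    exact (map_ne_zero f).2 S.hR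
  x := fun i => (f (S.x i).1, f (S.x i).2)
  hx := by
    intro i j hij
    rw [map_wedge]
    exact (map_ne_zero f).2 (S.hx i j hij)
  hx0 := by
    intro i h
    apply S.hx0 i
    have h1 := congrArg Prod.fst h
    have h2 := congrArg Prod.snd h
    exact Prod.ext ((map_eq_zero f).1 h1) ((map_eq_zero f).1 h2)
  φ := S.φ
  c := fun i => f (S.c i)
  hc := fun i => (map_ne_zero f).2 (S.hc i)
  hΦF := by
    intro i
    rw [← map_hom', S.hΦF, map_mul]
  hΦG := by
    intro i
    rw [← map_hom', S.hΦG, map_mul]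

variable [Finite ι]

lemma ASys.map_Ck (f : K →+* L) (S : ASys K d ι) (k : ℕ) (i : ι) :
    (S.map f).Ck k i = f (S.Ck k i) := by
  induction k with
  | zero => simp [Ck]
  | succ k ih =>
    have h1 : (S.map f).Ck (k + 1) i = (S.map f).Ck k i ^ d * f (S.c (S.φ^[k] i)) := rfl
    have h2 : S.Ck (k + 1) i = S.Ck k i ^ d * S.c (S.φ^[k] i) := rfl
    rw [h1, h2, ih, map_mul, map_pow]

lemma ASys.map_b (f : K →+* L) (S : ASys K d ι) (i : ι) : (S.map f).b i = f (S.b i) := by
  have h1 : (S.map f).b i = (S.map f).Ck (S.m + S.n) i / (S.map f).Ck S.m i := rfl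
  rw [h1, map_Ck, map_Ck, b, map_div₀]

lemma ASys.map_z (f : K →+* L) (S : ASys K d ι) (i j : ι) : (S.map f).z i j = f (S.z i j) := by
  have h1 : (S.map f).z i j =
      wedge (f (S.x i).1, f (S.x i).2) (f (S.x j).1, f (S.x j).2) ^ (S.E * (d * (d - 1))) *
        resultant (S.F.map f) (S.G.map f) d d ^ S.E /
      ((S.map f).b i * (S.map f).b j) ^ (d * (d - 1)) := rfl
  rw [h1, map_wedge, resultant_map_map, map_b, map_b, z, map_div₀, map_mul, map_pow, map_pow,
    map_pow, map_mul]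

end map

end Pool.Agent.Helper55.RD

end

section

set_option autoImplicit false

open Polynomial Finset Pool.Agent.Helper33 Pool.Agent.Helper55.RD

namespace Pool.Agent.Helper55.RM

section deh

variable {L : Type} [Field L]

lemma hom_deh {P : MvPolynomial (Fin 2) L} {d : ℕ} (hP : P.IsHomogeneous d)
    {A : Type} [CommRing A] [Algebra L A] (a b : A) :
    hom d (deh P) a b = MvPolynomial.aeval ![a, b] P := by
  rw [hom_eq_aeval, homogenize_eq_of_isHomogeneous (p := deh P) hP rfl]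

lemma eval_homogenize' (f : L[X]) (d : ℕ) (x : Fin 2 → L) :
    MvPolynomial.eval x (f.homogenize d) = hom d f (x 0) (x 1) := by
  rw [hom_eq_aeval, MvPolynomial.aeval_eq_eval]
  congr 2
  funext i
  fin_cases i <;> rfl

lemma eval_eq_hom {P : MvPolynomial (Fin 2) L} {d : ℕ} (hP : P.IsHomogeneous d) (x : Fin 2 → L) :
    MvPolynomial.eval x P = hom d (deh P) (x 0) (x 1) := by
  rw [hom_deh hP, MvPolynomial.aeval_eq_eval]
  congr 2
  funext i
  fin_cases i <;> rfl

end deh

end Pool.Agent.Helper55.RM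

end

section

set_option autoImplicit false

open Polynomial Finset Pool.Agent.Helper33 Pool.Agent.Helper55.RD

namespace Pool.Agent.Helper55.RM

section

variable {k L : Type} [Field k] [Field L] [Algebra k L]

/-- the matrix as an `M2` -/
def toM2 (A : Matrix (Fin 2) (Fin 2) L) : M2 L := ⟨A 0 0, A 0 1, A 1 0, A 1 1⟩

lemma det_toM2 (A : Matrix (Fin 2) (Fin 2) L) : (toM2 A).det = A.det := by
  rw [Matrix.det_fin_two, toM2, M2.det]

lemma app_toM2 (A : Matrix (Fin 2) (Fin 2) L) (x : Fin 2 → L) :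
    (toM2 A).app (x 0, x 1) = ((A.mulVec x) 0, (A.mulVec x) 1) := by
  simp [toM2, M2.app, Matrix.mulVec, dotProduct, Fin.sum_univ_two]

lemma lift_zero {Φ : Fin 2 → MvPolynomial (Fin 2) L} {d : ℕ} (hΦ : ∀ i, (Φ i).IsHomogeneous d)
    (x : Fin 2 → L) : lift Φ x = ![hom d (deh (Φ 0)) (x 0) (x 1), hom d (deh (Φ 1)) (x 0) (x 1)] := by
  funext i
  fin_cases i
  · exact eval_eq_hom (hΦ 0) x
  · exact eval_eq_hom (hΦ 1) x

/-- a conjugate pair of forms in terms of `trF`, `trG` -/
lemma conj_iff [Infinite L] {Φ Ψ : Fin 2 → MvPolynomial (Fin 2) L} {d : ℕ}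
    (hΦ : ∀ i, (Φ i).IsHomogeneous d) (hΨ : ∀ i, (Ψ i).IsHomogeneous d)
    {A : Matrix (Fin 2) (Fin 2) L} (h : Conj A Φ Ψ) : ∃ κ : L, κ ≠ 0 ∧
      trF d (toM2 A) κ (deh (Φ 0)) (deh (Φ 1)) = deh (Ψ 0) ∧
      trG d (toM2 A) κ (deh (Φ 0)) (deh (Φ 1)) = deh (Ψ 1) := by
  obtain ⟨hA, c, hc, h⟩ := h
  have hdet : (toM2 A).det ≠ 0 := by rwa [det_toM2]
  have key : ∀ t : L,
      hom d (deh (Φ 0)) ((toM2 A).app (t, 1)).1 ((toM2 A).app (t, 1)).2 =
        c * (A 0 0 * hom d (deh (Ψ 0)) t 1 + A 0 1 * hom d (deh (Ψ 1)) t 1) ∧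
      hom d (deh (Φ 1)) ((toM2 A).app (t, 1)).1 ((toM2 A).app (t, 1)).2 =
        c * (A 1 0 * hom d (deh (Ψ 0)) t 1 + A 1 1 * hom d (deh (Ψ 1)) t 1) := by
    intro t
    have h1 := h ![t, 1]
    rw [lift_zero hΦ, lift_zero hΨ] at h1
    have h2 := app_toM2 A ![t, 1]
    simp only [Matrix.cons_val_zero, Matrix.cons_val_one] at h1 h2
    rw [h2]
    constructor
    · have := congrFun h1 0
      simpa [Matrix.mulVec, dotProduct, Fin.sum_univ_two] using this
    · have := congrFun h1 1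
      simpa [Matrix.mulVec, dotProduct, Fin.sum_univ_two] using this
  refine ⟨(c * (toM2 A).det)⁻¹, inv_ne_zero (mul_ne_zero hc hdet), ?_, ?_⟩
  · refine Polynomial.funext fun t => ?_
    rw [← hom_eval (natDegree_trF _ _), ← hom_eval (natDegree_deh (hΨ 0))]
    have h1 := hom_trF (toM2 A) (c * (toM2 A).det)⁻¹ (deh (Φ 0)) (deh (Φ 1)) (d := d) (t, 1)
    simp only at h1
    rw [h1, (key t).1, (key t).2]
    have h3 : (toM2 A).e = A 1 1 := rfl
    have h4 : (toM2 A).b = A 0 1 := rfl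
    have h5 : (toM2 A).det = A 0 0 * A 1 1 - A 0 1 * A 1 0 := rfl
    rw [h3, h4]
    rw [inv_mul_eq_iff_eq_mul₀ (mul_ne_zero hc hdet), h5]
    ring
  · refine Polynomial.funext fun t => ?_
    rw [← hom_eval (natDegree_trG _ _), ← hom_eval (natDegree_deh (hΨ 1))]
    have h1 := hom_trG (toM2 A) (c * (toM2 A).det)⁻¹ (deh (Φ 0)) (deh (Φ 1)) (d := d) (t, 1)
    simp only at h1
    rw [h1, (key t).1, (key t).2]
    have h3 : (toM2 A).a = A 0 0 := rfl
    have h4 : (toM2 A).c = A 1 0 := rfl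
    have h5 : (toM2 A).det = A 0 0 * A 1 1 - A 0 1 * A 1 0 := rfl
    rw [h3, h4]
    rw [inv_mul_eq_iff_eq_mul₀ (mul_ne_zero hc hdet), h5]
    ring

end

end Pool.Agent.Helper55.RM

end

section

set_option autoImplicit false

open Polynomial Finset Pool.Agent.Helper33 Pool.Agent.Helper55.RD

namespace Pool.Agent.Helper55.RM

variable {k L : Type} [Field k] [Field L] [Algebra k L]

/-- the matrix of an `M2` -/
def ofM2 {K : Type} (N : M2 K) : Matrix (Fin 2) (Fin 2) K := !![N.a, N.b; N.c, N.e]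

end Pool.Agent.Helper55.RM

end

section

set_option autoImplicit false

open Polynomial Finset Pool.Agent.Helper33 Pool.Agent.Helper55.RD

namespace Pool.Agent.Helper55.RM

lemma lift_tr {L : Type} [Field L] {Φ : Fin 2 → MvPolynomial (Fin 2) L} {d : ℕ}
    (hΦ : ∀ i, (Φ i).IsHomogeneous d) {N : M2 L} (hN : N.det ≠ 0) {κ : L} (hκ : κ ≠ 0)
    (x : Fin 2 → L) : lift Φ ((ofM2 N).mulVec x) = (κ * N.det)⁻¹ • (ofM2 N).mulVec
      ![hom d (trF d N κ (deh (Φ 0)) (deh (Φ 1))) (x 0) (x 1),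
        hom d (trG d N κ (deh (Φ 0)) (deh (Φ 1))) (x 0) (x 1)] := by
  rw [lift_zero hΦ]
  have e1 : ((ofM2 N).mulVec x) 0 = (N.app (x 0, x 1)).1 := by
    simp [ofM2, M2.app, Matrix.mulVec, dotProduct, Fin.sum_univ_two]
  have e2 : ((ofM2 N).mulVec x) 1 = (N.app (x 0, x 1)).2 := by
    simp [ofM2, M2.app, Matrix.mulVec, dotProduct, Fin.sum_univ_two]
  have e3 := hom_trF N κ (deh (Φ 0)) (deh (Φ 1)) (d := d) (x 0, x 1)
  have e4 := hom_trG N κ (deh (Φ 0)) (deh (Φ 1)) (d := d) (x 0, x 1)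
  simp only at e3 e4
  rw [e1, e2]
  have hd0 : N.det = N.a * N.e - N.b * N.c := rfl
  have hne : κ * N.det ≠ 0 := mul_ne_zero hκ hN
  funext i
  fin_cases i
  · simp only [Fin.zero_eta, Matrix.cons_val_zero, Pi.smul_apply, smul_eq_mul, ofM2,
      Matrix.mulVec, dotProduct, Fin.sum_univ_two, Matrix.of_apply, Matrix.cons_val_one,
      Matrix.cons_val']
    rw [e3, e4, eq_inv_mul_iff_mul_eq₀ hne, hd0]
    ring
  · simp only [Fin.mk_one, Matrix.cons_val_zero, Pi.smul_apply, smul_eq_mul, ofM2,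
      Matrix.mulVec, dotProduct, Fin.sum_univ_two, Matrix.of_apply, Matrix.cons_val_one,
      Matrix.cons_val']
    rw [e3, e4, eq_inv_mul_iff_mul_eq₀ hne, hd0]
    ring

section map

variable {K K' : Type} [Field K] [Field K'] (f : K →+* K')

lemma map_pb (d : ℕ) (N : M2 K) (F : K[X]) : (pb d N F).map f = pb d (mapM2 f N) (F.map f) := by
  rw [pb, pb, map_hom]
  simp [mapM2]

lemma map_trF (d : ℕ) (N : M2 K) (κ : K) (F G : K[X]) :
    (trF d N κ F G).map f = trF d (mapM2 f N) (f κ) (F.map f) (G.map f) := by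
  rw [trF, trF, Polynomial.map_add, Polynomial.map_mul, Polynomial.map_mul, map_pb, map_pb]
  simp [mapM2]

lemma map_trG (d : ℕ) (N : M2 K) (κ : K) (F G : K[X]) :
    (trG d N κ F G).map f = trG d (mapM2 f N) (f κ) (F.map f) (G.map f) := by
  rw [trG, trG, Polynomial.map_add, Polynomial.map_mul, Polynomial.map_mul, map_pb, map_pb]
  simp [mapM2]

lemma det_mapM2 (N : M2 K) : (mapM2 f N).det = f N.det := by
  simp [mapM2, M2.det]

end map

section cross

variable {K : Type} [Field K] {d : ℕ} {ι : Type} [Finite ι] (S : ASys K d ι)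

lemma cross_pow {i j k l : ι} (hij : i ≠ j) (hkl : k ≠ l) (hik : i ≠ k) (hjl : j ≠ l) :
    S.z i j * S.z k l / (S.z i k * S.z j l) =
      (wedge (S.x i) (S.x j) * wedge (S.x k) (S.x l) /
        (wedge (S.x i) (S.x k) * wedge (S.x j) (S.x l))) ^ (S.E * (d * (d - 1))) := by
  have h1 := S.hx i j hij
  have h2 := S.hx k l hkl
  have h3 := S.hx i k hik
  have h4 := S.hx j l hjl
  have hb1 := S.b_ne_zero i
  have hb2 := S.b_ne_zero j
  have hb3 := S.b_ne_zero k
  have hb4 := S.b_ne_zero l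
  have hR := S.hR
  simp only [ASys.z, div_pow, mul_pow]
  field_simp

end cross

/-- If all the pairings are constants, the map is isotrivial. -/
theorem isotrivial_of_algebraic {k L : Type} [Field k] [Field L] [Algebra k L] {ι : Type}
    [Finite ι] {d : ℕ} (hd : 2 ≤ d) {Φ : Fin 2 → MvPolynomial (Fin 2) L}
    (hΦ : ∀ i, (Φ i).IsHomogeneous d) (S : ASys L d ι) (hF : S.F = deh (Φ 0))
    (hG : S.G = deh (Φ 1)) (T : Finset ι) (hT : d + d + 2 ≤ T.card)
    (hz : ∀ i j, i ≠ j → IsAlgebraic k (S.z i j)) : Isotrivial k d Φ := by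
  classical
  obtain ⟨a, -, b, -, c, -, hab, hac, hbc⟩ := two_lt_card.1 (show 2 < T.card by omega)
  set N : M2 L := ⟨wedge (S.x c) (S.x b) * (S.x a).1, wedge (S.x a) (S.x c) * (S.x b).1,
    wedge (S.x c) (S.x b) * (S.x a).2, wedge (S.x a) (S.x c) * (S.x b).2⟩ with hN
  have hdet : N.det = wedge (S.x c) (S.x b) * wedge (S.x a) (S.x c) * wedge (S.x a) (S.x b) := by
    simp only [hN, M2.det, wedge]
    ring
  have hcb := S.hx c b hbc.symm
  have hac' := S.hx a c hac
  have hab' := S.hx a b hab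
  have hdet0 : N.det ≠ 0 := by
    rw [hdet]
    exact mul_ne_zero (mul_ne_zero hcb hac') hab'
  -- the affine coordinates
  set t : ι → L := fun i => wedge (S.x i) (S.x b) * wedge (S.x a) (S.x c) /
    (wedge (S.x a) (S.x i) * wedge (S.x c) (S.x b)) with ht
  have happ : ∀ i, i ≠ a → ∃ l : L, l ≠ 0 ∧ N.app (t i, 1) = (l * (S.x i).1, l * (S.x i).2) := by
    intro i hia
    have hai := S.hx a i hia.symm
    refine ⟨wedge (S.x a) (S.x c) * wedge (S.x a) (S.x b) / wedge (S.x a) (S.x i),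
      div_ne_zero (mul_ne_zero hac' hab') hai, ?_⟩
    refine Prod.ext ?_ ?_
    · simp only [M2.app, hN, ht]
      field_simp
      simp only [wedge]
      ring
    · simp only [M2.app, hN, ht]
      field_simp
      simp only [wedge]
      ring
  have happa : N.app (1, 0) = (wedge (S.x c) (S.x b) * (S.x a).1,
      wedge (S.x c) (S.x b) * (S.x a).2) := by
    simp [M2.app, hN]
  have htalg : ∀ i, i ≠ a → IsAlgebraic k (t i) := by
    intro i hia
    by_cases hib : i = b
    · have : t i = 0 := by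
        simp only [ht, hib, wedge_self, zero_mul, zero_div]
      rw [this]
      exact isAlgebraic_zero
    have h1 : IsAlgebraic k (S.z i b * S.z a c / (S.z i a * S.z b c)) := by
      rw [div_eq_mul_inv]
      exact ((hz _ _ hib).mul (hz _ _ hac)).mul ((hz _ _ hia).mul (hz _ _ hbc)).inv
    rw [cross_pow S hib hac hia hbc] at h1
    have h2 : t i = wedge (S.x i) (S.x b) * wedge (S.x a) (S.x c) /
        (wedge (S.x i) (S.x a) * wedge (S.x b) (S.x c)) := by
      have e1 : wedge (S.x i) (S.x a) * wedge (S.x b) (S.x c) =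
          wedge (S.x a) (S.x i) * wedge (S.x c) (S.x b) := by
        simp only [wedge]; ring
      rw [e1]
    rw [← h2] at h1
    refine h1.of_pow ?_
    have := S.E_pos hd
    have h3 : 0 < d * (d - 1) := Nat.mul_pos (by omega) (by omega)
    exact Nat.mul_pos this h3
  have htinj : ∀ i j, i ≠ a → j ≠ a → t i = t j → i = j := by
    intro i j hia hja hij
    by_contra hne
    obtain ⟨l, hl, h1⟩ := happ i hia
    obtain ⟨m, hm, h2⟩ := happ j hja
    have h3 := N.wedge_app (t i, 1) (t j, 1)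
    rw [h1, h2] at h3
    have h4 : wedge (t i, (1 : L)) (t j, 1) = 0 := by
      rw [hij, wedge_self]
    have h5 : wedge (l * (S.x i).1, l * (S.x i).2) (m * (S.x j).1, m * (S.x j).2) =
        l * m * wedge (S.x i) (S.x j) := by
      simp only [wedge]; ring
    rw [h4, mul_zero, h5] at h3
    exact mul_ne_zero (mul_ne_zero hl hm) (S.hx i j hne) h3
  -- the field of constants
  set k₁ := algebraicClosure k L with hk₁
  have hτ : ∀ i, i ≠ a → ∃ τ : k₁, algebraMap k₁ L τ = t i := fun i hi =>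
    ⟨⟨t i, mem_algebraicClosure_iff.2 (htalg i hi)⟩, rfl⟩
  choose! τ hτ using hτ
  -- coordinates of all points
  have hy : ∀ i, ∃ (p q : k₁) (l : L), l ≠ 0 ∧
      N.app (algebraMap k₁ L p, algebraMap k₁ L q) = (l * (S.x i).1, l * (S.x i).2) := by
    intro i
    by_cases hia : i = a
    · refine ⟨1, 0, _, hcb, ?_⟩
      rw [map_one, map_zero, happa, hia]
    · obtain ⟨l, hl, h1⟩ := happ i hia
      refine ⟨τ i, 1, l, hl, ?_⟩
      rw [map_one, hτ i hia, h1]
  have hadj : ∀ i, ∃ (p q : k₁) (m : L), N.adj (S.x i) = (m * algebraMap k₁ L p,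
      m * algebraMap k₁ L q) := by
    intro i
    obtain ⟨p, q, l, hl, h1⟩ := hy i
    have h2 := N.adj_app (algebraMap k₁ L p, algebraMap k₁ L q)
    rw [h1] at h2
    have h3 : N.adj (l * (S.x i).1, l * (S.x i).2) =
        (l * (N.adj (S.x i)).1, l * (N.adj (S.x i)).2) := by
      simp only [M2.adj]
      refine Prod.ext ?_ ?_ <;> (simp only; ring)
    rw [h3] at h2
    have h4 := congrArg Prod.fst h2
    have h5 := congrArg Prod.snd h2
    simp only at h4 h5
    refine ⟨p, q, l⁻¹ * N.det, Prod.ext ?_ ?_⟩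
    · simp only
      rw [mul_assoc, ← h4, inv_mul_cancel_left₀ hl]
    · simp only
      rw [mul_assoc, ← h5, inv_mul_cancel_left₀ hl]
  -- the conjugate system
  have hRes : resultant (trF d N 1 (deh (Φ 0)) (deh (Φ 1))) (trG d N 1 (deh (Φ 0)) (deh (Φ 1))) d d
      ≠ 0 := by
    rw [resultant_tr N 1 (natDegree_deh (hΦ 0)) (natDegree_deh (hΦ 1)), ← hF, ← hG]
    exact mul_ne_zero (pow_ne_zero _ (mul_ne_zero (pow_ne_zero _ one_ne_zero) hdet0))
      (mul_ne_zero (pow_ne_zero _ hdet0) S.hR)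
  obtain ⟨l, f', g', hl, hf', hg', hf, hg⟩ := iso_core (k₁ := k₁) (d := d) (by omega)
    (natDegree_trF N 1) (natDegree_trG N 1) hRes ((T.erase a).image τ) (by
      rw [card_image_of_injOn]
      · have := pred_card_le_card_erase (s := T) (a := a)
        omega
      · intro i hi j hj hij
        have hi' : i ≠ a := ne_of_mem_erase hi
        have hj' : j ≠ a := ne_of_mem_erase hj
        refine htinj i j hi' hj' ?_
        rw [← hτ i hi', ← hτ j hj', hij]) (by
      intro s hs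
      obtain ⟨i, hi, rfl⟩ := mem_image.1 hs
      have hia : i ≠ a := ne_of_mem_erase hi
      obtain ⟨m, hm, h1⟩ := happ i hia
      obtain ⟨p, q, n, h2⟩ := hadj (S.φ i)
      have h3 := congrArg Prod.fst h2
      have h4 := congrArg Prod.snd h2
      simp only [M2.adj] at h3 h4
      have e1 : hom d (deh (Φ 0)) (N.app (t i, 1)).1 (N.app (t i, 1)).2 =
          m ^ d * (S.c i * (S.x (S.φ i)).1) := by
        rw [h1, hom_smul_smul, ← hF, S.hΦF]
      have e2 : hom d (deh (Φ 1)) (N.app (t i, 1)).1 (N.app (t i, 1)).2 =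
          m ^ d * (S.c i * (S.x (S.φ i)).2) := by
        rw [h1, hom_smul_smul, ← hG, S.hΦG]
      refine ⟨m ^ d * S.c i * n, p, q, ?_, ?_⟩
      · rw [← hom_eval (natDegree_trF N 1), hτ i hia]
        have := hom_trF N 1 (deh (Φ 0)) (deh (Φ 1)) (d := d) (t i, 1)
        simp only at this
        rw [this, e1, e2]
        linear_combination (m ^ d * S.c i) * h3
      · rw [← hom_eval (natDegree_trG N 1), hτ i hia]
        have := hom_trG N 1 (deh (Φ 0)) (deh (Φ 1)) (d := d) (t i, 1)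
        simp only at this
        rw [this, e1, e2]
        linear_combination (m ^ d * S.c i) * h4)
  -- over the algebraic closure
  set ψ := algebraMap L (AlgebraicClosure L) with hψ
  have hext : ∀ i, (ext (AlgebraicClosure L) Φ i).IsHomogeneous d := fun i => (hΦ i).map _
  have hN' : (mapM2 ψ N).det ≠ 0 := by
    rw [det_mapM2]; simpa using hdet0
  refine ⟨ofM2 (mapM2 ψ N), ![((f'.map (algebraMap k₁ L)).map ψ).homogenize d,
    ((g'.map (algebraMap k₁ L)).map ψ).homogenize d], ⟨?_, (mapM2 ψ N).det⁻¹ * ψ l,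
    mul_ne_zero (inv_ne_zero hN') (by simpa using hl), fun x => ?_⟩, ?_, ?_⟩
  · have : (ofM2 (mapM2 ψ N)).det = (mapM2 ψ N).det := by
      rw [ofM2, Matrix.det_fin_two_of, M2.det]
    rw [this]; exact hN'
  · have h1 := lift_tr hext hN' one_ne_zero x
    have e0 : deh (ext (AlgebraicClosure L) Φ 0) = (deh (Φ 0)).map ψ := deh_map _ _
    have e1 : deh (ext (AlgebraicClosure L) Φ 1) = (deh (Φ 1)).map ψ := deh_map _ _
    have e2 := map_trF ψ d N 1 (deh (Φ 0)) (deh (Φ 1))
    have e3 := map_trG ψ d N 1 (deh (Φ 0)) (deh (Φ 1))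
    rw [map_one] at e2 e3
    rw [e0, e1, ← e2, ← e3, hf, hg, Polynomial.map_mul, Polynomial.map_mul, map_C, hom_C_mul,
      hom_C_mul] at h1
    rw [h1, one_mul, mul_smul]
    congr 1
    have e4 : lift ![((f'.map (algebraMap k₁ L)).map ψ).homogenize d,
        ((g'.map (algebraMap k₁ L)).map ψ).homogenize d] x =
        ![hom d ((f'.map (algebraMap k₁ L)).map ψ) (x 0) (x 1),
          hom d ((g'.map (algebraMap k₁ L)).map ψ) (x 0) (x 1)] := by
      funext i
      fin_cases i <;> exact eval_homogenize' _ _ _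
    rw [e4, ← Matrix.mulVec_smul]
    congr 1
    funext i
    fin_cases i <;> simp
  · intro i
    fin_cases i
    · exact isHomogeneous_homogenize _
    · exact isHomogeneous_homogenize _
  · have halg : ∀ (P : k₁[X]) (n : ℕ), IsAlgebraic k (((P.map (algebraMap k₁ L)).map ψ).coeff n) := by
      intro P n
      rw [coeff_map, coeff_map]
      have h1 : IsAlgebraic k (algebraMap k₁ L (P.coeff n)) :=
        mem_algebraicClosure_iff.1 (P.coeff n).2
      exact h1.algebraMap
    intro i m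
    fin_cases i
    · simp only [Fin.zero_eta, Matrix.cons_val_zero, coeff_homogenize]
      split_ifs
      · exact halg _ _
      · exact isAlgebraic_zero
    · simp only [Fin.mk_one, Matrix.cons_val_one, Matrix.cons_val_zero, coeff_homogenize]
      split_ifs
      · exact halg _ _
      · exact isAlgebraic_zero

end Pool.Agent.Helper55.RM

end

section

set_option autoImplicit false

open Polynomial Finset Pool.Agent.Helper33 Pool.Agent.Helper55.RD

namespace Pool.Agent.Helper55.RM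

section pack

variable {L : Type} [Field L] {d : ℕ} {Φ : Fin 2 → MvPolynomial (Fin 2) L}

lemma lift_smul (hΦ : ∀ i, (Φ i).IsHomogeneous d) (c : L) (x : Fin 2 → L) :
    lift Φ (c • x) = c ^ d • lift Φ x := by
  rw [lift_zero hΦ, lift_zero hΦ]
  funext i
  fin_cases i <;> simp [hom_smul_smul]

lemma fmap_mk (h : IsRat d Φ) {v : Fin 2 → L} (hv : v ≠ 0) :
    fmap h (Projectivization.mk L v hv) = Projectivization.mk L (lift Φ v) (lift_ne_zero h hv) := by
  rw [fmap, Projectivization.mk_eq_mk_iff']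
  obtain ⟨a, ha⟩ := Projectivization.exists_smul_eq_mk_rep L v hv
  refine ⟨(a : L) ^ d, ?_⟩
  rw [← lift_smul h.1, ← ha]
  rfl

lemma fmap_iter (h : IsRat d Φ) (n : ℕ) {v : Fin 2 → L} (hv : v ≠ 0) :
    (fmap h)^[n] (Projectivization.mk L v hv) =
      Projectivization.mk L ((lift Φ)^[n] v) (iter_ne_zero h n hv) := by
  induction n with
  | zero => rfl
  | succ n ih =>
    rw [Function.iterate_succ_apply', ih, fmap_mk]
    congr 1
    rw [Function.iterate_succ_apply']

lemma fmap_of_mem (h : IsRat d Φ) {p : Projectivization L (Fin 2 → L)} (hp : p ∈ prePer Φ) :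
    ∃ m n : ℕ, m < n ∧ (fmap h)^[n] p = (fmap h)^[m] p := by
  obtain ⟨m, n, hmn, c, hc, h1⟩ := hp
  refine ⟨m, n, hmn, ?_⟩
  rw [← p.mk_rep, fmap_iter, fmap_iter, Projectivization.mk_eq_mk_iff']
  refine ⟨c, ?_⟩
  rw [h1]

lemma mk_eq_of_wedge {p q : Projectivization L (Fin 2 → L)}
    (h : wedge (p.rep 0, p.rep 1) (q.rep 0, q.rep 1) = 0) : p = q := by
  rw [← p.mk_rep, ← q.mk_rep, Projectivization.mk_eq_mk_iff']
  simp only [wedge] at h
  by_cases h0 : q.rep 0 = 0
  · have h1 : q.rep 1 ≠ 0 := by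
      intro h1
      apply q.rep_nonzero
      funext i
      fin_cases i <;> assumption
    have h2 : p.rep 0 = 0 := by
      rw [h0, mul_zero, sub_zero] at h
      exact (mul_eq_zero.1 h).resolve_right h1
    refine ⟨p.rep 1 / q.rep 1, ?_⟩
    funext i
    fin_cases i
    · simp [h0, h2]
    · simp [div_mul_cancel₀ _ h1]
  · refine ⟨p.rep 0 / q.rep 0, ?_⟩
    funext i
    fin_cases i
    · simp [div_mul_cancel₀ _ h0]
    · simp only [Fin.mk_one, Pi.smul_apply, smul_eq_mul]
      rw [div_mul_eq_mul_div, div_eq_iff h0]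
      linear_combination h

/-- a finite invariant set containing given preperiodic points -/
lemma exists_invariant (h : IsRat d Φ) (T : Finset (Projectivization L (Fin 2 → L)))
    (hT : ∀ p ∈ T, p ∈ prePer Φ) :
    ∃ O : Finset (Projectivization L (Fin 2 → L)), T ⊆ O ∧ ∀ p ∈ O, fmap h p ∈ O := by
  classical
  have h1 : ∀ p ∈ T, ∃ m n : ℕ, m < n ∧ (fmap h)^[n] p = (fmap h)^[m] p := fun p hp =>
    fmap_of_mem h (hT p hp)
  choose! m n hmn hiter using h1
  refine ⟨T.biUnion fun p => (range (n p)).image fun j => (fmap h)^[j] p, ?_, ?_⟩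
  · intro p hp
    refine mem_biUnion.2 ⟨p, hp, mem_image.2 ⟨0, mem_range.2 ?_, rfl⟩⟩
    have := hmn p hp
    omega
  · intro q hq
    obtain ⟨p, hp, hq⟩ := mem_biUnion.1 hq
    obtain ⟨j, hj, rfl⟩ := mem_image.1 hq
    rw [mem_range] at hj
    refine mem_biUnion.2 ⟨p, hp, mem_image.2 ?_⟩
    by_cases hj' : j + 1 < n p
    · exact ⟨j + 1, mem_range.2 hj', Function.iterate_succ_apply' _ _ _⟩
    · refine ⟨m p, mem_range.2 (hmn p hp), ?_⟩
      rw [← hiter p hp, show n p = j + 1 by omega, Function.iterate_succ_apply']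

lemma resultant_ne_zero_of_isRat (h : IsRat d Φ) (hd : 1 ≤ d) :
    resultant (deh (Φ 0)) (deh (Φ 1)) d d ≠ 0 := by
  have hext : ∀ i, (ext (AlgebraicClosure L) Φ i).IsHomogeneous d := fun i => (h.1 i).map _
  have key : ∀ a b : AlgebraicClosure L, hom d (deh (Φ 0)) a b = 0 → hom d (deh (Φ 1)) a b = 0 →
      a = 0 ∧ b = 0 := by
    intro a b h0 h1
    have h2 := h.2 ![a, b] (by
      funext i
      rw [lift]
      simp only [ext, MvPolynomial.eval_map]
      fin_cases i
      · rw [hom_deh (h.1 0)] at h0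
        exact h0
      · rw [hom_deh (h.1 1)] at h1
        exact h1)
    exact ⟨congrFun h2 0, congrFun h2 1⟩
  refine resultant_ne_zero_of_isCoprime ?_ (natDegree_deh (h.1 0)) (natDegree_deh (h.1 1)) ?_ hd
  · rw [isCoprime_iff_aeval_ne_zero_of_isAlgClosed L (AlgebraicClosure L)]
    intro a
    by_contra hcon
    rw [not_or, not_not, not_not] at hcon
    have hval : ∀ P : L[X], P.natDegree ≤ d → hom d P a (1 : AlgebraicClosure L) = aeval a P := by
      intro P hP
      rw [hom, Finset.Nat.sum_antidiagonal_eq_sum_range_succ_mk,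
        aeval_eq_sum_range' (Nat.lt_succ_of_le hP)]
      refine sum_congr rfl fun i _ => ?_
      rw [one_pow, mul_one, Algebra.smul_def]
    have := key a 1 (by rw [hval _ (natDegree_deh (h.1 0))]; exact hcon.1)
      (by rw [hval _ (natDegree_deh (h.1 1))]; exact hcon.2)
    exact one_ne_zero this.2
  · by_contra hcon
    rw [not_or] at hcon
    have hval : ∀ P : L[X], P.natDegree < d → hom d P (1 : AlgebraicClosure L) 0 = 0 := by
      intro P hP
      rw [hom]
      refine sum_eq_zero fun kl hkl => ?_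
      rw [HasAntidiagonal.mem_antidiagonal] at hkl
      by_cases h2 : kl.2 = 0
      · rw [coeff_eq_zero_of_natDegree_lt (by omega)]
        simp
      · rw [zero_pow h2, mul_zero]
    have := key 1 0 (hval _ (lt_of_le_of_ne (natDegree_deh (h.1 0)) hcon.1))
      (hval _ (lt_of_le_of_ne (natDegree_deh (h.1 1)) hcon.2))
    exact one_ne_zero this.1

/-- the algebraic system of a finite invariant set -/
theorem exists_ASys (h : IsRat d Φ) (hd : 1 ≤ d) (O : Finset (Projectivization L (Fin 2 → L)))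
    (hO : ∀ p ∈ O, fmap h p ∈ O) : ∃ S : ASys L d O, S.F = deh (Φ 0) ∧ S.G = deh (Φ 1) := by
  have hc : ∀ p : O, ∃ c : L, c ≠ 0 ∧ lift Φ p.1.rep = c • (fmap h p.1).rep := by
    intro p
    obtain ⟨a, ha⟩ := Projectivization.exists_smul_eq_mk_rep L (lift Φ p.1.rep)
      (lift_ne_zero h p.1.rep_nonzero)
    refine ⟨((a⁻¹ : Lˣ) : L), Units.ne_zero _, ?_⟩
    rw [fmap, ← ha]
    rw [← Units.smul_def, inv_smul_smul]
  choose c hc0 hc using hc
  refine ⟨
    { F := deh (Φ 0)
      G := deh (Φ 1)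
      hF := natDegree_deh (h.1 0)
      hG := natDegree_deh (h.1 1)
      hR := resultant_ne_zero_of_isRat h hd
      x := fun p => (p.1.rep 0, p.1.rep 1)
      hx := fun p q hpq hw => hpq (Subtype.ext (mk_eq_of_wedge hw))
      hx0 := fun p hp => p.1.rep_nonzero (by
        funext i
        fin_cases i
        · exact congrArg Prod.fst hp
        · exact congrArg Prod.snd hp)
      φ := fun p => ⟨fmap h p.1, hO p.1 p.2⟩
      c := c
      hc := hc0
      hΦF := fun p => by
        have h1 := congrFun (hc p) 0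
        rw [lift_zero h.1] at h1
        exact h1
      hΦG := fun p => by
        have h1 := congrFun (hc p) 1
        rw [lift_zero h.1] at h1
        exact h1 }, rfl, rfl⟩

end pack

end Pool.Agent.Helper55.RM

end
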