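import Pool.Agent.Helper23.MB.L01_ab0
import Pool.Agent.Helper23.MB.L01_ab10
import Pool.Agent.Helper23.MB.L01_ab2
import Pool.Agent.Helper23.MB.L01_ab7
import Pool.Agent.Helper23.MB.L01_ab8
import Pool.Agent.Helper23.MB.L01_ab9
import Pool.Agent.Helper23.MB.L01_abc0
import Pool.Agent.Helper23.MB.L01_abc1

/-!
Parts of Helper45.FFPlaces, Helper45.FFChar0, Helper45.S4Der, Helper16.FF10, Helper45.S4Res, Helper47.RR.Defs, Helper67.RRHurwitz, Helper31.RRK.Loc, Helper13.RR.A, Helper47.RR.B1
-/

attribute [-simp] Valuation.IsUniformizer.val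
attribute [local instance 5000]
  Pool.Agent.Helper23.MB.Inst.rCharZero Pool.Agent.Helper23.MB.Inst.rALM
  Pool.Agent.Helper23.MB.Inst.rARM Pool.Agent.Helper23.MB.Inst.rALSM
  Pool.Agent.Helper23.MB.Inst.rARSM Pool.Agent.Helper23.MB.Inst.rARRLE
  Pool.Agent.Helper23.MB.Inst.rALRLE Pool.Agent.Helper23.MB.Inst.rARRLT
  Pool.Agent.Helper23.MB.Inst.rALRLT Pool.Agent.Helper23.MB.Inst.rPMRLT
  Pool.Agent.Helper23.MB.Inst.rMPRLT Pool.Agent.Helper23.MB.Inst.rPMM
  Pool.Agent.Helper23.MB.Inst.rMPM Pool.Agent.Helper23.MB.Inst.rPMSM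
  Pool.Agent.Helper23.MB.Inst.rMPSM Pool.Agent.Helper23.MB.Inst.rEAOL
  Pool.Agent.Helper23.MB.Inst.rIOR Pool.Agent.Helper23.MB.Inst.rISOR
  Pool.Agent.Helper23.MB.Inst.rNZD Pool.Agent.Helper23.MB.Inst.zCharZero
  Pool.Agent.Helper23.MB.Inst.zALM Pool.Agent.Helper23.MB.Inst.zARM
  Pool.Agent.Helper23.MB.Inst.zIOR Pool.Agent.Helper23.MB.Inst.zISOR
  Pool.Agent.Helper23.MB.Inst.zNZD Pool.Agent.Helper23.MB.Inst.qCharZero
  Pool.Agent.Helper23.MB.Inst.free Pool.Agent.Helper23.MB.Inst.faith
  Pool.Agent.Helper23.MB.Inst.torsionFree Pool.Agent.Helper23.MB.Inst.rfFaith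
  Pool.Agent.Helper23.MB.Inst.hAdd Pool.Agent.Helper23.MB.Inst.hAddM
  Pool.Agent.Helper23.MB.Inst.hMul Pool.Agent.Helper23.MB.Inst.hMon
  Pool.Agent.Helper23.MB.Inst.hZero Pool.Agent.Helper23.MB.Inst.hOne
  Pool.Agent.Helper23.MB.Inst.hMZ Pool.Agent.Helper23.MB.Inst.hRing
  Pool.Agent.Helper23.MB.Inst.aAdd Pool.Agent.Helper23.MB.Inst.aAddM
  Pool.Agent.Helper23.MB.Inst.aMul Pool.Agent.Helper23.MB.Inst.aMon
  Pool.Agent.Helper23.MB.Inst.aZero Pool.Agent.Helper23.MB.Inst.aOne
  Pool.Agent.Helper23.MB.Inst.aMZ Pool.Agent.Helper23.MB.Inst.aRing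

namespace Pool.Agent.Helper16
end Pool.Agent.Helper16
namespace Pool.Agent.Helper33
end Pool.Agent.Helper33
namespace Pool.Agent.Helper45.FF
end Pool.Agent.Helper45.FF
namespace Pool.Agent.Helper45.S4
end Pool.Agent.Helper45.S4
namespace Pool.Agent.Helper47.RR
end Pool.Agent.Helper47.RR

section

set_option autoImplicit false

set_option linter.style.haveILetI false

namespace Pool.Agent.Helper45.FF

open Polynomial IntermediateField Pool.Agent.Helper16 TensorProduct IsDedekindDomain

section final

variable {k K : Type} [Field k] [Field K] [Algebra k K]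

theorem ord_D_ge (v : Place k K) (D : Derivation k K K) (g : K) (hg0 : g ≠ 0) (e : ℕ)
    (he : v.ord g ≤ e) (x : K) (hx : v.val g * v.val (D x) ≤ 1) (hDx : D x ≠ 0) :
    -(e : ℤ) ≤ v.ord (D x) := by
  rw [← map_mul, ← v.ord_nonneg_iff (mul_ne_zero hg0 hDx), v.ord_mul hg0 hDx] at hx
  omega

theorem deg_eq_one [IsAlgClosed k] (hN : IsFunctionField k K) (v : Place k K) : v.deg = 1 := by
  haveI := v.finite_resField hN
  have h1 : Function.Bijective (algebraMap k v.resField) :=
    IsAlgClosed.algebraMap_bijective_of_isIntegral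
  unfold Place.deg
  have := (LinearEquiv.ofBijective (Algebra.linearMap k v.resField) h1).finrank_eq
  rw [← this]
  exact Module.finrank_self k

theorem exists_const [IsAlgClosed k] (hN : IsFunctionField k K) (x : K) (hx : x ≠ 0)
    (h : ∀ v : Place k K, v.ord x = 0) : ∃ c : k, algebraMap k K c = x := by
  by_cases hxa : IsAlgebraic k x
  · have : IsIntegral k x := hxa.isIntegral
    haveI : FiniteDimensional k k⟮x⟯ := adjoin.finiteDimensional this
    obtain ⟨c, hc⟩ := (IsAlgClosed.algebraMap_bijective_of_isIntegral (k := k) (K := k⟮x⟯)).2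
      (⟨x, mem_adjoin_simple_self k x⟩)
    exact ⟨c, congrArg Subtype.val hc⟩
  · exfalso
    obtain ⟨S, h1, h2, h3⟩ := hN.zeros x hxa
    have hS : S = ∅ := by
      rw [Finset.eq_empty_iff_forall_notMem]
      intro v hv
      rw [h1, ← v.ord_pos_iff hx, h v] at hv
      exact lt_irrefl _ hv
    rw [hS, Finset.sum_empty] at h2
    omega

end final

end Pool.Agent.Helper45.FF

end

section

set_option autoImplicit false

set_option linter.style.haveILetI false

namespace Pool.Agent.Helper45.FF

open Polynomial IntermediateField Pool.Agent.Helper16 TensorProduct IsDedekindDomain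

open Pool.Agent.Helper33

section common

variable {k K : Type} [Field k] [Field K] [Algebra k K]

/-- the abstract discrete valuation of a place -/
noncomputable def plDV (v : Place k K) : DV K where
  o := v.ord
  mul := fun _ _ hx hy => v.ord_mul hx hy
  add := fun x y hx hy hxy => by
    have h1 := v.val.map_add x y
    have hx0 : v.val x ≠ 0 := by simpa using hx
    have hy0 : v.val y ≠ 0 := by simpa using hy
    have hxy0 : v.val (x + y) ≠ 0 := by simpa using hxy
    simp only [Place.ord]
    rcases le_max_iff.1 h1 with h2 | h2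
    · rw [← WithZero.log_le_log hxy0 hx0] at h2
      exact (min_le_left _ _).trans (by omega)
    · rw [← WithZero.log_le_log hxy0 hy0] at h2
      exact (min_le_right _ _).trans (by omega)

/-- The place system attached to a function field of one variable over an algebraically closed
field and a derivation with `D t = 1`. -/
theorem exists_psys_aux [IsAlgClosed k] (hN : IsFunctionField k K) (t : K)
    (ht : Transcendental k t) (D : Derivation k K K) (hD : D t = 1) :
    ∃ P : PSys k K (Place k K), (∀ x, P.D x = D x) ∧ (∀ v, P.pl v = plDV v) := by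
  classical
  haveI := hN.finiteDimensional t ht
  obtain ⟨g1, hg10, -, hg1⟩ := exists_denominator t ht D 1 (by rw [hD]; simp)
  haveI := finiteDimensional_inv (K := k) t
  obtain ⟨g2, hg20, -, hg2⟩ := exists_denominator t⁻¹ (transcendental_inv ht) D (-X ^ 2) (by
    rw [Derivation.leibniz_inv, hD]; simp)
  let e : Place k K → ℕ := fun v => (v.ord g1).toNat + (v.ord g2).toNat
  have hfin : ∀ x : K, {v : Place k K | v.ord x ≠ 0}.Finite := by
    intro x
    obtain ⟨S, h1, -⟩ := hN.product_formula x
    refine S.finite_toSet.subset ?_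
    intro v hv
    exact (h1 v).2 hv
  have hval : ∀ (v : Place k K) (x : K), v.val x ≤ 1 → D x ≠ 0 → -(e v : ℤ) ≤ v.ord (D x) := by
    intro v x hx hDx
    rcases le_total (v.val t) 1 with h | h
    · refine ord_D_ge v D g1 hg10 (e v) ?_ x (val_D_le t ht D g1 hg1 v h x hx) hDx
      have := Int.self_le_toNat (v.ord g1)
      simp only [e]
      push_cast
      omega
    · have h' : v.val t⁻¹ ≤ 1 := by
        rw [map_inv₀]
        exact inv_le_one_of_one_le₀ h
      refine ord_D_ge v D g2 hg20 (e v) ?_ x (val_D_le t⁻¹ (transcendental_inv ht) D g2 hg2 v h' x hx) hDx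
      have := Int.self_le_toNat (v.ord g2)
      simp only [e]
      push_cast
      omega
  refine ⟨
    { pl := fun v => plDV v
      ord_finite := fun x _ => hfin x
      sum_ord := ?_
      D := D
      D_add := fun x y => map_add D x y
      D_mul := fun x y => by rw [Derivation.leibniz]; rfl
      e := e
      e_finite := ?_
      ord_D := ?_
      ord_D' := ?_
      const := fun x hx h => exists_const hN x hx h }, fun _ => rfl, fun _ => rfl⟩
  · intro x hx
    obtain ⟨S, h1, h2⟩ := hN.product_formula x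
    simp only [deg_eq_one hN, Nat.cast_one, mul_one] at h2
    rw [finsum_eq_sum_of_support_subset _ (s := S)]
    · exact h2
    · intro v hv
      exact (h1 v).2 hv
  · refine ((hfin g1).union (hfin g2)).subset ?_
    intro v hv
    by_contra hcon
    simp only [Set.mem_union, Set.mem_ofPred_eq, not_or, not_not] at hcon
    apply hv
    simp only [e]
    rw [hcon.1, hcon.2]
    simp
  · intro v x hx hDx
    refine ord_D_ge_gen v D (e v) ?_ x hx hDx
    intro y hy
    by_cases hDy : D y = 0
    · rw [hDy, map_zero]; exact zero_le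
    · rw [val_le_exp_iff v _ hDy]
      exact hval v y hy hDy
  · intro v x hx hDx h0
    refine hval v x ?_ hDx
    exact (v.ord_nonneg_iff hx).1 h0

end common

end Pool.Agent.Helper45.FF

end

section

set_option autoImplicit false

set_option linter.style.haveILetI false

namespace Pool.Agent.Helper45.S4

open Polynomial IntermediateField Pool.Agent.Helper16 Pool.Agent.Helper33 Pool.Agent.Helper45.FF

variable {k L : Type} [Field k] [Field L] [Algebra k L]

/-- The residue field of a place is `k`. -/
theorem exists_res_val [IsAlgClosed k] (hN : IsFunctionField k L) (v : Place k L) (x : L)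
    (hx : v.val x ≤ 1) : ∃ c : k, v.val (x - algebraMap k L c) < 1 := by
  haveI := v.finite_resField hN
  have h1 : Function.Bijective (algebraMap k v.resField) :=
    IsAlgClosed.algebraMap_bijective_of_isIntegral
  have hx' : x ∈ v.ring := hx
  obtain ⟨c, hc⟩ := h1.2 (v.res x)
  refine ⟨c, ?_⟩
  have hc' : algebraMap k L c ∈ v.ring := v.ring.algebraMap_mem c
  rw [← v.res_eq_zero_iff (sub_mem hx' hc'), v.res_sub hx' hc', v.res_algebraMap, hc, sub_self]

section der

variable (v : Place k L) (D : Derivation k L L)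

/-- iterated estimate -/
theorem val_D_le_max [IsAlgClosed k] (hN : IsFunctionField k L) (B : ℤ)
    (hB : ∀ x, v.val x ≤ 1 → v.val (D x) ≤ WithZero.exp B) (π : L)
    (hπ : v.val π = WithZero.exp (-1 : ℤ)) (n : ℕ) :
    ∀ x, v.val x ≤ 1 → v.val (D x) ≤ max (v.val (D π)) (WithZero.exp (B - n)) := by
  have hπ0 : π ≠ 0 := by
    rintro rfl
    rw [map_zero] at hπ
    exact WithZero.exp_ne_zero hπ.symm
  induction n with
  | zero =>
    intro x hx
    refine (hB x hx).trans (le_max_of_le_right ?_)
    simp
  | succ n ih =>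
    intro x hx
    obtain ⟨c, hc⟩ := exists_res_val hN v x hx
    set y := (x - algebraMap k L c) * π⁻¹ with hy
    have hxy : x = algebraMap k L c + π * y := by
      rw [hy]; field_simp; ring
    have hy1 : v.val y ≤ 1 := by
      rw [hy, map_mul, map_inv₀, hπ]
      by_cases h0 : x - algebraMap k L c = 0
      · rw [h0, map_zero, zero_mul]; exact zero_le
      · have h1 := (v.ord_pos_iff h0).2 hc
        have h2 : v.val (x - algebraMap k L c) ≤ WithZero.exp (-1 : ℤ) := by
          rw [val_le_exp_iff v _ h0]; omega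
        calc v.val (x - algebraMap k L c) * (WithZero.exp (-1 : ℤ))⁻¹
            ≤ WithZero.exp (-1 : ℤ) * (WithZero.exp (-1 : ℤ))⁻¹ := mul_le_mul_left h2 _
          _ = 1 := mul_inv_cancel₀ WithZero.exp_ne_zero
    have hD : D x = π * D y + y * D π := by
      conv_lhs => rw [hxy]
      rw [map_add, Derivation.map_algebraMap, zero_add, Derivation.leibniz, smul_eq_mul, smul_eq_mul]
    rw [hD]
    refine (v.val.map_add _ _).trans (max_le ?_ ?_)
    · rw [map_mul, hπ]
      rcases le_max_iff.1 (ih y hy1) with h | h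
      · refine le_max_of_le_left ?_
        calc WithZero.exp (-1 : ℤ) * v.val (D y) ≤ 1 * v.val (D y) :=
              mul_le_mul_left exp_neg_one_lt.le _
          _ ≤ v.val (D π) := by rw [one_mul]; exact h
      · refine le_max_of_le_right ?_
        calc WithZero.exp (-1 : ℤ) * v.val (D y) ≤ WithZero.exp (-1 : ℤ) * WithZero.exp (B - n) :=
              mul_le_mul_right h _
          _ = WithZero.exp (B - (n + 1 : ℕ)) := by
              rw [← WithZero.exp_add]; congr 1; push_cast; ring
    · refine le_max_of_le_left ?_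
      rw [map_mul]
      calc v.val y * v.val (D π) ≤ 1 * v.val (D π) := mul_le_mul_left hy1 _
        _ = v.val (D π) := one_mul _

end der

end Pool.Agent.Helper45.S4

end

section

set_option autoImplicit false

set_option linter.style.haveILetI false

namespace Pool.Agent.Helper16

open Polynomial IntermediateField IsDedekindDomain

section

variable {K N : Type} [Field K] [Field N] [Algebra K N]

theorem Place.finrank_le_of_algebraic (hN : IsFunctionField K N) (w : Place K N)
    (W : Submodule K N) (hW : ∀ f ∈ W, IsAlgebraic K f) : Module.finrank K W ≤ w.deg := by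
  haveI := w.finite_resField hN
  have hmem : ∀ f ∈ W, f ∈ w.ring := by
    intro f hf
    by_cases h0 : f = 0
    · rw [h0]; exact zero_mem _
    · rw [w.mem_ring, w.val_eq_one_of_algebraic (hW f hf) h0]
  let T : W →ₗ[K] w.resField :=
    { toFun := fun f => w.res (f : N)
      map_add' := by
        intro f g
        rw [← w.res_add (hmem _ f.2) (hmem _ g.2)]
        rfl
      map_smul' := by
        intro c f
        have h1 : ((c • f : W) : N) = algebraMap K N c * (f : N) := by
          rw [Submodule.coe_smul, Algebra.smul_def]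
        rw [h1, w.res_mul (w.ring.algebraMap_mem c) (hmem _ f.2), w.res_algebraMap,
          RingHom.id_apply, Algebra.smul_def] }
  apply LinearMap.finrank_le_finrank_of_injective (f := T)
  rw [← LinearMap.ker_eq_bot, LinearMap.ker_eq_bot']
  intro f hf
  by_contra h0
  have h0' : (f : N) ≠ 0 := fun h => h0 (Subtype.ext h)
  have h1 : w.res (f : N) = 0 := hf
  rw [w.res_eq_zero_iff (hmem _ f.2), w.val_eq_one_of_algebraic (hW f f.2) h0'] at h1
  exact lt_irrefl _ h1

/-- There is a transcendental function whose only pole is at a given place. -/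
theorem IsFunctionField.exists_single_pole (hN : IsFunctionField K N) (w : Place K N) :
    ∃ f : N, Transcendental K f ∧ ∀ v : Place K N, v ≠ w → v.val f ≤ 1 := by
  classical
  obtain ⟨y, hy0, hy⟩ := w.exists_uniformizer
  have hlt : w.val y < 1 := by rw [hy]; exact exp_neg_one_lt
  have hytr := w.transcendental_of_val_ne_one hy0 hlt.ne
  obtain ⟨T, hT, hsum, -⟩ := hN.zeros y hytr
  set s := y⁻¹ with hs
  have hstr : Transcendental K s := transcendental_inv hytr
  haveI := hN.finiteDimensional s hstr
  have hn : Module.finrank K⟮s⟯ N = Module.finrank K⟮y⟯ N := by rw [hs, finrank_inv]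
  obtain ⟨n, hnn⟩ : ∃ n, Module.finrank K⟮s⟯ N = n := ⟨_, rfl⟩
  rw [hnn] at hn
  obtain ⟨x, hxi, hxint⟩ : ∃ x : Fin n → N, LinearIndependent K⟮s⟯ x ∧ ∀ i, IntOver K s (x i) :=
    hnn ▸ exists_integral_basis s hstr
  have hwT : w ∈ T := (hT w).2 hlt
  -- the pole orders
  let k : Place K N → ℕ := fun v => (v.ord y).toNat
  have hk : ∀ v ∈ T, (k v : ℤ) = v.ord y ∧ 1 ≤ k v := by
    intro v hv
    have h1 : 0 < v.ord y := (v.ord_pos_iff hy0).2 ((hT v).1 hv)
    refine ⟨Int.toNat_of_nonneg h1.le, ?_⟩
    have : (k v : ℤ) = v.ord y := Int.toNat_of_nonneg h1.le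
    omega
  have hvs : ∀ v ∈ T, v.val s = WithZero.exp (k v : ℤ) := by
    intro v hv
    have h0 : v.val y ≠ 0 := by simpa using hy0
    rw [(hk v hv).1, hs, map_inv₀, Place.ord, ← WithZero.exp_log h0, WithZero.log_exp,
      WithZero.exp_neg]
  have hx0 : ∀ i, x i ≠ 0 := fun i => hxi.ne_zero i
  obtain ⟨j, hj⟩ : ∃ j : ℕ, ∀ v ∈ T, ∀ i, WithZero.log (v.val (x i)) ≤ j := by
    refine ⟨∑ v ∈ T, ∑ i, (WithZero.log (v.val (x i))).toNat, fun v hv i => ?_⟩
    have h1 : (WithZero.log (v.val (x i))).toNat ≤ ∑ i, (WithZero.log (v.val (x i))).toNat :=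
      Finset.single_le_sum (f := fun i => (WithZero.log (v.val (x i))).toNat)
        (fun _ _ => Nat.zero_le _) (Finset.mem_univ i)
    have h2 : ∑ i, (WithZero.log (v.val (x i))).toNat ≤
        ∑ v ∈ T, ∑ i, (WithZero.log (v.val (x i))).toNat :=
      Finset.single_le_sum (f := fun v : Place K N => ∑ i, (WithZero.log (v.val (x i))).toNat)
        (fun _ _ => Nat.zero_le _) hv
    have h3 := Int.self_le_toNat (WithZero.log (v.val (x i)))
    push_cast
    have h4 : ((WithZero.log (v.val (x i))).toNat : ℤ) ≤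
        ((∑ v ∈ T, ∑ i, (WithZero.log (v.val (x i))).toNat : ℕ) : ℤ) := by
      exact_mod_cast h1.trans h2
    push_cast at h4
    exact h3.trans h4
  set M : ℕ := j * n + w.deg with hM
  let F : Fin (M + 1) × Fin n → N := fun p => s ^ (p.1 : ℕ) * x p.2
  have hF : LinearIndependent K F := linearIndependent_pow_mul s hstr x hxi (M + 1)
  let W : Submodule K N := Submodule.span K (Set.range F)
  haveI : FiniteDimensional K W := FiniteDimensional.span_of_finite K (Set.finite_range F)
  have hWdim : Module.finrank K W = (M + 1) * n := by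
    rw [finrank_span_eq_card hF]
    simp
  have hW1 : ∀ v ∈ T, W ≤ v.filt (((M + j) * k v : ℕ) : ℤ) := by
    intro v hv
    rw [Submodule.span_le]
    rintro _ ⟨p, rfl⟩
    change v.val (s ^ (p.1 : ℕ) * x p.2) ≤ _
    rw [map_mul, map_pow, hvs v hv, ← WithZero.exp_log (show v.val (x p.2) ≠ 0 by simpa using hx0 p.2),
      ← WithZero.exp_nsmul, ← WithZero.exp_add, WithZero.exp_le_exp]
    have h1 := hj v hv p.2
    have h2 : (p.1 : ℕ) ≤ M := Nat.lt_succ_iff.1 p.1.2
    have h3 := (hk v hv).2
    have h4 : (p.1 : ℕ) * k v + j ≤ (M + j) * k v := by (clear * - h3 h2; nlinarith)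
    have h5 : (((p.1 : ℕ) * k v + j : ℕ) : ℤ) ≤ (((M + j) * k v : ℕ) : ℤ) := by exact_mod_cast h4
    simp only [nsmul_eq_mul]
    push_cast at h5 ⊢
    (clear * - h1 h4; linarith)
  have hW2 : ∀ v : Place K N, v ∉ T → W ≤ v.filt 0 := by
    intro v hv
    have h1 : v.val s ≤ 1 := by
      rw [hT, not_lt] at hv
      rw [hs, map_inv₀]
      exact inv_le_one_of_one_le₀ hv
    rw [Submodule.span_le]
    rintro _ ⟨p, rfl⟩
    change v.val (s ^ (p.1 : ℕ) * x p.2) ≤ _
    rw [map_mul, map_pow, WithZero.exp_zero]
    exact mul_le_one' (pow_le_one' h1 _) ((hxint p.2).mem_ring v h1)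
  have hcut := finrank_le_cut_finset (fun v : Place K N => v.finite_resField hN) (T.erase w)
    (fun v => (M + j) * k v) W (fun v hv => hW1 v (Finset.mem_of_mem_erase hv))
  set W' : Submodule K N := W ⊓ ⨅ v ∈ T.erase w, v.filt 0 with hW'
  have hsum2 : ∑ v ∈ T, k v * v.deg = n := by
    have : ((∑ v ∈ T, k v * v.deg : ℕ) : ℤ) = (n : ℤ) := by
      rw [hn, ← hsum]
      push_cast
      exact Finset.sum_congr rfl fun v hv => by rw [(hk v hv).1]
    exact_mod_cast this
  have hsum3 : ∑ v ∈ T.erase w, (M + j) * k v * v.deg = (M + j) * ∑ v ∈ T.erase w, k v * v.deg := by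
    rw [Finset.mul_sum]
    exact Finset.sum_congr rfl fun v _ => by ring
  have hsum4 : k w * w.deg + ∑ v ∈ T.erase w, k v * v.deg = n := by
    rw [← hsum2, Finset.add_sum_erase T (fun v => k v * v.deg) hwT]
  have hkw := (hk w hwT).2
  have hdw := w.deg_pos hN
  have hbig : w.deg < Module.finrank K W' := by
    rw [hWdim, hsum3] at hcut
    have h1 : 1 ≤ k w * w.deg := Nat.mul_pos hkw hdw
    set r := ∑ v ∈ T.erase w, k v * v.deg
    have h2 : r + 1 ≤ n := by omega
    have h3 : (M + j) * (r + 1) ≤ (M + j) * n := Nat.mul_le_mul_left _ h2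
    (clear * - hM h1 hcut hsum4 h3; nlinarith)
  by_contra hcon
  push Not at hcon
  have hall : ∀ f ∈ W', IsAlgebraic K f := by
    intro f hf
    by_contra hftr
    obtain ⟨v, hvw, hv⟩ := hcon f hftr
    by_cases hvT : v ∈ T
    · have h1 : f ∈ ⨅ v ∈ T.erase w, v.filt 0 := hf.2
      rw [Submodule.mem_iInf] at h1
      have h2 := h1 v
      rw [Submodule.mem_iInf] at h2
      have h3 := h2 (Finset.mem_erase.2 ⟨hvw, hvT⟩)
      rw [v.mem_filt, WithZero.exp_zero] at h3
      exact absurd hv (not_lt.2 h3)
    · have h3 := hW2 v hvT hf.1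
      rw [v.mem_filt, WithZero.exp_zero] at h3
      exact absurd hv (not_lt.2 h3)
  have := w.finrank_le_of_algebraic hN W' hall
  omega

end

end Pool.Agent.Helper16

end

section

set_option autoImplicit false

set_option linter.style.haveILetI false

namespace Pool.Agent.Helper45.S4

open Polynomial IntermediateField Pool.Agent.Helper16 Pool.Agent.Helper33 Pool.Agent.Helper45.FF

variable {k L M : Type} [Field k] [Field L] [Field M] [Algebra k L] [Algebra k M] [Algebra L M]
  [IsScalarTower k L M]

theorem exists_resPl (hN : IsFunctionField k L) [Algebra.IsAlgebraic L M] (w : Place k M) :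
    ∃ v : Place k L, ∃ r : ℕ, 1 ≤ r ∧ ∀ x : L, w.ord (algebraMap L M x) = r * v.ord x := by
  obtain ⟨y, hy⟩ := not_trivial_on (L := L) w
  set O : ValuationSubring L := (w.val.comap (algebraMap L M)).valuationSubring with hO
  have hmem : ∀ x : L, x ∈ O ↔ w.val (algebraMap L M x) ≤ 1 := fun x => Iff.rfl
  obtain ⟨v, hv⟩ := hN.exists_place O (by
    intro a
    rw [hmem, ← IsScalarTower.algebraMap_apply]
    exact w.val_algebraMap_le a) y (by
    rw [hmem, not_le]; exact hy)
  have hv' : ∀ x : L, v.val x ≤ 1 ↔ w.val (algebraMap L M x) ≤ 1 := fun x => (hv x).trans (hmem x)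
  have hunit : ∀ x : L, x ≠ 0 → v.ord x = 0 → w.ord (algebraMap L M x) = 0 := by
    intro x hx h0
    have hx' : algebraMap L M x ≠ 0 := by simpa using hx
    rw [w.ord_eq_zero_iff hx']
    rw [v.ord_eq_zero_iff hx] at h0
    apply le_antisymm
    · rw [← hv']; exact h0.le
    · have h1 : w.val (algebraMap L M x⁻¹) ≤ 1 := by
        rw [← hv', map_inv₀, h0, inv_one]
      rw [map_inv₀, map_inv₀] at h1
      exact (inv_le_one₀ (zero_lt_iff.2 (by simpa using hx))).1 h1
  obtain ⟨π, hπ0, hπ⟩ := exists_ord_eq_one v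
  have hπ0' : algebraMap L M π ≠ 0 := by simpa using hπ0
  have hr : 0 < w.ord (algebraMap L M π) := by
    rw [w.ord_pos_iff hπ0']
    have h1 : v.val π < 1 := (v.ord_pos_iff hπ0).1 (by rw [hπ]; norm_num)
    refine lt_of_le_of_ne ((hv' π).1 h1.le) ?_
    intro h2
    have h3 : w.val (algebraMap L M π⁻¹) ≤ 1 := by
      rw [map_inv₀, map_inv₀, h2, inv_one]
    rw [← hv', map_inv₀] at h3
    exact absurd ((inv_le_one₀ (zero_lt_iff.2 (by simpa using hπ0))).1 h3) (not_le.2 h1)
  refine ⟨v, (w.ord (algebraMap L M π)).toNat, by omega, ?_⟩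
  intro x
  by_cases hx : x = 0
  · subst hx; simp [Place.ord_zero]
  have hzp : ∀ n : ℤ, v.ord (π ^ n) = n := by
    intro n
    rw [Place.ord, map_zpow₀, WithZero.log_zpow]
    have : WithZero.log (v.val π) = -1 := by
      have h := hπ
      rw [Place.ord] at h
      omega
    rw [this]
    simp
  have hzpw : ∀ n : ℤ, w.ord (algebraMap L M π ^ n) = n * w.ord (algebraMap L M π) := by
    intro n
    rw [Place.ord, map_zpow₀, WithZero.log_zpow, Place.ord]
    simp
  set n := v.ord x with hn
  have hπn : π ^ n ≠ 0 := zpow_ne_zero _ hπ0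
  set u := x * (π ^ n)⁻¹ with hu
  have hu0 : u ≠ 0 := mul_ne_zero hx (inv_ne_zero hπn)
  have hou : v.ord u = 0 := by
    rw [hu, v.ord_mul hx (inv_ne_zero hπn), v.ord_inv, hzp, ← hn]; ring
  have hxu : x = π ^ n * u := by rw [hu]; field_simp
  have h1 := hunit u hu0 hou
  conv_lhs => rw [hxu]
  have hπn' : algebraMap L M (π ^ n) ≠ 0 := fun h => hπn ((map_eq_zero _).1 h)
  rw [map_mul, w.ord_mul hπn' (by simpa using hu0), h1, add_zero, map_zpow₀, hzpw]
  have h2 : ((w.ord (algebraMap L M π)).toNat : ℤ) = w.ord (algebraMap L M π) :=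
    Int.toNat_of_nonneg hr.le
  rw [h2]; ring

section defs

variable (hN : IsFunctionField k L) [Algebra.IsAlgebraic L M]

/-- the restriction of a place of `M` to `L` -/
noncomputable def resPl (w : Place k M) : Place k L := (exists_resPl hN w).choose

/-- the ramification index of a place of `M` over `L` -/
noncomputable def ram (w : Place k M) : ℕ := (exists_resPl hN w).choose_spec.choose

theorem ram_pos (w : Place k M) : 1 ≤ ram hN w := (exists_resPl hN w).choose_spec.choose_spec.1

theorem ord_algebraMap (w : Place k M) (x : L) :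
    w.ord (algebraMap L M x) = ram hN w * (resPl hN w).ord x :=
  (exists_resPl hN w).choose_spec.choose_spec.2 x

end defs

/-- The places of `M` above a place of `L` and the degree formula. -/
theorem sum_ram [IsAlgClosed k] (hN : IsFunctionField k L) [FiniteDimensional L M] (v : Place k L) :
    ∃ T : Finset (Place k M), (∀ w, w ∈ T ↔ resPl hN w = v) ∧
      ∑ w ∈ T, ram hN w = Module.finrank L M := by
  have hM : IsFunctionField k M := isFunctionField_ext hN
  obtain ⟨f, hf, hfv⟩ := hN.exists_single_pole v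
  have hs : Transcendental k f⁻¹ := transcendental_inv hf
  set s := f⁻¹ with hs'
  have hs0 : s ≠ 0 := transcendental_ne_zero hs
  obtain ⟨S, hS, hsum, hpos⟩ := hN.zeros s hs
  have hSv : ∀ v', v'.val s < 1 → v' = v := by
    intro v' hv'
    by_contra hne
    have h1 := hfv v' hne
    rw [hs', map_inv₀] at hv'
    have hf0 : v'.val f ≠ 0 := by simpa using transcendental_ne_zero hf
    have h2 := (inv_lt_one₀ (zero_lt_iff.2 hf0)).1 hv'
    exact absurd h1 (not_le.2 h2)
  have hSeq : S = {v} := by
    have hne : S.Nonempty := by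
      rw [Finset.nonempty_iff_ne_empty]
      rintro rfl
      rw [Finset.sum_empty] at hsum
      have : (Module.finrank k⟮s⟯ L : ℤ) ≠ 0 := by exact_mod_cast hpos.ne'
      exact this hsum.symm
    apply Finset.eq_singleton_iff_nonempty_unique_mem.2 ⟨hne, ?_⟩
    intro v' hv'
    exact hSv v' ((hS v').1 hv')
  rw [hSeq, Finset.sum_singleton, deg_eq_one hN, Nat.cast_one, mul_one] at hsum
  have hvs : v.val s < 1 := (hS v).1 (by rw [hSeq]; simp)
  have hsM : Transcendental k (algebraMap L M s) := by
    rwa [transcendental_algebraMap_iff (algebraMap L M).injective]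
  obtain ⟨T, hT, hTsum, -⟩ := hM.zeros (algebraMap L M s) hsM
  have hT' : ∀ w, w ∈ T ↔ resPl hN w = v := by
    intro w
    rw [hT, ← w.ord_pos_iff (by simpa using hs0), ord_algebraMap hN w]
    have hr := ram_pos hN w
    constructor
    · intro h
      apply hSv
      rw [← (resPl hN w).ord_pos_iff hs0]
      by_contra hcon
      rw [not_lt] at hcon
      have : (ram hN w : ℤ) * (resPl hN w).ord s ≤ 0 :=
        mul_nonpos_of_nonneg_of_nonpos (by positivity) hcon
      omega
    · intro h
      rw [h]
      have := (v.ord_pos_iff hs0).2 hvs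
      positivity
  refine ⟨T, hT', ?_⟩
  rw [finrank_tower] at hTsum
  have h2 : ∑ w ∈ T, w.ord (algebraMap L M s) * (w.deg : ℤ) =
      (∑ w ∈ T, (ram hN w : ℤ)) * Module.finrank k⟮s⟯ L := by
    rw [Finset.sum_mul]
    apply Finset.sum_congr rfl
    intro w hw
    rw [deg_eq_one hM, Nat.cast_one, mul_one, ord_algebraMap hN w, (hT' w).1 hw, hsum]
  rw [h2] at hTsum
  have h3 : (Module.finrank k⟮s⟯ L : ℤ) ≠ 0 := by exact_mod_cast hpos.ne'
  have h4 : (∑ w ∈ T, (ram hN w : ℤ)) = Module.finrank L M := by
    apply mul_right_cancel₀ h3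
    rw [hTsum]
    push_cast
    ring
  exact_mod_cast h4

end Pool.Agent.Helper45.S4

end

section

set_option autoImplicit false

set_option linter.style.haveILetI false

namespace Pool.Agent.Helper47.RR

open Pool.Agent.Helper16

variable {k L : Type} [Field k] [Field L] [Algebra k L]

/-- The divisor of a function (with `prin 0 = 0`). -/
noncomputable def prin (hN : IsFunctionField k L) (f : L) : Dv k L :=
  Finsupp.ofSupportFinite (fun v => v.ord f) (by
    obtain ⟨S, h1, -⟩ := hN.product_formula f
    refine S.finite_toSet.subset ?_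
    intro v hv
    exact (h1 v).2 hv)

end Pool.Agent.Helper47.RR

end

section

set_option autoImplicit false

set_option linter.style.haveILetI false

set_option linter.unusedSectionVars false

namespace Pool.Agent.Helper47.RR

open Pool.Agent.Helper16 Pool.Agent.Helper45.S4

variable {k L M : Type} [Field k] [Field L] [Field M] [Algebra k L] [Algebra k M] [Algebra L M]
  [IsScalarTower k L M]

section con

variable [IsAlgClosed k] (hN : IsFunctionField k L) [FiniteDimensional L M]

/-- the places above a place -/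
noncomputable def fib (v : Place k L) : Finset (Place k M) := (sum_ram (M := M) hN v).choose

theorem mem_fib (v : Place k L) (w : Place k M) : w ∈ fib (M := M) hN v ↔ resPl hN w = v :=
  (sum_ram (M := M) hN v).choose_spec.1 w

theorem sum_fib (v : Place k L) :
    ∑ w ∈ fib (M := M) hN v, ram hN w = Module.finrank L M :=
  (sum_ram (M := M) hN v).choose_spec.2

end con

end Pool.Agent.Helper47.RR

end

section

set_option autoImplicit false

set_option linter.style.haveILetI false

set_option linter.unusedSectionVars false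

namespace Pool.Agent.Helper31.RRK

open Polynomial IntermediateField Pool.Agent.Helper16 Pool.Agent.Helper33 Pool.Agent.Helper45.FF

open Pool.Agent.Helper45.S4 Pool.Agent.Helper47.RR

variable {k L M : Type} [Field k] [Field L] [Field M] [Algebra k L] [Algebra k M] [Algebra L M]
  [IsScalarTower k L M]

section val

variable (hN : IsFunctionField k L) [Algebra.IsAlgebraic L M]

theorem val_algebraMap_eq (w : Place k M) (a : L) :
    w.val (algebraMap L M a) = (resPl hN w).val a ^ ram hN w := by
  by_cases ha : a = 0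
  · subst ha
    have := ram_pos hN w
    rw [map_zero, map_zero, map_zero, zero_pow (by omega)]
  have h1 := Pool.Agent.Helper45.S4.ord_algebraMap hN w a
  have ha' : algebraMap L M a ≠ 0 := by simpa using ha
  rw [val_eq_exp_of_ord ha' h1, val_eq_exp_of_ord ha rfl, ← WithZero.exp_nsmul]
  congr 1
  simp

theorem val_algebraMap_le_exp {v : Place k L} {w : Place k M} (hw : resPl hN w = v) {a : L}
    {m : ℤ} (h : v.val a ≤ WithZero.exp m) :
    w.val (algebraMap L M a) ≤ WithZero.exp ((ram hN w : ℤ) * m) := by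
  rw [val_algebraMap_eq hN, hw]
  calc v.val a ^ ram hN w ≤ WithZero.exp m ^ ram hN w := pow_le_pow_left' h _
    _ = _ := by rw [← WithZero.exp_nsmul]; simp

end val

variable [IsAlgClosed k] (hN : IsFunctionField k L) [FiniteDimensional L M]

/-- `x` is a local generator above `v`. -/
structure LocGen (v : Place k L) (x : M) (c : Place k M → k) : Prop where
  unif : ∀ w : Place k M, resPl hN w = v →
    w.val (x - algebraMap k M (c w)) = WithZero.exp (-1 : ℤ)
  inj : ∀ w w' : Place k M, resPl hN w = v → resPl hN w' = v → c w = c w' → w = w'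

namespace LocGen

variable {hN} {v : Place k L} {x : M} {c : Place k M → k} (hx : LocGen hN v x c)

include hx

omit [IsAlgClosed k] in
theorem val_x_le {w : Place k M} (hw : resPl hN w = v) : w.val x ≤ 1 := by
  have h2 : x = (x - algebraMap k M (c w)) + algebraMap k M (c w) := by ring
  rw [h2]
  refine (w.val.map_add _ _).trans (max_le ?_ (w.val_algebraMap_le _))
  rw [hx.unif w hw]
  exact exp_neg_one_lt.le

theorem dvd_of_val_le {w : Place k M} (hw : resPl hN w = v) (P : k[X]) (e : ℕ)
    (h : w.val (aeval x P) ≤ WithZero.exp (-(e : ℤ))) : (X - C (c w)) ^ e ∣ P := by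
  by_cases hP : P = 0
  · rw [hP]; exact dvd_zero _
  obtain ⟨Q, hQ, hroot⟩ := exists_eq_pow_rootMultiplicity_mul_and_not_dvd P hP (c w)
  set m := rootMultiplicity (c w) P with hm
  have h1 : w.val (aeval x Q) = 1 := by
    have h2 : eval (c w) Q ≠ 0 := by
      intro h0
      exact hroot (dvd_iff_isRoot.2 h0)
    obtain ⟨R, hR⟩ : (X - C (c w)) ∣ Q - C (eval (c w) Q) := by
      rw [dvd_iff_isRoot]
      simp
    have h3 : aeval x Q = algebraMap k M (eval (c w) Q) +
        (x - algebraMap k M (c w)) * aeval x R := by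
      have h4 := congrArg (aeval x) hR
      rw [map_sub, map_mul, map_sub, aeval_C, aeval_X, aeval_C] at h4
      rw [← h4]; ring
    have h5 : w.val (algebraMap k M (eval (c w) Q)) = 1 := w.triv _ h2
    rw [h3, Valuation.map_add_eq_of_lt_left, h5]
    rw [h5, map_mul, hx.unif w hw]
    have h6 : w.val (aeval x R) ≤ 1 := by
      have h7 : x ∈ w.ring := hx.val_x_le hw
      exact (w.res_aeval h7 R).1
    exact mul_lt_one_of_lt_of_le exp_neg_one_lt h6
  have h2 : w.val (aeval x P) = WithZero.exp (-(m : ℤ)) := by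
    conv_lhs => rw [hQ]
    rw [map_mul, map_mul, h1, mul_one, map_pow, map_sub, aeval_X, aeval_C, map_pow,
      hx.unif w hw, ← WithZero.exp_nsmul]
    simp
  rw [h2, WithZero.exp_le_exp] at h
  rw [hQ]
  exact (pow_dvd_pow _ (by omega)).trans (dvd_mul_right _ _)

omit hx in
/-- the product polynomial -/
noncomputable def Pi (hN : IsFunctionField k L) (v : Place k L) (c : Place k M → k) : k[X] :=
  ∏ w ∈ fib (M := M) hN v, (X - C (c w)) ^ ram hN w

omit hx in
theorem natDegree_Pi : (Pi hN v c).natDegree = Module.finrank L M := by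
  unfold Pi
  rw [natDegree_prod_of_monic _ _ fun w _ => (monic_X_sub_C (c w)).pow _,
    ← sum_fib (M := M) hN v]
  refine Finset.sum_congr rfl fun w _ => ?_
  rw [(monic_X_sub_C (c w)).natDegree_pow, natDegree_X_sub_C, mul_one]

theorem Pi_dvd (P : k[X])
    (h : ∀ w : Place k M, resPl hN w = v → w.val (aeval x P) ≤ WithZero.exp (-(ram hN w : ℤ))) :
    Pi hN v c ∣ P := by
  apply Finset.prod_dvd_of_coprime
  · intro w hw w' hw' hne
    rw [Finset.mem_coe, mem_fib] at hw hw'
    apply IsCoprime.pow
    apply isCoprime_X_sub_C_of_isUnit_sub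
    rw [isUnit_iff_ne_zero, sub_ne_zero]
    exact fun h0 => hne (hx.inj w w' hw hw' h0)
  · intro w hw
    rw [mem_fib] at hw
    exact hx.dvd_of_val_le hw P _ (h w hw)

theorem eq_zero_of_val (P : k[X]) (hP : P.natDegree < Module.finrank L M)
    (h : ∀ w : Place k M, resPl hN w = v → w.val (aeval x P) ≤ WithZero.exp (-(ram hN w : ℤ))) :
    P = 0 := by
  by_contra h0
  have h1 := natDegree_le_of_dvd (hx.Pi_dvd P h) h0
  rw [natDegree_Pi] at h1
  omega

theorem val_aeval_le {w : Place k M} (hw : resPl hN w = v) (R : L[X]) (m : ℤ)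
    (hR : ∀ i, v.val (R.coeff i) ≤ WithZero.exp m) :
    w.val (aeval x R) ≤ WithZero.exp ((ram hN w : ℤ) * m) := by
  rw [aeval_eq_sum_range]
  apply Valuation.map_sum_le
  intro i _
  rw [Algebra.smul_def, map_mul, map_pow]
  calc w.val (algebraMap L M (R.coeff i)) * w.val x ^ i
      ≤ WithZero.exp ((ram hN w : ℤ) * m) * 1 :=
        mul_le_mul' (val_algebraMap_le_exp hN hw (hR i)) (pow_le_one' (hx.val_x_le hw) i)
    _ = _ := mul_one _

omit hx in
theorem exists_residue_poly (hN : IsFunctionField k L) (v : Place k L) (Q : L[X])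
    (hQ : ∀ i, v.val (Q.coeff i) ≤ 1) :
    ∃ P : k[X], P.natDegree ≤ Q.natDegree ∧
      ∀ i, v.val ((Q - P.map (algebraMap k L)).coeff i) ≤ WithZero.exp (-1 : ℤ) := by
  choose r hr using fun i => exists_res_val hN v (Q.coeff i) (hQ i)
  refine ⟨∑ i ∈ Finset.range (Q.natDegree + 1), monomial i (r i), ?_, ?_⟩
  · apply natDegree_sum_le_of_forall_le
    intro i hi
    exact (natDegree_monomial_le _).trans (by rw [Finset.mem_range] at hi; omega)
  · intro i
    have h1 : (∑ i ∈ Finset.range (Q.natDegree + 1), monomial i (r i)).coeff i =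
        if i < Q.natDegree + 1 then r i else 0 := by
      rw [finsetSum_coeff]
      simp only [coeff_monomial]
      rw [Finset.sum_ite_eq' (Finset.range (Q.natDegree + 1)) i]
      simp only [Finset.mem_range]
    rw [coeff_sub, coeff_map, h1]
    have hlt : ∀ y : L, v.val y < 1 → v.val y ≤ WithZero.exp (-1 : ℤ) := by
      intro y hy
      by_cases hy0 : y = 0
      · rw [hy0, map_zero]; exact zero_le
      · rw [val_le_exp_iff v _ hy0]
        have := (v.ord_pos_iff hy0).2 hy
        omega
    split_ifs with h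
    · exact hlt _ (hr i)
    · rw [coeff_eq_zero_of_natDegree_lt (by omega)]
      simp

/-- **Key lemma.** -/
theorem coeff_val_le (Q : L[X]) (hQ : Q.natDegree < Module.finrank L M)
    (h : ∀ w : Place k M, resPl hN w = v → w.val (aeval x Q) ≤ 1) (i : ℕ) :
    v.val (Q.coeff i) ≤ 1 := by
  by_contra hcon
  rw [not_le] at hcon
  have hQ0 : Q ≠ 0 := by
    rintro rfl
    rw [coeff_zero, map_zero] at hcon
    exact absurd hcon (not_lt.2 zero_le)
  have hi : i ∈ Finset.range (Module.finrank L M) := by
    rw [Finset.mem_range]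
    by_contra h0
    rw [coeff_eq_zero_of_natDegree_lt (by omega), map_zero] at hcon
    exact absurd hcon (not_lt.2 zero_le)
  obtain ⟨j, hj, hmax⟩ := Finset.exists_max_image (Finset.range (Module.finrank L M))
    (fun i => v.val (Q.coeff i)) ⟨i, hi⟩
  set a := Q.coeff j with ha
  have ha1 : 1 < v.val a := hcon.trans_le (hmax i hi)
  have ha0 : a ≠ 0 := by
    intro h0
    rw [h0, map_zero] at ha1
    exact absurd ha1 (not_lt.2 zero_le)
  have hva0 : v.val a ≠ 0 := by simpa using ha0
  have hmax' : ∀ i, v.val (Q.coeff i) ≤ v.val a := by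
    intro i
    by_cases h0 : i < Module.finrank L M
    · exact hmax i (Finset.mem_range.2 h0)
    · rw [coeff_eq_zero_of_natDegree_lt (by omega), map_zero]; exact zero_le
  have hinv : v.val a⁻¹ ≤ WithZero.exp (-1 : ℤ) := by
    rw [val_le_exp_iff v _ (inv_ne_zero ha0), v.ord_inv]
    have := (v.ord_neg_iff ha0).2 ha1
    omega
  obtain ⟨P, hP1, hP2⟩ := exists_residue_poly hN v (C a⁻¹ * Q) (by
    intro i
    rw [coeff_C_mul, map_mul, map_inv₀]
    exact (inv_mul_le_one₀ (zero_lt_iff.2 hva0)).2 (hmax' i))
  have hP0 : P = 0 := by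
    apply hx.eq_zero_of_val
    · refine hP1.trans_lt ((natDegree_C_mul_le _ _).trans_lt hQ)
    · intro w hw
      have h1 : aeval x P = aeval x (C a⁻¹ * Q) - aeval x (C a⁻¹ * Q - P.map (algebraMap k L)) := by
        rw [map_sub, aeval_map_algebraMap]; ring
      rw [h1]
      refine (w.val.map_sub _ _).trans (max_le ?_ ?_)
      · rw [map_mul, map_mul, aeval_C]
        have h2 := val_algebraMap_le_exp hN hw hinv
        calc w.val (algebraMap L M a⁻¹) * w.val (aeval x Q) ≤
              WithZero.exp ((ram hN w : ℤ) * -1) * 1 := mul_le_mul' h2 (h w hw)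
          _ = _ := by rw [mul_one]; congr 1; ring
      · have h2 := hx.val_aeval_le hw _ (-1) hP2
        rwa [mul_neg_one] at h2
  have h1 := hP2 j
  rw [hP0, Polynomial.map_zero, sub_zero, coeff_C_mul, ← ha, inv_mul_cancel₀ ha0, map_one] at h1
  exact absurd h1 (not_le.2 exp_neg_one_lt)

theorem natDegree_minpoly : (minpoly L x).natDegree = Module.finrank L M := by
  apply le_antisymm (minpoly.natDegree_le x)
  by_contra hcon
  rw [not_le] at hcon
  obtain ⟨s, hs⟩ := v.surj (WithZero.exp (1 : ℤ))
  have hint : IsIntegral L x := Algebra.IsIntegral.isIntegral x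
  have h1 := hx.coeff_val_le (C s * minpoly L x) ((natDegree_C_mul_le _ _).trans_lt hcon) (by
    intro w _
    rw [map_mul, minpoly.aeval, mul_zero, map_zero]
    exact zero_le) (minpoly L x).natDegree
  rw [coeff_C_mul, Monic.coeff_natDegree (minpoly.monic hint), mul_one, hs,
    ← WithZero.exp_zero, WithZero.exp_le_exp] at h1
  norm_num at h1

end LocGen

end Pool.Agent.Helper31.RRK

end

section

set_option autoImplicit false

set_option linter.style.haveILetI false

namespace Pool.Agent.Helper47.RR

open Pool.Agent.Helper16 Pool.Agent.Helper45.FF Pool.Agent.Helper45.S4 Polynomial IntermediateField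

variable {k L : Type} [Field k] [Field L] [Algebra k L]

@[simp] theorem prin_apply (hN : IsFunctionField k L) (f : L) (v : Place k L) :
    prin hN f v = v.ord f := rfl

theorem degD_prin [IsAlgClosed k] (hN : IsFunctionField k L) (f : L) : degD (prin hN f) = 0 := by
  obtain ⟨S, h1, h2⟩ := hN.product_formula f
  rw [degD_eq_sum S]
  · rw [← h2]
    refine Finset.sum_congr rfl fun v _ => ?_
    rw [prin_apply, deg_eq_one hN, Nat.cast_one, mul_one]
  · intro v hv
    by_contra h
    exact hv ((h1 v).2 h)

theorem prin_inv (hN : IsFunctionField k L) (f : L) : prin hN f⁻¹ = - prin hN f := by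
  ext v
  rw [Finsupp.neg_apply, prin_apply, prin_apply, v.ord_inv]

theorem mem_Lsp_iff_prin (hN : IsFunctionField k L) (D : Dv k L) {f : L} (hf : f ≠ 0) :
    f ∈ Lsp D ↔ 0 ≤ D + prin hN f := by
  rw [mem_Lsp_iff_ord D hf]
  constructor
  · intro h v
    have := h v
    rw [Finsupp.add_apply, prin_apply, Finsupp.zero_apply]
    omega
  · intro h v
    have := h v
    rw [Finsupp.add_apply, prin_apply, Finsupp.zero_apply] at this
    omega

theorem Lsp_eq_bot [IsAlgClosed k] (hN : IsFunctionField k L) {D : Dv k L} (h : degD D < 0) :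
    Lsp D = ⊥ := by
  rw [eq_bot_iff]
  intro f hf
  by_contra h0
  have hf0 : f ≠ 0 := h0
  have h1 := degD_nonneg ((mem_Lsp_iff_prin hN D hf0).1 hf)
  rw [degD_add, degD_prin] at h1
  omega

theorem exists_a_place (hN : IsFunctionField k L) : Nonempty (Place k L) := by
  obtain ⟨t, ht⟩ := exists_transcendental hN
  obtain ⟨S, hS, hsum, hpos⟩ := hN.zeros t ht
  have hne : S.Nonempty := by
    rw [Finset.nonempty_iff_ne_empty]
    rintro rfl
    rw [Finset.sum_empty] at hsum
    omega
  exact ⟨hne.choose⟩

theorem finite_Lsp [IsAlgClosed k] (hN : IsFunctionField k L) (D : Dv k L) :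
    FiniteDimensional k (Lsp D) := by
  obtain ⟨v⟩ := exists_a_place hN
  have key : ∀ n : ℕ, ∀ D : Dv k L, degD D < n → FiniteDimensional k (Lsp D) := by
    intro n
    induction n with
    | zero =>
      intro D hD
      rw [Lsp_eq_bot hN (by simpa using hD)]
      infer_instance
    | succ n ih =>
      intro D hD
      have h1 : degD (D - Finsupp.single v 1) < n := by
        rw [degD_sub, degD_single]
        push_cast at hD
        omega
      haveI := ih _ h1
      have h2 := Lsp_inf_filt (D - Finsupp.single v 1) v 1 zero_le_one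
      rw [sub_add_cancel] at h2
      have h3 : (D - Finsupp.single v 1 : Dv k L) v = D v - 1 := by simp
      rw [h3] at h2
      refine finite_of_cut v (v.finite_resField hN) (D v - 1) (Lsp D)
        (Lsp (D - Finsupp.single v 1)) ?_ h2.le
      rw [sub_add_cancel]
      exact Lsp_le_filt D v
  refine key (degD D + 1).toNat D ?_
  have := Int.self_le_toNat (degD D + 1)
  omega

end Pool.Agent.Helper47.RR

end

section

set_option autoImplicit false

set_option linter.style.haveILetI false

namespace Pool.Agent.Helper47.RR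

open Pool.Agent.Helper16 Pool.Agent.Helper45.S4

variable {k L : Type} [Field k] [Field L] [Algebra k L]

theorem const_mem_Ad (hN : IsFunctionField k L) (x : L) : (fun _ : Place k L => x) ∈ Ad k L := by
  obtain ⟨S, h1, -⟩ := hN.product_formula x
  refine S.finite_toSet.subset ?_
  intro v hv
  rw [Finset.mem_coe, h1]
  intro h0
  apply hv
  by_cases hx : x = 0
  · simp [hx]
  · exact (v.ord_nonneg_iff hx).1 h0.ge

/-- the diagonal embedding -/
noncomputable def diag (hN : IsFunctionField k L) (x : L) : Ad k L := ⟨fun _ => x, const_mem_Ad hN x⟩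

section step

variable [IsAlgClosed k] (hN : IsFunctionField k L) (D : Dv k L) (v : Place k L)

include hN

/-- the local generator -/
theorem exists_gen : ∃ α₀ : Ad k L, (α₀ : Place k L → L) ∈ AdD (D + Finsupp.single v 1) ∧
    ((α₀ : Place k L → L) ∉ AdD D) ∧
    ∀ α : Ad k L, (α : Place k L → L) ∈ AdD (D + Finsupp.single v 1) →
      ∃ c : k, ((α - c • α₀ : Ad k L) : Place k L → L) ∈ AdD D := by
  classical
  obtain ⟨π, hπ0, hπ⟩ := v.exists_uniformizer
  have hD : (D + Finsupp.single v 1 : Dv k L) v = D v + 1 := by simp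
  have hDw : ∀ w, w ≠ v → (D + Finsupp.single v 1 : Dv k L) w = D w := by
    intro w hw
    rw [Finsupp.add_apply, Finsupp.single_eq_of_ne hw, add_zero]
  have hval : v.val (π ^ (-(D v + 1))) = WithZero.exp (D v + 1) := by
    rw [map_zpow₀, hπ, ← WithZero.exp_zsmul]
    simp
  have hmem : (Pi.single v (π ^ (-(D v + 1))) : Place k L → L) ∈ AdD (D + Finsupp.single v 1) := by
    intro w
    by_cases hw : w = v
    · subst hw
      rw [Pi.single_eq_same, hval, hD]
    · rw [Pi.single_eq_of_ne hw, map_zero]
      exact zero_le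
  refine ⟨⟨_, AdD_le_Ad _ hmem⟩, hmem, ?_, ?_⟩
  · intro h
    have h1 := h v
    change v.val ((Pi.single v (π ^ (-(D v + 1))) : Place k L → L) v) ≤ _ at h1
    rw [Pi.single_eq_same, hval, WithZero.exp_le_exp] at h1
    omega
  · intro α hα
    have h1 := hα v
    rw [hD] at h1
    have h2 : v.val ((α : Place k L → L) v * π ^ (D v + 1)) ≤ 1 := by
      rw [map_mul, map_zpow₀, hπ, ← WithZero.exp_zsmul]
      calc v.val ((α : Place k L → L) v) * WithZero.exp ((D v + 1) • (-1 : ℤ)) ≤
          WithZero.exp (D v + 1) * WithZero.exp ((D v + 1) • (-1 : ℤ)) := by (clear * - h1; gcongr)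
        _ = 1 := by
          rw [← WithZero.exp_add]
          simp
    obtain ⟨c, hc⟩ := exists_res_val hN v _ h2
    refine ⟨c, ?_⟩
    intro w
    by_cases hw : w = v
    · subst hw
      change w.val ((α : Place k L → L) w - c • (Pi.single w (π ^ (-(D w + 1))) : Place k L → L) w) ≤ _
      rw [Pi.single_eq_same]
      have h3 : (α : Place k L → L) w - c • π ^ (-(D w + 1)) =
          ((α : Place k L → L) w * π ^ (D w + 1) - algebraMap k L c) * π ^ (-(D w + 1)) := by
        rw [sub_mul, mul_assoc, ← zpow_add₀ hπ0, Algebra.smul_def]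
        simp
      rw [h3, map_mul, hval]
      by_cases h4 : w.val ((α : Place k L → L) w * π ^ (D w + 1) - algebraMap k L c) = 0
      · rw [h4, zero_mul]; exact zero_le
      · rw [← WithZero.exp_log h4, ← WithZero.exp_add, WithZero.exp_le_exp]
        rw [← WithZero.exp_log h4, ← WithZero.exp_zero, WithZero.exp_lt_exp] at hc
        omega
    · change w.val ((α : Place k L → L) w - c • (Pi.single v (π ^ (-(D v + 1))) : Place k L → L) w) ≤ _
      rw [Pi.single_eq_of_ne hw, smul_zero, sub_zero, ← hDw w hw]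
      exact hα w

theorem Om_eq_of_mem (x : L) (hx : x ∈ Lsp (D + Finsupp.single v 1)) (hx' : x ∉ Lsp D) :
    Om (D + Finsupp.single v 1) = Om D := by
  apply le_antisymm (Om_anti (le_add_single D v))
  intro ω hω
  obtain ⟨α₀, h1, h2, h3⟩ := exists_gen hN D v
  have hdx : ((diag hN x : Ad k L) : Place k L → L) ∈ AdD (D + Finsupp.single v 1) := by
    rw [mem_Lsp] at hx
    exact hx
  obtain ⟨c₀, hc₀⟩ := h3 _ hdx
  have hc0 : c₀ ≠ 0 := by
    rintro rfl
    apply hx'
    rw [zero_smul, sub_zero] at hc₀
    rw [mem_Lsp]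
    exact hc₀
  have h4 : ω α₀ = 0 := by
    have h5 := hω.1 _ hc₀
    rw [map_sub, map_smul, hω.2 (diag hN x) x (fun _ => rfl), zero_sub, neg_eq_zero, smul_eq_mul] at h5
    exact (mul_eq_zero.1 h5).resolve_left hc0
  refine ⟨fun α hα => ?_, hω.2⟩
  obtain ⟨c, hc⟩ := h3 α hα
  have h5 := hω.1 _ hc
  rwa [map_sub, map_smul, h4, smul_zero, sub_zero] at h5

end step

end Pool.Agent.Helper47.RR

end
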