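import Pool.Agent.Helper23.MB.L01_ab0
import Pool.Agent.Helper23.MB.L01_ab1
import Pool.Agent.Helper23.MB.L01_ab10
import Pool.Agent.Helper23.MB.L01_ab2
import Pool.Agent.Helper23.MB.L01_ab4
import Pool.Agent.Helper23.MB.L01_ab5
import Pool.Agent.Helper23.MB.L01_ab8
import Pool.Agent.Helper23.MB.L01_ab9
import Pool.Agent.Helper23.MB.L01_abc0
import Pool.Agent.Helper23.MB.L01_abc1

/-!
Parts of Helper33.PS.Defs, Helper33.PS.Heights, Helper33.UB.PolyTree, Helper51.RatTree, Helper55.RD.Base, Helper55.RD.RatLB, Helper33.UB.RatInst, Helper33.PS.Ext, Helper33.PT.Defs, Helper35.PS.Coord, Helper53.PT.Pair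
-/

attribute [-simp] Valuation.IsUniformizer.val
attribute [local instance 5000]
  Pool.Agent.Helper23.MB.Inst.rCharZero Pool.Agent.Helper23.MB.Inst.rALM
  Pool.Agent.Helper23.MB.Inst.rARM Pool.Agent.Helper23.MB.Inst.rALSM
  Pool.Agent.Helper23.MB.Inst.rARSM Pool.Agent.Helper23.MB.Inst.rARRLE
  Pool.Agent.Helper23.MB.Inst.rALRLE Pool.Agent.Helper23.MB.Inst.rARRLT
  Pool.Agent.Helper23.MB.Inst.rALRLT Pool.Agent.Helper23.MB.Inst.rPMRLT
  Pool.Agent.Helper23.MB.Inst.rMPRLT Pool.Agent.Helper23.MB.Inst.rPMM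
  Pool.Agent.Helper23.MB.Inst.rMPM Pool.Agent.Helper23.MB.Inst.rPMSM
  Pool.Agent.Helper23.MB.Inst.rMPSM Pool.Agent.Helper23.MB.Inst.rEAOL
  Pool.Agent.Helper23.MB.Inst.rIOR Pool.Agent.Helper23.MB.Inst.rISOR
  Pool.Agent.Helper23.MB.Inst.rNZD Pool.Agent.Helper23.MB.Inst.zCharZero
  Pool.Agent.Helper23.MB.Inst.zALM Pool.Agent.Helper23.MB.Inst.zARM
  Pool.Agent.Helper23.MB.Inst.zIOR Pool.Agent.Helper23.MB.Inst.zISOR
  Pool.Agent.Helper23.MB.Inst.zNZD Pool.Agent.Helper23.MB.Inst.qCharZero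
  Pool.Agent.Helper23.MB.Inst.free Pool.Agent.Helper23.MB.Inst.faith
  Pool.Agent.Helper23.MB.Inst.torsionFree Pool.Agent.Helper23.MB.Inst.rfFaith
  Pool.Agent.Helper23.MB.Inst.hAdd Pool.Agent.Helper23.MB.Inst.hAddM
  Pool.Agent.Helper23.MB.Inst.hMul Pool.Agent.Helper23.MB.Inst.hMon
  Pool.Agent.Helper23.MB.Inst.hZero Pool.Agent.Helper23.MB.Inst.hOne
  Pool.Agent.Helper23.MB.Inst.hMZ Pool.Agent.Helper23.MB.Inst.hRing
  Pool.Agent.Helper23.MB.Inst.aAdd Pool.Agent.Helper23.MB.Inst.aAddM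
  Pool.Agent.Helper23.MB.Inst.aMul Pool.Agent.Helper23.MB.Inst.aMon
  Pool.Agent.Helper23.MB.Inst.aZero Pool.Agent.Helper23.MB.Inst.aOne
  Pool.Agent.Helper23.MB.Inst.aMZ Pool.Agent.Helper23.MB.Inst.aRing

namespace Pool.Agent.Helper33
end Pool.Agent.Helper33
namespace Pool.Agent.Helper33.PS
end Pool.Agent.Helper33.PS
namespace Pool.Agent.Helper33.UB
end Pool.Agent.Helper33.UB
namespace Pool.Agent.Helper45.FR
end Pool.Agent.Helper45.FR
namespace Pool.Agent.Helper51.RatTree
end Pool.Agent.Helper51.RatTree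
namespace Pool.Agent.Helper55.RD
end Pool.Agent.Helper55.RD
namespace Pool.Agent.Helper93.RatODE
end Pool.Agent.Helper93.RatODE

section

set_option autoImplicit false

open Polynomial

namespace Pool.Agent.Helper33.PS

/-- a Galois extension of place systems (the group may be replaced by a subset) -/
structure GalSys {k K E V W : Type*} [Field k] [Field K] [Field E] [Algebra k K] [Algebra k E]
    [Algebra K E] [IsScalarTower k K E] (P : PSys k K V) (Q : PSys k E W) (n : ℕ) where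
  /-- the group -/
  G : Finset (E ≃ₐ[k] E)
  card_G : G.card ≤ n
  /-- the action on places -/
  act : (E ≃ₐ[k] E) → W ≃ W
  act_spec : ∀ σ ∈ G, ∀ w, ∀ y : E, (Q.pl (act σ w)).o (σ y) = (Q.pl w).o y
  /-- restriction of places -/
  res : W → V
  /-- ramification indices -/
  ram : W → ℕ
  ram_pos : ∀ w, 1 ≤ ram w
  ram_spec : ∀ w, ∀ y : K, y ≠ 0 → (Q.pl w).o (algebraMap K E y) = ram w * (P.pl (res w)).o y
  fib : ∀ v, ∀ s : Finset W, (∀ w ∈ s, res w = v) → ∑ w ∈ s, ram w ≤ n
  e_le : ∀ v, P.e v ≤ n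
  ramified : ∀ v, 1 ≤ P.e v → ∃ w, res w = v ∧ ∃ σ ∈ G, act σ w = w ∧
    ∃ y : K, σ (algebraMap K E y) ≠ algebraMap K E y

end Pool.Agent.Helper33.PS

end

section

set_option autoImplicit false

open Finset Polynomial

namespace Pool.Agent.Helper33.PS

open Pool.Agent.Helper33.UB

section basic

variable {k K V : Type*} [Field k] [Field K] [Algebra k K] (P : PSys k K V)

lemma neg_nonneg (v : DV K) (x : K) : 0 ≤ neg v x := by
  unfold neg
  split_ifs
  · exact le_rfl
  · exact le_max_left _ _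

lemma neg_zero (v : DV K) : neg v 0 = 0 := by
  unfold neg
  rw [if_pos rfl]

lemma neg_of_ne (v : DV K) {x : K} (hx : x ≠ 0) : neg v x = max 0 (-(v.o x)) := by
  unfold neg
  rw [if_neg hx]

lemma neg_eq_zero_of_ge {v : DV K} {x : K} (h : v.ge 0 x) : neg v x = 0 := by
  by_cases hx : x = 0
  · rw [hx, neg_zero]
  rw [neg_of_ne v hx]
  have h1 := DV.ge_le h hx
  have h2 : 0 ≤ v.o x := by exact_mod_cast h1
  omega

lemma neg_support (x : K) : (Function.support fun v => neg (P.pl v) x).Finite := by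
  by_cases hx : x = 0
  · have : (Function.support fun v => neg (P.pl v) x) = ∅ := by
      rw [Function.support_eq_empty_iff]
      funext v
      rw [hx, neg_zero]; rfl
    rw [this]
    exact Set.finite_empty
  · refine (P.ord_finite x hx).subset ?_
    intro v hv hv0
    apply hv
    change neg (P.pl v) x = 0
    rw [neg_of_ne _ hx, hv0]
    simp

lemma ht_nonneg (x : K) : 0 ≤ ht P x := finsum_nonneg fun v => neg_nonneg _ _

lemma ht_eq_sum (x : K) (T : Finset V) (hT : ∀ v, v ∉ T → neg (P.pl v) x = 0) :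
    ht P x = ∑ v ∈ T, neg (P.pl v) x := by
  unfold ht
  apply finsum_eq_sum_of_support_subset
  intro v hv
  by_contra h
  exact hv (hT v h)

lemma ht_const (hconst : ∀ v, ∀ c : k, c ≠ 0 → (P.pl v).o (algebraMap k K c) = 0) (c : k) :
    ht P (algebraMap k K c) = 0 := by
  rw [ht_eq_sum P _ ∅ ?_, sum_empty]
  intro v _
  by_cases hc : c = 0
  · rw [hc, map_zero, neg_zero]
  · rw [neg_of_ne _ (by rw [Ne, map_eq_zero]; exact hc), hconst v c hc]
    simp

end basic

section gal

variable {k K E V W : Type*} [Field k] [Field K] [Field E] [Algebra k K] [Algebra k E] [Algebra K E]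
  [IsScalarTower k K E] {P : PSys k K V} {Q : PSys k E W} {n : ℕ} (gs : GalSys P Q n)

include gs

lemma neg_map (w : W) (y : K) :
    neg (Q.pl w) (algebraMap K E y) = gs.ram w * neg (P.pl (gs.res w)) y := by
  by_cases hy : y = 0
  · rw [hy, map_zero, neg_zero, neg_zero, mul_zero]
  · rw [neg_of_ne _ (by rw [Ne, map_eq_zero]; exact hy), neg_of_ne _ hy, gs.ram_spec w y hy]
    have h := gs.ram_pos w
    rw [mul_max_of_nonneg _ _ (by positivity), mul_zero, mul_neg]

/-- heights in the extension -/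
theorem ht_map_le (z : K) : ht Q (algebraMap K E z) ≤ n * ht P z := by
  classical
  set T := (neg_support P z).toFinset with hT
  set T' := (neg_support Q (algebraMap K E z)).toFinset with hT'
  have h1 : ht Q (algebraMap K E z) = ∑ w ∈ T', neg (Q.pl w) (algebraMap K E z) := by
    apply ht_eq_sum
    intro v hv
    by_contra h
    exact hv (by rw [hT', Set.Finite.mem_toFinset]; exact h)
  have h2 : ht P z = ∑ v ∈ T, neg (P.pl v) z := by
    apply ht_eq_sum
    intro v hv
    by_contra h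
    exact hv (by rw [hT, Set.Finite.mem_toFinset]; exact h)
  have hmaps : ∀ w ∈ T', gs.res w ∈ T := by
    intro w hw
    rw [hT', Set.Finite.mem_toFinset] at hw
    rw [hT, Set.Finite.mem_toFinset]
    intro h0
    apply hw
    change neg (P.pl (gs.res w)) z = 0 at h0
    change neg (Q.pl w) (algebraMap K E z) = 0
    rw [neg_map gs, h0, mul_zero]
  rw [h1, h2, ← sum_fiberwise_of_maps_to hmaps, mul_sum]
  apply sum_le_sum
  intro v hv
  have h3 : ∑ w ∈ T'.filter (fun w => gs.res w = v), neg (Q.pl w) (algebraMap K E z) =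
      (∑ w ∈ T'.filter (fun w => gs.res w = v), gs.ram w : ℕ) * neg (P.pl v) z := by
    push_cast
    rw [sum_mul]
    apply sum_congr rfl
    intro w hw
    rw [neg_map gs, (mem_filter.mp hw).2]
  rw [h3]
  have h4 := gs.fib v (T'.filter (fun w => gs.res w = v)) (fun w hw => (mem_filter.mp hw).2)
  have h5 : ((∑ w ∈ T'.filter (fun w => gs.res w = v), gs.ram w : ℕ) : ℤ) ≤ n := by exact_mod_cast h4
  exact mul_le_mul_of_nonneg_right h5 (neg_nonneg _ _)

/-- heights of conjugates -/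
theorem ht_conj {σ : E ≃ₐ[k] E} (hσ : σ ∈ gs.G) (y : E) : ht Q (σ y) = ht Q y := by
  unfold ht
  rw [← finsum_comp_equiv (gs.act σ)]
  apply finsum_congr
  intro w
  by_cases hy : y = 0
  · rw [hy, map_zero, neg_zero, neg_zero]
  · rw [neg_of_ne _ hy, neg_of_ne _ (by rw [Ne, map_eq_zero_iff σ σ.injective]; exact hy),
      gs.act_spec σ hσ]

end gal

end Pool.Agent.Helper33.PS

end

section

set_option autoImplicit false

open Polynomial Finset

namespace Pool.Agent.Helper33.UB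

variable {K : Type*} [Field K]

section ball

variable {v : DV K}

lemma ball_eq {x z : K} {r : ℤ} (h : z ∈ ball v x r) : ball v z r = ball v x r := by
  ext y
  constructor
  · intro hy; exact mem_ball_trans hy h
  · intro hy; exact mem_ball_trans hy (mem_ball_symm h)

lemma ball_eq_iff {x z : K} {r : ℤ} : ball v z r = ball v x r ↔ z ∈ ball v x r := by
  constructor
  · intro h; rw [← h]; exact mem_ball_self z r
  · exact ball_eq

lemma ball_mono {x : K} {r s : ℤ} (h : r ≤ s) : ball v x s ⊆ ball v x r := by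
  intro z hz
  rcases hz with hz | hz
  · exact Or.inl hz
  · exact Or.inr (h.trans hz)

lemma ball_nonempty (x : K) (r : ℤ) : ball v x r ≠ ∅ := by
  intro h
  have := mem_ball_self (v := v) x r
  rw [h] at this
  exact this

end ball

section tree

lemma PV.exists_rep {v : DV K} (ζ : PV v) : ∃ x r, ζ = PV.mk v x r := by
  obtain ⟨⟨B, r⟩, x, h⟩ := ζ
  simp only at h
  subst h
  exact ⟨x, r, rfl⟩

lemma PV.mk_eq {v : DV K} {x y : K} {r : ℤ} (h : x ∈ ball v y r) : PV.mk v x r = PV.mk v y r := by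
  unfold PV.mk
  congr 2
  exact ball_eq h

open Classical in
/-- direction of an element at a disc -/
noncomputable def PV.dir {v : DV K} (ζ : PV v) (y : K) : Set K :=
  if y ∈ ζ.1.1 then ball v y (ζ.1.2 + 1) else ∅

lemma PV.dir_mk_of_mem {v : DV K} {x y : K} {r : ℤ} (h : y ∈ ball v x r) :
    (PV.mk v x r).dir y = ball v y (r + 1) := by
  unfold PV.dir PV.mk
  rw [if_pos h]

lemma PV.dir_mk_of_notMem {v : DV K} {x y : K} {r : ℤ} (h : y ∉ ball v x r) :
    (PV.mk v x r).dir y = ∅ := by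
  unfold PV.dir PV.mk
  rw [if_neg h]

lemma PV.dir_ne_empty {v : DV K} {x y : K} {r : ℤ} : (PV.mk v x r).dir y ≠ ∅ ↔ y ∈ ball v x r := by
  constructor
  · intro h
    by_contra hy
    exact h (PV.dir_mk_of_notMem hy)
  · intro h
    rw [PV.dir_mk_of_mem h]
    exact ball_nonempty _ _

lemma PV.dir_eq_iff {v : DV K} {x y z : K} {r : ℤ} (hy : y ∈ ball v x r) :
    (PV.mk v x r).dir y = (PV.mk v x r).dir z ↔ z ∈ ball v y (r + 1) := by
  rw [PV.dir_mk_of_mem hy]
  constructor
  · intro h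
    have hz : z ∈ ball v x r := by
      rw [← PV.dir_ne_empty, ← h]
      exact ball_nonempty _ _
    rw [PV.dir_mk_of_mem hz] at h
    exact ball_eq_iff.mp h.symm
  · intro h
    have hz : z ∈ ball v x r := mem_ball_trans (ball_mono (by omega) h) hy
    rw [PV.dir_mk_of_mem hz]
    exact (ball_eq h).symm

/-- order of the difference of two points in distinct directions -/
lemma PV.o_of_dir_ne {v : DV K} {a y z : K} {r : ℤ} (hy : y ∈ ball v a r) (hz : z ∈ ball v a r)
    (h : (PV.mk v a r).dir y ≠ (PV.mk v a r).dir z) : v.o (y - z) = r := by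
  have h1 : z ∉ ball v y (r + 1) := fun h1 => h ((PV.dir_eq_iff hy).mpr h1)
  have h2 : z ∈ ball v y r := mem_ball_trans hz (mem_ball_symm hy)
  rw [mem_ball, not_or] at h1
  rw [mem_ball] at h2
  rcases h2 with h2 | h2
  · exact absurd h2 h1.1
  · rw [v.o_sub_comm]; omega

/-- points in pairwise distinct directions form a star -/
lemma star_of_dirs {v : DV K} (ζ : PV v) (I : Finset K)
    (h : ∀ y ∈ I, ∀ z ∈ I, y ≠ z → ζ.dir y ≠ ζ.dir z) : Star v I := by
  obtain ⟨a, r, rfl⟩ := ζ.exists_rep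
  intro p hp q hq c hc c' hc' h1 h2 h3 h4 h5 h6
  -- at most one point is outside the disc
  have hout : ∀ y ∈ I, ∀ z ∈ I, y ≠ z → y ∉ ball v a r → z ∈ ball v a r := by
    intro y hy z hz hyz hyo
    by_contra hzo
    apply h y hy z hz hyz
    rw [PV.dir_mk_of_notMem hyo, PV.dir_mk_of_notMem hzo]
  have hin : ∀ y ∈ I, ∀ z ∈ I, y ≠ z → y ∈ ball v a r → z ∈ ball v a r → v.o (y - z) = r :=
    fun y hy z hz hyz hyi hzi => PV.o_of_dir_ne hyi hzi (h y hy z hz hyz)
  by_cases ep : p ∈ ball v a r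
  swap
  · have eq := hout p hp q hq h1 ep
    have ec := hout p hp c hc h2 ep
    have ec' := hout p hp c' hc' h3 ep
    rw [PV.o_of_notMem ep eq ec, hin c hc c' hc' h6 ec ec', hin q hq c' hc' h5 eq ec']
  by_cases eq : q ∈ ball v a r
  swap
  · have ec := hout q hq c hc h4 eq
    have ec' := hout q hq c' hc' h5 eq
    rw [v.o_sub_comm p q, PV.o_of_notMem eq ep ec', hin c hc c' hc' h6 ec ec', hin p hp c hc h2 ep ec]
    ring
  by_cases ec : c ∈ ball v a r
  swap
  · have ec' := hout c hc c' hc' h6 ec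
    rw [v.o_sub_comm p c, PV.o_of_notMem ec ec' ep, hin p hp q hq h1 ep eq, hin q hq c' hc' h5 eq ec']
    ring
  by_cases ec' : c' ∈ ball v a r
  swap
  · rw [v.o_sub_comm c c', v.o_sub_comm q c', PV.o_of_notMem ec' ec eq, hin p hp q hq h1 ep eq,
      hin p hp c hc h2 ep ec]
  rw [hin p hp q hq h1 ep eq, hin c hc c' hc' h6 ec ec', hin p hp c hc h2 ep ec,
    hin q hq c' hc' h5 eq ec']

end tree

end Pool.Agent.Helper33.UB

end

section

set_option autoImplicit false

open Polynomial Finset Pool.Agent.Helper33 Pool.Agent.Helper33.UB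

namespace Pool.Agent.Helper51.RatTree

variable {K : Type*} [Field K]

section nn

variable {v : DV K} {a : K} {r : ℤ}

lemma nn_eq_iff {y : K} : nn v a r y = r ↔ y ∈ ball v a r := by
  refine ⟨fun h => ?_, nn_of_mem⟩
  by_contra h1
  have := nn_of_notMem h1
  omega

lemma nn_recenter {c y : K} (h : c ∈ ball v a r) : nn v c r y = nn v a r y := by
  by_cases hy : y ∈ ball v a r
  · rw [nn_of_mem hy, nn_of_mem (by rw [ball_eq h]; exact hy)]
  · rw [(nn_of_notMem hy).1, (nn_of_notMem (a := c) (by rw [ball_eq h]; exact hy)).1]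
    exact PV.o_of_notMem hy h (mem_ball_self a r)

lemma nn_succ (y : K) : nn v a r y ≤ nn v a (r + 1) y ∧ nn v a (r + 1) y ≤ nn v a r y + 1 := by
  unfold nn
  split_ifs
  · omega
  · omega

/-- ultrametric inequality for the coordinate at infinity -/
lemma gp_nonneg {y z : K} (h : y ≠ z) : nn v a r y + nn v a r z ≤ v.o (y - z) + r := by
  by_cases hy : y ∈ ball v a r
  · rw [nn_of_mem hy]
    by_cases hz : z ∈ ball v a r
    · rw [nn_of_mem hz]
      have := mem_ball_trans hy (mem_ball_symm hz)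
      rcases this with h1 | h1
      · exact absurd h1 h
      · linarith
    · obtain ⟨h1, -⟩ := nn_of_notMem hz
      rw [h1]
      have h2 := PV.o_of_notMem (v := v) hz hy (mem_ball_self a r)
      rw [v.o_sub_comm y z, h2]
      omega
  · obtain ⟨h1, h1'⟩ := nn_of_notMem hy
    rw [h1]
    by_cases hz : z ∈ ball v a r
    · rw [nn_of_mem hz]
      have h2 := PV.o_of_notMem (v := v) hy hz (mem_ball_self a r)
      rw [h2]
    · obtain ⟨h3, h3'⟩ := nn_of_notMem hz
      rw [h3]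
      rw [mem_ball, not_or] at hy hz
      have h4 := v.add (y - a) (a - z) (sub_ne_zero.mpr hy.1) (sub_ne_zero.mpr (Ne.symm hz.1)) (by
        rw [sub_add_sub_cancel]; exact sub_ne_zero.mpr h)
      rw [sub_add_sub_cancel, v.o_sub_comm a z] at h4
      omega

/-- two points are in the same direction if and only if their Gromov product is positive -/
lemma dir_eq_iff_gp {y z : K} (h : y ≠ z) : (PV.mk v a r).dir y = (PV.mk v a r).dir z ↔
    nn v a r y + nn v a r z + 1 ≤ v.o (y - z) + r := by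
  by_cases hy : y ∈ ball v a r
  · rw [PV.dir_eq_iff hy, nn_of_mem hy, mem_ball]
    constructor
    · rintro (h1 | h1)
      · exact absurd h1.symm h
      · have hz : z ∈ ball v a r := mem_ball_trans (ball_mono (by omega) (Or.inr h1)) hy
        rw [nn_of_mem hz, v.o_sub_comm y z]
        omega
    · intro h1
      right
      by_cases hz : z ∈ ball v a r
      · rw [nn_of_mem hz] at h1
        rw [v.o_sub_comm z y]
        omega
      · exfalso
        obtain ⟨h3, -⟩ := nn_of_notMem hz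
        rw [h3] at h1
        have h2 := PV.o_of_notMem (v := v) hz hy (mem_ball_self a r)
        rw [v.o_sub_comm y z, h2] at h1
        omega
  · obtain ⟨h1, h1'⟩ := nn_of_notMem hy
    rw [h1, PV.dir_mk_of_notMem hy]
    by_cases hz : z ∈ ball v a r
    · rw [nn_of_mem hz, PV.o_of_notMem (v := v) hy hz (mem_ball_self a r)]
      constructor
      · intro h2
        exact absurd h2.symm (PV.dir_ne_empty.mpr hz)
      · intro h2; omega
    · obtain ⟨h3, h3'⟩ := nn_of_notMem hz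
      rw [h3, PV.dir_mk_of_notMem hz]
      refine ⟨fun _ => ?_, fun _ => rfl⟩
      rw [mem_ball, not_or] at hy hz
      have h4 := v.add (y - a) (a - z) (sub_ne_zero.mpr hy.1) (sub_ne_zero.mpr (Ne.symm hz.1)) (by
        rw [sub_add_sub_cancel]; exact sub_ne_zero.mpr h)
      rw [sub_add_sub_cancel, v.o_sub_comm a z] at h4
      omega

lemma o_of_dir_ne' {y z : K} (h : (PV.mk v a r).dir y ≠ (PV.mk v a r).dir z) :
    v.o (y - z) + r = nn v a r y + nn v a r z := by
  have hne : y ≠ z := fun e => h (by rw [e])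
  have h1 := gp_nonneg (v := v) (a := a) (r := r) hne
  have h2 := (dir_eq_iff_gp (v := v) (a := a) (r := r) hne).not.mp h
  omega

end nn

section gp

/-- `y` and `z` have Gromov product at least `n` seen from the disc `(a, r)` -/
def GP (v : DV K) (a : K) (r : ℤ) (n : ℤ) (y z : K) : Prop :=
  y = z ∨ n + nn v a r y + nn v a r z ≤ v.o (y - z) + r

variable {v : DV K} {a : K} {r : ℤ}

lemma GP.recenter {c y z : K} {n : ℤ} (hc : c ∈ ball v a r) (h : GP v a r n y z) :
    GP v c r n y z := by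
  unfold GP at h ⊢
  rwa [nn_recenter hc, nn_recenter hc]

lemma GP.up {n : ℤ} {y z : K} (m : ℕ) (h : GP v a r n y z) : GP v a (r + m) (n - m) y z := by
  induction m with
  | zero => simpa using h
  | succ m ih =>
    rcases ih with h1 | h1
    · exact Or.inl h1
    right
    have h2 := nn_succ (v := v) (a := a) (r := r + m) y
    have h3 := nn_succ (v := v) (a := a) (r := r + m) z
    push_cast
    rw [← add_assoc]
    omega

lemma GP.down {n : ℤ} {y z : K} (m : ℕ) (h : GP v a r n y z) : GP v a (r - m) (n - m) y z := by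
  induction m with
  | zero => simpa using h
  | succ m ih =>
    rcases ih with h1 | h1
    · exact Or.inl h1
    right
    have h2 := nn_succ (v := v) (a := a) (r := r - m - 1) y
    have h3 := nn_succ (v := v) (a := a) (r := r - m - 1) z
    rw [sub_add_cancel] at h2 h3
    have e : r - ((m + 1 : ℕ) : ℤ) = r - m - 1 := by push_cast; ring
    rw [e]
    push_cast
    omega

lemma GP.dir_eq {n : ℤ} (hn : 1 ≤ n) {y z : K} (h : GP v a r n y z) :
    (PV.mk v a r).dir y = (PV.mk v a r).dir z := by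
  rcases h with h | h
  · rw [h]
  by_cases hyz : y = z
  · rw [hyz]
  rw [dir_eq_iff_gp hyz]
  omega

lemma GP.of_dir_eq {y z : K} (h : (PV.mk v a r).dir y = (PV.mk v a r).dir z) : GP v a r 1 y z := by
  by_cases hyz : y = z
  · exact Or.inl hyz
  right
  have := (dir_eq_iff_gp hyz).mp h
  omega

end gp

section path

/-- The vertex at distance `ℓ` from `(a, r)` on the way to `y`. -/
noncomputable def way (v : DV K) (a : K) (r : ℤ) (ℓ : ℕ) (y : K) : PV v :=
  if (ℓ : ℤ) ≤ r - nn v a r y then PV.mk v a (r - ℓ) else PV.mk v y (2 * nn v a r y - r + ℓ)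

variable {v : DV K} {a : K} {r : ℤ}

lemma mem_ball_nn (y : K) : y ∈ ball v a (nn v a r y) := by
  rw [mem_ball_iff_ge]
  exact ge_nn y

lemma way_of_le {ℓ : ℕ} {y : K} (h : (ℓ : ℤ) ≤ r - nn v a r y) : way v a r ℓ y = PV.mk v a (r - ℓ) := by
  unfold way
  rw [if_pos h]

lemma way_of_ge {ℓ : ℕ} {y : K} (h : r - nn v a r y ≤ (ℓ : ℤ)) :
    way v a r ℓ y = PV.mk v y (2 * nn v a r y - r + ℓ) := by
  unfold way
  split_ifs with h1
  · have h2 : (ℓ : ℤ) = r - nn v a r y := le_antisymm h1 h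
    rw [h2]
    have h3 : 2 * nn v a r y - r + (r - nn v a r y) = nn v a r y := by ring
    have h4 : r - (r - nn v a r y) = nn v a r y := by ring
    rw [h3, h4]
    exact (PV.mk_eq (mem_ball_nn y)).symm
  · rfl

/-- Gromov products decrease at most by the distance along a path. -/
lemma GP.way {n : ℤ} {y z : K} (h : GP v a r n y z) (ℓ : ℕ) (w : K) (hn : ℓ < n) :
    (RatTree.way v a r ℓ w).dir y = (RatTree.way v a r ℓ w).dir z := by
  have hnn := nn_le (v := v) (a := a) (r := r) w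
  rcases le_total (ℓ : ℤ) (r - nn v a r w) with h1 | h1
  · rw [way_of_le h1]
    exact (h.down ℓ).dir_eq (by omega)
  · rw [way_of_ge h1]
    obtain ⟨u, hu⟩ := Int.eq_ofNat_of_zero_le (a := r - nn v a r w) (by omega)
    obtain ⟨m, hm⟩ := Int.eq_ofNat_of_zero_le (a := ℓ - (r - nn v a r w)) (by omega)
    have h2 := h.down u
    rw [← hu] at h2
    have h3 : r - (r - nn v a r w) = nn v a r w := by ring
    rw [h3] at h2
    have h4 := (GP.recenter (mem_ball_nn w) h2).up m
    rw [← hm] at h4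
    have h5 : nn v a r w + (↑ℓ - (r - nn v a r w)) = 2 * nn v a r w - r + ↑ℓ := by ring
    rw [h5] at h4
    exact h4.dir_eq (by omega)

/-- if `z` is in the direction of `y` at the vertex `way ℓ y` then the Gromov product is large -/
lemma GP.of_way {ℓ : ℕ} {y z : K} (h : (RatTree.way v a r ℓ y).dir z = (RatTree.way v a r ℓ y).dir y) :
    GP v a r (ℓ + 1) y z := by
  by_cases hyz : y = z
  · exact Or.inl hyz
  right
  have hnn := nn_le (v := v) (a := a) (r := r) y
  rcases lt_or_ge (ℓ : ℤ) (r - nn v a r y) with h1 | h1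
  · rw [way_of_le h1.le] at h
    have hy : y ∉ ball v a (r - ℓ) := by
      intro hy
      have h2 : v.ge ((r - ℓ : ℤ) : ℝ) (y - a) := mem_ball_iff_ge.mp hy
      by_cases hya : y = a
      · subst hya
        rw [nn_of_mem (mem_ball_self y r)] at h1
        omega
      · have hyb : y ∉ ball v a r := by
          rw [← nn_eq_iff]; omega
        have h3 := nn_of_notMem hyb
        rcases hy with hy | hy
        · exact hya hy
        · omega
    have hyb : y ∉ ball v a r := fun h2 => hy (ball_mono (by omega) h2)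
    rw [PV.dir_mk_of_notMem hy] at h
    have hz : z ∉ ball v a (r - ℓ) := by
      rw [← PV.dir_ne_empty, not_not]; exact h
    have hzb : z ∉ ball v a r := fun h2 => hz (ball_mono (by omega) h2)
    rw [(nn_of_notMem hyb).1, (nn_of_notMem hzb).1]
    rw [mem_ball, not_or, not_le] at hy hz
    have h4 := v.add (y - a) (a - z) (sub_ne_zero.mpr hy.1) (sub_ne_zero.mpr (Ne.symm hz.1)) (by
      rw [sub_add_sub_cancel]; exact sub_ne_zero.mpr hyz)
    rw [sub_add_sub_cancel, v.o_sub_comm a z] at h4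
    omega
  · rw [way_of_ge h1] at h
    have h2 := (PV.dir_eq_iff (mem_ball_self y _)).mp h.symm
    rcases h2 with h2 | h2
    · exact absurd h2.symm hyz
    have h3 : nn v a r z = nn v a r y := by
      by_cases hy : y ∈ ball v a r
      · rw [nn_of_mem hy] at h2 ⊢
        apply nn_of_mem
        apply mem_ball_trans _ hy
        right; omega
      · obtain ⟨h4, h5⟩ := nn_of_notMem hy
        have hzo : v.o (y - a) < v.o (z - y) := by omega
        rw [mem_ball, not_or] at hy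
        have h6 := DV.ord_add_of_ge (v := v) (x := y - a) (y := z - y) (c := v.o (z - y))
          (sub_ne_zero.mpr hy.1) (DV.ge_self _) (by exact_mod_cast hzo)
        rw [add_comm, sub_add_sub_cancel] at h6
        have hza : z ∉ ball v a r := by
          rintro (h7 | h7)
          · exact h6.1 (by rw [h7, sub_self])
          · omega
        rw [(nn_of_notMem hza).1, h4, h6.2]
    rw [h3, v.o_sub_comm y z]
    omega

lemma nn_eq_of_gp {n : ℤ} {y z : K} (h : GP v a r n y z) (hn : r - nn v a r y < n) :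
    nn v a r z = nn v a r y := by
  have hz := nn_le (v := v) (a := a) (r := r) z
  have hy := nn_le (v := v) (a := a) (r := r) y
  rcases h with h | h
  · rw [h]
  by_cases hyz : y = z
  · rw [hyz]
  by_cases hyb : y ∈ ball v a r
  · rw [nn_of_mem hyb]
    rw [nn_of_mem hyb] at h hn
    by_contra hne
    have hzb : z ∉ ball v a r := fun h1 => hne (nn_of_mem h1)
    obtain ⟨h1, h2⟩ := nn_of_notMem hzb
    have h3 := PV.o_of_notMem (v := v) hzb hyb (mem_ball_self a r)
    rw [v.o_sub_comm y z, h3] at h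
    omega
  · obtain ⟨h1, h2⟩ := nn_of_notMem hyb
    rw [h1] at h hn ⊢
    have hlt : v.o (y - a) < v.o (z - y) := by
      rw [v.o_sub_comm z y]
      by_cases hzb : z ∈ ball v a r
      · rw [nn_of_mem hzb] at h
        omega
      · obtain ⟨h3, h4⟩ := nn_of_notMem hzb
        rw [h3] at h
        -- `n + v(y-a) + v(z-a) ≤ v(y-z) + r`, `r - v(y-a) < n`
        have hyb' := hyb
        rw [mem_ball, not_or] at hyb' hzb
        by_contra hcon
        push Not at hcon
        have h5 : v.o (z - a) < v.o (y - z) := by omega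
        have h6 := DV.ord_add_of_ge (v := v) (x := z - a) (y := y - z) (c := v.o (y - z))
          (sub_ne_zero.mpr hzb.1) (DV.ge_self _) (by exact_mod_cast h5)
        rw [add_comm, sub_add_sub_cancel] at h6
        omega
    have hyb' := hyb
    rw [mem_ball, not_or] at hyb'
    have h6 := DV.ord_add_of_ge (v := v) (x := y - a) (y := z - y) (c := v.o (z - y))
      (sub_ne_zero.mpr hyb'.1) (DV.ge_self _) (by exact_mod_cast hlt)
    rw [add_comm, sub_add_sub_cancel] at h6
    have hza : z ∉ ball v a r := by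
      rintro (h7 | h7)
      · exact h6.1 (by rw [h7, sub_self])
      · omega
    rw [(nn_of_notMem hza).1, h6.2]

/-- points in the same direction at `way ℓ y` have the same next vertex -/
lemma way_succ {ℓ : ℕ} {y z : K} (h : (RatTree.way v a r ℓ y).dir z = (RatTree.way v a r ℓ y).dir y) :
    way v a r (ℓ + 1) z = way v a r (ℓ + 1) y := by
  have hgp := GP.of_way h
  have hyr := nn_le (v := v) (a := a) (r := r) y
  rcases lt_or_ge (ℓ : ℤ) (r - nn v a r y) with h1 | h1
  · -- both points are outside of the disc `(a, r - ℓ)`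
    have h2 : (ℓ : ℤ) + 1 ≤ r - nn v a r z := by
      rcases hgp with h3 | h3
      · rw [← h3]; omega
      · by_cases hyz : y = z
        · rw [← hyz]; omega
        have hyb : y ∉ ball v a r := by
          rw [← nn_eq_iff]; omega
        obtain ⟨h4, h5⟩ := nn_of_notMem hyb
        by_cases hzb : z ∈ ball v a r
        · have h6 := PV.o_of_notMem (v := v) hyb hzb (mem_ball_self a r)
          rw [nn_of_mem hzb, h4, h6] at h3
          omega
        · obtain ⟨h6, h7⟩ := nn_of_notMem hzb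
          rw [h4, h6] at h3
          rw [h6]
          rw [h4] at h1
          by_contra hcon
          push Not at hcon
          have h8 : v.o (y - a) < v.o (z - a) := by omega
          rw [mem_ball, not_or] at hyb hzb
          have h9 := DV.ord_add_of_ge (v := v) (x := y - a) (y := a - z) (c := v.o (a - z))
            (sub_ne_zero.mpr hyb.1) (DV.ge_self _) (by rw [v.o_sub_comm a z]; exact_mod_cast h8)
          rw [sub_add_sub_cancel] at h9
          omega
    rw [way_of_le (ℓ := ℓ + 1) (y := z) (by push_cast; omega),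
      way_of_le (ℓ := ℓ + 1) (y := y) (by push_cast; omega)]
  · have h2 : nn v a r z = nn v a r y := nn_eq_of_gp hgp (by omega)
    rw [way_of_ge (ℓ := ℓ + 1) (y := z) (by push_cast; omega),
      way_of_ge (ℓ := ℓ + 1) (y := y) (by push_cast; omega), h2]
    apply PV.mk_eq
    rw [way_of_ge h1] at h
    have h3 := (PV.dir_eq_iff (mem_ball_self y _)).mp h.symm
    push_cast
    rwa [← add_assoc]

end path

section gauss

variable {v : DV K} {a : K} {r : ℤ} {φ ψ : K[X]}

/-- evaluation -/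
lemma ge_eval {d : ℕ} (hd : φ.natDegree ≤ d) {e : ℝ} (h : geP v (r : ℝ) e (taylor a φ)) (y : K) :
    v.ge (e + d * (nn v a r y - r)) (φ.eval y) := by
  have h1 : φ.eval y = ∑ i ∈ Finset.range (d + 1), (taylor a φ).coeff i * (y - a) ^ i := by
    have h2 : φ.eval y = (taylor a φ).eval (y - a) := by
      rw [taylor_eval]
      congr 1
      ring
    rw [h2]
    apply eval_eq_sum_range'
    rw [natDegree_taylor]
    omega
  rw [h1]
  apply DV.ge_sum
  intro i hi
  rw [Finset.mem_range] at hi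
  refine DV.ge_mono (DV.ge_mul (h i) (DV.ge_pow (ge_nn (r := r) y) i)) ?_
  have h3 : ((nn v a r y : ℤ) : ℝ) ≤ r := by exact_mod_cast nn_le y
  have h4 : (i : ℝ) ≤ d := by exact_mod_cast Nat.lt_succ_iff.mp hi
  (clear * - h3 h4; nlinarith)

/-- Lagrange interpolation at points in distinct directions. -/
lemma exists_eval_le {d : ℕ} (hd : φ.natDegree ≤ d) (hφ : φ ≠ 0) [DecidableEq K] (s : Finset K)
    (hs : s.card = d + 1)
    (hdir : ∀ y ∈ s, ∀ z ∈ s, y ≠ z → (PV.mk v a r).dir y ≠ (PV.mk v a r).dir z) :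
    ∃ y ∈ s, φ.eval y ≠ 0 ∧ v.o (φ.eval y) + d * (r - nn v a r y) ≤ gn v a r φ := by
  have hdeg : φ.degree < s.card := by
    rw [degree_eq_natDegree hφ, hs]
    exact_mod_cast Nat.lt_succ_of_le hd
  have hex : (s.filter fun y => φ.eval y ≠ 0).Nonempty := by
    by_contra hcon
    rw [not_nonempty_iff_eq_empty, filter_eq_empty_iff] at hcon
    apply hφ
    apply Polynomial.eq_zero_of_degree_lt_of_eval_finset_eq_zero s hdeg
    intro y hy
    have := hcon hy
    push Not at this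
    exact this
  obtain ⟨y0, hy0, hmin⟩ := exists_min_image _
    (fun y => v.o (φ.eval y) + d * (r - nn v a r y)) hex
  rw [mem_filter] at hy0
  refine ⟨y0, hy0.1, hy0.2, ?_⟩
  set Q : ℤ := v.o (φ.eval y0) + d * (r - nn v a r y0) with hQ
  suffices h : ((Q : ℤ) : ℝ) ≤ gn v a r φ by exact_mod_cast h
  apply le_gn hφ
  have hinj : Set.InjOn (id : K → K) (s : Set K) := fun _ _ _ _ h => h
  have hgi := Lagrange.eq_interpolate_of_eval_eq (s := s) (v := id) (fun y => φ.eval y) hinj hdeg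
    (fun y _ => rfl)
  have hexp : φ = ∑ y ∈ s, C (φ.eval y * ∏ z ∈ s.erase y, (y - z)⁻¹) * ∏ z ∈ s.erase y, (X - C z) := by
    conv_lhs => rw [hgi, Lagrange.interpolate_apply]
    apply sum_congr rfl
    intro y _
    unfold Lagrange.basis Lagrange.basisDivisor
    simp only [id]
    rw [prod_mul_distrib, C_mul, mul_assoc, ← map_prod (C : K →+* K[X])]
  have htay : taylor a φ = ∑ y ∈ s, C (φ.eval y * ∏ z ∈ s.erase y, (y - z)⁻¹) *
      ∏ z ∈ s.erase y, (X - C (z - a)) := by
    conv_lhs => rw [hexp, map_sum]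
    apply sum_congr rfl
    intro y _
    rw [taylor_mul, taylor_C, tc_linear_prod]
  rw [htay]
  apply geP_sum
  intro y hy
  by_cases hgy : φ.eval y = 0
  · rw [hgy, zero_mul, C_0, zero_mul]
    intro i
    left
    exact coeff_zero i
  have hlin : ∀ z ∈ s.erase y, geP v (r : ℝ) (nn v a r z) (X - C (z - a)) := by
    intro z _ i
    rw [coeff_sub, coeff_X, coeff_C]
    rcases i with _ | _ | i
    · simp only [Nat.cast_zero, zero_mul, sub_zero, one_ne_zero, if_false, if_true, zero_sub]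
      exact DV.ge_neg (ge_nn z)
    · right
      simp [v.o_one]
      exact nn_le z
    · simp [DV.ge_zero]
  have h1 := geP_prod' (v := v) (c := (r : ℝ)) (s.erase y) (fun z => ((nn v a r z : ℤ) : ℝ))
    (fun z => X - C (z - a)) hlin
  have h2 : ∀ z ∈ s.erase y, (y - z)⁻¹ ≠ 0 := fun z hz =>
      inv_ne_zero (sub_ne_zero.mpr (Ne.symm (mem_erase.mp hz).1))
  have hc : v.ge ((v.o (φ.eval y * ∏ z ∈ s.erase y, (y - z)⁻¹) : ℤ) : ℝ)
      (φ.eval y * ∏ z ∈ s.erase y, (y - z)⁻¹) := DV.ge_self _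
  have h3 := geP_C_mul hc h1
  refine geP_mono h3 ?_
  rw [v.mul _ _ hgy (prod_ne_zero_iff.mpr h2), v.o_prod _ _ h2]
  have h4 : ∀ z ∈ s.erase y, v.o (y - z)⁻¹ + nn v a r z = r - nn v a r y := by
    intro z hz
    rw [mem_erase] at hz
    rw [v.o_inv _ (sub_ne_zero.mpr (Ne.symm hz.1))]
    have := o_of_dir_ne' (hdir y hy z hz.2 (Ne.symm hz.1))
    omega
  have h5 : (∑ z ∈ s.erase y, v.o (y - z)⁻¹) + ∑ z ∈ s.erase y, nn v a r z = d * (r - nn v a r y) := by
    rw [← sum_add_distrib, sum_congr rfl h4, sum_const, card_erase_of_mem hy, hs]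
    simp
  have h6 := hmin y (mem_filter.mpr ⟨hy, hgy⟩)
  have h7 : Q ≤ v.o (φ.eval y) + ((∑ z ∈ s.erase y, v.o (y - z)⁻¹) + ∑ z ∈ s.erase y, nn v a r z) := by
    rw [h5]; exact h6
  have h8 : (Q : ℝ) ≤ (v.o (φ.eval y) : ℝ) + ((∑ z ∈ s.erase y, (v.o (y - z)⁻¹ : ℝ)) +
      ∑ z ∈ s.erase y, (nn v a r z : ℝ)) := by exact_mod_cast h7
  push_cast
  (clear * - h8; linarith)

/-- the Bezoutian of two monomials -/
lemma ge_bez_mono {d i j : ℕ} (hi : i ≤ d) (hj : j ≤ d) (y z : K) :
    v.ge ((i + j : ℕ) * (r : ℝ) + ((v.o (y - z) + r - nn v a r y - nn v a r z : ℤ) : ℝ) +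
      d * (nn v a r y - r) + d * (nn v a r z - r))
      ((y - a) ^ i * (z - a) ^ j - (y - a) ^ j * (z - a) ^ i) := by
  wlog hij : i ≤ j generalizing i j
  · have := DV.ge_neg (this hj hi (by omega))
    rw [neg_sub] at this
    rw [add_comm i j]
    exact this
  obtain ⟨k, rfl⟩ := Nat.exists_eq_add_of_le hij
  set u := y - a with hu
  set w := z - a with hw
  have hny : ((nn v a r y : ℤ) : ℝ) ≤ r := by exact_mod_cast nn_le y
  have hnz : ((nn v a r z : ℤ) : ℝ) ≤ r := by exact_mod_cast nn_le z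
  have hgy : v.ge (nn v a r y) u := ge_nn y
  have hgz : v.ge (nn v a r z) w := ge_nn z
  have h1 : u ^ i * w ^ (i + k) - u ^ (i + k) * w ^ i =
      -((u ^ i * w ^ i) * ((u - w) * ∑ t ∈ Finset.range k, u ^ t * w ^ (k - 1 - t))) := by
    have h2 := (Commute.all u w).mul_geom_sum₂ k
    rw [h2]
    ring
  rw [h1]
  apply DV.ge_neg
  have h3 : v.ge ((i : ℝ) * nn v a r y + i * nn v a r z) (u ^ i * w ^ i) :=
    DV.ge_mul (DV.ge_pow hgy i) (DV.ge_pow hgz i)
  have h4 : v.ge ((v.o (y - z) : ℤ) : ℝ) (u - w) := by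
    rw [hu, hw, sub_sub_sub_cancel_right]
    exact DV.ge_self _
  rcases Nat.eq_zero_or_pos k with rfl | hk
  · simp [DV.ge_zero]
  have h5 : v.ge ((k - 1 : ℕ) * (r : ℝ) + (d - i - 1) * (nn v a r y - r) +
      (d - i - 1) * (nn v a r z - r)) (∑ t ∈ Finset.range k, u ^ t * w ^ (k - 1 - t)) := by
    apply DV.ge_sum
    intro t ht
    rw [Finset.mem_range] at ht
    refine DV.ge_mono (DV.ge_mul (DV.ge_pow hgy t) (DV.ge_pow hgz (k - 1 - t))) ?_
    have e1 : ((k - 1 - t : ℕ) : ℝ) = (k : ℝ) - 1 - t := by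
      rw [Nat.cast_sub (by omega), Nat.cast_sub (by omega)]; simp
    have e2 : ((k - 1 : ℕ) : ℝ) = (k : ℝ) - 1 := by
      rw [Nat.cast_sub (by omega)]; simp
    rw [e1, e2]
    have e3 : (i : ℝ) + k ≤ d := by exact_mod_cast hj
    have e4 : (t : ℝ) + 1 ≤ k := by exact_mod_cast ht
    have e5 : (0 : ℝ) ≤ t := Nat.cast_nonneg t
    (clear * - hnz hny e1 e3; nlinarith)
  refine DV.ge_mono (DV.ge_mul h3 (DV.ge_mul h4 h5)) ?_
  have e2 : ((k - 1 : ℕ) : ℝ) = (k : ℝ) - 1 := by
    rw [Nat.cast_sub (by omega)]; simp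
  rw [e2]
  push_cast
  (clear * -; nlinarith)

/-- **The Bezoutian bound.** -/
lemma ge_bez {d : ℕ} (hφ : φ.natDegree ≤ d) (hψ : ψ.natDegree ≤ d) {e e' : ℝ}
    (h1 : geP v (r : ℝ) e (taylor a φ)) (h2 : geP v (r : ℝ) e' (taylor a ψ)) (y z : K) :
    v.ge (e + e' + ((v.o (y - z) + r - nn v a r y - nn v a r z : ℤ) : ℝ) +
      d * (nn v a r y - r) + d * (nn v a r z - r))
      (φ.eval y * ψ.eval z - φ.eval z * ψ.eval y) := by
  have hev : ∀ (χ : K[X]), χ.natDegree ≤ d → ∀ t : K,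
      χ.eval t = ∑ i ∈ Finset.range (d + 1), (taylor a χ).coeff i * (t - a) ^ i := by
    intro χ hχ t
    have h2 : χ.eval t = (taylor a χ).eval (t - a) := by
      rw [taylor_eval]
      congr 1
      ring
    rw [h2]
    apply eval_eq_sum_range'
    rw [natDegree_taylor]
    omega
  have hexp : φ.eval y * ψ.eval z - φ.eval z * ψ.eval y =
      ∑ i ∈ Finset.range (d + 1), ∑ j ∈ Finset.range (d + 1),
        ((taylor a φ).coeff i * (taylor a ψ).coeff j) *
          ((y - a) ^ i * (z - a) ^ j - (y - a) ^ j * (z - a) ^ i) := by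
    rw [hev φ hφ y, hev φ hφ z, hev ψ hψ y, hev ψ hψ z, Finset.sum_mul_sum, Finset.sum_mul_sum,
      ← Finset.sum_sub_distrib]
    apply sum_congr rfl
    intro i _
    rw [← Finset.sum_sub_distrib]
    apply sum_congr rfl
    intro j _
    ring
  rw [hexp]
  apply DV.ge_sum
  intro i hi
  apply DV.ge_sum
  intro j hj
  rw [Finset.mem_range] at hi hj
  refine DV.ge_mono (DV.ge_mul (DV.ge_mul (h1 i) (h2 j))
    (ge_bez_mono (a := a) (r := r) (Nat.lt_succ_iff.mp hi) (Nat.lt_succ_iff.mp hj) y z)) ?_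
  push_cast
  (clear * -; linarith)

end gauss

section push

variable {v : DV K} {a b : K} {r s : ℤ} {P Q : K[X]} {d : ℕ}

/-- the coordinate of the image point -/
lemma nn_div {p q : K} (hq : q ≠ 0) : nn v b s (b + p / q) + v.o q ≤ v.o q + s ∧
    (p ≠ 0 → nn v b s (b + p / q) + v.o q ≤ v.o p) ∧
    (nn v b s (b + p / q) + v.o q = v.o q + s ∨
      (p ≠ 0 ∧ nn v b s (b + p / q) + v.o q = v.o p)) := by
  by_cases hp : p = 0
  · subst hp
    rw [zero_div, add_zero, nn_of_mem (mem_ball_self b s)]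
    refine ⟨by omega, fun h => absurd rfl h, Or.inl (by omega)⟩
  · have h1 : b + p / q ≠ b := by
      intro h
      have : p / q = 0 := by
        have := congrArg (· - b) h
        simpa using this
      rw [div_eq_zero_iff] at this
      tauto
    unfold nn
    rw [if_neg h1, add_sub_cancel_left, v.o_div p q hp hq]
    refine ⟨by omega, fun _ => by omega, ?_⟩
    rcases le_total (v.o p - v.o q) s with h | h
    · right; exact ⟨hp, by omega⟩
    · left; omega

/-- the normalised order of the pair `(P, Q)` at `y`, target coordinate `(b, s)` -/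
noncomputable def N (v : DV K) (b : K) (s : ℤ) (P Q : K[X]) (y : K) : ℤ :=
  nn v b s (P.eval y / Q.eval y) + v.o (Q.eval y)

lemma N_le_right {y : K} (hy : Q.eval y ≠ 0) : N v b s P Q y ≤ v.o (Q.eval y) + s := by
  unfold N
  rw [eval_div (b := b) hy]
  exact (nn_div hy).1

lemma N_le_left {y : K} (hy : Q.eval y ≠ 0) (h : (P - C b * Q).eval y ≠ 0) :
    N v b s P Q y ≤ v.o ((P - C b * Q).eval y) := by
  unfold N
  rw [eval_div (b := b) hy]
  exact (nn_div hy).2.1 h

lemma N_cases {y : K} (hy : Q.eval y ≠ 0) : N v b s P Q y = v.o (Q.eval y) + s ∨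
    ((P - C b * Q).eval y ≠ 0 ∧ N v b s P Q y = v.o ((P - C b * Q).eval y)) := by
  unfold N
  rw [eval_div (b := b) hy]
  exact (nn_div hy).2.2

/-- lower bound for `N` -/
lemma le_N {e : ℤ} (hP : (P - C b * Q).natDegree ≤ d) (hQ : Q.natDegree ≤ d)
    (h1 : geP v (r : ℝ) e (taylor a (P - C b * Q))) (h2 : geP v (r : ℝ) ((e - s : ℤ) : ℝ) (taylor a Q))
    {y : K} (hy : Q.eval y ≠ 0) : e + d * (nn v a r y - r) ≤ N v b s P Q y := by
  rcases N_cases (v := v) (b := b) (s := s) (P := P) hy with h | ⟨h0, h⟩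
  · rw [h]
    have h3 := DV.ge_le (ge_eval hQ h2 y) hy
    have h4 : (e - s : ℤ) + d * (nn v a r y - r) ≤ v.o (Q.eval y) := by exact_mod_cast h3
    (clear * - h4; linarith)
  · rw [h]
    have h3 := DV.ge_le (ge_eval hP h1 y) h0
    exact_mod_cast h3

/-- **Gromov products do not decrease in good directions.** -/
lemma GP.push {n e : ℤ} (hP : (P - C b * Q).natDegree ≤ d) (hQ : Q.natDegree ≤ d)
    (h1 : geP v (r : ℝ) e (taylor a (P - C b * Q))) (h2 : geP v (r : ℝ) ((e - s : ℤ) : ℝ) (taylor a Q))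
    {y z : K} (hy : Q.eval y ≠ 0) (hz : Q.eval z ≠ 0)
    (hgy : N v b s P Q y ≤ e + d * (nn v a r y - r)) (hgz : N v b s P Q z ≤ e + d * (nn v a r z - r))
    (h : GP v a r n y z) : GP v b s n (P.eval y / Q.eval y) (P.eval z / Q.eval z) := by
  by_cases hne : P.eval y / Q.eval y = P.eval z / Q.eval z
  · exact Or.inl hne
  right
  rcases h with h | h
  · exact absurd (by rw [h]) hne
  obtain ⟨h3, h4⟩ := o_image_sub (v := v) (b := b) hy hz hne
  have h5 := DV.ge_le (ge_bez (r := r) hP hQ h1 h2 y z) h3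
  have h6 : e + (e - s) + (v.o (y - z) + r - nn v a r y - nn v a r z) +
      d * (nn v a r y - r) + d * (nn v a r z - r) ≤
      v.o ((P - C b * Q).eval y * Q.eval z - (P - C b * Q).eval z * Q.eval y) := by
    exact_mod_cast h5
  rw [h4]
  unfold N at hgy hgz
  (clear * - hgy hgz h h6; linarith)

end push

section tree

variable {v : DV K} {P Q : K[X]} {d : ℕ}

/-- action of a rational map on discs -/
noncomputable def act (v : DV K) (hQ : Q ≠ 0) (hPQ : ∀ b : K, P - C b * Q ≠ 0) (ζ : PV v) : PV v :=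
  PV.mk v (ctr v hQ hPQ ζ.2.choose ζ.1.2) (rad v hQ hPQ ζ.2.choose ζ.1.2)

lemma mk_choose (ζ : PV v) : PV.mk v ζ.2.choose ζ.1.2 = ζ :=
  Subtype.ext (Prod.ext ζ.2.choose_spec.symm rfl)

/-- A point in a bad direction. -/
def IsBad (v : DV K) (hQ : Q ≠ 0) (hPQ : ∀ b : K, P - C b * Q ≠ 0) (d : ℕ) (a : K) (r : ℤ) (y : K) :
    Prop :=
  v.ge ((gn v a r (P - C (ctr v hQ hPQ a r) * Q) + d * (nn v a r y - r) + 1 : ℤ) : ℝ)
    ((P - C (ctr v hQ hPQ a r) * Q).eval y) ∧
  v.ge ((gn v a r Q + d * (nn v a r y - r) + 1 : ℤ) : ℝ) (Q.eval y)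

/-- bad directions -/
def badSet (v : DV K) (hQ : Q ≠ 0) (hPQ : ∀ b : K, P - C b * Q ≠ 0) (d : ℕ) (a : K) (r : ℤ) :
    Set (Set K) := {δ | ∃ y, (PV.mk v a r).dir y = δ ∧ IsBad v hQ hPQ d a r y}

lemma card_bad [DecidableEq K] (hQ : Q ≠ 0) (hPQ : ∀ b : K, P - C b * Q ≠ 0) (hPd : P.natDegree ≤ d)
    (hQd : Q.natDegree ≤ d) (a : K) (r : ℤ) (Ds : Finset (Set K))
    (h : ∀ δ ∈ Ds, δ ∈ badSet v hQ hPQ d a r) : Ds.card ≤ d := by
  classical
  by_contra hlt
  push Not at hlt
  obtain ⟨Ds', hsub, hcard⟩ := exists_subset_card_eq (s := Ds) (n := d + 1) hlt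
  choose! y hy using fun δ (hδ : δ ∈ Ds') => h δ (hsub hδ)
  have hinj : Set.InjOn y (Ds' : Set (Set K)) := by
    intro δ hδ δ1 hδ1 he
    rw [← (hy δ hδ).1, ← (hy δ1 hδ1).1, he]
  obtain ⟨z, hz, hz0, hzle⟩ := exists_eval_le (v := v) (a := a) (r := r)
    (natDegree_sub_le' hPd hQd (ctr v hQ hPQ a r)) (hPQ _) (Ds'.image y)
    (by rw [card_image_of_injOn hinj, hcard]) (by
      intro y1 hy1 y2 hy2 hne heq
      obtain ⟨δ, hδ, rfl⟩ := mem_image.mp hy1
      obtain ⟨δ1, hδ1, rfl⟩ := mem_image.mp hy2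
      apply hne
      rw [(hy δ hδ).1, (hy δ1 hδ1).1] at heq
      rw [heq])
  obtain ⟨δ, hδ, rfl⟩ := mem_image.mp hz
  have h1 := DV.ge_le (hy δ hδ).2.1 hz0
  have h2 : gn v a r (P - C (ctr v hQ hPQ a r) * Q) + d * (nn v a r (y δ) - r) + 1 ≤
    v.o ((P - C (ctr v hQ hPQ a r) * Q).eval (y δ)) := by exact_mod_cast h1
  (clear * - hzle h2; linarith)

lemma badSet_finite (hQ : Q ≠ 0) (hPQ : ∀ b : K, P - C b * Q ≠ 0) (hPd : P.natDegree ≤ d)
    (hQd : Q.natDegree ≤ d) (a : K) (r : ℤ) : (badSet v hQ hPQ d a r).Finite := by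
  classical
  by_contra hinf
  obtain ⟨T, hT, hcard⟩ := Set.Infinite.exists_subset_card_eq hinf (d + 1)
  have := card_bad (v := v) hQ hPQ hPd hQd a r T (fun δ hδ => hT hδ)
  omega

/-- a point in a good direction has minimal order -/
lemma N_le_of_good (hQ : Q ≠ 0) (hPQ : ∀ b : K, P - C b * Q ≠ 0) {a : K} {r : ℤ} {y : K}
    (hy : Q.eval y ≠ 0) (h : ¬ IsBad v hQ hPQ d a r y) :
    N v (ctr v hQ hPQ a r) (rad v hQ hPQ a r) P Q y ≤
      gn v a r (P - C (ctr v hQ hPQ a r) * Q) + d * (nn v a r y - r) := by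
  unfold IsBad at h
  rw [not_and_or] at h
  rcases h with h | h
  · unfold DV.ge at h
    push Not at h
    have h1 := N_le_left (v := v) (b := ctr v hQ hPQ a r) (s := rad v hQ hPQ a r) (P := P) hy h.1
    have h2 : v.o ((P - C (ctr v hQ hPQ a r) * Q).eval y) <
      gn v a r (P - C (ctr v hQ hPQ a r) * Q) + d * (nn v a r y - r) + 1 := by exact_mod_cast h.2
    omega
  · unfold DV.ge at h
    push Not at h
    have h1 := N_le_right (v := v) (b := ctr v hQ hPQ a r) (s := rad v hQ hPQ a r) (P := P) hy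
    have h2 : v.o (Q.eval y) < gn v a r Q + d * (nn v a r y - r) + 1 := by exact_mod_cast h.2
    have h3 : rad v hQ hPQ a r = gn v a r (P - C (ctr v hQ hPQ a r) * Q) - gn v a r Q := rfl
    omega

/-- at most `d` directions are mapped to a given direction -/
lemma card_fibre [DecidableEq K] (hQ : Q ≠ 0) (hPQ : ∀ b : K, P - C b * Q ≠ 0) (hPd : P.natDegree ≤ d)
    (hQd : Q.natDegree ≤ d) (a : K) (r : ℤ) (s : Finset K) (hsQ : ∀ y ∈ s, Q.eval y ≠ 0)
    (hdir : ∀ y ∈ s, ∀ z ∈ s, y ≠ z → (PV.mk v a r).dir y ≠ (PV.mk v a r).dir z)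
    (him : ∀ y ∈ s, ∀ z ∈ s, (PV.mk v (ctr v hQ hPQ a r) (rad v hQ hPQ a r)).dir
      (P.eval y / Q.eval y) = (PV.mk v (ctr v hQ hPQ a r) (rad v hQ hPQ a r)).dir
      (P.eval z / Q.eval z)) : s.card ≤ d := by
  by_contra hlt
  push Not at hlt
  obtain ⟨s', hsub, hcard⟩ := exists_subset_card_eq (s := s) (n := d + 1) hlt
  obtain ⟨z, hz⟩ : s'.Nonempty := card_pos.mp (by omega)
  have hzQ := hsQ z (hsub hz)
  set b := ctr v hQ hPQ a r with hb
  set t := rad v hQ hPQ a r with ht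
  set P1 := P - C b * Q with hP1
  set R := C (Q.eval z) * P1 + C (-P1.eval z) * Q with hR
  have hR0 : R ≠ 0 := by
    have h1 : R = C (Q.eval z) * (P - C (b + P1.eval z / Q.eval z) * Q) := by
      rw [hR, hP1, C_add, C_neg]
      have : C (Q.eval z) * C ((P - C b * Q).eval z / Q.eval z) = C ((P - C b * Q).eval z) := by
        rw [← C_mul]
        congr 1
        field_simp
      rw [mul_sub, mul_sub, ← mul_assoc (C (Q.eval z)) (C b + _) Q, mul_add, this]
      ring
    rw [h1]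
    exact mul_ne_zero (by rwa [ne_eq, C_eq_zero]) (hPQ _)
  have hRd : R.natDegree ≤ d := by
    rw [hR]
    refine (natDegree_add_le _ _).trans (max_le ?_ ?_)
    · exact (natDegree_C_mul_le _ _).trans (natDegree_sub_le' hPd hQd b)
    · exact (natDegree_C_mul_le _ _).trans hQd
  obtain ⟨y, hy, hy0, hyle⟩ := exists_eval_le (v := v) (a := a) (r := r) hRd hR0 s' hcard
    (fun y hy z hz => hdir y (hsub hy) z (hsub hz))
  have hyQ := hsQ y (hsub hy)
  have hReval : R.eval y = P1.eval y * Q.eval z - P1.eval z * Q.eval y := by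
    rw [hR]
    simp only [eval_add, eval_mul, eval_C]
    ring
  have hmax : ∀ b' : K, gn v a r (P - C b' * Q) ≤ gn v a r (P - C b * Q) :=
    (exists_max v a r hQ hPQ).choose_spec
  have hcomb := gn_comb_le (v := v) (a := a) (r := r) hQ hPQ hmax (α := Q.eval z)
    (β := -P1.eval z) hzQ
  have hgR : gn v a r R ≤ gn v a r Q + N v b t P Q z := by
    rcases N_cases (v := v) (b := b) (s := t) (P := P) hzQ with h | ⟨h0, h⟩
    · rw [h]
      have h1 := hcomb.1
      have h2 : t = gn v a r P1 - gn v a r Q := rfl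
      rw [← hP1, ← hR] at h1
      omega
    · rw [h]
      have h1 := hcomb.2 (neg_ne_zero.mpr h0)
      rw [← hP1, ← hR, v.o_neg] at h1
      rw [← hP1]
      omega
  -- the images of `y` and `z` are close
  have hgQ := geP_gn (v := v) (a := a) (r := r) Q
  have hgQ' : geP v (r : ℝ) ((gn v a r P1 - t : ℤ) : ℝ) (taylor a Q) := by
    have : gn v a r P1 - t = gn v a r Q := gn_sub_rad hQ hPQ a r
    rw [this]
    exact hgQ
  have hNy : gn v a r P1 + d * (nn v a r y - r) ≤ N v b t P Q y :=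
    le_N (natDegree_sub_le' hPd hQd b) hQd (geP_gn _) hgQ' hyQ
  have hne : P.eval y / Q.eval y ≠ P.eval z / Q.eval z := by
    intro h
    apply hy0
    rw [hReval, hP1]
    simp only [eval_sub, eval_mul, eval_C]
    rw [div_eq_div_iff hyQ hzQ] at h
    linear_combination h
  have h3 := (dir_eq_iff_gp hne).mp (him y (hsub hy) z (hsub hz))
  have h4 := (o_image_sub (v := v) (b := b) hyQ hzQ hne).2
  rw [h4, ← hP1, ← hReval] at h3
  unfold N at hNy hgR
  have h5 : gn v a r P1 - t = gn v a r Q := gn_sub_rad hQ hPQ a r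
  (clear * - hyle hgR hNy h3 h5; linarith)

/-- **The tree dynamics of a rational map.** -/
noncomputable def ratTree (v : DV K) (hQ : Q ≠ 0) (hPQ : ∀ b : K, P - C b * Q ≠ 0)
    (hPd : P.natDegree ≤ d) (hQd : Q.natDegree ≤ d) (x : ℕ → K) (hxQ : ∀ i, Q.eval (x i) ≠ 0)
    (hx : ∀ i, x (i + 1) = P.eval (x i) / Q.eval (x i)) : TreeDyn (PV v) (Set K) d where
  dir ζ i := ζ.dir (x i)
  f := act v hQ hPQ
  bad ζ := (badSet_finite hQ hPQ hPd hQd ζ.2.choose ζ.1.2).toFinset
  bad_card ζ := by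
    classical
    apply card_bad (v := v) hQ hPQ hPd hQd ζ.2.choose ζ.1.2
    intro δ hδ
    exact (Set.Finite.mem_toFinset _).mp hδ
  good_map := by
    intro ζ i j h1 h2
    rw [Set.Finite.mem_toFinset] at h1
    have hζ := mk_choose ζ
    set a := ζ.2.choose with ha
    set r := ζ.1.2 with hr
    rw [← hζ] at h1 h2
    have hgi : ¬ IsBad v hQ hPQ d a r (x i) := fun h => h1 ⟨x i, rfl, h⟩
    have hgj : ¬ IsBad v hQ hPQ d a r (x j) := fun h => h1 ⟨x j, h2.symm, h⟩
    have h3 := GP.of_dir_eq h2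
    have hgQ' : geP v (r : ℝ) ((gn v a r (P - C (ctr v hQ hPQ a r) * Q) - rad v hQ hPQ a r : ℤ) : ℝ)
        (taylor a Q) := by
      rw [gn_sub_rad hQ hPQ a r]
      exact geP_gn Q
    have h4 := h3.push (natDegree_sub_le' hPd hQd (ctr v hQ hPQ a r)) hQd (geP_gn _) hgQ' (hxQ i) (hxQ j)
      (N_le_of_good hQ hPQ (hxQ i) hgi) (N_le_of_good hQ hPQ (hxQ j) hgj)
    have h5 := h4.dir_eq le_rfl
    rw [← hx, ← hx] at h5
    exact h5
  fto := by
    classical
    intro ζ δ' Ds h
    have hζ := mk_choose ζ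
    choose! hgood i hi using h
    have hinj : Set.InjOn (fun δ => x (i δ)) (Ds : Set (Set K)) := by
      intro δ hδ δ1 hδ1 he
      simp only at he
      rw [← (hi δ hδ).1, ← (hi δ1 hδ1).1, he]
    rw [← card_image_of_injOn hinj]
    apply card_fibre (v := v) hQ hPQ hPd hQd ζ.2.choose ζ.1.2
    · intro y hy
      obtain ⟨δ, hδ, rfl⟩ := mem_image.mp hy
      exact hxQ _
    · intro y hy z hz hyz heq
      obtain ⟨δ, hδ, rfl⟩ := mem_image.mp hy
      obtain ⟨δ1, hδ1, rfl⟩ := mem_image.mp hz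
      apply hyz
      rw [hζ, (hi δ hδ).1, (hi δ1 hδ1).1] at heq
      rw [heq]
    · intro y hy z hz
      obtain ⟨δ, hδ, rfl⟩ := mem_image.mp hy
      obtain ⟨δ1, hδ1, rfl⟩ := mem_image.mp hz
      have e1 := (hi δ hδ).2
      have e2 := (hi δ1 hδ1).2
      rw [hx] at e1 e2
      exact e1.trans e2.symm
  tree := by
    intro ζ ζ' hne
    obtain ⟨a, r, rfl⟩ := ζ.exists_rep
    obtain ⟨b, s, rfl⟩ := ζ'.exists_rep
    by_cases hint : ∃ z, z ∈ ball v a r ∧ z ∈ ball v b s
    · obtain ⟨z, hza, hzb⟩ := hint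
      rw [← PV.mk_eq hza, ← PV.mk_eq hzb] at hne ⊢
      rcases lt_trichotomy r s with hrs | hrs | hrs
      · refine ⟨ball v z (r + 1), ∅, ?_⟩
        intro i hi
        by_contra hi2
        rw [← ne_eq, PV.dir_ne_empty] at hi2
        apply hi
        have h1 : x i ∈ ball v z (r + 1) := ball_mono (by omega) hi2
        rw [PV.dir_mk_of_mem (ball_mono (by omega) h1), ball_eq h1]
      · exact absurd (by rw [hrs]) hne
      · refine ⟨∅, ball v z (s + 1), ?_⟩
        intro i hi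
        rw [PV.dir_ne_empty] at hi
        have h1 : x i ∈ ball v z (s + 1) := ball_mono (by omega) hi
        rw [PV.dir_mk_of_mem (ball_mono (by omega) h1), ball_eq h1]
    · refine ⟨∅, ∅, ?_⟩
      intro i hi
      rw [PV.dir_ne_empty] at hi
      exact PV.dir_mk_of_notMem fun h => hint ⟨x i, hi, h⟩

/-- levels of the tree seen from the disc `(a, r)` -/
noncomputable def ratLevels (v : DV K) (hQ : Q ≠ 0) (hPQ : ∀ b : K, P - C b * Q ≠ 0)
    (hPd : P.natDegree ≤ d) (hQd : Q.natDegree ≤ d) (x : ℕ → K) (hxQ : ∀ i, Q.eval (x i) ≠ 0)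
    (hx : ∀ i, x (i + 1) = P.eval (x i) / Q.eval (x i)) (a : K) (r : ℤ) {L : ℕ} (hL : 1 ≤ L) :
    (ratTree v hQ hPQ hPd hQd x hxQ hx).Levels L where
  vtx ℓ i := way v a r ℓ (x i)
  vtx_zero i j := by
    have h1 := nn_le (v := v) (a := a) (r := r) (x i)
    have h2 := nn_le (v := v) (a := a) (r := r) (x j)
    rw [way_of_le (by push_cast; omega), way_of_le (by push_cast; omega)]
  vtx_succ ℓ i j h := way_succ h
  deep i j h ℓ hℓ i'' := by
    have h1 : GP v a r ((L - 1 : ℕ) + 1) (x i) (x j) := GP.of_way h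
    exact h1.way ℓ (x i'') (by omega)

/-- deep classes are close -/
lemma ratLevels_deep (hQ : Q ≠ 0) (hPQ : ∀ b : K, P - C b * Q ≠ 0)
    (hPd : P.natDegree ≤ d) (hQd : Q.natDegree ≤ d) {x : ℕ → K} (hxQ : ∀ i, Q.eval (x i) ≠ 0)
    (hx : ∀ i, x (i + 1) = P.eval (x i) / Q.eval (x i)) (a : K) (r : ℤ) {L : ℕ} (hL : 1 ≤ L) {i j : ℕ}
    (h : (ratTree v hQ hPQ hPd hQd x hxQ hx).dir
      ((ratLevels v hQ hPQ hPd hQd x hxQ hx a r hL).vtx (L - 1) i) j =
      (ratTree v hQ hPQ hPd hQd x hxQ hx).dir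
      ((ratLevels v hQ hPQ hPd hQd x hxQ hx a r hL).vtx (L - 1) i) i) : GP v a r L (x i) (x j) := by
  have h1 : GP v a r ((L - 1 : ℕ) + 1) (x i) (x j) := GP.of_way h
  have h2 : (((L - 1 : ℕ) : ℤ) + 1) = L := by omega
  rwa [h2] at h1

end tree

end Pool.Agent.Helper51.RatTree

end

section

set_option autoImplicit false

open Polynomial Finset Pool.Agent.Helper33 Pool.Agent.Helper51.RatTree

namespace Pool.Agent.Helper55.RD

variable {K : Type*} [Field K] {v : DV K}

/-- The order of the scaling factor: first case. -/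
lemma nn_aux {p q s t : K} (hΔ : p * t - q * s ≠ 0) (ht : t ≠ 0) (hs : v.ge 0 (s / t)) {X : K × K}
    (hX : Prim v X) {l x : K} (hl : l ≠ 0) (h1 : p * X.1 + q * X.2 = l * x)
    (h2 : s * X.1 + t * X.2 = l) :
    v.o l = v.o (p * t - q * s) - v.o t - nn v (q / t) (v.o (p * t - q * s) - 2 * v.o t) x := by
  set Δ := p * t - q * s with hΔd
  set m : ℤ := v.o Δ - v.o l - v.o t with hm
  have e1 : Δ * X.1 = l * t * (x - q / t) := by
    have : l * t * (x - q / t) = t * (l * x) - q * l := by field_simp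
    rw [this, ← h1, ← h2, hΔd]; ring
  have e2 : X.2 + s / t * X.1 = l / t := by
    rw [← h2]; field_simp; ring
  have hlt : l / t ≠ 0 := div_ne_zero hl ht
  have hgelt : v.ge 0 (l / t) := by
    rw [← e2]
    have := DV.ge_mul hs hX.1
    rw [add_zero] at this
    exact DV.ge_add hX.2.1 this
  have holt : v.o t ≤ v.o l := by
    have := (ge_int_iff (v := v) hlt 0).1 (by exact_mod_cast hgelt)
    rw [v.o_div _ _ hl ht] at this
    omega
  have key : nn v (q / t) (v.o Δ - 2 * v.o t) x = m := by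
    apply le_antisymm
    · by_contra hcon
      push Not at hcon
      have k1 : m + 1 ≤ v.o Δ - 2 * v.o t := le_trans hcon (nn_le x)
      have g1 : v.ge 1 (l / t) := by
        have : (1 : ℤ) ≤ v.o (l / t) := by rw [v.o_div _ _ hl ht]; omega
        have := (ge_int_iff (v := v) hlt 1).2 this
        exact_mod_cast this
      have g2 : v.ge 1 X.1 := by
        by_cases hx : x = q / t
        · left
          have : Δ * X.1 = 0 := by rw [e1, hx, sub_self, mul_zero]
          exact (mul_eq_zero.1 this).resolve_left hΔ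
        · have k2 : nn v (q / t) (v.o Δ - 2 * v.o t) x ≤ v.o (x - q / t) := by
            unfold nn
            rw [if_neg hx]
            exact min_le_left _ _
          have hx' : x - q / t ≠ 0 := sub_ne_zero.2 hx
          have hX1 : X.1 ≠ 0 := by
            intro h
            rw [h, mul_zero] at e1
            exact mul_ne_zero (mul_ne_zero hl ht) hx' e1.symm
          have k3 := congrArg v.o e1
          rw [v.mul _ _ hΔ hX1, v.mul _ _ (mul_ne_zero hl ht) hx', v.mul _ _ hl ht] at k3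
          have k4 : (1 : ℤ) ≤ v.o X.1 := by omega
          have := (ge_int_iff (v := v) hX1 1).2 k4
          exact_mod_cast this
      have g3 : v.ge 1 X.2 := by
        have : X.2 = l / t - s / t * X.1 := by rw [← e2]; ring
        rw [this]
        have h5 := DV.ge_mul hs g2
        rw [zero_add] at h5
        exact DV.ge_sub g1 h5
      exact not_ge_one_of_prim hX g2 g3
    · unfold nn
      by_cases hx : x = q / t
      · rw [if_pos hx]; omega
      · rw [if_neg hx]
        refine le_min ?_ (by omega)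
        have hx' : x - q / t ≠ 0 := sub_ne_zero.2 hx
        have hX1 : X.1 ≠ 0 := by
          intro h
          rw [h, mul_zero] at e1
          exact mul_ne_zero (mul_ne_zero hl ht) hx' e1.symm
        have k3 := congrArg v.o e1
        rw [v.mul _ _ hΔ hX1, v.mul _ _ (mul_ne_zero hl ht) hx', v.mul _ _ hl ht] at k3
        have k4 := (ge_int_iff (v := v) hX1 0).1 (by exact_mod_cast hX.1)
        omega
  rw [key]
  omega

/-- base vertex of a change of coordinates -/
theorem exists_base (v : DV K) (N : M2 K) (hN : N.det ≠ 0) : ∃ (a : K) (r : ℤ),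
    (N = ⟨1, 0, 0, 1⟩ → a = 0 ∧ r = 0) ∧
    ∀ (x y : K), x ≠ y → ∀ (X Y : K × K), Prim v X → Prim v Y → ∀ l m : K, l ≠ 0 → m ≠ 0 →
      N.app X = (l * x, l) → N.app Y = (m * y, m) → W v X Y = gp v a r x y := by
  have hW : ∀ (x y : K), x ≠ y → ∀ (X Y : K × K) (l m : K), l ≠ 0 → m ≠ 0 →
      N.app X = (l * x, l) → N.app Y = (m * y, m) →
      W v X Y = v.o l + v.o m + v.o (x - y) - v.o N.det := by
    intro x y hxy X Y l m hl hm hX hY
    have h1 := N.wedge_app X Y
    rw [hX, hY] at h1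
    have h2 : wedge (l * x, l) (m * y, m) = l * m * (x - y) := by simp only [wedge]; ring
    rw [h2] at h1
    have hxy' : x - y ≠ 0 := sub_ne_zero.2 hxy
    have h3 : wedge X Y ≠ 0 := by
      intro h
      rw [h, mul_zero] at h1
      exact mul_ne_zero (mul_ne_zero hl hm) hxy' h1
    have h4 := congrArg v.o h1
    rw [v.mul _ _ (mul_ne_zero hl hm) hxy', v.mul _ _ hl hm, v.mul _ _ hN h3] at h4
    rw [W_of_ne h3]
    omega
  by_cases hcase : N.e ≠ 0 ∧ v.ge 0 (N.c / N.e)
  · obtain ⟨he, hc⟩ := hcase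
    refine ⟨N.b / N.e, v.o N.det - 2 * v.o N.e, ?_, ?_⟩
    · rintro rfl
      simp [M2.det, v.o_one]
    · intro x y hxy X Y hX hY l m hl hm hXN hYN
      rw [hW x y hxy X Y l m hl hm hXN hYN]
      have a1 := congrArg Prod.fst hXN
      have a2 := congrArg Prod.snd hXN
      have b1 := congrArg Prod.fst hYN
      have b2 := congrArg Prod.snd hYN
      simp only [M2.app] at a1 a2 b1 b2
      have k1 := nn_aux (p := N.a) (q := N.b) (s := N.c) (t := N.e) hN he hc hX hl a1 a2
      have k2 := nn_aux (p := N.a) (q := N.b) (s := N.c) (t := N.e) hN he hc hY hm b1 b2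
      rw [k1, k2, gp]
      unfold M2.det
      ring
  · have hc0 : N.c ≠ 0 := by
      intro h
      apply hcase
      refine ⟨?_, by rw [h, zero_div]; exact DV.ge_zero _⟩
      intro h2
      apply hN
      simp [M2.det, h, h2]
    have hec : v.ge 0 (N.e / N.c) := by
      by_cases he : N.e = 0
      · rw [he, zero_div]; exact DV.ge_zero _
      · have h1 : ¬ v.ge 0 (N.c / N.e) := fun h => hcase ⟨he, h⟩
        have h2 : ¬ (0 : ℤ) ≤ v.o (N.c / N.e) := fun h => h1 (by
          have := (ge_int_iff (v := v) (div_ne_zero hc0 he) 0).2 h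
          exact_mod_cast this)
        have h3 : (0 : ℤ) ≤ v.o (N.e / N.c) := by
          rw [v.o_div _ _ he hc0]
          rw [v.o_div _ _ hc0 he] at h2
          omega
        have := (ge_int_iff (v := v) (div_ne_zero he hc0) 0).2 h3
        exact_mod_cast this
    have hΔ : N.b * N.c - N.a * N.e ≠ 0 := by
      intro h
      apply hN
      unfold M2.det
      linear_combination -h
    have hΔo : v.o (N.b * N.c - N.a * N.e) = v.o N.det := by
      rw [← v.o_neg]
      congr 1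
      unfold M2.det
      ring
    refine ⟨N.a / N.c, v.o N.det - 2 * v.o N.c, ?_, ?_⟩
    · rintro rfl
      exact absurd rfl hc0
    · intro x y hxy X Y hX hY l m hl hm hXN hYN
      rw [hW x y hxy X Y l m hl hm hXN hYN]
      have a1 := congrArg Prod.fst hXN
      have a2 := congrArg Prod.snd hXN
      have b1 := congrArg Prod.fst hYN
      have b2 := congrArg Prod.snd hYN
      simp only [M2.app] at a1 a2 b1 b2
      have hX' : Prim v (X.2, X.1) := ⟨hX.2.1, hX.1, hX.2.2.symm⟩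
      have hY' : Prim v (Y.2, Y.1) := ⟨hY.2.1, hY.1, hY.2.2.symm⟩
      have k1 := nn_aux (p := N.b) (q := N.a) (s := N.e) (t := N.c) hΔ hc0 hec hX' hl
        (by rw [← a1]; ring) (by rw [← a2]; ring)
      have k2 := nn_aux (p := N.b) (q := N.a) (s := N.e) (t := N.c) hΔ hc0 hec hY' hm
        (by rw [← b1]; ring) (by rw [← b2]; ring)
      rw [hΔo] at k1 k2
      rw [k1, k2, gp]
      ring

end Pool.Agent.Helper55.RD

end

section

set_option autoImplicit false

open Polynomial Finset Pool.Agent.Helper33 Pool.Agent.Helper51.RatTree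

namespace Pool.Agent.Helper55.RD

variable {K : Type*} [Field K]

lemma sysOf_g (v : DV K) {d : ℕ} {P Q : K[X]} (hP : P.natDegree ≤ d) (hQ : Q.natDegree ≤ d)
    (hres : resultant P Q d d ≠ 0) (X : Finset K)
    (hX : ∀ x ∈ X, Q.eval x ≠ 0 ∧ P.eval x / Q.eval x ∈ X) (H : K → ℝ)
    (hH : ∀ x ∈ X, H (P.eval x / Q.eval x) + v.o (Q.eval x) = d * H x) {i j : X} (hij : i ≠ j) :
    (sysOf v hP hQ hres X hX H hH).g i j = gg v d P Q H i j := by
  unfold Sys.g gg Sys.r
  have h1 : (sysOf v hP hQ hres X hX H hH).x i = (i.1, 1) := rfl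
  have h2 : (sysOf v hP hQ hres X hX H hH).x j = (j.1, 1) := rfl
  have h3 : wedge ((i.1, 1) : K × K) (j.1, 1) = i.1 - j.1 := by simp [wedge]
  have h4 : i.1 - j.1 ≠ 0 := sub_ne_zero.2 fun h => hij (Subtype.ext h)
  rw [h1, h2, W_of_ne (by rw [h3]; exact h4), h3]
  rfl

lemma c₀_pos {d : ℕ} (hd : 2 ≤ d) : 0 < c₀ d := by
  have : (2 : ℝ) ≤ d := by exact_mod_cast hd
  exact div_pos (ep_pos hd) (mul_pos (by (clear * - this; linarith)) (by (clear * - this; linarith)))

/-- **Module RatLB.** -/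
theorem ratLB {d : ℕ} (hd : 2 ≤ d) (v : DV K) {P Q : K[X]} (hP : P.natDegree ≤ d)
    (hQ : Q.natDegree ≤ d) (hres : resultant P Q d d ≠ 0) (X : Finset K)
    (hX : ∀ x ∈ X, Q.eval x ≠ 0 ∧ P.eval x / Q.eval x ∈ X) (H : K → ℝ)
    (hH : ∀ x ∈ X, H (P.eval x / Q.eval x) + v.o (Q.eval x) = d * H x) :
    ∃ (ε : ℕ) (a : K) (r : ℤ),
      (∀ x ∈ X, ∀ y ∈ X, x ≠ y → |gg v d P Q H x y - gp v a r x y| ≤ 2 * ε) ∧
      (∀ s ⊆ X, N₀ d ≤ s.card → ∃ x ∈ s, ∃ y ∈ s, x ≠ y ∧ c₀ d * ε ≤ gg v d P Q H x y) ∧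
      (ε = 0 → ∀ x ∈ X, ∀ y ∈ X, P.eval x / Q.eval x ≠ P.eval y / Q.eval y →
        gp v a r x y ≤ gp v a r (P.eval x / Q.eval x) (P.eval y / Q.eval y)) ∧
      ((∀ k, v.ge 0 (P.coeff k)) → (∀ k, v.ge 0 (Q.coeff k)) → v.o (resultant P Q d d) = 0 →
        ε = 0 ∧ a = 0 ∧ r = 0) := by
  classical
  set S := sysOf v hP hQ hres X hX H hH with hS
  -- a good model with the lower bound
  have hmodel : ∃ (N : M2 K) (κ : K) (S₀ : Sys v d X), N.det ≠ 0 ∧ S₀.Good ∧ S₀.φ = S.φ ∧
      (∀ i j, i ≠ j → S₀.g i j = S.g i j) ∧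
      (∀ i, ∃ l : K, l ≠ 0 ∧ N.app (S₀.x i) = (l * (S.x i).1, l * (S.x i).2)) ∧
      (∀ T : Finset X, N₀ d ≤ T.card → ∃ i ∈ T, ∃ j ∈ T, i ≠ j ∧ ep d * S₀.r ≤ S₀.g i j) ∧
      ((∀ k, v.ge 0 (P.coeff k)) → (∀ k, v.ge 0 (Q.coeff k)) → v.o (resultant P Q d d) = 0 →
        S₀.r = 0 ∧ N = ⟨1, 0, 0, 1⟩) := by
    by_cases hint : (∀ k, v.ge 0 (P.coeff k)) ∧ (∀ k, v.ge 0 (Q.coeff k)) ∧
        v.o (resultant P Q d d) = 0
    · obtain ⟨i1, i2, i3⟩ := hint
      have hN : (⟨1, 0, 0, 1⟩ : M2 K).det ≠ 0 := by simp [M2.det]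
      obtain ⟨S₀, hF, hG, hφ, hprim, hg, happ⟩ := S.exists_tr hd ⟨1, 0, 0, 1⟩ hN 1 one_ne_zero
      have eF : S₀.F = P := by rw [hF]; exact trF_one d hP
      have eG : S₀.G = Q := by rw [hG]; exact trG_one d hQ
      have hr : S₀.r = 0 := by
        unfold Sys.r
        rw [eF, eG, i3]; simp
      have hgood : S₀.Good := ⟨by rw [eF]; exact i1, by rw [eG]; exact i2, hprim⟩
      refine ⟨⟨1, 0, 0, 1⟩, 1, S₀, hN, hgood, hφ, hg, happ, ?_, fun _ _ _ => ⟨hr, rfl⟩⟩
      intro T hT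
      refine Sys.lower_bound hd S₀ S₀ hgood (fun _ _ _ => rfl) ?_ T hT
      intro N' κ' hN' hκ' h1 h2
      rw [eF, eG, i3]
      rw [eF, eG] at h1 h2
      have hres0 : resultant (trF d N' κ' P Q) (trG d N' κ' P Q) d d ≠ 0 := by
        rw [resultant_tr N' κ' hP hQ]
        exact mul_ne_zero (pow_ne_zero _ (mul_ne_zero (pow_ne_zero _ hκ') hN'))
          (mul_ne_zero (pow_ne_zero _ hN') hres)
      have h3 := DV.ge_le (ge_resultant (m := d) (n := d) h1 h2) hres0
      have h4 : (0 : ℝ) ≤ v.o (resultant (trF d N' κ' P Q) (trG d N' κ' P Q) d d) := by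
        simpa using h3
      exact_mod_cast h4
    · obtain ⟨N, κ, S₀, hN, hκ, hF, hG, hgood, hg, happ, hlow⟩ := S.exists_min_model hd
      obtain ⟨S₁, hF1, hG1, hφ1, hprim1, hg1, happ1⟩ := S.exists_tr hd N hN κ hκ
      have hr : S₁.r = S₀.r := by
        unfold Sys.r
        rw [hF1, hG1, hF, hG]
      have hgood1 : S₁.Good :=
        ⟨by rw [hF1, ← hF]; exact hgood.intF, by rw [hG1, ← hG]; exact hgood.intG, hprim1⟩
      refine ⟨N, κ, S₁, hN, hgood1, hφ1, hg1, happ1, ?_, fun h1 h2 h3 =>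
        absurd ⟨h1, h2, h3⟩ hint⟩
      intro T hT
      obtain ⟨i, hi, j, hj, hij, hle⟩ := hlow T hT
      refine ⟨i, hi, j, hj, hij, ?_⟩
      rw [hr, hg1 i j hij, ← hg i j hij]
      exact hle
  obtain ⟨N, κ, S₀, hN, hgood, hφ, hg, happ, hlow, hid⟩ := hmodel
  obtain ⟨a, r, hid2, hbase⟩ := exists_base v N hN
  have hr0 := hgood.r_nonneg hd
  have hores := S₀.o_res hd
  have hd2 : (2 : ℝ) ≤ d := by exact_mod_cast hd
  have hdd : (0 : ℝ) < d * (d - 1) := mul_pos (by (clear * - hd2; linarith)) (by linarith)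
  set ε := (v.o (resultant S₀.F S₀.G d d)).toNat with hε
  have hεr : (ε : ℝ) = d * (d - 1) * S₀.r := by
    have h1 : (0 : ℝ) ≤ v.o (resultant S₀.F S₀.G d d) := by
      rw [hores]; exact mul_nonneg hdd.le hr0
    have h2 : (0 : ℤ) ≤ v.o (resultant S₀.F S₀.G d d) := by exact_mod_cast h1
    have h3 : ((ε : ℤ)) = v.o (resultant S₀.F S₀.G d d) := Int.toNat_of_nonneg h2
    rw [← hores, ← h3]
    simp
  have hgp : ∀ i j : X, i ≠ j → W v (S₀.x i) (S₀.x j) = gp v a r i j := by
    intro i j hij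
    obtain ⟨l, hl, h1⟩ := happ i
    obtain ⟨m, hm, h2⟩ := happ j
    refine hbase i j (fun h => hij (Subtype.ext h)) _ _ (hgood.prim i) (hgood.prim j) l m hl hm ?_ ?_
    · rw [h1]
      change (l * i.1, l * 1) = _
      rw [mul_one]
    · rw [h2]
      change (m * j.1, m * 1) = _
      rw [mul_one]
  refine ⟨ε, a, r, ?_, ?_, ?_, ?_⟩
  · intro x hx y hy hxy
    have hij : (⟨x, hx⟩ : X) ≠ ⟨y, hy⟩ := fun h => hxy (congrArg Subtype.val h)
    have h1 := hg _ _ hij
    rw [hS, sysOf_g v hP hQ hres X hX H hH hij] at h1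
    have h2 : ((gp v a r x y : ℤ) : ℝ) = W v (S₀.x ⟨x, hx⟩) (S₀.x ⟨y, hy⟩) := by
      rw [hgp _ _ hij]
    rw [← h1, h2, Sys.g, hεr]
    have k1 := hgood.H_nonneg hd ⟨x, hx⟩
    have k2 := hgood.H_nonneg hd ⟨y, hy⟩
    have k3 := hgood.H_le hd ⟨x, hx⟩
    have k4 := hgood.H_le hd ⟨y, hy⟩
    have k5 : d * S₀.r ≤ d * (d - 1) * S₀.r := by (clear * - hd2 k1 k3; nlinarith)
    have k6 : S₀.r ≤ d * S₀.r := by (clear * - k1 k3 hr0 hd2; nlinarith)
    rw [abs_le]
    constructor <;> (clear * - hr0 k3 k4 k5 hεr k1 k2 k6; linarith)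
  · intro s hs hcard
    have hcard' : N₀ d ≤ (s.subtype (fun x => x ∈ X)).card := by
      rw [card_subtype, filter_true_of_mem fun x hx => hs hx]
      exact hcard
    obtain ⟨i, hi, j, hj, hij, hle⟩ := hlow _ hcard'
    rw [mem_subtype] at hi hj
    refine ⟨i, hi, j, hj, fun h => hij (Subtype.ext h), ?_⟩
    have h1 := hg i j hij
    rw [hS, sysOf_g v hP hQ hres X hX H hH hij] at h1
    rw [← h1, hεr]
    have hd1 : (d : ℝ) - 1 ≠ 0 := by (clear * - hd2; linarith)
    have hd0 : (d : ℝ) ≠ 0 := by (clear * - hd2; linarith)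
    have : c₀ d * (d * (d - 1) * S₀.r) = ep d * S₀.r := by
      unfold c₀
      (clear * - hd0 hd1; field_simp)
    rw [this]
    exact hle
  · intro hε0 x hx y hy hfxy
    have hr : S₀.r = 0 := by
      rw [hε0] at hεr
      have : (d : ℝ) * (d - 1) * S₀.r = 0 := by rw [← hεr]; simp
      exact (mul_eq_zero.1 this).resolve_left hdd.ne'
    have hxy : x ≠ y := fun h => hfxy (by rw [h])
    have hij : (⟨x, hx⟩ : X) ≠ ⟨y, hy⟩ := fun h => hxy (congrArg Subtype.val h)
    have hφij : S₀.φ ⟨x, hx⟩ ≠ S₀.φ ⟨y, hy⟩ := by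
      rw [hφ]
      intro h
      exact hfxy (congrArg Subtype.val h)
    have h1 := hgood.W_le_of_good hd hr hij hφij
    rw [hgp _ _ hij, hgp _ _ hφij, hφ] at h1
    exact h1
  · intro h1 h2 h3
    obtain ⟨hr, hN1⟩ := hid h1 h2 h3
    refine ⟨?_, hid2 hN1⟩
    rw [hr, mul_zero] at hεr
    exact_mod_cast hεr

end Pool.Agent.Helper55.RD

end

section

set_option autoImplicit false

open Finset Polynomial

namespace Pool.Agent.Helper33.UB

open Pool.Agent.Helper51.RatTree Pool.Agent.Helper55.RD Pool.Agent.Helper93.RatODE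
  Pool.Agent.Helper45.FR

/-- constants for rational maps of degree `d` -/
noncomputable def ratConst (d : ℕ) (hd : 2 ≤ d) : GConst where
  d := d
  hd := by omega
  C1 := 2
  hC1 := by norm_num
  c0 := min (c₀ d) 1
  hc0 := lt_min (c₀_pos hd) one_pos
  hc01 := min_le_right _ _
  N0 := N₀ d
  δ0 := 1
  hδ0 := one_pos
  c1 := 1
  hc1 := one_pos
  mOf r := r + 1
  nYOf r := (r + 1) * d ^ (r + 1) + 2 * r + 3
  depth M := ⌈4 * M⌉₊ + 6
  hdepth M := by omega

section height

variable {K : Type*} [Field K] {d : ℕ} {F G : K[X]}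

lemma sum_ratH {k V : Type*} [Field k] [Algebra k K] (P : PSys k K V) (hd : 2 ≤ d) {X : Finset K}
    (hX : ∀ y ∈ X, rmap F G y ∈ X) (hG : ∀ y ∈ X, G.eval y ≠ 0) (T : Finset V)
    (hT : ∀ v, v ∉ T → ∀ y ∈ X, (P.pl v).o (G.eval y) = 0) {y : K}
    (hy : y ∈ X) : ∑ v ∈ T, ratH (P.pl v) d F G y = 0 := by
  unfold ratH
  rw [← Summable.tsum_finsetSum fun v _ => ratH_summable (P.pl v) hd hX hy]
  have : ∀ n : ℕ, ∑ v ∈ T, ((P.pl v).o (G.eval ((rmap F G)^[n] y)) : ℝ) / (d : ℝ) ^ (n + 1) = 0 := by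
    intro n
    rw [← sum_div]
    have h1 := P.sum_eq_zero T (G.eval ((rmap F G)^[n] y)) (hG _ (iterate_mem hX hy n))
      (fun v hv => hT v hv _ (iterate_mem hX hy n))
    have h2 : ∑ v ∈ T, ((P.pl v).o (G.eval ((rmap F G)^[n] y)) : ℝ) = 0 := by exact_mod_cast h1
    rw [h2, zero_div]
  rw [tsum_congr this, tsum_zero]

end height

section inst

variable {k K V : Type} [Field k] [Field K] [Algebra k K] {P : PSys k K V}
  {F G : K[X]} {x : ℕ → K} {N d : ℕ}

/-- admissible sets of places -/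
structure RAdm (P : PSys k K V) (F G : K[X]) (d : ℕ) (X : Finset K) (T : Finset V) : Prop where
  e : ∀ v, v ∉ T → P.e v = 0
  res : ∀ v, v ∉ T → (P.pl v).o (resultant F G d d) = 0
  G0 : ∀ v, v ∉ T → ∀ y ∈ X, (P.pl v).o (G.eval y) = 0
  diff : ∀ v, v ∉ T → ∀ y ∈ X, ∀ z ∈ X, y ≠ z → (P.pl v).o (y - z) = 0

lemma exists_radm (P : PSys k K V) {F G : K[X]} {d : ℕ} (hres : resultant F G d d ≠ 0) (X : Finset K)
    (hG : ∀ y ∈ X, G.eval y ≠ 0) : ∃ T : Finset V, RAdm P F G d X T := by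
  classical
  obtain ⟨T, hT1, hT2⟩ := P.exists_finset
    (insert (resultant F G d d) ((X.image fun y => G.eval y) ∪ X.offDiag.image fun q => q.1 - q.2)) (by
      intro x hx
      rcases mem_insert.mp hx with rfl | hx
      · exact hres
      rcases mem_union.mp hx with hx | hx
      · obtain ⟨y, hy, rfl⟩ := mem_image.mp hx
        exact hG y hy
      · obtain ⟨q, hq, rfl⟩ := mem_image.mp hx
        rw [mem_offDiag] at hq
        exact sub_ne_zero.mpr hq.2.2)
  refine ⟨T, hT1, fun v hv => hT2 _ (mem_insert_self _ _) v hv, fun v hv y hy => ?_, ?_⟩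
  · exact hT2 _ (mem_insert_of_mem (mem_union_left _ (mem_image_of_mem _ hy))) v hv
  · intro v hv y hy z hz hyz
    exact hT2 _ (mem_insert_of_mem (mem_union_right _ (mem_image.mpr
      ⟨(y, z), mem_offDiag.mpr ⟨hy, hz, hyz⟩, rfl⟩))) v hv

lemma exists_rloc (hd : 2 ≤ d) (v : DV K) (hF : F.natDegree ≤ d)
    (hG : G.natDegree ≤ d) (hres : resultant F G d d ≠ 0) (h : RatOrbit F G x N) :
    Nonempty (RLoc v F G d (rX h) (ratH v d F G)) := by
  obtain ⟨ε, a, r, h1, h2, h3, -⟩ := ratLB hd v hF hG hres (rX h) (rX_spec h) (ratH v d F G)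
    (fun y hy => ratH_rec v hd (fun z hz => (rX_spec h z hz).2) hy)
  exact ⟨⟨ε, a, r, h1, h2, h3⟩⟩

/-- chosen local data -/
noncomputable def rloc (hd : 2 ≤ d) (v : DV K) (hF : F.natDegree ≤ d)
    (hG : G.natDegree ≤ d) (hres : resultant F G d d ≠ 0) (h : RatOrbit F G x N) :
    RLoc v F G d (rX h) (ratH v d F G) := (exists_rloc hd v hF hG hres h).some

lemma gp_nonneg' {v : DV K} {a : K} {r : ℤ} {y z : K} (h : y ≠ z) : 0 ≤ gp v a r y z := by
  have := gp_nonneg (v := v) (a := a) (r := r) h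
  unfold gp
  omega

lemma gp_of_GP {v : DV K} {a : K} {r n : ℤ} {y z : K} (h : y ≠ z) (h1 : GP v a r n y z) :
    n ≤ gp v a r y z := by
  rcases h1 with h1 | h1
  · exact absurd h1 h
  · unfold gp
    omega

lemma gp_trans {v : DV K} {a : K} {r : ℤ} {y z w : K} (hyz : y ≠ z) (hzw : z ≠ w) (hyw : y ≠ w)
    (h1 : 1 ≤ gp v a r y z) (h2 : 1 ≤ gp v a r z w) : 1 ≤ gp v a r y w := by
  have e1 : (PV.mk v a r).dir y = (PV.mk v a r).dir z := by
    rw [dir_eq_iff_gp hyz]; unfold gp at h1; omega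
  have e2 : (PV.mk v a r).dir z = (PV.mk v a r).dir w := by
    rw [dir_eq_iff_gp hzw]; unfold gp at h2; omega
  have e3 := (dir_eq_iff_gp hyw).mp (e1.trans e2)
  unfold gp
  omega

variable [DecidableEq K]

/-- the instance -/
noncomputable def ratInst (h : RatOrbit F G x N) (hd : 2 ≤ d) (hcop : IsCoprime F G)
    (hF : F.natDegree ≤ d) (hG : G.natDegree ≤ d) (htop : F.coeff d ≠ 0 ∨ G.coeff d ≠ 0)
    (hres : resultant F G d d ≠ 0) (M : ℝ) (T : Finset V) (hT : RAdm P F G d (rX h) T)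
    (hker : ∀ y, P.D y = 0 → ∃ c : k, algebraMap k K c = y)
    (hconst : ∀ v, ∀ c : k, c ≠ 0 → (P.pl v).o (algebraMap k K c) = 0) :
    GInst P (ratConst d hd) N M where
  x := x
  T := T
  inj := h.inj
  Te := hT.e
  Tx v hv i j hi hj hij := hT.diff v hv _ (mem_rX h i) _ (mem_rX h j) (fun e => hij (h.inj i j hi hj e))
  ε v := ((rloc hd (P.pl v) hF hG hres h).ε : ℝ)
  ε_nonneg v _ := Nat.cast_nonneg _
  disc v _ hv := by
    have hv' : 0 < (rloc hd (P.pl v) hF hG hres h).ε := by exact_mod_cast hv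
    change (1 : ℝ) ≤ _
    exact_mod_cast hv'
  β v i := -ratH (P.pl v) d F G (x i) + (P.pl v).o (resultant F G d d) / (d * (d - 1)) / 2
  sumβ i _ := by
    rw [sum_add_distrib, ← sum_div, ← sum_div, sum_neg_distrib,
      sum_ratH P hd (fun z hz => (rX_spec h z hz).2) (fun z hz => (rX_spec h z hz).1) T
        (fun v hv y hy => hT.G0 v hv y hy) (mem_rX h i)]
    have h1 := P.sum_eq_zero T _ hres hT.res
    have h2 : ∑ v ∈ T, ((P.pl v).o (resultant F G d d) : ℝ) = 0 := by exact_mod_cast h1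
    rw [h2]
    simp
  lower v _ i j hi hj hij := by
    have hne : x i ≠ x j := fun e => hij (h.inj i j hi hj e)
    have h1 := (abs_le.mp ((rloc hd (P.pl v) hF hG hres h).close _ (mem_rX h i) _ (mem_rX h j) hne)).1
    have h2 : (0 : ℝ) ≤ gp (P.pl v) (rloc hd (P.pl v) hF hG hres h).a
      (rloc hd (P.pl v) hF hG hres h).r (x i) (x j) := by exact_mod_cast gp_nonneg' hne
    unfold gg at h1
    change -(2 * _) ≤ _
    linarith
  lb v _ s hs hcard := by
    change N₀ d < s.card at hcard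
    have hinj : Set.InjOn x (s : Set ℕ) := fun i hi j hj e => h.inj i j (hs i hi) (hs j hj) e
    have hsX : s.image x ⊆ rX h := by
      intro y hy
      obtain ⟨i, _, rfl⟩ := mem_image.mp hy
      exact mem_rX h i
    obtain ⟨y, hy, z, hz, hyz, hw⟩ := (rloc hd (P.pl v) hF hG hres h).lb (s.image x) hsX (by
      rw [card_image_of_injOn hinj]; exact hcard.le)
    obtain ⟨i, hi, rfl⟩ := mem_image.mp hy
    obtain ⟨j, hj, rfl⟩ := mem_image.mp hz
    refine ⟨i, hi, j, hj, fun e => hyz (by rw [e]), ?_⟩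
    unfold gg at hw
    have h1 : min (c₀ d) 1 * ((rloc hd (P.pl v) hF hG hres h).ε : ℝ) ≤
      c₀ d * (rloc hd (P.pl v) hF hG hres h).ε :=
      mul_le_mul_of_nonneg_right (min_le_left _ _) (Nat.cast_nonneg _)
    change min (c₀ d) 1 * _ ≤ _
    linarith
  Vx v := PV (P.pl v)
  Dr _ := Set K
  S v := ratTree (P.pl v) (fun e => h.ne 0 (by rw [e, eval_zero]))
    (sub_ne_zero_of_coprime hd hcop hF hG htop) hF hG x h.ne h.step
  Lv v := ratLevels (P.pl v) (fun e => h.ne 0 (by rw [e, eval_zero]))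
    (sub_ne_zero_of_coprime hd hcop hF hG htop) hF hG x h.ne h.step
    (rloc hd (P.pl v) hF hG hres h).a (rloc hd (P.pl v) hF hG hres h).r
    ((ratConst d hd).hdepth M)
  star v _ ζ s hs hdir := by
    apply star_of_dirs ζ
    intro y hy z hz hyz
    obtain ⟨i, hi, rfl⟩ := mem_image.mp hy
    obtain ⟨j, hj, rfl⟩ := mem_image.mp hz
    exact hdir i hi j hj fun e => hyz (by rw [e])
  deep v _ hεM i j hi hj hij hdir := by
    have hne : x i ≠ x j := fun e => hij (h.inj i j hi hj e)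
    have h1 := gp_of_GP hne (ratLevels_deep _ _ _ _ _ _ _ _ _ hdir)
    have h2 := (abs_le.mp ((rloc hd (P.pl v) hF hG hres h).close _ (mem_rX h i) _ (mem_rX h j) hne)).1
    have h3 : (((ratConst d hd).depth M : ℕ) : ℝ) ≤ gp (P.pl v) (rloc hd (P.pl v) hF hG hres h).a
      (rloc hd (P.pl v) hF hG hres h).r (x i) (x j) := by exact_mod_cast h1
    have h4 : ((ratConst d hd).depth M : ℕ) = ⌈4 * M⌉₊ + 6 := rfl
    rw [h4] at h3
    push_cast at h3
    have h5 : 4 * M ≤ ⌈4 * M⌉₊ := Nat.le_ceil _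
    unfold gg at h2
    change 2 * M + 5 ≤ _
    linarith
  good v _ hε s hs hst := by
    by_contra hcon
    push Not at hcon
    apply hst
    have hε0 : (rloc hd (P.pl v) hF hG hres h).ε = 0 := by exact_mod_cast hε
    apply star_of_dirs (PV.mk (P.pl v) (rloc hd (P.pl v) hF hG hres h).a
      (rloc hd (P.pl v) hF hG hres h).r)
    intro y hy z hz hyz hdir
    obtain ⟨i, hi, rfl⟩ := mem_image.mp hy
    obtain ⟨j, hj, rfl⟩ := mem_image.mp hz
    have key : ∀ i ∈ s, ∀ j ∈ s, i < j → x i ≠ x j →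
        ¬ 1 ≤ gp (P.pl v) (rloc hd (P.pl v) hF hG hres h).a
      (rloc hd (P.pl v) hF hG hres h).r (x i) (x j) := by
      intro i hi j hj hij hne h1
      have h2 := hcon i hi j hj hij
      have h3 := (abs_le.mp ((rloc hd (P.pl v) hF hG hres h).close _ (mem_rX h i) _ (mem_rX h j) hne)).1
      have h4 : (1 : ℝ) ≤ gp (P.pl v) (rloc hd (P.pl v) hF hG hres h).a
        (rloc hd (P.pl v) hF hG hres h).r (x i) (x j) := by exact_mod_cast h1
      rw [hε0] at h3
      unfold gg at h3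
      change _ < (1 : ℝ) at h2
      push_cast at h3
      (clear * - h4 h2 h3; linarith)
    have hgp := (dir_eq_iff_gp hyz).mp hdir
    have hij : i ≠ j := fun e => hyz (by rw [e])
    rcases lt_or_gt_of_ne hij with hlt | hlt
    · exact key i hi j hj hlt hyz (by unfold gp; omega)
    · refine key j hj i hi hlt hyz.symm ?_
      unfold gp
      rw [(P.pl v).o_sub_comm]
      omega
  persist v _ hε i j hij hj hc := by
    have hε0 : (rloc hd (P.pl v) hF hG hres h).ε = 0 := by exact_mod_cast hε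
    have hne : x i ≠ x j := fun e => by
      have := h.inj i j (by omega) (by omega) e; omega
    have hne' : x (i + 1) ≠ x (j + 1) := fun e => by
      have := h.inj (i + 1) (j + 1) (by omega) (by omega) e; omega
    have h1 := (abs_le.mp ((rloc hd (P.pl v) hF hG hres h).close _ (mem_rX h i) _ (mem_rX h j) hne)).2
    have h2 := (abs_le.mp ((rloc hd (P.pl v) hF hG hres h).close _ (mem_rX h (i + 1)) _
      (mem_rX h (j + 1)) hne')).1
    have h3 := (rloc hd (P.pl v) hF hG hres h).good hε0 _ (mem_rX h i) _ (mem_rX h j) (by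
      rw [← h.step, ← h.step]; exact hne')
    rw [← h.step, ← h.step] at h3
    have h4 : (gp (P.pl v) (rloc hd (P.pl v) hF hG hres h).a
      (rloc hd (P.pl v) hF hG hres h).r (x i) (x j) : ℝ) ≤ gp (P.pl v)
      (rloc hd (P.pl v) hF hG hres h).a
      (rloc hd (P.pl v) hF hG hres h).r (x (i + 1)) (x (j + 1)) := by exact_mod_cast h3
    rw [hε0] at h1 h2
    unfold gg at h1 h2
    push_cast at h1 h2
    change (1 : ℝ) ≤ _ at hc ⊢
    (clear * - h4 h1 h2 hc; linarith)
  trans v _ hε i j l hij hjl hl hc1 hc2 := by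
    have hε0 : (rloc hd (P.pl v) hF hG hres h).ε = 0 := by exact_mod_cast hε
    have hne1 : x i ≠ x j := fun e => by
      have := h.inj i j (by omega) (by omega) e; omega
    have hne2 : x j ≠ x l := fun e => by
      have := h.inj j l (by omega) (by omega) e; omega
    have hne3 : x i ≠ x l := fun e => by
      have := h.inj i l (by omega) (by omega) e; omega
    have h1 := (abs_le.mp ((rloc hd (P.pl v) hF hG hres h).close _ (mem_rX h i) _ (mem_rX h j) hne1)).2
    have h2 := (abs_le.mp ((rloc hd (P.pl v) hF hG hres h).close _ (mem_rX h j) _ (mem_rX h l) hne2)).2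
    have h3 := (abs_le.mp ((rloc hd (P.pl v) hF hG hres h).close _ (mem_rX h i) _ (mem_rX h l) hne3)).1
    rw [hε0] at h1 h2 h3
    unfold gg at h1 h2 h3
    push_cast at h1 h2 h3
    change (1 : ℝ) ≤ _ at hc1 hc2 ⊢
    have e1 : 1 ≤ gp (P.pl v) (rloc hd (P.pl v) hF hG hres h).a
      (rloc hd (P.pl v) hF hG hres h).r (x i) (x j) := by
      have : (1 : ℝ) ≤ gp (P.pl v) (rloc hd (P.pl v) hF hG hres h).a
        (rloc hd (P.pl v) hF hG hres h).r (x i) (x j) := by (clear * - h1 hc1; linarith)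
      exact_mod_cast this
    have e2 : 1 ≤ gp (P.pl v) (rloc hd (P.pl v) hF hG hres h).a
      (rloc hd (P.pl v) hF hG hres h).r (x j) (x l) := by
      have : (1 : ℝ) ≤ gp (P.pl v) (rloc hd (P.pl v) hF hG hres h).a
        (rloc hd (P.pl v) hF hG hres h).r (x j) (x l) := by (clear * - h2 hc2; linarith)
      exact_mod_cast this
    have e3 := gp_trans hne1 hne2 hne3 e1 e2
    have e4 : (1 : ℝ) ≤ gp (P.pl v) (rloc hd (P.pl v) hF hG hres h).a
        (rloc hd (P.pl v) hF hG hres h).r (x i) (x l) := by exact_mod_cast e3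
    (clear * - h3 e4; linarith)
  ode r Λ hΛ hΛN h1 h2 := by
    change (r + 1) * d ^ (r + 1) + 2 * r + 3 ≤ Λ.card at hΛ
    change ∀ j ∈ Λ, j + (r + 1) ≤ N at hΛN
    change Rel P.D r (Λ.image fun j => x (j + (r + 1))) at h2
    change ∃ Λ' ⊆ Λ, Λ.card ≤ Λ'.card + r ∧
      ∀ v ∈ T, Star (P.pl v) (Λ'.image fun j => x (j + (r + 1)))
    obtain ⟨U, W, hUW, hU, hW, hUWtop, hit, -⟩ := exists_iterate hcop hF hG (by
      rcases hmax_of_top hF hG htop with h3 | h3 <;> omega) (by omega : 1 ≤ d) (r + 1)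
    have hit' := hit x (fun i => ⟨h.ne i, h.step i⟩)
    obtain ⟨A', C', h0', hA', _, hC', hrel'⟩ := h1
    obtain ⟨A, Cp, h0, hA, hAr, hC, hrel⟩ := h2
    have hinj1 : Set.InjOn x (Λ : Set ℕ) := fun i hi j hj e =>
      h.inj i j (by have := hΛN i hi; omega) (by have := hΛN j hj; omega) e
    have hinj2 : Set.InjOn (fun j => x (j + (r + 1))) (Λ : Set ℕ) := fun i hi j hj e => by
      have := h.inj (i + (r + 1)) (j + (r + 1)) (hΛN i hi) (hΛN j hj) e
      omega
    have himg : (Λ.image x).image (fun y => U.eval y / W.eval y) = Λ.image fun j => x (j + (r + 1)) := by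
      rw [image_image]
      apply image_congr
      intro j _
      exact (hit' j).2
    have hc1 : (Λ.image x).card = Λ.card := card_image_of_injOn hinj1
    have hc2 : (Λ.image fun j => x (j + (r + 1))).card = Λ.card := card_image_of_injOn hinj2
    obtain ⟨α, β, γ, hαβ⟩ := riccati_of_ode P.D_add P.D_mul hUW hU hW hUWtop r (by
        calc r < 2 ^ r := Nat.lt_two_pow_self
          _ ≤ 2 ^ (r + 1) := Nat.pow_le_pow_right (by norm_num) (by omega)
          _ ≤ d ^ (r + 1) := Nat.pow_le_pow_left hd _) (Λ.image x) (by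
        intro y hy
        obtain ⟨j, hj, rfl⟩ := mem_image.mp hy
        exact (hit' j).1) (by
        rw [hc1]; omega) (by
        rw [himg, hc2]
        omega) h0 hA hAr hC (by
        intro y hy
        obtain ⟨j, hj, rfl⟩ := mem_image.mp hy
        rw [(hit' j).2]
        exact hrel _ (mem_image_of_mem _ hj)) h0' hA' hC' hrel'
    rw [himg] at hαβ
    refine ⟨Λ.filter fun j => P.D (x (j + (r + 1))) = α * x (j + (r + 1)) ^ 2 +
      β * x (j + (r + 1)) + γ, filter_subset _ _, ?_, ?_⟩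
    · have h3 := card_filter_add_card_filter_not (s := Λ)
        (fun j => P.D (x (j + (r + 1))) = α * x (j + (r + 1)) ^ 2 + β * x (j + (r + 1)) + γ)
      have h4 : (Λ.filter fun j => ¬ (P.D (x (j + (r + 1))) = α * x (j + (r + 1)) ^ 2 +
          β * x (j + (r + 1)) + γ)).card ≤ r := by
        refine le_trans ?_ hαβ
        apply card_le_card_of_injOn (fun j => x (j + (r + 1)))
        · intro j hj
          have hj' := mem_filter.mp hj
          exact mem_coe.mpr (mem_filter.mpr ⟨mem_image_of_mem _ hj'.1, hj'.2⟩)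
        · intro i hi j hj e
          exact hinj2 (mem_filter.mp hi).1 (mem_filter.mp hj).1 e
      omega
    · intro v _
      intro p hp q hq c hc c' hc' n1 n2 n3 n4 n5 n6
      have hD : ∀ y ∈ ((Λ.filter fun j => P.D (x (j + (r + 1))) = α * x (j + (r + 1)) ^ 2 +
          β * x (j + (r + 1)) + γ).image
          fun j => x (j + (r + 1))), P.D y = α * y ^ 2 + β * y + γ := by
        intro y hy
        obtain ⟨j, hj, rfl⟩ := mem_image.mp hy
        exact (mem_filter.mp hj).2
      have hz := D_cross_eq_zero P.D_add P.D_mul (hD p hp) (hD c' hc') (hD q hq) (hD c hc)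
      obtain ⟨t, ht⟩ := hker _ hz
      have m1 : p - q ≠ 0 := sub_ne_zero.mpr n1
      have m2 : c' - c ≠ 0 := sub_ne_zero.mpr n6.symm
      have m3 : p - c ≠ 0 := sub_ne_zero.mpr n2
      have m4 : c' - q ≠ 0 := sub_ne_zero.mpr n5.symm
      have ht0 : t ≠ 0 := by
        rintro rfl
        rw [map_zero] at ht
        exact div_ne_zero (mul_ne_zero m1 m2) (mul_ne_zero m3 m4) ht.symm
      have h5 := hconst v t ht0
      rw [ht, DV.o_div _ _ _ (mul_ne_zero m1 m2) (mul_ne_zero m3 m4), (P.pl v).mul _ _ m1 m2,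
        (P.pl v).mul _ _ m3 m4] at h5
      rw [(P.pl v).o_sub_comm c c', (P.pl v).o_sub_comm q c']
      omega

end inst

end Pool.Agent.Helper33.UB

end

section

set_option autoImplicit false

open Finset Polynomial

namespace Pool.Agent.Helper33.PS

open Pool.Agent.Helper33.UB

section gal

variable {k K E V W : Type*} [Field k] [Field K] [Field E] [Algebra k K] [Algebra k E] [Algebra K E]
  [IsScalarTower k K E] {P : PSys k K V} {Q : PSys k E W} {n : ℕ} (gs : GalSys P Q n)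

/-- base change -/
def vhomMap (w : W) : VHom (algebraMap K E) (P.pl (gs.res w)) (Q.pl w) where
  r := gs.ram w
  r_pos := gs.ram_pos w
  spec y hy := gs.ram_spec w y hy

/-- conjugation at a fixed place -/
def vhomConj {σ : E ≃ₐ[k] E} (hσ : σ ∈ gs.G) {w : W} (hw : gs.act σ w = w) :
    VHom ((σ : E →+* E).comp (algebraMap K E)) (P.pl (gs.res w)) (Q.pl w) where
  r := gs.ram w
  r_pos := gs.ram_pos w
  spec y hy := by
    have h1 := gs.act_spec σ hσ w (algebraMap K E y)
    rw [hw] at h1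
    change (Q.pl w).o (σ (algebraMap K E y)) = _
    rw [h1, gs.ram_spec w y hy]

end gal

end Pool.Agent.Helper33.PS

end

section

set_option autoImplicit false

open Finset Polynomial

namespace Pool.Agent.Helper33.PT

/-- a Galois extension of place systems, with the wild ramification numbers -/
structure GalW {k K E V W : Type*} [Field k] [Field K] [Field E] [Algebra k K] [Algebra k E]
    [Algebra K E] [IsScalarTower k K E] (P : PSys k K V) (Q : PSys k E W) (n : ℕ) where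
  /-- the group (or a subset of it) -/
  G : Finset (E ≃ₐ[k] E)
  card_G : G.card ≤ n
  /-- action on places -/
  act : (E ≃ₐ[k] E) → W ≃ W
  act_spec : ∀ σ ∈ G, ∀ w, ∀ y : E, (Q.pl (act σ w)).o (σ y) = (Q.pl w).o y
  /-- restriction -/
  res : W → V
  /-- ramification index -/
  ram : W → ℕ
  ram_pos : ∀ w, 1 ≤ ram w
  ram_spec : ∀ w, ∀ y : K, y ≠ 0 → (Q.pl w).o (algebraMap K E y) = ram w * (P.pl (res w)).o y
  fib : ∀ v, ∀ s : Finset W, (∀ w ∈ s, res w = v) → ∑ w ∈ s, ram w ≤ n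
  /-- wild ramification number: `σ y / y = 1 + O(wild)` for `y` in `K`, when `σ` fixes `w` -/
  wild : (E ≃ₐ[k] E) → W → ℕ
  wild_spec : ∀ σ ∈ G, ∀ w, act σ w = w → 1 ≤ wild σ w → ∀ y : K, y ≠ 0 →
    (Q.pl w).ge (wild σ w) (σ (algebraMap K E y) / algebraMap K E y - 1)
  /-- bound for the error of the derivation -/
  e_le : ∀ v, 1 ≤ P.e v → ∃ w, res w = v ∧ ∃ s ⊆ G, s.Nonempty ∧ (∀ σ ∈ s, act σ w = w ∧
    ∃ y : K, σ (algebraMap K E y) ≠ algebraMap K E y) ∧ P.e v ≤ ∑ σ ∈ s, (wild σ w + ram w)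

end Pool.Agent.Helper33.PT

end

section

set_option autoImplicit false

open Finset Polynomial

namespace Pool.Agent.Helper35.PS

open Pool.Agent.Helper33 Pool.Agent.Helper33.PS Pool.Agent.Helper33.UB Pool.Agent.Helper45.FR
  Pool.Agent.Helper51.RatTree Pool.Agent.Helper93.RatODE

section m0

variable {k K V : Type*} [Field k] [Field K] [Algebra k K]

lemma neg_sub_const (v : DV K) (hconst : ∀ c : k, c ≠ 0 → v.o (algebraMap k K c) = 0) (x : K) (c : k) :
    neg v (x - algebraMap k K c) = neg v x := by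
  by_cases hc : c = 0
  · rw [hc, map_zero, sub_zero]
  have hc1 := hconst c hc
  have hc2 : algebraMap k K c ≠ 0 := by rw [Ne, map_eq_zero]; exact hc
  have hg : v.ge 0 (algebraMap k K c) := by
    right
    rw [hc1]
    norm_num
  by_cases hx : v.ge 0 x
  · rw [neg_eq_zero_of_ge hx, neg_eq_zero_of_ge (DV.ge_sub hx hg)]
  · have hx0 : x ≠ 0 := fun e => hx (Or.inl e)
    have hxo : v.o x < 0 := by
      by_contra h
      push Not at h
      exact hx (Or.inr (by exact_mod_cast h))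
    have h1 := DV.ord_add_of_ge hx0 (DV.ge_neg hg) (by exact_mod_cast hxo)
    rw [← sub_eq_add_neg] at h1
    rw [neg_of_ne _ h1.1, neg_of_ne _ hx0, h1.2]

lemma ht_sub_const (P : PSys k K V)
    (hconst : ∀ v, ∀ c : k, c ≠ 0 → (P.pl v).o (algebraMap k K c) = 0) (x : K) (c : k) :
    ht P (x - algebraMap k K c) = ht P x := by
  unfold ht
  exact finsum_congr fun v => neg_sub_const _ (hconst v) x c

lemma ht_inv (P : PSys k K V) {y : K} (hy : y ≠ 0) : ht P y⁻¹ = ht P y := by
  classical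
  set T := (P.ord_finite y hy).toFinset with hT
  have hT0 : ∀ v, v ∉ T → (P.pl v).o y = 0 := by
    intro v hv
    by_contra h
    exact hv (by rw [hT, Set.Finite.mem_toFinset]; exact h)
  rw [ht_eq_sum P y T (by
    intro v hv
    rw [neg_of_ne _ hy, hT0 v hv]; simp), ht_eq_sum P y⁻¹ T (by
    intro v hv
    rw [neg_of_ne _ (inv_ne_zero hy), DV.o_inv _ _ hy, hT0 v hv]; simp)]
  have h1 := P.sum_eq_zero T y hy hT0
  rw [← sub_eq_zero, ← sum_sub_distrib, ← h1]
  apply sum_congr rfl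
  intro v _
  rw [neg_of_ne _ hy, neg_of_ne _ (inv_ne_zero hy), DV.o_inv _ _ hy, neg_neg]
  rcases le_total 0 ((P.pl v).o y) with h | h
  · rw [max_eq_right h, max_eq_left (by omega)]; omega
  · rw [max_eq_left h, max_eq_right (by omega)]; omega

/-- M0 heights -/
theorem ht_mobius_const (P : PSys k K V)
    (hconst : ∀ v, ∀ c : k, c ≠ 0 → (P.pl v).o (algebraMap k K c) = 0) (x : K) (c : k)
    (hx : x ≠ algebraMap k K c) : ht P (1 / (x - algebraMap k K c)) = ht P x := by
  rw [one_div, ht_inv P (sub_ne_zero.mpr hx), ht_sub_const P hconst]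

end m0

/-- a constant which differs from a residue -/
lemma exists_generic {k K V : Type*} [Field k] [Infinite k] [Field K] [Algebra k K] (P : PSys k K V)
    (hres : ∀ v, ResK k (P.pl v)) (S : Finset V) (Y : Finset K) :
    ∃ c₀ : k, c₀ ≠ 0 ∧ c₀ ≠ 1 ∧ (∀ y ∈ Y, y ≠ algebraMap k K c₀) ∧
      ∀ v ∈ S, ∀ y ∈ Y, (P.pl v).o (y - algebraMap k K c₀) ≤ 0 ∧
        ((P.pl v).ge 0 y → (P.pl v).o (y - algebraMap k K c₀) = 0) := by
  classical
  have hex : ∀ v : V, ∀ y : K, ∃ c : k, (P.pl v).ge 0 y → (P.pl v).ge 1 (y - algebraMap k K c) := by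
    intro v y
    by_cases h : (P.pl v).ge 0 y
    · obtain ⟨c, hc⟩ := (hres v).res y h
      exact ⟨c, fun _ => hc⟩
    · exact ⟨0, fun h' => absurd h' h⟩
  choose r hr using hex
  have hex2 : ∀ y : K, ∃ c : k, (∃ c' : k, y = algebraMap k K c') → y = algebraMap k K c := by
    intro y
    by_cases h : ∃ c' : k, y = algebraMap k K c'
    · exact ⟨h.choose, fun _ => h.choose_spec⟩
    · exact ⟨0, fun h' => absurd h' h⟩
  choose r' hr' using hex2
  set B : Finset k := {0, 1} ∪ (Y.image r') ∪ ((S ×ˢ Y).image fun p => r p.1 p.2) with hB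
  obtain ⟨c₀, hc₀⟩ := Infinite.exists_notMem_finset B
  rw [hB, mem_union, mem_union, not_or, not_or] at hc₀
  obtain ⟨⟨h1, h2⟩, h3⟩ := hc₀
  refine ⟨c₀, ?_, ?_, ?_, ?_⟩
  · rintro rfl; exact h1 (by simp)
  · rintro rfl; exact h1 (by simp)
  · intro y hy he
    apply h2
    rw [mem_image]
    refine ⟨y, hy, ?_⟩
    have h4 := hr' y ⟨c₀, he⟩
    exact (algebraMap k K).injective (h4.symm.trans he)
  · intro v hv y hy
    have key : (P.pl v).ge 0 y → (P.pl v).o (y - algebraMap k K c₀) = 0 := by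
      intro hge
      have hrv := hr v y hge
      have hne : r v y - c₀ ≠ 0 := by
        intro h
        apply h3
        rw [mem_image]
        exact ⟨(v, y), mem_product.mpr ⟨hv, hy⟩, sub_eq_zero.mp h⟩
      have h5 := (hres v).const _ hne
      have h6 : algebraMap k K (r v y - c₀) ≠ 0 := by rw [Ne, map_eq_zero]; exact hne
      have h7 := DV.ord_add_of_ge h6 hrv (by rw [h5]; norm_num)
      have h8 : algebraMap k K (r v y - c₀) + (y - algebraMap k K (r v y)) = y - algebraMap k K c₀ := by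
        rw [map_sub]; ring
      rw [h8] at h7
      rw [h7.2, h5]
    refine ⟨?_, key⟩
    by_cases hge : (P.pl v).ge 0 y
    · exact (key hge).le
    · have hy0 : y ≠ 0 := fun e => hge (Or.inl e)
      have hyo : (P.pl v).o y < 0 := by
        by_contra h
        push Not at h
        exact hge (Or.inr (by exact_mod_cast h))
      have hg : (P.pl v).ge 0 (-algebraMap k K c₀) := by
        by_cases h0 : c₀ = 0
        · left; rw [h0, map_zero, _root_.neg_zero]
        · right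
          rw [DV.o_neg, (hres v).const _ h0]
          norm_num
      have h7 := DV.ord_add_of_ge hy0 hg (by exact_mod_cast hyo)
      rw [sub_eq_add_neg, h7.2]
      exact hyo.le

/-- M1 COORDINATES -/
theorem exists_coord {k K V : Type*} [Field k] [Infinite k] [Field K] [Algebra k K] (P : PSys k K V)
    (hres : ∀ v, ResK k (P.pl v)) {d : ℕ} {F G : K[X]} (hFG : IsRat F G d) {x : ℕ → K} {N : ℕ}
    (hx : RatOrbit F G x N) (𝒥 : Finset ℕ) {α β γ : ℕ} (hα : α ∈ 𝒥) (hβ : β ∈ 𝒥) (hγ : γ ∈ 𝒥)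
    (hαβ : α ≠ β) (hαγ : α ≠ γ) (hβγ : β ≠ γ) (h𝒥 : ∀ j ∈ 𝒥, j ≤ N) (S : Finset V)
    (hS : ∀ v ∈ S, ∃ ζ : PV (P.pl v), ∀ i ∈ 𝒥, ∀ j ∈ 𝒥, i ≠ j → ζ.dir (x i) ≠ ζ.dir (x j)) :
    ∃ (F' G' : K[X]) (z : ℕ → K) (a b c e : K), a * e - b * c ≠ 0 ∧ (∀ j, c * x j + e ≠ 0) ∧
      (∀ j, z j = (a * x j + b) / (c * x j + e)) ∧
      IsRat F' G' d ∧ RatOrbit F' G' z N ∧
      (∃ c₁ : k, algebraMap k K c₁ = z α) ∧ (∃ c₂ : k, algebraMap k K c₂ = z β) ∧
      (∃ c₃ : k, algebraMap k K c₃ = z γ) ∧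
      (∀ v ∈ S, ∀ j, (P.pl v).ge 0 (z j)) ∧
      (∀ v ∈ S, ∀ i ∈ 𝒥, ∀ j ∈ 𝒥, i ≠ j → (P.pl v).o (z i - z j) = 0) ∧
      ∀ j, x j ≠ x β → ht P (z j) ≤ ht P (Helper33.PS.cr (x α) (x β) (x γ) (x j)) := by
  classical
  have hxx : ∀ i ∈ 𝒥, ∀ j ∈ 𝒥, i ≠ j → x i - x j ≠ 0 := fun i hi j hj hij =>
    sub_ne_zero.mpr fun e => hij (hx.inj i j (h𝒥 i hi) (h𝒥 j hj) e)
  set p := x γ - x α with hp
  set q := x γ - x β with hq
  have hp0 : p ≠ 0 := hxx γ hγ α hα hαγ.symm
  have hq0 : q ≠ 0 := hxx γ hγ β hβ hβγ.symm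
  have hba : x β - x α ≠ 0 := hxx β hβ α hα hαβ.symm
  set lam : K → K := fun y => Helper33.PS.cr (x α) (x β) (x γ) y with hlam
  obtain ⟨c₀, hc0, hc1, hcY, hcS⟩ := exists_generic P hres S
    ((hx.fin.toFinset).image lam)
  set κ := algebraMap k K c₀ with hκ
  have hκ0 : κ ≠ 0 := by rw [hκ, Ne, map_eq_zero]; exact hc0
  have hmem : ∀ j, lam (x j) ∈ (hx.fin.toFinset).image lam := by
    intro j
    apply mem_image_of_mem
    rw [Set.Finite.mem_toFinset]
    exact ⟨j, rfl⟩
  -- the coordinate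
  have hden : ∀ y : K, y - x β ≠ 0 → (q - κ * p) * y + (κ * p * x β - q * x α) =
      (y - x β) * p * (lam y - κ) := by
    intro y hy
    simp only [hlam]
    unfold Helper33.PS.cr
    rw [← hp, ← hq]
    field_simp
    ring
  have hdenβ : (q - κ * p) * x β + (κ * p * x β - q * x α) = q * (x β - x α) := by ring
  have hne : ∀ j, (q - κ * p) * x j + (κ * p * x β - q * x α) ≠ 0 := by
    intro j
    by_cases hj : x j - x β = 0
    · rw [sub_eq_zero.mp hj, hdenβ]
      exact mul_ne_zero hq0 hba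
    · rw [hden _ hj]
      exact mul_ne_zero (mul_ne_zero hj hp0) (sub_ne_zero.mpr (hcY _ (hmem j)))
  have hdet : p * (κ * p * x β - q * x α) - (-(p * x β)) * (q - κ * p) = p * q * (x β - x α) := by ring
  have hdet0 : p * (κ * p * x β - q * x α) - (-(p * x β)) * (q - κ * p) ≠ 0 := by
    rw [hdet]
    exact mul_ne_zero (mul_ne_zero hp0 hq0) hba
  have hz : ∀ j, x j - x β ≠ 0 → (p * x j + -(p * x β)) / ((q - κ * p) * x j + (κ * p * x β - q * x α)) =
      1 / (lam (x j) - κ) := by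
    intro j hj
    rw [hden _ hj]
    have h1 : p * x j + -(p * x β) = (x j - x β) * p * 1 := by ring
    rw [h1, mul_div_mul_left _ _ (mul_ne_zero hj hp0)]
  have hzβ : (p * x β + -(p * x β)) / ((q - κ * p) * x β + (κ * p * x β - q * x α)) = 0 := by
    rw [add_neg_cancel, zero_div]
  refine ⟨cjP F G d p (-(p * x β)) (q - κ * p) (κ * p * x β - q * x α),
    cjQ F G d p (-(p * x β)) (q - κ * p) (κ * p * x β - q * x α),
    fun j => (p * x j + -(p * x β)) / ((q - κ * p) * x j + (κ * p * x β - q * x α)),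
    p, -(p * x β), q - κ * p, κ * p * x β - q * x α, hdet0, hne, fun j => rfl, IsRat.conj hdet0 hFG,
    RatOrbit.conj hdet0 hFG.dA hFG.dB hx hne, ?_, ?_, ?_, ?_, ?_, ?_⟩
  · refine ⟨-c₀⁻¹, ?_⟩
    simp only
    rw [hz α (hxx α hα β hβ hαβ), map_neg, map_inv₀, ← hκ]
    have : lam (x α) = 0 := by
      simp only [hlam]
      unfold Helper33.PS.cr
      rw [sub_self, zero_mul, zero_div]
    rw [this, zero_sub, one_div, inv_neg]
  · exact ⟨0, by simp only; rw [map_zero, hzβ]⟩
  · refine ⟨(1 - c₀)⁻¹, ?_⟩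
    simp only
    rw [hz γ (hxx γ hγ β hβ hβγ.symm), map_inv₀, map_sub, map_one, ← hκ]
    have : lam (x γ) = 1 := by
      simp only [hlam]
      unfold Helper33.PS.cr
      rw [← hp, ← hq, mul_comm]
      exact div_self (mul_ne_zero hq0 hp0)
    rw [this, one_div]
  · intro v hv j
    simp only
    by_cases hj : x j - x β = 0
    · rw [sub_eq_zero.mp hj, hzβ]
      exact Or.inl rfl
    · rw [hz j hj]
      right
      have h1 := hcS v hv _ (hmem j)
      rw [one_div, DV.o_inv _ _ (sub_ne_zero.mpr (hcY _ (hmem j)))]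
      have h2 := h1.1
      have : 0 ≤ -(P.pl v).o (lam (x j) - κ) := by omega
      exact_mod_cast this
  · intro v hv
    obtain ⟨ζ, hζ⟩ := hS v hv
    obtain ⟨a₀, r, rfl⟩ := ζ.exists_rep
    have ho : ∀ i ∈ 𝒥, ∀ j ∈ 𝒥, i ≠ j → (P.pl v).o (x i - x j) =
        nn (P.pl v) a₀ r (x i) + nn (P.pl v) a₀ r (x j) - r := by
      intro i hi j hj hij
      have := o_of_dir_ne' (hζ i hi j hj hij)
      omega
    have hm : ∀ i ∈ 𝒥, (P.pl v).o ((q - κ * p) * x i + (κ * p * x β - q * x α)) =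
        nn (P.pl v) a₀ r (x i) + nn (P.pl v) a₀ r (x α) + nn (P.pl v) a₀ r (x β) +
          nn (P.pl v) a₀ r (x γ) - 2 * r := by
      intro i hi
      have hpo := ho γ hγ α hα hαγ.symm
      have hqo := ho γ hγ β hβ hβγ.symm
      have hbo := ho β hβ α hα hαβ.symm
      by_cases hiβ : i = β
      · rw [hiβ, hdenβ, (P.pl v).mul _ _ hq0 hba, hbo]
        rw [hq, hqo]
        ring
      · have h1 := hxx i hi β hβ hiβ
        have h2 := ho i hi β hβ hiβ
        have h3 : (P.pl v).o (lam (x i) - κ) = 0 := by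
          apply (hcS v hv _ (hmem i)).2
          by_cases hiα : i = α
          · left
            simp only [hlam]
            unfold Helper33.PS.cr
            rw [hiα, sub_self, zero_mul, zero_div]
          · right
            have h4 := hxx i hi α hα hiα
            have h5 := ho i hi α hα hiα
            simp only [hlam]
            unfold Helper33.PS.cr
            rw [DV.o_div _ _ _ (mul_ne_zero h4 hq0) (mul_ne_zero h1 hp0), (P.pl v).mul _ _ h4 hq0,
              (P.pl v).mul _ _ h1 hp0, h5, h2, hpo, hqo]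
            have : nn (P.pl v) a₀ r (x i) + nn (P.pl v) a₀ r (x α) - r +
                (nn (P.pl v) a₀ r (x γ) + nn (P.pl v) a₀ r (x β) - r) -
                (nn (P.pl v) a₀ r (x i) + nn (P.pl v) a₀ r (x β) - r +
                (nn (P.pl v) a₀ r (x γ) + nn (P.pl v) a₀ r (x α) - r)) = 0 := by ring
            rw [this]
            norm_num
        rw [hden _ h1, (P.pl v).mul _ _ (mul_ne_zero h1 hp0) (sub_ne_zero.mpr (hcY _ (hmem i))),
          (P.pl v).mul _ _ h1 hp0, h3, h2, hp, hpo]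
        ring
    intro i hi j hj hij
    simp only
    have h1 := hxx i hi j hj hij
    have h2 := ho i hi j hj hij
    rw [mobius_sub (hne i) (hne j), DV.o_div _ _ _ (mul_ne_zero hdet0 h1)
      (mul_ne_zero (hne i) (hne j)), (P.pl v).mul _ _ hdet0 h1, (P.pl v).mul _ _ (hne i) (hne j),
      hm i hi, hm j hj, h2, hdet, (P.pl v).mul _ _ (mul_ne_zero hp0 hq0) hba,
      (P.pl v).mul _ _ hp0 hq0, hp, hq, ho γ hγ α hα hαγ.symm, ho γ hγ β hβ hβγ.symm,
      ho β hβ α hα hαβ.symm]
    ring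
  · intro j hj
    simp only
    rw [hz j (sub_ne_zero.mpr hj), ht_mobius_const P (fun v => (hres v).const) _ _ (hcY _ (hmem j))]

end Pool.Agent.Helper35.PS

end

section

set_option autoImplicit false

open Finset Polynomial

namespace Pool.Agent.Helper33.PT

open Pool.Agent.Helper45.FR Pool.Agent.Helper33.UB Pool.Agent.Helper51.RatTree
  Pool.Agent.Helper93.RatODE Pool.Agent.Helper33.PS Pool.Agent.Helper55.RD

section maps

variable {K E : Type} [Field K] [Field E] (θ : K →+* E) {F G : K[X]} {d : ℕ} {x : ℕ → K} {N : ℕ}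

variable {v : DV K} {w : DV E} {r : ℕ}

theorem gg_map (hr : ∀ y, y ≠ 0 → w.o (θ y) = r * v.o y) (hres : resultant F G d d ≠ 0)
    (h : RatOrbit F G x N) {y z : K} (hy : y ∈ rX h) (hz : z ∈ rX h) (hyz : y ≠ z) :
    gg w d (F.map θ) (G.map θ) (ratH w d (F.map θ) (G.map θ)) (θ y) (θ z) =
      r * gg v d F G (ratH v d F G) y z := by
  unfold gg
  rw [← map_sub, hr _ (sub_ne_zero.2 hyz), ratH_map θ hr h hy, ratH_map θ hr h hz,
    resultant_map_map, hr _ hres]
  push_cast
  ring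

end maps

section heights

variable {k K V : Type} [Field k] [Field K] [Algebra k K] {P : PSys k K V} {F G : K[X]} {d : ℕ}
  {x : ℕ → K} {N : ℕ}

theorem gg_zero_of_notMem (h : RatOrbit F G x N) {T : Finset V} (hT : RAdm P F G d (rX h) T)
    {v : V} (hv : v ∉ T) {y z : K} (hy : y ∈ rX h) (hz : z ∈ rX h) (hyz : y ≠ z) :
    gg (P.pl v) d F G (ratH (P.pl v) d F G) y z = 0 := by
  have hH : ∀ y ∈ rX h, ratH (P.pl v) d F G y = 0 := by
    intro y hy
    unfold ratH
    rw [← tsum_zero (α := ℝ) (β := ℕ)]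
    apply tsum_congr
    intro n
    rw [hT.G0 v hv _ (iterate_mem (fun z hz => (rX_spec h z hz).2) hy n)]
    simp
  unfold gg
  rw [hT.diff v hv y hy z hz hyz, hH y hy, hH z hz, hT.res v hv]
  simp

theorem sum_gg (hd : 2 ≤ d) (hres : resultant F G d d ≠ 0) (h : RatOrbit F G x N) {T : Finset V}
    (hT : RAdm P F G d (rX h) T) {y z : K} (hy : y ∈ rX h) (hz : z ∈ rX h) (hyz : y ≠ z) :
    ∑ v ∈ T, gg (P.pl v) d F G (ratH (P.pl v) d F G) y z = 0 := by
  unfold gg
  have hX := fun z hz => (rX_spec h z hz).2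
  have hG := fun z hz => (rX_spec h z hz).1
  have h1 := P.sum_eq_zero T _ hres hT.res
  have h2 : ∑ v ∈ T, ((P.pl v).o (resultant F G d d) : ℝ) = 0 := by exact_mod_cast h1
  have h3 := P.sum_eq_zero T _ (sub_ne_zero.2 hyz) (fun v hv => hT.diff v hv y hy z hz hyz)
  have h4 : ∑ v ∈ T, ((P.pl v).o (y - z) : ℝ) = 0 := by exact_mod_cast h3
  rw [sum_add_distrib, sum_sub_distrib, sum_sub_distrib,
    sum_ratH P hd hX hG T (fun v hv y hy => hT.G0 v hv y hy) hy,
    sum_ratH P hd hX hG T (fun v hv y hy => hT.G0 v hv y hy) hz, ← sum_div, h2, h4]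
  simp

theorem gg_ge {v : DV K} {X : Finset K} {H : K → ℝ} (R : RLoc v F G d X H) {y z : K}
    (hy : y ∈ X) (hz : z ∈ X) (hyz : y ≠ z) : -(2 * (R.ε : ℝ)) ≤ gg v d F G H y z := by
  have h1 := (abs_le.mp (R.close y hy z hz hyz)).1
  have h2 : (0 : ℝ) ≤ gp v R.a R.r y z := by exact_mod_cast gp_nonneg' hyz
  (clear * - h1 h2; linarith)

theorem sum_gg_pos (hd : 2 ≤ d) (hres : resultant F G d d ≠ 0) (h : RatOrbit F G x N)
    {T : Finset V} (hT : RAdm P F G d (rX h) T)
    (rl : ∀ v, RLoc (P.pl v) F G d (rX h) (ratH (P.pl v) d F G)) {y z : K} (hy : y ∈ rX h)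
    (hz : z ∈ rX h) (hyz : y ≠ z) :
    ∑ v ∈ T, max 0 (gg (P.pl v) d F G (ratH (P.pl v) d F G) y z) ≤
      2 * ∑ v ∈ T, ((rl v).ε : ℝ) := by
  have h1 : ∀ v ∈ T, max 0 (gg (P.pl v) d F G (ratH (P.pl v) d F G) y z) ≤
      gg (P.pl v) d F G (ratH (P.pl v) d F G) y z + 2 * ((rl v).ε : ℝ) := by
    intro v _
    have h2 := gg_ge (rl v) hy hz hyz
    have h3 : (0 : ℝ) ≤ (rl v).ε := Nat.cast_nonneg _
    apply max_le <;> (clear * - h2; linarith)
  have h2 := sum_le_sum h1
  rw [sum_add_distrib, sum_gg hd hres h hT hy hz hyz, zero_add, ← mul_sum] at h2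
  exact h2

end heights

section total

variable {k K E V W : Type} [Field k] [Field K] [Field E] [Algebra k K] [Algebra k E]
  [Algebra K E] [IsScalarTower k K E] {P : PSys k K V} {Q : PSys k E W} {n d : ℕ}
  (gs : GalW P Q n) {F G : K[X]} {x : ℕ → K} {N : ℕ}

theorem sum_ram_le [DecidableEq V] [DecidableEq W] (f : V → ℝ) (hf : ∀ v, 0 ≤ f v) (T : Finset V)
    (hT : ∀ v, v ∉ T → f v = 0) (U : Finset W) :
    ∑ u ∈ U, (gs.ram u : ℝ) * f (gs.res u) ≤ n * ∑ v ∈ T, f v := by
  have h1 : ∑ u ∈ U, (gs.ram u : ℝ) * f (gs.res u) =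
      ∑ v ∈ U.image gs.res, ∑ u ∈ U with gs.res u = v, (gs.ram u : ℝ) * f (gs.res u) :=
    (sum_fiberwise_of_maps_to (fun u hu => mem_image_of_mem _ hu) _).symm
  rw [h1]
  have h2 : ∀ v ∈ U.image gs.res, ∑ u ∈ U with gs.res u = v, (gs.ram u : ℝ) * f (gs.res u) ≤
      n * f v := by
    intro v _
    have h3 : ∑ u ∈ U with gs.res u = v, (gs.ram u : ℝ) * f (gs.res u) =
        (∑ u ∈ U with gs.res u = v, gs.ram u : ℕ) * f v := by
      push_cast
      rw [sum_mul]
      apply sum_congr rfl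
      intro u hu
      rw [(mem_filter.1 hu).2]
    rw [h3]
    apply mul_le_mul_of_nonneg_right _ (hf v)
    exact_mod_cast gs.fib v _ (fun u hu => (mem_filter.1 hu).2)
  refine (sum_le_sum h2).trans ?_
  rw [← mul_sum]
  apply mul_le_mul_of_nonneg_left _ (Nat.cast_nonneg _)
  have h4 : ∑ v ∈ U.image gs.res, f v ≤ ∑ v ∈ U.image gs.res ∪ T, f v :=
    sum_le_sum_of_subset_of_nonneg subset_union_left fun v _ _ => hf v
  refine h4.trans (le_of_eq ?_)
  symm
  apply sum_subset subset_union_right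
  intro v _ hv
  exact hT v hv

theorem sum_eps_le (hd : 2 ≤ d) (hres : resultant F G d d ≠ 0) (h : RatOrbit F G x N)
    (hN : N₀ d ≤ N) {T : Finset V} (hT : RAdm P F G d (rX h) T)
    (rl : ∀ v, RLoc (P.pl v) F G d (rX h) (ratH (P.pl v) d F G)) (θ : K →+* E) (τ : W → W)
    (hτ : Function.Injective τ)
    (hθ : ∀ w y, y ≠ 0 → (Q.pl w).o (θ y) = gs.ram (τ w) * (P.pl (gs.res (τ w))).o y)
    (h' : RatOrbit (F.map θ) (G.map θ) (fun j => θ (x j)) N)
    (rl' : ∀ w, RLoc (Q.pl w) (F.map θ) (G.map θ) d (rX h')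
      (ratH (Q.pl w) d (F.map θ) (G.map θ))) (U : Finset W) :
    ∑ w ∈ U, ((rl' w).ε : ℝ) ≤
      (2 * n * (N₀ d : ℝ) ^ 2 / c₀ d) * ∑ v ∈ T, ((rl v).ε : ℝ) := by
  classical
  have hc := c₀_pos hd
  set Pr := (range (N₀ d)).offDiag with hPr
  set f : ℕ × ℕ → V → ℝ := fun p v =>
    max 0 (gg (P.pl v) d F G (ratH (P.pl v) d F G) (x p.1) (x p.2)) with hf
  have hf0 : ∀ p v, 0 ≤ f p v := fun p v => le_max_left _ _
  have hinj : ∀ i ∈ range (N₀ d), ∀ j ∈ range (N₀ d), x i = x j → i = j := by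
    intro i hi j hj hij
    rw [mem_range] at hi hj
    exact h.inj i j (by omega) (by omega) hij
  -- the local estimate
  have hloc : ∀ w, c₀ d * ((rl' w).ε : ℝ) ≤
      ∑ p ∈ Pr, (gs.ram (τ w) : ℝ) * f p (gs.res (τ w)) := by
    intro w
    have hinj' : Set.InjOn (fun j => θ (x j)) ((range (N₀ d) : Finset ℕ) : Set ℕ) :=
      fun i hi j hj hij => hinj i hi j hj (θ.injective hij)
    obtain ⟨y, hy, z, hz, hyz, hw⟩ := (rl' w).lb ((range (N₀ d)).image fun j => θ (x j)) (by
      intro y hy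
      obtain ⟨i, _, rfl⟩ := mem_image.mp hy
      exact mem_rX h' i) (by rw [card_image_of_injOn hinj', card_range])
    obtain ⟨i, hi, rfl⟩ := mem_image.mp hy
    obtain ⟨j, hj, rfl⟩ := mem_image.mp hz
    have hxij : x i ≠ x j := fun e => hyz (by simp only [e])
    rw [gg_map θ (hθ w) hres h (mem_rX h i) (mem_rX h j) hxij] at hw
    refine hw.trans ?_
    have hp : (i, j) ∈ Pr := mem_offDiag.2 ⟨hi, hj, fun e => hxij (congrArg x e)⟩
    refine le_trans ?_ (single_le_sum
      (f := fun p => (gs.ram (τ w) : ℝ) * f p (gs.res (τ w)))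
      (fun p _ => mul_nonneg (Nat.cast_nonneg _) (hf0 p _)) hp)
    apply mul_le_mul_of_nonneg_left _ (Nat.cast_nonneg _)
    exact le_max_right _ _
  have h1 : c₀ d * ∑ w ∈ U, ((rl' w).ε : ℝ) ≤
      ∑ p ∈ Pr, ∑ w ∈ U, (gs.ram (τ w) : ℝ) * f p (gs.res (τ w)) := by
    rw [mul_sum, sum_comm]
    exact sum_le_sum fun w _ => hloc w
  have h2 : ∀ p ∈ Pr, ∑ w ∈ U, (gs.ram (τ w) : ℝ) * f p (gs.res (τ w)) ≤
      n * (2 * ∑ v ∈ T, ((rl v).ε : ℝ)) := by
    intro p hp
    rw [hPr, mem_offDiag] at hp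
    have hne : x p.1 ≠ x p.2 := fun e => hp.2.2 (hinj _ hp.1 _ hp.2.1 e)
    have h3 : ∑ w ∈ U, (gs.ram (τ w) : ℝ) * f p (gs.res (τ w)) =
        ∑ u ∈ U.image τ, (gs.ram u : ℝ) * f p (gs.res u) :=
      (sum_image (f := fun u => (gs.ram u : ℝ) * f p (gs.res u)) (hτ.injOn)).symm
    rw [h3]
    refine (sum_ram_le gs (f p) (hf0 p) T (fun v hv => ?_) _).trans ?_
    · simp only [hf]
      rw [gg_zero_of_notMem h hT hv (mem_rX h _) (mem_rX h _) hne, max_self]
    · apply mul_le_mul_of_nonneg_left _ (Nat.cast_nonneg _)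
      exact sum_gg_pos hd hres h hT rl (mem_rX h _) (mem_rX h _) hne
  have h3 := h1.trans (sum_le_sum h2)
  rw [sum_const, nsmul_eq_mul] at h3
  have h4 : (Pr.card : ℝ) ≤ (N₀ d : ℝ) ^ 2 := by
    have : Pr.card ≤ (N₀ d) ^ 2 := by
      rw [hPr, offDiag_card, card_range, sq]
      omega
    exact_mod_cast this
  have h5 : 0 ≤ (n : ℝ) * (2 * ∑ v ∈ T, ((rl v).ε : ℝ)) := by (clear * -; positivity)
  have h6 := h3.trans (mul_le_mul_of_nonneg_right h4 h5)
  have h7 : (2 * n * (N₀ d : ℝ) ^ 2 / c₀ d) * ∑ v ∈ T, ((rl v).ε : ℝ) =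
      ((N₀ d : ℝ) ^ 2 * (n * (2 * ∑ v ∈ T, ((rl v).ε : ℝ)))) / c₀ d := by ring
  rw [h7, le_div_iff₀ hc]
  (clear * - h6; linarith)

end total

end Pool.Agent.Helper33.PT

end
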