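import Pool.Agent.Helper23.MB.L01_ab0
import Pool.Agent.Helper23.MB.L01_ab1
import Pool.Agent.Helper23.MB.L01_ab10
import Pool.Agent.Helper23.MB.L01_ab4
import Pool.Agent.Helper23.MB.L01_ab7
import Pool.Agent.Helper23.MB.L01_ab9
import Pool.Agent.Helper23.MB.L01_abc0

/-!
Parts of Helper45.S4Inert, Helper38.DT.SubF, Helper45.S6Insep, Helper38.DT.Transport, Helper38.DT.PartD, Helper45.S4Clos, Helper31.RRK.Frob, Helper31.DT.SepDeg, Helper91.DT.Six, Helper45.GalW3, Helper11.PT.DetBase
-/

attribute [-simp] Valuation.IsUniformizer.val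
attribute [local instance 5000]
  Pool.Agent.Helper23.MB.Inst.rCharZero Pool.Agent.Helper23.MB.Inst.rALM
  Pool.Agent.Helper23.MB.Inst.rARM Pool.Agent.Helper23.MB.Inst.rALSM
  Pool.Agent.Helper23.MB.Inst.rARSM Pool.Agent.Helper23.MB.Inst.rARRLE
  Pool.Agent.Helper23.MB.Inst.rALRLE Pool.Agent.Helper23.MB.Inst.rARRLT
  Pool.Agent.Helper23.MB.Inst.rALRLT Pool.Agent.Helper23.MB.Inst.rPMRLT
  Pool.Agent.Helper23.MB.Inst.rMPRLT Pool.Agent.Helper23.MB.Inst.rPMM
  Pool.Agent.Helper23.MB.Inst.rMPM Pool.Agent.Helper23.MB.Inst.rPMSM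
  Pool.Agent.Helper23.MB.Inst.rMPSM Pool.Agent.Helper23.MB.Inst.rEAOL
  Pool.Agent.Helper23.MB.Inst.rIOR Pool.Agent.Helper23.MB.Inst.rISOR
  Pool.Agent.Helper23.MB.Inst.rNZD Pool.Agent.Helper23.MB.Inst.zCharZero
  Pool.Agent.Helper23.MB.Inst.zALM Pool.Agent.Helper23.MB.Inst.zARM
  Pool.Agent.Helper23.MB.Inst.zIOR Pool.Agent.Helper23.MB.Inst.zISOR
  Pool.Agent.Helper23.MB.Inst.zNZD Pool.Agent.Helper23.MB.Inst.qCharZero
  Pool.Agent.Helper23.MB.Inst.free Pool.Agent.Helper23.MB.Inst.faith
  Pool.Agent.Helper23.MB.Inst.torsionFree Pool.Agent.Helper23.MB.Inst.rfFaith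
  Pool.Agent.Helper23.MB.Inst.hAdd Pool.Agent.Helper23.MB.Inst.hAddM
  Pool.Agent.Helper23.MB.Inst.hMul Pool.Agent.Helper23.MB.Inst.hMon
  Pool.Agent.Helper23.MB.Inst.hZero Pool.Agent.Helper23.MB.Inst.hOne
  Pool.Agent.Helper23.MB.Inst.hMZ Pool.Agent.Helper23.MB.Inst.hRing
  Pool.Agent.Helper23.MB.Inst.aAdd Pool.Agent.Helper23.MB.Inst.aAddM
  Pool.Agent.Helper23.MB.Inst.aMul Pool.Agent.Helper23.MB.Inst.aMon
  Pool.Agent.Helper23.MB.Inst.aZero Pool.Agent.Helper23.MB.Inst.aOne
  Pool.Agent.Helper23.MB.Inst.aMZ Pool.Agent.Helper23.MB.Inst.aRing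

namespace Pool.Agent.Helper16
end Pool.Agent.Helper16
namespace Pool.Agent.Helper33
end Pool.Agent.Helper33
namespace Pool.Agent.Helper33.PS
end Pool.Agent.Helper33.PS
namespace Pool.Agent.Helper33.PT
end Pool.Agent.Helper33.PT
namespace Pool.Agent.Helper38.DT
end Pool.Agent.Helper38.DT
namespace Pool.Agent.Helper45.FF
end Pool.Agent.Helper45.FF
namespace Pool.Agent.Helper45.FR
end Pool.Agent.Helper45.FR
namespace Pool.Agent.Helper45.M8
end Pool.Agent.Helper45.M8
namespace Pool.Agent.Helper45.S4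
end Pool.Agent.Helper45.S4
namespace Pool.Agent.Helper47.RR
end Pool.Agent.Helper47.RR
namespace Pool.Agent.Helper55.LW
end Pool.Agent.Helper55.LW
namespace Pool.Agent.Helper93.RatODE
end Pool.Agent.Helper93.RatODE

section

set_option autoImplicit false

set_option linter.style.haveILetI false

namespace Pool.Agent.Helper45.S4

open Polynomial IntermediateField Pool.Agent.Helper16 Pool.Agent.Helper33 Pool.Agent.Helper45.FF

section rational

variable {k L : Type} [Field k] [Field L] [Algebra k L]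

theorem finiteDimensional_adjoin (hN : IsFunctionField k L) (t : L) (ht : Transcendental k t) :
    FiniteDimensional k⟮t⟯ L := by
  obtain ⟨S, hS, hsum, hpos⟩ := hN.zeros t ht
  exact Module.finite_of_finrank_pos hpos

theorem isFunctionField_adjoin (hN : IsFunctionField k L) (t : L) (ht : Transcendental k t) :
    IsFunctionField k k⟮t⟯ := by
  haveI := finiteDimensional_adjoin hN t ht
  refine ⟨?_, ?_⟩
  · rw [IntermediateField.essFiniteType_iff]
    exact ⟨{t}, by simp⟩
  · have h1 := trdeg_add_eq k k⟮t⟯ (A := L)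
    rw [hN.2, trdeg_eq_zero (R := k⟮t⟯) (A := L), add_zero] at h1
    exact h1

end rational

end Pool.Agent.Helper45.S4

end

section

set_option autoImplicit false

set_option linter.style.haveILetI false

namespace Pool.Agent.Helper38.DT

open Polynomial IntermediateField Pool.Agent.Helper16 Pool.Agent.Helper45.S4

section subf

variable {k L : Type} [Field k] [Field L] [Algebra k L]

theorem isFunctionField_sub (hL : IsFunctionField k L) (t : L) (ht : Transcendental k t)
    (F : IntermediateField k L) (hF : k⟮t⟯ ≤ F) : IsFunctionField k F := by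
  haveI := finiteDimensional_adjoin hL t ht
  set t₀ : F := ⟨t, mem_of_le t F hF⟩ with ht₀
  have h1 : Module.finrank k⟮t⟯ L ≠ 0 := (Module.finrank_pos (R := k⟮t⟯) (M := L)).ne'
  have h2 := finrank_sub t F hF
  have h3 : Module.finrank k⟮t₀⟯ F ≠ 0 := by
    intro h0
    rw [← ht₀, h0, zero_mul] at h2
    exact h1 h2.symm
  haveI : FiniteDimensional k⟮t₀⟯ F := FiniteDimensional.of_finrank_pos (Nat.pos_of_ne_zero h3)
  have h4 : IsFunctionField k k⟮t⟯ := isFunctionField_adjoin hL t ht
  have h5 : IsFunctionField k k⟮t₀⟯ := by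
    obtain ⟨h6, h7⟩ := h4
    exact ⟨(Algebra.EssFiniteType.iff_of_algEquiv (adjSub t F hF)).2 h6,
      (adjSub t F hF).trdeg_eq.trans h7⟩
  exact isFunctionField_ext h5

end subf

end Pool.Agent.Helper38.DT

end

section

set_option autoImplicit false

set_option linter.style.haveILetI false

namespace Pool.Agent.Helper45.S6

open Polynomial IntermediateField Pool.Agent.Helper16 Pool.Agent.Helper33 Pool.Agent.Helper45.FF

variable {k M : Type} [Field k] [Field M] [Algebra k M]

/-- the degree is multiplied by `p` when the variable is replaced by its `p`-th power -/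
theorem finrank_pow [IsAlgClosed k] (hM : IsFunctionField k M) (p : ℕ) (hp : p ≠ 0) (s t : M)
    (hst : s ^ p = t) (hs : Transcendental k s) (ht : Transcendental k t) :
    Module.finrank k⟮t⟯ M = p * Module.finrank k⟮s⟯ M := by
  obtain ⟨S, hS, hsum, -⟩ := hM.zeros s hs
  obtain ⟨T, hT, hTsum, -⟩ := hM.zeros t ht
  have hs0 : s ≠ 0 := transcendental_ne_zero hs
  have hST : S = T := by
    ext v
    rw [hS, hT, ← hst, map_pow, pow_lt_one_iff_of_nonneg zero_le hp]
  subst hST
  have h1 : ∑ v ∈ S, v.ord t * (v.deg : ℤ) = p * ∑ v ∈ S, v.ord s * (v.deg : ℤ) := by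
    rw [Finset.mul_sum]
    apply Finset.sum_congr rfl
    intro v _
    have h2 : v.ord (s ^ p) = p * v.ord s := by
      rw [Place.ord, map_pow, WithZero.log_pow, Place.ord]
      simp
    rw [← hst, h2]
    ring
  rw [hsum, hTsum] at h1
  exact_mod_cast h1

/-- **Separating variable of small degree.** -/
theorem exists_separating [IsAlgClosed k] (hM : IsFunctionField k M) (t : M)
    (ht : Transcendental k t) : ∃ τ : M, Transcendental k τ ∧ Algebra.IsSeparable k⟮τ⟯ M ∧
      Module.finrank k⟮τ⟯ M ≤ Module.finrank k⟮t⟯ M := by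
  obtain ⟨p, hp⟩ := ExpChar.exists k
  rcases hp with _ | hp'
  · haveI : FiniteDimensional k⟮t⟯ M := S4.finiteDimensional_adjoin hM t ht
    exact ⟨t, ht, inferInstance, le_rfl⟩
  · rename_i hchar
    haveI : Fact p.Prime := ⟨hp'⟩
    haveI : CharP M p := charP_of_injective_algebraMap (algebraMap k M).injective p
    induction hn : Module.finrank k⟮t⟯ M using Nat.strong_induction_on generalizing t with
    | _ n ih =>
      haveI : FiniteDimensional k⟮t⟯ M := S4.finiteDimensional_adjoin hM t ht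
      by_cases hsep : Algebra.IsSeparable k⟮t⟯ M
      · exact ⟨t, ht, hsep, hn.le⟩
      · obtain ⟨s, hs⟩ := exists_root_of_not_separable p t hsep
        have hst : Transcendental k s := by
          intro h
          apply ht
          rw [← hs]
          exact h.pow p
        have h1 := finrank_pow hM p hp'.ne_zero s t hs hst ht
        haveI : FiniteDimensional k⟮s⟯ M := S4.finiteDimensional_adjoin hM s hst
        have h2 : 0 < Module.finrank k⟮s⟯ M := Module.finrank_pos
        have h3 := hp'.two_le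
        have h4 : Module.finrank k⟮s⟯ M < n := by
          rw [← hn, h1]; nlinarith
        obtain ⟨τ, hτ, hτsep, hτle⟩ := ih _ h4 s hst rfl
        exact ⟨τ, hτ, hτsep, by omega⟩

end Pool.Agent.Helper45.S6

end

section

set_option autoImplicit false

namespace Pool.Agent.Helper38.DT

open Polynomial Pool.Agent.Helper93.RatODE Pool.Agent.Helper45.FR

theorem constConj_of_ringEquiv {k E : Type} [Field k] [Field E] [Algebra k E] (th : E ≃+* E)
    (th0 : k ≃+* k) (hth : ∀ c, th (algebraMap k E c) = algebraMap k E (th0 c)) (A B : E[X]) (d : ℕ)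
    (h : ConstConj k (A.map (th : E →+* E)) (B.map (th : E →+* E)) d) : ConstConj k A B d := by
  have h1 := constConj_hom (th.symm : E →+* E) (th0.symm : k →+* k) (fun a => by
    change th.symm (algebraMap k E a) = algebraMap k E (th0.symm a)
    rw [RingEquiv.symm_apply_eq, hth, RingEquiv.apply_symm_apply]) _ _ d h
  have h2 : ∀ R : E[X], (R.map (th : E →+* E)).map (th.symm : E →+* E) = R := by
    intro R
    rw [Polynomial.map_map]
    have : (th.symm : E →+* E).comp (th : E →+* E) = RingHom.id E := by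
      ext a; simp
    rw [this, Polynomial.map_id]
  rwa [h2, h2] at h1

end Pool.Agent.Helper38.DT

end

section

set_option autoImplicit false

set_option linter.style.haveILetI false

namespace Pool.Agent.Helper38.DT

open Polynomial IntermediateField Pool.Agent.Helper16 Pool.Agent.Helper45.S4 Pool.Agent.Helper45.FR
  Pool.Agent.Helper93.RatODE

theorem partD {k L Om : Type} [Field k] [IsAlgClosed k] [Field L] [Algebra k L] [Field Om]
    [IsAlgClosed Om] [Algebra k Om] [Algebra L Om] [IsScalarTower k L Om]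
    (hL : IsFunctionField k L) (t : L) (ht : Transcendental k t) [Algebra.IsSeparable k⟮t⟯ L]
    (n : ℕ) (hn : Module.finrank k⟮t⟯ L ≤ n) (L₀ : IntermediateField k⟮t⟯ L) (hL₀ : L₀ ≠ ⊤)
    (A B : Om[X]) (δ N₂ : ℕ) (hAB : IsRatD A B δ) (c : ℕ → Om)
    (hA : ∀ i, ∃ e, ∃ b ∈ L₀, A.coeff i ^ (ringExpChar k ^ e) = algebraMap L Om b)
    (hB : ∀ i, ∃ e, ∃ b ∈ L₀, B.coeff i ^ (ringExpChar k ^ e) = algebraMap L Om b)
    (hc : ∀ l, ∃ e, ∃ b ∈ L₀, c l ^ (ringExpChar k ^ e) = algebraMap L Om b)
    (hstep : ∀ l, B.eval (c l) ≠ 0 ∧ c (l + 1) = A.eval (c l) / B.eval (c l))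
    (hfin : (Set.range c).Finite) (hinj : ∀ i j, i ≤ N₂ → j ≤ N₂ → c i = c j → i = j)
    (hIH : ∀ (K : Type) [Field K] [Algebra k K] (s : K), IsFunctionField k K →
      Transcendental k s → Algebra.IsSeparable k⟮s⟯ K → Module.finrank k⟮s⟯ K ≤ n - 1 →
      ∀ F G : K[X], IsCoprime F G → F.natDegree ≤ δ → G.natDegree ≤ δ →
        (F.coeff δ ≠ 0 ∨ G.coeff δ ≠ 0) → ∀ x : ℕ → K, RatOrbit F G x N₂ → ConstConj k F G δ) :
    ConstConj k A B δ := by
  classical
  set p := ringExpChar k with hp
  haveI : ExpChar k p := ringExpChar.expChar k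
  haveI : ExpChar Om p := expChar_of_injective_algebraMap (algebraMap k Om).injective p
  -- the subfield
  let F : IntermediateField k L := L₀.restrictScalars k
  have hF : k⟮t⟯ ≤ F := by
    rw [adjoin_simple_le_iff]
    exact L₀.algebraMap_mem ⟨t, mem_adjoin_simple_self k t⟩
  -- a common exponent
  obtain ⟨e, he⟩ : ∃ e, ∀ a ∈ (Set.range c ∪ (Set.range A.coeff ∪ Set.range B.coeff)),
      InP F.toSubfield p e a := by
    refine exists_common _ ?_ ?_
    · refine hfin.union (Set.Finite.union ?_ ?_)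
      · refine (Finset.finite_toSet (insert 0 (A.support.image A.coeff))).subset ?_
        rintro _ ⟨i, rfl⟩
        by_cases hi : A.coeff i = 0
        · rw [hi]; simp
        · have : A.coeff i ∈ A.support.image A.coeff :=
            Finset.mem_image_of_mem _ (mem_support_iff.2 hi)
          simp only [Finset.coe_insert, Set.mem_insert_iff, Finset.mem_coe]
          exact Or.inr this
      · refine (Finset.finite_toSet (insert 0 (B.support.image B.coeff))).subset ?_
        rintro _ ⟨i, rfl⟩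
        by_cases hi : B.coeff i = 0
        · rw [hi]; simp
        · have : B.coeff i ∈ B.support.image B.coeff :=
            Finset.mem_image_of_mem _ (mem_support_iff.2 hi)
          simp only [Finset.coe_insert, Set.mem_insert_iff, Finset.mem_coe]
          exact Or.inr this
    · rintro a (⟨l, rfl⟩ | ⟨i, rfl⟩ | ⟨i, rfl⟩)
      · exact hc l
      · exact hA i
      · exact hB i
  -- the Frobenius
  let φ : Om →+* Om := iterateFrobenius Om p e
  have hφ : ∀ a, φ a = a ^ p ^ e := fun a => iterateFrobenius_def p e a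
  let ι : F →+* Om := (algebraMap L Om).comp (algebraMap F L)
  have hι : Function.Injective ι := ι.injective
  have hrange : ∀ a, InP F.toSubfield p e a → φ a ∈ Set.range ι := by
    rintro a ⟨b, hb, hab⟩
    exact ⟨⟨b, hb⟩, by rw [hφ, hab]; rfl⟩
  obtain ⟨A₀, hA₀⟩ : ∃ A₀ : F[X], A₀.map ι = A.map φ := by
    rw [← Polynomial.mem_lifts, Polynomial.lifts_iff_coeff_lifts]
    intro i
    rw [coeff_map]
    exact hrange _ (he _ (Or.inr (Or.inl ⟨i, rfl⟩)))
  obtain ⟨B₀, hB₀⟩ : ∃ B₀ : F[X], B₀.map ι = B.map φ := by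
    rw [← Polynomial.mem_lifts, Polynomial.lifts_iff_coeff_lifts]
    intro i
    rw [coeff_map]
    exact hrange _ (he _ (Or.inr (Or.inr ⟨i, rfl⟩)))
  have hc₀ : ∀ l, ∃ b : F, ι b = φ (c l) := fun l => hrange _ (he _ (Or.inl ⟨l, rfl⟩))
  choose c₀ hc₀ using hc₀
  have hrat : IsRatD A₀ B₀ δ := by
    refine ⟨?_, ?_, ?_, ?_⟩
    · rw [← Polynomial.isCoprime_map ι, hA₀, hB₀, Polynomial.isCoprime_map φ]
      exact hAB.cop
    · rw [← natDegree_map_eq_of_injective hι A₀, hA₀,
        natDegree_map_eq_of_injective φ.injective]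
      exact hAB.degF
    · rw [← natDegree_map_eq_of_injective hι B₀, hB₀,
        natDegree_map_eq_of_injective φ.injective]
      exact hAB.degG
    · have h1 : ι (A₀.coeff δ) = φ (A.coeff δ) := by
        rw [← coeff_map, hA₀, coeff_map]
      have h2 : ι (B₀.coeff δ) = φ (B.coeff δ) := by
        rw [← coeff_map, hB₀, coeff_map]
      rcases hAB.top with h | h
      · left
        intro h0
        rw [h0, map_zero] at h1
        exact h ((map_eq_zero φ).1 h1.symm)
      · right
        intro h0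
        rw [h0, map_zero] at h2
        exact h ((map_eq_zero φ).1 h2.symm)
  have hevA : ∀ l, ι (A₀.eval (c₀ l)) = φ (A.eval (c l)) := by
    intro l
    rw [← eval_map_apply, hA₀, hc₀, eval_map_apply]
  have hevB : ∀ l, ι (B₀.eval (c₀ l)) = φ (B.eval (c l)) := by
    intro l
    rw [← eval_map_apply, hB₀, hc₀, eval_map_apply]
  have horb : RatOrbit A₀ B₀ c₀ N₂ := by
    refine ⟨?_, ?_, ?_, ?_⟩
    · intro l h0
      have h1 := hevB l
      rw [h0, map_zero] at h1
      exact (hstep l).1 ((map_eq_zero φ).1 h1.symm)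
    · intro l
      apply hι
      rw [map_div₀, hevA, hevB, ← map_div₀, ← (hstep l).2, hc₀]
    · intro i j hi hj hij
      refine hinj i j hi hj (φ.injective ?_)
      rw [← hc₀, ← hc₀, hij]
    · refine Set.Finite.of_finite_image (f := ι) (Set.Finite.subset (hfin.image φ) ?_) hι.injOn
      rintro _ ⟨_, ⟨l, rfl⟩, rfl⟩
      exact ⟨c l, ⟨l, rfl⟩, (hc₀ l).symm⟩
  -- the induction hypothesis
  have hfinrank : Module.finrank k⟮(⟨t, mem_of_le t F hF⟩ : F)⟯ F ≤ n - 1 := by
    have h1 := finrank_sub t F hF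
    haveI := finiteDimensional_adjoin hL t ht
    have h2 : 0 < Module.finrank k⟮t⟯ L := Module.finrank_pos
    have h3 : Module.finrank F L ≠ 1 := by
      intro h4
      rw [IntermediateField.finrank_eq_one_iff_eq_top] at h4
      apply hL₀
      apply IntermediateField.restrictScalars_injective k
      rw [restrictScalars_top]
      exact h4
    have h5 : Module.finrank F L ≠ 0 := by
      intro h4
      rw [h4, mul_zero] at h1
      omega
    have h6 : 2 ≤ Module.finrank F L := by omega
    have h7 : 0 < Module.finrank k⟮(⟨t, mem_of_le t F hF⟩ : F)⟯ F := by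
      rcases Nat.eq_zero_or_pos (Module.finrank k⟮(⟨t, mem_of_le t F hF⟩ : F)⟯ F) with h8 | h8
      · rw [h8, zero_mul] at h1
        omega
      · exact h8
    have h8 := Nat.mul_le_mul_left (Module.finrank k⟮(⟨t, mem_of_le t F hF⟩ : F)⟯ F) h6
    omega
  have h1 : ConstConj k A₀ B₀ δ :=
    hIH F ⟨t, mem_of_le t F hF⟩ (isFunctionField_sub hL t ht F hF)
      (transcendental_sub t ht F hF) (isSeparable_sub t F hF) hfinrank A₀ B₀ hrat.cop hrat.degF
      hrat.degG hrat.top c₀ horb
  -- back to `Om`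
  haveI : IsScalarTower k F Om := IsScalarTower.of_algebraMap_eq (R := k) (S := F) (A := Om)
    (fun a => by
    change algebraMap k Om a = algebraMap L Om (algebraMap F L (algebraMap k F a))
    rw [← IsScalarTower.algebraMap_apply k F L, ← IsScalarTower.algebraMap_apply k L Om])
  have h2 := constConj_map (E := Om) A₀ B₀ δ h1
  have h3 : (algebraMap F Om) = ι := rfl
  rw [h3, hA₀, hB₀] at h2
  haveI : PerfectRing Om p := inferInstance
  haveI : PerfectRing k p := inferInstance
  have hφ' : φ = (iterateFrobeniusEquiv Om p e : Om →+* Om) := by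
    ext a
    rw [hφ, RingEquiv.coe_toRingHom, iterateFrobeniusEquiv_def]
  rw [hφ'] at h2
  refine constConj_of_ringEquiv (iterateFrobeniusEquiv Om p e) (iterateFrobeniusEquiv k p e) ?_ A B
    δ h2
  intro a
  rw [iterateFrobeniusEquiv_def, iterateFrobeniusEquiv_def, map_pow]

end Pool.Agent.Helper38.DT

end

section

set_option autoImplicit false

set_option linter.style.haveILetI false

namespace Pool.Agent.Helper45.S4

open Polynomial IntermediateField Pool.Agent.Helper16 Pool.Agent.Helper33 Pool.Agent.Helper45.FF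

/-- Galois closure of `L / k(t)`. -/
theorem exists_galois_closure {k L : Type} [Field k] [Field L] [Algebra k L] [CharZero k]
    (hL : IsFunctionField k L) (t : L) (ht : Transcendental k t) :
    ∃ (M : Type) (_ : Field M) (_ : Algebra k M) (_ : Algebra L M), IsScalarTower k L M ∧
      FiniteDimensional L M ∧ IsGalois k⟮t⟯ M ∧ IsFunctionField k M ∧
      Nat.card (M ≃ₐ[k⟮t⟯] M) ≤ (Module.finrank k⟮t⟯ L).factorial := by
  haveI := finiteDimensional_adjoin hL t ht
  obtain ⟨M, iM, iF, iL, h1, h2, h3, h4, h5⟩ := exists_galois_closure_gen k⟮t⟯ L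
  letI : Algebra k M := ((algebraMap L M).comp (algebraMap k L)).toAlgebra
  haveI : IsScalarTower k L M := IsScalarTower.of_algebraMap_eq fun x => rfl
  have hiF : iF = IntermediateField.instAlgebraSubtypeMem (k⟮t⟯) := by
    apply Algebra.algebra_ext
    intro r
    exact @IsScalarTower.algebraMap_apply _ _ _ _ _ _ _ _ iF h1 r
  subst hiF
  exact ⟨M, iM, inferInstance, iL, inferInstance, h3, h4, isFunctionField_ext hL, h5⟩

end Pool.Agent.Helper45.S4

end

section

set_option autoImplicit false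

set_option linter.style.haveILetI false

namespace Pool.Agent.Helper31.RRK

open Polynomial IntermediateField Pool.Agent.Helper16 Pool.Agent.Helper33 Pool.Agent.Helper45.FF

open Pool.Agent.Helper45.S4 Pool.Agent.Helper47.RR

section bound

variable {k L : Type} [Field k] [Field L] [Algebra k L]

/-- The range of an endomorphism of a function field has finite index. -/
theorem finiteDimensional_fieldRange [IsAlgClosed k] (hN : IsFunctionField k L) {M : Type}
    [Field M] [Algebra k M] (hM : IsFunctionField k M) (φ : L →ₐ[k] M) :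
    FiniteDimensional φ.fieldRange M := by
  obtain ⟨t, ht, -⟩ := exists_separating hN
  have ht' : Transcendental k (φ t) := by
    intro h
    exact ht ((isAlgebraic_algHom_iff φ φ.injective).1 h)
  haveI := finiteDimensional_adjoin hM (φ t) ht'
  have hle : k⟮φ t⟯ ≤ φ.fieldRange := by
    rw [adjoin_simple_le_iff]
    exact ⟨t, rfl⟩
  letI : Algebra k⟮φ t⟯ φ.fieldRange := (IntermediateField.inclusion hle).toAlgebra
  haveI : IsScalarTower k⟮φ t⟯ φ.fieldRange M := IsScalarTower.of_algebraMap_eq (fun x => rfl)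
  exact FiniteDimensional.right k⟮φ t⟯ φ.fieldRange M

end bound

end Pool.Agent.Helper31.RRK

end

section

set_option autoImplicit false

set_option linter.style.haveILetI false

namespace Pool.Agent.Helper31.DT

open Polynomial IntermediateField Pool.Agent.Helper93.RatODE Pool.Agent.Helper38.DT
  Pool.Agent.Helper16

section degree

/-- **DT2b**: the separable degree of an endomorphism lying over `(F / G)^r`. -/
theorem dt2b {E M : Type} [Field E] [IsAlgClosed E] [Field M] [Algebra E M]
    (hM : IsFunctionField E M) (φ : M →ₐ[E] M) (z : M) (hz : Transcendental E z) (F G : E[X])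
    (d : ℕ) (hd : 2 ≤ d) (hFG : IsRatD F G d) (hins : ¬ PInsep F G d) (r : ℕ) (hr : 1 ≤ r)
    (hφ : φ z * aeval z (iter F G d r).2 = aeval z (iter F G d r).1) :
    2 ≤ Field.finSepDegree φ.fieldRange M := by
  obtain ⟨m, rfl⟩ : ∃ m, r = m + 1 := ⟨r - 1, by omega⟩
  have hW0 : aeval z (iter F G d (m + 1)).2 ≠ 0 :=
    aeval_ne_zero hz (iter_snd_ne_zero hd hFG (m + 1))
  have hφz : φ z = aeval z (iter F G d (m + 1)).1 / aeval z (iter F G d (m + 1)).2 :=
    (eq_div_iff hW0).2 hφ
  have hmem : φ z ∈ E⟮aeval z F / aeval z G⟯ := by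
    rw [hφz]
    exact iter_mem hd hFG hz m
  have hzt : Transcendental E (φ z) := by
    intro h
    exact hz ((isAlgebraic_algHom_iff φ φ.injective).1 h)
  have hle1 : E⟮φ z⟯ ≤ E⟮aeval z F / aeval z G⟯ := by
    rwa [adjoin_simple_le_iff]
  have hle2 : E⟮aeval z F / aeval z G⟯ ≤ E⟮z⟯ := by
    rw [adjoin_simple_le_iff]
    have h3 : ∀ P : E[X], aeval z P ∈ E⟮z⟯ := by
      intro P
      have h4 := Polynomial.aeval_algebraMap_apply M
        (⟨z, mem_adjoin_simple_self E z⟩ : E⟮z⟯) P
      change aeval z P = _ at h4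
      rw [h4]
      exact (aeval _ P : E⟮z⟯).2
    exact div_mem (h3 F) (h3 G)
  have hle : E⟮φ z⟯ ≤ E⟮z⟯ := hle1.trans hle2
  have hleR : E⟮φ z⟯ ≤ φ.fieldRange := by
    rw [adjoin_simple_le_iff]
    exact ⟨z, rfl⟩
  haveI := Pool.Agent.Helper45.S4.finiteDimensional_adjoin hM z hz
  haveI := Pool.Agent.Helper45.S4.finiteDimensional_adjoin hM (φ z) hzt
  haveI := Pool.Agent.Helper31.RRK.finiteDimensional_fieldRange hM hM φ
  letI : Algebra E⟮φ z⟯ E⟮z⟯ := (IntermediateField.inclusion hle).toRingHom.toAlgebra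
  haveI : IsScalarTower E⟮φ z⟯ E⟮z⟯ M := IsScalarTower.of_algebraMap_eq (fun _ => rfl)
  letI : Algebra E⟮φ z⟯ φ.fieldRange := (IntermediateField.inclusion hleR).toRingHom.toAlgebra
  haveI : IsScalarTower E⟮φ z⟯ φ.fieldRange M := IsScalarTower.of_algebraMap_eq (fun _ => rfl)
  haveI : FiniteDimensional E⟮φ z⟯ E⟮z⟯ := FiniteDimensional.left _ _ M
  haveI : FiniteDimensional E⟮φ z⟯ φ.fieldRange := FiniteDimensional.left _ _ M
  have h1 := Field.finSepDegree_mul_finSepDegree_of_isAlgebraic E⟮φ z⟯ E⟮z⟯ M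
  have h2 := Field.finSepDegree_mul_finSepDegree_of_isAlgebraic E⟮φ z⟯ φ.fieldRange M
  have hmap : (E⟮z⟯).map φ = E⟮φ z⟯ := by
    rw [IntermediateField.adjoin_map, Set.image_singleton]
  let i : E⟮z⟯ ≃+* E⟮φ z⟯ :=
    ((IntermediateField.equivMap E⟮z⟯ φ).trans (IntermediateField.equivOfEq hmap)).toRingEquiv
  have h3 : Field.finSepDegree E⟮z⟯ M = Field.finSepDegree E⟮φ z⟯ φ.fieldRange := by
    apply finSepDegree_eq_of_equiv_equiv i (AlgEquiv.ofInjectiveField φ).toRingEquiv
    intro x
    rfl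
  have h4 : 0 < Field.finSepDegree E⟮z⟯ M := Nat.pos_of_ne_zero (NeZero.ne _)
  rw [← h3] at h2
  have h5 : Field.finSepDegree φ.fieldRange M = Field.finSepDegree E⟮φ z⟯ E⟮z⟯ := by
    apply Nat.eq_of_mul_eq_mul_left h4
    rw [h2, ← h1, mul_comm]
  rw [h5]
  have h6 : 0 < Field.finSepDegree E⟮φ z⟯ E⟮z⟯ := Nat.pos_of_ne_zero (NeZero.ne _)
  by_contra hcon
  have h7 : Field.finSepDegree E⟮φ z⟯ E⟮z⟯ = 1 := by omega
  rw [← isPurelyInseparable_iff_finSepDegree_eq_one] at h7
  haveI : ExpChar E (ringExpChar E) := ringExpChar.expChar E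
  haveI : ExpChar E⟮φ z⟯ (ringExpChar E) :=
    expChar_of_injective_algebraMap (algebraMap E E⟮φ z⟯).injective _
  obtain ⟨n, y, hy⟩ := h7.pow_mem E⟮φ z⟯ (ringExpChar E)
    (⟨z, mem_adjoin_simple_self E z⟩ : E⟮z⟯)
  have h8 : z ^ (ringExpChar E) ^ n = (y : M) := by
    have := congrArg (fun x : E⟮z⟯ => (x : M)) hy
    exact this.symm
  apply hins
  apply pinsep_of_pow_mem' z hz F G d hd hFG n
  rw [h8]
  exact hle1 y.2

end degree

end Pool.Agent.Helper31.DT

end

section

set_option autoImplicit false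

namespace Pool.Agent.Helper91.DT

open Polynomial IntermediateField Pool.Agent.Helper93.RatODE Pool.Agent.Helper45.FR
  Pool.Agent.Helper38.DT

section conj

variable {k E : Type} [Field k] [Field E] [Algebra k E]

/-- conjugacy in terms of values -/
theorem phi_mat {F G : E[X]} {d : ℕ} {A : Matrix (Fin 2) (Fin 2) E} {P' Q' : k[X]} {c : E}
    (hF : (hev F d (C (A 0 0) * X + C (A 0 1)) (C (A 1 0) * X + C (A 1 1)) : E[X]) =
        C c * (C (A 0 0) * P'.map (algebraMap k E) + C (A 0 1) * Q'.map (algebraMap k E)))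
    (hG : (hev G d (C (A 0 0) * X + C (A 0 1)) (C (A 1 0) * X + C (A 1 1)) : E[X]) =
        C c * (C (A 1 0) * P'.map (algebraMap k E) + C (A 1 1) * Q'.map (algebraMap k E)))
    (v : E × E) : phi F G d (mat A v) =
      c • mat A (phi (P'.map (algebraMap k E)) (Q'.map (algebraMap k E)) d v) := by
  have key : ∀ R : E[X], hev (hev R d (C (A 0 0) * X + C (A 0 1)) (C (A 1 0) * X + C (A 1 1)) : E[X])
      d v.1 v.2 = hev R d (mat A v).1 (mat A v).2 := by
    intro R
    have h3 := hev_comp R d (q := 1) (U := C (A 0 0) * X + C (A 0 1))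
      (W := C (A 1 0) * X + C (A 1 1)) natDegree_linear_le natDegree_linear_le v.1 v.2
    rw [mul_one] at h3
    rw [h3, hev_linear, hev_linear]
    simp [mat]
  have h1 := key F
  have h2 := key G
  rw [hF, hev_C_mul, hev_add, hev_C_mul, hev_C_mul] at h1
  rw [hG, hev_C_mul, hev_add, hev_C_mul, hev_C_mul] at h2
  simp only [Algebra.algebraMap_self, RingHom.id_apply] at h1 h2
  refine Prod.ext ?_ ?_
  · exact h1.symm
  · exact h2.symm

theorem phi_mat_iter {F G : E[X]} {d : ℕ} {A : Matrix (Fin 2) (Fin 2) E} {P' Q' : k[X]} {c : E}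
    (hc : c ≠ 0)
    (hF : (hev F d (C (A 0 0) * X + C (A 0 1)) (C (A 1 0) * X + C (A 1 1)) : E[X]) =
        C c * (C (A 0 0) * P'.map (algebraMap k E) + C (A 0 1) * Q'.map (algebraMap k E)))
    (hG : (hev G d (C (A 0 0) * X + C (A 0 1)) (C (A 1 0) * X + C (A 1 1)) : E[X]) =
        C c * (C (A 1 0) * P'.map (algebraMap k E) + C (A 1 1) * Q'.map (algebraMap k E)))
    (v : E × E) (i : ℕ) : ∃ e : E, e ≠ 0 ∧ (phi F G d)^[i] (mat A v) =
      e • mat A ((phi (P'.map (algebraMap k E)) (Q'.map (algebraMap k E)) d)^[i] v) := by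
  induction i with
  | zero => exact ⟨1, one_ne_zero, by simp⟩
  | succ i ih =>
    obtain ⟨e, he, h⟩ := ih
    refine ⟨e ^ d * c, mul_ne_zero (pow_ne_zero _ he) hc, ?_⟩
    rw [Function.iterate_succ_apply', Function.iterate_succ_apply', h, phi_smul,
      phi_mat hF hG, mul_smul]

end conj

end Pool.Agent.Helper91.DT

end

section

set_option autoImplicit false

set_option linter.style.haveILetI false

set_option linter.unusedSectionVars false

namespace Pool.Agent.Helper45.GW

open Polynomial IntermediateField Pool.Agent.Helper16 Pool.Agent.Helper33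
  Pool.Agent.Helper33.PS Pool.Agent.Helper33.PT
  Pool.Agent.Helper45.FF Pool.Agent.Helper45.S4 Pool.Agent.Helper45.M8

section closure

/-- Galois closure of `L / k(t)`, separable case. -/
theorem exists_galois_closure_sep {k L : Type} [Field k] [Field L] [Algebra k L]
    (hL : IsFunctionField k L) (t : L) (ht : Transcendental k t) [Algebra.IsSeparable k⟮t⟯ L] :
    ∃ (M : Type) (_ : Field M) (_ : Algebra k M) (_ : Algebra L M), IsScalarTower k L M ∧
      FiniteDimensional L M ∧ IsGalois k⟮t⟯ M ∧ IsFunctionField k M ∧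
      Nat.card (M ≃ₐ[k⟮t⟯] M) ≤ (Module.finrank k⟮t⟯ L).factorial := by
  haveI := finiteDimensional_adjoin hL t ht
  obtain ⟨M, iM, iF, iL, h1, h2, h3, h4, h5⟩ := exists_galois_closure_gen k⟮t⟯ L
  letI : Algebra k M := ((algebraMap L M).comp (algebraMap k L)).toAlgebra
  haveI : IsScalarTower k L M := IsScalarTower.of_algebraMap_eq fun x => rfl
  have hiF : iF = IntermediateField.instAlgebraSubtypeMem (k⟮t⟯) := by
    apply Algebra.algebra_ext
    intro r
    exact @IsScalarTower.algebraMap_apply _ _ _ _ _ _ _ _ iF h1 r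
  subst hiF
  exact ⟨M, iM, inferInstance, iL, inferInstance, h3, h4, isFunctionField_ext hL, h5⟩

end closure

end Pool.Agent.Helper45.GW

end

section

set_option autoImplicit false

open Finset Polynomial

namespace Pool.Agent.Helper11.PT

open Pool.Agent.Helper33 Pool.Agent.Helper33.PT Pool.Agent.Helper55.LW

/-- the energy of the set of values of an injective sequence -/
lemma En_seq {E ι : Type*} [Field E] [DecidableEq ι] (v : DV E) (x : ι → E) (H : ι → ℝ) (q : ℝ)
    (m : ℕ) (z : ℕ → ι) (hz : ∀ c < m, ∀ l < c, z c ≠ z l) :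
    Pool.Agent.Helper33.PT.En v x H q ((range m).image z) =
      2 * ∑ c ∈ range m, ∑ l ∈ range c, (v.o (x (z c) - x (z l)) : ℝ) -
        2 * ((m : ℝ) - 1) * ∑ c ∈ range m, H (z c) + q * (m * ((m : ℝ) - 1)) := by
  have hinj : Set.InjOn z (range m : Finset ℕ) := by
    intro a ha b hb hab
    rw [coe_range, Set.mem_Iio] at ha hb
    rcases lt_trichotomy a b with h | h | h
    · exact absurd hab.symm (hz b hb a h)
    · exact h
    · exact absurd hab (hz a ha b h)
  have h1 : Pool.Agent.Helper33.PT.En v x H q ((range m).image z) =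
      ∑ a ∈ range m, ∑ b ∈ range m, (if a = b then 0 else
        ((v.o (x (z a) - x (z b)) : ℝ) - H (z a) - H (z b) + q)) := by
    unfold Pool.Agent.Helper33.PT.En
    rw [Finset.sum_image hinj]
    apply Finset.sum_congr rfl
    intro a ha
    rw [Finset.sum_filter, Finset.sum_image hinj]
    apply Finset.sum_congr rfl
    intro b hb
    by_cases h : a = b
    · subst h
      simp
    · rw [if_neg h, if_pos (fun hc => h (hinj (by simpa using ha) (by simpa using hb) hc.symm))]
  rw [h1, sum_sym (fun a b => (v.o (x (z a) - x (z b)) : ℝ) - H (z a) - H (z b) + q)]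
  · have h2 : ∑ i ∈ range m, ∑ j ∈ range i, ((v.o (x (z i) - x (z j)) : ℝ) - H (z i) - H (z j) + q) =
        ∑ c ∈ range m, ∑ l ∈ range c, (v.o (x (z c) - x (z l)) : ℝ) -
          ∑ c ∈ range m, ∑ l ∈ range c, (H (z c) + H (z l)) +
          ∑ c ∈ range m, ∑ _l ∈ range c, q := by
      rw [← Finset.sum_sub_distrib, ← Finset.sum_add_distrib]
      apply Finset.sum_congr rfl
      intro c _
      rw [← Finset.sum_sub_distrib, ← Finset.sum_add_distrib]
      apply Finset.sum_congr rfl
      intro l _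
      ring
    rw [h2, sum_pair (fun i => H (z i)), sum_cst]
    ring
  · intro a b
    simp only [v.o_sub_comm (x (z a)) (x (z b))]
    ring

/-- Leja polynomials on a finite set of points -/
lemma exists_leja_poly {E ι : Type*} [Field E] [DecidableEq ι] (v : DV E) (m : ℕ) (hm : 1 ≤ m)
    (X : Finset ι) (hX : m ≤ X.card) (x : ι → E)
    (H : ι → ℝ) (q e : ℝ)
    (he : ∀ S ⊆ X, S.card = m → 2 * e ≤ Pool.Agent.Helper33.PT.En v x H q S) :
    ∃ (z : ℕ → ι) (β : ℕ → ℝ), (∀ c < m, ∀ j ∈ X,
      v.ge (β c + ((m : ℝ) - 1) * H j) (∏ l ∈ range c, (x j - x (z l)))) ∧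
      e - q * (m * ((m : ℝ) - 1) / 2) ≤ ∑ c ∈ range m, β c := by
  have hne : Nonempty ι := by
    have : 0 < X.card := by omega
    obtain ⟨a, -⟩ := Finset.card_pos.mp this
    exact ⟨a⟩
  obtain ⟨z, h1, h2, h3⟩ := exists_leja (fun i j => (v.o (x i - x j) : ℝ)) X
    (fun i => -(((m : ℝ) - 1) * H i)) m hX
  refine ⟨z, fun c => ∑ l ∈ range c, (v.o (x (z c) - x (z l)) : ℝ) + -(((m : ℝ) - 1) * H (z c)),
    ?_, ?_⟩
  · intro c hc j hj
    by_cases h : ∃ l < c, j = z l
    · obtain ⟨l, hl, rfl⟩ := h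
      left
      exact Finset.prod_eq_zero (mem_range.mpr hl) (sub_self _)
    · push Not at h
      have h4 := h3 c hc j hj h
      have h5 := ge_prod (v := v) (range c) (fun l => (v.o (x j - x (z l)) : ℝ))
        (fun l => x j - x (z l)) (fun l _ => DV.ge_self _)
      refine DV.ge_mono h5 ?_
      simp only at h4 ⊢
      linarith
  · have hcard : ((range m).image z).card = m := by
      rw [Finset.card_image_of_injOn, card_range]
      intro a ha b hb hab
      rw [coe_range, Set.mem_Iio] at ha hb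
      rcases lt_trichotomy a b with h | h | h
      · exact absurd hab.symm (h2 b hb a h)
      · exact h
      · exact absurd hab (h2 a ha b h)
    have hsub : (range m).image z ⊆ X := by
      intro a ha
      rw [mem_image] at ha
      obtain ⟨c, hc, rfl⟩ := ha
      exact h1 c (mem_range.mp hc)
    have h4 := he _ hsub hcard
    rw [En_seq v x H q m z h2] at h4
    simp only [Finset.sum_add_distrib, Finset.sum_neg_distrib, ← Finset.mul_sum]
    linarith

/-- **T-BASE** -/
theorem det_base {E ι : Type*} [Field E] [DecidableEq ι] (v : DV E) (m : ℕ) (hm : 1 ≤ m) (X : Finset ι)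
    (hX : m ≤ X.card) (x y : ι → E) (hx : Set.InjOn x (X : Set ι)) (hy : Set.InjOn y (X : Set ι))
    (H H' : ι → ℝ) (q q' e e' : ℝ)
    (he : ∀ S ⊆ X, S.card = m → 2 * e ≤ Pool.Agent.Helper33.PT.En v x H q S)
    (he' : ∀ S ⊆ X, S.card = m → 2 * e' ≤ Pool.Agent.Helper33.PT.En v y H' q' S)
    (i : Fin m × Fin m → ι) (hi : ∀ a, i a ∈ X) (hdet : (PM m (x ∘ i) (y ∘ i)).det ≠ 0) :
    m * (e + e') ≤ (v.o (PM m (x ∘ i) (y ∘ i)).det : ℝ) - (m - 1) * ∑ a, (H (i a) + H' (i a)) +
      (q + q') * (m - 1) * m ^ 2 / 2 := by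
  obtain ⟨z, β, hz, hβ⟩ := exists_leja_poly v m hm X hX x H q e he
  obtain ⟨z', β', hz', hβ'⟩ := exists_leja_poly v m hm X hX y H' q' e' he'
  have hbasis := det_basis m
    (fun ce => ∏ l ∈ range (ce.1 : ℕ), ((Polynomial.X : E[X]) - C (x (z l))))
    (fun ce => (∏ l ∈ range (ce.2 : ℕ), ((Polynomial.X : E[X]) - C (y (z' l)))).map C)
    (fun ce => (monic_leja _ _).1) (fun ce => (monic_leja _ _).2)
    (fun ce => (monic_leja _ _).1.map _) (fun ce => by
      rw [(monic_leja _ _).1.natDegree_map, (monic_leja _ _).2])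
    (fun ce r => by
      rw [coeff_map, mul_comm]
      refine lt_of_le_of_lt (natDegree_C_mul_le _ _) ?_
      rw [(monic_leja _ _).2]
      exact ce.1.2)
    (x ∘ i) (y ∘ i)
  have hPM : (PM m (x ∘ i) (y ∘ i)).det = (Matrix.of fun j (ce : Fin m × Fin m) =>
      (∏ l ∈ range (ce.1 : ℕ), (x (i j) - x (z l))) *
        (∏ l ∈ range (ce.2 : ℕ), (y (i j) - y (z' l)))).det := by
    rw [PM, ← hbasis]
    congr 1
    ext j ce
    simp only [Matrix.of_apply, eval_prod, eval_sub, eval_X, eval_C, Function.comp_apply]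
    congr 1
    rw [Polynomial.evalEval_map_C]
    simp only [eval_prod, eval_sub, eval_X, eval_C]
  have hge := ge_det (v := v) (Matrix.of fun j (ce : Fin m × Fin m) =>
      (∏ l ∈ range (ce.1 : ℕ), (x (i j) - x (z l))) *
        (∏ l ∈ range (ce.2 : ℕ), (y (i j) - y (z' l))))
    (fun j => ((m : ℝ) - 1) * (H (i j) + H' (i j))) (fun ce => β ce.1 + β' ce.2) (by
      intro j ce
      rw [Matrix.of_apply]
      refine DV.ge_mono (DV.ge_mul (hz ce.1 ce.1.2 (i j) (hi j)) (hz' ce.2 ce.2.2 (i j) (hi j))) ?_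
      apply le_of_eq
      ring)
  rw [← hPM] at hge
  have h1 := DV.ge_le hge hdet
  have hsum : ∑ ce : Fin m × Fin m, (β ce.1 + β' ce.2) =
      m * ∑ c ∈ range m, β c + m * ∑ c ∈ range m, β' c := by
    rw [Fintype.sum_prod_type, ← Fin.sum_univ_eq_sum_range β m, ← Fin.sum_univ_eq_sum_range β' m]
    simp only [Finset.sum_add_distrib, Finset.sum_const, card_univ, Fintype.card_fin, nsmul_eq_mul,
      ← Finset.mul_sum]
  rw [hsum, ← Finset.mul_sum] at h1
  have hm0 : (0 : ℝ) ≤ m := Nat.cast_nonneg m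
  nlinarith [mul_nonneg hm0 (sub_nonneg.mpr hβ), mul_nonneg hm0 (sub_nonneg.mpr hβ')]

end Pool.Agent.Helper11.PT

end
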