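import Pool.Agent.Helper23.MB.L01_ab0
import Pool.Agent.Helper23.MB.L01_ab10
import Pool.Agent.Helper23.MB.L01_ab4
import Pool.Agent.Helper23.MB.L01_ab9
import Pool.Agent.Helper23.MB.L01_abc0

/-!
Parts of Helper33.UB.Greedy, Helper33.UB.Inst, Helper33.UB.Select2, Helper34.Dep.Core, Helper82.PS.IterGood, Helper33.PS.Mods, Helper33.UB.Sel4, Helper33.PT.SelC1, Helper33.PT.SelC2, Helper33.PT.SelC3
-/

attribute [-simp] Valuation.IsUniformizer.val
attribute [local instance 5000]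
  Pool.Agent.Helper23.MB.Inst.rCharZero Pool.Agent.Helper23.MB.Inst.rALM
  Pool.Agent.Helper23.MB.Inst.rARM Pool.Agent.Helper23.MB.Inst.rALSM
  Pool.Agent.Helper23.MB.Inst.rARSM Pool.Agent.Helper23.MB.Inst.rARRLE
  Pool.Agent.Helper23.MB.Inst.rALRLE Pool.Agent.Helper23.MB.Inst.rARRLT
  Pool.Agent.Helper23.MB.Inst.rALRLT Pool.Agent.Helper23.MB.Inst.rPMRLT
  Pool.Agent.Helper23.MB.Inst.rMPRLT Pool.Agent.Helper23.MB.Inst.rPMM
  Pool.Agent.Helper23.MB.Inst.rMPM Pool.Agent.Helper23.MB.Inst.rPMSM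
  Pool.Agent.Helper23.MB.Inst.rMPSM Pool.Agent.Helper23.MB.Inst.rEAOL
  Pool.Agent.Helper23.MB.Inst.rIOR Pool.Agent.Helper23.MB.Inst.rISOR
  Pool.Agent.Helper23.MB.Inst.rNZD Pool.Agent.Helper23.MB.Inst.zCharZero
  Pool.Agent.Helper23.MB.Inst.zALM Pool.Agent.Helper23.MB.Inst.zARM
  Pool.Agent.Helper23.MB.Inst.zIOR Pool.Agent.Helper23.MB.Inst.zISOR
  Pool.Agent.Helper23.MB.Inst.zNZD Pool.Agent.Helper23.MB.Inst.qCharZero
  Pool.Agent.Helper23.MB.Inst.free Pool.Agent.Helper23.MB.Inst.faith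
  Pool.Agent.Helper23.MB.Inst.torsionFree Pool.Agent.Helper23.MB.Inst.rfFaith
  Pool.Agent.Helper23.MB.Inst.hAdd Pool.Agent.Helper23.MB.Inst.hAddM
  Pool.Agent.Helper23.MB.Inst.hMul Pool.Agent.Helper23.MB.Inst.hMon
  Pool.Agent.Helper23.MB.Inst.hZero Pool.Agent.Helper23.MB.Inst.hOne
  Pool.Agent.Helper23.MB.Inst.hMZ Pool.Agent.Helper23.MB.Inst.hRing
  Pool.Agent.Helper23.MB.Inst.aAdd Pool.Agent.Helper23.MB.Inst.aAddM
  Pool.Agent.Helper23.MB.Inst.aMul Pool.Agent.Helper23.MB.Inst.aMon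
  Pool.Agent.Helper23.MB.Inst.aZero Pool.Agent.Helper23.MB.Inst.aOne
  Pool.Agent.Helper23.MB.Inst.aMZ Pool.Agent.Helper23.MB.Inst.aRing

namespace Pool.Agent.Helper33.UB.TreeDyn
end Pool.Agent.Helper33.UB.TreeDyn

namespace Pool.Agent.Helper16
end Pool.Agent.Helper16
namespace Pool.Agent.Helper33
end Pool.Agent.Helper33
namespace Pool.Agent.Helper33.PS
end Pool.Agent.Helper33.PS
namespace Pool.Agent.Helper33.UB
end Pool.Agent.Helper33.UB
namespace Pool.Agent.Helper33.UB.TreeDyn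
end Pool.Agent.Helper33.UB.TreeDyn
namespace Pool.Agent.Helper45.FR
end Pool.Agent.Helper45.FR
namespace Pool.Agent.Helper47.EN
end Pool.Agent.Helper47.EN
namespace Pool.Agent.Helper47.RR
end Pool.Agent.Helper47.RR
namespace Pool.Agent.Helper51.RatTree
end Pool.Agent.Helper51.RatTree
namespace Pool.Agent.Helper55.RD
end Pool.Agent.Helper55.RD
namespace Pool.Agent.Helper64.Dep
end Pool.Agent.Helper64.Dep
namespace Pool.Agent.Helper93.RatODE
end Pool.Agent.Helper93.RatODE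

section

set_option autoImplicit false

open Finset

namespace Pool.Agent.Helper33.UB

section star

variable {K : Type*} [Field K] [DecidableEq K]

/-- in a star the distances split -/
lemma Star.exists_split {v : DV K} {I : Finset K} (h : Star v I) (hI : 3 ≤ I.card) :
    ∃ b : K → ℝ, ∀ x ∈ I, ∀ y ∈ I, x ≠ y → (v.o (x - y) : ℝ) = b x + b y := by
  obtain ⟨a1, ha1, a2, ha2, a3, ha3, h12, h13, h23⟩ : ∃ a1 ∈ I, ∃ a2 ∈ I, ∃ a3 ∈ I,
      a1 ≠ a2 ∧ a1 ≠ a3 ∧ a2 ≠ a3 := by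
    obtain ⟨a1, h1, a2, h2, a3, h3, h4, h5, h6⟩ := two_lt_card.mp (by omega : 2 < I.card)
    exact ⟨a1, h1, a2, h2, a3, h3, h4, h5, h6⟩
  have hr : ∀ p ∈ I, ∀ q ∈ I, ∀ c ∈ I, ∀ c' ∈ I, p ≠ q → p ≠ c → p ≠ c' → q ≠ c → q ≠ c' → c ≠ c' →
      (v.o (p - q) : ℝ) + v.o (c - c') = v.o (p - c) + v.o (q - c') := by
    intro p hp q hq c hc c' hc' e1 e2 e3 e4 e5 e6
    exact_mod_cast h p hp q hq c hc c' hc' e1 e2 e3 e4 e5 e6
  have hcomm : ∀ x y : K, (v.o (x - y) : ℝ) = v.o (y - x) := fun x y => by rw [v.o_sub_comm]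
  set b1 : ℝ := ((v.o (a1 - a2) : ℝ) + v.o (a1 - a3) - v.o (a2 - a3)) / 2 with hb1
  refine ⟨fun x => if x = a1 then b1 else v.o (x - a1) - b1, ?_⟩
  have key : ∀ x ∈ I, ∀ y ∈ I, x ≠ y → x ≠ a1 → y ≠ a1 →
      (v.o (x - y) : ℝ) = v.o (x - a1) - b1 + (v.o (y - a1) - b1) := by
    intro x hx y hy hxy hx1 hy1
    rw [hb1]
    by_cases hx2 : x = a2
    · subst hx2
      by_cases hy3 : y = a3
      · subst hy3
        rw [hcomm x a1, hcomm y a1]; ring
      · have := hr y hy a1 ha1 x hx a3 ha3 hy1 (Ne.symm hxy) hy3 h12 h13 h23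
        rw [hcomm x y, hcomm x a1]
        linarith
    by_cases hx3 : x = a3
    · subst hx3
      by_cases hy2 : y = a2
      · subst hy2
        rw [hcomm x y, hcomm x a1, hcomm y a1]; ring
      · have := hr y hy a1 ha1 x hx a2 ha2 hy1 (Ne.symm hxy) hy2 h13 h12 (Ne.symm h23)
        rw [hcomm x y, hcomm x a1, hcomm a2 x]
        linarith
    by_cases hy2 : y = a2
    · subst hy2
      have := hr x hx a1 ha1 y hy a3 ha3 hx1 hxy hx3 h12 h13 h23
      rw [hcomm y a1]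
      linarith
    by_cases hy3 : y = a3
    · subst hy3
      have := hr x hx a1 ha1 y hy a2 ha2 hx1 hxy hx2 h13 h12 (Ne.symm h23)
      rw [hcomm y a1, hcomm a2 y]
      linarith
    have e1 := hr x hx a1 ha1 y hy a2 ha2 hx1 hxy hx2 (Ne.symm hy1) h12 hy2
    have e2 := hr y hy a1 ha1 a2 ha2 a3 ha3 hy1 hy2 hy3 h12 h13 h23
    linarith
  intro x hx y hy hxy
  simp only
  by_cases hx1 : x = a1
  · rw [if_pos hx1, if_neg (by rintro rfl; exact hxy hx1), hx1, hcomm]; ring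
  by_cases hy1 : y = a1
  · rw [if_pos hy1, if_neg hx1, hy1]; ring
  rw [if_neg hx1, if_neg hy1]
  exact key x hx y hy hxy hx1 hy1

end star

end Pool.Agent.Helper33.UB

end

section

set_option autoImplicit false

open Finset Polynomial

namespace Pool.Agent.Helper33.UB

namespace GInst

variable {k K V : Type*} [Field k] [Field K] [Algebra k K] [DecidableEq K] {P : PSys k K V}
  {c : GConst} {N : ℕ} {M : ℝ} (I : GInst P c N M)

lemma h_nonneg : 0 ≤ I.h := sum_nonneg I.ε_nonneg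

lemma sum_g_pos {i j : ℕ} (hi : i ≤ N) (hj : j ≤ N) (hij : i ≠ j) :
    ∑ v ∈ I.T, max 0 (I.g v i j) ≤ c.C1 * I.h := by
  have h1 : ∀ v ∈ I.T, max 0 (I.g v i j) ≤ I.g v i j + c.C1 * I.ε v := by
    intro v hv
    have h2 := I.lower v hv i j hi hj hij
    have h3 : 0 ≤ c.C1 * I.ε v := mul_nonneg (by have := c.hC1; (clear * - this; linarith)) (I.ε_nonneg v hv)
    have h4 : -(c.C1 * I.ε v) ≤ I.g v i j := h2
    apply max_le <;> (clear * - h4 h3; linarith)
  have h2 := sum_le_sum h1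
  rw [sum_add_distrib, I.sum_g hi hj hij, zero_add, ← mul_sum] at h2
  exact h2

/-- number of places where a pair is close -/
lemma card_close {i j : ℕ} (hi : i ≤ N) (hj : j ≤ N) (hij : i ≠ j) (s : Finset V) (hs : s ⊆ I.T)
    (h : ∀ v ∈ s, c.c1 ≤ I.g v i j) : (s.card : ℝ) ≤ c.C1 / c.c1 * I.h := by
  have hc := c.hc1
  have h1 : (s.card : ℝ) * c.c1 ≤ c.C1 * I.h := by
    calc (s.card : ℝ) * c.c1 = ∑ v ∈ s, c.c1 := by rw [sum_const, nsmul_eq_mul]
      _ ≤ ∑ v ∈ s, max 0 (I.g v i j) := sum_le_sum fun v hv => (h v hv).trans (le_max_right _ _)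
      _ ≤ ∑ v ∈ I.T, max 0 (I.g v i j) :=
          sum_le_sum_of_subset_of_nonneg hs fun _ _ _ => le_max_left _ _
      _ ≤ c.C1 * I.h := I.sum_g_pos hi hj hij
  rw [div_mul_eq_mul_div, le_div_iff₀ hc]
  exact h1

/-- stars everywhere force `h = 0` -/
theorem h_le_of_star {R : ℕ} (hR : c.N0 * (c.c0 + c.C1) ≤ (R + 1) * c.c0) (hR1 : 1 ≤ R)
    (s : Finset ℕ) (hs : ∀ i ∈ s, i ≤ N) (hcard : s.card = 2 * (R + 1))
    (hstar : ∀ v ∈ I.T, Star (P.pl v) (s.image I.x)) : I.h ≤ 0 := by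
  classical
  have hinj := I.injOn hs
  have himg : (s.image I.x).card = 2 * (R + 1) := by rw [card_image_of_injOn hinj, hcard]
  -- total sum over pairs
  have htot : ∑ v ∈ I.T, ∑ i ∈ s, ∑ j ∈ s.erase i, I.g v i j = 0 := by
    rw [sum_comm]
    apply sum_eq_zero
    intro i hi
    rw [sum_comm]
    apply sum_eq_zero
    intro j hj
    rw [mem_erase] at hj
    exact I.sum_g (hs i hi) (hs j hj.2) (Ne.symm hj.1)
  have hloc : ∀ v ∈ I.T, (2 * (2 * (R + 1) - 1) : ℝ) * ((R + 1) * (c.c0 / 2 * I.ε v)) ≤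
      ∑ i ∈ s, ∑ j ∈ s.erase i, I.g v i j := by
    intro v hv
    obtain ⟨A, B, hE, hsum⟩ := I.exists_lb_matching hR hv s hs hcard
    obtain ⟨b, hb⟩ := (hstar v hv).exists_split (by omega)
    have hgb : ∀ i ∈ s, ∀ j ∈ s, i ≠ j → I.g v i j = (b (I.x i) + I.β v i) + (b (I.x j) + I.β v j) := by
      intro i hi j hj hij
      unfold g
      rw [hb (I.x i) (mem_image_of_mem _ hi) (I.x j) (mem_image_of_mem _ hj)
        fun h => hij (hinj hi hj h)]
      ring
    set w : ℕ → ℝ := fun i => b (I.x i) + I.β v i with hw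
    have h1 : ∑ i, I.g v (A i) (B i) = ∑ i ∈ s, w i := by
      rw [hE.sum, ← sum_add_distrib]
      apply sum_congr rfl
      intro i _
      exact hgb _ (hE.memA i) _ (hE.memB i) (hE.ne i i)
    have h2 : ∑ i ∈ s, ∑ j ∈ s.erase i, I.g v i j = (2 * (2 * (R + 1) - 1) : ℝ) * ∑ i ∈ s, w i := by
      have h3 : ∀ i ∈ s, ∑ j ∈ s.erase i, I.g v i j = ((2 * (R + 1) - 1 : ℝ)) * w i + (∑ j ∈ s, w j - w i) := by
        intro i hi
        rw [sum_congr rfl (fun j hj => hgb i hi j (mem_erase.mp hj).2 (Ne.symm (mem_erase.mp hj).1)),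
          sum_add_distrib, sum_const, card_erase_of_mem hi, hcard, nsmul_eq_mul,
          ← add_sum_erase s _ hi]
        rw [Nat.cast_sub (by omega)]
        push_cast
        simp only [hw]
        ring
      rw [sum_congr rfl h3, sum_add_distrib, ← mul_sum, sum_sub_distrib, sum_const, hcard, nsmul_eq_mul]
      push_cast
      ring
    rw [h2, ← h1]
    apply mul_le_mul_of_nonneg_left hsum
    have : (0 : ℝ) ≤ R := Nat.cast_nonneg R
    (clear * -; linarith)
  have h1 := sum_le_sum hloc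
  rw [htot, ← mul_sum, ← mul_sum, ← mul_sum] at h1
  have hRr : (0 : ℝ) ≤ R := Nat.cast_nonneg R
  have hc0 := c.hc0
  by_contra hpos
  push Not at hpos
  have : 0 < (2 * (2 * (R + 1) - 1) : ℝ) * ((R + 1) * (c.c0 / 2 * I.h)) := by
    have h2 : (0 : ℝ) < 2 * (2 * (R + 1) - 1) := by (clear * -; linarith)
    (clear * - h2 hR1 hc0 hpos; positivity)
  unfold h at this
  (clear * - h1 this; linarith)

end GInst

end Pool.Agent.Helper33.UB

end

section

set_option autoImplicit false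

open Finset Polynomial

namespace Pool.Agent.Helper33.UB

open TreeDyn

lemma Star.mono {K : Type*} [Field K] {v : DV K} {I J : Finset K} (h : Star v I) (hJ : J ⊆ I) :
    Star v J :=
  fun p hp q hq c hc c' hc' => h p (hJ hp) q (hJ hq) c (hJ hc) c' (hJ hc')

namespace GInst

variable {k K V : Type*} [Field k] [Field K] [Algebra k K] [DecidableEq K] {P : PSys k K V}
  {c : GConst} {N : ℕ} {M : ℝ} (I : GInst P c N M)

lemma card_rel {n Nst : ℕ} (hN : n + Nst ≤ N) (hNst : 1 ≤ Nst) :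
    ((I.rel n Nst).card : ℝ) ≤ (1 / c.δ0 + c.C1 / c.c1) * I.h := by
  classical
  have hsub : I.rel n Nst ⊆ (I.T.filter fun v => 0 < I.ε v) ∪
      (I.T.filter fun v => I.ε v = 0 ∧ c.c1 ≤ I.g v n (n + Nst)) := by
    intro v hv
    unfold rel at hv
    rw [mem_filter] at hv
    rcases hv.2 with h | h
    · exact mem_union_left _ (mem_filter.mpr ⟨hv.1, h.1⟩)
    · exact mem_union_right _ (mem_filter.mpr ⟨hv.1, h⟩)
  have h1 := I.card_bad c.hδ0 (I.T.filter fun v => 0 < I.ε v) (filter_subset _ _) (by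
    intro v hv
    rw [mem_filter] at hv
    exact I.disc v hv.1 hv.2)
  have h2 := I.card_close (i := n) (j := n + Nst) (by omega) hN (by omega)
    (I.T.filter fun v => I.ε v = 0 ∧ c.c1 ≤ I.g v n (n + Nst)) (filter_subset _ _) (by
    intro v hv
    exact (mem_filter.mp hv).2.2)
  have h3 : ((I.rel n Nst).card : ℝ) ≤ ((I.T.filter fun v => 0 < I.ε v).card : ℝ) +
      ((I.T.filter fun v => I.ε v = 0 ∧ c.c1 ≤ I.g v n (n + Nst)).card : ℝ) := by
    exact_mod_cast (card_le_card hsub).trans (card_union_le _ _)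
  rw [add_mul, one_div, inv_mul_eq_div]
  linarith

end GInst

end Pool.Agent.Helper33.UB

end

section

set_option autoImplicit false

set_option linter.style.haveILetI false

namespace Pool.Agent.Helper34.Dep

open Polynomial Pool.Agent.Helper16 Pool.Agent.Helper47.RR IntermediateField Pool.Agent.Helper64.Dep
  Pool.Agent.Helper93.RatODE Pool.Agent.Helper47.EN

open scoped Polynomial.Bivariate

section aux

variable {k K : Type} [Field k] [Field K] [Algebra k K]

/-- finitely many places with a given value -/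
theorem finite_value (hK : IsFunctionField k K) (z : K) (hz : Transcendental k z) (c : k) :
    {v : Place k K | Pv v z c}.Finite := by
  have h1 : Transcendental k (z - algebraMap k K c) := by
    intro h
    apply hz
    have h2 := h.add (isAlgebraic_algebraMap (R := k) (A := K) c)
    rwa [sub_add_cancel] at h2
  obtain ⟨S, hS, -, -⟩ := hK.zeros _ h1
  exact S.finite_toSet.subset fun v hv => (hS v).2 hv

end aux

end Pool.Agent.Helper34.Dep

end

section

set_option autoImplicit false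

open Polynomial Finset Pool.Agent.Helper33 Pool.Agent.Helper33.PS Pool.Agent.Helper55.RD
  Pool.Agent.Helper93.RatODE

namespace Pool.Agent.Helper82.PS

section HH

variable {K : Type*} [Field K] {v : DV K}

/-- the order of the value of the pair `(A, B)` at a primitive vector over `z` -/
noncomputable def HH (v : DV K) (d : ℕ) (A B : K[X]) (z : K) : ℤ :=
  v.o (B.eval z) - neg v (A.eval z / B.eval z) + d * neg v z

lemma neg_nonneg (x : K) : 0 ≤ neg v x := by
  unfold neg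
  split_ifs
  · exact le_rfl
  · exact le_max_left _ _

lemma neg_ge (x : K) (hx : x ≠ 0) : -(v.o x) ≤ neg v x := by
  unfold neg
  rw [if_neg hx]
  exact le_max_right _ _

lemma neg_eq (x : K) : neg v x = 0 ∨ (x ≠ 0 ∧ neg v x = -(v.o x)) := by
  unfold neg
  split_ifs with h
  · exact Or.inl rfl
  · rcases max_choice 0 (-(v.o x)) with h1 | h1
    · exact Or.inl h1
    · exact Or.inr ⟨h, h1⟩

lemma HH_ge {d : ℕ} {A B : K[X]} (hA : A.natDegree ≤ d) (hB : B.natDegree ≤ d) {z s : K}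
    (hz : B.eval z ≠ 0) (hs : s ≠ 0) (hos : v.o s = - neg v z) {c : ℝ}
    (h1 : v.ge c (hom d A (s⁻¹ * z) (s⁻¹ * 1))) (h2 : v.ge c (hom d B (s⁻¹ * z) (s⁻¹ * 1))) :
    c ≤ HH v d A B z := by
  rw [hom_scale hA] at h1
  rw [hom_scale hB] at h2
  have hs' : s⁻¹ ^ d ≠ 0 := pow_ne_zero _ (inv_ne_zero hs)
  have ho : v.o (s⁻¹ ^ d) = d * neg v z := by
    rw [v.o_pow _ (inv_ne_zero hs), v.o_inv s hs, hos, neg_neg]
  have h3 := DV.ge_le h2 (mul_ne_zero hs' hz)
  rw [v.mul _ _ hs' hz, ho] at h3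
  unfold HH
  rcases neg_eq (v := v) (A.eval z / B.eval z) with h4 | ⟨h4, h5⟩
  · rw [h4]; push_cast at h3 ⊢; (clear * - h3; linarith)
  · have hAz : A.eval z ≠ 0 := fun h => h4 (by rw [h, zero_div])
    have h6 := DV.ge_le h1 (mul_ne_zero hs' hAz)
    rw [v.mul _ _ hs' hAz, ho] at h6
    rw [h5, v.o_div _ _ hAz hz]
    push_cast at h6 ⊢; (clear * - h6; linarith)

lemma ge_HH {d : ℕ} {A B : K[X]} (hA : A.natDegree ≤ d) (hB : B.natDegree ≤ d) {z s : K}
    (hz : B.eval z ≠ 0) (hs : s ≠ 0) (hos : v.o s = - neg v z) :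
    v.ge (HH v d A B z) (hom d A (s⁻¹ * z) (s⁻¹ * 1)) ∧
      v.ge (HH v d A B z) (hom d B (s⁻¹ * z) (s⁻¹ * 1)) := by
  rw [hom_scale hA, hom_scale hB]
  have hs' : s⁻¹ ^ d ≠ 0 := pow_ne_zero _ (inv_ne_zero hs)
  have ho : v.o (s⁻¹ ^ d) = d * neg v z := by
    rw [v.o_pow _ (inv_ne_zero hs), v.o_inv s hs, hos, neg_neg]
  constructor
  · by_cases hAz : A.eval z = 0
    · left; rw [hAz, mul_zero]
    right
    rw [v.mul _ _ hs' hAz, ho]
    have h1 := neg_ge (v := v) (A.eval z / B.eval z) (div_ne_zero hAz hz)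
    rw [v.o_div _ _ hAz hz] at h1
    have : HH v d A B z ≤ d * neg v z + v.o (A.eval z) := by unfold HH; (clear * - h1; linarith)
    exact_mod_cast this
  · right
    rw [v.mul _ _ hs' hz, ho]
    have h1 := neg_nonneg (v := v) (A.eval z / B.eval z)
    have : HH v d A B z ≤ d * neg v z + v.o (B.eval z) := by unfold HH; (clear * - h1; linarith)
    exact_mod_cast this

/-- a primitive representative -/
lemma exists_prim (z : K) : ∃ s : K, s ≠ 0 ∧ v.o s = - neg v z ∧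
    Prim v (s⁻¹ * z, s⁻¹ * 1) ∧ (v.ge 0 z → s = 1) := by
  by_cases hz : v.ge 0 z
  · refine ⟨1, one_ne_zero, ?_, ?_, fun _ => rfl⟩
    · rcases neg_eq (v := v) z with h | ⟨h, h'⟩
      · rw [h, v.o_one]; rfl
      · have h1 := DV.ge_le hz h
        have h2 : (0 : ℤ) ≤ v.o z := by exact_mod_cast h1
        have h3 := neg_nonneg (v := v) z
        rw [v.o_one]; omega
    · refine ⟨?_, ?_, Or.inr ⟨?_, ?_⟩⟩
      · simpa using hz
      · simpa using DV.ge_one
      · simp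
      · simp [v.o_one]
  · have hz0 : z ≠ 0 := fun h => hz (Or.inl h)
    have hneg : v.o z < 0 := by
      by_contra h
      apply hz
      right
      have : 0 ≤ v.o z := by omega
      exact_mod_cast this
    have hn : neg v z = -(v.o z) := by
      unfold neg
      rw [if_neg hz0]
      exact max_eq_right (by omega)
    refine ⟨z, hz0, by rw [hn]; ring, ?_, fun h => absurd h hz⟩
    refine ⟨?_, ?_, Or.inl ⟨?_, ?_⟩⟩
    · rw [inv_mul_cancel₀ hz0]; exact DV.ge_one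
    · right
      rw [mul_one, v.o_inv z hz0]
      push_cast
      have : (v.o z : ℝ) < 0 := by exact_mod_cast hneg
      (clear * - this; linarith)
    · change z⁻¹ * z ≠ 0
      rw [inv_mul_cancel₀ hz0]; exact one_ne_zero
    · change v.o (z⁻¹ * z) = 0
      rw [inv_mul_cancel₀ hz0, v.o_one]

lemma HH_nonneg {d : ℕ} {A B : K[X]} (hA : A.natDegree ≤ d) (hB : B.natDegree ≤ d)
    (hfA : IntP v A) (hfB : IntP v B) {z : K} (hz : B.eval z ≠ 0) : 0 ≤ HH v d A B z := by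
  obtain ⟨s, hs, hos, hprim, -⟩ := exists_prim (v := v) z
  have h := HH_ge hA hB hz hs hos (c := 0) (ge_hom_zero hfA hprim.1 hprim.2.1)
    (ge_hom_zero hfB hprim.1 hprim.2.1)
  exact_mod_cast h

lemma HH_le {d : ℕ} (hd : 1 ≤ d) {A B : K[X]} (hA : A.natDegree ≤ d) (hB : B.natDegree ≤ d)
    (hres : resultant A B d d ≠ 0)
    (hfA : IntP v A) (hfB : IntP v B) {z : K} (hz : B.eval z ≠ 0) :
    HH v d A B z ≤ v.o (resultant A B d d) := by
  obtain ⟨s, hs, hos, hprim, -⟩ := exists_prim (v := v) z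
  obtain ⟨h1, h2⟩ := ge_HH hA hB hz hs hos
  have h3 := le_resultant hd hres hfA hfB hprim h1 h2
  exact_mod_cast h3

/-- for a map with good reduction the values at primitive vectors are primitive -/
lemma o_eval_good {d : ℕ} (hd : 1 ≤ d) {A B : K[X]} (hAB : IsRat A B d)
    {c : K} (hc : c ≠ 0) (hA : ∀ i, v.ge (v.o c) (A.coeff i)) (hB : ∀ i, v.ge (v.o c) (B.coeff i))
    (hr : v.o (resultant A B d d) = 2 * d * v.o c) {z : K} (hz : B.eval z ≠ 0) :
    v.o (B.eval z) = v.o c + neg v (A.eval z / B.eval z) - d * neg v z := by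
  have hR : resultant A B d d ≠ 0 := resultant_ne_zero_of_isRat hd hAB
  have hf : IntP v (C c⁻¹ * A) := intP_scale hc hA
  have hg : IntP v (C c⁻¹ * B) := intP_scale hc hB
  have hR' : resultant (C c⁻¹ * A) (C c⁻¹ * B) d d ≠ 0 := by
    rw [resultant_scale]
    exact mul_ne_zero (pow_ne_zero _ (inv_ne_zero hc)) (mul_ne_zero (pow_ne_zero _ (inv_ne_zero hc)) hR)
  have hdg : (C c⁻¹ * B).natDegree ≤ d := (natDegree_C_mul_le _ _).trans hAB.dB
  have hdf : (C c⁻¹ * A).natDegree ≤ d := (natDegree_C_mul_le _ _).trans hAB.dA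
  have hgx : (C c⁻¹ * B).eval z ≠ 0 := by
    rw [eval_mul, eval_C]; exact mul_ne_zero (inv_ne_zero hc) hz
  have h1 := HH_nonneg hdf hdg hf hg hgx
  have h2 := HH_le hd hdf hdg hR' hf hg hgx
  rw [o_resultant_scale hc hR, hr, sub_self] at h2
  have h3 : HH v d (C c⁻¹ * A) (C c⁻¹ * B) z = 0 := le_antisymm h2 h1
  unfold HH at h3
  have h4 : (C c⁻¹ * A).eval z / (C c⁻¹ * B).eval z = A.eval z / B.eval z := by
    simp only [eval_mul, eval_C]
    exact mul_div_mul_left _ _ (inv_ne_zero hc)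
  rw [h4, eval_mul, eval_C, v.mul _ _ (inv_ne_zero hc) hz, v.o_inv c hc] at h3
  (clear * - h3; linarith)

end HH

section tele

variable {K : Type*} [Field K] {v : DV K} {d : ℕ} {A B : K[X]}

/-- orders of the iterates -/
lemma o_iter (hA : A.natDegree ≤ d) (hB : B.natDegree ≤ d) {z : ℕ → K} {n : ℕ} (hz : Orb A B z n)
    (m : ℕ) (hm : m ≤ n) :
    v.o ((iter A B d m).2.eval (z 0)) =
      TT d (fun t => HH v d A B (z t)) m + neg v (z m) - (d : ℤ) ^ m * neg v (z 0) := by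
  induction m with
  | zero =>
    simp [iter, TT, v.o_one]
  | succ m ih =>
    obtain ⟨h1, h2⟩ := orb_iter hA hB hz m (by omega)
    have h3 := ih (by omega)
    have h4 := (iter_eval_succ hA hB m h1).2
    rw [h2] at h4
    have hne := hz.ne m (by omega)
    rw [h4, v.mul _ _ (pow_ne_zero _ h1) hne, v.o_pow _ h1, h3, TT_succ]
    have h5 := hz.step m (by omega)
    unfold HH
    rw [← h5]
    ring

end tele

section main

variable {k K : Type*} [Field k] [Field K] [Algebra k K] {v : DV K}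

lemma neg_const (hv : ResK k v) (c : k) : neg v (algebraMap k K c) = 0 := by
  unfold neg
  split_ifs with h
  · rfl
  · rw [hv.const c (fun h0 => h (by rw [h0, map_zero]))]; simp

/-- the core: normalised pair -/
theorem core [IsAlgClosed k] (hv : ResK k v) {d J : ℕ} (hd : 2 ≤ d) (hJ : 1 ≤ J) {A B U W : K[X]}
    (hAB : IsRat A B d) (hUW : IsRat U W (d ^ J))
    (hit : ∀ z : ℕ → K, Orb A B z J → W.eval (z 0) ≠ 0 ∧ U.eval (z 0) / W.eval (z 0) = z J)
    (h : IsGood v (d ^ J) U W) (hA : IntP v A) (hB : IntP v B)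
    (hprim : (∃ i, ¬ v.ge 1 (A.coeff i)) ∨ ∃ i, ¬ v.ge 1 (B.coeff i)) :
    v.o (resultant A B d d) = 0 := by
  have hd1 : 1 ≤ d := by omega
  have hdJ : 1 ≤ d ^ J := Nat.one_le_pow _ _ hd1
  have : Infinite k := IsAlgClosed.instInfinite
  have : Infinite K := Infinite.of_injective _ (algebraMap k K).injective
  have hR : resultant A B d d ≠ 0 := resultant_ne_zero_of_isRat hd1 hAB
  -- step 1: the iterate is a multiple of `(U, W)`
  have hcross : U * (iter A B d J).2 = (iter A B d J).1 * W := by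
    by_contra hne
    have hne' : U * (iter A B d J).2 - (iter A B d J).1 * W ≠ 0 := sub_ne_zero.mpr hne
    obtain ⟨s, hs⟩ := exists_avoid (k := k) (K := K)
      (mul_ne_zero hne' (GG_ne_zero hd1 hAB J)) (G₀ := 1) one_ne_zero (algebraMap k K)
      (algebraMap k K).injective
    rw [eval_mul] at hs
    obtain ⟨z, hz0, hz⟩ := exists_orb' hAB (right_ne_zero_of_mul hs.1)
    obtain ⟨h1, h2⟩ := hit z hz
    obtain ⟨h3, h4⟩ := orb_iter hAB.dA hAB.dB hz J le_rfl
    apply left_ne_zero_of_mul hs.1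
    rw [← hz0, eval_sub, eval_mul, eval_mul, sub_eq_zero]
    rw [← h4, div_eq_div_iff h1 h3] at h2
    rw [h2]
  obtain ⟨γ, hγ, hγW⟩ : ∃ γ : K, γ ≠ 0 ∧ (iter A B d J).2 = C γ * W := by
    have hcop := iter_isCoprime hAB.cop hAB.dA hAB.dB hAB.top J
    have h1 : W ∣ (iter A B d J).2 := by
      refine hUW.cop.symm.dvd_of_dvd_mul_left ?_
      exact ⟨(iter A B d J).1, by rw [hcross]; ring⟩
    have h2 : (iter A B d J).2 ∣ W := by
      refine hcop.symm.dvd_of_dvd_mul_left ?_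
      exact ⟨U, by rw [← hcross]; ring⟩
    obtain ⟨u, hu⟩ := associated_of_dvd_dvd h1 h2
    obtain ⟨γ, hγ, hγu⟩ := Polynomial.isUnit_iff.mp u.isUnit
    exact ⟨γ, hγ.ne_zero, by rw [← hu, ← hγu]; ring⟩
  obtain ⟨c', hc', hU, hW, hr'⟩ := h
  -- step 2: the telescoping sum is constant
  have hT : ∀ z : ℕ → K, Orb A B z J →
      TT d (fun t => HH v d A B (z t)) J = v.o γ + v.o c' := by
    intro z hz
    obtain ⟨h1, h2⟩ := hit z hz
    have h3 := o_iter (v := v) hAB.dA hAB.dB hz J le_rfl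
    have h4 := o_eval_good (v := v) hdJ hUW hc' hU hW (by rw [hr']) h1
    rw [hγW, eval_mul, eval_C, v.mul _ _ hγ h1, h4, h2] at h3
    push_cast at h3
    (clear * - h3; linarith)
  have hnn : ∀ (z : ℕ → K) (n : ℕ), Orb A B z n → ∀ t < n, 0 ≤ HH v d A B (z t) := by
    intro z n hz t ht
    exact HH_nonneg hAB.dA hAB.dB hA hB (hz.ne t ht)
  obtain ⟨A₀, B₀, hdA, hdB, hcA, hcB, hres, hev⟩ := exists_red hv hA hB d
  -- step 3: a generic point
  have hgen : ∃ P : k[X], P ≠ 0 ∧ ∀ c : k, P.eval c ≠ 0 → B.eval (algebraMap k K c) ≠ 0 →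
      HH v d A B (algebraMap k K c) ≤ 0 := by
    have hone : ∀ (y : K) (a : k), a ≠ 0 → v.ge 1 (y - algebraMap k K a) → y ≠ 0 ∧ v.o y = 0 := by
      intro y a ha hy
      have h1 : algebraMap k K a ≠ 0 := by rw [Ne, map_eq_zero]; exact ha
      have h2 := DV.ord_add_of_ge h1 hy (by rw [hv.const a ha]; norm_num)
      rw [add_sub_cancel, hv.const a ha] at h2
      exact h2
    rcases hprim with ⟨i, hi⟩ | ⟨i, hi⟩
    · refine ⟨A₀, ?_, ?_⟩
      · intro h0
        apply hi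
        have := hcA i
        rwa [h0, coeff_zero, map_zero, sub_zero] at this
      · intro c hc hBc
        obtain ⟨h1, -⟩ := hev (algebraMap k K c) c (ge_const hv c) (Or.inl (sub_self _))
        obtain ⟨h2, h3⟩ := hone _ _ hc h1
        unfold HH
        have h4 := neg_ge (v := v) (A.eval (algebraMap k K c) / B.eval (algebraMap k K c))
          (div_ne_zero h2 hBc)
        rw [v.o_div _ _ h2 hBc, h3] at h4
        rw [neg_const hv]
        (clear * - h4; linarith)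
    · refine ⟨B₀, ?_, ?_⟩
      · intro h0
        apply hi
        have := hcB i
        rwa [h0, coeff_zero, map_zero, sub_zero] at this
      · intro c hc hBc
        obtain ⟨-, h1⟩ := hev (algebraMap k K c) c (ge_const hv c) (Or.inl (sub_self _))
        obtain ⟨h2, h3⟩ := hone _ _ hc h1
        unfold HH
        have h4 := neg_nonneg (v := v) (A.eval (algebraMap k K c) / B.eval (algebraMap k K c))
        rw [neg_const hv, h3]
        (clear * - h4; linarith)
  -- step 4: the constant is zero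
  have hκ : v.o γ + v.o c' ≤ 0 := by
    obtain ⟨P, hP, hP'⟩ := hgen
    obtain ⟨s, hs1, hs2⟩ := exists_avoid (k := k) (K := K) (GG_ne_zero hd1 hAB (J + 1)) hP
      (algebraMap k K) (algebraMap k K).injective
    obtain ⟨z, hz0, hz⟩ := exists_orb' hAB hs1
    have hz1 : Orb A B z J := ⟨fun j hj => hz.ne j (by omega), fun j hj => hz.step j (by omega)⟩
    have hz2 : Orb A B (fun j => z (j + 1)) J :=
      ⟨fun j hj => hz.ne (j + 1) (by omega), fun j hj => hz.step (j + 1) (by omega)⟩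
    have h1 := hT z hz1
    have h2 := hT _ hz2
    have h3 := TT_succ d (fun t => HH v d A B (z t)) J
    rw [TT_succ', h1] at h3
    have h4 : HH v d A B (z 0) = 0 := by
      apply le_antisymm
      · rw [hz0]
        apply hP' s hs2
        rw [← hz0]
        exact hz.ne 0 (by omega)
      · exact hnn z (J + 1) hz 0 (by omega)
    have h5 := hnn z (J + 1) hz J (by omega)
    rw [h4, h2] at h3
    have h6 : ((d : ℤ) - 1) * (v.o γ + v.o c') ≤ 0 := by (clear * - h3 h5; linarith)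
    have h7 : (0 : ℤ) < (d : ℤ) - 1 := by
      have : (2 : ℤ) ≤ d := by exact_mod_cast hd
      (clear * - hd; linarith)
    by_contra hcon
    have : 0 < ((d : ℤ) - 1) * (v.o γ + v.o c') := mul_pos h7 (by omega)
    omega
  have hzero : ∀ z : ℕ → K, Orb A B z J → HH v d A B (z 0) ≤ 0 := by
    intro z hz
    have h1 := le_TT d (fun t => HH v d A B (z t)) J hJ fun t ht => hnn z J hz t ht
    rw [hT z hz] at h1
    have h2 : (0 : ℤ) < (d : ℤ) ^ (J - 1) := pow_pos (by exact_mod_cast hd1) _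
    by_contra hcon
    have : 0 < (d : ℤ) ^ (J - 1) * HH v d A B (z 0) := mul_pos h2 (by omega)
    have h3 : (d : ℤ) ^ (J - 1) * HH v d A B (z 0) ≤ v.o γ + v.o c' := h1
    omega
  -- step 5: conclusion
  have hR0 : 0 ≤ v.o (resultant A B d d) := by
    have h1 := ge_resultant (m := d) (n := d) (a := 0) (b := 0) hA hB
    have h2 := DV.ge_le h1 hR
    rw [mul_zero, add_zero] at h2
    exact_mod_cast h2
  by_contra hRne
  have hR1 : 1 ≤ v.o (resultant A B d d) := by omega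
  set τ := resultant A B d d with hτ
  have hτ1 : v.ge 1 τ := by right; exact_mod_cast hR1
  have hres0 : resultant A₀ B₀ d d = 0 := by
    refine res_unique hv (x := τ) hres ?_
    rwa [map_zero, sub_zero]
  by_cases hcop : IsCoprime A₀ B₀
  · -- common zero at infinity
    have htop : A₀.coeff d = 0 ∧ B₀.coeff d = 0 := by
      by_contra hcon
      apply resultant_ne_zero_of_isCoprime hcop (hdA.trans hAB.dA) (hdB.trans hAB.dB) ?_ hd1 hres0
      rw [not_and_or] at hcon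
      rcases hcon with h1 | h1
      · exact Or.inl (le_antisymm (hdA.trans hAB.dA) (le_natDegree_of_ne_zero h1))
      · exact Or.inr (le_antisymm (hdB.trans hAB.dB) (le_natDegree_of_ne_zero h1))
    have hAd : v.ge 1 (A.coeff d) := by
      have := hcA d; rwa [htop.1, map_zero, sub_zero] at this
    have hBd : v.ge 1 (B.coeff d) := by
      have := hcB d; rwa [htop.2, map_zero, sub_zero] at this
    have hφ : Function.Injective fun s : k => (τ * algebraMap k K s)⁻¹ := by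
      intro a b hab
      have h1 := inv_injective hab
      exact (algebraMap k K).injective (mul_left_cancel₀ hR h1)
    obtain ⟨s, hs1, hs2⟩ := exists_avoid (k := k) (K := K) (GG_ne_zero hd1 hAB J) (G₀ := X) X_ne_zero
      _ hφ
    rw [eval_X] at hs2
    obtain ⟨z, hz0, hz⟩ := exists_orb' hAB hs1
    have hs3 : algebraMap k K s ≠ 0 := by rw [Ne, map_eq_zero]; exact hs2
    set t := τ * algebraMap k K s with ht
    have ht0 : t ≠ 0 := mul_ne_zero hR hs3
    have hot : v.o t = v.o τ := by rw [ht, v.mul _ _ hR hs3, hv.const s hs2, add_zero]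
    have hz0' : z 0 = t⁻¹ := hz0
    have hneg : neg v (z 0) = v.o τ := by
      rw [hz0']
      unfold neg
      rw [if_neg (inv_ne_zero ht0), v.o_inv t ht0, neg_neg, hot]
      exact max_eq_right (by omega)
    have hB0 := hz.ne 0 (by omega)
    have hhom : ∀ P : K[X], IntP v P → v.ge 1 (P.coeff d) →
        v.ge 1 (hom d P ((t⁻¹)⁻¹ * t⁻¹) ((t⁻¹)⁻¹ * 1)) := by
      intro P hP hPd
      rw [inv_inv, mul_inv_cancel₀ ht0, mul_one]
      refine DV.ge_sum _ _ fun kl hkl => ?_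
      rw [HasAntidiagonal.mem_antidiagonal] at hkl
      rw [one_pow, mul_one]
      have ht1 : v.ge 1 t := by right; rw [hot]; exact_mod_cast hR1
      rcases Nat.eq_zero_or_pos kl.2 with h0 | h0
      · have h1 : kl.1 = d := by omega
        rw [h0, pow_zero, mul_one, h1]
        exact hPd
      · have h1 := DV.ge_mul (hP kl.1) (DV.ge_pow ht1 kl.2)
        refine DV.ge_mono h1 ?_
        have : (1 : ℝ) ≤ kl.2 := by exact_mod_cast h0
        (clear * - this; linarith)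
    have h1 := HH_ge (v := v) (s := t⁻¹) (c := 1) hAB.dA hAB.dB hB0 (inv_ne_zero ht0)
      (by rw [hneg, v.o_inv t ht0, hot]) (by rw [hz0']; exact hhom A hA hAd)
      (by rw [hz0']; exact hhom B hB hBd)
    have h2 := hzero z hz
    have h3 : (1 : ℤ) ≤ HH v d A B (z 0) := by exact_mod_cast h1
    omega
  · -- a common finite zero
    rw [Polynomial.isCoprime_iff_aeval_ne_zero_of_isAlgClosed k k] at hcop
    push Not at hcop
    obtain ⟨α, hα1, hα2⟩ := hcop
    rw [coe_aeval_eq_eval] at hα1 hα2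
    have hφ : Function.Injective fun s : k => algebraMap k K α + τ * algebraMap k K s := by
      intro a b hab
      have h1 := add_left_cancel hab
      exact (algebraMap k K).injective (mul_left_cancel₀ hR h1)
    obtain ⟨s, hs1, -⟩ := exists_avoid (k := k) (K := K) (GG_ne_zero hd1 hAB J) (G₀ := 1) one_ne_zero
      _ hφ
    obtain ⟨z, hz0, hz⟩ := exists_orb' hAB hs1
    have hzα : v.ge 1 (z 0 - algebraMap k K α) := by
      rw [hz0, add_sub_cancel_left]
      have := DV.ge_mul hτ1 (ge_const hv s)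
      rwa [add_zero] at this
    have hzint : v.ge 0 (z 0) := by
      have h1 := DV.ge_add (DV.ge_mono hzα (by norm_num : (0 : ℝ) ≤ 1)) (ge_const hv α)
      rwa [sub_add_cancel] at h1
    obtain ⟨h1, h2⟩ := hev (z 0) α hzint hzα
    rw [hα1, map_zero, sub_zero] at h1
    rw [hα2, map_zero, sub_zero] at h2
    obtain ⟨s', hs', hos', -, hs''⟩ := exists_prim (v := v) (z 0)
    have hs1 : s' = 1 := hs'' hzint
    have h3 := HH_ge (v := v) (s := s') (c := 1) hAB.dA hAB.dB (hz.ne 0 (by omega)) hs' hos'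
      (by rw [hom_scale hAB.dA, hs1]; simpa using h1) (by rw [hom_scale hAB.dB, hs1]; simpa using h2)
    have h4 := hzero z hz
    have h5 : (1 : ℤ) ≤ HH v d A B (z 0) := by exact_mod_cast h3
    omega

/-- M3 ITERGOOD -/
theorem isGood_of_iterate {k K : Type*} [Field k] [IsAlgClosed k] [Field K] [Algebra k K] (v : DV K)
    (hv : ResK k v) {d J : ℕ} (hd : 2 ≤ d) (hJ : 1 ≤ J) {A B U W : K[X]} (hAB : IsRat A B d)
    (hUW : IsRat U W (d ^ J))
    (hit : ∀ z : ℕ → K, Orb A B z J → W.eval (z 0) ≠ 0 ∧ U.eval (z 0) / W.eval (z 0) = z J)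
    (h : IsGood v (d ^ J) U W) : IsGood v d A B := by
  classical
  have hd1 : 1 ≤ d := by omega
  -- a coefficient of minimal order
  let S : Finset K := ((A.support.image A.coeff) ∪ (B.support.image B.coeff))
  have hSne : S.Nonempty := by
    rcases hAB.top with h1 | h1
    · exact ⟨A.coeff d, mem_union_left _ (mem_image_of_mem _ (mem_support_iff.mpr h1))⟩
    · exact ⟨B.coeff d, mem_union_right _ (mem_image_of_mem _ (mem_support_iff.mpr h1))⟩
  obtain ⟨c, hcS, hcmin⟩ := S.exists_min_image (fun x => v.o x) hSne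
  have hc : c ≠ 0 := by
    rcases mem_union.mp hcS with h1 | h1
    · obtain ⟨i, hi, rfl⟩ := mem_image.mp h1
      exact mem_support_iff.mp hi
    · obtain ⟨i, hi, rfl⟩ := mem_image.mp h1
      exact mem_support_iff.mp hi
  have hA : ∀ i, v.ge (v.o c) (A.coeff i) := by
    intro i
    by_cases hi : A.coeff i = 0
    · exact Or.inl hi
    · right
      exact_mod_cast hcmin _ (mem_union_left _ (mem_image_of_mem _ (mem_support_iff.mpr hi)))
  have hB : ∀ i, v.ge (v.o c) (B.coeff i) := by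
    intro i
    by_cases hi : B.coeff i = 0
    · exact Or.inl hi
    · right
      exact_mod_cast hcmin _ (mem_union_right _ (mem_image_of_mem _ (mem_support_iff.mpr hi)))
  have hR : resultant A B d d ≠ 0 := resultant_ne_zero_of_isRat hd1 hAB
  refine ⟨c, hc, hA, hB, ?_⟩
  have hcu : IsUnit (C c⁻¹ : K[X]) := isUnit_C.mpr (isUnit_iff_ne_zero.mpr (inv_ne_zero hc))
  have hAB' : IsRat (C c⁻¹ * A) (C c⁻¹ * B) d := by
    refine ⟨?_, (natDegree_C_mul_le _ _).trans hAB.dA, (natDegree_C_mul_le _ _).trans hAB.dB, ?_⟩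
    · rw [isCoprime_mul_unit_left_left hcu, isCoprime_mul_unit_left_right hcu]
      exact hAB.cop
    · rw [coeff_C_mul, coeff_C_mul]
      rcases hAB.top with h1 | h1
      · exact Or.inl (mul_ne_zero (inv_ne_zero hc) h1)
      · exact Or.inr (mul_ne_zero (inv_ne_zero hc) h1)
  have horb : ∀ z : ℕ → K, Orb (C c⁻¹ * A) (C c⁻¹ * B) z J → Orb A B z J := by
    intro z hz
    constructor
    · intro j hj h0
      apply hz.ne j hj
      rw [eval_mul, h0, mul_zero]
    · intro j hj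
      rw [hz.step j hj]
      simp only [eval_mul, eval_C]
      exact mul_div_mul_left _ _ (inv_ne_zero hc)
  have hcc : ¬ v.ge 1 (c⁻¹ * c) := by
    rw [inv_mul_cancel₀ hc]
    intro h1
    have := DV.ge_le h1 one_ne_zero
    rw [v.o_one] at this
    norm_num at this
  have hprim : (∃ i, ¬ v.ge 1 ((C c⁻¹ * A).coeff i)) ∨ ∃ i, ¬ v.ge 1 ((C c⁻¹ * B).coeff i) := by
    rcases mem_union.mp hcS with h1 | h1
    · obtain ⟨i, hi, hic⟩ := mem_image.mp h1
      exact Or.inl ⟨i, by rw [coeff_C_mul, hic]; exact hcc⟩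
    · obtain ⟨i, hi, hic⟩ := mem_image.mp h1
      exact Or.inr ⟨i, by rw [coeff_C_mul, hic]; exact hcc⟩
  have h1 := core hv hd hJ hAB' hUW (fun z hz => hit z (horb z hz)) h (intP_scale hc hA)
    (intP_scale hc hB) hprim
  rw [o_resultant_scale hc hR] at h1
  omega

end main

end Pool.Agent.Helper82.PS

end

section

set_option autoImplicit false

open Finset Polynomial

namespace Pool.Agent.Helper33.PS

open Pool.Agent.Helper45.FR Pool.Agent.Helper33.UB Pool.Agent.Helper51.RatTree Pool.Agent.Helper93.RatODE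

theorem isGood_of_iterate {k K : Type*} [Field k] [IsAlgClosed k] [Field K] [Algebra k K] (v : DV K)
    (hv : ResK k v) {d J : ℕ} (hd : 2 ≤ d) (hJ : 1 ≤ J) {A B U W : K[X]} (hAB : IsRat A B d)
    (hUW : IsRat U W (d ^ J))
    (hit : ∀ z : ℕ → K, Orb A B z J → W.eval (z 0) ≠ 0 ∧ U.eval (z 0) / W.eval (z 0) = z J)
    (h : IsGood v (d ^ J) U W) : IsGood v d A B :=
  Pool.Agent.Helper82.PS.isGood_of_iterate v hv hd hJ hAB hUW hit h

end Pool.Agent.Helper33.PS

end

section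

set_option autoImplicit false

open Finset Polynomial

namespace Pool.Agent.Helper33.UB

open TreeDyn

/-- the output of the selection -/
structure Block {k K V : Type} [Field k] [Field K] [Algebra k K]
    [DecidableEq K] {P : PSys k K V} {c : GConst} {N : ℕ} {M : ℝ} (I : GInst P c N M) (κ : ℝ)
    (Fn : ℕ → ℕ) where
  i : ℕ
  J : ℕ
  N' : ℕ
  hJ : 1 ≤ J
  hN' : Fn J ≤ N'
  le : i + N' * J ≤ N
  Hg : Finset V
  Loss : Finset V
  hHg : Hg ⊆ I.T
  hLoss : Loss ⊆ I.T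
  loss : (Loss.card : ℝ) ≤ κ * I.h + I.h / M
  am : c.c0 / 2 * I.h + M / 10 * Hg.card ≤ 2 * (Loss.card + P.E)
  star : ∀ v ∈ I.T, v ∉ Hg → v ∉ Loss →
    (∃ ζ : I.Vx v, ∀ l l', l < l' → l' ≤ N' →
      (I.S v).dir ζ (i + l * J) ≠ (I.S v).dir ζ (i + l' * J)) ∨
    (I.ε v = 0 ∧ ∀ l l', l < l' → l' ≤ N' → I.g v (i + l * J) (i + l' * J) < c.c1)

/-- **Selection.** -/
theorem selection (c : GConst) (M : ℝ) (hMpos : 0 < M) (κ₀ : ℝ) (hκ₀ : 0 < κ₀) (Fn : ℕ → ℕ) :
    ∃ N : ℕ, ∀ {k K V : Type} [Field k] [Field K] [Algebra k K]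
    [DecidableEq K] (P : PSys k K V) (I : GInst P c N M), I.h ≤ 0 ∨ Nonempty (Block I κ₀ Fn) := by
  classical
  have hc0 := c.hc0
  have hC1 := c.hC1
  have hc1 := c.hc1
  have hδ0 := c.hδ0
  set L : ℕ := c.depth M with hLdef
  have hL : 1 ≤ L := c.hdepth M
  set Cr : ℝ := 1 / c.δ0 + c.C1 / c.c1 with hCr
  have hCr0 : 0 < Cr := by
    have : 0 < 1 / c.δ0 := by positivity
    have : 0 < c.C1 / c.c1 := div_pos (by (clear * - hC1; linarith)) hc1
    positivity
  set κ : ℝ := min 1 (κ₀ / (2020 * Cr)) with hκdef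
  have hκ : 0 < κ := lt_min one_pos (by positivity)
  have hκ1 : κ ≤ 1 := min_le_left _ _
  have hκ2 : κ * Cr ≤ κ₀ / 2020 := by
    have : κ ≤ κ₀ / (2020 * Cr) := min_le_right _ _
    calc κ * Cr ≤ κ₀ / (2020 * Cr) * Cr := mul_le_mul_of_nonneg_right this hCr0.le
      _ = κ₀ / 2020 := by field_simp
  obtain ⟨ϑ, J, n0, hϑ, hsc⟩ := exists_scales' c.d L c.hd hL κ hκ hκ1 (Nf' c Fn)
    (fun ϑ J h => Nf'_spec c Fn J h)
  set Kn : ℕ := ⌈((L : ℝ) + 1) / κ⌉₊ + 1 with hKn
  have hKnκ : ((L : ℝ) + 1) ≤ κ * Kn := by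
    have h1 : ((L : ℝ) + 1) / κ ≤ ⌈((L : ℝ) + 1) / κ⌉₊ := Nat.le_ceil _
    have h2 : ((L : ℝ) + 1) / κ ≤ Kn := by rw [hKn]; push_cast; (clear * - h1; linarith)
    rw [div_le_iff₀ hκ] at h2
    (clear * - h2; linarith)
  set need : ℕ → ℕ := fun b =>
    n0 b + ⌈4 * (Nf' c Fn (ϑ b) (J b) * J b + c.mOf (Rf c (ϑ b)) + 2 : ℝ) / κ⌉₊ with hneed
  set n : ℕ := ∑ b ∈ range Kn, need b + 1 with hn
  set Nst : ℕ := ∏ b ∈ range Kn, (Nf' c Fn (ϑ b) (J b)).factorial * J b with hNst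
  have hJ1 : ∀ b, 1 ≤ J b := fun b => (hsc b).1
  have hNst1 : 1 ≤ Nst := by
    apply Nat.one_le_iff_ne_zero.mpr
    rw [hNst, prod_ne_zero_iff]
    intro b _
    have := Nat.factorial_pos (Nf' c Fn (ϑ b) (J b))
    have := hJ1 b
    positivity
  have hn1 : 1 ≤ n := by omega
  refine ⟨n + Nst, ?_⟩
  intro k K V _ _ _ _ P I
  set ρ : ℝ := ((I.rel n Nst).card : ℝ) with hρ
  have hρ0 : 0 ≤ ρ := Nat.cast_nonneg _
  -- choice of the scale
  obtain ⟨b, hb, hunc⟩ : ∃ b ∈ range Kn,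
      ∑ v ∈ I.rel n Nst, (((I.Lv v).unclean n (ϑ (b + 1) * n) (ϑ b * n)).card : ℝ) ≤ κ * n * ρ := by
    by_contra hcon
    push Not at hcon
    have h1 : ∑ b ∈ range Kn, ∑ v ∈ I.rel n Nst,
        (((I.Lv v).unclean n (ϑ (b + 1) * n) (ϑ b * n)).card : ℝ) ≤ ρ * ((L + 1) * n) := by
      rw [sum_comm, hρ, ← nsmul_eq_mul, ← sum_const]
      apply sum_le_sum
      intro v _
      have := sum_unclean (I.Lv v) ϑ (fun b => (hsc b).2.2.1) n Kn
      exact_mod_cast this
    have h2 : ∑ b ∈ range Kn, κ * n * ρ < ∑ b ∈ range Kn, ∑ v ∈ I.rel n Nst,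
        (((I.Lv v).unclean n (ϑ (b + 1) * n) (ϑ b * n)).card : ℝ) :=
      sum_lt_sum_of_nonempty (by rw [nonempty_range_iff]; omega) hcon
    rw [sum_const, card_range, nsmul_eq_mul] at h2
    have h3 : ρ * ((L + 1) * n) ≤ Kn * (κ * n * ρ) := by
      have h4 : 0 ≤ (n : ℝ) * ρ := by (clear * - hκ₀ hδ0 hC1 hc1; positivity)
      have h5 : ((L : ℝ) + 1) * (n * ρ) ≤ κ * Kn * (n * ρ) := mul_le_mul_of_nonneg_right hKnκ h4
      (clear * - h1 h2 h5; linarith)
    (clear * - h1 h2 h3; linarith)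
  rw [mem_range] at hb
  obtain ⟨hJb, hϑ1, hϑ2, hcls⟩ := hsc b
  have hneedb : need b ≤ n := by
    have := single_le_sum (f := need) (fun _ _ => Nat.zero_le _) (mem_range.mpr hb)
    omega
  have hn0b : n0 b ≤ n := by
    have : n0 b ≤ need b := by simp only [hneed]; omega
    omega
  set N' : ℕ := Nf' c Fn (ϑ b) (J b) with hN'
  set R : ℕ := Rf c (ϑ b) with hR
  set m : ℕ := c.mOf R with hm
  have hnb : (N' * J b + m + 2 : ℝ) ≤ κ * n / 4 := by
    have h1 : 4 * (N' * J b + m + 2 : ℝ) / κ ≤ ⌈4 * (N' * J b + m + 2 : ℝ) / κ⌉₊ := Nat.le_ceil _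
    have h2 : ⌈4 * (N' * J b + m + 2 : ℝ) / κ⌉₊ ≤ n := by
      have : ⌈4 * (N' * J b + m + 2 : ℝ) / κ⌉₊ ≤ need b := Nat.le_add_left _ _
      omega
    have h3 : 4 * (N' * J b + m + 2 : ℝ) / κ ≤ n := h1.trans (by exact_mod_cast h2)
    rw [div_le_iff₀ hκ] at h3
    (clear * - h3; linarith)
  have hdvd : ∀ l, 1 ≤ l → l ≤ N' → l * J b ∣ Nst := by
    intro l hl1 hl2
    have h1 : l * J b ∣ (Nf' c Fn (ϑ b) (J b)).factorial * J b :=
      Nat.mul_dvd_mul_right (Nat.dvd_factorial hl1 hl2) _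
    exact h1.trans (dvd_prod_of_mem (fun b => (Nf' c Fn (ϑ b) (J b)).factorial * J b) (mem_range.mpr hb))
  -- the exceptional sets
  have hex := fun v => hcls n hn0b (I.Vx v) (I.Dr v) (I.S v) (I.Lv v)
  choose Bad hBadsub hBadcard hcl using hex
  have hBadsum : ∑ v ∈ I.rel n Nst, ((Bad v).card : ℝ) ≤ 2 * (κ * n * ρ) := by
    have h1 := sum_le_sum (s := I.rel n Nst) fun v _ => hBadcard v
    rw [sum_add_distrib, sum_const, nsmul_eq_mul] at h1
    (clear * - hunc h1; linarith)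
  -- the index
  obtain ⟨i, hi, hgood⟩ := exists_good_index (I.rel n Nst) n N' (J b) m κ hκ hκ1 hnb
    (fun v => (I.Lv v).heavy n (ϑ b * n)) Bad
    (fun v _ => by unfold TreeDyn.Levels.heavy; exact filter_subset _ _) hBadsum
    (fun v _ i hi hb hh => (hcl v i hi hb hh).2)
  obtain ⟨hRs1, hRs2, hRs3⟩ := Rf_spec c (ϑ := ϑ b)
  rw [← hR] at hRs1 hRs2 hRs3
  by_cases hh : I.h ≤ 0
  · exact Or.inl hh
  right
  by_contra hcon
  push Not at hh
  obtain ⟨hT1, Λ1, hΛ1s, hΛ1c, hU1⟩ := hgood i (Or.inl rfl)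
  obtain ⟨hT2, Λ2, hΛ2s, hΛ2c, hU2⟩ := hgood (i + m) (Or.inr rfl)
  -- vanishing of the determinants
  have hrelcard := I.card_rel (n := n) (Nst := Nst) le_rfl hNst1
  rw [← hCr, ← hρ] at hrelcard
  have hdet : ∀ i', i' + N' * J b < n →
      ((((I.rel n Nst).filter fun v => i' ∈ Bad v).card : ℝ) ≤ 20 * (κ * ρ)) →
      ∀ Λ : Finset ℕ, (∀ l ∈ Λ, l ≤ N') →
      (∀ l ∈ Λ, ((((I.rel n Nst).filter fun v => i' ∈ (I.Lv v).heavy n (ϑ b * n) ∧
        i' + l * J b ∉ (I.Lv v).heavy n (ϑ b * n)).card : ℝ) ≤ 200 * (κ * ρ))) →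
      Rel P.D R ((Λ.image fun l => i' + l * J b).image I.x) := by
    intro i' hi' hT' Λ hΛ hU'
    apply dichotomy'
    intro Y hY hYc
    obtain ⟨s, hs, hsY⟩ := subset_image_iff.mp hY
    have hsN : ∀ j ∈ s, ∃ l ≤ N', l ∈ Λ ∧ j = i' + l * J b := by
      intro j hj
      obtain ⟨l, hl, rfl⟩ := mem_image.mp (hs hj)
      exact ⟨l, hΛ l hl, hl, rfl⟩
    have hsle : ∀ j ∈ s, j ≤ n + Nst := by
      intro j hj
      obtain ⟨l, hl, _, rfl⟩ := hsN j hj
      have := Nat.mul_le_mul_right (J b) hl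
      omega
    have hscard : s.card = 2 * (R + 1) := by
      rw [← hsY, card_image_of_injOn (I.injOn hsle)] at hYc
      omega
    rw [← hsY]
    by_contra hdet
    obtain ⟨Hg, Loss, c1, c2, c3, c4, c5⟩ := I.claim1' (M := M) hMpos (n := n) (Nst := Nst) le_rfl (R := R) (N' := N') (J := J b)
      (ϑ := ϑ b) (hϑ b).1 hn1 hRs1 hRs2 hJb hdvd hNst1 Bad
      (fun v i hi hb hh => (hcl v i hi hb hh).1) (i := i') hi' s
      (fun j hj => by
        obtain ⟨l, hl, _, h⟩ := hsN j hj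
        exact ⟨l, hl, h⟩) hscard hdet (20 * (κ * ρ)) (200 * (κ * ρ))
      (by
        intro B hB hB'
        refine le_trans ?_ hT'
        have : B ⊆ (I.rel n Nst).filter fun v => i' ∈ Bad v :=
          fun v hv => mem_filter.mpr ⟨hB hv, hB' v hv⟩
        exact_mod_cast card_le_card this)
      (by
        intro j hj B hB hB'
        obtain ⟨l, hl, hlΛ, rfl⟩ := hsN j hj
        refine le_trans ?_ (hU' l hlΛ)
        have : B ⊆ (I.rel n Nst).filter fun v => i' ∈ (I.Lv v).heavy n (ϑ b * n) ∧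
            i' + l * J b ∉ (I.Lv v).heavy n (ϑ b * n) :=
          fun v hv => mem_filter.mpr ⟨hB hv, hB' v hv⟩
        exact_mod_cast card_le_card this)
    have h2 : κ * ρ ≤ κ₀ / 2020 * I.h := by
      calc κ * ρ ≤ κ * (Cr * I.h) := mul_le_mul_of_nonneg_left hrelcard hκ.le
        _ = κ * Cr * I.h := by ring
        _ ≤ κ₀ / 2020 * I.h := mul_le_mul_of_nonneg_right hκ2 I.h_nonneg
    apply hcon
    exact ⟨i', J b, N', hJb, by rw [hN']; unfold Nf'; omega, by omega, Hg, Loss, c1, c2,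
      by (clear * - c3 h2; linarith), c4, c5⟩
  -- the common set
  set Λ : Finset ℕ := Λ1 ∩ Λ2 with hΛ
  have hΛcard : (8 / 10 * (N' + 1) : ℝ) ≤ Λ.card := by
    have h1 := card_union_add_card_inter Λ1 Λ2
    rw [← hΛ] at h1
    have h2 : (Λ1 ∪ Λ2).card ≤ N' + 1 := by
      have := card_le_card (union_subset hΛ1s hΛ2s)
      rwa [card_range] at this
    have h3 : (Λ1.card : ℝ) + Λ2.card ≤ (N' + 1) + Λ.card := by
      have : Λ1.card + Λ2.card ≤ (N' + 1) + Λ.card := by omega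
      exact_mod_cast this
    (clear * - hΛ1c hΛ2c h3; linarith)
  have hN'R : 2 * (c.nYOf R + 3 * R + 10) ≤ N' := by
    rw [hN', hR]; unfold Nf'; omega
  have hΛcard' : c.nYOf R + 3 * R + 2 ≤ Λ.card := by
    have h1 : ((2 * (c.nYOf R + 3 * R + 10) : ℕ) : ℝ) ≤ N' := by exact_mod_cast hN'R
    have h2 : ((c.nYOf R + 3 * R + 2 : ℕ) : ℝ) ≤ Λ.card := by
      push_cast at h1 ⊢
      have h3 : (0 : ℝ) ≤ c.nYOf R := Nat.cast_nonneg _
      have h4 : (0 : ℝ) ≤ R := Nat.cast_nonneg _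
      (clear * - hΛcard h1; linarith)
    exact_mod_cast h2
  have hΛle : ∀ l ∈ Λ, l ≤ N' := by
    intro l hl
    have := mem_range.mp (hΛ1s (mem_inter.mp hl).1)
    omega
  have hr1 := hdet i (by omega) hT1 Λ hΛle (fun l hl => hU1 l (mem_inter.mp hl).1)
  have hr2 := hdet (i + m) (by omega) hT2 Λ hΛle (fun l hl => hU2 l (mem_inter.mp hl).2)
  set Λs : Finset ℕ := Λ.image fun l => i + l * J b with hΛs
  have hΛscard : Λs.card = Λ.card := by
    rw [hΛs]
    apply card_image_of_injective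
    intro a b' hab
    have : a * J b = b' * J b := by
      have : i + a * J b = i + b' * J b := hab
      omega
    exact Nat.eq_of_mul_eq_mul_right (by omega) this
  have hΛsle : ∀ j ∈ Λs, j + m < n := by
    intro j hj
    obtain ⟨l, hl, rfl⟩ := mem_image.mp hj
    have := Nat.mul_le_mul_right (J b) (hΛle l hl)
    omega
  obtain ⟨Λ', hΛ's, hΛ'c, hstar⟩ := I.ode R Λs (by rw [hΛscard]; omega) (by
      intro j hj
      have := hΛsle j hj
      omega) hr1 (by
      have h1 : ((Λ.image fun l => i + m + l * J b).image I.x) = (Λs.image fun j => I.x (j + m)) := by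
        rw [hΛs, image_image, image_image]
        apply image_congr
        intro l _
        simp only [Function.comp]
        congr 1
        ring
      rw [h1] at hr2
      exact hr2)
  obtain ⟨s, hs, hsc'⟩ := exists_subset_card_eq (s := Λ') (n := 2 * (R + 1)) (by omega)
  have hfin := I.h_le_of_star (R := R) hRs2 hRs3 (s.image fun j => j + m) (by
      intro j hj
      obtain ⟨j', hj', rfl⟩ := mem_image.mp hj
      have := hΛsle j' (hΛ's (hs hj'))
      omega) (by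
      rw [card_image_of_injective _ (fun a b h => Nat.add_right_cancel h), hsc']) (by
      intro v hv
      apply (hstar v hv).mono
      rw [image_image]
      exact image_subset_image hs)
  (clear * - hh hfin; linarith)

end Pool.Agent.Helper33.UB

end

section

set_option autoImplicit false

open Finset Polynomial

namespace Pool.Agent.Helper33.PT

open Pool.Agent.Helper33.UB TreeDyn

variable {k K V : Type} [Field k] [Field K] [Algebra k K] [DecidableEq K] {P : PSys k K V}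
  {c : GConst} {N : ℕ} {M : ℝ} (I : GInst P c N M)

/-- **The inequality on a consecutive window.** -/
theorem claimC (hM : 0 < M) {n Nst : ℕ} (hN : n + Nst ≤ N) (hn : 1 ≤ n) {R : ℕ} {ϑ : ℝ} (hϑ : 0 < ϑ)
    (hRϑ : 5 / ϑ ≤ R + 1) (hR : c.N0 * (c.c0 + c.C1) ≤ (R + 1) * c.c0) (Bad : V → Finset ℕ)
    {i W w a : ℕ} (hia : i ≤ a) (haW : a + w ≤ i + W) (hiW : i + W < n)
    (hdvd : ∀ δ, 1 ≤ δ → δ ≤ w → δ ∣ Nst) (hNst : 1 ≤ Nst) (Ss : ℕ → Finset V)
    (hSs : ∀ s < W, ∀ v ∈ I.rel n Nst, v ∉ Ss s →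
      i + s ∈ Bad v ∨ i + s ∈ (I.Lv v).heavy n (ϑ * n))
    (Y : Finset ℕ) (hY : Y ⊆ Ico a (a + w)) (hcard : Y.card = 2 * (R + 1))
    (hdet : (hankel P.D (Y.image I.x) R).det ≠ 0) (tF tT : ℝ)
    (hF : ∀ B ⊆ I.rel n Nst, (∀ v ∈ B, (∃ s, a ≤ i + s ∧ i + s < a + w ∧ v ∈ Ss s) ∧
      ∀ s, i + s < a → v ∉ Ss s) → (B.card : ℝ) ≤ tF)
    (hT : ∀ j ∈ Y, ∀ B ⊆ I.rel n Nst, (∀ v ∈ B, j ∈ Bad v) → (B.card : ℝ) ≤ tT)
    (Sb : Finset V) (hSb : Sb ⊆ I.T)
    (hstar : ∀ v ∈ I.rel n Nst, v ∉ Sb → ∀ s, i + s < a → v ∈ Ss s → Star (P.pl v) (Y.image I.x)) :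
    ∃ Hg Loss : Finset V, Hg ⊆ I.T ∧ Loss ⊆ I.T ∧ Sb ⊆ Loss ∧
      (Loss.card : ℝ) ≤ I.h / M + tF + 10 * tT + Sb.card ∧
      c.c0 / 2 * I.h + M / 10 * Hg.card ≤ 2 * (Loss.card + P.E) ∧
      ∀ v ∈ I.T, v ∉ Hg → v ∉ Loss →
        (∃ s, i + s < a ∧ v ∈ Ss s) ∨ (v ∉ I.rel n Nst ∧ I.ε v = 0) := by
  classical
  set Θ : ℝ := ϑ * n with hΘ
  have hnr : (1 : ℝ) ≤ n := by exact_mod_cast hn
  have hYn : ∀ j ∈ Y, a ≤ j ∧ j < a + w := fun j hj => mem_Ico.mp (hY hj)
  have hYN : ∀ j ∈ Y, j ≤ N := by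
    intro j hj
    have := hYn j hj
    omega
  set kf : V → ℕ := fun v => (Y.filter fun j => j ∈ Bad v).card with hkf
  set NS : V → Prop := fun v => ∀ s, i + s < a + w → v ∉ Ss s with hNS
  set Hg : Finset V := (I.rel n Nst).filter fun v => NS v ∧ 5 * (kf v : ℝ) ≤ R + 1 with hHg
  set L1 : Finset V := I.T.filter fun v => M ≤ I.ε v with hL1
  set L2 : Finset V := (I.rel n Nst).filter fun v =>
    (∃ s, a ≤ i + s ∧ i + s < a + w ∧ v ∈ Ss s) ∧ ∀ s, i + s < a → v ∉ Ss s with hL2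
  set L3 : Finset V := (I.rel n Nst).filter fun v => NS v ∧ ¬ (5 * (kf v : ℝ) ≤ R + 1) with hL3
  have hrelT : I.rel n Nst ⊆ I.T := by
    unfold GInst.rel; exact filter_subset _ _
  have hLT : L1 ∪ (L2 ∪ (L3 ∪ Sb)) ⊆ I.T := union_subset (filter_subset _ _)
    (union_subset ((filter_subset _ _).trans hrelT) (union_subset ((filter_subset _ _).trans hrelT) hSb))
  have hHT : Hg ⊆ I.T := (filter_subset _ _).trans hrelT
  have hrelM : ∀ v ∈ I.rel n Nst, I.ε v < M := by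
    intro v hv
    unfold GInst.rel at hv
    rcases (mem_filter.mp hv).2 with h | h
    · exact h.2
    · rw [h.1]; exact hM
  have hsep : ∀ v ∈ I.T, v ∉ Hg → v ∉ L1 ∪ (L2 ∪ (L3 ∪ Sb)) →
      v ∉ Sb ∧ ((v ∈ I.rel n Nst ∧ ∃ s, i + s < a ∧ v ∈ Ss s) ∨ (v ∉ I.rel n Nst ∧ I.ε v = 0)) := by
    intro v hv hvH hvL
    rw [mem_union, not_or, mem_union, not_or, mem_union, not_or] at hvL
    obtain ⟨h1, h2, h3, h4⟩ := hvL
    refine ⟨h4, ?_⟩
    by_cases hvr : v ∈ I.rel n Nst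
    · left
      refine ⟨hvr, ?_⟩
      by_contra hno
      push Not at hno
      by_cases hns : NS v
      · by_cases h5 : 5 * (kf v : ℝ) ≤ R + 1
        · exact hvH (mem_filter.mpr ⟨hvr, hns, h5⟩)
        · exact h3 (mem_filter.mpr ⟨hvr, hns, h5⟩)
      · rw [hNS] at hns
        push Not at hns
        obtain ⟨s, hs1, hs2⟩ := hns
        refine h2 (mem_filter.mpr ⟨hvr, ⟨s, ?_, hs1, hs2⟩, hno⟩)
        by_contra hlt
        exact hno s (by omega) hs2
    · right
      refine ⟨hvr, ?_⟩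
      rcases (I.ε_nonneg v hv).lt_or_eq with h | h
      · exfalso
        apply hvr
        unfold GInst.rel
        refine mem_filter.mpr ⟨hv, Or.inl ⟨h, ?_⟩⟩
        by_contra hM'
        push Not at hM'
        exact h1 (mem_filter.mpr ⟨hv, hM'⟩)
      · exact h.symm
  have hlossb : ((L1 ∪ (L2 ∪ (L3 ∪ Sb))).card : ℝ) ≤ I.h / M + tF + 10 * tT + Sb.card := by
    have h1 := I.card_bad hM L1 (filter_subset _ _) (fun v hv => (mem_filter.mp hv).2)
    have h2 := hF L2 (filter_subset _ _) (fun v hv => (mem_filter.mp hv).2)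
    have h3 : (L3.card : ℝ) ≤ 10 * tT := by
      have hRr : (0 : ℝ) ≤ R := Nat.cast_nonneg R
      have e1 : (L3.card : ℝ) * (R + 1) ≤ ∑ v ∈ L3, 5 * (kf v : ℝ) := by
        rw [← nsmul_eq_mul, ← sum_const]
        apply sum_le_sum
        intro v hv
        have := (mem_filter.mp hv).2.2
        push Not at this
        exact this.le
      have e2 : ∑ v ∈ L3, (kf v : ℝ) = ∑ j ∈ Y, ((L3.filter fun v => j ∈ Bad v).card : ℝ) := by
        have : ∑ v ∈ L3, kf v = ∑ j ∈ Y, (L3.filter fun v => j ∈ Bad v).card := by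
          simp only [hkf, card_filter]
          exact sum_comm
        exact_mod_cast this
      have e3 : ∑ j ∈ Y, ((L3.filter fun v => j ∈ Bad v).card : ℝ) ≤ ∑ j ∈ Y, tT := by
        apply sum_le_sum
        intro j hj
        apply hT j hj _ ((filter_subset _ _).trans (filter_subset _ _))
        intro v hv
        exact (mem_filter.mp hv).2
      rw [sum_const, hcard, nsmul_eq_mul] at e3
      push_cast at e3
      rw [← mul_sum, e2] at e1
      have e4 : (L3.card : ℝ) * (R + 1) ≤ (10 * tT) * (R + 1) := by (clear * - e1 e3; linarith)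
      exact le_of_mul_le_mul_right e4 (by (clear * -; linarith))
    have h4 : (((L1 ∪ (L2 ∪ (L3 ∪ Sb))).card : ℕ) : ℝ) ≤ L1.card + (L2.card + (L3.card + Sb.card)) := by
      have h5 := (card_union_le L1 (L2 ∪ (L3 ∪ Sb)))
      have h6 := card_union_le L2 (L3 ∪ Sb)
      have h7 := card_union_le L3 Sb
      exact_mod_cast (by omega : (L1 ∪ (L2 ∪ (L3 ∪ Sb))).card ≤ L1.card + (L2.card + (L3.card + Sb.card)))
    (clear * - h1 h2 h3 h4; linarith)
  have hmain := I.main_ineq' hR hM.le Y hYN hcard hdet Hg (L1 ∪ (L2 ∪ (L3 ∪ Sb))) hHT ?_ ?_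
  · refine ⟨Hg, L1 ∪ (L2 ∪ (L3 ∪ Sb)), hHT, hLT, ?_, hlossb, hmain, ?_⟩
    · intro v hv
      exact mem_union_right _ (mem_union_right _ (mem_union_right _ hv))
    · intro v hv hvH hvL
      rcases (hsep v hv hvH hvL).2 with h | h
      · exact Or.inl h.2
      · exact Or.inr h
  · -- stars elsewhere
    intro v hv hvH hvL
    obtain ⟨hvSb, ⟨hvr, s, hs1, hs2⟩ | ⟨hvr, hε0⟩⟩ := hsep v hv hvH hvL
    · exact hstar v hvr hvSb s hs1 hs2
    · by_contra hst
      obtain ⟨b, hb, b', hb', hbb, hclose⟩ := I.good v hv hε0 Y hYN hst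
      apply hvr
      unfold GInst.rel
      refine mem_filter.mpr ⟨hv, Or.inr ⟨hε0, ?_⟩⟩
      have hb1 := hYn b hb
      have hb2 := hYn b' hb'
      set m := b' - b with hm
      have hm1 : 1 ≤ m := by omega
      have hbm : b' = b + m := by omega
      obtain ⟨q, hq⟩ := hdvd m hm1 (by omega)
      have hq1 : 1 ≤ q := by
        rcases Nat.eq_zero_or_pos q with h | h
        · rw [h, mul_zero] at hq; omega
        · exact h
      rw [hbm] at hclose
      have h1 := I.persist_mul hv hε0 hm1 hclose (n := n) (by omega) q hq1 (by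
        rw [mul_comm q m, ← hq]; exact hN)
      rwa [mul_comm q m, ← hq] at h1
  · -- heavy places
    intro v hv
    rw [hHg, mem_filter] at hv
    obtain ⟨hvr, hns, h5⟩ := hv
    refine ⟨hrelM v hvr, kf v + ⌊1 / ϑ⌋₊, ?_, ?_⟩
    · push_cast
      have h1 : (⌊1 / ϑ⌋₊ : ℝ) ≤ 1 / ϑ := Nat.floor_le (by positivity)
      have h2 : 5 / ϑ = 5 * (1 / ϑ) := by ring
      rw [h2] at hRϑ
      (clear * - hRϑ h5 h1; linarith)
    · intro s' hs' hs'card
      set s2 := s'.filter fun j => j ∉ Bad v with hs2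
      have h1 := card_filter_add_card_filter_not (s := s') (fun j => j ∈ Bad v)
      have h2 : (s'.filter fun j => j ∈ Bad v).card ≤ kf v :=
        card_le_card (filter_subset_filter _ hs')
      have h3 : ⌊1 / ϑ⌋₊ < s2.card := by
        have : (s'.filter fun j => ¬ j ∈ Bad v).card = s2.card := rfl
        omega
      have h4 : 1 / ϑ < s2.card := (Nat.floor_lt (by positivity)).mp h3
      rw [div_lt_iff₀ hϑ] at h4
      obtain ⟨b, hb, b', hb', hab, hdir⟩ := exists_deep_pair (I.Lv v) (c.hdepth M) (n := n) (Θ := Θ) s2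
        (fun j hj => by
          have hj1 := (mem_filter.mp hj).1
          have hj2 := (mem_filter.mp hj).2
          have hj3 := hYn j (hs' hj1)
          have hj4 := hSs (j - i) (by omega) v hvr (hns (j - i) (by omega))
          rw [show i + (j - i) = j by omega] at hj4
          exact hj4.resolve_left hj2) (by
          rw [hΘ]
          (clear * - h4 hnr; nlinarith))
      have ha' := (mem_filter.mp hb).1
      have hb'' := (mem_filter.mp hb').1
      exact ⟨b, ha', b', hb'', hab, I.deep v (hrelT hvr) (hrelM v hvr) b b' (hYN b (hs' ha'))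
        (hYN b' (hs' hb'')) hab hdir⟩

end Pool.Agent.Helper33.PT

end

section

set_option autoImplicit false

open Finset Polynomial

namespace Pool.Agent.Helper33.PT

open Pool.Agent.Helper33.UB TreeDyn

/-- the output of the selection -/
structure BlockC {k K V : Type} [Field k] [Field K] [Algebra k K]
    [DecidableEq K] {P : PSys k K V} {c : GConst} {N : ℕ} {M : ℝ} (I : GInst P c N M) (κ₀ : ℝ)
    (wf : ℕ → ℕ) (Fn : ℕ → ℕ → ℕ) where
  n : ℕ
  Nst : ℕ
  hn : 1 ≤ n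
  hNst : 1 ≤ Nst
  hN : n + Nst ≤ N
  R : ℕ
  W : ℕ
  J : ℕ
  N' : ℕ
  i : ℕ
  a : ℕ
  hR2 : c.N0 * (c.c0 + c.C1) ≤ (R + 1) * c.c0
  hR3 : 1 ≤ R
  hJ : 1 ≤ J
  hN' : Fn W J ≤ N'
  hia : i ≤ a
  haW : a + wf R ≤ i + W
  hi : i + W + N' * J < n
  Ss : ℕ → Finset V
  Ss_sub : ∀ s, Ss s ⊆ I.rel n Nst
  Ss_star : ∀ s < W, ∀ v ∈ Ss s, ∃ ζ : I.Vx v, ∀ l l', l < l' → l' ≤ N' →
    (I.S v).dir ζ (i + s + l * J) ≠ (I.S v).dir ζ (i + s + l' * J)
  dvd : ∀ δ, 1 ≤ δ → δ ≤ W + N' * J → δ ∣ Nst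
  Λ : Finset ℕ
  hΛ : Λ ⊆ Ico a (a + wf R)
  hΛc : 9 * wf R ≤ 10 * Λ.card
  am : ∀ Y ⊆ Λ, Y.card = 2 * (R + 1) → (hankel P.D (Y.image I.x) R).det ≠ 0 → ∀ Sb ⊆ I.T,
    (∀ v ∈ I.rel n Nst, v ∉ Sb → ∀ s, i + s < a → v ∈ Ss s → Star (P.pl v) (Y.image I.x)) →
    ∃ Hg Loss : Finset V, Hg ⊆ I.T ∧ Loss ⊆ I.T ∧ Sb ⊆ Loss ∧
      (Loss.card : ℝ) ≤ κ₀ * I.h + I.h / M + Sb.card ∧
      c.c0 / 2 * I.h + M / 10 * Hg.card ≤ 2 * (Loss.card + P.E) ∧
      ∀ v ∈ I.T, v ∉ Hg → v ∉ Loss →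
        (∃ s, i + s < a ∧ v ∈ Ss s) ∨ (v ∉ I.rel n Nst ∧ I.ε v = 0)

end Pool.Agent.Helper33.PT

end

section

set_option autoImplicit false

open Finset Polynomial

namespace Pool.Agent.Helper33.PT

open Pool.Agent.Helper33.UB TreeDyn

/-- **Selection of a consecutive window.** -/
theorem selC (c : GConst) (M : ℝ) (hMpos : 0 < M) (κ₀ : ℝ) (hκ₀ : 0 < κ₀) (wf : ℕ → ℕ)
    (hwf : ∀ R, 1 ≤ wf R) (Fn : ℕ → ℕ → ℕ) :
    ∃ N : ℕ, ∀ {k K V : Type} [Field k] [Field K] [Algebra k K]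
    [DecidableEq K] (P : PSys k K V) (I : GInst P (noOde c N) N M), Nonempty (BlockC I κ₀ wf Fn) := by
  classical
  have hc0 := c.hc0
  have hC1 := c.hC1
  have hc1 := c.hc1
  have hδ0 := c.hδ0
  set L : ℕ := c.depth M with hLdef
  have hL : 1 ≤ L := c.hdepth M
  set Cr : ℝ := 1 / c.δ0 + c.C1 / c.c1 with hCr
  have hCr0 : 0 < Cr := by
    have : 0 < 1 / c.δ0 := by positivity
    have : 0 < c.C1 / c.c1 := div_pos (by (clear * - hC1; linarith)) hc1
    (clear * - hδ0 hC1 hc1; positivity)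
  set κ : ℝ := min 1 (κ₀ / (1600 * Cr)) with hκdef
  have hκ : 0 < κ := lt_min one_pos (by positivity)
  have hκ1 : κ ≤ 1 := min_le_left _ _
  have hκ2 : κ * Cr ≤ κ₀ / 1600 := by
    have : κ ≤ κ₀ / (1600 * Cr) := min_le_right _ _
    calc κ * Cr ≤ κ₀ / (1600 * Cr) * Cr := mul_le_mul_of_nonneg_right this hCr0.le
      _ = κ₀ / 1600 := by field_simp
  set Q : ℕ := Qf c κ₀ with hQdef
  have hQ1 : 1 ≤ Q := by rw [hQdef]; unfold Qf; omega
  have hQ2 : 4 * Cr ≤ κ₀ * Q := by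
    have h1 : 4 * Cr / κ₀ ≤ ⌈4 * Cr / κ₀⌉₊ := Nat.le_ceil _
    have h2 : 4 * Cr / κ₀ ≤ Q := by
      rw [hQdef]; unfold Qf; rw [← hCr]; push_cast; (clear * - h1; linarith)
    rw [div_le_iff₀ hκ₀] at h2
    (clear * - h2; linarith)
  obtain ⟨ϑ, J, n0, hϑ, hsc⟩ := exists_scales' c.d L c.hd hL κ hκ hκ1 (NfC c κ₀ wf Fn)
    (fun ϑ J h => NfC_spec c κ₀ wf Fn J h)
  set Kn : ℕ := ⌈((L : ℝ) + 1) / κ⌉₊ + 1 with hKn
  have hKnκ : ((L : ℝ) + 1) ≤ κ * Kn := by
    have h1 : ((L : ℝ) + 1) / κ ≤ ⌈((L : ℝ) + 1) / κ⌉₊ := Nat.le_ceil _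
    have h2 : ((L : ℝ) + 1) / κ ≤ Kn := by rw [hKn]; push_cast; (clear * - h1; linarith)
    rw [div_le_iff₀ hκ] at h2
    (clear * - h2; linarith)
  set Nb : ℕ → ℕ := fun b => NfC c κ₀ wf Fn (ϑ b) (J b) with hNb
  set Wb : ℕ → ℕ := fun b => Q * wf (Rf c (ϑ b)) with hWb
  set need : ℕ → ℕ := fun b => n0 b + 2 * (Wb b + Nb b * J b + 1) with hneed
  set n : ℕ := ∑ b ∈ range Kn, need b + 1 with hn
  set Nst : ℕ := ∏ b ∈ range Kn, (Wb b + Nb b * J b).factorial with hNst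
  have hNst1 : 1 ≤ Nst := by
    apply Nat.one_le_iff_ne_zero.mpr
    rw [hNst, prod_ne_zero_iff]
    intro b _
    exact (Nat.factorial_pos _).ne'
  have hn1 : 1 ≤ n := by omega
  refine ⟨n + Nst, ?_⟩
  intro k K V _ _ _ _ P I
  set ρ : ℝ := ((I.rel n Nst).card : ℝ) with hρ
  have hρ0 : 0 ≤ ρ := Nat.cast_nonneg _
  -- choice of the scale
  obtain ⟨b, hb, hunc⟩ : ∃ b ∈ range Kn,
      ∑ v ∈ I.rel n Nst, (((I.Lv v).unclean n (ϑ (b + 1) * n) (ϑ b * n)).card : ℝ) ≤ κ * n * ρ := by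
    by_contra hcon
    push Not at hcon
    have h1 : ∑ b ∈ range Kn, ∑ v ∈ I.rel n Nst,
        (((I.Lv v).unclean n (ϑ (b + 1) * n) (ϑ b * n)).card : ℝ) ≤ ρ * ((L + 1) * n) := by
      rw [sum_comm, hρ, ← nsmul_eq_mul, ← sum_const]
      apply sum_le_sum
      intro v _
      have := sum_unclean (I.Lv v) ϑ (fun b => (hsc b).2.2.1) n Kn
      exact_mod_cast this
    have h2 : ∑ b ∈ range Kn, κ * n * ρ < ∑ b ∈ range Kn, ∑ v ∈ I.rel n Nst,
        (((I.Lv v).unclean n (ϑ (b + 1) * n) (ϑ b * n)).card : ℝ) :=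
      sum_lt_sum_of_nonempty (by rw [nonempty_range_iff]; omega) hcon
    rw [sum_const, card_range, nsmul_eq_mul] at h2
    have h3 : ρ * ((L + 1) * n) ≤ Kn * (κ * n * ρ) := by
      have h4 : 0 ≤ (n : ℝ) * ρ := by (clear * - hQ1; positivity)
      have h5 : ((L : ℝ) + 1) * (n * ρ) ≤ κ * Kn * (n * ρ) := mul_le_mul_of_nonneg_right hKnκ h4
      (clear * - h1 h2 h5; linarith)
    (clear * - h1 h2 h3; linarith)
  rw [mem_range] at hb
  obtain ⟨hJb, hϑ1, hϑ2, hcls⟩ := hsc b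
  have hneedb : need b ≤ ∑ b ∈ range Kn, need b :=
    single_le_sum (f := need) (fun _ _ => Nat.zero_le _) (mem_range.mpr hb)
  have hneedb' : need b = n0 b + 2 * (Wb b + Nb b * J b + 1) := rfl
  have hn0b : n0 b ≤ n := by omega
  set N' : ℕ := Nb b with hN'
  set R : ℕ := Rf c (ϑ b) with hR
  set w : ℕ := wf R with hw
  have hw1 : 1 ≤ w := hwf R
  set W : ℕ := Wb b with hW
  have hWeq : W = Q * w := rfl
  have hN'eq : N' = Fn W (J b) + ⌈1 / ϑ b⌉₊ + 1 := rfl
  have hdvd : ∀ δ, 1 ≤ δ → δ ≤ W + N' * J b → δ ∣ Nst := by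
    intro δ h1 h2
    exact (Nat.dvd_factorial h1 h2).trans
      (dvd_prod_of_mem (fun b => (Wb b + Nb b * J b).factorial) (mem_range.mpr hb))
  -- the exceptional sets
  have hex := fun v => hcls n hn0b (I.Vx v) (I.Dr v) (I.S v) (I.Lv v)
  choose Bad hBadsub hBadcard hcl using hex
  have hBadcard' : ∀ v, ((Bad v).card : ℝ) ≤
      (((I.Lv v).unclean n (ϑ (b + 1) * n) (ϑ b * n)).card : ℝ) + κ * n := fun v => hBadcard v
  have hBadsum : ∑ v ∈ I.rel n Nst, ((Bad v).card : ℝ) ≤ 2 * (κ * n * ρ) := by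
    have h1 := sum_le_sum (s := I.rel n Nst) fun v _ => hBadcard' v
    rw [sum_add_distrib, sum_const, nsmul_eq_mul] at h1
    (clear * - hunc h1; linarith)
  set bf : ℕ → ℝ := fun j => (((I.rel n Nst).filter fun v => j ∈ Bad v).card : ℝ) with hbf
  have hbf0 : ∀ j, 0 ≤ bf j := fun j => Nat.cast_nonneg _
  have hbfsum : ∑ j ∈ range n, bf j ≤ 2 * (κ * ρ) * n := by
    have h1 := sum_card_swap (I.rel n Nst) (range n) (fun j v => j ∈ Bad v)
    have h2 : ∑ v ∈ I.rel n Nst, (((range n).filter fun i => i ∈ Bad v).card : ℝ) ≤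
        ∑ v ∈ I.rel n Nst, ((Bad v).card : ℝ) := by
      apply sum_le_sum
      intro v _
      exact_mod_cast card_le_card (fun j hj => (mem_filter.mp hj).2)
    rw [← h1] at h2
    calc ∑ j ∈ range n, bf j ≤ ∑ v ∈ I.rel n Nst, ((Bad v).card : ℝ) := h2
      _ ≤ 2 * (κ * n * ρ) := hBadsum
      _ = 2 * (κ * ρ) * n := by ring
  set n1 : ℕ := n - (W + N' * J b + 1) with hn1def
  obtain ⟨i, hi, hisum⟩ := exists_start bf n W n1 (κ * ρ) (by (clear * - hκ₀ hδ0 hC1 hc1; positivity)) hbf0 hbfsum (by omega)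
    (by (clear * - hneedb hneedb' hWeq; omega)) (by omega)
  set Ss : ℕ → Finset V := fun s => (I.rel n Nst).filter fun v =>
    i + s ∉ Bad v ∧ i + s ∉ (I.Lv v).heavy n (ϑ b * n) with hSs
  obtain ⟨q, hq, hqB, hqF⟩ := exists_window (I.rel n Nst) bf i w Q κ hκ hbf0 hw1 hQ1 (by
    rw [← hWeq]; exact hisum) Ss
  set a : ℕ := i + q * w with ha
  have haW : a + w ≤ i + W := by
    have : (q + 1) * w ≤ Q * w := Nat.mul_le_mul_right _ hq
    rw [Nat.add_mul, one_mul] at this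
    omega
  obtain ⟨hRs1, hRs2, hRs3⟩ := Rf_spec c (ϑ := ϑ b)
  rw [← hR] at hRs1 hRs2 hRs3
  have hrelcard := I.card_rel (n := n) (Nst := Nst) le_rfl hNst1
  have hrelcard' : ρ ≤ Cr * I.h := hrelcard
  -- the dense set of good indices
  set Λ : Finset ℕ := (Ico a (a + w)).filter fun j => ¬ (80 * (κ * ρ) < bf j) with hΛ
  have hΛc : 9 * w ≤ 10 * Λ.card := by
    have hmk := markov (Ico a (a + w)) bf (fun j _ => hbf0 j) (B := 8 * (w : ℝ)) (t := κ * ρ)
      (by (clear * - hκ₀ hδ0 hC1 hc1; positivity)) (by (clear * - hqB; linarith)) (by (clear * - hw1; positivity)) 80 (by norm_num)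
    have h1 := card_filter_add_card_filter_not (s := Ico a (a + w)) (fun j => 80 * (κ * ρ) < bf j)
    rw [Nat.card_Ico, Nat.add_sub_cancel_left] at h1
    have h2 : (((Ico a (a + w)).filter fun j => 80 * (κ * ρ) < bf j).card : ℝ) + Λ.card = w := by
      exact_mod_cast h1
    have h3 : (9 * w : ℝ) ≤ 10 * Λ.card := by (clear * - hmk h2; linarith)
    exact_mod_cast h3
  refine ⟨⟨n, Nst, hn1, hNst1, le_rfl, R, W, J b, N', i, a, hRs2, hRs3, hJb, by rw [hN'eq]; omega,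
    by omega, haW, by omega, Ss, fun s => filter_subset _ _, ?_, hdvd, Λ, filter_subset _ _, hΛc, ?_⟩⟩
  · intro s hs v hv
    obtain ⟨-, h1, h2⟩ := mem_filter.mp hv
    exact (hcl v (i + s) (by omega) h1 h2).1
  · intro Y hY hYc hdet Sb hSb hstar
    obtain ⟨Hg, Loss, e1, e2, e3, e4, e5, e6⟩ := claimC I hMpos (n := n) (Nst := Nst) le_rfl hn1
      (R := R) (ϑ := ϑ b) (hϑ b).1 hRs1 hRs2 Bad (i := i) (W := W) (w := w) (a := a) (by omega) haW
      (by omega) (fun δ h1 h2 => hdvd δ h1 (by omega)) hNst1 Ss (by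
        intro s hs v hv hvs
        by_contra hno
        push Not at hno
        exact hvs (mem_filter.mpr ⟨hv, hno⟩)) Y (hY.trans (filter_subset _ _)) hYc hdet
      (2 * (I.rel n Nst).card / Q) (80 * (κ * ρ)) hqF (by
        intro j hj B hB hB'
        have h1 := (mem_filter.mp (hY hj)).2
        push Not at h1
        refine le_trans ?_ h1
        have h2 : (B.card : ℝ) ≤ (((I.rel n Nst).filter fun v => j ∈ Bad v).card : ℝ) := by
          exact_mod_cast card_le_card (fun v hv => mem_filter.mpr ⟨hB hv, hB' v hv⟩ :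
            B ⊆ (I.rel n Nst).filter fun v => j ∈ Bad v)
        exact h2) Sb hSb hstar
    refine ⟨Hg, Loss, e1, e2, e3, ?_, e5, e6⟩
    refine e4.trans ?_
    have hh := I.h_nonneg
    have h1 : 2 * ρ / Q ≤ κ₀ / 2 * I.h := by
      have hQr : (0 : ℝ) < Q := by exact_mod_cast hQ1
      rw [div_le_iff₀ hQr]
      have h2 : 2 * ρ ≤ 2 * (Cr * I.h) := by (clear * - hrelcard'; linarith)
      have h3 : 4 * Cr * I.h ≤ κ₀ * Q * I.h := mul_le_mul_of_nonneg_right hQ2 hh
      (clear * - hrelcard' h3; linarith)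
    have h2 : 10 * (80 * (κ * ρ)) ≤ κ₀ / 2 * I.h := by
      have h3 : κ * ρ ≤ κ * (Cr * I.h) := mul_le_mul_of_nonneg_left hrelcard' hκ.le
      have h4 : κ * Cr * I.h ≤ κ₀ / 1600 * I.h := mul_le_mul_of_nonneg_right hκ2 hh
      (clear * - h3 h4; linarith)
    (clear * - h1 h2; linarith)

end Pool.Agent.Helper33.PT

end
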