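import Pool.Agent.Helper23.MB.L01_ab0
import Pool.Agent.Helper23.MB.L01_ab10
import Pool.Agent.Helper23.MB.L01_ab2
import Pool.Agent.Helper23.MB.L01_ab3
import Pool.Agent.Helper23.MB.L01_ab4
import Pool.Agent.Helper23.MB.L01_ab6
import Pool.Agent.Helper23.MB.L01_ab7
import Pool.Agent.Helper23.MB.L01_ab9

/-!
Parts of Helper31.RRK.Frob, Helper98.PS.M2, Helper36.S5.Descent, Helper36.S5.Core, Helper36.PS.Rigidity, Helper33.PS.Mods
-/

attribute [-simp] Valuation.IsUniformizer.val
attribute [local instance 5000]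
  Pool.Agent.Helper23.MB.Inst.rCharZero Pool.Agent.Helper23.MB.Inst.rALM
  Pool.Agent.Helper23.MB.Inst.rARM Pool.Agent.Helper23.MB.Inst.rALSM
  Pool.Agent.Helper23.MB.Inst.rARSM Pool.Agent.Helper23.MB.Inst.rARRLE
  Pool.Agent.Helper23.MB.Inst.rALRLE Pool.Agent.Helper23.MB.Inst.rARRLT
  Pool.Agent.Helper23.MB.Inst.rALRLT Pool.Agent.Helper23.MB.Inst.rPMRLT
  Pool.Agent.Helper23.MB.Inst.rMPRLT Pool.Agent.Helper23.MB.Inst.rPMM
  Pool.Agent.Helper23.MB.Inst.rMPM Pool.Agent.Helper23.MB.Inst.rPMSM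
  Pool.Agent.Helper23.MB.Inst.rMPSM Pool.Agent.Helper23.MB.Inst.rEAOL
  Pool.Agent.Helper23.MB.Inst.rIOR Pool.Agent.Helper23.MB.Inst.rISOR
  Pool.Agent.Helper23.MB.Inst.rNZD Pool.Agent.Helper23.MB.Inst.zCharZero
  Pool.Agent.Helper23.MB.Inst.zALM Pool.Agent.Helper23.MB.Inst.zARM
  Pool.Agent.Helper23.MB.Inst.zIOR Pool.Agent.Helper23.MB.Inst.zISOR
  Pool.Agent.Helper23.MB.Inst.zNZD Pool.Agent.Helper23.MB.Inst.qCharZero
  Pool.Agent.Helper23.MB.Inst.free Pool.Agent.Helper23.MB.Inst.faith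
  Pool.Agent.Helper23.MB.Inst.torsionFree Pool.Agent.Helper23.MB.Inst.rfFaith
  Pool.Agent.Helper23.MB.Inst.hAdd Pool.Agent.Helper23.MB.Inst.hAddM
  Pool.Agent.Helper23.MB.Inst.hMul Pool.Agent.Helper23.MB.Inst.hMon
  Pool.Agent.Helper23.MB.Inst.hZero Pool.Agent.Helper23.MB.Inst.hOne
  Pool.Agent.Helper23.MB.Inst.hMZ Pool.Agent.Helper23.MB.Inst.hRing
  Pool.Agent.Helper23.MB.Inst.aAdd Pool.Agent.Helper23.MB.Inst.aAddM
  Pool.Agent.Helper23.MB.Inst.aMul Pool.Agent.Helper23.MB.Inst.aMon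
  Pool.Agent.Helper23.MB.Inst.aZero Pool.Agent.Helper23.MB.Inst.aOne
  Pool.Agent.Helper23.MB.Inst.aMZ Pool.Agent.Helper23.MB.Inst.aRing

namespace Pool.Agent.Helper16
end Pool.Agent.Helper16
namespace Pool.Agent.Helper33
end Pool.Agent.Helper33
namespace Pool.Agent.Helper33.PS
end Pool.Agent.Helper33.PS
namespace Pool.Agent.Helper33.UB
end Pool.Agent.Helper33.UB
namespace Pool.Agent.Helper36.S5
end Pool.Agent.Helper36.S5
namespace Pool.Agent.Helper45.FF
end Pool.Agent.Helper45.FF
namespace Pool.Agent.Helper45.FR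
end Pool.Agent.Helper45.FR
namespace Pool.Agent.Helper45.S4
end Pool.Agent.Helper45.S4
namespace Pool.Agent.Helper47.RR
end Pool.Agent.Helper47.RR
namespace Pool.Agent.Helper51.RatTree
end Pool.Agent.Helper51.RatTree
namespace Pool.Agent.Helper55.RD
end Pool.Agent.Helper55.RD
namespace Pool.Agent.Helper93.RatODE
end Pool.Agent.Helper93.RatODE

section

set_option autoImplicit false

set_option linter.style.haveILetI false

namespace Pool.Agent.Helper31.RRK

open Polynomial IntermediateField Pool.Agent.Helper16 Pool.Agent.Helper33 Pool.Agent.Helper45.FF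

open Pool.Agent.Helper45.S4 Pool.Agent.Helper47.RR

section frob

variable {k L : Type} [Field k] [Field L] [Algebra k L]

/-- The genus of `E` when `L / E` is purely inseparable. -/
theorem genus_eq_of_isPurelyInseparable [IsAlgClosed k] (hN : IsFunctionField k L)
    (E : IntermediateField k L) [FiniteDimensional E L] [IsPurelyInseparable E L] :
    genus k E = genus k L := by
  obtain ⟨p, hp⟩ := ExpChar.exists k
  haveI : ExpChar L p := expChar_of_injective_algebraMap (algebraMap k L).injective p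
  obtain ⟨m, rfl, -⟩ := exists_eq_powField hN p E
  exact (genus_powField p m).symm

end frob

end Pool.Agent.Helper31.RRK

end

section

set_option autoImplicit false

open Finset Polynomial

namespace Pool.Agent.Helper98.PS

open Pool.Agent.Helper33 Pool.Agent.Helper33.PS Pool.Agent.Helper93.RatODE Pool.Agent.Helper55.RD

variable {K : Type*} [Field K]

section anyplace

lemma neg_of_ge {v : DV K} {x : K} (h : v.ge 0 x) : neg v x = 0 := by
  unfold neg
  split_ifs with h0
  · rfl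
  · have h1 := DV.ge_le h h0
    have h2 : 0 ≤ v.o x := by exact_mod_cast h1
    omega

lemma ge_det_Mz (v : DV K) (z : ℕ → K) (δ k : ℕ) :
    v.ge (∑ l : Fin (δ ^ k), ∑ t : Fin k, -(((δ - 1 : ℕ) : ℝ) * neg v (z (l + t))))
      (Mz z δ k).det := by
  rw [← Matrix.det_transpose]
  refine ge_det _ _ fun c l => ?_
  rw [Matrix.transpose_apply, Mz, Matrix.of_apply]
  refine ge_prod _ _ _ fun t _ => ge_neg_pow v _ ?_
  have := ((finFunctionFinEquiv.symm c : Fin k → Fin δ) t).2
  omega

end anyplace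

section scaling

/-- the local estimate -/
lemma local_bound' {v : DV K} {A B : K[X]} {δ k n : ℕ} {z : ℕ → K} (hδ : 2 ≤ δ)
    (hAB : IsRat A B δ) (hz : Orb A B z n) (hn : δ ^ k + k ≤ n + 1)
    (hint : ∀ i ≤ n, v.ge 0 (z i)) (hne : ∀ i ≤ n, ∀ j ≤ n, z i = z j → i = j)
    (hdiff : ∀ i ≤ n, ∀ j ≤ n, i ≠ j → v.o (z i - z j) = 0)
    (hbad : ¬ IsGood v δ A B) (hr : δ * δ ^ k ≤ rexp δ k) :
    (rexp δ k : ℤ) - δ * δ ^ k ≤ v.o (Mz z δ k).det := by
  have hres := isRat_res_ne_zero (by omega) hAB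
  obtain ⟨c, hc0, hcA, hcB, i, hi⟩ := exists_min_coeff v (A := A) (B := B) (by
    rcases hAB.top with h | h
    · left; rintro rfl; simp at h
    · right; rintro rfl; simp at h)
  have hci0 : c⁻¹ ≠ 0 := inv_ne_zero hc0
  have hco : v.o c⁻¹ = - v.o c := v.o_inv c hc0
  have hcge : v.ge (-(v.o c : ℝ)) c⁻¹ := by
    right; rw [hco]; push_cast; exact le_rfl
  have hAi : IntP v (C c⁻¹ * A) := by
    intro j
    rw [coeff_C_mul]
    have := DV.ge_mul hcge (hcA j)
    simpa using this
  have hBi : IntP v (C c⁻¹ * B) := by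
    intro j
    rw [coeff_C_mul]
    have := DV.ge_mul hcge (hcB j)
    simpa using this
  have hres' : resultant (C c⁻¹ * A) (C c⁻¹ * B) δ δ ≠ 0 := by
    rw [resultant_scale]
    exact mul_ne_zero (pow_ne_zero _ hci0) hres
  have hρ0 : 0 ≤ v.o (resultant (C c⁻¹ * A) (C c⁻¹ * B) δ δ) := by
    have := ge_resultant (m := δ) (n := δ) hAi hBi
    have := DV.ge_le this hres'
    have h3 : (0 : ℝ) ≤ v.o (resultant (C c⁻¹ * A) (C c⁻¹ * B) δ δ) := by simpa using this
    exact_mod_cast h3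
  have hρe : v.o (resultant (C c⁻¹ * A) (C c⁻¹ * B) δ δ) =
      v.o (resultant A B δ δ) - 2 * δ * v.o c := by
    rw [resultant_scale, v.mul _ _ (pow_ne_zero _ hci0) hres, v.o_pow _ hci0, hco]
    push_cast
    ring
  have hρ1 : v.o (resultant (C c⁻¹ * A) (C c⁻¹ * B) δ δ) ≠ 0 := by
    intro h
    rw [hρe] at h
    exact hbad ⟨c, hc0, hcA, hcB, by omega⟩
  refine local_bound (v := v) hδ ((natDegree_C_mul_le _ _).trans hAB.dA)
    ((natDegree_C_mul_le _ _).trans hAB.dB) hres' hAi hBi ?_ ?_ hn hint hne hdiff (by omega) hr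
  · refine ⟨i, ?_⟩
    rcases hi with h | h
    · left
      rw [coeff_C_mul, h, inv_mul_cancel₀ hc0]
      exact ⟨one_ne_zero, v.o_one⟩
    · right
      rw [coeff_C_mul, h, inv_mul_cancel₀ hc0]
      exact ⟨one_ne_zero, v.o_one⟩
  · refine ⟨fun j hj => ?_, fun j hj => ?_⟩
    · rw [eval_mul, eval_C]
      exact mul_ne_zero hci0 (hz.ne j hj)
    · rw [eval_mul, eval_mul, eval_C, mul_div_mul_left _ _ hci0]
      exact hz.step j hj

end scaling

section global

variable {k₀ V : Type*} [Field k₀] [Algebra k₀ K]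

lemma ht_nonneg' (P : PSys k₀ K V) (x : K) : 0 ≤ ht P x :=
  finsum_nonneg fun _ => neg_nonneg' _ _

/-- the global inequality -/
lemma global_bound (P : PSys k₀ K V) {A B : K[X]} {δ k n : ℕ} {z : ℕ → K} (hδ : 2 ≤ δ)
    (hAB : IsRat A B δ) (hz : Orb A B z n) (hn : δ ^ k + k ≤ n + 1)
    (hne : ∀ i ≤ n, ∀ j ≤ n, z i = z j → i = j) (S : Finset V)
    (hint : ∀ v ∈ S, ∀ i ≤ n, (P.pl v).ge 0 (z i))
    (hdiff : ∀ v ∈ S, ∀ i ≤ n, ∀ j ≤ n, i ≠ j → (P.pl v).o (z i - z j) = 0)
    (hbad : ∀ v ∈ S, ¬ IsGood (P.pl v) δ A B) (hr : δ * δ ^ k ≤ rexp δ k) :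
    ((rexp δ k : ℤ) - δ * δ ^ k) * S.card ≤
      (δ - 1) * ∑ l : Fin (δ ^ k), ∑ t : Fin k, ht P (z (l + t)) := by
  classical
  have hres := isRat_res_ne_zero (by omega) hAB
  have hM0 := det_Mz_ne_zero (by omega) hAB.dA hAB.dB hres hz hn hne
  set D := (Mz z δ k).det with hD
  have hsum := P.sum_ord D hM0
  set T : Finset V := S ∪ (P.ord_finite D hM0).toFinset ∪
    (range (δ ^ k + k)).biUnion fun i => (finite_neg P (z i)).toFinset with hT
  have hTD : Function.support (fun v => (P.pl v).o D) ⊆ (T : Set V) := by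
    intro v hv
    rw [hT]
    simp only [coe_union, Set.mem_union, mem_coe, Set.Finite.mem_toFinset]
    exact Or.inl (Or.inr hv)
  have hTz : ∀ i < δ ^ k + k, Function.support (fun v => neg (P.pl v) (z i)) ⊆ (T : Set V) := by
    intro i hi v hv
    rw [hT]
    simp only [coe_union, Set.mem_union]
    right
    rw [mem_coe, mem_biUnion]
    exact ⟨i, mem_range.mpr hi, by simpa using hv⟩
  rw [finsum_eq_sum_of_support_subset _ hTD] at hsum
  have hht : ∀ i < δ ^ k + k, ht P (z i) = ∑ v ∈ T, neg (P.pl v) (z i) := by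
    intro i hi
    rw [ht, finsum_eq_sum_of_support_subset _ (hTz i hi)]
  have hST : S ⊆ T := fun v hv => by
    rw [hT, mem_union, mem_union]
    exact Or.inl (Or.inl hv)
  have hpt : ∀ v ∈ T, (if v ∈ S then ((rexp δ k : ℤ) - δ * δ ^ k) else 0) -
      (δ - 1) * ∑ l : Fin (δ ^ k), ∑ t : Fin k, neg (P.pl v) (z (l + t)) ≤ (P.pl v).o D := by
    intro v _
    split_ifs with hv
    · have h1 := local_bound' (v := P.pl v) hδ hAB hz hn (hint v hv) hne (hdiff v hv) (hbad v hv) hr
      have h2 : ∑ l : Fin (δ ^ k), ∑ t : Fin k, neg (P.pl v) (z (l + t)) = 0 := by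
        refine sum_eq_zero fun l _ => sum_eq_zero fun t _ => neg_of_ge (hint v hv _ ?_)
        have := l.2
        have := t.2
        omega
      rw [h2, mul_zero, sub_zero]
      exact h1
    · have h1 := DV.ge_le (ge_det_Mz (P.pl v) z δ k) hM0
      have h2 : (∑ l : Fin (δ ^ k), ∑ t : Fin k,
          -(((δ - 1 : ℕ) : ℝ) * neg (P.pl v) (z (l + t)))) =
          (((0 - (δ - 1) * ∑ l : Fin (δ ^ k), ∑ t : Fin k, neg (P.pl v) (z (l + t)) : ℤ)) : ℝ) := by
        push_cast [Nat.cast_sub (by omega : 1 ≤ δ)]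
        rw [zero_sub, mul_sum, ← sum_neg_distrib]
        refine sum_congr rfl fun l _ => ?_
        rw [mul_sum, ← sum_neg_distrib]
      rw [h2] at h1
      exact_mod_cast h1
  have h3 := sum_le_sum hpt
  rw [hsum, sum_sub_distrib, ← sum_filter, filter_mem_eq_inter, inter_eq_right.mpr hST, sum_const,
    nsmul_eq_mul, ← mul_sum, sum_comm] at h3
  have h4 : ∑ l : Fin (δ ^ k), ∑ t : Fin k, ht P (z (l + t)) =
      ∑ l : Fin (δ ^ k), ∑ v ∈ T, ∑ t : Fin k, neg (P.pl v) (z (l + t)) := by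
    refine sum_congr rfl fun l _ => ?_
    rw [sum_comm]
    refine sum_congr rfl fun t _ => ?_
    have := l.2
    have := t.2
    exact hht _ (by omega)
  rw [h4]
  (clear * - h3; linarith)

end global

/-- M2 ENERGY -/
theorem energy (δ : ℕ) (hδ : 2 ≤ δ) (κ : ℝ) (hκ : 0 < κ) : ∃ n : ℕ,
    ∀ {k K V : Type} [Field k] [Field K] [Algebra k K] (P : PSys k K V) (A B : K[X]),
    IsRat A B δ → ∀ z : ℕ → K, Orb A B z n → (∀ i ≤ n, ∀ j ≤ n, z i = z j → i = j) →
    ∀ H : ℝ, (∀ i ≤ n, (ht P (z i) : ℝ) ≤ H) →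
    ∀ S : Finset V, (∀ v ∈ S, ∀ i ≤ n, (P.pl v).ge 0 (z i)) →
      (∀ v ∈ S, ∀ i ≤ n, ∀ j ≤ n, i ≠ j → (P.pl v).o (z i - z j) = 0) →
      (∀ v ∈ S, ¬ IsGood (P.pl v) δ A B) → (S.card : ℝ) ≤ κ * H := by
  set a : ℝ := (δ : ℝ) with ha
  have ha2 : (2 : ℝ) ≤ a := by rw [ha]; exact_mod_cast hδ
  obtain ⟨k, hk⟩ := exists_pow_ge δ hδ (2 * a * (a - 1) ^ 2 / κ + (a - 1))
    (2 + 2 * a ^ 2 * (a - 1))
  refine ⟨δ ^ k + k, ?_⟩
  intro k₀ K V _ _ _ P A B hAB z hz hne H hH S hint hdiff hbad
  set m : ℝ := (δ : ℝ) ^ k with hm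
  have hm1 : 1 ≤ m := one_le_pow₀ (by (clear * - ha2; linarith))
  have hrexp : 2 * (a * (a - 1)) * (rexp δ k : ℝ) + m * k * (a - 1) + m = m * m := by
    have h1 := rexp_eq δ (by omega) k
    have h2 : ((2 * (δ * (δ - 1)) * rexp δ k + δ ^ k * k * (δ - 1) + δ ^ k : ℕ) : ℝ) =
      ((δ ^ k * δ ^ k : ℕ) : ℝ) := by rw [h1]
    push_cast [Nat.cast_sub (by omega : 1 ≤ δ)] at h2
    rw [hm, ha]
    (clear * - h2; linarith)
  have hk0 : (0 : ℝ) ≤ k := by (clear * -; positivity)
  have hq : 0 ≤ 2 * a * (a - 1) ^ 2 / κ * k := by (clear * - hδ hκ; positivity)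
  -- the gain
  have hgain : (a - 1) * (m * k) ≤ κ * ((rexp δ k : ℝ) - a * m) ∧
      0 < (rexp δ k : ℝ) - a * m := by
    have hapos : 0 < 2 * (a * (a - 1)) := by
      have : 0 < a * (a - 1) := by (clear * - ha2; nlinarith)
      (clear * - this; linarith)
    have h1 : 2 * (a * (a - 1)) * ((rexp δ k : ℝ) - a * m) =
        m * (m - k * (a - 1) - 1 - 2 * a ^ 2 * (a - 1)) := by
      linear_combination hrexp
    have h2 : 2 * a * (a - 1) ^ 2 / κ * k + 1 ≤ m - k * (a - 1) - 1 - 2 * a ^ 2 * (a - 1) := by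
      (clear * - hk; linarith)
    constructor
    · have h3 : 2 * a * (a - 1) ^ 2 * k ≤ κ * (m - k * (a - 1) - 1 - 2 * a ^ 2 * (a - 1)) := by
        have h4 := mul_le_mul_of_nonneg_left h2 hκ.le
        have h5 : κ * (2 * a * (a - 1) ^ 2 / κ * k + 1) = 2 * a * (a - 1) ^ 2 * k + κ := by
          (clear * - hκ ha2; field_simp)
        rw [h5] at h4
        (clear * - hκ h4; linarith)
      have h6 : 2 * (a * (a - 1)) * ((a - 1) * (m * k)) ≤
          2 * (a * (a - 1)) * (κ * ((rexp δ k : ℝ) - a * m)) := by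
        have e1 : 2 * (a * (a - 1)) * ((a - 1) * (m * k)) = m * (2 * a * (a - 1) ^ 2 * k) := by ring
        have e2 : 2 * (a * (a - 1)) * (κ * ((rexp δ k : ℝ) - a * m)) =
            m * (κ * (m - k * (a - 1) - 1 - 2 * a ^ 2 * (a - 1))) := by
          linear_combination κ * h1
        rw [e1, e2]
        exact mul_le_mul_of_nonneg_left h3 (by (clear * - hm1; linarith))
      exact le_of_mul_le_mul_left h6 hapos
    · have h3 : 0 < m * (m - k * (a - 1) - 1 - 2 * a ^ 2 * (a - 1)) :=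
        mul_pos (by (clear * - hm1; linarith)) (by linarith)
      rw [← h1] at h3
      exact (pos_iff_pos_of_mul_pos h3).mp hapos
  have hr : δ * δ ^ k ≤ rexp δ k := by
    have : (a * m : ℝ) ≤ rexp δ k := by (clear * - hgain; linarith [hgain.2])
    rw [ha, hm] at this
    exact_mod_cast this
  have hgl := global_bound P hδ hAB hz (k := k) (by omega) hne S hint hdiff hbad hr
  have hgl' : ((rexp δ k : ℝ) - a * m) * S.card ≤
      (a - 1) * ∑ l : Fin (δ ^ k), ∑ t : Fin k, (ht P (z (l + t)) : ℝ) := by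
    rw [ha, hm]
    exact_mod_cast hgl
  have hsum : ∑ l : Fin (δ ^ k), ∑ t : Fin k, (ht P (z (l + t)) : ℝ) ≤ m * k * H := by
    calc ∑ l : Fin (δ ^ k), ∑ t : Fin k, (ht P (z (l + t)) : ℝ)
        ≤ ∑ l : Fin (δ ^ k), ∑ t : Fin k, H := by
          refine sum_le_sum fun l _ => sum_le_sum fun t _ => hH _ ?_
          have := l.2
          have := t.2
          omega
      _ = m * k * H := by simp [hm, mul_assoc]
  have hH0 : 0 ≤ H := le_trans (by exact_mod_cast ht_nonneg' P (z 0)) (hH 0 (by omega))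
  have h1 : ((rexp δ k : ℝ) - a * m) * S.card ≤ ((rexp δ k : ℝ) - a * m) * (κ * H) := by
    calc ((rexp δ k : ℝ) - a * m) * S.card
        ≤ (a - 1) * ∑ l : Fin (δ ^ k), ∑ t : Fin k, (ht P (z (l + t)) : ℝ) := hgl'
      _ ≤ (a - 1) * (m * k * H) := mul_le_mul_of_nonneg_left hsum (by (clear * - ha2; linarith))
      _ = ((a - 1) * (m * k)) * H := by ring
      _ ≤ (κ * ((rexp δ k : ℝ) - a * m)) * H := mul_le_mul_of_nonneg_right hgain.1 hH0
      _ = ((rexp δ k : ℝ) - a * m) * (κ * H) := by ring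
  exact le_of_mul_le_mul_left h1 hgain.2

end Pool.Agent.Helper98.PS

end

section

set_option autoImplicit false

open Finset Polynomial

namespace Pool.Agent.Helper36.S5

variable {κ : Type*} [Field κ]

/-- the rigid case: the polynomial is a multiple of a power of `Y - p(X)` -/
theorem rigid_case [IsAlgClosed κ] [CharZero κ] {d : ℕ} {A B : κ[X]}
    (h : Rat A B d) (hd : 2 ≤ d) (E : κ[X]) (hE : E.natDegree ≤ 2 * d) (D e : ℕ) (he : 1 ≤ e)
    (Q : κ[X][X])
    (hQ : Q.natDegree = e) (hQ0 : Q ≠ 0) (hD : XDeg Q D)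
    (hR : C (Q.coeff e) * trf A B E D e Q = C (hsub A B D (Q.coeff e) * (wr A B) ^ e) * Q) :
    ∃ p : κ[X], p.natDegree ≤ 2 ∧ hsub A B 2 p = wr A B * p + E ∧
      Q = C (Q.coeff e) * (X - C p) ^ e := by
  have hd1 : 1 ≤ d := by omega
  have hB0 := h.B0 hd1
  have hB' := io_ne hB0
  have hq0 : Q.coeff e ≠ 0 := by
    rw [← hQ]; exact leadingCoeff_ne_zero.mpr hQ0
  have hq' := io_ne hq0
  have hphiq : phi0 A B (Q.coeff e) ≠ 0 := by
    intro h0
    apply hq0
    apply h.phi0_inj hd1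
    rw [h0, map_zero]
  set M : (FractionRing κ[X])[X] := C (io κ (Q.coeff e))⁻¹ * Q.map (io κ) with hM
  have hMdeg : M.natDegree = e := by
    rw [hM, natDegree_C_mul (inv_ne_zero hq'), natDegree_map_eq_of_injective io_inj, hQ]
  have hMmon : M.Monic := by
    rw [Monic, leadingCoeff, hMdeg, hM, coeff_C_mul, coeff_map, inv_mul_cancel₀ hq']
  have hMphi : M.map (h.phi hd1) = C (phi0 A B (Q.coeff e))⁻¹ * Q.map (phi0 A B) := by
    rw [hM, Polynomial.map_mul, map_C, map_inv₀, h.phi_io hd1, Polynomial.map_map]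
    have hcomp : (h.phi hd1).comp (io κ) = phi0 A B := RingHom.ext fun q => h.phi_io hd1 q
    rw [hcomp]
  have hrel : (M.map (h.phi hd1)).comp (C (gg A B) * X + C (io κ E / io κ B ^ 2)) =
      C (gg A B ^ e) * M := by
    have h1 := congrArg (Polynomial.map (io κ)) hR
    rw [Polynomial.map_mul, Polynomial.map_mul, trf_map A B E hB0 D e Q hQ.le hD, map_C, map_C,
      map_mul (io κ), map_pow (io κ), phi0_apply A B hB0 D _ (hD e)] at h1
    rw [hMphi, mul_comp, C_comp, hM]
    have h2 : (Q.map (phi0 A B)).comp (C (gg A B) * X + C (io κ E / io κ B ^ 2)) =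
        C (io κ (Q.coeff e) * io κ B ^ (D + 2 * e))⁻¹ *
          (C (io κ B ^ D * phi0 A B (Q.coeff e) * io κ (wr A B) ^ e) * Q.map (io κ)) := by
      rw [← h1, ← mul_assoc (C (io κ (Q.coeff e))), ← C_mul, ← mul_assoc, ← C_mul,
        inv_mul_cancel₀ (mul_ne_zero hq' (pow_ne_zero _ hB')), C_1, one_mul]
    rw [h2]
    simp only [← mul_assoc, ← C_mul]
    congr 2
    rw [gg, div_pow, ← pow_mul, pow_add]
    field_simp
  have hg := h.gg_ne hd1
  obtain ⟨ub, hub1, hub2⟩ := rigid (h.phi hd1) (gg A B) (io κ E / io κ B ^ 2) hg e he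
    (by
      have : (e : FractionRing κ[X]) = io κ ((e : ℕ) : κ[X]) := by rw [map_natCast]
      rw [this]
      apply io_ne
      have h0 : e ≠ 0 := by omega
      exact_mod_cast h0) M hMmon hMdeg hrel
    (fun l hl b hb => h.lemmaR hd (h.hasSpecial hd) hd1 l hl b hb)
  obtain ⟨p, hp1, hp2, hp3⟩ := h.lemmaO hd (h.hasSpecial hd) hd1 ub E hE hub1
  refine ⟨p, hp1, hp3, ?_⟩
  apply Polynomial.map_injective (io κ) io_inj
  rw [Polynomial.map_mul, Polynomial.map_pow, Polynomial.map_sub, map_X, map_C, map_C, ← hp2,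
    ← hub2, hM, ← mul_assoc, ← C_mul, mul_inv_cancel₀ hq', C_1, one_mul]

/-- **The descent.** -/
theorem descent [IsAlgClosed κ] [CharZero κ] {d : ℕ} {A B : κ[X]}
    (h : Rat A B d) (hd : 2 ≤ d) (E : κ[X]) (hE : E.natDegree ≤ 2 * d) (x u : ℕ → κ) (n : ℕ)
    (hinj : ∀ i j, i ≤ n → j ≤ n → x i = x j → i = j)
    (hstep : ∀ j, j < n → x (j + 1) * B.eval (x j) = A.eval (x j)) (b : ℕ)
    (hu : ∀ j, b ≤ j → j < n → u (j + 1) * B.eval (x j) ^ 2 =
      (wr A B).eval (x j) * u j + E.eval (x j)) :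
    ∀ (e D m : ℕ) (Q : κ[X][X]), Q ≠ 0 → Q.natDegree ≤ e → XDeg Q D →
      (∀ j, b ≤ j → j ≤ m → evalEval (x j) (u j) Q = 0) → m ≤ n → b + TT d e D ≤ m →
      ∃ p : κ[X], p.natDegree ≤ 2 ∧ hsub A B 2 p = wr A B * p + E ∧
        ∀ j, b + TT d e D ≤ j → j ≤ n → u j = p.eval (x j) := by
  have hdA : A.natDegree ≤ d := h.dA
  have hdB : B.natDegree ≤ d := h.dB
  have hdW : (wr A B).natDegree ≤ 2 * d := h.natDegree_wr
  have hBx : ∀ j, j < n → B.eval (x j) ≠ 0 := by
    intro j hj h0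
    have := hstep j hj
    rw [h0, mul_zero] at this
    exact eval_ne_of_coprime h.cop this.symm h0
  intro e
  induction e with
  | zero =>
    intro D m Q hQ0 hQ hD hv hm hT
    exfalso
    have hT' : b + D ≤ m := hT
    have hQC : Q = C (Q.coeff 0) := eq_C_of_natDegree_eq_zero (by omega)
    have hq0 : Q.coeff 0 ≠ 0 := by
      intro h0
      apply hQ0
      rw [hQC, h0, C_0]
    obtain ⟨j, hj1, hj2, hj3⟩ := exists_ne_zero (Q.coeff 0) hq0 D (hD 0) x b
      (fun i j hi hi' hj hj' => hinj i j (by omega) (by omega))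
    apply hj3
    have := hv j hj1 (by omega)
    rw [hQC, evalEval_C] at this
    exact this
  | succ e ih =>
    intro D m Q hQ0 hQ hD hv hm hT
    have hT' : b + (max (TT d e D) (TT d e (D + (D * d + 2 * d * (e + 1)))) + D + 1) ≤ m := hT
    have hTT : TT d (e + 1) D = max (TT d e D) (TT d e (D + (D * d + 2 * d * (e + 1)))) + D + 1 :=
      rfl
    rw [hTT]
    rcases hQ.lt_or_eq with hlt | heq
    · obtain ⟨p, h1, h2, h3⟩ := ih D m Q hQ0 (by omega) hD hv hm (by omega)
      exact ⟨p, h1, h2, fun j hj hj' => h3 j (by omega) hj'⟩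
    · set q : κ[X] := Q.coeff (e + 1) with hq
      have hq0 : q ≠ 0 := by
        rw [hq, ← heq]; exact leadingCoeff_ne_zero.mpr hQ0
      set Rr : κ[X][X] := C q * trf A B E D (e + 1) Q -
        C (hsub A B D q * (wr A B) ^ (e + 1)) * Q with hRr
      by_cases hR0 : Rr = 0
      · obtain ⟨p, hp1, hp2, hp3⟩ := rigid_case h hd E hE D (e + 1) (by omega) Q heq hQ0 hD
          (sub_eq_zero.mp hR0)
        refine ⟨p, hp1, hp2, ?_⟩
        obtain ⟨j0, hj1, hj2, hj3⟩ := exists_ne_zero q hq0 D (hD (e + 1)) x b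
          (fun i j hi hi' hj hj' => hinj i j (by (clear * - A B E Q hm hT hTT p j hi'; omega)) (by omega))
        have hstart : u j0 = p.eval (x j0) := by
          have h1 := hv j0 hj1 (by omega)
          rw [hp3, evalEval_mul, evalEval_C, evalEval_pow, evalEval_sub, evalEval_X,
            evalEval_C] at h1
          have h2 := (mul_eq_zero.mp h1).resolve_left hj3
          exact sub_eq_zero.mp (pow_eq_zero_iff (by omega) |>.mp h2)
        have hall : ∀ k, j0 + k ≤ n → u (j0 + k) = p.eval (x (j0 + k)) := by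
          intro k
          induction k with
          | zero => intro _; exact hstart
          | succ k ihk =>
            intro hk
            have h1 := ihk (by omega)
            have h2 := hu (j0 + k) (by omega) (by omega)
            rw [h1] at h2
            have h3 := hsub_eval A B 2 p hp1 (x (j0 + k)) (x (j0 + k + 1))
              (hstep _ (by omega))
            rw [hp2, eval_add, eval_mul] at h3
            rw [h3] at h2
            apply mul_left_cancel₀ (pow_ne_zero 2 (hBx (j0 + k) (by omega)))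
            rw [← add_assoc]
            linear_combination h2
        intro j hj hj'
        obtain ⟨k, rfl⟩ : ∃ k, j = j0 + k := ⟨j - j0, by omega⟩
        exact hall k hj'
      · have hRlead : Lead Rr (e + 1) 0 := by
          have h1 := (trf_lead A B E D (e + 1) Q hQ).C_mul q
          have h2 := (Lead.of_le hQ).C_mul (hsub A B D q * (wr A B) ^ (e + 1))
          refine (h1.sub h2).cast rfl ?_
          rw [← hq]; ring
        have hRdeg : Rr.natDegree ≤ e := by
          by_contra hcon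
          have h1 : Rr.natDegree = e + 1 := le_antisymm hRlead.1 (by omega)
          have h2 : Rr.leadingCoeff = 0 := by rw [leadingCoeff, h1]; exact hRlead.2
          exact hR0 (leadingCoeff_eq_zero.mp h2)
        have hRX : XDeg Rr (D + (D * d + 2 * d * (e + 1))) := by
          refine XDeg.sub ?_ ?_
          · exact (XDeg.of_C (hD (e + 1))).mul (trf_XDeg A B E hdA hdB hdW hE D (e + 1) Q)
          · have h1 : (hsub A B D q * (wr A B) ^ (e + 1)).natDegree ≤
                D * d + (e + 1) * (2 * d) :=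
              natDegree_mul_le_of_le (natDegree_hsub_le A B hdA hdB D q)
                (natDegree_pow_le_of_le _ hdW)
            refine ((XDeg.of_C h1).mul hD).mono ?_
            have : (e + 1) * (2 * d) = 2 * d * (e + 1) := by ring
            omega
        obtain ⟨p, h1, h2, h3⟩ := ih (D + (D * d + 2 * d * (e + 1))) (m - 1) Rr hR0 hRdeg hRX
          (by
            intro j hj hj'
            have h1 := trf_eval A B E D (e + 1) Q hQ hD (x j) (x (j + 1)) (u j) (u (j + 1))
              (hstep j (by (clear * - A B E Q hm hT hTT hj'; omega))) (hu j hj (by omega))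
            rw [hv (j + 1) (by omega) (by omega), mul_zero] at h1
            rw [hRr, evalEval_sub, evalEval_mul, evalEval_mul, h1, hv j hj (by omega)]
            ring) (by omega) (by omega)
        exact ⟨p, h1, h2, fun j hj hj' => h3 j (by omega) hj'⟩

end Pool.Agent.Helper36.S5

end

section

set_option autoImplicit false

set_option linter.unusedSectionVars false

open Finset Polynomial

namespace Pool.Agent.Helper36.S5

variable {O κ : Type*} [CommRing O] [IsDomain O] [Field κ]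

variable {π : O →+* κ} {τ : O} {d : ℕ} {A B A₂ B₂ : O[X]} {x y : ℕ → O} {n : ℕ}

/-- **The core rigidity theorem** (`∞` is a special fixed point of the reduction) -/
theorem core [IsAlgClosed κ] [CharZero κ] (P : Pair π d A B A₂ B₂ x y n) (L : Loc π τ)
    (h : Rat (A.map π) (B.map π) d) (hd : 2 ≤ d)
    (m D n₁ : ℕ) (hn₁ : CC d m D + TT d m (D + m) + 2 * d + 1 ≤ n₁) (hn₁n : n₁ ≤ n)
    (Q : O[X][X]) (hQ0 : Q ≠ 0) (hQm : Q.natDegree ≤ m) (hQD : XDeg Q D)
    (hQv : ∀ j, j ≤ n₁ → evalEval (x j) (y j) Q = 0)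
    (j₁ j₂ j₃ : ℕ) (hj₁ : CC d m D + TT d m (D + m) ≤ j₁) (hj₂ : CC d m D + TT d m (D + m) ≤ j₂)
    (hj₃ : CC d m D + TT d m (D + m) ≤ j₃) (hj₁n : j₁ ≤ n) (hj₂n : j₂ ≤ n) (hj₃n : j₃ ≤ n)
    (h12 : j₁ ≠ j₂) (h13 : j₁ ≠ j₃) (h23 : j₂ ≠ j₃)
    (e1 : y j₁ = x j₁) (e2 : y j₂ = x j₂) (e3 : y j₃ = x j₃) :
    ∀ j, CC d m D ≤ j → j ≤ n → y j = x j := by
  classical
  set T := TT d m (D + m) with hT
  set W := wr (A.map π) (B.map π) with hW
  have hW0 : W ≠ 0 := h.W0 (by omega)
  have hWd : W.natDegree ≤ 2 * d := h.natDegree_wr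
  have hCC : CC d m D = 2 * d * T := rfl
  rw [hCC] at hn₁ hj₁ hj₂ hj₃ ⊢
  set cnt : ℕ → ℕ := fun c => ((range c).filter fun j => W.eval (π (x j)) = 0).card with hcnt
  have hcnt_le : ∀ c, c ≤ n → cnt c ≤ 2 * d := by
    intro c hc
    have h4 : cnt c ≤ W.roots.toFinset.card := by
      rw [hcnt]
      have h5 : ((range c).filter fun j => W.eval (π (x j)) = 0).image (fun j => π (x j)) ⊆
          W.roots.toFinset := by
        intro z hz
        obtain ⟨j, hj, rfl⟩ := mem_image.mp hz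
        rw [Multiset.mem_toFinset]
        exact (mem_roots hW0).mpr (mem_filter.mp hj).2
      refine le_trans (le_of_eq ?_) (card_le_card h5)
      rw [card_image_of_injOn]
      intro i hi j hj hij
      rw [Finset.mem_coe, mem_filter, mem_range] at hi hj
      exact P.inj i j (by omega) (by omega) hij
    refine h4.trans ((Multiset.toFinset_card_le _).trans ((card_roots' W).trans hWd))
  have main : ∀ ν : ℕ, ∃ c, c ≤ T * cnt c ∧ c ≤ 2 * d * T ∧
      ∀ j, c ≤ j → j ≤ n → τ ^ (ν + 1) ∣ y j - x j := by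
    intro ν
    induction ν with
    | zero =>
      refine ⟨0, by simp, by omega, fun j _ hj => ?_⟩
      rw [zero_add, pow_one, ← L.ker, map_sub, P.red j hj, sub_self]
    | succ ν ih =>
      obtain ⟨c, hc1, hc2, hc3⟩ := ih
      have hchoice : ∀ j, ∃ u : O, c ≤ j → j ≤ n → y j = x j + τ ^ (ν + 1) * u := by
        intro j
        by_cases hj : c ≤ j ∧ j ≤ n
        · obtain ⟨u, hu⟩ := hc3 j hj.1 hj.2
          exact ⟨u, fun _ _ => by rw [← hu]; ring⟩
        · exact ⟨0, fun ha hb => absurd ⟨ha, hb⟩ hj⟩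
      choose u hu using hchoice
      obtain ⟨E, hE, hrec⟩ := P.linear L h.cop (ν + 1) (by omega) c (by omega) u hu
      have hτν : τ ^ (ν + 1) ≠ 0 := pow_ne_zero _ L.ne
      obtain ⟨t, Ps, hPs, hPs0⟩ := L.exists_leading (shift (τ ^ (ν + 1)) Q)
        (shift_ne_zero _ hτν Q hQ0)
      have hτt : τ ^ t ≠ 0 := pow_ne_zero _ L.ne
      have hCt : (C (τ ^ t) : O[X]) ≠ 0 := by rw [Ne, C_eq_zero]; exact hτt
      have hPsm : Ps.natDegree ≤ m := by
        have := (shift_natDegree (τ ^ (ν + 1)) Q).trans hQm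
        rwa [hPs, natDegree_C_mul hCt] at this
      have hPsD : XDeg Ps (D + m) := by
        have h4 := shift_XDeg (τ ^ (ν + 1)) Q hQm hQD
        intro i
        have h5 := h4 i
        rwa [hPs, coeff_C_mul, natDegree_C_mul hτt] at h5
      have hPsv : ∀ j, c ≤ j → j ≤ n₁ → evalEval (x j) (u j) Ps = 0 := by
        intro j hj hj'
        have h4 := shift_eval (τ ^ (ν + 1)) Q (x j) (u j)
        rw [← hu j hj (by omega), hQv j hj', hPs, evalEval_mul, evalEval_C, eval_C] at h4
        exact (mul_eq_zero.mp h4).resolve_left hτt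
      obtain ⟨p, hp1, hp2, hp3⟩ := descent h hd E hE (fun j => π (x j)) (fun j => π (u j)) n P.inj
        P.stepx c hrec m (D + m) n₁ (Ps.map (mapRingHom π)) hPs0
        (natDegree_map_le.trans hPsm)
        (fun i => by rw [coeff_map, coe_mapRingHom]; exact natDegree_map_le.trans (hPsD i))
        (by
          intro j hj hj'
          rw [map_mapRingHom_evalEval, hPsv j hj hj', map_zero]) hn₁n (by omega)
      have hz : ∀ j, c ≤ j → j ≤ n → y j = x j → π (u j) = 0 := by
        intro j hj hj' he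
        have h4 := hu j hj hj'
        rw [he] at h4
        have h5 : τ ^ (ν + 1) * u j = 0 := by linear_combination -h4
        rw [(mul_eq_zero.mp h5).resolve_left hτν, map_zero]
      have hp0 : p = 0 := by
        apply Polynomial.eq_zero_of_natDegree_lt_card_of_eval_eq_zero' p
          (({j₁, j₂, j₃} : Finset ℕ).image fun j => π (x j))
        · intro z hz'
          obtain ⟨j, hj, rfl⟩ := mem_image.mp hz'
          have hj' : j = j₁ ∨ j = j₂ ∨ j = j₃ := by
            simpa using hj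
          rcases hj' with rfl | rfl | rfl
          · rw [← hp3 _ (by omega) (by omega)]
            exact hz _ (by omega) (by omega) e1
          · rw [← hp3 _ (by omega) (by omega)]
            exact hz _ (by omega) (by omega) e2
          · rw [← hp3 _ (by omega) (by omega)]
            exact hz _ (by omega) (by omega) e3
        · rw [card_image_of_injOn]
          · have : ({j₁, j₂, j₃} : Finset ℕ).card = 3 := by
              rw [card_eq_three]
              exact ⟨j₁, j₂, j₃, h12, h13, h23, rfl⟩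
            rw [this]; omega
          · intro i hi j hj hij
            have hi' : i = j₁ ∨ i = j₂ ∨ i = j₃ := by simpa using hi
            have hj' : j = j₁ ∨ j = j₂ ∨ j = j₃ := by simpa using hj
            exact P.inj i j (by (clear * - π d A B x m D n₁ Q hj₁n hj₂n hj₃n c E Ps p hi' hj'; omega)) (by omega) hij
      have hE0 : E = 0 := by
        rw [hp0, mul_zero, zero_add] at hp2
        rw [← hp2, hsub]; simp
      have hu0 : ∀ j, c + T ≤ j → j ≤ n → π (u j) = 0 := by
        intro j hj hj'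
        rw [hp3 j hj hj', hp0, eval_zero]
      -- the least index from which `u` vanishes
      obtain ⟨c', hc'1, hc'2, hc'3, hc'4⟩ : ∃ c', c ≤ c' ∧ c' ≤ c + T ∧
          (∀ j, c' ≤ j → j ≤ n → π (u j) = 0) ∧ (c < c' → π (u (c' - 1)) ≠ 0) := by
        have hex : ∃ c', c ≤ c' ∧ ∀ j, c' ≤ j → j ≤ n → π (u j) = 0 := ⟨c + T, by omega, hu0⟩
        refine ⟨Nat.find hex, (Nat.find_spec hex).1, Nat.find_min' hex ⟨by omega, hu0⟩,
          (Nat.find_spec hex).2, fun hlt hzero => ?_⟩
        have hmin := Nat.find_min hex (m := Nat.find hex - 1) (by omega)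
        apply hmin
        refine ⟨by omega, fun j hj hj' => ?_⟩
        rcases hj.lt_or_eq with h5 | h5
        · exact (Nat.find_spec hex).2 j (by omega) hj'
        · rw [← h5]; exact hzero
      refine ⟨c', ?_, ?_, ?_⟩
      · rcases hc'1.lt_or_eq with hlt | heq
        · have hcrit : W.eval (π (x (c' - 1))) = 0 := by
            have h4 := hrec (c' - 1) (by omega) (by omega)
            rw [hE0, eval_zero, add_zero, show c' - 1 + 1 = c' by omega,
              hc'3 c' le_rfl (by omega), zero_mul] at h4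
            exact (mul_eq_zero.mp h4.symm).resolve_right (hc'4 hlt)
          have h5 : cnt c + 1 ≤ cnt c' := by
            rw [hcnt]
            have h6 : insert (c' - 1) ((range c).filter fun j => W.eval (π (x j)) = 0) ⊆
                (range c').filter fun j => W.eval (π (x j)) = 0 := by
              intro j hj
              rw [mem_insert] at hj
              rcases hj with rfl | hj
              · rw [mem_filter, mem_range]; exact ⟨by omega, hcrit⟩
              · rw [mem_filter, mem_range] at hj ⊢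
                exact ⟨by omega, hj.2⟩
            have h7 := card_le_card h6
            rw [card_insert_of_notMem (by
              rw [mem_filter, mem_range]; rintro ⟨h8, _⟩; omega)] at h7
            exact h7
          calc c' ≤ c + T := hc'2
            _ ≤ T * cnt c + T := by omega
            _ = T * (cnt c + 1) := by ring
            _ ≤ T * cnt c' := Nat.mul_le_mul_left _ h5
        · rw [← heq]; exact hc1
      · have h4 : c' ≤ T * cnt c' := by
          rcases hc'1.lt_or_eq with hlt | heq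
          · have hcrit : W.eval (π (x (c' - 1))) = 0 := by
              have h4 := hrec (c' - 1) (by omega) (by omega)
              rw [hE0, eval_zero, add_zero, show c' - 1 + 1 = c' by omega,
                hc'3 c' le_rfl (by omega), zero_mul] at h4
              exact (mul_eq_zero.mp h4.symm).resolve_right (hc'4 hlt)
            have h5 : cnt c + 1 ≤ cnt c' := by
              rw [hcnt]
              have h6 : insert (c' - 1) ((range c).filter fun j => W.eval (π (x j)) = 0) ⊆
                  (range c').filter fun j => W.eval (π (x j)) = 0 := by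
                intro j hj
                rw [mem_insert] at hj
                rcases hj with rfl | hj
                · rw [mem_filter, mem_range]; exact ⟨by omega, hcrit⟩
                · rw [mem_filter, mem_range] at hj ⊢
                  exact ⟨by omega, hj.2⟩
              have h7 := card_le_card h6
              rw [card_insert_of_notMem (by
                rw [mem_filter, mem_range]; rintro ⟨h8, _⟩; omega)] at h7
              exact h7
            calc c' ≤ c + T := hc'2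
              _ ≤ T * cnt c + T := by omega
              _ = T * (cnt c + 1) := by ring
              _ ≤ T * cnt c' := Nat.mul_le_mul_left _ h5
          · rw [← heq]; exact hc1
        have h5 := hcnt_le c' (by omega)
        calc c' ≤ T * cnt c' := h4
          _ ≤ T * (2 * d) := Nat.mul_le_mul_left _ h5
          _ = 2 * d * T := by ring
      · intro j hj hj'
        have h4 := hc'3 j hj hj'
        obtain ⟨w, hw⟩ := (L.ker _).mp h4
        rw [hu j (by omega) hj', hw]
        exact ⟨w, by ring⟩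
  intro j hj hj'
  rw [← sub_eq_zero]
  apply L.sep
  intro ν
  obtain ⟨c, _, hc2, hc3⟩ := main ν
  exact (pow_dvd_pow τ (Nat.le_succ ν)).trans (hc3 j (by omega) hj')

end Pool.Agent.Helper36.S5

end

section

set_option autoImplicit false

open Finset Polynomial

namespace Pool.Agent.Helper36.PS

open Pool.Agent.Helper33 Pool.Agent.Helper33.PS Pool.Agent.Helper36.S5 Pool.Agent.Helper93.RatODE

/-- M6c RIGIDITY -/
theorem rigidity (d m : ℕ) (hd : 2 ≤ d) : ∃ l₀ n₀ : ℕ,
    ∀ {k E : Type} [Field k] [IsAlgClosed k] [CharZero k] [Field E] [Algebra k E] (w : DV E),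
    ResK k w → ∀ A B A' B' : E[X], IsRat A B d → IsRat A' B' d → IsGood w d A B → IsGood w d A' B' →
    ∀ n n₁ : ℕ, n₀ ≤ n₁ → n₁ ≤ n → ∀ x y : ℕ → E, Orb A B x n → Orb A' B' y n →
    (∀ j ≤ n, w.ge 0 (x j) ∧ w.ge 0 (y j) ∧ w.ge 1 (y j - x j)) →
    (∀ i ≤ n, ∀ j ≤ n, i ≠ j → x i ≠ x j ∧ w.o (x i - x j) = 0) →
    ∀ p : Polynomial (Polynomial E), p ≠ 0 → p.natDegree < m → (∀ i, (p.coeff i).natDegree < m) →
      (∀ j ≤ n₁, (p.eval (C (y j))).eval (x j) = 0) →
    ∀ a b c : ℕ, a ≠ b → a ≠ c → b ≠ c → l₀ ≤ a → l₀ ≤ b → l₀ ≤ c → a ≤ n → b ≤ n → c ≤ n →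
      x a = y a → x b = y b → x c = y c →
    ∀ j, l₀ ≤ j → j ≤ n → x j = y j := by
  classical
  refine ⟨CC d m m + TT d m (m + m), CC d m m + TT d m (m + m) + 2 * d + 1, ?_⟩
  intro k E _ _ _ _ _ w hw A B A' B' hAB hAB' hg hg' n n₁ hn₀ hn₁ x y hx hy hint hdist p hp0
    hpm hpX hpv a b c hab hac hbc ha hb hc han hbn hcn ea eb ec
  by_cases hnt : ∃ x : E, x ≠ 0 ∧ w.o x ≠ 0
  swap
  · -- trivial valuation
    push Not at hnt
    intro j _ hj
    rcases (hint j hj).2.2 with h | h
    · exact (sub_eq_zero.mp h).symm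
    · by_cases h0 : y j - x j = 0
      · exact (sub_eq_zero.mp h0).symm
      · rw [hnt _ h0] at h
        norm_num at h
  obtain ⟨τ, hτ, L⟩ := exists_loc hw hnt
  set π := resMap hw with hπ
  have hinj : Function.Injective (Oring w).subtype := Subtype.val_injective
  obtain ⟨e, Ao, Bo, he, hAo, hBo, hAd, hBd, hrat⟩ := exists_model hw (by omega) hAB hg
  obtain ⟨e', Ao', Bo', he', hAo', hBo', hAd', hBd', hrat'⟩ := exists_model hw (by omega) hAB' hg'
  -- the orbits in the valuation ring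
  have hlift : ∀ z : ℕ → E, (∀ j ≤ n, w.ge 0 (z j)) → ∃ Z : ℕ → Oring w, ∀ j ≤ n, (Z j).1 = z j := by
    intro z hz
    have : ∀ j, ∃ Z : Oring w, j ≤ n → Z.1 = z j := by
      intro j
      by_cases hj : j ≤ n
      · exact ⟨⟨z j, hz j hj⟩, fun _ => rfl⟩
      · exact ⟨0, fun h => absurd h hj⟩
    choose Z hZ using this
    exact ⟨Z, hZ⟩
  obtain ⟨X₀, hX₀⟩ := hlift x fun j hj => (hint j hj).1
  obtain ⟨Y₀, hY₀⟩ := hlift y fun j hj => (hint j hj).2.1
  have hev1 : ∀ (P : (Oring w)[X]) (z : Oring w), (P.eval z).1 =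
      (P.map (Oring w).subtype).eval z.1 := by
    intro P z
    have := Polynomial.eval_map_apply (f := (Oring w).subtype) (p := P) z
    exact this.symm
  have hsX : ∀ j, j < n → X₀ (j + 1) * Bo.eval (X₀ j) = Ao.eval (X₀ j) := by
    intro j hj
    apply Subtype.ext
    rw [Subring.coe_mul, hev1, hev1, hAo, hBo, hX₀ j hj.le, hX₀ (j + 1) hj, eval_mul, eval_mul,
      eval_C, hx.step j hj]
    have := hx.ne j hj
    field_simp
  have hsY' : ∀ j, j < n → Y₀ (j + 1) * Bo'.eval (Y₀ j) = Ao'.eval (Y₀ j) := by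
    intro j hj
    apply Subtype.ext
    rw [Subring.coe_mul, hev1, hev1, hAo', hBo', hY₀ j hj.le, hY₀ (j + 1) hj, eval_mul,
      eval_mul, eval_C, hy.step j hj]
    have := hy.ne j hj
    field_simp
  have hred : ∀ j, j ≤ n → π (Y₀ j) = π (X₀ j) := by
    intro j hj
    rw [hπ, resMap_eq, hX₀ j hj, hY₀ j hj]
    exact (hint j hj).2.2
  have hXinj : ∀ i j, i ≤ n → j ≤ n → π (X₀ i) = π (X₀ j) → i = j := by
    intro i j hi hj hij
    by_contra hne
    rw [hπ, resMap_eq, hX₀ i hi, hX₀ j hj] at hij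
    obtain ⟨h1, h2⟩ := hdist i hi j hj hne
    have h3 := DV.ge_le hij (sub_ne_zero.mpr h1)
    rw [h2] at h3
    norm_num at h3
  -- the reductions are proportional
  have hcross : (Ao.map π) * (Bo'.map π) = (Ao'.map π) * (Bo.map π) := by
    rw [← sub_eq_zero]
    apply Polynomial.eq_zero_of_natDegree_lt_card_of_eval_eq_zero' _
      ((range (2 * d + 1)).image fun j => π (X₀ j))
    · intro z hz
      obtain ⟨j, hj, rfl⟩ := mem_image.mp hz
      rw [mem_range] at hj
      have hjn : j < n := by omega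
      have h1 := congrArg π (hsX j hjn)
      have h2 := congrArg π (hsY' j hjn)
      rw [map_mul, ← eval_map_apply, ← eval_map_apply] at h1 h2
      rw [hred j hjn.le, hred (j + 1) hjn] at h2
      rw [eval_sub, eval_mul, eval_mul, ← h1, ← h2]
      ring
    · rw [card_image_of_injOn, card_range]
      · refine lt_of_le_of_lt ((natDegree_sub_le _ _).trans (max_le
          (natDegree_mul_le_of_le hrat.dA hrat'.dB) (natDegree_mul_le_of_le hrat'.dA hrat.dB))) ?_
        omega
      · intro i hi j hj hij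
        rw [Finset.mem_coe, mem_range] at hi hj
        exact hXinj i j (by omega) (by omega) hij
  obtain ⟨u, hu, hAu, hBu⟩ := proportional (by omega) hrat hrat' hcross
  have hcO : algebraMap k E u⁻¹ ∈ Oring w := ge_const hw u⁻¹
  set cu : Oring w := ⟨algebraMap k E u⁻¹, hcO⟩ with hcu
  have hπcu : π cu = u⁻¹ := resMap_const hw u⁻¹ hcO
  have hP : Pair π d Ao Bo (C cu * Ao') (C cu * Bo') X₀ Y₀ n := by
    refine ⟨hAd, hBd, (natDegree_C_mul_le _ _).trans hAd', (natDegree_C_mul_le _ _).trans hBd',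
      ?_, ?_, hsX, ?_, hXinj, hred⟩
    · rw [Polynomial.map_mul, map_C, hπcu, hAu, ← mul_assoc, ← C_mul, inv_mul_cancel₀ hu, C_1,
        one_mul]
    · rw [Polynomial.map_mul, map_C, hπcu, hBu, ← mul_assoc, ← C_mul, inv_mul_cancel₀ hu, C_1,
        one_mul]
    · intro j hj
      rw [eval_mul, eval_mul, eval_C, ← hsY' j hj]
      ring
  -- the algebraic relation
  have hτ0 : τ.1 ≠ 0 := fun h => L.ne (Subtype.ext h)
  obtain ⟨N, hN⟩ := exists_clear hτ0 hτ p
  have hN' : ∀ i j, w.ge 0 (((C (C (τ.1 ^ N)) * p).coeff i).coeff j) := by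
    intro i j
    rw [coeff_C_mul, coeff_C_mul]
    exact hN i j
  obtain ⟨Q, hQ⟩ := exists_lift₂ (C (C (τ.1 ^ N)) * p) hN'
  have hτN : τ.1 ^ N ≠ 0 := pow_ne_zero _ hτ0
  have hCτN : (C (τ.1 ^ N) : E[X]) ≠ 0 := C_ne_zero.mpr hτN
  have hinj2 : Function.Injective (mapRingHom (Oring w).subtype) := by
    rw [coe_mapRingHom]; exact Polynomial.map_injective _ hinj
  have hQ0 : Q ≠ 0 := by
    rintro rfl
    rw [Polynomial.map_zero] at hQ
    exact mul_ne_zero (C_ne_zero.mpr hCτN) hp0 hQ.symm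
  have hQm : Q.natDegree ≤ m := by
    rw [← natDegree_map_eq_of_injective hinj2, hQ, natDegree_C_mul hCτN]
    exact hpm.le
  have hQD : XDeg Q m := by
    intro i
    have h1 := congrArg (fun P => P.coeff i) hQ
    rw [coeff_map, coe_mapRingHom, coeff_C_mul] at h1
    rw [← natDegree_map_eq_of_injective hinj, h1, natDegree_C_mul hτN]
    exact (hpX i).le
  have hQv : ∀ j, j ≤ n₁ → evalEval (X₀ j) (Y₀ j) Q = 0 := by
    intro j hj
    apply Subtype.ext
    have h1 := map_mapRingHom_evalEval (Oring w).subtype Q (X₀ j) (Y₀ j)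
    have h2 : (Oring w).subtype (evalEval (X₀ j) (Y₀ j) Q) = 0 := by
      rw [← h1, hQ]
      have e1 : (Oring w).subtype (X₀ j) = x j := hX₀ j (by omega)
      have e2 : (Oring w).subtype (Y₀ j) = y j := hY₀ j (by omega)
      rw [e1, e2, evalEval_mul]
      have h3 : evalEval (x j) (y j) p = 0 := hpv j hj
      rw [h3, mul_zero]
    exact h2
  have hXY : ∀ j, j ≤ n → x j = y j → Y₀ j = X₀ j := by
    intro j hj h
    apply Subtype.ext
    rw [hX₀ j hj, hY₀ j hj, h]
  have hfin := core hP L hrat hd m m n₁ (by omega) hn₁ Q hQ0 hQm hQD hQv a b c ha hb hc han hbn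
    hcn hab hac hbc (hXY a han ea) (hXY b hbn eb) (hXY c hcn ec)
  intro j hj hjn
  have h1 := hfin j (by omega) hjn
  rw [← hX₀ j hjn, ← hY₀ j hjn, h1]

end Pool.Agent.Helper36.PS

end

section

set_option autoImplicit false

open Finset Polynomial

namespace Pool.Agent.Helper33.PS

open Pool.Agent.Helper45.FR Pool.Agent.Helper33.UB Pool.Agent.Helper51.RatTree Pool.Agent.Helper93.RatODE

theorem energy (δ : ℕ) (hδ : 2 ≤ δ) (κ : ℝ) (hκ : 0 < κ) : ∃ n : ℕ,
    ∀ {k K V : Type} [Field k] [Field K] [Algebra k K] (P : PSys k K V) (A B : K[X]),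
    IsRat A B δ → ∀ z : ℕ → K, Orb A B z n → (∀ i ≤ n, ∀ j ≤ n, z i = z j → i = j) →
    ∀ H : ℝ, (∀ i ≤ n, (ht P (z i) : ℝ) ≤ H) →
    ∀ S : Finset V, (∀ v ∈ S, ∀ i ≤ n, (P.pl v).ge 0 (z i)) →
      (∀ v ∈ S, ∀ i ≤ n, ∀ j ≤ n, i ≠ j → (P.pl v).o (z i - z j) = 0) →
      (∀ v ∈ S, ¬ IsGood (P.pl v) δ A B) → (S.card : ℝ) ≤ κ * H :=
  Pool.Agent.Helper98.PS.energy δ hδ κ hκ

theorem rigidity (d m : ℕ) (hd : 2 ≤ d) : ∃ l₀ n₀ : ℕ,
    ∀ {k E : Type} [Field k] [IsAlgClosed k] [CharZero k] [Field E] [Algebra k E] (w : DV E),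
    ResK k w → ∀ A B A' B' : E[X], IsRat A B d → IsRat A' B' d → IsGood w d A B → IsGood w d A' B' →
    ∀ n n₁ : ℕ, n₀ ≤ n₁ → n₁ ≤ n → ∀ x y : ℕ → E, Orb A B x n → Orb A' B' y n →
    (∀ j ≤ n, w.ge 0 (x j) ∧ w.ge 0 (y j) ∧ w.ge 1 (y j - x j)) →
    (∀ i ≤ n, ∀ j ≤ n, i ≠ j → x i ≠ x j ∧ w.o (x i - x j) = 0) →
    ∀ p : Polynomial (Polynomial E), p ≠ 0 → p.natDegree < m → (∀ i, (p.coeff i).natDegree < m) →
      (∀ j ≤ n₁, (p.eval (C (y j))).eval (x j) = 0) →
    ∀ a b c : ℕ, a ≠ b → a ≠ c → b ≠ c → l₀ ≤ a → l₀ ≤ b → l₀ ≤ c → a ≤ n → b ≤ n → c ≤ n →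
      x a = y a → x b = y b → x c = y c →
    ∀ j, l₀ ≤ j → j ≤ n → x j = y j :=
  Pool.Agent.Helper36.PS.rigidity d m hd

end Pool.Agent.Helper33.PS

end
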