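import Pool.Agent.Helper23.MB.L01_ab0
import Pool.Agent.Helper23.MB.L01_ab1
import Pool.Agent.Helper23.MB.L01_ab10
import Pool.Agent.Helper23.MB.L01_ab4
import Pool.Agent.Helper23.MB.L01_ab6
import Pool.Agent.Helper23.MB.L01_ab7
import Pool.Agent.Helper23.MB.L01_ab8
import Pool.Agent.Helper23.MB.L01_ab9

/-!
Parts of Helper45.RatRed, Helper45.RatUBP, Helper45.S6Count, Helper45.M8Desc, Helper45.DT.Descent, Helper98.PS.M5, Helper33.PS.Mods, Helper43.PT.LE, Helper53.PT.Pair, Helper33.PT.Core1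
-/

attribute [-simp] Valuation.IsUniformizer.val
attribute [local instance 5000]
  Pool.Agent.Helper23.MB.Inst.rCharZero Pool.Agent.Helper23.MB.Inst.rALM
  Pool.Agent.Helper23.MB.Inst.rARM Pool.Agent.Helper23.MB.Inst.rALSM
  Pool.Agent.Helper23.MB.Inst.rARSM Pool.Agent.Helper23.MB.Inst.rARRLE
  Pool.Agent.Helper23.MB.Inst.rALRLE Pool.Agent.Helper23.MB.Inst.rARRLT
  Pool.Agent.Helper23.MB.Inst.rALRLT Pool.Agent.Helper23.MB.Inst.rPMRLT
  Pool.Agent.Helper23.MB.Inst.rMPRLT Pool.Agent.Helper23.MB.Inst.rPMM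
  Pool.Agent.Helper23.MB.Inst.rMPM Pool.Agent.Helper23.MB.Inst.rPMSM
  Pool.Agent.Helper23.MB.Inst.rMPSM Pool.Agent.Helper23.MB.Inst.rEAOL
  Pool.Agent.Helper23.MB.Inst.rIOR Pool.Agent.Helper23.MB.Inst.rISOR
  Pool.Agent.Helper23.MB.Inst.rNZD Pool.Agent.Helper23.MB.Inst.zCharZero
  Pool.Agent.Helper23.MB.Inst.zALM Pool.Agent.Helper23.MB.Inst.zARM
  Pool.Agent.Helper23.MB.Inst.zIOR Pool.Agent.Helper23.MB.Inst.zISOR
  Pool.Agent.Helper23.MB.Inst.zNZD Pool.Agent.Helper23.MB.Inst.qCharZero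
  Pool.Agent.Helper23.MB.Inst.free Pool.Agent.Helper23.MB.Inst.faith
  Pool.Agent.Helper23.MB.Inst.torsionFree Pool.Agent.Helper23.MB.Inst.rfFaith
  Pool.Agent.Helper23.MB.Inst.hAdd Pool.Agent.Helper23.MB.Inst.hAddM
  Pool.Agent.Helper23.MB.Inst.hMul Pool.Agent.Helper23.MB.Inst.hMon
  Pool.Agent.Helper23.MB.Inst.hZero Pool.Agent.Helper23.MB.Inst.hOne
  Pool.Agent.Helper23.MB.Inst.hMZ Pool.Agent.Helper23.MB.Inst.hRing
  Pool.Agent.Helper23.MB.Inst.aAdd Pool.Agent.Helper23.MB.Inst.aAddM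
  Pool.Agent.Helper23.MB.Inst.aMul Pool.Agent.Helper23.MB.Inst.aMon
  Pool.Agent.Helper23.MB.Inst.aZero Pool.Agent.Helper23.MB.Inst.aOne
  Pool.Agent.Helper23.MB.Inst.aMZ Pool.Agent.Helper23.MB.Inst.aRing

namespace Pool.Agent.Helper33
end Pool.Agent.Helper33
namespace Pool.Agent.Helper33.PS
end Pool.Agent.Helper33.PS
namespace Pool.Agent.Helper33.UB
end Pool.Agent.Helper33.UB
namespace Pool.Agent.Helper45.FR
end Pool.Agent.Helper45.FR
namespace Pool.Agent.Helper45.M8
end Pool.Agent.Helper45.M8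
namespace Pool.Agent.Helper51.RatTree
end Pool.Agent.Helper51.RatTree
namespace Pool.Agent.Helper55.RD
end Pool.Agent.Helper55.RD
namespace Pool.Agent.Helper93.RatODE
end Pool.Agent.Helper93.RatODE
namespace Pool.Agent.Helper98.PS
end Pool.Agent.Helper98.PS

section

set_option autoImplicit false

set_option linter.style.haveILetI false

open Polynomial

namespace Pool.Agent.Helper45.FR

open Pool.Agent.Helper33 Pool.Agent.Helper93.RatODE

section coincidence

variable {K : Type*} [Field K] {P Q : K[X]} {d : ℕ}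

theorem coinc_natDegree (hd : 2 ≤ d) {a b N : ℕ} (ha : a ≤ N) (hb : b ≤ N) :
    (coinc P Q d a b).natDegree ≤ 2 * d ^ N := by
  unfold coinc
  have h1 : d ^ a ≤ d ^ N := Nat.pow_le_pow_right (by omega) ha
  have h2 : d ^ b ≤ d ^ N := Nat.pow_le_pow_right (by omega) hb
  have ha1 := iter_natDegree (P := P) (Q := Q) (d := d) a
  have hb1 := iter_natDegree (P := P) (Q := Q) (d := d) b
  refine (natDegree_sub_le _ _).trans (max_le ?_ ?_)
  · refine natDegree_mul_le.trans ?_
    omega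
  · refine natDegree_mul_le.trans ?_
    omega

end coincidence

end Pool.Agent.Helper45.FR

end

section

set_option autoImplicit false

set_option linter.style.haveILetI false

open Polynomial

namespace Pool.Agent.Helper45.FR

open Pool.Agent.Helper33 Pool.Agent.Helper93.RatODE

section descent

variable {M L : Type*} [Field M] [Field L] [Algebra M L] {d : ℕ}

theorem exists_poly (F : MvPolynomial (Fin 2) L) (hF : F.IsHomogeneous d)
    (hc : ∀ m, ∃ c : M, algebraMap M L c = F.coeff m) :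
    ∃ P : M[X], P.natDegree ≤ d ∧ ∀ v : Fin 2 → L, MvPolynomial.eval v F = hev P d (v 0) (v 1) := by
  classical
  choose c hc using hc
  let mm : ℕ → (Fin 2 →₀ ℕ) := fun j => Finsupp.single 0 j + Finsupp.single 1 (d - j)
  let P : M[X] := ∑ j ∈ Finset.range (d + 1), monomial j (c (mm j))
  have hcoeff : ∀ i, P.coeff i = if i ≤ d then c (mm i) else 0 := by
    intro i
    simp only [P, finsetSum_coeff, coeff_monomial]
    rw [Finset.sum_ite_eq']
    simp only [Finset.mem_range, Nat.lt_succ_iff]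
  have hPd : P.natDegree ≤ d := by
    rw [natDegree_le_iff_coeff_eq_zero]
    intro i hi
    rw [hcoeff, if_neg (by omega)]
  have hFP : F = (P.map (algebraMap M L)).homogenize d := by
    ext m
    rw [coeff_homogenize]
    by_cases hm : m 0 + m 1 = d
    · rw [if_pos hm, coeff_map, hcoeff, if_pos (by omega), hc]
      congr 1
      ext i
      fin_cases i
      · simp [mm]
      · simp [mm]; omega
    · rw [if_neg hm]
      apply hF.coeff_eq_zero
      rw [Finsupp.degree_eq_sum, Fin.sum_univ_two]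
      exact hm
  refine ⟨P, hPd, fun v => ?_⟩
  rw [hFP]
  have h1 := aeval_homogenize (P.map (algebraMap M L)) d v
  rw [hev_map_poly] at h1
  rw [← h1]
  rfl

end descent

section iso

variable {k M L : Type*} [Field k] [Field M] [Field L] [Algebra k M] [Algebra M L] [Algebra k L]
  [IsScalarTower k M L]

theorem isotriv_of_constConj {P Q : M[X]} {d : ℕ} {t : M}
    (h : ConstConj k (chP Q d t) (chQ P Q d t) d) :
    ∃ (A : Matrix (Fin 2) (Fin 2) L) (P' Q' : k[X]) (c : L), A.det ≠ 0 ∧ c ≠ 0 ∧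
      ∀ v : Fin 2 → L, ![hev P d (A.mulVec v 0) (A.mulVec v 1), hev Q d (A.mulVec v 0) (A.mulVec v 1)] =
        c • A.mulVec ![hev P' d (v 0) (v 1), hev Q' d (v 0) (v 1)] := by
  obtain ⟨A, P', Q', c, hA, hc, -, -, -, -, h1, h2⟩ := h
  let B : Matrix (Fin 2) (Fin 2) L := A.map (algebraMap M L)
  let T : Matrix (Fin 2) (Fin 2) L := !![algebraMap M L t, 1; 1, 0]
  have hB : B.det ≠ 0 := by
    have : B.det = algebraMap M L A.det := by
      simp only [B, Matrix.det_fin_two, Matrix.map_apply, map_sub, map_mul]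
    rw [this]
    exact (_root_.map_ne_zero _).2 hA
  have hT : T.det ≠ 0 := by
    simp [T, Matrix.det_fin_two]
  refine ⟨T * B, P', Q', algebraMap M L c, ?_, (_root_.map_ne_zero _).2 hc, ?_⟩
  · rw [Matrix.det_mul]; exact mul_ne_zero hT hB
  · intro v
    have h3 := conj_aeval (L := L) h1 h2 v
    rw [aeval_homogenize, aeval_homogenize, aeval_homogenize, aeval_homogenize] at h3
    change ![hev (chP Q d t) d (B.mulVec v 0) (B.mulVec v 1),
      hev (chQ P Q d t) d (B.mulVec v 0) (B.mulVec v 1)] =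
      algebraMap M L c • B.mulVec ![hev P' d (v 0) (v 1), hev Q' d (v 0) (v 1)] at h3
    rw [(ch_hev (P := P) t _ _).1, (ch_hev (P := P) t _ _).2] at h3
    have e0 := congrFun h3 0
    have e1 := congrFun h3 1
    have hTB : ∀ w : Fin 2 → L, (T * B).mulVec w 0 = algebraMap M L t * B.mulVec w 0 + B.mulVec w 1 ∧
        (T * B).mulVec w 1 = B.mulVec w 0 := by
      intro w
      rw [← Matrix.mulVec_mulVec]
      simp [T, Matrix.mulVec, dotProduct, Fin.sum_univ_two]
    simp only [Matrix.cons_val_zero, Matrix.cons_val_one, Pi.smul_apply, smul_eq_mul] at e0 e1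
    rw [(hTB v).1, (hTB v).2]
    ext i
    fin_cases i
    · simp only [Fin.zero_eta, Matrix.cons_val_zero, Pi.smul_apply, smul_eq_mul]
      rw [(hTB _).1]
      linear_combination e1 + algebraMap M L t * e0
    · simp only [Fin.mk_one, Matrix.cons_val_one, Pi.smul_apply, smul_eq_mul]
      rw [(hTB _).2]
      exact e0

end iso

end Pool.Agent.Helper45.FR

end

section

set_option autoImplicit false

set_option linter.style.haveILetI false

open Polynomial

namespace Pool.Agent.Helper45.S6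

open Pool.Agent.Helper33 Pool.Agent.Helper93.RatODE Pool.Agent.Helper45.FR

section defs

variable {Ω : Type} [Field Ω]

theorem exists_dehom [IsAlgClosed Ω] {M : Type} [Field M] [Algebra M Ω] {d : ℕ}
    (F G : MvPolynomial (Fin 2) Ω) (hF : F.IsHomogeneous d) (hG : G.IsHomogeneous d)
    (hFG : ∀ v : Fin 2 → Ω, MvPolynomial.eval v F = 0 → MvPolynomial.eval v G = 0 → v = 0)
    (hcF : ∀ m, ∃ c : M, algebraMap M Ω c = F.coeff m)
    (hcG : ∀ m, ∃ c : M, algebraMap M Ω c = G.coeff m) :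
    ∃ P Q : M[X], Dehom F G d P Q := by
  obtain ⟨P, hPd, hPev⟩ := exists_poly (M := M) F hF hcF
  obtain ⟨Q, hQd, hQev⟩ := exists_poly (M := M) G hG hcG
  have hno : ∀ u w : Ω, hev P d u w = 0 → hev Q d u w = 0 → u = 0 ∧ w = 0 := by
    intro u w h1 h2
    have h3 := hFG ![u, w] (by rw [hPev]; exact h1) (by rw [hQev]; exact h2)
    exact ⟨congrFun h3 0, congrFun h3 1⟩
  exact ⟨P, Q, hPd, hQd, hPev, hQev, isCoprime_of_no_zero hPd hQd hno, top_of_no_zero hno⟩

theorem pr_Phi {F G : MvPolynomial (Fin 2) Ω} {d : ℕ} {M : Type} [Field M] [Algebra M Ω]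
    {P Q : M[X]} (h : Dehom F G d P Q) (v : Fin 2 → Ω) :
    pr (Phi F G v) = phi P Q d (pr v) := by
  change (MvPolynomial.eval v F, MvPolynomial.eval v G) = _
  rw [h.evP, h.evQ]
  rfl

theorem pr_Phi_iter {F G : MvPolynomial (Fin 2) Ω} {d : ℕ} {M : Type} [Field M] [Algebra M Ω]
    {P Q : M[X]} (h : Dehom F G d P Q) (n : ℕ) (v : Fin 2 → Ω) :
    pr ((Phi F G)^[n] v) = (phi P Q d)^[n] (pr v) := by
  induction n generalizing v with
  | zero => rfl
  | succ n ih => rw [Function.iterate_succ_apply, ih, pr_Phi h, Function.iterate_succ_apply]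

theorem isotriv_of_const {k kb M : Type} [Field k] [Field kb] [Field M] [Algebra k Ω]
    [Algebra kb Ω] [Algebra kb M] [Algebra M Ω] [IsScalarTower kb M Ω]
    (hkb : ∀ a : kb, IsAlgebraic k (algebraMap kb Ω a))
    {F G : MvPolynomial (Fin 2) Ω} {d : ℕ} {P Q : M[X]} (h : Dehom F G d P Q) {t : M}
    (ht : ConstConj kb (chP Q d t) (chQ P Q d t) d) : Isotriv k F G d := by
  obtain ⟨A, P', Q', c, hA, hc, hconj⟩ := isotriv_of_constConj (L := Ω) ht
  refine ⟨A, (P'.map (algebraMap kb Ω)).homogenize d,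
      (Q'.map (algebraMap kb Ω)).homogenize d, hA,
      isHomogeneous_homogenize _, isHomogeneous_homogenize _, ?_, ?_⟩
  · intro m
    rw [coeff_homogenize, coeff_homogenize, coeff_map, coeff_map]
    constructor
    · split_ifs
      · exact hkb _
      · exact isAlgebraic_zero
    · split_ifs
      · exact hkb _
      · exact isAlgebraic_zero
  · intro v _
    refine ⟨c, hc, ?_⟩
    have key : ∀ (R : kb[X]), MvPolynomial.eval v
        ((R.map (algebraMap kb Ω)).homogenize d) = hev R d (v 0) (v 1) := by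
      intro R
      have h1 := aeval_homogenize (R.map (algebraMap kb Ω)) d v
      rw [hev_map_poly] at h1
      rw [← h1]
      rfl
    rw [key, key, h.evP, h.evQ]
    exact hconj v

/-- **Small coincidences** for a point over the field `M`. -/
theorem exists_small {k kb M : Type} [Field k] [Field kb] [Field M] [Infinite M] [Algebra k Ω]
    [Algebra kb Ω] [Algebra kb M] [Algebra M Ω] [IsScalarTower kb M Ω]
    (hkb : ∀ a : kb, IsAlgebraic k (algebraMap kb Ω a)) (d N : ℕ)
    (hN : ∀ F G : M[X], IsCoprime F G → F.natDegree ≤ d → G.natDegree ≤ d →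
      (F.coeff d ≠ 0 ∨ G.coeff d ≠ 0) → ∀ x : ℕ → M, RatOrbit F G x N → ConstConj kb F G d)
    {F G : MvPolynomial (Fin 2) Ω} {P Q : M[X]} (h : Dehom F G d P Q) (hiso : ¬ Isotriv k F G d)
    (v : Fin 2 → Ω) (hv : v ≠ 0) (hvM : ∃ c : Ω, c ≠ 0 ∧ ∀ i, ∃ y : M, algebraMap M Ω y = c * v i)
    (hper : ∃ m n : ℕ, m < n ∧ ∃ e : Ω, e ≠ 0 ∧ (Phi F G)^[n] v = e • (Phi F G)^[m] v) :
    ∃ a b : ℕ, a < b ∧ b ≤ N ∧ cr (pr ((Phi F G)^[a] v)) (pr ((Phi F G)^[b] v)) = 0 := by
  obtain ⟨c, hc, hcv⟩ := hvM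
  obtain ⟨m, n, hmn, e, he, hmne⟩ := hper
  by_contra hcon
  push Not at hcon
  choose y hy using hcv
  let w : M × M := (y 0, y 1)
  let ι : M × M → Ω × Ω := fun a => (algebraMap M Ω a.1, algebraMap M Ω a.2)
  have hιw : ι w = c • pr v := Prod.ext (hy 0) (hy 1)
  have hprv := pr_ne_zero hv
  have hw0 : w ≠ 0 := by
    intro h0
    have : ι w = 0 := by rw [h0]; exact Prod.ext (map_zero _) (map_zero _)
    rw [hιw] at this
    rcases smul_eq_zero.1 this with h1 | h1
    · exact hc h1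
    · exact hprv h1
  have hιφ : ∀ a, ι (phi P Q d a) = phi P Q d (ι a) := by
    intro a
    have h1 := hev_map (Algebra.ofId M Ω) P d a.1 a.2
    have h2 := hev_map (Algebra.ofId M Ω) Q d a.1 a.2
    exact Prod.ext h1 h2
  have hιφn : ∀ n a, ι ((phi P Q d)^[n] a) = (phi P Q d)^[n] (ι a) := by
    intro n
    induction n with
    | zero => intro a; rfl
    | succ n ih =>
      intro a
      rw [Function.iterate_succ_apply, ih, hιφ, Function.iterate_succ_apply]
  have hsm : ∀ (n : ℕ) (c : Ω) (a : Ω × Ω), c ≠ 0 → ∃ c' : Ω, c' ≠ 0 ∧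
      (phi P Q d)^[n] (c • a) = c' • (phi P Q d)^[n] a := by
    intro n
    induction n with
    | zero => intro c a hc; exact ⟨c, hc, rfl⟩
    | succ n ih =>
      intro c a hc
      rw [Function.iterate_succ_apply, phi_smul, Function.iterate_succ_apply]
      exact ih _ _ (pow_ne_zero _ hc)
  have hcrι : ∀ a b : M × M, cr (ι a) (ι b) = algebraMap M Ω (cr a b) := by
    intro a b
    simp only [cr, ι, map_sub, map_mul]
  have hcr_iff : ∀ a b : ℕ, cr ((phi P Q d)^[a] w) ((phi P Q d)^[b] w) = 0 ↔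
      cr ((phi P Q d)^[a] (pr v)) ((phi P Q d)^[b] (pr v)) = 0 := by
    intro a b
    obtain ⟨ca, hca, hca'⟩ := hsm a c (pr v) hc
    obtain ⟨cb, hcb, hcb'⟩ := hsm b c (pr v) hc
    have h1 := hcrι ((phi P Q d)^[a] w) ((phi P Q d)^[b] w)
    rw [hιφn, hιφn, hιw, hca', hcb', cr_smul_left, cr_smul_right] at h1
    constructor
    · intro h0
      rw [h0, map_zero] at h1
      rcases mul_eq_zero.1 h1 with h3 | h3
      · exact absurd h3 hca
      · rcases mul_eq_zero.1 h3 with h4 | h4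
        · exact absurd h4 hcb
        · exact h4
    · intro h0
      rw [h0, mul_zero, mul_zero] at h1
      exact (map_eq_zero _).1 h1.symm
  have hmn0 : cr ((phi P Q d)^[m] (pr v)) ((phi P Q d)^[n] (pr v)) = 0 := by
    rw [← pr_Phi_iter h, ← pr_Phi_iter h, hmne]
    have : pr (e • (Phi F G)^[m] v) = e • pr ((Phi F G)^[m] v) := rfl
    rw [this, cr_smul_right, cr_self, mul_zero]
  obtain ⟨t, x, hx⟩ := exists_ratOrbit h.cop h.natP h.natQ h.top hw0 hmn ((hcr_iff m n).2 hmn0) N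
    (fun a b hab hb h0 => hcon a b hab hb (by
      rw [pr_Phi_iter h, pr_Phi_iter h]
      exact (hcr_iff a b).1 h0))
  exact hiso (isotriv_of_const hkb h (hN _ _ (ch_isCoprime h.cop h.natP h.natQ h.top t)
    (ch_natDegree (P := P) t).1 (ch_natDegree (P := P) t).2
    (ch_coeff h.cop h.natP h.natQ h.top t) x hx))

/-- **Counting** points with small coincidences. -/
theorem encard_small [IsAlgClosed Ω] {d : ℕ} (hd : 2 ≤ d) (N : ℕ) (F G : MvPolynomial (Fin 2) Ω)
    (hF : F.IsHomogeneous d) (hG : G.IsHomogeneous d)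
    (hFG : ∀ v : Fin 2 → Ω, MvPolynomial.eval v F = 0 → MvPolynomial.eval v G = 0 → v = 0) :
    {p : Projectivization Ω (Fin 2 → Ω) | ∃ a b : ℕ, a < b ∧ b ≤ N ∧
      cr (pr ((Phi F G)^[a] p.rep)) (pr ((Phi F G)^[b] p.rep)) = 0}.encard ≤
      ((1 + (N + 1) ^ 2 * (2 * d ^ N) : ℕ) : ℕ∞) := by
  classical
  obtain ⟨P, Q, h⟩ := exists_dehom (M := Ω) F G hF hG hFG (fun m => ⟨F.coeff m, rfl⟩)
    (fun m => ⟨G.coeff m, rfl⟩)
  let R : ℕ × ℕ → Finset Ω := fun q => (coinc P Q d q.1 q.2).roots.toFinset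
  let I : Finset (ℕ × ℕ) := ((Finset.range (N + 1) ×ˢ Finset.range (N + 1)).filter
      (fun q => q.1 < q.2))
  let S : Finset Ω := I.biUnion R
  have hScard : S.card ≤ (N + 1) ^ 2 * (2 * d ^ N) := by
    refine (Finset.card_biUnion_le_card_mul _ _ (2 * d ^ N) ?_).trans ?_
    · intro q hq
      simp only [I] at hq
      rw [Finset.mem_filter, Finset.mem_product, Finset.mem_range, Finset.mem_range] at hq
      refine (Multiset.toFinset_card_le _).trans ((card_roots' _).trans ?_)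
      exact coinc_natDegree hd (by omega) (by omega)
    · apply Nat.mul_le_mul_right
      refine (Finset.card_filter_le _ _).trans ?_
      rw [Finset.card_product, Finset.card_range, sq]
  let code : Projectivization Ω (Fin 2 → Ω) → Option Ω :=
    fun p => if p.rep 1 = 0 then none else some (p.rep 0 / p.rep 1)
  have hcodeinj : Function.Injective code := by
    intro p q hpq
    simp only [code] at hpq
    rw [← p.mk_rep, ← q.mk_rep, Projectivization.mk_eq_mk_iff']
    by_cases hp1 : p.rep 1 = 0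
    · rw [if_pos hp1] at hpq
      by_cases hq1 : q.rep 1 = 0
      · have hp0 : p.rep 0 ≠ 0 := by
          intro h
          apply p.rep_nonzero
          ext i; fin_cases i
          · exact h
          · exact hp1
        have hq0 : q.rep 0 ≠ 0 := by
          intro h
          apply q.rep_nonzero
          ext i; fin_cases i
          · exact h
          · exact hq1
        refine ⟨p.rep 0 / q.rep 0, ?_⟩
        ext i; fin_cases i
        · simp [hq0]
        · simp [hq1, hp1]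
      · rw [if_neg hq1] at hpq
        exact absurd hpq (by simp)
    · rw [if_neg hp1] at hpq
      by_cases hq1 : q.rep 1 = 0
      · rw [if_pos hq1] at hpq
        exact absurd hpq (by simp)
      · rw [if_neg hq1, Option.some_inj] at hpq
        refine ⟨p.rep 1 / q.rep 1, ?_⟩
        rw [div_eq_div_iff hp1 hq1] at hpq
        ext i; fin_cases i
        · change p.rep 1 / q.rep 1 * q.rep 0 = p.rep 0
          field_simp
          linear_combination -hpq
        · change p.rep 1 / q.rep 1 * q.rep 1 = p.rep 1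
          field_simp
  have hsub : code '' {p : Projectivization Ω (Fin 2 → Ω) | ∃ a b : ℕ, a < b ∧ b ≤ N ∧
      cr (pr ((Phi F G)^[a] p.rep)) (pr ((Phi F G)^[b] p.rep)) = 0} ⊆
      ((insert none (S.image some) : Finset (Option Ω)) : Set (Option Ω)) := by
    rintro _ ⟨p, ⟨a, b, hab, hb, h0⟩, rfl⟩
    simp only [code]
    by_cases hp1 : p.rep 1 = 0
    · rw [if_pos hp1]
      simp
    · rw [if_neg hp1]
      simp only [Finset.coe_insert, Finset.coe_image]
      right
      refine ⟨p.rep 0 / p.rep 1, ?_, rfl⟩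
      rw [Finset.mem_coe, Finset.mem_biUnion]
      refine ⟨(a, b), ?_, ?_⟩
      · simp only [I]
        rw [Finset.mem_filter, Finset.mem_product, Finset.mem_range, Finset.mem_range]
        exact ⟨⟨by simp only; omega, by simp only; omega⟩, hab⟩
      · simp only [R, Multiset.mem_toFinset]
        rw [mem_roots (coinc_ne_zero h.cop h.natP h.natQ h.top hd hab), IsRoot.def]
        rw [pr_Phi_iter h, pr_Phi_iter h] at h0
        have h1 := coinc_aeval (P := P) (Q := Q) (d := d) (pr p.rep) hp1 a b h0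
        rw [coe_aeval_eq_eval] at h1
        exact h1
  have h1 := Set.encard_le_encard hsub
  rw [hcodeinj.encard_image, Set.encard_coe_eq_coe_finsetCard] at h1
  refine h1.trans ?_
  have h2 : (insert none (S.image some) : Finset (Option Ω)).card ≤
      1 + (N + 1) ^ 2 * (2 * d ^ N) := by
    refine (Finset.card_insert_le _ _).trans ?_
    have := (Finset.card_image_le (s := S) (f := (some : Ω → _))).trans hScard
    omega
  exact_mod_cast h2

end defs

end Pool.Agent.Helper45.S6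

end

section

set_option autoImplicit false

set_option linter.style.haveILetI false

namespace Pool.Agent.Helper45.M8

open Finset Polynomial Pool.Agent.Helper93.RatODE Pool.Agent.Helper45.FR

variable {k L₁ L : Type*} [Field k] [Field L₁] [Field L] [Algebra k L₁] [Algebra L₁ L]
  [Algebra k L] [IsScalarTower k L₁ L]

/-- **Descent of an orbit to the field of its cross ratios.** -/
theorem descent [Infinite L₁] {F G : L[X]} {d : ℕ} (hd : 1 ≤ d) (hFG : IsCoprime F G)
    (hF : F.natDegree ≤ d) (hG : G.natDegree ≤ d) (htop : F.coeff d ≠ 0 ∨ G.coeff d ≠ 0)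
    (x : ℕ → L) (N a N' : ℕ) (hx : RatOrbit F G x N) (h1N : a + N' ≤ N) (h2N : a + (2 * d) ≤ N)
    (hcross : ∀ i ≤ 2 * d + 1, ∃ c : L₁, algebraMap L₁ L c =
      (x (a + i) - x (a + 0)) * (x (a + 1) - x (a + 2)) /
        ((x (a + i) - x (a + 2)) * (x (a + 1) - x (a + 0)))) :
    ∃ (P₁ Q₁ : L₁[X]) (z : ℕ → L₁), IsCoprime P₁ Q₁ ∧ P₁.natDegree ≤ d ∧ Q₁.natDegree ≤ d ∧
      (P₁.coeff d ≠ 0 ∨ Q₁.coeff d ≠ 0) ∧ RatOrbit P₁ Q₁ z N' ∧
      (ConstConj k P₁ Q₁ d → ConstConj k F G d) := by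
  haveI : Infinite L := Infinite.of_injective _ (algebraMap L₁ L).injective
  obtain ⟨A, P', Q', c, hA, hc, hP', hQ', hcop, htop', h1, h2, hA01, hA11⟩ :=
    exists_conj_explicit (k := L₁) (K := L) hd hFG hF hG htop (fun i => x (a + i))
      (fun i _ => ⟨hx.ne _, hx.step _⟩)
      (fun i hi j hj hij => by
        have := hx.inj (a + i) (a + j) (by omega) (by omega) hij
        omega) hcross
  simp only [add_zero] at hA01
  have hcop' : IsCoprime P' Q' := (Polynomial.isCoprime_map (algebraMap L₁ L)).1 hcop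
  let ι : L₁ × L₁ → L × L := fun w => (algebraMap L₁ L w.1, algebraMap L₁ L w.2)
  let v0 : L₁ × L₁ := (0, 1)
  have hv0 : v0 ≠ 0 := by
    intro h
    exact one_ne_zero (congrArg Prod.snd h)
  -- vectors and pairs
  have hFGA : ∀ w : L₁ × L₁, phi F G d (mp A (ι w)) = c • mp A (ι (phi P' Q' d w)) := by
    intro w
    have e := conj_aeval (L := L) h1 h2 ![algebraMap L₁ L w.1, algebraMap L₁ L w.2]
    rw [← fv_eq_aeval, ← fv_eq_aeval] at e
    have e0 := congrFun e 0
    have e1 := congrFun e 1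
    have m1 := hev_map (Algebra.ofId L₁ L) P' d w.1 w.2
    have m2 := hev_map (Algebra.ofId L₁ L) Q' d w.1 w.2
    rw [Algebra.ofId_apply, Algebra.ofId_apply, Algebra.ofId_apply] at m1 m2
    simp only [fv, Pi.smul_apply, smul_eq_mul, mulVec_zero', mulVec_one', Matrix.cons_val_zero,
      Matrix.cons_val_one, Matrix.map_apply, Algebra.algebraMap_self, RingHom.id_apply] at e0 e1
    rw [← m1, ← m2] at e0 e1
    exact Prod.ext e0 e1
  -- the orbit
  have hclaim : ∀ n : ℕ, ∃ s : L, s ≠ 0 ∧ mp A (ι ((phi P' Q' d)^[n] v0)) = s • (x (a + n), (1 : L)) := by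
    intro n
    induction n with
    | zero =>
      refine ⟨A 1 1, hA11, ?_⟩
      simp only [Function.iterate_zero, id, mp, ι, v0, map_zero, map_one, mul_zero, mul_one,
        zero_add, add_zero, Prod.smul_mk, smul_eq_mul]
      rw [hA01, mul_comm]
    | succ n ih =>
      obtain ⟨s, hs, hsn⟩ := ih
      rw [Function.iterate_succ_apply']
      have e1 := hFGA ((phi P' Q' d)^[n] v0)
      rw [hsn, phi_smul] at e1
      have e2 : phi F G d (x (a + n), (1 : L)) = G.eval (x (a + n)) • (x (a + (n + 1)), (1 : L)) := by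
        have e3 : ∀ R : L[X], R.natDegree ≤ d → hev R d (x (a + n)) (1 : L) = R.eval (x (a + n)) := by
          intro R hR
          rw [hev_eq_eval R d hR _ 1 one_ne_zero, one_pow, one_mul, div_one]
        have e4 := hx.step (a + n)
        have e5 := hx.ne (a + n)
        refine Prod.ext ?_ ?_
        · change hev F d (x (a + n)) (1 : L) = G.eval (x (a + n)) * x (a + (n + 1))
          rw [e3 F hF, ← add_assoc, e4]
          field_simp
        · change hev G d (x (a + n)) (1 : L) = G.eval (x (a + n)) * 1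
          rw [e3 G hG, mul_one]
      rw [e2, smul_smul] at e1
      refine ⟨c⁻¹ * (s ^ d * G.eval (x (a + n))), ?_, ?_⟩
      · exact mul_ne_zero (inv_ne_zero hc) (mul_ne_zero (pow_ne_zero d hs) (hx.ne _))
      · rw [mul_smul, e1, smul_smul, inv_mul_cancel₀ hc, one_smul]
  have hcr : ∀ i j : ℕ, cr ((phi P' Q' d)^[i] v0) ((phi P' Q' d)^[j] v0) = 0 ↔ x (a + i) = x (a + j) := by
    intro i j
    obtain ⟨s, hs, hs'⟩ := hclaim i
    obtain ⟨r, hr, hr'⟩ := hclaim j
    have e1 := cr_mp A (ι ((phi P' Q' d)^[i] v0)) (ι ((phi P' Q' d)^[j] v0))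
    rw [hs', hr', cr_smul_left, cr_smul_right] at e1
    have e2 : cr (ι ((phi P' Q' d)^[i] v0)) (ι ((phi P' Q' d)^[j] v0)) =
        algebraMap L₁ L (cr ((phi P' Q' d)^[i] v0) ((phi P' Q' d)^[j] v0)) := by
      simp only [cr, ι, map_sub, map_mul]
    have e3 : cr (x (a + i), (1 : L)) (x (a + j), (1 : L)) = x (a + i) - x (a + j) := by
      simp only [cr]; ring
    rw [e2, e3] at e1
    constructor
    · intro h
      rw [h, map_zero, mul_zero] at e1
      rcases mul_eq_zero.1 e1 with e4 | e4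
      · exact absurd e4 hs
      · rcases mul_eq_zero.1 e4 with e5 | e5
        · exact absurd e5 hr
        · exact sub_eq_zero.1 e5
    · intro h
      rw [h, sub_self, mul_zero, mul_zero] at e1
      rcases mul_eq_zero.1 e1.symm with e4 | e4
      · exact absurd e4 hA
      · exact (map_eq_zero _).1 e4
  -- periodicity
  obtain ⟨m, n, hmn, hmn'⟩ : ∃ m n : ℕ, m < n ∧ x (a + m) = x (a + n) := by
    have hfin : (Set.range fun i => x (a + i)).Finite :=
      hx.fin.subset (by rintro _ ⟨i, rfl⟩; exact ⟨a + i, rfl⟩)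
    have hninj : ¬ Function.Injective (fun i => x (a + i)) := by
      intro hinj
      exact Set.infinite_range_of_injective hinj hfin
    rw [Function.not_injective_iff] at hninj
    obtain ⟨i, j, hij, hne⟩ := hninj
    rcases lt_or_gt_of_ne hne with h | h
    · exact ⟨i, j, h, hij⟩
    · exact ⟨j, i, h, hij.symm⟩
  obtain ⟨t, z, hz⟩ := exists_ratOrbit hcop' hP' hQ' htop' hv0 hmn ((hcr m n).2 hmn') N'
    (fun i j hij hj h0 => by
      have := hx.inj (a + i) (a + j) (by omega) (by omega) ((hcr i j).1 h0)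
      omega)
  exact ⟨chP Q' d t, chQ P' Q' d t, z, ch_isCoprime hcop' hP' hQ' htop' t,
    (ch_natDegree (P := P') t).1, (ch_natDegree (P := P') t).2, ch_coeff hcop' hP' hQ' htop' t, hz,
    constConj_trans A P' Q' c hA hc h1 h2 t⟩

end Pool.Agent.Helper45.M8

end

section

set_option autoImplicit false

set_option linter.style.haveILetI false

namespace Pool.Agent.Helper38.DT

open Polynomial Pool.Agent.Helper93.RatODE Pool.Agent.Helper45.FR Pool.Agent.Helper45.M8

/-- DT6b : descent of conjugacy to constant maps, given three rational preperiodic points. -/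
theorem dt6b {k L E : Type} [Field k] [IsAlgClosed k] [Field L] [Algebra k L] [Field E]
    [Algebra k E] [Algebra L E] [IsScalarTower k L E] (F G : L[X]) (d : ℕ) (hd : 2 ≤ d)
    (hFG : IsRatD F G d) (hc : ConstConj k (F.map (algebraMap L E)) (G.map (algebraMap L E)) d)
    (x : ℕ → L) (hx : RatOrbit F G x 2) : ConstConj k F G d := by
  classical
  haveI : Infinite k := IsAlgClosed.instInfinite
  haveI : Infinite L := Infinite.of_injective _ (algebraMap k L).injective
  obtain ⟨A, P', Q', c, hA, hc, hP', hQ', hcop, htop, h1, h2⟩ := hc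
  have hcop' : IsCoprime P' Q' := (Polynomial.isCoprime_map (algebraMap k E)).1 hcop
  have hconj := pair_of_constConj h1 h2
  -- evaluation over `L`
  have hevL : ∀ (R : L[X]) (u w : L), hev (R.map (algebraMap L E)) d (algebraMap L E u)
      (algebraMap L E w) = algebraMap L E (hev R d u w) := by
    intro R u w
    rw [hev_map_poly]
    have := hev_map (Algebra.ofId L E) R d u w
    rw [Algebra.ofId_apply, Algebra.ofId_apply, Algebra.ofId_apply] at this
    exact this.symm
  have hevk : ∀ (R : k[X]) (u w : L), hev R d (algebraMap L E u)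
      (algebraMap L E w) = algebraMap L E (hev R d u w) := by
    intro R u w
    exact (hev_map (IsScalarTower.toAlgHom k L E) R d u w).symm
  -- the adjugate
  let A' : Matrix (Fin 2) (Fin 2) E := !![A 1 1, -A 0 1; -A 1 0, A 0 0]
  have hAA' : ∀ v : E × E, mp A (mp A' v) = A.det • v := by
    intro v
    rw [Matrix.det_fin_two]
    refine Prod.ext ?_ ?_
    · change A 0 0 * (A 1 1 * v.1 + -A 0 1 * v.2) + A 0 1 * (-A 1 0 * v.1 + A 0 0 * v.2) = _ * v.1
      ring
    · change A 1 0 * (A 1 1 * v.1 + -A 0 1 * v.2) + A 1 1 * (-A 1 0 * v.1 + A 0 0 * v.2) = _ * v.2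
      ring
  have hA'A : ∀ v : E × E, mp A' (mp A v) = A.det • v := by
    intro v
    rw [Matrix.det_fin_two]
    refine Prod.ext ?_ ?_
    · change A 1 1 * (A 0 0 * v.1 + A 0 1 * v.2) + -A 0 1 * (A 1 0 * v.1 + A 1 1 * v.2) = _ * v.1
      ring
    · change -A 1 0 * (A 0 0 * v.1 + A 0 1 * v.2) + A 0 0 * (A 1 0 * v.1 + A 1 1 * v.2) = _ * v.2
      ring
  -- the points
  let Z : ℕ → E × E := fun i => (algebraMap L E (x i), 1)
  have hZ0 : ∀ i, Z i ≠ 0 := fun i h => one_ne_zero (congrArg Prod.snd h)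
  have hZphi : ∀ i, phi (F.map (algebraMap L E)) (G.map (algebraMap L E)) d (Z i) =
      algebraMap L E (G.eval (x i)) • Z (i + 1) := by
    intro i
    have e3 : ∀ R : L[X], R.natDegree ≤ d →
        hev (R.map (algebraMap L E)) d (algebraMap L E (x i)) (1 : E) =
          algebraMap L E (R.eval (x i)) := by
      intro R hR
      rw [← map_one (algebraMap L E), hevL, hev_eq_eval R d hR _ 1 one_ne_zero, one_pow, one_mul,
        div_one]
    refine Prod.ext ?_ ?_
    · change hev _ d _ _ = algebraMap L E (G.eval (x i)) * algebraMap L E (x (i + 1))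
      rw [e3 F hFG.degF, ← map_mul, hx.step i, mul_div_cancel₀ _ (hx.ne i)]
    · change hev _ d _ _ = algebraMap L E (G.eval (x i)) * 1
      rw [e3 G hFG.degG, mul_one]
  let u : ℕ → E × E := fun i => mp A' (Z i)
  have hu : ∀ i, mp A (u i) = A.det • Z i := fun i => hAA' _
  have hu0 : ∀ i, u i ≠ 0 := by
    intro i h
    have h3 := hu i
    rw [h] at h3
    have h4 : mp A (0 : E × E) = 0 := by simp [mp]
    rw [h4] at h3
    exact (smul_ne_zero hA (hZ0 i)) h3.symm
  have hstep : ∀ i, ∃ s : E, s ≠ 0 ∧ phi P' Q' d (u i) = s • u (i + 1) := by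
    intro i
    have h3 := hconj (u i)
    rw [hu, phi_smul, hZphi] at h3
    have h4 := congrArg (mp A') h3
    rw [mp_smul, mp_smul, mp_smul, hA'A, smul_smul, smul_smul] at h4
    have hg : algebraMap L E (G.eval (x i)) ≠ 0 := (_root_.map_ne_zero _).2 (hx.ne i)
    have hcA : c * A.det ≠ 0 := mul_ne_zero hc hA
    refine ⟨(c * A.det)⁻¹ * (A.det ^ d * algebraMap L E (G.eval (x i))), ?_, ?_⟩
    · exact mul_ne_zero (inv_ne_zero hcA) (mul_ne_zero (pow_ne_zero _ hA) hg)
    · rw [mul_smul]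
      change _ = _ • _ • mp A' (Z (i + 1))
      rw [h4, smul_smul, inv_mul_cancel₀ hcA, one_smul]
  have hiter : ∀ n i, ∃ s : E, s ≠ 0 ∧ (phi P' Q' d)^[n] (u i) = s • u (i + n) := by
    intro n
    induction n with
    | zero => intro i; exact ⟨1, one_ne_zero, by simp⟩
    | succ n ih =>
      intro i
      obtain ⟨s, hs, hs'⟩ := ih i
      obtain ⟨r, hr, hr'⟩ := hstep (i + n)
      refine ⟨s ^ d * r, mul_ne_zero (pow_ne_zero _ hs) hr, ?_⟩
      rw [Function.iterate_succ_apply', hs', phi_smul, hr', smul_smul, add_assoc]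
  -- the points are constant
  have hw : ∀ i, ∃ w : k × k, ∃ s : E, s ≠ 0 ∧
      mp A (algebraMap k E w.1, algebraMap k E w.2) = s • Z i := by
    intro i
    have hui : (u i) ≠ 0 := hu0 i
    by_cases hi : (u i).2 = 0
    · have hi1 : (u i).1 ≠ 0 := fun h => hui (Prod.ext h hi)
      refine ⟨(1, 0), (u i).1⁻¹ * A.det, mul_ne_zero (inv_ne_zero hi1) hA, ?_⟩
      have e1 : ((algebraMap k E (1, 0).1, algebraMap k E ((1 : k), (0 : k)).2) : E × E) =
          (u i).1⁻¹ • u i := by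
        refine Prod.ext ?_ ?_
        · change algebraMap k E 1 = (u i).1⁻¹ * (u i).1
          rw [map_one, inv_mul_cancel₀ hi1]
        · change algebraMap k E 0 = (u i).1⁻¹ * (u i).2
          rw [map_zero, hi, mul_zero]
      rw [e1, mp_smul, hu, smul_smul]
    · obtain ⟨m, n, hmn, hmn'⟩ : ∃ m n : ℕ, m < n ∧ x (i + m) = x (i + n) := by
        have hfin : (Set.range fun j => x (i + j)).Finite :=
          hx.fin.subset (by rintro _ ⟨j, rfl⟩; exact ⟨i + j, rfl⟩)
        have hninj : ¬ Function.Injective (fun j => x (i + j)) := by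
          intro hinj
          exact Set.infinite_range_of_injective hinj hfin
        rw [Function.not_injective_iff] at hninj
        obtain ⟨a, b, hab, hne⟩ := hninj
        rcases lt_or_gt_of_ne hne with h | h
        · exact ⟨a, b, h, hab⟩
        · exact ⟨b, a, h, hab.symm⟩
      have hcr : cr ((phi P' Q' d)^[m] (u i)) ((phi P' Q' d)^[n] (u i)) = 0 := by
        obtain ⟨s, hs, hs'⟩ := hiter m i
        obtain ⟨r, hr, hr'⟩ := hiter n i
        rw [hs', hr', cr_smul_left, cr_smul_right]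
        have : u (i + m) = u (i + n) := by
          change mp A' (algebraMap L E (x (i + m)), 1) = mp A' (algebraMap L E (x (i + n)), 1)
          rw [hmn']
        rw [this, cr_self, mul_zero, mul_zero]
      have halg : IsAlgebraic k ((u i).1 / (u i).2) :=
        ⟨coinc P' Q' d m n, coinc_ne_zero hcop' hP' hQ' htop hd hmn,
          coinc_aeval (u i) hi m n hcr⟩
      obtain ⟨κ, hκ⟩ := mem_range_of_isAlgebraic (k := k) _ halg
      refine ⟨(κ, 1), (u i).2⁻¹ * A.det, mul_ne_zero (inv_ne_zero hi) hA, ?_⟩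
      have e1 : ((algebraMap k E (κ, (1 : k)).1, algebraMap k E (κ, (1 : k)).2) : E × E) =
          (u i).2⁻¹ • u i := by
        refine Prod.ext ?_ ?_
        · change algebraMap k E κ = (u i).2⁻¹ * (u i).1
          rw [hκ, div_eq_inv_mul]
        · change algebraMap k E 1 = (u i).2⁻¹ * (u i).2
          rw [map_one, inv_mul_cancel₀ hi]
      rw [e1, mp_smul, hu, smul_smul]
  choose w s hs hws using hw
  have hcrw : ∀ i j, x i ≠ x j → cr (w i) (w j) ≠ 0 := by
    intro i j hij h0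
    apply hij
    have e1 := cr_mp A (algebraMap k E (w i).1, algebraMap k E (w i).2)
      (algebraMap k E (w j).1, algebraMap k E (w j).2)
    rw [hws, hws, cr_smul_left, cr_smul_right] at e1
    have e2 : cr ((algebraMap k E (w i).1, algebraMap k E (w i).2) : E × E)
        (algebraMap k E (w j).1, algebraMap k E (w j).2) = algebraMap k E (cr (w i) (w j)) := by
      simp only [cr, map_sub, map_mul]
    have e3 : cr (Z i) (Z j) = algebraMap L E (x i - x j) := by
      simp only [cr, Z, map_sub]; ring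
    rw [e2, e3, h0, map_zero, mul_zero] at e1
    rcases mul_eq_zero.1 e1 with h | h
    · exact absurd h (hs i)
    · rcases mul_eq_zero.1 h with h | h
      · exact absurd h (hs j)
      · exact sub_eq_zero.1 ((map_eq_zero _).1 h)
  have x01 : x 0 ≠ x 1 := fun h => by
    have := hx.inj 0 1 (by norm_num) (by norm_num) h; omega
  have x02 : x 0 ≠ x 2 := fun h => by
    have := hx.inj 0 2 (by norm_num) (by norm_num) h; omega
  have x12 : x 1 ≠ x 2 := fun h => by
    have := hx.inj 1 2 (by norm_num) (by norm_num) h; omega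
  have D02 := hcrw 0 2 x02
  have D01 := hcrw 0 1 x01
  have D12 := hcrw 1 2 x12
  obtain ⟨α, hα⟩ : ∃ α, α = cr (w 1) (w 2) / cr (w 0) (w 2) := ⟨_, rfl⟩
  obtain ⟨β, hβ⟩ : ∃ β, β = cr (w 0) (w 1) / cr (w 0) (w 2) := ⟨_, rfl⟩
  have hα0 : α ≠ 0 := by rw [hα]; exact div_ne_zero D12 D02
  have hβ0 : β ≠ 0 := by rw [hβ]; exact div_ne_zero D01 D02
  have hw1 : α * (w 0).1 + β * (w 2).1 = (w 1).1 := by
    rw [hα, hβ]
    have := D02
    field_simp
    simp only [cr]; ring
  have hw2 : α * (w 0).2 + β * (w 2).2 = (w 1).2 := by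
    rw [hα, hβ]
    have := D02
    field_simp
    simp only [cr]; ring
  -- the matrix over `k`
  obtain ⟨M, hM⟩ : ∃ M : Matrix (Fin 2) (Fin 2) k,
      M = !![β * (w 2).1, α * (w 0).1; β * (w 2).2, α * (w 0).2] := ⟨_, rfl⟩
  have hM00 : M 0 0 = β * (w 2).1 := by rw [hM]; rfl
  have hM01 : M 0 1 = α * (w 0).1 := by rw [hM]; rfl
  have hM10 : M 1 0 = β * (w 2).2 := by rw [hM]; rfl
  have hM11 : M 1 1 = α * (w 0).2 := by rw [hM]; rfl
  have hMdet : M.det ≠ 0 := by
    rw [Matrix.det_fin_two, hM00, hM01, hM10, hM11]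
    have : β * (w 2).1 * (α * (w 0).2) - α * (w 0).1 * (β * (w 2).2) =
        -(α * β * cr (w 0) (w 2)) := by simp only [cr]; ring
    rw [this]
    exact neg_ne_zero.2 (mul_ne_zero (mul_ne_zero hα0 hβ0) D02)
  obtain ⟨P₁, Q₁, hPQ₁, hMconj⟩ := exists_conj_matrix ⟨hcop', hP', hQ', htop⟩ M hMdet
  -- the matrix over `L`
  have n02 : x 0 - x 2 ≠ 0 := sub_ne_zero.2 x02
  have n01 : x 0 - x 1 ≠ 0 := sub_ne_zero.2 x01
  have n12 : x 1 - x 2 ≠ 0 := sub_ne_zero.2 x12
  obtain ⟨a', ha'⟩ : ∃ a' : L, a' = (x 1 - x 2) / (x 0 - x 2) := ⟨_, rfl⟩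
  obtain ⟨b', hb'⟩ : ∃ b' : L, b' = (x 0 - x 1) / (x 0 - x 2) := ⟨_, rfl⟩
  have ha0 : a' ≠ 0 := by rw [ha']; exact div_ne_zero n12 n02
  have hb0 : b' ≠ 0 := by rw [hb']; exact div_ne_zero n01 n02
  obtain ⟨A₁, hA₁⟩ : ∃ A₁ : Matrix (Fin 2) (Fin 2) L,
      A₁ = !![b' * x 2, a' * x 0; b', a'] := ⟨_, rfl⟩
  have hA00 : A₁ 0 0 = b' * x 2 := by rw [hA₁]; rfl
  have hA01 : A₁ 0 1 = a' * x 0 := by rw [hA₁]; rfl
  have hA10 : A₁ 1 0 = b' := by rw [hA₁]; rfl
  have hA11 : A₁ 1 1 = a' := by rw [hA₁]; rfl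
  have hA₁det : A₁.det ≠ 0 := by
    rw [Matrix.det_fin_two, hA00, hA01, hA10, hA11]
    have : b' * x 2 * a' - a' * x 0 * b' = -(a' * b' * (x 0 - x 2)) := by ring
    rw [this]
    exact neg_ne_zero.2 (mul_ne_zero (mul_ne_zero ha0 hb0) n02)
  -- relations
  have r0a := congrArg Prod.fst (hws 0)
  have r0b := congrArg Prod.snd (hws 0)
  have r1a := congrArg Prod.fst (hws 1)
  have r1b := congrArg Prod.snd (hws 1)
  have r2a := congrArg Prod.fst (hws 2)
  have r2b := congrArg Prod.snd (hws 2)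
  simp only [mp, Z, Prod.smul_mk, smul_eq_mul, mul_one] at r0a r0b r1a r1b r2a r2b
  have hw1' := congrArg (algebraMap k E) hw1
  have hw2' := congrArg (algebraMap k E) hw2
  rw [map_add, map_mul, map_mul] at hw1' hw2'
  have q1 : algebraMap k E α * s 0 + algebraMap k E β * s 2 = s 1 := by
    linear_combination r1b - algebraMap k E α * r0b - algebraMap k E β * r2b +
      A 1 0 * hw1' + A 1 1 * hw2'
  have q2 : algebraMap k E α * (s 0 * algebraMap L E (x 0)) +
      algebraMap k E β * (s 2 * algebraMap L E (x 2)) = s 1 * algebraMap L E (x 1) := by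
    linear_combination r1a - algebraMap k E α * r0a - algebraMap k E β * r2a +
      A 0 0 * hw1' + A 0 1 * hw2'
  have n02' : algebraMap L E (x 0) - algebraMap L E (x 2) ≠ 0 := by
    rw [← map_sub]; exact (_root_.map_ne_zero _).2 n02
  have p1 : algebraMap k E α * s 0 = s 1 * algebraMap L E a' := by
    rw [ha', map_div₀, map_sub, map_sub, ← mul_div_assoc, eq_div_iff n02']
    linear_combination q2 - algebraMap L E (x 2) * q1
  have p2 : algebraMap k E β * s 2 = s 1 * algebraMap L E b' := by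
    rw [hb', map_div₀, map_sub, map_sub, ← mul_div_assoc, eq_div_iff n02']
    linear_combination algebraMap L E (x 0) * q1 - q2
  have hAM : ∀ v : E × E, mp A (mp (M.map (algebraMap k E)) v) =
      s 1 • mp (A₁.map (algebraMap L E)) v := by
    intro v
    refine Prod.ext ?_ ?_
    · simp only [mp, Matrix.map_apply, hM00, hM01, hM10, hM11, hA00, hA01, hA10, hA11, map_mul,
        Prod.smul_mk, smul_eq_mul]
      linear_combination (algebraMap k E β * v.1) * r2a + (algebraMap k E α * v.2) * r0a +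
        (algebraMap L E (x 2) * v.1) * p2 + (algebraMap L E (x 0) * v.2) * p1
    · simp only [mp, Matrix.map_apply, hM00, hM01, hM10, hM11, hA00, hA01, hA10, hA11, map_mul,
        Prod.smul_mk, smul_eq_mul]
      linear_combination (algebraMap k E β * v.1) * r2b + (algebraMap k E α * v.2) * r0b +
        v.1 * p2 + v.2 * p1
  have hs1 := hs 1
  have hconj2 : ∀ v : E × E, phi (F.map (algebraMap L E)) (G.map (algebraMap L E)) d
      (mp (A₁.map (algebraMap L E)) v) =
      ((s 1 ^ d)⁻¹ * (c * s 1)) • mp (A₁.map (algebraMap L E)) (phi P₁ Q₁ d v) := by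
    intro v
    have e1 := hconj (mp (M.map (algebraMap k E)) v)
    rw [hMconj E v, hAM, hAM, phi_smul, smul_smul] at e1
    rw [mul_smul, ← e1, smul_smul, inv_mul_cancel₀ (pow_ne_zero _ hs1), one_smul]
  obtain ⟨c₂, hc₂⟩ : ∃ c₂, (s 1 ^ d)⁻¹ * (c * s 1) = c₂ := ⟨_, rfl⟩
  have hc₂0 : c₂ ≠ 0 := by
    rw [← hc₂]
    exact mul_ne_zero (inv_ne_zero (pow_ne_zero _ hs1)) (mul_ne_zero hc hs1)
  rw [hc₂] at hconj2
  -- descent of identities
  let ι : L × L → E × E := fun v => (algebraMap L E v.1, algebraMap L E v.2)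
  have hιmp : ∀ v : L × L, mp (A₁.map (algebraMap L E)) (ι v) = ι (mp A₁ v) := by
    intro v
    simp only [mp, ι, Matrix.map_apply, map_add, map_mul]
  have hιphi : ∀ v : L × L, phi (F.map (algebraMap L E)) (G.map (algebraMap L E)) d (ι v) =
      ι (phi F G d v) := by
    intro v
    exact Prod.ext (hevL F v.1 v.2) (hevL G v.1 v.2)
  have hιphi' : ∀ v : L × L, phi P₁ Q₁ d (ι v) = ι (phi P₁ Q₁ d v) := by
    intro v
    exact Prod.ext (hevk P₁ v.1 v.2) (hevk Q₁ v.1 v.2)
  have hconj3 : ∀ v : L × L, ι (phi F G d (mp A₁ v)) = c₂ • ι (mp A₁ (phi P₁ Q₁ d v)) := by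
    intro v
    rw [← hιphi, ← hιmp, hconj2, hιphi', hιmp]
  obtain ⟨c₃, hc₃⟩ : ∃ c₃ : L, algebraMap L E c₃ = c₂ := by
    have e1 := hconj3 (1, 0)
    have hne : mp A₁ (phi P₁ Q₁ d ((1, 0) : L × L)) ≠ 0 := by
      intro h0
      have h3 : phi P₁ Q₁ d ((1, 0) : L × L) ≠ 0 :=
        phi_ne_zero hPQ₁.cop hPQ₁.degF hPQ₁.degG hPQ₁.top (by
          intro h; exact one_ne_zero (congrArg Prod.fst h))
      apply h3
      obtain ⟨y, hy⟩ : ∃ y, phi P₁ Q₁ d ((1, 0) : L × L) = y := ⟨_, rfl⟩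
      rw [hy] at h0 ⊢
      have g1 := congrArg Prod.fst h0
      have g2 := congrArg Prod.snd h0
      simp only [mp, Prod.fst_zero, Prod.snd_zero] at g1 g2
      have hd1 := hA₁det
      rw [Matrix.det_fin_two] at hd1
      refine Prod.ext ?_ ?_
      · apply (mul_eq_zero.1 _).resolve_left hd1
        linear_combination A₁ 1 1 * g1 - A₁ 0 1 * g2
      · apply (mul_eq_zero.1 _).resolve_left hd1
        linear_combination A₁ 0 0 * g2 - A₁ 1 0 * g1
    obtain ⟨y, hy⟩ : ∃ y, mp A₁ (phi P₁ Q₁ d ((1, 0) : L × L)) = y := ⟨_, rfl⟩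
    rw [hy] at hne e1
    obtain ⟨t, ht⟩ : ∃ t, phi F G d (mp A₁ ((1, 0) : L × L)) = t := ⟨_, rfl⟩
    rw [ht] at e1
    have g1 := congrArg Prod.fst e1
    have g2 := congrArg Prod.snd e1
    simp only [ι, Prod.smul_mk, smul_eq_mul] at g1 g2
    by_cases hy1 : y.1 = 0
    · have hy2 : y.2 ≠ 0 := fun h => hne (Prod.ext hy1 h)
      refine ⟨t.2 / y.2, ?_⟩
      rw [map_div₀, g2, mul_div_assoc, div_self ((_root_.map_ne_zero _).2 hy2), mul_one]
    · refine ⟨t.1 / y.1, ?_⟩
      rw [map_div₀, g1, mul_div_assoc, div_self ((_root_.map_ne_zero _).2 hy1), mul_one]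
  refine constConj_of_pair A₁ P₁ Q₁ c₃ hA₁det ?_ hPQ₁ ?_
  · intro h
    rw [h, map_zero] at hc₃
    exact hc₂0 hc₃.symm
  · intro v
    have e1 := hconj3 v
    rw [← hc₃] at e1
    have g1 := congrArg Prod.fst e1
    have g2 := congrArg Prod.snd e1
    simp only [ι, Prod.smul_mk, smul_eq_mul] at g1 g2
    rw [← map_mul] at g1 g2
    exact Prod.ext ((algebraMap L E).injective g1) ((algebraMap L E).injective g2)

end Pool.Agent.Helper38.DT

end

section

set_option autoImplicit false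

open Finset Polynomial

namespace Pool.Agent.Helper98.PS

open Pool.Agent.Helper33 Pool.Agent.Helper33.PS Pool.Agent.Helper93.RatODE Pool.Agent.Helper55.RD

section localbound

variable {K : Type*} [Field K]

lemma local_gain' {v : DV K} {A B A' B' : K[X]} {d k n : ℕ} (hd : 1 ≤ d) (hAB : IsRat A B d)
    (hAB' : IsRat A' B' d) {x y : ℕ → K} (hx : Orb A B x n) (hy : Orb A' B' y n)
    (hg : IsGood v d A B) (hg' : IsGood v d A' B')
    (hint : ∀ j ≤ n, v.ge 0 (x j) ∧ v.ge 0 (y j) ∧ v.ge 1 (y j - x j))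
    (φ : Fin (d ^ k) × Fin (d ^ k) → ℕ) (hφ : ∀ i, φ i ≤ n ∧ φ i + k ≤ n + 1) :
    v.ge (((d ^ k : ℕ) : ℝ) * (((d ^ k : ℕ) : ℝ) - 1) * (2 * ((d ^ k : ℕ) : ℝ) - 1) / 6)
      (Matrix.of fun i c => rw2 x y d k (φ i) c).det := by
  obtain ⟨c, hc, h1, h2, h3⟩ := scaled hd hAB hx hg fun j hj => (hint j hj).1
  obtain ⟨c', hc', h1', h2', h3'⟩ := scaled hd hAB' hy hg' fun j hj => (hint j hj).2.1
  exact local_gain hd (isRat_scale hAB hc) (isRat_scale hAB' hc') (orb_scale hx hc)
    (orb_scale hy hc') h1 h2 h1' h2' h3 h3' hint φ hφ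

end localbound

section global

variable {K k₀ V : Type*} [Field K] [Field k₀] [Algebra k₀ K]

/-- the global inequality -/
lemma global_bound2 (P : PSys k₀ K V) {A B A' B' : K[X]} {d k n : ℕ} (hd : 1 ≤ d)
    (hAB : IsRat A B d) (hAB' : IsRat A' B' d) {x y : ℕ → K} (hx : Orb A B x n)
    (hy : Orb A' B' y n) (S : Finset V)
    (hg : ∀ v ∈ S, IsGood (P.pl v) d A B ∧ IsGood (P.pl v) d A' B')
    (hint : ∀ v ∈ S, ∀ j ≤ n, (P.pl v).ge 0 (x j) ∧ (P.pl v).ge 0 (y j) ∧
      (P.pl v).ge 1 (y j - x j))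
    (φ : Fin (d ^ k) × Fin (d ^ k) → ℕ) (hφ : ∀ i, φ i + k ≤ n)
    (hD : (Matrix.of fun i c => rw2 x y d k (φ i) c).det ≠ 0) :
    (((d ^ k : ℕ) : ℝ) * (((d ^ k : ℕ) : ℝ) - 1) * (2 * ((d ^ k : ℕ) : ℝ) - 1) / 6) * S.card ≤
      ((d - 1 : ℕ) : ℝ) * ∑ i, ∑ t : Fin k,
        ((ht P (x (φ i + t)) : ℝ) + (ht P (y (φ i + t)) : ℝ)) := by
  classical
  set D := (Matrix.of fun i c => rw2 x y d k (φ i) c).det with hDdef
  have hsum := P.sum_ord D hD
  set T : Finset V := S ∪ (P.ord_finite D hD).toFinset ∪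
    (range (n + 1)).biUnion (fun i => (finite_neg P (x i)).toFinset ∪ (finite_neg P (y i)).toFinset)
    with hT
  have hTD : Function.support (fun v => (P.pl v).o D) ⊆ (T : Set V) := by
    intro v hv
    rw [hT]
    simp only [coe_union, Set.mem_union, mem_coe, Set.Finite.mem_toFinset]
    exact Or.inl (Or.inr hv)
  have hTx : ∀ i ≤ n, Function.support (fun v => neg (P.pl v) (x i)) ⊆ (T : Set V) := by
    intro i hi v hv
    rw [hT]
    simp only [coe_union, Set.mem_union]
    right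
    rw [mem_coe, mem_biUnion]
    exact ⟨i, mem_range.mpr (by omega), mem_union_left _ (by simpa using hv)⟩
  have hTy : ∀ i ≤ n, Function.support (fun v => neg (P.pl v) (y i)) ⊆ (T : Set V) := by
    intro i hi v hv
    rw [hT]
    simp only [coe_union, Set.mem_union]
    right
    rw [mem_coe, mem_biUnion]
    exact ⟨i, mem_range.mpr (by omega), mem_union_right _ (by simpa using hv)⟩
  rw [finsum_eq_sum_of_support_subset _ hTD] at hsum
  have hhx : ∀ i ≤ n, ht P (x i) = ∑ v ∈ T, neg (P.pl v) (x i) := by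
    intro i hi
    rw [ht, finsum_eq_sum_of_support_subset _ (hTx i hi)]
  have hhy : ∀ i ≤ n, ht P (y i) = ∑ v ∈ T, neg (P.pl v) (y i) := by
    intro i hi
    rw [ht, finsum_eq_sum_of_support_subset _ (hTy i hi)]
  have hST : S ⊆ T := fun v hv => by
    rw [hT, mem_union, mem_union]
    exact Or.inl (Or.inl hv)
  set g : ℝ := (((d ^ k : ℕ) : ℝ) * (((d ^ k : ℕ) : ℝ) - 1) * (2 * ((d ^ k : ℕ) : ℝ) - 1) / 6)
    with hgdef
  have hpt : ∀ v ∈ T, (if v ∈ S then g else 0) -
      ((d - 1 : ℕ) : ℝ) * ∑ i, ∑ t : Fin k,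
        ((neg (P.pl v) (x (φ i + t)) : ℝ) + (neg (P.pl v) (y (φ i + t)) : ℝ)) ≤
        ((P.pl v).o D : ℝ) := by
    intro v _
    split_ifs with hv
    · have h1 := DV.ge_le (local_gain' (v := P.pl v) hd hAB hAB' hx hy (hg v hv).1 (hg v hv).2
        (hint v hv) φ fun i => ⟨by have := hφ i; omega, by have := hφ i; omega⟩) hD
      have h2 : 0 ≤ ((d - 1 : ℕ) : ℝ) * ∑ i, ∑ t : Fin k,
        ((neg (P.pl v) (x (φ i + t)) : ℝ) + (neg (P.pl v) (y (φ i + t)) : ℝ)) := by
        refine mul_nonneg (Nat.cast_nonneg _) (sum_nonneg fun i _ => sum_nonneg fun t _ => ?_)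
        have h3 := neg_nonneg' (P.pl v) (x (φ i + t))
        have h4 := neg_nonneg' (P.pl v) (y (φ i + t))
        have h3' : (0 : ℝ) ≤ neg (P.pl v) (x (φ i + t)) := by exact_mod_cast h3
        have h4' : (0 : ℝ) ≤ neg (P.pl v) (y (φ i + t)) := by exact_mod_cast h4
        (clear * - h3' h4'; linarith)
      (clear * - hgdef h1 h2; linarith)
    · have h1 := DV.ge_le (ge_det_rw2 (P.pl v) x y d k φ) hD
      have h2 : (∑ i, ∑ t : Fin k, -(((d - 1 : ℕ) : ℝ) *
          ((neg (P.pl v) (x (φ i + t)) : ℝ) + (neg (P.pl v) (y (φ i + t)) : ℝ)))) =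
          0 - ((d - 1 : ℕ) : ℝ) * ∑ i, ∑ t : Fin k,
          ((neg (P.pl v) (x (φ i + t)) : ℝ) + (neg (P.pl v) (y (φ i + t)) : ℝ)) := by
        rw [zero_sub, mul_sum, ← sum_neg_distrib]
        refine sum_congr rfl fun i _ => ?_
        rw [mul_sum, ← sum_neg_distrib]
      rw [← h2]
      exact h1
  have h3 := sum_le_sum hpt
  have hsum' : ∑ v ∈ T, ((P.pl v).o D : ℝ) = 0 := by exact_mod_cast hsum
  rw [hsum', sum_sub_distrib, ← sum_filter, filter_mem_eq_inter, inter_eq_right.mpr hST, sum_const,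
    nsmul_eq_mul, ← mul_sum, sum_comm] at h3
  have h4 : ∑ i, ∑ t : Fin k, ((ht P (x (φ i + t)) : ℝ) + (ht P (y (φ i + t)) : ℝ)) =
      ∑ i, ∑ v ∈ T, ∑ t : Fin k,
        ((neg (P.pl v) (x (φ i + t)) : ℝ) + (neg (P.pl v) (y (φ i + t)) : ℝ)) := by
    refine sum_congr rfl fun i _ => ?_
    rw [sum_comm]
    refine sum_congr rfl fun t _ => ?_
    have := t.2
    have := hφ i
    rw [hhx _ (by omega), hhy _ (by omega), sum_add_distrib]
    push_cast
    rfl
  rw [h4]
  (clear * - h3; linarith)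

end global

/-- M5 INTERPOLATION -/
theorem interp (d : ℕ) (hd : 2 ≤ d) (c : ℝ) (hc : 0 < c) : ∃ m n₀ : ℕ,
    ∀ {k E W : Type} [Field k] [Field E] [Algebra k E] (Q : PSys k E W) (A B A' B' : E[X]),
    IsRat A B d → IsRat A' B' d → ∀ n : ℕ, n₀ ≤ n → ∀ x y : ℕ → E, Orb A B x n → Orb A' B' y n →
    ∀ H : ℝ, (∀ j ≤ n, (ht Q (x j) : ℝ) ≤ H) → (∀ j ≤ n, (ht Q (y j) : ℝ) ≤ H) →
    ∀ S : Finset W, 1 ≤ S.card → c * H ≤ S.card →
      (∀ w ∈ S, IsGood (Q.pl w) d A B ∧ IsGood (Q.pl w) d A' B') →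
      (∀ w ∈ S, ∀ j ≤ n, (Q.pl w).ge 0 (x j) ∧ (Q.pl w).ge 0 (y j) ∧ (Q.pl w).ge 1 (y j - x j)) →
    ∃ p : Polynomial (Polynomial E), p ≠ 0 ∧ p.natDegree < m ∧ (∀ i, (p.coeff i).natDegree < m) ∧
      ∀ j, j + m ≤ n → (p.eval (C (y j))).eval (x j) = 0 := by
  have hd' : (1 : ℝ) ≤ ((d - 1 : ℕ) : ℝ) := by
    have : 1 ≤ d - 1 := by omega
    exact_mod_cast this
  obtain ⟨k, hk⟩ := exists_pow_ge d hd (16 * ((d - 1 : ℕ) : ℝ) / c) 2
  set M : ℝ := ((d ^ k : ℕ) : ℝ) with hM
  have hMk : 16 * ((d - 1 : ℕ) : ℝ) / c * k + 2 ≤ M := by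
    rw [hM]; push_cast; exact_mod_cast hk
  have hk0 : (0 : ℝ) ≤ k := Nat.cast_nonneg k
  have hM2 : 2 ≤ M := by
    have : 0 ≤ 16 * ((d - 1 : ℕ) : ℝ) / c * k := by (clear * - hd' hc; positivity)
    (clear * - hMk this; linarith)
  have hkM : k ≤ d ^ k := (Nat.lt_pow_self (by omega)).le
  have hMpos : 0 < d ^ k := by positivity
  refine ⟨d ^ k, 0, ?_⟩
  intro k₀ E W _ _ _ Q A B A' B' hAB hAB' n _ x y hx hy H hHx hHy S hS hcH hg hint
  -- all minors vanish
  have hminor : ∀ φ : Fin (d ^ k) × Fin (d ^ k) → ℕ, (∀ i, φ i < n + 1 - d ^ k) →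
      (Matrix.of fun i c => rw2 x y d k (φ i) c).det = 0 := by
    intro φ hφ
    by_contra hD
    have h1 := global_bound2 Q (by omega : 1 ≤ d) hAB hAB' hx hy S hg hint φ
      (fun i => by have := hφ i; omega) hD
    have hsum : ∑ i : Fin (d ^ k) × Fin (d ^ k), ∑ t : Fin k,
        ((ht Q (x (φ i + t)) : ℝ) + (ht Q (y (φ i + t)) : ℝ)) ≤ M * M * (k * (2 * H)) := by
      calc ∑ i : Fin (d ^ k) × Fin (d ^ k), ∑ t : Fin k,
            ((ht Q (x (φ i + t)) : ℝ) + (ht Q (y (φ i + t)) : ℝ))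
          ≤ ∑ i : Fin (d ^ k) × Fin (d ^ k), ∑ t : Fin k, (2 * H) := by
            refine sum_le_sum fun i _ => sum_le_sum fun t _ => ?_
            have := hφ i
            have := t.2
            have e1 := hHx (φ i + t) (by omega)
            have e2 := hHy (φ i + t) (by omega)
            (clear * - e1 e2; linarith)
        _ = M * M * (k * (2 * H)) := by
            simp [hM]
    have hcard : (1 : ℝ) ≤ S.card := by exact_mod_cast hS
    have hH : H ≤ S.card / c := by
      rw [le_div_iff₀ hc]; (clear * - hcH; linarith)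
    have h2 : M * (M - 1) * (2 * M - 1) / 6 * S.card ≤
        ((d - 1 : ℕ) : ℝ) * (M * M * (k * (2 * (S.card / c)))) := by
      refine h1.trans (mul_le_mul_of_nonneg_left (hsum.trans ?_) (by (clear * - hd'; linarith)))
      refine mul_le_mul_of_nonneg_left ?_ (by positivity)
      refine mul_le_mul_of_nonneg_left ?_ hk0
      (clear * - hH; linarith)
    have h3 : M * (M - 1) * (2 * M - 1) / 6 ≤ ((d - 1 : ℕ) : ℝ) * (M * M * (k * (2 / c))) := by
      have e1 : ((d - 1 : ℕ) : ℝ) * (M * M * (k * (2 * (S.card / c)))) =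
          (((d - 1 : ℕ) : ℝ) * (M * M * (k * (2 / c)))) * S.card := by ring
      rw [e1] at h2
      exact le_of_mul_le_mul_right h2 (by (clear * - hcard; linarith))
    have h4 : M * M * M / 8 ≤ M * (M - 1) * (2 * M - 1) / 6 := by
      have h5 : 0 ≤ M * ((M - 2) * (10 * M - 4) + 0) := by
        refine mul_nonneg (by (clear * - hM2; linarith)) ?_
        have : 0 ≤ (M - 2) * (10 * M - 4) := mul_nonneg (by (clear * - hM2; linarith)) (by (clear * - hM2; linarith))
        (clear * - this; linarith)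
      (clear * - h5; nlinarith)
    have h6 : ((d - 1 : ℕ) : ℝ) * (M * M * (k * (2 / c))) = M * M * ((16 * ((d - 1 : ℕ) : ℝ) / c * k) / 8) := by
      ring
    rw [h6] at h3
    have h7 : M * M * (M / 8) ≤ M * M * ((16 * ((d - 1 : ℕ) : ℝ) / c * k) / 8) := by (clear * - h3 h4; linarith)
    have h8 := le_of_mul_le_mul_left h7 (by positivity)
    (clear * - hMk h8; linarith)
  obtain ⟨coef, hne, hker⟩ := exists_ker (n + 1 - d ^ k) (fun j c => rw2 x y d k j c) hminor
  set p : Polynomial (Polynomial E) := ∑ c : Fin (d ^ k) × Fin (d ^ k),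
    C (C (coef c) * SP A B d k (finFunctionFinEquiv.symm c.1)) *
      (SP A' B' d k (finFunctionFinEquiv.symm c.2)).map C with hp
  have hcoeff : ∀ i, p.coeff i = ∑ c : Fin (d ^ k) × Fin (d ^ k),
      (C (coef c) * SP A B d k (finFunctionFinEquiv.symm c.1)) *
        C ((SP A' B' d k (finFunctionFinEquiv.symm c.2)).coeff i) := by
    intro i
    rw [hp, finsetSum_coeff]
    refine sum_congr rfl fun c _ => ?_
    rw [coeff_C_mul, coeff_map]
  refine ⟨p, ?_, ?_, ?_, ?_⟩
  · intro hp0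
    apply hne
    refine Matrix.eq_zero_of_vecMul_eq_zero
      (M := Matrix.kroneckerMap (fun a b => a * b) (CM A B d k) (CM A' B' d k)) ?_ ?_
    · rw [Matrix.det_kronecker]
      exact mul_ne_zero (pow_ne_zero _ (det_CM_ne_zero hd hAB))
        (pow_ne_zero _ (det_CM_ne_zero hd hAB'))
    · funext ⟨a, b⟩
      have h1 : (p.coeff (b : ℕ)).coeff (a : ℕ) = 0 := by rw [hp0]; simp
      rw [hcoeff, finsetSum_coeff] at h1
      rw [Pi.zero_apply, ← h1, Matrix.vecMul, dotProduct]
      refine sum_congr rfl fun c _ => ?_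
      rw [coeff_mul_C, coeff_C_mul, Matrix.kroneckerMap_apply, CM, CM, Matrix.of_apply,
        Matrix.of_apply, mul_assoc]
  · have h1 : p.natDegree ≤ d ^ k - 1 := by
      rw [hp]
      refine natDegree_sum_le_of_forall_le _ _ fun c _ => ?_
      refine (natDegree_C_mul_le _ _).trans (natDegree_map_le.trans ?_)
      have := natDegree_SP_lt (A := A') (B := B') (d := d) (k := k) (by omega)
        (finFunctionFinEquiv.symm c.2)
      omega
    omega
  · intro i
    have h1 : (p.coeff i).natDegree ≤ d ^ k - 1 := by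
      rw [hcoeff]
      refine natDegree_sum_le_of_forall_le _ _ fun c _ => ?_
      refine (natDegree_mul_C_le _ _).trans ((natDegree_C_mul_le _ _).trans ?_)
      have := natDegree_SP_lt (A := A) (B := B) (d := d) (k := k) (by omega)
        (finFunctionFinEquiv.symm c.1)
      omega
    omega
  · intro j hj
    have h1 := hker j (by omega)
    have h2 : (p.eval (C (y j))).eval (x j) = ∑ c : Fin (d ^ k) × Fin (d ^ k),
        coef c * ((SP A B d k (finFunctionFinEquiv.symm c.1)).eval (x j) *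
          (SP A' B' d k (finFunctionFinEquiv.symm c.2)).eval (y j)) := by
      rw [hp, eval_finsetSum, eval_finsetSum]
      refine sum_congr rfl fun c _ => ?_
      rw [eval_mul, eval_C, eval_map_apply, eval_mul, eval_C, eval_mul, eval_C]
      ring
    rw [h2]
    have h3 : ∑ c : Fin (d ^ k) × Fin (d ^ k),
        coef c * ((SP A B d k (finFunctionFinEquiv.symm c.1)).eval (x j) *
          (SP A' B' d k (finFunctionFinEquiv.symm c.2)).eval (y j)) =
        (rowf A B d k (x j) * rowf A' B' d k (y j)) *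
          ∑ c : Fin (d ^ k) × Fin (d ^ k), coef c * rw2 x y d k j c := by
      rw [mul_sum]
      refine sum_congr rfl fun c _ => ?_
      rw [← rw2_eval hAB hAB' hx hy j (by omega) c]
      ring
    rw [h3, h1, mul_zero]

end Pool.Agent.Helper98.PS

end

section

set_option autoImplicit false

open Finset Polynomial

namespace Pool.Agent.Helper33.PS

open Pool.Agent.Helper45.FR Pool.Agent.Helper33.UB Pool.Agent.Helper51.RatTree Pool.Agent.Helper93.RatODE

theorem interp (d : ℕ) (hd : 2 ≤ d) (c : ℝ) (hc : 0 < c) : ∃ m n₀ : ℕ,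
    ∀ {k E W : Type} [Field k] [Field E] [Algebra k E] (Q : PSys k E W) (A B A' B' : E[X]),
    IsRat A B d → IsRat A' B' d → ∀ n : ℕ, n₀ ≤ n → ∀ x y : ℕ → E, Orb A B x n → Orb A' B' y n →
    ∀ H : ℝ, (∀ j ≤ n, (ht Q (x j) : ℝ) ≤ H) → (∀ j ≤ n, (ht Q (y j) : ℝ) ≤ H) →
    ∀ S : Finset W, 1 ≤ S.card → c * H ≤ S.card →
      (∀ w ∈ S, IsGood (Q.pl w) d A B ∧ IsGood (Q.pl w) d A' B') →
      (∀ w ∈ S, ∀ j ≤ n, (Q.pl w).ge 0 (x j) ∧ (Q.pl w).ge 0 (y j) ∧ (Q.pl w).ge 1 (y j - x j)) →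
    ∃ p : Polynomial (Polynomial E), p ≠ 0 ∧ p.natDegree < m ∧ (∀ i, (p.coeff i).natDegree < m) ∧
      ∀ j, j + m ≤ n → (p.eval (C (y j))).eval (x j) = 0 :=
  Pool.Agent.Helper98.PS.interp d hd c hc

end Pool.Agent.Helper33.PS

end

section

set_option autoImplicit false

open Finset Polynomial

namespace Pool.Agent.Helper43.PT

open Pool.Agent.Helper33 Pool.Agent.Helper45.FR Pool.Agent.Helper33.UB Pool.Agent.Helper51.RatTree
  Pool.Agent.Helper93.RatODE Pool.Agent.Helper33.PS Pool.Agent.Helper55.RD Pool.Agent.Helper98.PS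

section local_

variable {K : Type} [Field K] {v : DV K} {F G : K[X]} {d : ℕ} {X : Finset K}

/-- lower bound of the order of the determinant -/
lemma det_lower (hd : 2 ≤ d) (hF : F.natDegree ≤ d) (hG : G.natDegree ≤ d)
    (hres : resultant F G d d ≠ 0)
    (hX : ∀ y ∈ X, G.eval y ≠ 0 ∧ F.eval y / G.eval y ∈ X) (a : K) (r : ℤ) (κ : ℕ)
    (y : Fin (d ^ κ) → K) (hy : Function.Injective y) (hyX : ∀ i, y i ∈ X) :
    ∃ r0 : ℕ, 2 * (d * (d - 1)) * r0 + d ^ κ * κ * (d - 1) + d ^ κ = d ^ κ * d ^ κ ∧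
      ∑ j, ((((d : ℝ) ^ κ - 1) * ratH v d F G (y j) + (d - 1) * ∑ t : Fin κ,
        ((nn v a r ((rmap F G)^[t] (y j)) : ℝ) - ratH v d F G ((rmap F G)^[t] (y j))))) -
        r * (κ * (d : ℝ) ^ κ * (d - 1)) / 2 ≤
      r0 * v.o (resultant F G d d) + v.o (Matrix.vandermonde y).det := by
  obtain ⟨r0, hr0, hdet⟩ := SP_det' hd hF hG κ finFunctionFinEquiv
  refine ⟨r0, hr0, ?_⟩
  have hd1 : (1 : ℝ) ≤ d := by exact_mod_cast (by omega : 1 ≤ d)
  have hW := fun (t : ℕ) (j : Fin (d ^ κ)) => o_iter (v := v) hd hF hG hX (hyX j) t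
  have hM := mat_eq (F := F) (G := G) (d := d) (by omega) κ a y
    (fun t j => (rmap F G)^[t] (y j)) (fun t j => (hW t j).2.1)
  have hV := vand_energy (v := v) y hy
  -- the determinant
  have hdetM : ((Matrix.of fun i j => ∏ t : Fin κ, (((rmap F G)^[t] (y j) - a) ^
      ((finFunctionFinEquiv.symm i) t : ℕ) * (iter F G d t).2.eval (y j) ^ (d - 1))) :
      Matrix (Fin (d ^ κ)) (Fin (d ^ κ)) K).det ≠ 0 ∧
      v.o ((Matrix.of fun i j => ∏ t : Fin κ, (((rmap F G)^[t] (y j) - a) ^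
      ((finFunctionFinEquiv.symm i) t : ℕ) * (iter F G d t).2.eval (y j) ^ (d - 1))) :
      Matrix (Fin (d ^ κ)) (Fin (d ^ κ)) K).det =
        r0 * v.o (resultant F G d d) + v.o (Matrix.vandermonde y).det := by
    rw [← hM, Matrix.det_mul, Matrix.det_mul, det_shiftM, one_mul, Matrix.det_transpose]
    rcases hdet with h | h
    · rw [h]
      refine ⟨mul_ne_zero (pow_ne_zero _ hres) hV.1, ?_⟩
      rw [v.mul _ _ (pow_ne_zero _ hres) hV.1, v.o_pow _ hres]
    · rw [h]
      refine ⟨mul_ne_zero (neg_ne_zero.2 (pow_ne_zero _ hres)) hV.1, ?_⟩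
      rw [v.mul _ _ (neg_ne_zero.2 (pow_ne_zero _ hres)) hV.1, v.o_neg, v.o_pow _ hres]
  -- the entries
  set c : Fin (d ^ κ) → Fin (d ^ κ) → ℝ := fun i j => ∑ t : Fin κ,
    (((d : ℝ) - 1) * (v.o ((iter F G d t).2.eval (y j)) + nn v a r ((rmap F G)^[t] (y j))) -
      r * ((d : ℝ) - 1 - ((finFunctionFinEquiv.symm i) t : ℕ))) with hc
  have hentry : ∀ i j, v.ge (c i j) (∏ t : Fin κ, (((rmap F G)^[t] (y j) - a) ^
      ((finFunctionFinEquiv.symm i) t : ℕ) * (iter F G d t).2.eval (y j) ^ (d - 1))) := by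
    intro i j
    refine Pool.Agent.Helper55.RD.ge_prod _ _ _ fun t _ => ?_
    have h1 := DV.ge_pow (ge_nn (v := v) (a := a) (r := r) ((rmap F G)^[t] (y j)))
      ((finFunctionFinEquiv.symm i) t : ℕ)
    have h2 := DV.ge_pow (DV.ge_self (v := v) ((iter F G d t).2.eval (y j))) (d - 1)
    refine DV.ge_mono (DV.ge_mul h1 h2) ?_
    have h3 : (nn v a r ((rmap F G)^[t] (y j)) : ℝ) ≤ r := by
      exact_mod_cast (nn_le (v := v) (a := a) (r := r) ((rmap F G)^[t] (y j)))
    have h4 : (((finFunctionFinEquiv.symm i) t : ℕ) : ℝ) ≤ (d : ℝ) - 1 := by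
      have := ((finFunctionFinEquiv.symm i) t).2
      have h5 : ((((finFunctionFinEquiv.symm i) t : ℕ) + 1 : ℕ) : ℝ) ≤ d := by exact_mod_cast this
      push_cast at h5
      (clear * - h5; linarith)
    rw [Nat.cast_sub (by omega : 1 ≤ d)]
    push_cast
    (clear * - h4 h3; nlinarith [mul_nonneg (sub_nonneg.2 h4) (sub_nonneg.2 h3)])
  -- Leibniz
  set B : ℝ := ∑ j, ∑ t : Fin κ, (((d : ℝ) - 1) * (v.o ((iter F G d t).2.eval (y j)) +
      nn v a r ((rmap F G)^[t] (y j)))) -
      r * ∑ i : Fin (d ^ κ), ∑ t : Fin κ, ((d : ℝ) - 1 - ((finFunctionFinEquiv.symm i) t : ℕ)) with hB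
  have hge : v.ge B ((Matrix.of fun i j => ∏ t : Fin κ, (((rmap F G)^[t] (y j) - a) ^
      ((finFunctionFinEquiv.symm i) t : ℕ) * (iter F G d t).2.eval (y j) ^ (d - 1))) :
      Matrix (Fin (d ^ κ)) (Fin (d ^ κ)) K).det := by
    rw [Matrix.det_apply']
    refine DV.ge_sum _ _ fun σ _ => ge_sign σ ?_
    have h1 := Pool.Agent.Helper55.RD.ge_prod (v := v) univ (fun j => ∏ t : Fin κ, (((rmap F G)^[t] (y j) - a) ^
      ((finFunctionFinEquiv.symm (σ j)) t : ℕ) * (iter F G d t).2.eval (y j) ^ (d - 1)))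
      (fun j => c (σ j) j) (fun j _ => hentry (σ j) j)
    have h2 : ∑ j, c (σ j) j = B := by
      rw [hB, ← Equiv.sum_comp σ (fun i : Fin (d ^ κ) => ∑ t : Fin κ,
        ((d : ℝ) - 1 - ((finFunctionFinEquiv.symm i) t : ℕ))), mul_sum, ← sum_sub_distrib]
      refine sum_congr rfl fun j _ => ?_
      rw [hc, mul_sum, ← sum_sub_distrib]
    rw [← h2]
    exact h1
  have hle := DV.ge_le hge hdetM.1
  rw [hdetM.2] at hle
  push_cast at hle
  refine le_trans (le_of_eq ?_) hle
  rw [hB]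
  have hS := sum_exp d κ
  have h5 : ∀ j, ∑ t : Fin κ, (((d : ℝ) - 1) * (v.o ((iter F G d t).2.eval (y j)) +
      nn v a r ((rmap F G)^[t] (y j)))) = ((d : ℝ) ^ κ - 1) * ratH v d F G (y j) + (d - 1) * ∑ t : Fin κ,
        ((nn v a r ((rmap F G)^[t] (y j)) : ℝ) - ratH v d F G ((rmap F G)^[t] (y j))) := by
    intro j
    have h6 : ∑ t : Fin κ, (((d : ℝ) - 1) * (v.o ((iter F G d t).2.eval (y j)) +
      nn v a r ((rmap F G)^[t] (y j)))) = (∑ t : Fin κ, (d : ℝ) ^ (t : ℕ)) * (d - 1) * ratH v d F G (y j) +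
        (d - 1) * ∑ t : Fin κ,
        ((nn v a r ((rmap F G)^[t] (y j)) : ℝ) - ratH v d F G ((rmap F G)^[t] (y j))) := by
      rw [sum_mul, sum_mul, mul_sum, ← sum_add_distrib]
      refine sum_congr rfl fun t _ => ?_
      rw [(hW t j).2.2]
      ring
    have h7 : (∑ t : Fin κ, (d : ℝ) ^ (t : ℕ)) * (d - 1) = (d : ℝ) ^ κ - 1 := by
      rw [Fin.sum_univ_eq_sum_range (fun t => (d : ℝ) ^ t)]
      exact geom_sum_mul _ _
    rw [h6, h7]
  rw [sum_congr rfl fun j _ => h5 j]
  linear_combination ((r : ℝ) / 2) * hS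

/-- T-LE: energy lower bound at one place; the constant is linear in `κ = log_d (card S)` -/
theorem energy_lower (d : ℕ) (hd : 2 ≤ d) {K : Type} [Field K] [DecidableEq K] (v : DV K)
    {F G : K[X]} (hFG : IsRat F G d) {x : ℕ → K} {N : ℕ} (h : RatOrbit F G x N) (hN : 2 ≤ N)
    (R : RLoc v F G d (rX h) (ratH v d F G)) (κ : ℕ) (S : Finset K) (hS : S ⊆ rX h)
    (hc : S.card = d ^ κ) :
    -(6 * (d - 1) * κ * d ^ κ * R.ε : ℝ) ≤
      ∑ y ∈ S, ∑ z ∈ S with z ≠ y, gg v d F G (ratH v d F G) y z := by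
  have hd2 : (2 : ℝ) ≤ d := by exact_mod_cast hd
  have hres : resultant F G d d ≠ 0 := isRat_res (by omega) hFG
  have hX := rX_spec h
  have h3 : 3 ≤ (rX h).card := by
    have h1 : (range 3).image x ⊆ rX h := by
      intro y hy
      obtain ⟨i, _, rfl⟩ := mem_image.mp hy
      exact mem_rX h i
    have h2 : ((range 3).image x).card = 3 := by
      rw [card_image_of_injOn, card_range]
      intro i hi j hj e
      rw [mem_coe, mem_range] at hi hj
      exact h.inj i j (by omega) (by omega) e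
    calc 3 = ((range 3).image x).card := h2.symm
      _ ≤ _ := card_le_card h1
  -- enumeration
  set e := S.equivFinOfCardEq hc with he
  set y : Fin (d ^ κ) → K := fun i => (e.symm i : K) with hy
  have hyinj : Function.Injective y := fun i j hij => e.symm.injective (Subtype.ext hij)
  have hyX : ∀ i, y i ∈ rX h := fun i => hS (e.symm i).2
  have himg : S = univ.image y := by
    ext z
    rw [mem_image]
    constructor
    · intro hz
      exact ⟨e ⟨z, hz⟩, mem_univ _, by rw [hy]; simp⟩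
    · rintro ⟨i, _, rfl⟩
      exact (e.symm i).2
  obtain ⟨r0, hr0, hlow⟩ := det_lower (v := v) hd hFG.dA hFG.dB hres hX R.a R.r κ y hyinj hyX
  have hV := vand_energy (v := v) y hyinj
  set q : ℝ := v.o (resultant F G d d) / (d * (d - 1)) with hq
  -- rewriting of the energy
  have hsum : ∑ y ∈ S, ∑ z ∈ S with z ≠ y, gg v d F G (ratH v d F G) y z =
      ∑ i, ∑ j, if j = i then 0 else gg v d F G (ratH v d F G) (y i) (y j) := by
    rw [himg, sum_image (fun i _ j _ hij => hyinj hij)]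
    refine sum_congr rfl fun i _ => ?_
    rw [sum_filter, sum_image (fun i _ j _ hij => hyinj hij)]
    refine sum_congr rfl fun j _ => ?_
    by_cases hij : j = i
    · rw [if_pos hij, hij, if_neg (by simp)]
    · rw [if_neg hij, if_pos (fun e => hij (hyinj e))]
  have hgg : ∑ i, ∑ j, (if j = i then 0 else gg v d F G (ratH v d F G) (y i) (y j)) =
      2 * (v.o (Matrix.vandermonde y).det : ℝ) - 2 * ((d : ℝ) ^ κ - 1) * ∑ j, ratH v d F G (y j) +
        (d : ℝ) ^ κ * ((d : ℝ) ^ κ - 1) * q := by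
    have hV2 : 2 * (v.o (Matrix.vandermonde y).det : ℝ) =
        ∑ i, ∑ j, if j = i then (0 : ℝ) else (v.o (y i - y j) : ℝ) := by
      have := hV.2
      have h5 : ((2 * v.o (Matrix.vandermonde y).det : ℤ) : ℝ) =
        ((∑ i, ∑ j, if j = i then 0 else v.o (y i - y j) : ℤ) : ℝ) := by rw [this]
      push_cast at h5
      exact h5
    rw [hV2]
    have h6 : ∀ i, ∑ j, (if j = i then 0 else gg v d F G (ratH v d F G) (y i) (y j)) =
        ∑ j, (if j = i then (0 : ℝ) else (v.o (y i - y j) : ℝ)) -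
          ((d : ℝ) ^ κ - 1) * ratH v d F G (y i) - (∑ j, ratH v d F G (y j) - ratH v d F G (y i)) +
          ((d : ℝ) ^ κ - 1) * q := by
      intro i
      have h7 : ∀ f : Fin (d ^ κ) → ℝ, ∑ j, (if j = i then 0 else f j) = ∑ j, f j - f i := by
        intro f
        rw [eq_sub_iff_add_eq, ← sum_erase_add univ f (mem_univ i), add_left_inj,
          ← sum_erase_add univ _ (mem_univ i), if_pos rfl, add_zero]
        refine sum_congr rfl fun j hj => ?_
        rw [if_neg (ne_of_mem_erase hj)]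
      have h8 : ∑ j, (if j = i then 0 else gg v d F G (ratH v d F G) (y i) (y j)) =
          ∑ j, ((if j = i then (0 : ℝ) else (v.o (y i - y j) : ℝ)) -
            (if j = i then 0 else ratH v d F G (y i)) - (if j = i then 0 else ratH v d F G (y j)) +
            (if j = i then 0 else q)) := by
        refine sum_congr rfl fun j _ => ?_
        by_cases hij : j = i
        · simp [hij]
        · simp only [if_neg hij]
          unfold gg
          rw [hq]
      rw [h8, sum_add_distrib, sum_sub_distrib, sum_sub_distrib, h7 (fun _ => ratH v d F G (y i)),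
        h7 (fun j => ratH v d F G (y j)), h7 (fun _ => q)]
      simp only [sum_const, card_univ, Fintype.card_fin, nsmul_eq_mul]
      push_cast
      ring
    rw [sum_congr rfl fun i _ => h6 i]
    simp only [sum_add_distrib, sum_sub_distrib, ← mul_sum, sum_const, card_univ, Fintype.card_fin,
      nsmul_eq_mul]
    push_cast
    ring
  rw [hsum, hgg]
  -- the pointwise bound
  have hpt : ∀ j, ∀ t : Fin κ, -(6 * R.ε : ℝ) ≤ q - R.r - 2 * ratH v d F G ((rmap F G)^[t] (y j)) +
      2 * nn v R.a R.r ((rmap F G)^[t] (y j)) := fun j t =>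
    close3 (ratH v d F G) R h3 (iterate_mem (fun z hz => (hX z hz).2) (hyX j) t)
  have hpt2 : -(6 * R.ε : ℝ) * (κ * (d : ℝ) ^ κ) ≤ ∑ j, ∑ t : Fin κ,
      (q - R.r + 2 * ((nn v R.a R.r ((rmap F G)^[t] (y j)) : ℝ) -
        ratH v d F G ((rmap F G)^[t] (y j)))) := by
    have h9 : ∑ j : Fin (d ^ κ), ∑ t : Fin κ, -(6 * R.ε : ℝ) = -(6 * R.ε : ℝ) * (κ * (d : ℝ) ^ κ) := by
      simp only [sum_const, card_univ, Fintype.card_fin, nsmul_eq_mul]
      push_cast
      ring
    rw [← h9]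
    refine sum_le_sum fun j _ => sum_le_sum fun t _ => ?_
    (clear * - hpt; linarith [hpt j t])
  have hpt3 : ∑ j, ∑ t : Fin κ,
      (q - R.r + 2 * ((nn v R.a R.r ((rmap F G)^[t] (y j)) : ℝ) -
        ratH v d F G ((rmap F G)^[t] (y j)))) = κ * (d : ℝ) ^ κ * (q - R.r) + 2 * ∑ j, ∑ t : Fin κ,
      ((nn v R.a R.r ((rmap F G)^[t] (y j)) : ℝ) - ratH v d F G ((rmap F G)^[t] (y j))) := by
    simp only [sum_add_distrib, sum_sub_distrib, ← mul_sum, sum_const, card_univ, Fintype.card_fin,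
      nsmul_eq_mul]
    push_cast
    ring
  rw [hpt3] at hpt2
  -- the exponent
  have hr1 : 2 * (r0 : ℝ) * v.o (resultant F G d d) =
      ((d : ℝ) ^ κ * (d : ℝ) ^ κ - (d : ℝ) ^ κ - (d : ℝ) ^ κ * κ * (d - 1)) * q := by
    have h10 : (2 * (d * ((d : ℝ) - 1)) * r0 + (d : ℝ) ^ κ * κ * (d - 1) + (d : ℝ) ^ κ) =
        (d : ℝ) ^ κ * (d : ℝ) ^ κ := by
      have := congrArg (Nat.cast (R := ℝ)) hr0
      push_cast [Nat.cast_sub (show 1 ≤ d by omega)] at this
      exact this
    have h11 : (d : ℝ) * (d - 1) * q = v.o (resultant F G d d) := by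
      rw [hq]
      have : (d : ℝ) * (d - 1) ≠ 0 := by
        have : (0 : ℝ) < d * (d - 1) := by (clear * - hd2; nlinarith)
        exact this.ne'
      exact mul_div_cancel₀ _ this
    rw [← h11]
    linear_combination q * h10
  rw [sum_add_distrib, ← mul_sum, ← mul_sum] at hlow
  have hd3 : (0 : ℝ) ≤ (d : ℝ) - 1 := by (clear * - hd2; linarith)
  have h12 := mul_le_mul_of_nonneg_left hpt2 hd3
  (clear * - hlow hr1 h12; nlinarith [hlow, h12, hr1])

end local_

/-- T-LE2: the same for sets with `2 d^κ` elements (average over the subsets with `d^κ` elements) -/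
theorem energy_lower2 (d : ℕ) (hd : 2 ≤ d) {K : Type} [Field K] [DecidableEq K] (v : DV K)
    {F G : K[X]} (hFG : IsRat F G d) {x : ℕ → K} {N : ℕ} (h : RatOrbit F G x N) (hN : 2 ≤ N)
    (R : RLoc v F G d (rX h) (ratH v d F G)) (κ : ℕ) (hκ : 1 ≤ κ) (S : Finset K) (hS : S ⊆ rX h)
    (hc : S.card = 2 * d ^ κ) :
    -(36 * (d - 1) * κ * d ^ κ * R.ε : ℝ) ≤
      ∑ y ∈ S, ∑ z ∈ S with z ≠ y, gg v d F G (ratH v d F G) y z := by
  obtain ⟨m, hm⟩ : ∃ m, d ^ κ = m + 2 := by
    have : 2 ≤ d ^ κ := le_trans hd (by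
      calc d = d ^ 1 := (pow_one d).symm
        _ ≤ d ^ κ := Nat.pow_le_pow_right (by omega) hκ)
    exact ⟨d ^ κ - 2, by omega⟩
  have h1 := sum_powersetCard S (d ^ κ) (by omega) (gg v d F G (ratH v d F G))
  have h2 : (S.powersetCard (d ^ κ)).card • (-(6 * (d - 1) * κ * d ^ κ * R.ε : ℝ)) ≤
      ∑ A ∈ S.powersetCard (d ^ κ), ∑ y ∈ A, ∑ z ∈ A with z ≠ y, gg v d F G (ratH v d F G) y z := by
    apply card_nsmul_le_sum
    intro A hA
    rw [mem_powersetCard] at hA
    exact energy_lower d hd v hFG h hN R κ A (hA.1.trans hS) hA.2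
  rw [h1, card_powersetCard, hc, nsmul_eq_mul] at h2
  set E := ∑ y ∈ S, ∑ z ∈ S with z ≠ y, gg v d F G (ratH v d F G) y z with hE
  set T : ℝ := (d - 1) * κ * d ^ κ * R.ε with hT
  have hT0 : 0 ≤ T := by
    have : (1 : ℝ) ≤ d := by exact_mod_cast (by omega : 1 ≤ d)
    have h3 : (0 : ℝ) ≤ (d : ℝ) - 1 := by (clear * - this; linarith)
    (clear * - this hκ hd; positivity)
  rw [hm] at h2
  -- binomial coefficients
  have hb : ((m + 2 : ℕ) : ℝ) * (m + 1 : ℕ) * ((2 * (m + 2)).choose (m + 2) : ℝ) =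
      (2 * (m + 2) : ℕ) * (2 * m + 3 : ℕ) * ((2 * (m + 2) - 2).choose (m + 2 - 2) : ℝ) := by
    have e1 := Nat.add_one_mul_choose_eq (2 * m + 3) (m + 1)
    have e2 := Nat.add_one_mul_choose_eq (2 * m + 2) m
    have e3 : 2 * (m + 2) - 2 = 2 * m + 2 := by omega
    have e4 : m + 2 - 2 = m := by omega
    have e5 : 2 * (m + 2) = 2 * m + 3 + 1 := by omega
    rw [e3, e4, e5]
    have e1' : ((2 * m + 3 + 1 : ℕ) : ℝ) * ((2 * m + 3).choose (m + 1) : ℝ) =
      ((2 * m + 3 + 1).choose (m + 1 + 1) : ℝ) * (m + 1 + 1 : ℕ) := by exact_mod_cast e1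
    have e2' : ((2 * m + 2 + 1 : ℕ) : ℝ) * ((2 * m + 2).choose m : ℝ) =
      ((2 * m + 2 + 1).choose (m + 1) : ℝ) * (m + 1 : ℕ) := by exact_mod_cast e2
    push_cast at e1' e2' ⊢
    linear_combination (-(m + 1 : ℝ)) * e1' - (2 * (m : ℝ) + 3 + 1) * e2'
  have hc0 : (0 : ℝ) < ((2 * (m + 2) - 2).choose (m + 2 - 2) : ℝ) := by
    exact_mod_cast Nat.choose_pos (by omega)
  set c := ((2 * (m + 2) - 2).choose (m + 2 - 2) : ℝ) with hcdef
  set b := ((2 * (m + 2)).choose (m + 2) : ℝ) with hbdef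
  have hb6 : b ≤ 6 * c := by
    push_cast at hb
    have hm0 : (0 : ℝ) ≤ m := Nat.cast_nonneg m
    have hk : (0 : ℝ) < (m + 2) * (m + 1) := by (clear * -; positivity)
    have : ((m : ℝ) + 2) * (m + 1) * b ≤ (m + 2) * (m + 1) * (6 * c) := by
      rw [hb]
      (clear * - hm0 hc0; nlinarith [mul_nonneg hm0 hc0.le, mul_nonneg (mul_nonneg hm0 hm0) hc0.le])
    exact le_of_mul_le_mul_left this hk
  have h5 : b * -(6 * T) ≤ c * E := by
    refine le_trans (le_of_eq ?_) h2
    rw [hT]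
    ring
  have h6 : c * -(36 * T) ≤ c * E := by
    refine le_trans ?_ h5
    (clear * - hT0 hb6; nlinarith)
  have h7 := le_of_mul_le_mul_left h6 hc0
  rw [hT] at h7
  (clear * - h7; linarith)

end Pool.Agent.Helper43.PT

end

section

set_option autoImplicit false

open Finset Polynomial

namespace Pool.Agent.Helper33.PT

open Pool.Agent.Helper45.FR Pool.Agent.Helper33.UB Pool.Agent.Helper51.RatTree
  Pool.Agent.Helper93.RatODE Pool.Agent.Helper33.PS Pool.Agent.Helper55.RD

section energy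

variable {E : Type} [Field E]

theorem En_image [DecidableEq E] (v : DV E) (d : ℕ) (A B : E[X]) (H : E → ℝ) (x : ℕ → E)
    (S : Finset ℕ) (hinj : Set.InjOn x (S : Set ℕ)) :
    En v x (fun j => H (x j)) ((v.o (resultant A B d d) : ℝ) / (d * (d - 1))) S =
      ∑ y ∈ S.image x, ∑ z ∈ S.image x with z ≠ y, gg v d A B H y z := by
  unfold En
  rw [Finset.sum_image hinj]
  apply Finset.sum_congr rfl
  intro i hi
  have e : (S.image x).filter (fun z => z ≠ x i) = (S.filter (fun j => j ≠ i)).image x := by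
    ext z
    simp only [Finset.mem_filter, Finset.mem_image]
    constructor
    · rintro ⟨⟨j, hj, rfl⟩, hne⟩
      exact ⟨j, ⟨hj, fun h => hne (by rw [h])⟩, rfl⟩
    · rintro ⟨j, ⟨hj, hne⟩, rfl⟩
      exact ⟨⟨j, hj, rfl⟩, fun h => hne (hinj hj hi h)⟩
  rw [e, Finset.sum_image (hinj.mono (by
    intro j hj
    exact (Finset.mem_filter.1 hj).1))]
  rfl

theorem energy_ge (d : ℕ) (hd : 2 ≤ d) (v : DV E) {A B : E[X]} (hAB : IsRat A B d) {x : ℕ → E}
    {N : ℕ} (h : RatOrbit A B x N) (hN : 2 ≤ N) (R : RLoc v A B d (rX h) (ratH v d A B)) (κ : ℕ)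
    (hκ : 1 ≤ κ) (S : Finset ℕ) (hS : S ⊆ range (N + 1)) (hc : S.card = 2 * d ^ κ) :
    2 * (-(18 * (d - 1) * κ * d ^ κ * R.ε : ℝ)) ≤
      En v x (fun j => ratH v d A B (x j)) ((v.o (resultant A B d d) : ℝ) / (d * (d - 1))) S := by
  classical
  have hinj : Set.InjOn x (S : Set ℕ) := fun i hi j hj hij =>
    h.inj i j (by have := mem_range.1 (hS hi); omega) (by have := mem_range.1 (hS hj); omega) hij
  rw [En_image v d A B _ x S hinj]
  have h1 := Pool.Agent.Helper43.PT.energy_lower2 d hd v hAB h hN R κ hκ (S.image x) (by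
    intro y hy
    obtain ⟨i, _, rfl⟩ := mem_image.mp hy
    exact mem_rX h i) (by rw [card_image_of_injOn hinj, hc])
  refine le_trans (le_of_eq ?_) h1
  ring

end energy

end Pool.Agent.Helper33.PT

end

section

set_option autoImplicit false

open Finset Polynomial

namespace Pool.Agent.Helper33.PT

open Pool.Agent.Helper33.UB Pool.Agent.Helper51.RatTree Pool.Agent.Helper55.RD
  Pool.Agent.Helper93.RatODE Pool.Agent.Helper45.FR Pool.Agent.Helper33.PS

section

variable {k K V : Type} [Field k] [Field K] [Algebra k K] [DecidableEq K] {P : PSys k K V}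
  {c : GConst} {N : ℕ} {M : ℝ} (I : GInst P c N M)

lemma not_close {n Nst : ℕ} (hN : n + Nst ≤ N) (hNst : 1 ≤ Nst) {v : V} (hv : v ∈ I.T)
    (hvr : v ∉ I.rel n Nst) (hε0 : I.ε v = 0) {b m : ℕ} (hb : b ≤ n) (hm : 1 ≤ m) (hdvd : m ∣ Nst) :
    I.g v b (b + m) < c.c1 := by
  classical
  by_contra hclose
  push Not at hclose
  apply hvr
  unfold GInst.rel
  refine mem_filter.mpr ⟨hv, Or.inr ⟨hε0, ?_⟩⟩
  obtain ⟨q, hq⟩ := hdvd
  have hq1 : 1 ≤ q := by
    rcases Nat.eq_zero_or_pos q with h | h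
    · rw [h, mul_zero] at hq; omega
    · exact h
  have h1 := I.persist_mul hv hε0 hm hclose (n := n) hb q hq1 (by
    rw [mul_comm q m, ← hq]; exact hN)
  rwa [mul_comm q m, ← hq] at h1

end

end Pool.Agent.Helper33.PT

end
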