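import Pool.Agent.Helper23.MB.L01_ab0
import Pool.Agent.Helper23.MB.L01_ab1
import Pool.Agent.Helper23.MB.L01_ab10
import Pool.Agent.Helper23.MB.L01_ab2
import Pool.Agent.Helper23.MB.L01_ab4
import Pool.Agent.Helper23.MB.L01_ab6
import Pool.Agent.Helper23.MB.L01_ab7
import Pool.Agent.Helper23.MB.L01_ab8
import Pool.Agent.Helper23.MB.L01_ab9
import Pool.Agent.Helper23.MB.L01_abc0
import Pool.Agent.Helper23.MB.L01_abc1
import Pool.Agent.Helper23.MB.L01_abc2

/-!
Parts of Helper45.S4Gal, Helper38.DT.IterEndo, Helper45.M8Desc2, Helper45.Untwist, Helper45.DT.Insep, Helper91.DT.A, Helper91.DT.B, Helper91.DT.C, Helper35.DT.Long, Helper47.EN.Ext, Helper34.Dep.Ex, Helper82.PS.Window, Helper33.PS.Mods, Helper33.UB.GFinal, Helper33.PS.Main, Helper82.PT.Log, Helper55.LW.Spec, Helper36.PT.Norm, Helper36.PT.Level, Helper33.PT.Mods, Helper33.PT.Lev2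
-/

attribute [-simp] Valuation.IsUniformizer.val
attribute [local instance 5000]
  Pool.Agent.Helper23.MB.Inst.rCharZero Pool.Agent.Helper23.MB.Inst.rALM
  Pool.Agent.Helper23.MB.Inst.rARM Pool.Agent.Helper23.MB.Inst.rALSM
  Pool.Agent.Helper23.MB.Inst.rARSM Pool.Agent.Helper23.MB.Inst.rARRLE
  Pool.Agent.Helper23.MB.Inst.rALRLE Pool.Agent.Helper23.MB.Inst.rARRLT
  Pool.Agent.Helper23.MB.Inst.rALRLT Pool.Agent.Helper23.MB.Inst.rPMRLT
  Pool.Agent.Helper23.MB.Inst.rMPRLT Pool.Agent.Helper23.MB.Inst.rPMM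
  Pool.Agent.Helper23.MB.Inst.rMPM Pool.Agent.Helper23.MB.Inst.rPMSM
  Pool.Agent.Helper23.MB.Inst.rMPSM Pool.Agent.Helper23.MB.Inst.rEAOL
  Pool.Agent.Helper23.MB.Inst.rIOR Pool.Agent.Helper23.MB.Inst.rISOR
  Pool.Agent.Helper23.MB.Inst.rNZD Pool.Agent.Helper23.MB.Inst.zCharZero
  Pool.Agent.Helper23.MB.Inst.zALM Pool.Agent.Helper23.MB.Inst.zARM
  Pool.Agent.Helper23.MB.Inst.zIOR Pool.Agent.Helper23.MB.Inst.zISOR
  Pool.Agent.Helper23.MB.Inst.zNZD Pool.Agent.Helper23.MB.Inst.qCharZero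
  Pool.Agent.Helper23.MB.Inst.free Pool.Agent.Helper23.MB.Inst.faith
  Pool.Agent.Helper23.MB.Inst.torsionFree Pool.Agent.Helper23.MB.Inst.rfFaith
  Pool.Agent.Helper23.MB.Inst.hAdd Pool.Agent.Helper23.MB.Inst.hAddM
  Pool.Agent.Helper23.MB.Inst.hMul Pool.Agent.Helper23.MB.Inst.hMon
  Pool.Agent.Helper23.MB.Inst.hZero Pool.Agent.Helper23.MB.Inst.hOne
  Pool.Agent.Helper23.MB.Inst.hMZ Pool.Agent.Helper23.MB.Inst.hRing
  Pool.Agent.Helper23.MB.Inst.aAdd Pool.Agent.Helper23.MB.Inst.aAddM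
  Pool.Agent.Helper23.MB.Inst.aMul Pool.Agent.Helper23.MB.Inst.aMon
  Pool.Agent.Helper23.MB.Inst.aZero Pool.Agent.Helper23.MB.Inst.aOne
  Pool.Agent.Helper23.MB.Inst.aMZ Pool.Agent.Helper23.MB.Inst.aRing

namespace Pool.Agent.Helper16
end Pool.Agent.Helper16
namespace Pool.Agent.Helper33
end Pool.Agent.Helper33
namespace Pool.Agent.Helper33.PS
end Pool.Agent.Helper33.PS
namespace Pool.Agent.Helper33.PT
end Pool.Agent.Helper33.PT
namespace Pool.Agent.Helper33.UB
end Pool.Agent.Helper33.UB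
namespace Pool.Agent.Helper35.PS
end Pool.Agent.Helper35.PS
namespace Pool.Agent.Helper38.DT
end Pool.Agent.Helper38.DT
namespace Pool.Agent.Helper45.FF
end Pool.Agent.Helper45.FF
namespace Pool.Agent.Helper45.FR
end Pool.Agent.Helper45.FR
namespace Pool.Agent.Helper45.M8
end Pool.Agent.Helper45.M8
namespace Pool.Agent.Helper45.S4
end Pool.Agent.Helper45.S4
namespace Pool.Agent.Helper47.RR
end Pool.Agent.Helper47.RR
namespace Pool.Agent.Helper51.RatTree
end Pool.Agent.Helper51.RatTree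
namespace Pool.Agent.Helper55.LW
end Pool.Agent.Helper55.LW
namespace Pool.Agent.Helper55.RD
end Pool.Agent.Helper55.RD
namespace Pool.Agent.Helper61.BBGermA
end Pool.Agent.Helper61.BBGermA
namespace Pool.Agent.Helper93.RatODE
end Pool.Agent.Helper93.RatODE

section

set_option autoImplicit false

set_option linter.style.haveILetI false

namespace Pool.Agent.Helper45.S4

open Polynomial IntermediateField Pool.Agent.Helper16 Pool.Agent.Helper33 Pool.Agent.Helper45.FF

section trans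

variable {k E M : Type} [Field k] [Field E] [Field M] [Algebra k E] [Algebra k M] [Algebra E M]
  [IsScalarTower k E M]

theorem ord_prod (w : Place k M) {ι : Type} (s : Finset ι) (f : ι → M) (hf : ∀ i ∈ s, f i ≠ 0) :
    w.ord (∏ i ∈ s, f i) = ∑ i ∈ s, w.ord (f i) := by
  classical
  induction s using Finset.induction_on with
  | empty => simp [Place.ord_one]
  | insert a s ha ih =>
    rw [Finset.prod_insert ha, Finset.sum_insert ha, w.ord_mul (hf a (Finset.mem_insert_self a s))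
      (Finset.prod_ne_zero_iff.2 fun i hi => hf i (Finset.mem_insert_of_mem hi)),
      ih fun i hi => hf i (Finset.mem_insert_of_mem hi)]

end trans

end Pool.Agent.Helper45.S4

end

section

set_option autoImplicit false

set_option linter.style.haveILetI false

namespace Pool.Agent.Helper38.DT

open Polynomial Pool.Agent.Helper93.RatODE Pool.Agent.Helper45.FR

section iterEndo

variable {E M : Type} [Field E] [Field M] [Algebra E M]

theorem phi_iter_one (F G : E[X]) (d : ℕ) (z : M) (a : ℕ) :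
    (phi F G d)^[a] (z, 1) = (aeval z (iter F G d a).1, aeval z (iter F G d a).2) := by
  rw [phi_iter]
  have h1 := (iter_natDegree (P := F) (Q := G) (d := d) a).1
  have h2 := (iter_natDegree (P := F) (Q := G) (d := d) a).2
  rw [hev_eq _ _ h1 _ _ one_ne_zero, hev_eq _ _ h2 _ _ one_ne_zero]
  simp

theorem iter_comp (F G : E[X]) (d : ℕ) (z u : M) (a b : ℕ)
    (h0 : aeval z (iter F G d a).2 ≠ 0)
    (hu : u * aeval z (iter F G d a).2 = aeval z (iter F G d a).1) :
    aeval z (iter F G d (a + b)).1 =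
        (aeval z (iter F G d a).2) ^ (d ^ b) * aeval u (iter F G d b).1 ∧
      aeval z (iter F G d (a + b)).2 =
        (aeval z (iter F G d a).2) ^ (d ^ b) * aeval u (iter F G d b).2 := by
  have h1 := phi_iter_one F G d z (a + b)
  rw [add_comm a b, Function.iterate_add_apply, phi_iter_one, phi_iter] at h1
  have h2 := (iter_natDegree (P := F) (Q := G) (d := d) b).1
  have h3 := (iter_natDegree (P := F) (Q := G) (d := d) b).2
  rw [hev_eq _ _ h2 _ _ h0, hev_eq _ _ h3 _ _ h0, ← hu, mul_div_cancel_right₀ _ h0] at h1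
  rw [add_comm a b]
  exact ⟨(congrArg Prod.fst h1).symm, (congrArg Prod.snd h1).symm⟩

theorem iter_endo {z : M} (hz : Transcendental E z) (F G : E[X]) (d : ℕ) (hd : 2 ≤ d)
    (hFG : IsRatD F G d) (Φ : M →ₐ[E] M) (r : ℕ)
    (hΦ : Φ z * aeval z (iter F G d r).2 = aeval z (iter F G d r).1) (i : ℕ) :
    (Φ ^ i) z * aeval z (iter F G d (r * i)).2 = aeval z (iter F G d (r * i)).1 := by
  have hne : ∀ a, aeval z (iter F G d a).2 ≠ 0 := by
    intro a h0
    exact hz ⟨_, iter_snd_ne_zero F G d hd hFG a, h0⟩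
  induction i with
  | zero => simp [iter]
  | succ i ih =>
    obtain ⟨h1, h2⟩ := iter_comp F G d z (Φ z) r (r * i) (hne r) hΦ
    have h3 := congrArg Φ ih
    rw [map_mul, ← aeval_algHom_apply, ← aeval_algHom_apply] at h3
    rw [Nat.mul_succ, add_comm (r * i) r, h1, h2, pow_succ', ← h3]
    change Φ ((Φ ^ i) z) * _ = _
    ring

end iterEndo

end Pool.Agent.Helper38.DT

end

section

set_option autoImplicit false

set_option linter.style.haveILetI false

namespace Pool.Agent.Helper45.M8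

open Finset Polynomial Pool.Agent.Helper93.RatODE Pool.Agent.Helper45.FR

variable {k L₁ L : Type*} [Field k] [Field L₁] [Field L] [Algebra k L₁] [Algebra L₁ L]
  [Algebra k L] [IsScalarTower k L₁ L]

/-- **Descent of an orbit to the field of its cross ratios**, with cross ratios. -/
theorem descent_crr [Infinite L₁] {F G : L[X]} {d : ℕ} (hd : 1 ≤ d) (hFG : IsCoprime F G)
    (hF : F.natDegree ≤ d) (hG : G.natDegree ≤ d) (htop : F.coeff d ≠ 0 ∨ G.coeff d ≠ 0)
    (x : ℕ → L) (N a N' : ℕ) (hx : RatOrbit F G x N) (h1N : a + N' ≤ N) (h2N : a + (2 * d) ≤ N)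
    (hcross : ∀ i ≤ 2 * d + 1, ∃ c : L₁, algebraMap L₁ L c =
      crr (x (a + 0)) (x (a + 2)) (x (a + 1)) (x (a + i))) :
    ∃ (P₁ Q₁ : L₁[X]) (z : ℕ → L₁), IsCoprime P₁ Q₁ ∧ P₁.natDegree ≤ d ∧ Q₁.natDegree ≤ d ∧
      (P₁.coeff d ≠ 0 ∨ Q₁.coeff d ≠ 0) ∧ RatOrbit P₁ Q₁ z N' ∧
      (ConstConj k P₁ Q₁ d → ConstConj k F G d) ∧
      (∃ B : Matrix (Fin 2) (Fin 2) L, B.det ≠ 0 ∧ ∀ i, ∃ s : L, s ≠ 0 ∧
        mp B (algebraMap L₁ L (z i), (1 : L)) = s • (x (a + i), (1 : L))) ∧
      ∀ i j l m, algebraMap L₁ L (crr (z i) (z j) (z l) (z m)) =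
        crr (x (a + i)) (x (a + j)) (x (a + l)) (x (a + m)) := by
  haveI : Infinite L := Infinite.of_injective _ (algebraMap L₁ L).injective
  obtain ⟨A, P', Q', c, hA, hc, hP', hQ', hcop, htop', h1, h2, hA01, hA11⟩ :=
    exists_conj_explicit (k := L₁) (K := L) hd hFG hF hG htop (fun i => x (a + i))
      (fun i _ => ⟨hx.ne _, hx.step _⟩)
      (fun i hi j hj hij => by
        have := hx.inj (a + i) (a + j) (by omega) (by omega) hij
        omega) hcross
  simp only [add_zero] at hA01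
  have hcop' : IsCoprime P' Q' := (Polynomial.isCoprime_map (algebraMap L₁ L)).1 hcop
  let ι : L₁ × L₁ → L × L := fun w => (algebraMap L₁ L w.1, algebraMap L₁ L w.2)
  let v0 : L₁ × L₁ := (0, 1)
  have hv0 : v0 ≠ 0 := by
    intro h
    exact one_ne_zero (congrArg Prod.snd h)
  -- vectors and pairs
  have hFGA : ∀ w : L₁ × L₁, phi F G d (mp A (ι w)) = c • mp A (ι (phi P' Q' d w)) := by
    intro w
    have e := conj_aeval (L := L) h1 h2 ![algebraMap L₁ L w.1, algebraMap L₁ L w.2]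
    rw [← fv_eq_aeval, ← fv_eq_aeval] at e
    have e0 := congrFun e 0
    have e1 := congrFun e 1
    have m1 := hev_map (Algebra.ofId L₁ L) P' d w.1 w.2
    have m2 := hev_map (Algebra.ofId L₁ L) Q' d w.1 w.2
    rw [Algebra.ofId_apply, Algebra.ofId_apply, Algebra.ofId_apply] at m1 m2
    simp only [fv, Pi.smul_apply, smul_eq_mul, mulVec_zero', mulVec_one', Matrix.cons_val_zero,
      Matrix.cons_val_one, Matrix.map_apply, Algebra.algebraMap_self, RingHom.id_apply] at e0 e1
    rw [← m1, ← m2] at e0 e1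
    exact Prod.ext e0 e1
  -- the orbit
  have hclaim : ∀ n : ℕ, ∃ s : L, s ≠ 0 ∧ mp A (ι ((phi P' Q' d)^[n] v0)) = s • (x (a + n), (1 : L)) := by
    intro n
    induction n with
    | zero =>
      refine ⟨A 1 1, hA11, ?_⟩
      simp only [Function.iterate_zero, id, mp, ι, v0, map_zero, map_one, mul_zero, mul_one,
        zero_add, add_zero, Prod.smul_mk, smul_eq_mul]
      rw [hA01, mul_comm]
    | succ n ih =>
      obtain ⟨s, hs, hsn⟩ := ih
      rw [Function.iterate_succ_apply']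
      have e1 := hFGA ((phi P' Q' d)^[n] v0)
      rw [hsn, phi_smul] at e1
      have e2 : phi F G d (x (a + n), (1 : L)) = G.eval (x (a + n)) • (x (a + (n + 1)), (1 : L)) := by
        have e3 : ∀ R : L[X], R.natDegree ≤ d → hev R d (x (a + n)) (1 : L) = R.eval (x (a + n)) := by
          intro R hR
          rw [hev_eq_eval R d hR _ 1 one_ne_zero, one_pow, one_mul, div_one]
        have e4 := hx.step (a + n)
        have e5 := hx.ne (a + n)
        refine Prod.ext ?_ ?_
        · change hev F d (x (a + n)) (1 : L) = G.eval (x (a + n)) * x (a + (n + 1))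
          rw [e3 F hF, ← add_assoc, e4]
          field_simp
        · change hev G d (x (a + n)) (1 : L) = G.eval (x (a + n)) * 1
          rw [e3 G hG, mul_one]
      rw [e2, smul_smul] at e1
      refine ⟨c⁻¹ * (s ^ d * G.eval (x (a + n))), ?_, ?_⟩
      · exact mul_ne_zero (inv_ne_zero hc) (mul_ne_zero (pow_ne_zero d hs) (hx.ne _))
      · rw [mul_smul, e1, smul_smul, inv_mul_cancel₀ hc, one_smul]
  have hcr : ∀ i j : ℕ, cr ((phi P' Q' d)^[i] v0) ((phi P' Q' d)^[j] v0) = 0 ↔ x (a + i) = x (a + j) := by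
    intro i j
    obtain ⟨s, hs, hs'⟩ := hclaim i
    obtain ⟨r, hr, hr'⟩ := hclaim j
    have e1 := cr_mp A (ι ((phi P' Q' d)^[i] v0)) (ι ((phi P' Q' d)^[j] v0))
    rw [hs', hr', cr_smul_left, cr_smul_right] at e1
    have e2 : cr (ι ((phi P' Q' d)^[i] v0)) (ι ((phi P' Q' d)^[j] v0)) =
        algebraMap L₁ L (cr ((phi P' Q' d)^[i] v0) ((phi P' Q' d)^[j] v0)) := by
      simp only [cr, ι, map_sub, map_mul]
    have e3 : cr (x (a + i), (1 : L)) (x (a + j), (1 : L)) = x (a + i) - x (a + j) := by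
      simp only [cr]; ring
    rw [e2, e3] at e1
    constructor
    · intro h
      rw [h, map_zero, mul_zero] at e1
      rcases mul_eq_zero.1 e1 with e4 | e4
      · exact absurd e4 hs
      · rcases mul_eq_zero.1 e4 with e5 | e5
        · exact absurd e5 hr
        · exact sub_eq_zero.1 e5
    · intro h
      rw [h, sub_self, mul_zero, mul_zero] at e1
      rcases mul_eq_zero.1 e1.symm with e4 | e4
      · exact absurd e4 hA
      · exact (map_eq_zero _).1 e4
  -- periodicity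
  obtain ⟨m, n, hmn, hmn'⟩ : ∃ m n : ℕ, m < n ∧ x (a + m) = x (a + n) := by
    have hfin : (Set.range fun i => x (a + i)).Finite :=
      hx.fin.subset (by rintro _ ⟨i, rfl⟩; exact ⟨a + i, rfl⟩)
    have hninj : ¬ Function.Injective (fun i => x (a + i)) := by
      intro hinj
      exact Set.infinite_range_of_injective hinj hfin
    rw [Function.not_injective_iff] at hninj
    obtain ⟨i, j, hij, hne⟩ := hninj
    rcases lt_or_gt_of_ne hne with h | h
    · exact ⟨i, j, h, hij⟩
    · exact ⟨j, i, h, hij.symm⟩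
  obtain ⟨t, z, hz, hzc⟩ := exists_ratOrbit_coord hcop' hP' hQ' htop' hv0 hmn ((hcr m n).2 hmn') N'
    (fun i j hij hj h0 => by
      have := hx.inj (a + i) (a + j) (by omega) (by omega) ((hcr i j).1 h0)
      omega)
  let T : Matrix (Fin 2) (Fin 2) L := !![algebraMap L₁ L t, 1; 1, 0]
  have hT : T.det ≠ 0 := by
    simp [T, Matrix.det_fin_two]
  have hB : (A * T).det ≠ 0 := by
    rw [Matrix.det_mul]; exact mul_ne_zero hA hT
  have hBz : ∀ i, ∃ s : L, s ≠ 0 ∧
      mp (A * T) (algebraMap L₁ L (z i), (1 : L)) = s • (x (a + i), (1 : L)) := by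
    intro i
    obtain ⟨s, hs, hs'⟩ := hzc i
    obtain ⟨r, hr, hr'⟩ := hclaim i
    have hs0 : algebraMap L₁ L s ≠ 0 := (_root_.map_ne_zero _).2 hs
    refine ⟨(algebraMap L₁ L s)⁻¹ * r, mul_ne_zero (inv_ne_zero hs0) hr, ?_⟩
    have e1 : ι ((phi P' Q' d)^[i] v0) = algebraMap L₁ L s •
        ((algebraMap L₁ L t * algebraMap L₁ L (z i) + 1, algebraMap L₁ L (z i)) : L × L) := by
      rw [hs']
      refine Prod.ext ?_ ?_
      · change algebraMap L₁ L (s * (t * z i + 1)) = _ * (_ + 1)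
        simp only [map_mul, map_add, map_one]
      · change algebraMap L₁ L (s * z i) = _ * _
        rw [map_mul]
    have e2 : mp (A * T) (algebraMap L₁ L (z i), (1 : L)) = mp A
        ((algebraMap L₁ L t * algebraMap L₁ L (z i) + 1, algebraMap L₁ L (z i)) : L × L) := by
      simp only [mp, Matrix.mul_apply, Fin.sum_univ_two, T, Matrix.of_apply, Matrix.cons_val',
        Matrix.cons_val_zero, Matrix.cons_val_one, Matrix.cons_val_fin_one]
      refine Prod.ext ?_ ?_
      · simp only; ring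
      · simp only; ring
    rw [e1, mp_smul] at hr'
    rw [e2, mul_smul, ← hr', smul_smul, inv_mul_cancel₀ hs0, one_smul]
  refine ⟨chP Q' d t, chQ P' Q' d t, z, ch_isCoprime hcop' hP' hQ' htop' t,
    (ch_natDegree (P := P') t).1, (ch_natDegree (P := P') t).2, ch_coeff hcop' hP' hQ' htop' t, hz,
    constConj_trans A P' Q' c hA hc h1 h2 t, ⟨A * T, hB, hBz⟩, ?_⟩
  intro i j l m
  rw [map_crr]
  exact crr_eq_of_mp (A * T) hB (hBz i) (hBz j) (hBz l) (hBz m)

end Pool.Agent.Helper45.M8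

end

section

set_option autoImplicit false

set_option linter.style.haveILetI false

namespace Pool.Agent.Helper45.M8

open Finset Polynomial Pool.Agent.Helper93.RatODE Pool.Agent.Helper45.FR

section untwist

variable {k L : Type} [Field k] [Field L] [Algebra k L]

/-- constancy does not depend on the twist -/
theorem constConj_tw (p : ℕ) [Fact p.Prime] [CharP k p] [PerfectRing k p] {F G : L[X]} {d : ℕ}
    (h : ConstConj k F G d) :
    ConstConj k (K := Tw p L) (show (Tw p L)[X] from F) (show (Tw p L)[X] from G) d := by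
  obtain ⟨A, P', Q', c, hA, hc, hP', hQ', hcop, htop, e1, e2⟩ := h
  have key : ∀ R : k[X], @Polynomial.map k (Tw p L) _ _ (algebraMap k (Tw p L))
      (R.map (frobenius k p)) = R.map (algebraMap k L) := by
    intro R
    rw [Polynomial.map_map]
    congr 1
    ext c
    change algebraMap k L ((frobeniusEquiv k p).symm (frobenius k p c)) = algebraMap k L c
    rw [frobeniusEquiv_symm_apply_frobenius]
  have hinj : Function.Injective (frobenius k p) := frobenius_inj k p
  refine ⟨A, P'.map (frobenius k p), Q'.map (frobenius k p), c, hA, hc, ?_, ?_, ?_, ?_, ?_, ?_⟩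
  · rw [natDegree_map]; exact hP'
  · rw [natDegree_map]; exact hQ'
  · rw [key, key]; exact hcop
  · rw [coeff_map, coeff_map]
    rcases htop with h | h
    · left; exact (_root_.map_ne_zero _).2 h
    · right; exact (_root_.map_ne_zero _).2 h
  · rw [key, key]; exact e1
  · rw [key, key]; exact e2

/-- **Frobenius untwisting of an orbit.** -/
theorem untwist (p : ℕ) [Fact p.Prime] [CharP k p] [PerfectRing k p] [CharP L p] [Infinite L]
    {F G : L[X]} {d : ℕ} (hd : 1 ≤ d) (hFG : IsCoprime F G)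
    (hF : F.natDegree ≤ d) (hG : G.natDegree ≤ d) (htop : F.coeff d ≠ 0 ∨ G.coeff d ≠ 0)
    (x : ℕ → L) (N a N' : ℕ) (hx : RatOrbit F G x N) (h1N : a + N' ≤ N) (h2N : a + (2 * d) ≤ N)
    (hcross : ∀ i ≤ 2 * d + 1, ∃ c : L, c ^ p =
      crr (x (a + 0)) (x (a + 2)) (x (a + 1)) (x (a + i))) :
    ∃ (F₁ G₁ : L[X]) (z : ℕ → L), IsCoprime F₁ G₁ ∧ F₁.natDegree ≤ d ∧ G₁.natDegree ≤ d ∧
      (F₁.coeff d ≠ 0 ∨ G₁.coeff d ≠ 0) ∧ RatOrbit F₁ G₁ z N' ∧
      (ConstConj k F₁ G₁ d → ConstConj k F G d) ∧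
      (∃ B : Matrix (Fin 2) (Fin 2) L, B.det ≠ 0 ∧ ∀ i, ∃ s : L, s ≠ 0 ∧
        mp B (z i ^ p, (1 : L)) = s • (x (a + i), (1 : L))) ∧
      ∀ i j l m, crr (z i) (z j) (z l) (z m) ^ p =
        crr (x (a + i)) (x (a + j)) (x (a + l)) (x (a + m)) := by
  haveI : Infinite (Tw p L) := inferInstanceAs (Infinite L)
  obtain ⟨F₁, G₁, z, h1, h2, h3, h4, h5, h6, h7, h8⟩ := descent_crr (k := k) (L₁ := Tw p L) hd hFG
    hF hG htop x N a N' hx h1N h2N hcross
  refine ⟨(show L[X] from F₁), (show L[X] from G₁), (show ℕ → L from z), h1, h2, h3, h4, h5, ?_,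
    h7, h8⟩
  intro h
  exact h6 (constConj_tw (k := k) (L := L) p h)

/-- **Constant cross ratios**: isotriviality. -/
theorem constConj_of_crr {F G : L[X]} {d : ℕ} (hd : 1 ≤ d) (hFG : IsCoprime F G)
    (hF : F.natDegree ≤ d) (hG : G.natDegree ≤ d) (htop : F.coeff d ≠ 0 ∨ G.coeff d ≠ 0)
    (x : ℕ → L) (N : ℕ) (hx : RatOrbit F G x N) (hN : 2 * d ≤ N)
    (hcross : ∀ i ≤ 2 * d + 1, ∃ c : k, algebraMap k L c = crr (x 0) (x 2) (x 1) (x i)) :
    ConstConj k F G d :=
  exists_conj_of_cross hd hFG hF hG htop x (fun i _ => ⟨hx.ne i, hx.step i⟩)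
    (fun i hi j hj hij => hx.inj i j (by (clear * - F G hN hi j; omega)) (by omega) hij) hcross

end untwist

end Pool.Agent.Helper45.M8

end

section

set_option autoImplicit false

set_option linter.style.haveILetI false

namespace Pool.Agent.Helper38.DT

open Polynomial Pool.Agent.Helper93.RatODE Pool.Agent.Helper45.FR Pool.Agent.Helper45.M8

/-- DT7b : purely inseparable maps. -/
theorem dt7b {k L : Type} [Field k] [IsAlgClosed k] [Field L] [Algebra k L] (F G : L[X]) (d : ℕ)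
    (hd : 2 ≤ d) (_hFG : IsRatD F G d) (hins : PInsep F G d) (x : ℕ → L) (hx : RatOrbit F G x 3) :
    ConstConj k F G d := by
  classical
  haveI : Infinite k := IsAlgClosed.instInfinite
  haveI : Infinite L := Infinite.of_injective _ (algebraMap k L).injective
  obtain ⟨⟨ν, hν⟩, a, b, c, e, hF, hG⟩ := hins
  haveI : ExpChar L (ringExpChar L) := ringExpChar.expChar L
  have hadd : ∀ u w : L, (u + w) ^ d = u ^ d + w ^ d := by
    intro u w
    rw [hν]
    exact add_pow_expChar_pow u w (ringExpChar L) ν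
  have hsub : ∀ u w : L, (u - w) ^ d = u ^ d - w ^ d := by
    intro u w
    rw [hν]
    exact sub_pow_expChar_pow (p := ringExpChar L) (n := ν) u w
  have hevF : ∀ i, F.eval (x i) = a * x i ^ d + b := by
    intro i; rw [hF]; simp
  have hevG : ∀ i, G.eval (x i) = c * x i ^ d + e := by
    intro i; rw [hG]; simp
  have hdiff : ∀ i j, x (i + 1) - x (j + 1) =
      (a * e - b * c) * (x i - x j) ^ d / (G.eval (x i) * G.eval (x j)) := by
    intro i j
    rw [hx.step, hx.step, div_sub_div _ _ (hx.ne i) (hx.ne j)]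
    congr 1
    rw [hevF, hevF, hevG, hevG, hsub]
    ring
  have hdet : a * e - b * c ≠ 0 := by
    intro h
    have h1 := hdiff 0 1
    rw [h, zero_mul, zero_div, sub_eq_zero] at h1
    have := hx.inj 1 2 (by norm_num) (by norm_num) h1
    omega
  have hcr : ∀ i, crr (x (i + 1)) (x (i + 3)) (x (i + 2)) (x (i + 4)) =
      crr (x i) (x (i + 2)) (x (i + 1)) (x (i + 3)) ^ d := by
    intro i
    unfold crr
    rw [hdiff (i + 3) i, hdiff (i + 1) (i + 2), hdiff (i + 3) (i + 2), hdiff (i + 1) i, div_pow,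
      mul_pow, mul_pow]
    have h0 := hx.ne i
    have h1 := hx.ne (i + 1)
    have h2 := hx.ne (i + 2)
    have h3 := hx.ne (i + 3)
    generalize G.eval (x i) = g0 at *
    generalize G.eval (x (i + 1)) = g1 at *
    generalize G.eval (x (i + 2)) = g2 at *
    generalize G.eval (x (i + 3)) = g3 at *
    generalize (x (i + 3) - x i) ^ d = y0
    generalize (x (i + 1) - x (i + 2)) ^ d = y1
    generalize (x (i + 3) - x (i + 2)) ^ d = y2
    generalize (x (i + 1) - x i) ^ d = y3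
    generalize a * e - b * c = D at *
    have e1 : D * y0 / (g3 * g0) * (D * y1 / (g1 * g2)) = D * D / (g0 * g1 * g2 * g3) * (y0 * y1) := by
      field_simp
    have e2 : D * y2 / (g3 * g2) * (D * y3 / (g1 * g0)) = D * D / (g0 * g1 * g2 * g3) * (y2 * y3) := by
      field_simp
    rw [e1, e2, mul_div_mul_left]
    exact div_ne_zero (mul_ne_zero hdet hdet)
      (mul_ne_zero (mul_ne_zero (mul_ne_zero h0 h1) h2) h3)
  have hcr' : ∀ i, crr (x i) (x (i + 2)) (x (i + 1)) (x (i + 3)) =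
      crr (x 0) (x 2) (x 1) (x 3) ^ d ^ i := by
    intro i
    induction i with
    | zero => simp
    | succ i ih =>
      have := hcr i
      rw [pow_succ, pow_mul, ← ih, ← this]
  -- the cross ratio is algebraic
  have halg : IsAlgebraic k (crr (x 0) (x 2) (x 1) (x 3)) := by
    have hfin : (Set.range fun i => crr (x i) (x (i + 2)) (x (i + 1)) (x (i + 3))).Finite := by
      have h1 : ((fun y : (L × L) × (L × L) => crr y.1.1 y.1.2 y.2.1 y.2.2) ''
          ((Set.range x ×ˢ Set.range x) ×ˢ (Set.range x ×ˢ Set.range x))).Finite :=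
        (((hx.fin.prod hx.fin)).prod (hx.fin.prod hx.fin)).image _
      refine h1.subset ?_
      rintro _ ⟨i, rfl⟩
      exact ⟨((x i, x (i + 2)), (x (i + 1), x (i + 3))),
        ⟨⟨⟨i, rfl⟩, ⟨i + 2, rfl⟩⟩, ⟨⟨i + 1, rfl⟩, ⟨i + 3, rfl⟩⟩⟩, rfl⟩
    have hninj : ¬ Function.Injective
        (fun i => crr (x i) (x (i + 2)) (x (i + 1)) (x (i + 3))) := by
      intro hinj
      exact Set.infinite_range_of_injective hinj hfin
    rw [Function.not_injective_iff] at hninj
    obtain ⟨i, j, hij, hne⟩ := hninj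
    replace hij : crr (x i) (x (i + 2)) (x (i + 1)) (x (i + 3)) =
      crr (x j) (x (j + 2)) (x (j + 1)) (x (j + 3)) := hij
    rw [hcr' i, hcr' j] at hij
    have hne' : d ^ i ≠ d ^ j := fun h => hne (Nat.pow_right_injective hd h)
    refine ⟨X ^ d ^ i - X ^ d ^ j, ?_, ?_⟩
    · intro h0
      have := congrArg (fun q => q.coeff (d ^ i)) h0
      simp only [coeff_sub, coeff_X_pow, if_true, coeff_zero] at this
      rw [if_neg hne', sub_zero] at this
      exact one_ne_zero this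
    · rw [map_sub, map_pow, map_pow, aeval_X, hij, sub_self]
  obtain ⟨κ, hκ⟩ := mem_range_of_isAlgebraic (k := k) _ halg
  -- differences
  have n01 : x 0 - x 1 ≠ 0 := fun h => by
    have := hx.inj 0 1 (by norm_num) (by norm_num) (sub_eq_zero.1 h); omega
  have n02 : x 0 - x 2 ≠ 0 := fun h => by
    have := hx.inj 0 2 (by norm_num) (by norm_num) (sub_eq_zero.1 h); omega
  have n12 : x 1 - x 2 ≠ 0 := fun h => by
    have := hx.inj 1 2 (by norm_num) (by norm_num) (sub_eq_zero.1 h); omega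
  have n13 : x 3 - x 1 ≠ 0 := fun h => by
    have := hx.inj 3 1 (by norm_num) (by norm_num) (sub_eq_zero.1 h); omega
  have n23 : x 3 - x 2 ≠ 0 := fun h => by
    have := hx.inj 3 2 (by norm_num) (by norm_num) (sub_eq_zero.1 h); omega
  have n10 : x 1 - x 0 ≠ 0 := fun h => n01 (by rw [← neg_sub, h, neg_zero])
  have hκ1 : (1 - algebraMap k L κ) * ((x 3 - x 2) * (x 1 - x 0)) =
      (x 3 - x 1) * (x 2 - x 0) := by
    rw [hκ]
    unfold crr
    rw [sub_mul, div_mul_cancel₀ _ (mul_ne_zero n23 n10)]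
    ring
  have hκne : κ ≠ 1 := by
    rintro rfl
    rw [map_one, sub_self, zero_mul] at hκ1
    rcases mul_eq_zero.1 hκ1.symm with h | h
    · exact n13 h
    · exact n02 (by rw [← neg_sub, h, neg_zero])
  -- the matrix
  obtain ⟨a', ha'⟩ : ∃ a' : L, a' = (x 1 - x 2) / (x 0 - x 2) := ⟨_, rfl⟩
  obtain ⟨b', hb'⟩ : ∃ b' : L, b' = (x 0 - x 1) / (x 0 - x 2) := ⟨_, rfl⟩
  have ha0 : a' ≠ 0 := by rw [ha']; exact div_ne_zero n12 n02
  have hb0 : b' ≠ 0 := by rw [hb']; exact div_ne_zero n01 n02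
  have hab1 : a' + b' = 1 := by
    rw [ha', hb', ← add_div, div_eq_one_iff_eq n02]; ring
  have hab2 : a' * x 0 + b' * x 2 = x 1 := by
    rw [ha', hb']
    field_simp
    ring
  let A : Matrix (Fin 2) (Fin 2) L := !![b' * x 2, a' * x 0; b', a']
  have hA : A.det ≠ 0 := by
    rw [Matrix.det_fin_two]
    change b' * x 2 * a' - a' * x 0 * b' ≠ 0
    have : b' * x 2 * a' - a' * x 0 * b' = -(a' * b' * (x 0 - x 2)) := by ring
    rw [this]
    exact neg_ne_zero.2 (mul_ne_zero (mul_ne_zero ha0 hb0) n02)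
  have hd0 : d ≠ 0 := by omega
  refine constConj_of_vec A (C (-κ) * X ^ d + C 1) (C (-1) * X ^ d + C 1)
    (a' ^ d * G.eval (x 0)) hA (mul_ne_zero (pow_ne_zero _ ha0) (hx.ne 0)) ?_ ?_ ?_ ?_ ?_
  · exact natDegree_add_le_of_degree_le (natDegree_C_mul_X_pow_le _ _)
      ((natDegree_C _).le.trans (Nat.zero_le _))
  · exact natDegree_add_le_of_degree_le (natDegree_C_mul_X_pow_le _ _)
      ((natDegree_C _).le.trans (Nat.zero_le _))
  · rw [← coe_mapRingHom]
    apply IsCoprime.map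
    refine ⟨C (1 - κ)⁻¹, C (-(1 - κ)⁻¹ * κ), ?_⟩
    have h1 : (1 : k) - κ ≠ 0 := sub_ne_zero.2 (Ne.symm hκne)
    have h2 : C (1 - κ)⁻¹ * (C (-κ) * X ^ d + C 1) + C (-(1 - κ)⁻¹ * κ) * (C (-1) * X ^ d + C 1) =
        C ((1 - κ)⁻¹ * (1 - κ)) := by
      simp only [C_mul, C_neg, C_sub, C_1]
      ring
    rw [h2, inv_mul_cancel₀ h1, C_1]
  · right
    simp [coeff_X_pow, coeff_one, hd0]
  · intro v
    have hform : ∀ (K : Type) [Field K] [Algebra K L] (s t : K) (u w : L),
        hev (C s * X ^ d + C t) d u w = algebraMap K L s * u ^ d + algebraMap K L t * w ^ d := by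
      intro K _ _ s t u w
      by_cases hw : w = 0
      · subst hw
        rw [hev_right_zero, zero_pow hd0, mul_zero, add_zero]
        congr 2
        simp [coeff_C, hd0]
      · rw [hev_eq _ _ _ _ _ hw]
        · rw [map_add, map_mul, aeval_C, aeval_C, map_pow, aeval_X, div_pow]
          have := pow_ne_zero d hw
          (clear * - this; field_simp)
        · exact natDegree_add_le_of_degree_le (natDegree_C_mul_X_pow_le _ _)
            ((natDegree_C _).le.trans (Nat.zero_le _))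
    have hΦ : ∀ w : Fin 2 → L, fv F G d w =
        ![a * w 0 ^ d + b * w 1 ^ d, c * w 0 ^ d + e * w 1 ^ d] := by
      intro w
      unfold fv
      rw [hF, hG, hform, hform]
      rfl
    have s0 := hx.step 0
    have s1 := hx.step 1
    have s2 := hx.step 2
    rw [eq_div_iff (hx.ne _), zero_add] at s0
    rw [eq_div_iff (hx.ne _)] at s1 s2
    norm_num at s1 s2
    -- images of the points
    obtain ⟨g0, hg0⟩ : ∃ g0, G.eval (x 0) = g0 := ⟨_, rfl⟩
    obtain ⟨g1, hg1⟩ : ∃ g1, G.eval (x 1) = g1 := ⟨_, rfl⟩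
    obtain ⟨g2, hg2⟩ : ∃ g2, G.eval (x 2) = g2 := ⟨_, rfl⟩
    rw [hg0, hevF] at s0
    rw [hg1, hevF] at s1
    rw [hg2, hevF] at s2
    rw [hg0]
    have hg0' := hg0
    have hg1' := hg1
    have hg2' := hg2
    rw [hevG] at hg0' hg1' hg2'
    -- `p`, `q`, `r`
    have e1 : b' ^ d * g2 + a' ^ d * g0 = g1 := by
      rw [← hg2', ← hg0', ← hg1', ← hab2, hadd, mul_pow, mul_pow]
      have : a' ^ d + b' ^ d = 1 := by rw [← hadd, hab1, one_pow]
      linear_combination e * this
    have e2 : b' ^ d * g2 * x 3 + a' ^ d * g0 * x 1 = g1 * x 2 := by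
      have h1 : a' ^ d + b' ^ d = 1 := by rw [← hadd, hab1, one_pow]
      have h2 : x 1 ^ d = a' ^ d * x 0 ^ d + b' ^ d * x 2 ^ d := by
        rw [← hab2, hadd, mul_pow, mul_pow]
      linear_combination b' ^ d * s2 + a' ^ d * s0 - s1 - a * h2 + b * h1
    have e3 : g1 * (x 3 - x 2) = a' ^ d * g0 * (x 3 - x 1) := by
      linear_combination e2 - x 3 * e1
    have e4 : g1 = a' ^ d * g0 * (b' * (1 - algebraMap k L κ)) := by
      have h5 : b' * (x 0 - x 2) = x 0 - x 1 := by
        rw [hb', div_mul_cancel₀ _ n02]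
      have h6 : (b' * (1 - algebraMap k L κ)) * (x 3 - x 2) * ((x 0 - x 2) * (x 1 - x 0)) =
          (x 3 - x 1) * ((x 0 - x 2) * (x 1 - x 0)) := by
        linear_combination (b' * (x 0 - x 2)) * hκ1 + (x 3 - x 1) * (x 2 - x 0) * h5
      have h7 : (b' * (1 - algebraMap k L κ)) * (x 3 - x 2) = x 3 - x 1 :=
        mul_right_cancel₀ (mul_ne_zero n02 n10) h6
      apply mul_right_cancel₀ n23
      rw [e3, ← h7]
      ring
    rw [hΦ]
    have hfv2 : fv (C (-κ) * X ^ d + C 1) (C (-1) * X ^ d + C 1) d v =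
        ![-algebraMap k L κ * v 0 ^ d + v 1 ^ d, - v 0 ^ d + v 1 ^ d] := by
      unfold fv
      rw [hform, hform]
      simp
    have hA0 : A.mulVec v 0 = b' * x 2 * v 0 + a' * x 0 * v 1 := by
      rw [mulVec_zero']; rfl
    have hA1 : A.mulVec v 1 = b' * v 0 + a' * v 1 := by
      rw [mulVec_one']; rfl
    ext i
    fin_cases i
    · simp only [Fin.zero_eta, Pi.smul_apply, smul_eq_mul]
      rw [hA0, hA1, mulVec_zero' A (fv _ _ d v), hfv2]
      simp only [Matrix.cons_val_zero, Matrix.cons_val_one]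
      change a * (b' * x 2 * v 0 + a' * x 0 * v 1) ^ d + b * (b' * v 0 + a' * v 1) ^ d =
        a' ^ d * g0 * (b' * x 2 * (-algebraMap k L κ * v 0 ^ d + v 1 ^ d) +
          a' * x 0 * (-v 0 ^ d + v 1 ^ d))
      rw [hadd, hadd, mul_pow, mul_pow, mul_pow, mul_pow, mul_pow, mul_pow]
      linear_combination (-(b' ^ d * v 0 ^ d)) * s2 - (a' ^ d * v 1 ^ d) * s0 +
        v 0 ^ d * e2 + (x 2 * v 0 ^ d) * e4 + (a' ^ d * g0 * (v 0 ^ d - v 1 ^ d)) * hab2
    · simp only [Fin.mk_one, Pi.smul_apply, smul_eq_mul]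
      rw [hA0, hA1, mulVec_one' A (fv _ _ d v), hfv2]
      simp only [Matrix.cons_val_zero, Matrix.cons_val_one]
      change c * (b' * x 2 * v 0 + a' * x 0 * v 1) ^ d + e * (b' * v 0 + a' * v 1) ^ d =
        a' ^ d * g0 * (b' * (-algebraMap k L κ * v 0 ^ d + v 1 ^ d) +
          a' * (-v 0 ^ d + v 1 ^ d))
      rw [hadd, hadd, mul_pow, mul_pow, mul_pow, mul_pow, mul_pow, mul_pow]
      linear_combination (b' ^ d * v 0 ^ d) * hg2' + (a' ^ d * v 1 ^ d) * hg0' +
        v 0 ^ d * e1 + (v 0 ^ d) * e4 + (a' ^ d * g0 * (v 0 ^ d - v 1 ^ d)) * hab1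

end Pool.Agent.Helper38.DT

end

section

set_option autoImplicit false

namespace Pool.Agent.Helper91.DT

open Polynomial IntermediateField

section places

variable {k L M : Type} [Field k] [Field L] [Field M] [Algebra k L] [Algebra L M] [Algebra k M]
  [IsScalarTower k L M]

open Pool.Agent.Helper16 in
theorem card_zeros_le (hM : IsFunctionField k M) (f : M) (hf : Transcendental k f) :
    ∃ S : Finset (Place k M), (∀ v, v ∈ S ↔ v.val f < 1) ∧ S.card ≤ Module.finrank k⟮f⟯ M := by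
  obtain ⟨S, h1, h2, -⟩ := hM.zeros f hf
  refine ⟨S, h1, ?_⟩
  have hf0 : f ≠ 0 := transcendental_ne_zero hf
  have h3 : (S.card : ℤ) ≤ ∑ v ∈ S, v.ord f * (v.deg : ℤ) := by
    rw [Finset.card_eq_sum_ones]
    push_cast
    refine Finset.sum_le_sum fun v hv => ?_
    rw [h1, ← v.ord_pos_iff hf0] at hv
    have h4 : (0 : ℤ) < (v.deg : ℤ) := by exact_mod_cast v.deg_pos hM
    nlinarith
  rw [h2] at h3
  exact_mod_cast h3

theorem card_ne_one_le (hM : Pool.Agent.Helper16.IsFunctionField k M) (g : L) (hg : g ≠ 0) :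
    ∃ Z : Finset (Pool.Agent.Helper55.RM.Place k M),
      Z.card ≤ 2 * (Module.finrank k⟮g⟯ L * Module.finrank L M) ∧
      ∀ v ∉ Z, v.val (algebraMap L M g) = 1 := by
  classical
  have hg' : algebraMap L M g ≠ 0 := by simpa using hg
  by_cases hf : IsAlgebraic k (algebraMap L M g)
  · exact ⟨∅, by simp, fun v _ => v.toP.val_eq_one_of_algebraic hf hg'⟩
  · obtain ⟨S, h1, h2⟩ := card_zeros_le hM _ hf
    obtain ⟨T, h3, h4⟩ := card_zeros_le hM _ (Pool.Agent.Helper16.transcendental_inv hf)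
    rw [Pool.Agent.Helper16.finrank_inv] at h4
    rw [finrank_adjoin_tower] at h2 h4
    refine ⟨(S ∪ T).image Pool.Agent.Helper55.RM.Place.ofP, ?_, fun v hv => ?_⟩
    · refine Finset.card_image_le.trans ((Finset.card_union_le _ _).trans ?_)
      omega
    · have h5 : v.toP ∉ S ∪ T := fun h => hv (Finset.mem_image.2 ⟨v.toP, h, rfl⟩)
      rw [Finset.mem_union, not_or, h1, h3, not_lt, not_lt] at h5
      obtain ⟨h5, h6⟩ := h5
      refine le_antisymm ?_ h5
      rw [map_inv₀] at h6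
      by_contra hcon
      rw [not_le] at hcon
      have h7 : (v.val (algebraMap L M g))⁻¹ < 1 := inv_lt_one_of_one_lt₀ hcon
      exact absurd h6 (not_le.2 h7)

end places

end Pool.Agent.Helper91.DT

end

section

set_option autoImplicit false

namespace Pool.Agent.Helper91.DT

open Polynomial IntermediateField Pool.Agent.Helper93.RatODE Pool.Agent.Helper45.FR
  Pool.Agent.Helper38.DT

open Pool.Agent.Helper55.RD (hom)

open Pool.Agent.Helper55.RM (lift ext IsRat Isotrivial Conj PotGood prePer)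

section forms

variable {K : Type} [Field K]

theorem lift_frm (F G : K[X]) (d : ℕ) (x : Fin 2 → K) :
    lift (frm F G d) x = ![hev F d (x 0) (x 1), hev G d (x 0) (x 1)] := by
  funext i
  fin_cases i
  · change MvPolynomial.eval x (F.homogenize d) = hev F d (x 0) (x 1)
    rw [Pool.Agent.Helper55.RM.eval_homogenize', hom_eq_hev]
  · change MvPolynomial.eval x (G.homogenize d) = hev G d (x 0) (x 1)
    rw [Pool.Agent.Helper55.RM.eval_homogenize', hom_eq_hev]

theorem isRat_frm {F G : K[X]} {d : ℕ} (h : IsRatD F G d) : IsRat d (frm F G d) := by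
  refine ⟨frm_hom F G d, fun x hx => ?_⟩
  rw [ext_frm, lift_frm] at hx
  have h0 : hev F d (x 0) (x 1) = 0 := by
    rw [← hev_map_coeff (K₁ := AlgebraicClosure K) F]
    exact congrFun hx 0
  have h1 : hev G d (x 0) (x 1) = 0 := by
    rw [← hev_map_coeff (K₁ := AlgebraicClosure K) G]
    exact congrFun hx 1
  have h2 := hev_no_common_zero h.cop h.degF h.degG h.top h0 h1
  funext i
  fin_cases i
  · exact h2.1
  · exact h2.2

end forms

section iso

theorem constConj_of_isotrivial {k M E : Type} [Field k] [IsAlgClosed k] [Field M] [Field E]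
    [IsAlgClosed E] [Algebra k M] [Algebra M E] [Algebra k E] [IsScalarTower k M E]
    [Algebra.IsAlgebraic M E] {F G : M[X]} {d : ℕ}
    (hFG : IsRatD (F.map (algebraMap M E)) (G.map (algebraMap M E)) d)
    (h : Isotrivial k d (frm F G d)) :
    ConstConj k (F.map (algebraMap M E)) (G.map (algebraMap M E)) d := by
  obtain ⟨A, Ψ, ⟨hdet, c, hc, hconj⟩, hΨ, halg⟩ := h
  have : IsAlgClosure M E := ⟨inferInstance, inferInstance⟩
  set e : AlgebraicClosure M ≃ₐ[M] E := IsAlgClosure.equiv M (AlgebraicClosure M) E with he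
  set ε : AlgebraicClosure M →+* E := (e : AlgebraicClosure M →+* E) with hε
  have hcoef : ∀ i n, ∃ a : k, algebraMap k E a =
      ((Pool.Agent.Helper55.RM.deh (Ψ i)).map ε).coeff n := by
    intro i n
    apply mem_range_of_isAlgebraic
    rw [coeff_map]
    have h1 : IsAlgebraic k ((Pool.Agent.Helper55.RM.deh (Ψ i)).coeff n) := by
      rw [Pool.Agent.Helper55.RM.deh_eq_sum, finsetSum_coeff]
      have : ∀ s : Finset (Fin 2 →₀ ℕ), IsAlgebraic k
          (∑ m ∈ s, (C ((Ψ i).coeff m) * X ^ (m 0)).coeff n) := by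
        intro s
        induction s using Finset.induction_on with
        | empty => simpa using isAlgebraic_zero
        | insert a s ha ih =>
          rw [Finset.sum_insert ha]
          refine IsAlgebraic.add ?_ ih
          rw [coeff_C_mul_X_pow]
          split_ifs
          · exact halg i a
          · exact isAlgebraic_zero
      exact this _
    have h2 : IsAlgebraic k ((e.toAlgHom.restrictScalars k)
        ((Pool.Agent.Helper55.RM.deh (Ψ i)).coeff n)) := h1.algHom _
    exact h2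
  have hlift : ∀ i, ∃ P' : k[X], P'.natDegree ≤ d ∧
      P'.map (algebraMap k E) = (Pool.Agent.Helper55.RM.deh (Ψ i)).map ε := by
    intro i
    have h1 : (Pool.Agent.Helper55.RM.deh (Ψ i)).map ε ∈ lifts (algebraMap k E) := by
      rw [lifts_iff_coeff_lifts]
      intro n
      obtain ⟨a, ha⟩ := hcoef i n
      exact ⟨a, ha⟩
    obtain ⟨P', hP', hdeg⟩ := exists_degree_eq_of_mem_lifts h1
    refine ⟨P', ?_, hP'⟩
    rw [natDegree_eq_of_degree_eq hdeg]
    exact natDegree_map_le.trans (Pool.Agent.Helper55.RM.natDegree_deh (hΨ i))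
  obtain ⟨P', hP'd, hP'⟩ := hlift 0
  obtain ⟨Q', hQ'd, hQ'⟩ := hlift 1
  have hdetE : (A.map ε).det ≠ 0 := by
    rw [← RingHom.mapMatrix_apply, ← RingHom.map_det]
    exact (map_ne_zero ε).2 hdet
  refine constConj_of_values hFG (A.map ε) hdetE P' Q' hP'd hQ'd (ε c) ((map_ne_zero ε).2 hc)
    fun u w => ?_
  obtain ⟨u', rfl⟩ := e.surjective u
  obtain ⟨w', rfl⟩ := e.surjective w
  have h1 := hconj ![u', w']
  rw [ext_frm, lift_frm, Pool.Agent.Helper55.RM.lift_zero hΨ] at h1
  have h2 := congrArg ε (congrFun h1 0)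
  have h3 := congrArg ε (congrFun h1 1)
  simp only [Matrix.mulVec, dotProduct, Fin.sum_univ_two, Matrix.cons_val_zero,
    Matrix.cons_val_one, Pi.smul_apply, smul_eq_mul, map_mul, map_add, hom_eq_hev] at h2 h3
  have h4 : ∀ (P : M[X]) (a b : AlgebraicClosure M),
      ε (hev (P.map (algebraMap M (AlgebraicClosure M))) d a b) =
      hev (P.map (algebraMap M E)) d (ε a) (ε b) := by
    intro P a b
    rw [hev_map_coeff, hev_map_coeff]
    exact hev_map (e : AlgebraicClosure M →ₐ[M] E) P d a b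
  have h5 : ε (hev (Pool.Agent.Helper55.RM.deh (Ψ 0)) d u' w') = hev P' d (ε u') (ε w') := by
    rw [hev_ringHom, ← hP', hev_map_coeff]
  have h6 : ε (hev (Pool.Agent.Helper55.RM.deh (Ψ 1)) d u' w') = hev Q' d (ε u') (ε w') := by
    rw [hev_ringHom, ← hQ', hev_map_coeff]
  rw [h4, h5, h6] at h2 h3
  simp only [map_add, map_mul] at h2 h3
  exact ⟨h2, h3⟩

end iso

end Pool.Agent.Helper91.DT

end

section

set_option autoImplicit false

namespace Pool.Agent.Helper91.DT

open Polynomial IntermediateField Pool.Agent.Helper93.RatODE Pool.Agent.Helper45.FR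
  Pool.Agent.Helper38.DT

open Pool.Agent.Helper55.RD (hom)

open Pool.Agent.Helper55.RM (lift ext IsRat Isotrivial Conj PotGood prePer)

section bound

variable {k M : Type} [Field k] [IsAlgClosed k] [Field M] [Algebra k M]

theorem lift_frm_iter (F G : M[X]) (d : ℕ) (v : M × M) (n : ℕ) :
    (lift (frm F G d))^[n] ![v.1, v.2] = ![((phi F G d)^[n] v).1, ((phi F G d)^[n] v).2] := by
  induction n with
  | zero => rfl
  | succ n ih =>
    rw [Function.iterate_succ_apply', Function.iterate_succ_apply', ih, lift_frm]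
    simp [phi]

end bound

end Pool.Agent.Helper91.DT

end

section

set_option autoImplicit false

namespace Pool.Agent.Helper35.DT

open Polynomial Pool.Agent.Helper93.RatODE Pool.Agent.Helper45.FR Pool.Agent.Helper38.DT

section main

variable {k : Type} [Field k] [IsAlgClosed k]

/-- **DT7.** Constant maps have long preperiodic orbits (in homogeneous coordinates). -/
theorem dt7 (A B : k[X]) (δ : ℕ) (hδ : 2 ≤ δ)
    (hAB : IsRatD A B δ) (N : ℕ) :
    ∃ v : k × k, v ≠ 0 ∧ (∃ a b : ℕ, a < b ∧ cr ((phi A B δ)^[a] v) ((phi A B δ)^[b] v) = 0) ∧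
      ∀ i ≤ N, ∀ j ≤ N, cr ((phi A B δ)^[i] v) ((phi A B δ)^[j] v) = 0 → i = j := by
  classical
  by_contra hcon
  push Not at hcon
  set φ : k × k → k × k := phi A B δ with hφ
  have hne : ∀ v : k × k, v ≠ 0 → φ v ≠ 0 := fun v hv =>
    phi_ne_zero hAB.cop hAB.degF hAB.degG hAB.top hv
  have hnei : ∀ (n : ℕ) (v : k × k), v ≠ 0 → φ^[n] v ≠ 0 := fun n v hv =>
    phi_iter_ne_zero hAB.cop hAB.degF hAB.degG hAB.top hv n
  have hcri : ∀ (n : ℕ) (v w : k × k), v ≠ 0 → w ≠ 0 → cr v w = 0 → cr (φ^[n] v) (φ^[n] w) = 0 :=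
    fun n v w hv hw h => cr_phi_iter hAB.cop hAB.degF hAB.degG hAB.top hv hw h n
  set h : Option k → Option k := fun t => pt (φ (lf t)) with hh
  have hpt : ∀ v : k × k, v ≠ 0 → h (pt v) = pt (φ v) := by
    intro v hv
    exact (pt_eq_iff (hne _ (lf_ne _)) (hne _ hv)).2 (hcri 1 _ _ (lf_ne _) hv (cr_lf_pt hv))
  have hpti : ∀ (n : ℕ) (v : k × k), v ≠ 0 → h^[n] (pt v) = pt (φ^[n] v) := by
    intro n
    induction n with
    | zero => intro v _; rfl
    | succ n ih =>
      intro v hv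
      rw [Function.iterate_succ_apply', Function.iterate_succ_apply', ih v hv,
        hpt _ (hnei n v hv)]
  have hkey : ∀ (a b : ℕ) (v : k × k), v ≠ 0 →
      (h^[a] (pt v) = h^[b] (pt v) ↔ cr (φ^[a] v) (φ^[b] v) = 0) := by
    intro a b v hv
    rw [hpti a v hv, hpti b v hv, pt_eq_iff (hnei a v hv) (hnei b v hv)]
  -- surjectivity
  have hsurj : Function.Surjective h := by
    intro s
    by_cases hc : (lf s).2 * A.coeff δ - (lf s).1 * B.coeff δ = 0
    · refine ⟨none, ?_⟩
      rw [← pt_lf s]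
      change pt (φ (lf none)) = _
      rw [pt_eq_iff (hne _ (lf_ne _)) (lf_ne _)]
      change hev A δ (1 : k) 0 * (lf s).2 - hev B δ (1 : k) 0 * (lf s).1 = 0
      rw [hev_right_zero, hev_right_zero]
      simp only [Algebra.algebraMap_self, RingHom.id_apply, one_pow, mul_one]
      linear_combination hc
    · have hdeg : (C (lf s).2 * A - C (lf s).1 * B).natDegree = δ := by
        apply le_antisymm
        · exact (natDegree_sub_le _ _).trans (max_le ((natDegree_C_mul_le _ _).trans hAB.degF)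
            ((natDegree_C_mul_le _ _).trans hAB.degG))
        · apply le_natDegree_of_ne_zero
          rw [coeff_sub, coeff_C_mul, coeff_C_mul]
          exact hc
      obtain ⟨x, hx⟩ := IsAlgClosed.exists_root (C (lf s).2 * A - C (lf s).1 * B) (by
        intro h0
        rw [degree_eq_natDegree (by intro h0; rw [h0, natDegree_zero] at hdeg; omega), hdeg] at h0
        have : δ = 0 := by exact_mod_cast h0
        omega)
      refine ⟨some x, ?_⟩
      rw [← pt_lf s]
      change pt (φ (lf (some x))) = _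
      rw [pt_eq_iff (hne _ (lf_ne _)) (lf_ne _)]
      change hev A δ x 1 * (lf s).2 - hev B δ x 1 * (lf s).1 = 0
      rw [hev_eq_eval A δ hAB.degF _ _ one_ne_zero, hev_eq_eval B δ hAB.degG _ _ one_ne_zero]
      rw [IsRoot.def, eval_sub, eval_mul, eval_mul, eval_C, eval_C] at hx
      simp only [one_pow, one_mul, div_one]
      linear_combination hx
  -- finiteness
  have hfin : {t | ∃ a b : ℕ, a < b ∧ h^[a] t = h^[b] t}.Finite := by
    have hsub : {t | ∃ a b : ℕ, a < b ∧ h^[a] t = h^[b] t} ⊆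
        insert none (some '' ⋃ i ∈ Finset.range (N + 1), ⋃ j ∈ Finset.range (N + 1),
          if i < j then ((coinc A B δ i j).roots.toFinset : Set k) else ∅) := by
      rintro t ⟨a, b, hab, he⟩
      cases t with
      | none => exact Set.mem_insert _ _
      | some x =>
        right
        refine ⟨x, ?_, rfl⟩
        have hx : ((x, 1) : k × k) ≠ 0 := fun h0 => one_ne_zero (congrArg Prod.snd h0)
        have hptx : pt ((x, 1) : k × k) = some x := pt_lf (some x)
        rw [← hptx, hkey a b _ hx] at he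
        obtain ⟨i, hi, j, hj, hij, hne'⟩ := hcon (x, 1) hx ⟨a, b, hab, he⟩
        have main : ∀ i j : ℕ, i ≤ N → j ≤ N → i < j →
            cr (φ^[i] (x, 1)) (φ^[j] (x, 1)) = 0 →
            x ∈ ⋃ i ∈ Finset.range (N + 1), ⋃ j ∈ Finset.range (N + 1),
              if i < j then ((coinc A B δ i j).roots.toFinset : Set k) else ∅ := by
          intro i j hi hj hlt hij
          have h3 := coinc_aeval (P := A) (Q := B) (d := δ) ((x, 1) : k × k) one_ne_zero i j hij
          simp only [Set.mem_iUnion, Finset.mem_range]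
          refine ⟨i, by omega, j, by omega, ?_⟩
          rw [if_pos hlt]
          rw [Finset.mem_coe, Multiset.mem_toFinset,
            mem_roots (coinc_ne_zero hAB.cop hAB.degF hAB.degG hAB.top hδ hlt), IsRoot.def]
          simpa [coe_aeval_eq_eval] using h3
        rcases lt_or_gt_of_ne hne' with h4 | h4
        · exact main i j hi hj h4 hij
        · refine main j i hj hi h4 ?_
          rw [cr_comm, hij, neg_zero]
    refine Set.Finite.subset ?_ hsub
    refine Set.Finite.insert _ (Set.Finite.image _ ?_)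
    refine Set.Finite.biUnion (Finset.finite_toSet _) fun i _ => ?_
    refine Set.Finite.biUnion (Finset.finite_toSet _) fun j _ => ?_
    split_ifs
    · exact Finset.finite_toSet _
    · exact Set.finite_empty
  obtain ⟨M, hM, hM1, hM2⟩ := exists_iterate h hsurj hfin
  have hDδ : 2 ≤ δ ^ M := by
    calc 2 ≤ δ := hδ
      _ = δ ^ 1 := (pow_one _).symm
      _ ≤ δ ^ M := Nat.pow_le_pow_right (by omega) hM
  have hphiM : ∀ v : k × k, phi (iter A B δ M).1 (iter A B δ M).2 (δ ^ M) v = φ^[M] v := by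
    intro v
    rw [hφ, phi_iter]
    rfl
  apply core_rat (iter A B δ M).1 (iter A B δ M).2 (δ ^ M) hDδ
    ⟨iter_isCoprime hAB.cop hAB.degF hAB.degG hAB.top M, (iter_natDegree M).1,
      (iter_natDegree M).2, iter_coeff hAB.cop hAB.degF hAB.degG hAB.top M⟩
  · intro v hv h3
    rw [hphiM, hphiM, ← Function.iterate_add_apply] at h3
    rw [hphiM]
    have h4 := (hkey (M + M) 0 v hv).2 h3
    have h5 := hM1 (pt v) ⟨0, M + M, by omega, h4.symm⟩
    exact (hkey M 0 v hv).1 h5
  · intro v w hv hw h3 h4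
    rw [hphiM] at h3 h4
    have h5 := (hkey M 0 v hv).2 h3
    have h6 := hM2 (pt w) (pt v) ⟨0, M, by omega, h5.symm⟩ (by
      rw [hpti M w hw, pt_eq_iff (hnei M w hw) hv]
      exact h4)
    exact (pt_eq_iff hw hv).1 h6

end main

end Pool.Agent.Helper35.DT

end

section

set_option autoImplicit false

set_option linter.style.haveILetI false

namespace Pool.Agent.Helper47.EN

open Pool.Agent.Helper16 Pool.Agent.Helper45.S4 Pool.Agent.Helper47.RR IntermediateField

open Pool.Agent.Helper45.FF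

variable {k L M : Type} [Field k] [Field L] [Field M] [Algebra k L] [Algebra k M]

theorem infinite_place [IsAlgClosed k] (hM : IsFunctionField k M) : Infinite (Place k M) := by
  obtain ⟨t, ht⟩ := Helper45.S4.exists_transcendental hM
  haveI : Infinite k := IsAlgClosed.instInfinite
  have h1 : ∀ c : k, ∃ w : Place k M, w.val (t - algebraMap k M c) < 1 := by
    intro c
    have htc : Transcendental k (t - algebraMap k M c) := by
      intro h
      apply ht
      have := h.add (isAlgebraic_algebraMap c)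
      simpa using this
    obtain ⟨S, hS, hsum, hpos⟩ := hM.zeros _ htc
    have hne : S.Nonempty := by
      rw [Finset.nonempty_iff_ne_empty]
      rintro rfl
      rw [Finset.sum_empty] at hsum
      have : (Module.finrank k⟮t - algebraMap k M c⟯ M : ℤ) ≠ 0 := by exact_mod_cast hpos.ne'
      exact this hsum.symm
    obtain ⟨w, hw⟩ := hne
    exact ⟨w, (hS w).1 hw⟩
  choose f hf using h1
  apply Infinite.of_injective f
  intro c d hcd
  by_contra hne
  have h2 := hf c
  have h3 := hf d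
  rw [← hcd] at h3
  have h4 : (f c).val (algebraMap k M (c - d)) < 1 := by
    have h5 : algebraMap k M (c - d) = (t - algebraMap k M d) - (t - algebraMap k M c) := by
      rw [map_sub]; ring
    rw [h5]
    exact (f c).val.map_sub_lt h3 h2
  rw [(f c).triv _ (sub_ne_zero.2 hne)] at h4
  exact lt_irrefl _ h4

theorem finite_zeros (hM : IsFunctionField k M) {z : M} (hz : z ≠ 0) :
    {w : Place k M | w.val z < 1}.Finite := by
  obtain ⟨S, h1, -⟩ := hM.product_formula z
  refine S.finite_toSet.subset ?_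
  intro w hw
  rw [Finset.mem_coe, h1]
  have := (w.ord_pos_iff hz).2 hw
  omega

end Pool.Agent.Helper47.EN

end

section

set_option autoImplicit false

set_option linter.style.haveILetI false

namespace Pool.Agent.Helper34.Dep

open Polynomial Pool.Agent.Helper16 Pool.Agent.Helper47.RR Pool.Agent.Helper61.BBGermA

open scoped Polynomial.Bivariate

theorem exists_germ {k K : Type} [Field k] [Field K] [Algebra k K] [IsAlgClosed k]
    (htr : Algebra.trdeg k K = 1) (T : K) (hT : Transcendental k T) (c : k) :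
    ∃ g : Germ k K, g.Val T c := by
  classical
  set s : K := T - algebraMap k K c with hsdef
  have hs : Transcendental k s := by
    intro h
    apply hT
    have h2 := h.add (isAlgebraic_algebraMap (R := k) (A := K) c)
    rwa [hsdef, sub_add_cancel] at h2
  let A : Subring K := (Algebra.adjoin k {s}).toSubring
  have hsA : s ∈ A := Algebra.self_mem_adjoin_singleton _ s
  have hI : Ideal.span {(⟨s, hsA⟩ : A)} ≠ ⊤ := by
    rw [Ne, Ideal.eq_top_iff_one, Ideal.mem_span_singleton']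
    rintro ⟨⟨a, ha⟩, h⟩
    have ha' : a ∈ Algebra.adjoin k {s} := ha
    rw [Algebra.adjoin_singleton_eq_range_aeval] at ha'
    obtain ⟨p, hp⟩ := ha'
    have h1 : a * s = 1 := congrArg Subtype.val h
    have h2 : aeval s (p * X - 1) = 0 := by
      rw [map_sub, map_mul, aeval_X, map_one]
      have hp' : aeval s p = a := hp
      rw [hp', h1, sub_self]
    have h3 : p * X - 1 = 0 := by
      by_contra h4
      exact hs ⟨_, h4, h2⟩
    have h5 := congrArg (Polynomial.eval 0) h3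
    simp at h5
  obtain ⟨O, hO1, hO2⟩ := Ideal.image_subset_nonunits_valuationSubring _ hI
  have hconst : ∀ a : k, algebraMap k K a ∈ O :=
    fun a => hO1 ((Algebra.adjoin k {s}).algebraMap_mem a)
  have hsO : s ∈ O := hO1 hsA
  have hsn : s ∈ O.nonunits := hO2 ⟨⟨s, hsA⟩, Ideal.mem_span_singleton_self _, rfl⟩
  have hsm : (⟨s, hsO⟩ : O) ∈ IsLocalRing.maximalIdeal O :=
    ValuationSubring.coe_mem_nonunits_iff.1 hsn
  have hs0 : s ≠ 0 := by
    rintro h0
    rw [h0] at hs
    exact hs isAlgebraic_zero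
  have hinv : s⁻¹ ∉ O := by
    intro h
    rw [IsLocalRing.mem_maximalIdeal, mem_nonunits_iff] at hsm
    apply hsm
    rw [isUnit_iff_exists_inv]
    refine ⟨⟨s⁻¹, h⟩, ?_⟩
    apply Subtype.ext
    exact mul_inv_cancel₀ hs0
  have key : ∀ x : O, ∃ a : k,
      x - ⟨algebraMap k K a, hconst a⟩ ∈ IsLocalRing.maximalIdeal O := by
    intro x
    have hE := isFunctionField_adjoin htr ({s, (x : K)} : Set _)
      (Set.toFinite _) s (by simp) hs
    have hsE : s ∈ IntermediateField.adjoin k ({s, (x : K)} : Set K) :=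
      IntermediateField.subset_adjoin _ _ (by simp)
    have hxE : (x : K) ∈ IntermediateField.adjoin k ({s, (x : K)} : Set K) :=
      IntermediateField.subset_adjoin _ _ (by simp)
    obtain ⟨v, hv⟩ := hE.exists_place (O.comap (algebraMap _ K))
      (fun a => hconst a) ⟨s⁻¹, inv_mem hsE⟩ hinv
    have hv' : ∀ z : IntermediateField.adjoin k ({s, (x : K)} : Set K),
        v.val z ≤ 1 ↔ (z : K) ∈ O :=
      fun z => hv z
    haveI := v.finite_resField hE
    obtain ⟨a, ha⟩ := (IsAlgClosed.algebraMap_bijective_of_isIntegral (k := k)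
      (K := v.resField)).2 (v.res ⟨x, hxE⟩)
    refine ⟨a, ?_⟩
    have hxr : (⟨x, hxE⟩ : IntermediateField.adjoin k ({s, (x : K)} : Set K)) ∈ v.ring :=
      (hv' _).2 x.2
    have har := v.ring.algebraMap_mem a
    have h1 : v.res (⟨x, hxE⟩ - algebraMap k _ a) = 0 := by
      rw [Place.res_sub v hxr har, Place.res_algebraMap, ha, sub_self]
    rw [Place.res_eq_zero_iff v (sub_mem hxr har)] at h1
    exact mem_maximalIdeal_of_val O _ v hv' _ h1
  obtain ⟨g, hg⟩ := exists_germ_of O hconst key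
  refine ⟨g, ?_⟩
  rw [g.val_iff, hg]
  exact hsn

end Pool.Agent.Helper34.Dep

end

section

set_option autoImplicit false

open Polynomial Finset Pool.Agent.Helper33 Pool.Agent.Helper33.PS Pool.Agent.Helper55.RD

namespace Pool.Agent.Helper82.PS

variable {K : Type*} [Field K]

/-- M4 WINDOW -/
theorem window_distinct {K : Type*} [Field K] (v : DV K) {d : ℕ} (_hd : 1 ≤ d) {A B : K[X]} (hAB : IsRat A B d)
    (hg : IsGood v d A B) {z : ℕ → K} {n J N' nw : ℕ} (hJ : 1 ≤ J) (hn : N' * J ≤ n)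
    (hz : Orb A B z n) (hint : ∀ j ≤ n, v.ge 0 (z j))
    (hblock : ∀ l ≤ N', ∀ l' ≤ N', l ≠ l' → z (l * J) ≠ z (l' * J) ∧ v.o (z (l * J) - z (l' * J)) = 0)
    (hw : 2 * nw + 2 ≤ N') :
    ∀ a ≤ nw, ∀ b ≤ nw, a ≠ b → z a ≠ z b ∧ v.o (z a - z b) = 0 := by
  have hnw : nw ≤ n := by nlinarith
  -- a coincidence gives a contradiction
  have key : ∀ a b : ℕ, a < b → b ≤ nw → ¬ v.ge 1 (z a - z b) := by
    intro a b hab hb hcon
    obtain ⟨p, rfl⟩ := Nat.exists_eq_add_of_lt hab
    set p' := p + 1 with hp'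
    have hper : ∀ q s : ℕ, a + s + p' * q ≤ n → v.ge 1 (z (a + s) - z (a + s + p' * q)) := by
      intro q
      induction q with
      | zero => intro s _; simp [DV.ge_zero]
      | succ q ih =>
        intro s hs
        have e1 : a + s + p' * (q + 1) = a + p' + (s + p' * q) := by ring
        have e2 : a + s + p' * q = a + (s + p' * q) := by ring
        rw [e1] at hs
        have h1 := ih s (by omega)
        have h2 := orb_congr v hAB hg hz hint hcon (s + p' * q) (by omega) (by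
          have : a + p + 1 = a + p' := by omega
          rw [this]; exact hs)
        have h3 := DV.ge_add h1 h2
        rw [e1]
        rw [e2] at h3
        have e3 : a + p + 1 + (s + p' * q) = a + p' + (s + p' * q) := by omega
        rw [e3] at h3
        simpa using h3
    have hJ' : a ≤ nw * J := by nlinarith
    have e1 : a + (nw * J - a) = nw * J := by omega
    have e2 : nw * J + p' * J = (nw + p') * J := by ring
    have hle : nw + p' ≤ N' := by omega
    have hle2 : (nw + p') * J ≤ n := (Nat.mul_le_mul_right J hle).trans hn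
    have h1 := hper J (nw * J - a) (by rw [e1, e2]; exact hle2)
    rw [e1, e2] at h1
    obtain ⟨h2, h3⟩ := hblock nw (by omega) (nw + p') hle (by omega)
    have h4 := DV.ge_le h1 (sub_ne_zero.mpr h2)
    rw [h3] at h4
    norm_num at h4
  have key2 : ∀ a b : ℕ, a < b → b ≤ nw → z a ≠ z b ∧ v.o (z a - z b) = 0 := by
    intro a b hab hb
    have h1 := key a b hab hb
    have hne : z a ≠ z b := by
      intro h
      apply h1
      left
      rw [h, sub_self]
    refine ⟨hne, ?_⟩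
    have h2 : v.ge 0 (z a - z b) := DV.ge_sub (hint a (by omega)) (hint b (by omega))
    have h3 := DV.ge_le h2 (sub_ne_zero.mpr hne)
    by_contra h4
    apply h1
    right
    have h5 : (0 : ℤ) ≤ v.o (z a - z b) := by exact_mod_cast h3
    have h6 : (1 : ℤ) ≤ v.o (z a - z b) := by omega
    exact_mod_cast h6
  intro a ha b hb hab
  rcases lt_or_gt_of_ne hab with h | h
  · exact key2 a b h hb
  · obtain ⟨h1, h2⟩ := key2 b a h ha
    exact ⟨h1.symm, by rw [DV.o_sub_comm]; exact h2⟩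

end Pool.Agent.Helper82.PS

end

section

set_option autoImplicit false

open Finset Polynomial

namespace Pool.Agent.Helper33.PS

open Pool.Agent.Helper45.FR Pool.Agent.Helper33.UB Pool.Agent.Helper51.RatTree Pool.Agent.Helper93.RatODE

theorem window_distinct {K : Type*} [Field K] (v : DV K) {d : ℕ} (hd : 1 ≤ d) {A B : K[X]} (hAB : IsRat A B d)
    (hg : IsGood v d A B) {z : ℕ → K} {n J N' nw : ℕ} (hJ : 1 ≤ J) (hn : N' * J ≤ n)
    (hz : Orb A B z n) (hint : ∀ j ≤ n, v.ge 0 (z j))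
    (hblock : ∀ l ≤ N', ∀ l' ≤ N', l ≠ l' → z (l * J) ≠ z (l' * J) ∧ v.o (z (l * J) - z (l' * J)) = 0)
    (hw : 2 * nw + 2 ≤ N') :
    ∀ a ≤ nw, ∀ b ≤ nw, a ≠ b → z a ≠ z b ∧ v.o (z a - z b) = 0 :=
  Pool.Agent.Helper82.PS.window_distinct v hd hAB hg hJ hn hz hint hblock hw

end Pool.Agent.Helper33.PS

end

section

set_option autoImplicit false

open Finset Polynomial

namespace Pool.Agent.Helper33.UB

namespace GInst

variable {k K V : Type} [Field k] [Field K] [Algebra k K] [DecidableEq K] {P : PSys k K V}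
  {c : GConst} {N : ℕ} {M : ℝ} (I : GInst P c N M)

lemma g_eq_zero (h0 : I.h = 0) {i j : ℕ} (hi : i ≤ N) (hj : j ≤ N) (hij : i ≠ j) {v : V}
    (hv : v ∈ I.T) : I.g v i j = 0 := by
  have hε : ∀ v ∈ I.T, I.ε v = 0 := (sum_eq_zero_iff_of_nonneg I.ε_nonneg).mp h0
  have hnn : ∀ v ∈ I.T, 0 ≤ I.g v i j := by
    intro v hv
    have := I.lower v hv i j hi hj hij
    rw [hε v hv] at this
    unfold GInst.g
    linarith
  exact (sum_eq_zero_iff_of_nonneg hnn).mp (I.sum_g hi hj hij) v hv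

/-- cross ratios are constant -/
theorem cross_const (h0 : I.h = 0) {i j l m : ℕ} (hi : i ≤ N) (hj : j ≤ N) (hl : l ≤ N) (hm : m ≤ N)
    (hil : i ≠ l) (him : i ≠ m) (hjl : j ≠ l) (hjm : j ≠ m) :
    ∃ c : k, algebraMap k K c =
      (I.x i - I.x l) * (I.x j - I.x m) / ((I.x i - I.x m) * (I.x j - I.x l)) := by
  have hne : ∀ a b, a ≤ N → b ≤ N → a ≠ b → I.x a - I.x b ≠ 0 := fun a b ha hb hab =>
    sub_ne_zero.mpr fun e => hab (I.inj a b ha hb e)
  have n1 := hne i l hi hl hil
  have n2 := hne j m hj hm hjm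
  have n3 := hne i m hi hm him
  have n4 := hne j l hj hl hjl
  apply P.const
  · exact div_ne_zero (mul_ne_zero n1 n2) (mul_ne_zero n3 n4)
  · intro v
    rw [DV.o_div _ _ _ (mul_ne_zero n1 n2) (mul_ne_zero n3 n4), (P.pl v).mul _ _ n1 n2,
      (P.pl v).mul _ _ n3 n4]
    by_cases hv : v ∈ I.T
    · have e1 := I.g_eq_zero h0 hi hl hil hv
      have e2 := I.g_eq_zero h0 hj hm hjm hv
      have e3 := I.g_eq_zero h0 hi hm him hv
      have e4 := I.g_eq_zero h0 hj hl hjl hv
      unfold GInst.g at e1 e2 e3 e4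
      have : (((P.pl v).o (I.x i - I.x l) + (P.pl v).o (I.x j - I.x m) -
          ((P.pl v).o (I.x i - I.x m) + (P.pl v).o (I.x j - I.x l)) : ℤ) : ℝ) = 0 := by
        push_cast
        linarith
      exact_mod_cast this
    · rw [I.Tx v hv i l hi hl hil, I.Tx v hv j m hj hm hjm, I.Tx v hv i m hi hm him,
        I.Tx v hv j l hj hl hjl]
      norm_num

end GInst

end Pool.Agent.Helper33.UB

end

section

set_option autoImplicit false

open Finset Polynomial

namespace Pool.Agent.Helper33.PS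

open Pool.Agent.Helper33.UB Pool.Agent.Helper51.RatTree Pool.Agent.Helper55.RD
  Pool.Agent.Helper93.RatODE Pool.Agent.Helper45.FR

section zero

variable {k K V : Type} [Field k] [Field K] [Algebra k K] [DecidableEq K] {P : PSys k K V}
  {F G : K[X]} {x : ℕ → K} {N d : ℕ}

/-- no badness: the map is constant -/
theorem conj_of_h {c : GConst} {M : ℝ} (hx : RatOrbit F G x N) (hd : 2 ≤ d) (hFG : IsRat F G d)
    (hN : 2 * d + 1 ≤ N) (I : GInst P c N M) (hI : I.x = x) (h0 : I.h = 0) : ConstConj k F G d := by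
  subst hI
  apply exists_conj_of_cross (by omega) hFG.cop hFG.dA hFG.dB hFG.top I.x
    (fun i _ => ⟨hx.ne i, hx.step i⟩) (fun i hi j hj => hx.inj i j (by omega) (by omega))
  intro i hi
  by_cases h0' : i = 0
  · exact ⟨0, by subst h0'; simp⟩
  by_cases h1 : i = 1
  · refine ⟨1, ?_⟩
    subst h1
    have m1 : I.x 1 - I.x 2 ≠ 0 := sub_ne_zero.mpr fun e => by
      have := hx.inj 1 2 (by omega) (by omega) e; omega
    have m2 : I.x 1 - I.x 0 ≠ 0 := sub_ne_zero.mpr fun e => by
      have := hx.inj 1 0 (by omega) (by omega) e; omega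
    rw [map_one]
    (clear * - m2 m1; field_simp)
  by_cases h2 : i = 2
  · exact ⟨0, by subst h2; simp⟩
  · exact I.cross_const h0 (i := i) (j := 1) (l := 0) (m := 2) (by omega) (by omega) (by omega)
      (by omega) (by omega) (by omega) (by omega) (by omega)

end zero

end Pool.Agent.Helper33.PS

end

section

set_option autoImplicit false

open Finset Polynomial

namespace Pool.Agent.Helper82.PT

open Pool.Agent.Helper33 Pool.Agent.Helper33.PS Pool.Agent.Helper33.PT

section log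

variable {k K V : Type} [Field k] [Field K] [Algebra k K] (P : PSys k K V)

/-- the logarithmic derivative -/
noncomputable def eta (P : PSys k K V) (y a b : K) : K := P.D y * (a - b) / ((y - a) * (y - b))

lemma y_ne {y a : K} (hy : P.D y ≠ 0) (ha : P.D a = 0) : y - a ≠ 0 := by
  intro h
  rw [sub_eq_zero.mp h] at hy
  exact hy ha

lemma eta_ne {y a b : K} (hy : P.D y ≠ 0) (ha : P.D a = 0) (hb : P.D b = 0) (hab : a ≠ b) :
    eta P y a b ≠ 0 :=
  div_ne_zero (mul_ne_zero hy (sub_ne_zero.mpr hab)) (mul_ne_zero (y_ne P hy ha) (y_ne P hy hb))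

lemma eta_order {y a b c : K} (hy : P.D y ≠ 0) (ha : P.D a = 0) (hb : P.D b = 0) (hc : P.D c = 0)
    (hab : a ≠ b) (hac : a ≠ c) (hbc : b ≠ c) (v : V) :
    -1 - (P.e v : ℤ) ≤ (P.pl v).o (eta P y a b) ∧
      ((P.pl v).o ((y - a) * (c - b) / ((y - b) * (c - a))) = 0 →
        -(P.e v : ℤ) ≤ (P.pl v).o (eta P y a b)) := by
  have na := y_ne P hy ha
  have nb := y_ne P hy hb
  have ncb : c - b ≠ 0 := sub_ne_zero.mpr hbc.symm
  have nca : c - a ≠ 0 := sub_ne_zero.mpr hac.symm
  set u : K := (y - a) * (c - b) / ((y - b) * (c - a)) with hu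
  have hu0 : u ≠ 0 := div_ne_zero (mul_ne_zero na ncb) (mul_ne_zero nb nca)
  have hDcb : P.D (c - b) = 0 := by rw [P.D_sub, hc, hb, sub_zero]
  have hDca : P.D (c - a) = 0 := by rw [P.D_sub, hc, ha, sub_zero]
  have hDu : P.D u = u * eta P y a b := by
    rw [hu, P.D_div _ _ (mul_ne_zero nb nca), P.D_mul, P.D_mul, hDcb, hDca, P.D_sub, P.D_sub, ha, hb,
      eta]
    field_simp
    ring
  have he := eta_ne P hy ha hb hab
  have hDu0 : P.D u ≠ 0 := by rw [hDu]; exact mul_ne_zero hu0 he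
  have ho : (P.pl v).o (P.D u) = (P.pl v).o u + (P.pl v).o (eta P y a b) := by
    rw [hDu, (P.pl v).mul _ _ hu0 he]
  constructor
  · have := P.ord_D v u hu0 hDu0
    omega
  · intro h
    have := P.ord_D' v u hu0 hDu0 (by omega)
    omega

lemma eta_sum {y a b : K} (hy : P.D y ≠ 0) (ha : P.D a = 0) (hb : P.D b = 0)
    (hab : a ≠ b) (X : Finset V)
    (h1 : ∀ v, -1 - (P.e v : ℤ) ≤ (P.pl v).o (eta P y a b))
    (h2 : ∀ v ∉ X, -(P.e v : ℤ) ≤ (P.pl v).o (eta P y a b))
    (T : Finset V) (hT : ∀ v, v ∉ T → (P.pl v).o (eta P y a b) = 0) :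
    ∑ v ∈ T, |(P.pl v).o (eta P y a b)| ≤ 2 * (P.E + X.card) := by
  classical
  have he := eta_ne P hy ha hb hab
  have h0 := P.sum_eq_zero T _ he hT
  have hpt : ∀ v ∈ T, |(P.pl v).o (eta P y a b)| ≤ (P.pl v).o (eta P y a b) +
      2 * ((P.e v : ℤ) + if v ∈ X then 1 else 0) := by
    intro v _
    have a1 := h1 v
    by_cases hv : v ∈ X
    · rw [if_pos hv]
      rcases abs_cases ((P.pl v).o (eta P y a b)) with ⟨q1, q2⟩ | ⟨q1, q2⟩ <;> omega
    · rw [if_neg hv]
      have a2 := h2 v hv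
      rcases abs_cases ((P.pl v).o (eta P y a b)) with ⟨q1, q2⟩ | ⟨q1, q2⟩ <;> omega
  refine (sum_le_sum hpt).trans ?_
  rw [sum_add_distrib, h0, zero_add, ← mul_sum, sum_add_distrib]
  have h3 : ∑ v ∈ T, (P.e v : ℤ) ≤ P.E := by exact_mod_cast P.sum_e_le T
  have h4 : ∑ v ∈ T, (if v ∈ X then (1 : ℤ) else 0) ≤ X.card := by
    rw [← sum_filter, sum_const, nsmul_eq_mul, mul_one]
    have : (T.filter fun v => v ∈ X).card ≤ X.card := card_le_card (by
      intro v hv; exact (mem_filter.mp hv).2)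
    exact_mod_cast this
  linarith

end log

/-- T-LOG -/
theorem log_bound {k K V : Type} [Field k] [Field K] [Algebra k K] (P : PSys k K V) {y : K}
    (hy : P.D y ≠ 0) (S : Finset K) (hSD : ∀ z ∈ S, P.D z = 0) (X : Finset V)
    (hX : ∀ v ∉ X, ∀ z₁ ∈ S, ∀ z₂ ∈ S, ∀ z₃ ∈ S, z₁ ≠ z₂ → z₁ ≠ z₃ → z₂ ≠ z₃ →
      (P.pl v).o ((y - z₁) * (z₃ - z₂) / ((y - z₂) * (z₃ - z₁))) = 0)
    {z₁ z₂ z₃ z₄ : K} (h₁ : z₁ ∈ S) (h₂ : z₂ ∈ S) (h₃ : z₃ ∈ S) (h₄ : z₄ ∈ S) (h12 : z₁ ≠ z₂)
    (h13 : z₁ ≠ z₃) (h14 : z₁ ≠ z₄) (h23 : z₂ ≠ z₃) (h24 : z₂ ≠ z₄) (h34 : z₃ ≠ z₄) :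
    (∑ᶠ v, |(P.pl v).o ((z₁ - z₃) * (z₂ - z₄) / ((z₁ - z₄) * (z₂ - z₃)))|) ≤ 8 * (P.E + X.card) := by
  classical
  have d1 := hSD _ h₁
  have d2 := hSD _ h₂
  have d3 := hSD _ h₃
  have d4 := hSD _ h₄
  have key : ∀ a ∈ S, ∀ b ∈ S, ∀ c ∈ S, a ≠ b → a ≠ c → b ≠ c → ∀ T : Finset V,
      (∀ v, v ∉ T → (P.pl v).o (eta P y a b) = 0) →
      ∑ v ∈ T, |(P.pl v).o (eta P y a b)| ≤ 2 * (P.E + X.card) := by
    intro a ha b hb c hc hab hac hbc T hT
    have h := eta_order P hy (hSD _ ha) (hSD _ hb) (hSD _ hc) hab hac hbc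
    exact eta_sum P hy (hSD _ ha) (hSD _ hb) hab X (fun v => (h v).1)
      (fun v hv => (h v).2 (hX v hv a ha b hb c hc hab hac hbc)) T hT
  have e13 := eta_ne P hy d1 d3 h13
  have e24 := eta_ne P hy d2 d4 h24
  have e14 := eta_ne P hy d1 d4 h14
  have e23 := eta_ne P hy d2 d3 h23
  have hx : (z₁ - z₃) * (z₂ - z₄) / ((z₁ - z₄) * (z₂ - z₃)) =
      eta P y z₁ z₃ * eta P y z₂ z₄ / (eta P y z₁ z₄ * eta P y z₂ z₃) := by
    unfold eta
    have n1 := y_ne P hy d1
    have n2 := y_ne P hy d2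
    have n3 := y_ne P hy d3
    have n4 := y_ne P hy d4
    have n14 : z₁ - z₄ ≠ 0 := sub_ne_zero.mpr h14
    have n23 : z₂ - z₃ ≠ 0 := sub_ne_zero.mpr h23
    (clear * - hy n1 n3 n2 n4 n23 n14 h24 h13; field_simp)
  obtain ⟨T, -, hT⟩ := P.exists_finset {eta P y z₁ z₃, eta P y z₂ z₄, eta P y z₁ z₄, eta P y z₂ z₃} (by
    intro x hx
    simp only [mem_insert, mem_singleton] at hx
    rcases hx with rfl | rfl | rfl | rfl <;> assumption)
  have t13 := hT _ (by simp : eta P y z₁ z₃ ∈ _)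
  have t24 := hT _ (by simp : eta P y z₂ z₄ ∈ _)
  have t14 := hT _ (by simp : eta P y z₁ z₄ ∈ _)
  have t23 := hT _ (by simp : eta P y z₂ z₃ ∈ _)
  have ho : ∀ v, (P.pl v).o ((z₁ - z₃) * (z₂ - z₄) / ((z₁ - z₄) * (z₂ - z₃))) =
      (P.pl v).o (eta P y z₁ z₃) + (P.pl v).o (eta P y z₂ z₄) - ((P.pl v).o (eta P y z₁ z₄) +
        (P.pl v).o (eta P y z₂ z₃)) := by
    intro v
    rw [hx, DV.o_div _ _ _ (mul_ne_zero e13 e24) (mul_ne_zero e14 e23), (P.pl v).mul _ _ e13 e24,
      (P.pl v).mul _ _ e14 e23]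
  have hsum : (∑ᶠ v, |(P.pl v).o ((z₁ - z₃) * (z₂ - z₄) / ((z₁ - z₄) * (z₂ - z₃)))|) =
      ∑ v ∈ T, |(P.pl v).o ((z₁ - z₃) * (z₂ - z₄) / ((z₁ - z₄) * (z₂ - z₃)))| := by
    apply finsum_eq_sum_of_support_subset
    intro v hv
    by_contra hvT
    apply hv
    have hvT' : v ∉ T := by simpa using hvT
    change |_| = _
    rw [ho v, t13 v hvT', t24 v hvT', t14 v hvT', t23 v hvT']
    simp
  rw [hsum]
  have b13 := key z₁ h₁ z₃ h₃ z₂ h₂ h13 h12 h23.symm T t13
  have b24 := key z₂ h₂ z₄ h₄ z₁ h₁ h24 h12.symm h14.symm T t24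
  have b14 := key z₁ h₁ z₄ h₄ z₂ h₂ h14 h12 h24.symm T t14
  have b23 := key z₂ h₂ z₃ h₃ z₁ h₁ h23 h12.symm h13.symm T t23
  calc ∑ v ∈ T, |(P.pl v).o ((z₁ - z₃) * (z₂ - z₄) / ((z₁ - z₄) * (z₂ - z₃)))|
      ≤ ∑ v ∈ T, (|(P.pl v).o (eta P y z₁ z₃)| + |(P.pl v).o (eta P y z₂ z₄)| +
        (|(P.pl v).o (eta P y z₁ z₄)| + |(P.pl v).o (eta P y z₂ z₃)|)) := by
        apply sum_le_sum
        intro v _
        rw [ho v]
        exact (abs_sub _ _).trans (add_le_add (abs_add_le _ _) (abs_add_le _ _))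
    _ ≤ 8 * (P.E + X.card) := by
        rw [sum_add_distrib, sum_add_distrib, sum_add_distrib]
        (clear * - b13 b24 b14 b23; linarith)

end Pool.Agent.Helper82.PT

end

section

set_option autoImplicit false

open Finset Polynomial

namespace Pool.Agent.Helper55.LWI

open Pool.Agent.Helper33 Pool.Agent.Helper55.LW

variable {K ι : Type*} [Field K]

lemma gi_comm (v : DV K) (x : ι → K) (H : ι → ℝ) (q : ℝ) (a b : ι) :
    gi v x H q a b = gi v x H q b a := by
  unfold gi
  rw [v.o_sub_comm (x a) (x b)]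
  ring

/-- **Lemma W**, index version. -/
theorem lemmaW_seq (v : DV K) (X : Finset ι) (x y : ι → K) (hx : Set.InjOn x (X : Set ι))
    (hy : Set.InjOn y (X : Set ι))
    (hiso : ∀ i ∈ X, ∀ j ∈ X, i ≠ j → v.o (y i - y j) = v.o (x i - x j)) (δ : ℝ)
    (hδ : ∀ i ∈ X, ∀ j ∈ X, ∀ l ∈ X, i ≠ j → i ≠ l → j ≠ l →
      v.ge δ ((y i - y j) / (x i - x j) - (y i - y l) / (x i - x l)))
    (H : ι → ℝ) (q : ℝ) (R : ℕ)
    (hR : R + R ≤ X.card) (e₀ : ℝ)
    (hE : ∀ t : ℕ → ι, (∀ i < R + R, t i ∈ X) → (∀ i < R + R, ∀ j < i, t i ≠ t j) →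
      e₀ ≤ Es v x H q t (R + R))
    (I : Fin (R + R) × Fin (R + R) → ι) (hI : ∀ j, I j ∈ X) :
    v.ge (2 * ((R : ℝ) + R - 1) * ∑ j, H (I j) - q * ((R : ℝ) + R - 1) * ((R : ℝ) + R) ^ 2 +
        2 * ((R : ℝ) + R) * e₀ + (R : ℝ) ^ 3 * δ)
      (Matrix.of fun j (pq : Fin (R + R) × Fin (R + R)) =>
        x (I j) ^ (pq.1 : ℕ) * (y (I j)) ^ (pq.2 : ℕ)).det := by
  classical
  rcases Nat.eq_zero_or_pos R with hR0 | hRpos
  · subst hR0
    have : IsEmpty (Fin (0 + 0)) := ⟨fun i => absurd i.2 (by omega)⟩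
    rw [Matrix.det_isEmpty]
    simpa using (DV.ge_one (v := v))
  have hne0 : Nonempty ι := ⟨I (⟨0, by omega⟩, ⟨0, by omega⟩)⟩
  -- the minimal family
  set Fam : Finset (Fin (R + R) → ι) :=
    (Fintype.piFinset (fun _ : Fin (R + R) => X)).filter Function.Injective with hFam
  have hne : Fam.Nonempty := by
    have h1 : Fintype.card (Fin (R + R)) ≤ Fintype.card X := by
      rw [Fintype.card_fin, Fintype.card_coe]; exact hR
    obtain ⟨f⟩ := Function.Embedding.nonempty_of_card_le h1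
    refine ⟨fun i => (f i : ι), ?_⟩
    rw [hFam, mem_filter, Fintype.mem_piFinset]
    exact ⟨fun i => (f i).2, fun i j hij => f.injective (Subtype.ext hij)⟩
  obtain ⟨P, hP, hPmin⟩ := Finset.exists_min_image Fam (fun f => Es v x H q (exti f) (R + R)) hne
  rw [hFam, mem_filter, Fintype.mem_piFinset] at hP
  obtain ⟨hPX, hPinj⟩ := hP
  set E : ℝ := Es v x H q (exti P) (R + R) with hEdef
  have hEmin : ∀ t : ℕ → ι, (∀ i < R + R, t i ∈ X) → (∀ i < R + R, ∀ j < i, t i ≠ t j) →
      E ≤ Es v x H q t (R + R) := by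
    intro t h1 h2
    have h3 : (fun i : Fin (R + R) => t i) ∈ Fam := by
      rw [hFam, mem_filter, Fintype.mem_piFinset]
      refine ⟨fun i => h1 i i.2, ?_⟩
      intro i j hij
      simp only at hij
      rcases lt_trichotomy (i : ℕ) j with h | h | h
      · exact absurd hij.symm (h2 j j.2 i h)
      · exact Fin.ext h
      · exact absurd hij (h2 i i.2 j h)
    refine (hPmin _ h3).trans (le_of_eq ?_)
    unfold Es
    apply Finset.sum_congr rfl
    intro i hi
    apply Finset.sum_congr rfl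
    intro j hj
    rw [mem_range] at hi hj
    rw [exti, exti, dif_pos hi, dif_pos (by omega)]
  have he₀ : e₀ ≤ E := by
    apply hE
    · intro i hi
      rw [exti, dif_pos hi]
      exact hPX _
    · intro i hi j hj
      rw [exti, exti, dif_pos hi, dif_pos (by omega)]
      intro hc
      have := hPinj hc
      rw [Fin.mk.injEq] at this
      omega
  -- averaging
  obtain ⟨σ, hσ⟩ := exists_perm_le
    (fun i j : Fin (R + R) => if (j : ℕ) < i then Wt R i j else 0)
    (fun i j => gi v x H q (P i) (P j)) (fun i => by simp) (by rw [Fintype.card_fin]; omega)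
  set t : ℕ → ι := exti (P ∘ σ) with ht
  have e1 : (∑ i : Fin (R + R), ∑ j : Fin (R + R), (if (j : ℕ) < i then Wt R i j else 0) *
      gi v x H q (P (σ i)) (P (σ j))) =
      ∑ i ∈ range R, ∑ j ∈ range i, gi v x H q (t i) (t j) +
        ∑ c ∈ range R, ∑ l ∈ range c, gi v x H q (t (R + c)) (t (R + l)) +
        R * ∑ c ∈ range R, gi v x H q (t (R + c)) (t c) := by
    rw [← sum_Wt R (fun i j => gi v x H q (t i) (t j)),
      ← sum_lt (R + R) (fun i j => Wt R i j * gi v x H q (t i) (t j))]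
    apply Finset.sum_congr rfl
    intro i _
    apply Finset.sum_congr rfl
    intro j _
    rw [ht, exti_val, exti_val]
    split_ifs
    · rfl
    · ring
  have e2 : (∑ i : Fin (R + R), ∑ j : Fin (R + R), (if (j : ℕ) < i then Wt R i j else 0)) =
      R * (2 * R - 1) := by
    rw [sum_lt (R + R) (fun i j => Wt R i j)]
    have := sum_Wt R (fun _ _ => 1)
    simp only [mul_one] at this
    rw [this, sum_cst, Finset.sum_const, card_range, nsmul_eq_mul]
    ring
  have e3 : (∑ i : Fin (R + R), ∑ j : Fin (R + R), (if i = j then 0 else gi v x H q (P i) (P j))) =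
      2 * E := by
    rw [hEdef]
    unfold Es
    rw [← sum_sym (fun i j => gi v x H q (exti P i) (exti P j)) (fun i j => gi_comm _ _ _ _ _ _)
      (R + R), ← Fin.sum_univ_eq_sum_range (fun i => ∑ j ∈ range (R + R),
        if i = j then 0 else gi v x H q (exti P i) (exti P j)) (R + R)]
    apply Finset.sum_congr rfl
    intro i _
    rw [← Fin.sum_univ_eq_sum_range (fun j =>
        if (i : ℕ) = j then 0 else gi v x H q (exti P i) (exti P j)) (R + R)]
    apply Finset.sum_congr rfl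
    intro j _
    rw [exti_val, exti_val]
    simp only [Fin.ext_iff]
  rw [e1, e2, e3, Fintype.card_fin] at hσ
  have hR1 : (1 : ℝ) ≤ R := by exact_mod_cast hRpos
  have hPsi : ∑ i ∈ range R, ∑ j ∈ range i, gi v x H q (t i) (t j) +
        ∑ c ∈ range R, ∑ l ∈ range c, gi v x H q (t (R + c)) (t (R + l)) +
        R * ∑ c ∈ range R, gi v x H q (t (R + c)) (t c) ≤ E := by
    have hpos : (0 : ℝ) < ((R + R : ℕ) : ℝ) * (((R + R : ℕ) : ℝ) - 1) := by
      push_cast
      (clear * - hR1; nlinarith)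
    refine le_of_mul_le_mul_right (hσ.trans (le_of_eq ?_)) hpos
    push_cast
    ring
  have htX : ∀ i < R + R, t i ∈ X := by
    intro i hi
    rw [ht, exti, dif_pos hi]
    exact hPX _
  have htne : ∀ i < R + R, ∀ j < R + R, i ≠ j → t i ≠ t j := by
    intro i hi j hj hij hc
    rw [ht, exti, exti, dif_pos hi, dif_pos hj] at hc
    have h1 := σ.injective (hPinj hc)
    rw [Fin.mk.injEq] at h1
    exact hij h1
  have key := lemmaW_aux v X x y hx hy hiso δ hδ H q R hR E hEmin t (fun l => t (R + l))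
    (fun l hl => htX l (by omega)) (fun l hl => htX _ (by omega))
    (fun l hl j hj => htne l (by omega) j (by omega) (by omega))
    (fun l hl j hj => htne _ (by omega) _ (by omega) (by omega))
    (fun l hl => htne _ (by omega) _ (by omega) (by omega)) (by
      unfold Es
      refine le_trans (le_of_eq ?_) hPsi
      congr 2
      apply Finset.sum_congr rfl
      intro l _
      exact gi_comm _ _ _ _ _ _) I hI
  refine DV.ge_mono key ?_
  have : 0 ≤ 2 * ((R : ℝ) + R) * (E - e₀) := by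
    apply mul_nonneg
    · positivity
    · (clear * - he₀; linarith)
  (clear * - this; nlinarith)

lemma En_image [DecidableEq ι] (v : DV K) (x : ι → K) (H : ι → ℝ) (q : ℝ) (t : ℕ → ι) (m : ℕ)
    (ht : ∀ i < m, ∀ j < i, t i ≠ t j) :
    PT.En v x H q ((range m).image t) = 2 * Es v x H q t m := by
  have hinj : Set.InjOn t (range m : Set ℕ) := by
    intro i hi j hj hij
    rw [Finset.coe_range, Set.mem_Iio] at hi hj
    rcases lt_trichotomy i j with h | h | h
    · exact absurd hij.symm (ht j hj i h)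
    · exact h
    · exact absurd hij (ht i hi j h)
  unfold PT.En Es
  rw [← sum_sym (fun i j => gi v x H q (t i) (t j)) (fun i j => gi_comm _ _ _ _ _ _) m,
    Finset.sum_image (fun i hi j hj hij => hinj hi hj hij)]
  apply Finset.sum_congr rfl
  intro i hi
  rw [Finset.sum_filter, Finset.sum_image (fun i hi j hj hij => hinj hi hj hij)]
  apply Finset.sum_congr rfl
  intro j hj
  by_cases h : i = j
  · subst h
    simp
  · have h' : t j ≠ t i := fun hc => h (hinj hi hj hc.symm)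
    rw [if_pos h', if_neg h]
    rfl

end Pool.Agent.Helper55.LWI

namespace Pool.Agent.Helper55.LWI

open Pool.Agent.Helper33 Pool.Agent.Helper33.PT

/-- T-LW: LEMMA W (note 420) -/
theorem lemmaW {E ι : Type} [Field E] [DecidableEq ι] (v : DV E) (R : ℕ) (hR : 1 ≤ R) (X : Finset ι)
    (hX : 3 * R ≤ X.card) (x y : ι → E) (hx : Set.InjOn x (X : Set ι)) (hy : Set.InjOn y (X : Set ι))
    (H : ι → ℝ) (q e : ℝ) (δ : ℕ)
    (hiso : ∀ i ∈ X, ∀ j ∈ X, i ≠ j → v.o (y i - y j) = v.o (x i - x j))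
    (hδ : ∀ i ∈ X, ∀ j ∈ X, ∀ l ∈ X, i ≠ j → i ≠ l → j ≠ l →
      v.ge δ ((y i - y j) / (x i - x j) - (y i - y l) / (x i - x l)))
    (he : ∀ S ⊆ X, S.card = 2 * R → 2 * e ≤ En v x H q S)
    (i : Fin (2 * R) × Fin (2 * R) → ι) (hi : ∀ a, i a ∈ X)
    (hdet : (PM (2 * R) (x ∘ i) (y ∘ i)).det ≠ 0) :
    2 * (2 * R) * e + R ^ 3 * δ ≤ (v.o (PM (2 * R) (x ∘ i) (y ∘ i)).det : ℝ) -
      2 * (2 * R - 1) * ∑ a, H (i a) + q * (2 * R - 1) * (2 * R) ^ 2 := by
  have h2 : 2 * R = R + R := two_mul R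
  generalize 2 * R = m at h2 he i hi hdet ⊢
  subst h2
  have key := Pool.Agent.Helper55.LWI.lemmaW_seq v X x y hx hy hiso (δ : ℝ) hδ H q R (by omega) e
    (by
      intro t ht1 ht2
      have hcard : ((range (R + R)).image t).card = R + R := by
        rw [Finset.card_image_of_injOn, card_range]
        intro a ha b hb hab
        rw [Finset.coe_range, Set.mem_Iio] at ha hb
        rcases lt_trichotomy a b with h | h | h
        · exact absurd hab.symm (ht2 b hb a h)
        · exact h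
        · exact absurd hab (ht2 a ha b h)
      have hsub : (range (R + R)).image t ⊆ X := by
        intro a ha
        rw [mem_image] at ha
        obtain ⟨l, hl, rfl⟩ := ha
        exact ht1 l (mem_range.mp hl)
      have := he _ hsub hcard
      rw [Pool.Agent.Helper55.LWI.En_image v x H q t (R + R) ht2] at this
      (clear * - this; linarith)) i hi
  have h3 := DV.ge_le key hdet
  have h4 : (v.o (PM (R + R) (x ∘ i) (y ∘ i)).det : ℝ) = (v.o (Matrix.of fun j (pq : Fin (R + R) × Fin (R + R)) =>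
        x (i j) ^ (pq.1 : ℕ) * (y (i j)) ^ (pq.2 : ℕ)).det : ℝ) := rfl
  rw [h4]
  have h5 : (R : ℝ) + R = 2 * R := by ring
  rw [h5] at h3
  (clear * - h3; linarith)

end Pool.Agent.Helper55.LWI

end

section

set_option autoImplicit false

namespace Pool.Agent.Helper36.PT

open Polynomial Finset Pool.Agent.Helper33 Pool.Agent.Helper33.PS Pool.Agent.Helper33.UB
  Pool.Agent.Helper45.FR Pool.Agent.Helper51.RatTree Pool.Agent.Helper93.RatODE
  Pool.Agent.Helper35.PS

section

variable {k K : Type} [Field k] [Field K] [Algebra k K]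

theorem constConj_of_smul {F G : K[X]} {d : ℕ} {s : K} (hs : s ≠ 0)
    (h : ConstConj k (C s * F) (C s * G) d) : ConstConj k F G d := by
  obtain ⟨A, P', Q', c, hA, hc, h1, h2, h3, h4, h5, h6⟩ := h
  refine ⟨A, P', Q', s⁻¹ * c, hA, mul_ne_zero (inv_ne_zero hs) hc, h1, h2, h3, h4, ?_, ?_⟩
  · rw [hev_C_mul, ← C_eq_algebraMap] at h5
    rw [C_mul, mul_assoc, ← h5, ← mul_assoc, ← C_mul, inv_mul_cancel₀ hs, C_1, one_mul]
  · rw [hev_C_mul, ← C_eq_algebraMap] at h6
    rw [C_mul, mul_assoc, ← h6, ← mul_assoc, ← C_mul, inv_mul_cancel₀ hs, C_1, one_mul]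

end

end Pool.Agent.Helper36.PT

end

section

set_option autoImplicit false

namespace Pool.Agent.Helper36.PT

open Polynomial Finset Pool.Agent.Helper33 Pool.Agent.Helper33.PS Pool.Agent.Helper33.UB
  Pool.Agent.Helper45.FR Pool.Agent.Helper51.RatTree Pool.Agent.Helper93.RatODE
  Pool.Agent.Helper35.PS Pool.Agent.Helper55.RD

section

variable {k K : Type} [Field k] [Field K] [Algebra k K] (p : ℕ) [Fact p.Prime] [CharP K p]

theorem constConj_root [CharP k p] {d : ℕ} {F G F₁ G₁ : K[X]}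
    (hF : ∀ i, F₁.coeff i ^ p = F.coeff i) (hG : ∀ i, G₁.coeff i ^ p = G.coeff i)
    (h : ConstConj k F₁ G₁ d) : ConstConj k F G d := by
  have hp : p ≠ 0 := (Fact.out : p.Prime).ne_zero
  obtain ⟨A, P', Q', c, hA, hc, h1, h2, h3, h4, h5, h6⟩ := h
  have hcomm : ∀ R : k[X], (R.map (algebraMap k K)).map (frobenius K p) =
      (R.map (frobenius k p)).map (algebraMap k K) := by
    intro R
    rw [Polynomial.map_map, Polynomial.map_map]
    congr 1
    ext y
    simp [frobenius_def]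
  refine ⟨A.map (frobenius K p), P'.map (frobenius k p), Q'.map (frobenius k p), c ^ p, ?_,
    pow_ne_zero _ hc, natDegree_map_le.trans h1, natDegree_map_le.trans h2, ?_, ?_, ?_, ?_⟩
  · have := RingHom.map_det (frobenius K p) A
    rw [RingHom.mapMatrix_apply] at this
    rw [← this, frobenius_def]
    exact pow_ne_zero _ hA
  · rw [← hcomm, ← hcomm]
    exact h3.map (mapRingHom (frobenius K p))
  · rw [coeff_map, coeff_map, frobenius_def, frobenius_def]
    exact h4.imp (pow_ne_zero _) (pow_ne_zero _)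
  · have h7 := congrArg (Polynomial.map (frobenius K p)) h5
    rw [map_hev_frob, map_frob p hF] at h7
    simp only [Polynomial.map_add, Polynomial.map_mul, map_C, map_X, hcomm] at h7
    simpa [frobenius_def] using h7
  · have h7 := congrArg (Polynomial.map (frobenius K p)) h6
    rw [map_hev_frob, map_frob p hG] at h7
    simp only [Polynomial.map_add, Polynomial.map_mul, map_C, map_X, hcomm] at h7
    simpa [frobenius_def] using h7

end

/-- T-STEP: one Frobenius untwisting in fixed coordinates -/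
theorem level_step {k K : Type} [Field k] [IsAlgClosed k] [Field K] [Algebra k K] (p : ℕ)
    [Fact p.Prime] [CharP k p] {d : ℕ} (hd : 1 ≤ d) {F G : K[X]} (hFG : IsRat F G d) {x : ℕ → K}
    {N : ℕ} (hx : RatOrbit F G x N) (hnorm : ∃ i, F.coeff i = 1 ∨ G.coeff i = 1)
    (hF : ∀ i, ∃ c, c ^ p = F.coeff i) (hG : ∀ i, ∃ c, c ^ p = G.coeff i) (a N' : ℕ) (ha : a + N' ≤ N)
    (hD : ∀ j, ∃ c, c ^ p = x (a + j)) :
    ∃ (F₁ G₁ : K[X]) (z : ℕ → K), IsRat F₁ G₁ d ∧ RatOrbit F₁ G₁ z N' ∧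
      (∃ i, F₁.coeff i = 1 ∨ G₁.coeff i = 1) ∧ (∀ j, z j ^ p = x (a + j)) ∧
      (∀ i, F₁.coeff i ^ p = F.coeff i) ∧ (∀ i, G₁.coeff i ^ p = G.coeff i) ∧
      (ConstConj k F₁ G₁ d → ConstConj k F G d) := by
  have : CharP K p := charP_of_injective_algebraMap (algebraMap k K).injective p
  obtain ⟨F₁, hF₁⟩ := exists_root_poly p hF
  obtain ⟨G₁, hG₁⟩ := exists_root_poly p hG
  choose z hz using hD
  have h1 : ∀ c : K, c ^ p = 1 → c = 1 := fun c hc =>
    frobenius_inj K p (by simpa [frobenius_def] using hc)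
  refine ⟨F₁, G₁, z, isRat_root p hFG hF₁ hG₁, ratOrbit_root p hx hF₁ hG₁ ha hz, ?_, hz, hF₁, hG₁,
    constConj_root p hF₁ hG₁⟩
  obtain ⟨i, hi⟩ := hnorm
  refine ⟨i, ?_⟩
  rw [← hF₁, ← hG₁] at hi
  exact hi.imp (h1 _) (h1 _)

/-- T-SCALE -/
theorem gg_scale {K : Type} [Field K] (p : ℕ) [Fact p.Prime] [CharP K p] (v : DV K) {d : ℕ} (hd : 2 ≤ d)
    {F G F₁ G₁ : K[X]} (hFG : IsRat F G d) (hF : ∀ i, F₁.coeff i ^ p = F.coeff i)
    (hG : ∀ i, G₁.coeff i ^ p = G.coeff i) {x z : ℕ → K} {N N' a : ℕ} (hx : RatOrbit F G x N)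
    (hz : RatOrbit F₁ G₁ z N') (hxz : ∀ j, z j ^ p = x (a + j)) (i j : ℕ) (hij : z i ≠ z j) :
    gg v d F G (ratH v d F G) (x (a + i)) (x (a + j)) =
      p * gg v d F₁ G₁ (ratH v d F₁ G₁) (z i) (z j) := by
  have hp : p ≠ 0 := (Fact.out : p.Prime).ne_zero
  have hR := isRat_root p hFG hF hG
  -- iterates
  have hitx : ∀ n i, (rmap F G)^[n] (x (a + i)) = x (a + (i + n)) := by
    intro n
    induction n with
    | zero => intro i; rfl
    | succ n ih =>
      intro i
      rw [Function.iterate_succ', Function.comp, ih, rmap, ← hx.step, add_assoc, add_assoc]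
  have hitz : ∀ n i, (rmap F₁ G₁)^[n] (z i) = z (i + n) := by
    intro n
    induction n with
    | zero => intro i; rfl
    | succ n ih =>
      intro i
      rw [Function.iterate_succ', Function.comp, ih, rmap, ← hz.step, add_assoc]
  have hH : ∀ i, ratH v d F G (x (a + i)) = p * ratH v d F₁ G₁ (z i) := by
    intro i
    unfold ratH
    rw [← tsum_mul_left]
    refine tsum_congr fun n => ?_
    rw [hitx, hitz, ← hxz (i + n), eval_frob p hG, DV.o_pow _ _ (hz.ne _)]
    push_cast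
    ring
  have hres : resultant F G d d = resultant F₁ G₁ d d ^ p := by
    rw [← map_frob p hF, ← map_frob p hG, resultant_map_map, frobenius_def]
  have hres0 : resultant F₁ G₁ d d ≠ 0 :=
    resultant_ne_zero_of_isCoprime hR.cop hR.dA hR.dB
      (Pool.Agent.Helper33.UB.hmax_of_top hR.dA hR.dB hR.top) (by omega)
  unfold gg
  rw [hH, hH, hres, DV.o_pow _ _ hres0, ← hxz i, ← hxz j, ← sub_pow_char (z i) (z j),
    DV.o_pow _ _ (sub_ne_zero.2 hij)]
  push_cast
  ring

end Pool.Agent.Helper36.PT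

end

section

set_option autoImplicit false

open Finset Polynomial

namespace Pool.Agent.Helper33.PT

open Pool.Agent.Helper45.FR Pool.Agent.Helper33.UB Pool.Agent.Helper51.RatTree Pool.Agent.Helper93.RatODE
  Pool.Agent.Helper33.PS Pool.Agent.Helper55.RD

/-- T-LOG -/
theorem log_bound {k K V : Type} [Field k] [Field K] [Algebra k K] (P : PSys k K V) {y : K}
    (hy : P.D y ≠ 0) (S : Finset K) (hSD : ∀ z ∈ S, P.D z = 0) (X : Finset V)
    (hX : ∀ v ∉ X, ∀ z₁ ∈ S, ∀ z₂ ∈ S, ∀ z₃ ∈ S, z₁ ≠ z₂ → z₁ ≠ z₃ → z₂ ≠ z₃ →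
      (P.pl v).o ((y - z₁) * (z₃ - z₂) / ((y - z₂) * (z₃ - z₁))) = 0)
    {z₁ z₂ z₃ z₄ : K} (h₁ : z₁ ∈ S) (h₂ : z₂ ∈ S) (h₃ : z₃ ∈ S) (h₄ : z₄ ∈ S) (h12 : z₁ ≠ z₂)
    (h13 : z₁ ≠ z₃) (h14 : z₁ ≠ z₄) (h23 : z₂ ≠ z₃) (h24 : z₂ ≠ z₄) (h34 : z₃ ≠ z₄) :
    (∑ᶠ v, |(P.pl v).o ((z₁ - z₃) * (z₂ - z₄) / ((z₁ - z₄) * (z₂ - z₃)))|) ≤ 8 * (P.E + X.card) :=
  Pool.Agent.Helper82.PT.log_bound P hy S hSD X hX h₁ h₂ h₃ h₄ h12 h13 h14 h23 h24 h34

/-- T-STEP: one Frobenius untwisting in fixed coordinates -/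
theorem level_step {k K : Type} [Field k] [IsAlgClosed k] [Field K] [Algebra k K] (p : ℕ)
    [Fact p.Prime] [CharP k p] {d : ℕ} (hd : 1 ≤ d) {F G : K[X]} (hFG : IsRat F G d) {x : ℕ → K}
    {N : ℕ} (hx : RatOrbit F G x N) (hnorm : ∃ i, F.coeff i = 1 ∨ G.coeff i = 1)
    (hF : ∀ i, ∃ c, c ^ p = F.coeff i) (hG : ∀ i, ∃ c, c ^ p = G.coeff i) (a N' : ℕ) (ha : a + N' ≤ N)
    (hD : ∀ j, ∃ c, c ^ p = x (a + j)) :
    ∃ (F₁ G₁ : K[X]) (z : ℕ → K), IsRat F₁ G₁ d ∧ RatOrbit F₁ G₁ z N' ∧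
      (∃ i, F₁.coeff i = 1 ∨ G₁.coeff i = 1) ∧ (∀ j, z j ^ p = x (a + j)) ∧
      (∀ i, F₁.coeff i ^ p = F.coeff i) ∧ (∀ i, G₁.coeff i ^ p = G.coeff i) ∧
      (ConstConj k F₁ G₁ d → ConstConj k F G d) :=
  Pool.Agent.Helper36.PT.level_step p hd hFG hx hnorm hF hG a N' ha hD

/-- T-SCALE -/
theorem gg_scale {K : Type} [Field K] (p : ℕ) [Fact p.Prime] [CharP K p] (v : DV K) {d : ℕ} (hd : 2 ≤ d)
    {F G F₁ G₁ : K[X]} (hFG : IsRat F G d) (hF : ∀ i, F₁.coeff i ^ p = F.coeff i)
    (hG : ∀ i, G₁.coeff i ^ p = G.coeff i) {x z : ℕ → K} {N N' a : ℕ} (hx : RatOrbit F G x N)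
    (hz : RatOrbit F₁ G₁ z N') (hxz : ∀ j, z j ^ p = x (a + j)) (i j : ℕ) (hij : z i ≠ z j) :
    gg v d F G (ratH v d F G) (x (a + i)) (x (a + j)) =
      p * gg v d F₁ G₁ (ratH v d F₁ G₁) (z i) (z j) :=
  Pool.Agent.Helper36.PT.gg_scale p v hd hFG hF hG hx hz hxz i j hij

end Pool.Agent.Helper33.PT

end

section

set_option autoImplicit false

open Finset Polynomial

namespace Pool.Agent.Helper33.PT

open Pool.Agent.Helper33.UB Pool.Agent.Helper51.RatTree Pool.Agent.Helper55.RD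
  Pool.Agent.Helper93.RatODE Pool.Agent.Helper45.FR Pool.Agent.Helper33.PS

/-- **The levels.** -/
theorem exists_level {k K V : Type} [Field k] [IsAlgClosed k] [Field K] [Algebra k K] (p : ℕ)
    [Fact p.Prime] [CharP k p] [CharP K p] (P : PSys k K V)
    (hker : ∀ y, P.D y = 0 → ∃ z : K, z ^ p = y) {d : ℕ} (hd : 2 ≤ d) {F G : K[X]}
    (hFG : IsRat F G d) {x : ℕ → K} {N : ℕ} (hx : RatOrbit F G x N)
    (hnorm : ∃ i, F.coeff i = 1 ∨ G.coeff i = 1) (N₁ S : ℕ) (hN : S * N₁ + 2 * d + 2 ≤ N)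
    {α β γ : ℕ} (hαβ : α ≠ β) (hαγ : α ≠ γ) (hβγ : β ≠ γ) (hα : S * N₁ ≤ α) (hβ : S * N₁ ≤ β)
    (hγ : S * N₁ ≤ γ) (hα' : α ≤ N) (hβ' : β ≤ N) (hγ' : γ ≤ N)
    (cα : ∃ c : k, algebraMap k K c = x α) (cβ : ∃ c : k, algebraMap k K c = x β)
    (cγ : ∃ c : k, algebraMap k K c = x γ)
    (hstep : ∀ (F' G' : K[X]) (z : ℕ → K) (N' : ℕ), IsRat F' G' d → RatOrbit F' G' z N' → N₁ ≤ N' →
      (ConstConj k F' G' d → ConstConj k F G d) →
      ∃ j₀ ≤ N₁, ∃ a b c : K, ∀ j, j₀ ≤ j → P.D (z j) = a * z j ^ 2 + b * z j + c) :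
    ∀ s ≤ S, ∃ (F' G' : K[X]) (z : ℕ → K) (A : ℕ), A ≤ s * N₁ ∧ IsRat F' G' d ∧
      RatOrbit F' G' z (N - s * N₁) ∧ (∃ i, F'.coeff i = 1 ∨ G'.coeff i = 1) ∧
      (∀ j, z j ^ (p ^ s) = x (A + j)) ∧ (ConstConj k F' G' d → ConstConj k F G d) ∧
      (∀ (v : DV K) (i j : ℕ), z i ≠ z j → gg v d F G (ratH v d F G) (x (A + i)) (x (A + j)) =
        (p : ℝ) ^ s * gg v d F' G' (ratH v d F' G') (z i) (z j)) := by
  classical
  intro s
  induction s with
  | zero =>
    intro _
    refine ⟨F, G, x, 0, by simp, hFG, by simpa using hx, hnorm, fun j => by simp, id, ?_⟩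
    intro v i j _
    simp
  | succ s ih =>
    intro hs
    obtain ⟨F', G', z, A, hA, hFG', hz, hnorm', hzx, hconj, hgg⟩ := ih (by omega)
    have hsN : (s + 1) * N₁ = s * N₁ + N₁ := Nat.succ_mul s N₁
    have hSN : (s + 1) * N₁ ≤ S * N₁ := Nat.mul_le_mul_right _ hs
    obtain ⟨j₀, hj₀, a, b, c, hric⟩ := hstep F' G' z (N - s * N₁) hFG' hz (by omega) hconj
    -- the constants
    have hinjp : ∀ m : ℕ, ∀ u w : K, u ^ (p ^ m) = w ^ (p ^ m) → u = w := by
      intro m u w huw
      exact iterateFrobenius_inj K p m (by rw [iterateFrobenius_def, iterateFrobenius_def]; exact huw)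
    have hinj1 : ∀ u w : K, u ^ p = w ^ p → u = w := by
      intro u w huw
      exact hinjp 1 u w (by simpa using huw)
    have hconst : ∀ q, S * N₁ ≤ q → (∃ e : k, algebraMap k K e = x q) → P.D (z (q - A)) = 0 := by
      rintro q hq ⟨e, he⟩
      obtain ⟨e', he'⟩ := IsAlgClosed.exists_pow_nat_eq e (n := p ^ s * p)
        (Nat.mul_pos (pow_pos (Fact.out : p.Prime).pos s) (Fact.out : p.Prime).pos)
      have h1 : z (q - A) = (algebraMap k K e') ^ p := by
        apply hinjp s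
        rw [hzx, show A + (q - A) = q by omega, ← he, ← he', ← pow_mul, map_pow, mul_comm p]
      rw [h1]
      exact D_const p P.D_add P.D_mul _
    have hne : ∀ q q', S * N₁ ≤ q → S * N₁ ≤ q' → q ≤ N → q' ≤ N → q ≠ q' → z (q - A) ≠ z (q' - A) := by
      intro q q' hq hq' hqN hqN' hqq e
      apply hqq
      apply hx.inj q q' hqN hqN'
      have h1 := hzx (q - A)
      have h2 := hzx (q' - A)
      rw [show A + (q - A) = q by omega] at h1
      rw [show A + (q' - A) = q' by omega] at h2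
      rw [← h1, ← h2, e]
    have hr : ∀ q, S * N₁ ≤ q → (∃ e : k, algebraMap k K e = x q) →
        a * z (q - A) ^ 2 + b * z (q - A) + c = 0 := by
      intro q hq hc
      rw [← hric (q - A) (by omega)]
      exact hconst q hq hc
    obtain ⟨ha0, hb0, hc0⟩ := riccati_zero (hne α β hα hβ hα' hβ' hαβ) (hne α γ hα hγ hα' hγ' hαγ)
      (hne β γ hβ hγ hβ' hγ' hβγ) (hr α hα cα) (hr β hβ cβ) (hr γ hγ cγ)
    have hD : ∀ j, j₀ ≤ j → P.D (z j) = 0 := by
      intro j hj
      rw [hric j hj, ha0, hb0, hc0]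
      ring
    -- the coefficients
    have hcoef := coeff_const_of_points P.D_add P.D_mul hFG' hnorm' ((Icc j₀ (j₀ + 2 * d)).image z) (by
      rw [card_image_of_injOn, Nat.card_Icc]
      · omega
      · intro i hi j hj e
        rw [mem_coe, mem_Icc] at hi hj
        exact hz.inj i j (by omega) (by omega) e) (by
      intro y hy
      obtain ⟨j, hj, rfl⟩ := mem_image.mp hy
      rw [mem_Icc] at hj
      refine ⟨hD j hj.1, hz.ne j, ?_⟩
      rw [← hz.step j]
      exact hD (j + 1) (by omega))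
    obtain ⟨F₁, G₁, z₁, g1, g2, g3, g4, g5, g6, g7⟩ := level_step (k := k) p (by omega : 1 ≤ d) hFG' hz hnorm'
      (fun i => hker _ (hcoef i).1) (fun i => hker _ (hcoef i).2) j₀ (N - (s + 1) * N₁) (by omega)
      (fun j => hker _ (hD (j₀ + j) (by omega)))
    refine ⟨F₁, G₁, z₁, A + j₀, by omega, g1, g2, g3, ?_, fun h => hconj (g7 h), ?_⟩
    · intro j
      rw [pow_succ, mul_comm, pow_mul, g4, hzx, add_assoc]
    · intro v i j hij
      have h1 : z (j₀ + i) ≠ z (j₀ + j) := by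
        intro e
        apply hij
        apply hinj1
        rw [g4, g4, e]
      rw [add_assoc, add_assoc, hgg v _ _ h1, gg_scale p v hd hFG' g5 g6 hz g2 g4 i j hij, pow_succ]
      ring

end Pool.Agent.Helper33.PT

end
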