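import Pool.Agent.Helper23.MB.L01_ab0
import Pool.Agent.Helper23.MB.L01_ab1
import Pool.Agent.Helper23.MB.L01_abc0

/-!
Parts of Helper33.UB.Inst, Helper91.DT.E, Helper13.EN.V2, Helper38.DT.Adapter, Helper45.UntwistAbs, Helper98.PT.Win
-/

attribute [-simp] Valuation.IsUniformizer.val
attribute [local instance 5000]
  Pool.Agent.Helper23.MB.Inst.rCharZero Pool.Agent.Helper23.MB.Inst.rALM
  Pool.Agent.Helper23.MB.Inst.rARM Pool.Agent.Helper23.MB.Inst.rALSM
  Pool.Agent.Helper23.MB.Inst.rARSM Pool.Agent.Helper23.MB.Inst.rARRLE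
  Pool.Agent.Helper23.MB.Inst.rALRLE Pool.Agent.Helper23.MB.Inst.rARRLT
  Pool.Agent.Helper23.MB.Inst.rALRLT Pool.Agent.Helper23.MB.Inst.rPMRLT
  Pool.Agent.Helper23.MB.Inst.rMPRLT Pool.Agent.Helper23.MB.Inst.rPMM
  Pool.Agent.Helper23.MB.Inst.rMPM Pool.Agent.Helper23.MB.Inst.rPMSM
  Pool.Agent.Helper23.MB.Inst.rMPSM Pool.Agent.Helper23.MB.Inst.rEAOL
  Pool.Agent.Helper23.MB.Inst.rIOR Pool.Agent.Helper23.MB.Inst.rISOR
  Pool.Agent.Helper23.MB.Inst.rNZD Pool.Agent.Helper23.MB.Inst.zCharZero
  Pool.Agent.Helper23.MB.Inst.zALM Pool.Agent.Helper23.MB.Inst.zARM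
  Pool.Agent.Helper23.MB.Inst.zIOR Pool.Agent.Helper23.MB.Inst.zISOR
  Pool.Agent.Helper23.MB.Inst.zNZD Pool.Agent.Helper23.MB.Inst.qCharZero
  Pool.Agent.Helper23.MB.Inst.free Pool.Agent.Helper23.MB.Inst.faith
  Pool.Agent.Helper23.MB.Inst.torsionFree Pool.Agent.Helper23.MB.Inst.rfFaith
  Pool.Agent.Helper23.MB.Inst.hAdd Pool.Agent.Helper23.MB.Inst.hAddM
  Pool.Agent.Helper23.MB.Inst.hMul Pool.Agent.Helper23.MB.Inst.hMon
  Pool.Agent.Helper23.MB.Inst.hZero Pool.Agent.Helper23.MB.Inst.hOne
  Pool.Agent.Helper23.MB.Inst.hMZ Pool.Agent.Helper23.MB.Inst.hRing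
  Pool.Agent.Helper23.MB.Inst.aAdd Pool.Agent.Helper23.MB.Inst.aAddM
  Pool.Agent.Helper23.MB.Inst.aMul Pool.Agent.Helper23.MB.Inst.aMon
  Pool.Agent.Helper23.MB.Inst.aZero Pool.Agent.Helper23.MB.Inst.aOne
  Pool.Agent.Helper23.MB.Inst.aMZ Pool.Agent.Helper23.MB.Inst.aRing

namespace Pool.Agent.Helper16
end Pool.Agent.Helper16
namespace Pool.Agent.Helper33
end Pool.Agent.Helper33
namespace Pool.Agent.Helper33.PS
end Pool.Agent.Helper33.PS
namespace Pool.Agent.Helper33.PT
end Pool.Agent.Helper33.PT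
namespace Pool.Agent.Helper33.UB
end Pool.Agent.Helper33.UB
namespace Pool.Agent.Helper38.DT
end Pool.Agent.Helper38.DT
namespace Pool.Agent.Helper45.FF
end Pool.Agent.Helper45.FF
namespace Pool.Agent.Helper45.FR
end Pool.Agent.Helper45.FR
namespace Pool.Agent.Helper45.S4
end Pool.Agent.Helper45.S4
namespace Pool.Agent.Helper45.S6
end Pool.Agent.Helper45.S6
namespace Pool.Agent.Helper47.RR
end Pool.Agent.Helper47.RR
namespace Pool.Agent.Helper51.RatTree
end Pool.Agent.Helper51.RatTree
namespace Pool.Agent.Helper55.RD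
end Pool.Agent.Helper55.RD
namespace Pool.Agent.Helper93.RatODE
end Pool.Agent.Helper93.RatODE

section

set_option autoImplicit false

open Finset Polynomial

namespace Pool.Agent.Helper33.UB

namespace GInst

variable {k K V : Type*} [Field k] [Field K] [Algebra k K] [DecidableEq K] {P : PSys k K V}
  {c : GConst} {N : ℕ} {M : ℝ} (I : GInst P c N M)

lemma g_comm (v : V) (i j : ℕ) : I.g v i j = I.g v j i := by
  unfold g
  rw [DV.o_sub_comm]
  ring

end GInst

end Pool.Agent.Helper33.UB

end

section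

set_option autoImplicit false

namespace Pool.Agent.Helper91.DT

open Polynomial IntermediateField Pool.Agent.Helper93.RatODE Pool.Agent.Helper45.FR
  Pool.Agent.Helper38.DT

section forms

variable {K : Type} [Field K]

theorem exists_zero_form [IsAlgClosed K] {P : K[X]} {n : ℕ} (hn : 1 ≤ n) (hP : P.natDegree ≤ n) :
    ∃ z : K × K, z ≠ 0 ∧ hev P n z.1 z.2 = 0 := by
  by_cases hc : P.coeff n = 0
  · refine ⟨(1, 0), fun h => one_ne_zero (congrArg Prod.fst h), ?_⟩
    rw [hev_right_zero, hc, map_zero, zero_mul]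
  · have hdeg : P.degree ≠ 0 := by
      intro h
      have h1 : P.natDegree = 0 := natDegree_eq_of_degree_eq_some h
      rw [coeff_eq_zero_of_natDegree_lt (by omega)] at hc
      exact hc rfl
    obtain ⟨r, hr⟩ := IsAlgClosed.exists_root P hdeg
    refine ⟨(r, 1), fun h => one_ne_zero (congrArg Prod.snd h), ?_⟩
    change hev P n r 1 = 0
    rw [hev_one hP]
    exact hr

end forms

end Pool.Agent.Helper91.DT

end

section

set_option autoImplicit false

set_option linter.style.haveILetI false

namespace Pool.Agent.Helper47.EN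

open Pool.Agent.Helper16 Pool.Agent.Helper45.S4 Pool.Agent.Helper47.RR IntermediateField Polynomial

variable {k L M : Type} [Field k] [Field L] [Field M] [Algebra k L] [Algebra k M]

/-- the places over a point of the line -/
theorem exists_zeros_card (hM : IsFunctionField k M) (f : M) (hf : Transcendental k f) :
    ∃ S : Finset (Place k M), S.Nonempty ∧ (∀ v, v ∈ S ↔ v.val f < 1) ∧
      S.card ≤ Module.finrank k⟮f⟯ M := by
  obtain ⟨S, h1, h2, h3⟩ := hM.zeros f hf
  have hf0 : f ≠ 0 := by
    rintro rfl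
    exact hf (isAlgebraic_zero)
  refine ⟨S, ?_, h1, ?_⟩
  · rw [Finset.nonempty_iff_ne_empty]
    rintro rfl
    rw [Finset.sum_empty] at h2
    have : (0 : ℤ) < (Module.finrank k⟮f⟯ M : ℤ) := by exact_mod_cast h3
    omega
  · have h4 : ∀ v ∈ S, (1 : ℤ) ≤ v.ord f * (v.deg : ℤ) := by
      intro v hv
      have h5 : 0 < v.ord f := (v.ord_pos_iff hf0).2 ((h1 v).1 hv)
      have h6 : 0 < v.deg := v.deg_pos hM
      have h7 : (0 : ℤ) < (v.deg : ℤ) := by exact_mod_cast h6
      have := mul_pos h5 h7
      omega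
    have h5 := Finset.sum_le_sum h4
    rw [Finset.sum_const, h2] at h5
    simp only [nsmul_eq_mul, mul_one] at h5
    exact_mod_cast h5

end Pool.Agent.Helper47.EN

end

section

set_option autoImplicit false

set_option linter.style.haveILetI false

namespace Pool.Agent.Helper38.DT

open Polynomial IntermediateField Pool.Agent.Helper16 Pool.Agent.Helper45.FR
  Pool.Agent.Helper45.S6 Pool.Agent.Helper33.PS

/-- **Independence of conjugate orbits**, in the form of the hypothesis of Plan T. -/
theorem planT_of_indep {k : Type} [Field k] {d n : ℕ} (h : Indep k d n) (m : ℕ) :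
    ∃ N : ℕ, ∀ (L : Type) [Field L] [Algebra k L] (t : L), IsFunctionField k L →
      Transcendental k t → Algebra.IsSeparable k⟮t⟯ L → Module.finrank k⟮t⟯ L ≤ n →
      ∀ F G : L[X], IsCoprime F G → F.natDegree ≤ d → G.natDegree ≤ d →
        (F.coeff d ≠ 0 ∨ G.coeff d ≠ 0) → ∀ x : ℕ → L, RatOrbit F G x N →
        ∀ (E : Type) [Field E] [Algebra k E] [Algebra L E] [IsScalarTower k L E]
          [Algebra.IsAlgebraic L E] (σ : E ≃ₐ[k] E), σ (algebraMap L E t) = algebraMap L E t →
        (∃ a : L, σ (algebraMap L E a) ≠ algebraMap L E a) →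
        ∀ q : Polynomial (Polynomial E), q ≠ 0 → q.natDegree < m →
          (∀ i, (q.coeff i).natDegree < m) →
          (∀ j ≤ N, (q.eval (C (σ (algebraMap L E (x j))))).eval (algebraMap L E (x j)) = 0) →
          ConstConj k F G d := by
  classical
  obtain ⟨N, hN⟩ := h m
  refine ⟨N, ?_⟩
  intro L _ _ t hL ht hsep hfin F G hcop hF hG htop x hx E _ _ _ _ _ σ hσt hσ q hq hq1 hq2 hrel
  let e : E →ₐ[L] AlgebraicClosure L := IsAlgClosed.lift
  have hek : ∀ c : k, e (algebraMap k E c) = algebraMap k (AlgebraicClosure L) c := by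
    intro c
    rw [IsScalarTower.algebraMap_apply k L E, e.commutes, ← IsScalarTower.algebraMap_apply]
  let f : L →+* AlgebraicClosure L :=
    (e : E →+* AlgebraicClosure L).comp ((σ : E →+* E).comp (algebraMap L E))
  have hfdef : ∀ a, f a = e (σ (algebraMap L E a)) := fun a => rfl
  have hfix : ∀ a ∈ k⟮t⟯, f a = algebraMap L (AlgebraicClosure L) a := by
    intro a ha
    induction ha using IntermediateField.adjoin_induction with
    | mem b hb =>
      rw [Set.mem_singleton_iff] at hb
      subst hb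
      rw [hfdef, hσt, e.commutes]
    | algebraMap c =>
      rw [hfdef, ← IsScalarTower.algebraMap_apply k L E, σ.commutes, hek,
        ← IsScalarTower.algebraMap_apply]
    | add b c _ _ hb hc => rw [map_add, map_add, hb, hc]
    | inv b _ hb => rw [map_inv₀, map_inv₀, hb]
    | mul b c _ _ hb hc => rw [map_mul, map_mul, hb, hc]
  let τ : L →ₐ[k⟮t⟯] AlgebraicClosure L :=
    { f with
      commutes' := fun a => by
        change f (a : L) = _
        rw [hfix a a.2]
        rfl }
  have hτ : ∀ a, τ a = e (σ (algebraMap L E a)) := fun a => rfl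
  refine hN L t hL ht hsep hfin F G hcop hF hG htop x hx τ ?_
    (MvPolynomial.map (e : E →+* AlgebraicClosure L) (toMv m q)) ?_ ?_ ?_
  · obtain ⟨a, ha⟩ := hσ
    refine ⟨a, ?_⟩
    rw [hτ, ← e.commutes a]
    exact fun h => ha ((e : E →+* AlgebraicClosure L).injective h)
  · intro h0
    apply toMv_ne_zero hq hq1 hq2
    apply MvPolynomial.map_injective (e : E →+* AlgebraicClosure L)
      (e : E →+* AlgebraicClosure L).injective
    rw [h0, map_zero]
  · intro i
    refine le_trans ?_ (degreeOf_toMv m q i)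
    rw [MvPolynomial.degreeOf_def, MvPolynomial.degreeOf_def]
    exact Multiset.count_le_of_le i MvPolynomial.degrees_map_le
  · intro j hj
    have h1 := congrArg e (hrel j hj)
    rw [map_zero, ← eval_toMv hq1 hq2] at h1
    rw [← h1, MvPolynomial.eval_map, hτ]
    have h2 := MvPolynomial.eval₂_comp_left (e : E →+* AlgebraicClosure L) (RingHom.id E)
      ![algebraMap L E (x j), σ (algebraMap L E (x j))] (toMv m q)
    rw [RingHom.comp_id] at h2
    change _ = (e : E →+* AlgebraicClosure L) (MvPolynomial.eval₂ (RingHom.id E)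
      ![algebraMap L E (x j), σ (algebraMap L E (x j))] (toMv m q))
    rw [h2]
    congr 1
    funext i
    fin_cases i
    · change algebraMap L (AlgebraicClosure L) (x j) = e (algebraMap L E (x j))
      rw [e.commutes]
    · rfl

end Pool.Agent.Helper38.DT

end

section

set_option autoImplicit false

set_option linter.style.haveILetI false

namespace Pool.Agent.Helper45.M8

open Polynomial IntermediateField Pool.Agent.Helper16 Pool.Agent.Helper45.FF Pool.Agent.Helper45.FR
  Pool.Agent.Helper45.S6 Pool.Agent.Helper93.RatODE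

/-- the statement for orbits one of whose first cross ratios is not a `p`-th power -/
def AbsT (k : Type) [Field k] (p d n : ℕ) : Prop :=
  ∃ N : ℕ, ∀ (L : Type) [Field L] [Algebra k L] (t : L), IsFunctionField k L →
    Transcendental k t → Algebra.IsSeparable k⟮t⟯ L → Module.finrank k⟮t⟯ L ≤ n →
    ∀ F G : L[X], IsCoprime F G → F.natDegree ≤ d → G.natDegree ≤ d →
      (F.coeff d ≠ 0 ∨ G.coeff d ≠ 0) → ∀ x : ℕ → L, RatOrbit F G x N →
      (∃ i ≤ 2 * d + 1, ∀ c : L, c ^ p ≠ crr (x 0) (x 2) (x 1) (x i)) → ConstConj k F G d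

end Pool.Agent.Helper45.M8

end

section

set_option autoImplicit false

open Finset Polynomial

namespace Pool.Agent.Helper98.PT

open Pool.Agent.Helper33 Pool.Agent.Helper33.UB Pool.Agent.Helper51.RatTree Pool.Agent.Helper55.RD
  Pool.Agent.Helper93.RatODE Pool.Agent.Helper45.FR Pool.Agent.Helper33.PS Pool.Agent.Helper33.PT

section conv

variable {k K E V W : Type*} [Field k] [Field K] [Field E] [Algebra k K] [Algebra k E] [Algebra K E]
  [IsScalarTower k K E] {P : PSys k K V} {Q : PSys k E W} {n : ℕ}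

/-- forget the derivation -/
def P0 (P : PSys k K V) : PSys k K V where
  pl := P.pl
  ord_finite := P.ord_finite
  sum_ord := P.sum_ord
  D := fun _ => 0
  D_add := by intros; rw [add_zero]
  D_mul := by intros; rw [mul_zero, mul_zero, add_zero]
  e := fun _ => 0
  e_finite := by simp
  ord_D := fun _ _ _ h => absurd rfl h
  ord_D' := fun _ _ _ h => absurd rfl h
  const := P.const

end conv

end Pool.Agent.Helper98.PT

end
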