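import Pool.Agent.Helper23.MB.L01_abc0
import Pool.Agent.Helper23.MB.L01_abc1
import Pool.Agent.Helper23.MB.L01_abc2

/-!
Parts of Helper55.RM.Loc, Helper55.RM.Loc2, Helper55.RM.Glob, Helper55.RM.Pack
-/

attribute [-simp] Valuation.IsUniformizer.val
attribute [local instance 5000]
  Pool.Agent.Helper23.MB.Inst.rCharZero Pool.Agent.Helper23.MB.Inst.rALM
  Pool.Agent.Helper23.MB.Inst.rARM Pool.Agent.Helper23.MB.Inst.rALSM
  Pool.Agent.Helper23.MB.Inst.rARSM Pool.Agent.Helper23.MB.Inst.rARRLE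
  Pool.Agent.Helper23.MB.Inst.rALRLE Pool.Agent.Helper23.MB.Inst.rARRLT
  Pool.Agent.Helper23.MB.Inst.rALRLT Pool.Agent.Helper23.MB.Inst.rPMRLT
  Pool.Agent.Helper23.MB.Inst.rMPRLT Pool.Agent.Helper23.MB.Inst.rPMM
  Pool.Agent.Helper23.MB.Inst.rMPM Pool.Agent.Helper23.MB.Inst.rPMSM
  Pool.Agent.Helper23.MB.Inst.rMPSM Pool.Agent.Helper23.MB.Inst.rEAOL
  Pool.Agent.Helper23.MB.Inst.rIOR Pool.Agent.Helper23.MB.Inst.rISOR
  Pool.Agent.Helper23.MB.Inst.rNZD Pool.Agent.Helper23.MB.Inst.zCharZero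
  Pool.Agent.Helper23.MB.Inst.zALM Pool.Agent.Helper23.MB.Inst.zARM
  Pool.Agent.Helper23.MB.Inst.zIOR Pool.Agent.Helper23.MB.Inst.zISOR
  Pool.Agent.Helper23.MB.Inst.zNZD Pool.Agent.Helper23.MB.Inst.qCharZero
  Pool.Agent.Helper23.MB.Inst.free Pool.Agent.Helper23.MB.Inst.faith
  Pool.Agent.Helper23.MB.Inst.torsionFree Pool.Agent.Helper23.MB.Inst.rfFaith
  Pool.Agent.Helper23.MB.Inst.hAdd Pool.Agent.Helper23.MB.Inst.hAddM
  Pool.Agent.Helper23.MB.Inst.hMul Pool.Agent.Helper23.MB.Inst.hMon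
  Pool.Agent.Helper23.MB.Inst.hZero Pool.Agent.Helper23.MB.Inst.hOne
  Pool.Agent.Helper23.MB.Inst.hMZ Pool.Agent.Helper23.MB.Inst.hRing
  Pool.Agent.Helper23.MB.Inst.aAdd Pool.Agent.Helper23.MB.Inst.aAddM
  Pool.Agent.Helper23.MB.Inst.aMul Pool.Agent.Helper23.MB.Inst.aMon
  Pool.Agent.Helper23.MB.Inst.aZero Pool.Agent.Helper23.MB.Inst.aOne
  Pool.Agent.Helper23.MB.Inst.aMZ Pool.Agent.Helper23.MB.Inst.aRing

namespace Pool.Agent.Helper33
end Pool.Agent.Helper33
namespace Pool.Agent.Helper55.RD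
end Pool.Agent.Helper55.RD

section

set_option autoImplicit false

open Polynomial Finset Pool.Agent.Helper33 Pool.Agent.Helper55.RD

namespace Pool.Agent.Helper55.RM

namespace Place

variable {k L : Type} [Field k] [Field L] [Algebra k L]

lemma dv_eq_zero_iff (v : Place k L) {x : L} (hx : x ≠ 0) : v.dv.o x = 0 ↔ v.val x = 1 :=
  v.toP.ord_eq_zero_iff hx

end Place

end Pool.Agent.Helper55.RM

end

section

set_option autoImplicit false

open Polynomial Finset Pool.Agent.Helper33 Pool.Agent.Helper55.RD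

namespace Pool.Agent.Helper55.RM

variable {k L : Type} [Field k] [Field L] [Algebra k L]

theorem z_nonneg_of_potGood [Infinite L] {ι : Type} [Finite ι] {d : ℕ} (hd : 2 ≤ d)
    {Φ : Fin 2 → MvPolynomial (Fin 2) L} (hΦ : ∀ i, (Φ i).IsHomogeneous d) (S : ASys L d ι)
    (hF : S.F = deh (Φ 0)) (hG : S.G = deh (Φ 1)) (v : Place k L) (hv : PotGood v d Φ) {i j : ι}
    (hij : i ≠ j) : 0 ≤ v.dv.o (S.z i j) := by
  obtain ⟨L₁, _, _, _, _, _, w, A, Ψ, hvw, hconj, hΨ, hint, hres⟩ := hv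
  have : Infinite L₁ := Infinite.of_injective _ (algebraMap L L₁).injective
  have hext : ∀ i, (ext L₁ Φ i).IsHomogeneous d := fun i => (hΦ i).map _
  obtain ⟨κ, hκ, h1, h2⟩ := conj_iff hext hΨ hconj
  obtain ⟨e, he, hram⟩ := v.exists_ram w hvw
  have e0 : deh (ext L₁ Φ 0) = (deh (Φ 0)).map (algebraMap L L₁) := deh_map _ _
  have e1 : deh (ext L₁ Φ 1) = (deh (Φ 1)).map (algebraMap L L₁) := deh_map _ _
  rw [e0, e1] at h1 h2
  set S₁ := S.map (algebraMap L L₁) with hS₁
  have hdet : (toM2 A).det ≠ 0 := by rw [det_toM2]; exact hconj.1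
  obtain ⟨S', hF', hG', -, hprim, hg, -⟩ := (S₁.toSys hd w.dv).exists_tr hd (toM2 A) hdet κ hκ
  have hFF : (S₁.toSys hd w.dv).F = (deh (Φ 0)).map (algebraMap L L₁) := by
    change S.F.map (algebraMap L L₁) = _
    rw [hF]
  have hGG : (S₁.toSys hd w.dv).G = (deh (Φ 1)).map (algebraMap L L₁) := by
    change S.G.map (algebraMap L L₁) = _
    rw [hG]
  rw [hFF, hGG, h1] at hF'
  rw [hFF, hGG, h2] at hG'
  have hgood : S'.Good :=
    ⟨by rw [hF']; exact intP_deh w (hint 0), by rw [hG']; exact intP_deh w (hint 1), hprim⟩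
  have hres0 : resultant (deh (Ψ 0)) (deh (Ψ 1)) d d ≠ 0 := by
    rw [← hF', ← hG']; exact S'.hR
  have h3 : w.dv.o (resultant S'.F S'.G d d) = 0 := by
    rw [hF', hG', w.dv_eq_zero_iff hres0]
    exact hres
  have h4 := g_nonneg_of_good hd hgood h3 hij
  rw [hg i j hij] at h4
  have h5 := S₁.o_z hd w.dv hij
  have h6 : S₁.z i j = algebraMap L L₁ (S.z i j) := ASys.map_z _ _ _ _
  rw [h6, hram _ (S.z_ne_zero hij)] at h5
  have h7 : (0 : ℝ) ≤ ((e * v.dv.o (S.z i j) : ℤ) : ℝ) := by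
    rw [h5]
    exact mul_nonneg (S₁.M_pos hd).le h4
  have h8 : 0 ≤ e * v.dv.o (S.z i j) := by exact_mod_cast h7
  exact nonneg_of_mul_nonneg_right h8 he

theorem potGood_of_clique {ι : Type} [Finite ι] {d : ℕ} (hd : 2 ≤ d)
    {Φ : Fin 2 → MvPolynomial (Fin 2) L} (hΦ : ∀ i, (Φ i).IsHomogeneous d) (S : ASys L d ι)
    (hF : S.F = deh (Φ 0)) (hG : S.G = deh (Φ 1)) (v : Place k L) (T : Finset ι)
    (hT : N₀ d ≤ T.card) (h : ∀ i ∈ T, ∀ j ∈ T, i ≠ j → v.dv.o (S.z i j) ≤ 0) :
    PotGood v d Φ := by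
  classical
  obtain ⟨N, κ, S₀, hN, hκ, hF₀, hG₀, hgood, hg, -, hlb⟩ := (S.toSys hd v.dv).exists_min_model hd
  obtain ⟨i, hi, j, hj, hij, hlt⟩ := hlb T hT
  have h1 : S₀.g i j ≤ 0 := by
    rw [hg i j hij]
    have h2 := S.o_z hd v.dv hij
    have h3 : (v.dv.o (S.z i j) : ℝ) ≤ 0 := by exact_mod_cast h i hi j hj hij
    rw [h2] at h3
    have h4 := S.M_pos hd
    by_contra hcon
    rw [not_le] at hcon
    have := mul_pos h4 hcon
    linarith
  have h2 : S₀.r = 0 := by
    refine le_antisymm ?_ (hgood.r_nonneg hd)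
    have h3 := ep_pos hd
    by_contra hcon
    rw [not_le] at hcon
    have := mul_pos h3 hcon
    linarith
  have h3 : v.dv.o (resultant S₀.F S₀.G d d) = 0 := by
    have h4 := S₀.o_res hd
    rw [h2, mul_zero] at h4
    exact_mod_cast h4
  have hFF : (S.toSys hd v.dv).F = deh (Φ 0) := hF
  have hGG : (S.toSys hd v.dv).G = deh (Φ 1) := hG
  rw [hFF, hGG] at hF₀ hG₀
  have hdet : (ofM2 N).det = N.det := by
    rw [ofM2, Matrix.det_fin_two_of, M2.det]
  refine ⟨L, inferInstance, inferInstance, inferInstance, inferInstance, inferInstance, v, ofM2 N,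
    ![S₀.F.homogenize d, S₀.G.homogenize d], fun x => Iff.rfl, ⟨?_, (κ * N.det)⁻¹,
    inv_ne_zero (mul_ne_zero hκ hN), ?_⟩, ?_, ?_, ?_⟩
  · rw [hdet]; exact hN
  · intro x
    have e0 : ext L Φ = Φ := by
      funext i
      exact MvPolynomial.map_id _
    rw [e0, lift_zero hΦ]
    have e1 : ((ofM2 N).mulVec x) 0 = (N.app (x 0, x 1)).1 := by
      simp [ofM2, M2.app, Matrix.mulVec, dotProduct, Fin.sum_univ_two]
    have e2 : ((ofM2 N).mulVec x) 1 = (N.app (x 0, x 1)).2 := by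
      simp [ofM2, M2.app, Matrix.mulVec, dotProduct, Fin.sum_univ_two]
    have e3 := hom_trF N κ (deh (Φ 0)) (deh (Φ 1)) (d := d) (x 0, x 1)
    have e4 := hom_trG N κ (deh (Φ 0)) (deh (Φ 1)) (d := d) (x 0, x 1)
    simp only at e3 e4
    rw [e1, e2]
    have hd0 : N.det = N.a * N.e - N.b * N.c := rfl
    have hne : κ * N.det ≠ 0 := mul_ne_zero hκ hN
    funext i
    fin_cases i
    · simp only [Fin.zero_eta, Matrix.cons_val_zero, lift, Pi.smul_apply, smul_eq_mul, ofM2,
        Matrix.mulVec, dotProduct, Fin.sum_univ_two, Matrix.of_apply, Matrix.cons_val_one,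
        Matrix.cons_val', eval_homogenize']
      rw [hF₀, hG₀, e3, e4, eq_inv_mul_iff_mul_eq₀ hne, hd0]
      ring
    · simp only [Fin.mk_one, Matrix.cons_val_zero, lift, Pi.smul_apply, smul_eq_mul, ofM2,
        Matrix.mulVec, dotProduct, Fin.sum_univ_two, Matrix.of_apply, Matrix.cons_val_one,
        Matrix.cons_val', eval_homogenize']
      rw [hF₀, hG₀, e3, e4, eq_inv_mul_iff_mul_eq₀ hne, hd0]
      ring
  · intro i
    fin_cases i
    · exact isHomogeneous_homogenize _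
    · exact isHomogeneous_homogenize _
  · intro i m
    fin_cases i
    · simp only [Fin.zero_eta, Matrix.cons_val_zero, coeff_homogenize]
      split_ifs
      · exact (v.ge_zero_iff).1 (hgood.intF _)
      · simp
    · simp only [Fin.mk_one, Matrix.cons_val_one, Matrix.cons_val_zero, coeff_homogenize]
      split_ifs
      · exact (v.ge_zero_iff).1 (hgood.intG _)
      · simp
  · have e1 : res d ![S₀.F.homogenize d, S₀.G.homogenize d] = resultant S₀.F S₀.G d d := by
      have a1 := deh_homogenize S₀.hF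
      have a2 := deh_homogenize S₀.hG
      simp only [deh] at a1 a2
      simp only [res, Matrix.cons_val_zero, Matrix.cons_val_one]
      rw [a1, a2]
    rw [e1]
    exact (v.dv_eq_zero_iff S₀.hR).1 h3

end Pool.Agent.Helper55.RM

end

section

set_option autoImplicit false

open Polynomial Finset Pool.Agent.Helper33 Pool.Agent.Helper55.RD

namespace Pool.Agent.Helper55.RM

section

variable {k L : Type} [Field k] [Field L] [Algebra k L]

/-- the product formula for a nonzero element -/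
lemma sum_ord (hN : Pool.Agent.Helper16.IsFunctionField k L) (f : L) :
    ∃ (S : Finset (Place k L)) (δ : Place k L → ℤ), (∀ v, 0 < δ v) ∧
      (∀ v, v ∉ S → v.dv.o f = 0) ∧ ∑ v ∈ S, v.dv.o f * δ v = 0 := by
  classical
  obtain ⟨S, h1, h2⟩ := hN.product_formula f
  refine ⟨S.image Place.ofP, fun v => v.toP.deg, fun v => ?_, fun v hv => ?_, ?_⟩
  · change (0 : ℤ) < (v.toP.deg : ℤ)
    exact_mod_cast v.toP.deg_pos hN
  · by_contra h
    exact hv (mem_image.2 ⟨v.toP, (h1 _).2 h, rfl⟩)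
  · rw [sum_image]
    · exact h2
    · intro a _ b _ hab
      exact congrArg Place.toP hab

/-- if the orders are nonnegative everywhere, they are all zero -/
lemma ord_eq_zero_of_nonneg (hN : Pool.Agent.Helper16.IsFunctionField k L) (f : L)
    (h : ∀ v : Place k L, 0 ≤ v.dv.o f) (v : Place k L) : v.dv.o f = 0 := by
  obtain ⟨S, δ, hδ, h1, h2⟩ := sum_ord hN f
  by_cases hv : v ∈ S
  · have h3 := (sum_eq_zero_iff_of_nonneg (fun v _ => mul_nonneg (h v) (hδ v).le)).1 h2 v hv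
    exact (mul_eq_zero.1 h3).resolve_right (hδ v).ne'
  · exact h1 v hv

/-- an element without zeros and poles is algebraic over the constants -/
lemma isAlgebraic_of_ord (hN : Pool.Agent.Helper16.IsFunctionField k L) {f : L} (hf : f ≠ 0)
    (h : ∀ v : Place k L, v.dv.o f = 0) : IsAlgebraic k f := by
  by_contra hcon
  obtain ⟨S, h1, h2, h3⟩ := hN.zeros f hcon
  have h4 : S.Nonempty := by
    by_contra h5
    rw [not_nonempty_iff_eq_empty] at h5
    rw [h5, sum_empty] at h2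
    omega
  obtain ⟨v, hv⟩ := h4
  have h5 := (h1 v).1 hv
  rw [← v.ord_pos_iff hf] at h5
  have h6 := h (Place.ofP v)
  have h7 : (Place.ofP v).dv.o f = v.ord f := rfl
  omega

/-- all local orders of the pairings vanish, if there are enough points -/
theorem all_zero (hN : Pool.Agent.Helper16.IsFunctionField k L) [Infinite L] {ι : Type} [Finite ι]
    {d : ℕ} (hd : 2 ≤ d)
    {Φ : Fin 2 → MvPolynomial (Fin 2) L} (hΦ : ∀ i, (Φ i).IsHomogeneous d) (S : ASys L d ι)
    (hF : S.F = deh (Φ 0)) (hG : S.G = deh (Φ 1)) (s : ℕ) (T : Finset ι)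
    (hT : ∀ s' ≤ s, mram (N₀ d) s' ≤ T.card)
    (hbad : ∃ Z : Finset (Place k L), Z.card ≤ s ∧ ∀ v ∉ Z, PotGood v d Φ)
    {i j : ι} (hij : i ≠ j) (v : Place k L) : v.dv.o (S.z i j) = 0 := by
  classical
  -- a minimal bad set
  have hex : ∃ n, ∃ Z : Finset (Place k L), Z.card = n ∧ n ≤ s ∧ ∀ v ∉ Z, PotGood v d Φ := by
    obtain ⟨Z, h1, h2⟩ := hbad
    exact ⟨_, Z, rfl, h1, h2⟩
  obtain ⟨Z, hZc, hZs, hZ⟩ := Nat.find_spec hex
  have hmin : ∀ v ∈ Z, ¬ PotGood v d Φ := by
    intro v hv hp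
    have hpos : 0 < Z.card := card_pos.2 ⟨v, hv⟩
    refine Nat.find_min hex (m := Nat.find hex - 1) (by omega) ⟨Z.erase v, ?_, by omega, ?_⟩
    · rw [card_erase_of_mem hv, hZc]
    · intro w hw
      by_cases hwv : w = v
      · rw [hwv]; exact hp
      · exact hZ w fun h => hw (mem_erase.2 ⟨hwv, h⟩)
  have hnn : ∀ i j, i ≠ j → ∀ v ∉ Z, 0 ≤ v.dv.o (S.z i j) := fun i j hij v hv =>
    z_nonneg_of_potGood hd hΦ S hF hG v (hZ v hv) hij
  have hsym : ∀ (v : Place k L) (i j : ι), (i = j ∨ v.dv.o (S.z i j) ≤ 0) →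
      (j = i ∨ v.dv.o (S.z j i) ≤ 0) := by
    intro v i j h
    by_cases hij : i = j
    · exact Or.inl hij.symm
    right
    have h1 := h.resolve_left hij
    have h2 := S.o_z hd v.dv hij
    have h3 := S.o_z hd v.dv (Ne.symm hij)
    rw [Sys.g_comm, ← h2] at h3
    have h4 : v.dv.o (S.z j i) = v.dv.o (S.z i j) := by exact_mod_cast h3
    rw [h4]; exact h1
  have hZe : Z = ∅ := by
    by_contra hZne
    have hZne' := nonempty_iff_ne_empty.2 hZne
    obtain ⟨v, hv, A, hA, hAc, hAP⟩ := multi_ramsey (N₀ d)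
      (fun (v : Place k L) i j => i = j ∨ v.dv.o (S.z i j) ≤ 0) hsym Z T
      (by rw [hZc]; exact hT _ hZs) (by
        intro i hi j hj hij
        by_contra hcon
        push Not at hcon
        have hpos : ∀ v ∈ Z, 0 < v.dv.o (S.z i j) := fun v hv => (hcon v hv).2
        have hnn' : ∀ v : Place k L, 0 ≤ v.dv.o (S.z i j) := by
          intro v
          by_cases hv : v ∈ Z
          · exact (hpos v hv).le
          · exact hnn i j hij v hv
        obtain ⟨v, hv⟩ := hZne'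
        have h1 := hpos v hv
        have h2 := ord_eq_zero_of_nonneg hN _ hnn' v
        omega)
    refine hmin v hv (potGood_of_clique hd hΦ S hF hG v A hAc.ge fun i hi j hj hij => ?_)
    exact (hAP i hi j hj hij).resolve_left hij
  refine ord_eq_zero_of_nonneg hN _ (fun v => hnn i j hij v ?_) v
  rw [hZe]
  exact notMem_empty v

end

end Pool.Agent.Helper55.RM

end

section

set_option autoImplicit false

open Polynomial Finset Pool.Agent.Helper33 Pool.Agent.Helper55.RD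

namespace Pool.Agent.Helper55.RM

/-- **The main theorem.** -/
theorem main (d s : ℕ) (hd : 2 ≤ d) (k L : Type) [Field k] [Field L] [Algebra k L]
    (hfg : (⊤ : IntermediateField k L).FG)
    (htr : ∃ x : L, Transcendental k x ∧ Algebra.IsAlgebraic (IntermediateField.adjoin k {x}) L)
    (Φ : Fin 2 → MvPolynomial (Fin 2) L) (hΦ : IsRat d Φ) (hiso : ¬ Isotrivial k d Φ)
    (hbad : ∃ Z : Finset (Place k L), Z.card ≤ s ∧ ∀ v ∉ Z, PotGood v d Φ) :
    (prePer Φ).encard ≤ bound d s := by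
  classical
  by_contra hcon
  rw [not_le] at hcon
  have hN := isFunctionField_of hfg htr
  have : Infinite L := by
    obtain ⟨x, hx, -⟩ := htr
    exact Infinite.of_injective (aeval x : k[X] → L) (transcendental_iff_injective.1 hx)
  obtain ⟨T, hT, hTc⟩ := Set.exists_subset_encard_eq hcon.le
  have hTfin : T.Finite := Set.finite_of_encard_eq_coe hTc
  obtain ⟨O, hO1, hO2⟩ := exists_invariant hΦ hTfin.toFinset (fun p hp =>
    hT ((Set.Finite.mem_toFinset _).1 hp))
  obtain ⟨S, hF, hG⟩ := exists_ASys hΦ (by omega) O hO2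
  have hcard : bound d s ≤ (univ : Finset O).card := by
    rw [card_univ, Fintype.card_coe]
    refine le_trans ?_ (card_le_card hO1)
    rw [hTfin.encard_eq_coe_toFinset_card] at hTc
    exact_mod_cast hTc.ge
  refine hiso (isotrivial_of_algebraic hd hΦ.1 S hF hG univ ?_ ?_)
  · refine le_trans ?_ hcard
    unfold bound
    omega
  · intro i j hij
    refine isAlgebraic_of_ord hN (S.z_ne_zero hij) fun v => ?_
    refine all_zero hN hd hΦ.1 S hF hG s univ ?_ hbad hij v
    intro s' hs'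
    refine le_trans ?_ hcard
    unfold bound
    have : mram (N₀ d) s' ≤ ∑ s' ∈ range (s + 1), mram (N₀ d) s' :=
      single_le_sum (f := fun s' => mram (N₀ d) s') (fun _ _ => Nat.zero_le _)
        (mem_range.2 (by omega))
    omega

end Pool.Agent.Helper55.RM

end
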