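import Pool.Agent.Helper23.MB.L02_ab0
import Pool.Agent.Helper23.MB.L02_ab3
import Pool.Agent.Helper23.MB.L02_ab6
import Pool.Agent.Helper23.MB.L02_ab7

/-!
Parts of Helper45.S4Res, Helper47.EN.Defs, Helper34.Dep.Defs, Helper47.EN.Ext, Helper31.EN.Push, Helper47.EN.Group, Helper13.EN.V2, Helper38.DT.Main, Helper34.Dep.Ex, Helper34.Dep.Trans, Helper64.Dep.PD, Helper34.Dep.Bz, Helper34.Dep.Tw, Helper34.Dep.Deg, Helper34.Dep.Dyn, Helper34.Dep.Core, Helper34.Dep.PartA, Helper38.DT.Final
-/

attribute [-simp] Valuation.IsUniformizer.val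
attribute [local instance 5000]
  Pool.Agent.Helper23.MB.Inst.rCharZero Pool.Agent.Helper23.MB.Inst.rALM
  Pool.Agent.Helper23.MB.Inst.rARM Pool.Agent.Helper23.MB.Inst.rALSM
  Pool.Agent.Helper23.MB.Inst.rARSM Pool.Agent.Helper23.MB.Inst.rARRLE
  Pool.Agent.Helper23.MB.Inst.rALRLE Pool.Agent.Helper23.MB.Inst.rARRLT
  Pool.Agent.Helper23.MB.Inst.rALRLT Pool.Agent.Helper23.MB.Inst.rPMRLT
  Pool.Agent.Helper23.MB.Inst.rMPRLT Pool.Agent.Helper23.MB.Inst.rPMM
  Pool.Agent.Helper23.MB.Inst.rMPM Pool.Agent.Helper23.MB.Inst.rPMSM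
  Pool.Agent.Helper23.MB.Inst.rMPSM Pool.Agent.Helper23.MB.Inst.rEAOL
  Pool.Agent.Helper23.MB.Inst.rIOR Pool.Agent.Helper23.MB.Inst.rISOR
  Pool.Agent.Helper23.MB.Inst.rNZD Pool.Agent.Helper23.MB.Inst.zCharZero
  Pool.Agent.Helper23.MB.Inst.zALM Pool.Agent.Helper23.MB.Inst.zARM
  Pool.Agent.Helper23.MB.Inst.zIOR Pool.Agent.Helper23.MB.Inst.zISOR
  Pool.Agent.Helper23.MB.Inst.zNZD Pool.Agent.Helper23.MB.Inst.qCharZero
  Pool.Agent.Helper23.MB.Inst.free Pool.Agent.Helper23.MB.Inst.faith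
  Pool.Agent.Helper23.MB.Inst.torsionFree Pool.Agent.Helper23.MB.Inst.rfFaith
  Pool.Agent.Helper23.MB.Inst.hAdd Pool.Agent.Helper23.MB.Inst.hAddM
  Pool.Agent.Helper23.MB.Inst.hMul Pool.Agent.Helper23.MB.Inst.hMon
  Pool.Agent.Helper23.MB.Inst.hZero Pool.Agent.Helper23.MB.Inst.hOne
  Pool.Agent.Helper23.MB.Inst.hMZ Pool.Agent.Helper23.MB.Inst.hRing
  Pool.Agent.Helper23.MB.Inst.aAdd Pool.Agent.Helper23.MB.Inst.aAddM
  Pool.Agent.Helper23.MB.Inst.aMul Pool.Agent.Helper23.MB.Inst.aMon
  Pool.Agent.Helper23.MB.Inst.aZero Pool.Agent.Helper23.MB.Inst.aOne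
  Pool.Agent.Helper23.MB.Inst.aMZ Pool.Agent.Helper23.MB.Inst.aRing

namespace Pool.Agent.Helper16
end Pool.Agent.Helper16
namespace Pool.Agent.Helper3.Dep
end Pool.Agent.Helper3.Dep
namespace Pool.Agent.Helper33
end Pool.Agent.Helper33
namespace Pool.Agent.Helper34.Dep
end Pool.Agent.Helper34.Dep
namespace Pool.Agent.Helper38.DT
end Pool.Agent.Helper38.DT
namespace Pool.Agent.Helper45.FF
end Pool.Agent.Helper45.FF
namespace Pool.Agent.Helper45.FR
end Pool.Agent.Helper45.FR
namespace Pool.Agent.Helper45.S4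
end Pool.Agent.Helper45.S4
namespace Pool.Agent.Helper45.S6
end Pool.Agent.Helper45.S6
namespace Pool.Agent.Helper47.EN
end Pool.Agent.Helper47.EN
namespace Pool.Agent.Helper47.RR
end Pool.Agent.Helper47.RR
namespace Pool.Agent.Helper61.BBGermA
end Pool.Agent.Helper61.BBGermA
namespace Pool.Agent.Helper64.Dep
end Pool.Agent.Helper64.Dep
namespace Pool.Agent.Helper93.RatODE
end Pool.Agent.Helper93.RatODE

section

set_option autoImplicit false

set_option linter.style.haveILetI false

namespace Pool.Agent.Helper45.S4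

open Polynomial IntermediateField Pool.Agent.Helper16 Pool.Agent.Helper33 Pool.Agent.Helper45.FF

variable {k L M : Type} [Field k] [Field L] [Field M] [Algebra k L] [Algebra k M] [Algebra L M]
  [IsScalarTower k L M]

theorem deg_eq_one' [IsAlgClosed k] (hN : IsFunctionField k L) (v : Place k L) : v.deg = 1 :=
  deg_eq_one hN v

end Pool.Agent.Helper45.S4

end

section

set_option autoImplicit false

set_option linter.style.haveILetI false

namespace Pool.Agent.Helper47.EN

open Pool.Agent.Helper16 Pool.Agent.Helper45.S4 Pool.Agent.Helper47.RR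

variable {k L M N : Type} [Field k] [Field L] [Field M] [Field N] [Algebra k L] [Algebra k M]
  [Algebra k N]

section plc

variable (hL : IsFunctionField k L) (hM : IsFunctionField k M) (φ : L →ₐ[k] M)

include hL hM in
theorem exists_plc (w : Place k M) :
    ∃ v : Place k L, ∃ r : ℕ, 1 ≤ r ∧ ∀ x : L, w.ord (φ x) = r * v.ord x := by
  letI : Algebra L M := φ.toRingHom.toAlgebra
  haveI : IsScalarTower k L M := IsScalarTower.of_algebraMap_eq (fun x => (φ.commutes x).symm)
  haveI := isAlgebraic_of_hom hL hM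
  exact exists_resPl hL w

/-- the place of `L` below a place of `M`, along a homomorphism `L → M` -/
noncomputable def plc (w : Place k M) : Place k L := (exists_plc hL hM φ w).choose

/-- the ramification index of a place of `M`, along a homomorphism `L → M` -/
noncomputable def rmi (w : Place k M) : ℕ := (exists_plc hL hM φ w).choose_spec.choose

theorem rmi_pos (w : Place k M) : 1 ≤ rmi hL hM φ w :=
  (exists_plc hL hM φ w).choose_spec.choose_spec.1

theorem ord_hom (w : Place k M) (x : L) :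
    w.ord (φ x) = rmi hL hM φ w * (plc hL hM φ w).ord x :=
  (exists_plc hL hM φ w).choose_spec.choose_spec.2 x

theorem plc_val_le_one (w : Place k M) (x : L) :
    (plc hL hM φ w).val x ≤ 1 ↔ w.val (φ x) ≤ 1 := by
  by_cases hx : x = 0
  · simp [hx]
  have hx' : φ x ≠ 0 := by simpa using hx
  rw [← Place.ord_nonneg_iff _ hx, ← Place.ord_nonneg_iff _ hx', ord_hom hL hM φ w]
  have := rmi_pos hL hM φ w
  constructor
  · intro h; (clear * - this h; positivity)
  · intro h
    by_contra hcon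
    rw [not_le] at hcon
    have : (rmi hL hM φ w : ℤ) * (plc hL hM φ w).ord x < 0 :=
      mul_neg_of_pos_of_neg (by positivity) hcon
    omega

theorem plc_val_lt_one (w : Place k M) (x : L) :
    (plc hL hM φ w).val x < 1 ↔ w.val (φ x) < 1 := by
  by_cases hx : x = 0
  · simp [hx]
  have hx' : φ x ≠ 0 := by simpa using hx
  rw [← Place.ord_pos_iff _ hx, ← Place.ord_pos_iff _ hx', ord_hom hL hM φ w]
  have := rmi_pos hL hM φ w
  constructor
  · intro h; (clear * - this h; positivity)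
  · intro h
    by_contra hcon
    rw [not_lt] at hcon
    have : (rmi hL hM φ w : ℤ) * (plc hL hM φ w).ord x ≤ 0 :=
      mul_nonpos_of_nonneg_of_nonpos (by positivity) hcon
    omega

/-- characterisation of the place below -/
theorem plc_eq_of (w : Place k M) (v : Place k L)
    (h : ∀ x : L, w.val (φ x) ≤ 1 → v.val x ≤ 1) : plc hL hM φ w = v :=
  place_ext fun x hx => h x ((plc_val_le_one hL hM φ w x).1 hx)

end plc

theorem plc_comp (hL : IsFunctionField k L) (hM : IsFunctionField k M) (hN : IsFunctionField k N)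
    (φ : L →ₐ[k] M) (ψ : M →ₐ[k] N) (w : Place k N) :
    plc hL hN (ψ.comp φ) w = plc hL hM φ (plc hM hN ψ w) := by
  apply plc_eq_of
  intro x hx
  rw [plc_val_le_one, plc_val_le_one]
  exact hx

theorem plc_id (hL : IsFunctionField k L) (w : Place k L) : plc hL hL (AlgHom.id k L) w = w :=
  plc_eq_of hL hL _ _ _ fun _ hx => hx

/-- the action of an automorphism on places -/
theorem plc_equiv (hM : IsFunctionField k M) (σ : M ≃ₐ[k] M) (w : Place k M) :
    plc hM hM (σ : M →ₐ[k] M) w = act σ⁻¹ w :=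
  plc_eq_of hM hM _ _ _ fun _ hx => hx

theorem plc_act (hL : IsFunctionField k L) (hM : IsFunctionField k M) (φ : L →ₐ[k] M)
    (σ : M ≃ₐ[k] M) (w : Place k M) :
    plc hL hM φ (act σ w) = plc hL hM (((σ⁻¹ : M ≃ₐ[k] M) : M →ₐ[k] M).comp φ) w := by
  symm
  apply plc_eq_of
  intro x hx
  rw [plc_val_le_one]
  exact hx

end Pool.Agent.Helper47.EN

end

section

set_option autoImplicit false

set_option linter.style.haveILetI false

namespace Pool.Agent.Helper34.Dep

open Polynomial Pool.Agent.Helper16 Pool.Agent.Helper47.RR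

open scoped Polynomial.Bivariate

/-- the pole degree of a function -/
noncomputable def pd {k M : Type} [Field k] [Field M] [Algebra k M] (hM : IsFunctionField k M)
    (h : M) : ℕ :=
  ∑ v ∈ (prin hM h).support, (-(v.ord h)).toNat

end Pool.Agent.Helper34.Dep

end

section

set_option autoImplicit false

set_option linter.style.haveILetI false

namespace Pool.Agent.Helper47.EN

open Pool.Agent.Helper16 Pool.Agent.Helper45.S4 Pool.Agent.Helper47.RR IntermediateField

open Pool.Agent.Helper45.FF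

variable {k L M : Type} [Field k] [Field L] [Field M] [Algebra k L] [Algebra k M]

theorem finite_poles (hM : IsFunctionField k M) (z : M) :
    {w : Place k M | ¬ w.val z ≤ 1}.Finite := const_mem_Ad hM z

/-- A homomorphism is determined by its action on places. -/
theorem hom_ext_of_plc [IsAlgClosed k] (hL : IsFunctionField k L) (hM : IsFunctionField k M)
    (p1 p2 : L →ₐ[k] M) (h : ∀ w, plc hL hM p1 w = plc hL hM p2 w) : p1 = p2 := by
  ext x
  by_contra hne
  have hz : p1 x - p2 x ≠ 0 := sub_ne_zero.2 hne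
  have h1 : (Set.univ : Set (Place k M)) ⊆
      {w | ¬ w.val (p1 x) ≤ 1} ∪ {w | w.val (p1 x - p2 x) < 1} := by
    intro w _
    by_cases hw : w.val (p1 x) ≤ 1
    · right
      have h2 := (plc_val_le_one hL hM p1 w x).2 hw
      obtain ⟨c, hc⟩ := exists_res_val hL (plc hL hM p1 w) x h2
      have h3 := (plc_val_lt_one hL hM p1 w _).1 hc
      rw [h w] at hc
      have h4 := (plc_val_lt_one hL hM p2 w _).1 hc
      rw [map_sub, AlgHom.commutes] at h3 h4
      change w.val (p1 x - p2 x) < 1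
      have h5 : p1 x - p2 x = (p1 x - algebraMap k M c) - (p2 x - algebraMap k M c) := by ring
      rw [h5]
      exact w.val.map_sub_lt h3 h4
    · exact Or.inl hw
  haveI := infinite_place hM
  exact Set.infinite_univ (((finite_poles hM _).union (finite_zeros hM hz)).subset h1)

end Pool.Agent.Helper47.EN

end

section

set_option autoImplicit false

set_option linter.style.haveILetI false

namespace Pool.Agent.Helper31.EN

open Polynomial IntermediateField Pool.Agent.Helper16 Pool.Agent.Helper45.S4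

open Pool.Agent.Helper47.RR Pool.Agent.Helper47.EN

section tower

variable {k : Type} [Field k]

/-- The place below, for the homomorphism `algebraMap`. -/
theorem plc_eq_resPl {L M : Type} [Field L] [Field M] [Algebra k L] [Algebra k M] [Algebra L M]
    [IsScalarTower k L M] (hL : IsFunctionField k L) (hM : IsFunctionField k M)
    [Algebra.IsAlgebraic L M] (φ : L →ₐ[k] M) (h : ∀ x, φ x = algebraMap L M x) (w : Place k M) :
    plc hL hM φ w = resPl hL w := by
  apply plc_eq_of
  intro x hx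
  rw [h] at hx
  by_cases hx0 : x = 0
  · rw [hx0, map_zero]; exact zero_le
  have hx0' : algebraMap L M x ≠ 0 := by simpa using hx0
  rw [← w.ord_nonneg_iff hx0', ord_algebraMap hL] at hx
  rw [← Place.ord_nonneg_iff _ hx0]
  have hr := ram_pos hL w
  by_contra hcon
  rw [not_le] at hcon
  have : (ram hL w : ℤ) * (resPl hL w).ord x < 0 := mul_neg_of_pos_of_neg (by positivity) hcon
  omega

end tower

end Pool.Agent.Helper31.EN

end

section

set_option autoImplicit false

set_option linter.style.haveILetI false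

namespace Pool.Agent.Helper47.EN

open Pool.Agent.Helper16 Pool.Agent.Helper45.S4 Pool.Agent.Helper47.RR IntermediateField

variable {k M : Type} [Field k] [Field M] [Algebra k M]

section main

variable [IsAlgClosed k] (hM : IsFunctionField k M) (hg : genus k M = 1) (ψ : M →ₐ[k] M)

include hM in
theorem act_ext {a b : M ≃ₐ[k] M} (h : ∀ P, act a P = act b P) : a = b := by
  have h1 : ∀ P, act a⁻¹ P = act b⁻¹ P := by
    intro P
    have h2 : act a (act b⁻¹ P) = P := by rw [h, act_inv_act]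
    calc act a⁻¹ P = act a⁻¹ (act a (act b⁻¹ P)) := by rw [h2]
      _ = act b⁻¹ P := by rw [← Helper45.S4.act_mul, inv_mul_cancel, Helper45.S4.act_one]
  have h3 : (a : M →ₐ[k] M) = (b : M →ₐ[k] M) := by
    apply hom_ext_of_plc hM hM
    intro w
    rw [plc_equiv, plc_equiv, h1]
  ext x
  exact DFunLike.congr_fun h3 x

/-- automorphisms commuting with `ψ` preserve the fixed places of `ψ` -/
theorem act_mem_fix {a : M ≃ₐ[k] M} (ha : ∀ x, a (ψ x) = ψ (a x)) {O : Place k M}
    (hO : plc hM hM ψ O = O) : plc hM hM ψ (act a O) = act a O := by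
  have h1 : (((a⁻¹ : M ≃ₐ[k] M) : M →ₐ[k] M).comp ψ) = ψ.comp ((a⁻¹ : M ≃ₐ[k] M) : M →ₐ[k] M) := by
    ext x
    change a.symm (ψ x) = ψ (a.symm x)
    rw [AlgEquiv.symm_apply_eq, ha, AlgEquiv.apply_symm_apply]
  rw [plc_act, h1, plc_comp hM hM hM, hO, plc_equiv, inv_inv]

end main

end Pool.Agent.Helper47.EN

end

section

set_option autoImplicit false

set_option linter.style.haveILetI false

namespace Pool.Agent.Helper47.EN

open Pool.Agent.Helper16 Pool.Agent.Helper45.S4 Pool.Agent.Helper47.RR IntermediateField Polynomial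

variable {k L M : Type} [Field k] [Field L] [Field M] [Algebra k L] [Algebra k M]

theorem plc_pow (hM : IsFunctionField k M) (φ : M →ₐ[k] M) (n : ℕ) (w : Place k M) :
    plc hM hM (φ ^ n) w = (plc hM hM φ)^[n] w := by
  induction n with
  | zero => exact plc_id hM w
  | succ n ih =>
    rw [Function.iterate_succ', Function.comp_apply, ← ih]
    have h1 : φ ^ (n + 1) = (φ ^ n).comp φ := pow_succ φ n
    rw [h1]
    exact plc_comp hM hM hM φ (φ ^ n) w

/-- a stable finite set of places -/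
theorem exists_stable [IsAlgClosed k] (hM : IsFunctionField k M) (φ : M →ₐ[k] M) (h : M)
    (hh : Transcendental k h) (hφ : φ h ∈ k⟮h⟯) :
    ∃ S : Finset (Place k M), S.Nonempty ∧ S.card ≤ Module.finrank k⟮h⟯ M ∧
      ∀ w ∈ S, plc hM hM φ w ∈ S := by
  classical
  have hh0 : h ≠ 0 := by
    rintro rfl
    exact hh isAlgebraic_zero
  obtain ⟨r, s, hrs⟩ := (mem_adjoin_simple_iff k _).1 hφ
  have hs0 : s ≠ 0 := by
    rintro rfl
    rw [map_zero, div_zero] at hrs
    exact hh0 (by simpa using hrs)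
  -- coprime representation
  obtain ⟨p, q, hq0, hpq, hval⟩ : ∃ p q : k[X], q ≠ 0 ∧ IsCoprime p q ∧
      φ h * aeval h q = aeval h p := by
    set g := gcd r s with hg
    obtain ⟨p, hp⟩ : g ∣ r := gcd_dvd_left r s
    obtain ⟨q, hq⟩ : g ∣ s := gcd_dvd_right r s
    have hg0 : g ≠ 0 := by
      rintro h0
      rw [h0, zero_mul] at hq
      exact hs0 hq
    refine ⟨p, q, ?_, ?_, ?_⟩
    · rintro rfl
      rw [mul_zero] at hq
      exact hs0 hq
    · have h1 : g * gcd p q = g * 1 := by
        rw [mul_one]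
        have h2 := gcd_mul_left g p q
        rw [← hp, ← hq, ← hg] at h2
        have h3 : normalize g = g := by rw [hg]; exact normalize_gcd r s
        rw [h3] at h2
        exact h2.symm
      have h2 : gcd p q = 1 := mul_left_cancel₀ hg0 h1
      exact (gcd_isUnit_iff p q).1 (by rw [h2]; exact isUnit_one)
    · have hgh : aeval h g ≠ 0 := by
        intro h0
        exact hg0 (by
          by_contra hne
          exact hh ⟨g, hne, h0⟩)
      have hqh : aeval h q ≠ 0 := by
        intro h0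
        refine hh ⟨q, ?_, h0⟩
        rintro rfl
        rw [mul_zero] at hq
        exact hs0 hq
      rw [hrs, hp, hq, map_mul, map_mul]
      field_simp
  by_cases hroot : ∃ c : k, (p - X * q).eval c = 0
  · obtain ⟨c, hc⟩ := hroot
    have hqc : q.eval c ≠ 0 := by
      intro h0
      rw [eval_sub, eval_mul, eval_X, h0, mul_zero, sub_zero] at hc
      obtain ⟨a, b, hab⟩ := hpq
      have h1 := congrArg (eval c) hab
      rw [eval_add, eval_mul, eval_mul, hc, h0, mul_zero, mul_zero, add_zero, eval_one] at h1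
      exact zero_ne_one h1
    obtain ⟨S, hSne, hS, hcard⟩ := exists_zeros_card hM (h - algebraMap k M c)
      (transcendental_sub_c h hh c)
    refine ⟨S, hSne, by rwa [adjoin_sub_c] at hcard, ?_⟩
    intro w hw
    rw [hS] at hw ⊢
    rw [plc_val_lt_one, map_sub, AlgHom.commutes]
    have h1 : (φ h - algebraMap k M c) * aeval h q = aeval h (p - C c * q) := by
      rw [sub_mul, hval, map_sub, map_mul, aeval_C]
    have h2 : (p - C c * q).eval c = 0 := by
      rw [eval_sub, eval_mul, eval_X] at hc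
      rw [eval_sub, eval_mul, eval_C]
      exact hc
    have h3 := val_aeval_sub w h c hw (p - C c * q)
    rw [h2, map_zero, sub_zero, ← h1, map_mul, val_aeval_eq_one w h c hw q hqc, mul_one] at h3
    exact h3
  · -- the point at infinity is fixed
    push Not at hroot
    have hdeg : (p - X * q).degree = 0 := by
      by_contra hd
      obtain ⟨c, hc⟩ := IsAlgClosed.exists_root (p - X * q) hd
      exact hroot c hc
    have hpole := exists_zeros_card hM h⁻¹ (by
      intro hcon
      exact hh (by simpa using hcon.inv))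
    obtain ⟨S, hSne, hS, hcard⟩ := hpole
    rw [adjoin_inv'] at hcard
    refine ⟨S, hSne, hcard, ?_⟩
    intro w hw
    rw [hS] at hw ⊢
    rw [plc_val_lt_one, map_inv₀, map_inv₀]
    rw [map_inv₀] at hw
    have hwh0 : w.val h ≠ 0 := (Valuation.ne_zero_iff _).2 hh0
    have hw' : 1 < w.val h := by
      rcases lt_or_ge 1 (w.val h) with h1 | h1
      · exact h1
      · exfalso
        exact absurd hw (not_lt.2 (by
          rw [one_le_inv₀ (zero_lt_iff.2 hwh0)]
          exact h1))
    have hp0 : p ≠ 0 := by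
      rintro rfl
      rw [map_zero] at hval
      rcases mul_eq_zero.1 hval with h1 | h1
      · exact hh0 (by simpa using h1)
      · exact hh ⟨q, hq0, h1⟩
    have hpd : p.natDegree = q.natDegree + 1 := by
      have h1 : p = (p - X * q) + X * q := by ring
      have h2 : (X * q).degree = ((q.natDegree + 1 : ℕ) : WithBot ℕ) := by
        rw [degree_mul, degree_X, degree_eq_natDegree hq0]
        push_cast
        ring
      have h3 : p.degree = ((q.natDegree + 1 : ℕ) : WithBot ℕ) := by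
        rw [h1, degree_add_eq_right_of_degree_lt, h2]
        rw [hdeg, h2]
        exact_mod_cast Nat.succ_pos _
      exact natDegree_eq_of_degree_eq_some h3
    have h1 := congrArg w.val hval
    rw [map_mul, val_aeval_pole w h hw' p hp0, val_aeval_pole w h hw' q hq0, hpd, pow_succ,
      mul_comm (w.val h ^ q.natDegree)] at h1
    have h2 : w.val (φ h) = w.val h :=
      mul_right_cancel₀ (pow_ne_zero _ hwh0) h1
    rw [h2]
    exact hw

/-- a periodic place -/
theorem exists_periodic [IsAlgClosed k] (hM : IsFunctionField k M) (φ : M →ₐ[k] M) (h : M)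
    (hh : Transcendental k h) (hφ : φ h ∈ k⟮h⟯) :
    ∃ i, 1 ≤ i ∧ i ≤ Module.finrank k⟮h⟯ M ∧ ∃ O, plc hM hM (φ ^ i) O = O := by
  obtain ⟨S, hne, hcard, hst⟩ := exists_stable hM φ h hh hφ
  obtain ⟨i, hi1, hi2, x, -, hx⟩ := exists_iterate_eq (plc hM hM φ) S hne hst
  exact ⟨i, hi1, hi2.trans hcard, x, by rw [plc_pow, hx]⟩

end Pool.Agent.Helper47.EN

end

section

set_option autoImplicit false

set_option linter.style.haveILetI false

namespace Pool.Agent.Helper38.DT

open Polynomial IntermediateField Pool.Agent.Helper16 Pool.Agent.Helper45.S4 Pool.Agent.Helper45.FR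
  Pool.Agent.Helper93.RatODE Pool.Agent.Helper45.S6 Pool.Agent.Helper47.EN Pool.Agent.Helper34.Dep

/-- the statement of part A -/
def PartAStmt (d n m : ℕ) : Prop := ∃ C : ℕ, ∀ N' : ℕ, ∃ N : ℕ,
    ∀ (k L : Type) [Field k] [IsAlgClosed k]
    [Field L] [Algebra k L] (t : L), IsFunctionField k L → Transcendental k t →
    Algebra.IsSeparable k⟮t⟯ L → Module.finrank k⟮t⟯ L ≤ n →
    ∀ F G : L[X], IsRatD F G d → ∀ x : ℕ → L, RatOrbit F G x N →
    ∀ τ : L →ₐ[k⟮t⟯] AlgebraicClosure L, (∃ a, τ a ≠ algebraMap L (AlgebraicClosure L) a) →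
    ∀ P : MvPolynomial (Fin 2) (AlgebraicClosure L), P ≠ 0 → (∀ i, P.degreeOf i ≤ m) →
    (∀ j ≤ N, MvPolynomial.eval ![algebraMap L (AlgebraicClosure L) (x j), τ (x j)] P = 0) →
    ∃ (L₀ : IntermediateField k⟮t⟯ L)
      (Γ : Subgroup (AlgebraicClosure L ≃ₐ[k⟮t⟯] AlgebraicClosure L))
      (M : Type) (_ : Field M) (_ : Algebra (AlgebraicClosure L) M)
      (hM : IsFunctionField (AlgebraicClosure L) M) (Φ : M →ₐ[AlgebraicClosure L] M) (z : M)
      (r j₀ : ℕ) (w : ℕ → Place (AlgebraicClosure L) M),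
      L₀ ≠ ⊤ ∧
      (∀ a : AlgebraicClosure L, (∀ g ∈ Γ, g a = a) → ∃ e : ℕ, ∃ b ∈ L₀,
        a ^ (ringExpChar k ^ e) = algebraMap L (AlgebraicClosure L) b) ∧
      1 ≤ r ∧ r ≤ C ∧ j₀ ≤ C ∧ Transcendental (AlgebraicClosure L) z ∧
      Module.finrank (AlgebraicClosure L)⟮z⟯ M ≤ C ∧
      Φ z * aeval z (iter (F.map (algebraMap L (AlgebraicClosure L)))
        (G.map (algebraMap L (AlgebraicClosure L))) d r).2 =
        aeval z (iter (F.map (algebraMap L (AlgebraicClosure L)))
        (G.map (algebraMap L (AlgebraicClosure L))) d r).1 ∧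
      (∀ l, w (l + 1) = plc hM hM Φ (w l)) ∧ (Set.range w).Finite ∧
      (∀ l l', l ≤ N' → l' ≤ N' → w l = w l' → l = l') ∧
      (∀ l, Pv (w l) z (algebraMap L (AlgebraicClosure L) (x (j₀ + l * r)))) ∧
      ∀ g ∈ Γ, ∃ g' : M ≃+* M,
        (∀ c, g' (algebraMap (AlgebraicClosure L) M c) = algebraMap (AlgebraicClosure L) M (g c)) ∧
        (∀ u, g' (Φ u) = Φ (g' u)) ∧ ∀ l u, (w l).val (g' u) = (w l).val u

end Pool.Agent.Helper38.DT

end

section

set_option autoImplicit false

set_option linter.style.haveILetI false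

namespace Pool.Agent.Helper34.Dep

open Polynomial Pool.Agent.Helper16 Pool.Agent.Helper47.RR Pool.Agent.Helper61.BBGermA

open scoped Polynomial.Bivariate

/-- the germ of a place -/
theorem exists_germ_place {k M : Type} [Field k] [Field M] [Algebra k M] [IsAlgClosed k]
    (hM : IsFunctionField k M) (w : Place k M) :
    ∃ g : Germ k M, (∀ u, w.val u ≤ 1 ↔ u ∈ g.O) ∧ ∀ u a, Pv w u a ↔ g.Val u a := by
  set O : ValuationSubring M := w.val.valuationSubring with hO
  have hmem : ∀ u, u ∈ O ↔ w.val u ≤ 1 := fun u => Iff.rfl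
  have hnon : ∀ u, u ∈ O.nonunits ↔ w.val u < 1 := by
    intro u
    by_cases hu : u = 0
    · rw [hu, map_zero, ValuationSubring.mem_nonunits_iff, map_zero]
      simp
    rw [ValuationSubring.mem_nonunits_iff]
    have h1 : w.val u < 1 ↔ ¬ w.val u⁻¹ ≤ 1 := by
      rw [map_inv₀, not_le, one_lt_inv₀ (zero_lt_iff.2 (by simpa using hu))]
    rw [h1, ← hmem, ← O.valuation_le_one_iff, map_inv₀, not_le, one_lt_inv₀]
    rw [zero_lt_iff]
    simpa using hu
  obtain ⟨g, hg⟩ := exists_germ_of O (fun a => w.val_algebraMap_le a) (by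
    intro x
    obtain ⟨c, hc⟩ := Pool.Agent.Helper45.S4.exists_res_val hM w (x : M) x.2
    refine ⟨c, ?_⟩
    rw [← ValuationSubring.coe_mem_nonunits_iff]
    exact (hnon _).2 hc)
  refine ⟨g, fun u => by rw [hg, hmem], fun u a => ?_⟩
  rw [g.val_iff, hg, hnon]
  rfl

end Pool.Agent.Helper34.Dep

end

section

set_option autoImplicit false

set_option linter.style.haveILetI false

namespace Pool.Agent.Helper34.Dep

open Polynomial Pool.Agent.Helper16 Pool.Agent.Helper47.RR Pool.Agent.Helper3.Dep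

open scoped Polynomial.Bivariate IntermediateField

theorem exists_embedding {k M K : Type} [Field k] [Field M] [Field K] [Algebra k M] [Algebra k K]
    [IsAlgClosed k] [IsAlgClosed K] (hM : IsFunctionField k M) (T : M) (hT : Transcendental k T)
    (T' : K) (hT' : Transcendental k T') (g : Germ k K) (c : k) (hg : g.Val T' c)
    (w : Place k M) (hw : Pv w T c) :
    ∃ ψ : M →ₐ[k] K, ψ T = T' ∧ ∀ u, w.val u ≤ 1 ↔ ψ u ∈ g.O := by
  obtain ⟨h, hh, hhw⟩ := hM.exists_single_pole w
  have hh0 : h ≠ 0 := transcendental_ne_zero hh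
  set u := h⁻¹ with hu
  have hutr : Transcendental k u := transcendental_inv hh
  have hu0 : u ≠ 0 := transcendental_ne_zero hutr
  -- the zero of `u`
  have hzero : ∀ v : Place k M, v.val u < 1 → v = w := by
    intro v hv
    by_contra hne
    have h1 := hhw v hne
    rw [hu, map_inv₀] at hv
    have h2 := (inv_lt_one₀ (zero_lt_iff.2 (by simpa using hh0))).1 hv
    exact absurd h1 (not_le.2 h2)
  have hwu : w.val u < 1 := by
    obtain ⟨S, hS, hsum, hpos⟩ := hM.zeros u hutr
    have hne : S.Nonempty := by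
      rw [Finset.nonempty_iff_ne_empty]
      rintro rfl
      rw [Finset.sum_empty] at hsum
      have : (Module.finrank k⟮u⟯ M : ℤ) ≠ 0 := by exact_mod_cast hpos.ne'
      exact this hsum.symm
    obtain ⟨v, hv⟩ := hne
    have hv' := (hS v).1 hv
    rw [← hzero v hv']
    exact hv'
  haveI := hM.finiteDimensional T hT
  obtain ⟨R, hR0, hRc, -, hR⟩ := exists_biv T u hT (Algebra.IsAlgebraic.isAlgebraic u)
  obtain ⟨g', hg'1, hg'2⟩ := exists_germ_place hM w
  have hu' : g'.Val u 0 := (hg'2 u 0).1 (by unfold Pv; rw [map_zero, sub_zero]; exact hwu)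
  have h1 := ((hg'2 T c).1 hw).aevalAeval hu' R
  rw [hR0] at h1
  have h2 : R.evalEval c 0 = 0 := h1.uniq g'.val_zero
  obtain ⟨u', hu'1, hu'2⟩ := g.lift_root hg R (hRc c) h2
  obtain ⟨ψ, hψT, hψu⟩ := hR K T' u' hT' inferInstance hu'1
  refine ⟨ψ, hψT, ?_⟩
  obtain ⟨v, hv1, hv2⟩ := g.exists_place hM ψ
  have h3 : Pv v u 0 := (hv2 u 0).2 (by rw [hψu]; exact hu'2)
  have h4 : v = w := hzero v (by unfold Pv at h3; rwa [map_zero, sub_zero] at h3)
  rw [← h4]
  exact hv1

end Pool.Agent.Helper34.Dep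

end

section

set_option autoImplicit false

set_option linter.style.haveILetI false

namespace Pool.Agent.Helper64.Dep

open Polynomial Pool.Agent.Helper16 Pool.Agent.Helper47.RR IntermediateField

open Pool.Agent.Helper34.Dep

open scoped Polynomial.Bivariate

section PD

variable {k M M' : Type} [Field k] [Field M] [Field M'] [Algebra k M] [Algebra k M']
  (hM : IsFunctionField k M) (hM' : IsFunctionField k M')

theorem pd_eq_sum (h : M) (S : Finset (Place k M)) (hS : ∀ v, v.ord h < 0 → v ∈ S) :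
    pd hM h = ∑ v ∈ S, lp v h := by
  classical
  have h1 : pd hM h = ∑ v ∈ (prin hM h).support ∪ S, lp v h := by
    unfold pd
    refine Finset.sum_subset Finset.subset_union_left fun v _ hv => ?_
    have h2 : v.ord h = 0 := by
      by_contra hne
      exact hv (Finsupp.mem_support_iff.2 hne)
    rw [h2]
    rfl
  rw [h1]
  symm
  refine Finset.sum_subset Finset.subset_union_right fun v _ hv => ?_
  have h2 : 0 ≤ v.ord h := by
    by_contra hne
    exact hv (hS v (not_le.1 hne))
  unfold lp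
  omega

theorem mem_support_of_ord {h : M} {v : Place k M} (hv : v.ord h < 0) :
    v ∈ (prin hM h).support :=
  Finsupp.mem_support_iff.2 hv.ne

theorem pd_le_of_lp {a b c : M} (m n : ℕ) (h : ∀ v : Place k M, lp v c ≤ m * lp v a + n * lp v b) :
    pd hM c ≤ m * pd hM a + n * pd hM b := by
  classical
  set S := (prin hM a).support ∪ ((prin hM b).support ∪ (prin hM c).support) with hS
  rw [pd_eq_sum hM a S (fun v hv => by
      simp only [hS, Finset.mem_union]; exact Or.inl (mem_support_of_ord hM hv)),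
    pd_eq_sum hM b S (fun v hv => by
      simp only [hS, Finset.mem_union]; exact Or.inr (Or.inl (mem_support_of_ord hM hv))),
    pd_eq_sum hM c S (fun v hv => by
      simp only [hS, Finset.mem_union]; exact Or.inr (Or.inr (mem_support_of_ord hM hv))),
    Finset.mul_sum, Finset.mul_sum, ← Finset.sum_add_distrib]
  exact Finset.sum_le_sum fun v _ => h v

theorem pd_add (a b : M) : pd hM (a + b) ≤ pd hM a + pd hM b := by
  have := pd_le_of_lp hM (a := a) (b := b) (c := a + b) 1 1 fun v => by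
    refine (lp_add v a b).trans ?_
    rw [one_mul, one_mul]
    exact max_le (Nat.le_add_right _ _) (Nat.le_add_left _ _)
  simpa using this

theorem pd_mul (a b : M) : pd hM (a * b) ≤ pd hM a + pd hM b := by
  have := pd_le_of_lp hM (a := a) (b := b) (c := a * b) 1 1 fun v => by
    rw [one_mul, one_mul]
    exact lp_mul v a b
  simpa using this

theorem pd_neg (a : M) : pd hM (-a) = pd hM a := by
  rw [pd_eq_sum hM (-a) ((prin hM a).support) (fun v hv => mem_support_of_ord hM (by
      have h1 := lp_neg v a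
      unfold lp at h1
      omega)),
    pd_eq_sum hM a ((prin hM a).support) (fun v hv => mem_support_of_ord hM hv)]
  exact Finset.sum_congr rfl fun v _ => lp_neg v a

theorem pd_sub (a b : M) : pd hM (a - b) ≤ pd hM a + pd hM b := by
  rw [sub_eq_add_neg]
  refine (pd_add hM _ _).trans ?_
  rw [pd_neg]

theorem pd_algebraMap (a : k) : pd hM (algebraMap k M a) = 0 := by
  rw [pd_eq_sum hM _ ∅ (fun v hv => by rw [v.ord_algebraMap] at hv; exact absurd hv (lt_irrefl _))]
  rfl

theorem pd_aeval (p : k[X]) (a : M) : pd hM (aeval a p) ≤ p.natDegree * pd hM a := by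
  have := pd_le_of_lp hM (a := a) (b := a) (c := aeval a p) p.natDegree 0 fun v => by
    rw [zero_mul, add_zero]
    exact lp_aeval v p a
  simpa using this

theorem pd_aevalAeval (P : k[X][Y]) (m : ℕ) (hP : BiDeg P m) (a b : M) :
    pd hM (P.aevalAeval a b) ≤ m * pd hM a + m * pd hM b :=
  pd_le_of_lp hM m m fun v => lp_aevalAeval v P m hP a b

variable [IsAlgClosed k]

theorem pd_inv (a : M) : pd hM a⁻¹ = pd hM a := by
  obtain ⟨S, hS, hsum⟩ := hM.product_formula a
  have h1 : pd hM a = ∑ v ∈ S, lp v a := pd_eq_sum hM a S fun v hv => (hS v).2 hv.ne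
  have h2 : pd hM a⁻¹ = ∑ v ∈ S, lp v a⁻¹ := pd_eq_sum hM a⁻¹ S fun v hv => (hS v).2 (by
    rw [v.ord_inv] at hv
    omega)
  have h3 : ∀ v ∈ S, v.ord a * (v.deg : ℤ) = (lp v a⁻¹ : ℤ) - (lp v a : ℤ) := by
    intro v _
    rw [Pool.Agent.Helper45.S4.deg_eq_one' hM v]
    unfold lp
    rw [v.ord_inv]
    omega
  rw [Finset.sum_congr rfl h3, Finset.sum_sub_distrib] at hsum
  have h4 : ((∑ v ∈ S, lp v a⁻¹ : ℕ) : ℤ) = ((∑ v ∈ S, lp v a : ℕ) : ℤ) := by
    push_cast
    (clear * - hsum; linarith)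
  rw [h1, h2]
  exact_mod_cast h4

theorem card_zeros_le (h : M) (h0 : h ≠ 0) (S : Finset (Place k M)) (hS : ∀ v ∈ S, v.val h < 1) :
    S.card ≤ pd hM h := by
  classical
  rw [← pd_inv hM h, pd_eq_sum hM h⁻¹ (S ∪ (prin hM h⁻¹).support)
    (fun v hv => Finset.mem_union_right _ (mem_support_of_ord hM hv))]
  calc S.card = ∑ v ∈ S, 1 := by simp
    _ ≤ ∑ v ∈ S, lp v h⁻¹ := Finset.sum_le_sum fun v hv => by
        have h1 := (v.ord_pos_iff h0).2 (hS v hv)
        unfold lp
        rw [v.ord_inv]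
        omega
    _ ≤ _ := Finset.sum_le_sum_of_subset Finset.subset_union_left

theorem pd_eq_finrank (a : M) (ha : Transcendental k a) : pd hM a = Module.finrank k⟮a⟯ M := by
  obtain ⟨T, h3, h4, -⟩ := hM.zeros a⁻¹ (transcendental_inv ha)
  rw [finrank_inv] at h4
  have ha0 : a ≠ 0 := transcendental_ne_zero ha
  have h5 : pd hM a = ∑ v ∈ T, lp v a := pd_eq_sum hM a T fun v hv => by
    rw [h3, ← v.ord_pos_iff (inv_ne_zero ha0), v.ord_inv]
    omega
  have h6 : ∀ v ∈ T, v.ord a⁻¹ * (v.deg : ℤ) = (lp v a : ℤ) := by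
    intro v hv
    rw [h3, ← v.ord_pos_iff (inv_ne_zero ha0)] at hv
    rw [Pool.Agent.Helper45.S4.deg_eq_one' hM v]
    unfold lp
    rw [v.ord_inv] at hv ⊢
    omega
  rw [Finset.sum_congr rfl h6] at h4
  rw [h5]
  exact_mod_cast h4

theorem pd_hom (φ : M →ₐ[k] M') (a : M) :
    pd hM' (φ a) = Module.finrank φ.fieldRange M' * pd hM a := by
  by_cases ha : IsAlgebraic k a
  · obtain ⟨c, rfl⟩ := exists_algebraMap_of_isAlgebraic ha
    rw [φ.commutes, pd_algebraMap, pd_algebraMap, mul_zero]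
  · have ha' : Transcendental k (φ a) := by
      intro h
      exact ha ((isAlgebraic_algHom_iff φ φ.toRingHom.injective).1 h)
    rw [pd_eq_finrank hM a ha, pd_eq_finrank hM' _ ha']
    letI : Algebra M M' := φ.toRingHom.toAlgebra
    haveI : IsScalarTower k M M' := IsScalarTower.of_algebraMap_eq (fun x => (φ.commutes x).symm)
    have h1 := Pool.Agent.Helper45.S4.finrank_tower (k := k) (M := M') a
    have h2 : Module.finrank M M' = Module.finrank φ.fieldRange M' := by
      refine Algebra.finrank_eq_of_equiv_equiv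
        (AlgEquiv.ofInjectiveField φ).toRingEquiv (RingEquiv.refl M') ?_
      ext x
      rfl
    rw [← h2, mul_comm]
    exact h1

end PD

end Pool.Agent.Helper64.Dep

end

section

set_option autoImplicit false

set_option linter.style.haveILetI false

namespace Pool.Agent.Helper34.Dep

open Polynomial Pool.Agent.Helper16 Pool.Agent.Helper47.RR IntermediateField Pool.Agent.Helper64.Dep

variable {k M M' K : Type} [Field k] [Field M] [Field M'] [Field K] [Algebra k M] [Algebra k M']
  [Algebra k K]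

/-- zeros of a difference of two elements -/
theorem eq_of_many_zeros [IsAlgClosed k] (htr : Algebra.trdeg k K = 1) (hM : IsFunctionField k M)
    (hM' : IsFunctionField k M') (ψ : M →ₐ[k] K) (ψ' : M' →ₐ[k] K) (T : M) (T' : M')
    (hT : Transcendental k T) (hT' : Transcendental k T') (hTT : ψ T = ψ' T') (a : M) (a' : M')
    (J : Finset ℕ) (g : ℕ → Germ k K) (c : ℕ → k) (hc : Set.InjOn c J)
    (hg : ∀ l ∈ J, (g l).Val (ψ T) (c l)) (hz : ∀ l ∈ J, (g l).Val (ψ a - ψ' a') 0)
    (hcard : pd hM' T' * pd hM a + pd hM T * pd hM' a' < J.card) : ψ a = ψ' a' := by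
  classical
  by_contra hne
  have hne' : ψ a - ψ' a' ≠ 0 := sub_ne_zero.2 hne
  let E : IntermediateField k K := ψ.fieldRange ⊔ ψ'.fieldRange
  have hEfg : E.FG := IntermediateField.fg_sup (fieldRange_fg hM ψ) (fieldRange_fg hM' ψ')
  have hψE : ∀ x, ψ x ∈ E := fun x => (le_sup_left : ψ.fieldRange ≤ E) ⟨x, rfl⟩
  have hψE' : ∀ x, ψ' x ∈ E := fun x => (le_sup_right : ψ'.fieldRange ≤ E) ⟨x, rfl⟩
  have hψT : Transcendental k (ψ T) := by
    intro h
    exact hT ((isAlgebraic_algHom_iff ψ ψ.toRingHom.injective).1 h)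
  have hE : IsFunctionField k E := isFunctionField_of_fg htr E hEfg (ψ T) (hψE T) hψT
  let φ : M →ₐ[k] E := ψ.codRestrict E.toSubalgebra hψE
  let φ' : M' →ₐ[k] E := ψ'.codRestrict E.toSubalgebra hψE'
  have hφ : ∀ x, (φ x : K) = ψ x := fun x => rfl
  have hφ' : ∀ x, (φ' x : K) = ψ' x := fun x => rfl
  have htop : φ.fieldRange ⊔ φ'.fieldRange = ⊤ := by
    have h1 : (φ.fieldRange ⊔ φ'.fieldRange).map E.val = (⊤ : IntermediateField k E).map E.val := by
      rw [IntermediateField.map_sup, AlgHom.map_fieldRange, AlgHom.map_fieldRange,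
        ← AlgHom.fieldRange_eq_map, IntermediateField.fieldRange_val]
      rfl
    exact IntermediateField.map_injective E.val h1
  have hTTE : φ T = φ' T' := Subtype.ext hTT
  -- degrees
  have hcomp := finrank_compositum φ φ' T T' hTTE htop
  have hφT : Transcendental k (φ T) := by
    intro h
    exact hT ((isAlgebraic_algHom_iff φ φ.toRingHom.injective).1 h)
  have hφT' : Transcendental k (φ' T') := hTTE ▸ hφT
  haveI := hM.finiteDimensional T hT
  haveI := hM'.finiteDimensional T' hT'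
  have hpos : 0 < pd hM T := by rw [pd_eq_finrank hM T hT]; exact Module.finrank_pos
  have hpos' : 0 < pd hM' T' := by rw [pd_eq_finrank hM' T' hT']; exact Module.finrank_pos
  have h1 := pd_hom hM hE φ T
  have h2 := pd_hom hM' hE φ' T'
  rw [← pd_eq_finrank hE _ hφT, ← pd_eq_finrank hM _ hT, ← pd_eq_finrank hM' _ hT'] at hcomp
  have hr : Module.finrank φ.fieldRange E ≤ pd hM' T' := by
    rw [h1, mul_comm (pd hM T)] at hcomp
    exact Nat.le_of_mul_le_mul_right hcomp hpos
  have hr' : Module.finrank φ'.fieldRange E ≤ pd hM T := by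
    rw [hTTE, h2] at hcomp
    exact Nat.le_of_mul_le_mul_right hcomp hpos'
  -- the places
  have hplace : ∀ l, ∃ w : Place k E, (∀ u, w.val u ≤ 1 ↔ E.val u ∈ (g l).O) ∧
      ∀ u b, Pv w u b ↔ (g l).Val (E.val u) b := fun l => (g l).exists_place hE E.val
  choose w hw1 hw2 using hplace
  have hinj : Set.InjOn w J := by
    intro l hl l' hl' hll
    apply hc hl hl'
    have h3 : Pv (w l) (φ T) (c l) := (hw2 l _ _).2 (hg l hl)
    have h4 : Pv (w l) (φ T) (c l') := by rw [hll]; exact (hw2 l' _ _).2 (hg l' hl')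
    exact Pool.Agent.Helper45.S4.res_unique _ _ _ _ h3 h4
  have h5 := card_zeros_le hE (φ a - φ' a') (by
    intro h
    apply hne'
    have := congrArg (fun u : E => (u : K)) h
    exact this) (J.image w) (by
    intro v hv
    rw [Finset.mem_image] at hv
    obtain ⟨l, hl, rfl⟩ := hv
    have h6 : Pv (w l) (φ a - φ' a') 0 := (hw2 l _ _).2 (hz l hl)
    unfold Pv at h6
    rwa [map_zero, sub_zero] at h6)
  rw [Finset.card_image_of_injOn hinj] at h5
  have h6 := pd_sub hE (φ a) (φ' a')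
  rw [pd_hom hM hE φ a, pd_hom hM' hE φ' a'] at h6
  have h7 := Nat.mul_le_mul_right (pd hM a) hr
  have h8 := Nat.mul_le_mul_right (pd hM' a') hr'
  omega

/-- **Uniqueness lemma.** Two function fields with generating tuples having many common points are
isomorphic (with corresponding generators), and some of the given places correspond. -/
theorem bz [IsAlgClosed k] (hM : IsFunctionField k M) (hM' : IsFunctionField k M') {ι : Type}
    (y : ι → M) (y' : ι → M') (hy : IntermediateField.adjoin k (Set.range y) = ⊤)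
    (hy' : IntermediateField.adjoin k (Set.range y') = ⊤) (s₀ : ι) (D : ℕ)
    (hD : ∀ s, pd hM (y s) ≤ D) (hD' : ∀ s, pd hM' (y' s) ≤ D)
    (hT : Transcendental k (y s₀)) (hT' : Transcendental k (y' s₀)) (N : ℕ)
    (hN : D * D * (D * D + D * D) < N) (w : ℕ → Place k M) (w' : ℕ → Place k M')
    (c : ℕ → ι → k) (hw : ∀ l < N, ∀ s, Pv (w l) (y s) (c l s))
    (hw' : ∀ l < N, ∀ s, Pv (w' l) (y' s) (c l s))
    (hinj : ∀ l < N, ∀ l' < N, c l s₀ = c l' s₀ → l = l') :
    ∃ α : M ≃ₐ[k] M', (∀ s, α (y s) = y' s) ∧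
      ∃ l < N, ∀ u, (w' l).val (α u) ≤ 1 ↔ (w l).val u ≤ 1 := by
  classical
  let K := AlgebraicClosure M'
  have htr : Algebra.trdeg k K = 1 := by
    have h1 := trdeg_add_eq k M' (A := K)
    rw [trdeg_eq_zero (R := M') (A := K), add_zero, hM'.2] at h1
    exact h1.symm
  set T' : K := algebraMap M' K (y' s₀) with hT'def
  have hT'K : Transcendental k T' := (transcendental_algebraMap_iff (algebraMap M' K).injective).2 hT'
  haveI := hM.finiteDimensional _ hT
  haveI := hM'.finiteDimensional _ hT'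
  -- germs and embeddings
  have hgerm : ∀ l, ∃ g : Germ k K, g.Val T' (c l s₀) := fun l => exists_germ htr T' hT'K _
  choose g hg using hgerm
  have hemb : ∀ l, ∃ ψ : M →ₐ[k] K, l < N → (ψ (y s₀) = T' ∧ ∀ u, (w l).val u ≤ 1 ↔ ψ u ∈ (g l).O) := by
    intro l
    by_cases hl : l < N
    · obtain ⟨ψ, h1, h2⟩ := exists_embedding hM (y s₀) hT T' hT'K (g l) _ (hg l) (w l) (hw l hl s₀)
      exact ⟨ψ, fun _ => ⟨h1, h2⟩⟩
    · obtain ⟨g0, -⟩ := exists_germ htr T' hT'K (0 : k)
      obtain ⟨S, hS, hsum, hpos⟩ := hM.zeros (y s₀) hT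
      have hne : S.Nonempty := by
        rw [Finset.nonempty_iff_ne_empty]
        rintro rfl
        rw [Finset.sum_empty] at hsum
        have : (Module.finrank k⟮y s₀⟯ M : ℤ) ≠ 0 := by exact_mod_cast hpos.ne'
        exact this hsum.symm
      obtain ⟨v, hv⟩ := hne
      obtain ⟨g1, hg1⟩ := exists_germ htr T' hT'K (0 : k)
      obtain ⟨ψ, h1, h2⟩ := exists_embedding hM (y s₀) hT T' hT'K g1 0 hg1 v (by
        unfold Pv
        rw [map_zero, sub_zero]
        exact (hS v).1 hv)
      exact ⟨ψ, fun h => absurd h hl⟩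
  choose ψ hψ using hemb
  have hemb' : ∀ l, ∃ ψ : M' →ₐ[k] K, l < N → (ψ (y' s₀) = T' ∧
      ∀ u, (w' l).val u ≤ 1 ↔ ψ u ∈ (g l).O) := by
    intro l
    by_cases hl : l < N
    · obtain ⟨ψ, h1, h2⟩ := exists_embedding hM' (y' s₀) hT' T' hT'K (g l) _ (hg l) (w' l)
        (hw' l hl s₀)
      exact ⟨ψ, fun _ => ⟨h1, h2⟩⟩
    · exact ⟨IsScalarTower.toAlgHom k M' K, fun h => absurd h hl⟩
  choose ψ' hψ' using hemb'
  -- pigeonhole
  obtain ⟨hfin, hcard⟩ := card_embeddings_le (k := k) (K := K) (y s₀) T'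
  obtain ⟨hfin', hcard'⟩ := card_embeddings_le (k := k) (K := K) (y' s₀) T'
  rw [← pd_eq_finrank hM _ hT] at hcard
  rw [← pd_eq_finrank hM' _ hT'] at hcard'
  have hc1 : hfin.toFinset.card ≤ D := by
    rw [← Set.ncard_eq_toFinset_card _ hfin]; exact hcard.trans (hD _)
  have hc2 : hfin'.toFinset.card ≤ D := by
    rw [← Set.ncard_eq_toFinset_card _ hfin']; exact hcard'.trans (hD' _)
  have hmaps : ∀ l ∈ Finset.range N, ((ψ l, ψ' l) : (M →ₐ[k] K) × (M' →ₐ[k] K)) ∈
      hfin.toFinset ×ˢ hfin'.toFinset := by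
    intro l hl
    rw [Finset.mem_range] at hl
    rw [Finset.mem_product, Set.Finite.mem_toFinset, Set.Finite.mem_toFinset]
    exact ⟨(hψ l hl).1, (hψ' l hl).1⟩
  obtain ⟨⟨χ, χ'⟩, hχ, hfib⟩ := Finset.exists_lt_card_fiber_of_mul_lt_card_of_maps_to hmaps
    (n := D * D + D * D) (by
      rw [Finset.card_product, Finset.card_range]
      exact lt_of_le_of_lt (Nat.mul_le_mul_right _ (Nat.mul_le_mul hc1 hc2)) hN)
  rw [Finset.mem_product, Set.Finite.mem_toFinset, Set.Finite.mem_toFinset] at hχ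
  obtain ⟨hχT, hχT'⟩ := hχ
  simp only [Set.mem_ofPred_eq] at hχT hχT'
  set J := (Finset.range N).filter fun l => (ψ l, ψ' l) = (χ, χ') with hJ
  have hJN : ∀ l ∈ J, l < N := fun l hl => Finset.mem_range.1 (Finset.mem_filter.1 hl).1
  have hJψ : ∀ l ∈ J, ψ l = χ := fun l hl => (Prod.mk.inj (Finset.mem_filter.1 hl).2).1
  have hJψ' : ∀ l ∈ J, ψ' l = χ' := fun l hl => (Prod.mk.inj (Finset.mem_filter.1 hl).2).2
  -- values
  have hval : ∀ l ∈ J, ∀ s, (g l).Val (χ (y s)) (c l s) := by
    intro l hl s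
    obtain ⟨v, hv1, hv2⟩ := (g l).exists_place hM χ
    have h1 : v = w l := by
      apply Pool.Agent.Helper45.S4.place_ext
      intro u hu
      rw [(hψ l (hJN l hl)).2 u, hJψ l hl, ← hv1]
      exact hu
    rw [← hv2, h1]
    exact hw l (hJN l hl) s
  have hval' : ∀ l ∈ J, ∀ s, (g l).Val (χ' (y' s)) (c l s) := by
    intro l hl s
    obtain ⟨v, hv1, hv2⟩ := (g l).exists_place hM' χ'
    have h1 : v = w' l := by
      apply Pool.Agent.Helper45.S4.place_ext
      intro u hu
      rw [(hψ' l (hJN l hl)).2 u, hJψ' l hl, ← hv1]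
      exact hu
    rw [← hv2, h1]
    exact hw' l (hJN l hl) s
  have heq : ∀ s, χ (y s) = χ' (y' s) := by
    intro s
    apply eq_of_many_zeros htr hM hM' χ χ' (y s₀) (y' s₀) hT hT' (hχT.trans hχT'.symm) (y s) (y' s)
      J g (fun l => c l s₀) (fun l hl l' hl' h => hinj l (hJN l hl) l' (hJN l' hl') h)
    · intro l hl; rw [hχT]; exact hg l
    · intro l hl
      have := (hval l hl s).sub (hval' l hl s)
      rwa [sub_self] at this
    · refine lt_of_le_of_lt ?_ hfib
      exact Nat.add_le_add (Nat.mul_le_mul (hD' _) (hD _)) (Nat.mul_le_mul (hD _) (hD' _))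
  -- the isomorphism
  have hrange : χ.fieldRange = χ'.fieldRange := by
    rw [AlgHom.fieldRange_eq_map, AlgHom.fieldRange_eq_map, ← hy, ← hy',
      IntermediateField.adjoin_map, IntermediateField.adjoin_map, ← Set.range_comp,
      ← Set.range_comp]
    congr 1
    ext x
    constructor
    · rintro ⟨s, rfl⟩; exact ⟨s, (heq s).symm⟩
    · rintro ⟨s, rfl⟩; exact ⟨s, heq s⟩
  have hr : χ.range = χ'.range := by
    ext x
    have h1 : x ∈ χ.fieldRange ↔ x ∈ χ'.fieldRange := by rw [hrange]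
    exact h1
  let α : M ≃ₐ[k] M' := (AlgEquiv.ofInjectiveField χ).trans
    ((Subalgebra.equivOfEq _ _ hr).trans (AlgEquiv.ofInjectiveField χ').symm)
  have hα : ∀ u, χ' (α u) = χ u := by
    intro u
    have h1 : (AlgEquiv.ofInjectiveField χ') (α u) = Subalgebra.equivOfEq _ _ hr
        (AlgEquiv.ofInjectiveField χ u) := AlgEquiv.apply_symm_apply _ _
    exact congrArg Subtype.val h1
  have hJne : J.Nonempty := by
    rw [← Finset.card_pos]
    omega
  obtain ⟨l, hl⟩ := hJne
  refine ⟨α, fun s => ?_, l, hJN l hl, fun u => ?_⟩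
  · apply χ'.toRingHom.injective
    change χ' (α (y s)) = χ' (y' s)
    rw [hα, heq]
  · rw [(hψ l (hJN l hl)).2 u, (hψ' l (hJN l hl)).2 (α u), hJψ l hl, hJψ' l hl, hα]

end Pool.Agent.Helper34.Dep

end

section

set_option autoImplicit false

set_option linter.style.haveILetI false

namespace Pool.Agent.Helper34.Dep

open Polynomial Pool.Agent.Helper16 Pool.Agent.Helper47.RR IntermediateField Pool.Agent.Helper64.Dep

section

variable {k : Type} [Field k] (g : k ≃+* k) (M : Type) [Field M] [Algebra k M]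

variable {M}

theorem tw_pd [IsAlgClosed k] (hM : IsFunctionField k M) (u : M) (hu : Transcendental k u) :
    pd (tw_isFunctionField g hM) (toTw g M u) = pd hM u := by
  rw [pd_eq_finrank _ _ hu, pd_eq_finrank _ _ (tw_transcendental g u hu)]
  have hmem : ∀ x : M, x ∈ k⟮u⟯ ↔ toTw g M x ∈ k⟮toTw g M u⟯ := by
    intro x
    rw [tw_adjoin g {u} x, Set.image_singleton]
  let i : k⟮toTw g M u⟯ ≃+* k⟮u⟯ :=
    { toFun := fun x => ⟨x.1, (hmem x.1).2 x.2⟩
      invFun := fun x => ⟨x.1, (hmem x.1).1 x.2⟩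
      left_inv := fun _ => Subtype.ext rfl
      right_inv := fun _ => Subtype.ext rfl
      map_mul' := fun _ _ => Subtype.ext rfl
      map_add' := fun _ _ => Subtype.ext rfl }
  let j : Tw g M ≃+* M := RingEquiv.refl M
  exact Algebra.finrank_eq_of_equiv_equiv i j (by ext x; rfl)

end

/-- **Semilinear automorphisms.** -/
theorem exists_semilinear {k M ι : Type} [Field k] [IsAlgClosed k] [Field M] [Algebra k M]
    (hM : IsFunctionField k M) (y : ι → M)
    (hy : IntermediateField.adjoin k (Set.range y) = ⊤) (s₀ : ι) (D : ℕ)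
    (hD : ∀ s, pd hM (y s) ≤ D) (hT : ∀ s, Transcendental k (y s)) (N : ℕ)
    (hN : D * D * (D * D + D * D) < N) (w : ℕ → Place k M)
    (c : ℕ → ι → k) (hw : ∀ l < N, ∀ s, Pv (w l) (y s) (c l s))
    (hinj : ∀ l < N, ∀ l' < N, c l s₀ = c l' s₀ → l = l') (g : k ≃+* k) (π : Equiv.Perm ι)
    (hπ : ∀ l < N, ∀ s, c l (π s) = g (c l s)) :
    ∃ g' : M ≃+* M, (∀ a, g' (algebraMap k M a) = algebraMap k M (g a)) ∧
      (∀ s, g' (y s) = y (π s)) ∧
      ∃ l < N, ∀ u, (w l).val (g' u) ≤ 1 ↔ (w l).val u ≤ 1 := by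
  have htop : IntermediateField.adjoin k (Set.range fun s => toTw g M (y (π s))) = ⊤ := by
    apply top_le_iff.1
    intro x _
    have h1 : (x : M) ∈ IntermediateField.adjoin k (Set.range y) := by
      rw [hy]; trivial
    have h2 := (tw_adjoin g (Set.range y) x).1 h1
    have h3 : (Set.range fun s => toTw g M (y (π s))) = toTw g M '' Set.range y := by
      ext z
      constructor
      · rintro ⟨s, rfl⟩; exact ⟨_, ⟨π s, rfl⟩, rfl⟩
      · rintro ⟨_, ⟨s, rfl⟩, rfl⟩; exact ⟨π.symm s, by simp⟩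
    rw [h3]
    exact h2
  obtain ⟨α, hα, l, hl, hlw⟩ := bz hM (tw_isFunctionField g hM) y (fun s => toTw g M (y (π s))) hy
    htop s₀ D hD (fun s => by
      rw [tw_pd g hM _ (hT _)]; exact hD _) (hT s₀) (tw_transcendental g _ (hT _)) N hN w
    (fun l => twPlace g (w l)) c hw (fun l hl s => by
      rw [twPlace_Pv, ← hπ l hl s]
      exact hw l hl (π s)) hinj
  refine ⟨α.toRingEquiv, fun a => ?_, fun s => hα s, l, hl, hlw⟩
  exact α.commutes a

end Pool.Agent.Helper34.Dep

end

section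

set_option autoImplicit false

set_option linter.style.haveILetI false

namespace Pool.Agent.Helper34.Dep

open Polynomial Pool.Agent.Helper16 Pool.Agent.Helper47.RR IntermediateField Pool.Agent.Helper64.Dep

open scoped Polynomial.Bivariate

variable {k K : Type} [Field k] [Field K] [Algebra k K]

variable {ι : Type} {m : ℕ} {D : TreeData k ι m}

/-- the function field of a tuple, and the pole degrees of its members -/
theorem tup_field [Fintype ι] [IsAlgClosed k] (htr : Algebra.trdeg k K = 1) {T : K}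
    (hT : Transcendental k T) {y : ι → K} (hy : IsTup D T y) (hm : 1 ≤ m) :
    ∃ hM : IsFunctionField k (IntermediateField.adjoin k (Set.range y)), ∀ s,
      pd hM ⟨y s, IntermediateField.subset_adjoin k _ ⟨s, rfl⟩⟩ ≤ m ^ (2 * Fintype.card ι) := by
  classical
  have hM : IsFunctionField k (IntermediateField.adjoin k (Set.range y)) :=
    Pool.Agent.Helper61.BBGermA.isFunctionField_adjoin htr _ (Set.finite_range y) T
      ⟨D.s₀, hy.root⟩ hT
  refine ⟨hM, fun s => ?_⟩
  set E := IntermediateField.adjoin k (Set.range y) with hE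
  have hsE : y s ∈ E := IntermediateField.subset_adjoin k _ ⟨s, rfl⟩
  have htrs : Transcendental k (⟨y s, hsE⟩ : E) := by
    intro h
    exact hy.transcendental hT s (h.algebraMap (A := K))
  rw [pd_eq_finrank hM _ htrs]
  have h1 : k⟮E.val ⟨y s, hsE⟩⟯ ≤ E.val.fieldRange := by
    rw [IntermediateField.adjoin_simple_le_iff]
    exact ⟨_, rfl⟩
  rw [← finrank_extend E.val ⟨y s, hsE⟩ h1,
    ← IntermediateField.relfinrank_eq_finrank_of_le h1, IntermediateField.fieldRange_val]
  exact (relfinrank_tup hT hy hm s).2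

end Pool.Agent.Helper34.Dep

end

section

set_option autoImplicit false

set_option linter.style.haveILetI false

namespace Pool.Agent.Helper34.Dep

open Polynomial Pool.Agent.Helper16 Pool.Agent.Helper47.RR IntermediateField Pool.Agent.Helper64.Dep

open scoped Polynomial.Bivariate

section fK

variable {k K K' : Type} [Field k] [Field K] [Field K'] [Algebra k K] [Algebra k K']

theorem pd_fK [IsAlgClosed k] (hK : IsFunctionField k K) (F G : k[X]) (d : ℕ)
    (hF : F.natDegree ≤ d) (hG : G.natDegree ≤ d) (u : K) :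
    pd hK (fK F G u) ≤ 2 * d * pd hK u := by
  unfold fK
  rw [div_eq_mul_inv]
  refine (pd_mul hK _ _).trans ?_
  rw [pd_inv]
  have h1 := (pd_aeval hK F u).trans (Nat.mul_le_mul_right (pd hK u) hF)
  have h2 := (pd_aeval hK G u).trans (Nat.mul_le_mul_right (pd hK u) hG)
  have : 2 * d * pd hK u = d * pd hK u + d * pd hK u := by ring
  omega

theorem pd_fK_iterate [IsAlgClosed k] (hK : IsFunctionField k K) (F G : k[X]) (d : ℕ)
    (hF : F.natDegree ≤ d) (hG : G.natDegree ≤ d) (u : K) (n : ℕ) :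
    pd hK ((fK F G)^[n] u) ≤ (2 * d) ^ n * pd hK u := by
  induction n with
  | zero => simp
  | succ n ih =>
    rw [Function.iterate_succ_apply']
    refine (pd_fK hK F G d hF hG _).trans ?_
    calc 2 * d * pd hK ((fK F G)^[n] u) ≤ 2 * d * ((2 * d) ^ n * pd hK u) :=
          Nat.mul_le_mul_left _ ih
      _ = (2 * d) ^ (n + 1) * pd hK u := by ring

end fK

variable {k K ι : Type} [Field k] [Field K] [Algebra k K] {m : ℕ}

theorem dyn [Fintype ι] [IsAlgClosed k] [IsAlgClosed K] (htr : Algebra.trdeg k K = 1) (T : K)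
    (hT : Transcendental k T) (D : TreeData k ι m) (hm : 1 ≤ m) (F G : ι → k[X]) (d : ℕ)
    (hd : 1 ≤ d) (hF : ∀ s, (F s).natDegree ≤ d) (hG : ∀ s, (G s).natDegree ≤ d)
    (x : ι → ℕ → k) (hGx : ∀ s j, (G s).eval (x s j) ≠ 0)
    (hx : ∀ s j, x s (j + 1) = (F s).eval (x s j) / (G s).eval (x s j))
    (N B C : ℕ) (hB : m ^ Fintype.card ι ≤ B)
    (hC : 2 * m * ((2 * d) ^ B * m ^ (2 * Fintype.card ι)) ≤ C)
    (hinj : ∀ i i', i ≤ N → i' ≤ N → x D.s₀ i = x D.s₀ i' → i = i') (J₀ : Finset ℕ)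
    (hJN : ∀ j ∈ J₀, j + B ≤ N)
    (hrel : ∀ j ∈ J₀, ∀ n ≤ B, ∀ s, s ≠ D.s₀ →
      (D.Q s).evalEval (x (D.par s) (j + n)) (x s (j + n)) = 0)
    (hcard : B * (C + 1) < J₀.card) :
    ∃ y : ι → K, IsTup D T y ∧ ∃ r a : ℕ, 1 ≤ r ∧ r ≤ B ∧ a ≤ B ∧ ∃ j ∈ J₀,
      (∃ R : K ≃ₐ[k] K, ∀ s, R (y s) = (fK (F s) (G s))^[r] (y s)) ∧
      ∃ g : Germ k K, ∀ s, g.Val (y s) (x s (j + a)) := by
  classical
  obtain ⟨hfin, hncard⟩ := tup_finite (D := D) hT hm
  -- germs and tuples
  have h1 : ∀ j, ∃ (g : Germ k K) (y : ι → K), j ∈ J₀ → (IsTup D T y ∧ ∀ s, g.Val (y s) (x s j)) := by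
    intro j
    obtain ⟨g, hg⟩ := exists_germ htr T hT (x D.s₀ j)
    by_cases hj : j ∈ J₀
    · obtain ⟨y, hy1, hy2⟩ := exists_tup (D := D) g (fun s => x s j) hg
        (fun s hs => by simpa using hrel j hj 0 (Nat.zero_le _) s hs)
      exact ⟨g, y, fun _ => ⟨hy1, hy2⟩⟩
    · exact ⟨g, fun _ => T, fun h => absurd h hj⟩
  choose g t ht using h1
  -- pigeonhole
  have hmaps : ∀ j ∈ J₀, t j ∈ hfin.toFinset := fun j hj => by
    rw [Set.Finite.mem_toFinset]; exact (ht j hj).1
  have hcardT : hfin.toFinset.card ≤ B := by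
    rw [← Set.ncard_eq_toFinset_card _ hfin]; exact hncard.trans hB
  obtain ⟨y₀, hy₀, hfib⟩ := Finset.exists_lt_card_fiber_of_mul_lt_card_of_maps_to hmaps
    (n := C + 1) (lt_of_le_of_lt (Nat.mul_le_mul_right _ hcardT) hcard)
  rw [Set.Finite.mem_toFinset] at hy₀
  have hy₀' : IsTup D T y₀ := hy₀
  set J := J₀.filter fun j => t j = y₀ with hJ
  have hJJ : ∀ j ∈ J, j ∈ J₀ := fun j hj => (Finset.mem_filter.1 hj).1
  have hval0 : ∀ j ∈ J, ∀ s, (g j).Val (y₀ s) (x s j) := by
    intro j hj s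
    have := (ht j (hJJ j hj)).2 s
    rwa [(Finset.mem_filter.1 hj).2] at this
  -- the iterates
  let u : ℕ → ι → K := fun n s => (fK (F s) (G s))^[n] (y₀ s)
  have hval : ∀ j ∈ J, ∀ n s, (g j).Val (u n s) (x s (j + n)) := fun j hj n s =>
    val_iterate (hGx s) (hx s) (hval0 j hj s) n
  -- the function field
  obtain ⟨hM, hpd⟩ := tup_field htr hT hy₀' hm
  set E := IntermediateField.adjoin k (Set.range y₀) with hE
  have hyE : ∀ s, y₀ s ∈ E := fun s => IntermediateField.subset_adjoin k _ ⟨s, rfl⟩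
  let z : ι → E := fun s => ⟨y₀ s, hyE s⟩
  have hpdz : ∀ s, pd hM (z s) ≤ m ^ (2 * Fintype.card ι) := hpd
  let uE : ℕ → ι → E := fun n s => (fK (F s) (G s))^[n] (z s)
  have huE : ∀ n s, E.val (uE n s) = u n s := fun n s => fK_iterate_map E.val _ _ n (z s)
  have hplace : ∀ j, ∃ w : Place k E, (∀ v, w.val v ≤ 1 ↔ E.val v ∈ (g j).O) ∧
      ∀ v b, Pv w v b ↔ (g j).Val (E.val v) b := fun j => (g j).exists_place hM E.val
  choose w hw1 hw2 using hplace
  have hwinj : Set.InjOn w J := by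
    intro j hj j' hj' hjj
    have h3 : Pv (w j) (z D.s₀) (x D.s₀ j) := (hw2 j _ _).2 (hval0 j hj _)
    have h4 : Pv (w j) (z D.s₀) (x D.s₀ j') := by rw [hjj]; exact (hw2 j' _ _).2 (hval0 j' hj' _)
    refine hinj j j' ?_ ?_ (Pool.Agent.Helper45.S4.res_unique _ _ _ _ h3 h4)
    · have := hJN j (hJJ j hj); omega
    · have := hJN j' (hJJ j' hj'); omega
  have hrel' : ∀ n ≤ B, ∀ s, s ≠ D.s₀ → (D.Q s).aevalAeval (u n (D.par s)) (u n s) = 0 := by
    intro n hn s hs
    have hval' : ∀ j ∈ J, (g j).Val ((D.Q s).aevalAeval (u n (D.par s)) (u n s)) 0 := by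
      intro j hj
      have := (hval j hj n (D.par s)).aevalAeval (hval j hj n s) (D.Q s)
      rwa [hrel j (hJJ j hj) n hn s hs] at this
    by_contra hne
    have hev : E.val ((D.Q s).aevalAeval (uE n (D.par s)) (uE n s)) =
        (D.Q s).aevalAeval (u n (D.par s)) (u n s) := by
      rw [aevalAeval_eq, aevalAeval_eq]
      have h5 : ((aeval (u n (D.par s)) : k[X] →ₐ[k] K) : k[X] →+* K) =
          (E.val : E →+* K).comp ((aeval (uE n (D.par s)) : k[X] →ₐ[k] E) : k[X] →+* E) := by
        apply Polynomial.ringHom_ext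
        · intro c
          simp
        · simp only [RingHom.coe_coe, aeval_X, RingHom.coe_comp, Function.comp_apply]
          exact (huE n _).symm
      rw [h5, ← Polynomial.map_map, ← huE n s]
      exact ((Polynomial.eval_map _ _).trans (Polynomial.eval₂_at_apply _ _)).symm
    have h6 := card_zeros_le hM ((D.Q s).aevalAeval (uE n (D.par s)) (uE n s)) (by
      intro h
      rw [h, map_zero] at hev
      exact hne hev.symm) (J.image w) (by
      intro v hv
      rw [Finset.mem_image] at hv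
      obtain ⟨j, hj, rfl⟩ := hv
      have h7 : Pv (w j) ((D.Q s).aevalAeval (uE n (D.par s)) (uE n s)) 0 := by
        rw [hw2, hev]; exact hval' j hj
      unfold Pv at h7
      rwa [map_zero, sub_zero] at h7)
    rw [Finset.card_image_of_injOn hwinj] at h6
    have h8 := pd_aevalAeval hM (D.Q s) m (D.deg s hs) (uE n (D.par s)) (uE n s)
    have h9 : ∀ s', pd hM (uE n s') ≤ (2 * d) ^ B * m ^ (2 * Fintype.card ι) := by
      intro s'
      refine (pd_fK_iterate hM (F s') (G s') d (hF s') (hG s') (z s') n).trans ?_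
      exact Nat.mul_le_mul (Nat.pow_le_pow_right (by omega) hn) (hpdz s')
    have h10 := Nat.mul_le_mul_left m (h9 (D.par s))
    have h11 := Nat.mul_le_mul_left m (h9 s)
    have h12 : 2 * m * ((2 * d) ^ B * m ^ (2 * Fintype.card ι)) =
      m * ((2 * d) ^ B * m ^ (2 * Fintype.card ι)) + m * ((2 * d) ^ B * m ^ (2 * Fintype.card ι)) :=
      by ring
    omega
  -- transcendence
  have htru : ∀ n ≤ B, Transcendental k (u n D.s₀) := by
    intro n hn halg
    obtain ⟨c, hc⟩ : ∃ c : k, algebraMap k K c = u n D.s₀ := by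
      have h2 := IsAlgClosed.degree_eq_one_of_irreducible k (minpoly.irreducible halg.isIntegral)
      obtain ⟨c, hc⟩ := minpoly.mem_range_of_degree_eq_one k (u n D.s₀) h2
      exact ⟨c, hc⟩
    obtain ⟨j, hj, j', hj', hne⟩ := Finset.one_lt_card.1 (show 1 < J.card by omega)
    have h3 : ∀ j ∈ J, x D.s₀ (j + n) = c := by
      intro j hj
      have h4 := hval j hj n D.s₀
      rw [← hc] at h4
      exact h4.uniq ((g j).val_const c)
    have h5 := hJN j (hJJ j hj)
    have h6 := hJN j' (hJJ j' hj')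
    have := hinj (j + n) (j' + n) (by omega) (by omega) ((h3 j hj).trans (h3 j' hj').symm)
    omega
  have hρ : ∀ n, ∃ ρ : K ≃ₐ[k] K, n ≤ B → ρ T = u n D.s₀ := by
    intro n
    by_cases hn : n ≤ B
    · obtain ⟨ρ, hρ⟩ := exists_aut htr T hT (u n D.s₀) (htru n hn)
      exact ⟨ρ, fun _ => hρ⟩
    · exact ⟨AlgEquiv.refl, fun h => absurd h hn⟩
  choose ρ hρ using hρ
  have htup : ∀ n ≤ B, IsTup D T (fun s => (ρ n).symm (u n s)) := by
    intro n hn
    refine ⟨?_, fun s hs => ?_⟩
    · rw [← hρ n hn, AlgEquiv.symm_apply_apply]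
    · have h1 : (ρ n).symm ((D.Q s).aevalAeval (u n (D.par s)) (u n s)) =
          (D.Q s).aevalAeval ((ρ n).symm (u n (D.par s))) ((ρ n).symm (u n s)) := by
        rw [aevalAeval_eq, aevalAeval_eq]
        have h5 : ((aeval ((ρ n).symm (u n (D.par s))) : k[X] →ₐ[k] K) : k[X] →+* K) =
            ((ρ n).symm : K →+* K).comp ((aeval (u n (D.par s)) : k[X] →ₐ[k] K) : k[X] →+* K) := by
          apply Polynomial.ringHom_ext
          · intro c
            simp
          · simp
        rw [h5, ← Polynomial.map_map]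
        exact ((Polynomial.eval_map _ _).trans
          (Polynomial.eval₂_at_apply ((ρ n).symm : K →+* K) (u n s))).symm
      rw [← h1, hrel' n hn s hs, map_zero]
  -- second pigeonhole
  obtain ⟨a, ha, b, hb, hab, heq⟩ := Finset.exists_ne_map_eq_of_card_lt_of_maps_to
    (s := Finset.range (B + 1)) (t := hfin.toFinset) (f := fun n => fun s => (ρ n).symm (u n s))
    (by rw [Finset.card_range]; omega)
    (fun n hn => by
      rw [Finset.mem_coe, Set.Finite.mem_toFinset]
      exact htup n (by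
        have := Finset.mem_range.1 (Finset.mem_coe.1 hn)
        omega))
  rw [Finset.mem_range] at ha hb
  have main : ∀ a b, a < b → b < B + 1 →
      (fun s => (ρ a).symm (u a s)) = (fun s => (ρ b).symm (u b s)) →
      ∃ y : ι → K, IsTup D T y ∧ ∃ r a : ℕ, 1 ≤ r ∧ r ≤ B ∧ a ≤ B ∧ ∃ j ∈ J₀,
      (∃ R : K ≃ₐ[k] K, ∀ s, R (y s) = (fK (F s) (G s))^[r] (y s)) ∧
      ∃ g : Germ k K, ∀ s, g.Val (y s) (x s (j + a)) := by
    intro a b hab hb heq
    obtain ⟨j, hj⟩ : J.Nonempty := Finset.card_pos.1 (by omega)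
    refine ⟨fun s => (ρ a).symm (u a s), htup a (by omega), b - a, a, by omega, by omega, by omega,
      j, hJJ j hj, ⟨(ρ b).trans (ρ a).symm, fun s => ?_⟩, (g j).comap (ρ a : K →ₐ[k] K), fun s => ?_⟩
    · have h1 : (ρ a).symm (u a s) = (ρ b).symm (u b s) := congrFun heq s
      change (ρ a).symm ((ρ b) ((ρ a).symm (u a s))) =
        (fK (F s) (G s))^[b - a] ((ρ a).symm (u a s))
      rw [h1, AlgEquiv.apply_symm_apply, ← h1]
      have h2 : u b s = (fK (F s) (G s))^[b - a] (u a s) := by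
        change (fK (F s) (G s))^[b] (y₀ s) = (fK (F s) (G s))^[b - a] ((fK (F s) (G s))^[a] (y₀ s))
        rw [← Function.iterate_add_apply]
        congr 2
        omega
      rw [h2]
      exact fK_iterate_map ((ρ a).symm : K →ₐ[k] K) (F s) (G s) (b - a) (u a s)
    · rw [Germ.comap_val]
      have : (ρ a : K →ₐ[k] K) ((ρ a).symm (u a s)) = u a s := (ρ a).apply_symm_apply _
      rw [this]
      exact hval j hj a s
  rcases lt_or_gt_of_ne hab with h | h
  · exact main a b h hb heq
  · exact main b a h ha heq.symm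

end Pool.Agent.Helper34.Dep

end

section

set_option autoImplicit false

set_option linter.style.haveILetI false

namespace Pool.Agent.Helper34.Dep

open Polynomial Pool.Agent.Helper16 Pool.Agent.Helper47.RR IntermediateField Pool.Agent.Helper64.Dep
  Pool.Agent.Helper93.RatODE Pool.Agent.Helper47.EN

open scoped Polynomial.Bivariate

/-- **The core theorem.** -/
theorem core {k ι : Type} [Field k] [IsAlgClosed k] [Fintype ι] {m n d : ℕ} (hm : 1 ≤ m)
    (hd : 1 ≤ d) (hι : Fintype.card ι ≤ n) (D : TreeData k ι m) (F G : ι → k[X])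
    (hF : ∀ s, (F s).natDegree ≤ d) (hG : ∀ s, (G s).natDegree ≤ d)
    (x : ι → ℕ → k) (hGx : ∀ s j, (G s).eval (x s j) ≠ 0)
    (hx : ∀ s j, x s (j + 1) = (F s).eval (x s j) / (G s).eval (x s j))
    (hfin : (Set.range (x D.s₀)).Finite)
    (B C₂ Dp NB e C₃ N N' : ℕ) (hB : B = m ^ n)
    (hC₂ : C₂ = 2 * m * ((2 * d) ^ B * m ^ (2 * n))) (hDp : Dp = m ^ (2 * n))
    (hNB : NB = Dp * Dp * (Dp * Dp + Dp * Dp) + 1) (hC₃ : C₃ = B * (C₂ + 1) + (B + 1) * e)
    (hN : C₃ + B + (NB + N' + 1) * B ≤ N)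
    (hinj : ∀ i i', i ≤ N → i' ≤ N → x D.s₀ i = x D.s₀ i' → i = i')
    (Exc : Finset ℕ) (hExc : Exc.card ≤ e)
    (hrel : ∀ j ≤ N, j ∉ Exc → ∀ s, s ≠ D.s₀ → (D.Q s).evalEval (x (D.par s) j) (x s j) = 0) :
    ∃ (M : Type) (_ : Field M) (_ : Algebra k M) (hM : IsFunctionField k M) (Φ : M →ₐ[k] M)
      (z : M) (r j₀ : ℕ) (w : ℕ → Place k M),
      1 ≤ r ∧ r ≤ B ∧ j₀ ≤ C₃ + B + NB * B ∧ Transcendental k z ∧
      Module.finrank k⟮z⟯ M ≤ Dp ∧
      Φ z * aeval z (iter (F D.s₀) (G D.s₀) d r).2 = aeval z (iter (F D.s₀) (G D.s₀) d r).1 ∧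
      (∀ l, w (l + 1) = plc hM hM Φ (w l)) ∧ (Set.range w).Finite ∧
      (∀ l l', l ≤ N' → l' ≤ N' → w l = w l' → l = l') ∧
      (∀ l, Pv (w l) z (x D.s₀ (j₀ + l * r))) ∧
      ∀ (g : k ≃+* k) (π : Equiv.Perm ι), (∀ s j, x (π s) j = g (x s j)) →
        (∀ s, F (π s) = (F s).map (g : k →+* k)) → (∀ s, G (π s) = (G s).map (g : k →+* k)) →
        ∃ g' : M ≃+* M, (∀ c, g' (algebraMap k M c) = algebraMap k M (g c)) ∧
          (∀ u, g' (Φ u) = Φ (g' u)) ∧ ∀ l u, (w l).val (g' u) = (w l).val u := by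
  classical
  let K := AlgebraicClosure (RatFunc k)
  have htr : Algebra.trdeg k K = 1 := by
    have h2 := trdeg_add_eq k (RatFunc k) (A := K)
    rw [trdeg_eq_zero (R := RatFunc k) (A := K), add_zero,
      Pool.Agent.Helper16.trdeg_ratFunc] at h2
    exact h2.symm
  have hinjK : Function.Injective (algebraMap (RatFunc k) K) := (algebraMap (RatFunc k) K).injective
  obtain ⟨T, hT⟩ : ∃ T : K, Transcendental k T :=
    ⟨algebraMap (RatFunc k) K RatFunc.X,
      (transcendental_algebraMap_iff hinjK).2 RatFunc.transcendental_X⟩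
  -- the good indices
  set J₀ := (Finset.range (C₃ + 1)).filter fun j => ∀ i ≤ B, j + i ∉ Exc with hJ₀
  have hbad : (Finset.range (C₃ + 1)).card ≤ J₀.card + (B + 1) * e := by
    have h1 : Finset.range (C₃ + 1) ⊆ J₀ ∪ (Finset.range (B + 1) ×ˢ Exc).image
        (fun p => p.2 - p.1) := by
      intro j hj
      rw [Finset.mem_union]
      by_cases h : ∀ i ≤ B, j + i ∉ Exc
      · exact Or.inl (Finset.mem_filter.2 ⟨hj, h⟩)
      · right
        push Not at h
        obtain ⟨i, hi, hji⟩ := h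
        rw [Finset.mem_image]
        exact ⟨(i, j + i), Finset.mem_product.2 ⟨Finset.mem_range.2 (by simp only; omega), hji⟩,
          by simp⟩
    refine (Finset.card_le_card h1).trans ((Finset.card_union_le _ _).trans ?_)
    refine Nat.add_le_add_left (Finset.card_image_le.trans ?_) _
    rw [Finset.card_product, Finset.card_range]
    exact Nat.mul_le_mul_left _ hExc
  rw [Finset.card_range] at hbad
  have hJcard : B * (C₂ + 1) < J₀.card := by omega
  have hJle : ∀ j ∈ J₀, j ≤ C₃ := fun j hj => by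
    have := Finset.mem_range.1 (Finset.mem_filter.1 hj).1
    omega
  have hpow : (NB + N' + 1) * B = NB * B + N' * B + B := by ring
  obtain ⟨y, hy, r, a, hr1, hrB, haB, j, hj, ⟨R, hR⟩, g₀, hg₀⟩ := dyn htr T hT D hm F G d hd hF hG x
    hGx hx N B C₂ (by rw [hB]; exact Nat.pow_le_pow_right hm hι)
    (by
      rw [hC₂]
      refine Nat.mul_le_mul_left _ (Nat.mul_le_mul_left _ ?_)
      exact Nat.pow_le_pow_right hm (by omega)) hinj J₀ (fun j hj => by
      have := hJle j hj
      omega) (fun j hj i hi s hs => by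
      have h1 := hJle j hj
      exact hrel (j + i) (by omega) ((Finset.mem_filter.1 hj).2 i hi) s hs) hJcard
  have hjC := hJle j hj
  -- the function field
  obtain ⟨hM, hpd⟩ := tup_field htr hT hy hm
  set E := IntermediateField.adjoin k (Set.range y) with hE
  have hyE : ∀ s, y s ∈ E := fun s => IntermediateField.subset_adjoin k _ ⟨s, rfl⟩
  let z : ι → E := fun s => ⟨y s, hyE s⟩
  have hpdz : ∀ s, pd hM (z s) ≤ Dp := fun s => (hpd s).trans (by
    rw [hDp]
    exact Nat.pow_le_pow_right hm (by omega))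
  have hztr : ∀ s, Transcendental k (z s) := by
    intro s h
    exact hy.transcendental hT s (h.algebraMap (A := K))
  have hztop : IntermediateField.adjoin k (Set.range z) = ⊤ := by
    apply IntermediateField.map_injective E.val
    rw [IntermediateField.adjoin_map, ← Set.range_comp, ← AlgHom.fieldRange_eq_map,
      IntermediateField.fieldRange_val]
    rfl
  have hRz : ∀ s, R (y s) = E.val ((fK (F s) (G s))^[r] (z s)) := by
    intro s
    rw [hR, fK_iterate_map]
    rfl
  have hRE : ∀ v : E, R (v : K) ∈ E := by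
    have h1 : E.map (R : K →ₐ[k] K) ≤ E := by
      rw [hE, IntermediateField.adjoin_map, IntermediateField.adjoin_le_iff]
      rintro _ ⟨_, ⟨s, rfl⟩, rfl⟩
      change R (y s) ∈ _
      rw [hRz]
      exact SetLike.coe_mem _
    intro v
    exact h1 ⟨(v : K), v.2, rfl⟩
  let Φ : E →ₐ[k] E := ((R : K →ₐ[k] K).comp E.val).codRestrict E.toSubalgebra hRE
  have hΦz : ∀ s, Φ (z s) = (fK (F s) (G s))^[r] (z s) := fun s => Subtype.ext (hRz s)
  -- the places
  obtain ⟨w₀, hw₀1, hw₀2⟩ := g₀.exists_place hM E.val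
  let w : ℕ → Place k E := fun l => Nat.rec w₀ (fun _ v => plc hM hM Φ v) l
  have hwsucc : ∀ l, w (l + 1) = plc hM hM Φ (w l) := fun l => rfl
  have hPlc : ∀ (v : Place k E) (u : E) (b : k), Pv v (Φ u) b → Pv (plc hM hM Φ v) u b := by
    intro v u b h
    unfold Pv at h ⊢
    rw [plc_val_lt_one, map_sub, AlgHom.commutes]
    exact h
  have hval : ∀ l s, Pv (w l) (z s) (x s (j + a + l * r)) := by
    intro l
    induction l with
    | zero =>
      intro s
      rw [zero_mul, add_zero]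
      exact (hw₀2 _ _).2 (hg₀ s)
    | succ l ih =>
      intro s
      rw [hwsucc]
      apply hPlc
      rw [hΦz]
      obtain ⟨g, -, hg⟩ := exists_germ_place hM (w l)
      rw [hg]
      have h1 := val_iterate (hGx s) (hx s) ((hg _ _).1 (ih s)) r
      have h2 : j + a + l * r + r = j + a + (l + 1) * r := by ring
      rwa [h2] at h1
  have hrle : ∀ l, l * r ≤ l * B := fun l => Nat.mul_le_mul_left _ hrB
  have hwinj : ∀ l l', l ≤ NB + N' → l' ≤ NB + N' →
      x D.s₀ (j + a + l * r) = x D.s₀ (j + a + l' * r) → l = l' := by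
    intro l l' hl hl' h
    have h1 : (NB + N') * B = NB * B + N' * B := by ring
    have h2 := (hrle l).trans (Nat.mul_le_mul_right B hl)
    have h3 := (hrle l').trans (Nat.mul_le_mul_right B hl')
    have h4 := hinj (j + a + l * r) (j + a + l' * r) (by omega) (by omega) h
    have h5 : l * r = l' * r := by omega
    exact Nat.eq_of_mul_eq_mul_right hr1 h5
  refine ⟨E, inferInstance, inferInstance, hM, Φ, z D.s₀, r, j + a + NB * r, fun l => w (l + NB),
    hr1, hrB, ?_, hztr _, ?_, ?_, ?_, ?_, ?_, ?_, ?_⟩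
  · have := hrle NB
    omega
  · rw [← pd_eq_finrank hM _ (hztr _)]
    exact hpdz _
  · rw [hΦz]
    refine (iter_fK (F D.s₀) (G D.s₀) d (hF _) (hG _) (z D.s₀) r fun i hi h0 => ?_).2
    obtain ⟨g, -, hg⟩ := exists_germ_place hM (w 0)
    have h1 := val_iterate (hGx D.s₀) (hx D.s₀) ((hg _ _).1 (hval 0 D.s₀)) i
    have h2 := h1.aeval (G D.s₀)
    rw [h0] at h2
    exact hGx D.s₀ _ (h2.uniq g.val_zero)
  · intro l
    have : l + 1 + NB = (l + NB) + 1 := by ring
    change w (l + 1 + NB) = _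
    rw [this]
  · have h1 : Set.range (fun l => w (l + NB)) ⊆
        ⋃ c ∈ Set.range (x D.s₀), {v : Place k E | Pv v (z D.s₀) c} := by
      rintro _ ⟨l, rfl⟩
      rw [Set.mem_iUnion₂]
      exact ⟨_, ⟨_, rfl⟩, hval (l + NB) D.s₀⟩
    exact (hfin.biUnion fun c _ => finite_value hM _ (hztr _) c).subset h1
  · intro l l' hl hl' h
    have h1 := hval (l + NB) D.s₀
    have h2 := hval (l' + NB) D.s₀
    have h3 : w (l + NB) = w (l' + NB) := h
    rw [h3] at h1
    have h4 := hwinj (l + NB) (l' + NB) (by omega) (by omega)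
      (Pool.Agent.Helper45.S4.res_unique _ _ _ _ h1 h2)
    omega
  · intro l
    have h1 := hval (l + NB) D.s₀
    have h2 : j + a + (l + NB) * r = j + a + NB * r + l * r := by ring
    rwa [h2] at h1
  · intro g π hπx hπF hπG
    obtain ⟨g', hg'c, hg'z, l₁, hl₁, hw₁⟩ := exists_semilinear hM z hztop D.s₀ Dp hpdz hztr NB
      (by omega) w (fun l s => x s (j + a + l * r)) (fun l _ s => hval l s)
      (fun l hl l' hl' h => hwinj l l' (by omega) (by omega) h) g π
      (fun l _ s => hπx s _)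
    have hcomm : ∀ u, g' (Φ u) = Φ (g' u) := by
      have h1 : (⊤ : Subfield E) ≤ RingHom.eqLocusField ((g' : E →+* E).comp (Φ : E →+* E))
          ((Φ : E →+* E).comp (g' : E →+* E)) := by
        have h2 : (⊤ : Subfield E) = (IntermediateField.adjoin k (Set.range z)).toSubfield := by
          rw [hztop]; rfl
        rw [h2]
        change Subfield.closure _ ≤ _
        rw [Subfield.closure_le]
        rintro u (⟨c, rfl⟩ | ⟨s, rfl⟩)
        · change g' (Φ (algebraMap k E c)) = Φ (g' (algebraMap k E c))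
          rw [AlgHom.commutes, hg'c, AlgHom.commutes]
        · change g' (Φ (z s)) = Φ (g' (z s))
          rw [hΦz, fK_semilinear g g' hg'c, hg'z, hΦz, hπF, hπG]
      intro u
      exact h1 (Subfield.mem_top u)
    refine ⟨g', hg'c, hcomm, ?_⟩
    have hle : ∀ l, l₁ ≤ l → ∀ u, (w l).val (g' u) ≤ 1 ↔ (w l).val u ≤ 1 := by
      intro l hl
      induction l, hl using Nat.le_induction with
      | base => exact hw₁
      | succ l _ ih =>
        intro u
        rw [hwsucc, plc_val_le_one, plc_val_le_one, ← hcomm, ih]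
    intro l u
    have h1 : tw g' g hg'c (w (l + NB)) = w (l + NB) := by
      apply Pool.Agent.Helper45.S4.place_ext
      intro v hv
      rw [tw_val] at hv
      exact (hle (l + NB) (by omega) v).1 hv
    change (w (l + NB)).val (g' u) = (w (l + NB)).val u
    rw [← tw_val g' g hg'c (w (l + NB)) u, h1]

end Pool.Agent.Helper34.Dep

end

section

set_option autoImplicit false

set_option linter.style.haveILetI false

namespace Pool.Agent.Helper34.Dep

open Polynomial Pool.Agent.Helper16 Pool.Agent.Helper47.RR IntermediateField Pool.Agent.Helper64.Dep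
  Pool.Agent.Helper93.RatODE Pool.Agent.Helper47.EN Pool.Agent.Helper3.Dep
  Pool.Agent.Helper38.DT Pool.Agent.Helper45.FR

open scoped Polynomial.Bivariate

theorem partA (d n m : ℕ) (hd : 2 ≤ d) : ∃ C : ℕ, ∀ N' : ℕ, ∃ N : ℕ, ∀ (k L : Type) [Field k]
    [IsAlgClosed k] [Field L] [Algebra k L] (t : L), IsFunctionField k L → Transcendental k t →
    Algebra.IsSeparable k⟮t⟯ L → Module.finrank k⟮t⟯ L ≤ n →
    ∀ F G : L[X], IsRatD F G d → ∀ x : ℕ → L, RatOrbit F G x N →
    ∀ τ : L →ₐ[k⟮t⟯] AlgebraicClosure L, (∃ a, τ a ≠ algebraMap L (AlgebraicClosure L) a) →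
    ∀ P : MvPolynomial (Fin 2) (AlgebraicClosure L), P ≠ 0 → (∀ i, P.degreeOf i ≤ m) →
    (∀ j ≤ N, MvPolynomial.eval ![algebraMap L (AlgebraicClosure L) (x j), τ (x j)] P = 0) →
    ∃ (L₀ : IntermediateField k⟮t⟯ L)
      (Γ : Subgroup (AlgebraicClosure L ≃ₐ[k⟮t⟯] AlgebraicClosure L))
      (M : Type) (_ : Field M) (_ : Algebra (AlgebraicClosure L) M)
      (hM : IsFunctionField (AlgebraicClosure L) M) (Φ : M →ₐ[AlgebraicClosure L] M) (z : M)
      (r j₀ : ℕ) (w : ℕ → Place (AlgebraicClosure L) M),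
      L₀ ≠ ⊤ ∧
      (∀ a : AlgebraicClosure L, (∀ g ∈ Γ, g a = a) → ∃ e : ℕ, ∃ b ∈ L₀,
        a ^ (ringExpChar k ^ e) = algebraMap L (AlgebraicClosure L) b) ∧
      1 ≤ r ∧ r ≤ C ∧ j₀ ≤ C ∧ Transcendental (AlgebraicClosure L) z ∧
      Module.finrank (AlgebraicClosure L)⟮z⟯ M ≤ C ∧
      Φ z * aeval z (iter (F.map (algebraMap L (AlgebraicClosure L)))
        (G.map (algebraMap L (AlgebraicClosure L))) d r).2 =
        aeval z (iter (F.map (algebraMap L (AlgebraicClosure L)))
        (G.map (algebraMap L (AlgebraicClosure L))) d r).1 ∧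
      (∀ l, w (l + 1) = plc hM hM Φ (w l)) ∧ (Set.range w).Finite ∧
      (∀ l l', l ≤ N' → l' ≤ N' → w l = w l' → l = l') ∧
      (∀ l, Pv (w l) z (algebraMap L (AlgebraicClosure L) (x (j₀ + l * r)))) ∧
      ∀ g ∈ Γ, ∃ g' : M ≃+* M,
        (∀ c, g' (algebraMap (AlgebraicClosure L) M c) = algebraMap (AlgebraicClosure L) M (g c)) ∧
        (∀ u, g' (Φ u) = Φ (g' u)) ∧ ∀ l u, (w l).val (g' u) = (w l).val u := by
  classical
  -- the constants
  set m₁ := m + 1 with hm₁
  obtain ⟨B, hB⟩ : ∃ B, B = m₁ ^ n := ⟨_, rfl⟩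
  obtain ⟨C₂, hC₂⟩ : ∃ C₂, C₂ = 2 * m₁ * ((2 * d) ^ B * m₁ ^ (2 * n)) := ⟨_, rfl⟩
  obtain ⟨Dp, hDp⟩ : ∃ Dp, Dp = m₁ ^ (2 * n) := ⟨_, rfl⟩
  obtain ⟨NB, hNB⟩ : ∃ NB, NB = Dp * Dp * (Dp * Dp + Dp * Dp) + 1 := ⟨_, rfl⟩
  obtain ⟨e, he⟩ : ∃ e, e = n * (m₁ + m₁) := ⟨_, rfl⟩
  obtain ⟨C₃, hC₃⟩ : ∃ C₃, C₃ = B * (C₂ + 1) + (B + 1) * e := ⟨_, rfl⟩
  refine ⟨C₃ + B + NB * B + Dp, fun N' => ⟨C₃ + B + (NB + N' + 1) * B, ?_⟩⟩
  intro k L _ _ _ _ t hL ht hsep hn F G hFG x hx τ hτ P hP hm hrel
  set N := C₃ + B + (NB + N' + 1) * B with hN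
  let W := AlgebraicClosure L
  haveI : FiniteDimensional k⟮t⟯ L := hL.finiteDimensional t ht
  obtain ⟨P', hP'0, hP'm, hP'e⟩ := exists_bivariate P hP m hm
  have hP'm₁ : BiDeg P' m₁ := ⟨hP'm.1.trans (by omega), fun i => (hP'm.2 i).trans (by omega)⟩
  let σ : L →ₐ[k⟮t⟯] W := IsScalarTower.toAlgHom k⟮t⟯ L W
  have hστ : σ ≠ τ := by
    intro h
    obtain ⟨a, ha⟩ := hτ
    apply ha
    rw [← h]
    rfl
  obtain ⟨ι, _, emb, s₀, rk, par, Q, Γ, L₀, hcard, hemb₀, htree, hΓ, hL₀, hfix⟩ :=
    grp t n hn σ τ hστ m₁ N P' hP'0 hP'm₁ x (fun j hj => by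
      rw [hP'e]; exact hrel j hj)
  -- strip the relations
  have hstrip : ∀ s, ∃ (Q' : W[X][Y]) (A A' : Finset W), s ≠ s₀ → (BiDeg Q' m₁ ∧
      (∀ c, Q'.map (evalRingHom c) ≠ 0) ∧ (∀ c : W, Q'.eval (C c) ≠ 0) ∧ A.card ≤ m₁ ∧
      A'.card ≤ m₁ ∧ ∀ a b, (Q s).evalEval a b = 0 → a ∉ A → b ∉ A' → Q'.evalEval a b = 0) := by
    intro s
    by_cases hs : s ≠ s₀
    · obtain ⟨-, hQ0, hQm, -⟩ := htree s hs
      obtain ⟨Q', h1, h2, h3, A, A', h4, h5, h6⟩ := strip (Q s) hQ0 m₁ hQm
      exact ⟨Q', A, A', fun _ => ⟨h1, h2, h3, h4, h5, h6⟩⟩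
    · exact ⟨0, ∅, ∅, fun h => absurd h hs⟩
  choose Q' A A' hQ' using hstrip
  let D : TreeData W ι m₁ :=
    { s₀ := s₀
      rk := rk
      par := par
      Q := Q'
      rk_lt := fun s hs => (htree s hs).1
      deg := fun s hs => (hQ' s hs).1
      vert := fun s hs => (hQ' s hs).2.1
      horiz := fun s hs => (hQ' s hs).2.2.1 }
  let x' : ι → ℕ → W := fun s j => emb s (x j)
  have hx'inj : ∀ s i i', i ≤ N → i' ≤ N → x' s i = x' s i' → i = i' := by
    intro s i i' hi hi' h
    exact hx.inj i i' hi hi' ((emb s).toRingHom.injective h)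
  -- the exceptional indices
  let Ex : ι → Finset ℕ := fun s => (Finset.range (N + 1)).filter fun j =>
    s ≠ s₀ ∧ (x' (par s) j ∈ A s ∨ x' s j ∈ A' s)
  have hEx : ∀ s, (Ex s).card ≤ m₁ + m₁ := by
    intro s
    by_cases hs : s ≠ s₀
    · obtain ⟨-, -, -, h4, h5, -⟩ := hQ' s hs
      have h1 : Ex s ⊆ ((Finset.range (N + 1)).filter fun j => x' (par s) j ∈ A s) ∪
          ((Finset.range (N + 1)).filter fun j => x' s j ∈ A' s) := by
        intro j hj
        obtain ⟨h6, -, h7⟩ := Finset.mem_filter.1 hj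
        rcases h7 with h7 | h7
        · exact Finset.mem_union_left _ (Finset.mem_filter.2 ⟨h6, h7⟩)
        · exact Finset.mem_union_right _ (Finset.mem_filter.2 ⟨h6, h7⟩)
      refine (Finset.card_le_card h1).trans ((Finset.card_union_le _ _).trans ?_)
      refine Nat.add_le_add ?_ ?_
      · refine le_trans (Finset.card_le_card_of_injOn (fun j => x' (par s) j)
          (fun j hj => (Finset.mem_filter.1 (Finset.mem_coe.1 hj)).2) ?_) h4
        intro j hj j' hj' h
        have h6 := Finset.mem_range.1 (Finset.mem_filter.1 (Finset.mem_coe.1 hj)).1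
        have h7 := Finset.mem_range.1 (Finset.mem_filter.1 (Finset.mem_coe.1 hj')).1
        exact hx'inj _ j j' (by omega) (by omega) h
      · refine le_trans (Finset.card_le_card_of_injOn (fun j => x' s j)
          (fun j hj => (Finset.mem_filter.1 (Finset.mem_coe.1 hj)).2) ?_) h5
        intro j hj j' hj' h
        have h6 := Finset.mem_range.1 (Finset.mem_filter.1 (Finset.mem_coe.1 hj)).1
        have h7 := Finset.mem_range.1 (Finset.mem_filter.1 (Finset.mem_coe.1 hj')).1
        exact hx'inj _ j j' (by omega) (by omega) h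
    · have : Ex s = ∅ := by
        apply Finset.filter_eq_empty_iff.2
        intro j _ h
        exact hs h.1
      rw [this, Finset.card_empty]
      omega
  have hExc : (Finset.univ.biUnion Ex).card ≤ e := by
    rw [he]
    refine (Finset.card_biUnion_le_card_mul _ _ (m₁ + m₁) fun s _ => hEx s).trans ?_
    rw [Finset.card_univ]
    exact Nat.mul_le_mul_right _ hcard
  have hrel' : ∀ j ≤ N, j ∉ Finset.univ.biUnion Ex → ∀ s, s ≠ s₀ →
      (Q' s).evalEval (x' (par s) j) (x' s j) = 0 := by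
    intro j hj hjE s hs
    have h1 : j ∉ Ex s := fun h => hjE (Finset.mem_biUnion.2 ⟨s, Finset.mem_univ _, h⟩)
    have h2 : ¬ (x' (par s) j ∈ A s ∨ x' s j ∈ A' s) := fun h =>
      h1 (Finset.mem_filter.2 ⟨Finset.mem_range.2 (by omega), hs, h⟩)
    push Not at h2
    obtain ⟨-, -, -, -, -, h6⟩ := hQ' s hs
    exact h6 _ _ ((htree s hs).2.2.2 j hj) h2.1 h2.2
  have heval : ∀ s (p : L[X]) (a : L), (p.map (emb s : L →+* W)).eval (emb s a) = emb s (p.eval a) := by
    intro s p a
    rw [eval_map]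
    exact Polynomial.eval₂_at_apply (emb s : L →+* W) a
  have hemb₀' : (emb s₀ : L →+* W) = algebraMap L W := RingHom.ext hemb₀
  obtain ⟨M, _, _, hM, Φ, z, r, j₀, w, hr1, hrB, hj₀, hz, hzd, hΦ, hw, hwfin, hwinj, hwval, hact⟩ :=
    core (m := m₁) (n := n) (d := d) (by omega) (by omega) hcard D
    (fun s => F.map (emb s : L →+* W)) (fun s => G.map (emb s : L →+* W))
    (fun s => natDegree_map_le.trans hFG.degF) (fun s => natDegree_map_le.trans hFG.degG) x'
    (fun s j => by
      change (G.map (emb s : L →+* W)).eval (emb s (x j)) ≠ 0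
      rw [heval, Ne, map_eq_zero]
      exact hx.ne j)
    (fun s j => by
      change emb s (x (j + 1)) = (F.map (emb s : L →+* W)).eval (emb s (x j)) /
        (G.map (emb s : L →+* W)).eval (emb s (x j))
      rw [heval, heval, hx.step, map_div₀])
    (by
      have h1 : Set.range (x' D.s₀) = emb D.s₀ '' Set.range x := by
        rw [← Set.range_comp]; rfl
      rw [h1]
      exact hx.fin.image _)
    B C₂ Dp NB e C₃ N N' hB hC₂ hDp hNB hC₃ le_rfl (hx'inj s₀) (Finset.univ.biUnion Ex) hExc hrel'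
  refine ⟨L₀, Γ, M, _, _, hM, Φ, z, r, j₀, w, hL₀, hfix, hr1, ?_, ?_, hz, ?_, ?_, hw, hwfin, hwinj,
    ?_, ?_⟩
  · omega
  · omega
  · exact hzd.trans (by omega)
  · rw [← hemb₀']
    exact hΦ
  · intro l
    rw [← hemb₀]
    exact hwval l
  · intro g hg
    obtain ⟨π, hπ⟩ := hΓ g hg
    have hcomp : ∀ s, (emb (π s) : L →+* W) = ((g.toRingEquiv : W ≃+* W) : W →+* W).comp
        (emb s : L →+* W) := fun s => RingHom.ext (hπ s)
    exact hact g.toRingEquiv π (fun s j => hπ s (x j))
      (fun s => by rw [hcomp, Polynomial.map_map]) (fun s => by rw [hcomp, Polynomial.map_map])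

end Pool.Agent.Helper34.Dep

end

section

set_option autoImplicit false

namespace Pool.Agent.Helper38.DT

open Pool.Agent.Helper45.S6

theorem partAStmt (d n m : ℕ) (hd : 2 ≤ d) : PartAStmt d n m :=
  Pool.Agent.Helper34.Dep.partA d n m hd

end Pool.Agent.Helper38.DT

end
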