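import Pool.Agent.Helper23.MB.L02_ab0
import Pool.Agent.Helper23.MB.L02_ab1
import Pool.Agent.Helper23.MB.L02_ab2
import Pool.Agent.Helper23.MB.L02_ab4

/-!
Parts of Helper13.RR.A, Helper47.RR.B1, Helper47.RR.B2, Helper47.RR.B3, Helper31.RRK.Genus, Helper47.EN.Defs, Helper84.RRE, Helper84.EN.Inv, Helper33.PT.Final1
-/

attribute [-simp] Valuation.IsUniformizer.val
attribute [local instance 5000]
  Pool.Agent.Helper23.MB.Inst.rCharZero Pool.Agent.Helper23.MB.Inst.rALM
  Pool.Agent.Helper23.MB.Inst.rARM Pool.Agent.Helper23.MB.Inst.rALSM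
  Pool.Agent.Helper23.MB.Inst.rARSM Pool.Agent.Helper23.MB.Inst.rARRLE
  Pool.Agent.Helper23.MB.Inst.rALRLE Pool.Agent.Helper23.MB.Inst.rARRLT
  Pool.Agent.Helper23.MB.Inst.rALRLT Pool.Agent.Helper23.MB.Inst.rPMRLT
  Pool.Agent.Helper23.MB.Inst.rMPRLT Pool.Agent.Helper23.MB.Inst.rPMM
  Pool.Agent.Helper23.MB.Inst.rMPM Pool.Agent.Helper23.MB.Inst.rPMSM
  Pool.Agent.Helper23.MB.Inst.rMPSM Pool.Agent.Helper23.MB.Inst.rEAOL
  Pool.Agent.Helper23.MB.Inst.rIOR Pool.Agent.Helper23.MB.Inst.rISOR
  Pool.Agent.Helper23.MB.Inst.rNZD Pool.Agent.Helper23.MB.Inst.zCharZero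
  Pool.Agent.Helper23.MB.Inst.zALM Pool.Agent.Helper23.MB.Inst.zARM
  Pool.Agent.Helper23.MB.Inst.zIOR Pool.Agent.Helper23.MB.Inst.zISOR
  Pool.Agent.Helper23.MB.Inst.zNZD Pool.Agent.Helper23.MB.Inst.qCharZero
  Pool.Agent.Helper23.MB.Inst.free Pool.Agent.Helper23.MB.Inst.faith
  Pool.Agent.Helper23.MB.Inst.torsionFree Pool.Agent.Helper23.MB.Inst.rfFaith
  Pool.Agent.Helper23.MB.Inst.hAdd Pool.Agent.Helper23.MB.Inst.hAddM
  Pool.Agent.Helper23.MB.Inst.hMul Pool.Agent.Helper23.MB.Inst.hMon
  Pool.Agent.Helper23.MB.Inst.hZero Pool.Agent.Helper23.MB.Inst.hOne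
  Pool.Agent.Helper23.MB.Inst.hMZ Pool.Agent.Helper23.MB.Inst.hRing
  Pool.Agent.Helper23.MB.Inst.aAdd Pool.Agent.Helper23.MB.Inst.aAddM
  Pool.Agent.Helper23.MB.Inst.aMul Pool.Agent.Helper23.MB.Inst.aMon
  Pool.Agent.Helper23.MB.Inst.aZero Pool.Agent.Helper23.MB.Inst.aOne
  Pool.Agent.Helper23.MB.Inst.aMZ Pool.Agent.Helper23.MB.Inst.aRing

namespace Pool.Agent.Helper16
end Pool.Agent.Helper16
namespace Pool.Agent.Helper31.RRK
end Pool.Agent.Helper31.RRK
namespace Pool.Agent.Helper33
end Pool.Agent.Helper33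
namespace Pool.Agent.Helper33.PS
end Pool.Agent.Helper33.PS
namespace Pool.Agent.Helper33.UB
end Pool.Agent.Helper33.UB
namespace Pool.Agent.Helper45.FF
end Pool.Agent.Helper45.FF
namespace Pool.Agent.Helper45.FR
end Pool.Agent.Helper45.FR
namespace Pool.Agent.Helper45.S4
end Pool.Agent.Helper45.S4
namespace Pool.Agent.Helper47.EN
end Pool.Agent.Helper47.EN
namespace Pool.Agent.Helper47.RR
end Pool.Agent.Helper47.RR
namespace Pool.Agent.Helper51.RatTree
end Pool.Agent.Helper51.RatTree
namespace Pool.Agent.Helper55.RD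
end Pool.Agent.Helper55.RD
namespace Pool.Agent.Helper84.RRE
end Pool.Agent.Helper84.RRE
namespace Pool.Agent.Helper93.RatODE
end Pool.Agent.Helper93.RatODE

section

set_option autoImplicit false

set_option linter.style.haveILetI false

namespace Pool.Agent.Helper47.RR

open Pool.Agent.Helper16 Pool.Agent.Helper45.FF Pool.Agent.Helper45.S4 Polynomial IntermediateField

variable {k L : Type} [Field k] [Field L] [Algebra k L]

theorem prin_mul (hN : IsFunctionField k L) {f g : L} (hf : f ≠ 0) (hg : g ≠ 0) :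
    prin hN (f * g) = prin hN f + prin hN g := by
  ext v
  rw [Finsupp.add_apply, prin_apply, prin_apply, prin_apply, v.ord_mul hf hg]

theorem ell_mono [IsAlgClosed k] (hN : IsFunctionField k L) {D E : Dv k L} (h : D ≤ E) :
    ell D ≤ ell E := by
  haveI := finite_Lsp hN E
  unfold ell
  exact_mod_cast Submodule.finrank_mono (Lsp_mono h)

theorem ell_add_single [IsAlgClosed k] (hN : IsFunctionField k L) (D : Dv k L) (v : Place k L) :
    ell (D + Finsupp.single v 1) ≤ ell D + 1 := by
  haveI := finite_Lsp hN (D + Finsupp.single v 1)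
  have h1 := v.finrank_le_cut (v.finite_resField hN) (D v) (Lsp (D + Finsupp.single v 1)) (by
    have := Lsp_le_filt (D + Finsupp.single v 1) v
    simpa using this)
  rw [Lsp_inf_filt D v 1 zero_le_one, deg_eq_one hN] at h1
  unfold ell
  exact_mod_cast h1

theorem ell_mono_single [IsAlgClosed k] (hN : IsFunctionField k L) (D : Dv k L) (v : Place k L) :
    ell D ≤ ell (D + Finsupp.single v 1) ∧ ell (D + Finsupp.single v 1) ≤ ell D + 1 := by
  classical
  refine ⟨ell_mono hN ?_, ell_add_single hN D v⟩
  intro w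
  rw [Finsupp.add_apply]
  have : 0 ≤ (Finsupp.single v 1 : Dv k L) w := by
    rw [Finsupp.single_apply]
    split_ifs <;> omega
  omega

/-- `deg D - ell D` is monotone. -/
theorem sub_ell_mono [IsAlgClosed k] (hN : IsFunctionField k L) {D E : Dv k L} (h : D ≤ E) :
    degD D - ell D ≤ degD E - ell E := by
  classical
  have key : ∀ n : ℕ, ∀ D E : Dv k L, D ≤ E → degD E - degD D = n →
      degD D - ell D ≤ degD E - ell E := by
    intro n
    induction n with
    | zero =>
      intro D E h hd
      rw [eq_of_le_of_degD h (by push_cast at hd; omega)]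
    | succ n ih =>
      intro D E h hd
      obtain ⟨v, hv⟩ : ∃ v, D v < E v := by
        by_contra hcon
        push Not at hcon
        have : D = E := le_antisymm h hcon
        rw [this] at hd
        push_cast at hd
        omega
      have h1 : D + Finsupp.single v 1 ≤ E := by
        intro w
        rw [Finsupp.add_apply, Finsupp.single_apply]
        split_ifs with hw
        · subst hw
          omega
        · have := h w
          omega
      have h2 := ih (D + Finsupp.single v 1) E h1 (by
        rw [degD_add, degD_single]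
        push_cast at hd
        omega)
      have h3 := (ell_mono_single hN D v).2
      rw [degD_add, degD_single] at h2
      omega
  have h1 := degD_mono h
  refine key (degD E - degD D).toNat D E h ?_
  rw [Int.toNat_of_nonneg (by omega)]

theorem ell_pos_iff [IsAlgClosed k] (hN : IsFunctionField k L) (D : Dv k L) :
    0 < ell D ↔ ∃ f ∈ Lsp D, f ≠ 0 := by
  haveI := finite_Lsp hN D
  unfold ell
  rw [Int.natCast_pos, Module.finrank_pos_iff, nontrivial_iff]
  constructor
  · rintro ⟨a, b, hab⟩
    by_cases ha : (a : L) = 0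
    · refine ⟨b, b.2, fun hb => hab (Subtype.ext ?_)⟩
      rw [ha, hb]
    · exact ⟨a, a.2, ha⟩
  · rintro ⟨f, hf, h0⟩
    exact ⟨⟨f, hf⟩, 0, fun h => h0 (congrArg Subtype.val h)⟩

theorem ell_eq_zero [IsAlgClosed k] (hN : IsFunctionField k L) {D : Dv k L} (h : degD D < 0) :
    ell D = 0 := by
  unfold ell
  rw [Lsp_eq_bot hN h, finrank_bot]
  rfl

theorem mem_Lsp_zero [IsAlgClosed k] (hN : IsFunctionField k L) (f : L) :
    f ∈ Lsp (0 : Dv k L) ↔ ∃ c : k, algebraMap k L c = f := by
  constructor
  · intro hf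
    obtain ⟨v⟩ := exists_a_place hN
    have h1 : v.val f ≤ 1 := by
      have := (mem_Lsp _ f).1 hf v
      simpa using this
    obtain ⟨c, hc⟩ := exists_res_val hN v f h1
    refine ⟨c, ?_⟩
    have h2 : f - algebraMap k L c ∈ Lsp (- Finsupp.single v 1 : Dv k L) := by
      rw [mem_Lsp]
      intro w
      by_cases hw : w = v
      · subst hw
        by_cases h0 : f - algebraMap k L c = 0
        · rw [h0, map_zero]; exact zero_le
        · rw [val_le_exp_iff w _ h0]
          have := (w.ord_pos_iff h0).2 hc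
          simp only [Finsupp.neg_apply, Finsupp.single_eq_same]
          omega
      · have h3 : (- Finsupp.single v 1 : Dv k L) w = 0 := by
          rw [Finsupp.neg_apply, Finsupp.single_eq_of_ne hw, neg_zero]
        rw [h3, WithZero.exp_zero]
        refine (w.val.map_sub _ _).trans (max_le ?_ (w.val_algebraMap_le c))
        have := (mem_Lsp _ f).1 hf w
        simpa using this
    rw [Lsp_eq_bot hN (by rw [degD_neg, degD_single]; norm_num), Submodule.mem_bot] at h2
    exact (sub_eq_zero.1 h2).symm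
  · rintro ⟨c, rfl⟩
    rw [mem_Lsp]
    intro v
    simpa using v.val_algebraMap_le c

theorem ell_zero [IsAlgClosed k] (hN : IsFunctionField k L) : ell (0 : Dv k L) = 1 := by
  have h1 : Lsp (0 : Dv k L) = LinearMap.range (Algebra.linearMap k L) := by
    ext f
    rw [mem_Lsp_zero hN, LinearMap.mem_range]
    rfl
  unfold ell
  rw [h1, LinearMap.finrank_range_of_inj (algebraMap k L).injective, Module.finrank_self]
  rfl

theorem ell_add_prin [IsAlgClosed k] (hN : IsFunctionField k L) {f : L} (hf : f ≠ 0) (D : Dv k L) :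
    ell (D + prin hN f) = ell D := by
  have key : ∀ (f : L), f ≠ 0 → ∀ D : Dv k L, ell (D + prin hN f) ≤ ell D := by
    intro f hf D
    haveI := finite_Lsp hN D
    have hmem : ∀ g ∈ Lsp (D + prin hN f), f * g ∈ Lsp D := by
      intro g hg
      by_cases hg0 : g = 0
      · rw [hg0, mul_zero]; exact zero_mem _
      rw [mem_Lsp_iff_prin hN _ hg0] at hg
      rw [mem_Lsp_iff_prin hN _ (mul_ne_zero hf hg0), prin_mul hN hf hg0, ← add_assoc]
      exact hg
    let ι : Lsp (D + prin hN f) →ₗ[k] Lsp D :=
      { toFun := fun g => ⟨f * (g : L), hmem g g.2⟩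
        map_add' := fun a b => Subtype.ext (mul_add f (a : L) (b : L))
        map_smul' := fun c a => Subtype.ext (mul_smul_comm c f (a : L)) }
    have hι : Function.Injective ι := by
      intro a b hab
      have h1 : f * (a : L) = f * (b : L) := congrArg (fun z : Lsp D => (z : L)) hab
      exact Subtype.ext (mul_left_cancel₀ hf h1)
    unfold ell
    exact_mod_cast LinearMap.finrank_le_finrank_of_injective hι
  refine le_antisymm (key f hf D) ?_
  have h1 := key f⁻¹ (inv_ne_zero hf) (D + prin hN f)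
  rwa [prin_inv, add_neg_cancel_right] at h1

/-- Riemann's theorem. -/
theorem exists_riemann [IsAlgClosed k] (hN : IsFunctionField k L) :
    ∃ γ : ℤ, ∀ D : Dv k L, degD D - ell D ≤ γ := by
  classical
  obtain ⟨s, hs⟩ := exists_transcendental hN
  have hs0 : s ≠ 0 := transcendental_ne_zero hs
  haveI := hN.finiteDimensional s hs
  obtain ⟨T, hT, hsum, hpos⟩ := hN.zeros s⁻¹ (transcendental_inv hs)
  rw [finrank_inv] at hsum hpos
  obtain ⟨n, hnn⟩ : ∃ n, Module.finrank k⟮s⟯ L = n := ⟨_, rfl⟩
  rw [hnn] at hsum hpos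
  obtain ⟨x, hxi, hxint⟩ : ∃ x : Fin n → L, LinearIndependent k⟮s⟯ x ∧ ∀ i, IntOver k s (x i) :=
    hnn ▸ exists_integral_basis s hs
  have hx0 : ∀ i, x i ≠ 0 := fun i => hxi.ne_zero i
  -- the pole divisor
  let B : Dv k L := Finsupp.ofSupportFinite (fun v => if v ∈ T then - v.ord s else 0) (by
    refine T.finite_toSet.subset ?_
    intro v hv
    by_contra h
    apply hv
    exact if_neg h)
  have hBT : ∀ v ∈ T, B v = - v.ord s := fun v hv => if_pos hv
  have hBT' : ∀ v, v ∉ T → B v = 0 := fun v hv => if_neg hv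
  have hB0 : 0 ≤ B := by
    intro v
    by_cases hv : v ∈ T
    · rw [hBT v hv, Finsupp.zero_apply]
      have h1 := (hT v).1 hv
      have h2 := (v.ord_pos_iff (inv_ne_zero hs0)).2 h1
      rw [v.ord_inv] at h2
      omega
    · rw [hBT' v hv, Finsupp.zero_apply]
  have hBd : degD B = n := by
    rw [degD_eq_sum T hBT', ← hsum]
    refine Finset.sum_congr rfl fun v hv => ?_
    rw [hBT v hv, v.ord_inv, deg_eq_one hN, Nat.cast_one, mul_one]
  have hreg : ∀ v, v ∉ T → v.val s ≤ 1 := by
    intro v hv
    rw [hT, not_lt, map_inv₀] at hv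
    by_contra h
    rw [not_le] at h
    exact absurd hv (not_le.2 (inv_lt_one_of_one_lt₀ h))
  obtain ⟨j, hj⟩ : ∃ j : ℕ, ∀ v ∈ T, ∀ i, - v.ord (x i) ≤ j := by
    refine ⟨∑ v ∈ T, ∑ i, (- v.ord (x i)).toNat, fun v hv i => ?_⟩
    have h1 : (- v.ord (x i)).toNat ≤ ∑ i, (- v.ord (x i)).toNat :=
      Finset.single_le_sum (f := fun i => (- v.ord (x i)).toNat)
        (fun _ _ => Nat.zero_le _) (Finset.mem_univ i)
    have h2 : ∑ i, (- v.ord (x i)).toNat ≤ ∑ v ∈ T, ∑ i, (- v.ord (x i)).toNat :=
      Finset.single_le_sum (f := fun v : Place k L => ∑ i, (- v.ord (x i)).toNat)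
        (fun _ _ => Nat.zero_le _) hv
    have h3 := Int.self_le_toNat (- v.ord (x i))
    have h4 : ((- v.ord (x i)).toNat : ℤ) ≤
        ((∑ v ∈ T, ∑ i, (- v.ord (x i)).toNat : ℕ) : ℤ) := by
      exact_mod_cast h1.trans h2
    exact h3.trans h4
  let C : Dv k L := Finsupp.ofSupportFinite (fun v => if v ∈ T then (j : ℤ) else 0) (by
    refine T.finite_toSet.subset ?_
    intro v hv
    by_contra h
    apply hv
    exact if_neg h)
  have hCT : ∀ v ∈ T, C v = j := fun v hv => if_pos hv
  have hCT' : ∀ v, v ∉ T → C v = 0 := fun v hv => if_neg hv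
  have hC0 : 0 ≤ C := by
    intro v
    by_cases hv : v ∈ T
    · rw [hCT v hv, Finsupp.zero_apply]
      omega
    · rw [hCT' v hv, Finsupp.zero_apply]
  have h1 : ∀ m : ℕ, (n : ℤ) * (m + 1) ≤ ell (m • B + C) := by
    intro m
    haveI := finite_Lsp hN (m • B + C)
    have hF : LinearIndependent k (fun p : Fin (m + 1) × Fin n => s ^ (p.1 : ℕ) * x p.2) :=
      linearIndependent_pow_mul s hs x hxi (m + 1)
    have hmem : ∀ p : Fin (m + 1) × Fin n, s ^ (p.1 : ℕ) * x p.2 ∈ Lsp (m • B + C) := by
      intro p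
      rw [mem_Lsp]
      intro v
      rw [Finsupp.add_apply, Finsupp.smul_apply]
      by_cases hv : v ∈ T
      · rw [hBT v hv, hCT v hv, val_le_exp_iff v _ (mul_ne_zero (pow_ne_zero _ hs0) (hx0 _)),
          v.ord_mul (pow_ne_zero _ hs0) (hx0 _)]
        have h2 : v.ord (s ^ (p.1 : ℕ)) = (p.1 : ℕ) * v.ord s := by
          unfold Place.ord
          rw [map_pow, WithZero.log_pow, nsmul_eq_mul]
          ring
        rw [h2]
        have h3 := hj v hv p.2
        have h4 : (p.1 : ℕ) ≤ m := Nat.lt_succ_iff.1 p.1.2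
        have h4' : ((p.1 : ℕ) : ℤ) ≤ m := by exact_mod_cast h4
        have h5 : v.ord s ≤ 0 := by
          have := hB0 v
          rw [hBT v hv, Finsupp.zero_apply] at this
          omega
        rw [nsmul_eq_mul]
        (clear * - h3 h4 h5; nlinarith)
      · rw [hBT' v hv, hCT' v hv, smul_zero, add_zero, WithZero.exp_zero, map_mul, map_pow]
        exact mul_le_one' (pow_le_one' (hreg v hv) _) ((hxint p.2).mem_ring v (hreg v hv))
    have hF' : LinearIndependent k (fun p : Fin (m + 1) × Fin n =>
        (⟨s ^ (p.1 : ℕ) * x p.2, hmem p⟩ : Lsp (m • B + C))) := by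
      apply LinearIndependent.of_comp (Lsp (m • B + C)).subtype
      exact hF
    have h5 := hF'.fintype_card_le_finrank
    rw [Fintype.card_prod, Fintype.card_fin, Fintype.card_fin] at h5
    unfold ell
    have h6 : (((m + 1) * n : ℕ) : ℤ) ≤ (Module.finrank k (Lsp (m • B + C)) : ℤ) := by
      exact_mod_cast h5
    push_cast at h6
    (clear * - h5; linarith)
  have h2 : ∀ m : ℕ, degD (m • B) - ell (m • B) ≤ degD C - n := by
    intro m
    have h3 : m • B ≤ m • B + C := le_add_of_nonneg_right hC0
    have h4 := sub_ell_mono hN h3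
    have h5 := h1 m
    have h6 : degD (m • B + C) = m * n + degD C := by
      rw [degD_add, degD_nsmul, hBd]
    rw [h6] at h4
    have h7 : (n : ℤ) * (m + 1) = m * n + n := by ring
    omega
  refine ⟨degD C - n, fun D => ?_⟩
  -- pass to the positive part
  let E : Dv k L := D.mapRange (fun z => max z 0) (by simp)
  have hDE : D ≤ E := fun v => by
    rw [Finsupp.mapRange_apply]
    exact le_max_left _ _
  have hE0 : 0 ≤ E := fun v => by
    rw [Finsupp.mapRange_apply, Finsupp.zero_apply]
    exact le_max_right _ _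
  refine (sub_ell_mono hN hDE).trans ?_
  let m : ℕ := (degD E + degD C - n + 1).toNat
  have hm := Int.self_le_toNat (degD E + degD C - n + 1)
  have h3 : m • B - E ≤ m • B := sub_le_self _ hE0
  have h4 := sub_ell_mono hN h3
  have h5 := h2 m
  have h6 : degD (m • B) = m * n := by rw [degD_nsmul, hBd]
  have h7 : 0 < ell (m • B - E) := by
    rw [degD_sub, h6] at h4
    have h8 : (m : ℤ) ≤ m * n := by
      have : (1 : ℤ) ≤ n := by exact_mod_cast hpos
      (clear * - hpos; nlinarith [Int.natCast_nonneg m])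
    rw [h6] at h5
    have h9 : degD E + degD C - n + 1 ≤ (m : ℤ) := hm
    omega
  obtain ⟨f, hf, hf0⟩ := (ell_pos_iff hN _).1 h7
  rw [mem_Lsp_iff_prin hN _ hf0] at hf
  have h8 : E ≤ m • B + prin hN f := by
    have h9 : m • B - E + prin hN f = (m • B + prin hN f) - E := by abel
    rw [h9] at hf
    exact sub_nonneg.1 hf
  have h9 := sub_ell_mono hN h8
  rw [degD_add, degD_prin, add_zero, ell_add_prin hN hf0] at h9
  exact h9.trans h5

theorem bddAbove_range [IsAlgClosed k] (hN : IsFunctionField k L) :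
    BddAbove (Set.range fun D : Dv k L => degD D - ell D) := by
  obtain ⟨γ, hγ⟩ := exists_riemann hN
  exact ⟨γ, by rintro _ ⟨D, rfl⟩; exact hγ D⟩

/-- Riemann's inequality -/
theorem riemann [IsAlgClosed k] (hN : IsFunctionField k L) (D : Dv k L) :
    degD D + 1 - genus k L ≤ ell D := by
  have h : degD D - ell D ≤ sSup (Set.range fun D : Dv k L => degD D - ell D) :=
    le_csSup (bddAbove_range hN) (Set.mem_range_self D)
  unfold genus
  omega

theorem genus_nonneg [IsAlgClosed k] (hN : IsFunctionField k L) : 0 ≤ genus k L := by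
  have h := riemann hN (0 : Dv k L)
  rw [degD_zero, ell_zero hN] at h
  omega

theorem exists_genus_eq [IsAlgClosed k] (hN : IsFunctionField k L) :
    ∃ D : Dv k L, ell D = degD D + 1 - genus k L := by
  have h : sSup (Set.range fun D : Dv k L => degD D - ell D) ∈
      Set.range fun D : Dv k L => degD D - ell D :=
    Int.csSup_mem ⟨_, Set.mem_range_self 0⟩ (bddAbove_range hN)
  obtain ⟨D, hD⟩ := h
  refine ⟨D, ?_⟩
  unfold genus
  simp only at hD
  omega

/-- `deg D - ell D` takes its maximal value on all divisors of large degree. -/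
theorem exists_ell_eq [IsAlgClosed k] (hN : IsFunctionField k L) :
    ∃ c : ℤ, ∀ D : Dv k L, c ≤ degD D → ell D = degD D + 1 - genus k L := by
  obtain ⟨A, hA⟩ := exists_genus_eq hN
  refine ⟨degD A + genus k L, fun D hD => ?_⟩
  have h1 := riemann hN (D - A)
  rw [degD_sub] at h1
  have h2 : 0 < ell (D - A) := by omega
  obtain ⟨f, hf, hf0⟩ := (ell_pos_iff hN _).1 h2
  rw [mem_Lsp_iff_prin hN _ hf0] at hf
  have h3 : A ≤ D + prin hN f := by
    have h9 : D - A + prin hN f = (D + prin hN f) - A := by abel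
    rw [h9] at hf
    exact sub_nonneg.1 hf
  have h4 := sub_ell_mono hN h3
  rw [degD_add, degD_prin, add_zero, ell_add_prin hN hf0] at h4
  have h5 := riemann hN D
  omega

end Pool.Agent.Helper47.RR

end

section

set_option autoImplicit false

set_option linter.style.haveILetI false

namespace Pool.Agent.Helper47.RR

open Pool.Agent.Helper16 Pool.Agent.Helper45.S4

variable {k L : Type} [Field k] [Field L] [Algebra k L]

section step

variable [IsAlgClosed k] (hN : IsFunctionField k L) (D : Dv k L) (v : Place k L)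

include hN

/-- one step of the dimension formula -/
theorem step_formula (hfin : FiniteDimensional k (Om (D + Finsupp.single v 1))) :
    FiniteDimensional k (Om D) ∧
      (Module.finrank k (Om D) : ℤ) - ell D + degD D =
        (Module.finrank k (Om (D + Finsupp.single v 1)) : ℤ) - ell (D + Finsupp.single v 1) +
          degD (D + Finsupp.single v 1) := by
  have hdeg : degD (D + Finsupp.single v 1) = degD D + 1 := by rw [degD_add, degD_single]
  haveI := finite_Lsp hN (D + Finsupp.single v 1)
  by_cases hcase : ∃ x ∈ Lsp (D + Finsupp.single v 1), x ∉ Lsp D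
  · obtain ⟨x, hx, hx'⟩ := hcase
    have h1 := Om_eq_of_mem hN D v x hx hx'
    have h2 : ell (D + Finsupp.single v 1) = ell D + 1 := by
      apply le_antisymm (ell_add_single hN D v)
      have h3 : Lsp D < Lsp (D + Finsupp.single v 1) :=
        lt_of_le_of_ne (Lsp_mono (le_add_single D v)) (fun h => hx' (h ▸ hx))
      have h4 := Submodule.finrank_lt_finrank_of_lt h3
      unfold ell
      exact_mod_cast h4
    rw [h1] at hfin
    refine ⟨hfin, ?_⟩
    rw [h1, h2, hdeg]
    ring
  · push Not at hcase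
    have h1 : Lsp (D + Finsupp.single v 1) = Lsp D :=
      le_antisymm hcase (Lsp_mono (le_add_single D v))
    have h2 : ell (D + Finsupp.single v 1) = ell D := by unfold ell; rw [h1]
    obtain ⟨α₀, h3, h4, h5⟩ := exists_gen hN D v
    -- the subspace of pre-adeles
    let S : Submodule k (Ad k L) :=
      { carrier := {α | ∃ x : L, ((α - diag hN x : Ad k L) : Place k L → L) ∈ AdD D}
        add_mem' := by
          rintro a b ⟨x, hx⟩ ⟨y, hy⟩
          refine ⟨x + y, ?_⟩
          have := (AdD D).add_mem hx hy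
          convert this using 1
          ext w
          change (a : Place k L → L) w + (b : Place k L → L) w - (x + y) =
            ((a : Place k L → L) w - x) + ((b : Place k L → L) w - y)
          ring
        zero_mem' := ⟨0, by
          convert (AdD D).zero_mem using 1
          ext w
          change (0 : L) - 0 = 0
          ring⟩
        smul_mem' := by
          rintro c a ⟨x, hx⟩
          refine ⟨c • x, ?_⟩
          have := (AdD D).smul_mem c hx
          convert this using 1
          ext w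
          change c • (a : Place k L → L) w - c • x = c • ((a : Place k L → L) w - x)
          rw [smul_sub] }
    have hα₀S : α₀ ∉ S := by
      rintro ⟨x, hx⟩
      have h6 : x ∈ Lsp (D + Finsupp.single v 1) := by
        rw [mem_Lsp]
        intro w
        have h7 : x = (α₀ : Place k L → L) w - ((α₀ - diag hN x : Ad k L) : Place k L → L) w := by
          change x = (α₀ : Place k L → L) w - ((α₀ : Place k L → L) w - x)
          ring
        rw [h7]
        exact (w.val.map_sub _ _).trans (max_le (h3 w) ((hx w).trans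
          (WithZero.exp_le_exp.2 (le_add_single D v w))))
      rw [h1, mem_Lsp] at h6
      apply h4
      intro w
      have h7 : (α₀ : Place k L → L) w = ((α₀ - diag hN x : Ad k L) : Place k L → L) w + x := by
        change (α₀ : Place k L → L) w = ((α₀ : Place k L → L) w - x) + x
        ring
      rw [h7]
      exact (w.val.map_add _ _).trans (max_le (hx w) (h6 w))
    obtain ⟨ω₀, hω₀, hω₀S⟩ := Submodule.exists_dual_map_eq_bot_of_notMem hα₀S inferInstance
    have hω₀S' : ∀ α ∈ S, ω₀ α = 0 := by
      intro α hα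
      have : ω₀ α ∈ S.map ω₀ := Submodule.mem_map_of_mem hα
      rw [hω₀S] at this
      simpa using this
    have hω₀Om : ω₀ ∈ Om D := by
      refine ⟨fun α hα => hω₀S' α ⟨0, ?_⟩, fun α x hα => hω₀S' α ⟨x, ?_⟩⟩
      · convert hα using 1
        ext w
        change (α : Place k L → L) w - 0 = _
        rw [sub_zero]
      · convert (AdD D).zero_mem using 1
        ext w
        change (α : Place k L → L) w - x = 0
        rw [hα w, sub_self]
    have habs := abstract_step (Om (D + Finsupp.single v 1)) (Om D) (Om_anti (le_add_single D v)) hfin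
      ((LinearMap.applyₗ α₀ : (Ad k L →ₗ[k] k) →ₗ[k] k)) (fun ω hω => hω.1 α₀ h3)
      (fun ω hω h => ⟨fun α hα => by
        obtain ⟨c, hc⟩ := h5 α hα
        have h6 := hω.1 _ hc
        have h7 : ω α₀ = 0 := h
        rw [map_sub, map_smul, h7, smul_zero, sub_zero] at h6
        exact h6, hω.2⟩) ⟨ω₀, hω₀Om, hω₀⟩
    refine ⟨habs.1, ?_⟩
    rw [habs.2, h2, hdeg]
    push_cast
    ring

end step

end Pool.Agent.Helper47.RR

end

section

set_option autoImplicit false

set_option linter.style.haveILetI false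

namespace Pool.Agent.Helper47.RR

open Pool.Agent.Helper16 Pool.Agent.Helper45.S4

variable {k L : Type} [Field k] [Field L] [Algebra k L]

section

variable [IsAlgClosed k] (hN : IsFunctionField k L)

include hN

theorem degD_sub_ell_le (D : Dv k L) : degD D - ell D ≤ genus k L - 1 := by
  have := riemann hN D
  linarith

theorem exists_max : ∃ D : Dv k L, degD D - ell D = genus k L - 1 := by
  have h1 : (Set.range fun D : Dv k L => degD D - ell D).Nonempty := ⟨_, 0, rfl⟩
  obtain ⟨D, hD⟩ := Int.csSup_mem h1 (bddAbove_range hN)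
  refine ⟨D, ?_⟩
  have hD' : degD D - ell D = sSup (Set.range fun D : Dv k L => degD D - ell D) := hD
  rw [hD']
  unfold genus
  ring

/-- For `D` of maximal index, all Weil differentials bounded by `D` vanish. -/
theorem Om_eq_bot_of_max (D : Dv k L) (hD : degD D - ell D = genus k L - 1) : Om D = ⊥ := by
  classical
  have hstep : ∀ D' : Dv k L, D ≤ D' → Om D' = Om D := by
    intro D' h
    refine le_induction h (fun E => Om D' = Om E) rfl ?_
    intro E v hDE hE
    rw [hE]
    have h1 := sub_ell_mono hN hDE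
    have h2 := degD_sub_ell_le hN (E + Finsupp.single v 1)
    rw [degD_add, degD_single] at h2
    have h3 : ell E < ell (E + Finsupp.single v 1) := by linarith
    have h4 : ∃ x ∈ Lsp (E + Finsupp.single v 1), x ∉ Lsp E := by
      by_contra hcon
      push Not at hcon
      have h5 : Lsp (E + Finsupp.single v 1) = Lsp E :=
        le_antisymm hcon (Lsp_mono (le_add_single E v))
      unfold ell at h3
      rw [h5] at h3
      exact lt_irrefl _ h3
    obtain ⟨x, hx, hx'⟩ := h4
    exact Om_eq_of_mem hN E v x hx hx'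
  rw [eq_bot_iff]
  intro ω hω
  rw [Submodule.mem_bot]
  ext α
  rw [LinearMap.zero_apply]
  -- a divisor bounding `α`
  have hfin : {v : Place k L | max (D v) (-v.ord ((α : Place k L → L) v)) ≠ 0 ∧
      (α : Place k L → L) v ≠ 0 ∧ 0 ≤ -v.ord ((α : Place k L → L) v)}.Finite ∨ True := Or.inr trivial
  let f : Place k L → ℤ := fun v => max (D v) (if v.val ((α : Place k L → L) v) ≤ 1 then 0 else
    WithZero.log (v.val ((α : Place k L → L) v)))
  have hf : (Function.support f).Finite := by
    refine (D.support.finite_toSet.union α.2).subset ?_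
    intro v hv
    by_contra hcon
    simp only [Set.mem_union, Finset.mem_coe, Finsupp.mem_support_iff, ne_eq, not_or, not_not,
      Set.mem_ofPred_eq] at hcon
    apply hv
    simp only [f]
    have h2 : v.val ((α : Place k L → L) v) ≤ 1 := hcon.2
    rw [if_pos h2, hcon.1]
    simp
  let D' : Dv k L := Finsupp.ofSupportFinite f hf
  have hDD' : D ≤ D' := fun v => le_max_left _ _
  rw [← hstep D' hDD'] at hω
  apply hω.1
  intro v
  change v.val ((α : Place k L → L) v) ≤ WithZero.exp (f v)
  simp only [f]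
  split_ifs with h1
  · refine h1.trans ?_
    rw [← WithZero.exp_zero, WithZero.exp_le_exp]
    exact le_max_right _ _
  · have h0 : v.val ((α : Place k L → L) v) ≠ 0 := by
      intro h2
      apply h1
      rw [h2]
      exact zero_le
    conv_lhs => rw [← WithZero.exp_log h0]
    rw [WithZero.exp_le_exp]
    exact le_max_right _ _

/-- The dimension formula for Weil differentials. -/
theorem Om_formula (D : Dv k L) : FiniteDimensional k (Om D) ∧
    (Module.finrank k (Om D) : ℤ) = ell D - degD D - 1 + genus k L := by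
  classical
  obtain ⟨D₀, hD₀⟩ := exists_max hN
  have h1 : D ≤ D ⊔ D₀ := le_sup_left
  have h2 : D₀ ≤ D ⊔ D₀ := le_sup_right
  have h3 : degD (D ⊔ D₀) - ell (D ⊔ D₀) = genus k L - 1 :=
    le_antisymm (degD_sub_ell_le hN _) (hD₀ ▸ sub_ell_mono hN h2)
  have h4 := Om_eq_bot_of_max hN _ h3
  have h5 : FiniteDimensional k (Om D) ∧
      (Module.finrank k (Om D) : ℤ) - ell D + degD D = genus k L - 1 := by
    refine le_induction h1 (fun E => FiniteDimensional k (Om E) ∧
      (Module.finrank k (Om E) : ℤ) - ell E + degD E = genus k L - 1) ?_ ?_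
    · rw [h4]
      refine ⟨inferInstance, ?_⟩
      rw [finrank_bot]
      push_cast
      linarith
    · intro E v _ hE
      obtain ⟨h6, h7⟩ := step_formula hN E v hE.1
      exact ⟨h6, h7.trans hE.2⟩
  exact ⟨h5.1, by linarith [h5.2]⟩

end

end Pool.Agent.Helper47.RR

end

section

set_option autoImplicit false

set_option linter.style.haveILetI false

namespace Pool.Agent.Helper47.RR

open Pool.Agent.Helper16 Pool.Agent.Helper45.S4

variable {k L : Type} [Field k] [Field L] [Algebra k L]

theorem mul_mem_Ad (hN : IsFunctionField k L) (x : L) {α : Place k L → L} (hα : α ∈ Ad k L) :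
    (fun v => x * α v) ∈ Ad k L := by
  refine ((const_mem_Ad hN x).union hα).subset ?_
  intro v hv
  by_contra hcon
  simp only [Set.mem_union, Set.mem_ofPred_eq, not_or, not_not] at hcon
  apply hv
  change v.val (x * α v) ≤ 1
  rw [map_mul]
  exact mul_le_one' hcon.1 hcon.2

/-- multiplication of pre-adeles by a function -/
noncomputable def mulAd (hN : IsFunctionField k L) (x : L) : Ad k L →ₗ[k] Ad k L where
  toFun α := ⟨fun v => x * (α : Place k L → L) v, mul_mem_Ad hN x α.2⟩
  map_add' a b := Subtype.ext (funext fun v => mul_add _ _ _)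
  map_smul' c a := Subtype.ext (funext fun v => mul_smul_comm _ _ _)

theorem mulAd_apply (hN : IsFunctionField k L) (x : L) (α : Ad k L) (v : Place k L) :
    (mulAd hN x α : Place k L → L) v = x * (α : Place k L → L) v := rfl

/-- the action of functions on Weil differentials -/
noncomputable def act (hN : IsFunctionField k L) (x : L) (ω : Ad k L →ₗ[k] k) : Ad k L →ₗ[k] k :=
  ω.comp (mulAd hN x)

theorem act_apply (hN : IsFunctionField k L) (x : L) (ω : Ad k L →ₗ[k] k) (α : Ad k L) :
    act hN x ω α = ω (mulAd hN x α) := rfl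

theorem act_one (hN : IsFunctionField k L) (ω : Ad k L →ₗ[k] k) : act hN 1 ω = ω := by
  ext α
  rw [act_apply]
  congr 1
  exact Subtype.ext (funext fun v => one_mul _)

theorem act_mul (hN : IsFunctionField k L) (x y : L) (ω : Ad k L →ₗ[k] k) :
    act hN (x * y) ω = act hN x (act hN y ω) := by
  ext α
  rw [act_apply, act_apply, act_apply]
  congr 1
  refine Subtype.ext (funext fun v => ?_)
  rw [mulAd_apply, mulAd_apply, mulAd_apply]
  ring

theorem act_add (hN : IsFunctionField k L) (x y : L) (ω : Ad k L →ₗ[k] k) :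
    act hN (x + y) ω = act hN x ω + act hN y ω := by
  ext α
  rw [LinearMap.add_apply, act_apply, act_apply, act_apply, ← map_add]
  congr 1
  exact Subtype.ext (funext fun v => add_mul _ _ _)

theorem act_smul (hN : IsFunctionField k L) (c : k) (x : L) (ω : Ad k L →ₗ[k] k) :
    act hN (c • x) ω = c • act hN x ω := by
  ext α
  rw [LinearMap.smul_apply, act_apply, act_apply, ← map_smul]
  congr 1
  exact Subtype.ext (funext fun v => smul_mul_assoc _ _ _)

theorem act_zero_right (hN : IsFunctionField k L) (x : L) : act hN x 0 = 0 := rfl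

theorem act_eq_zero (hN : IsFunctionField k L) {x : L} (hx : x ≠ 0) {ω : Ad k L →ₗ[k] k}
    (h : act hN x ω = 0) : ω = 0 := by
  rw [← act_one hN ω, ← inv_mul_cancel₀ hx, act_mul, h, act_zero_right]

theorem act_mem_Om (hN : IsFunctionField k L) {x : L} (hx : x ≠ 0) {D : Dv k L}
    {ω : Ad k L →ₗ[k] k} (hω : ω ∈ Om D) : act hN x ω ∈ Om (D + prin hN x) := by
  refine ⟨fun α hα => hω.1 _ ?_, fun α y hα => hω.2 _ (x * y) fun v => ?_⟩
  · intro v
    rw [mulAd_apply, map_mul]
    have h1 := hα v
    have h0 : v.val x ≠ 0 := by simpa using hx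
    have h2 : v.val x = WithZero.exp (-(v.ord x)) := by
      rw [Place.ord, neg_neg, WithZero.exp_log h0]
    rw [Finsupp.add_apply, prin_apply] at h1
    calc v.val x * v.val ((α : Place k L → L) v)
        ≤ WithZero.exp (-(v.ord x)) * WithZero.exp (D v + v.ord x) := by
          rw [h2]; (clear * - h1; gcongr)
      _ = WithZero.exp (D v) := by
          rw [← WithZero.exp_add]
          congr 1
          ring
  · rw [mulAd_apply, hα v]

theorem act_mem_Om_iff (hN : IsFunctionField k L) {x : L} (hx : x ≠ 0) {D : Dv k L}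
    {ω : Ad k L →ₗ[k] k} : act hN x ω ∈ Om D ↔ ω ∈ Om (D - prin hN x) := by
  constructor
  · intro h
    have h1 := act_mem_Om hN (inv_ne_zero hx) h
    rwa [← act_mul, inv_mul_cancel₀ hx, act_one, prin_inv, ← sub_eq_add_neg] at h1
  · intro h
    have h1 := act_mem_Om hN hx h
    rwa [sub_add_cancel] at h1

theorem act_mem_of_Lsp (hN : IsFunctionField k L) {D B : Dv k L} {ω : Ad k L →ₗ[k] k}
    (hω : ω ∈ Om D) {x : L} (hx : x ∈ Lsp B) : act hN x ω ∈ Om (D - B) := by
  by_cases h0 : x = 0
  · subst h0
    have : act hN 0 ω = 0 := by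
      have h := act_smul hN (0 : k) (1 : L) ω
      rwa [zero_smul, zero_smul] at h
    rw [this]
    exact zero_mem _
  · refine Om_anti ?_ (act_mem_Om hN h0 hω)
    rw [mem_Lsp_iff_prin hN B h0] at hx
    intro v
    have := hx v
    rw [Finsupp.zero_apply, Finsupp.add_apply] at this
    rw [Finsupp.sub_apply, Finsupp.add_apply]
    omega

/-- the action map `L(B) → Ω(D - B)` -/
noncomputable def actMap (hN : IsFunctionField k L) {D : Dv k L} (B : Dv k L)
    {ω : Ad k L →ₗ[k] k} (hω : ω ∈ Om D) : Lsp B →ₗ[k] Om (D - B) where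
  toFun x := ⟨act hN (x : L) ω, act_mem_of_Lsp hN hω x.2⟩
  map_add' x y := Subtype.ext (act_add hN _ _ _)
  map_smul' c x := Subtype.ext (act_smul hN _ _ _)

theorem actMap_injective (hN : IsFunctionField k L) {D : Dv k L} (B : Dv k L)
    {ω : Ad k L →ₗ[k] k} (hω : ω ∈ Om D) (h0 : ω ≠ 0) : Function.Injective (actMap hN B hω) := by
  rw [injective_iff_map_eq_zero]
  intro x hx
  by_contra hne
  have h1 : (x : L) ≠ 0 := fun h => hne (Subtype.ext h)
  exact h0 (act_eq_zero hN h1 (congrArg Subtype.val hx))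

variable [IsAlgClosed k]

/-- The space of Weil differentials is one-dimensional over the function field. -/
theorem exists_act_eq (hN : IsFunctionField k L) {D D' : Dv k L} {ω ω' : Ad k L →ₗ[k] k}
    (hω : ω ∈ Om D) (hω' : ω' ∈ Om D') (h0 : ω ≠ 0) (h0' : ω' ≠ 0) :
    ∃ x : L, x ≠ 0 ∧ ω' = act hN x ω := by
  classical
  -- a common divisor
  have h1 : ω ∈ Om (D ⊓ D') := Om_anti inf_le_left hω
  have h2 : ω' ∈ Om (D ⊓ D') := Om_anti inf_le_right hω'
  set E := D ⊓ D'
  obtain ⟨v⟩ := exists_a_place hN
  set g := genus k L with hg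
  let n : ℤ := |3 * g - 2 - degD E| + |degD E| + 1
  let B : Dv k L := Finsupp.single v n
  have hB : degD B = n := degD_single v n
  have hn1 : 3 * g - 2 - degD E < n := by
    have := le_abs_self (3 * g - 2 - degD E)
    have := abs_nonneg (degD E)
    omega
  have hn2 : degD E < n := by
    have := le_abs_self (degD E)
    have := abs_nonneg (3 * g - 2 - degD E)
    omega
  have h3 : ell (E - B) = 0 := ell_eq_zero hN (by rw [degD_sub, hB]; omega)
  obtain ⟨hfin, h4⟩ := Om_formula hN (E - B)
  haveI := hfin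
  haveI := finite_Lsp hN B
  have h5 := riemann hN B
  have h6 : Module.finrank k (Om (E - B)) < Module.finrank k (Lsp B) + Module.finrank k (Lsp B) := by
    have h7 : ((Module.finrank k (Om (E - B)) : ℕ) : ℤ) <
        ((Module.finrank k (Lsp B) + Module.finrank k (Lsp B) : ℕ) : ℤ) := by
      rw [h4, h3, degD_sub, hB]
      push_cast
      change _ < ell B + ell B
      rw [hB] at h5
      omega
    exact_mod_cast h7
  obtain ⟨x, y, hxy, hfg⟩ := abstract_dim (Om (E - B)) hfin (actMap hN B h1)
    (actMap hN B h2) h6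
  have hfg' : act hN (x : L) ω = act hN (y : L) ω' := congrArg Subtype.val hfg
  have hy : (y : L) ≠ 0 := by
    intro hy0
    have hy1 : y = 0 := Subtype.ext hy0
    have hx1 : x ≠ 0 := by
      rcases hxy with h | h
      · exact h
      · exact absurd hy1 h
    apply hx1
    apply actMap_injective hN B h1 h0
    rw [hfg, hy1, map_zero, map_zero]
  have hx : (x : L) ≠ 0 := by
    intro hx0
    have hx1 : x = 0 := Subtype.ext hx0
    apply hy
    have : y = 0 := by
      apply actMap_injective hN B h2 h0'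
      rw [← hfg, hx1, map_zero, map_zero]
    rw [this]
    rfl
  refine ⟨(y : L)⁻¹ * x, mul_ne_zero (inv_ne_zero hy) hx, ?_⟩
  rw [act_mul, hfg', ← act_mul, inv_mul_cancel₀ hy, RR.act_one]

/-- Weil differentials bounded by a divisor of large degree vanish. -/
theorem exists_Om_eq_bot (hN : IsFunctionField k L) :
    ∃ c : ℤ, ∀ D : Dv k L, c ≤ degD D → Om D = ⊥ := by
  obtain ⟨c, hc⟩ := exists_ell_eq hN
  refine ⟨c, fun D hD => ?_⟩
  obtain ⟨hfin, h1⟩ := Om_formula hN D
  rw [hc D hD] at h1
  have h2 : Module.finrank k (Om D) = 0 := by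
    have : ((Module.finrank k (Om D) : ℕ) : ℤ) = 0 := by rw [h1]; ring
    exact_mod_cast this
  exact Submodule.finrank_eq_zero.1 h2

/-- `W` is the divisor of the Weil differential `ω`. -/
def IsDiv (ω : Ad k L →ₗ[k] k) (W : Dv k L) : Prop := ∀ D : Dv k L, ω ∈ Om D ↔ D ≤ W

theorem exists_isDiv (hN : IsFunctionField k L) {D : Dv k L} {ω : Ad k L →ₗ[k] k}
    (hω : ω ∈ Om D) (h0 : ω ≠ 0) : ∃ W : Dv k L, IsDiv ω W := by
  classical
  obtain ⟨c, hc⟩ := exists_Om_eq_bot hN
  have hbound : ∀ E : Dv k L, ω ∈ Om E → degD E < c := by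
    intro E hE
    by_contra hcon
    rw [not_lt] at hcon
    rw [hc E hcon, Submodule.mem_bot] at hE
    exact h0 hE
  let S : Set ℤ := {n | ∃ E : Dv k L, ω ∈ Om E ∧ degD E = n}
  have hS : BddAbove S := ⟨c, by
    rintro _ ⟨E, hE, rfl⟩
    exact (hbound E hE).le⟩
  have hne : S.Nonempty := ⟨_, D, hω, rfl⟩
  obtain ⟨W, hW, hWd⟩ := Int.csSup_mem hne hS
  refine ⟨W, fun E => ⟨fun hE => ?_, fun hE => Om_anti hE hW⟩⟩
  have h1 := Om_sup hW hE
  have h2 : degD (W ⊔ E) ≤ degD W := by
    rw [hWd]
    exact le_csSup hS ⟨_, h1, rfl⟩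
  have h3 : W = W ⊔ E := eq_of_le_of_degD le_sup_left h2
  rw [h3]
  exact le_sup_right

/-- The duality theorem. -/
theorem finrank_Om_eq (hN : IsFunctionField k L) {W : Dv k L} {ω : Ad k L →ₗ[k] k}
    (h0 : ω ≠ 0) (hW : IsDiv ω W) (D : Dv k L) : (Module.finrank k (Om D) : ℤ) = ell (W - D) := by
  have hω : ω ∈ Om W := (hW W).2 le_rfl
  have hinj := actMap_injective hN (W - D) hω h0
  have hsurj : Function.Surjective (actMap hN (W - D) hω) := by
    rintro ⟨ω', hω'⟩
    by_cases hz : ω' = 0
    · refine ⟨0, ?_⟩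
      rw [map_zero]
      exact Subtype.ext hz.symm
    rw [sub_sub_cancel] at hω'
    obtain ⟨x, hx, hxω⟩ := exists_act_eq hN hω hω' h0 hz
    have h1 : x ∈ Lsp (W - D) := by
      rw [mem_Lsp_iff_prin hN _ hx]
      rw [hxω, act_mem_Om_iff hN hx, hW] at hω'
      intro v
      have := hω' v
      rw [Finsupp.sub_apply] at this
      rw [Finsupp.zero_apply, Finsupp.add_apply, Finsupp.sub_apply]
      omega
    exact ⟨⟨x, h1⟩, Subtype.ext hxω.symm⟩
  have h1 := (LinearEquiv.ofBijective _ ⟨hinj, hsurj⟩).finrank_eq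
  rw [sub_sub_cancel] at h1
  unfold ell
  rw [h1]

theorem exists_ne_zero_Om (hN : IsFunctionField k L) :
    ∃ (D : Dv k L) (ω : Ad k L →ₗ[k] k), ω ∈ Om D ∧ ω ≠ 0 := by
  obtain ⟨v⟩ := exists_a_place hN
  set g := genus k L
  let n : ℤ := |g| + 2
  let D : Dv k L := Finsupp.single v (-n)
  have hD : degD D = -n := degD_single v _
  obtain ⟨hfin, h1⟩ := Om_formula hN D
  have h2 := abs_nonneg g
  have h2' := neg_abs_le g
  have h3 := ell_nonneg D
  have h4 : 0 < (Module.finrank k (Om D) : ℤ) := by
    rw [h1, hD]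
    change 0 < ell D - (-(|g| + 2)) - 1 + g
    omega
  have h5 : 0 < Module.finrank k (Om D) := by exact_mod_cast h4
  have h6 : Om D ≠ ⊥ := by
    intro h
    rw [h, finrank_bot] at h5
    exact lt_irrefl _ h5
  obtain ⟨ω, hω, h0⟩ := (Submodule.ne_bot_iff _).1 h6
  exact ⟨D, ω, hω, h0⟩

/-- **The Riemann-Roch theorem.** -/
theorem riemannRoch_of_isDiv (hN : IsFunctionField k L) {W : Dv k L} {ω : Ad k L →ₗ[k] k}
    (h0 : ω ≠ 0) (hW : IsDiv ω W) (D : Dv k L) :
    ell D = degD D + 1 - genus k L + ell (W - D) := by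
  have h1 := (Om_formula hN D).2
  rw [finrank_Om_eq hN h0 hW D] at h1
  (clear * - h1; linarith)

theorem ell_isDiv (hN : IsFunctionField k L) {W : Dv k L} {ω : Ad k L →ₗ[k] k}
    (h0 : ω ≠ 0) (hW : IsDiv ω W) : ell W = genus k L := by
  have h1 := riemannRoch_of_isDiv hN h0 hW 0
  rw [ell_zero hN, degD_zero, sub_zero] at h1
  (clear * - h1; linarith)

theorem degD_isDiv (hN : IsFunctionField k L) {W : Dv k L} {ω : Ad k L →ₗ[k] k}
    (h0 : ω ≠ 0) (hW : IsDiv ω W) : degD W = 2 * genus k L - 2 := by
  have h1 := riemannRoch_of_isDiv hN h0 hW W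
  rw [sub_self, ell_zero hN, ell_isDiv hN h0 hW] at h1
  (clear * - h1; linarith)

/-- **The Riemann-Roch theorem.** -/
theorem riemannRoch (hN : IsFunctionField k L) : ∃ W : Dv k L, degD W = 2 * genus k L - 2 ∧
    ell W = genus k L ∧ ∀ D : Dv k L, ell D = degD D + 1 - genus k L + ell (W - D) := by
  obtain ⟨D, ω, hω, h0⟩ := exists_ne_zero_Om hN
  obtain ⟨W, hW⟩ := exists_isDiv hN hω h0
  exact ⟨W, degD_isDiv hN h0 hW, ell_isDiv hN h0 hW, riemannRoch_of_isDiv hN h0 hW⟩

/-- For degree `≥ 2g - 1` the dimension is the expected one. -/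
theorem ell_eq_of_large (hN : IsFunctionField k L) (D : Dv k L) (hD : 2 * genus k L - 1 ≤ degD D) :
    ell D = degD D + 1 - genus k L := by
  obtain ⟨W, hW1, -, hW3⟩ := riemannRoch hN
  rw [hW3 D, ell_eq_zero hN (D := W - D) (by rw [degD_sub, hW1]; omega), add_zero]

end Pool.Agent.Helper47.RR

end

section

set_option autoImplicit false

set_option linter.style.haveILetI false

namespace Pool.Agent.Helper31.RRK

open Polynomial IntermediateField Pool.Agent.Helper16 Pool.Agent.Helper33 Pool.Agent.Helper45.FF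

open Pool.Agent.Helper45.S4 Pool.Agent.Helper47.RR

section rational

variable {k L : Type} [Field k] [Field L] [Algebra k L]

/-- The rational function field has genus zero. -/
theorem genus_rational [IsAlgClosed k] (hN : IsFunctionField k L) (t : L) (h : k⟮t⟯ = ⊤) :
    genus k L = 0 := by
  classical
  apply le_antisymm _ (genus_nonneg hN)
  have ht : Transcendental k t := by
    intro hal
    have h1 : Algebra.IsAlgebraic k k⟮t⟯ :=
      IntermediateField.isAlgebraic_adjoin_simple hal.isIntegral
    rw [h] at h1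
    haveI : Algebra.IsAlgebraic k L :=
      (IntermediateField.topEquiv (F := k) (E := L)).isAlgebraic_iff.1 h1
    have h2 := hN.2
    rw [trdeg_eq_zero (R := k) (A := L)] at h2
    exact zero_ne_one h2
  have ht0 := transcendental_ne_zero ht
  obtain ⟨S, hS, hsum, -⟩ := hN.zeros t⁻¹ (transcendental_inv ht)
  have hs0 : t⁻¹ ≠ 0 := inv_ne_zero ht0
  have hfin : Module.finrank k⟮t⁻¹⟯ L = 1 := by
    rw [finrank_inv, h]
    exact IntermediateField.finrank_top
  simp only [deg_eq_one hN, hfin, Nat.cast_one, mul_one] at hsum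
  have hpos : ∀ v ∈ S, 1 ≤ v.ord t⁻¹ := by
    intro v hv
    have := (v.ord_pos_iff hs0).2 ((hS v).1 hv)
    omega
  obtain ⟨v0, hv0⟩ : S.Nonempty := by
    rw [Finset.nonempty_iff_ne_empty]
    rintro rfl
    simp at hsum
  have hone : v0.ord t⁻¹ = 1 := by
    have h1 : v0.ord t⁻¹ ≤ ∑ v ∈ S, v.ord t⁻¹ :=
      Finset.single_le_sum (f := fun v : Place k L => v.ord t⁻¹)
        (fun w hw => (zero_le_one).trans (hpos w hw)) hv0
    have := hpos v0 hv0
    omega
  have huniq : ∀ v ∈ S, v = v0 := by
    intro v hv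
    by_contra hne
    have h1 : v.ord t⁻¹ + v0.ord t⁻¹ ≤ ∑ v ∈ S, v.ord t⁻¹ := by
      rw [← Finset.sum_pair (f := fun v : Place k L => v.ord t⁻¹) hne]
      apply Finset.sum_le_sum_of_subset_of_nonneg
      · intro u hu
        rw [Finset.mem_insert, Finset.mem_singleton] at hu
        rcases hu with rfl | rfl
        · exact hv
        · exact hv0
      · intro u hu _
        exact (zero_le_one).trans (hpos u hu)
    have := hpos v hv
    omega
  have hvt : ∀ v : Place k L, v ≠ v0 → v.val t ≤ 1 := by
    intro v hv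
    by_contra hcon
    rw [not_le] at hcon
    apply hv
    apply huniq
    rw [hS, map_inv₀]
    exact inv_lt_one_of_one_lt₀ hcon
  have hv0t : v0.val t = WithZero.exp (1 : ℤ) := by
    have h1 : v0.ord t = -1 := by
      have := v0.ord_inv t
      omega
    rw [val_eq_exp_of_ord ht0 h1, neg_neg]
  obtain ⟨n, hn⟩ : ∃ n : ℕ, 2 * genus k L - 1 ≤ n := ⟨(2 * genus k L - 1).toNat, Int.self_le_toNat _⟩
  let A : Dv k L := Finsupp.single v0 (n : ℤ)
  have hA : degD A = n := degD_single v0 _
  have hell := ell_eq_of_large hN A (by rw [hA]; exact hn)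
  rw [hA] at hell
  have hmem : ∀ i : Fin (n + 1), t ^ (i : ℕ) ∈ Lsp A := by
    intro i
    rw [mem_Lsp]
    intro v
    by_cases hv : v = v0
    · subst hv
      simp only [A, Finsupp.single_eq_same]
      rw [map_pow, hv0t, ← WithZero.exp_nsmul, WithZero.exp_le_exp]
      have := i.2
      simp only [nsmul_eq_mul, mul_one]
      omega
    · simp only [A]
      rw [Finsupp.single_eq_of_ne hv, WithZero.exp_zero, map_pow]
      exact pow_le_one' (hvt v hv) _
  have hli : LinearIndependent k (fun i : Fin (n + 1) => (⟨t ^ (i : ℕ), hmem i⟩ : Lsp A)) := by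
    apply LinearIndependent.of_comp (Lsp A).subtype
    rw [transcendental_iff_injective] at ht
    have h2 := (Polynomial.basisMonomials k).linearIndependent.map'
      (aeval t : k[X] →ₐ[k] L).toLinearMap (LinearMap.ker_eq_bot.2 ht)
    have h0 : (⇑(aeval t : k[X] →ₐ[k] L).toLinearMap ∘ ⇑(basisMonomials k)) =
        fun i : ℕ => t ^ i := by
      funext i
      simp
    rw [h0] at h2
    exact h2.comp _ Fin.val_injective
  haveI := finite_Lsp hN A
  have hcard := hli.fintype_card_le_finrank
  rw [Fintype.card_fin] at hcard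
  have h3 : ((n + 1 : ℕ) : ℤ) ≤ ell A := by
    unfold ell
    exact_mod_cast hcard
  push_cast at h3
  omega

end rational

end Pool.Agent.Helper31.RRK

end

section

set_option autoImplicit false

set_option linter.style.haveILetI false

namespace Pool.Agent.Helper47.EN

open Pool.Agent.Helper16 Pool.Agent.Helper45.S4 Pool.Agent.Helper47.RR

variable {k L M N : Type} [Field k] [Field L] [Field M] [Field N] [Algebra k L] [Algebra k M]
  [Algebra k N]

/-- The group of principal divisors. -/
noncomputable def PrinSub (hM : IsFunctionField k M) : AddSubgroup (Dv k M) where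
  carrier := {D | ∃ f : M, f ≠ 0 ∧ D = prin hM f}
  add_mem' := by
    rintro _ _ ⟨f, hf, rfl⟩ ⟨g, hg, rfl⟩
    exact ⟨f * g, mul_ne_zero hf hg, (prin_mul hM hf hg).symm⟩
  zero_mem' := ⟨1, one_ne_zero, by
    ext v
    change 0 = v.ord (1 : M)
    rw [Place.ord_one]⟩
  neg_mem' := by
    rintro _ ⟨f, hf, rfl⟩
    exact ⟨f⁻¹, inv_ne_zero hf, (prin_inv hM f).symm⟩

theorem mem_PrinSub (hM : IsFunctionField k M) (D : Dv k M) :
    D ∈ PrinSub hM ↔ ∃ f : M, f ≠ 0 ∧ D = prin hM f := Iff.rfl

/-- The divisor class group. -/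
abbrev Cl (hM : IsFunctionField k M) : Type := Dv k M ⧸ PrinSub hM

/-- The class of a divisor. -/
noncomputable def cl (hM : IsFunctionField k M) : Dv k M →+ Cl hM :=
  QuotientAddGroup.mk' (PrinSub hM)

/-- The class of a place. -/
noncomputable def pt (hM : IsFunctionField k M) (P : Place k M) : Cl hM :=
  cl hM (Finsupp.single P 1)

end Pool.Agent.Helper47.EN

end

section

set_option autoImplicit false

namespace Pool.Agent.Helper84.RRE

open Pool.Agent.Helper16 Pool.Agent.Helper45.FF Pool.Agent.Helper47.RR IntermediateField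

variable {k L : Type} [Field k] [Field L] [Algebra k L]

/-- The degree of `L` over `k(f)` is at most the degree of any effective divisor bounding the poles
of `f`. -/
theorem finrank_adjoin_le [IsAlgClosed k] (hN : IsFunctionField k L) {f : L}
    (hf : Transcendental k f) {D : Dv k L} (hD : f ∈ Lsp D) (hD0 : ∀ v, 0 ≤ D v) :
    (Module.finrank k⟮f⟯ L : ℤ) ≤ degD D := by
  obtain ⟨S, hS, hsum, -⟩ := hN.zeros f⁻¹ (transcendental_inv hf)
  rw [finrank_inv] at hsum
  rw [← hsum]
  have hf0 : f ≠ 0 := transcendental_ne_zero hf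
  have h1 : ∀ v ∈ S, v.ord f⁻¹ * (v.deg : ℤ) ≤ D v ∧ 0 < v.ord f⁻¹ := by
    intro v hv
    rw [deg_eq_one hN v, Nat.cast_one, mul_one]
    rw [hS, ← v.ord_pos_iff (inv_ne_zero hf0)] at hv
    refine ⟨?_, hv⟩
    rw [v.ord_inv, Place.ord, neg_neg]
    have h2 := (mem_Lsp D f).1 hD v
    have h3 : v.val f ≠ 0 := by
      rw [Ne, v.val.zero_iff]
      exact hf0
    have h4 := (WithZero.log_le_log h3 WithZero.exp_ne_zero).2 h2
    rwa [WithZero.log_exp] at h4
  have hsub : S ⊆ D.support := by
    intro v hv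
    rw [Finsupp.mem_support_iff]
    have h2 := h1 v hv
    rw [deg_eq_one hN v, Nat.cast_one, mul_one] at h2
    omega
  unfold degD Finsupp.sum
  calc ∑ v ∈ S, v.ord f⁻¹ * (v.deg : ℤ) ≤ ∑ v ∈ S, D v := Finset.sum_le_sum fun v hv => (h1 v hv).1
    _ ≤ ∑ v ∈ D.support, D v :=
        Finset.sum_le_sum_of_subset_of_nonneg hsub fun v _ _ => hD0 v

/-- In genus one, `dim L(D) = deg D` for divisors of positive degree. -/
theorem genus_one_ell [IsAlgClosed k] (hN : IsFunctionField k L) (hg : genus k L = 1) {D : Dv k L}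
    (hD : 1 ≤ degD D) : ell D = degD D := by
  rw [ell_eq_of_large hN D (by rw [hg]; omega), hg]
  ring

end Pool.Agent.Helper84.RRE

end

section

set_option autoImplicit false

set_option linter.style.haveILetI false

namespace Pool.Agent.Helper84.EN

open Pool.Agent.Helper16 Pool.Agent.Helper45.FF Pool.Agent.Helper45.S4 Pool.Agent.Helper47.RR

open Pool.Agent.Helper47.EN Pool.Agent.Helper84.RRE IntermediateField Pool.Agent.Helper31.RRK

variable {k M : Type} [Field k] [Field M] [Algebra k M]

/-- In genus one there is a separable function of degree two with a double pole at a given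
place. -/
theorem exists_deg_two [IsAlgClosed k] (hM : IsFunctionField k M) (hg : genus k M = 1)
    (O : Place k M) : ∃ u : M, Transcendental k u ∧ Module.finrank k⟮u⟯ M = 2 ∧
      Algebra.IsSeparable k⟮u⟯ M ∧ u ∈ Lsp (Finsupp.single O 2 : Dv k M) := by
  have h1 := genus_one_ell hM hg (D := Finsupp.single O 2) (by rw [degD_single]; norm_num)
  rw [degD_single] at h1
  obtain ⟨u, hu, hc⟩ : ∃ u ∈ Lsp (Finsupp.single O 2 : Dv k M), ∀ c : k, algebraMap k M c ≠ u := by
    by_contra hcon
    push Not at hcon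
    have := finrank_le_one_of_const _ hcon
    unfold ell at h1
    omega
  have htr := transcendental_of_not_const hc
  have hle := finrank_adjoin_le hM htr hu (by
    intro w
    classical
    rw [Finsupp.single_apply]
    split_ifs <;> norm_num)
  rw [degD_single] at hle
  obtain ⟨-, -, -, hpos⟩ := hM.zeros u htr
  have h2 : Module.finrank k⟮u⟯ M = 2 := by
    have hne : Module.finrank k⟮u⟯ M ≠ 1 := by
      intro h
      have := genus_rational hM u (IntermediateField.finrank_eq_one_iff_eq_top.1 h)
      omega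
    omega
  haveI : FiniteDimensional k⟮u⟯ M := finiteDimensional_adjoin hM u htr
  have hE : IsFunctionField k k⟮u⟯ := isFunctionField_adjoin hM u htr
  refine ⟨u, htr, h2, ?_, hu⟩
  have hsimple := IntermediateField.isSimpleOrder_of_finrank_prime k⟮u⟯ M (h2 ▸ Nat.prime_two)
  rcases hsimple.eq_bot_or_eq_top (separableClosure k⟮u⟯ M) with h | h
  · exfalso
    haveI := (separableClosure.eq_bot_iff).1 h
    have h3 := genus_eq_of_isPurelyInseparable hM k⟮u⟯
    have h4 : genus k k⟮u⟯ = 0 := by
      refine genus_rational hE (AdjoinSimple.gen k u) ?_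
      apply IntermediateField.lift_injective
      rw [IntermediateField.lift_adjoin_simple, IntermediateField.lift_top]
      rfl
    omega
  · exact (separableClosure.eq_top_iff _ _).1 h

end Pool.Agent.Helper84.EN

end

section

set_option autoImplicit false

open Finset Polynomial

namespace Pool.Agent.Helper33.PT

open Pool.Agent.Helper33.UB Pool.Agent.Helper51.RatTree Pool.Agent.Helper55.RD
  Pool.Agent.Helper93.RatODE Pool.Agent.Helper45.FR Pool.Agent.Helper33.PS

section inst

variable {k K V : Type} [Field k] [Field K] [Algebra k K] {P : PSys k K V}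
  {F G : K[X]} {x : ℕ → K} {N d : ℕ}

lemma radm_mono {X : Finset K} {T T' : Finset V} (h : RAdm P F G d X T) (hT : T ⊆ T') :
    RAdm P F G d X T' :=
  ⟨fun v hv => h.e v fun h' => hv (hT h'), fun v hv => h.res v fun h' => hv (hT h'),
    fun v hv => h.G0 v fun h' => hv (hT h'), fun v hv => h.diff v fun h' => hv (hT h')⟩

end inst

end Pool.Agent.Helper33.PT

end
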