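import Pool.Agent.Helper23.MB.L02_ab0
import Pool.Agent.Helper23.MB.L02_ab1
import Pool.Agent.Helper23.MB.L02_ab3
import Pool.Agent.Helper23.MB.L02_ab4
import Pool.Agent.Helper23.MB.L02_ab5
import Pool.Agent.Helper23.MB.L02_ab6
import Pool.Agent.Helper23.MB.L02_ab7

/-!
Parts of Helper33.PS.Heights, Helper45.GalW3, Helper33.PS.Mods, Helper33.PS.Fix, Helper33.PS.BlockDir, Helper33.PS.Main, Helper45.M8Main, Helper33.PS.SUBP, Helper98.PT.Win, Helper33.PT.Mods
-/

attribute [-simp] Valuation.IsUniformizer.val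
attribute [local instance 5000]
  Pool.Agent.Helper23.MB.Inst.rCharZero Pool.Agent.Helper23.MB.Inst.rALM
  Pool.Agent.Helper23.MB.Inst.rARM Pool.Agent.Helper23.MB.Inst.rALSM
  Pool.Agent.Helper23.MB.Inst.rARSM Pool.Agent.Helper23.MB.Inst.rARRLE
  Pool.Agent.Helper23.MB.Inst.rALRLE Pool.Agent.Helper23.MB.Inst.rARRLT
  Pool.Agent.Helper23.MB.Inst.rALRLT Pool.Agent.Helper23.MB.Inst.rPMRLT
  Pool.Agent.Helper23.MB.Inst.rMPRLT Pool.Agent.Helper23.MB.Inst.rPMM
  Pool.Agent.Helper23.MB.Inst.rMPM Pool.Agent.Helper23.MB.Inst.rPMSM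
  Pool.Agent.Helper23.MB.Inst.rMPSM Pool.Agent.Helper23.MB.Inst.rEAOL
  Pool.Agent.Helper23.MB.Inst.rIOR Pool.Agent.Helper23.MB.Inst.rISOR
  Pool.Agent.Helper23.MB.Inst.rNZD Pool.Agent.Helper23.MB.Inst.zCharZero
  Pool.Agent.Helper23.MB.Inst.zALM Pool.Agent.Helper23.MB.Inst.zARM
  Pool.Agent.Helper23.MB.Inst.zIOR Pool.Agent.Helper23.MB.Inst.zISOR
  Pool.Agent.Helper23.MB.Inst.zNZD Pool.Agent.Helper23.MB.Inst.qCharZero
  Pool.Agent.Helper23.MB.Inst.free Pool.Agent.Helper23.MB.Inst.faith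
  Pool.Agent.Helper23.MB.Inst.torsionFree Pool.Agent.Helper23.MB.Inst.rfFaith
  Pool.Agent.Helper23.MB.Inst.hAdd Pool.Agent.Helper23.MB.Inst.hAddM
  Pool.Agent.Helper23.MB.Inst.hMul Pool.Agent.Helper23.MB.Inst.hMon
  Pool.Agent.Helper23.MB.Inst.hZero Pool.Agent.Helper23.MB.Inst.hOne
  Pool.Agent.Helper23.MB.Inst.hMZ Pool.Agent.Helper23.MB.Inst.hRing
  Pool.Agent.Helper23.MB.Inst.aAdd Pool.Agent.Helper23.MB.Inst.aAddM
  Pool.Agent.Helper23.MB.Inst.aMul Pool.Agent.Helper23.MB.Inst.aMon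
  Pool.Agent.Helper23.MB.Inst.aZero Pool.Agent.Helper23.MB.Inst.aOne
  Pool.Agent.Helper23.MB.Inst.aMZ Pool.Agent.Helper23.MB.Inst.aRing

namespace Pool.Agent.Helper16
end Pool.Agent.Helper16
namespace Pool.Agent.Helper33
end Pool.Agent.Helper33
namespace Pool.Agent.Helper33.PS
end Pool.Agent.Helper33.PS
namespace Pool.Agent.Helper33.PT
end Pool.Agent.Helper33.PT
namespace Pool.Agent.Helper33.UB
end Pool.Agent.Helper33.UB
namespace Pool.Agent.Helper45.FF
end Pool.Agent.Helper45.FF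
namespace Pool.Agent.Helper45.FR
end Pool.Agent.Helper45.FR
namespace Pool.Agent.Helper45.M8
end Pool.Agent.Helper45.M8
namespace Pool.Agent.Helper45.S4
end Pool.Agent.Helper45.S4
namespace Pool.Agent.Helper45.S6
end Pool.Agent.Helper45.S6
namespace Pool.Agent.Helper51.RatTree
end Pool.Agent.Helper51.RatTree
namespace Pool.Agent.Helper55.RD
end Pool.Agent.Helper55.RD
namespace Pool.Agent.Helper93.RatODE
end Pool.Agent.Helper93.RatODE

section

set_option autoImplicit false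

open Finset Polynomial

namespace Pool.Agent.Helper33.PS

open Pool.Agent.Helper33.UB

section inst

variable {k K V : Type*} [Field k] [Field K] [Algebra k K] [DecidableEq K] {P : PSys k K V}
  {c : GConst} {N : ℕ} {M : ℝ} (I : GInst P c N M)

/-- height of a cross ratio of orbit points -/
theorem ht_cr_le {α β γ j : ℕ} (hα : α ≤ N) (hβ : β ≤ N) (hγ : γ ≤ N) (hj : j ≤ N) (hαγ : α ≠ γ)
    (hβγ : β ≠ γ) (hjβ : j ≠ β) :
    (ht P (cr (I.x α) (I.x β) (I.x γ) (I.x j)) : ℝ) ≤ 4 * c.C1 * I.h := by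
  have hC1 := c.hC1
  have hh := I.h_nonneg
  by_cases hjα : j = α
  · have : cr (I.x α) (I.x β) (I.x γ) (I.x j) = 0 := by
      unfold cr
      rw [hjα, sub_self, zero_mul, zero_div]
    rw [this]
    have h0 : ht P (0 : K) = 0 := by
      rw [ht_eq_sum P 0 ∅ fun v _ => neg_zero _, sum_empty]
    rw [h0]
    push_cast
    positivity
  have hne : ∀ a b, a ≤ N → b ≤ N → a ≠ b → I.x a - I.x b ≠ 0 := fun a b ha hb hab =>
    sub_ne_zero.mpr fun e => hab (I.inj a b ha hb e)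
  have n1 := hne j α hj hα hjα
  have n2 := hne γ β hγ hβ hβγ.symm
  have n3 := hne j β hj hβ hjβ
  have n4 := hne γ α hγ hα hαγ.symm
  have ho : ∀ v, (P.pl v).o (cr (I.x α) (I.x β) (I.x γ) (I.x j)) =
      (P.pl v).o (I.x j - I.x α) + (P.pl v).o (I.x γ - I.x β) -
        ((P.pl v).o (I.x j - I.x β) + (P.pl v).o (I.x γ - I.x α)) := by
    intro v
    unfold cr
    rw [DV.o_div _ _ _ (mul_ne_zero n1 n2) (mul_ne_zero n3 n4), (P.pl v).mul _ _ n1 n2,
      (P.pl v).mul _ _ n3 n4]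
  have hcr : cr (I.x α) (I.x β) (I.x γ) (I.x j) ≠ 0 :=
    div_ne_zero (mul_ne_zero n1 n2) (mul_ne_zero n3 n4)
  rw [ht_eq_sum P _ I.T (by
    intro v hv
    rw [neg_of_ne _ hcr, ho v, I.Tx v hv j α hj hα hjα, I.Tx v hv γ β hγ hβ hβγ.symm,
      I.Tx v hv j β hj hβ hjβ, I.Tx v hv γ α hγ hα hαγ.symm]
    norm_num)]
  push_cast
  have key : ∀ v ∈ I.T, (neg (P.pl v) (cr (I.x α) (I.x β) (I.x γ) (I.x j)) : ℝ) ≤
      max 0 (I.g v j β) + max 0 (I.g v γ α) + 2 * c.C1 * I.ε v := by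
    intro v hv
    have l1 := I.lower v hv j α hj hα hjα
    have l2 := I.lower v hv γ β hγ hβ hβγ.symm
    have hε := I.ε_nonneg v hv
    have m1 := le_max_left 0 (I.g v j β)
    have m2 := le_max_right 0 (I.g v j β)
    have m3 := le_max_left 0 (I.g v γ α)
    have m4 := le_max_right 0 (I.g v γ α)
    rw [neg_of_ne _ hcr, ho v]
    push_cast
    apply max_le
    · positivity
    · unfold GInst.g at m2 m4 ⊢
      linarith
  calc ∑ v ∈ I.T, (neg (P.pl v) (cr (I.x α) (I.x β) (I.x γ) (I.x j)) : ℝ)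
      ≤ ∑ v ∈ I.T, (max 0 (I.g v j β) + max 0 (I.g v γ α) + 2 * c.C1 * I.ε v) := sum_le_sum key
    _ = ∑ v ∈ I.T, max 0 (I.g v j β) + ∑ v ∈ I.T, max 0 (I.g v γ α) + 2 * c.C1 * I.h := by
        rw [sum_add_distrib, sum_add_distrib, ← mul_sum]; rfl
    _ ≤ c.C1 * I.h + c.C1 * I.h + 2 * c.C1 * I.h := by
        have h1 := I.sum_g_pos hj hβ hjβ
        have h2 := I.sum_g_pos hγ hα hαγ.symm
        linarith
    _ = 4 * c.C1 * I.h := by ring

end inst

end Pool.Agent.Helper33.PS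

end

section

set_option autoImplicit false

set_option linter.style.haveILetI false

set_option linter.unusedSectionVars false

namespace Pool.Agent.Helper45.GW

open Polynomial IntermediateField Pool.Agent.Helper16 Pool.Agent.Helper33
  Pool.Agent.Helper33.PS Pool.Agent.Helper33.PT
  Pool.Agent.Helper45.FF Pool.Agent.Helper45.S4 Pool.Agent.Helper45.M8

section psys

variable {k L : Type} [Field k] [Field L] [Algebra k L]

theorem psys_hB {P : PSys k L (Place k L)} {D : Derivation k L L} (hP1 : ∀ x, P.D x = D x)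
    (hP2 : ∀ v, P.pl v = plDV v) (v : Place k L) (x : L) (hx : v.val x ≤ 1) :
    v.val (D x) ≤ WithZero.exp (P.e v : ℤ) := by
  by_cases hDx : D x = 0
  · rw [hDx, map_zero]; exact zero_le
  · have hx0 : x ≠ 0 := by rintro rfl; exact hDx (map_zero D)
    rw [val_le_exp_iff v _ hDx]
    have := P.ord_D' v x hx0 (by rw [hP1]; exact hDx) (by
      rw [hP2]; exact (v.ord_nonneg_iff hx0).2 hx)
    rw [hP1, hP2] at this
    exact this

end psys

end Pool.Agent.Helper45.GW

end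

section

set_option autoImplicit false

open Finset Polynomial

namespace Pool.Agent.Helper33.PS

open Pool.Agent.Helper45.FR Pool.Agent.Helper33.UB Pool.Agent.Helper51.RatTree Pool.Agent.Helper93.RatODE

theorem exists_coord {k K V : Type} [Field k] [Infinite k] [Field K] [Algebra k K] (P : PSys k K V)
    (hres : ∀ v, ResK k (P.pl v)) {d : ℕ} {F G : K[X]} (hFG : IsRat F G d) {x : ℕ → K} {N : ℕ}
    (hx : RatOrbit F G x N) (𝒥 : Finset ℕ) {α β γ : ℕ} (hα : α ∈ 𝒥) (hβ : β ∈ 𝒥) (hγ : γ ∈ 𝒥)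
    (hαβ : α ≠ β) (hαγ : α ≠ γ) (hβγ : β ≠ γ) (h𝒥 : ∀ j ∈ 𝒥, j ≤ N) (S : Finset V)
    (hS : ∀ v ∈ S, ∃ ζ : PV (P.pl v), ∀ i ∈ 𝒥, ∀ j ∈ 𝒥, i ≠ j → ζ.dir (x i) ≠ ζ.dir (x j)) :
    ∃ (F' G' : K[X]) (z : ℕ → K) (a b c e : K), a * e - b * c ≠ 0 ∧ (∀ j, c * x j + e ≠ 0) ∧
      (∀ j, z j = (a * x j + b) / (c * x j + e)) ∧
      IsRat F' G' d ∧ RatOrbit F' G' z N ∧
      (∃ c₁ : k, algebraMap k K c₁ = z α) ∧ (∃ c₂ : k, algebraMap k K c₂ = z β) ∧
      (∃ c₃ : k, algebraMap k K c₃ = z γ) ∧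
      (∀ v ∈ S, ∀ j, (P.pl v).ge 0 (z j)) ∧
      (∀ v ∈ S, ∀ i ∈ 𝒥, ∀ j ∈ 𝒥, i ≠ j → (P.pl v).o (z i - z j) = 0) ∧
      ∀ j, x j ≠ x β → ht P (z j) ≤ ht P (cr (x α) (x β) (x γ) (x j)) :=
  Pool.Agent.Helper35.PS.exists_coord P hres hFG hx 𝒥 hα hβ hγ hαβ hαγ hβγ h𝒥 S hS

end Pool.Agent.Helper33.PS

end

section

set_option autoImplicit false

open Finset Polynomial

namespace Pool.Agent.Helper33.PS

open Pool.Agent.Helper33.UB

theorem fix_of_places (d n : ℕ) (hd : 2 ≤ d) (c : ℝ) (hc : 0 < c) : ∃ l₀ nw₀ : ℕ,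
    ∀ {k K E V W : Type} [Field k] [IsAlgClosed k] [CharZero k] [Field K] [Field E] [Algebra k K]
    [Algebra k E] [Algebra K E] [IsScalarTower k K E] (P : PSys k K V) (Q : PSys k E W)
    (hP : ∀ v, ResK k (P.pl v)) (hQ : ∀ w, ResK k (Q.pl w)) (gs : GalSys P Q n) (F G : K[X])
    (hFG : IsRat F G d) (z : ℕ → K) (hz : ∀ j, G.eval (z j) ≠ 0 ∧ z (j + 1) = F.eval (z j) / G.eval (z j))
    (i nw : ℕ) (hnw : nw₀ ≤ nw) (H : ℝ) (hH : ∀ j ≤ nw, (ht P (z (i + j)) : ℝ) ≤ H)
    (S : Finset V) (hS1 : 1 ≤ S.card) (hcH : c * H ≤ S.card) (hSe : ∀ v ∈ S, 1 ≤ P.e v)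
    (hSg : ∀ v ∈ S, IsGood (P.pl v) d F G) (hint : ∀ v ∈ S, ∀ j, (P.pl v).ge 0 (z j))
    (hdist : ∀ v ∈ S, ∀ a ≤ nw, ∀ b ≤ nw, a ≠ b →
      z (i + a) ≠ z (i + b) ∧ (P.pl v).o (z (i + a) - z (i + b)) = 0)
    (a₁ a₂ a₃ : ℕ) (h12 : a₁ ≠ a₂) (h13 : a₁ ≠ a₃) (h23 : a₂ ≠ a₃) (hl₁ : l₀ ≤ a₁) (hl₂ : l₀ ≤ a₂)
    (hl₃ : l₀ ≤ a₃) (hu₁ : a₁ ≤ nw) (hu₂ : a₂ ≤ nw) (hu₃ : a₃ ≤ nw)
    (c₁ : ∃ t : k, algebraMap k K t = z (i + a₁)) (c₂ : ∃ t : k, algebraMap k K t = z (i + a₂))
    (c₃ : ∃ t : k, algebraMap k K t = z (i + a₃)),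
    ∃ σ ∈ gs.G, (∃ y : K, σ (algebraMap K E y) ≠ algebraMap K E y) ∧
      ∀ j, i + l₀ ≤ j → σ (algebraMap K E (z j)) = algebraMap K E (z j) := by
  classical
  set n' : ℕ := max n 1 with hn'
  have hn'1 : 1 ≤ n' := le_max_right _ _
  obtain ⟨m, n₀, hM5⟩ := interp d hd (c / (n' * n')) (by positivity)
  obtain ⟨l₀, n₁, hM6⟩ := rigidity d m hd
  refine ⟨l₀, n₀ + n₁ + m + l₀ + 2 * d + 2, ?_⟩
  intro k K E V W _ _ _ _ _ _ _ _ _ P Q hP hQ gs F G hFG z hz i nw hnw H hH S hS1 hcH hSe hSg hint hdist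
    a₁ a₂ a₃ h12 h13 h23 hl₁ hl₂ hl₃ hu₁ hu₂ hu₃ c₁ c₂ c₃
  -- choice of places and automorphisms
  have hram : ∀ v : S, ∃ w, gs.res w = v ∧ ∃ σ ∈ gs.G, gs.act σ w = w ∧
      ∃ y : K, σ (algebraMap K E y) ≠ algebraMap K E y := fun v => gs.ramified v (hSe v v.2)
  choose wv hres sg hsgG hact hne using hram
  -- pigeonhole
  have hG0 : gs.G.Nonempty := by
    obtain ⟨v, hv⟩ := card_pos.mp (by omega : 0 < S.card)
    exact ⟨_, hsgG ⟨v, hv⟩⟩
  have hn1 : 1 ≤ n := (card_pos.mpr hG0).trans_le gs.card_G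
  have hnn : n' = n := max_eq_left hn1
  obtain ⟨σ, hσ, hcard⟩ : ∃ σ ∈ gs.G, S.card ≤ n * ((S.attach).filter fun v => sg v = σ).card := by
    by_contra hcon
    push Not at hcon
    have h1 : (S.attach).card = ∑ σ ∈ gs.G, ((S.attach).filter fun v => sg v = σ).card :=
      card_eq_sum_card_fiberwise fun v _ => hsgG v
    have h2 : n * (S.attach).card < gs.G.card * S.card := by
      rw [h1, mul_sum, ← smul_eq_mul, ← sum_const]
      exact sum_lt_sum_of_nonempty hG0 fun σ hσ => hcon σ hσ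
    rw [card_attach] at h2
    exact absurd (Nat.mul_le_mul_right _ gs.card_G) (not_le.mpr h2)
  set Sσ := (S.attach).filter fun v => sg v = σ with hSσ
  set S' : Finset W := Sσ.image wv with hS'
  have hwinj : ∀ v v' : S, wv v = wv v' → v = v' := by
    intro v v' e
    apply Subtype.ext
    rw [← hres v, ← hres v', e]
  have hS'card : S'.card = Sσ.card := card_image_of_injective _ fun v v' e => hwinj v v' e
  have hSσ1 : 1 ≤ Sσ.card := by
    by_contra h
    have h0 : Sσ.card = 0 := by omega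
    rw [h0, mul_zero] at hcard
    omega
  obtain ⟨v₀, hv₀⟩ := card_pos.mp (by omega : 0 < Sσ.card)
  have hv₀σ : sg v₀ = σ := (mem_filter.mp hv₀).2
  -- the two orbits
  set φ : K →+* E := algebraMap K E with hφ
  set ψ : K →+* E := (σ : E →+* E).comp (algebraMap K E) with hψ
  have hfixk : ∀ t : k, ψ (algebraMap k K t) = φ (algebraMap k K t) := by
    intro t
    change σ (algebraMap K E (algebraMap k K t)) = algebraMap K E (algebraMap k K t)
    rw [← IsScalarTower.algebraMap_apply, AlgEquiv.commutes]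
  have horb : Orb F G (fun j => z (i + j)) nw := ⟨fun j _ => (hz _).1, fun j _ => (hz _).2⟩
  have hF1 := hFG.map φ
  have hF2 := hFG.map ψ
  have horb1 := horb.map φ
  have horb2 := horb.map ψ
  have hres0 := resultant_ne_zero_of_isRat (by omega : 1 ≤ d) hFG
  -- local data at the places of S'
  have hloc : ∀ w ∈ S', ∃ v : V, v ∈ S ∧ Nonempty (VHom φ (P.pl v) (Q.pl w)) ∧
      Nonempty (VHom ψ (P.pl v) (Q.pl w)) := by
    intro w hw
    obtain ⟨v, hv, rfl⟩ := mem_image.mp hw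
    have hvσ : sg v = σ := (mem_filter.mp hv).2
    refine ⟨v, v.2, ?_, ?_⟩
    · have := vhomMap gs (wv v)
      rw [hres v] at this
      exact ⟨this⟩
    · have h1 := hact v
      rw [hvσ] at h1
      have := vhomConj gs hσ h1
      rw [hres v] at this
      exact ⟨this⟩
  have hcong : ∀ w ∈ S', ∀ j, (Q.pl w).ge 0 (φ (z j)) ∧ (Q.pl w).ge 0 (ψ (z j)) ∧
      (Q.pl w).ge 1 (ψ (z j) - φ (z j)) := by
    intro w hw j
    obtain ⟨v, hv, ⟨hφw⟩, ⟨hψw⟩⟩ := hloc w hw
    refine ⟨hφw.ge_zero (hint v hv j), hψw.ge_zero (hint v hv j), ?_⟩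
    obtain ⟨t, ht⟩ := (hP v).res (z j) (hint v hv j)
    have e : ψ (z j) - φ (z j) = ψ (z j - algebraMap k K t) - φ (z j - algebraMap k K t) := by
      rw [map_sub, map_sub, hfixk]
      ring
    rw [e]
    exact DV.ge_sub (hψw.ge_one ht) (hφw.ge_one ht)
  -- heights
  have hH0 : 0 ≤ H := le_trans (by exact_mod_cast ht_nonneg P _) (hH 0 (Nat.zero_le _))
  have hh1 : ∀ j ≤ nw, (ht Q (φ (z (i + j))) : ℝ) ≤ n' * H := by
    intro j hj
    have h1 : ht Q (φ (z (i + j))) ≤ n * ht P (z (i + j)) := ht_map_le gs _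
    have h2 : (ht Q (φ (z (i + j))) : ℝ) ≤ n * ht P (z (i + j)) := by exact_mod_cast h1
    rw [hnn]
    exact h2.trans (mul_le_mul_of_nonneg_left (hH j hj) (Nat.cast_nonneg _))
  have hh2 : ∀ j ≤ nw, (ht Q (ψ (z (i + j))) : ℝ) ≤ n' * H := by
    intro j hj
    have h1 : ht Q (ψ (z (i + j))) = ht Q (φ (z (i + j))) := ht_conj gs hσ _
    rw [h1]
    exact hh1 j hj
  -- M5
  obtain ⟨p, hp0, hpd1, hpd2, hp⟩ := hM5 Q (F.map φ) (G.map φ) (F.map ψ) (G.map ψ) hF1 hF2 nw (by omega)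
    (fun j => φ (z (i + j))) (fun j => ψ (z (i + j))) horb1 horb2 (n' * H) hh1 hh2 S' (by omega) (by
      rw [hS'card]
      have h1 : (S.card : ℝ) ≤ n' * Sσ.card := by rw [hnn]; exact_mod_cast hcard
      have h2 : c * H ≤ n' * Sσ.card := hcH.trans h1
      have h3 : (0 : ℝ) < n' := by exact_mod_cast hn'1
      have e : c / (n' * n') * (n' * H) = c * H / n' := by
        (clear * - hn'1 hc; field_simp)
      rw [e, div_le_iff₀ h3]
      (clear * - hcH h1; linarith)) (by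
      intro w hw
      obtain ⟨v, hv, ⟨hφw⟩, ⟨hψw⟩⟩ := hloc w hw
      exact ⟨hφw.isGood hres0 (hSg v hv), hψw.isGood hres0 (hSg v hv)⟩) (by
      intro w hw j _
      exact hcong w hw (i + j))
  -- M6 at one place
  set w₀ := wv v₀ with hw₀
  have hw₀S : w₀ ∈ S' := mem_image_of_mem _ hv₀
  obtain ⟨v₁, hv₁, ⟨hφw⟩, ⟨hψw⟩⟩ := hloc w₀ hw₀S
  have hconst : ∀ a, (∃ t : k, algebraMap k K t = z (i + a)) → φ (z (i + a)) = ψ (z (i + a)) := by
    rintro a ⟨t, ht⟩
    rw [← ht, hfixk]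
  have hfix := hM6 (Q.pl w₀) (hQ w₀) (F.map φ) (G.map φ) (F.map ψ) (G.map ψ) hF1 hF2
    (hφw.isGood hres0 (hSg v₁ hv₁)) (hψw.isGood hres0 (hSg v₁ hv₁)) nw (nw - m) (by omega) (by (clear * - n hd hnw a₁ a₂ a₃ wv sg σ p; omega))
    (fun j => φ (z (i + j))) (fun j => ψ (z (i + j))) horb1 horb2 (fun j _ => hcong w₀ hw₀S (i + j)) (by
      intro a ha b hb hab
      obtain ⟨h1, h2⟩ := hdist v₁ hv₁ a ha b hb hab
      refine ⟨fun e => h1 (φ.injective e), ?_⟩
      rw [← map_sub]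
      exact hφw.o_zero (sub_ne_zero.mpr h1) h2) p hp0 hpd1 hpd2 (fun j hj => hp j (by omega))
    a₁ a₂ a₃ h12 h13 h23 hl₁ hl₂ hl₃ hu₁ hu₂ hu₃ (hconst _ c₁) (hconst _ c₂) (hconst _ c₃)
  -- the two maps agree
  have hinj : ∀ a ≤ nw, ∀ b ≤ nw, z (i + a) = z (i + b) → a = b := by
    intro a ha b hb e
    by_contra hab
    exact (hdist v₁ hv₁ a ha b hb hab).1 e
  have hagree : F.map ψ * G.map φ = F.map φ * G.map ψ := by
    apply cross_eq_zero_of_agree hF1 hF2 ((Finset.Icc l₀ (nw - 1)).image fun j => φ (z (i + j)))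
    · rw [card_image_of_injOn, Nat.card_Icc]
      · omega
      · intro a ha b hb e
        rw [mem_coe, mem_Icc] at ha hb
        exact hinj a (by omega) b (by omega) (φ.injective e)
    · intro y hy
      obtain ⟨j, hj, rfl⟩ := mem_image.mp hy
      rw [mem_Icc] at hj
      have h1 := hfix j hj.1 (by omega)
      have h2 := hfix (j + 1) (by omega) (by omega)
      change φ (z (i + j)) = ψ (z (i + j)) at h1
      change φ (z (i + (j + 1))) = ψ (z (i + (j + 1))) at h2
      have s1 : φ (z (i + (j + 1))) = (F.map φ).eval (φ (z (i + j))) / (G.map φ).eval (φ (z (i + j))) :=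
        horb1.step j (by omega)
      have s2 : ψ (z (i + (j + 1))) = (F.map ψ).eval (ψ (z (i + j))) / (G.map ψ).eval (ψ (z (i + j))) :=
        horb2.step j (by omega)
      have n1 : (G.map φ).eval (φ (z (i + j))) ≠ 0 := horb1.ne j (by omega)
      have n2 : (G.map ψ).eval (ψ (z (i + j))) ≠ 0 := horb2.ne j (by omega)
      refine ⟨n1, by rw [h1]; exact n2, ?_⟩
      rw [← s1, h2, s2, ← h1]
  have hall : ∀ j, ψ (z (i + l₀ + j)) = φ (z (i + l₀ + j)) := by
    intro j
    induction j with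
    | zero => exact (hfix l₀ le_rfl (by omega)).symm
    | succ j ih =>
      have s0 := hz (i + l₀ + j)
      have s1 : φ (z (i + l₀ + (j + 1))) = (F.map φ).eval (φ (z (i + l₀ + j))) /
          (G.map φ).eval (φ (z (i + l₀ + j))) := by
        rw [← add_assoc, s0.2, map_div₀, eval_map, eval_map, eval₂_at_apply, eval₂_at_apply]
      have s2 : ψ (z (i + l₀ + (j + 1))) = (F.map ψ).eval (ψ (z (i + l₀ + j))) /
          (G.map ψ).eval (ψ (z (i + l₀ + j))) := by
        rw [← add_assoc, s0.2, map_div₀, eval_map, eval_map, eval₂_at_apply, eval₂_at_apply]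
      have n1 : (G.map φ).eval (φ (z (i + l₀ + j))) ≠ 0 := by
        rw [eval_map, eval₂_at_apply, Ne, map_eq_zero]
        exact s0.1
      have n2 : (G.map ψ).eval (ψ (z (i + l₀ + j))) ≠ 0 := by
        rw [eval_map, eval₂_at_apply, Ne, map_eq_zero]
        exact s0.1
      rw [s1, s2, ih]
      rw [ih] at n2
      rw [div_eq_div_iff n2 n1, ← eval_mul, ← eval_mul, hagree]
  refine ⟨σ, hσ, ?_, ?_⟩
  · have := hne v₀
    rwa [hv₀σ] at this
  · intro j hj
    have := hall (j - (i + l₀))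
    rw [show i + l₀ + (j - (i + l₀)) = j by omega] at this
    exact this

end Pool.Agent.Helper33.PS

end

section

set_option autoImplicit false

open Finset Polynomial

namespace Pool.Agent.Helper33.PS

open Pool.Agent.Helper33.UB Pool.Agent.Helper51.RatTree Pool.Agent.Helper55.RD
  Pool.Agent.Helper93.RatODE Pool.Agent.Helper45.FR

variable {k K V : Type} [Field k] [Field K] [Algebra k K] {P : PSys k K V}
  {F G : K[X]} {x : ℕ → K} {N d : ℕ} [DecidableEq K]

theorem exists_dir (h : RatOrbit F G x N) (hd : 2 ≤ d) (hcop : IsCoprime F G)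
    (hF : F.natDegree ≤ d) (hG : G.natDegree ≤ d) (htop : F.coeff d ≠ 0 ∨ G.coeff d ≠ 0)
    (hres : resultant F G d d ≠ 0) (M : ℝ) (T : Finset V) (hT : RAdm P F G d (rX h) T)
    (hker : ∀ y, P.D y = 0 → ∃ c : k, algebraMap k K c = y)
    (hconst : ∀ v, ∀ c : k, c ≠ 0 → (P.pl v).o (algebraMap k K c) = 0)
    {v : V} {i J N' : ℕ} (hJ : 1 ≤ J) (hle : i + N' * J ≤ N)
    (hst : (∃ ζ : (ratInst h hd hcop hF hG htop hres M T hT hker hconst).Vx v,
        ∀ l l', l < l' → l' ≤ N' →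
        ((ratInst h hd hcop hF hG htop hres M T hT hker hconst).S v).dir ζ (i + l * J) ≠
        ((ratInst h hd hcop hF hG htop hres M T hT hker hconst).S v).dir ζ (i + l' * J)) ∨
      ((ratInst h hd hcop hF hG htop hres M T hT hker hconst).ε v = 0 ∧
        ∀ l l', l < l' → l' ≤ N' →
        (ratInst h hd hcop hF hG htop hres M T hT hker hconst).g v (i + l * J) (i + l' * J) <
          (ratConst d hd).c1)) :
    ∃ ζ : Pool.Agent.Helper33.UB.PV (P.pl v), ∀ l l', l ≤ N' → l' ≤ N' → l ≠ l' →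
      ζ.dir (x (i + l * J)) ≠ ζ.dir (x (i + l' * J)) := by
  rcases hst with ⟨ζ, hζ⟩ | ⟨hε, hg⟩
  · refine ⟨ζ, ?_⟩
    intro l l' hl hl' hne
    rcases lt_or_gt_of_ne hne with hlt | hlt
    · exact hζ l l' hlt hl'
    · exact (hζ l' l hlt hl).symm
  · have hε0 : (rloc hd (P.pl v) hF hG hres h).ε = 0 := by
      change ((rloc hd (P.pl v) hF hG hres h).ε : ℝ) = 0 at hε
      exact_mod_cast hε
    have hidx : ∀ l, l ≤ N' → i + l * J ≤ N := fun l hl =>
      le_trans (by gcongr) hle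
    have hinj : ∀ l l', l ≤ N' → l' ≤ N' → l ≠ l' → x (i + l * J) ≠ x (i + l' * J) := by
      intro l l' hl hl' hne e
      have := h.inj _ _ (hidx l hl) (hidx l' hl') e
      have h2 : l * J = l' * J := by omega
      exact hne (Nat.eq_of_mul_eq_mul_right (by omega) h2)
    refine ⟨PV.mk (P.pl v) (rloc hd (P.pl v) hF hG hres h).a (rloc hd (P.pl v) hF hG hres h).r, ?_⟩
    have key : ∀ l l', l < l' → l' ≤ N' → ¬ 1 ≤ gp (P.pl v) (rloc hd (P.pl v) hF hG hres h).a
        (rloc hd (P.pl v) hF hG hres h).r (x (i + l * J)) (x (i + l' * J)) := by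
      intro l l' hl hl' h1
      have h2 := hg l l' hl hl'
      have hne := hinj l l' (by omega) hl' (by omega)
      have h3 := (abs_le.mp ((rloc hd (P.pl v) hF hG hres h).close _ (mem_rX h (i + l * J)) _
        (mem_rX h (i + l' * J)) hne)).1
      have h4 : (1 : ℝ) ≤ gp (P.pl v) (rloc hd (P.pl v) hF hG hres h).a
        (rloc hd (P.pl v) hF hG hres h).r (x (i + l * J)) (x (i + l' * J)) := by exact_mod_cast h1
      rw [hε0] at h3
      unfold gg at h3
      have h5 : ((P.pl v).o (x (i + l * J) - x (i + l' * J)) : ℝ) +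
          (-ratH (P.pl v) d F G (x (i + l * J)) +
            (P.pl v).o (resultant F G d d) / (d * (d - 1)) / 2) +
          (-ratH (P.pl v) d F G (x (i + l' * J)) +
            (P.pl v).o (resultant F G d d) / (d * (d - 1)) / 2) < 1 := h2
      push_cast at h3
      linarith
    intro l l' hl hl' hne hdir
    have hgp := (dir_eq_iff_gp (hinj l l' hl hl' hne)).mp hdir
    rcases lt_or_gt_of_ne hne with hlt | hlt
    · exact key l l' hlt hl' (by unfold gp; omega)
    · refine key l' l hlt hl ?_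
      unfold gp
      rw [(P.pl v).o_sub_comm]
      omega

end Pool.Agent.Helper33.PS

end

section

set_option autoImplicit false

open Finset Polynomial

namespace Pool.Agent.Helper33.PS

open Pool.Agent.Helper33.UB Pool.Agent.Helper51.RatTree Pool.Agent.Helper55.RD
  Pool.Agent.Helper93.RatODE Pool.Agent.Helper45.FR

/-- **Plan S, abstract form.** -/
theorem absS (d n : ℕ) (hd : 2 ≤ d) : ∃ N : ℕ,
    ∀ {k K E V W : Type} [Field k] [IsAlgClosed k] [CharZero k] [Field K] [Field E] [Algebra k K]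
    [Algebra k E] [Algebra K E] [IsScalarTower k K E] (P : PSys k K V) (Q : PSys k E W)
    (_ : ∀ v, ResK k (P.pl v)) (_ : ∀ w, ResK k (Q.pl w))
    (_ : ∀ y, P.D y = 0 → ∃ c : k, algebraMap k K c = y) (gs : GalSys P Q n) (F G : K[X])
    (_ : IsRat F G d) (x : ℕ → K) (_ : RatOrbit F G x N)
    (_ : ∀ σ ∈ gs.G, (∀ i j l m, N ≤ i → N ≤ j → N ≤ l → N ≤ m →
      σ (algebraMap K E (cr (x i) (x j) (x l) (x m))) = algebraMap K E (cr (x i) (x j) (x l) (x m))) →
      ∀ y : K, σ (algebraMap K E y) = algebraMap K E y), ConstConj k F G d := by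
  classical
  set c0 : ℝ := (ratConst d hd).c0 with hc0def
  have hc0 : 0 < c0 := (ratConst d hd).hc0
  set n' : ℕ := max n 1 with hn'
  have hn'1 : (1 : ℝ) ≤ n' := by exact_mod_cast le_max_right n 1
  have hn'0 : (0 : ℝ) < n' := by (clear * - hn'1; linarith)
  obtain ⟨l₀, nw₀, hfix⟩ := fix_of_places d n hd (c0 / (128 * n')) (by positivity)
  set κE : ℝ := c0 / (512 * n') with hκE
  have hκE0 : 0 < κE := by positivity
  -- energy constants
  have hE : ∀ J : ℕ, ∃ nE : ℕ, 1 ≤ J → ∀ {k K V : Type} [Field k] [Field K] [Algebra k K]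
      (P : PSys k K V) (A B : K[X]),
      IsRat A B (d ^ J) → ∀ z : ℕ → K, Orb A B z nE → (∀ i ≤ nE, ∀ j ≤ nE, z i = z j → i = j) →
      ∀ H : ℝ, (∀ i ≤ nE, (ht P (z i) : ℝ) ≤ H) →
      ∀ S : Finset V, (∀ v ∈ S, ∀ i ≤ nE, (P.pl v).ge 0 (z i)) →
      (∀ v ∈ S, ∀ i ≤ nE, ∀ j ≤ nE, i ≠ j → (P.pl v).o (z i - z j) = 0) →
      (∀ v ∈ S, ¬ IsGood (P.pl v) (d ^ J) A B) → (S.card : ℝ) ≤ κE * H := by
    intro J
    by_cases hJ : 1 ≤ J
    · obtain ⟨nE, h⟩ := energy (d ^ J) (hd.trans (Nat.le_self_pow (by omega) d)) κE hκE0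
      exact ⟨nE, fun _ => h⟩
    · exact ⟨0, fun h => absurd h hJ⟩
  choose nE hnE using hE
  set nw : ℕ → ℕ := fun J => nw₀ + (l₀ + 2) * J with hnw
  set Fn : ℕ → ℕ := fun J => 2 * nw J + 2 + nE J + l₀ + 3 with hFn
  set κ₀ : ℝ := c0 / (128 * n') with hκ₀
  have hκ₀0 : 0 < κ₀ := by positivity
  set M : ℝ := 1 / κ₀ + 640 * n' with hM
  have hM0 : 0 < M := by positivity
  obtain ⟨N₁, hsel⟩ := selection (ratConst d hd) M hM0 κ₀ hκ₀0 Fn
  refine ⟨max N₁ (2 * d + 1), ?_⟩
  set N := max N₁ (2 * d + 1) with hN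
  intro k K E V W _ _ _ _ _ _ _ _ _ P Q hP hQ hker gs F G hFG x hxN hgen
  have hx : RatOrbit F G x N₁ := ⟨hxN.ne, hxN.step, fun i j hi hj =>
    hxN.inj i j (hi.trans (le_max_left _ _)) (hj.trans (le_max_left _ _)), hxN.fin⟩
  have hcop := hFG.cop
  have hF := hFG.dA
  have hG := hFG.dB
  have htop := hFG.top
  have hres : resultant F G d d ≠ 0 := resultant_ne_zero_of_isRat (by omega) hFG
  obtain ⟨T, hT⟩ := exists_radm P (d := d) hres (rX hx) (fun y hy => (rX_spec hx y hy).1)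
  have hconst := fun v (c : k) (hc : c ≠ 0) => (hP v).const c hc
  set I := ratInst (P := P) hx hd hcop hF hG htop hres M T hT hker hconst with hIdef
  by_cases hh0 : I.h ≤ 0
  · -- the constant case
    exact conj_of_h hxN hd hFG (le_max_right _ _)
      (ratInst (P := P) hxN hd hcop hF hG htop hres M T hT hker hconst) rfl
      (le_antisymm hh0 I.h_nonneg)
  exfalso
  push Not at hh0
  obtain ⟨B⟩ := (hsel P I).resolve_left (not_le.mpr hh0)
  set J := B.J with hJdef
  set N' := B.N' with hN'def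
  set i := B.i with hidef
  have hJ : 1 ≤ J := B.hJ
  have hN' : Fn J ≤ N' := B.hN'
  have hFnJ : Fn J = 2 * nw J + 2 + nE J + l₀ + 3 := rfl
  have hnwJ : nw J = nw₀ + (l₀ + 2) * J := rfl
  have hle : i + N' * J ≤ N₁ := B.le
  have hidx : ∀ l, l ≤ N' → i + l * J ≤ N₁ := fun l hl => le_trans (by (clear * - hl; gcongr)) hle
  -- estimates
  set h := I.h with hh
  set E' : ℝ := (P.E : ℝ) with hE'
  have hloss : (B.Loss.card : ℝ) ≤ c0 * h / (64 * n') := by
    have h1 := B.loss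
    have h2 : h / M ≤ κ₀ * h := by
      rw [div_le_iff₀ hM0]
      have : 1 ≤ κ₀ * M := by
        rw [hM, mul_add, mul_one_div_cancel hκ₀0.ne']
        have : 0 ≤ κ₀ * (640 * n') := by (clear * - hc0; positivity)
        (clear * - this; linarith)
      (clear * - hh0 this; nlinarith)
    have h3 : κ₀ * h + κ₀ * h = c0 * h / (64 * n') := by
      rw [hκ₀]; field_simp; ring
    (clear * - h1 h2 h3; linarith)
  have ham : c0 / 2 * h + M / 10 * B.Hg.card ≤ 2 * (B.Loss.card + E') := B.am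
  have hq : c0 * h / (64 * n') ≤ c0 * h / 64 := by
    apply div_le_div_of_nonneg_left (by positivity) (by norm_num)
    (clear * - hn'1; linarith)
  have hHg0 : (0 : ℝ) ≤ B.Hg.card := Nat.cast_nonneg _
  have hE5 : c0 * h ≤ 5 * E' := by
    have : 0 ≤ M / 10 * (B.Hg.card : ℝ) := by (clear * - hc0; positivity)
    (clear * - hloss ham hq this; linarith)
  have hE0 : 0 < E' := by
    have : 0 < c0 * h := by positivity
    (clear * - hE5 this; linarith)
  have hHg : (B.Hg.card : ℝ) ≤ E' / (16 * n') := by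
    have h1 : M / 10 * (B.Hg.card : ℝ) ≤ 3 * E' := by
      have : 0 ≤ c0 / 2 * h := by (clear * - hc0 hh0; positivity)
      (clear * - hloss ham hq hE0; linarith)
    have h2 : 64 * n' * (B.Hg.card : ℝ) ≤ M / 10 * B.Hg.card := by
      apply mul_le_mul_of_nonneg_right _ hHg0
      rw [hM]
      have : 0 < 1 / κ₀ := by positivity
      (clear * - this; linarith)
    rw [le_div_iff₀ (by positivity)]
    (clear * - hloss ham hq hE0 h2; linarith)
  have hLoss : (B.Loss.card : ℝ) ≤ 5 * E' / (64 * n') := by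
    refine hloss.trans ?_
    (clear * - hE5; gcongr)
  -- the places
  set S₀ := T.filter fun v => v ∉ B.Hg ∧ v ∉ B.Loss with hS₀
  have hdir : ∀ v ∈ S₀, ∃ ζ : Pool.Agent.Helper33.UB.PV (P.pl v), ∀ l l', l ≤ N' → l' ≤ N' → l ≠ l' →
      ζ.dir (x (i + l * J)) ≠ ζ.dir (x (i + l' * J)) := by
    intro v hv
    obtain ⟨hvT, hv1, hv2⟩ := mem_filter.mp hv
    exact exists_dir hx hd hcop hF hG htop hres M T hT hker hconst hJ hle (B.star v hvT hv1 hv2)
  -- coordinates
  set 𝒥 : Finset ℕ := (range (N' + 1)).image fun l => i + l * J with h𝒥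
  have hmem : ∀ l, l ≤ N' → i + l * J ∈ 𝒥 := fun l hl =>
    mem_image_of_mem _ (mem_range.mpr (by omega))
  have hJne : ∀ l l', l ≠ l' → i + l * J ≠ i + l' * J := by
    intro l l' hne e
    exact hne (Nat.eq_of_mul_eq_mul_right (by omega : 0 < J) (by omega))
  obtain ⟨F', G', z, a, b, c, e, hdet, hden, hzx, hFG', hzN, hcα, hcβ, hcγ, hzint, hzdist, hht⟩ :=
    exists_coord P hP hFG hx 𝒥 (hmem l₀ (by omega)) (hmem (l₀ + 1) (by omega))
      (hmem (l₀ + 2) (by omega)) (hJne _ _ (by omega)) (hJne _ _ (by omega)) (hJne _ _ (by omega))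
      (by
        intro j hj
        obtain ⟨l, hl, rfl⟩ := mem_image.mp hj
        exact hidx l (by have := mem_range.mp hl; omega)) S₀ (by
        intro v hv
        obtain ⟨ζ, hζ⟩ := hdir v hv
        refine ⟨ζ, ?_⟩
        intro j hj j' hj' hne
        obtain ⟨l, hl, rfl⟩ := mem_image.mp hj
        obtain ⟨l', hl', rfl⟩ := mem_image.mp hj'
        exact hζ l l' (by have := mem_range.mp hl; omega) (by have := mem_range.mp hl'; omega)
          (fun e => hne (by rw [e])))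
  -- heights
  have hheight : ∀ j ≤ N₁, (ht P (z j) : ℝ) ≤ 8 * h := by
    intro j hj
    by_cases hjβ : j = i + (l₀ + 1) * J
    · obtain ⟨t, ht'⟩ := hcβ
      rw [hjβ, ← ht', ht_const P (fun v c hc => hconst v c hc)]
      push_cast
      (clear * - hh0; positivity)
    · have hne : x j ≠ x (i + (l₀ + 1) * J) := fun e =>
        hjβ (hx.inj _ _ hj (hidx _ (by omega)) e)
      have h1 := hht j hne
      have h2 := ht_cr_le I (hidx l₀ (by omega)) (hidx (l₀ + 1) (by omega)) (hidx (l₀ + 2) (by omega)) hj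
        (hJne _ _ (by omega)) (hJne _ _ (by omega)) hjβ
      have h3 : (ht P (z j) : ℝ) ≤ ht P (cr (x (i + l₀ * J)) (x (i + (l₀ + 1) * J))
        (x (i + (l₀ + 2) * J)) (x j)) := by exact_mod_cast h1
      have h4 : 4 * (ratConst d hd).C1 * I.h = 8 * h := by
        change 4 * (2 : ℝ) * h = 8 * h
        ring
      rw [h4] at h2
      exact h3.trans h2
  -- the iterate
  obtain ⟨U, W', hUW, hU, hW, hUWtop, -, hit⟩ := exists_iterate hFG'.cop hFG'.dA hFG'.dB (by
      rcases hmax_of_top hFG'.dA hFG'.dB hFG'.top with h3 | h3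
      · have := hFG'.dB; omega
      · have := hFG'.dA; omega) (by omega : 1 ≤ d) J
  have hRat : IsRat U W' (d ^ J) := ⟨hUW, hU, hW, hUWtop⟩
  set Sbad := S₀.filter fun v => ¬ IsGood (P.pl v) (d ^ J) U W' with hSbad
  have hstep := hit z
  have hit1 : ∀ l, W'.eval (z (i + l * J)) ≠ 0 ∧
      U.eval (z (i + l * J)) / W'.eval (z (i + l * J)) = z (i + (l + 1) * J) := by
    intro l
    have h1 := hstep (i + l * J) (fun j _ => ⟨hzN.ne _, hzN.step _⟩)
    rw [show i + (l + 1) * J = i + l * J + J by ring]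
    exact h1
  have hbad : (Sbad.card : ℝ) ≤ κE * (8 * h) := by
    apply hnE J hJ P U W' hRat (fun l => z (i + l * J))
      ⟨fun l _ => (hit1 l).1, fun l _ => ((hit1 l).2).symm⟩
    · intro l hl l' hl' e
      by_contra hne
      exact hJne l l' hne (hzN.inj _ _ (hidx l (by omega)) (hidx l' (by omega)) e)
    · intro l hl
      exact hheight _ (hidx l (by omega))
    · intro v hv l _
      exact hzint v (mem_filter.mp hv).1 _
    · intro v hv l hl l' hl' hne
      exact hzdist v (mem_filter.mp hv).1 _ (hmem l (by omega)) _ (hmem l' (by omega)) (hJne l l' hne)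
    · intro v hv
      exact (mem_filter.mp hv).2
  have hbad' : (Sbad.card : ℝ) ≤ 5 * E' / (64 * n') := by
    refine hbad.trans ?_
    have : κE * (8 * h) = c0 * h / (64 * n') := by
      rw [hκE]; field_simp; ring
    rw [this]
    (clear * - hE5; gcongr)
  -- the ramified places
  set R := T.filter fun v => 1 ≤ P.e v with hR
  set S₁ := R.filter fun v => v ∈ S₀ ∧ v ∉ Sbad with hS₁
  have hRcard : E' ≤ n' * R.card := by
    have h1 : P.E = ∑ v ∈ R, P.e v := by
      unfold PSys.E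
      apply sum_congr _ fun _ _ => rfl
      ext v
      rw [Set.Finite.mem_toFinset, hR, mem_filter, Set.mem_ofPred_eq]
      constructor
      · intro hv
        refine ⟨?_, by omega⟩
        by_contra hvT
        exact hv (hT.e v hvT)
      · rintro ⟨_, hv⟩
        omega
    have h2 : ∑ v ∈ R, P.e v ≤ R.card * n := by
      rw [← smul_eq_mul, ← sum_const]
      exact sum_le_sum fun v _ => gs.e_le v
    have h3 : (P.E : ℝ) ≤ R.card * n := by rw [h1]; exact_mod_cast h2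
    have h4 : (n : ℝ) ≤ n' := by exact_mod_cast le_max_left n 1
    calc E' ≤ R.card * n := h3
      _ ≤ R.card * n' := mul_le_mul_of_nonneg_left h4 (Nat.cast_nonneg _)
      _ = n' * R.card := mul_comm _ _
  have hcover : R.card ≤ S₁.card + (B.Hg.card + B.Loss.card + Sbad.card) := by
    have h1 : R ⊆ S₁ ∪ ((B.Hg ∪ B.Loss) ∪ Sbad) := by
      intro v hv
      by_cases h2 : v ∈ S₁
      · exact mem_union_left _ h2
      apply mem_union_right
      by_contra h3
      rw [mem_union, mem_union, not_or, not_or] at h3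
      apply h2
      refine mem_filter.mpr ⟨hv, mem_filter.mpr ⟨(mem_filter.mp hv).1, h3.1.1, h3.1.2⟩, h3.2⟩
    refine (card_le_card h1).trans ((card_union_le _ _).trans ?_)
    have h4 := card_union_le (B.Hg ∪ B.Loss) Sbad
    have h5 := card_union_le B.Hg B.Loss
    omega
  have hS₁ge : 3 * E' / (4 * n') ≤ S₁.card := by
    have h1 : (R.card : ℝ) ≤ S₁.card + (B.Hg.card + B.Loss.card + Sbad.card) := by
      exact_mod_cast hcover
    have h2 : E' / n' ≤ R.card := by
      rw [div_le_iff₀ hn'0, mul_comm]; exact hRcard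
    have h3 : E' / n' - (E' / (16 * n') + 5 * E' / (64 * n') + 5 * E' / (64 * n')) ≤ S₁.card := by
      (clear * - hHg hLoss hbad' h1 h2; linarith)
    have h4 : E' / n' - (E' / (16 * n') + 5 * E' / (64 * n') + 5 * E' / (64 * n')) =
        25 * E' / (32 * n') := by
      field_simp; ring
    have h5 : 3 * E' / (4 * n') ≤ 25 * E' / (32 * n') := by
      rw [div_le_div_iff₀ (by (clear * -; positivity)) (by (clear * -; positivity))]
      (clear * - hE0 hn'0; nlinarith [mul_pos hE0 hn'0])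
    (clear * - hHg hLoss hbad' h1 h2 h4 h5; linarith)
  have hS₁1 : 1 ≤ S₁.card := by
    have h1 : (0 : ℝ) < S₁.card := lt_of_lt_of_le (by (clear * - hE0; positivity)) hS₁ge
    exact_mod_cast h1
  -- good reduction
  have hgood : ∀ v ∈ S₁, IsGood (P.pl v) d F' G' := by
    intro v hv
    obtain ⟨hv1, hv2, hv3⟩ := mem_filter.mp hv
    have h1 : IsGood (P.pl v) (d ^ J) U W' := by
      by_contra h
      exact hv3 (mem_filter.mpr ⟨hv2, h⟩)
    refine isGood_of_iterate (P.pl v) (hP v) hd hJ hFG' hRat ?_ h1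
    intro y hy
    have h2 := hit y 0 (fun j hj => by
      rw [zero_add]
      exact ⟨hy.ne j hj, hy.step j hj⟩)
    rw [zero_add] at h2
    exact h2
  -- the window
  have hwin : ∀ v ∈ S₁, ∀ a ≤ nw J, ∀ b ≤ nw J, a ≠ b →
      z (i + a) ≠ z (i + b) ∧ (P.pl v).o (z (i + a) - z (i + b)) = 0 := by
    intro v hv
    obtain ⟨hv1, hv2, hv3⟩ := mem_filter.mp hv
    exact window_distinct (P.pl v) (by omega : 1 ≤ d) hFG' (hgood v hv) (z := fun j => z (i + j))
      (n := N' * J) (J := J) (N' := N') hJ le_rfl ⟨fun j _ => hzN.ne _, fun j _ => hzN.step _⟩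
      (fun j _ => hzint v hv2 _) (by
        intro l hl l' hl' hne
        refine ⟨fun e => hJne l l' hne (hzN.inj _ _ (hidx l hl) (hidx l' hl') e), ?_⟩
        exact hzdist v hv2 _ (hmem l hl) _ (hmem l' hl') (hJne l l' hne)) (by omega)
  have hlJ : ∀ q, l₀ ≤ q → l₀ ≤ q * J := fun q hq => hq.trans (Nat.le_mul_of_pos_right _ (by omega))
  have huJ : ∀ q, q ≤ l₀ + 2 → q * J ≤ nw J := fun q hq => by
    have : q * J ≤ (l₀ + 2) * J := Nat.mul_le_mul_right _ hq
    omega
  have hqne : ∀ q q', q ≠ q' → q * J ≠ q' * J := fun q q' hne e =>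
    hne (Nat.eq_of_mul_eq_mul_right (by omega : 0 < J) e)
  obtain ⟨σ, hσ, ⟨y, hy⟩, hfixz⟩ := hfix P Q hP hQ gs F' G' hFG' z (fun j => ⟨hzN.ne j, hzN.step j⟩)
    i (nw J) (by omega) (8 * h) (fun j hj => hheight _ (by
      have h1 : nw J ≤ N' * J := by
        have : nw J ≤ N' := by omega
        exact this.trans (Nat.le_mul_of_pos_right _ (by omega))
      omega)) S₁ hS₁1 (by
      refine le_trans ?_ hS₁ge
      have h1 : c0 / (128 * n') * (8 * h) = c0 * h / (16 * n') := by field_simp; ring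
      rw [h1]
      calc c0 * h / (16 * n') ≤ 5 * E' / (16 * n') := by (clear * - hE5; gcongr)
        _ ≤ 3 * E' / (4 * n') := by
          rw [div_le_div_iff₀ (by (clear * -; positivity)) (by (clear * -; positivity))]
          (clear * - hE0 hn'0; nlinarith [mul_pos hE0 hn'0])) (fun v hv => (mem_filter.mp (mem_filter.mp hv).1).2) hgood
      (fun v hv j => hzint v (mem_filter.mp hv).2.1 j) hwin
      (l₀ * J) ((l₀ + 1) * J) ((l₀ + 2) * J) (hqne _ _ (by omega)) (hqne _ _ (by omega))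
      (hqne _ _ (by omega)) (hlJ _ le_rfl) (hlJ _ (by omega)) (hlJ _ (by omega)) (huJ _ (by omega))
      (huJ _ (by omega)) (huJ _ le_rfl) hcα hcβ hcγ
  apply hy
  apply hgen σ hσ
  intro i₁ i₂ i₃ i₄ h1 h2 h3 h4
  have hilN : i + l₀ ≤ N := by
    have h5 : i + l₀ ≤ N₁ := by
      have h6 : l₀ ≤ N' * J := by
        have : l₀ ≤ N' := by omega
        exact this.trans (Nat.le_mul_of_pos_right _ (by omega))
      omega
    exact h5.trans (le_max_left _ _)
  have hcr := cr_mobius hdet ![x i₁, x i₂, x i₃, x i₄] ![z i₁, z i₂, z i₃, z i₄]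
    (by
      intro q
      fin_cases q
      · exact hden i₁
      · exact hden i₂
      · exact hden i₃
      · exact hden i₄) (by
      intro q
      fin_cases q
      · exact hzx i₁
      · exact hzx i₂
      · exact hzx i₃
      · exact hzx i₄)
  change cr (z i₁) (z i₂) (z i₃) (z i₄) = cr (x i₁) (x i₂) (x i₃) (x i₄) at hcr
  rw [← hcr]
  have f1 := hfixz i₁ (by omega)
  have f2 := hfixz i₂ (by omega)
  have f3 := hfixz i₃ (by omega)
  have f4 := hfixz i₄ (by omega)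
  unfold cr
  simp only [map_div₀, map_mul, map_sub, f1, f2, f3, f4]

end Pool.Agent.Helper33.PS

end

section

set_option autoImplicit false

set_option linter.style.haveILetI false

namespace Pool.Agent.Helper45.M8

open Polynomial IntermediateField Pool.Agent.Helper16 Pool.Agent.Helper33 Pool.Agent.Helper33.PS
  Pool.Agent.Helper45.FF Pool.Agent.Helper45.S4 Pool.Agent.Helper45.FR Pool.Agent.Helper45.S6

/-- **The abstract theorem of Plan S** (to be proved by helper33). -/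
def PlanSAbs (d n : ℕ) : Prop :=
  ∃ N : ℕ, ∀ (k K E V W : Type) [Field k] [IsAlgClosed k] [CharZero k] [Field K] [Field E]
    [Algebra k K] [Algebra k E] [Algebra K E] [IsScalarTower k K E] (P : PSys k K V)
    (Q : PSys k E W), (∀ v, ResK k (P.pl v)) → (∀ w, ResK k (Q.pl w)) →
    (∀ x, P.D x = 0 → ∃ c : k, algebraMap k K c = x) →
    ∀ gs : GalSys P Q n, ∀ F G : K[X], IsRat F G d → ∀ x : ℕ → K, RatOrbit F G x N →
    (∀ σ ∈ gs.G, (∀ i j l m, N ≤ i → N ≤ j → N ≤ l → N ≤ m →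
        σ (algebraMap K E (crr (x i) (x j) (x l) (x m))) =
          algebraMap K E (crr (x i) (x j) (x l) (x m))) →
      ∀ y : K, σ (algebraMap K E y) = algebraMap K E y) →
    ConstConj k F G d

end Pool.Agent.Helper45.M8

end

section

set_option autoImplicit false

open Polynomial

namespace Pool.Agent.Helper33.PS

open Pool.Agent.Helper45.M8 Pool.Agent.Helper45.S6 Pool.Agent.Helper45.FR

theorem planSAbs (d n : ℕ) (hd : 2 ≤ d) : PlanSAbs d n := by
  obtain ⟨N, hN⟩ := absS d n hd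
  refine ⟨N, ?_⟩
  intro k K E V W _ _ _ _ _ _ _ _ _ P Q hP hQ hker gs F G hFG x hx hgen
  exact hN P Q hP hQ hker gs F G hFG x hx hgen

end Pool.Agent.Helper33.PS

end

section

set_option autoImplicit false

open Finset Polynomial

namespace Pool.Agent.Helper98.PT

open Pool.Agent.Helper33 Pool.Agent.Helper33.UB Pool.Agent.Helper51.RatTree Pool.Agent.Helper55.RD
  Pool.Agent.Helper93.RatODE Pool.Agent.Helper45.FR Pool.Agent.Helper33.PS Pool.Agent.Helper33.PT

/-- a vertex which sees points with additive mutual orders in different directions -/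
lemma exists_vertex {K : Type*} [Field K] (v : DV K) (n : ℕ) (x : ℕ → K) (s : ℕ → ℤ) (D : ℤ)
    (h : ∀ a ≤ n, ∀ b ≤ n, a ≠ b → x a ≠ x b ∧ v.o (x a - x b) = s a + s b - D) :
    ∃ ζ : Pool.Agent.Helper33.UB.PV v, ∀ a ≤ n, ∀ b ≤ n, a ≠ b → ζ.dir (x a) ≠ ζ.dir (x b) := by
  obtain ⟨c, hc, hmax⟩ := exists_max_image (range (n + 1)) s ⟨0, by simp⟩
  rw [mem_range] at hc
  refine ⟨PV.mk v (x c) (2 * s c - D), ?_⟩
  have hnn : ∀ a ≤ n, nn v (x c) (2 * s c - D) (x a) = s a + s c - D := by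
    intro a ha
    have h1 := hmax a (mem_range.mpr (by omega))
    unfold nn
    by_cases hac : a = c
    · rw [hac, if_pos rfl]; ring
    · obtain ⟨h2, h3⟩ := h a ha c (by omega) hac
      rw [if_neg h2, h3, min_eq_left (by omega)]
  intro a ha b hb hab
  obtain ⟨h1, h2⟩ := h a ha b hb hab
  rw [Ne, dir_eq_iff_gp h1, hnn a ha, hnn b hb, h2]
  omega

section conv

variable {k K E V W : Type*} [Field k] [Field K] [Field E] [Algebra k K] [Algebra k E] [Algebra K E]
  [IsScalarTower k K E] {P : PSys k K V} {Q : PSys k E W} {n : ℕ}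

/-- forget the wild ramification -/
def toGalSys (gs : GalW P Q n) : GalSys (P0 P) Q n where
  G := gs.G
  card_G := gs.card_G
  act := gs.act
  act_spec := gs.act_spec
  res := gs.res
  ram := gs.ram
  ram_pos := gs.ram_pos
  ram_spec := gs.ram_spec
  fib := gs.fib
  e_le := fun _ => Nat.zero_le _
  ramified := fun v hv => by
    change 1 ≤ 0 at hv
    omega

lemma ht_map_leW (gs : GalW P Q n) (z : K) : ht Q (algebraMap K E z) ≤ n * ht P z :=
  ht_map_le (toGalSys gs) z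

lemma ht_conjW (gs : GalW P Q n) {σ : E ≃ₐ[k] E} (hσ : σ ∈ gs.G) (y : E) : ht Q (σ y) = ht Q y :=
  ht_conj (toGalSys gs) hσ y

/-- base change -/
def vhomMapW (gs : GalW P Q n) (w : W) : VHom (algebraMap K E) (P.pl (gs.res w)) (Q.pl w) where
  r := gs.ram w
  r_pos := gs.ram_pos w
  spec y hy := gs.ram_spec w y hy

/-- conjugation at a fixed place -/
def vhomConjW (gs : GalW P Q n) {σ : E ≃ₐ[k] E} (hσ : σ ∈ gs.G) {w : W} (hw : gs.act σ w = w) :
    VHom ((σ : E →+* E).comp (algebraMap K E)) (P.pl (gs.res w)) (Q.pl w) where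
  r := gs.ram w
  r_pos := gs.ram_pos w
  spec y hy := by
    have h1 := gs.act_spec σ hσ w (algebraMap K E y)
    rw [hw] at h1
    change (Q.pl w).o (σ (algebraMap K E y)) = _
    rw [h1, gs.ram_spec w y hy]

end conv

/-- T-WIN: from stars on the arithmetic progression to stars on consecutive windows, and the fixed
places -/
theorem window_star (d n : ℕ) (hd : 2 ≤ d) (κ : ℝ) (hκ : 0 < κ) : ∃ m : ℕ,
    ∀ nw wm J : ℕ, 1 ≤ J → ∃ N' : ℕ,
    ∀ {k K E V W : Type} [Field k] [IsAlgClosed k] [Field K] [Field E] [Algebra k K] [Algebra k E]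
    [Algebra K E] [IsScalarTower k K E] [DecidableEq K] (P : PSys k K V) (Q : PSys k E W)
    (_ : ∀ v, ResK k (P.pl v)) (_ : ∀ w, ResK k (Q.pl w)) (gs : GalW P Q n) (F G : K[X])
    (_ : IsRat F G d) (x : ℕ → K) (N : ℕ) (_ : RatOrbit F G x N) (c : GConst) (_ : c.C1 = 2) (M : ℝ)
    (I : GInst P c N M) (_ : I.x = x) (i : ℕ) (_ : i + N' * J ≤ N) (S : Finset V)
    (_ : ∀ v ∈ S, ∃ ζ : Pool.Agent.Helper33.UB.PV (P.pl v), ∀ l l', l ≤ N' → l' ≤ N' → l ≠ l' →
      ζ.dir (x (i + l * J)) ≠ ζ.dir (x (i + l' * J))),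
    ∃ Sb ⊆ S, (Sb.card : ℝ) ≤ κ * I.h ∧
      (∀ v ∈ S, v ∉ Sb → ∃ ζ : Pool.Agent.Helper33.UB.PV (P.pl v), ∀ a ≤ nw, ∀ b ≤ nw, a ≠ b →
        ζ.dir (x (i + a)) ≠ ζ.dir (x (i + b))) ∧
      ∀ σ ∈ gs.G, (∀ p : Polynomial (Polynomial E), p ≠ 0 → p.natDegree < m →
          (∀ i, (p.coeff i).natDegree < m) → ∃ j, i ≤ j ∧ j ≤ i + wm ∧
          (p.eval (C (σ (algebraMap K E (x j))))).eval (algebraMap K E (x j)) ≠ 0) →
        ∀ R ⊆ S, (∀ v ∈ R, v ∉ Sb ∧ ∃ w, gs.res w = v ∧ gs.act σ w = w) →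
          (R.card : ℝ) ≤ κ * I.h := by
  set n' : ℕ := max n 1 with hn'
  have hn'1 : (1 : ℝ) ≤ n' := by exact_mod_cast le_max_right n 1
  have hn'0 : (0 : ℝ) < n' := by (clear * - hn'1; linarith)
  have hnn' : (n : ℝ) ≤ n' := by exact_mod_cast le_max_left n 1
  obtain ⟨m, n₀, hM5⟩ := interp d hd (κ / (8 * n')) (by positivity)
  refine ⟨m, ?_⟩
  intro nw wm J hJ
  obtain ⟨nE, hnE⟩ := Pool.Agent.Helper33.PS.energy (d ^ J) (hd.trans (Nat.le_self_pow (by omega) d)) (κ / 8) (by positivity)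
  set nw' := max nw (wm + m) + m + 1 + n₀ with hnw'
  set N' := 2 * nw' + 2 + nE + 3 with hN'
  refine ⟨N', ?_⟩
  intro k K E V W _ _ _ _ _ _ _ _ _ P Q hP hQ gs F G hFG x N hx c hc M I hI i hle S hdir
  subst hI
  have hconst := fun v (c : k) (hc : c ≠ 0) => (hP v).const c hc
  have hidx : ∀ l, l ≤ N' → i + l * J ≤ N := fun l hl => le_trans (by (clear * - hl; gcongr)) hle
  set h := I.h with hh
  have hh0 : 0 ≤ h := I.h_nonneg
  -- coordinates
  set 𝒥 : Finset ℕ := (range (N' + 1)).image fun l => i + l * J with h𝒥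
  have hmem : ∀ l, l ≤ N' → i + l * J ∈ 𝒥 := fun l hl =>
    mem_image_of_mem _ (mem_range.mpr (by omega))
  have hJne : ∀ l l', l ≠ l' → i + l * J ≠ i + l' * J := by
    intro l l' hne e
    exact hne (Nat.eq_of_mul_eq_mul_right (by omega : 0 < J) (by omega))
  obtain ⟨F', G', z, a, b, e, f, hdet, hden, hzx, hFG', hzN, hcα, hcβ, hcγ, hzint, hzdist, hht⟩ :=
    exists_coord P hP hFG hx 𝒥 (hmem 0 (by omega)) (hmem 1 (by omega))
      (hmem 2 (by omega)) (hJne _ _ (by omega)) (hJne _ _ (by omega)) (hJne _ _ (by omega))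
      (by
        intro j hj
        obtain ⟨l, hl, rfl⟩ := mem_image.mp hj
        exact hidx l (by have := mem_range.mp hl; omega)) S (by
        intro v hv
        obtain ⟨ζ, hζ⟩ := hdir v hv
        refine ⟨ζ, ?_⟩
        intro j hj j' hj' hne
        obtain ⟨l, hl, rfl⟩ := mem_image.mp hj
        obtain ⟨l', hl', rfl⟩ := mem_image.mp hj'
        exact hζ l l' (by have := mem_range.mp hl; omega) (by have := mem_range.mp hl'; omega)
          (fun e => hne (by rw [e])))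
  -- heights
  have hheight : ∀ j ≤ N, (ht P (z j) : ℝ) ≤ 8 * h := by
    intro j hj
    by_cases hjβ : j = i + 1 * J
    · obtain ⟨t, ht'⟩ := hcβ
      rw [hjβ, ← ht', ht_const P (fun v c hc => hconst v c hc)]
      push_cast
      (clear * - hh0; positivity)
    · have hne : I.x j ≠ I.x (i + 1 * J) := fun e =>
        hjβ (hx.inj _ _ hj (hidx _ (by omega)) e)
      have h1 := hht j hne
      have h2 := ht_cr_le I (hidx 0 (by omega)) (hidx 1 (by omega)) (hidx 2 (by omega)) hj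
        (hJne _ _ (by omega)) (hJne _ _ (by omega)) hjβ
      have h3 : (ht P (z j) : ℝ) ≤ ht P (Pool.Agent.Helper33.PS.cr (I.x (i + 0 * J)) (I.x (i + 1 * J))
        (I.x (i + 2 * J)) (I.x j)) := by exact_mod_cast h1
      have h4 : 4 * c.C1 * I.h = 8 * h := by
        rw [hc]
        ring
      rw [h4] at h2
      exact h3.trans h2
  -- the iterate
  obtain ⟨U, W', hUW, hU, hW, hUWtop, -, hit⟩ := exists_iterate hFG'.cop hFG'.dA hFG'.dB (by
      rcases hmax_of_top hFG'.dA hFG'.dB hFG'.top with h3 | h3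
      · have := hFG'.dB; omega
      · have := hFG'.dA; omega) (by omega : 1 ≤ d) J
  have hRat : IsRat U W' (d ^ J) := ⟨hUW, hU, hW, hUWtop⟩
  classical
  set Sb := S.filter fun v => ¬ IsGood (P.pl v) (d ^ J) U W' with hSb
  have hstep := hit z
  have hit1 : ∀ l, W'.eval (z (i + l * J)) ≠ 0 ∧
      U.eval (z (i + l * J)) / W'.eval (z (i + l * J)) = z (i + (l + 1) * J) := by
    intro l
    have h1 := hstep (i + l * J) (fun j _ => ⟨hzN.ne _, hzN.step _⟩)
    rw [show i + (l + 1) * J = i + l * J + J by ring]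
    exact h1
  have hbad : (Sb.card : ℝ) ≤ κ / 8 * (8 * h) := by
    apply hnE P U W' hRat (fun l => z (i + l * J))
      ⟨fun l _ => (hit1 l).1, fun l _ => ((hit1 l).2).symm⟩
    · intro l hl l' hl' e
      by_contra hne
      exact hJne l l' hne (hzN.inj _ _ (hidx l (by omega)) (hidx l' (by omega)) e)
    · intro l hl
      exact hheight _ (hidx l (by omega))
    · intro v hv l _
      exact hzint v (mem_filter.mp hv).1 _
    · intro v hv l hl l' hl' hne
      exact hzdist v (mem_filter.mp hv).1 _ (hmem l (by omega)) _ (hmem l' (by omega)) (hJne l l' hne)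
    · intro v hv
      exact (mem_filter.mp hv).2
  -- good reduction
  have hgood : ∀ v ∈ S, v ∉ Sb → IsGood (P.pl v) d F' G' := by
    intro v hv hv3
    have h1 : IsGood (P.pl v) (d ^ J) U W' := by
      by_contra h
      exact hv3 (mem_filter.mpr ⟨hv, h⟩)
    refine isGood_of_iterate (P.pl v) (hP v) hd hJ hFG' hRat ?_ h1
    intro y hy
    have h2 := hit y 0 (fun j hj => by
      rw [zero_add]
      exact ⟨hy.ne j hj, hy.step j hj⟩)
    rw [zero_add] at h2
    exact h2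
  -- the window
  have hwin : ∀ v ∈ S, v ∉ Sb → ∀ a ≤ nw', ∀ b ≤ nw', a ≠ b →
      z (i + a) ≠ z (i + b) ∧ (P.pl v).o (z (i + a) - z (i + b)) = 0 := by
    intro v hv hv3
    exact window_distinct (P.pl v) (by omega : 1 ≤ d) hFG' (hgood v hv hv3) (z := fun j => z (i + j))
      (n := N' * J) (J := J) (N' := N') hJ le_rfl ⟨fun j _ => hzN.ne _, fun j _ => hzN.step _⟩
      (fun j _ => hzint v hv _) (by
        intro l hl l' hl' hne
        refine ⟨fun e => hJne l l' hne (hzN.inj _ _ (hidx l hl) (hidx l' hl') e), ?_⟩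
        exact hzdist v hv _ (hmem l hl) _ (hmem l' hl') (hJne l l' hne)) (by omega)
  refine ⟨Sb, filter_subset _ _, by (clear * - hbad; linarith), ?_, ?_⟩
  · -- vertices
    intro v hv hv3
    refine exists_vertex (P.pl v) nw (fun j => I.x (i + j))
      (fun j => (P.pl v).o (e * I.x (i + j) + f)) ((P.pl v).o (a * f - b * e)) ?_
    intro a' ha' b' hb' hab
    obtain ⟨h1, h2⟩ := hwin v hv hv3 a' (by omega) b' (by omega) hab
    have h3 : I.x (i + a') - I.x (i + b') ≠ 0 := by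
      intro h0
      apply h1
      rw [hzx, hzx, sub_eq_zero.mp h0]
    refine ⟨sub_ne_zero.mp h3, ?_⟩
    rw [hzx, hzx, Helper35.PS.mobius_sub (hden _) (hden _),
      DV.o_div _ _ _ (mul_ne_zero hdet h3) (mul_ne_zero (hden _) (hden _)),
      (P.pl v).mul _ _ hdet h3, (P.pl v).mul _ _ (hden _) (hden _)] at h2
    omega
  · -- the fixed places
    intro σ hσ hrel R hR hRw
    by_contra hcon
    push Not at hcon
    have hR1 : 1 ≤ R.card := by
      have h1 : (0 : ℝ) < R.card := lt_of_le_of_lt (by (clear * - hκ hh0; positivity)) hcon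
      exact_mod_cast h1
    have hw : ∀ v : R, ∃ w, gs.res w = v ∧ gs.act σ w = w := fun v => (hRw v v.2).2
    choose wv hres hact using hw
    set S' : Finset W := R.attach.image wv with hS'
    have hwinj : ∀ v v' : R, wv v = wv v' → v = v' := by
      intro v v' e
      apply Subtype.ext
      rw [← hres v, ← hres v', e]
    have hS'card : S'.card = R.card := by
      rw [hS', card_image_of_injective _ fun v v' e => hwinj v v' e, card_attach]
    -- the two orbits
    set φ : K →+* E := algebraMap K E with hφ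
    set ψ : K →+* E := (σ : E →+* E).comp (algebraMap K E) with hψ
    have hfixk : ∀ t : k, ψ (algebraMap k K t) = φ (algebraMap k K t) := by
      intro t
      change σ (algebraMap K E (algebraMap k K t)) = algebraMap K E (algebraMap k K t)
      rw [← IsScalarTower.algebraMap_apply, AlgEquiv.commutes]
    have horb : Orb F' G' (fun j => z (i + j)) nw' :=
      ⟨fun j _ => hzN.ne _, fun j _ => hzN.step _⟩
    have hF1 := hFG'.map φ
    have hF2 := hFG'.map ψ
    have horb1 := horb.map φ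
    have horb2 := horb.map ψ
    have hres0 := Helper33.PS.resultant_ne_zero_of_isRat (by omega : 1 ≤ d) hFG'
    -- local data at the places of S'
    have hloc : ∀ w ∈ S', ∃ v : V, v ∈ R ∧ Nonempty (VHom φ (P.pl v) (Q.pl w)) ∧
        Nonempty (VHom ψ (P.pl v) (Q.pl w)) := by
      intro w hw
      obtain ⟨v, hv, rfl⟩ := mem_image.mp hw
      refine ⟨v, v.2, ?_, ?_⟩
      · have := vhomMapW gs (wv v)
        rw [hres v] at this
        exact ⟨this⟩
      · have := vhomConjW gs hσ (hact v)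
        rw [hres v] at this
        exact ⟨this⟩
    have hcong : ∀ w ∈ S', ∀ j, (Q.pl w).ge 0 (φ (z j)) ∧ (Q.pl w).ge 0 (ψ (z j)) ∧
        (Q.pl w).ge 1 (ψ (z j) - φ (z j)) := by
      intro w hw j
      obtain ⟨v, hv, ⟨hφw⟩, ⟨hψw⟩⟩ := hloc w hw
      have hvS := hR hv
      refine ⟨hφw.ge_zero (hzint v hvS j), hψw.ge_zero (hzint v hvS j), ?_⟩
      obtain ⟨t, ht⟩ := (hP v).res (z j) (hzint v hvS j)
      have e : ψ (z j) - φ (z j) = ψ (z j - algebraMap k K t) - φ (z j - algebraMap k K t) := by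
        rw [map_sub, map_sub, hfixk]
        ring
      rw [e]
      exact DV.ge_sub (hψw.ge_one ht) (hφw.ge_one ht)
    -- heights
    have hnwN : ∀ j ≤ nw', i + j ≤ N := by
      intro j hj
      have h1 : nw' ≤ N' * J := by
        have : nw' ≤ N' := by omega
        exact this.trans (Nat.le_mul_of_pos_right _ (by omega))
      omega
    have hh1 : ∀ j ≤ nw', (ht Q (φ (z (i + j))) : ℝ) ≤ n' * (8 * h) := by
      intro j hj
      have h1 : ht Q (φ (z (i + j))) ≤ n * ht P (z (i + j)) := ht_map_leW gs _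
      have h2 : (ht Q (φ (z (i + j))) : ℝ) ≤ n * ht P (z (i + j)) := by exact_mod_cast h1
      have h3 := hheight (i + j) (hnwN j hj)
      have h4 : (0 : ℝ) ≤ ht P (z (i + j)) := by exact_mod_cast ht_nonneg P _
      calc (ht Q (φ (z (i + j))) : ℝ) ≤ n * ht P (z (i + j)) := h2
        _ ≤ n' * ht P (z (i + j)) := mul_le_mul_of_nonneg_right hnn' h4
        _ ≤ n' * (8 * h) := mul_le_mul_of_nonneg_left h3 hn'0.le
    have hh2 : ∀ j ≤ nw', (ht Q (ψ (z (i + j))) : ℝ) ≤ n' * (8 * h) := by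
      intro j hj
      have h1 : ht Q (ψ (z (i + j))) = ht Q (φ (z (i + j))) := ht_conjW gs hσ _
      rw [h1]
      exact hh1 j hj
    -- M5
    obtain ⟨p, hp0, hpd1, hpd2, hp⟩ := hM5 Q (F'.map φ) (G'.map φ) (F'.map ψ) (G'.map ψ) hF1 hF2 nw'
      (by omega) (fun j => φ (z (i + j))) (fun j => ψ (z (i + j))) horb1 horb2 (n' * (8 * h)) hh1 hh2 S'
      (by omega) (by
        rw [hS'card]
        have e1 : κ / (8 * n') * (n' * (8 * h)) = κ * h := by
          (clear * - hn'1 hκ; field_simp)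
        rw [e1]
        exact hcon.le) (by
        intro w hw
        obtain ⟨v, hv, ⟨hφw⟩, ⟨hψw⟩⟩ := hloc w hw
        have hg := hgood v (hR hv) (hRw v hv).1
        exact ⟨hφw.isGood hres0 hg, hψw.isGood hres0 hg⟩) (by
        intro w hw j _
        exact hcong w hw (i + j))
    obtain ⟨q, hq0, hq1, hq2, hq⟩ := Helper36.PT.rel_mobius m (φ a) (φ b) (φ e) (φ f)
      (ψ a) (ψ b) (ψ e) (ψ f) (by
        rw [← map_mul, ← map_mul, ← map_sub, Ne, map_eq_zero]
        exact hdet) (by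
        rw [← map_mul, ← map_mul, ← map_sub, Ne, map_eq_zero]
        exact hdet) p hp0 hpd1 hpd2
    obtain ⟨j, hj1, hj2, hj3⟩ := hrel q hq0 hq1 hq2
    apply hj3
    obtain ⟨t, rfl⟩ := Nat.exists_eq_add_of_le hj1
    have h1 := hp t (by omega)
    have hz1 : φ (z (i + t)) = (φ a * φ (I.x (i + t)) + φ b) / (φ e * φ (I.x (i + t)) + φ f) := by
      rw [hzx, map_div₀, map_add, map_add, map_mul, map_mul]
    have hz2 : ψ (z (i + t)) = (ψ a * ψ (I.x (i + t)) + ψ b) / (ψ e * ψ (I.x (i + t)) + ψ f) := by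
      rw [hzx, map_div₀, map_add, map_add, map_mul, map_mul]
    rw [hz1, hz2] at h1
    exact hq _ _ (by
      rw [← map_mul, ← map_add, Ne, map_eq_zero]
      exact hden _) (by
      change ψ e * ψ (I.x (i + t)) + ψ f ≠ 0
      rw [← map_mul, ← map_add, Ne, map_eq_zero]
      exact hden _) h1

end Pool.Agent.Helper98.PT

end

section

set_option autoImplicit false

open Finset Polynomial

namespace Pool.Agent.Helper33.PT

open Pool.Agent.Helper45.FR Pool.Agent.Helper33.UB Pool.Agent.Helper51.RatTree Pool.Agent.Helper93.RatODE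
  Pool.Agent.Helper33.PS Pool.Agent.Helper55.RD

/-- T-WIN: from stars on the arithmetic progression to stars on consecutive windows, and the fixed
places -/
theorem window_star (d n : ℕ) (hd : 2 ≤ d) (κ : ℝ) (hκ : 0 < κ) : ∃ m : ℕ,
    ∀ nw wm J : ℕ, 1 ≤ J → ∃ N' : ℕ,
    ∀ {k K E V W : Type} [Field k] [IsAlgClosed k] [Field K] [Field E] [Algebra k K] [Algebra k E]
    [Algebra K E] [IsScalarTower k K E] [DecidableEq K] (P : PSys k K V) (Q : PSys k E W)
    (_ : ∀ v, ResK k (P.pl v)) (_ : ∀ w, ResK k (Q.pl w)) (gs : GalW P Q n) (F G : K[X])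
    (_ : IsRat F G d) (x : ℕ → K) (N : ℕ) (_ : RatOrbit F G x N) (c : GConst) (_ : c.C1 = 2) (M : ℝ)
    (I : GInst P c N M) (_ : I.x = x) (i : ℕ) (_ : i + N' * J ≤ N) (S : Finset V)
    (_ : ∀ v ∈ S, ∃ ζ : Pool.Agent.Helper33.UB.PV (P.pl v), ∀ l l', l ≤ N' → l' ≤ N' → l ≠ l' →
      ζ.dir (x (i + l * J)) ≠ ζ.dir (x (i + l' * J))),
    ∃ Sb ⊆ S, (Sb.card : ℝ) ≤ κ * I.h ∧
      (∀ v ∈ S, v ∉ Sb → ∃ ζ : Pool.Agent.Helper33.UB.PV (P.pl v), ∀ a ≤ nw, ∀ b ≤ nw, a ≠ b →
        ζ.dir (x (i + a)) ≠ ζ.dir (x (i + b))) ∧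
      ∀ σ ∈ gs.G, (∀ p : Polynomial (Polynomial E), p ≠ 0 → p.natDegree < m →
          (∀ i, (p.coeff i).natDegree < m) → ∃ j, i ≤ j ∧ j ≤ i + wm ∧
          (p.eval (C (σ (algebraMap K E (x j))))).eval (algebraMap K E (x j)) ≠ 0) →
        ∀ R ⊆ S, (∀ v ∈ R, v ∉ Sb ∧ ∃ w, gs.res w = v ∧ gs.act σ w = w) →
          (R.card : ℝ) ≤ κ * I.h :=
  Pool.Agent.Helper98.PT.window_star d n hd κ hκ

end Pool.Agent.Helper33.PT

end
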