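import Pool.Agent.Helper23.MB.L01_ab4
import Pool.Agent.Helper23.MB.L01_ab6
import Pool.Agent.Helper23.MB.L02_ab0

/-!
Parts of Helper45.S4Der, Helper31.RRK.Der, Helper31.RRK.Tower, Helper5.RRD1, Helper31.RRK.Loc, Helper31.RRK.Diff, Helper31.RRK.Can
-/

attribute [-simp] Valuation.IsUniformizer.val
attribute [local instance 5000]
  Pool.Agent.Helper23.MB.Inst.rCharZero Pool.Agent.Helper23.MB.Inst.rALM
  Pool.Agent.Helper23.MB.Inst.rARM Pool.Agent.Helper23.MB.Inst.rALSM
  Pool.Agent.Helper23.MB.Inst.rARSM Pool.Agent.Helper23.MB.Inst.rARRLE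
  Pool.Agent.Helper23.MB.Inst.rALRLE Pool.Agent.Helper23.MB.Inst.rARRLT
  Pool.Agent.Helper23.MB.Inst.rALRLT Pool.Agent.Helper23.MB.Inst.rPMRLT
  Pool.Agent.Helper23.MB.Inst.rMPRLT Pool.Agent.Helper23.MB.Inst.rPMM
  Pool.Agent.Helper23.MB.Inst.rMPM Pool.Agent.Helper23.MB.Inst.rPMSM
  Pool.Agent.Helper23.MB.Inst.rMPSM Pool.Agent.Helper23.MB.Inst.rEAOL
  Pool.Agent.Helper23.MB.Inst.rIOR Pool.Agent.Helper23.MB.Inst.rISOR
  Pool.Agent.Helper23.MB.Inst.rNZD Pool.Agent.Helper23.MB.Inst.zCharZero
  Pool.Agent.Helper23.MB.Inst.zALM Pool.Agent.Helper23.MB.Inst.zARM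
  Pool.Agent.Helper23.MB.Inst.zIOR Pool.Agent.Helper23.MB.Inst.zISOR
  Pool.Agent.Helper23.MB.Inst.zNZD Pool.Agent.Helper23.MB.Inst.qCharZero
  Pool.Agent.Helper23.MB.Inst.free Pool.Agent.Helper23.MB.Inst.faith
  Pool.Agent.Helper23.MB.Inst.torsionFree Pool.Agent.Helper23.MB.Inst.rfFaith
  Pool.Agent.Helper23.MB.Inst.hAdd Pool.Agent.Helper23.MB.Inst.hAddM
  Pool.Agent.Helper23.MB.Inst.hMul Pool.Agent.Helper23.MB.Inst.hMon
  Pool.Agent.Helper23.MB.Inst.hZero Pool.Agent.Helper23.MB.Inst.hOne
  Pool.Agent.Helper23.MB.Inst.hMZ Pool.Agent.Helper23.MB.Inst.hRing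
  Pool.Agent.Helper23.MB.Inst.aAdd Pool.Agent.Helper23.MB.Inst.aAddM
  Pool.Agent.Helper23.MB.Inst.aMul Pool.Agent.Helper23.MB.Inst.aMon
  Pool.Agent.Helper23.MB.Inst.aZero Pool.Agent.Helper23.MB.Inst.aOne
  Pool.Agent.Helper23.MB.Inst.aMZ Pool.Agent.Helper23.MB.Inst.aRing

namespace Pool.Agent.Helper16
end Pool.Agent.Helper16
namespace Pool.Agent.Helper33
end Pool.Agent.Helper33
namespace Pool.Agent.Helper45.FF
end Pool.Agent.Helper45.FF
namespace Pool.Agent.Helper45.S4
end Pool.Agent.Helper45.S4
namespace Pool.Agent.Helper47.RR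
end Pool.Agent.Helper47.RR

section

set_option autoImplicit false

set_option linter.style.haveILetI false

namespace Pool.Agent.Helper45.S4

open Polynomial IntermediateField Pool.Agent.Helper16 Pool.Agent.Helper33 Pool.Agent.Helper45.FF

variable {k L : Type} [Field k] [Field L] [Algebra k L]

section der

variable (v : Place k L) (D : Derivation k L L)

theorem val_D_le_pi [IsAlgClosed k] (hN : IsFunctionField k L) (B : ℤ)
    (hB : ∀ x, v.val x ≤ 1 → v.val (D x) ≤ WithZero.exp B) (π : L)
    (hπ : v.val π = WithZero.exp (-1 : ℤ)) (x : L) (hx : v.val x ≤ 1) :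
    v.val (D x) ≤ v.val (D π) := by
  by_contra hlt
  rw [not_le] at hlt
  have hDx : D x ≠ 0 := by
    intro h0
    rw [h0, map_zero] at hlt
    exact absurd hlt (not_lt.2 zero_le)
  have h1 : ∀ n : ℕ, v.val (D x) ≤ WithZero.exp (B - n) := by
    intro n
    rcases le_max_iff.1 (val_D_le_max v D hN B hB π hπ n x hx) with h | h
    · exact absurd h (not_le.2 hlt)
    · exact h
  have h2 := h1 (B + v.ord (D x) + 1).toNat
  rw [val_le_exp_iff v _ hDx] at h2
  have h3 := Int.self_le_toNat (B + v.ord (D x) + 1)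
  omega

/-- value of `D s` -/
theorem val_D_eq [IsAlgClosed k] [CharZero k] (hN : IsFunctionField k L) (B : ℤ)
    (hB : ∀ x, v.val x ≤ 1 → v.val (D x) ≤ WithZero.exp B) (π : L)
    (hπ : v.val π = WithZero.exp (-1 : ℤ)) (s : L) (hs0 : s ≠ 0) (hs : 0 < v.ord s) (hDs : D s ≠ 0) :
    v.val (D s) = WithZero.exp (-(v.ord s - 1)) * v.val (D π) := by
  haveI : CharZero L := charZero_of_injective_algebraMap (algebraMap k L).injective
  have hπ0 : π ≠ 0 := by
    rintro rfl
    rw [map_zero] at hπ
    exact WithZero.exp_ne_zero hπ.symm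
  obtain ⟨m, hm⟩ : ∃ m : ℕ, v.ord s = m + 1 := ⟨(v.ord s - 1).toNat, by omega⟩
  have hsv : v.val s = WithZero.exp (-((m : ℤ) + 1)) := by
    have h0 : v.val s ≠ 0 := by simpa using hs0
    rw [← hm, Place.ord, neg_neg, WithZero.exp_log h0]
  set u := s * (π ^ (m + 1))⁻¹ with hu
  have hsu : s = π ^ (m + 1) * u := by
    rw [hu]; (clear * - hπ0 hs0; field_simp)
  have hvu : v.val u = 1 := by
    rw [hu, map_mul, map_inv₀, map_pow, hπ, hsv, ← WithZero.exp_nsmul, ← WithZero.exp_neg,
      ← WithZero.exp_add]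
    simp
  have hDπ0 : D π ≠ 0 := by
    intro h0
    have h1 := val_D_le_pi v D hN B hB π hπ s ((v.ord_nonneg_iff hs0).1 hs.le)
    rw [h0, map_zero] at h1
    have h2 : v.val (D s) = 0 := le_antisymm h1 zero_le
    exact hDs (by simpa using h2)
  have hDπv : v.val (D π) ≠ 0 := by simpa using hDπ0
  have hD : D s = ((m + 1 : ℕ) : L) * π ^ m * u * D π + π ^ (m + 1) * D u := by
    conv_lhs => rw [hsu]
    rw [Derivation.leibniz, Derivation.leibniz_pow]
    simp only [smul_eq_mul, nsmul_eq_mul, Nat.add_sub_cancel]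
    ring
  have hcast : v.val ((m + 1 : ℕ) : L) = 1 := by
    have := v.triv ((m + 1 : ℕ) : k) (by exact_mod_cast Nat.succ_ne_zero m)
    rwa [map_natCast] at this
  have h1 : v.val (((m + 1 : ℕ) : L) * π ^ m * u * D π) = WithZero.exp (-(m : ℤ)) * v.val (D π) := by
    rw [map_mul, map_mul, map_mul, hcast, hvu, map_pow, hπ, one_mul, mul_one, ← WithZero.exp_nsmul]
    congr 2
    simp
  have h2 : v.val (π ^ (m + 1) * D u) < v.val (((m + 1 : ℕ) : L) * π ^ m * u * D π) := by
    rw [h1, map_mul, map_pow, hπ, ← WithZero.exp_nsmul]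
    have h3 := val_D_le_pi v D hN B hB π hπ u hvu.le
    calc WithZero.exp ((m + 1) • (-1 : ℤ)) * v.val (D u)
        ≤ WithZero.exp ((m + 1) • (-1 : ℤ)) * v.val (D π) := mul_le_mul_right h3 _
      _ < WithZero.exp (-(m : ℤ)) * v.val (D π) := by
          refine mul_lt_mul_of_pos_right ?_ (zero_lt_iff.2 hDπv)
          rw [WithZero.exp_lt_exp]
          simp
  rw [hD, Valuation.map_add_eq_of_lt_left _ h2, h1, hm]
  congr 2
  ring

end der

end Pool.Agent.Helper45.S4

end

section

set_option autoImplicit false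

set_option linter.style.haveILetI false

namespace Pool.Agent.Helper31.RRK

open Polynomial IntermediateField Pool.Agent.Helper16 Pool.Agent.Helper33 Pool.Agent.Helper45.FF

open Pool.Agent.Helper45.S4 Pool.Agent.Helper47.RR

section ord

variable {k L : Type} [Field k] [Field L] [Algebra k L]

theorem exists_bound [IsAlgClosed k] (hN : IsFunctionField k L) (D : Derivation k L L)
    (v : Place k L) : ∃ B : ℤ, ∀ x, v.val x ≤ 1 → v.val (D x) ≤ WithZero.exp B := by
  obtain ⟨t, ht, hs⟩ := exists_separating hN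
  obtain ⟨D0, hD0⟩ := exists_deriv t ht
  have hne : D0 ≠ 0 := by
    rintro rfl
    simp at hD0
  obtain ⟨h, rfl⟩ := exists_eq_smul hN hne D
  obtain ⟨P, hP1, hP2⟩ := exists_psys_aux hN t ht D0 hD0
  have hB : ∀ x, v.val x ≤ 1 → v.val (D0 x) ≤ WithZero.exp (P.e v : ℤ) := by
    intro x hx
    by_cases hDx : D0 x = 0
    · rw [hDx, map_zero]; exact zero_le
    · have hx0 : x ≠ 0 := by rintro rfl; exact hDx (map_zero D0)
      rw [val_le_exp_iff v _ hDx]
      have := P.ord_D' v x hx0 (by rw [hP1]; exact hDx) (by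
        rw [hP2]; exact (v.ord_nonneg_iff hx0).2 hx)
      rw [hP1, hP2] at this
      exact this
  by_cases h0 : h = 0
  · refine ⟨0, fun x _ => ?_⟩
    rw [h0, zero_smul]
    simp
  refine ⟨P.e v - v.ord h, fun x hx => ?_⟩
  have hv : v.val h = WithZero.exp (-(v.ord h)) := by
    have h00 : v.val h ≠ 0 := by simpa using h0
    rw [Place.ord, neg_neg, WithZero.exp_log h00]
  rw [Derivation.coe_smul, Pi.smul_apply, smul_eq_mul, map_mul, hv, sub_eq_neg_add,
    WithZero.exp_add]
  exact mul_le_mul_right (hB x hx) _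

variable (v : Place k L) (D : Derivation k L L)

theorem val_D_le_pi' [IsAlgClosed k] (hN : IsFunctionField k L) {π : L}
    (hπ : v.val π = WithZero.exp (-1 : ℤ)) {x : L} (hx : v.val x ≤ 1) :
    v.val (D x) ≤ v.val (D π) := by
  obtain ⟨B, hB⟩ := exists_bound hN D v
  exact val_D_le_pi v D hN B hB π hπ x hx

theorem D_pi_ne_zero [IsAlgClosed k] (hN : IsFunctionField k L) (hD : D ≠ 0) {π : L}
    (hπ : v.val π = WithZero.exp (-1 : ℤ)) : D π ≠ 0 := by
  intro h0
  apply hD
  have h1 : ∀ x, v.val x ≤ 1 → D x = 0 := by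
    intro x hx
    have h2 := val_D_le_pi' v D hN hπ hx
    rw [h0, map_zero] at h2
    have h3 : v.val (D x) = 0 := le_antisymm h2 zero_le
    simpa using h3
  ext x
  obtain ⟨a, b, ha, hb, -, rfl⟩ := exists_frac_ring v x
  rw [Derivation.leibniz, Derivation.leibniz_inv, h1 a ha, h1 b hb]
  simp

theorem ord_D_pi [IsAlgClosed k] (hN : IsFunctionField k L) {π : L}
    (hπ : v.val π = WithZero.exp (-1 : ℤ)) : v.ord (D π) = ordDer v D := by
  have h1 := v.exists_uniformizer.choose_spec
  have h2 := val_D_le_pi' v D hN hπ (x := v.exists_uniformizer.choose)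
    (by rw [h1.2]; exact exp_neg_one_lt.le)
  have h3 := val_D_le_pi' v D hN h1.2 (x := π) (by rw [hπ]; exact exp_neg_one_lt.le)
  rw [ordDer, Place.ord, Place.ord, le_antisymm h2 h3]

variable {D}

theorem ordDer_le [IsAlgClosed k] (hN : IsFunctionField k L) {x : L} (hx : v.val x ≤ 1)
    (hDx : D x ≠ 0) : ordDer v D ≤ v.ord (D x) := by
  obtain ⟨π, -, hπ⟩ := v.exists_uniformizer
  have hD : D ≠ 0 := by
    rintro rfl
    exact hDx rfl
  rw [← ord_D_pi v D hN hπ, Place.ord, Place.ord, neg_le_neg_iff,
    WithZero.log_le_log (by simpa using hDx) (by simpa using D_pi_ne_zero v D hN hD hπ)]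
  exact val_D_le_pi' v D hN hπ hx

theorem ordDer_smul [IsAlgClosed k] (hN : IsFunctionField k L) (hD : D ≠ 0) {h : L}
    (h0 : h ≠ 0) : ordDer v (h • D) = v.ord h + ordDer v D := by
  obtain ⟨π, -, hπ⟩ := v.exists_uniformizer
  rw [← ord_D_pi v _ hN hπ, ← ord_D_pi v _ hN hπ, Derivation.coe_smul, Pi.smul_apply,
    smul_eq_mul, v.ord_mul h0 (D_pi_ne_zero v D hN hD hπ)]

/-- the values of a function and of its derivative -/
theorem le_ord_D [IsAlgClosed k] (hN : IsFunctionField k L) {x : L} (hDx : D x ≠ 0) :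
    v.ord x - 1 + ordDer v D ≤ v.ord (D x) := by
  obtain ⟨π, hπ0, hπ⟩ := v.exists_uniformizer
  have hD : D ≠ 0 := by
    rintro rfl
    exact hDx rfl
  have hDπ := D_pi_ne_zero v D hN hD hπ
  let E : WithZero (Multiplicative ℤ) := v.val (D π) * WithZero.exp 1
  have h1 : v.val (D π) ≤ E * v.val π := by
    simp only [E]
    rw [hπ, mul_assoc, ← WithZero.exp_add]
    simp
  let n : ℤ := v.ord x
  have hx : x ≠ 0 := by
    rintro rfl
    exact hDx (map_zero D)
  have hx0 : v.val x ≠ 0 := by simpa using hx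
  have hvx : v.val x = WithZero.exp (-n) := by
    change v.val x = WithZero.exp (-(-WithZero.log (v.val x)))
    rw [neg_neg, WithZero.exp_log hx0]
  let u : L := x * π ^ (-n)
  have hu : v.val u = 1 := by
    rw [map_mul, map_zpow₀, hπ, hvx, ← WithZero.exp_zsmul, ← WithZero.exp_add]
    simp
  have hxu : x = π ^ n * u := by
    change x = π ^ n * (x * π ^ (-n))
    rw [zpow_neg]
    (clear * - hπ0 hx; field_simp)
  have h2 : v.val (D u) ≤ E * v.val u := by
    rw [hu, mul_one]
    refine (val_D_le_pi' v D hN hπ hu.le).trans ?_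
    simp only [E]
    refine le_mul_of_one_le_right' ?_
    rw [← WithZero.exp_zero, WithZero.exp_le_exp]
    norm_num
  have h3 := val_D_mul v D E _ _ (val_D_zpow v D E π h1 n) h2
  have hval : v.val (D π) = WithZero.exp (-(ordDer v D)) := by
    have h0 : v.val (D π) ≠ 0 := by simpa using hDπ
    rw [← ord_D_pi v D hN hπ, Place.ord, neg_neg, WithZero.exp_log h0]
  simp only [E] at h3
  rw [← hxu, hvx, hval, ← WithZero.exp_add, ← WithZero.exp_add, val_le_exp_iff v _ hDx] at h3
  change n - 1 + _ ≤ _
  omega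

/-- tame case: the exact order of the derivative -/
theorem ord_D_eq [IsAlgClosed k] (hN : IsFunctionField k L) (hD : D ≠ 0) {x : L}
    (hx : ((v.ord x : ℤ) : k) ≠ 0) :
    D x ≠ 0 ∧ v.ord (D x) = v.ord x - 1 + ordDer v D := by
  obtain ⟨π, hπ0, hπ⟩ := v.exists_uniformizer
  have hDπ := D_pi_ne_zero v D hN hD hπ
  have hDπv : v.val (D π) ≠ 0 := by simpa using hDπ
  have hx' : x ≠ 0 := by
    rintro rfl
    rw [v.ord_zero] at hx
    simp at hx
  obtain ⟨n, hn⟩ : ∃ n : ℤ, v.ord x = n := ⟨_, rfl⟩
  rw [hn] at hx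
  have hx0 : v.val x ≠ 0 := by simpa using hx'
  have hvx : v.val x = WithZero.exp (-n) := by
    rw [← hn, Place.ord, neg_neg, WithZero.exp_log hx0]
  obtain ⟨u, hu'⟩ : ∃ u, u = x * π ^ (-n) := ⟨_, rfl⟩
  have hu : v.val u = 1 := by
    rw [hu', map_mul, map_zpow₀, hπ, hvx, ← WithZero.exp_zsmul, ← WithZero.exp_add]
    simp
  have hxu : x = π ^ n * u := by
    rw [hu', zpow_neg]
    (clear * - hπ0 hx'; field_simp)
  have hDx : D x = ((n : ℤ) : L) * π ^ (n - 1) * u * D π + π ^ n * D u := by
    conv_lhs => rw [hxu]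
    rw [Derivation.leibniz, Derivation.leibniz_zpow]
    simp only [smul_eq_mul, zsmul_eq_mul]
    ring
  have hcast : v.val ((n : ℤ) : L) = 1 := by
    have := v.triv ((n : ℤ) : k) hx
    rwa [map_intCast] at this
  have h1 : v.val (((n : ℤ) : L) * π ^ (n - 1) * u * D π) =
      WithZero.exp (-(n - 1)) * v.val (D π) := by
    rw [map_mul, map_mul, map_mul, hcast, hu, map_zpow₀, hπ, one_mul, mul_one,
      ← WithZero.exp_zsmul]
    congr 2
    simp
  have h2 : v.val (π ^ n * D u) < v.val (((n : ℤ) : L) * π ^ (n - 1) * u * D π) := by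
    rw [h1, map_mul, map_zpow₀, hπ, ← WithZero.exp_zsmul]
    have h3 := val_D_le_pi' v D hN hπ hu.le
    calc WithZero.exp (n • (-1 : ℤ)) * v.val (D u)
        ≤ WithZero.exp (n • (-1 : ℤ)) * v.val (D π) := mul_le_mul_right h3 _
      _ < WithZero.exp (-(n - 1)) * v.val (D π) := by
          refine mul_lt_mul_of_pos_right ?_ (zero_lt_iff.2 hDπv)
          rw [WithZero.exp_lt_exp]
          simp
  have h4 : v.val (D x) = WithZero.exp (-(n - 1)) * v.val (D π) := by
    rw [hDx, Valuation.map_add_eq_of_lt_left _ h2, h1]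
  have h5 : v.val (D x) ≠ 0 := by
    rw [h4]
    exact mul_ne_zero WithZero.exp_ne_zero hDπv
  refine ⟨by simpa using h5, ?_⟩
  rw [hn, ← ord_D_pi v D hN hπ, Place.ord, Place.ord, h4,
    WithZero.log_mul WithZero.exp_ne_zero hDπv, WithZero.log_exp]
  ring

theorem ordDer_finite [IsAlgClosed k] (hN : IsFunctionField k L) (hD : D ≠ 0) :
    {v : Place k L | ordDer v D ≠ 0}.Finite := by
  obtain ⟨t, ht, hs⟩ := exists_separating hN
  obtain ⟨D0, hD0⟩ := exists_deriv t ht
  have hne : D0 ≠ 0 := by
    rintro rfl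
    simp at hD0
  obtain ⟨P, hP1, hP2⟩ := exists_psys_aux hN t ht D0 hD0
  have hfin : ∀ x : L, {v : Place k L | v.ord x ≠ 0}.Finite := by
    intro x
    obtain ⟨S, h1, -⟩ := hN.product_formula x
    refine S.finite_toSet.subset ?_
    intro v hv
    exact (h1 v).2 hv
  obtain ⟨h, rfl⟩ := exists_eq_smul hN hne D
  have h0 : h ≠ 0 := by
    rintro rfl
    exact hD (zero_smul _ _)
  have h1 : {v : Place k L | ordDer v D0 ≠ 0} ⊆ {v | P.e v ≠ 0} ∪ {v | v.ord t ≠ 0} := by
    intro v hv
    by_contra hcon
    simp only [Set.mem_union, Set.mem_ofPred_eq, not_or, not_not] at hcon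
    apply hv
    apply le_antisymm
    · have h2 : v.val t ≤ 1 := (v.ord_nonneg_iff (transcendental_ne_zero ht)).1 hcon.2.ge
      have h3 := ordDer_le v hN (D := D0) h2 (by rw [hD0]; exact one_ne_zero)
      rw [hD0, v.ord_one] at h3
      exact h3
    · obtain ⟨π, hπ0, hπ⟩ := v.exists_uniformizer
      have h4 := P.ord_D' v π hπ0 (by rw [hP1]; exact D_pi_ne_zero v D0 hN hne hπ) (by
        rw [hP2]; exact (v.ord_nonneg_iff hπ0).2 (by rw [hπ]; exact exp_neg_one_lt.le))
      rw [hP1, hP2, hcon.1] at h4
      rw [← ord_D_pi v D0 hN hπ]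
      change -((0 : ℕ) : ℤ) ≤ v.ord (D0 π) at h4
      simpa using h4
  refine (((P.e_finite.union (hfin t)).subset h1).union (hfin h)).subset ?_
  intro v hv
  by_contra hcon
  simp only [Set.mem_union, Set.mem_ofPred_eq, not_or, not_not] at hcon
  apply hv
  rw [ordDer_smul v hN hne h0, hcon.1, hcon.2, add_zero]

end ord

end Pool.Agent.Helper31.RRK

end

section

set_option autoImplicit false

set_option linter.style.haveILetI false

namespace Pool.Agent.Helper31.RRK

open Polynomial IntermediateField Pool.Agent.Helper16 Pool.Agent.Helper33 Pool.Agent.Helper45.FF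

open Pool.Agent.Helper45.S4 Pool.Agent.Helper47.RR

section cdeg

variable {k L : Type} [Field k] [Field L] [Algebra k L]

/-- The divisor of the differential dual to a nonzero derivation. -/
noncomputable def canD [IsAlgClosed k] (hN : IsFunctionField k L) (D : Derivation k L L) :
    Dv k L :=
  open scoped Classical in
  if hD : D ≠ 0 then Finsupp.ofSupportFinite (fun v => - ordDer v D) (by
    refine (ordDer_finite hN hD).subset ?_
    intro v hv
    simpa using hv) else 0

theorem canD_apply [IsAlgClosed k] (hN : IsFunctionField k L) {D : Derivation k L L}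
    (hD : D ≠ 0) (v : Place k L) : canD hN D v = - ordDer v D := by
  unfold canD
  rw [dif_pos hD]
  rfl

/-- The degree of the canonical divisor (zero if there is no nonzero derivation). -/
noncomputable def cdeg [IsAlgClosed k] (hN : IsFunctionField k L) : ℤ :=
  degD (canD hN (exists_ne_zero hN).choose)

end cdeg

section tower

variable {k L M : Type} [Field k] [Field L] [Field M] [Algebra k L] [Algebra k M] [Algebra L M]
  [IsScalarTower k L M]

variable [FiniteDimensional L M]

/-- **Different exponents.** -/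
theorem ram_le [IsAlgClosed k] (hN : IsFunctionField k L) (hM : IsFunctionField k M)
    {D : Derivation k L L} (hD : D ≠ 0) {D' : Derivation k M M}
    (h : ∀ x : L, D' (algebraMap L M x) = algebraMap L M (D x)) (w : Place k M) :
    (ram hN w : ℤ) - 1 ≤ ram hN w * ordDer (resPl hN w) D - ordDer w D' ∧
    ((ram hN w : k) ≠ 0 →
      (ram hN w : ℤ) - 1 = ram hN w * ordDer (resPl hN w) D - ordDer w D') := by
  obtain ⟨π, hπ0, hπ⟩ := (resPl hN w).exists_uniformizer
  have hDπ := D_pi_ne_zero (resPl hN w) D hN hD hπ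
  have ho : (resPl hN w).ord π = 1 := by
    rw [Place.ord, hπ, WithZero.log_exp]; norm_num
  have h1 : w.ord (algebraMap L M π) = ram hN w := by
    rw [ord_algebraMap hN w, ho, mul_one]
  have h2 : w.ord (D' (algebraMap L M π)) = ram hN w * ordDer (resPl hN w) D := by
    rw [h, ord_algebraMap hN w, ord_D_pi (resPl hN w) D hN hπ]
  have h3 : D' (algebraMap L M π) ≠ 0 := by
    rw [h]
    simpa using hDπ
  constructor
  · have h4 := le_ord_D w hM h3
    rw [h1, h2] at h4
    omega
  · intro h5
    have h6 := ord_D_eq w hM (ne_zero_of_ext hD h) (x := algebraMap L M π) (by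
      rw [h1]
      simpa using h5)
    rw [h1, h2] at h6
    omega

/-- The pull-back of a divisor along a finite extension has degree `[M : L]` times the degree. -/
theorem sum_pullback [IsAlgClosed k] (hN : IsFunctionField k L) (A : Dv k L) :
    ∃ B : Dv k M, (∀ w, B w = ram hN w * A (resPl hN w)) ∧
      degD B = Module.finrank L M * degD A := by
  classical
  choose T hT1 hT2 using fun v : Place k L => sum_ram (M := M) hN v
  let S : Finset (Place k M) := A.support.biUnion T
  let B : Dv k M := Finsupp.ofSupportFinite (fun w => ram hN w * A (resPl hN w)) (by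
    refine S.finite_toSet.subset ?_
    intro w hw
    have hw' : A (resPl hN w) ≠ 0 := fun h0 => hw (by simp [h0])
    simp only [S, Finset.coe_biUnion, Set.mem_iUnion]
    exact ⟨resPl hN w, by simpa using hw', by simpa using (hT1 _ w).2 rfl⟩)
  refine ⟨B, fun _ => rfl, ?_⟩
  have hB : B.support ⊆ S := by
    intro w hw
    rw [Finsupp.mem_support_iff] at hw
    have hw' : A (resPl hN w) ≠ 0 := fun h0 => hw (by
      change (ram hN w : ℤ) * A (resPl hN w) = 0
      rw [h0, mul_zero])
    simp only [S, Finset.mem_biUnion]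
    exact ⟨resPl hN w, by simpa using hw', (hT1 _ w).2 rfl⟩
  rw [degD_eq_sum B S hB, Finset.sum_biUnion, degD_eq_sum A A.support subset_rfl, Finset.mul_sum]
  · apply Finset.sum_congr rfl
    intro v _
    have h1 : ∑ w ∈ T v, B w = ∑ w ∈ T v, (ram hN w : ℤ) * A v := by
      apply Finset.sum_congr rfl
      intro w hw
      change (ram hN w : ℤ) * A (resPl hN w) = _
      rw [(hT1 v w).1 hw]
    rw [h1, ← Finset.sum_mul]
    congr 1
    exact_mod_cast hT2 v
  · intro v _ v' _ hne
    rw [Function.onFun, Finset.disjoint_left]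
    intro w hw hw'
    exact hne (((hT1 v w).1 hw).symm.trans ((hT1 v' w).1 hw'))

end tower

end Pool.Agent.Helper31.RRK

end

section

set_option autoImplicit false

set_option linter.style.haveILetI false

namespace Pool.Agent.Helper47.RR

open Polynomial IntermediateField Pool.Agent.Helper16 Pool.Agent.Helper33 Pool.Agent.Helper45.FF
  Pool.Agent.Helper45.S4

section approx

variable {k L : Type} [Field k] [Field L] [Algebra k L]

/-- There is a function with a pole at `v` and zeros at finitely many other places. -/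
theorem exists_pole_zero [IsAlgClosed k] (hN : IsFunctionField k L) (v : Place k L)
    (S : Finset (Place k L)) : ∃ g : L, 1 < v.val g ∧ ∀ u ∈ S, u ≠ v → u.val g < 1 := by
  classical
  obtain ⟨f, hf, hfv⟩ := hN.exists_single_pole v
  have hf0 : f ≠ 0 := transcendental_ne_zero hf
  have hpole : 1 < v.val f := by
    obtain ⟨T, hT, hsum, hpos⟩ := hN.zeros f⁻¹ (transcendental_inv hf)
    have hne : T.Nonempty := by
      rw [Finset.nonempty_iff_ne_empty]
      rintro rfl
      rw [Finset.sum_empty] at hsum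
      have : (Module.finrank k⟮f⁻¹⟯ L : ℤ) ≠ 0 := by exact_mod_cast hpos.ne'
      exact this hsum.symm
    obtain ⟨u, hu⟩ := hne
    have h1 := (hT u).1 hu
    rw [map_inv₀] at h1
    have hf0' : u.val f ≠ 0 := by simpa using hf0
    have h2 := (inv_lt_one₀ (zero_lt_iff.2 hf0')).1 h1
    by_cases huw : u = v
    · rw [← huw]; exact h2
    · exact absurd (hfv u huw) (not_le.2 h2)
  have hres : ∀ u : Place k L, ∃ c : k, u ≠ v → u.val (f - algebraMap k L c) < 1 := by
    intro u
    by_cases hu : u = v
    · exact ⟨0, fun h => absurd hu h⟩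
    · obtain ⟨c, hc⟩ := exists_res_val hN u f (hfv u hu)
      exact ⟨c, fun _ => hc⟩
  choose c hc using hres
  refine ⟨f * ∏ u ∈ S.erase v, (f - algebraMap k L (c u)), ?_, ?_⟩
  · rw [map_mul, map_prod]
    apply one_lt_mul_of_lt_of_le' hpole
    apply Finset.one_le_prod'
    intro u _
    rw [Valuation.map_sub_eq_of_lt_left _ (lt_of_le_of_lt (v.val_algebraMap_le (c u)) hpole)]
    exact hpole.le
  · intro u hu huv
    rw [map_mul, map_prod]
    have hmem : u ∈ S.erase v := Finset.mem_erase.2 ⟨huv, hu⟩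
    rw [← Finset.mul_prod_erase _ _ hmem]
    have h1 : u.val f ≤ 1 := hfv u huv
    have h2 : u.val (f - algebraMap k L (c u)) < 1 := hc u huv
    have h3 : ∏ w ∈ (S.erase v).erase u, u.val (f - algebraMap k L (c w)) ≤ 1 := by
      apply Finset.prod_le_one'
      intro w _
      exact (u.val.map_sub _ _).trans (max_le h1 (u.val_algebraMap_le _))
    exact lt_of_le_of_lt (mul_le_of_le_one_left' h1) (mul_lt_one_of_lt_of_le h2 h3)

/-- An element close to one at `v` and close to zero at finitely many other places. -/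
theorem exists_idem [IsAlgClosed k] (hN : IsFunctionField k L) (v : Place k L)
    (S : Finset (Place k L)) (m : ℕ) : ∃ z : L, v.val (z - 1) ≤ WithZero.exp (-(m : ℤ)) ∧
      ∀ u ∈ S, u ≠ v → u.val z ≤ WithZero.exp (-(m : ℤ)) := by
  obtain ⟨g, hg, hgS⟩ := exists_pole_zero hN v S
  have hg0 : g ≠ 0 := by
    rintro rfl
    rw [map_zero] at hg
    exact absurd hg (not_lt.2 zero_le)
  rcases Nat.eq_zero_or_pos m with hm | hm
  · subst hm
    refine ⟨0, by simp, fun u _ _ => by simp⟩
  have hgm : 1 < v.val (g ^ m) := by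
    rw [map_pow]; exact one_lt_pow₀ hg hm.ne'
  have h1g : v.val (1 + g ^ m) = v.val (g ^ m) := by
    rw [Valuation.map_add_eq_of_lt_right]
    rw [map_one]; exact hgm
  have hne : 1 + g ^ m ≠ 0 := by
    intro h
    rw [h, map_zero] at h1g
    rw [← h1g] at hgm
    exact absurd hgm (not_lt.2 zero_le)
  refine ⟨g ^ m / (1 + g ^ m), ?_, ?_⟩
  · have h2 : g ^ m / (1 + g ^ m) - 1 = -(1 + g ^ m)⁻¹ := by
      field_simp
      ring
    rw [h2, Valuation.map_neg, map_inv₀, h1g, map_pow]
    have h3 : WithZero.exp (1 : ℤ) ≤ v.val g := by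
      have h4 := hg
      rw [← WithZero.log_le_log (by simp) (by simpa using hg0)]
      rw [← WithZero.log_lt_log one_ne_zero (by simpa using hg0)] at h4
      rw [WithZero.log_one] at h4
      rw [WithZero.log_exp]
      omega
    have h5 : WithZero.exp (m : ℤ) ≤ v.val g ^ m := by
      calc WithZero.exp (m : ℤ) = WithZero.exp (1 : ℤ) ^ m := by
            rw [← WithZero.exp_nsmul]; simp
        _ ≤ _ := pow_le_pow_left' h3 m
    rw [WithZero.exp_neg]
    exact inv_anti₀ (by simp [zero_lt_iff]) h5
  · intro u hu huv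
    have h1 := hgS u hu huv
    have h2 : u.val (g ^ m) < 1 := by
      rw [map_pow]; exact pow_lt_one₀ zero_le h1 hm.ne'
    have h3 : u.val (1 + g ^ m) = 1 := by
      rw [Valuation.map_add_eq_of_lt_left, map_one]
      rw [map_one]; exact h2
    rw [map_div₀, h3, div_one, map_pow]
    have h4 : u.val g ≤ WithZero.exp (-1 : ℤ) := by
      rw [← WithZero.log_le_log (by simpa using hg0) (by simp)]
      rw [← WithZero.log_lt_log (by simpa using hg0) one_ne_zero] at h1
      rw [WithZero.log_one] at h1
      rw [WithZero.log_exp]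
      omega
    calc u.val g ^ m ≤ WithZero.exp (-1 : ℤ) ^ m := pow_le_pow_left' h4 m
      _ = WithZero.exp (-(m : ℤ)) := by rw [← WithZero.exp_nsmul]; simp

/-- Weak approximation. -/
theorem weak_approx [IsAlgClosed k] (hN : IsFunctionField k L) (S : Finset (Place k L))
    (a : Place k L → L) (n : ℤ) : ∃ x : L, ∀ v ∈ S, v.val (x - a v) ≤ WithZero.exp n := by
  classical
  -- a bound for all the values
  obtain ⟨B, hB⟩ : ∃ B : ℕ, ∀ u ∈ S, ∀ v ∈ S, u.val (a v) ≤ WithZero.exp (B : ℤ) := by
    let f : Place k L × Place k L → ℕ := fun p => (WithZero.log (p.1.val (a p.2))).toNat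
    refine ⟨∑ p ∈ S ×ˢ S, f p, ?_⟩
    intro u hu v hv
    by_cases h0 : a v = 0
    · rw [h0, map_zero]; exact zero_le
    · rw [← WithZero.log_le_log (by simpa using h0) (by simp), WithZero.log_exp]
      have h1 : f (u, v) ≤ ∑ p ∈ S ×ˢ S, f p :=
        Finset.single_le_sum (fun _ _ => Nat.zero_le _) (Finset.mem_product.2 ⟨hu, hv⟩)
      have h2 : WithZero.log (u.val (a v)) ≤ (f (u, v) : ℤ) := Int.self_le_toNat _
      have h3 : (f (u, v) : ℤ) ≤ ((∑ p ∈ S ×ˢ S, f p : ℕ) : ℤ) := by exact_mod_cast h1
      exact h2.trans h3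
  let m : ℕ := B + (-n).toNat
  have hm : (B : ℤ) - m ≤ n := by
    have := Int.self_le_toNat (-n)
    simp only [m]
    push_cast
    omega
  choose z hz1 hz2 using fun v : Place k L => exists_idem hN v S m
  refine ⟨∑ v ∈ S, a v * z v, ?_⟩
  intro u hu
  have h1 : (∑ v ∈ S, a v * z v) - a u = a u * (z u - 1) + ∑ v ∈ S.erase u, a v * z v := by
    rw [← Finset.add_sum_erase S _ hu]; ring
  have hexp : WithZero.exp (B : ℤ) * WithZero.exp (-(m : ℤ)) ≤ WithZero.exp n := by
    rw [← WithZero.exp_add, WithZero.exp_le_exp]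
    omega
  rw [h1]
  refine (u.val.map_add _ _).trans (max_le ?_ ?_)
  · rw [map_mul]
    exact (mul_le_mul' (hB u hu u hu) (hz1 u)).trans hexp
  · apply Valuation.map_sum_le
    intro v hv
    rw [Finset.mem_erase] at hv
    rw [map_mul]
    exact (mul_le_mul' (hB u hu v hv.2) (hz2 v u hu (Ne.symm hv.1))).trans hexp

end approx

end Pool.Agent.Helper47.RR

end

section

set_option autoImplicit false

set_option linter.style.haveILetI false

set_option linter.unusedSectionVars false

namespace Pool.Agent.Helper31.RRK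

open Polynomial IntermediateField Pool.Agent.Helper16 Pool.Agent.Helper33 Pool.Agent.Helper45.FF

open Pool.Agent.Helper45.S4 Pool.Agent.Helper47.RR

variable {k L M : Type} [Field k] [Field L] [Field M] [Algebra k L] [Algebra k M] [Algebra L M]
  [IsScalarTower k L M]

section val

variable (hN : IsFunctionField k L) [Algebra.IsAlgebraic L M]

theorem val_algebraMap_le_one {v : Place k L} {w : Place k M} (hw : resPl hN w = v) {a : L}
    (h : v.val a ≤ 1) : w.val (algebraMap L M a) ≤ 1 := by
  have := val_algebraMap_le_exp hN hw (m := 0) (by simpa using h)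
  simpa using this

end val

variable [IsAlgClosed k] (hN : IsFunctionField k L) [FiniteDimensional L M]

theorem exists_locGen (v : Place k L) : ∃ (x : M) (c : Place k M → k), LocGen hN v x c := by
  classical
  have hM : IsFunctionField k M := isFunctionField_ext hN
  haveI : Infinite k := IsAlgClosed.instInfinite
  obtain ⟨c, hc⟩ : ∃ c : Place k M → k, ∀ w ∈ fib (M := M) hN v, ∀ w' ∈ fib (M := M) hN v,
      c w = c w' → w = w' := by
    let e := (fib (M := M) hN v).equivFin
    let f := Infinite.natEmbedding k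
    refine ⟨fun w => if h : w ∈ fib (M := M) hN v then f (e ⟨w, h⟩) else 0, ?_⟩
    intro w hw w' hw' h
    simp only [dif_pos hw, dif_pos hw'] at h
    have h1 := Fin.ext (f.injective h)
    exact congrArg Subtype.val (e.injective h1)
  choose ϖ hϖ0 hϖ using fun w : Place k M => w.exists_uniformizer
  obtain ⟨x, hx⟩ := weak_approx hM (fib (M := M) hN v)
    (fun w => algebraMap k M (c w) + ϖ w) (-2)
  refine ⟨x, c, ⟨fun w hw => ?_, fun w w' hw hw' h => ?_⟩⟩
  · have h1 := hx w ((mem_fib hN v w).2 hw)
    have h2 : x - algebraMap k M (c w) = ϖ w + (x - (algebraMap k M (c w) + ϖ w)) := by ring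
    rw [h2, Valuation.map_add_eq_of_lt_left, hϖ]
    rw [hϖ]
    refine h1.trans_lt ?_
    rw [WithZero.exp_lt_exp]
    norm_num
  · exact hc w ((mem_fib hN v w).2 hw) w' ((mem_fib hN v w').2 hw') h

namespace LocGen

variable {hN} {v : Place k L} {x : M} {c : Place k M → k} (hx : LocGen hN v x c)

include hx

omit [IsAlgClosed k] in
theorem val_sub_of_ne {w : Place k M} (hw : resPl hN w = v) {a : k} (ha : a ≠ c w) :
    w.val (x - algebraMap k M a) = 1 := by
  have h2 : x - algebraMap k M a = algebraMap k M (c w - a) + (x - algebraMap k M (c w)) := by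
    rw [map_sub]; ring
  have h1 : w.val (algebraMap k M (c w - a)) = 1 := w.triv _ (sub_ne_zero.2 (Ne.symm ha))
  rw [h2, Valuation.map_add_eq_of_lt_left, h1]
  rw [h1, hx.unif w hw]
  exact exp_neg_one_lt

omit hx in
theorem Pi_monic : (Pi hN v c).Monic :=
  monic_prod_of_monic _ _ fun w _ => (monic_X_sub_C (c w)).pow _

theorem val_Pi {w : Place k M} (hw : resPl hN w = v) :
    w.val (aeval x (Pi hN v c)) = WithZero.exp (-(ram hN w : ℤ)) := by
  unfold Pi
  rw [map_prod, map_prod, Finset.prod_eq_single w]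
  · rw [map_pow, map_pow, map_sub, aeval_X, aeval_C, hx.unif w hw, ← WithZero.exp_nsmul]
    simp
  · intro w' hw' hne
    rw [mem_fib] at hw'
    rw [map_pow, map_pow, map_sub, aeval_X, aeval_C, hx.val_sub_of_ne hw, one_pow]
    exact fun h0 => hne (hx.inj w' w hw' hw h0)
  · intro h
    exact absurd ((mem_fib hN v w).2 hw) h

theorem adjoin_eq_top : Algebra.adjoin L {x} = ⊤ := by
  have hint : IsIntegral L x := Algebra.IsIntegral.isIntegral x
  have h1 : L⟮x⟯ = ⊤ := by
    apply IntermediateField.eq_of_le_of_finrank_eq le_top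
    rw [IntermediateField.adjoin.finrank hint, hx.natDegree_minpoly, IntermediateField.finrank_top']
  rw [← IntermediateField.adjoin_simple_toSubalgebra_of_isAlgebraic hint.isAlgebraic, h1,
    IntermediateField.top_toSubalgebra]

/-- the coefficients of the minimal polynomial are integral at `v` -/
theorem coeff_minpoly_le (i : ℕ) : v.val ((minpoly L x).coeff i) ≤ 1 := by
  have hint : IsIntegral L x := Algebra.IsIntegral.isIntegral x
  set n := Module.finrank L M with hn
  have hn0 : 0 < n := Module.finrank_pos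
  have hdeg := hx.natDegree_minpoly
  have hmon := minpoly.monic hint
  have hlt : (minpoly L x - X ^ n).natDegree < n := by
    have h0 : (minpoly L x - X ^ n).degree < (minpoly L x).degree := by
      apply degree_sub_lt_left
      · rw [degree_eq_natDegree hmon.ne_zero, hdeg, degree_X_pow]
      · exact hmon.ne_zero
      · rw [hmon.leadingCoeff, leadingCoeff_X_pow]
    rw [degree_eq_natDegree hmon.ne_zero, hdeg] at h0
    by_cases h1 : minpoly L x - X ^ n = 0
    · rw [h1, natDegree_zero]; exact hn0
    · exact (natDegree_lt_iff_degree_lt h1).2 h0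
  have h1 := hx.coeff_val_le (minpoly L x - X ^ n) hlt (by
    intro w hw
    rw [map_sub, minpoly.aeval, zero_sub, Valuation.map_neg, map_pow, aeval_X, map_pow]
    exact pow_le_one' (hx.val_x_le hw) n) i
  have h2 : (minpoly L x).coeff i = (minpoly L x - X ^ n).coeff i + (X ^ n : L[X]).coeff i := by
    rw [coeff_sub]; ring
  rw [h2]
  refine (v.val.map_add _ _).trans (max_le h1 ?_)
  rw [coeff_X_pow]
  split_ifs <;> simp

/-- The minimal polynomial is congruent to the product polynomial. -/
theorem minpoly_sub_Pi (i : ℕ) :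
    v.val ((minpoly L x - (Pi hN v c).map (algebraMap k L)).coeff i) ≤ WithZero.exp (-1 : ℤ) := by
  have hint : IsIntegral L x := Algebra.IsIntegral.isIntegral x
  have hmon := minpoly.monic hint
  obtain ⟨P, hP1, hP2⟩ := exists_residue_poly hN v (minpoly L x) hx.coeff_minpoly_le
  have hdvd : Pi hN v c ∣ P := by
    apply hx.Pi_dvd
    intro w hw
    have h1 : aeval x P = - aeval x (minpoly L x - P.map (algebraMap k L)) := by
      rw [map_sub, aeval_map_algebraMap, minpoly.aeval]; ring
    rw [h1, Valuation.map_neg]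
    have h2 := hx.val_aeval_le hw _ (-1) hP2
    rwa [mul_neg_one] at h2
  have hlead : P.coeff (Module.finrank L M) = 1 := by
    have h1 := hP2 (Module.finrank L M)
    rw [coeff_sub, coeff_map, ← hx.natDegree_minpoly, hmon.coeff_natDegree,
      ← map_one (algebraMap k L), ← map_sub] at h1
    by_contra hne
    rw [hx.natDegree_minpoly] at h1
    rw [v.triv _ (sub_ne_zero.2 (Ne.symm hne))] at h1
    exact absurd h1 (not_le.2 exp_neg_one_lt)
  have hPdeg : P.natDegree = Module.finrank L M := by
    apply le_antisymm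
    · rw [← hx.natDegree_minpoly]; exact hP1
    · apply le_natDegree_of_ne_zero
      rw [hlead]; exact one_ne_zero
  have hPmon : P.Monic := by
    rw [Monic, leadingCoeff, hPdeg, hlead]
  have hPeq : Pi hN v c = P :=
    (eq_of_monic_of_dvd_of_natDegree_le Pi_monic hPmon hdvd (by rw [hPdeg, natDegree_Pi])).symm
  rw [hPeq]
  exact hP2 i

end LocGen

end Pool.Agent.Helper31.RRK

end

section

set_option autoImplicit false

set_option linter.style.haveILetI false

set_option linter.unusedSectionVars false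

namespace Pool.Agent.Helper31.RRK

open Polynomial IntermediateField Pool.Agent.Helper16 Pool.Agent.Helper33 Pool.Agent.Helper45.FF

open Pool.Agent.Helper45.S4 Pool.Agent.Helper47.RR

open scoped Pointwise

variable {k L M : Type} [Field k] [Field L] [Field M] [Algebra k L] [Algebra k M] [Algebra L M]
  [IsScalarTower k L M]

variable [IsAlgClosed k] {hN : IsFunctionField k L} [FiniteDimensional L M]

namespace LocGen

variable {v : Place k L} {x : M} {c : Place k M → k} (hx : LocGen hN v x c)

include hx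

/-- **The different exponent** is the order of `f'(x)`. -/
theorem ord_derivative (hM : IsFunctionField k M) [Algebra.IsSeparable L M]
    {D : Derivation k L L} (hD : D ≠ 0)
    {D' : Derivation k M M} (h : ∀ x : L, D' (algebraMap L M x) = algebraMap L M (D x))
    {w : Place k M} (hw : resPl hN w = v) :
    w.ord (aeval x (derivative (minpoly L x))) = ram hN w * ordDer v D - ordDer w D' := by
  obtain ⟨π, hπ0, hπ⟩ := v.exists_uniformizer
  have hDπ := D_pi_ne_zero v D hN hD hπ
  have hD' := ne_zero_of_ext hD h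
  set f := minpoly L x with hf
  set P := Pi hN v c with hP
  set g : L[X] := f - P.map (algebraMap k L) with hg
  set q : L[X] := C π⁻¹ * g with hq
  have hgv : ∀ i, v.val (g.coeff i) ≤ WithZero.exp (-1 : ℤ) := hx.minpoly_sub_Pi
  have hqv : ∀ i, v.val (q.coeff i) ≤ 1 := by
    intro i
    rw [hq, coeff_C_mul, map_mul, map_inv₀, hπ]
    exact (inv_mul_le_one₀ (zero_lt_iff.2 WithZero.exp_ne_zero)).2 (hgv i)
  have hgq : g = C π * q := by
    rw [hq, ← mul_assoc, ← C_mul, mul_inv_cancel₀ hπ0, C_1, one_mul]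
  have hfq : f = P.map (algebraMap k L) + C π * q := by
    rw [← hgq, hg]; ring
  have hwπ : w.val (algebraMap L M π) = WithZero.exp (-(ram hN w : ℤ)) := by
    rw [val_algebraMap_eq hN, hw, hπ, ← WithZero.exp_nsmul]
    simp
  have hπM : algebraMap L M π ≠ 0 := by simpa using hπ0
  -- value of `q(x)`
  have hfx : aeval x P + algebraMap L M π * aeval x q = 0 := by
    have h1 : aeval x f = 0 := minpoly.aeval L x
    rw [hfq, map_add, aeval_map_algebraMap, map_mul, aeval_C] at h1
    exact h1
  have hqx : w.val (aeval x q) = 1 := by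
    have h1 : algebraMap L M π * aeval x q = - aeval x P := by linear_combination hfx
    have h2 := congrArg w.val h1
    rw [map_mul, Valuation.map_neg, hx.val_Pi hw, hwπ] at h2
    exact mul_left_cancel₀ WithZero.exp_ne_zero (h2.trans (mul_one _).symm)
  set H : M := q.sum (fun i a => algebraMap L M (D a) * x ^ i) with hH
  have hHv : w.val H ≤ w.val (algebraMap L M (D π)) := by
    rw [hH, Polynomial.sum_def]
    apply Valuation.map_sum_le
    intro i _
    rw [map_mul, map_pow]
    calc w.val (algebraMap L M (D (q.coeff i))) * w.val x ^ i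
        ≤ w.val (algebraMap L M (D π)) * 1 := by
          refine mul_le_mul' ?_ (pow_le_one' (hx.val_x_le hw) i)
          rw [val_algebraMap_eq hN, val_algebraMap_eq hN, hw]
          exact pow_le_pow_left' (val_D_le_pi' v D hN hπ (hqv i)) _
      _ = _ := mul_one _
  have hmain : aeval x (derivative f) * D' x =
      -(algebraMap L M (D π) * aeval x q + algebraMap L M π * H) := by
    have h1 : D' (aeval x P + algebraMap L M π * aeval x q) = 0 := by rw [hfx, map_zero]
    rw [map_add, Derivation.map_aeval, Derivation.leibniz, h, D_aeval D D' h x q, smul_eq_mul,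
      smul_eq_mul, smul_eq_mul, ← hH] at h1
    have h2 : aeval x (derivative f) = aeval x (derivative P) +
        algebraMap L M π * aeval x (derivative q) := by
      rw [hfq, derivative_add, derivative_C_mul, derivative_map, map_add, map_mul, aeval_C,
        aeval_map_algebraMap]
    rw [h2]
    linear_combination h1
  have hval : w.val (aeval x (derivative f) * D' x) = w.val (algebraMap L M (D π)) := by
    have h0 : w.val (algebraMap L M (D π)) ≠ 0 := by simpa using hDπ
    rw [hmain, Valuation.map_neg, Valuation.map_add_eq_of_lt_left, map_mul, hqx, mul_one]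
    rw [map_mul, map_mul, hqx, mul_one, hwπ]
    calc WithZero.exp (-(ram hN w : ℤ)) * w.val H
        ≤ WithZero.exp (-(ram hN w : ℤ)) * w.val (algebraMap L M (D π)) := mul_le_mul_right hHv _
      _ < 1 * w.val (algebraMap L M (D π)) := by
          refine mul_lt_mul_of_pos_right ?_ (zero_lt_iff.2 h0)
          rw [← WithZero.exp_zero, WithZero.exp_lt_exp]
          have := ram_pos hN w
          omega
      _ = _ := one_mul _
  have hDx : D' x = D' (x - algebraMap k M (c w)) := by
    rw [map_sub, Derivation.map_algebraMap, sub_zero]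
  have hDx0 : D' x ≠ 0 := by
    rw [hDx]
    exact D_pi_ne_zero w D' hM hD' (hx.unif w hw)
  have hordx : w.ord (D' x) = ordDer w D' := by
    rw [hDx]
    exact ord_D_pi w D' hM (hx.unif w hw)
  have hint : IsIntegral L x := Algebra.IsIntegral.isIntegral x
  have hf0 : aeval x (derivative f) ≠ 0 :=
    (Algebra.IsSeparable.isSeparable L x).aeval_derivative_ne_zero (minpoly.aeval L x)
  have h1 : w.ord (aeval x (derivative f) * D' x) = w.ord (algebraMap L M (D π)) := by
    rw [Place.ord, Place.ord, hval]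
  rw [w.ord_mul hf0 hDx0, hordx, Pool.Agent.Helper45.S4.ord_algebraMap hN w, hw,
    ord_D_pi v D hN hπ] at h1
  (clear * - h1; linarith)

end LocGen

namespace LocGen

variable {v : Place k L} {x : M} {c : Place k M → k} (hx : LocGen hN v x c)

include hx

theorem isIntegral_x : IsIntegral v.ring x := by
  have hint : IsIntegral L x := Algebra.IsIntegral.isIntegral x
  obtain ⟨q, hq1, hq2, hq3⟩ := lifts_and_natDegree_eq_and_monic (f := algebraMap v.ring L)
    (p := minpoly L x) (by
      rw [lifts_iff_coeff_lifts]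
      intro i
      exact ⟨⟨_, hx.coeff_minpoly_le i⟩, rfl⟩) (minpoly.monic hint)
  refine ⟨q, hq3, ?_⟩
  have h1 : aeval x (q.map (algebraMap v.ring L)) = 0 := by rw [hq1, minpoly.aeval]
  rwa [aeval_map_algebraMap] at h1

theorem mem_adjoin_iff (y : M) : y ∈ Algebra.adjoin v.ring {x} ↔
    ∀ w : Place k M, resPl hN w = v → w.val y ≤ 1 := by
  constructor
  · intro hy w hw
    induction hy using Algebra.adjoin_induction with
    | mem z hz =>
      rw [Set.mem_singleton_iff.1 hz]
      exact hx.val_x_le hw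
    | algebraMap r => exact val_algebraMap_le_one hN hw r.2
    | add a b _ _ ha hb => exact (w.val.map_add _ _).trans (max_le ha hb)
    | mul a b _ _ ha hb => rw [map_mul]; exact mul_le_one' ha hb
  · intro hy
    have hint : IsIntegral L x := Algebra.IsIntegral.isIntegral x
    have h1 : y ∈ Algebra.adjoin L {x} := by rw [hx.adjoin_eq_top]; exact Algebra.mem_top
    rw [Algebra.adjoin_singleton_eq_range_aeval] at h1
    obtain ⟨Q0, hQ0⟩ := h1
    have hQ0' : aeval x Q0 = y := hQ0
    set Q := Q0 %ₘ minpoly L x with hQ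
    have hQx : aeval x Q = y := by
      rw [hQ, Polynomial.aeval_modByMonic_eq_self_of_root (minpoly.aeval L x), hQ0']
    have hdeg : Q.natDegree < Module.finrank L M := by
      rw [← hx.natDegree_minpoly]
      apply natDegree_modByMonic_lt _ (minpoly.monic hint)
      intro h0
      have h2 := hx.natDegree_minpoly
      rw [h0, natDegree_one] at h2
      have h3 : 0 < Module.finrank L M := Module.finrank_pos
      omega
    have hc := hx.coeff_val_le Q hdeg (fun w hw => by rw [hQx]; exact hy w hw)
    rw [← hQx, aeval_eq_sum_range]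
    apply Subalgebra.sum_mem
    intro i _
    rw [Algebra.smul_def]
    have hself : x ∈ Algebra.adjoin v.ring {x} := Algebra.self_mem_adjoin_singleton v.ring x
    have hmem : algebraMap L M (Q.coeff i) ∈ Algebra.adjoin v.ring {x} := by
      have h5 := (Algebra.adjoin v.ring {x}).algebraMap_mem ⟨Q.coeff i, hc i⟩
      rw [IsScalarTower.algebraMap_apply v.ring L M] at h5
      exact h5
    exact (Algebra.adjoin v.ring {x}).mul_mem hmem ((Algebra.adjoin v.ring {x}).pow_mem hself i)

/-- **Euler's formula** for the trace dual. -/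
theorem trace_dual [Algebra.IsSeparable L M] (y : M) :
    (∀ z : M, (∀ w : Place k M, resPl hN w = v → w.val z ≤ 1) →
      v.val (Algebra.trace L M (y * z)) ≤ 1) ↔
    ∀ w : Place k M, resPl hN w = v →
      w.val (aeval x (derivative (minpoly L x)) * y) ≤ 1 := by
  haveI : IsIntegrallyClosed v.ring := inferInstance
  have hf0 : aeval x (derivative (minpoly L x)) ≠ 0 :=
    (Algebra.IsSeparable.isSeparable L x).aeval_derivative_ne_zero (minpoly.aeval L x)
  have key := traceForm_dualSubmodule_adjoin v.ring L hx.adjoin_eq_top hx.isIntegral_x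
  have h1 : y ∈ (Algebra.traceForm L M).dualSubmodule
      (Subalgebra.toSubmodule (Algebra.adjoin v.ring {x})) ↔
      ∀ z : M, (∀ w : Place k M, resPl hN w = v → w.val z ≤ 1) →
      v.val (Algebra.trace L M (y * z)) ≤ 1 := by
    rw [LinearMap.BilinForm.mem_dualSubmodule]
    refine forall_congr' fun z => ?_
    rw [Subalgebra.mem_toSubmodule, hx.mem_adjoin_iff]
    refine imp_congr_right fun _ => ?_
    rw [Submodule.mem_one, Algebra.traceForm_apply]
    constructor
    · rintro ⟨a, ha⟩
      rw [← ha]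
      exact a.2
    · intro h
      exact ⟨⟨_, h⟩, rfl⟩
  rw [← h1, key]
  have h2 : y ∈ (aeval x (derivative (minpoly L x)))⁻¹ •
        (Subalgebra.toSubmodule (Algebra.adjoin v.ring {x})) ↔
      aeval x (derivative (minpoly L x)) * y ∈ Algebra.adjoin v.ring {x} := by
    constructor
    · rintro ⟨z, hz, rfl⟩
      change aeval x (derivative (minpoly L x)) * ((aeval x (derivative (minpoly L x)))⁻¹ * z) ∈ _
      rw [mul_inv_cancel_left₀ hf0]
      exact hz
    · intro hz
      refine ⟨_, hz, ?_⟩
      change (aeval x (derivative (minpoly L x)))⁻¹ * (aeval x (derivative (minpoly L x)) * y) = y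
      rw [inv_mul_cancel_left₀ hf0]
  rw [h2, hx.mem_adjoin_iff]

end LocGen

end Pool.Agent.Helper31.RRK

end

section

set_option autoImplicit false

set_option linter.style.haveILetI false

set_option linter.unusedSectionVars false

namespace Pool.Agent.Helper31.RRK

open Polynomial IntermediateField Pool.Agent.Helper16 Pool.Agent.Helper33 Pool.Agent.Helper45.FF

open Pool.Agent.Helper45.S4 Pool.Agent.Helper47.RR

variable {k L M : Type} [Field k] [Field L] [Field M] [Algebra k L] [Algebra k M] [Algebra L M]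
  [IsScalarTower k L M]

variable [IsAlgClosed k] (hN : IsFunctionField k L) [FiniteDimensional L M]

section dual

variable [Algebra.IsSeparable L M] (hM : IsFunctionField k M)
    {D : Derivation k L L} (hD : D ≠ 0)
    {D' : Derivation k M M} (h : ∀ x : L, D' (algebraMap L M x) = algebraMap L M (D x))

include hM hD h

/-- The trace dual in terms of the different exponents. -/
theorem dual_iff_one (v : Place k L) (y : M) :
    (∀ z : M, (∀ w : Place k M, resPl hN w = v → w.val z ≤ 1) →
      v.val (Algebra.trace L M (y * z)) ≤ 1) ↔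
    ∀ w : Place k M, resPl hN w = v →
      w.val y ≤ WithZero.exp (ram hN w * ordDer (resPl hN w) D - ordDer w D') := by
  obtain ⟨x, c, hx⟩ := exists_locGen (M := M) hN v
  rw [hx.trace_dual]
  refine forall_congr' fun w => imp_congr_right fun hw => ?_
  have hf0 : aeval x (derivative (minpoly L x)) ≠ 0 :=
    (Algebra.IsSeparable.isSeparable L x).aeval_derivative_ne_zero (minpoly.aeval L x)
  have h1 := hx.ord_derivative hM hD h hw
  rw [map_mul, val_eq_exp_of_ord hf0 h1, WithZero.exp_neg,
    inv_mul_le_one₀ (by simp [zero_lt_iff]), hw]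

theorem dual_iff (v : Place k L) (m : ℤ) (y : M) :
    (∀ z : M, (∀ w : Place k M, resPl hN w = v → w.val z ≤ 1) →
      v.val (Algebra.trace L M (y * z)) ≤ WithZero.exp m) ↔
    ∀ w : Place k M, resPl hN w = v →
      w.val y ≤ WithZero.exp (ram hN w * m +
        (ram hN w * ordDer (resPl hN w) D - ordDer w D')) := by
  obtain ⟨π, hπ0, hπ⟩ := v.exists_uniformizer
  have hvπm : v.val (π ^ m) = WithZero.exp (-m) := by
    rw [map_zpow₀, hπ, ← WithZero.exp_zsmul]
    simp
  have hwπm : ∀ w : Place k M, resPl hN w = v →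
      w.val (algebraMap L M (π ^ m)) = WithZero.exp (-((ram hN w : ℤ) * m)) := by
    intro w hw
    rw [val_algebraMap_eq hN, hw, hvπm, ← WithZero.exp_nsmul]
    congr 1
    simp
  have key := dual_iff_one hN hM hD h v (algebraMap L M (π ^ m) * y)
  have h1 : (∀ z : M, (∀ w : Place k M, resPl hN w = v → w.val z ≤ 1) →
      v.val (Algebra.trace L M (algebraMap L M (π ^ m) * y * z)) ≤ 1) ↔
      ∀ z : M, (∀ w : Place k M, resPl hN w = v → w.val z ≤ 1) →
      v.val (Algebra.trace L M (y * z)) ≤ WithZero.exp m := by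
    refine forall_congr' fun z => imp_congr_right fun _ => ?_
    rw [mul_assoc, ← Algebra.smul_def, map_smul, smul_eq_mul, map_mul, hvπm, WithZero.exp_neg,
      inv_mul_le_one₀ (by simp [zero_lt_iff])]
  rw [← h1, key]
  refine forall_congr' fun w => imp_congr_right fun hw => ?_
  rw [map_mul, hwπm w hw, WithZero.exp_neg, WithZero.exp_add,
    inv_mul_le_iff₀ (by simp [zero_lt_iff])]

end dual

end Pool.Agent.Helper31.RRK

end
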