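import Pool.Agent.Helper23.MB.L01_ab3
import Pool.Agent.Helper23.MB.L02_ab0
import Pool.Agent.Helper23.MB.L02_ab1
import Pool.Agent.Helper23.MB.L02_ab2
import Pool.Agent.Helper23.MB.L02_ab6
import Pool.Agent.Helper23.MB.L02_ab7

/-!
Parts of Helper45.S4Res, Helper45.S4Gal, Helper45.S4Inert, Helper5.RRD1, Helper45.Untwist, Helper31.EN.Push, Helper67.EN.NormSep, Helper45.GalW1, Helper45.GalW2, Helper45.UntwistAbs, Helper33.PT.Core1
-/

attribute [-simp] Valuation.IsUniformizer.val
attribute [local instance 5000]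
  Pool.Agent.Helper23.MB.Inst.rCharZero Pool.Agent.Helper23.MB.Inst.rALM
  Pool.Agent.Helper23.MB.Inst.rARM Pool.Agent.Helper23.MB.Inst.rALSM
  Pool.Agent.Helper23.MB.Inst.rARSM Pool.Agent.Helper23.MB.Inst.rARRLE
  Pool.Agent.Helper23.MB.Inst.rALRLE Pool.Agent.Helper23.MB.Inst.rARRLT
  Pool.Agent.Helper23.MB.Inst.rALRLT Pool.Agent.Helper23.MB.Inst.rPMRLT
  Pool.Agent.Helper23.MB.Inst.rMPRLT Pool.Agent.Helper23.MB.Inst.rPMM
  Pool.Agent.Helper23.MB.Inst.rMPM Pool.Agent.Helper23.MB.Inst.rPMSM
  Pool.Agent.Helper23.MB.Inst.rMPSM Pool.Agent.Helper23.MB.Inst.rEAOL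
  Pool.Agent.Helper23.MB.Inst.rIOR Pool.Agent.Helper23.MB.Inst.rISOR
  Pool.Agent.Helper23.MB.Inst.rNZD Pool.Agent.Helper23.MB.Inst.zCharZero
  Pool.Agent.Helper23.MB.Inst.zALM Pool.Agent.Helper23.MB.Inst.zARM
  Pool.Agent.Helper23.MB.Inst.zIOR Pool.Agent.Helper23.MB.Inst.zISOR
  Pool.Agent.Helper23.MB.Inst.zNZD Pool.Agent.Helper23.MB.Inst.qCharZero
  Pool.Agent.Helper23.MB.Inst.free Pool.Agent.Helper23.MB.Inst.faith
  Pool.Agent.Helper23.MB.Inst.torsionFree Pool.Agent.Helper23.MB.Inst.rfFaith
  Pool.Agent.Helper23.MB.Inst.hAdd Pool.Agent.Helper23.MB.Inst.hAddM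
  Pool.Agent.Helper23.MB.Inst.hMul Pool.Agent.Helper23.MB.Inst.hMon
  Pool.Agent.Helper23.MB.Inst.hZero Pool.Agent.Helper23.MB.Inst.hOne
  Pool.Agent.Helper23.MB.Inst.hMZ Pool.Agent.Helper23.MB.Inst.hRing
  Pool.Agent.Helper23.MB.Inst.aAdd Pool.Agent.Helper23.MB.Inst.aAddM
  Pool.Agent.Helper23.MB.Inst.aMul Pool.Agent.Helper23.MB.Inst.aMon
  Pool.Agent.Helper23.MB.Inst.aZero Pool.Agent.Helper23.MB.Inst.aOne
  Pool.Agent.Helper23.MB.Inst.aMZ Pool.Agent.Helper23.MB.Inst.aRing

namespace Pool.Agent.Helper16
end Pool.Agent.Helper16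
namespace Pool.Agent.Helper33
end Pool.Agent.Helper33
namespace Pool.Agent.Helper33.PS
end Pool.Agent.Helper33.PS
namespace Pool.Agent.Helper33.UB
end Pool.Agent.Helper33.UB
namespace Pool.Agent.Helper45.FF
end Pool.Agent.Helper45.FF
namespace Pool.Agent.Helper45.FR
end Pool.Agent.Helper45.FR
namespace Pool.Agent.Helper45.S4
end Pool.Agent.Helper45.S4
namespace Pool.Agent.Helper45.S6
end Pool.Agent.Helper45.S6
namespace Pool.Agent.Helper47.EN
end Pool.Agent.Helper47.EN
namespace Pool.Agent.Helper47.RR
end Pool.Agent.Helper47.RR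
namespace Pool.Agent.Helper51.RatTree
end Pool.Agent.Helper51.RatTree
namespace Pool.Agent.Helper55.RD
end Pool.Agent.Helper55.RD
namespace Pool.Agent.Helper93.RatODE
end Pool.Agent.Helper93.RatODE

section

set_option autoImplicit false

set_option linter.style.haveILetI false

namespace Pool.Agent.Helper45.S4

open Polynomial IntermediateField Pool.Agent.Helper16 Pool.Agent.Helper33 Pool.Agent.Helper45.FF

variable {k L M : Type} [Field k] [Field L] [Field M] [Algebra k L] [Algebra k M] [Algebra L M]
  [IsScalarTower k L M]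

theorem exists_above [IsAlgClosed k] (hN : IsFunctionField k L) [FiniteDimensional L M]
    (v : Place k L) : ∃ w : Place k M, resPl hN w = v := by
  obtain ⟨T, hT, hsum⟩ := sum_ram (M := M) hN v
  have hne : T.Nonempty := by
    rw [Finset.nonempty_iff_ne_empty]
    rintro rfl
    rw [Finset.sum_empty] at hsum
    exact Module.finrank_pos.ne hsum
  obtain ⟨w, hw⟩ := hne
  exact ⟨w, (hT w).1 hw⟩

end Pool.Agent.Helper45.S4

end

section

set_option autoImplicit false

set_option linter.style.haveILetI false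

namespace Pool.Agent.Helper45.S4

open Polynomial IntermediateField Pool.Agent.Helper16 Pool.Agent.Helper33 Pool.Agent.Helper45.FF

section trans

variable {k E M : Type} [Field k] [Field E] [Field M] [Algebra k E] [Algebra k M] [Algebra E M]
  [IsScalarTower k E M]

theorem resPl_ram_unique (hE : IsFunctionField k E) [Algebra.IsAlgebraic E M] (w : Place k M)
    (v : Place k E) (r : ℕ) (hr : 1 ≤ r)
    (h : ∀ x : E, w.ord (algebraMap E M x) = r * v.ord x) : resPl hE w = v ∧ ram hE w = r := by
  have h1 : ∀ x : E, (ram hE w : ℤ) * (resPl hE w).ord x = r * v.ord x := fun x => by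
    rw [← ord_algebraMap hE w, h]
  have hrw := ram_pos hE w
  have h2 : resPl hE w = v := by
    apply place_ext
    intro x hx
    by_cases hx0 : x = 0
    · rw [hx0, map_zero]; exact zero_le
    · rw [← v.ord_nonneg_iff hx0]
      rw [← (resPl hE w).ord_nonneg_iff hx0] at hx
      have h3 := h1 x
      by_contra hcon
      rw [not_le] at hcon
      have h4 : 0 ≤ (ram hE w : ℤ) * (resPl hE w).ord x := mul_nonneg (by positivity) hx
      have h5 : (r : ℤ) * v.ord x < 0 := mul_neg_of_pos_of_neg (by positivity) hcon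
      omega
  refine ⟨h2, ?_⟩
  obtain ⟨π, -, hπ⟩ := exists_ord_eq_one v
  have h3 := h1 π
  rw [h2, hπ, mul_one, mul_one] at h3
  exact_mod_cast h3

theorem resPl_act (hE : IsFunctionField k E) [Algebra.IsAlgebraic E M] (σ : M ≃ₐ[E] M)
    (w : Place k M) : resPl hE (act (σ.restrictScalars k) w) = resPl hE w ∧
      ram hE (act (σ.restrictScalars k) w) = ram hE w := by
  apply resPl_ram_unique hE _ _ _ (ram_pos hE w)
  intro x
  rw [← ord_algebraMap hE w, act_ord]
  congr 1
  exact σ.symm.commutes x

/-- There is a function with a pole at `w'` and units at finitely many other places. -/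
theorem exists_pole_unit [IsAlgClosed k] (hM : IsFunctionField k M) (w' : Place k M)
    (U : Finset (Place k M)) : ∃ g : M, w'.ord g < 0 ∧ ∀ u ∈ U, u ≠ w' → u.ord g = 0 := by
  classical
  obtain ⟨f, hf, hfv⟩ := hM.exists_single_pole w'
  have hf0 : f ≠ 0 := transcendental_ne_zero hf
  have hpole : 1 < w'.val f := by
    obtain ⟨S, hS, hsum, hpos⟩ := hM.zeros f⁻¹ (transcendental_inv hf)
    have hne : S.Nonempty := by
      rw [Finset.nonempty_iff_ne_empty]
      rintro rfl
      rw [Finset.sum_empty] at hsum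
      have : (Module.finrank k⟮f⁻¹⟯ M : ℤ) ≠ 0 := by exact_mod_cast hpos.ne'
      exact this hsum.symm
    obtain ⟨u, hu⟩ := hne
    have h1 := (hS u).1 hu
    rw [map_inv₀] at h1
    have hf0' : u.val f ≠ 0 := by simpa using hf0
    have h2 := (inv_lt_one₀ (zero_lt_iff.2 hf0')).1 h1
    by_cases huw : u = w'
    · rw [← huw]; exact h2
    · exact absurd (hfv u huw) (not_le.2 h2)
  have hres : ∀ u : Place k M, u ≠ w' → ∃ c : k, u.val (f - algebraMap k M c) < 1 :=
    fun u hu => exists_res_val hM u f (hfv u hu)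
  let C : Finset k := U.image (fun u => if h : u ≠ w' then (hres u h).choose else 0)
  haveI : Infinite k := IsAlgClosed.instInfinite
  obtain ⟨c, hc⟩ := Infinite.exists_notMem_finset C
  have hfc0 : f - algebraMap k M c ≠ 0 := by
    intro h
    apply hf
    rw [sub_eq_zero.1 h]
    exact isAlgebraic_algebraMap c
  refine ⟨f - algebraMap k M c, ?_, ?_⟩
  · rw [w'.ord_neg_iff hfc0]
    rw [Valuation.map_sub_eq_of_lt_left _ (lt_of_le_of_lt (w'.val_algebraMap_le c) hpole)]
    exact hpole
  · intro u hu huw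
    have h1 := (hres u huw).choose_spec
    set cu := (hres u huw).choose with hcu
    have hmem : cu ∈ C := by
      refine Finset.mem_image.2 ⟨u, hu, ?_⟩
      rw [dif_pos huw]
    have hne : cu ≠ c := fun h => hc (h ▸ hmem)
    rw [u.ord_eq_zero_iff hfc0]
    have h2 : f - algebraMap k M c = (f - algebraMap k M cu) + algebraMap k M (cu - c) := by
      rw [map_sub]; ring
    have h3 : u.val (algebraMap k M (cu - c)) = 1 := u.triv _ (sub_ne_zero.2 hne)
    rw [h2, Valuation.map_add_eq_of_lt_right _ (by rw [h3]; exact h1), h3]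

/-- The Galois group acts transitively on the places above a given place. -/
theorem exists_act_eq [IsAlgClosed k] (hE : IsFunctionField k E) [FiniteDimensional E M]
    [IsGalois E M] (w w' : Place k M) (h : resPl hE w = resPl hE w') :
    ∃ σ : M ≃ₐ[E] M, act (σ.restrictScalars k) w = w' := by
  classical
  by_contra hcon
  push Not at hcon
  have hM : IsFunctionField k M := isFunctionField_ext hE
  let U : Finset (Place k M) := (Finset.univ.image fun σ : M ≃ₐ[E] M => act (σ.restrictScalars k) w) ∪
    (Finset.univ.image fun σ : M ≃ₐ[E] M => act (σ.restrictScalars k) w')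
  obtain ⟨g, hg, hgU⟩ := exists_pole_unit hM w' U
  have hg0 : g ≠ 0 := by
    rintro rfl
    rw [Place.ord_zero] at hg
    exact lt_irrefl _ hg
  have hN := Algebra.norm_eq_prod_automorphisms E g
  set y := Algebra.norm E g with hy
  have hord : ∀ u : Place k M, u.ord (algebraMap E M y) =
      ∑ σ : M ≃ₐ[E] M, (act ((σ⁻¹ : M ≃ₐ[E] M).restrictScalars k) u).ord g := by
    intro u
    rw [hN, ord_prod u _ _ (fun σ _ => by simpa using hg0)]
    rfl
  have h1 : w.ord (algebraMap E M y) = 0 := by
    rw [hord]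
    apply Finset.sum_eq_zero
    intro σ _
    exact hgU _ (Finset.mem_union_left _ (Finset.mem_image_of_mem _ (Finset.mem_univ _))) (hcon _)
  have h2 : w'.ord (algebraMap E M y) < 0 := by
    rw [hord]
    have h3 : ∀ σ : M ≃ₐ[E] M, (act ((σ⁻¹ : M ≃ₐ[E] M).restrictScalars k) w').ord g ≤ 0 := by
      intro σ
      by_cases h4 : act ((σ⁻¹ : M ≃ₐ[E] M).restrictScalars k) w' = w'
      · rw [h4]; exact hg.le
      · rw [hgU _ (Finset.mem_union_right _ (Finset.mem_image_of_mem _ (Finset.mem_univ _))) h4]
    apply Finset.sum_neg' (fun σ _ => h3 σ)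
    refine ⟨1, Finset.mem_univ _, ?_⟩
    have h5 : act ((1⁻¹ : M ≃ₐ[E] M).restrictScalars k) w' = w' := by
      rw [inv_one]; exact act_one w'
    rw [h5]; exact hg
  rw [ord_algebraMap hE] at h1 h2
  rw [h] at h1
  have hr := ram_pos hE w
  have h3 : (resPl hE w').ord y = 0 := by
    rcases mul_eq_zero.1 h1 with h4 | h4
    · omega
    · exact h4
  rw [h3, mul_zero] at h2
  exact lt_irrefl _ h2

/-- The ramification index is the order of the decomposition group. -/
theorem card_stab [IsAlgClosed k] (hE : IsFunctionField k E) [FiniteDimensional E M]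
    [IsGalois E M] (w : Place k M) :
    Nat.card {σ : M ≃ₐ[E] M // act (σ.restrictScalars k) w = w} = ram hE w := by
  classical
  letI : MulAction (M ≃ₐ[E] M) (Place k M) :=
    { smul := fun σ w => act (σ.restrictScalars k) w
      one_smul := fun w => act_one w
      mul_smul := fun σ τ w => act_mul (σ.restrictScalars k) (τ.restrictScalars k) w }
  obtain ⟨T, hT, hsum⟩ := sum_ram (M := M) hE (resPl hE w)
  have horb : MulAction.orbit (M ≃ₐ[E] M) w = (T : Set (Place k M)) := by
    ext u
    rw [Finset.mem_coe, hT, MulAction.mem_orbit_iff]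
    constructor
    · rintro ⟨σ, rfl⟩
      exact (resPl_act hE σ w).1
    · intro hu
      obtain ⟨σ, hσ⟩ := exists_act_eq hE w u hu.symm
      exact ⟨σ, hσ⟩
  have hconst : ∀ u ∈ T, ram hE u = ram hE w := by
    intro u hu
    obtain ⟨σ, hσ⟩ := exists_act_eq hE w u ((hT u).1 hu).symm
    rw [← hσ]
    exact (resPl_act hE σ w).2
  rw [Finset.sum_congr rfl hconst, Finset.sum_const, smul_eq_mul] at hsum
  haveI : Fintype (MulAction.orbit (M ≃ₐ[E] M) w) := by
    rw [horb]; infer_instance
  have h1 := MulAction.card_orbit_mul_card_stabilizer_eq_card_group (M ≃ₐ[E] M) w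
  have h2 : Fintype.card (MulAction.orbit (M ≃ₐ[E] M) w) = T.card := by
    rw [← Set.toFinset_card]
    congr 1
    ext u
    rw [Set.mem_toFinset, horb, Finset.mem_coe]
  have h3 : Fintype.card (M ≃ₐ[E] M) = Module.finrank E M := by
    rw [← Nat.card_eq_fintype_card]
    exact IsGalois.card_aut_eq_finrank E M
  rw [h2, h3, ← hsum] at h1
  have h4 : 0 < T.card := Finset.card_pos.2 ⟨w, (hT w).2 rfl⟩
  have h5 := Nat.eq_of_mul_eq_mul_left h4 h1
  rw [← h5, ← Nat.card_eq_fintype_card]
  rfl

end trans

end Pool.Agent.Helper45.S4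

end

section

set_option autoImplicit false

set_option linter.style.haveILetI false

namespace Pool.Agent.Helper45.S4

open Polynomial IntermediateField Pool.Agent.Helper16 Pool.Agent.Helper33 Pool.Agent.Helper45.FF

section inertia

variable {k F L M : Type} [Field k] [Field F] [Field L] [Field M] [Algebra k F] [Algebra k L]
  [Algebra k M] [Algebra F L] [Algebra F M] [Algebra L M] [IsScalarTower k F L]
  [IsScalarTower k F M] [IsScalarTower k L M] [IsScalarTower F L M]

theorem resPl_trans (hF : IsFunctionField k F) (hL : IsFunctionField k L)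
    [Algebra.IsAlgebraic F L] [Algebra.IsAlgebraic L M] [Algebra.IsAlgebraic F M] (w : Place k M) :
    resPl hF w = resPl hF (resPl hL w) ∧ ram hF w = ram hL w * ram hF (resPl hL w) := by
  apply resPl_ram_unique hF
  · exact Nat.mul_pos (ram_pos hL w) (ram_pos hF _)
  · intro x
    rw [IsScalarTower.algebraMap_apply F L M, ord_algebraMap hL, ord_algebraMap hF]
    push_cast
    ring

/-- Inertia at a ramified place. -/
theorem exists_inertia_gen [IsAlgClosed k] (hF : IsFunctionField k F) (hL : IsFunctionField k L)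
    [FiniteDimensional F L] [FiniteDimensional L M] [FiniteDimensional F M] [IsGalois F M]
    (v : Place k L) (s : F) (hs : (resPl hF v).ord s = 1) (hv : 2 ≤ v.ord (algebraMap F L s)) :
    ∃ w : Place k M, resPl hL w = v ∧ ∃ σ : M ≃ₐ[F] M, act (σ.restrictScalars k) w = w ∧
      ∃ x : L, σ (algebraMap L M x) ≠ algebraMap L M x := by
  obtain ⟨w, hw⟩ := exists_above (M := M) hL v
  refine ⟨w, hw, ?_⟩
  by_contra hcon
  push Not at hcon
  haveI : IsGalois L M := IsGalois.tower_top_of_isGalois F L M
  have h1 := card_stab hF w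
  have h2 := card_stab hL w
  have h3 : Nat.card {σ : M ≃ₐ[F] M // act (σ.restrictScalars k) w = w} ≤
      Nat.card {σ : M ≃ₐ[L] M // act (σ.restrictScalars k) w = w} := by
    have hex : ∀ σ : {σ : M ≃ₐ[F] M // act (σ.restrictScalars k) w = w},
        ∃ τ : {σ : M ≃ₐ[L] M // act (σ.restrictScalars k) w = w}, ∀ x, τ.1 x = σ.1 x := by
      intro σ
      let τ : M ≃ₐ[L] M := { σ.1 with commutes' := hcon σ.1 σ.2 }
      refine ⟨⟨τ, ?_⟩, fun x => rfl⟩
      have : act (τ.restrictScalars k) w = act (σ.1.restrictScalars k) w :=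
        Place.ext_val (by ext x; rfl)
      rw [this, σ.2]
    choose f hf using hex
    apply Nat.card_le_card_of_injective f
    intro σ σ' h
    apply Subtype.ext
    apply AlgEquiv.ext
    intro x
    rw [← hf, ← hf, h]
  rw [h1, h2] at h3
  obtain ⟨-, h4⟩ := resPl_trans (M := M) hF hL w
  rw [hw] at h4
  have h5 := ord_algebraMap hF v s
  rw [hs, mul_one] at h5
  rw [h5] at hv
  have h6 : 2 ≤ ram hF v := by exact_mod_cast hv
  have h7 := ram_pos hL w
  rw [h4] at h3
  (clear * - hv h1 h4 h3 h7; nlinarith)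

end inertia

end Pool.Agent.Helper45.S4

end

section

set_option autoImplicit false

set_option linter.style.haveILetI false

namespace Pool.Agent.Helper47.RR

open Polynomial IntermediateField Pool.Agent.Helper16 Pool.Agent.Helper33 Pool.Agent.Helper45.FF
  Pool.Agent.Helper45.S4

section trace

variable {k L M : Type} [Field k] [Field L] [Field M] [Algebra k L] [Algebra k M] [Algebra L M]
  [IsScalarTower k L M]

theorem trace_val_zero [IsAlgClosed k] (hN : IsFunctionField k L) [FiniteDimensional L M]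
    (v : Place k L) (x : M) (hx : ∀ w : Place k M, resPl hN w = v → w.val x ≤ 1) :
    v.val (Algebra.trace L M x) ≤ 1 := by
  classical
  by_cases hsep : Algebra.IsSeparable L M
  swap
  · rw [Algebra.trace_eq_zero_of_not_isSeparable hsep]
    simp
  obtain ⟨N, iN, iLN, iMN, h1, h2, h3, h4, -⟩ := exists_galois_closure_gen L M
  letI : Algebra k N := ((algebraMap L N).comp (algebraMap k L)).toAlgebra
  haveI : IsScalarTower k L N := IsScalarTower.of_algebraMap_eq fun x => rfl
  haveI : IsScalarTower k M N := IsScalarTower.of_algebraMap_eq fun x => by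
    rw [IsScalarTower.algebraMap_apply k L M, ← IsScalarTower.algebraMap_apply L M N]
    rfl
  have hM : IsFunctionField k M := isFunctionField_ext hN
  obtain ⟨u, hu⟩ := exists_above (M := N) hN v
  have hconj : ∀ τ : N ≃ₐ[L] N, u.val (τ (algebraMap M N x)) ≤ 1 := by
    intro τ
    let w' : Place k N := act (τ.symm.restrictScalars k) u
    have hw' : ∀ y : N, w'.val y = u.val (τ y) := fun y => rfl
    have hres : resPl hN w' = v := by
      have := (resPl_act hN τ.symm u).1
      rw [hu] at this
      exact this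
    have hres2 : resPl hN w' = resPl hN (resPl hM w') ∧
        ram hN w' = ram hM w' * ram hN (resPl hM w') := by
      apply resPl_ram_unique hN w'
      · exact Nat.one_le_iff_ne_zero.2 (Nat.mul_ne_zero
          (Nat.one_le_iff_ne_zero.1 (ram_pos hM w')) (Nat.one_le_iff_ne_zero.1 (ram_pos hN _)))
      · intro y
        rw [IsScalarTower.algebraMap_apply L M N, Pool.Agent.Helper45.S4.ord_algebraMap hM w',
          Pool.Agent.Helper45.S4.ord_algebraMap hN (resPl hM w')]
        push_cast
        ring
    have hval := hx (resPl hM w') (by rw [← hres2.1, hres])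
    rw [← hw']
    by_cases hx0 : x = 0
    · rw [hx0, map_zero, map_zero]; exact zero_le
    have hx0' : algebraMap M N x ≠ 0 := by simpa using hx0
    rw [← w'.ord_nonneg_iff hx0', Pool.Agent.Helper45.S4.ord_algebraMap hM w']
    rw [← (resPl hM w').ord_nonneg_iff hx0] at hval
    (clear * - hval; positivity)
  have hsplit : ((minpoly L x).map (algebraMap L N)).Splits := by
    have := Normal.splits (F := L) (K := N) inferInstance (algebraMap M N x)
    rwa [minpoly.algebraMap_eq (algebraMap M N).injective] at this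
  have htr := trace_eq_sum_roots (F := N) (K := L) (L := M) (x := x) hsplit
  have hval : u.val (algebraMap L N (Algebra.trace L M x)) ≤ 1 := by
    rw [htr, nsmul_eq_mul, map_mul]
    have hn : u.val ((Module.finrank L⟮x⟯ M : ℕ) : N) ≤ 1 := by
      have : ((Module.finrank L⟮x⟯ M : ℕ) : N) = algebraMap k N ((Module.finrank L⟮x⟯ M : ℕ) : k) := by
        rw [map_natCast]
      rw [this]
      exact u.val_algebraMap_le _
    have hs : u.val ((minpoly L x).aroots N).sum ≤ 1 := by
      have hroot : ∀ y ∈ (minpoly L x).aroots N, u.val y ≤ 1 := by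
        intro y hy
        rw [mem_aroots] at hy
        have halg : IsAlgebraic L (algebraMap M N x) :=
          (Algebra.IsAlgebraic.isAlgebraic x).algebraMap
        obtain ⟨σ, hσ⟩ := minpoly.exists_algEquiv_of_root' (K := L) (L := N)
          (x := y) (y := algebraMap M N x) halg (by
            rw [minpoly.algebraMap_eq (algebraMap M N).injective]
            exact hy.2)
        rw [← hσ]
        exact hconj σ
      revert hroot
      generalize (minpoly L x).aroots N = s
      induction s using Multiset.induction_on with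
      | empty => intro _; simp
      | cons a s ih =>
        intro hroot
        rw [Multiset.sum_cons]
        exact (u.val.map_add _ _).trans (max_le (hroot a (Multiset.mem_cons_self a s))
          (ih fun y hy => hroot y (Multiset.mem_cons_of_mem hy)))
    exact mul_le_one' hn hs
  by_cases h0 : Algebra.trace L M x = 0
  · rw [h0, map_zero]; exact zero_le
  have h0' : algebraMap L N (Algebra.trace L M x) ≠ 0 := by simpa using h0
  rw [← u.ord_nonneg_iff h0', Pool.Agent.Helper45.S4.ord_algebraMap hN u, hu] at hval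
  rw [← v.ord_nonneg_iff h0]
  have hr := ram_pos hN u
  by_contra hcon
  rw [not_le] at hcon
  have : (ram hN u : ℤ) * v.ord (Algebra.trace L M x) < 0 :=
    mul_neg_of_pos_of_neg (by exact_mod_cast hr) hcon
  omega

/-- Integrality of traces. -/
theorem trace_val [IsAlgClosed k] (hN : IsFunctionField k L) [FiniteDimensional L M]
    (v : Place k L) (m : ℤ) (x : M)
    (hx : ∀ w : Place k M, resPl hN w = v → w.val x ≤ WithZero.exp ((ram hN w : ℤ) * m)) :
    v.val (Algebra.trace L M x) ≤ WithZero.exp m := by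
  obtain ⟨π, hπ0, hπ⟩ := exists_ord_eq_one v
  have hvπ : v.val π = WithZero.exp (-1 : ℤ) := by
    rw [Place.ord] at hπ
    rw [← WithZero.exp_log (x := v.val π) (by simpa using hπ0)]
    congr 1
    omega
  have hvπm : v.val (π ^ m) = WithZero.exp (-m) := by
    rw [map_zpow₀, hvπ, ← WithZero.exp_zsmul]
    simp
  have hwπ : ∀ w : Place k M, resPl hN w = v →
      w.val (algebraMap L M (π ^ m)) = WithZero.exp (-((ram hN w : ℤ) * m)) := by
    intro w hw
    have hne : algebraMap L M (π ^ m) ≠ 0 := by
      rw [Ne, map_eq_zero]; exact zpow_ne_zero _ hπ0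
    have h1 := Pool.Agent.Helper45.S4.ord_algebraMap hN w (π ^ m)
    rw [hw] at h1
    have h2 : v.ord (π ^ m) = m := by
      rw [Place.ord, hvπm, WithZero.log_exp]; ring
    rw [h2, Place.ord] at h1
    rw [← WithZero.exp_log (x := w.val (algebraMap L M (π ^ m))) (by
      rw [Ne, Valuation.zero_iff]; exact hne)]
    congr 1
    omega
  have key := trace_val_zero hN v (algebraMap L M (π ^ m) * x) (by
    intro w hw
    rw [map_mul, hwπ w hw, WithZero.exp_neg]
    have := hx w hw
    exact (inv_mul_le_one₀ (by simp [zero_lt_iff])).2 this)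
  rw [← Algebra.smul_def, map_smul, smul_eq_mul, map_mul, hvπm, WithZero.exp_neg,
    inv_mul_le_one₀ (by simp [zero_lt_iff])] at key
  exact key

end trace

end Pool.Agent.Helper47.RR

end

section

set_option autoImplicit false

set_option linter.style.haveILetI false

namespace Pool.Agent.Helper45.M8

open Finset Polynomial Pool.Agent.Helper93.RatODE Pool.Agent.Helper45.FR

section untwist

variable {k L : Type} [Field k] [Field L] [Algebra k L]

open IntermediateField Pool.Agent.Helper16 Pool.Agent.Helper45.FF in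
/-- **Maximal untwisting.** -/
theorem exists_untwisted [IsAlgClosed k] (p : ℕ) [Fact p.Prime] [CharP k p]
    (hL : IsFunctionField k L) {d : ℕ} (hd : 1 ≤ d) (N : ℕ) (hN : 2 * d ≤ N) (F G : L[X])
    (hFG : IsCoprime F G) (hF : F.natDegree ≤ d) (hG : G.natDegree ≤ d)
    (htop : F.coeff d ≠ 0 ∨ G.coeff d ≠ 0) (x : ℕ → L) (hx : RatOrbit F G x N) :
    ConstConj k F G d ∨ ∃ (F₁ G₁ : L[X]) (z : ℕ → L) (e : ℕ), IsCoprime F₁ G₁ ∧
      F₁.natDegree ≤ d ∧ G₁.natDegree ≤ d ∧ (F₁.coeff d ≠ 0 ∨ G₁.coeff d ≠ 0) ∧
      RatOrbit F₁ G₁ z N ∧ (ConstConj k F₁ G₁ d → ConstConj k F G d) ∧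
      (∀ i j l m, crr (z i) (z j) (z l) (z m) ^ (p ^ e) = crr (x i) (x j) (x l) (x m)) ∧
      ∃ i ≤ 2 * d + 1, ∀ c : L, c ^ p ≠ crr (z 0) (z 2) (z 1) (z i) := by
  classical
  haveI : CharP L p := charP_of_injective_algebraMap (algebraMap k L).injective p
  haveI : Infinite k := IsAlgClosed.instInfinite
  haveI : Infinite L := Infinite.of_injective _ (algebraMap k L).injective
  -- induction on the degree of a nonconstant cross ratio
  have key : ∀ n : ℕ, ∀ (F G : L[X]) (x : ℕ → L), IsCoprime F G → F.natDegree ≤ d →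
      G.natDegree ≤ d → (F.coeff d ≠ 0 ∨ G.coeff d ≠ 0) → RatOrbit F G x N →
      (∃ i ≤ 2 * d + 1, Transcendental k (crr (x 0) (x 2) (x 1) (x i)) ∧
        Module.finrank k⟮crr (x 0) (x 2) (x 1) (x i)⟯ L ≤ n) →
      ∃ (F₁ G₁ : L[X]) (z : ℕ → L) (e : ℕ), IsCoprime F₁ G₁ ∧
        F₁.natDegree ≤ d ∧ G₁.natDegree ≤ d ∧ (F₁.coeff d ≠ 0 ∨ G₁.coeff d ≠ 0) ∧
        RatOrbit F₁ G₁ z N ∧ (ConstConj k F₁ G₁ d → ConstConj k F G d) ∧
        (∀ i j l m, crr (z i) (z j) (z l) (z m) ^ (p ^ e) = crr (x i) (x j) (x l) (x m)) ∧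
        ∃ i ≤ 2 * d + 1, ∀ c : L, c ^ p ≠ crr (z 0) (z 2) (z 1) (z i) := by
    intro n
    induction n with
    | zero =>
      rintro F G x - - - - - ⟨i, -, hi, hin⟩
      exfalso
      haveI := S4.finiteDimensional_adjoin hL _ hi
      have : 0 < Module.finrank k⟮crr (x 0) (x 2) (x 1) (x i)⟯ L := Module.finrank_pos
      omega
    | succ n ih =>
      rintro F G x hFG hF hG htop hx ⟨i, hi, hit, hin⟩
      by_cases hpow : ∃ i ≤ 2 * d + 1, ∀ c : L, c ^ p ≠ crr (x 0) (x 2) (x 1) (x i)
      · exact ⟨F, G, x, 0, hFG, hF, hG, htop, hx, id, fun i j l m => by rw [pow_zero, pow_one], hpow⟩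
      · push Not at hpow
        obtain ⟨F', G', x', h1, h2, h3, h4, h5, h6, -, h8⟩ := untwist (k := k) p hd hFG hF hG htop x
          N 0 N hx (by omega) (by omega) (fun i hi => by simpa only [zero_add] using hpow i hi)
        simp only [zero_add] at h8
        have h9 := h8 0 2 1 i
        have ht' : Transcendental k (crr (x' 0) (x' 2) (x' 1) (x' i)) := by
          intro h
          apply hit
          rw [← h9]
          exact h.pow p
        have h10 := S6.finrank_pow hL p (Nat.Prime.ne_zero Fact.out) _ _ h9 ht' hit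
        haveI := S4.finiteDimensional_adjoin hL _ ht'
        have h11 : 0 < Module.finrank k⟮crr (x' 0) (x' 2) (x' 1) (x' i)⟯ L := Module.finrank_pos
        have h12 : 2 ≤ p := (Fact.out : p.Prime).two_le
        obtain ⟨F₁, G₁, z, e, g1, g2, g3, g4, g5, g6, g7, g8⟩ := ih F' G' x' h1 h2 h3 h4 h5
          ⟨i, hi, ht', by (clear * - hin h10 h12 h11; nlinarith)⟩
        refine ⟨F₁, G₁, z, e + 1, g1, g2, g3, g4, g5, fun h => h6 (g6 h), ?_, g8⟩
        intro i j l m
        rw [pow_succ, pow_mul, g7, h8]
  by_cases hconst : ∀ i ≤ 2 * d + 1, ∃ c : k, algebraMap k L c = crr (x 0) (x 2) (x 1) (x i)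
  · exact Or.inl (constConj_of_crr hd hFG hF hG htop x N hx hN hconst)
  · push Not at hconst
    obtain ⟨i, hi, hic⟩ := hconst
    right
    refine key _ F G x hFG hF hG htop hx ⟨i, hi, ?_, le_rfl⟩
    intro halg
    obtain ⟨a, ha⟩ := mem_range_of_isAlgebraic _ halg
    exact hic a ha

end untwist

end Pool.Agent.Helper45.M8

end

section

set_option autoImplicit false

set_option linter.style.haveILetI false

namespace Pool.Agent.Helper31.EN

open Polynomial IntermediateField Pool.Agent.Helper16 Pool.Agent.Helper45.S4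

open Pool.Agent.Helper47.RR Pool.Agent.Helper47.EN

section insep

variable {k L M : Type} [Field k] [Field L] [Field M] [Algebra k L] [Algebra k M] [Algebra L M]
  [IsScalarTower k L M]

variable [IsAlgClosed k]

/-- Above each place there is exactly one place in a purely inseparable extension, and it has
ramification index the degree. -/
theorem insep_places (hL : IsFunctionField k L) [FiniteDimensional L M] [IsPurelyInseparable L M]
    (w : Place k M) : ram hL w = Module.finrank L M ∧
      ∀ w' : Place k M, resPl hL w' = resPl hL w → w' = w := by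
  have huniq : ∀ w' : Place k M, resPl hL w' = resPl hL w → w' = w := by
    intro w' hw'
    have hq : Module.finrank L M ≠ 0 := Module.finrank_pos.ne'
    apply place_ext
    intro x hx
    obtain ⟨y, hy⟩ := pow_finrank_mem (L := L) x
    by_cases hx0 : x = 0
    · rw [hx0, map_zero]; exact zero_le
    have hxq : x ^ Module.finrank L M ≠ 0 := pow_ne_zero _ hx0
    have h1 : w'.val (x ^ Module.finrank L M) ≤ 1 := by
      rw [map_pow]
      exact pow_le_one' hx _
    rw [← w'.ord_nonneg_iff hxq, ← hy, ord_algebraMap hL, hw'] at h1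
    have hr' := ram_pos hL w'
    have hr := ram_pos hL w
    have h2 : 0 ≤ (resPl hL w).ord y := by
      by_contra hcon
      rw [not_le] at hcon
      have : (ram hL w' : ℤ) * (resPl hL w).ord y < 0 :=
        mul_neg_of_pos_of_neg (by positivity) hcon
      omega
    have h3 : 0 ≤ w.ord (x ^ Module.finrank L M) := by
      rw [← hy, ord_algebraMap hL]
      (clear * - hr h2; positivity)
    rw [w.ord_nonneg_iff hxq, map_pow] at h3
    by_contra hcon
    rw [not_le] at hcon
    exact absurd h3 (not_le.2 (one_lt_pow₀ hcon hq))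
  refine ⟨?_, huniq⟩
  obtain ⟨T, hT, hsum⟩ := sum_ram (M := M) hL (resPl hL w)
  have hTw : T = {w} := by
    ext w'
    rw [hT, Finset.mem_singleton]
    exact ⟨huniq w', fun h => by rw [h]⟩
  rw [hTw, Finset.sum_singleton] at hsum
  exact hsum

/-- Push-forward of principal divisors, purely inseparable case. -/
theorem push_insep (hL : IsFunctionField k L) (hM : IsFunctionField k M) [FiniteDimensional L M]
    [IsPurelyInseparable L M] (f : M) (hf : f ≠ 0) :
    ∃ g : L, g ≠ 0 ∧ Finsupp.mapDomain (resPl hL) (prin hM f) = prin hL g := by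
  classical
  obtain ⟨g, hg⟩ := pow_finrank_mem (L := L) f
  have hq : Module.finrank L M ≠ 0 := Module.finrank_pos.ne'
  have hg0 : g ≠ 0 := by
    rintro rfl
    rw [map_zero] at hg
    exact pow_ne_zero _ hf hg.symm
  refine ⟨g, hg0, ?_⟩
  ext v
  obtain ⟨w, rfl⟩ := exists_above (M := M) hL v
  obtain ⟨hr, huniq⟩ := insep_places hL w
  have h1 : Finsupp.mapDomain (resPl hL) (prin hM f) (resPl hL w) = prin hM f w := by
    rw [Finsupp.mapDomain, Finsupp.sum_apply, Finsupp.sum]
    by_cases hw : w ∈ (prin hM f).support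
    · rw [Finset.sum_eq_single_of_mem w hw]
      · simp
      · intro w' _ hne
        rw [Finsupp.single_eq_of_ne]
        intro h
        exact hne (huniq w' h.symm)
    · rw [Finsupp.notMem_support_iff.1 hw]
      apply Finset.sum_eq_zero
      intro w' hw'
      rw [Finsupp.single_eq_of_ne]
      intro h
      rw [huniq w' h.symm] at hw'
      exact hw hw'
  rw [h1]
  change w.ord f = (resPl hL w).ord g
  have h2 := ord_algebraMap hL w g
  rw [hg, hr] at h2
  have h3 : w.ord (f ^ Module.finrank L M) = Module.finrank L M * w.ord f := by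
    unfold Place.ord
    rw [map_pow, WithZero.log_pow]
    simp
  rw [h3] at h2
  exact mul_left_cancel₀ (by exact_mod_cast hq) h2

end insep

end Pool.Agent.Helper31.EN

end

section

set_option autoImplicit false

set_option linter.style.haveILetI false

set_option linter.unusedSectionVars false

namespace Pool.Agent.Helper47.RR

open Pool.Agent.Helper16 Pool.Agent.Helper45.S4

section gal

variable {k L N : Type} [Field k] [Field L] [Field N] [Algebra k L] [Algebra k N] [Algebra L N]
  [IsScalarTower k L N]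

/-- The norm formula in the Galois case. -/
theorem ord_norm_gal [IsAlgClosed k] (hL : IsFunctionField k L) [FiniteDimensional L N]
    [IsGalois L N] (v : Place k L) (f : N) (hf : f ≠ 0) :
    v.ord (Algebra.norm L f) = ∑ w ∈ fib (M := N) hL v, w.ord f := by
  classical
  obtain ⟨w₀, hw₀⟩ := exists_above (M := N) hL v
  have h1 : w₀.ord (algebraMap L N (Algebra.norm L f)) =
      ram hL w₀ * v.ord (Algebra.norm L f) := by
    rw [ord_algebraMap hL, hw₀]
  have h2 : w₀.ord (algebraMap L N (Algebra.norm L f)) =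
      ∑ σ : N ≃ₐ[L] N, (act (σ.restrictScalars k) w₀).ord f := by
    rw [Algebra.norm_eq_prod_automorphisms, ord_prod w₀ _ _ (fun σ _ => by simpa using hf)]
    rw [← Equiv.sum_comp (Equiv.inv (N ≃ₐ[L] N))]
    rfl
  have h3 : ∑ σ : N ≃ₐ[L] N, (act (σ.restrictScalars k) w₀).ord f =
      ∑ w ∈ fib (M := N) hL v, ∑ σ ∈ (Finset.univ : Finset (N ≃ₐ[L] N)).filter
        (fun σ => act (σ.restrictScalars k) w₀ = w), (act (σ.restrictScalars k) w₀).ord f := by
    refine (Finset.sum_fiberwise_of_maps_to (fun σ _ => ?_) _).symm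
    rw [mem_fib, ← hw₀]
    exact (resPl_act hL σ w₀).1
  have h4 : ∀ w ∈ fib (M := N) hL v, ∑ σ ∈ (Finset.univ : Finset (N ≃ₐ[L] N)).filter
        (fun σ => act (σ.restrictScalars k) w₀ = w), (act (σ.restrictScalars k) w₀).ord f =
      ram hL w₀ * w.ord f := by
    intro w hw
    rw [mem_fib] at hw
    obtain ⟨τ, hτ⟩ := exists_act_eq hL w₀ w (hw₀.trans hw.symm)
    have h5 : ((Finset.univ : Finset (N ≃ₐ[L] N)).filter
        (fun σ => act (σ.restrictScalars k) w₀ = w)).card = ram hL w₀ := by
      rw [← card_stab hL w₀, Nat.card_eq_fintype_card, Fintype.card_subtype]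
      refine Finset.card_bij (fun σ _ => τ⁻¹ * σ) ?_ ?_ ?_
      · intro σ hσ
        rw [Finset.mem_filter] at hσ ⊢
        refine ⟨Finset.mem_univ _, ?_⟩
        have h6 : act ((τ⁻¹ * σ).restrictScalars k) w₀ =
            act (τ⁻¹.restrictScalars k) (act (σ.restrictScalars k) w₀) :=
          act_mul (τ⁻¹.restrictScalars k) (σ.restrictScalars k) w₀
        rw [h6, hσ.2, ← hτ]
        have h7 : act (τ⁻¹.restrictScalars k) (act (τ.restrictScalars k) w₀) =
            act ((τ⁻¹ * τ).restrictScalars k) w₀ :=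
          (act_mul (τ⁻¹.restrictScalars k) (τ.restrictScalars k) w₀).symm
        rw [h7, inv_mul_cancel]
        exact act_one w₀
      · intro σ _ σ' _ h
        exact mul_left_cancel h
      · intro σ hσ
        rw [Finset.mem_filter] at hσ
        refine ⟨τ * σ, ?_, by simp⟩
        rw [Finset.mem_filter]
        refine ⟨Finset.mem_univ _, ?_⟩
        have h6 : act ((τ * σ).restrictScalars k) w₀ =
            act (τ.restrictScalars k) (act (σ.restrictScalars k) w₀) :=
          act_mul (τ.restrictScalars k) (σ.restrictScalars k) w₀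
        rw [h6, hσ.2, hτ]
    rw [Finset.sum_congr rfl (fun σ hσ => by rw [(Finset.mem_filter.1 hσ).2]),
      Finset.sum_const, h5, nsmul_eq_mul]
  rw [h3, Finset.sum_congr rfl h4, ← Finset.mul_sum] at h2
  rw [h1] at h2
  have hr : (ram hL w₀ : ℤ) ≠ 0 := by
    have := ram_pos hL w₀
    positivity
  exact mul_left_cancel₀ hr h2

end gal

section sep

variable {k L M : Type} [Field k] [Field L] [Field M] [Algebra k L] [Algebra k M] [Algebra L M]
  [IsScalarTower k L M]

theorem resPl_resPl {N : Type} [Field N] [Algebra k N] [Algebra L N] [Algebra M N]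
    [IsScalarTower k L N] [IsScalarTower k M N] [IsScalarTower L M N]
    (hL : IsFunctionField k L) (hM : IsFunctionField k M)
    [Algebra.IsAlgebraic L M] [Algebra.IsAlgebraic M N] [Algebra.IsAlgebraic L N]
    (u : Place k N) :
    resPl hL u = resPl hL (resPl hM u) ∧ ram hL u = ram hM u * ram hL (resPl hM u) := by
  apply resPl_ram_unique hL
  · have h1 := ram_pos hM u
    have h2 := ram_pos hL (resPl hM u)
    exact Nat.mul_pos h1 h2
  · intro x
    rw [IsScalarTower.algebraMap_apply L M N, ord_algebraMap hM, ord_algebraMap hL]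
    push_cast
    ring

/-- The norm formula for places in a finite separable extension. -/
theorem ord_norm_sep [IsAlgClosed k] (hL : IsFunctionField k L) [FiniteDimensional L M]
    [Algebra.IsSeparable L M] (v : Place k L) (f : M) (hf : f ≠ 0) :
    v.ord (Algebra.norm L f) = ∑ w ∈ fib (M := M) hL v, w.ord f := by
  classical
  have hM : IsFunctionField k M := isFunctionField_ext hL
  obtain ⟨N, iN, iLN, iMN, t1, f1, f2, g1, -⟩ := exists_galois_closure_gen L M
  letI : Algebra k N := ((algebraMap M N).comp (algebraMap k M)).toAlgebra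
  haveI : IsScalarTower k M N := IsScalarTower.of_algebraMap_eq fun x => rfl
  haveI : IsScalarTower k L N := IsScalarTower.of_algebraMap_eq fun x => by
    rw [IsScalarTower.algebraMap_apply k M N, IsScalarTower.algebraMap_apply k L M,
      ← IsScalarTower.algebraMap_apply L M N]
  have hfN : algebraMap M N f ≠ 0 := by simpa using hf
  have h1 := ord_norm_gal hL v (algebraMap M N f) hfN
  have h2 : Algebra.norm L (algebraMap M N f) =
      (Algebra.norm L f) ^ Module.finrank M N := by
    rw [← Algebra.norm_norm (R := L) (S := M) (A := N), Algebra.norm_algebraMap, map_pow]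
  rw [h2, place_ord_pow] at h1
  have h3 : ∑ u ∈ fib (M := N) hL v, u.ord (algebraMap M N f) =
      ∑ w ∈ fib (M := M) hL v, ∑ u ∈ (fib (M := N) hL v).filter (fun u => resPl hM u = w),
        u.ord (algebraMap M N f) := by
    refine (Finset.sum_fiberwise_of_maps_to (fun u hu => ?_) _).symm
    rw [mem_fib] at hu ⊢
    rw [← (resPl_resPl hL hM u).1, hu]
  have h4 : ∀ w ∈ fib (M := M) hL v, ∑ u ∈ (fib (M := N) hL v).filter (fun u => resPl hM u = w),
        u.ord (algebraMap M N f) = Module.finrank M N * w.ord f := by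
    intro w hw
    rw [mem_fib] at hw
    have h5 : (fib (M := N) hL v).filter (fun u => resPl hM u = w) = fib (M := N) hM w := by
      ext u
      rw [Finset.mem_filter, mem_fib, mem_fib]
      constructor
      · exact fun h => h.2
      · intro h
        refine ⟨?_, h⟩
        rw [(resPl_resPl hL hM u).1, h, hw]
    rw [h5]
    have h6 : ∀ u ∈ fib (M := N) hM w, u.ord (algebraMap M N f) = (ram hM u : ℤ) * w.ord f := by
      intro u hu
      rw [ord_algebraMap hM, (mem_fib hM w u).1 hu]
    rw [Finset.sum_congr rfl h6, ← Finset.sum_mul, ← Nat.cast_sum, sum_fib]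
  rw [h3, Finset.sum_congr rfl h4, ← Finset.mul_sum] at h1
  have hr : (Module.finrank M N : ℤ) ≠ 0 := by
    have : 0 < Module.finrank M N := Module.finrank_pos
    positivity
  exact mul_left_cancel₀ hr h1

/-- The norm formula, in terms of divisors. -/
theorem mapDomain_prin_sep [IsAlgClosed k] (hL : IsFunctionField k L) (hM : IsFunctionField k M)
    [FiniteDimensional L M] [Algebra.IsSeparable L M] (f : M) (hf : f ≠ 0) :
    Finsupp.mapDomain (resPl hL) (prin hM f) = prin hL (Algebra.norm L f) := by
  classical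
  ext v
  change _ = v.ord (Algebra.norm L f)
  rw [ord_norm_sep hL v f hf, Finsupp.mapDomain, Finsupp.sum_apply, Finsupp.sum]
  have h1 : ∀ w ∈ (prin hM f).support, (Finsupp.single (resPl hL w) (prin hM f w) : Dv k L) v =
      if resPl hL w = v then w.ord f else 0 := by
    intro w _
    rw [Finsupp.single_apply]
    rfl
  rw [Finset.sum_congr rfl h1, ← Finset.sum_filter]
  apply Finset.sum_subset_zero_on_sdiff
  · intro w hw
    rw [mem_fib]
    exact (Finset.mem_filter.1 hw).2
  · intro w hw
    rw [Finset.mem_sdiff, mem_fib, Finset.mem_filter, not_and] at hw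
    by_contra hne
    exact hw.2 (Finsupp.mem_support_iff.2 hne) hw.1
  · intro w _
    rfl

end sep

end Pool.Agent.Helper47.RR

end

section

set_option autoImplicit false

set_option linter.style.haveILetI false

set_option linter.unusedSectionVars false

namespace Pool.Agent.Helper45.GW

open Polynomial IntermediateField Pool.Agent.Helper16 Pool.Agent.Helper33
  Pool.Agent.Helper45.FF Pool.Agent.Helper45.S4

section two

variable {k L M : Type} [Field k] [Field L] [Field M] [Algebra k L] [Algebra k M] [Algebra L M]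
  [IsScalarTower k L M] [IsAlgClosed k] [Algebra.IsAlgebraic L M]

theorem val_algebraMap_le_of (hL : IsFunctionField k L) (w : Place k M) {u : L}
    (hu : (resPl hL w).val u ≤ 1) : w.val (algebraMap L M u) ≤ 1 := by
  by_cases hu0 : u = 0
  · rw [hu0, map_zero, map_zero]; exact zero_le
  · have hu0' : algebraMap L M u ≠ 0 := by simpa using hu0
    rw [← w.ord_nonneg_iff hu0', ord_algebraMap hL]
    rw [← (resPl hL w).ord_nonneg_iff hu0] at hu
    exact mul_nonneg (by (clear * -; positivity)) hu

theorem val_pi_le (hL : IsFunctionField k L) (w : Place k M) {π : L}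
    (hπ : (resPl hL w).ord π = 1) : w.val (algebraMap L M π) ≤ WithZero.exp (-1 : ℤ) := by
  have hπ0 : π ≠ 0 := by
    rintro rfl
    rw [Place.ord_zero] at hπ
    exact absurd hπ (by norm_num)
  have hπ0' : algebraMap L M π ≠ 0 := by simpa using hπ0
  rw [val_le_exp_iff w _ hπ0', ord_algebraMap hL, hπ, mul_one]
  have := ram_pos hL w
  omega

/-- iterated estimate -/
theorem val_sub_le_max (hL : IsFunctionField k L) (w : Place k M) (σ : M ≃ₐ[k] M)
    (hσ : act σ w = w) (π : L) (hπ : (resPl hL w).ord π = 1) (N : ℕ) :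
    ∀ u : L, (resPl hL w).val u ≤ 1 → w.val (σ (algebraMap L M u) - algebraMap L M u) ≤
      max (w.val (σ (algebraMap L M π) - algebraMap L M π)) (WithZero.exp (-(N : ℤ))) := by
  have hπ0 : π ≠ 0 := by
    rintro rfl
    rw [Place.ord_zero] at hπ
    exact absurd hπ (by norm_num)
  induction N with
  | zero =>
    intro u hu
    refine le_max_of_le_right ?_
    rw [Nat.cast_zero, neg_zero, WithZero.exp_zero]
    have h1 := val_algebraMap_le_of hL w hu
    refine (w.val.map_sub _ _).trans (max_le ?_ h1)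
    rw [val_act_eq σ w hσ]
    exact h1
  | succ N ih =>
    intro u hu
    obtain ⟨c, hc⟩ := exists_res_val hL (resPl hL w) u hu
    set y := (u - algebraMap k L c) * π⁻¹ with hy
    have hxy : u = algebraMap k L c + π * y := by
      rw [hy]; field_simp; ring
    have hy1 : (resPl hL w).val y ≤ 1 := by
      by_cases h0 : u - algebraMap k L c = 0
      · rw [hy, h0, zero_mul, map_zero]; exact zero_le
      · have hy0 : y ≠ 0 := mul_ne_zero h0 (inv_ne_zero hπ0)
        rw [← (resPl hL w).ord_nonneg_iff hy0, hy, (resPl hL w).ord_mul h0 (inv_ne_zero hπ0),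
          (resPl hL w).ord_inv, hπ]
        have := ((resPl hL w).ord_pos_iff h0).2 hc
        omega
    have hD : σ (algebraMap L M u) - algebraMap L M u =
        σ (algebraMap L M π) * (σ (algebraMap L M y) - algebraMap L M y) +
          (σ (algebraMap L M π) - algebraMap L M π) * algebraMap L M y := by
      conv_lhs => rw [hxy]
      rw [map_add, map_add, map_mul, map_mul, ← IsScalarTower.algebraMap_apply k L M,
        AlgEquiv.commutes]
      ring
    rw [hD]
    refine (w.val.map_add _ _).trans (max_le ?_ ?_)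
    · rw [map_mul, val_act_eq σ w hσ]
      have hπw := val_pi_le hL w hπ
      rcases le_max_iff.1 (ih y hy1) with h | h
      · refine le_max_of_le_left ?_
        calc w.val (algebraMap L M π) * _ ≤ 1 * _ :=
              mul_le_mul_left (hπw.trans exp_neg_one_lt.le) _
          _ ≤ _ := by rw [one_mul]; exact h
      · refine le_max_of_le_right ?_
        calc w.val (algebraMap L M π) * w.val (σ (algebraMap L M y) - algebraMap L M y)
            ≤ WithZero.exp (-1 : ℤ) * WithZero.exp (-(N : ℤ)) := mul_le_mul' hπw h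
          _ = WithZero.exp (-((N + 1 : ℕ) : ℤ)) := by
              rw [← WithZero.exp_add]; congr 1; push_cast; ring
    · refine le_max_of_le_left ?_
      rw [map_mul]
      calc _ * w.val (algebraMap L M y) ≤ _ * 1 :=
            mul_le_mul_right (val_algebraMap_le_of hL w hy1) _
        _ = _ := mul_one _

/-- `σ u - u` is at least as small as `σ π - π` -/
theorem val_sub_le (hL : IsFunctionField k L) (w : Place k M) (σ : M ≃ₐ[k] M)
    (hσ : act σ w = w) (π : L) (hπ : (resPl hL w).ord π = 1) (u : L)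
    (hu : (resPl hL w).val u ≤ 1) : w.val (σ (algebraMap L M u) - algebraMap L M u) ≤
      w.val (σ (algebraMap L M π) - algebraMap L M π) := by
  by_contra hlt
  rw [not_le] at hlt
  have h0 : σ (algebraMap L M u) - algebraMap L M u ≠ 0 := by
    intro h0
    rw [h0, map_zero] at hlt
    exact absurd hlt (not_lt.2 zero_le)
  have h1 : ∀ N : ℕ, w.val (σ (algebraMap L M u) - algebraMap L M u) ≤
      WithZero.exp (-(N : ℤ)) := by
    intro N
    rcases le_max_iff.1 (val_sub_le_max hL w σ hσ π hπ N u hu) with h | h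
    · exact absurd h (not_le.2 hlt)
    · exact h
  have h2 := h1 ((w.ord (σ (algebraMap L M u) - algebraMap L M u)) + 1).toNat
  rw [val_le_exp_iff w _ h0] at h2
  have h3 := Int.self_le_toNat ((w.ord (σ (algebraMap L M u) - algebraMap L M u)) + 1)
  omega

/-- `σ y / y` is a one-unit for every `y` if it is for one uniformizer. -/
theorem ou_of_pi (hL : IsFunctionField k L) (w : Place k M) (σ : M ≃ₐ[k] M)
    (hσ : act σ w = w) (π : L) (hπ : (resPl hL w).ord π = 1) {δ : ℕ} (hδ : 1 ≤ δ)
    (h : OU w δ (σ (algebraMap L M π) / algebraMap L M π)) (y : L) (hy : y ≠ 0) :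
    OU w δ (σ (algebraMap L M y) / algebraMap L M y) := by
  have hπ0 : π ≠ 0 := by
    rintro rfl
    rw [Place.ord_zero] at hπ
    exact absurd hπ (by norm_num)
  have hπ0' : algebraMap L M π ≠ 0 := by simpa using hπ0
  set n := (resPl hL w).ord y with hn
  have hzp : ∀ n : ℤ, (resPl hL w).ord (π ^ n) = n := by
    intro n
    have := val_of_ord_one (resPl hL w) hπ
    rw [Place.ord, map_zpow₀, this, WithZero.log_zpow, WithZero.log_exp]
    simp
  have hπn : π ^ n ≠ 0 := zpow_ne_zero _ hπ0
  obtain ⟨u, hu⟩ : ∃ u, u = y * (π ^ n)⁻¹ := ⟨_, rfl⟩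
  have hu0 : u ≠ 0 := by rw [hu]; exact mul_ne_zero hy (inv_ne_zero hπn)
  have hou : (resPl hL w).ord u = 0 := by
    rw [hu, (resPl hL w).ord_mul hy (inv_ne_zero hπn), (resPl hL w).ord_inv, hzp, ← hn]; ring
  have hxu : y = π ^ n * u := by rw [hu]; field_simp
  have hu0' : algebraMap L M u ≠ 0 := by simpa using hu0
  have hwu : w.val (algebraMap L M u) = 1 := by
    rw [← w.ord_eq_zero_iff hu0', ord_algebraMap hL, hou, mul_zero]
  -- `u`
  have h1 : w.val (σ (algebraMap L M π) - algebraMap L M π) ≤ WithZero.exp (-(δ : ℤ)) := by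
    have h2 : σ (algebraMap L M π) - algebraMap L M π =
        (σ (algebraMap L M π) / algebraMap L M π - 1) * algebraMap L M π := by
      field_simp
    rw [h2, map_mul]
    calc _ ≤ WithZero.exp (-(δ : ℤ)) * 1 :=
          mul_le_mul' h ((val_pi_le hL w hπ).trans exp_neg_one_lt.le)
      _ = _ := mul_one _
  have h2 : OU w δ (σ (algebraMap L M u) / algebraMap L M u) := by
    unfold OU
    have h3 : σ (algebraMap L M u) / algebraMap L M u - 1 =
        (σ (algebraMap L M u) - algebraMap L M u) * (algebraMap L M u)⁻¹ := by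
      field_simp
    rw [h3, map_mul, map_inv₀, hwu, inv_one, mul_one]
    refine (val_sub_le hL w σ hσ π hπ u ?_).trans h1
    exact ((resPl hL w).ord_eq_zero_iff hu0).1 hou |>.le
  have h3 : σ (algebraMap L M y) / algebraMap L M y =
      (σ (algebraMap L M π) / algebraMap L M π) ^ n * (σ (algebraMap L M u) / algebraMap L M u) := by
    rw [hxu, map_mul, map_zpow₀, map_mul, map_zpow₀, div_zpow]
    (clear * - hu0' hπ0'; field_simp)
  rw [h3]
  exact (h.zpow hδ n).mul hδ h2

open Classical in
/-- the wild ramification number of `σ` at `w`, with respect to `L` -/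
noncomputable def wildN (hL : IsFunctionField k L) (σ : M ≃ₐ[k] M) (w : Place k M) : ℕ :=
  if act σ w = w then (w.ord (σ (algebraMap L M (exists_ord_eq_one (resPl hL w)).choose) /
    algebraMap L M (exists_ord_eq_one (resPl hL w)).choose - 1)).toNat else 0

omit [IsAlgClosed k] in
theorem wildN_eq (hL : IsFunctionField k L) (σ : M ≃ₐ[k] M) (w : Place k M) (hσ : act σ w = w) :
    ∃ π : L, (resPl hL w).ord π = 1 ∧
      wildN hL σ w = (w.ord (σ (algebraMap L M π) / algebraMap L M π - 1)).toNat := by
  refine ⟨(exists_ord_eq_one (resPl hL w)).choose,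
    (exists_ord_eq_one (resPl hL w)).choose_spec.2, ?_⟩
  unfold wildN
  rw [if_pos hσ]

theorem ou_wildN (hL : IsFunctionField k L) (σ : M ≃ₐ[k] M) (w : Place k M) (hσ : act σ w = w)
    (h1 : 1 ≤ wildN hL σ w) (y : L) (hy : y ≠ 0) :
    OU w (wildN hL σ w) (σ (algebraMap L M y) / algebraMap L M y) := by
  obtain ⟨π, hπ, hw⟩ := wildN_eq hL σ w hσ
  refine ou_of_pi hL w σ hσ π hπ h1 ?_ y hy
  unfold OU
  by_cases h0 : σ (algebraMap L M π) / algebraMap L M π - 1 = 0
  · rw [h0, map_zero]; exact zero_le
  · rw [val_le_exp_iff w _ h0]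
    omega

/-- the wild ramification number does not depend on the uniformizer -/
theorem ord_le_wildN (hL : IsFunctionField k L) (σ : M ≃ₐ[k] M) (w : Place k M)
    (hσ : act σ w = w) (y : L) (hy : (resPl hL w).ord y = 1)
    (hne : σ (algebraMap L M y) ≠ algebraMap L M y) :
    w.ord (σ (algebraMap L M y) / algebraMap L M y - 1) ≤ wildN hL σ w := by
  have hy0 : y ≠ 0 := by
    rintro rfl
    rw [Place.ord_zero] at hy
    exact absurd hy (by norm_num)
  have hy0' : algebraMap L M y ≠ 0 := by simpa using hy0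
  have hne' : σ (algebraMap L M y) / algebraMap L M y - 1 ≠ 0 := by
    intro h0
    rw [sub_eq_zero, div_eq_one_iff_eq hy0'] at h0
    exact hne h0
  obtain ⟨π, hπ, hw⟩ := wildN_eq hL σ w hσ
  have hπ0 : π ≠ 0 := by
    rintro rfl
    rw [Place.ord_zero] at hπ
    exact absurd hπ (by norm_num)
  have hπ0' : algebraMap L M π ≠ 0 := by simpa using hπ0
  by_cases hlt : w.ord (σ (algebraMap L M y) / algebraMap L M y - 1) ≤ 0
  · have : (0 : ℤ) ≤ wildN hL σ w := Int.natCast_nonneg _
    omega
  · rw [not_le] at hlt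
    obtain ⟨δ, hδ⟩ : ∃ δ : ℕ, w.ord (σ (algebraMap L M y) / algebraMap L M y - 1) = δ :=
      ⟨(w.ord (σ (algebraMap L M y) / algebraMap L M y - 1)).toNat, by omega⟩
    have hδ1 : 1 ≤ δ := by omega
    have h1 : OU w δ (σ (algebraMap L M y) / algebraMap L M y) := by
      unfold OU
      rw [val_le_exp_iff w _ hne', hδ]
      omega
    have h2 := ou_of_pi hL w σ hσ y hy hδ1 h1 π hπ0
    by_cases h0 : σ (algebraMap L M π) / algebraMap L M π - 1 = 0
    · exfalso
      apply hne'
      have h3 : OU w (δ + 1) (σ (algebraMap L M π) / algebraMap L M π) := by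
        unfold OU
        rw [h0, map_zero]; exact zero_le
      have h4 := ou_of_pi hL w σ hσ π hπ (by omega) h3 y hy0
      by_contra hcon
      unfold OU at h4
      rw [val_le_exp_iff w _ hne', hδ] at h4
      omega
    · unfold OU at h2
      rw [val_le_exp_iff w _ h0] at h2
      omega

end two

end Pool.Agent.Helper45.GW

end

section

set_option autoImplicit false

set_option linter.style.haveILetI false

set_option linter.unusedSectionVars false

namespace Pool.Agent.Helper45.GW

open Polynomial IntermediateField Pool.Agent.Helper16 Pool.Agent.Helper33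
  Pool.Agent.Helper45.FF Pool.Agent.Helper45.S4

section der

variable {k F L : Type} [Field k] [Field F] [Field L] [Algebra k F] [Algebra k L]
  [Algebra F L] [IsScalarTower k F L] [IsAlgClosed k] [Algebra.IsAlgebraic F L]

theorem val_D_F_le_max (hF : IsFunctionField k F) (v : Place k L)
    (D : Derivation k L L) (B : ℤ) (hB : ∀ x, v.val x ≤ 1 → v.val (D x) ≤ WithZero.exp B) (s : F)
    (hs : (resPl hF v).ord s = 1) (hDs : v.val (D (algebraMap F L s)) ≤ 1) (N : ℕ) :
    ∀ f : F, (resPl hF v).val f ≤ 1 →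
      v.val (D (algebraMap F L f)) ≤ max 1 (WithZero.exp (B - N)) := by
  have hs0 : s ≠ 0 := by
    rintro rfl
    rw [Place.ord_zero] at hs
    exact absurd hs (by norm_num)
  induction N with
  | zero =>
    intro f hf
    refine le_max_of_le_right ?_
    rw [Nat.cast_zero, sub_zero]
    exact hB _ (val_algebraMap_le_of hF v hf)
  | succ N ih =>
    intro u hu
    obtain ⟨c, hc⟩ := exists_res_val hF (resPl hF v) u hu
    set y := (u - algebraMap k F c) * s⁻¹ with hy
    have hxy : u = algebraMap k F c + s * y := by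
      rw [hy]; field_simp; ring
    have hy1 : (resPl hF v).val y ≤ 1 := by
      by_cases h0 : u - algebraMap k F c = 0
      · rw [hy, h0, zero_mul, map_zero]; exact zero_le
      · have hy0 : y ≠ 0 := mul_ne_zero h0 (inv_ne_zero hs0)
        rw [← (resPl hF v).ord_nonneg_iff hy0, hy, (resPl hF v).ord_mul h0 (inv_ne_zero hs0),
          (resPl hF v).ord_inv, hs]
        have := ((resPl hF v).ord_pos_iff h0).2 hc
        omega
    have hD : D (algebraMap F L u) = algebraMap F L s * D (algebraMap F L y) +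
        algebraMap F L y * D (algebraMap F L s) := by
      conv_lhs => rw [hxy]
      rw [map_add, map_add, map_mul, ← IsScalarTower.algebraMap_apply k F L,
        Derivation.map_algebraMap, zero_add, Derivation.leibniz, smul_eq_mul, smul_eq_mul]
    rw [hD]
    refine (v.val.map_add _ _).trans (max_le ?_ ?_)
    · rw [map_mul]
      have hπw := val_pi_le hF v hs
      rcases le_max_iff.1 (ih y hy1) with h | h
      · refine le_max_of_le_left ?_
        exact mul_le_one' (hπw.trans exp_neg_one_lt.le) h
      · refine le_max_of_le_right ?_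
        calc v.val (algebraMap F L s) * v.val (D (algebraMap F L y))
            ≤ WithZero.exp (-1 : ℤ) * WithZero.exp (B - N) := mul_le_mul' hπw h
          _ = WithZero.exp (B - ((N + 1 : ℕ) : ℤ)) := by
              rw [← WithZero.exp_add]; congr 1; push_cast; ring
    · refine le_max_of_le_left ?_
      rw [map_mul]
      exact mul_le_one' (val_algebraMap_le_of hF v hy1) hDs

theorem val_D_F_le (hF : IsFunctionField k F) (v : Place k L)
    (D : Derivation k L L) (B : ℤ) (hB : ∀ x, v.val x ≤ 1 → v.val (D x) ≤ WithZero.exp B) (s : F)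
    (hs : (resPl hF v).ord s = 1) (hDs : v.val (D (algebraMap F L s)) ≤ 1)
    (f : F) (hf : (resPl hF v).val f ≤ 1) : v.val (D (algebraMap F L f)) ≤ 1 := by
  by_contra hlt
  rw [not_le] at hlt
  rcases le_max_iff.1 (val_D_F_le_max hF v D B hB s hs hDs B.toNat f hf) with h | h
  · exact absurd h (not_le.2 hlt)
  · refine absurd h (not_le.2 (lt_of_le_of_lt ?_ hlt))
    rw [← WithZero.exp_zero, WithZero.exp_le_exp]
    have := Int.self_le_toNat B
    omega

end der

section diff

variable {k F L M : Type} [Field k] [Field F] [Field L] [Field M] [Algebra k F] [Algebra k L]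
  [Algebra k M] [Algebra F L] [Algebra F M] [Algebra L M] [IsScalarTower k F L]
  [IsScalarTower k F M] [IsScalarTower k L M] [IsScalarTower F L M]
  [IsAlgClosed k] [FiniteDimensional F L] [FiniteDimensional L M] [FiniteDimensional F M]
  [IsGalois F M]

/-- the bound of a derivation by the different -/
theorem ord_D_ge_diff (hF : IsFunctionField k F) (hL : IsFunctionField k L) (w : Place k M)
    (D : Derivation k L L) (B : ℤ)
    (hB : ∀ x, (resPl hL w).val x ≤ 1 → (resPl hL w).val (D x) ≤ WithZero.exp B) (s : F)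
    (hs : (resPl hF (resPl hL w)).ord s = 1) (hDs : (resPl hL w).val (D (algebraMap F L s)) ≤ 1)
    (y : L) (hy : ∀ σ : M ≃ₐ[F] M, w.val (σ (algebraMap L M y)) ≤ 1) (hDy : D y ≠ 0) :
    ∃ R : Finset M, (∀ z ∈ R, z ≠ algebraMap L M y ∧ ∃ σ : M ≃ₐ[F] M, σ (algebraMap L M y) = z) ∧
      -(∑ z ∈ R, w.ord (algebraMap L M y - z)) ≤ w.ord (algebraMap L M (D y)) := by
  classical
  set Y := algebraMap L M y with hY
  have hint : IsIntegral F y := Algebra.IsIntegral.isIntegral y
  have hintY : IsIntegral F Y := Algebra.IsIntegral.isIntegral Y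
  set g := minpoly F y with hg
  have hgY : minpoly F Y = g := minpoly.algebraMap_eq (algebraMap L M).injective y
  have hmon : g.Monic := minpoly.monic hint
  have hsplit : (g.map (algebraMap F M)).Splits := by
    rw [← hgY]; exact Normal.splits inferInstance Y
  have hsep : g.Separable := by
    rw [← hgY]; exact Algebra.IsSeparable.isSeparable F Y
  have hnodup : (g.map (algebraMap F M)).roots.Nodup := nodup_roots hsep.map
  have hmonM : (g.map (algebraMap F M)).Monic := hmon.map _
  have hroot : ∀ z ∈ (g.map (algebraMap F M)).roots, ∃ σ : M ≃ₐ[F] M, σ Y = z := by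
    intro z hz
    rw [mem_roots hmonM.ne_zero, IsRoot.def, eval_map_algebraMap, ← hgY] at hz
    exact minpoly.exists_algEquiv_of_root' (Algebra.IsAlgebraic.isAlgebraic Y) hz
  -- the coefficients are integral
  have hcoeff : ∀ i, (resPl hF (resPl hL w)).val (g.coeff i) ≤ 1 := by
    intro i
    have h1 := hsplit.mem_lift_of_roots_mem_range hmonM (S := w.ring)
      (algebraMap w.ring M) (by
        intro z hz
        obtain ⟨σ, rfl⟩ := hroot z hz
        exact ⟨⟨σ Y, hy σ⟩, rfl⟩)
    rw [lifts_iff_coeff_lifts] at h1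
    obtain ⟨a, ha⟩ := h1 i
    have h2 : w.val (algebraMap F M (g.coeff i)) ≤ 1 := by
      rw [coeff_map] at ha
      rw [← ha]
      exact a.2
    by_cases hc0 : g.coeff i = 0
    · rw [hc0, map_zero]; exact zero_le
    · have hc0' : algebraMap F M (g.coeff i) ≠ 0 := by simpa using hc0
      rw [← w.ord_nonneg_iff hc0', IsScalarTower.algebraMap_apply F L M, ord_algebraMap hL,
        ord_algebraMap hF] at h2
      rw [← (resPl hF (resPl hL w)).ord_nonneg_iff hc0]
      have h3 := ram_pos hL w
      have h4 := ram_pos hF (resPl hL w)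
      by_contra hcon
      rw [not_le] at hcon
      have h5 : (ram hF (resPl hL w) : ℤ) * (resPl hF (resPl hL w)).ord (g.coeff i) < 0 :=
        mul_neg_of_pos_of_neg (by (clear * - h4; positivity)) hcon
      have h6 : (ram hL w : ℤ) * ((ram hF (resPl hL w) : ℤ) *
        (resPl hF (resPl hL w)).ord (g.coeff i)) < 0 := mul_neg_of_pos_of_neg (by positivity) h5
      omega
  have hyv : (resPl hL w).val y ≤ 1 := by
    by_cases hy0 : y = 0
    · rw [hy0, map_zero]; exact zero_le
    · have h1 := hy 1
      rw [AlgEquiv.one_apply] at h1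
      have hy0' : Y ≠ 0 := by simpa [hY] using hy0
      rw [← w.ord_nonneg_iff hy0', hY, ord_algebraMap hL] at h1
      rw [← (resPl hL w).ord_nonneg_iff hy0]
      have h3 := ram_pos hL w
      by_contra hcon
      rw [not_le] at hcon
      have h5 : (ram hL w : ℤ) * (resPl hL w).ord y < 0 :=
        mul_neg_of_pos_of_neg (by (clear * - h3; positivity)) hcon
      omega
  -- the derivative
  have h1 := deriv_implicit (k := k) D g y (minpoly.aeval F y)
  have h2 : (resPl hL w).val (aeval y (derivative g) * D y) ≤ 1 := by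
    rw [h1, Valuation.map_neg]
    apply Valuation.map_sum_le
    intro i _
    rw [map_mul, map_pow]
    exact mul_le_one' (val_D_F_le hF (resPl hL w) D B hB s hs hDs _ (hcoeff i)) (pow_le_one' hyv i)
  have hYroot : Y ∈ (g.map (algebraMap F M)).roots := by
    rw [mem_roots hmonM.ne_zero, IsRoot.def, eval_map_algebraMap, ← hgY]
    exact minpoly.aeval F Y
  have h3 : aeval Y (derivative g) =
      (((g.map (algebraMap F M)).roots.erase Y).map (Y - ·)).prod := by
    rw [← hsplit.eval_root_derivative hmonM hYroot, derivative_map, eval_map_algebraMap]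
  let R : Finset M := ⟨(g.map (algebraMap F M)).roots.erase Y, hnodup.erase Y⟩
  have h4 : aeval Y (derivative g) = ∏ z ∈ R, (Y - z) := h3
  have hR : ∀ z ∈ R, z ≠ Y ∧ ∃ σ : M ≃ₐ[F] M, σ Y = z := by
    intro z hz
    have hz' : z ∈ (g.map (algebraMap F M)).roots.erase Y := hz
    rw [hnodup.mem_erase_iff] at hz'
    exact ⟨hz'.1, hroot z hz'.2⟩
  refine ⟨R, hR, ?_⟩
  have h5 : w.ord (aeval Y (derivative g)) = ∑ z ∈ R, w.ord (Y - z) := by
    rw [h4, ord_prod w R _ fun z hz => sub_ne_zero.2 (Ne.symm (hR z hz).1)]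
  have h6 : aeval y (derivative g) ≠ 0 := by
    intro h0
    have h7 : aeval Y (derivative g) = 0 := by
      rw [hY, aeval_algebraMap_apply, h0, map_zero]
    rw [h4, Finset.prod_eq_zero_iff] at h7
    obtain ⟨z, hz, hz0⟩ := h7
    exact (hR z hz).1 (sub_eq_zero.1 hz0).symm
  have h7 : 0 ≤ w.ord (algebraMap L M (aeval y (derivative g) * D y)) := by
    rw [ord_algebraMap hL]
    exact mul_nonneg (by (clear * -; positivity)) (((resPl hL w).ord_nonneg_iff (mul_ne_zero h6 hDy)).2 h2)
  rw [map_mul, w.ord_mul (by simpa using h6) (by simpa using hDy), ← aeval_algebraMap_apply, ← hY,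
    h5] at h7
  omega

/-- **Bound of a derivation by the wild ramification numbers.** -/
theorem exists_wild_bound (hF : IsFunctionField k F) (hL : IsFunctionField k L) (w : Place k M)
    (D : Derivation k L L) (B : ℤ)
    (hB : ∀ x, (resPl hL w).val x ≤ 1 → (resPl hL w).val (D x) ≤ WithZero.exp B) (s : F)
    (hs : (resPl hF (resPl hL w)).ord s = 1) (hDs : (resPl hL w).val (D (algebraMap F L s)) ≤ 1)
    (y : L) (hy : (resPl hL w).ord y = 1)
    (hy' : ∀ v : Place k L, resPl hF v = resPl hF (resPl hL w) → v ≠ resPl hL w → v.ord y = 0)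
    (hDy : D y ≠ 0) :
    ∃ S : Finset (M ≃ₐ[F] M), (∀ τ ∈ S, act (τ.restrictScalars k) w = w ∧
        τ (algebraMap L M y) ≠ algebraMap L M y) ∧
      -(∑ τ ∈ S, ((wildN hL (τ.restrictScalars k) w : ℤ) + ram hL w)) ≤
        ram hL w * (resPl hL w).ord (D y) := by
  classical
  haveI : IsGalois L M := IsGalois.tower_top_of_isGalois F L M
  have hy0 : y ≠ 0 := by
    rintro rfl
    rw [Place.ord_zero] at hy
    exact absurd hy (by norm_num)
  set Y := algebraMap L M y with hY
  have hY0 : Y ≠ 0 := by simpa [hY] using hy0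
  have hYord : w.ord Y = ram hL w := by rw [hY, ord_algebraMap hL, hy, mul_one]
  -- the places `σ⁻¹ w`
  have hpl : ∀ σ : M ≃ₐ[F] M, resPl hF (resPl hL (act (σ.restrictScalars k) w)) =
      resPl hF (resPl hL w) := by
    intro σ
    have h1 := (resPl_trans (L := L) (M := M) hF hL (act (σ.restrictScalars k) w)).1
    have h2 := (resPl_trans (L := L) (M := M) hF hL w).1
    rw [← h1, ← h2, (resPl_act hF σ w).1]
  have hordσ : ∀ σ : M ≃ₐ[F] M, w.ord (σ Y) =
      ram hL (act ((σ⁻¹ : M ≃ₐ[F] M).restrictScalars k) w) *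
        (resPl hL (act ((σ⁻¹ : M ≃ₐ[F] M).restrictScalars k) w)).ord y := by
    intro σ
    rw [← ord_algebraMap hL, act_ord]
    rfl
  have hcase : ∀ σ : M ≃ₐ[F] M, w.ord (σ Y) = 0 ∨
      (0 < w.ord (σ Y) ∧ ∃ τ : M ≃ₐ[F] M, act (τ.restrictScalars k) w = w ∧ τ Y = σ Y) := by
    intro σ
    by_cases hσ : resPl hL (act ((σ⁻¹ : M ≃ₐ[F] M).restrictScalars k) w) = resPl hL w
    · right
      have h1 := ram_pos hL (act ((σ⁻¹ : M ≃ₐ[F] M).restrictScalars k) w)
      refine ⟨?_, ?_⟩
      · rw [hordσ, hσ, hy]; omega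
      · obtain ⟨h, hh⟩ := exists_act_eq hL (act ((σ⁻¹ : M ≃ₐ[F] M).restrictScalars k) w) w hσ
        refine ⟨σ * (h.restrictScalars F)⁻¹, ?_, ?_⟩
        · have h2 : act (((σ * (h.restrictScalars F)⁻¹ : M ≃ₐ[F] M)).restrictScalars k) w =
              act (σ.restrictScalars k) (act ((h⁻¹ : M ≃ₐ[L] M).restrictScalars k) w) :=
            Place.ext_val (by ext x; rfl)
          rw [h2]
          conv_lhs => rw [← hh]
          rw [← act_mul, ← act_mul]
          have h3 : σ.restrictScalars k * ((h⁻¹ : M ≃ₐ[L] M).restrictScalars k *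
              h.restrictScalars k) * (σ⁻¹ : M ≃ₐ[F] M).restrictScalars k = 1 := by
            ext x
            change σ (h⁻¹ (h (σ⁻¹ x))) = x
            rw [AlgEquiv.aut_inv, AlgEquiv.symm_apply_apply, AlgEquiv.aut_inv,
              AlgEquiv.apply_symm_apply]
          have h4 : act (σ.restrictScalars k) (act ((h⁻¹ : M ≃ₐ[L] M).restrictScalars k *
              h.restrictScalars k) (act ((σ⁻¹ : M ≃ₐ[F] M).restrictScalars k) w)) = w := by
            rw [← act_mul, ← act_mul, ← mul_assoc] at *
            rw [h3, act_one]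
          exact h4
        · change σ ((h⁻¹ : M ≃ₐ[L] M) Y) = σ Y
          rw [hY, AlgEquiv.commutes]
    · left
      rw [hordσ, hy' _ (hpl σ⁻¹) hσ, mul_zero]
  have hint : ∀ σ : M ≃ₐ[F] M, w.val (σ Y) ≤ 1 := by
    intro σ
    rw [← w.ord_nonneg_iff (by simpa using hY0)]
    rcases hcase σ with h | h
    · exact h.ge
    · exact h.1.le
  obtain ⟨R, hR, hle⟩ := ord_D_ge_diff hF hL w D B hB s hs hDs y hint hDy
  rw [← hY] at hR hle
  rw [ord_algebraMap hL] at hle
  -- the representatives
  have hrep : ∀ z : M, ∃ τ : M ≃ₐ[F] M, z ∈ R → w.ord z ≠ 0 →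
      act (τ.restrictScalars k) w = w ∧ τ Y = z := by
    intro z
    by_cases hz : z ∈ R ∧ w.ord z ≠ 0
    · obtain ⟨σ, rfl⟩ := (hR z hz.1).2
      rcases hcase σ with h | ⟨-, τ, h1, h2⟩
      · exact absurd h hz.2
      · exact ⟨τ, fun _ _ => ⟨h1, h2⟩⟩
    · exact ⟨1, fun h1 h2 => absurd ⟨h1, h2⟩ hz⟩
  choose τ hτ using hrep
  let R' := R.filter fun z => w.ord z ≠ 0
  have hR' : ∀ z ∈ R', act ((τ z).restrictScalars k) w = w ∧ τ z Y = z := by
    intro z hz
    rw [Finset.mem_filter] at hz
    exact hτ z hz.1 hz.2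
  refine ⟨R'.image τ, ?_, ?_⟩
  · intro σ hσ
    obtain ⟨z, hz, rfl⟩ := Finset.mem_image.1 hσ
    refine ⟨(hR' z hz).1, ?_⟩
    rw [(hR' z hz).2]
    exact (hR z (Finset.mem_filter.1 hz).1).1
  · rw [Finset.sum_image]
    · refine le_trans (neg_le_neg ?_) hle
      rw [← Finset.sum_filter_add_sum_filter_not R (fun z => w.ord z ≠ 0)]
      have h1 : ∑ z ∈ R with ¬ w.ord z ≠ 0, w.ord (Y - z) = 0 := by
        apply Finset.sum_eq_zero
        intro z hz
        rw [Finset.mem_filter, not_not] at hz
        have hz0 : z ≠ 0 := by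
          obtain ⟨σ, rfl⟩ := (hR z hz.1).2
          simpa using hY0
        have hzv : w.val z = 1 := (w.ord_eq_zero_iff hz0).1 hz.2
        have hYv : w.val Y < 1 := by
          rw [← w.ord_pos_iff hY0, hYord]
          have := ram_pos hL w
          omega
        rw [w.ord_eq_zero_iff (sub_ne_zero.2 (Ne.symm (hR z hz.1).1)),
          Valuation.map_sub_eq_of_lt_right _ (by rw [hzv]; exact hYv), hzv]
      rw [h1, add_zero]
      apply Finset.sum_le_sum
      intro z hz
      obtain ⟨g1, g2⟩ := hR' z hz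
      have hne := (hR z (Finset.mem_filter.1 hz).1).1
      have h2 := ord_le_wildN hL ((τ z).restrictScalars k) w g1 y hy (by
        change τ z Y ≠ Y
        rw [g2]; exact hne)
      have h3 : ((τ z).restrictScalars k) (algebraMap L M y) = z := g2
      rw [h3, ← hY] at h2
      have h4 : Y - z = -(Y * (z / Y - 1)) := by field_simp; ring
      have h5 : z / Y - 1 ≠ 0 := by
        rw [sub_ne_zero]
        intro h
        rw [div_eq_one_iff_eq hY0] at h
        exact hne h
      have h6 : w.ord (Y - z) = w.ord Y + w.ord (z / Y - 1) := by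
        rw [h4, Place.ord, Valuation.map_neg, ← Place.ord, w.ord_mul hY0 h5]
      rw [h6, hYord]
      omega
    · intro z hz z' hz' h
      rw [← (hR' z hz).2, ← (hR' z' hz').2, h]

end diff

end Pool.Agent.Helper45.GW

end

section

set_option autoImplicit false

set_option linter.style.haveILetI false

namespace Pool.Agent.Helper45.M8

open Polynomial IntermediateField Pool.Agent.Helper16 Pool.Agent.Helper45.FF Pool.Agent.Helper45.FR
  Pool.Agent.Helper45.S6 Pool.Agent.Helper93.RatODE

/-- **Reduction to untwisted orbits.** -/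
theorem absS_of_absT (k : Type) [Field k] [IsAlgClosed k] (p : ℕ) [Fact p.Prime] [CharP k p]
    (d : ℕ) (hd : 1 ≤ d) (n : ℕ) (h : AbsT k p d n) : AbsS k d n := by
  obtain ⟨N, hN⟩ := h
  refine ⟨N + 2 * d, ?_⟩
  intro L _ _ t hL ht hsep hn F G hFG hF hG htop x hx
  rcases exists_untwisted p hL hd (N + 2 * d) (by omega) F G hFG hF hG htop x hx with h1 | h1
  · exact h1
  · obtain ⟨F₁, G₁, z, e, g1, g2, g3, g4, g5, g6, -, g8⟩ := h1
    exact g6 (hN L t hL ht hsep hn F₁ G₁ g1 g2 g3 g4 z (ratOrbit_mono' g5 (by omega)) g8)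

end Pool.Agent.Helper45.M8

end

section

set_option autoImplicit false

open Finset Polynomial

namespace Pool.Agent.Helper33.PT

open Pool.Agent.Helper33.UB Pool.Agent.Helper51.RatTree Pool.Agent.Helper55.RD
  Pool.Agent.Helper93.RatODE Pool.Agent.Helper45.FR Pool.Agent.Helper33.PS

section wild

variable {k K E V W : Type} [Field k] [Field K] [Field E] [Algebra k K] [Algebra k E]
  [Algebra K E] [IsScalarTower k K E] {P : PSys k K V} {Q : PSys k E W} {n : ℕ}

/-- the error of the derivation in terms of the wild ramification and of the number of ramified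
places -/
theorem E_le (gs : GalW P Q n) (T : Finset V) (hTe : ∀ v, v ∉ T → P.e v = 0) (B : ℝ) (hB : 0 ≤ B)
    (hwild : ∀ σ ∈ gs.G, (∃ y : K, σ (algebraMap K E y) ≠ algebraMap K E y) →
      ∀ S : Finset W, (∀ w ∈ S, gs.act σ w = w) → (∑ w ∈ S, gs.wild σ w : ℝ) ≤ B) :
    (P.E : ℝ) ≤ n * B + n * n * (T.filter fun v => 1 ≤ P.e v).card := by
  classical
  set R := T.filter fun v => 1 ≤ P.e v with hR
  have hE : P.E = ∑ v ∈ R, P.e v := by
    unfold PSys.E
    apply sum_congr _ fun _ _ => rfl
    ext v
    rw [Set.Finite.mem_toFinset, hR, mem_filter, Set.mem_ofPred_eq]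
    constructor
    · intro hv
      refine ⟨?_, by omega⟩
      by_contra hvT
      exact hv (hTe v hvT)
    · rintro ⟨_, hv⟩
      omega
  have hex : ∀ v : R, ∃ w, gs.res w = v ∧ ∃ s ⊆ gs.G, s.Nonempty ∧ (∀ σ ∈ s, gs.act σ w = w ∧
      ∃ y : K, σ (algebraMap K E y) ≠ algebraMap K E y) ∧
      P.e v ≤ ∑ σ ∈ s, (gs.wild σ w + gs.ram w) := fun v =>
    gs.e_le v (mem_filter.mp v.2).2
  choose wv hres sv hsv hne hact hle using hex
  have hram : ∀ w, gs.ram w ≤ n := by
    intro w
    have := gs.fib (gs.res w) {w} (by simp)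
    simpa using this
  have h1 : (P.E : ℝ) ≤ ∑ v : R, (∑ σ ∈ sv v, (gs.wild σ (wv v) : ℝ) + n * n) := by
    rw [hE, ← sum_coe_sort R]
    push_cast
    apply sum_le_sum
    intro v _
    have h2 : (P.e v : ℝ) ≤ ∑ σ ∈ sv v, ((gs.wild σ (wv v) : ℝ) + gs.ram (wv v)) := by
      exact_mod_cast hle v
    rw [sum_add_distrib, sum_const, nsmul_eq_mul] at h2
    have h3 : ((sv v).card : ℝ) ≤ n := by exact_mod_cast (card_le_card (hsv v)).trans gs.card_G
    have h4 : ((gs.ram (wv v) : ℕ) : ℝ) ≤ n := by exact_mod_cast hram _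
    have h5 : ((sv v).card : ℝ) * gs.ram (wv v) ≤ n * n := by
      apply mul_le_mul h3 h4 (Nat.cast_nonneg _) (Nat.cast_nonneg _)
    linarith
  rw [sum_add_distrib, sum_const, card_univ, Fintype.card_coe, nsmul_eq_mul] at h1
  have h2 : ∑ v : R, ∑ σ ∈ sv v, (gs.wild σ (wv v) : ℝ) ≤ ∑ σ ∈ gs.G, B := by
    have h3 : ∀ v : R, ∑ σ ∈ sv v, (gs.wild σ (wv v) : ℝ) =
        ∑ σ ∈ gs.G, if σ ∈ sv v then (gs.wild σ (wv v) : ℝ) else 0 := by
      intro v
      rw [← sum_filter, filter_mem_eq_inter, inter_eq_right.mpr (hsv v)]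
    rw [sum_congr rfl fun v _ => h3 v, sum_comm]
    apply sum_le_sum
    intro σ hσ
    rw [← sum_filter]
    rcases (univ.filter fun v : R => σ ∈ sv v).eq_empty_or_nonempty with h0 | ⟨v₀, hv₀⟩
    · rw [h0, sum_empty]; exact hB
    · have h4 := hwild σ hσ (hact v₀ σ (mem_filter.mp hv₀).2).2
        ((univ.filter fun v : R => σ ∈ sv v).image wv) (by
          intro w hw
          obtain ⟨v, hv, rfl⟩ := mem_image.mp hw
          exact (hact v σ (mem_filter.mp hv).2).1)
      rw [sum_image] at h4
      · exact h4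
      · intro v _ v' _ e
        apply Subtype.ext
        rw [← hres v, ← hres v', e]
  rw [sum_const, nsmul_eq_mul] at h2
  have h3 : (gs.G.card : ℝ) * B ≤ n * B := by
    apply mul_le_mul_of_nonneg_right _ hB
    exact_mod_cast gs.card_G
  have h4 : (R.card : ℝ) * (n * n) = n * n * R.card := by ring
  linarith

end wild

end Pool.Agent.Helper33.PT

end
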