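import Pool.Agent.Helper23.MB.L02_ab0
import Pool.Agent.Helper23.MB.L02_ab1
import Pool.Agent.Helper23.MB.L02_ab2
import Pool.Agent.Helper23.MB.L02_ab3
import Pool.Agent.Helper23.MB.L02_ab5
import Pool.Agent.Helper23.MB.L02_ab6
import Pool.Agent.Helper23.MB.L02_ab7

/-!
Parts of Helper45.S4Inert, Helper45.S6Main, Helper67.RRHurwitz, Helper47.EN.Ext, Helper13.EN.V2, Helper45.GalW3, Helper33.PT.InstV, Helper33.PT.Core2, Helper33.PT.Lev, Helper33.PT.Final1, Helper33.PT.Final2
-/

attribute [-simp] Valuation.IsUniformizer.val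
attribute [local instance 5000]
  Pool.Agent.Helper23.MB.Inst.rCharZero Pool.Agent.Helper23.MB.Inst.rALM
  Pool.Agent.Helper23.MB.Inst.rARM Pool.Agent.Helper23.MB.Inst.rALSM
  Pool.Agent.Helper23.MB.Inst.rARSM Pool.Agent.Helper23.MB.Inst.rARRLE
  Pool.Agent.Helper23.MB.Inst.rALRLE Pool.Agent.Helper23.MB.Inst.rARRLT
  Pool.Agent.Helper23.MB.Inst.rALRLT Pool.Agent.Helper23.MB.Inst.rPMRLT
  Pool.Agent.Helper23.MB.Inst.rMPRLT Pool.Agent.Helper23.MB.Inst.rPMM
  Pool.Agent.Helper23.MB.Inst.rMPM Pool.Agent.Helper23.MB.Inst.rPMSM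
  Pool.Agent.Helper23.MB.Inst.rMPSM Pool.Agent.Helper23.MB.Inst.rEAOL
  Pool.Agent.Helper23.MB.Inst.rIOR Pool.Agent.Helper23.MB.Inst.rISOR
  Pool.Agent.Helper23.MB.Inst.rNZD Pool.Agent.Helper23.MB.Inst.zCharZero
  Pool.Agent.Helper23.MB.Inst.zALM Pool.Agent.Helper23.MB.Inst.zARM
  Pool.Agent.Helper23.MB.Inst.zIOR Pool.Agent.Helper23.MB.Inst.zISOR
  Pool.Agent.Helper23.MB.Inst.zNZD Pool.Agent.Helper23.MB.Inst.qCharZero
  Pool.Agent.Helper23.MB.Inst.free Pool.Agent.Helper23.MB.Inst.faith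
  Pool.Agent.Helper23.MB.Inst.torsionFree Pool.Agent.Helper23.MB.Inst.rfFaith
  Pool.Agent.Helper23.MB.Inst.hAdd Pool.Agent.Helper23.MB.Inst.hAddM
  Pool.Agent.Helper23.MB.Inst.hMul Pool.Agent.Helper23.MB.Inst.hMon
  Pool.Agent.Helper23.MB.Inst.hZero Pool.Agent.Helper23.MB.Inst.hOne
  Pool.Agent.Helper23.MB.Inst.hMZ Pool.Agent.Helper23.MB.Inst.hRing
  Pool.Agent.Helper23.MB.Inst.aAdd Pool.Agent.Helper23.MB.Inst.aAddM
  Pool.Agent.Helper23.MB.Inst.aMul Pool.Agent.Helper23.MB.Inst.aMon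
  Pool.Agent.Helper23.MB.Inst.aZero Pool.Agent.Helper23.MB.Inst.aOne
  Pool.Agent.Helper23.MB.Inst.aMZ Pool.Agent.Helper23.MB.Inst.aRing

namespace Pool.Agent.Helper16
end Pool.Agent.Helper16
namespace Pool.Agent.Helper33
end Pool.Agent.Helper33
namespace Pool.Agent.Helper33.PS
end Pool.Agent.Helper33.PS
namespace Pool.Agent.Helper33.PT
end Pool.Agent.Helper33.PT
namespace Pool.Agent.Helper33.UB
end Pool.Agent.Helper33.UB
namespace Pool.Agent.Helper45.FF
end Pool.Agent.Helper45.FF
namespace Pool.Agent.Helper45.FR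
end Pool.Agent.Helper45.FR
namespace Pool.Agent.Helper45.M8
end Pool.Agent.Helper45.M8
namespace Pool.Agent.Helper45.S4
end Pool.Agent.Helper45.S4
namespace Pool.Agent.Helper47.RR
end Pool.Agent.Helper47.RR
namespace Pool.Agent.Helper51.RatTree
end Pool.Agent.Helper51.RatTree
namespace Pool.Agent.Helper55.RD
end Pool.Agent.Helper55.RD
namespace Pool.Agent.Helper93.RatODE
end Pool.Agent.Helper93.RatODE

section

set_option autoImplicit false

set_option linter.style.haveILetI false

namespace Pool.Agent.Helper45.S4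

open Polynomial IntermediateField Pool.Agent.Helper16 Pool.Agent.Helper33 Pool.Agent.Helper45.FF

section rational

variable {k L : Type} [Field k] [Field L] [Algebra k L]

/-- On a rational function field `k(t)`, the zero of `t - c` is simple. -/
theorem ord_gen_eq_one [IsAlgClosed k] {F : Type} [Field F] [Algebra k F]
    (hF : IsFunctionField k F) (t : F) (ht : Transcendental k t) (hgen : k⟮t⟯ = ⊤) (c : k)
    (b : Place k F) (hb : 0 < b.ord (t - algebraMap k F c)) : b.ord (t - algebraMap k F c) = 1 := by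
  set s := t - algebraMap k F c with hs
  have hst : Transcendental k s := by
    intro h
    apply ht
    have h1 : t = s + algebraMap k F c := by rw [hs]; ring
    rw [h1]
    exact h.add (isAlgebraic_algebraMap c)
  have hs0 : s ≠ 0 := transcendental_ne_zero hst
  have hgen' : k⟮s⟯ = ⊤ := by
    rw [eq_top_iff, ← hgen, IntermediateField.adjoin_simple_le_iff]
    have h1 : t = s + algebraMap k F c := by rw [hs]; ring
    rw [h1]
    exact add_mem (IntermediateField.mem_adjoin_simple_self k s) (IntermediateField.algebraMap_mem _ c)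
  obtain ⟨S, hS, hsum, -⟩ := hF.zeros s hst
  have hfin : Module.finrank k⟮s⟯ F = 1 := by
    rw [hgen']
    exact IntermediateField.finrank_top
  rw [hfin] at hsum
  have hbS : b ∈ S := (hS b).2 ((b.ord_pos_iff hs0).1 hb)
  have h1 : b.ord s * (b.deg : ℤ) ≤ ∑ v ∈ S, v.ord s * (v.deg : ℤ) := by
    apply Finset.single_le_sum (f := fun v : Place k F => v.ord s * (v.deg : ℤ)) _ hbS
    intro v hv
    have h2 := (v.ord_pos_iff hs0).2 ((hS v).1 hv)
    (clear * - h2; positivity)
  rw [hsum, deg_eq_one hF, Nat.cast_one, mul_one] at h1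
  omega

end rational

end Pool.Agent.Helper45.S4

end

section

set_option autoImplicit false

set_option linter.style.haveILetI false

namespace Pool.Agent.Helper45.S6

open Polynomial IntermediateField Pool.Agent.Helper16 Pool.Agent.Helper33 Pool.Agent.Helper45.FF
  Pool.Agent.Helper45.FR

/-- **Reduction of S17873**, in every characteristic. -/
theorem main_of_abs (k K : Type) [Field k] [Field K] [Algebra k K]
    (hfg : (⊤ : IntermediateField k K).FG)
    (htr : ∃ x : K, Transcendental k x ∧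
      Algebra.IsAlgebraic (IntermediateField.adjoin k {x}) K)
    (d : ℕ) (hd : 2 ≤ d) (habs : ∀ n : ℕ, AbsS (kb k K) d n) (D : ℕ) :
    ∃ B : ℕ,
    ∀ (F G : MvPolynomial (Fin 2) (AlgebraicClosure K)),
      F.IsHomogeneous d → G.IsHomogeneous d →
      (∀ v : Fin 2 → AlgebraicClosure K,
        MvPolynomial.eval v F = 0 → MvPolynomial.eval v G = 0 → v = 0) →
      (¬ ∃ (A : Matrix (Fin 2) (Fin 2) (AlgebraicClosure K))
          (F' G' : MvPolynomial (Fin 2) (AlgebraicClosure K)),
          A.det ≠ 0 ∧ F'.IsHomogeneous d ∧ G'.IsHomogeneous d ∧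
          (∀ m, IsAlgebraic k (F'.coeff m) ∧ IsAlgebraic k (G'.coeff m)) ∧
          ∀ v : Fin 2 → AlgebraicClosure K, v ≠ 0 →
            ∃ c : AlgebraicClosure K, c ≠ 0 ∧
              ![MvPolynomial.eval (A.mulVec v) F, MvPolynomial.eval (A.mulVec v) G] =
                c • A.mulVec ![MvPolynomial.eval v F', MvPolynomial.eval v G']) →
      ∀ L : IntermediateField K (AlgebraicClosure K),
        FiniteDimensional K L → Module.finrank K L ≤ D →
        (∀ m, F.coeff m ∈ L ∧ G.coeff m ∈ L) →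
        {p : Projectivization (AlgebraicClosure K) (Fin 2 → AlgebraicClosure K) |
            (∃ m n : ℕ, m < n ∧ ∃ c : AlgebraicClosure K, c ≠ 0 ∧
              (fun v : Fin 2 → AlgebraicClosure K =>
                  ![MvPolynomial.eval v F, MvPolynomial.eval v G])^[n] p.rep =
                c • (fun v : Fin 2 → AlgebraicClosure K =>
                  ![MvPolynomial.eval v F, MvPolynomial.eval v G])^[m] p.rep) ∧
            ∃ L' : IntermediateField K (AlgebraicClosure K),
              FiniteDimensional K L' ∧ Module.finrank K L' ≤ D ∧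
              ∃ c : AlgebraicClosure K, c ≠ 0 ∧ ∀ i, c * p.rep i ∈ L'}.encard ≤ B := by
  classical
  obtain ⟨x, hx, halg⟩ := htr
  haveI : FiniteDimensional k⟮x⟯ K := finiteDimensional_of k K hfg x halg
  obtain ⟨N, hN⟩ := habs (Module.finrank k⟮x⟯ K * (D * D))
  refine ⟨1 + (N + 1) ^ 2 * (2 * d ^ N), ?_⟩
  intro F G hF hG hFG hiso L hLfd hL hcoef
  refine le_trans (Set.encard_le_encard ?_) (encard_small hd N F G hF hG hFG)
  rintro p ⟨⟨m, n, hmn, e, he, hmne⟩, L', hL'fd, hL', c, hc, hcp⟩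
  haveI := hLfd
  haveI := hL'fd
  -- the compositum
  let E : IntermediateField K (AlgebraicClosure K) := L ⊔ L'
  have hE : Module.finrank K E ≤ D * D :=
    (IntermediateField.finrank_sup_le L L').trans (Nat.mul_le_mul hL hL')
  obtain ⟨M, t, hEM, ht, hM, hdeg⟩ := exists_compositum k K x hx E
  obtain ⟨τ, hτ, hτsep, hτdeg⟩ := exists_separating hM t ht
  have hn : Module.finrank (kb k K)⟮τ⟯ M ≤ Module.finrank k⟮x⟯ K * (D * D) :=
    hτdeg.trans (hdeg.trans (Nat.mul_le_mul_left _ hE))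
  have hLM : ∀ y ∈ L, y ∈ M := fun y hy => hEM y ((le_sup_left : L ≤ L ⊔ L') hy)
  have hL'M : ∀ y ∈ L', y ∈ M := fun y hy => hEM y ((le_sup_right : L' ≤ L ⊔ L') hy)
  obtain ⟨P, Q, hPQ⟩ := exists_dehom (M := M) F G hF hG hFG
    (fun m => ⟨⟨F.coeff m, hLM _ (hcoef m).1⟩, rfl⟩)
    (fun m => ⟨⟨G.coeff m, hLM _ (hcoef m).2⟩, rfl⟩)
  haveI : Infinite (kb k K) := IsAlgClosed.instInfinite
  haveI : Infinite M := Infinite.of_injective _ (algebraMap (kb k K) M).injective
  exact exists_small (k := k) (kb := kb k K) (fun a => mem_algebraicClosure_iff.mp a.2) d N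
    (hN M τ hM hτ hτsep hn) hPQ hiso p.rep p.rep_nonzero
    ⟨c, hc, fun i => ⟨⟨c * p.rep i, hL'M _ (hcp i)⟩, rfl⟩⟩ ⟨m, n, hmn, e, he, hmne⟩

end Pool.Agent.Helper45.S6

end

section

set_option autoImplicit false

set_option linter.style.haveILetI false

set_option linter.unusedSectionVars false

namespace Pool.Agent.Helper47.RR

open Pool.Agent.Helper16 Pool.Agent.Helper45.S4

variable {k L M : Type} [Field k] [Field L] [Field M] [Algebra k L] [Algebra k M] [Algebra L M]
  [IsScalarTower k L M]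

section cotrace

variable [IsAlgClosed k] (hN : IsFunctionField k L) [FiniteDimensional L M] (W : Dv k L)

/-- `b` (a family indexed by the places of `L`) approximates the pre-adele `α` of `M`. -/
def Rel (α : Place k M → M) (b : Place k L → M) : Prop :=
  ∀ w : Place k M, w.val (b (resPl hN w) - α w) ≤
    WithZero.exp ((ram hN w : ℤ) * W (resPl hN w))

theorem exists_rel
    (hWA : ∀ (S : Finset (Place k M)) (a : Place k M → M) (n : ℤ),
      ∃ x : M, ∀ w ∈ S, w.val (x - a w) ≤ WithZero.exp n)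
    (α : Place k M → M) : ∃ b : Place k L → M, Rel hN W α b := by
  have h : ∀ v : Place k L, ∃ x : M, ∀ w ∈ fib (M := M) hN v,
      w.val (x - α w) ≤ WithZero.exp ((ram hN w : ℤ) * W v) := by
    intro v
    obtain ⟨n, hn⟩ : ∃ n : ℤ, ∀ w ∈ fib (M := M) hN v, n ≤ (ram hN w : ℤ) * W v := by
      have hb : BddBelow ((fun w => (ram hN w : ℤ) * W v) ''
          ((fib (M := M) hN v : Finset (Place k M)) : Set (Place k M))) :=
        ((fib (M := M) hN v).finite_toSet.image _).bddBelow
      obtain ⟨n, hn⟩ := hb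
      exact ⟨n, fun w hw => hn ⟨w, hw, rfl⟩⟩
    obtain ⟨x, hx⟩ := hWA (fib (M := M) hN v) α n
    exact ⟨x, fun w hw => (hx w hw).trans (WithZero.exp_le_exp.2 (hn w hw))⟩
  choose b hb using h
  exact ⟨b, fun w => hb (resPl hN w) w ((mem_fib hN _ w).2 rfl)⟩

theorem trace_mem_Ad
    (hTr : ∀ (v : Place k L) (m : ℤ) (x : M),
      (∀ w : Place k M, resPl hN w = v → w.val x ≤ WithZero.exp ((ram hN w : ℤ) * m)) →
      v.val (Algebra.trace L M x) ≤ WithZero.exp m)
    {α : Place k M → M} (hα : α ∈ Ad k M) {b : Place k L → M} (hb : Rel hN W α b) :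
    (fun v => Algebra.trace L M (b v)) ∈ Ad k L := by
  have hfin : ({v : Place k L | v ∈ W.support} ∪
      (resPl hN) '' {w : Place k M | ¬ w.val (α w) ≤ 1}).Finite :=
    (W.support.finite_toSet).union (Set.Finite.image _ hα)
  refine hfin.subset ?_
  intro v hv
  by_contra hcon
  rw [Set.mem_union, not_or] at hcon
  obtain ⟨h1, h2⟩ := hcon
  have hW : W v = 0 := by
    by_contra hne
    exact h1 (Finsupp.mem_support_iff.2 hne)
  apply hv
  have := hTr v 0 (b v) (fun w hw => ?_)
  · rwa [WithZero.exp_zero] at this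
  · rw [mul_zero, WithZero.exp_zero]
    have h3 : w.val (α w) ≤ 1 := by
      by_contra hne
      exact h2 ⟨w, hne, hw⟩
    have h4 := hb w
    rw [hw, hW, mul_zero, WithZero.exp_zero] at h4
    have h5 : b v = (b v - α w) + α w := by ring
    rw [h5]
    exact (w.val.map_add _ _).trans (max_le h4 h3)

theorem Rel.wd
    (hTr : ∀ (v : Place k L) (m : ℤ) (x : M),
      (∀ w : Place k M, resPl hN w = v → w.val x ≤ WithZero.exp ((ram hN w : ℤ) * m)) →
      v.val (Algebra.trace L M x) ≤ WithZero.exp m)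
    {ω : Ad k L →ₗ[k] k} (hω : ω ∈ Om W)
    {α : Place k M → M} {b b' : Place k L → M} (hb : Rel hN W α b) (hb' : Rel hN W α b')
    (h1 : (fun v => Algebra.trace L M (b v)) ∈ Ad k L)
    (h2 : (fun v => Algebra.trace L M (b' v)) ∈ Ad k L) :
    ω ⟨_, h1⟩ = ω ⟨_, h2⟩ := by
  rw [← sub_eq_zero, ← map_sub]
  apply hω.1
  rw [mem_AdD]
  intro v
  change v.val (Algebra.trace L M (b v) - Algebra.trace L M (b' v)) ≤ _
  rw [← map_sub]
  apply hTr
  intro w hw
  have h3 := hb w
  have h4 := hb' w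
  rw [hw] at h3 h4
  have h5 : b v - b' v = (b v - α w) - (b' v - α w) := by ring
  rw [h5]
  exact (w.val.map_sub _ _).trans (max_le h3 h4)

theorem Rel.add {α α' : Place k M → M} {b b' : Place k L → M} (hb : Rel hN W α b)
    (hb' : Rel hN W α' b') : Rel hN W (α + α') (b + b') := by
  intro w
  have h5 : (b + b') (resPl hN w) - (α + α') w =
      (b (resPl hN w) - α w) + (b' (resPl hN w) - α' w) := by
    simp only [Pi.add_apply]; ring
  rw [h5]
  exact (w.val.map_add _ _).trans (max_le (hb w) (hb' w))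

theorem Rel.smul (c : k) {α : Place k M → M} {b : Place k L → M} (hb : Rel hN W α b) :
    Rel hN W (c • α) (c • b) := by
  intro w
  have h5 : (c • b) (resPl hN w) - (c • α) w = c • (b (resPl hN w) - α w) := by
    simp only [Pi.smul_apply, smul_sub]
  rw [h5]
  exact (w.filt ((ram hN w : ℤ) * W (resPl hN w))).smul_mem c (hb w)

end cotrace

end Pool.Agent.Helper47.RR

end

section

set_option autoImplicit false

set_option linter.style.haveILetI false

namespace Pool.Agent.Helper47.EN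

open Pool.Agent.Helper16 Pool.Agent.Helper45.S4 Pool.Agent.Helper47.RR IntermediateField

open Pool.Agent.Helper45.FF

variable {k L M : Type} [Field k] [Field L] [Field M] [Algebra k L] [Algebra k M]

/-- the polar divisor -/
theorem exists_polar [IsAlgClosed k] (hM : IsFunctionField k M) (g : M) (hg : Transcendental k g) :
    ∃ D : Dv k M, (∀ v, 0 ≤ D v) ∧ degD D = Module.finrank k⟮g⟯ M ∧ g ∈ Lsp D := by
  classical
  obtain ⟨S, hS, hsum, hpos⟩ := hM.zeros g⁻¹ (transcendental_inv hg)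
  rw [finrank_inv] at hsum
  have hg0 : g ≠ 0 := transcendental_ne_zero hg
  refine ⟨Finsupp.onFinset S (fun v => if v ∈ S then v.ord g⁻¹ else 0) (fun v hv => by
    by_contra hcon
    rw [if_neg hcon] at hv
    exact hv rfl), ?_, ?_, ?_⟩
  · intro v
    rw [Finsupp.onFinset_apply]
    split_ifs with h
    · exact ((v.ord_pos_iff (inv_ne_zero hg0)).2 ((hS v).1 h)).le
    · exact le_rfl
  · rw [← hsum, degD_eq_sum S (fun v hv => by rw [Finsupp.onFinset_apply, if_neg hv])]
    apply Finset.sum_congr rfl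
    intro v hv
    rw [Finsupp.onFinset_apply, if_pos hv, deg_eq_one hM v, Nat.cast_one, mul_one]
  · rw [mem_Lsp]
    intro v
    rw [Finsupp.onFinset_apply]
    split_ifs with h
    · rw [v.ord_inv, Place.ord, neg_neg, WithZero.exp_log (by simpa using hg0)]
    · rw [hS, map_inv₀, inv_lt_one₀ (zero_lt_iff.2 (by simpa using hg0)), not_lt] at h
      simpa using h

end Pool.Agent.Helper47.EN

end

section

set_option autoImplicit false

set_option linter.style.haveILetI false

namespace Pool.Agent.Helper47.EN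

open Pool.Agent.Helper16 Pool.Agent.Helper45.S4 Pool.Agent.Helper47.RR IntermediateField Polynomial

variable {k L M : Type} [Field k] [Field L] [Field M] [Algebra k L] [Algebra k M]

theorem tw_prin (hM : IsFunctionField k M) (γ : M ≃+* M) (γ₀ : k ≃+* k)
    (hγ : ∀ c : k, γ (algebraMap k M c) = algebraMap k M (γ₀ c)) (f : M) :
    Finsupp.mapDomain (tw γ γ₀ hγ) (prin hM (γ f)) = prin hM f := by
  ext v
  obtain ⟨w, rfl⟩ := tw_surjective γ γ₀ hγ v
  rw [Finsupp.mapDomain_apply (tw_injective γ γ₀ hγ), prin_apply, prin_apply, tw_ord]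

end Pool.Agent.Helper47.EN

end

section

set_option autoImplicit false

set_option linter.style.haveILetI false

set_option linter.unusedSectionVars false

namespace Pool.Agent.Helper45.GW

open Polynomial IntermediateField Pool.Agent.Helper16 Pool.Agent.Helper33
  Pool.Agent.Helper33.PS Pool.Agent.Helper33.PT
  Pool.Agent.Helper45.FF Pool.Agent.Helper45.S4 Pool.Agent.Helper45.M8

section param

variable {k L : Type} [Field k] [Field L] [Algebra k L]

/-- a local parameter of `k(t)` below `v` -/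
theorem exists_param [IsAlgClosed k] (hL : IsFunctionField k L) (t : L) (ht : Transcendental k t)
    [FiniteDimensional k⟮t⟯ L] (D : Derivation k L L) (hD : D t = 1) (v : Place k L) :
    ∃ s : k⟮t⟯, (resPl (isFunctionField_adjoin hL t ht) v).ord s = 1 ∧
      v.val (D (algebraMap k⟮t⟯ L s)) ≤ 1 := by
  have hF := isFunctionField_adjoin hL t ht
  have ht0 : t ≠ 0 := transcendental_ne_zero ht
  let g : k⟮t⟯ := AdjoinSimple.gen k t
  have hg : algebraMap k⟮t⟯ L g = t := AdjoinSimple.algebraMap_gen k t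
  have hgt : Transcendental k g := by
    rw [← transcendental_algebraMap_iff (algebraMap k⟮t⟯ L).injective, hg]
    exact ht
  have hgen : k⟮g⟯ = ⊤ := by
    apply IntermediateField.lift_injective k⟮t⟯
    rw [IntermediateField.lift_adjoin_simple, IntermediateField.lift_top]
    rfl
  have hpos : ∀ s : k⟮t⟯, 0 < v.ord (algebraMap k⟮t⟯ L s) → 0 < (resPl hF v).ord s := by
    intro s hs
    rw [ord_algebraMap hF] at hs
    have h2 := ram_pos hF v
    by_contra hcon
    rw [not_lt] at hcon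
    have : (ram hF v : ℤ) * (resPl hF v).ord s ≤ 0 :=
      mul_nonpos_of_nonneg_of_nonpos (by (clear * - h2; positivity)) hcon
    omega
  by_cases hvt : v.val t ≤ 1
  · obtain ⟨c, hc⟩ := exists_res_val hL v t hvt
    have hs : algebraMap k⟮t⟯ L (g - algebraMap k k⟮t⟯ c) = t - algebraMap k L c := by
      rw [map_sub, hg, ← IsScalarTower.algebraMap_apply]
    have hne : t - algebraMap k L c ≠ 0 := by
      intro h
      apply ht
      rw [sub_eq_zero.1 h]
      exact isAlgebraic_algebraMap c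
    refine ⟨g - algebraMap k k⟮t⟯ c, ?_, ?_⟩
    · apply ord_gen_eq_one hF g hgt hgen
      apply hpos
      rw [hs]
      exact (v.ord_pos_iff hne).2 hc
    · rw [hs, map_sub, hD, Derivation.map_algebraMap, sub_zero, map_one]
  · rw [not_le] at hvt
    have hs : algebraMap k⟮t⟯ L g⁻¹ = t⁻¹ := by rw [map_inv₀, hg]
    have hlt : v.val t⁻¹ < 1 := by
      rw [map_inv₀]
      exact inv_lt_one_of_one_lt₀ hvt
    have hgen' : k⟮g⁻¹⟯ = ⊤ := by
      rw [eq_top_iff, ← hgen, IntermediateField.adjoin_simple_le_iff]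
      have h1 := inv_mem (IntermediateField.mem_adjoin_simple_self k g⁻¹)
      rwa [inv_inv] at h1
    refine ⟨g⁻¹, ?_, ?_⟩
    · have h1 := ord_gen_eq_one hF g⁻¹ (transcendental_inv hgt) hgen' 0 (resPl hF v)
      rw [map_zero, sub_zero] at h1
      apply h1
      apply hpos
      rw [hs]
      exact (v.ord_pos_iff (inv_ne_zero ht0)).2 hlt
    · rw [hs, Derivation.leibniz_inv, hD, smul_eq_mul, mul_one, Valuation.map_neg, map_pow]
      exact pow_le_one' hlt.le 2

end param

end Pool.Agent.Helper45.GW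

end

section

set_option autoImplicit false

open Finset Polynomial

namespace Pool.Agent.Helper33.PT

open Pool.Agent.Helper33.UB Pool.Agent.Helper51.RatTree Pool.Agent.Helper55.RD
  Pool.Agent.Helper93.RatODE Pool.Agent.Helper45.FR

variable {k K V : Type} [Field k] [Field K] [Algebra k K] {P : PSys k K V}
  {F G : K[X]} {x : ℕ → K} {N d : ℕ} [DecidableEq K]

/-- the instance, without the differential equations -/
noncomputable def ratInstV (h : RatOrbit F G x N) (hd : 2 ≤ d) (hcop : IsCoprime F G)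
    (hF : F.natDegree ≤ d) (hG : G.natDegree ≤ d) (htop : F.coeff d ≠ 0 ∨ G.coeff d ≠ 0)
    (hres : resultant F G d d ≠ 0) (M : ℝ) (T : Finset V) (hT : RAdm P F G d (rX h) T) :
    GInst P (noOde (ratConst d hd) N) N M where
  x := x
  T := T
  inj := h.inj
  Te := hT.e
  Tx v hv i j hi hj hij := hT.diff v hv _ (mem_rX h i) _ (mem_rX h j) (fun e => hij (h.inj i j hi hj e))
  ε v := ((rloc hd (P.pl v) hF hG hres h).ε : ℝ)
  ε_nonneg v _ := Nat.cast_nonneg _
  disc v _ hv := by
    have hv' : 0 < (rloc hd (P.pl v) hF hG hres h).ε := by exact_mod_cast hv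
    change (1 : ℝ) ≤ _
    exact_mod_cast hv'
  β v i := -ratH (P.pl v) d F G (x i) + (P.pl v).o (resultant F G d d) / (d * (d - 1)) / 2
  sumβ i _ := by
    rw [sum_add_distrib, ← sum_div, ← sum_div, sum_neg_distrib,
      sum_ratH P hd (fun z hz => (rX_spec h z hz).2) (fun z hz => (rX_spec h z hz).1) T
        (fun v hv y hy => hT.G0 v hv y hy) (mem_rX h i)]
    have h1 := P.sum_eq_zero T _ hres hT.res
    have h2 : ∑ v ∈ T, ((P.pl v).o (resultant F G d d) : ℝ) = 0 := by exact_mod_cast h1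
    rw [h2]
    simp
  lower v _ i j hi hj hij := by
    have hne : x i ≠ x j := fun e => hij (h.inj i j hi hj e)
    have h1 := (abs_le.mp ((rloc hd (P.pl v) hF hG hres h).close _ (mem_rX h i) _ (mem_rX h j) hne)).1
    have h2 : (0 : ℝ) ≤ gp (P.pl v) (rloc hd (P.pl v) hF hG hres h).a
      (rloc hd (P.pl v) hF hG hres h).r (x i) (x j) := by exact_mod_cast gp_nonneg' hne
    unfold gg at h1
    change -(2 * _) ≤ _
    linarith
  lb v _ s hs hcard := by
    change N₀ d < s.card at hcard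
    have hinj : Set.InjOn x (s : Set ℕ) := fun i hi j hj e => h.inj i j (hs i hi) (hs j hj) e
    have hsX : s.image x ⊆ rX h := by
      intro y hy
      obtain ⟨i, _, rfl⟩ := mem_image.mp hy
      exact mem_rX h i
    obtain ⟨y, hy, z, hz, hyz, hw⟩ := (rloc hd (P.pl v) hF hG hres h).lb (s.image x) hsX (by
      rw [card_image_of_injOn hinj]; exact hcard.le)
    obtain ⟨i, hi, rfl⟩ := mem_image.mp hy
    obtain ⟨j, hj, rfl⟩ := mem_image.mp hz
    refine ⟨i, hi, j, hj, fun e => hyz (by rw [e]), ?_⟩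
    unfold gg at hw
    have h1 : min (c₀ d) 1 * ((rloc hd (P.pl v) hF hG hres h).ε : ℝ) ≤
      c₀ d * (rloc hd (P.pl v) hF hG hres h).ε :=
      mul_le_mul_of_nonneg_right (min_le_left _ _) (Nat.cast_nonneg _)
    change min (c₀ d) 1 * _ ≤ _
    linarith
  Vx v := Pool.Agent.Helper33.UB.PV (P.pl v)
  Dr _ := Set K
  S v := ratTree (P.pl v) (fun e => h.ne 0 (by rw [e, eval_zero]))
    (sub_ne_zero_of_coprime hd hcop hF hG htop) hF hG x h.ne h.step
  Lv v := ratLevels (P.pl v) (fun e => h.ne 0 (by rw [e, eval_zero]))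
    (sub_ne_zero_of_coprime hd hcop hF hG htop) hF hG x h.ne h.step
    (rloc hd (P.pl v) hF hG hres h).a (rloc hd (P.pl v) hF hG hres h).r
    ((ratConst d hd).hdepth M)
  star v _ ζ s hs hdir := by
    apply star_of_dirs ζ
    intro y hy z hz hyz
    obtain ⟨i, hi, rfl⟩ := mem_image.mp hy
    obtain ⟨j, hj, rfl⟩ := mem_image.mp hz
    exact hdir i hi j hj fun e => hyz (by rw [e])
  deep v _ hεM i j hi hj hij hdir := by
    have hne : x i ≠ x j := fun e => hij (h.inj i j hi hj e)
    have h1 := gp_of_GP hne (ratLevels_deep _ _ _ _ _ _ _ _ _ hdir)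
    have h2 := (abs_le.mp ((rloc hd (P.pl v) hF hG hres h).close _ (mem_rX h i) _ (mem_rX h j) hne)).1
    have h3 : (((ratConst d hd).depth M : ℕ) : ℝ) ≤ gp (P.pl v) (rloc hd (P.pl v) hF hG hres h).a
      (rloc hd (P.pl v) hF hG hres h).r (x i) (x j) := by exact_mod_cast h1
    have h4 : ((ratConst d hd).depth M : ℕ) = ⌈4 * M⌉₊ + 6 := rfl
    rw [h4] at h3
    push_cast at h3
    have h5 : 4 * M ≤ ⌈4 * M⌉₊ := Nat.le_ceil _
    unfold gg at h2
    change 2 * M + 5 ≤ _
    (clear * - hεM h2 h3 h5; linarith)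
  good v _ hε s hs hst := by
    by_contra hcon
    push Not at hcon
    apply hst
    have hε0 : (rloc hd (P.pl v) hF hG hres h).ε = 0 := by exact_mod_cast hε
    apply star_of_dirs (PV.mk (P.pl v) (rloc hd (P.pl v) hF hG hres h).a
      (rloc hd (P.pl v) hF hG hres h).r)
    intro y hy z hz hyz hdir
    obtain ⟨i, hi, rfl⟩ := mem_image.mp hy
    obtain ⟨j, hj, rfl⟩ := mem_image.mp hz
    have key : ∀ i ∈ s, ∀ j ∈ s, i < j → x i ≠ x j →
        ¬ 1 ≤ gp (P.pl v) (rloc hd (P.pl v) hF hG hres h).a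
      (rloc hd (P.pl v) hF hG hres h).r (x i) (x j) := by
      intro i hi j hj hij hne h1
      have h2 := hcon i hi j hj hij
      have h3 := (abs_le.mp ((rloc hd (P.pl v) hF hG hres h).close _ (mem_rX h i) _ (mem_rX h j) hne)).1
      have h4 : (1 : ℝ) ≤ gp (P.pl v) (rloc hd (P.pl v) hF hG hres h).a
        (rloc hd (P.pl v) hF hG hres h).r (x i) (x j) := by exact_mod_cast h1
      rw [hε0] at h3
      unfold gg at h3
      change _ < (1 : ℝ) at h2
      push_cast at h3
      (clear * - h4 h2 h3; linarith)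
    have hgp := (dir_eq_iff_gp hyz).mp hdir
    have hij : i ≠ j := fun e => hyz (by rw [e])
    rcases lt_or_gt_of_ne hij with hlt | hlt
    · exact key i hi j hj hlt hyz (by unfold gp; omega)
    · refine key j hj i hi hlt hyz.symm ?_
      unfold gp
      rw [(P.pl v).o_sub_comm]
      omega
  persist v _ hε i j hij hj hc := by
    have hε0 : (rloc hd (P.pl v) hF hG hres h).ε = 0 := by exact_mod_cast hε
    have hne : x i ≠ x j := fun e => by
      have := h.inj i j (by omega) (by omega) e; omega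
    have hne' : x (i + 1) ≠ x (j + 1) := fun e => by
      have := h.inj (i + 1) (j + 1) (by omega) (by omega) e; omega
    have h1 := (abs_le.mp ((rloc hd (P.pl v) hF hG hres h).close _ (mem_rX h i) _ (mem_rX h j) hne)).2
    have h2 := (abs_le.mp ((rloc hd (P.pl v) hF hG hres h).close _ (mem_rX h (i + 1)) _
      (mem_rX h (j + 1)) hne')).1
    have h3 := (rloc hd (P.pl v) hF hG hres h).good hε0 _ (mem_rX h i) _ (mem_rX h j) (by
      rw [← h.step, ← h.step]; exact hne')
    rw [← h.step, ← h.step] at h3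
    have h4 : (gp (P.pl v) (rloc hd (P.pl v) hF hG hres h).a
      (rloc hd (P.pl v) hF hG hres h).r (x i) (x j) : ℝ) ≤ gp (P.pl v)
      (rloc hd (P.pl v) hF hG hres h).a
      (rloc hd (P.pl v) hF hG hres h).r (x (i + 1)) (x (j + 1)) := by exact_mod_cast h3
    rw [hε0] at h1 h2
    unfold gg at h1 h2
    push_cast at h1 h2
    change (1 : ℝ) ≤ _ at hc ⊢
    linarith
  trans v _ hε i j l hij hjl hl hc1 hc2 := by
    have hε0 : (rloc hd (P.pl v) hF hG hres h).ε = 0 := by exact_mod_cast hε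
    have hne1 : x i ≠ x j := fun e => by
      have := h.inj i j (by omega) (by omega) e; omega
    have hne2 : x j ≠ x l := fun e => by
      have := h.inj j l (by omega) (by omega) e; omega
    have hne3 : x i ≠ x l := fun e => by
      have := h.inj i l (by omega) (by omega) e; omega
    have h1 := (abs_le.mp ((rloc hd (P.pl v) hF hG hres h).close _ (mem_rX h i) _ (mem_rX h j) hne1)).2
    have h2 := (abs_le.mp ((rloc hd (P.pl v) hF hG hres h).close _ (mem_rX h j) _ (mem_rX h l) hne2)).2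
    have h3 := (abs_le.mp ((rloc hd (P.pl v) hF hG hres h).close _ (mem_rX h i) _ (mem_rX h l) hne3)).1
    rw [hε0] at h1 h2 h3
    unfold gg at h1 h2 h3
    push_cast at h1 h2 h3
    change (1 : ℝ) ≤ _ at hc1 hc2 ⊢
    have e1 : 1 ≤ gp (P.pl v) (rloc hd (P.pl v) hF hG hres h).a
      (rloc hd (P.pl v) hF hG hres h).r (x i) (x j) := by
      have : (1 : ℝ) ≤ gp (P.pl v) (rloc hd (P.pl v) hF hG hres h).a
        (rloc hd (P.pl v) hF hG hres h).r (x i) (x j) := by (clear * - h1 hc1; linarith)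
      exact_mod_cast this
    have e2 : 1 ≤ gp (P.pl v) (rloc hd (P.pl v) hF hG hres h).a
      (rloc hd (P.pl v) hF hG hres h).r (x j) (x l) := by
      have : (1 : ℝ) ≤ gp (P.pl v) (rloc hd (P.pl v) hF hG hres h).a
        (rloc hd (P.pl v) hF hG hres h).r (x j) (x l) := by (clear * - h2 hc2; linarith)
      exact_mod_cast this
    have e3 := gp_trans hne1 hne2 hne3 e1 e2
    have e4 : (1 : ℝ) ≤ gp (P.pl v) (rloc hd (P.pl v) hF hG hres h).a
        (rloc hd (P.pl v) hF hG hres h).r (x i) (x l) := by exact_mod_cast e3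
    linarith
  ode r Λ hΛ hΛN _ _ := by
    exfalso
    change 1 ≤ Λ.card at hΛ
    obtain ⟨j, hj⟩ := card_pos.mp hΛ
    have := hΛN j hj
    change j + (N + 1) ≤ N at this
    omega

theorem exists_dirV (h : RatOrbit F G x N) (hd : 2 ≤ d) (hcop : IsCoprime F G)
    (hF : F.natDegree ≤ d) (hG : G.natDegree ≤ d) (htop : F.coeff d ≠ 0 ∨ G.coeff d ≠ 0)
    (hres : resultant F G d d ≠ 0) (M : ℝ) (T : Finset V) (hT : RAdm P F G d (rX h) T)
    {v : V} {i J N' : ℕ} (hJ : 1 ≤ J) (hle : i + N' * J ≤ N)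
    (hst : (∃ ζ : (ratInstV h hd hcop hF hG htop hres M T hT).Vx v,
        ∀ l l', l < l' → l' ≤ N' →
        ((ratInstV h hd hcop hF hG htop hres M T hT).S v).dir ζ (i + l * J) ≠
        ((ratInstV h hd hcop hF hG htop hres M T hT).S v).dir ζ (i + l' * J)) ∨
      ((ratInstV h hd hcop hF hG htop hres M T hT).ε v = 0 ∧
        ∀ l l', l < l' → l' ≤ N' →
        (ratInstV h hd hcop hF hG htop hres M T hT).g v (i + l * J) (i + l' * J) <
          (ratConst d hd).c1)) :
    ∃ ζ : Pool.Agent.Helper33.UB.PV (P.pl v), ∀ l l', l ≤ N' → l' ≤ N' → l ≠ l' →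
      ζ.dir (x (i + l * J)) ≠ ζ.dir (x (i + l' * J)) := by
  rcases hst with ⟨ζ, hζ⟩ | ⟨hε, hg⟩
  · refine ⟨ζ, ?_⟩
    intro l l' hl hl' hne
    rcases lt_or_gt_of_ne hne with hlt | hlt
    · exact hζ l l' hlt hl'
    · exact (hζ l' l hlt hl).symm
  · have hε0 : (rloc hd (P.pl v) hF hG hres h).ε = 0 := by
      change ((rloc hd (P.pl v) hF hG hres h).ε : ℝ) = 0 at hε
      exact_mod_cast hε
    have hidx : ∀ l, l ≤ N' → i + l * J ≤ N := fun l hl =>
      le_trans (by (clear * - hl; gcongr)) hle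
    have hinj : ∀ l l', l ≤ N' → l' ≤ N' → l ≠ l' → x (i + l * J) ≠ x (i + l' * J) := by
      intro l l' hl hl' hne e
      have := h.inj _ _ (hidx l hl) (hidx l' hl') e
      have h2 : l * J = l' * J := by omega
      exact hne (Nat.eq_of_mul_eq_mul_right (by omega) h2)
    refine ⟨PV.mk (P.pl v) (rloc hd (P.pl v) hF hG hres h).a (rloc hd (P.pl v) hF hG hres h).r, ?_⟩
    have key : ∀ l l', l < l' → l' ≤ N' → ¬ 1 ≤ gp (P.pl v) (rloc hd (P.pl v) hF hG hres h).a
        (rloc hd (P.pl v) hF hG hres h).r (x (i + l * J)) (x (i + l' * J)) := by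
      intro l l' hl hl' h1
      have h2 := hg l l' hl hl'
      have hne := hinj l l' (by omega) hl' (by omega)
      have h3 := (abs_le.mp ((rloc hd (P.pl v) hF hG hres h).close _ (mem_rX h (i + l * J)) _
        (mem_rX h (i + l' * J)) hne)).1
      have h4 : (1 : ℝ) ≤ gp (P.pl v) (rloc hd (P.pl v) hF hG hres h).a
        (rloc hd (P.pl v) hF hG hres h).r (x (i + l * J)) (x (i + l' * J)) := by exact_mod_cast h1
      rw [hε0] at h3
      unfold gg at h3
      have h5 : ((P.pl v).o (x (i + l * J) - x (i + l' * J)) : ℝ) +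
          (-ratH (P.pl v) d F G (x (i + l * J)) +
            (P.pl v).o (resultant F G d d) / (d * (d - 1)) / 2) +
          (-ratH (P.pl v) d F G (x (i + l' * J)) +
            (P.pl v).o (resultant F G d d) / (d * (d - 1)) / 2) < 1 := h2
      push_cast at h3
      linarith
    intro l l' hl hl' hne hdir
    have hgp := (dir_eq_iff_gp (hinj l l' hl hl' hne)).mp hdir
    rcases lt_or_gt_of_ne hne with hlt | hlt
    · exact key l l' hlt hl' (by unfold gp; omega)
    · refine key l' l hlt hl ?_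
      unfold gp
      rw [(P.pl v).o_sub_comm]
      omega

end Pool.Agent.Helper33.PT

end

section

set_option autoImplicit false

open Finset Polynomial

namespace Pool.Agent.Helper33.PT

open Pool.Agent.Helper33.UB Pool.Agent.Helper51.RatTree Pool.Agent.Helper55.RD
  Pool.Agent.Helper93.RatODE Pool.Agent.Helper45.FR Pool.Agent.Helper33.PS

/-- total badness -/
noncomputable def tb {k K V : Type} [Field k] [Field K] [Algebra k K] (P : PSys k K V) {d : ℕ}
    (hd : 2 ≤ d) {F G : K[X]} (hFG : IsRat F G d) (hres : resultant F G d d ≠ 0) {x : ℕ → K} {N : ℕ}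
    (hx : RatOrbit F G x N) (T : Finset V) : ℝ :=
  ∑ v ∈ T, ((rloc hd (P.pl v) hFG.dA hFG.dB hres hx).ε : ℝ)

end Pool.Agent.Helper33.PT

end

section

set_option autoImplicit false

open Finset Polynomial

namespace Pool.Agent.Helper33.PT

open Pool.Agent.Helper33.UB Pool.Agent.Helper51.RatTree Pool.Agent.Helper55.RD
  Pool.Agent.Helper93.RatODE Pool.Agent.Helper45.FR Pool.Agent.Helper33.PS

section gg

variable {k K V : Type} [Field k] [Field K] [Algebra k K] {P : PSys k K V}
  {F G : K[X]} {x : ℕ → K} {N d : ℕ} [DecidableEq K]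

lemma g_eq_gg (h : RatOrbit F G x N) (hd : 2 ≤ d) (hcop : IsCoprime F G)
    (hF : F.natDegree ≤ d) (hG : G.natDegree ≤ d) (htop : F.coeff d ≠ 0 ∨ G.coeff d ≠ 0)
    (hres : resultant F G d d ≠ 0) (M : ℝ) (T : Finset V) (hT : RAdm P F G d (rX h) T) (v : V) (i j : ℕ) :
    (ratInstV h hd hcop hF hG htop hres M T hT).g v i j =
      gg (P.pl v) d F G (ratH (P.pl v) d F G) (x i) (x j) := by
  unfold gg
  change ((P.pl v).o (x i - x j) : ℝ) + (-ratH (P.pl v) d F G (x i) +
    (P.pl v).o (resultant F G d d) / (d * (d - 1)) / 2) + (-ratH (P.pl v) d F G (x j) +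
    (P.pl v).o (resultant F G d d) / (d * (d - 1)) / 2) = _
  ring

end gg

end Pool.Agent.Helper33.PT

end

section

set_option autoImplicit false

open Finset Polynomial

namespace Pool.Agent.Helper33.PT

open Pool.Agent.Helper33.UB Pool.Agent.Helper51.RatTree Pool.Agent.Helper55.RD
  Pool.Agent.Helper93.RatODE Pool.Agent.Helper45.FR Pool.Agent.Helper33.PS

section inst

variable {k K V : Type} [Field k] [Field K] [Algebra k K] {P : PSys k K V}
  {F G : K[X]} {x : ℕ → K} {N d : ℕ}

variable [DecidableEq K]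

/-- at the places without badness the Green function is a natural number -/
lemma g_good (h : RatOrbit F G x N) (hd : 2 ≤ d) (hFG : IsRat F G d)
    (hres : resultant F G d d ≠ 0) (M : ℝ) (T : Finset V) (hT : RAdm P F G d (rX h) T) {v : V} {i j : ℕ}
    (hi : i ≤ N) (hj : j ≤ N) (hij : i ≠ j)
    (hε : (ratInstV h hd hFG.cop hFG.dA hFG.dB hFG.top hres M T hT).ε v = 0) :
    ∃ m : ℕ, (ratInstV h hd hFG.cop hFG.dA hFG.dB hFG.top hres M T hT).g v i j = m := by
  have hne : x i ≠ x j := fun e => hij (h.inj i j hi hj e)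
  have h1 := (rloc hd (P.pl v) hFG.dA hFG.dB hres h).close _ (mem_rX h i) _ (mem_rX h j) hne
  have hε0 : ((rloc hd (P.pl v) hFG.dA hFG.dB hres h).ε : ℝ) = 0 := hε
  rw [hε0, mul_zero] at h1
  have h2 := abs_nonpos_iff.mp h1
  obtain ⟨m, hm⟩ := Int.eq_ofNat_of_zero_le (gp_nonneg' (v := P.pl v)
    (a := (rloc hd (P.pl v) hFG.dA hFG.dB hres h).a) (r := (rloc hd (P.pl v) hFG.dA hFG.dB hres h).r) hne)
  refine ⟨m, ?_⟩
  rw [g_eq_gg]
  rw [hm] at h2
  push_cast at h2
  linarith

/-- number of places where a pair is close -/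
lemma card_pos_g (h : RatOrbit F G x N) (hd : 2 ≤ d) (hFG : IsRat F G d)
    (hres : resultant F G d d ≠ 0) (M : ℝ) (T : Finset V) (hT : RAdm P F G d (rX h) T) {i j : ℕ}
    (hi : i ≤ N) (hj : j ≤ N) (hij : i ≠ j) :
    ((T.filter fun v => 0 < (ratInstV h hd hFG.cop hFG.dA hFG.dB hFG.top hres M T hT).g v i j).card : ℝ) ≤
      3 * (ratInstV h hd hFG.cop hFG.dA hFG.dB hFG.top hres M T hT).h := by
  classical
  set I := ratInstV h hd hFG.cop hFG.dA hFG.dB hFG.top hres M T hT with hI
  have hsub : (T.filter fun v => 0 < I.g v i j) ⊆ (T.filter fun v => 1 ≤ I.ε v) ∪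
      (T.filter fun v => 1 ≤ I.g v i j) := by
    intro v hv
    obtain ⟨hvT, hpos⟩ := mem_filter.mp hv
    rcases (I.ε_nonneg v hvT).lt_or_eq with h1 | h1
    · exact mem_union_left _ (mem_filter.mpr ⟨hvT, I.disc v hvT h1⟩)
    · obtain ⟨m, hm⟩ := g_good h hd hFG hres M T hT (v := v) hi hj hij h1.symm
      refine mem_union_right _ (mem_filter.mpr ⟨hvT, ?_⟩)
      have hm' : I.g v i j = m := hm
      rw [hm'] at hpos ⊢
      have : 0 < m := by exact_mod_cast hpos
      exact_mod_cast this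
  have h1 := I.card_bad (t := 1) one_pos (T.filter fun v => 1 ≤ I.ε v) (filter_subset _ _)
    (fun v hv => (mem_filter.mp hv).2)
  have h2 := I.card_close hi hj hij (T.filter fun v => 1 ≤ I.g v i j) (filter_subset _ _)
    (fun v hv => (mem_filter.mp hv).2)
  have h3 : ((T.filter fun v => 0 < I.g v i j).card : ℝ) ≤ (T.filter fun v => 1 ≤ I.ε v).card +
      (T.filter fun v => 1 ≤ I.g v i j).card := by
    exact_mod_cast (card_le_card hsub).trans (card_union_le _ _)
  have h4 : (noOde (ratConst d hd) N).C1 / (noOde (ratConst d hd) N).c1 * I.h = 2 * I.h := by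
    change (2 : ℝ) / 1 * I.h = 2 * I.h
    ring
  rw [h4] at h2
  rw [div_one] at h1
  linarith

/-- orders of cross ratios -/
lemma o_cross (h : RatOrbit F G x N) (hd : 2 ≤ d) (hFG : IsRat F G d)
    (hres : resultant F G d d ≠ 0) (M : ℝ) (T : Finset V) (hT : RAdm P F G d (rX h) T) (v : V)
    {i j l m : ℕ} (hil : x i ≠ x l) (hjm : x j ≠ x m) (him : x i ≠ x m) (hjl : x j ≠ x l) :
    (((P.pl v).o ((x i - x l) * (x j - x m) / ((x i - x m) * (x j - x l))) : ℤ) : ℝ) =
      (ratInstV h hd hFG.cop hFG.dA hFG.dB hFG.top hres M T hT).g v i l +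
      (ratInstV h hd hFG.cop hFG.dA hFG.dB hFG.top hres M T hT).g v j m -
      (ratInstV h hd hFG.cop hFG.dA hFG.dB hFG.top hres M T hT).g v i m -
      (ratInstV h hd hFG.cop hFG.dA hFG.dB hFG.top hres M T hT).g v j l := by
  have n1 := sub_ne_zero.mpr hil
  have n2 := sub_ne_zero.mpr hjm
  have n3 := sub_ne_zero.mpr him
  have n4 := sub_ne_zero.mpr hjl
  rw [DV.o_div _ _ _ (mul_ne_zero n1 n2) (mul_ne_zero n3 n4), (P.pl v).mul _ _ n1 n2,
    (P.pl v).mul _ _ n3 n4]
  unfold GInst.g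
  push_cast
  change _ = (((P.pl v).o (x i - x l) : ℝ) + _ + _) + (((P.pl v).o (x j - x m) : ℝ) + _ + _) -
    (((P.pl v).o (x i - x m) : ℝ) + _ + _) - (((P.pl v).o (x j - x l) : ℝ) + _ + _)
  ring

end inst

end Pool.Agent.Helper33.PT

end

section

set_option autoImplicit false

open Finset Polynomial

namespace Pool.Agent.Helper33.PT

open Pool.Agent.Helper33.UB Pool.Agent.Helper51.RatTree Pool.Agent.Helper55.RD
  Pool.Agent.Helper93.RatODE Pool.Agent.Helper45.FR Pool.Agent.Helper33.PS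

/-- **The comparison.** `x` jumps at `js`, its tail from `A` on is the `p ^ S`-th power of `z`. -/
theorem compare {k K V : Type} [Field k] [Field K] [Algebra k K] [DecidableEq K] (p : ℕ) [Fact p.Prime]
    [CharP K p] (P : PSys k K V) {d : ℕ} (hd : 2 ≤ d) {F G F' G' : K[X]} (hFG : IsRat F G d)
    (hFG' : IsRat F' G' d) (hres : resultant F G d d ≠ 0) (hres' : resultant F' G' d d ≠ 0)
    {x z : ℕ → K} {N N' : ℕ} (hx : RatOrbit F G x N) (hz : RatOrbit F' G' z N')
    (S A n₁ js : ℕ) (hS : 1 ≤ S) (hzx : ∀ j, z j ^ (p ^ S) = x (A + j))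
    (hgg : ∀ (v : DV K) (i j : ℕ), z i ≠ z j → gg v d F G (ratH v d F G) (x (A + i)) (x (A + j)) =
        (p : ℝ) ^ S * gg v d F' G' (ratH v d F' G') (z i) (z j))
    (T : Finset V) (hT : RAdm P F G d (rX hx) T) (hT' : RAdm P F' G' d (rX hz) T)
    (hN : 2 * A + js + n₁ + (ratConst d hd).N0 + 1 ≤ N)
    (hN' : A + js + n₁ + (ratConst d hd).N0 + 1 ≤ N') (hjs : P.D (x js) ≠ 0) (C₁ c₁ : ℝ)
    (hE : (P.E : ℝ) ≤ C₁ * tb P hd hFG' hres' hz T)
    (hstar : ∃ i ∈ range n₁, ∃ j ∈ range n₁, ∃ l ∈ range n₁, ∃ m ∈ range n₁,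
      i ≠ j ∧ i ≠ l ∧ i ≠ m ∧ j ≠ l ∧ j ≠ m ∧ l ≠ m ∧
      c₁ * tb P hd hFG' hres' hz T ≤ ∑ v ∈ T,
        |(ratInstV hz hd hFG'.cop hFG'.dA hFG'.dB hFG'.top hres' 1 T hT').g v i l +
        (ratInstV hz hd hFG'.cop hFG'.dA hFG'.dB hFG'.top hres' 1 T hT').g v j m -
        (ratInstV hz hd hFG'.cop hFG'.dA hFG'.dB hFG'.top hres' 1 T hT').g v i m -
        (ratInstV hz hd hFG'.cop hFG'.dA hFG'.dB hFG'.top hres' 1 T hT').g v j l|) :
    (p : ℝ) ^ S * (c₁ * tb P hd hFG' hres' hz T) ≤
      8 * (C₁ + 3 * ((n₁ + 1) ^ 2 + ((ratConst d hd).N0 + 1) ^ 2)) * tb P hd hFG' hres' hz T := by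
  set c := ratConst d hd with hc
  set I₀ := ratInstV (K := K) (P := P) hx hd hFG.cop hFG.dA hFG.dB hFG.top hres 1 T hT with hI₀
  set I₁ := ratInstV (K := K) (P := P) hz hd hFG'.cop hFG'.dA hFG'.dB hFG'.top hres' 1 T hT' with hI₁
  have hh : tb P hd hFG' hres' hz T = I₁.h := rfl
  rw [hh] at hE hstar ⊢
  set h := I₁.h with hhdef
  have hh0 : 0 ≤ h := I₁.h_nonneg
  have hp0 : (0 : ℝ) < p := by exact_mod_cast (Fact.out : p.Prime).pos
  have hpS : (0 : ℝ) < (p : ℝ) ^ S := pow_pos hp0 S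
  obtain ⟨i, hi, j, hj, l, hl, m, hm, hij, hil, him, hjl, hjm, hlm, hbig⟩ := hstar
  rw [mem_range] at hi hj hl hm
  have hzne : ∀ a b, a < n₁ + c.N0 + 1 → b < n₁ + c.N0 + 1 → a ≠ b → z a ≠ z b := by
    intro a b ha hb hab e
    exact hab (hz.inj a b (by omega) (by omega) e)
  have hxne : ∀ a b, a ≤ N → b ≤ N → a ≠ b → x a ≠ x b := by
    intro a b ha hb hab e
    exact hab (hx.inj a b ha hb e)
  -- Green functions of the two levels
  have hg : ∀ (v : V) (a b : ℕ), a ≤ N' → b ≤ N' → a ≠ b →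
      I₀.g v (A + a) (A + b) = (p : ℝ) ^ S * I₁.g v a b := by
    intro v a b ha hb hab
    rw [hI₀, hI₁, g_eq_gg, g_eq_gg]
    exact hgg (P.pl v) a b (fun e => hab (hz.inj a b ha hb e))
  -- the exceptional places
  classical
  set J0 : Finset ℕ := insert js ((range n₁).image fun a => A + a) with hJ0
  have hJ0le : ∀ u ∈ J0, u ≤ A + js + n₁ := by
    intro u hu
    rcases mem_insert.mp hu with rfl | hu
    · omega
    · obtain ⟨a, ha, rfl⟩ := mem_image.mp hu
      rw [mem_range] at ha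
      omega
  have hJ0c : J0.card ≤ n₁ + 1 := by
    refine (card_insert_le _ _).trans ?_
    have : ((range n₁).image fun a => A + a).card ≤ n₁ := by
      refine card_image_le.trans ?_
      rw [card_range]
    omega
  set X : Finset V := T.filter fun v => I₀.ε v ≠ 0 ∨ ∃ u ∈ J0, ∃ w ∈ J0, u < w ∧ 1 ≤ I₀.g v u w with hX
  set Y : ℕ → ℕ → Finset V := fun a b => T.filter fun v => 0 < I₁.g v a b with hY
  have hYc : ∀ a b, a ≤ N' → b ≤ N' → a ≠ b → ((Y a b).card : ℝ) ≤ 3 * h := fun a b ha hb hab =>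
    card_pos_g hz hd hFG' hres' 1 T hT' ha hb hab
  set PA : Finset (ℕ × ℕ) := (J0 ×ˢ J0).filter fun q => q.1 ≠ q.2 with hPA
  set PB : Finset (ℕ × ℕ) := ((range (c.N0 + 1)) ×ˢ (range (c.N0 + 1))).filter fun q => q.1 ≠ q.2 with hPB
  have hXsub : X ⊆ (PA.biUnion fun q => Y q.1 q.2) ∪ (PB.biUnion fun q => Y q.1 q.2) := by
    intro v hv
    obtain ⟨hvT, hvb⟩ := mem_filter.mp hv
    by_cases hε : I₀.ε v = 0
    · obtain ⟨u, hu, w, hw, huw, hgu⟩ := hvb.resolve_left (fun h' => h' hε)
      have h1 := hJ0le u hu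
      have h2 := hJ0le w hw
      have h3 : c.c1 ≤ I₀.g v u w := hgu
      have h4 := I₀.persist_iter hvT hε huw h3 A (by omega)
      have h5 : (1 : ℝ) ≤ I₀.g v (A + u) (A + w) := by
        rw [Nat.add_comm A u, Nat.add_comm A w]
        exact h4
      rw [hg v u w (by omega) (by omega) (by omega)] at h5
      have h6 : 0 < I₁.g v u w := by
        by_contra hneg
        push Not at hneg
        have : (p : ℝ) ^ S * I₁.g v u w ≤ 0 := mul_nonpos_of_nonneg_of_nonpos hpS.le hneg
        (clear * - h5 this; linarith)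
      exact mem_union_left _ (mem_biUnion.mpr ⟨(u, w), mem_filter.mpr ⟨mem_product.mpr ⟨hu, hw⟩,
        by change u ≠ w; omega⟩, mem_filter.mpr ⟨hvT, h6⟩⟩)
    · have hεpos : 0 < I₀.ε v := lt_of_le_of_ne (I₀.ε_nonneg v hvT) (Ne.symm hε)
      obtain ⟨a, ha, b, hb, hab, hgab⟩ := I₀.lb v hvT ((range (c.N0 + 1)).image fun a => A + a) (by
        intro a ha
        obtain ⟨a', ha', rfl⟩ := mem_image.mp ha
        rw [mem_range] at ha'
        omega) (by
        rw [card_image_of_injective _ (fun a b e => Nat.add_left_cancel e), card_range]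
        change c.N0 < c.N0 + 1
        omega)
      obtain ⟨a', ha', rfl⟩ := mem_image.mp ha
      obtain ⟨b', hb', rfl⟩ := mem_image.mp hb
      have ha'' := mem_range.mp ha'
      have hb'' := mem_range.mp hb'
      have hab' : a' ≠ b' := fun e => hab (by rw [e])
      have h1 : 0 < I₀.g v (A + a') (A + b') := by
        have h2 : 0 < (noOde c N).c0 * I₀.ε v := mul_pos (noOde c N).hc0 hεpos
        exact lt_of_lt_of_le h2 hgab
      rw [hg v a' b' (by omega) (by omega) hab'] at h1
      have h6 : 0 < I₁.g v a' b' := by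
        by_contra hneg
        push Not at hneg
        have : (p : ℝ) ^ S * I₁.g v a' b' ≤ 0 := mul_nonpos_of_nonneg_of_nonpos hpS.le hneg
        (clear * - h1 this; linarith)
      exact mem_union_right _ (mem_biUnion.mpr ⟨(a', b'), mem_filter.mpr ⟨mem_product.mpr ⟨ha', hb'⟩,
        hab'⟩, mem_filter.mpr ⟨hvT, h6⟩⟩)
  have hXc : (X.card : ℝ) ≤ 3 * ((n₁ + 1) ^ 2 + (c.N0 + 1) ^ 2) * h := by
    have h1 : (X.card : ℝ) ≤ ∑ q ∈ PA, ((Y q.1 q.2).card : ℝ) + ∑ q ∈ PB, ((Y q.1 q.2).card : ℝ) := by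
      have h2 := (card_le_card hXsub).trans (card_union_le _ _)
      have h3 : (PA.biUnion fun q => Y q.1 q.2).card ≤ ∑ q ∈ PA, (Y q.1 q.2).card := card_biUnion_le
      have h4 : (PB.biUnion fun q => Y q.1 q.2).card ≤ ∑ q ∈ PB, (Y q.1 q.2).card := card_biUnion_le
      exact_mod_cast h2.trans (Nat.add_le_add h3 h4)
    have h2 : ∑ q ∈ PA, ((Y q.1 q.2).card : ℝ) ≤ PA.card * (3 * h) := by
      rw [← nsmul_eq_mul, ← sum_const]
      apply sum_le_sum
      intro q hq
      obtain ⟨hq1, hq2⟩ := mem_filter.mp hq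
      rw [mem_product] at hq1
      exact hYc _ _ (by have := hJ0le _ hq1.1; omega) (by have := hJ0le _ hq1.2; omega) hq2
    have h3 : ∑ q ∈ PB, ((Y q.1 q.2).card : ℝ) ≤ PB.card * (3 * h) := by
      rw [← nsmul_eq_mul, ← sum_const]
      apply sum_le_sum
      intro q hq
      obtain ⟨hq1, hq2⟩ := mem_filter.mp hq
      rw [mem_product, mem_range, mem_range] at hq1
      exact hYc _ _ (by omega) (by omega) hq2
    have h4 : (PA.card : ℝ) ≤ (n₁ + 1) ^ 2 := by
      have h5 : PA.card ≤ (n₁ + 1) ^ 2 := by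
        refine (card_le_card (filter_subset _ _)).trans ?_
        rw [card_product, pow_two]
        exact Nat.mul_le_mul hJ0c hJ0c
      exact_mod_cast h5
    have h5 : (PB.card : ℝ) ≤ (c.N0 + 1) ^ 2 := by
      have h6 : PB.card ≤ (c.N0 + 1) ^ 2 := by
        refine (card_le_card (filter_subset _ _)).trans ?_
        rw [card_product, card_range, pow_two]
      exact_mod_cast h6
    have h6 : (PA.card : ℝ) * (3 * h) ≤ (n₁ + 1) ^ 2 * (3 * h) :=
      mul_le_mul_of_nonneg_right h4 (by (clear * - hh0; positivity))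
    have h7 : (PB.card : ℝ) * (3 * h) ≤ (c.N0 + 1) ^ 2 * (3 * h) :=
      mul_le_mul_of_nonneg_right h5 (by (clear * - hh0; positivity))
    (clear * - h1 h2 h3 h6 h7; linarith)
  -- the logarithmic bound
  set Sset : Finset K := (range n₁).image fun a => x (A + a) with hSset
  have hSD : ∀ y ∈ Sset, P.D y = 0 := by
    intro y hy
    obtain ⟨a, ha, rfl⟩ := mem_image.mp hy
    rw [← hzx a]
    obtain ⟨S', rfl⟩ : ∃ S', S = S' + 1 := ⟨S - 1, by omega⟩
    rw [pow_succ, pow_mul]
    exact D_const p P.D_add P.D_mul _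
  have hAne : ∀ a, a < n₁ → js ≠ A + a := by
    intro a ha e
    apply hjs
    rw [e]
    exact hSD _ (mem_image_of_mem _ (mem_range.mpr ha))
  have hlog := log_bound P hjs Sset hSD X (by
    intro v hv z₁ h₁ z₂ h₂ z₃ h₃ n12 n13 n23
    obtain ⟨a, ha, rfl⟩ := mem_image.mp h₁
    obtain ⟨b, hb, rfl⟩ := mem_image.mp h₂
    obtain ⟨e, he, rfl⟩ := mem_image.mp h₃
    rw [mem_range] at ha hb he
    have hab : a ≠ b := fun h' => n12 (by rw [h'])
    have hae : a ≠ e := fun h' => n13 (by rw [h'])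
    have hbe : b ≠ e := fun h' => n23 (by rw [h'])
    have hja := hAne a ha
    have hjb := hAne b hb
    have q1 := hxne js (A + a) (by omega) (by omega) hja
    have q2 := hxne (A + e) (A + b) (by omega) (by omega) (by omega)
    have q3 := hxne js (A + b) (by omega) (by omega) hjb
    have q4 := hxne (A + e) (A + a) (by omega) (by omega) (by omega)
    by_cases hvT : v ∈ T
    · have hnb : I₀.ε v = 0 ∧ ∀ u ∈ J0, ∀ w ∈ J0, u < w → I₀.g v u w < 1 := by
        by_contra hcon
        apply hv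
        refine mem_filter.mpr ⟨hvT, ?_⟩
        by_cases hε : I₀.ε v = 0
        · right
          push Not at hcon
          exact hcon hε
        · exact Or.inl hε
      have hg0 : ∀ u ∈ J0, ∀ w ∈ J0, u ≠ w → I₀.g v u w = 0 := by
        have key : ∀ u ∈ J0, ∀ w ∈ J0, u < w → I₀.g v u w = 0 := by
          intro u hu w hw huw
          have h1 := hnb.2 u hu w hw huw
          obtain ⟨mm, hmm⟩ := g_good hx hd hFG hres 1 T hT (v := v) (i := u) (j := w)
            (by have := hJ0le u hu; omega) (by have := hJ0le w hw; omega) (by omega) hnb.1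
          have hmm' : I₀.g v u w = mm := hmm
          rw [hmm'] at h1 ⊢
          have : mm < 1 := by exact_mod_cast h1
          have : mm = 0 := by omega
          rw [this, Nat.cast_zero]
        intro u hu w hw huw
        rcases lt_or_gt_of_ne huw with h1 | h1
        · exact key u hu w hw h1
        · rw [I₀.g_comm]
          exact key w hw u hu h1
      have m0 : js ∈ J0 := mem_insert_self _ _
      have m1 : ∀ a, a < n₁ → A + a ∈ J0 := fun a ha =>
        mem_insert_of_mem (mem_image_of_mem _ (mem_range.mpr ha))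
      have h1 := o_cross hx hd hFG hres 1 T hT v (i := js) (j := A + e) (l := A + a) (m := A + b)
        q1 q2 q3 q4
      have e1 : I₀.g v js (A + a) = 0 := hg0 js m0 _ (m1 a ha) hja
      have e2 : I₀.g v (A + e) (A + b) = 0 := hg0 _ (m1 e he) _ (m1 b hb) (by omega)
      have e3 : I₀.g v js (A + b) = 0 := hg0 js m0 _ (m1 b hb) hjb
      have e4 : I₀.g v (A + e) (A + a) = 0 := hg0 _ (m1 e he) _ (m1 a ha) (by omega)
      rw [← hI₀, e1, e2, e3, e4] at h1
      have h2 : (((P.pl v).o ((x js - x (A + a)) * (x (A + e) - x (A + b)) /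
        ((x js - x (A + b)) * (x (A + e) - x (A + a)))) : ℤ) : ℝ) = 0 := by rw [h1]; ring
      exact_mod_cast h2
    · have hdiff : ∀ u w, x u ≠ x w → (P.pl v).o (x u - x w) = 0 := fun u w huw =>
        hT.diff v hvT _ (mem_rX hx u) _ (mem_rX hx w) huw
      have n1 := sub_ne_zero.mpr q1
      have n2 := sub_ne_zero.mpr q2
      have n3 := sub_ne_zero.mpr q3
      have n4 := sub_ne_zero.mpr q4
      rw [DV.o_div _ _ _ (mul_ne_zero n1 n2) (mul_ne_zero n3 n4), (P.pl v).mul _ _ n1 n2,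
        (P.pl v).mul _ _ n3 n4, hdiff _ _ q1, hdiff _ _ q2, hdiff _ _ q3, hdiff _ _ q4]
      norm_num)
    (z₁ := x (A + i)) (z₂ := x (A + j)) (z₃ := x (A + l)) (z₄ := x (A + m))
    (mem_image_of_mem _ (mem_range.mpr hi)) (mem_image_of_mem _ (mem_range.mpr hj))
    (mem_image_of_mem _ (mem_range.mpr hl)) (mem_image_of_mem _ (mem_range.mpr hm))
    (hxne _ _ (by omega) (by omega) (by omega)) (hxne _ _ (by omega) (by omega) (by omega))
    (hxne _ _ (by omega) (by omega) (by omega)) (hxne _ _ (by omega) (by omega) (by omega))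
    (hxne _ _ (by omega) (by omega) (by omega)) (hxne _ _ (by omega) (by omega) (by omega))
  set Xc : K := (x (A + i) - x (A + l)) * (x (A + j) - x (A + m)) /
    ((x (A + i) - x (A + m)) * (x (A + j) - x (A + l))) with hXcdef
  have hXc0 : Xc ≠ 0 := by
    apply div_ne_zero
    · exact mul_ne_zero (sub_ne_zero.mpr (hxne _ _ (by omega) (by omega) (by omega)))
        (sub_ne_zero.mpr (hxne _ _ (by omega) (by omega) (by omega)))
    · exact mul_ne_zero (sub_ne_zero.mpr (hxne _ _ (by omega) (by omega) (by omega)))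
        (sub_ne_zero.mpr (hxne _ _ (by omega) (by omega) (by omega)))
  have hterm : ∀ v ∈ T, (p : ℝ) ^ S * |I₁.g v i l + I₁.g v j m - I₁.g v i m - I₁.g v j l| =
      ((|(P.pl v).o Xc| : ℤ) : ℝ) := by
    intro v _
    have h1 := o_cross hx hd hFG hres 1 T hT v (i := A + i) (j := A + j) (l := A + l) (m := A + m)
      (hxne _ _ (by omega) (by omega) (by omega)) (hxne _ _ (by omega) (by omega) (by omega))
      (hxne _ _ (by omega) (by omega) (by omega)) (hxne _ _ (by omega) (by omega) (by omega))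
    rw [← hI₀, ← hXcdef, hg v i l (by omega) (by omega) hil, hg v j m (by omega) (by omega) hjm,
      hg v i m (by omega) (by omega) him, hg v j l (by omega) (by omega) hjl] at h1
    rw [Int.cast_abs, h1, ← abs_of_pos hpS, ← abs_mul, abs_of_pos hpS]
    congr 1
    ring
  have hsum : ∑ v ∈ T, |(P.pl v).o Xc| ≤ ∑ᶠ v, |(P.pl v).o Xc| := by
    have hfin : (Function.support fun v => |(P.pl v).o Xc|).Finite := by
      apply (P.ord_finite Xc hXc0).subset
      intro v hv
      rw [Function.mem_support] at hv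
      exact fun h' => hv (by simp [h'])
    rw [finsum_eq_sum_of_support_subset (s := T ∪ hfin.toFinset) _ (by
      intro v hv
      rw [coe_union]
      exact Or.inr (by rw [Set.Finite.coe_toFinset]; exact hv))]
    exact sum_le_sum_of_subset_of_nonneg subset_union_left fun v _ _ => abs_nonneg _
  have h1 : (p : ℝ) ^ S * (c₁ * h) ≤ ((∑ᶠ v, |(P.pl v).o Xc| : ℤ) : ℝ) := by
    calc (p : ℝ) ^ S * (c₁ * h) ≤ (p : ℝ) ^ S *
          ∑ v ∈ T, |I₁.g v i l + I₁.g v j m - I₁.g v i m - I₁.g v j l| :=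
          mul_le_mul_of_nonneg_left hbig hpS.le
      _ = ((∑ v ∈ T, |(P.pl v).o Xc| : ℤ) : ℝ) := by
          rw [mul_sum, Int.cast_sum]
          exact sum_congr rfl hterm
      _ ≤ ((∑ᶠ v, |(P.pl v).o Xc| : ℤ) : ℝ) := by exact_mod_cast hsum
  have h2 : ((∑ᶠ v, |(P.pl v).o Xc| : ℤ) : ℝ) ≤ 8 * ((P.E : ℝ) + X.card) := by exact_mod_cast hlog
  have h3 : 8 * ((P.E : ℝ) + X.card) ≤ 8 * (C₁ + 3 * ((n₁ + 1) ^ 2 + (c.N0 + 1) ^ 2)) * h := by
    (clear * - hE hXc; linarith)
  (clear * - hE hXc h1 h2; linarith)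

end Pool.Agent.Helper33.PT

end
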