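import Pool.Agent.Helper23.MB.L02_ab0
import Pool.Agent.Helper23.MB.L02_ab1
import Pool.Agent.Helper23.MB.L02_ab2
import Pool.Agent.Helper23.MB.L02_ab5
import Pool.Agent.Helper23.MB.L02_ab6
import Pool.Agent.Helper23.MB.L02_ab7
import Pool.Agent.Helper23.MB.L02_abc0

/-!
Parts of Helper38.DT.Val, Helper38.DT.Mob, Helper38.DT.PartC, Helper67.RRHurwitz, Helper91.DT.C, Helper91.DT.D, Helper91.DT.Six, Helper91.DT.Main, Helper45.GalW3, Helper53.PT.Pair
-/

attribute [-simp] Valuation.IsUniformizer.val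
attribute [local instance 5000]
  Pool.Agent.Helper23.MB.Inst.rCharZero Pool.Agent.Helper23.MB.Inst.rALM
  Pool.Agent.Helper23.MB.Inst.rARM Pool.Agent.Helper23.MB.Inst.rALSM
  Pool.Agent.Helper23.MB.Inst.rARSM Pool.Agent.Helper23.MB.Inst.rARRLE
  Pool.Agent.Helper23.MB.Inst.rALRLE Pool.Agent.Helper23.MB.Inst.rARRLT
  Pool.Agent.Helper23.MB.Inst.rALRLT Pool.Agent.Helper23.MB.Inst.rPMRLT
  Pool.Agent.Helper23.MB.Inst.rMPRLT Pool.Agent.Helper23.MB.Inst.rPMM
  Pool.Agent.Helper23.MB.Inst.rMPM Pool.Agent.Helper23.MB.Inst.rPMSM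
  Pool.Agent.Helper23.MB.Inst.rMPSM Pool.Agent.Helper23.MB.Inst.rEAOL
  Pool.Agent.Helper23.MB.Inst.rIOR Pool.Agent.Helper23.MB.Inst.rISOR
  Pool.Agent.Helper23.MB.Inst.rNZD Pool.Agent.Helper23.MB.Inst.zCharZero
  Pool.Agent.Helper23.MB.Inst.zALM Pool.Agent.Helper23.MB.Inst.zARM
  Pool.Agent.Helper23.MB.Inst.zIOR Pool.Agent.Helper23.MB.Inst.zISOR
  Pool.Agent.Helper23.MB.Inst.zNZD Pool.Agent.Helper23.MB.Inst.qCharZero
  Pool.Agent.Helper23.MB.Inst.free Pool.Agent.Helper23.MB.Inst.faith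
  Pool.Agent.Helper23.MB.Inst.torsionFree Pool.Agent.Helper23.MB.Inst.rfFaith
  Pool.Agent.Helper23.MB.Inst.hAdd Pool.Agent.Helper23.MB.Inst.hAddM
  Pool.Agent.Helper23.MB.Inst.hMul Pool.Agent.Helper23.MB.Inst.hMon
  Pool.Agent.Helper23.MB.Inst.hZero Pool.Agent.Helper23.MB.Inst.hOne
  Pool.Agent.Helper23.MB.Inst.hMZ Pool.Agent.Helper23.MB.Inst.hRing
  Pool.Agent.Helper23.MB.Inst.aAdd Pool.Agent.Helper23.MB.Inst.aAddM
  Pool.Agent.Helper23.MB.Inst.aMul Pool.Agent.Helper23.MB.Inst.aMon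
  Pool.Agent.Helper23.MB.Inst.aZero Pool.Agent.Helper23.MB.Inst.aOne
  Pool.Agent.Helper23.MB.Inst.aMZ Pool.Agent.Helper23.MB.Inst.aRing

namespace Pool.Agent.Helper16
end Pool.Agent.Helper16
namespace Pool.Agent.Helper33
end Pool.Agent.Helper33
namespace Pool.Agent.Helper33.PS
end Pool.Agent.Helper33.PS
namespace Pool.Agent.Helper33.PT
end Pool.Agent.Helper33.PT
namespace Pool.Agent.Helper33.UB
end Pool.Agent.Helper33.UB
namespace Pool.Agent.Helper38.DT
end Pool.Agent.Helper38.DT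
namespace Pool.Agent.Helper45.FF
end Pool.Agent.Helper45.FF
namespace Pool.Agent.Helper45.FR
end Pool.Agent.Helper45.FR
namespace Pool.Agent.Helper45.M8
end Pool.Agent.Helper45.M8
namespace Pool.Agent.Helper45.S4
end Pool.Agent.Helper45.S4
namespace Pool.Agent.Helper51.RatTree
end Pool.Agent.Helper51.RatTree
namespace Pool.Agent.Helper55.RD
end Pool.Agent.Helper55.RD
namespace Pool.Agent.Helper93.RatODE
end Pool.Agent.Helper93.RatODE

section

set_option autoImplicit false

set_option linter.style.haveILetI false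

namespace Pool.Agent.Helper38.DT

open Polynomial IntermediateField Pool.Agent.Helper16 Pool.Agent.Helper45.FF
  Pool.Agent.Helper45.S4

section val

variable {E M : Type} [Field E] [Field M] [Algebra E M]

variable {w : Place E M} {u v : M} {a b c : E}

/-- Places at which `y` has a given value. -/
theorem ncard_hasVal_le [IsAlgClosed E] (hM : IsFunctionField E M) (y : M)
    (hy : Transcendental E y) (c : E) :
    {w : Place E M | HasVal w y c}.Finite ∧
      {w : Place E M | HasVal w y c}.ncard ≤ Module.finrank E⟮y⟯ M := by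
  have hadj : E⟮y - algebraMap E M c⟯ = E⟮y⟯ := by
    apply le_antisymm
    · rw [adjoin_simple_le_iff]
      exact sub_mem (mem_adjoin_simple_self E y) (IntermediateField.algebraMap_mem _ c)
    · rw [adjoin_simple_le_iff]
      have := add_mem (mem_adjoin_simple_self E (y - algebraMap E M c))
        (IntermediateField.algebraMap_mem E⟮y - algebraMap E M c⟯ c)
      rwa [sub_add_cancel] at this
  have htr : Transcendental E (y - algebraMap E M c) := by
    intro halg
    apply hy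
    have := halg.add (isAlgebraic_algebraMap (A := M) c)
    rwa [sub_add_cancel] at this
  have hz : y - algebraMap E M c ≠ 0 := by
    intro h0
    rw [h0] at htr
    exact htr isAlgebraic_zero
  obtain ⟨S, hS, hsum, -⟩ := hM.zeros (y - algebraMap E M c) htr
  have hset : {w : Place E M | HasVal w y c} = (S : Set (Place E M)) := by
    ext w
    exact (hS w).symm
  rw [hset]
  refine ⟨S.finite_toSet, ?_⟩
  rw [Set.ncard_coe_finset]
  have h1 : (S.card : ℤ) ≤ ∑ v ∈ S, v.ord (y - algebraMap E M c) * (v.deg : ℤ) := by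
    rw [Finset.card_eq_sum_ones, Nat.cast_sum]
    apply Finset.sum_le_sum
    intro v hv
    rw [deg_eq_one hM v, Nat.cast_one, mul_one]
    have := (v.ord_pos_iff hz).2 ((hS v).1 hv)
    omega
  rw [hsum, hadj] at h1
  exact_mod_cast h1

end val

end Pool.Agent.Helper38.DT

end

section

set_option autoImplicit false

set_option linter.style.haveILetI false

namespace Pool.Agent.Helper38.DT

open Polynomial IntermediateField Pool.Agent.Helper16

section mob

variable {E M : Type} [Field E] [Field M] [Algebra E M]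

/-- **The normalised coordinate.** -/
theorem exists_coordinate [IsAlgClosed E] (hM : IsFunctionField E M) (y₀ : M)
    (hy₀ : Transcendental E y₀) (S : Set (Place E M)) (hS : S.Finite)
    (hcard : 2 * Module.finrank E⟮y₀⟯ M < S.ncard) (Γ : Set (E ≃+* E))
    (hinf : {e : E | ∀ g ∈ Γ, g e = e}.Infinite) (ext : (E ≃+* E) → (M ≃+* M))
    (h1 : ∀ g ∈ Γ, ∀ c, ext g (algebraMap E M c) = algebraMap E M (g c))
    (h2 : ∀ g ∈ Γ, ∀ w ∈ S, ∀ h, w.val (ext g h) = w.val h)
    (h3 : ∀ g ∈ Γ, ∃ A : Matrix (Fin 2) (Fin 2) E, A.det ≠ 0 ∧ ext g y₀ = mob A y₀) :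
    ∃ y : M, Transcendental E y ∧ E⟮y⟯ = E⟮y₀⟯ ∧ (∀ g ∈ Γ, ext g y = y) ∧
      ∀ w ∈ S, ∃ c : E, HasVal w y c ∧ ∀ g ∈ Γ, g c = c := by
  classical
  haveI : Infinite E := IsAlgClosed.instInfinite
  -- step 0 : all values finite
  have hfin0 : {κ : E | ∃ w ∈ S, HasVal w y₀ κ}.Finite := by
    have : {κ : E | ∃ w ∈ S, HasVal w y₀ κ} = ⋃ w ∈ S, {κ : E | HasVal w y₀ κ} := by
      ext κ; simp
    rw [this]
    refine hS.biUnion fun w _ => Set.Subsingleton.finite ?_
    intro a ha b hb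
    exact HasVal.unique ha hb
  obtain ⟨κ₀, hκ₀⟩ := hfin0.exists_notMem
  let T₀ : Matrix (Fin 2) (Fin 2) E := !![0, 1; 1, -κ₀]
  have hT₀ : T₀.det ≠ 0 := by simp [T₀, Matrix.det_fin_two]
  have hv₀ : ∀ w ∈ S, ∃ b, HasVal w (mob T₀ y₀) b := by
    intro w hw
    by_cases hle : w.val y₀ ≤ 1
    · obtain ⟨b, hb⟩ := Pool.Agent.Helper45.S4.exists_res_val hM w y₀ hle
      have hb' : HasVal w y₀ b := hb
      refine ⟨_, hb'.mob T₀ ?_⟩
      simp only [T₀, Matrix.of_apply, Matrix.cons_val', Matrix.cons_val_zero, Matrix.cons_val_one,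
        Matrix.cons_val_fin_one]
      intro h0
      apply hκ₀
      refine ⟨w, hw, ?_⟩
      have : κ₀ = b := by linear_combination -h0
      rwa [this]
    · rw [not_le] at hle
      refine ⟨0, ?_⟩
      unfold HasVal mob
      simp only [T₀, Matrix.of_apply, Matrix.cons_val', Matrix.cons_val_zero, Matrix.cons_val_one,
        Matrix.cons_val_fin_one]
      rw [map_zero, sub_zero, zero_mul, zero_add, map_one, one_mul, map_neg, map_div₀, map_one,
        one_div]
      have h4 : w.val (y₀ + -(algebraMap E M κ₀)) = w.val y₀ := by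
        apply Valuation.map_add_eq_of_lt_left
        rw [Valuation.map_neg]
        exact lt_of_le_of_lt (val_const_le w κ₀) hle
      rw [h4]
      exact inv_lt_one_of_one_lt₀ hle
  choose! b hb using hv₀
  set y₁ := mob T₀ y₀ with hy₁def
  have hy₁ : Transcendental E y₁ := transcendental_mob hy₀ hT₀
  have hadj₁ : E⟮y₁⟯ = E⟮y₀⟯ := adjoin_mob hy₀ hT₀
  -- step 1 : three different values
  have hthree : ∃ w : Fin 3 → Place E M, (∀ i, w i ∈ S) ∧ Function.Injective (fun i => b (w i)) := by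
    set V : Finset E := hS.toFinset.image b with hV
    have hcardV : 2 < V.card := by
      by_contra hcon
      rw [not_lt] at hcon
      have hsub : hS.toFinset ⊆ V.biUnion fun c =>
          (ncard_hasVal_le hM y₁ hy₁ c).1.toFinset := by
        intro w hw
        rw [Finset.mem_biUnion]
        refine ⟨b w, Finset.mem_image_of_mem _ hw, ?_⟩
        rw [Set.Finite.mem_toFinset]
        exact hb w (hS.mem_toFinset.1 hw)
      have h5 := Finset.card_le_card hsub
      have h6 : (V.biUnion fun c => (ncard_hasVal_le hM y₁ hy₁ c).1.toFinset).card ≤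
          V.card * Module.finrank E⟮y₀⟯ M := by
        refine Finset.card_biUnion_le_card_mul _ _ _ fun c _ => ?_
        rw [← Set.ncard_eq_toFinset_card _ (ncard_hasVal_le hM y₁ hy₁ c).1, ← hadj₁]
        exact (ncard_hasVal_le hM y₁ hy₁ c).2
      rw [← Set.ncard_eq_toFinset_card S hS] at h5
      have h7 : V.card * Module.finrank E⟮y₀⟯ M ≤ 2 * Module.finrank E⟮y₀⟯ M :=
        Nat.mul_le_mul_right _ hcon
      (clear * - hcard h5 h6 h7; omega)
    obtain ⟨e0, e1, e2, he0, he1, he2, h01, h02, h12⟩ := Finset.two_lt_card_iff.1 hcardV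
    rw [hV, Finset.mem_image] at he0 he1 he2
    obtain ⟨w0, hw0, rfl⟩ := he0
    obtain ⟨w1, hw1, rfl⟩ := he1
    obtain ⟨w2, hw2, rfl⟩ := he2
    rw [Set.Finite.mem_toFinset] at hw0 hw1 hw2
    refine ⟨![w0, w1, w2], ?_, ?_⟩
    · intro i
      fin_cases i
      · exact hw0
      · exact hw1
      · exact hw2
    · intro i j hij
      fin_cases i <;> fin_cases j <;> simp_all
  obtain ⟨w, hwS, hwb⟩ := hthree
  have h01 : b (w 0) - b (w 1) ≠ 0 := sub_ne_zero.2 fun h => by simpa using hwb h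
  have h02 : b (w 0) - b (w 2) ≠ 0 := sub_ne_zero.2 fun h => by simpa using hwb h
  have h12 : b (w 1) - b (w 2) ≠ 0 := sub_ne_zero.2 fun h => by simpa using hwb h
  set b0 := b (w 0) with hb0
  set b1 := b (w 1) with hb1
  set b2 := b (w 2) with hb2
  -- `κ` avoids the values of the cross ratio
  have hfin1 : {κ : E | ∃ v ∈ S, (b v - b0) * (b1 - b2) = κ * ((b v - b2) * (b1 - b0))}.Finite := by
    have : {κ : E | ∃ v ∈ S, (b v - b0) * (b1 - b2) = κ * ((b v - b2) * (b1 - b0))} =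
        ⋃ v ∈ S, {κ : E | (b v - b0) * (b1 - b2) = κ * ((b v - b2) * (b1 - b0))} := by
      ext κ; simp
    rw [this]
    refine hS.biUnion fun v _ => Set.Subsingleton.finite ?_
    intro a ha c hc
    simp only [Set.mem_ofPred_eq] at ha hc
    by_contra hne
    have h8 : (a - c) * ((b v - b2) * (b1 - b0)) = 0 := by linear_combination hc - ha
    rcases mul_eq_zero.1 h8 with h9 | h9
    · exact hne (sub_eq_zero.1 h9)
    · rcases mul_eq_zero.1 h9 with h10 | h10
      · have h11 : b v = b2 := sub_eq_zero.1 h10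
        rw [h11] at ha
        have h12' : (b2 - b0) * (b1 - b2) = 0 := by rw [ha]; ring
        rcases mul_eq_zero.1 h12' with h13 | h13
        · exact h02 (by linear_combination -h13)
        · exact h12 h13
      · exact h01 (by linear_combination -h10)
  obtain ⟨κ, hκfix, hκ⟩ := hinf.exists_notMem_finite hfin1
  -- the matrix: `y = ((y₁ - b2)(b1 - b0)) / ((y₁ - b0)(b1 - b2) - κ (y₁ - b2)(b1 - b0))`
  let T : Matrix (Fin 2) (Fin 2) E := !![(b1 - b0), -(b2 * (b1 - b0));
    (b1 - b2) - κ * (b1 - b0), -(b0 * (b1 - b2)) + κ * (b2 * (b1 - b0))]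
  have hTdet : T.det ≠ 0 := by
    have : T.det = (b1 - b0) * (b1 - b2) * (b2 - b0) := by
      simp only [T, Matrix.det_fin_two, Matrix.of_apply, Matrix.cons_val', Matrix.cons_val_zero,
        Matrix.cons_val_one, Matrix.cons_val_fin_one]
      ring
    rw [this]
    refine mul_ne_zero (mul_ne_zero ?_ h12) ?_
    · intro h; exact h01 (by linear_combination -h)
    · intro h; exact h02 (by linear_combination -h)
  have hden : ∀ v ∈ S, T 1 0 * b v + T 1 1 ≠ 0 := by
    intro v hv h0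
    apply hκ
    refine ⟨v, hv, ?_⟩
    simp only [T, Matrix.of_apply, Matrix.cons_val', Matrix.cons_val_zero,
        Matrix.cons_val_one, Matrix.cons_val_fin_one] at h0
    linear_combination h0
  have hvalT : ∀ v ∈ S, HasVal v (mob T y₁) ((T 0 0 * b v + T 0 1) / (T 1 0 * b v + T 1 1)) :=
    fun v hv => (hb v hv).mob T (hden v hv)
  set y := mob T y₁ with hydef
  have hy : Transcendental E y := transcendental_mob hy₁ hTdet
  have hadj : E⟮y⟯ = E⟮y₀⟯ := (adjoin_mob hy₁ hTdet).trans hadj₁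
  -- the symmetries transport values
  have htr : ∀ g ∈ Γ, ∀ v ∈ S, ∀ (u : M) (e : E), HasVal v u e → HasVal v (ext g u) (g e) := by
    intro g hg v hv u e hue
    unfold HasVal at *
    rw [← h1 g hg, ← map_sub, h2 g hg v hv]
    exact hue
  -- the three values
  have hκ0 : κ ≠ 0 := by
    rintro rfl
    exact hκ ⟨w 0, hwS 0, by rw [← hb0]; ring⟩
  have hκ1 : 1 - κ ≠ 0 := by
    intro h
    have : κ = 1 := by linear_combination -h
    subst this
    exact hκ ⟨w 1, hwS 1, by rw [← hb1]; ring⟩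
  have h10 : b1 - b0 ≠ 0 := fun h => h01 (by linear_combination -h)
  have h20 : b2 - b0 ≠ 0 := fun h => h02 (by linear_combination -h)
  let c : Fin 3 → E := ![-κ⁻¹, (1 - κ)⁻¹, 0]
  have hc : Function.Injective c := by
    have e01 : (-κ⁻¹ : E) ≠ (1 - κ)⁻¹ := by
      intro h
      have h5 : (κ : E) * (1 - κ) * (-κ⁻¹) = κ * (1 - κ) * (1 - κ)⁻¹ := by rw [h]
      have h6 : (κ : E) * (1 - κ) * (-κ⁻¹) = -(1 - κ) := by field_simp
      have h7 : (κ : E) * (1 - κ) * (1 - κ)⁻¹ = κ := by field_simp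
      rw [h6, h7] at h5
      have : (1 : E) = 0 := by linear_combination -h5
      exact one_ne_zero this
    have e02 : (-κ⁻¹ : E) ≠ 0 := neg_ne_zero.2 (inv_ne_zero hκ0)
    have e12 : ((1 - κ)⁻¹ : E) ≠ 0 := inv_ne_zero hκ1
    intro i j hij
    fin_cases i <;> fin_cases j <;> simp [c] at hij ⊢
    all_goals first
      | exact e01 hij
      | exact e01 hij.symm
      | exact hκ0 hij
      | exact hκ0 hij.symm
      | exact hκ1 hij
      | exact hκ1 hij.symm
  have hcval : ∀ i, HasVal (w i) y (c i) := by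
    intro i
    have h5 := hvalT (w i) (hwS i)
    have h6 : (T 0 0 * b (w i) + T 0 1) / (T 1 0 * b (w i) + T 1 1) = c i := by
      rw [div_eq_iff (hden (w i) (hwS i))]
      simp only [T, Matrix.of_apply, Matrix.cons_val', Matrix.cons_val_zero,
        Matrix.cons_val_one, Matrix.cons_val_fin_one]
      fin_cases i
      · simp only [c, Fin.zero_eta, Matrix.cons_val_zero, ← hb0]
        field_simp
        ring
      · simp only [c, Fin.mk_one, Matrix.cons_val_one, Matrix.cons_val_zero, ← hb1]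
        field_simp
        ring
      · simp only [c, Fin.reduceFinMk, Matrix.cons_val, ← hb2]
        ring
    rwa [h6] at h5
  have hgc : ∀ g ∈ Γ, ∀ i, g (c i) = c i := by
    intro g hg i
    have hgκ := hκfix g hg
    fin_cases i
    · simp [c, hgκ]
    · simp [c, hgκ]
    · simp [c]
  have hfix : ∀ g ∈ Γ, ext g y = y := by
    intro g hg
    obtain ⟨A, hA, hAy⟩ := h3 g hg
    have hdm : ∀ B : Matrix (Fin 2) (Fin 2) E, B.det ≠ 0 → (B.map g).det ≠ 0 := by
      intro B hB
      have : (B.map g).det = g B.det := by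
        simp [Matrix.det_fin_two]
      rw [this]
      simpa using hB
    have hm1 : ext g y₁ = mob (T₀.map g * A) y₀ := by
      rw [hy₁def, map_mob (ext g) g (h1 g hg), hAy, mob_mul hy₀ (hdm _ hT₀) hA]
    have hdet1 : (T₀.map g * A).det ≠ 0 := by
      rw [Matrix.det_mul]; exact mul_ne_zero (hdm _ hT₀) hA
    have hm2 : ext g y = mob (T.map g * (T₀.map g * A)) y₀ := by
      rw [hydef, map_mob (ext g) g (h1 g hg), hm1, mob_mul hy₀ (hdm _ hTdet) hdet1]
    have hdet2 : (T.map g * (T₀.map g * A)).det ≠ 0 := by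
      rw [Matrix.det_mul]; exact mul_ne_zero (hdm _ hTdet) hdet1
    have hTT : (T * T₀).det ≠ 0 := by
      rw [Matrix.det_mul]; exact mul_ne_zero hTdet hT₀
    have hy0y : y₀ = mob (T * T₀)⁻¹ y := by
      rw [hydef, hy₁def, mob_mul hy₀ hTdet hT₀, mob_inv hy₀ hTT]
    have hdet3 : ((T * T₀)⁻¹).det ≠ 0 := by
      rw [Matrix.det_nonsing_inv, Ring.inverse_eq_inv']
      exact inv_ne_zero hTT
    have hm3 : ext g y = mob ((T.map g * (T₀.map g * A)) * (T * T₀)⁻¹) y := by
      rw [hm2]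
      conv_lhs => rw [hy0y]
      rw [mob_mul hy hdet2 hdet3]
    have hdet4 : ((T.map g * (T₀.map g * A)) * (T * T₀)⁻¹).det ≠ 0 := by
      rw [Matrix.det_mul]; exact mul_ne_zero hdet2 hdet3
    rw [hm3]
    refine mob_eq_self hy hdet4 w c hc hcval ?_
    intro i
    rw [← hm3]
    have := htr g hg (w i) (hwS i) y (c i) (hcval i)
    rwa [hgc g hg i] at this
  refine ⟨y, hy, hadj, hfix, ?_⟩
  intro v hv
  refine ⟨_, hvalT v hv, ?_⟩
  intro g hg
  have h5 := htr g hg v hv y _ (hvalT v hv)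
  rw [hfix g hg] at h5
  exact h5.unique (hvalT v hv)

end mob

end Pool.Agent.Helper38.DT

end

section

set_option autoImplicit false

set_option linter.style.haveILetI false

namespace Pool.Agent.Helper38.DT

open Polynomial IntermediateField Pool.Agent.Helper16

section partC

variable {E M : Type} [Field E] [Field M] [Algebra E M]

theorem partC [IsAlgClosed E] (hM : IsFunctionField E M) (Ψ : M →ₐ[E] M) (y₀ : M)
    (hy₀ : Transcendental E y₀) (hΨ : Ψ y₀ ∈ E⟮y₀⟯) (w : ℕ → Place E M)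
    (hw : ∀ l h, (w (l + 1)).val h < 1 ↔ (w l).val (Ψ h) < 1) (hfin : (Set.range w).Finite)
    (N₁ N₂ : ℕ) (hinj : ∀ i j, i ≤ N₁ → j ≤ N₁ → w i = w j → i = j)
    (hN₁ : 2 * Module.finrank E⟮y₀⟯ M ≤ N₁) (hN₂ : N₂ * Module.finrank E⟮y₀⟯ M ≤ N₁)
    (Γ : Set (E ≃+* E)) (hinf : {e : E | ∀ g ∈ Γ, g e = e}.Infinite) (ext : (E ≃+* E) → (M ≃+* M))
    (h1 : ∀ g ∈ Γ, ∀ c, ext g (algebraMap E M c) = algebraMap E M (g c))
    (h2 : ∀ g ∈ Γ, ∀ l, ∀ h, (w l).val (ext g h) = (w l).val h)
    (h3 : ∀ g ∈ Γ, ∃ A : Matrix (Fin 2) (Fin 2) E, A.det ≠ 0 ∧ ext g y₀ = mob A y₀)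
    (h4 : ∀ g ∈ Γ, ∀ x, ext g (Ψ x) = Ψ (ext g x)) :
    ∃ (y : M) (A B : E[X]) (c : ℕ → E), Transcendental E y ∧ E⟮y⟯ = E⟮y₀⟯ ∧
      IsRatD A B (Module.finrank Ψ.fieldRange M) ∧ Ψ y * aeval y B = aeval y A ∧
      (∀ g ∈ Γ, A.map (g : E →+* E) = A ∧ B.map (g : E →+* E) = B ∧ ∀ l, g (c l) = c l) ∧
      (∀ l, B.eval (c l) ≠ 0 ∧ c (l + 1) = A.eval (c l) / B.eval (c l)) ∧
      (Set.range c).Finite ∧ ∀ i j, i ≤ N₂ → j ≤ N₂ → c i = c j → i = j := by
  classical
  have hfd : 0 < Module.finrank E⟮y₀⟯ M := by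
    haveI := hM.finiteDimensional y₀ hy₀
    exact Module.finrank_pos
  have hcardw : N₁ + 1 ≤ (Set.range w).ncard := by
    have hsub : w '' (Finset.range (N₁ + 1) : Set ℕ) ⊆ Set.range w := Set.image_subset_range _ _
    have hi : Set.InjOn w (Finset.range (N₁ + 1) : Set ℕ) := by
      intro i hi j hj hij
      simp only [Finset.coe_range, Set.mem_Iio] at hi hj
      exact hinj i j (by omega) (by omega) hij
    have := Set.ncard_le_ncard hsub hfin
    rwa [hi.ncard_image, Set.ncard_coe_finset, Finset.card_range] at this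
  obtain ⟨y, hy, hadj, hfix, hval⟩ := exists_coordinate hM y₀ hy₀ (Set.range w) hfin (by omega) Γ
    hinf ext h1 (by rintro g hg _ ⟨l, rfl⟩ h; exact h2 g hg l h) h3
  have hval' : ∀ l, ∃ c : E, HasVal (w l) y c ∧ ∀ g ∈ Γ, g c = c := fun l => hval (w l) ⟨l, rfl⟩
  choose c hc hgc using hval'
  have hΨy : Ψ y ∈ E⟮y⟯ := by
    have h5 : (E⟮y₀⟯).map Ψ ≤ E⟮y₀⟯ := by
      rw [IntermediateField.adjoin_map, Set.image_singleton, adjoin_simple_le_iff]
      exact hΨ
    rw [hadj]
    apply h5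
    exact ⟨y, by
      have := mem_adjoin_simple_self E y
      rw [hadj] at this
      exact this, rfl⟩
  obtain ⟨A, B, hAB, hBm, hABy⟩ := exists_ratio hy hΨy
  have hΨtr : Transcendental E (Ψ y) := by
    intro halg
    exact hy ((isAlgebraic_algHom_iff Ψ Ψ.injective).1 halg)
  have hA0 : A ≠ 0 := by
    rintro rfl
    rw [map_zero] at hABy
    rcases mul_eq_zero.1 hABy with h5 | h5
    · rw [h5] at hΨtr
      exact hΨtr isAlgebraic_zero
    · exact aeval_ne_zero hy hBm.ne_zero h5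
  have hδ : max A.natDegree B.natDegree = Module.finrank Ψ.fieldRange M := by
    rw [← relfinrank_ratio hy hAB hBm.ne_zero, ← hABy,
      mul_div_cancel_right₀ _ (aeval_ne_zero hy hBm.ne_zero)]
    refine relfinrank_endo Ψ y hΨy ?_
    rw [hadj]
    exact hfd.ne'
  have hstep : ∀ l, B.eval (c l) ≠ 0 ∧ c (l + 1) = A.eval (c l) / B.eval (c l) := by
    intro l
    have h5 : HasVal (w l) (Ψ y) (c (l + 1)) := by
      have := (hw l (y - algebraMap E M (c (l + 1)))).1 (hc (l + 1))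
      rwa [map_sub, AlgHom.commutes] at this
    have h6 := h5.mul ((hc l).aeval B)
    rw [hABy] at h6
    have h7 := h6.unique ((hc l).aeval A)
    have h8 : B.eval (c l) ≠ 0 := by
      intro h0
      rw [h0, mul_zero] at h7
      obtain ⟨P, Q, hPQ⟩ := hAB
      have h9 := congrArg (Polynomial.eval (c l)) hPQ
      rw [eval_add, eval_mul, eval_mul, h0, ← h7] at h9
      simp at h9
    exact ⟨h8, by rw [eq_div_iff h8, h7]⟩
  have hcfin : (Set.range c).Finite := by
    have h5 : Set.range c ⊆ ⋃ v ∈ Set.range w, {e | HasVal v y e} := by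
      rintro _ ⟨l, rfl⟩
      exact Set.mem_biUnion ⟨l, rfl⟩ (hc l)
    refine Set.Finite.subset (hfin.biUnion fun v _ => Set.Subsingleton.finite ?_) h5
    intro a ha b hb
    exact HasVal.unique ha hb
  refine ⟨y, A, B, c, hy, hadj, isRatD_max hAB hA0 hBm.ne_zero hδ, hABy, ?_, hstep, hcfin, ?_⟩
  · intro g hg
    have h5 : ∀ P : E[X], ext g (aeval y P) = aeval y (P.map (g : E →+* E)) := by
      intro P
      induction P using Polynomial.induction_on' with
      | add p q hp hq => rw [map_add, map_add, hp, hq, Polynomial.map_add, map_add]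
      | monomial n a =>
        rw [aeval_monomial, map_mul, map_pow, h1 g hg, hfix g hg, Polynomial.map_monomial,
          aeval_monomial]
        rfl
    have h6 := congrArg (ext g) hABy
    rw [map_mul, h4 g hg, hfix g hg, h5, h5] at h6
    have hBm' : (B.map (g : E →+* E)).Monic := hBm.map _
    have hAB' : IsCoprime (A.map (g : E →+* E)) (B.map (g : E →+* E)) :=
      hAB.map (Polynomial.mapRingHom (g : E →+* E))
    obtain ⟨e1, e2⟩ := ratio_unique hy hAB hAB' hBm hBm' (by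
      rw [← hABy, ← h6]; ring)
    exact ⟨e1.symm, e2.symm, fun l => hgc l g hg⟩
  · refine orbit_inj c (fun e => A.eval e / B.eval e) (fun l => (hstep l).2) N₂ ?_
    -- the number of values
    rw [← hcfin.cast_ncard_eq]
    have h5 : hfin.toFinset ⊆ hcfin.toFinset.biUnion fun e => (ncard_hasVal_le hM y hy e).1.toFinset := by
      intro v hv
      rw [Set.Finite.mem_toFinset] at hv
      obtain ⟨l, rfl⟩ := hv
      rw [Finset.mem_biUnion]
      refine ⟨c l, ?_, ?_⟩
      · rw [Set.Finite.mem_toFinset]; exact ⟨l, rfl⟩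
      · rw [Set.Finite.mem_toFinset]; exact hc l
    have h6 := Finset.card_le_card h5
    have h7 : (hcfin.toFinset.biUnion fun e => (ncard_hasVal_le hM y hy e).1.toFinset).card ≤
        hcfin.toFinset.card * Module.finrank E⟮y₀⟯ M := by
      refine Finset.card_biUnion_le_card_mul _ _ _ fun e _ => ?_
      rw [← Set.ncard_eq_toFinset_card _ (ncard_hasVal_le hM y hy e).1, ← hadj]
      exact (ncard_hasVal_le hM y hy e).2
    rw [← Set.ncard_eq_toFinset_card _ hfin] at h6
    rw [← Set.ncard_eq_toFinset_card _ hcfin] at h7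
    have h8 : N₂ < (Set.range c).ncard := by
      by_contra hcon
      rw [not_lt] at hcon
      have := Nat.mul_le_mul_right (Module.finrank E⟮y₀⟯ M) hcon
      omega
    exact_mod_cast h8

end partC

end Pool.Agent.Helper38.DT

end

section

set_option autoImplicit false

set_option linter.style.haveILetI false

set_option linter.unusedSectionVars false

namespace Pool.Agent.Helper47.RR

open Pool.Agent.Helper16 Pool.Agent.Helper45.S4

variable {k L M : Type} [Field k] [Field L] [Field M] [Algebra k L] [Algebra k M] [Algebra L M]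
  [IsScalarTower k L M]

section con

variable [IsAlgClosed k] (hN : IsFunctionField k L) [FiniteDimensional L M]

/-- the conorm of a divisor -/
noncomputable def Con (D : Dv k L) : Dv k M :=
  Finsupp.ofSupportFinite (fun w : Place k M => (ram hN w : ℤ) * D (resPl hN w)) (by
    classical
    refine (D.support.biUnion fun v => fib (M := M) hN v).finite_toSet.subset ?_
    intro w hw
    rw [Function.mem_support] at hw
    rw [Finset.mem_coe, Finset.mem_biUnion]
    refine ⟨resPl hN w, ?_, (mem_fib hN _ w).2 rfl⟩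
    rw [Finsupp.mem_support_iff]
    intro h0
    exact hw (by rw [h0, mul_zero]))

theorem Con_apply (D : Dv k L) (w : Place k M) :
    Con hN D w = (ram hN w : ℤ) * D (resPl hN w) := rfl

theorem degD_Con (D : Dv k L) :
    degD (Con (M := M) hN D) = (Module.finrank L M : ℤ) * degD D := by
  classical
  set S : Finset (Place k M) := D.support.biUnion fun v => fib (M := M) hN v with hS
  have h1 : degD (Con (M := M) hN D) = ∑ w ∈ S, Con hN D w := by
    unfold degD
    refine Finsupp.sum_of_support_subset _ ?_ _ (fun _ _ => rfl)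
    intro w hw
    rw [Finsupp.mem_support_iff, Con_apply] at hw
    rw [hS, Finset.mem_biUnion]
    refine ⟨resPl hN w, ?_, (mem_fib hN _ w).2 rfl⟩
    rw [Finsupp.mem_support_iff]
    intro h0
    exact hw (by rw [h0, mul_zero])
  rw [h1, hS, Finset.sum_biUnion]
  · unfold degD
    rw [Finsupp.sum, Finset.mul_sum]
    refine Finset.sum_congr rfl fun v _ => ?_
    have h2 : ∑ w ∈ fib (M := M) hN v, Con hN D w =
        ∑ w ∈ fib (M := M) hN v, (ram hN w : ℤ) * D v := by
      refine Finset.sum_congr rfl fun w hw => ?_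
      rw [Con_apply, (mem_fib hN v w).1 hw]
    rw [h2, ← Finset.sum_mul, ← Nat.cast_sum, sum_fib]
  · intro v _ v' _ hvv'
    rw [Function.onFun, Finset.disjoint_left]
    intro w hw hw'
    exact hvv' (((mem_fib hN v w).1 hw).symm.trans ((mem_fib hN v' w).1 hw'))

end con

end Pool.Agent.Helper47.RR

end

section

set_option autoImplicit false

namespace Pool.Agent.Helper91.DT

open Polynomial IntermediateField Pool.Agent.Helper93.RatODE Pool.Agent.Helper45.FR
  Pool.Agent.Helper38.DT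

open Pool.Agent.Helper55.RD (hom)

open Pool.Agent.Helper55.RM (lift ext IsRat Isotrivial Conj PotGood prePer)

section bound

variable {k M : Type} [Field k] [IsAlgClosed k] [Field M] [Algebra k M]

/-- the orbit of a preperiodic point has few points -/
theorem card_orbit_le (hfg : (⊤ : IntermediateField k M).FG)
    (htr : ∃ x : M, Transcendental k x ∧ Algebra.IsAlgebraic (IntermediateField.adjoin k {x}) M)
    (F G : M[X]) {d : ℕ} (hd : 2 ≤ d) (hFG : IsRatD F G d)
    (hnot : ¬ Isotrivial k d (frm F G d)) (s : ℕ)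
    (Z : Finset (Pool.Agent.Helper55.RM.Place k M)) (hZ : Z.card ≤ s)
    (hgood : ∀ v ∉ Z, (∀ j, v.val (F.coeff j) ≤ 1) ∧ (∀ j, v.val (G.coeff j) ≤ 1) ∧
      v.val (resultant F G d d) = 1)
    (ζ : M × M) (hζ : ζ ≠ 0)
    (hpp : ∃ a b, a < b ∧ cr ((phi F G d)^[a] ζ) ((phi F G d)^[b] ζ) = 0)
    (T : Finset (Option M)) (hT : ∀ p ∈ T, ∃ i, p = pt ((phi F G d)^[i] ζ)) :
    T.card ≤ Pool.Agent.Helper55.RM.bound d s := by
  have hmain := Pool.Agent.Helper55.RM.main d s hd k M hfg htr (frm F G d) (isRat_frm hFG) hnot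
    ⟨Z, hZ, fun v hv => potGood_of_good v hFG.degF hFG.degG (hgood v hv).1 (hgood v hv).2.1
      (hgood v hv).2.2⟩
  set g : Projectivization M (Fin 2 → M) → Option M := fun P => pt (P.rep 0, P.rep 1) with hg
  have hvec : ∀ w : M × M, w ≠ 0 → (![w.1, w.2] : Fin 2 → M) ≠ 0 := by
    intro w hw h
    exact hw (Prod.ext (congrFun h 0) (congrFun h 1))
  have hgmk : ∀ (w : M × M) (hw : w ≠ 0),
      g (Projectivization.mk M ![w.1, w.2] (hvec w hw)) = pt w := by
    intro w hw
    obtain ⟨a, ha⟩ := Projectivization.exists_smul_eq_mk_rep M ![w.1, w.2] (hvec w hw)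
    simp only [hg]
    rw [← ha]
    exact pt_smul (Units.ne_zero a) w
  have hne : ∀ i, (phi F G d)^[i] ζ ≠ 0 := phi_iter_ne_zero hFG.cop hFG.degF hFG.degG hFG.top hζ
  have hsub : (T : Set (Option M)) ⊆ g '' (prePer (frm F G d)) := by
    intro p hp
    obtain ⟨i, rfl⟩ := hT p hp
    refine ⟨_, ?_, hgmk _ (hne i)⟩
    obtain ⟨a, b, hab, hcr⟩ := hpp
    -- the shifted point is preperiodic
    have hcr' : cr ((phi F G d)^[a] ((phi F G d)^[i] ζ)) ((phi F G d)^[b] ((phi F G d)^[i] ζ)) = 0 := by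
      have := cr_phi_iter hFG.cop hFG.degF hFG.degG hFG.top (hne a) (hne b) hcr i
      rw [← Function.iterate_add_apply, ← Function.iterate_add_apply] at this
      rwa [← Function.iterate_add_apply, ← Function.iterate_add_apply, add_comm a, add_comm b]
    set w := (phi F G d)^[i] ζ with hw
    have hw0 : w ≠ 0 := hne i
    have hwn : ∀ n, (phi F G d)^[n] w ≠ 0 :=
      phi_iter_ne_zero hFG.cop hFG.degF hFG.degG hFG.top hw0
    obtain ⟨c, hc, hce⟩ := exists_smul_of_cr (hwn a) (hwn b) hcr'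
    obtain ⟨u, hu⟩ := Projectivization.exists_smul_eq_mk_rep M ![w.1, w.2] (hvec w hw0)
    have hrep : (Projectivization.mk M ![w.1, w.2] (hvec w hw0)).rep =
        ![((u : M) • w).1, ((u : M) • w).2] := by
      rw [← hu]
      funext j
      fin_cases j <;> rfl
    refine ⟨a, b, hab, ((u : M) ^ d ^ b * c * ((u : M) ^ d ^ a)⁻¹), ?_, ?_⟩
    · exact mul_ne_zero (mul_ne_zero (pow_ne_zero _ (Units.ne_zero u)) hc)
        (inv_ne_zero (pow_ne_zero _ (Units.ne_zero u)))
    · rw [hrep, lift_frm_iter, lift_frm_iter, phi_iter_smul, phi_iter_smul, hce]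
      have hu0 : ((u : M) ^ d ^ a) ≠ 0 := pow_ne_zero _ (Units.ne_zero u)
      funext j
      fin_cases j
      · simp
        field_simp
      · simp
        (clear * - hu0 hc; field_simp)
  have h1 : (T : Set (Option M)).encard ≤ Pool.Agent.Helper55.RM.bound d s :=
    ((Set.encard_le_encard hsub).trans (Set.encard_image_le _ _)).trans hmain
  rw [Set.encard_coe_eq_coe_finsetCard] at h1
  exact_mod_cast h1

end bound

end Pool.Agent.Helper91.DT

end

section

set_option autoImplicit false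

namespace Pool.Agent.Helper91.DT

open Polynomial IntermediateField Pool.Agent.Helper93.RatODE Pool.Agent.Helper45.FR
  Pool.Agent.Helper38.DT

open Pool.Agent.Helper55.RD (hom)

open Pool.Agent.Helper55.RM (lift ext IsRat Isotrivial Conj PotGood prePer)

section bound

variable {k E : Type} [Field k] [IsAlgClosed k] [Field E] [IsAlgClosed E] [Algebra k E]

/-- **Bound for preperiodic points of bounded degree.** -/
theorem exists_bound (hE : Algebra.trdeg k E = 1) (F G : E[X]) {d : ℕ} (hd : 2 ≤ d)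
    (hFG : IsRatD F G d) (hnot : ¬ ConstConj k F G d) (S₀ : Set E) (hS₀ : S₀.Finite) (n : ℕ) :
    ∃ B : ℕ, ∀ (p : E[X]) (ζ : E × E), p ≠ 0 → p.natDegree ≤ n →
      (∀ j, p.coeff j ∈ adjoin k S₀) → ζ ≠ 0 → (ζ.2 ≠ 0 → p.eval (ζ.1 / ζ.2) = 0) →
      (∃ a b, a < b ∧ cr ((phi F G d)^[a] ζ) ((phi F G d)^[b] ζ) = 0) →
      ∀ T : Finset (Option E), (∀ q ∈ T, ∃ i, q = pt ((phi F G d)^[i] ζ)) → T.card ≤ B := by
  classical
  obtain ⟨t, ht⟩ := exists_transcendental hE
  set S : Set E := S₀ ∪ ({t} ∪ ((F.coeffs : Set E) ∪ (G.coeffs : Set E))) with hS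
  have hSfin : S.Finite :=
    hS₀.union ((Set.finite_singleton t).union ((Finset.finite_toSet _).union
      (Finset.finite_toSet _)))
  set L := adjoin k S with hL
  have htL : t ∈ L := subset_adjoin k S (by simp [hS])
  have hFL : ∀ j, F.coeff j ∈ L := by
    intro j
    by_cases h0 : F.coeff j = 0
    · rw [h0]; exact zero_mem _
    · exact subset_adjoin k S (Or.inr (Or.inr (Or.inl (coeff_mem_coeffs h0))))
  have hGL : ∀ j, G.coeff j ∈ L := by
    intro j
    by_cases h0 : G.coeff j = 0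
    · rw [h0]; exact zero_mem _
    · exact subset_adjoin k S (Or.inr (Or.inr (Or.inr (coeff_mem_coeffs h0))))
  obtain ⟨htrL, halgL⟩ := trdeg_intermediate hE L t ht htL
  have hLess : Algebra.EssFiniteType k L :=
    essFiniteType_iff.2 (fg_adjoin_of_finite hSfin)
  have hLff : Pool.Agent.Helper16.IsFunctionField k L := ⟨hLess, htrL⟩
  obtain ⟨F', hF'⟩ := exists_lift_poly F hFL
  obtain ⟨G', hG'⟩ := exists_lift_poly G hGL
  have hFG' : IsRatD F' G' d := isRatD_of_map (E := E) (by rw [hF', hG']; exact hFG)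
  have hR := resultant_ne_zero_of_isRatD hd hFG'
  set 𝒢 : Finset L := insert (resultant F' G' d d) (F'.coeffs ∪ G'.coeffs) with h𝒢
  have h𝒢0 : ∀ g ∈ 𝒢, g ≠ 0 := by
    intro g hg
    rw [h𝒢, Finset.mem_insert, Finset.mem_union] at hg
    rcases hg with rfl | hg | hg
    · exact hR
    · obtain ⟨j, hj, rfl⟩ := mem_coeffs_iff.1 hg
      exact mem_support_iff.1 hj
    · obtain ⟨j, hj, rfl⟩ := mem_coeffs_iff.1 hg
      exact mem_support_iff.1 hj
  set n' := max n 1 with hn'
  set s : ℕ := ∑ g ∈ 𝒢, 2 * (Module.finrank k⟮g⟯ L * n') with hs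
  refine ⟨Pool.Agent.Helper55.RM.bound d s, fun p ζ hp0 hpn hpc hζ hroot hpp T hT => ?_⟩
  -- the coordinate
  obtain ⟨r, c, hc, hζr, hr⟩ : ∃ (r c : E), c ≠ 0 ∧ (ζ = c • (1, 0) ∧ r = 0 ∨ ζ = c • (r, 1)) ∧
      ∃ p' : L[X], p' ≠ 0 ∧ p'.natDegree ≤ n' ∧ aeval r p' = 0 := by
    by_cases h2 : ζ.2 = 0
    · refine ⟨0, ζ.1, fun h1 => hζ (Prod.ext h1 h2), Or.inl ⟨?_, rfl⟩, X, X_ne_zero, ?_, ?_⟩
      · ext
        · simp
        · simp [h2]
      · rw [natDegree_X]; exact le_max_right _ _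
      · simp
    · refine ⟨ζ.1 / ζ.2, ζ.2, h2, Or.inr ?_, ?_⟩
      · ext
        · simp only [Prod.smul_mk, smul_eq_mul]
          field_simp
        · simp
      · have hSS : adjoin k S₀ ≤ L := adjoin.mono k S₀ S (by rw [hS]; exact Set.subset_union_left)
        obtain ⟨p', hp'⟩ := exists_lift_poly (K := L) p fun j => hSS (hpc j)
        refine ⟨p', ?_, ?_, ?_⟩
        · rintro rfl
          rw [Polynomial.map_zero] at hp'
          exact hp0 hp'.symm
        · have := natDegree_map (f := algebraMap L E) (p := p')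
          rw [hp'] at this
          rw [← this]
          exact hpn.trans (le_max_left _ _)
        · have := hroot h2
          rw [← hp', eval_map_algebraMap] at this
          exact this
  obtain ⟨p', hp'0, hp'n, hp'r⟩ := hr
  have hint : IsIntegral L r := isAlgebraic_iff_isIntegral.1 ⟨p', hp'0, hp'r⟩
  set M := L⟮r⟯ with hM
  have hMfin : FiniteDimensional L M := adjoin.finiteDimensional hint
  have hMrank : Module.finrank L M ≤ n' := by
    rw [hM, adjoin.finrank hint]
    refine le_trans ?_ hp'n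
    exact natDegree_le_of_dvd (minpoly.dvd L r hp'r) hp'0
  have hMff : Pool.Agent.Helper16.IsFunctionField k M := hLff.of_finite
  have halgM : Algebra.IsAlgebraic M E := Algebra.IsAlgebraic.tower_top (K := L) M
  have hst : IsScalarTower k M E := IsScalarTower.of_algebraMap_eq fun x => rfl
  set F'' : M[X] := F'.map (algebraMap L M) with hF''
  set G'' : M[X] := G'.map (algebraMap L M) with hG''
  have hFE : F''.map (algebraMap M E) = F := by
    rw [hF'', Polynomial.map_map, ← IsScalarTower.algebraMap_eq, hF']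
  have hGE : G''.map (algebraMap M E) = G := by
    rw [hG'', Polynomial.map_map, ← IsScalarTower.algebraMap_eq, hG']
  have hFGM : IsRatD F'' G'' d := isRatD_of_map (E := E) (by rw [hFE, hGE]; exact hFG)
  have hnotM : ¬ Isotrivial k d (frm F'' G'' d) := by
    intro h
    have := constConj_of_isotrivial (k := k) (M := M) (E := E) (F := F'') (G := G'') (d := d)
      (by rw [hFE, hGE]; exact hFG) h
    rw [hFE, hGE] at this
    exact hnot this
  -- the bad places
  have hZ : ∀ g : L, ∃ Z : Finset (Pool.Agent.Helper55.RM.Place k M), g ≠ 0 →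
      Z.card ≤ 2 * (Module.finrank k⟮g⟯ L * Module.finrank L M) ∧
      ∀ v ∉ Z, v.val (algebraMap L M g) = 1 := by
    intro g
    by_cases hg : g = 0
    · exact ⟨∅, fun h => absurd hg h⟩
    · obtain ⟨Z, h⟩ := card_ne_one_le (k := k) (L := L) (M := M) hMff g hg
      exact ⟨Z, fun _ => h⟩
  choose Z hZ using hZ
  have hZcard : (𝒢.biUnion Z).card ≤ s := by
    refine Finset.card_biUnion_le.trans (Finset.sum_le_sum fun g hg => ?_)
    refine (hZ g (h𝒢0 g hg)).1.trans ?_
    (clear * - hMrank; gcongr)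
  have hZout : ∀ v ∉ 𝒢.biUnion Z, ∀ g ∈ 𝒢, v.val (algebraMap L M g) = 1 := by
    intro v hv g hg
    refine (hZ g (h𝒢0 g hg)).2 v fun h => hv (Finset.mem_biUnion.2 ⟨g, hg, h⟩)
  -- the field data of `M`
  have hfg : (⊤ : IntermediateField k M).FG := fg_top_iff.2 hMff.1
  have htr : ∃ x : M, Transcendental k x ∧ Algebra.IsAlgebraic (IntermediateField.adjoin k {x}) M := by
    obtain ⟨x, hx⟩ := exists_transcendental hMff.2
    have := hMff.finiteDimensional x hx
    exact ⟨x, hx, inferInstance⟩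
  -- the point over `M`
  obtain ⟨ζ', hζ', hζζ'⟩ : ∃ ζ' : M × M, ζ' ≠ 0 ∧ ζ = c • (algebraMap M E ζ'.1, algebraMap M E ζ'.2) := by
    rcases hζr with ⟨h1, -⟩ | h1
    · refine ⟨(1, 0), ?_, ?_⟩
      · intro h; exact one_ne_zero (congrArg Prod.fst h)
      · rw [h1]; simp
    · refine ⟨(⟨r, mem_adjoin_simple_self L r⟩, 1), ?_, ?_⟩
      · intro h; exact one_ne_zero (congrArg Prod.snd h)
      · rw [h1]; simp
  have hkey : ∀ i, pt ((phi F G d)^[i] ζ) =
      (pt ((phi F'' G'' d)^[i] ζ')).map (algebraMap M E) := by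
    intro i
    rw [hζζ', phi_iter_smul, pt_smul (pow_ne_zero _ hc), ← hFE, ← hGE, phi_iter_map, pt_map]
  have hneE : ∀ i, (phi F G d)^[i] ζ ≠ 0 :=
    phi_iter_ne_zero hFG.cop hFG.degF hFG.degG hFG.top hζ
  have hneM : ∀ i, (phi F'' G'' d)^[i] ζ' ≠ 0 :=
    phi_iter_ne_zero hFGM.cop hFGM.degF hFGM.degG hFGM.top hζ'
  have hinj : Function.Injective (Option.map (algebraMap M E)) :=
    Option.map_injective (algebraMap M E).injective
  have hpp' : ∃ a b, a < b ∧ cr ((phi F'' G'' d)^[a] ζ') ((phi F'' G'' d)^[b] ζ') = 0 := by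
    obtain ⟨a, b, hab, h⟩ := hpp
    refine ⟨a, b, hab, ?_⟩
    rw [← pt_eq_iff (hneE a) (hneE b), hkey, hkey] at h
    rw [← pt_eq_iff (hneM a) (hneM b)]
    exact hinj h
  -- transfer
  have hT' : ∀ q : T, ∃ i, q.1 = pt ((phi F G d)^[i] ζ) := fun q => hT q.1 q.2
  choose idx hidx using hT'
  set T' : Finset (Option M) := T.attach.image fun q => pt ((phi F'' G'' d)^[idx q] ζ') with hT'def
  have hcard : T.card = T'.card := by
    rw [hT'def, Finset.card_image_of_injective, Finset.card_attach]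
    intro q q' h
    apply Subtype.ext
    rw [hidx q, hidx q', hkey, hkey]
    simp only at h
    rw [h]
  rw [hcard]
  refine card_orbit_le hfg htr F'' G'' hd hFGM hnotM s (𝒢.biUnion Z) hZcard ?_ ζ' hζ' hpp' T' ?_
  · intro v hv
    have hcoef : ∀ (P : L[X]), (P.coeffs ⊆ 𝒢) → ∀ j, v.val ((P.map (algebraMap L M)).coeff j) ≤ 1 := by
      intro P hP j
      rw [coeff_map]
      by_cases h0 : P.coeff j = 0
      · rw [h0, map_zero, map_zero]; exact zero_le_one
      · exact (hZout v hv _ (hP (coeff_mem_coeffs h0))).le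
    refine ⟨hcoef F' ?_, hcoef G' ?_, ?_⟩
    · intro x hx
      exact Finset.mem_insert_of_mem (Finset.mem_union_left _ hx)
    · intro x hx
      exact Finset.mem_insert_of_mem (Finset.mem_union_right _ hx)
    · rw [hF'', hG'', resultant_map_map]
      exact hZout v hv _ (Finset.mem_insert_self _ _)
  · intro q hq
    obtain ⟨q', -, rfl⟩ := Finset.mem_image.1 hq
    exact ⟨_, rfl⟩

end bound

end Pool.Agent.Helper91.DT

end

section

set_option autoImplicit false

namespace Pool.Agent.Helper91.DT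

open Polynomial IntermediateField Pool.Agent.Helper93.RatODE Pool.Agent.Helper45.FR
  Pool.Agent.Helper38.DT

/-- **DT6** : a rational function in correspondence with a constant one is constant (up to
conjugation). -/
theorem dt6_of {k E : Type} [Field k] [IsAlgClosed k] [Field E] [IsAlgClosed E] [Algebra k E]
    (hDT7 : DT7 k)
    (hE : Algebra.trdeg k E = 1) (F G : E[X]) (d : ℕ) (hd : 2 ≤ d) (hFG : IsRatD F G d)
    (A B : E[X]) (δ : ℕ) (hδ : 2 ≤ δ) (hAB : IsRatD A B δ) (hc : ConstConj k A B δ)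
    (q : ℕ → ℕ → E) (m n ρ : ℕ) (hρ : 1 ≤ ρ)
    (hq : Corr q m n A B δ (iter F G d ρ).1 (iter F G d ρ).2 (d ^ ρ)) : ConstConj k F G d := by
  classical
  by_contra hnot
  obtain ⟨Mx, A', B', c, hdet, hc0, hA'd, hB'd, hcop, htop, hEA, hEB⟩ := hc
  have hAB' : IsRatD A' B' δ := ⟨(isCoprime_map _).1 hcop, hA'd, hB'd, htop⟩
  -- the finite set of coefficients
  set S₀ : Set E := (⋃ a ∈ Finset.range (m + 1), ⋃ b ∈ Finset.range (n + 1), {q a b}) ∪
    {Mx 0 0, Mx 0 1, Mx 1 0, Mx 1 1} with hS₀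
  have hS₀fin : S₀.Finite := by
    refine Set.Finite.union ?_ ?_
    · refine Set.Finite.biUnion (Finset.finite_toSet _) fun a _ => ?_
      exact Set.Finite.biUnion (Finset.finite_toSet _) fun b _ => Set.finite_singleton _
    · exact Set.toFinite _
  have hqS : ∀ a < m + 1, ∀ b < n + 1, q a b ∈ adjoin k S₀ := by
    intro a ha b hb
    refine subset_adjoin k S₀ (Or.inl ?_)
    simp only [Set.mem_iUnion]
    exact ⟨a, Finset.mem_range.2 ha, b, Finset.mem_range.2 hb, rfl⟩
  have hMS : ∀ i j, Mx i j ∈ adjoin k S₀ := by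
    intro i j
    refine subset_adjoin k S₀ (Or.inr ?_)
    fin_cases i <;> fin_cases j <;> simp
  obtain ⟨Bd, hBd⟩ := exists_bound hE F G hd hFG hnot S₀ hS₀fin n
  set N := m * Bd with hN
  obtain ⟨v, hv, ⟨a₀, b₀, hab₀, hcr₀⟩, hinj⟩ := hDT7 A' B' δ hδ hAB' N
  -- the orbit upstairs
  set vE : E × E := (algebraMap k E v.1, algebraMap k E v.2) with hvE
  have hvE0 : vE ≠ 0 := by
    intro h
    apply hv
    refine Prod.ext ?_ ?_
    · have : algebraMap k E v.1 = 0 := congrArg Prod.fst h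
      simpa using this
    · have : algebraMap k E v.2 = 0 := congrArg Prod.snd h
      simpa using this
  set y : ℕ → E × E := fun i => (phi A B δ)^[i] (mat Mx vE) with hy
  have hy0 : ∀ i, y i ≠ 0 :=
    phi_iter_ne_zero hAB.cop hAB.degF hAB.degG hAB.top (mat_ne_zero hdet hvE0)
  have hycr : ∀ i j, cr (y i) (y j) = 0 ↔
      cr ((phi A' B' δ)^[i] v) ((phi A' B' δ)^[j] v) = 0 := by
    intro i j
    obtain ⟨e, he, h1⟩ := phi_mat_iter hc0 hEA hEB vE i
    obtain ⟨f, hf, h2⟩ := phi_mat_iter hc0 hEA hEB vE j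
    simp only [hy]
    rw [h1, h2, cr_smul_left, cr_smul_right, cr_mat, hvE, phi_iter_map, phi_iter_map]
    have h3 : cr (algebraMap k E ((phi A' B' δ)^[i] v).1, algebraMap k E ((phi A' B' δ)^[i] v).2)
        (algebraMap k E ((phi A' B' δ)^[j] v).1, algebraMap k E ((phi A' B' δ)^[j] v).2) =
        algebraMap k E (cr ((phi A' B' δ)^[i] v) ((phi A' B' δ)^[j] v)) := by
      simp only [cr, map_sub, map_mul]
    rw [h3]
    simp [he, hf, hdet]
  have hyinj : ∀ i ≤ N, ∀ j ≤ N, pt (y i) = pt (y j) → i = j := by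
    intro i hi j hj h
    rw [pt_eq_iff (hy0 i) (hy0 j), hycr] at h
    exact hinj i hi j hj h
  have hystep : ∀ i, y (i + 1) = phi A B δ (y i) := fun i => Function.iterate_succ_apply' _ i _
  -- the starting point
  have hpz0 : ∀ i, pz q m n (y i) ≠ 0 := by
    intro i h
    obtain ⟨z0, z1, hz⟩ := hq.left (y i).1 (y i).2 (by
      by_contra hcon
      push Not at hcon
      exact hy0 i (Prod.ext hcon.1 hcon.2))
    apply hz
    have := bev_eq_hev q m n (y i) (z0, z1)
    simp only at this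
    rw [this, h, hev_zero_poly]
  obtain ⟨ζ, hζ, hζz⟩ := exists_zero_form hq.pos (pz_natDegree q m n (y 0))
  set g : ℕ → E × E := fun i => (phi F G d)^[ρ * i] ζ with hg
  have hneF : ∀ i, (phi F G d)^[i] ζ ≠ 0 :=
    phi_iter_ne_zero hFG.cop hFG.degF hFG.degG hFG.top hζ
  have hg0 : ∀ i, g i ≠ 0 := fun i => hneF _
  have hgstep : ∀ i, g (i + 1) = (hev (iter F G d ρ).1 (d ^ ρ) (g i).1 (g i).2,
      hev (iter F G d ρ).2 (d ^ ρ) (g i).1 (g i).2) := by
    intro i
    have h1 : g (i + 1) = (phi F G d)^[ρ] (g i) := by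
      simp only [hg]
      rw [← Function.iterate_add_apply]
      congr 1
      ring
    rw [h1, phi_iter]
  have hbev : ∀ i, bev q m n (y i).1 (y i).2 (g i).1 (g i).2 = 0 := by
    intro i
    induction i with
    | zero =>
      have h1 : g 0 = ζ := by simp [hg]
      rw [h1, bev_eq_hev]
      exact hζz
    | succ i ih =>
      rw [hystep, hgstep]
      exact hq.inv _ _ _ _ ih
  have hbz : ∀ i, hev (pz q m n (y i)) n (g i).1 (g i).2 = 0 := fun i => by
    rw [← bev_eq_hev]; exact hbev i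
  -- `ζ` is preperiodic
  have hyfin : ∀ i, ∃ j < b₀, cr (y i) (y j) = 0 := by
    intro i
    exact exists_lt_cr hAB.cop hAB.degF hAB.degG hAB.top (mat_ne_zero hdet hvE0) hab₀
      ((hycr a₀ b₀).2 hcr₀) i
  have hpp : ∃ a b, a < b ∧ cr ((phi F G d)^[a] ζ) ((phi F G d)^[b] ζ) = 0 := by
    set W : Finset (Option E) := (Finset.range b₀).biUnion fun j =>
      (pz q m n (y j)).roots.toFinset.image some ∪ {none} with hW
    have hmem : ∀ i, pt (g i) ∈ W := by
      intro i
      obtain ⟨j, hj, hij⟩ := hyfin i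
      rw [hW, Finset.mem_biUnion]
      refine ⟨j, Finset.mem_range.2 hj, pt_mem_roots (hpz0 j) (pz_natDegree q m n _) ?_⟩
      obtain ⟨e, he, h1⟩ := exists_smul_of_cr (hy0 i) (hy0 j) hij
      rw [← bev_eq_hev, bev_swap, h1]
      have h2 := bev_eq_hev (fun b a => q a b) n m (g i) (e • y i)
      rw [h2, Prod.smul_fst, Prod.smul_snd, smul_eq_mul, smul_eq_mul, hev_smul_arg, ← bev_eq_hev,
        ← bev_swap, hbev i, mul_zero]
    obtain ⟨i, j, hij, hpt⟩ := Finite.exists_ne_map_eq_of_infinite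
      (fun i : ℕ => (⟨pt (g i), hmem i⟩ : W))
    have hpt' : pt (g i) = pt (g j) := congrArg Subtype.val hpt
    rw [pt_eq_iff (hg0 i) (hg0 j)] at hpt'
    rcases lt_or_gt_of_ne hij with h | h
    · exact ⟨ρ * i, ρ * j, Nat.mul_lt_mul_of_pos_left h (by omega), hpt'⟩
    · rw [cr_comm, neg_eq_zero] at hpt'
      exact ⟨ρ * j, ρ * i, Nat.mul_lt_mul_of_pos_left h (by omega), hpt'⟩
  -- the number of points of the orbit
  set T : Finset (Option E) := (Finset.range (N + 1)).image fun i => pt (g i) with hT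
  have hfib : ∀ p ∈ T, ((Finset.range (N + 1)).filter fun i => pt (g i) = p).card ≤ m := by
    intro p hp
    obtain ⟨i₀, hi₀, rfl⟩ := Finset.mem_image.1 hp
    set I := (Finset.range (N + 1)).filter fun i => pt (g i) = pt (g i₀) with hI
    have hcard : (I.image fun i => pt (y i)).card = I.card := by
      rw [Finset.card_image_of_injOn]
      intro i hi j hj h
      have hi' := Finset.mem_range.1 (Finset.mem_filter.1 (Finset.mem_coe.1 hi)).1
      have hj' := Finset.mem_range.1 (Finset.mem_filter.1 (Finset.mem_coe.1 hj)).1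
      exact hyinj i (by omega) j (by omega) h
    rw [← hcard]
    have hne : pz (fun b a => q a b) n m (g i₀) ≠ 0 := by
      intro h
      obtain ⟨y0, y1, hyy⟩ := hq.right (g i₀).1 (g i₀).2 (by
        by_contra hcon
        push Not at hcon
        exact hg0 i₀ (Prod.ext hcon.1 hcon.2))
      apply hyy
      rw [bev_swap]
      have := bev_eq_hev (fun b a => q a b) n m (g i₀) (y0, y1)
      simp only at this
      rw [this, h, hev_zero_poly]
    refine card_zeros_form hne (pz_natDegree _ _ _ _) _ fun p hp => ?_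
    obtain ⟨i, hi, rfl⟩ := Finset.mem_image.1 hp
    refine ⟨y i, hy0 i, rfl, ?_⟩
    have hgi : pt (g i₀) = pt (g i) := (Finset.mem_filter.1 hi).2.symm
    rw [pt_eq_iff (hg0 i₀) (hg0 i), cr_comm, neg_eq_zero] at hgi
    obtain ⟨e, he, h1⟩ := exists_smul_of_cr (hg0 i) (hg0 i₀) hgi
    rw [← bev_eq_hev, ← bev_swap, h1]
    have h2 := bev_eq_hev q m n (y i) (e • g i)
    rw [h2, Prod.smul_fst, Prod.smul_snd, smul_eq_mul, smul_eq_mul, hev_smul_arg, hbz i, mul_zero]
  have hcard : N + 1 ≤ m * T.card := by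
    have := Finset.card_le_mul_card_image (f := fun i => pt (g i)) (Finset.range (N + 1)) m
      (fun p hp => hfib p hp)
    rwa [Finset.card_range] at this
  have hTB : T.card ≤ Bd := by
    refine hBd (pz q m n (y 0)) ζ (hpz0 0) (pz_natDegree q m n _) ?_ hζ ?_ hpp T ?_
    · intro j
      rw [pz_coeff]
      split_ifs with hj
      · refine sum_mem fun a ha => ?_
        have hyL : (y 0).1 ∈ adjoin k S₀ ∧ (y 0).2 ∈ adjoin k S₀ := by
          have h1 : y 0 = mat Mx vE := rfl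
          rw [h1]
          refine ⟨add_mem (mul_mem (hMS 0 0) ?_) (mul_mem (hMS 0 1) ?_),
            add_mem (mul_mem (hMS 1 0) ?_) (mul_mem (hMS 1 1) ?_)⟩ <;>
          exact IntermediateField.algebraMap_mem _ _
        exact mul_mem (mul_mem (hqS a (Finset.mem_range.1 ha) j hj) (pow_mem hyL.1 _))
          (pow_mem hyL.2 _)
      · exact zero_mem _
    · intro h2
      rw [hev_eq_eval _ n (pz_natDegree q m n _) _ _ h2] at hζz
      exact (mul_eq_zero.1 hζz).resolve_left (pow_ne_zero _ h2)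
    · intro p hp
      obtain ⟨i, -, rfl⟩ := Finset.mem_image.1 hp
      exact ⟨ρ * i, rfl⟩
  have := Nat.mul_le_mul_left m hTB
  omega

end Pool.Agent.Helper91.DT

end

section

set_option autoImplicit false

namespace Pool.Agent.Helper91.DT

open Polynomial IntermediateField Pool.Agent.Helper93.RatODE Pool.Agent.Helper45.FR
  Pool.Agent.Helper38.DT

/-- DT6 : a rational function in correspondence with a constant one is constant (up to
conjugation). -/
theorem dt6 {k E : Type} [Field k] [IsAlgClosed k] [Field E] [IsAlgClosed E] [Algebra k E]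
    (hE : Algebra.trdeg k E = 1) (F G : E[X]) (d : ℕ) (hd : 2 ≤ d) (hFG : IsRatD F G d)
    (A B : E[X]) (δ : ℕ) (hδ : 2 ≤ δ) (hAB : IsRatD A B δ) (hc : ConstConj k A B δ)
    (q : ℕ → ℕ → E) (m n ρ : ℕ) (hρ : 1 ≤ ρ)
    (hq : Corr q m n A B δ (iter F G d ρ).1 (iter F G d ρ).2 (d ^ ρ)) : ConstConj k F G d :=
  dt6_of (fun A B δ hδ hAB N => Pool.Agent.Helper35.DT.dt7 A B δ hδ hAB N)
    hE F G d hd hFG A B δ hδ hAB hc q m n ρ hρ hq

end Pool.Agent.Helper91.DT

end

section

set_option autoImplicit false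

set_option linter.style.haveILetI false

set_option linter.unusedSectionVars false

namespace Pool.Agent.Helper45.GW

open Polynomial IntermediateField Pool.Agent.Helper16 Pool.Agent.Helper33
  Pool.Agent.Helper33.PS Pool.Agent.Helper33.PT
  Pool.Agent.Helper45.FF Pool.Agent.Helper45.S4 Pool.Agent.Helper45.M8

section approx

variable {k L : Type} [Field k] [Field L] [Algebra k L]

/-- Approximation: a uniformizer at `v`, unit at finitely many other places. -/
theorem exists_unif_unit [IsAlgClosed k] (hL : IsFunctionField k L) (v : Place k L)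
    (U : Finset (Place k L)) (hU : v ∉ U) : ∃ y : L, v.ord y = 1 ∧ ∀ u ∈ U, u.ord y = 0 := by
  classical
  obtain ⟨f, hf, hfv⟩ := hL.exists_single_pole v
  have hf0 : f ≠ 0 := transcendental_ne_zero hf
  have hpole : 1 < v.val f := by
    obtain ⟨S, hS, hsum, hpos⟩ := hL.zeros f⁻¹ (transcendental_inv hf)
    have hne : S.Nonempty := by
      rw [Finset.nonempty_iff_ne_empty]
      rintro rfl
      rw [Finset.sum_empty] at hsum
      have : (Module.finrank k⟮f⁻¹⟯ L : ℤ) ≠ 0 := by exact_mod_cast hpos.ne'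
      exact this hsum.symm
    obtain ⟨u, hu⟩ := hne
    have h1 := (hS u).1 hu
    rw [map_inv₀] at h1
    have hf0' : u.val f ≠ 0 := by simpa using hf0
    have h2 := (inv_lt_one₀ (zero_lt_iff.2 hf0')).1 h1
    by_cases huw : u = v
    · rw [← huw]; exact h2
    · exact absurd (hfv u huw) (not_le.2 h2)
  have hres : ∀ u : Place k L, u ≠ v → ∃ c : k, u.val (f - algebraMap k L c) < 1 :=
    fun u hu => exists_res_val hL u f (hfv u hu)
  have hres' : ∀ u : Place k L, ∃ c : k, u ≠ v → u.val (f - algebraMap k L c) < 1 := by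
    intro u
    by_cases hu : u = v
    · exact ⟨0, fun h => absurd hu h⟩
    · obtain ⟨c, hc⟩ := hres u hu
      exact ⟨c, fun _ => hc⟩
  choose c hc using hres'
  have hUv : ∀ u ∈ U, u ≠ v := fun u hu h => hU (h ▸ hu)
  obtain ⟨z, hz⟩ : ∃ z, z = f * ∏ u ∈ U, (f - algebraMap k L (c u)) := ⟨_, rfl⟩
  have hfc : ∀ a : k, v.val (f - algebraMap k L a) = v.val f := fun a =>
    Valuation.map_sub_eq_of_lt_left _ (lt_of_le_of_lt (v.val_algebraMap_le a) hpole)
  have hzv : 1 < v.val z := by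
    rw [hz, map_mul, map_prod]
    have h1 : (1 : WithZero (Multiplicative ℤ)) ≤ ∏ u ∈ U, v.val (f - algebraMap k L (c u)) := by
      rw [Finset.prod_congr rfl fun u _ => hfc (c u), Finset.prod_const]
      exact one_le_pow₀ hpole.le
    calc (1 : WithZero (Multiplicative ℤ)) < v.val f := hpole
      _ = v.val f * 1 := (mul_one _).symm
      _ ≤ _ := mul_le_mul_right h1 _
  have hz0 : z ≠ 0 := by
    rintro rfl
    rw [map_zero] at hzv
    exact absurd hzv (not_lt.2 zero_le)
  have hzu : ∀ u ∈ U, u.val z < 1 := by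
    intro u hu
    rw [hz, map_mul, map_prod, ← Finset.mul_prod_erase U _ hu]
    have h1 : ∏ x ∈ U.erase u, u.val (f - algebraMap k L (c x)) ≤ 1 := by
      apply Finset.prod_le_one'
      intro x _
      exact (u.val.map_sub _ _).trans (max_le (hfv u (hUv u hu)) (u.val_algebraMap_le _))
    have h2 := hc u (hUv u hu)
    calc u.val f * (u.val (f - algebraMap k L (c u)) * ∏ x ∈ U.erase u, u.val (f - algebraMap k L (c x)))
        ≤ 1 * (u.val (f - algebraMap k L (c u)) * 1) :=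
          mul_le_mul' (hfv u (hUv u hu)) (mul_le_mul_right h1 _)
      _ = u.val (f - algebraMap k L (c u)) := by rw [one_mul, mul_one]
      _ < 1 := h2
  obtain ⟨π, hπ0, hπ⟩ := exists_ord_eq_one v
  obtain ⟨n, hn⟩ : ∃ n : ℕ, n = 2 + ∑ u ∈ U, (u.ord π).natAbs := ⟨_, rfl⟩
  have hn2 : 2 ≤ n := by omega
  have hnu : ∀ u ∈ U, (u.ord π).natAbs < n := by
    intro u hu
    have := Finset.single_le_sum (f := fun u : Place k L => (u.ord π).natAbs)
      (fun _ _ => Nat.zero_le _) hu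
    omega
  have hordz : v.ord z ≤ -1 := by
    have := (v.ord_neg_iff hz0).2 hzv
    omega
  have hpow : ∀ u : Place k L, u.ord (z ^ n) = n * u.ord z := by
    intro u
    rw [Place.ord, map_pow, WithZero.log_pow, Place.ord]
    simp
  have hzn0 : z ^ n ≠ 0 := pow_ne_zero _ hz0
  -- at `v`
  have hv1 : 1 < v.val (z ^ n) := by
    rw [← v.ord_neg_iff hzn0, hpow]
    (clear * - hn2 hordz; nlinarith)
  have hv2 : 1 < v.val (π * z ^ n) := by
    rw [← v.ord_neg_iff (mul_ne_zero hπ0 hzn0), v.ord_mul hπ0 hzn0, hpow, hπ]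
    (clear * - hn2 hordz; nlinarith)
  have hv3 : v.val (1 + z ^ n) = v.val (z ^ n) := by
    rw [← v.val.map_one] at hv1
    exact Valuation.map_add_eq_of_lt_right _ hv1
  have hv4 : v.val (1 + π * z ^ n) = v.val (π * z ^ n) := by
    rw [← v.val.map_one] at hv2
    exact Valuation.map_add_eq_of_lt_right _ hv2
  have hA0 : 1 + z ^ n ≠ 0 := by
    intro h
    rw [h, map_zero] at hv3
    rw [← hv3] at hv1
    exact absurd hv1 (not_lt.2 zero_le)
  have hB0 : 1 + π * z ^ n ≠ 0 := by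
    intro h
    rw [h, map_zero] at hv4
    rw [← hv4] at hv2
    exact absurd hv2 (not_lt.2 zero_le)
  have hdiv : ∀ u : Place k L, u.ord ((1 + π * z ^ n) / (1 + z ^ n)) =
      u.ord (1 + π * z ^ n) - u.ord (1 + z ^ n) := by
    intro u
    rw [div_eq_mul_inv, u.ord_mul hB0 (inv_ne_zero hA0), u.ord_inv]; ring
  refine ⟨(1 + π * z ^ n) / (1 + z ^ n), ?_, ?_⟩
  · rw [hdiv, Place.ord, Place.ord, hv3, hv4, ← Place.ord, ← Place.ord, v.ord_mul hπ0 hzn0, hπ]
    ring
  · intro u hu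
    have h0 : u.val (z ^ n) < 1 := by
      rw [map_pow]
      exact pow_lt_one₀ zero_le (hzu u hu) (by omega)
    have h1 : u.val (1 + z ^ n) = 1 := by
      rw [Valuation.map_add_eq_of_lt_left _ (by rw [map_one]; exact h0), map_one]
    have h2 : u.val (π * z ^ n) < 1 := by
      rw [← u.ord_pos_iff (mul_ne_zero hπ0 hzn0), u.ord_mul hπ0 hzn0, hpow]
      have h3 := (u.ord_pos_iff hz0).2 (hzu u hu)
      have h4 := hnu u hu
      have h5 : (n : ℤ) ≤ n * u.ord z := by (clear * - h3; nlinarith)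
      omega
    have h3 : u.val (1 + π * z ^ n) = 1 := by
      rw [Valuation.map_add_eq_of_lt_left _ (by rw [map_one]; exact h2), map_one]
    rw [hdiv, (u.ord_eq_zero_iff hB0).2 h3, (u.ord_eq_zero_iff hA0).2 h1, sub_zero]

end approx

end Pool.Agent.Helper45.GW

end

section

set_option autoImplicit false

open Finset Polynomial

namespace Pool.Agent.Helper33.PT

open Pool.Agent.Helper45.FR Pool.Agent.Helper33.UB Pool.Agent.Helper51.RatTree
  Pool.Agent.Helper93.RatODE Pool.Agent.Helper33.PS Pool.Agent.Helper55.RD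

/-- T-PAIR: the wild ramification is small compared with the total badness -/
theorem pair_bound (d n : ℕ) (hd : 2 ≤ d) (κ : ℝ) (hκ : 0 < κ) : ∃ m N₀ : ℕ,
    ∀ {k K E V W : Type} [Field k] [Field K] [Field E] [Algebra k K] [Algebra k E] [Algebra K E]
    [IsScalarTower k K E] (P : PSys k K V) (Q : PSys k E W)
    (_ : ∀ v, ∀ c : k, c ≠ 0 → (P.pl v).o (algebraMap k K c) = 0)
    (gs : GalW P Q n) (F G : K[X]) (_ : IsRat F G d)
    (x : ℕ → K) (N : ℕ) (_ : N₀ ≤ N) (h : RatOrbit F G x N) (T : Finset V) (_ : RAdm P F G d (rX h) T)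
    (rl : ∀ v, RLoc (P.pl v) F G d (rX h) (ratH (P.pl v) d F G))
    (σ : E ≃ₐ[k] E) (_ : σ ∈ gs.G) (a w : ℕ) (_ : a + w ≤ N)
    (_ : ∀ p : Polynomial (Polynomial E), p ≠ 0 → p.natDegree < m → (∀ i, (p.coeff i).natDegree < m) →
      ∃ j, a ≤ j ∧ j ≤ a + w ∧
        (p.eval (C (σ (algebraMap K E (x j))))).eval (algebraMap K E (x j)) ≠ 0)
    (S : Finset W) (_ : ∀ w ∈ S, gs.act σ w = w),
    (∑ w ∈ S, gs.wild σ w : ℝ) ≤ κ * ∑ v ∈ T, ((rl v).ε : ℝ) := by
  classical
  have hc := c₀_pos hd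
  set Cst : ℝ := 2 * n * (Pool.Agent.Helper55.RD.N₀ d : ℝ) ^ 2 / c₀ d with hCst
  obtain ⟨kp, hkp1, hkp⟩ := exists_kp d hd (144 * (d - 1) * Cst) κ hκ
  set R : ℕ := d ^ kp with hR
  have hR1 : 1 ≤ R := Nat.one_le_pow _ _ (by omega)
  refine ⟨2 * R, max (3 * R) (max (Pool.Agent.Helper55.RD.N₀ d) 2), ?_⟩
  intro k K E V W _ _ _ _ _ _ _ P Q hconst gs F G hFG x N hN h T hT rl σ hσ a len haN hrel S hS
  have hN1 : 3 * R ≤ N := (le_max_left _ _).trans hN
  have hN2 : Pool.Agent.Helper55.RD.N₀ d ≤ N :=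
    (le_max_left _ _).trans ((le_max_right _ _).trans hN)
  have hN3 : 2 ≤ N := (le_max_right _ _).trans ((le_max_right _ _).trans hN)
  have hres : resultant F G d d ≠ 0 := resultant_ne_zero_of_isRat (by omega) hFG
  -- the two embeddings
  set θ₁ : K →+* E := algebraMap K E with hθ₁
  set θ₂ : K →+* E := (σ : E →+* E).comp (algebraMap K E) with hθ₂
  set x₁ : ℕ → E := fun j => θ₁ (x j) with hx₁
  set x₂ : ℕ → E := fun j => θ₂ (x j) with hx₂
  have h₁ : RatOrbit (F.map θ₁) (G.map θ₁) x₁ N := ratOrbit_map θ₁ h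
  have h₂ : RatOrbit (F.map θ₂) (G.map θ₂) x₂ N := ratOrbit_map θ₂ h
  have hF₁ : IsRat (F.map θ₁) (G.map θ₁) d := hFG.map θ₁
  have hF₂ : IsRat (F.map θ₂) (G.map θ₂) d := hFG.map θ₂
  have hres₁ : resultant (F.map θ₁) (G.map θ₁) d d ≠ 0 :=
    resultant_ne_zero_of_isRat (by omega) hF₁
  have hres₂ : resultant (F.map θ₂) (G.map θ₂) d d ≠ 0 :=
    resultant_ne_zero_of_isRat (by omega) hF₂
  have o₁ : ∀ w y, y ≠ 0 → (Q.pl w).o (θ₁ y) = gs.ram (id w) * (P.pl (gs.res (id w))).o y :=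
    fun w y hy => gs.ram_spec w y hy
  have o₂ : ∀ w y, y ≠ 0 → (Q.pl w).o (θ₂ y) =
      gs.ram ((gs.act σ).symm w) * (P.pl (gs.res ((gs.act σ).symm w))).o y := by
    intro w y hy
    have e1 := gs.act_spec σ hσ ((gs.act σ).symm w) (algebraMap K E y)
    rw [Equiv.apply_symm_apply] at e1
    rw [← gs.ram_spec _ y hy, ← e1]
    rfl
  set rl₁ : ∀ w, RLoc (Q.pl w) (F.map θ₁) (G.map θ₁) d (rX h₁)
    (ratH (Q.pl w) d (F.map θ₁) (G.map θ₁)) := fun w => rloc hd (Q.pl w) hF₁.dA hF₁.dB hres₁ h₁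
  set rl₂ : ∀ w, RLoc (Q.pl w) (F.map θ₂) (G.map θ₂) d (rX h₂)
    (ratH (Q.pl w) d (F.map θ₂) (G.map θ₂)) := fun w => rloc hd (Q.pl w) hF₂.dA hF₂.dB hres₂ h₂
  have hE₁ := fun U : Finset W => sum_eps_le gs hd hres h hN2 hT rl θ₁ id Function.injective_id o₁
    h₁ rl₁ U
  have hE₂ := fun U : Finset W => sum_eps_le gs hd hres h hN2 hT rl θ₂ (gs.act σ).symm
    (gs.act σ).symm.injective o₂ h₂ rl₂ U
  -- the minor
  obtain ⟨i, hi, hdet⟩ := exists_minor (2 * R) (Icc a (a + len)) x₁ x₂ (by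
    intro p hp h1 h2
    obtain ⟨j, hj1, hj2, hj3⟩ := hrel p hp h1 h2
    exact ⟨j, mem_Icc.2 ⟨hj1, hj2⟩, hj3⟩)
  set D := (PM (2 * R) (x₁ ∘ i) (x₂ ∘ i)).det with hD
  set X := range (N + 1) with hX
  have hiX : ∀ b, i b ∈ X := by
    intro b
    have := mem_Icc.1 (hi b)
    rw [hX, mem_range]; omega
  have hX1 : Set.InjOn x₁ (X : Set ℕ) := fun i hi j hj hij =>
    h₁.inj i j (by have := mem_range.1 hi; omega) (by have := mem_range.1 hj; omega) hij
  have hX2 : Set.InjOn x₂ (X : Set ℕ) := fun i hi j hj hij =>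
    h₂.inj i j (by have := mem_range.1 hi; omega) (by have := mem_range.1 hj; omega) hij
  -- finite sets of places
  obtain ⟨T₁, hT₁⟩ := exists_radm Q hres₁ (rX h₁) fun y hy => (rX_spec h₁ y hy).1
  obtain ⟨T₂, hT₂⟩ := exists_radm Q hres₂ (rX h₂) fun y hy => (rX_spec h₂ y hy).1
  set T₃ := (Q.ord_finite D hdet).toFinset with hT₃
  set U := T₁ ∪ T₂ ∪ T₃ ∪ S with hU
  have hSU : S ⊆ U := subset_union_right
  have hnot : ∀ w, w ∉ U → w ∉ T₁ ∧ w ∉ T₂ ∧ w ∉ T₃ := by
    intro w hw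
    rw [hU] at hw
    simp only [mem_union, not_or] at hw
    exact ⟨hw.1.1.1, hw.1.1.2, hw.1.2⟩
  set H₁ : W → ℕ → ℝ := fun w j => ratH (Q.pl w) d (F.map θ₁) (G.map θ₁) (x₁ j) with hH₁
  set H₂ : W → ℕ → ℝ := fun w j => ratH (Q.pl w) d (F.map θ₂) (G.map θ₂) (x₂ j) with hH₂
  set q₁ : W → ℝ := fun w => ((Q.pl w).o (resultant (F.map θ₁) (G.map θ₁) d d) : ℝ) /
    (d * (d - 1)) with hq₁
  set q₂ : W → ℝ := fun w => ((Q.pl w).o (resultant (F.map θ₂) (G.map θ₂) d d) : ℝ) /
    (d * (d - 1)) with hq₂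
  set e₁ : W → ℝ := fun w => -(18 * (d - 1) * kp * (d : ℝ) ^ kp * (rl₁ w).ε) with he₁
  set e₂ : W → ℝ := fun w => -(18 * (d - 1) * kp * (d : ℝ) ^ kp * (rl₂ w).ε) with he₂
  have hd1 : (0 : ℝ) ≤ d - 1 := by
    have : (2 : ℝ) ≤ d := by exact_mod_cast hd
    (clear * - this; linarith)
  have he₁0 : ∀ w, e₁ w ≤ 0 := by
    intro w
    simp only [he₁]
    rw [neg_nonpos]
    (clear * - hd1 hkp1; positivity)
  have he₂0 : ∀ w, e₂ w ≤ 0 := by
    intro w
    simp only [he₂]
    rw [neg_nonpos]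
    (clear * - hd1 hkp1; positivity)
  have hE1 : ∀ w, ∀ B ⊆ X, B.card = 2 * R → 2 * e₁ w ≤ En (Q.pl w) x₁ (H₁ w) (q₁ w) B :=
    fun w B hB hc => energy_ge d hd (Q.pl w) hF₁ h₁ hN3 (rl₁ w) kp hkp1 B hB hc
  have hE2 : ∀ w, ∀ B ⊆ X, B.card = 2 * R → 2 * e₂ w ≤ En (Q.pl w) x₂ (H₂ w) (q₂ w) B :=
    fun w B hB hc => energy_ge d hd (Q.pl w) hF₂ h₂ hN3 (rl₂ w) kp hkp1 B hB hc
  have hXc : 3 * R ≤ X.card := by rw [hX, card_range]; omega
  -- the local quantity
  set Φ : W → ℝ := fun w => ((Q.pl w).o D : ℝ) -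
    ((2 * R : ℕ) - 1) * ∑ b, (H₁ w (i b) + H₂ w (i b)) +
      (q₁ w + q₂ w) * ((2 * R : ℕ) - 1) * ((2 * R : ℕ) : ℝ) ^ 2 / 2 with hΦ
  have hloc1 : ∀ w, ((2 * R : ℕ) : ℝ) * (e₁ w + e₂ w) ≤ Φ w := by
    intro w
    exact Pool.Agent.Helper11.PT.det_base (Q.pl w) (2 * R) (by omega) X (by omega) x₁ x₂ hX1 hX2 (H₁ w) (H₂ w) (q₁ w)
      (q₂ w) (e₁ w) (e₂ w) (hE1 w) (hE2 w) i hiX hdet
  have hloc2 : ∀ w ∈ S, 2 * (2 * R) * e₁ w + (R : ℝ) ^ 3 * gs.wild σ w ≤ Φ w := by
    intro w hw
    have hfix := hS w hw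
    have hsymm : (gs.act σ).symm w = w := by
      rw [Equiv.symm_apply_eq]; exact hfix.symm
    have o₂' : ∀ y, y ≠ 0 → (Q.pl w).o (θ₂ y) = gs.ram w * (P.pl (gs.res w)).o y := by
      intro y hy
      have := o₂ w y hy
      rwa [hsymm] at this
    have o₁' : ∀ y, y ≠ 0 → (Q.pl w).o (θ₁ y) = gs.ram w * (P.pl (gs.res w)).o y := o₁ w
    have hHH : ∀ j, H₂ w j = H₁ w j := by
      intro j
      simp only [hH₁, hH₂]
      rw [ratH_map θ₂ o₂' h (mem_rX h j), ratH_map θ₁ o₁' h (mem_rX h j)]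
    have hqq : q₂ w = q₁ w := by
      simp only [hq₁, hq₂]
      rw [resultant_map_map, resultant_map_map, o₂' _ hres, o₁' _ hres]
    have hne : ∀ i ∈ X, ∀ j ∈ X, i ≠ j → x i - x j ≠ 0 := by
      intro i hi j hj hij
      exact sub_ne_zero.2 fun e => hij (h.inj i j (by have := mem_range.1 hi; omega)
        (by have := mem_range.1 hj; omega) e)
    have hsub₁ : ∀ i j, x₁ i - x₁ j = θ₁ (x i - x j) := fun i j => (map_sub _ _ _).symm
    have hsub₂ : ∀ i j, x₂ i - x₂ j = θ₂ (x i - x j) := fun i j => (map_sub _ _ _).symm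
    have hquo : ∀ i ∈ X, ∀ j ∈ X, i ≠ j →
        (Q.pl w).ge (gs.wild σ w : ℕ) ((x₂ i - x₂ j) / (x₁ i - x₁ j) - 1) := by
      intro i hi j hj hij
      rw [hsub₁, hsub₂]
      rcases Nat.eq_zero_or_pos (gs.wild σ w) with h0 | h0
      · rw [h0]
        have h1 : θ₂ (x i - x j) ≠ 0 := by rw [Ne, map_eq_zero]; exact hne i hi j hj hij
        have h2 : θ₁ (x i - x j) ≠ 0 := by rw [Ne, map_eq_zero]; exact hne i hi j hj hij
        apply DV.ge_sub
        · right
          rw [DV.o_div _ _ _ h1 h2, o₂' _ (hne i hi j hj hij), o₁' _ (hne i hi j hj hij)]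
          simp
        · rw [Nat.cast_zero]
          exact DV.ge_one
      · exact gs.wild_spec σ hσ w hfix h0 _ (hne i hi j hj hij)
    have h1 := Pool.Agent.Helper55.LWI.lemmaW (Q.pl w) R hR1 X hXc x₁ x₂ hX1 hX2 (H₁ w) (q₁ w) (e₁ w) (gs.wild σ w)
      (fun i hi j hj hij => by
        rw [hsub₁, hsub₂, o₂' _ (hne i hi j hj hij), o₁' _ (hne i hi j hj hij)])
      (fun i hi j hj l hl hij hil _ => by
        have e : (x₂ i - x₂ j) / (x₁ i - x₁ j) - (x₂ i - x₂ l) / (x₁ i - x₁ l) =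
            ((x₂ i - x₂ j) / (x₁ i - x₁ j) - 1) - ((x₂ i - x₂ l) / (x₁ i - x₁ l) - 1) := by ring
        rw [e]
        exact DV.ge_sub (hquo i hi j hj hij) (hquo i hi l hl hil))
      (fun B hB hc => hE1 w B hB hc) i hiX hdet
    refine h1.trans (le_of_eq ?_)
    simp only [hΦ, hHH, hqq]
    rw [← hD]
    have e2 : ∑ b, (H₁ w (i b) + H₁ w (i b)) = 2 * ∑ b, H₁ w (i b) := by
      rw [mul_sum]
      exact sum_congr rfl fun b _ => by ring
    rw [e2]
    push_cast
    ring
  -- the sum over all places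
  have hsum : ∑ w ∈ U, Φ w = 0 := by
    have hX1' := fun z hz => (rX_spec h₁ z hz).2
    have hG1' := fun z hz => (rX_spec h₁ z hz).1
    have hX2' := fun z hz => (rX_spec h₂ z hz).2
    have hG2' := fun z hz => (rX_spec h₂ z hz).1
    have s1 : ∑ w ∈ U, ((Q.pl w).o D : ℝ) = 0 := by
      have := Q.sum_eq_zero U D hdet (by
        intro w hw
        have := (hnot w hw).2.2
        rw [hT₃, Set.Finite.mem_toFinset] at this
        by_contra h0
        exact this h0)
      exact_mod_cast this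
    have s2 : ∀ j, ∑ w ∈ U, H₁ w j = 0 := fun j =>
      sum_ratH Q hd hX1' hG1' U (fun w hw y hy => hT₁.G0 w (hnot w hw).1 y hy) (mem_rX h₁ j)
    have s3 : ∀ j, ∑ w ∈ U, H₂ w j = 0 := fun j =>
      sum_ratH Q hd hX2' hG2' U (fun w hw y hy => hT₂.G0 w (hnot w hw).2.1 y hy) (mem_rX h₂ j)
    have s4 : ∑ w ∈ U, q₁ w = 0 := by
      simp only [hq₁]
      rw [← sum_div]
      have := Q.sum_eq_zero U _ hres₁ (fun w hw => hT₁.res w (hnot w hw).1)
      have h2 : ∑ w ∈ U, ((Q.pl w).o (resultant (F.map θ₁) (G.map θ₁) d d) : ℝ) = 0 := by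
        exact_mod_cast this
      rw [h2, zero_div]
    have s5 : ∑ w ∈ U, q₂ w = 0 := by
      simp only [hq₂]
      rw [← sum_div]
      have := Q.sum_eq_zero U _ hres₂ (fun w hw => hT₂.res w (hnot w hw).2.1)
      have h2 : ∑ w ∈ U, ((Q.pl w).o (resultant (F.map θ₂) (G.map θ₂) d d) : ℝ) = 0 := by
        exact_mod_cast this
      rw [h2, zero_div]
    have s6 : ∑ w ∈ U, ∑ b, (H₁ w (i b) + H₂ w (i b)) = 0 := by
      rw [sum_comm]
      apply sum_eq_zero
      intro b _
      rw [sum_add_distrib, s2, s3, add_zero]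
    simp only [hΦ]
    rw [sum_add_distrib, sum_sub_distrib, s1, ← mul_sum, s6, ← sum_div, ← sum_mul, ← sum_mul,
      sum_add_distrib, s4, s5]
    simp
  -- conclusion
  have hall : ∀ w ∈ U, 2 * ((2 * R : ℕ) : ℝ) * (e₁ w + e₂ w) +
      (if w ∈ S then (R : ℝ) ^ 3 * gs.wild σ w else 0) ≤ Φ w := by
    intro w _
    have hRR : (0 : ℝ) ≤ ((2 * R : ℕ) : ℝ) := Nat.cast_nonneg _
    have n1 := mul_nonpos_of_nonneg_of_nonpos hRR (he₁0 w)
    have n2 := mul_nonpos_of_nonneg_of_nonpos hRR (he₂0 w)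
    split_ifs with hw
    · have h1 := hloc2 w hw
      push_cast at h1 n1 n2 ⊢
      (clear * - h1 n2; linarith)
    · have h1 := hloc1 w
      (clear * - n1 n2 h1; linarith)
  have htot := sum_le_sum hall
  rw [hsum, sum_add_distrib, ← sum_filter, ← mul_sum] at htot
  have hfil : U.filter (fun w => w ∈ S) = S := by
    ext w
    rw [mem_filter]
    exact ⟨fun h => h.2, fun h => ⟨hSU h, h⟩⟩
  rw [hfil, ← mul_sum, sum_add_distrib] at htot
  have se₁ : ∑ w ∈ U, e₁ w = -(18 * (d - 1) * kp * (d : ℝ) ^ kp * ∑ w ∈ U, ((rl₁ w).ε : ℝ)) := by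
    rw [mul_sum, ← sum_neg_distrib]
  have se₂ : ∑ w ∈ U, e₂ w = -(18 * (d - 1) * kp * (d : ℝ) ^ kp * ∑ w ∈ U, ((rl₂ w).ε : ℝ)) := by
    rw [mul_sum, ← sum_neg_distrib]
  rw [se₁, se₂] at htot
  set hK := ∑ v ∈ T, ((rl v).ε : ℝ) with hhK
  have b1 : ∑ w ∈ U, ((rl₁ w).ε : ℝ) ≤ Cst * hK := hE₁ U
  have b2 : ∑ w ∈ U, ((rl₂ w).ε : ℝ) ≤ Cst * hK := hE₂ U
  have hRr : (R : ℝ) = (d : ℝ) ^ kp := by rw [hR]; push_cast; rfl
  have hRpos : (0 : ℝ) < R := by exact_mod_cast hR1
  have hhK0 : 0 ≤ hK := sum_nonneg fun v _ => Nat.cast_nonneg _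
  rw [← hRr] at htot hkp
  have hcoef : 0 ≤ 18 * ((d : ℝ) - 1) * kp * R := by (clear * - hd1 hkp1 hd; positivity)
  have c1 := mul_le_mul_of_nonneg_left b1 hcoef
  have c2 := mul_le_mul_of_nonneg_left b2 hcoef
  have c3 : (R : ℝ) ^ 3 * ∑ w ∈ S, (gs.wild σ w : ℝ) ≤
      2 * ((2 * R : ℕ) : ℝ) * (2 * (18 * ((d : ℝ) - 1) * kp * R * (Cst * hK))) := by
    have : (0 : ℝ) ≤ 2 * ((2 * R : ℕ) : ℝ) := by positivity
    (clear * - htot c1 c2 this; nlinarith [mul_le_mul_of_nonneg_left (add_le_add c1 c2) this])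
  have c4 : 2 * ((2 * R : ℕ) : ℝ) * (2 * (18 * ((d : ℝ) - 1) * kp * R * (Cst * hK))) =
      (R : ℝ) ^ 3 * ((144 * (d - 1) * Cst * (kp / R)) * hK) := by
    push_cast
    field_simp
    ring
  rw [c4] at c3
  have c5 := le_of_mul_le_mul_left c3 (by positivity : (0 : ℝ) < (R : ℝ) ^ 3)
  exact c5.trans (mul_le_mul_of_nonneg_right hkp hhK0)

end Pool.Agent.Helper33.PT

end
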