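import Pool.Agent.Helper23.MB.L02_ab0
import Pool.Agent.Helper23.MB.L02_ab1
import Pool.Agent.Helper23.MB.L02_ab6

/-!
Parts of Helper33.PT.Abs, Helper45.S4Der, Helper31.RRK.Tower, Helper47.EN.Ext, Helper45.M8Gal, Helper36.PT.Norm, Helper33.PT.Mods, Helper33.PT.Core1, Helper33.PT.Core2
-/

attribute [-simp] Valuation.IsUniformizer.val
attribute [local instance 5000]
  Pool.Agent.Helper23.MB.Inst.rCharZero Pool.Agent.Helper23.MB.Inst.rALM
  Pool.Agent.Helper23.MB.Inst.rARM Pool.Agent.Helper23.MB.Inst.rALSM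
  Pool.Agent.Helper23.MB.Inst.rARSM Pool.Agent.Helper23.MB.Inst.rARRLE
  Pool.Agent.Helper23.MB.Inst.rALRLE Pool.Agent.Helper23.MB.Inst.rARRLT
  Pool.Agent.Helper23.MB.Inst.rALRLT Pool.Agent.Helper23.MB.Inst.rPMRLT
  Pool.Agent.Helper23.MB.Inst.rMPRLT Pool.Agent.Helper23.MB.Inst.rPMM
  Pool.Agent.Helper23.MB.Inst.rMPM Pool.Agent.Helper23.MB.Inst.rPMSM
  Pool.Agent.Helper23.MB.Inst.rMPSM Pool.Agent.Helper23.MB.Inst.rEAOL
  Pool.Agent.Helper23.MB.Inst.rIOR Pool.Agent.Helper23.MB.Inst.rISOR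
  Pool.Agent.Helper23.MB.Inst.rNZD Pool.Agent.Helper23.MB.Inst.zCharZero
  Pool.Agent.Helper23.MB.Inst.zALM Pool.Agent.Helper23.MB.Inst.zARM
  Pool.Agent.Helper23.MB.Inst.zIOR Pool.Agent.Helper23.MB.Inst.zISOR
  Pool.Agent.Helper23.MB.Inst.zNZD Pool.Agent.Helper23.MB.Inst.qCharZero
  Pool.Agent.Helper23.MB.Inst.free Pool.Agent.Helper23.MB.Inst.faith
  Pool.Agent.Helper23.MB.Inst.torsionFree Pool.Agent.Helper23.MB.Inst.rfFaith
  Pool.Agent.Helper23.MB.Inst.hAdd Pool.Agent.Helper23.MB.Inst.hAddM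
  Pool.Agent.Helper23.MB.Inst.hMul Pool.Agent.Helper23.MB.Inst.hMon
  Pool.Agent.Helper23.MB.Inst.hZero Pool.Agent.Helper23.MB.Inst.hOne
  Pool.Agent.Helper23.MB.Inst.hMZ Pool.Agent.Helper23.MB.Inst.hRing
  Pool.Agent.Helper23.MB.Inst.aAdd Pool.Agent.Helper23.MB.Inst.aAddM
  Pool.Agent.Helper23.MB.Inst.aMul Pool.Agent.Helper23.MB.Inst.aMon
  Pool.Agent.Helper23.MB.Inst.aZero Pool.Agent.Helper23.MB.Inst.aOne
  Pool.Agent.Helper23.MB.Inst.aMZ Pool.Agent.Helper23.MB.Inst.aRing

namespace Pool.Agent.Helper16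
end Pool.Agent.Helper16
namespace Pool.Agent.Helper33
end Pool.Agent.Helper33
namespace Pool.Agent.Helper33.PS
end Pool.Agent.Helper33.PS
namespace Pool.Agent.Helper33.UB
end Pool.Agent.Helper33.UB
namespace Pool.Agent.Helper35.PS
end Pool.Agent.Helper35.PS
namespace Pool.Agent.Helper45.FF
end Pool.Agent.Helper45.FF
namespace Pool.Agent.Helper45.FR
end Pool.Agent.Helper45.FR
namespace Pool.Agent.Helper45.S4
end Pool.Agent.Helper45.S4
namespace Pool.Agent.Helper47.RR
end Pool.Agent.Helper47.RR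
namespace Pool.Agent.Helper51.RatTree
end Pool.Agent.Helper51.RatTree
namespace Pool.Agent.Helper55.RD
end Pool.Agent.Helper55.RD
namespace Pool.Agent.Helper93.RatODE
end Pool.Agent.Helper93.RatODE

section

set_option autoImplicit false

open Polynomial

namespace Pool.Agent.Helper33.PT

open Pool.Agent.Helper45.FR Pool.Agent.Helper33.PS

/-- **The abstract statement of Plan T** (characteristic `p`). `wm m` is the length of a window on
which no relation of bidegree `< m` between `z_j` and `σ z_j` is possible. -/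
def PlanTAbs (p d n : ℕ) (wm : ℕ → ℕ) : Prop :=
  ∃ N : ℕ, ∀ (k K E V W : Type) [Field k] [IsAlgClosed k] [CharP k p] [Field K] [Field E]
    [Algebra k K] [Algebra k E] [Algebra K E] [IsScalarTower k K E] (P : PSys k K V)
    (Q : PSys k E W), (∀ v, ResK k (P.pl v)) → (∀ w, ResK k (Q.pl w)) →
    (∀ v, ∃ y : K, y ≠ 0 ∧ (P.pl v).o y = 1) →
    (∀ y, P.D y = 0 → ∃ z : K, z ^ p = y) →
    ∀ gs : GalW P Q n, ∀ F G : K[X], IsRat F G d → ∀ x : ℕ → K, RatOrbit F G x N →
    (∃ i ≤ 2 * d + 1, ∀ c : K, c ^ p ≠ Pool.Agent.Helper33.PS.cr (x 0) (x 2) (x 1) (x i)) →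
    (∀ (F' G' : K[X]) (z : ℕ → K) (m : ℕ), IsRat F' G' d → RatOrbit F' G' z (wm m) →
      (ConstConj k F' G' d → ConstConj k F G d) →
      ∀ σ ∈ gs.G, (∃ y : K, σ (algebraMap K E y) ≠ algebraMap K E y) →
      ∀ q : Polynomial (Polynomial E), q ≠ 0 → q.natDegree < m → (∀ i, (q.coeff i).natDegree < m) →
      ∃ j ≤ wm m, (q.eval (C (σ (algebraMap K E (z j))))).eval (algebraMap K E (z j)) ≠ 0) →
    ConstConj k F G d

end Pool.Agent.Helper33.PT

end

section

set_option autoImplicit false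

set_option linter.style.haveILetI false

namespace Pool.Agent.Helper45.S4

open Polynomial IntermediateField Pool.Agent.Helper16 Pool.Agent.Helper33 Pool.Agent.Helper45.FF

variable {k L : Type} [Field k] [Field L] [Algebra k L]

theorem exists_res [IsAlgClosed k] (hN : IsFunctionField k L) (v : Place k L) (x : L)
    (hx : 0 ≤ v.ord x) : ∃ c : k, x = algebraMap k L c ∨ 1 ≤ v.ord (x - algebraMap k L c) := by
  by_cases hx0 : x = 0
  · exact ⟨0, Or.inl (by rw [hx0, map_zero])⟩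
  · obtain ⟨c, hc⟩ := exists_res_val hN v x ((v.ord_nonneg_iff hx0).1 hx)
    refine ⟨c, ?_⟩
    by_cases h : x = algebraMap k L c
    · exact Or.inl h
    · right
      exact (v.ord_pos_iff (sub_ne_zero.2 h)).2 hc

end Pool.Agent.Helper45.S4

end

section

set_option autoImplicit false

set_option linter.style.haveILetI false

namespace Pool.Agent.Helper31.RRK

open Polynomial IntermediateField Pool.Agent.Helper16 Pool.Agent.Helper33 Pool.Agent.Helper45.FF

open Pool.Agent.Helper45.S4 Pool.Agent.Helper47.RR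

section cdeg

variable {k L : Type} [Field k] [Field L] [Algebra k L]

theorem prin_apply (hN : IsFunctionField k L) (f : L) (v : Place k L) : prin hN f v = v.ord f :=
  rfl

theorem degD_prin' [IsAlgClosed k] (hN : IsFunctionField k L) (f : L) :
    degD (prin hN f) = 0 := by
  obtain ⟨S, h1, h2⟩ := hN.product_formula f
  simp only [deg_eq_one hN, Nat.cast_one, mul_one] at h2
  rw [degD_eq_sum _ S]
  · exact h2
  · intro v hv
    rw [Finsupp.mem_support_iff, prin_apply] at hv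
    exact (h1 v).2 hv

end cdeg

end Pool.Agent.Helper31.RRK

end

section

set_option autoImplicit false

set_option linter.style.haveILetI false

namespace Pool.Agent.Helper47.EN

open Pool.Agent.Helper16 Pool.Agent.Helper45.S4 Pool.Agent.Helper47.RR IntermediateField

open Pool.Agent.Helper45.FF

variable {k L M : Type} [Field k] [Field L] [Field M] [Algebra k L] [Algebra k M]

theorem ncard_zeros_le [IsAlgClosed k] (hM : IsFunctionField k M) (z : M)
    (hz : Transcendental k z) :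
    {w : Place k M | w.val z < 1}.ncard ≤ Module.finrank k⟮z⟯ M := by
  obtain ⟨S, hS, hsum, hpos⟩ := hM.zeros z hz
  have hz0 : z ≠ 0 := transcendental_ne_zero hz
  have h1 : {w : Place k M | w.val z < 1} = (S : Set (Place k M)) := by
    ext w
    rw [Finset.mem_coe, hS]
    rfl
  rw [h1, Set.ncard_coe_finset]
  have h2 : (S.card : ℤ) ≤ ∑ v ∈ S, v.ord z * (v.deg : ℤ) := by
    rw [Finset.card_eq_sum_ones, Nat.cast_sum]
    apply Finset.sum_le_sum
    intro v hv
    rw [deg_eq_one hM v, Nat.cast_one, mul_one]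
    exact (v.ord_pos_iff hz0).2 ((hS v).1 hv)
  rw [hsum] at h2
  exact_mod_cast h2

theorem ncard_poles_le [IsAlgClosed k] (hM : IsFunctionField k M) (z : M)
    (hz : Transcendental k z) :
    {w : Place k M | ¬ w.val z ≤ 1}.ncard ≤ Module.finrank k⟮z⟯ M := by
  have h1 := ncard_zeros_le hM z⁻¹ (transcendental_inv hz)
  rw [finrank_inv] at h1
  have hz0 : z ≠ 0 := transcendental_ne_zero hz
  have h2 : {w : Place k M | ¬ w.val z ≤ 1} = {w : Place k M | w.val z⁻¹ < 1} := by
    ext w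
    change ¬ w.val z ≤ 1 ↔ w.val z⁻¹ < 1
    rw [map_inv₀, inv_lt_one₀ (zero_lt_iff.2 (by simpa using hz0)), not_le]
  rw [h2]
  exact h1

end Pool.Agent.Helper47.EN

end

section

set_option autoImplicit false

set_option linter.style.haveILetI false

namespace Pool.Agent.Helper45.M8

open Polynomial IntermediateField Pool.Agent.Helper16 Pool.Agent.Helper33 Pool.Agent.Helper33.PS
  Pool.Agent.Helper45.FF Pool.Agent.Helper45.S4

variable {k L : Type} [Field k] [Field L] [Algebra k L]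

theorem resK_plDV [IsAlgClosed k] (hL : IsFunctionField k L) (v : Place k L) :
    ResK k (plDV v) where
  const := fun c _ => v.ord_algebraMap c
  res := fun x hx => by
    rcases hx with rfl | hx
    · exact ⟨0, Or.inl (by simp)⟩
    · obtain ⟨c, hc⟩ := exists_res hL v x (by exact_mod_cast hx)
      refine ⟨c, ?_⟩
      rcases hc with hc | hc
      · left; rw [← hc, sub_self]
      · right; exact_mod_cast hc

theorem ord_sub_le [IsAlgClosed k] (hL : IsFunctionField k L) (t : L) (ht : Transcendental k t)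
    (v : Place k L) (c : k) : v.ord (t - algebraMap k L c) ≤ Module.finrank k⟮t⟯ L := by
  set s := t - algebraMap k L c with hs
  have hst : Transcendental k s := by
    intro h
    apply ht
    have h1 : t = s + algebraMap k L c := by rw [hs]; ring
    rw [h1]
    exact h.add (isAlgebraic_algebraMap c)
  have hs0 : s ≠ 0 := transcendental_ne_zero hst
  have hgen : k⟮s⟯ = k⟮t⟯ := by
    apply le_antisymm
    · rw [IntermediateField.adjoin_simple_le_iff]
      exact sub_mem (IntermediateField.mem_adjoin_simple_self k t)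
        (IntermediateField.algebraMap_mem _ c)
    · rw [IntermediateField.adjoin_simple_le_iff]
      have h1 : t = s + algebraMap k L c := by rw [hs]; ring
      have h2 : s + algebraMap k L c ∈ k⟮s⟯ := add_mem (IntermediateField.mem_adjoin_simple_self k s)
        (IntermediateField.algebraMap_mem _ c)
      rwa [← h1] at h2
  obtain ⟨S, hS, hsum, -⟩ := hL.zeros s hst
  rw [← hgen]
  by_cases hv : 0 < v.ord s
  · have hvS : v ∈ S := (hS v).2 ((v.ord_pos_iff hs0).1 hv)
    have h1 : v.ord s * (v.deg : ℤ) ≤ ∑ v ∈ S, v.ord s * (v.deg : ℤ) := by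
      apply Finset.single_le_sum (f := fun v : Place k L => v.ord s * (v.deg : ℤ)) _ hvS
      intro u hu
      have h2 := (u.ord_pos_iff hs0).2 ((hS u).1 hu)
      (clear * - h2; positivity)
    rw [hsum, deg_eq_one hL, Nat.cast_one, mul_one] at h1
    exact h1
  · have h2 : (0 : ℤ) ≤ Module.finrank k⟮s⟯ L := Int.natCast_nonneg _
    omega

end Pool.Agent.Helper45.M8

end

section

set_option autoImplicit false

namespace Pool.Agent.Helper36.PT

open Polynomial Finset Pool.Agent.Helper33 Pool.Agent.Helper33.PS Pool.Agent.Helper33.UB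
  Pool.Agent.Helper45.FR Pool.Agent.Helper51.RatTree Pool.Agent.Helper93.RatODE
  Pool.Agent.Helper35.PS

/-- T-NORM -/
theorem exists_norm {k K V : Type} [Field k] [Infinite k] [Field K] [Algebra k K] (P : PSys k K V)
    (hP : ∀ v, ResK k (P.pl v)) {d : ℕ} (hd : 1 ≤ d) {F G : K[X]} (hFG : IsRat F G d) {x : ℕ → K}
    {N : ℕ} (hx : RatOrbit F G x N) (hN : 2 * d + 2 ≤ N) {α β γ : ℕ} (hαβ : α ≠ β) (hαγ : α ≠ γ)
    (hβγ : β ≠ γ) (hα : α ≤ N) (hβ : β ≤ N) (hγ : γ ≤ N) :
    ∃ (F' G' : K[X]) (z : ℕ → K), IsRat F' G' d ∧ RatOrbit F' G' z N ∧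
      (∃ i, F'.coeff i = 1 ∨ G'.coeff i = 1) ∧
      (∃ c : k, algebraMap k K c = z α) ∧ (∃ c : k, algebraMap k K c = z β) ∧
      (∃ c : k, algebraMap k K c = z γ) ∧ (ConstConj k F' G' d → ConstConj k F G d) ∧
      ∀ i j l m, Helper33.PS.cr (z i) (z j) (z l) (z m) =
        Helper33.PS.cr (x i) (x j) (x l) (x m) := by
  classical
  obtain ⟨-, -, z, a, b, c, e, hdet, hne, hz, -, -, hc1, hc2, hc3, -, -, -⟩ :=
    exists_coord P hP hFG hx {α, β, γ} (α := α) (β := β) (γ := γ) (by simp) (by simp) (by simp)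
      hαβ hαγ hβγ (by
        intro j hj
        simp only [mem_insert, mem_singleton] at hj
        rcases hj with rfl | rfl | rfl <;> assumption) ∅ (by simp)
  have hzf : z = fun j => (a * x j + b) / (c * x j + e) := funext hz
  have hR := IsRat.conj hdet hFG
  have hO := RatOrbit.conj hdet hFG.dA hFG.dB hx hne
  rw [← hzf] at hO
  set F₁ := cjP F G d a b c e with hF₁
  set G₁ := cjQ F G d a b c e with hG₁
  obtain ⟨s, hs, hs1⟩ : ∃ s : K, s ≠ 0 ∧ (s * F₁.coeff d = 1 ∨ s * G₁.coeff d = 1) := by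
    rcases hR.top with h | h
    · exact ⟨(F₁.coeff d)⁻¹, inv_ne_zero h, Or.inl (inv_mul_cancel₀ h)⟩
    · exact ⟨(G₁.coeff d)⁻¹, inv_ne_zero h, Or.inr (inv_mul_cancel₀ h)⟩
  refine ⟨C s * F₁, C s * G₁, z, IsRat_smul hs hR, RatOrbit_smul hs hO, ⟨d, ?_⟩, hc1, hc2, hc3,
    ?_, ?_⟩
  · rw [coeff_C_mul, coeff_C_mul]
    exact hs1
  · intro h
    exact constConj_of_conj hdet hFG.dA hFG.dB (constConj_of_smul hs h)
  · intro i j l m
    exact Pool.Agent.Helper35.PS.cr_mobius hdet ![x i, x j, x l, x m] ![z i, z j, z l, z m]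
      (by intro t; fin_cases t <;> simp [hne]) (by intro t; fin_cases t <;> simp [hz])

end Pool.Agent.Helper36.PT

end

section

set_option autoImplicit false

open Finset Polynomial

namespace Pool.Agent.Helper33.PT

open Pool.Agent.Helper45.FR Pool.Agent.Helper33.UB Pool.Agent.Helper51.RatTree Pool.Agent.Helper93.RatODE
  Pool.Agent.Helper33.PS Pool.Agent.Helper55.RD

/-- T-NORM -/
theorem exists_norm {k K V : Type} [Field k] [Infinite k] [Field K] [Algebra k K] (P : PSys k K V)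
    (hP : ∀ v, ResK k (P.pl v)) {d : ℕ} (hd : 1 ≤ d) {F G : K[X]} (hFG : IsRat F G d) {x : ℕ → K}
    {N : ℕ} (hx : RatOrbit F G x N) (hN : 2 * d + 2 ≤ N) {α β γ : ℕ} (hαβ : α ≠ β) (hαγ : α ≠ γ)
    (hβγ : β ≠ γ) (hα : α ≤ N) (hβ : β ≤ N) (hγ : γ ≤ N) :
    ∃ (F' G' : K[X]) (z : ℕ → K), IsRat F' G' d ∧ RatOrbit F' G' z N ∧
      (∃ i, F'.coeff i = 1 ∨ G'.coeff i = 1) ∧
      (∃ c : k, algebraMap k K c = z α) ∧ (∃ c : k, algebraMap k K c = z β) ∧
      (∃ c : k, algebraMap k K c = z γ) ∧ (ConstConj k F' G' d → ConstConj k F G d) ∧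
      ∀ i j l m, Pool.Agent.Helper33.PS.cr (z i) (z j) (z l) (z m) = Pool.Agent.Helper33.PS.cr (x i) (x j) (x l) (x m) :=
  Pool.Agent.Helper36.PT.exists_norm P hP hd hFG hx hN hαβ hαγ hβγ hα hβ hγ

end Pool.Agent.Helper33.PT

end

section

set_option autoImplicit false

open Finset Polynomial

namespace Pool.Agent.Helper33.PT

open Pool.Agent.Helper33.UB Pool.Agent.Helper51.RatTree Pool.Agent.Helper55.RD
  Pool.Agent.Helper93.RatODE Pool.Agent.Helper45.FR Pool.Agent.Helper33.PS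

section wild

variable {k K E V W : Type} [Field k] [Field K] [Field E] [Algebra k K] [Algebra k E]
  [Algebra K E] [IsScalarTower k K E] {P : PSys k K V} {Q : PSys k E W} {n : ℕ}

/-- fixed places over ramified places -/
theorem ramified_fixed (gs : GalW P Q n) {v : V} (hv : 1 ≤ P.e v) :
    ∃ σ ∈ gs.G, (∃ y : K, σ (algebraMap K E y) ≠ algebraMap K E y) ∧
      ∃ w, gs.res w = v ∧ gs.act σ w = w := by
  obtain ⟨w, hw, s, hs, ⟨σ, hσ⟩, hact, -⟩ := gs.e_le v hv
  exact ⟨σ, hs hσ, (hact σ hσ).2, w, hw, (hact σ hσ).1⟩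

end wild

end Pool.Agent.Helper33.PT

end

section

set_option autoImplicit false

open Finset Polynomial

namespace Pool.Agent.Helper33.PT

open Pool.Agent.Helper33.UB Pool.Agent.Helper51.RatTree Pool.Agent.Helper55.RD
  Pool.Agent.Helper93.RatODE Pool.Agent.Helper45.FR Pool.Agent.Helper33.PS

section wild

variable {k K E V W : Type} [Field k] [Field K] [Field E] [Algebra k K] [Algebra k E]
  [Algebra K E] [IsScalarTower k K E] {P : PSys k K V} {Q : PSys k E W} {n : ℕ}

theorem card_ramified (gs : GalW P Q n) (S Sb : Finset V) (B : ℝ) (hB : 0 ≤ B)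
    (h3 : ∀ σ ∈ gs.G, (∃ y : K, σ (algebraMap K E y) ≠ algebraMap K E y) → ∀ R ⊆ S,
      (∀ v ∈ R, v ∉ Sb ∧ ∃ w, gs.res w = v ∧ gs.act σ w = w) → (R.card : ℝ) ≤ B)
    (X : Finset V) (hX : X ⊆ S) (hXe : ∀ v ∈ X, v ∉ Sb ∧ 1 ≤ P.e v) : (X.card : ℝ) ≤ n * B := by
  classical
  set G' := gs.G.filter fun σ => ∃ y : K, σ (algebraMap K E y) ≠ algebraMap K E y with hG'
  set Xs : (E ≃ₐ[k] E) → Finset V := fun σ => X.filter fun v => ∃ w, gs.res w = v ∧ gs.act σ w = w
    with hXs
  have h1 : X ⊆ G'.biUnion Xs := by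
    intro v hv
    obtain ⟨σ, hσ, hy, hw⟩ := ramified_fixed gs (hXe v hv).2
    exact mem_biUnion.mpr ⟨σ, mem_filter.mpr ⟨hσ, hy⟩, mem_filter.mpr ⟨hv, hw⟩⟩
  have h2 : (X.card : ℝ) ≤ ∑ σ ∈ G', ((Xs σ).card : ℝ) := by
    exact_mod_cast (card_le_card h1).trans card_biUnion_le
  have h4 : ∑ σ ∈ G', ((Xs σ).card : ℝ) ≤ ∑ σ ∈ G', B := by
    apply sum_le_sum
    intro σ hσ
    obtain ⟨hσ1, hσ2⟩ := mem_filter.mp hσ
    refine h3 σ hσ1 hσ2 (Xs σ) ((filter_subset _ _).trans hX) ?_
    intro v hv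
    obtain ⟨hv1, hv2⟩ := mem_filter.mp hv
    exact ⟨(hXe v hv1).1, hv2⟩
  rw [sum_const, nsmul_eq_mul] at h4
  have h5 : (G'.card : ℝ) * B ≤ n * B := by
    apply mul_le_mul_of_nonneg_right _ hB
    exact_mod_cast (card_le_card (filter_subset _ _)).trans gs.card_G
  (clear * - h2 h4 h5; linarith)

end wild

end Pool.Agent.Helper33.PT

end
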