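import Pool.Agent.Helper23.MB.L03_ab0
import Pool.Agent.Helper23.MB.L03_ab1
import Pool.Agent.Helper23.MB.L03_ab4
import Pool.Agent.Helper23.MB.L03_ab5
import Pool.Agent.Helper23.MB.L03_ab6
import Pool.Agent.Helper23.MB.L03_ab7

/-!
Parts of Helper47.EN.Defs, Helper84.RRE, Helper47.EN.Ext, Helper31.EN.Push, Helper31.EN.PushPrin, Helper84.EN.Inv, Helper47.EN.Group, Helper47.EN.Final, Helper38.DT.Main
-/

attribute [-simp] Valuation.IsUniformizer.val
attribute [local instance 5000]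
  Pool.Agent.Helper23.MB.Inst.rCharZero Pool.Agent.Helper23.MB.Inst.rALM
  Pool.Agent.Helper23.MB.Inst.rARM Pool.Agent.Helper23.MB.Inst.rALSM
  Pool.Agent.Helper23.MB.Inst.rARSM Pool.Agent.Helper23.MB.Inst.rARRLE
  Pool.Agent.Helper23.MB.Inst.rALRLE Pool.Agent.Helper23.MB.Inst.rARRLT
  Pool.Agent.Helper23.MB.Inst.rALRLT Pool.Agent.Helper23.MB.Inst.rPMRLT
  Pool.Agent.Helper23.MB.Inst.rMPRLT Pool.Agent.Helper23.MB.Inst.rPMM
  Pool.Agent.Helper23.MB.Inst.rMPM Pool.Agent.Helper23.MB.Inst.rPMSM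
  Pool.Agent.Helper23.MB.Inst.rMPSM Pool.Agent.Helper23.MB.Inst.rEAOL
  Pool.Agent.Helper23.MB.Inst.rIOR Pool.Agent.Helper23.MB.Inst.rISOR
  Pool.Agent.Helper23.MB.Inst.rNZD Pool.Agent.Helper23.MB.Inst.zCharZero
  Pool.Agent.Helper23.MB.Inst.zALM Pool.Agent.Helper23.MB.Inst.zARM
  Pool.Agent.Helper23.MB.Inst.zIOR Pool.Agent.Helper23.MB.Inst.zISOR
  Pool.Agent.Helper23.MB.Inst.zNZD Pool.Agent.Helper23.MB.Inst.qCharZero
  Pool.Agent.Helper23.MB.Inst.free Pool.Agent.Helper23.MB.Inst.faith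
  Pool.Agent.Helper23.MB.Inst.torsionFree Pool.Agent.Helper23.MB.Inst.rfFaith
  Pool.Agent.Helper23.MB.Inst.hAdd Pool.Agent.Helper23.MB.Inst.hAddM
  Pool.Agent.Helper23.MB.Inst.hMul Pool.Agent.Helper23.MB.Inst.hMon
  Pool.Agent.Helper23.MB.Inst.hZero Pool.Agent.Helper23.MB.Inst.hOne
  Pool.Agent.Helper23.MB.Inst.hMZ Pool.Agent.Helper23.MB.Inst.hRing
  Pool.Agent.Helper23.MB.Inst.aAdd Pool.Agent.Helper23.MB.Inst.aAddM
  Pool.Agent.Helper23.MB.Inst.aMul Pool.Agent.Helper23.MB.Inst.aMon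
  Pool.Agent.Helper23.MB.Inst.aZero Pool.Agent.Helper23.MB.Inst.aOne
  Pool.Agent.Helper23.MB.Inst.aMZ Pool.Agent.Helper23.MB.Inst.aRing

namespace Pool.Agent.Helper16
end Pool.Agent.Helper16
namespace Pool.Agent.Helper31.RRK
end Pool.Agent.Helper31.RRK
namespace Pool.Agent.Helper34.Dep
end Pool.Agent.Helper34.Dep
namespace Pool.Agent.Helper45.FF
end Pool.Agent.Helper45.FF
namespace Pool.Agent.Helper45.FR
end Pool.Agent.Helper45.FR
namespace Pool.Agent.Helper45.S4
end Pool.Agent.Helper45.S4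
namespace Pool.Agent.Helper45.S6
end Pool.Agent.Helper45.S6
namespace Pool.Agent.Helper47.EN
end Pool.Agent.Helper47.EN
namespace Pool.Agent.Helper47.RR
end Pool.Agent.Helper47.RR
namespace Pool.Agent.Helper84.RRE
end Pool.Agent.Helper84.RRE
namespace Pool.Agent.Helper93.RatODE
end Pool.Agent.Helper93.RatODE

section

set_option autoImplicit false

set_option linter.style.haveILetI false

namespace Pool.Agent.Helper47.EN

open Pool.Agent.Helper16 Pool.Agent.Helper45.S4 Pool.Agent.Helper47.RR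

variable {k L M N : Type} [Field k] [Field L] [Field M] [Field N] [Algebra k L] [Algebra k M]
  [Algebra k N]

theorem cl_eq_iff (hM : IsFunctionField k M) (D E : Dv k M) :
    cl hM D = cl hM E ↔ ∃ f : M, f ≠ 0 ∧ D - E = prin hM f := by
  rw [← sub_eq_zero, ← map_sub]
  exact (QuotientAddGroup.eq_zero_iff _).trans (mem_PrinSub hM _)

end Pool.Agent.Helper47.EN

end

section

set_option autoImplicit false

namespace Pool.Agent.Helper84.RRE

open Pool.Agent.Helper16 Pool.Agent.Helper45.FF Pool.Agent.Helper47.RR IntermediateField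

variable {k L : Type} [Field k] [Field L] [Algebra k L]

/-- A function field with a nonconstant function having at most one simple pole is rational. -/
theorem adjoin_eq_top [IsAlgClosed k] (hN : IsFunctionField k L) {f : L}
    (hf : ∀ c : k, algebraMap k L c ≠ f) {v : Place k L} (hD : f ∈ Lsp (Finsupp.single v 1 : Dv k L)) :
    k⟮f⟯ = ⊤ := by
  have htr := transcendental_of_not_const hf
  obtain ⟨S, -, -, hpos⟩ := hN.zeros f htr
  have h1 := finrank_adjoin_le hN htr hD (by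
    intro w
    classical
    rw [Finsupp.single_apply]
    split_ifs <;> norm_num)
  rw [degD_single] at h1
  rw [← IntermediateField.finrank_eq_one_iff_eq_top]
  omega

/-- A function field of genus zero is rational. -/
theorem genus_zero [IsAlgClosed k] (hN : IsFunctionField k L) (hg : genus k L = 0) :
    ∃ x : L, Transcendental k x ∧ k⟮x⟯ = ⊤ := by
  obtain ⟨v⟩ := exists_a_place hN
  have h1 := ell_eq_of_large hN (Finsupp.single v 1 : Dv k L) (by rw [degD_single, hg]; norm_num)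
  rw [degD_single, hg] at h1
  by_contra hcon
  push Not at hcon
  have h3 : Module.finrank k (Lsp (Finsupp.single v 1 : Dv k L)) ≤ 1 := by
    apply finrank_le_one_of_const
    intro f hf
    by_contra hc
    push Not at hc
    exact hcon f (transcendental_of_not_const hc) (adjoin_eq_top hN hc hf)
  unfold ell at h1
  omega

/-- In genus one every divisor of degree one is linearly equivalent to a unique place. -/
theorem genus_one_exists_place [IsAlgClosed k] (hN : IsFunctionField k L) (hg : genus k L = 1)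
    {D : Dv k L} (hD : degD D = 1) :
    ∃! v : Place k L, ∃ f : L, f ≠ 0 ∧ D + prin hN f = Finsupp.single v 1 := by
  have h1 : Module.finrank k (Lsp D) = 1 := by
    have := genus_one_ell hN hg (D := D) (by omega)
    unfold ell at this
    omega
  obtain ⟨⟨f, hf⟩, hf0, hspan⟩ := finrank_eq_one_iff'.1 h1
  have hf0' : f ≠ 0 := fun h => hf0 (Subtype.ext h)
  have hE : 0 ≤ D + prin hN f := (mem_Lsp_iff_prin hN D hf0').1 hf
  have hdE : degD (D + prin hN f) = 1 := by rw [degD_add, degD_prin, hD, add_zero]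
  obtain ⟨v, hv⟩ : ∃ v, D + prin hN f = Finsupp.single v 1 := by
    have h2 : ∃ v, 0 < (D + prin hN f) v := by
      by_contra hcon
      push Not at hcon
      have h3 : D + prin hN f = 0 := by
        ext w
        exact le_antisymm (hcon w) (hE w)
      rw [h3, degD_zero] at hdE
      exact zero_ne_one hdE
    obtain ⟨v, hv⟩ := h2
    refine ⟨v, (eq_of_le_of_degD ?_ ?_).symm⟩
    · intro w
      classical
      rw [Finsupp.single_apply]
      split_ifs with h
      · rw [← h]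
        omega
      · exact hE w
    · rw [hdE, degD_single]
  refine ⟨v, ⟨f, hf0', hv⟩, ?_⟩
  rintro w ⟨g, hg0, hw⟩
  have hgm : g ∈ Lsp D := by
    rw [mem_Lsp_iff_prin hN D hg0, hw]
    intro u
    classical
    rw [Finsupp.single_apply]
    split_ifs <;> simp
  obtain ⟨c, hc⟩ := hspan ⟨g, hgm⟩
  have hc' : g = algebraMap k L c * f := by
    have h5 : c • f = g := congrArg Subtype.val hc
    rw [← h5]
    exact Algebra.smul_def c f
  have hc0 : c ≠ 0 := by
    rintro rfl
    rw [map_zero, zero_mul] at hc'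
    exact hg0 hc'
  have h4 : prin hN g = prin hN f := by
    ext u
    rw [prin_apply, prin_apply, hc', u.ord_mul (by simpa using hc0) hf0', u.ord_algebraMap,
      zero_add]
  rw [h4, hv] at hw
  have := Finsupp.single_left_injective (one_ne_zero) hw
  exact this.symm

end Pool.Agent.Helper84.RRE

end

section

set_option autoImplicit false

set_option linter.style.haveILetI false

namespace Pool.Agent.Helper47.EN

open Pool.Agent.Helper16 Pool.Agent.Helper45.S4 Pool.Agent.Helper47.RR IntermediateField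

open Pool.Agent.Helper45.FF

variable {k L M : Type} [Field k] [Field L] [Field M] [Algebra k L] [Algebra k M]

/-- The fixed places of an endomorphism. -/
theorem finite_fix [IsAlgClosed k] (hM : IsFunctionField k M) (ψ : M →ₐ[k] M) (g : M)
    (hg : ψ g ≠ g) (ht : Transcendental k g) :
    {w | plc hM hM ψ w = w}.Finite ∧ {w | plc hM hM ψ w = w}.ncard ≤
      2 * Module.finrank k⟮g⟯ M + Module.finrank k⟮ψ g⟯ M := by
  have hz : ψ g - g ≠ 0 := sub_ne_zero.2 hg
  have hsub : {w | plc hM hM ψ w = w} ⊆ {w | ¬ w.val g ≤ 1} ∪ {w | w.val (ψ g - g) < 1} := by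
    intro w hw
    by_cases h : w.val g ≤ 1
    · right
      obtain ⟨c, hc⟩ := exists_res_val hM w g h
      have h1 : (plc hM hM ψ w).val (g - algebraMap k M c) < 1 := by
        rw [show plc hM hM ψ w = w from hw]
        exact hc
      have h2 := (plc_val_lt_one hM hM ψ w _).1 h1
      rw [map_sub, AlgHom.commutes] at h2
      change w.val (ψ g - g) < 1
      have h3 : ψ g - g = (ψ g - algebraMap k M c) - (g - algebraMap k M c) := by ring
      rw [h3]
      exact w.val.map_sub_lt h2 hc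
    · exact Or.inl h
  have hfin := (finite_poles hM g).union (finite_zeros hM hz)
  refine ⟨hfin.subset hsub, ?_⟩
  have h1 := Set.ncard_le_ncard hsub hfin
  have h2 := Set.ncard_union_le {w : Place k M | ¬ w.val g ≤ 1} {w | w.val (ψ g - g) < 1}
  have h3 := ncard_poles_le hM g ht
  have htψ : Transcendental k (ψ g) := by
    intro hal
    exact ht ((isAlgebraic_algHom_iff ψ ψ.toRingHom.injective).1 hal)
  have h4 : {w : Place k M | w.val (ψ g - g) < 1}.ncard ≤
      Module.finrank k⟮g⟯ M + Module.finrank k⟮ψ g⟯ M := by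
    by_cases hal : IsAlgebraic k (ψ g - g)
    · have : {w : Place k M | w.val (ψ g - g) < 1} = ∅ := by
        ext w
        simp only [Set.mem_ofPred_eq, Set.mem_empty_iff_false, iff_false, not_lt]
        exact (w.val_eq_one_of_algebraic hal hz).ge
      rw [this, Set.ncard_empty]
      exact Nat.zero_le _
    · obtain ⟨D, hD0, hD1, hD2⟩ := exists_polar hM g ht
      obtain ⟨E, hE0, hE1, hE2⟩ := exists_polar hM (ψ g) htψ
      have h5 := ncard_zeros_le hM _ hal
      have h6 := Helper84.RRE.finrank_adjoin_le hM hal (Lsp_add hE0 hD0 hE2 hD2) (fun v => by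
        rw [Finsupp.add_apply]
        (clear * - hE0 hD0; linarith [hE0 v, hD0 v]))
      rw [degD_add, hD1, hE1] at h6
      have h7 : Module.finrank k⟮ψ g - g⟯ M ≤
          Module.finrank k⟮ψ g⟯ M + Module.finrank k⟮g⟯ M := by exact_mod_cast h6
      omega
  omega

end Pool.Agent.Helper47.EN

end

section

set_option autoImplicit false

set_option linter.style.haveILetI false

namespace Pool.Agent.Helper31.EN

open Polynomial IntermediateField Pool.Agent.Helper16 Pool.Agent.Helper45.S4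

open Pool.Agent.Helper47.RR Pool.Agent.Helper47.EN

section tower

variable {k : Type} [Field k]

variable [IsAlgClosed k]

/-- Push-forward of principal divisors, from the separable case. -/
theorem push_prin_of_sep
    (hsep : ∀ (L M : Type) [Field L] [Field M] [Algebra k L] [Algebra k M] [Algebra L M]
      [IsScalarTower k L M] (hL : IsFunctionField k L) (hM : IsFunctionField k M)
      [FiniteDimensional L M] [Algebra.IsSeparable L M] (f : M), f ≠ 0 →
      ∃ g : L, g ≠ 0 ∧ Finsupp.mapDomain (resPl hL) (prin hM f) = prin hL g)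
    {L M : Type} [Field L] [Field M] [Algebra k L] [Algebra k M]
    (hL : IsFunctionField k L) (hM : IsFunctionField k M) (φ : L →ₐ[k] M) (f : M) (hf : f ≠ 0) :
    ∃ g : L, g ≠ 0 ∧ Finsupp.mapDomain (plc hL hM φ) (prin hM f) = prin hL g := by
  letI : Algebra L M := φ.toRingHom.toAlgebra
  haveI : IsScalarTower k L M := IsScalarTower.of_algebraMap_eq (fun x => (φ.commutes x).symm)
  haveI : FiniteDimensional L M := by
    haveI := Pool.Agent.Helper31.RRK.finiteDimensional_fieldRange hL hM φ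
    let e : L ≃+* φ.fieldRange := (AlgEquiv.ofInjectiveField φ).toRingEquiv
    have h1 := Module.Finite.of_equiv_equiv (A₁ := φ.fieldRange) (B₁ := M) (A₂ := L) (B₂ := M)
      e.symm (RingEquiv.refl M) (by
        ext x
        change φ (e.symm x) = (x : M)
        obtain ⟨y, rfl⟩ := e.surjective x
        rw [e.symm_apply_apply]
        rfl)
    exact h1
  let E := separableClosure L M
  haveI : Algebra.IsSeparable L E := inferInstance
  haveI : IsPurelyInseparable E M := separableClosure.isPurelyInseparable _ _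
  haveI : IsScalarTower k E M := IsScalarTower.of_algebraMap_eq (fun x => rfl)
  have hE : IsFunctionField k E := isFunctionField_ext hL
  obtain ⟨g1, hg1, h1⟩ := push_insep hE hM f hf
  obtain ⟨g2, hg2, h2⟩ := hsep L E hL hE g1 hg1
  refine ⟨g2, hg2, ?_⟩
  rw [← h2, ← h1, ← Finsupp.mapDomain_comp]
  congr 1
  funext w
  let i : L →ₐ[k] E := IsScalarTower.toAlgHom k L E
  let j : E →ₐ[k] M := IsScalarTower.toAlgHom k E M
  have hij : φ = j.comp i := by
    ext x
    rfl
  rw [hij, plc_comp hL hE hM, plc_eq_resPl hL hE i (fun _ => rfl),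
    plc_eq_resPl hE hM j (fun _ => rfl)]
  rfl

end tower

end Pool.Agent.Helper31.EN

end

section

set_option autoImplicit false

set_option linter.style.haveILetI false

namespace Pool.Agent.Helper31.EN

open Pool.Agent.Helper16 Pool.Agent.Helper45.S4 Pool.Agent.Helper47.RR Pool.Agent.Helper47.EN

/-- **Push-forward of principal divisors.** -/
theorem push_prin {k L M : Type} [Field k] [Field L] [Field M] [Algebra k L] [Algebra k M]
    [IsAlgClosed k] (hL : IsFunctionField k L) (hM : IsFunctionField k M) (φ : L →ₐ[k] M) (f : M)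
    (hf : f ≠ 0) :
    ∃ g : L, g ≠ 0 ∧ Finsupp.mapDomain (plc hL hM φ) (prin hM f) = prin hL g :=
  push_prin_of_sep (fun L M _ _ _ _ _ _ hL hM _ _ f hf =>
    ⟨Algebra.norm L f, Algebra.norm_ne_zero_iff.2 hf, mapDomain_prin_sep hL hM f hf⟩) hL hM φ f hf

end Pool.Agent.Helper31.EN

end

section

set_option autoImplicit false

set_option linter.style.haveILetI false

namespace Pool.Agent.Helper84.EN

open Pool.Agent.Helper16 Pool.Agent.Helper45.FF Pool.Agent.Helper45.S4 Pool.Agent.Helper47.RR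

open Pool.Agent.Helper47.EN Pool.Agent.Helper84.RRE IntermediateField Pool.Agent.Helper31.RRK

variable {k M : Type} [Field k] [Field M] [Algebra k M]

/-- In genus one different places have different classes. -/
theorem pt_injective [IsAlgClosed k] (hM : IsFunctionField k M) (hg : genus k M = 1) :
    Function.Injective (pt hM) := by
  intro P Q h
  obtain ⟨f, hf, hfe⟩ := (cl_eq_iff hM _ _).1 h
  obtain ⟨v, -, huniq⟩ := genus_one_exists_place hM hg (D := Finsupp.single Q 1) (degD_single _ _)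
  have h1 : P = v := huniq P ⟨f, hf, by rw [← hfe]; abel⟩
  have h2 : Q = v := huniq Q ⟨1, one_ne_zero, by
    have : prin hM (1 : M) = 0 := by
      ext w
      change w.ord (1 : M) = 0
      rw [Place.ord_one]
    rw [this, add_zero]⟩
  rw [h1, ← h2]

/-- **The involution attached to a place of a genus one function field.** -/
theorem exists_involution [IsAlgClosed k] (hM : IsFunctionField k M) (hg : genus k M = 1)
    (O : Place k M) : ∃ (i : M ≃ₐ[k] M) (u : M), Transcendental k u ∧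
      Module.finrank k⟮u⟯ M = 2 ∧ (∀ x, i x = x ↔ x ∈ k⟮u⟯) ∧
      ∀ P, pt hM (Pool.Agent.Helper45.S4.act i P) + pt hM P = (2 : ℕ) • pt hM O := by
  classical
  obtain ⟨u, htr, h2, hsep, hu⟩ := exists_deg_two hM hg O
  haveI : FiniteDimensional k⟮u⟯ M := finiteDimensional_adjoin hM u htr
  have hE : IsFunctionField k k⟮u⟯ := isFunctionField_adjoin hM u htr
  haveI : Algebra.IsQuadraticExtension k⟮u⟯ M := ⟨h2⟩
  haveI : IsGalois k⟮u⟯ M := inferInstance
  have hcard : Nat.card (M ≃ₐ[k⟮u⟯] M) = 2 := by rw [IsGalois.card_aut_eq_finrank, h2]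
  obtain ⟨σ, hσ, hσu⟩ := (Nat.card_eq_two_iff' (1 : M ≃ₐ[k⟮u⟯] M)).1 hcard
  set i : M ≃ₐ[k] M := σ.restrictScalars k with hi
  have hiE : ∀ x, i x = x ↔ x ∈ k⟮u⟯ := by
    intro x
    constructor
    · intro hx
      obtain ⟨y, hy⟩ := (IsGalois.mem_range_algebraMap_iff_fixed (F := k⟮u⟯) x).2 (fun τ => by
        by_cases hτ : τ = 1
        · rw [hτ]; rfl
        · rw [hσu τ hτ]; exact hx)
      rw [← hy]
      exact y.2
    · intro hx
      exact σ.commutes ⟨x, hx⟩
  have hsymm : ∀ x ∈ k⟮u⟯, i.symm x = x := by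
    intro x hx
    rw [AlgEquiv.symm_apply_eq]
    exact ((hiE x).2 hx).symm
  have huE : u ∈ k⟮u⟯ := mem_adjoin_simple_self k u
  have hu0 : u ≠ 0 := transcendental_ne_zero htr
  -- poles
  have hpole : ∀ w : Place k M, w ≠ O → w.val u ≤ 1 := by
    intro w hw
    have := (mem_Lsp _ u).1 hu w
    rwa [Finsupp.single_apply, if_neg (Ne.symm hw), WithZero.exp_zero] at this
  have hO : 1 < O.val u := by
    obtain ⟨S, hS, hsum, hpos⟩ := hM.zeros u⁻¹ (transcendental_inv htr)
    rcases S.eq_empty_or_nonempty with h | ⟨v, hv⟩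
    · rw [h] at hsum
      simp only [Finset.sum_empty] at hsum
      have : (0:ℤ) < (Module.finrank k⟮u⁻¹⟯ M : ℤ) := by exact_mod_cast hpos
      omega
    · have h3 := (hS v).1 hv
      rw [← v.ord_pos_iff (inv_ne_zero hu0), v.ord_inv] at h3
      have h4 : v.ord u < 0 := by omega
      rw [v.ord_neg_iff hu0] at h4
      by_cases hvO : v = O
      · rw [← hvO]; exact h4
      · exact absurd (hpole v hvO) (not_le.2 h4)
  have hiO : Pool.Agent.Helper45.S4.act i O = O := by
    by_contra h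
    have h3 := hpole _ h
    rw [act_val, hsymm u huE] at h3
    exact absurd h3 (not_le.2 hO)
  refine ⟨i, u, htr, h2, hiE, fun P => ?_⟩
  by_cases hPO : P = O
  · rw [hPO, hiO, two_nsmul]
  -- the value at `P`
  obtain ⟨c, hc⟩ := exists_res_val hM P u (hpole P hPO)
  set f := u - algebraMap k M c with hf
  have hfE : f ∈ k⟮u⟯ := sub_mem huE (IntermediateField.algebraMap_mem _ c)
  have hf0 : f ≠ 0 := by
    intro h
    rw [hf, sub_eq_zero] at h
    apply htr
    rw [h]
    exact isAlgebraic_algebraMap c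
  have hcL : algebraMap k M c ∈ Lsp (Finsupp.single O 2 : Dv k M) := by
    rw [mem_Lsp]
    intro w
    refine (w.val_algebraMap_le c).trans ?_
    rw [← WithZero.exp_zero, WithZero.exp_le_exp, Finsupp.single_apply]
    split_ifs <;> norm_num
  have hfL : f ∈ Lsp (Finsupp.single O 2 : Dv k M) := sub_mem hu hcL
  have hD0 : 0 ≤ (Finsupp.single O 2 : Dv k M) + prin hM f := (mem_Lsp_iff_prin hM _ hf0).1 hfL
  have hP1 : 1 ≤ P.ord f := by
    have := (P.ord_pos_iff hf0).2 hc
    omega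
  have hiP : (Pool.Agent.Helper45.S4.act i P).ord f = P.ord f := by
    rw [act_ord, hsymm f hfE]
  have hR : (Finsupp.single (Pool.Agent.Helper45.S4.act i P) 1 + Finsupp.single P 1 : Dv k M) ≤
      (Finsupp.single O 2 : Dv k M) + prin hM f := by
    intro w
    rw [Finsupp.add_apply]
    have h00 := hD0 w
    rw [Finsupp.coe_zero, Pi.zero_apply] at h00
    have hO2 : 0 ≤ (Finsupp.single O 2 : Dv k M) w := by
      rw [Finsupp.single_apply]
      split_ifs <;> norm_num
    by_cases h3 : Pool.Agent.Helper45.S4.act i P = P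
    · rw [h3]
      by_cases hw : w = P
      · rw [hw, Finsupp.single_apply, if_pos rfl, Finsupp.add_apply, Pool.Agent.Helper47.RR.prin_apply]
        rw [hw] at hO2
        have h4 : 2 ≤ P.ord f := by
          have h5 : ram hE P = 2 := by
            rw [← card_stab hE P, ← hcard]
            refine Nat.card_congr (Equiv.subtypeUnivEquiv fun τ => ?_)
            by_cases hτ : τ = 1
            · rw [hτ]; exact Pool.Agent.Helper45.S4.act_one P
            · rw [hσu τ hτ]; exact h3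
          have h6 := ord_algebraMap hE P (⟨f, hfE⟩ : k⟮u⟯)
          change P.ord f = _ at h6
          rw [h5] at h6
          push_cast at h6
          omega
        (clear * - hO2 h4; linarith)
      · rw [Finsupp.single_apply, if_neg (Ne.symm hw)]
        simpa using h00
    · by_cases hw : w = P
      · rw [hw, Finsupp.single_apply, if_neg h3, Finsupp.single_apply, if_pos rfl,
          Finsupp.add_apply, Pool.Agent.Helper47.RR.prin_apply]
        rw [hw] at hO2
        (clear * - hP1 hO2; linarith)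
      · by_cases hw' : w = Pool.Agent.Helper45.S4.act i P
        · rw [hw', Finsupp.single_apply, if_pos rfl, Finsupp.single_apply, if_neg (Ne.symm h3),
            Finsupp.add_apply, Pool.Agent.Helper47.RR.prin_apply, hiP]
          rw [hw'] at hO2
          (clear * - hP1 hO2; linarith)
        · rw [Finsupp.single_apply, if_neg (Ne.symm hw'), Finsupp.single_apply,
            if_neg (Ne.symm hw)]
          simpa using h00
  have heq := eq_of_le_of_degD hR (by
    rw [degD_add, degD_add, degD_single, degD_single, degD_single, degD_prin]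
    norm_num)
  change cl hM _ + cl hM _ = (2 : ℕ) • cl hM _
  rw [← map_add, ← map_nsmul]
  refine (cl_eq_iff hM _ _).2 ⟨f, hf0, ?_⟩
  rw [heq, Finsupp.smul_single, nsmul_eq_mul]
  simp

end Pool.Agent.Helper84.EN

end

section

set_option autoImplicit false

set_option linter.style.haveILetI false

namespace Pool.Agent.Helper47.EN

open Pool.Agent.Helper16 Pool.Agent.Helper45.S4 Pool.Agent.Helper47.RR IntermediateField

variable {k M : Type} [Field k] [Field M] [Algebra k M]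

section kinds

variable (hM : IsFunctionField k M)

/-- translation type -/
def Kp (a : M ≃ₐ[k] M) : Prop := ∃ c : Cl hM, ∀ P, pt hM (Pool.Agent.Helper45.S4.act a P) = pt hM P + c

/-- reflection type -/
def Km (a : M ≃ₐ[k] M) : Prop := ∃ c : Cl hM, ∀ P, pt hM (Pool.Agent.Helper45.S4.act a P) = - pt hM P + c

theorem Kp_one : Kp hM 1 := ⟨0, fun P => by rw [Helper45.S4.act_one, add_zero]⟩

theorem Kp_inv {a : M ≃ₐ[k] M} (h : Kp hM a) : Kp hM a⁻¹ := by
  obtain ⟨c, hc⟩ := h
  refine ⟨-c, fun P => ?_⟩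
  have h1 := hc (Pool.Agent.Helper45.S4.act a⁻¹ P)
  rw [act_inv_act] at h1
  rw [h1]
  abel

theorem Km_inv {a : M ≃ₐ[k] M} (h : Km hM a) : Km hM a⁻¹ := by
  obtain ⟨c, hc⟩ := h
  refine ⟨c, fun P => ?_⟩
  have h1 := hc (Pool.Agent.Helper45.S4.act a⁻¹ P)
  rw [act_inv_act] at h1
  rw [h1]
  abel

theorem Kp_mul {a b : M ≃ₐ[k] M} (ha : Kp hM a) (hb : Kp hM b) : Kp hM (a * b) := by
  obtain ⟨c, hc⟩ := ha
  obtain ⟨d, hd⟩ := hb
  refine ⟨d + c, fun P => ?_⟩
  rw [Helper45.S4.act_mul, hc, hd]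
  abel

theorem Kpm_mul {a b : M ≃ₐ[k] M} (ha : Kp hM a) (hb : Km hM b) : Km hM (a * b) := by
  obtain ⟨c, hc⟩ := ha
  obtain ⟨d, hd⟩ := hb
  refine ⟨d + c, fun P => ?_⟩
  rw [Helper45.S4.act_mul, hc, hd]
  abel

theorem Kmp_mul {a b : M ≃ₐ[k] M} (ha : Km hM a) (hb : Kp hM b) : Km hM (a * b) := by
  obtain ⟨c, hc⟩ := ha
  obtain ⟨d, hd⟩ := hb
  refine ⟨-d + c, fun P => ?_⟩
  rw [Helper45.S4.act_mul, hc, hd]
  abel

theorem Km_mul {a b : M ≃ₐ[k] M} (ha : Km hM a) (hb : Km hM b) : Kp hM (a * b) := by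
  obtain ⟨c, hc⟩ := ha
  obtain ⟨d, hd⟩ := hb
  refine ⟨-d + c, fun P => ?_⟩
  rw [Helper45.S4.act_mul, hc, hd]
  abel

/-- The group `A`. -/
def GA (ψ : M →ₐ[k] M) : Subgroup (M ≃ₐ[k] M) where
  carrier := {a | (∀ x, a (ψ x) = ψ (a x)) ∧ (Kp hM a ∨ Km hM a)}
  mul_mem' := by
    rintro a b ⟨ha, ha'⟩ ⟨hb, hb'⟩
    refine ⟨fun x => ?_, ?_⟩
    · change a (b (ψ x)) = ψ (a (b x))
      rw [hb, ha]
    · rcases ha' with ha' | ha' <;> rcases hb' with hb' | hb'
      · exact Or.inl (Kp_mul hM ha' hb')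
      · exact Or.inr (Kpm_mul hM ha' hb')
      · exact Or.inr (Kmp_mul hM ha' hb')
      · exact Or.inl (Km_mul hM ha' hb')
  one_mem' := ⟨fun _ => rfl, Or.inl (Kp_one hM)⟩
  inv_mem' := by
    rintro a ⟨ha, ha'⟩
    refine ⟨fun x => ?_, ?_⟩
    · change a.symm (ψ x) = ψ (a.symm x)
      rw [AlgEquiv.symm_apply_eq, ha, AlgEquiv.apply_symm_apply]
    · rcases ha' with ha' | ha'
      · exact Or.inl (Kp_inv hM ha')
      · exact Or.inr (Km_inv hM ha')

end kinds

section main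

variable [IsAlgClosed k] (hM : IsFunctionField k M) (hg : genus k M = 1) (ψ : M →ₐ[k] M)

include hg in
theorem Kp_eq {a b : M ≃ₐ[k] M} (ha : Kp hM a) (hb : Kp hM b) (O : Place k M)
    (h : Pool.Agent.Helper45.S4.act a O = Pool.Agent.Helper45.S4.act b O) : a = b := by
  obtain ⟨c, hc⟩ := ha
  obtain ⟨d, hd⟩ := hb
  apply act_ext hM
  intro P
  apply Helper84.EN.pt_injective hM hg
  have h1 := hc O
  rw [h, hd] at h1
  rw [hc, hd, add_left_cancel h1]

include hg in
theorem Km_eq {a b : M ≃ₐ[k] M} (ha : Km hM a) (hb : Km hM b) (O : Place k M)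
    (h : Pool.Agent.Helper45.S4.act a O = Pool.Agent.Helper45.S4.act b O) : a = b := by
  obtain ⟨c, hc⟩ := ha
  obtain ⟨d, hd⟩ := hb
  apply act_ext hM
  intro P
  apply Helper84.EN.pt_injective hM hg
  have h1 := hc O
  rw [h, hd] at h1
  rw [hc, hd, add_left_cancel h1]

include hg in
theorem finite_GA (O : Place k M) (hO : plc hM hM ψ O = O)
    (hfix : {w | plc hM hM ψ w = w}.Finite) :
    (GA hM ψ : Set (M ≃ₐ[k] M)).Finite ∧
      (GA hM ψ : Set (M ≃ₐ[k] M)).ncard ≤ 2 * {w | plc hM hM ψ w = w}.ncard := by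
  set X := {w | plc hM hM ψ w = w} with hX
  let A1 : Set (M ≃ₐ[k] M) := {a | (∀ x, a (ψ x) = ψ (a x)) ∧ Kp hM a}
  let A2 : Set (M ≃ₐ[k] M) := {a | (∀ x, a (ψ x) = ψ (a x)) ∧ Km hM a}
  have hA : (GA hM ψ : Set (M ≃ₐ[k] M)) = A1 ∪ A2 := by
    ext a
    constructor
    · rintro ⟨h1, h2 | h2⟩
      · exact Or.inl ⟨h1, h2⟩
      · exact Or.inr ⟨h1, h2⟩
    · rintro (⟨h1, h2⟩ | ⟨h1, h2⟩)
      · exact ⟨h1, Or.inl h2⟩
      · exact ⟨h1, Or.inr h2⟩
  have m1 : Set.MapsTo (fun a => Pool.Agent.Helper45.S4.act a O) A1 X := fun a ha => act_mem_fix hM ψ ha.1 hO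
  have m2 : Set.MapsTo (fun a => Pool.Agent.Helper45.S4.act a O) A2 X := fun a ha => act_mem_fix hM ψ ha.1 hO
  have i1 : Set.InjOn (fun a => Pool.Agent.Helper45.S4.act a O) A1 := fun a ha b hb h => Kp_eq hM hg ha.2 hb.2 O h
  have i2 : Set.InjOn (fun a => Pool.Agent.Helper45.S4.act a O) A2 := fun a ha b hb h => Km_eq hM hg ha.2 hb.2 O h
  have f1 : A1.Finite := Set.Finite.of_finite_image (hfix.subset m1.image_subset) i1
  have f2 : A2.Finite := Set.Finite.of_finite_image (hfix.subset m2.image_subset) i2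
  rw [hA]
  refine ⟨f1.union f2, ?_⟩
  have c1 : A1.ncard ≤ X.ncard := Set.ncard_le_ncard_of_injOn _ m1 i1 hfix
  have c2 : A2.ncard ≤ X.ncard := Set.ncard_le_ncard_of_injOn _ m2 i2 hfix
  have := Set.ncard_union_le A1 A2
  omega

include hg in
/-- The involution at a fixed place commutes with the endomorphism. -/
theorem involution_comm (O : Place k M) (hO : plc hM hM ψ O = O) (i : M ≃ₐ[k] M)
    (hi : ∀ P, pt hM (Pool.Agent.Helper45.S4.act i P) + pt hM P = (2 : ℕ) • pt hM O) (x : M) : i (ψ x) = ψ (i x) := by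
  classical
  -- push-forward on classes
  have hpush : ∀ D E : Dv k M, cl hM D = cl hM E →
      cl hM (Finsupp.mapDomain (plc hM hM ψ) D) = cl hM (Finsupp.mapDomain (plc hM hM ψ) E) := by
    intro D E h
    rw [cl_eq_iff] at h ⊢
    obtain ⟨f, hf, hfD⟩ := h
    obtain ⟨g, hg0, hgD⟩ := Helper31.EN.push_prin hM hM ψ f hf
    refine ⟨g, hg0, ?_⟩
    rw [← hgD, ← hfD]
    have := (Finsupp.mapDomain.addMonoidHom (plc hM hM ψ) : Dv k M →+ Dv k M).map_sub D E
    exact this.symm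
  have hpt : ∀ P, pt hM (plc hM hM ψ (Pool.Agent.Helper45.S4.act i P)) = pt hM (Pool.Agent.Helper45.S4.act i (plc hM hM ψ P)) := by
    intro P
    have h1 : cl hM (Finsupp.single (Pool.Agent.Helper45.S4.act i P) 1 + Finsupp.single P 1) =
        cl hM (Finsupp.single O 1 + Finsupp.single O 1) := by
      rw [map_add, map_add]
      have := hi P
      rw [two_nsmul] at this
      exact this
    have h2 := hpush _ _ h1
    rw [Finsupp.mapDomain_add, Finsupp.mapDomain_add, Finsupp.mapDomain_single,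
      Finsupp.mapDomain_single, Finsupp.mapDomain_single, hO, map_add, map_add] at h2
    have h3 : pt hM (plc hM hM ψ (Pool.Agent.Helper45.S4.act i P)) + pt hM (plc hM hM ψ P) = pt hM O + pt hM O := h2
    have h4 := hi (plc hM hM ψ P)
    rw [two_nsmul, ← h3] at h4
    exact (add_right_cancel h4).symm
  have hpl : ∀ P, plc hM hM ψ (Pool.Agent.Helper45.S4.act i P) = Pool.Agent.Helper45.S4.act i (plc hM hM ψ P) := fun P =>
    Helper84.EN.pt_injective hM hg (hpt P)
  have h5 : (((i⁻¹ : M ≃ₐ[k] M) : M →ₐ[k] M).comp ψ) = ψ.comp ((i⁻¹ : M ≃ₐ[k] M) : M →ₐ[k] M) := by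
    apply hom_ext_of_plc hM hM
    intro w
    rw [← plc_act, hpl, plc_comp hM hM hM, plc_equiv, inv_inv]
  have h6 := DFunLike.congr_fun h5 (i x)
  change i.symm (ψ (i x)) = ψ (i.symm (i x)) at h6
  rw [AlgEquiv.symm_apply_apply, AlgEquiv.symm_apply_eq] at h6
  exact h6.symm

end main

end Pool.Agent.Helper47.EN

end

section

set_option autoImplicit false

set_option linter.style.haveILetI false

namespace Pool.Agent.Helper47.EN

open Pool.Agent.Helper16 Pool.Agent.Helper45.S4 Pool.Agent.Helper47.RR IntermediateField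

variable {k M : Type} [Field k] [Field M] [Algebra k M]

section semi

variable (hM : IsFunctionField k M) (γ : M ≃+* M) (γ₀ : k ≃+* k)
  (hγ : ∀ c : k, γ (algebraMap k M c) = algebraMap k M (γ₀ c))

/-- the action on classes -/
theorem exists_twCl : ∃ T : Cl hM →+ Cl hM, ∀ P, T (pt hM P) = pt hM (tw γ γ₀ hγ P) := by
  classical
  have hle : PrinSub hM ≤ (PrinSub hM).comap
      (Finsupp.mapDomain.addMonoidHom (tw γ γ₀ hγ) : Dv k M →+ Dv k M) := by
    rintro _ ⟨f, hf, rfl⟩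
    refine ⟨γ.symm f, by simpa using hf, ?_⟩
    rw [← tw_prin hM γ γ₀ hγ (γ.symm f), RingEquiv.apply_symm_apply]
    rfl
  refine ⟨QuotientAddGroup.map _ _ _ hle, fun P => ?_⟩
  change cl hM (Finsupp.mapDomain (tw γ γ₀ hγ) (Finsupp.single P 1)) = _
  rw [Finsupp.mapDomain_single]
  rfl

theorem Kp_conj {a : M ≃ₐ[k] M} (ha : Kp hM a) : Kp hM (conjSemi γ γ₀ hγ a) := by
  obtain ⟨T, hT⟩ := exists_twCl hM γ γ₀ hγ
  obtain ⟨c, hc⟩ := ha
  refine ⟨T c, fun P => ?_⟩
  rw [act_conjSemi, ← hT, hc, map_add, hT, tw_tw]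

theorem Km_conj {a : M ≃ₐ[k] M} (ha : Km hM a) : Km hM (conjSemi γ γ₀ hγ a) := by
  obtain ⟨T, hT⟩ := exists_twCl hM γ γ₀ hγ
  obtain ⟨c, hc⟩ := ha
  refine ⟨T c, fun P => ?_⟩
  rw [act_conjSemi, ← hT, hc, map_add, map_neg, hT, tw_tw]

theorem conj_mem_GA (ψ : M →ₐ[k] M) (hcomm : ∀ x, γ (ψ x) = ψ (γ x)) {a : M ≃ₐ[k] M}
    (ha : a ∈ GA hM ψ) : conjSemi γ γ₀ hγ a ∈ GA hM ψ := by
  obtain ⟨h1, h2⟩ := ha
  refine ⟨fun x => ?_, ?_⟩
  · rw [conjSemi_apply, conjSemi_apply, hcomm, h1, RingEquiv.symm_apply_eq, hcomm,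
      RingEquiv.apply_symm_apply]
  · rcases h2 with h2 | h2
    · exact Or.inl (Kp_conj hM γ γ₀ hγ h2)
    · exact Or.inr (Km_conj hM γ γ₀ hγ h2)

include hγ in
theorem semi_mem_fixed (ψ : M →ₐ[k] M) (hcomm : ∀ x, γ (ψ x) = ψ (γ x)) {x : M}
    (hx : x ∈ fixedField (GA hM ψ)) : γ x ∈ fixedField (GA hM ψ) := by
  rw [mem_fixedField_iff] at hx ⊢
  intro a ha
  have h1 := hx _ (conj_mem_GA hM γ γ₀ hγ ψ hcomm ha)
  rw [conjSemi_apply, RingEquiv.symm_apply_eq] at h1
  exact h1

end semi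

section main

variable [IsAlgClosed k] (hM : IsFunctionField k M)

include hM in
/-- the genus one case -/
theorem quotient_genus_one (hg : genus k M = 1) (ψ : M →ₐ[k] M) (g : M) (hψ : ψ g ≠ g)
    (ht : Transcendental k g) (O : Place k M) (hO : plc hM hM ψ O = O) :
    ∃ y : M, Transcendental k y ∧ (∀ x ∈ k⟮y⟯, ψ x ∈ k⟮y⟯) ∧
      Module.finrank k⟮y⟯ M ≤ 2 * (2 * Module.finrank k⟮g⟯ M + Module.finrank k⟮ψ g⟯ M) ∧
      ∀ (γ : M ≃+* M) (γ₀ : k ≃+* k), (∀ c, γ (algebraMap k M c) = algebraMap k M (γ₀ c)) →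
        (∀ x, γ (ψ x) = ψ (γ x)) → ∀ x ∈ k⟮y⟯, γ x ∈ k⟮y⟯ := by
  obtain ⟨hfin, hcard⟩ := finite_fix hM ψ g hψ ht
  obtain ⟨h1, h2⟩ := finite_GA hM hg ψ O hO hfin
  obtain ⟨h3, h4, h5⟩ := artin (GA hM ψ) h1
  obtain ⟨i, u, hu, -, hiu, hi⟩ := Helper84.EN.exists_involution hM hg O
  have hiA : i ∈ GA hM ψ := by
    refine ⟨involution_comm hM hg ψ O hO i hi, Or.inr ⟨(2 : ℕ) • pt hM O, fun P => ?_⟩⟩
    rw [← hi P]
    abel
  have hR : fixedField (GA hM ψ) ≤ k⟮u⟯ := by
    intro x hx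
    rw [mem_fixedField_iff] at hx
    exact (hiu x).1 (hx i hiA)
  obtain ⟨y, hy, hRy⟩ := luroth u hu _ hR
  refine ⟨y, hy, ?_, ?_, ?_⟩
  · rw [← hRy]
    intro x hx
    rw [mem_fixedField_iff] at hx ⊢
    intro a ha
    rw [ha.1, hx a ha]
  · rw [← hRy]
    omega
  · intro γ γ₀ hγ hcomm x hx
    rw [← hRy] at hx ⊢
    exact semi_mem_fixed hM γ γ₀ hγ ψ hcomm hx

end main

end Pool.Agent.Helper47.EN

end

section

set_option autoImplicit false

set_option linter.style.haveILetI false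

namespace Pool.Agent.Helper38.DT

open Polynomial IntermediateField Pool.Agent.Helper16 Pool.Agent.Helper45.S4 Pool.Agent.Helper45.FR
  Pool.Agent.Helper93.RatODE Pool.Agent.Helper45.S6 Pool.Agent.Helper47.EN Pool.Agent.Helper34.Dep

/-- The case of one orbit. -/
theorem core_one {k L Om M : Type} [Field k] [IsAlgClosed k] [Field L] [Algebra k L] [Field Om]
    [IsAlgClosed Om] [Algebra k Om] [Algebra L Om] [IsScalarTower k L Om]
    [Algebra.IsAlgebraic L Om] (hQ : QuotStmt) (h8 : CorrStmt)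
    (hL : IsFunctionField k L) (t : L) (ht : Transcendental k t) [Algebra.IsSeparable k⟮t⟯ L]
    (n : ℕ) (hn : Module.finrank k⟮t⟯ L ≤ n) (F G : L[X]) (d : ℕ) (hd : 2 ≤ d)
    (hFG : IsRatD F G d) (hins : ¬ PInsep F G d) (x : ℕ → L) (hx : RatOrbit F G x 2)
    (L₀ : IntermediateField k⟮t⟯ L) (hL₀ : L₀ ≠ ⊤) (Γ : Set (Om ≃+* Om))
    (hΓ : ∀ a : Om, (∀ g ∈ Γ, g a = a) → ∃ e : ℕ, ∃ b ∈ L₀,
        a ^ (ringExpChar k ^ e) = algebraMap L Om b)
    (hΓk : ∀ g ∈ Γ, ∀ a : k, g (algebraMap k Om a) = algebraMap k Om a)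
    [Field M] [Algebra Om M] (hM : IsFunctionField Om M) (Φ : M →ₐ[Om] M) (z : M) (r C : ℕ)
    (w : ℕ → Place Om M) (hr1 : 1 ≤ r) (hrC : r ≤ C) (hz : Transcendental Om z)
    (hzC : Module.finrank Om⟮z⟯ M ≤ C)
    (hΦ : Φ z * aeval z (iter (F.map (algebraMap L Om)) (G.map (algebraMap L Om)) d r).2 =
      aeval z (iter (F.map (algebraMap L Om)) (G.map (algebraMap L Om)) d r).1)
    (hw : ∀ l, w (l + 1) = plc hM hM Φ (w l)) (hwfin : (Set.range w).Finite)
    (N₂ N₁ : ℕ) (hN₁ : N₁ = (N₂ + 2) * (2 * (2 * C + d ^ (C * C) * C) + 1))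
    (hwinj : ∀ l l', l ≤ C * N₁ → l' ≤ C * N₁ → w l = w l' → l = l')
    (hext : ∀ g ∈ Γ, ∃ g' : M ≃+* M,
        (∀ c, g' (algebraMap Om M c) = algebraMap Om M (g c)) ∧
        (∀ u, g' (Φ u) = Φ (g' u)) ∧ ∀ l u, (w l).val (g' u) = (w l).val u)
    (hIH : ∀ ρ, 1 ≤ ρ → ρ ≤ C * C → ∀ (K : Type) [Field K] [Algebra k K] (s : K),
      IsFunctionField k K → Transcendental k s → Algebra.IsSeparable k⟮s⟯ K →
      Module.finrank k⟮s⟯ K ≤ n - 1 →
      ∀ F G : K[X], IsCoprime F G → F.natDegree ≤ d ^ ρ → G.natDegree ≤ d ^ ρ →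
        (F.coeff (d ^ ρ) ≠ 0 ∨ G.coeff (d ^ ρ) ≠ 0) → ∀ x : ℕ → K, RatOrbit F G x N₂ →
        ConstConj k F G (d ^ ρ)) : ConstConj k F G d := by
  classical
  have hFG' := isRatD_map (E := Om) hFG
  have hins' : ¬ PInsep (F.map (algebraMap L Om)) (G.map (algebraMap L Om)) d :=
    fun h => hins (pInsep_of_map hd h)
  generalize hF' : F.map (algebraMap L Om) = F' at *
  generalize hG' : G.map (algebraMap L Om) = G' at *
  have hsep2 := Pool.Agent.Helper31.DT.dt2b hM Φ z hz F' G' d hd hFG' hins' r hr1 hΦ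
  have hmemz : ∀ (Ψ : M →ₐ[Om] M) (ρ : ℕ), Ψ z * aeval z (iter F' G' d ρ).2 =
      aeval z (iter F' G' d ρ).1 → Ψ z = aeval z (iter F' G' d ρ).1 / aeval z (iter F' G' d ρ).2 ∧
        Ψ z ∈ Om⟮z⟯ := by
    intro Ψ ρ h
    have h1 : aeval z (iter F' G' d ρ).2 ≠ 0 := fun h0 =>
      hz ⟨_, iter_snd_ne_zero F' G' d hd hFG' ρ, h0⟩
    have h2 : Ψ z = aeval z (iter F' G' d ρ).1 / aeval z (iter F' G' d ρ).2 := by
      rw [← h, mul_div_cancel_right₀ _ h1]
    refine ⟨h2, ?_⟩
    rw [h2]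
    exact (mem_adjoin_simple_iff Om _).2 ⟨_, _, rfl⟩
  obtain ⟨i, y₀, hi1, hiz, hy₀, hΨy, hfr, hsymm⟩ := hQ Om M hM Φ hsep2 z hz (hmemz Φ r hΦ).2
  have hiC : i ≤ C := hiz.trans hzC
  have hρ1 : 1 ≤ r * i := Nat.mul_pos hr1 hi1
  have hρC : r * i ≤ C * C := Nat.mul_le_mul hrC hiC
  have hΨz := iter_endo hz F' G' d hd hFG' Φ r hΦ i
  obtain ⟨hΨz1, hΨz2⟩ := hmemz (Φ ^ i) (r * i) hΨz
  have hitD := isRatD_iter F' G' d hFG' (r * i)
  have hmaxdeg : max (iter F' G' d (r * i)).1.natDegree (iter F' G' d (r * i)).2.natDegree =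
      d ^ (r * i) := by
    apply le_antisymm (max_le hitD.degF hitD.degG)
    rcases hitD.top with h | h
    · exact (le_natDegree_of_ne_zero h).trans (le_max_left _ _)
    · exact (le_natDegree_of_ne_zero h).trans (le_max_right _ _)
  have hrel : relfinrank Om⟮(Φ ^ i) z⟯ Om⟮z⟯ = d ^ (r * i) := by
    rw [hΨz1, relfinrank_ratio hz hitD.cop (iter_snd_ne_zero F' G' d hd hFG' _), hmaxdeg]
  haveI := hM.finiteDimensional z hz
  have hzpos : 0 < Module.finrank Om⟮z⟯ M := Module.finrank_pos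
  have hδ : Module.finrank (Φ ^ i).fieldRange M = d ^ (r * i) := by
    rw [← relfinrank_endo (Φ ^ i) z hΨz2 hzpos.ne', hrel]
  have hfr2 : Module.finrank Om⟮(Φ ^ i) z⟯ M ≤ d ^ (C * C) * C := by
    have h1 : Om⟮(Φ ^ i) z⟯ ≤ Om⟮z⟯ := by
      rw [adjoin_simple_le_iff]; exact hΨz2
    rw [← relfinrank_mul_finrank_top h1, hrel]
    exact Nat.mul_le_mul (Nat.pow_le_pow_right (by omega) hρC) hzC
  have hfry : Module.finrank Om⟮y₀⟯ M ≤ 2 * (2 * C + d ^ (C * C) * C) + 1 := by omega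
  -- the orbit of places
  have hwstep : ∀ (j l : ℕ) (h : M), (w (l + j)).val h < 1 ↔ (w l).val ((Φ ^ j) h) < 1 := by
    intro j
    induction j with
    | zero => intro l h; rfl
    | succ j ih =>
      intro l h
      have e1 : l + (j + 1) = (l + j) + 1 := by ring
      rw [e1, hw, plc_val_lt_one, ih l (Φ h)]
      have e2 : (Φ ^ j) (Φ h) = (Φ ^ (j + 1)) h := by
        rw [pow_succ]; rfl
      rw [e2]
  choose! ext hext1 hext2 hext3 using hext
  have hinf : {e : Om | ∀ g ∈ Γ, g e = e}.Infinite := by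
    haveI : Infinite k := IsAlgClosed.instInfinite
    refine Set.Infinite.mono ?_ (Set.infinite_range_of_injective (algebraMap k Om).injective)
    rintro _ ⟨a, rfl⟩ g hg
    exact hΓk g hg a
  have hN₁a : 2 * Module.finrank Om⟮y₀⟯ M ≤ N₁ := by
    rw [hN₁]
    exact Nat.mul_le_mul (by omega) hfry
  have hN₁b : N₂ * Module.finrank Om⟮y₀⟯ M ≤ N₁ := by
    rw [hN₁]
    exact Nat.mul_le_mul (by omega) hfry
  obtain ⟨y, A, B, c, hy, hadj, hAB, hΨAB, hfix, hstep, hcfin, hcinj⟩ :=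
    partC hM (Φ ^ i) y₀ hy₀ hΨy (fun l => w (l * i))
      (by
        intro l h
        have := hwstep i (l * i) h
        rwa [← Nat.succ_mul] at this)
      (hwfin.subset (by rintro _ ⟨l, rfl⟩; exact ⟨_, rfl⟩))
      N₁ N₂
      (by
        intro a b ha hb hab
        have h1 : a * i ≤ C * N₁ := by rw [mul_comm]; exact Nat.mul_le_mul hiC ha
        have h2 : b * i ≤ C * N₁ := by rw [mul_comm]; exact Nat.mul_le_mul hiC hb
        exact Nat.eq_of_mul_eq_mul_right hi1 (hwinj _ _ h1 h2 hab))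
      hN₁a hN₁b Γ hinf ext hext1 (fun g hg l h => hext3 g hg _ h)
      (by
        intro g hg
        obtain ⟨a, b, c, e, hdet, -, hgy⟩ := hsymm (ext g) g (hext1 g hg) (hext2 g hg)
        refine ⟨!![a, b; c, e], ?_, ?_⟩
        · rw [Matrix.det_fin_two]
          simpa using hdet
        · rw [hgy]
          simp [mob])
      (by
        intro g hg u
        have : ∀ j : ℕ, ∀ u, ext g ((Φ ^ j) u) = (Φ ^ j) (ext g u) := by
          intro j
          induction j with
          | zero => intro u; rfl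
          | succ j ih =>
            intro u
            have e2 : ∀ v, (Φ ^ (j + 1)) v = (Φ ^ j) (Φ v) := by
              intro v
              rw [pow_succ]; rfl
            rw [e2, e2, ih, hext2 g hg]
        exact this i u)
  rw [hδ] at hAB
  have hcc : ConstConj k A B (d ^ (r * i)) := by
    refine partD hL t ht n hn L₀ hL₀ A B (d ^ (r * i)) N₂ hAB c ?_ ?_ ?_ hstep hcfin hcinj
      (hIH (r * i) hρ1 hρC)
    · intro j
      refine hΓ _ fun g hg => ?_
      have h1 := (hfix g hg).1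
      have h2 := congrArg (fun p => Polynomial.coeff p j) h1
      simpa using h2
    · intro j
      refine hΓ _ fun g hg => ?_
      have h1 := (hfix g hg).2.1
      have h2 := congrArg (fun p => Polynomial.coeff p j) h1
      simpa using h2
    · intro l
      exact hΓ _ fun g hg => (hfix g hg).2.2 l
  obtain ⟨q, m', n', hcorr⟩ := h8 hM (Φ ^ i) y z hy hz A B _ _ _ _ hAB hitD hΨAB hΨz
  have hδ2 : 2 ≤ d ^ (r * i) := hd.trans (Nat.le_self_pow (by omega) d)
  have hfin := Pool.Agent.Helper91.DT.dt6 (trdeg_eq_one hL) F' G' d hd hFG' A B _ hδ2 hAB hcc q m'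
    n' (r * i) hρ1 hcorr
  rw [← hF', ← hG'] at hfin
  exact dt6b F G d hd hFG hfin x hx

theorem indep_of_abs_core (k : Type) [Field k] [IsAlgClosed k] (d n : ℕ) (hd : 2 ≤ d)
    (hPA : ∀ m, PartAStmt d n m) (hQ : QuotStmt) (h8 : CorrStmt)
    (hIH : ∀ d' n' : ℕ, 2 ≤ d' → n' < n → AbsS k d' n') : Indep k d n := by
  classical
  intro m
  obtain ⟨C, hC⟩ := hPA m
  rcases Nat.eq_zero_or_pos n with hn0 | hn0
  · refine ⟨0, ?_⟩
    intro L _ _ t hL ht hsep hfin
    haveI := finiteDimensional_adjoin hL t ht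
    have : 0 < Module.finrank k⟮t⟯ L := Module.finrank_pos
    omega
  have hpow : ∀ ρ : ℕ, 1 ≤ ρ → 2 ≤ d ^ ρ := fun ρ hρ =>
    hd.trans (Nat.le_self_pow (by omega) d)
  have hAbs : ∀ ρ : ℕ, 1 ≤ ρ → AbsS k (d ^ ρ) (n - 1) := fun ρ hρ =>
    hIH (d ^ ρ) (n - 1) (hpow ρ hρ) (by omega)
  unfold AbsS at hAbs
  choose! f hf using hAbs
  obtain ⟨N₂, hN₂⟩ : ∃ N₂, ∀ ρ ≤ C * C, f ρ ≤ N₂ :=
    ⟨(Finset.range (C * C + 1)).sup f, fun ρ hρ =>
      Finset.le_sup (f := f) (Finset.mem_range.2 (by omega))⟩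
  obtain ⟨N₁, hN₁⟩ : ∃ N₁, N₁ = (N₂ + 2) * (2 * (2 * C + d ^ (C * C) * C) + 1) := ⟨_, rfl⟩
  obtain ⟨N, hN⟩ := hC (C * N₁)
  refine ⟨N + 3, ?_⟩
  intro L _ _ t hL ht hsep hfin F G hcop hF hG htop x hx τ hτ P hP hdeg hrel
  have hFG : IsRatD F G d := ⟨hcop, hF, hG, htop⟩
  by_cases hins : PInsep F G d
  · exact dt7b F G d hd hFG hins x (ratOrbit_mono hx (by omega))
  obtain ⟨L₀, Γ, M, _, _, hM, Φ, z, r, j₀, w, hL₀, hΓ, hr1, hrC, -, hz, hzC, hΦ, hw, hwfin, hwinj,
    -, hext⟩ := hN k L t hL ht hsep hfin F G hFG x (ratOrbit_mono hx (by omega)) τ hτ P hP hdeg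
      (fun j hj => hrel j (by omega))
  refine core_one (Om := AlgebraicClosure L) hQ h8 hL t ht n hfin F G d hd hFG hins x
    (ratOrbit_mono hx (by omega)) L₀ hL₀
    {g | ∃ γ ∈ Γ, g = (γ : AlgebraicClosure L ≃ₐ[k⟮t⟯] AlgebraicClosure L).toRingEquiv} ?_ ?_ hM Φ z
    r C w hr1 hrC hz hzC hΦ hw hwfin N₂ N₁ hN₁ hwinj ?_ ?_
  · intro a ha
    exact hΓ a fun g hg => ha _ ⟨g, hg, rfl⟩
  · rintro _ ⟨g, hg, rfl⟩ a
    change g (algebraMap k (AlgebraicClosure L) a) = _
    have h1 : algebraMap k (AlgebraicClosure L) a =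
        algebraMap k⟮t⟯ (AlgebraicClosure L) (algebraMap k k⟮t⟯ a) := by
      rw [← IsScalarTower.algebraMap_apply]
    rw [h1]
    exact g.commutes _
  · rintro _ ⟨g, hg, rfl⟩
    exact hext g hg
  · intro ρ hρ1 hρC K _ _ s hK hs hsepK hfinK F₁ G₁ h1 h2 h3 h4 x₁ hx₁
    exact hf ρ hρ1 K s hK hs hsepK hfinK F₁ G₁ h1 h2 h3 h4 x₁ (ratOrbit_mono hx₁ (hN₂ ρ hρC))

end Pool.Agent.Helper38.DT

end
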