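import Pool.Agent.Helper23.MB.L03_ab1
import Pool.Agent.Helper23.MB.L03_ab3
import Pool.Agent.Helper23.MB.L03_ab4
import Pool.Agent.Helper23.MB.L03_ab5
import Pool.Agent.Helper23.MB.L03_ab6
import Pool.Agent.Helper23.MB.L03_ab7

/-!
Parts of Helper31.RRK.Tower, Helper31.RRK.Can, Helper31.RRK.Genus, Helper31.RRK.Frob
-/

attribute [-simp] Valuation.IsUniformizer.val
attribute [local instance 5000]
  Pool.Agent.Helper23.MB.Inst.rCharZero Pool.Agent.Helper23.MB.Inst.rALM
  Pool.Agent.Helper23.MB.Inst.rARM Pool.Agent.Helper23.MB.Inst.rALSM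
  Pool.Agent.Helper23.MB.Inst.rARSM Pool.Agent.Helper23.MB.Inst.rARRLE
  Pool.Agent.Helper23.MB.Inst.rALRLE Pool.Agent.Helper23.MB.Inst.rARRLT
  Pool.Agent.Helper23.MB.Inst.rALRLT Pool.Agent.Helper23.MB.Inst.rPMRLT
  Pool.Agent.Helper23.MB.Inst.rMPRLT Pool.Agent.Helper23.MB.Inst.rPMM
  Pool.Agent.Helper23.MB.Inst.rMPM Pool.Agent.Helper23.MB.Inst.rPMSM
  Pool.Agent.Helper23.MB.Inst.rMPSM Pool.Agent.Helper23.MB.Inst.rEAOL
  Pool.Agent.Helper23.MB.Inst.rIOR Pool.Agent.Helper23.MB.Inst.rISOR
  Pool.Agent.Helper23.MB.Inst.rNZD Pool.Agent.Helper23.MB.Inst.zCharZero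
  Pool.Agent.Helper23.MB.Inst.zALM Pool.Agent.Helper23.MB.Inst.zARM
  Pool.Agent.Helper23.MB.Inst.zIOR Pool.Agent.Helper23.MB.Inst.zISOR
  Pool.Agent.Helper23.MB.Inst.zNZD Pool.Agent.Helper23.MB.Inst.qCharZero
  Pool.Agent.Helper23.MB.Inst.free Pool.Agent.Helper23.MB.Inst.faith
  Pool.Agent.Helper23.MB.Inst.torsionFree Pool.Agent.Helper23.MB.Inst.rfFaith
  Pool.Agent.Helper23.MB.Inst.hAdd Pool.Agent.Helper23.MB.Inst.hAddM
  Pool.Agent.Helper23.MB.Inst.hMul Pool.Agent.Helper23.MB.Inst.hMon
  Pool.Agent.Helper23.MB.Inst.hZero Pool.Agent.Helper23.MB.Inst.hOne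
  Pool.Agent.Helper23.MB.Inst.hMZ Pool.Agent.Helper23.MB.Inst.hRing
  Pool.Agent.Helper23.MB.Inst.aAdd Pool.Agent.Helper23.MB.Inst.aAddM
  Pool.Agent.Helper23.MB.Inst.aMul Pool.Agent.Helper23.MB.Inst.aMon
  Pool.Agent.Helper23.MB.Inst.aZero Pool.Agent.Helper23.MB.Inst.aOne
  Pool.Agent.Helper23.MB.Inst.aMZ Pool.Agent.Helper23.MB.Inst.aRing

namespace Pool.Agent.Helper16
end Pool.Agent.Helper16
namespace Pool.Agent.Helper33
end Pool.Agent.Helper33
namespace Pool.Agent.Helper45.FF
end Pool.Agent.Helper45.FF
namespace Pool.Agent.Helper45.S4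
end Pool.Agent.Helper45.S4
namespace Pool.Agent.Helper47.RR
end Pool.Agent.Helper47.RR

section

set_option autoImplicit false

set_option linter.style.haveILetI false

namespace Pool.Agent.Helper31.RRK

open Polynomial IntermediateField Pool.Agent.Helper16 Pool.Agent.Helper33 Pool.Agent.Helper45.FF

open Pool.Agent.Helper45.S4 Pool.Agent.Helper47.RR

section cdeg

variable {k L : Type} [Field k] [Field L] [Algebra k L]

theorem canD_smul [IsAlgClosed k] (hN : IsFunctionField k L) {D : Derivation k L L}
    (hD : D ≠ 0) {h : L} (h0 : h ≠ 0) : canD hN (h • D) = canD hN D - prin hN h := by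
  ext v
  rw [canD_apply hN (smul_ne_zero h0 hD), Finsupp.sub_apply, canD_apply hN hD, prin_apply,
    ordDer_smul v hN hD h0]
  ring

theorem degD_canD [IsAlgClosed k] (hN : IsFunctionField k L) {D : Derivation k L L}
    (hD : D ≠ 0) : degD (canD hN D) = cdeg hN := by
  have h1 := (exists_ne_zero hN).choose_spec
  obtain ⟨h, hh⟩ := exists_eq_smul hN h1 D
  have h0 : h ≠ 0 := by
    rintro rfl
    rw [zero_smul] at hh
    exact hD hh
  rw [hh, canD_smul hN h1 h0, sub_eq_add_neg, degD_add', degD_neg', degD_prin', neg_zero,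
    add_zero]
  rfl

end cdeg

section tower

variable {k L M : Type} [Field k] [Field L] [Field M] [Algebra k L] [Algebra k M] [Algebra L M]
  [IsScalarTower k L M]

variable [FiniteDimensional L M]

/-- **The Hurwitz formula** for a finite separable extension of function fields of one variable
over an algebraically closed field (any characteristic, wild ramification allowed): `d` is the
different divisor. -/
theorem hurwitz [IsAlgClosed k] (hN : IsFunctionField k L) (hM : IsFunctionField k M)
    [Algebra.IsSeparable L M] :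
    ∃ d : Dv k M, (∀ w, (ram hN w : ℤ) - 1 ≤ d w) ∧
      (∀ w, (ram hN w : k) ≠ 0 → (ram hN w : ℤ) - 1 = d w) ∧
      cdeg hM = Module.finrank L M * cdeg hN + degD d := by
  obtain ⟨D, hD⟩ := exists_ne_zero hN
  obtain ⟨D', hD'⟩ := exists_extension (M := M) hN D
  have hne := ne_zero_of_ext hD hD'
  obtain ⟨B, hB1, hB2⟩ := sum_pullback (M := M) hN (canD hN D)
  have hd : ∀ w, (canD hM D' - B) w = ram hN w * ordDer (resPl hN w) D - ordDer w D' := by
    intro w
    rw [Finsupp.sub_apply, hB1, canD_apply hM hne, canD_apply hN hD]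
    ring
  refine ⟨canD hM D' - B, fun w => ?_, fun w hw => ?_, ?_⟩
  · rw [hd]
    exact (ram_le hN hM hD hD' w).1
  · rw [hd]
    exact (ram_le hN hM hD hD' w).2 hw
  · rw [sub_eq_add_neg, degD_add', degD_neg', hB2, degD_canD hM hne, degD_canD hN hD]
    ring

/-- Hurwitz inequality. -/
theorem hurwitz_le [IsAlgClosed k] (hN : IsFunctionField k L) (hM : IsFunctionField k M)
    [Algebra.IsSeparable L M] : Module.finrank L M * cdeg hN ≤ cdeg hM := by
  obtain ⟨d, h1, -, h3⟩ := hurwitz hN hM
  have : 0 ≤ degD d := by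
    apply degD_nonneg
    intro w
    have := h1 w
    have := ram_pos hN w
    omega
  omega

end tower

section rational

variable {k L : Type} [Field k] [Field L] [Algebra k L]

/-- The rational function field has a canonical divisor of degree `-2`. -/
theorem cdeg_rational [IsAlgClosed k] (hN : IsFunctionField k L) (t : L) (h : k⟮t⟯ = ⊤) :
    cdeg hN = -2 := by
  have ht : Transcendental k t := by
    intro hal
    have h1 : Algebra.IsAlgebraic k k⟮t⟯ :=
      IntermediateField.isAlgebraic_adjoin_simple hal.isIntegral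
    rw [h] at h1
    haveI : Algebra.IsAlgebraic k L :=
      (IntermediateField.topEquiv (F := k) (E := L)).isAlgebraic_iff.1 h1
    have h2 := hN.2
    rw [trdeg_eq_zero (R := k) (A := L)] at h2
    exact zero_ne_one h2
  have ht0 := transcendental_ne_zero ht
  haveI : Algebra.IsSeparable k⟮t⟯ L := by
    refine ⟨fun x => ?_⟩
    have hx : x ∈ k⟮t⟯ := by rw [h]; exact mem_top
    exact isSeparable_algebraMap (⟨x, hx⟩ : k⟮t⟯)
  obtain ⟨D, hD⟩ := exists_deriv t ht
  have hne : D ≠ 0 := by
    rintro rfl
    simp at hD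
  obtain ⟨S, hS, hsum, -⟩ := hN.zeros t⁻¹ (transcendental_inv ht)
  have hs0 : t⁻¹ ≠ 0 := inv_ne_zero ht0
  have hfin : Module.finrank k⟮t⁻¹⟯ L = 1 := by
    rw [finrank_inv, h]
    exact IntermediateField.finrank_top
  simp only [deg_eq_one hN, hfin, Nat.cast_one, mul_one] at hsum
  have hpos : ∀ v ∈ S, 1 ≤ v.ord t⁻¹ := by
    intro v hv
    have := (v.ord_pos_iff hs0).2 ((hS v).1 hv)
    omega
  have hone : ∀ v ∈ S, v.ord t⁻¹ = 1 := by
    intro v hv
    have h1 : v.ord t⁻¹ ≤ ∑ v ∈ S, v.ord t⁻¹ :=
      Finset.single_le_sum (f := fun v : Place k L => v.ord t⁻¹)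
        (fun w hw => (zero_le_one).trans (hpos w hw)) hv
    have := hpos v hv
    omega
  have h1 : ∀ v ∈ S, canD hN D v = -2 * v.ord t⁻¹ := by
    intro v hv
    have hu : v.val t⁻¹ = WithZero.exp (-1 : ℤ) := val_eq_exp_of_ord hs0 (hone v hv)
    rw [canD_apply hN hne, ← ord_D_pi v D hN hu, Derivation.leibniz_inv, hD, smul_eq_mul, mul_one]
    have h2 : v.ord (-(t⁻¹ ^ 2)) = 2 * v.ord t⁻¹ := by
      rw [Place.ord, Valuation.map_neg, map_pow, WithZero.log_pow, Place.ord]
      simp
    rw [h2]
    ring
  have h2 : (canD hN D).support ⊆ S := by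
    intro v hv
    by_contra hvS
    rw [Finsupp.mem_support_iff, canD_apply hN hne] at hv
    apply hv
    rw [hS, not_lt, map_inv₀] at hvS
    have hvt : v.val t ≤ 1 := by
      have h00 : v.val t ≠ 0 := by simpa using ht0
      exact (one_le_inv₀ (zero_lt_iff.2 h00)).1 hvS
    obtain ⟨c, hc⟩ := exists_res_val hN v t hvt
    have hcne : t - algebraMap k L c ≠ 0 := by
      intro h0
      apply ht
      rw [sub_eq_zero.1 h0]
      exact isAlgebraic_algebraMap c
    have h3 := ord_gen_eq_one hN t ht h c v ((v.ord_pos_iff hcne).2 hc)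
    have hu : v.val (t - algebraMap k L c) = WithZero.exp (-1 : ℤ) := val_eq_exp_of_ord hcne h3
    rw [← ord_D_pi v D hN hu, map_sub, Derivation.map_algebraMap, sub_zero, hD, v.ord_one,
      neg_zero]
  rw [← degD_canD hN hne, degD_eq_sum _ S h2, Finset.sum_congr rfl h1, ← Finset.mul_sum, hsum]
  norm_num

end rational

end Pool.Agent.Helper31.RRK

end

section

set_option autoImplicit false

set_option linter.style.haveILetI false

set_option linter.unusedSectionVars false

namespace Pool.Agent.Helper31.RRK

open Polynomial IntermediateField Pool.Agent.Helper16 Pool.Agent.Helper33 Pool.Agent.Helper45.FF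

open Pool.Agent.Helper45.S4 Pool.Agent.Helper47.RR

variable {k L M : Type} [Field k] [Field L] [Field M] [Algebra k L] [Algebra k M] [Algebra L M]
  [IsScalarTower k L M]

variable [IsAlgClosed k] (hN : IsFunctionField k L) [FiniteDimensional L M]

section cotrace

variable (W : Dv k L)

/-- The cotrace of a Weil differential, with its characterisation. -/
theorem exists_cotrace' [Algebra.IsSeparable L M]
    {ω : Ad k L →ₗ[k] k} (hω : ω ∈ Om W) (hω0 : ω ≠ 0) :
    ∃ ω' : Ad k M →ₗ[k] k, ω' ∈ Om (Con hN W) ∧ ω' ≠ 0 ∧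
      ∀ (α : Ad k M) (b : Place k L → M), Rel hN W (α : Place k M → M) b →
      ∀ (h2 : (fun v => Algebra.trace L M (b v)) ∈ Ad k L), ω' α = ω ⟨_, h2⟩ := by
  have hM : IsFunctionField k M := isFunctionField_ext hN
  have hWA : ∀ (S : Finset (Place k M)) (a : Place k M → M) (n : ℤ),
      ∃ x : M, ∀ w ∈ S, w.val (x - a w) ≤ WithZero.exp n := fun S a n => weak_approx hM S a n
  have hTr : ∀ (v : Place k L) (m : ℤ) (x : M),
      (∀ w : Place k M, resPl hN w = v → w.val x ≤ WithZero.exp ((ram hN w : ℤ) * m)) →
      v.val (Algebra.trace L M x) ≤ WithZero.exp m := fun v m x hx => trace_val hN v m x hx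
  have hex : ∀ α : Place k M → M, ∃ b : Place k L → M, Rel hN W α b := exists_rel hN W hWA
  choose B hB using hex
  have hmem : ∀ α : Ad k M, (fun v => Algebra.trace L M (B α v)) ∈ Ad k L := fun α =>
    trace_mem_Ad hN W hTr α.2 (hB α)
  -- the value only depends on the relation
  have key : ∀ (α : Ad k M) (b : Place k L → M) (hb : Rel hN W α b)
      (h2 : (fun v => Algebra.trace L M (b v)) ∈ Ad k L),
      ω ⟨_, hmem α⟩ = ω ⟨_, h2⟩ := fun α b hb h2 => Rel.wd hN W hTr hω (hB α) hb _ _
  let ω' : Ad k M →ₗ[k] k :=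
    { toFun := fun α => ω ⟨_, hmem α⟩
      map_add' := by
        intro α α'
        have h1 : (fun v => Algebra.trace L M ((B α + B α') v)) ∈ Ad k L := by
          have := (Ad k L).add_mem (hmem α) (hmem α')
          have h0 : (fun v => Algebra.trace L M ((B α + B α') v)) =
              (fun v => Algebra.trace L M (B α v)) + (fun v => Algebra.trace L M (B α' v)) := by
            funext v
            simp
          rw [h0]
          exact this
        rw [key (α + α') _ (Rel.add hN W (hB α) (hB α')) h1, ← map_add]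
        congr 1
        apply Subtype.ext
        funext v
        simp
      map_smul' := by
        intro c α
        have hsm : ∀ v, Algebra.trace L M ((c • B α) v) = c • Algebra.trace L M (B α v) := by
          intro v
          rw [Pi.smul_apply, ← algebraMap_smul L c (B α v), map_smul, algebraMap_smul]
        have h1 : (fun v => Algebra.trace L M ((c • B α) v)) ∈ Ad k L := by
          have := (Ad k L).smul_mem c (hmem α)
          have h0 : (fun v => Algebra.trace L M ((c • B α) v)) =
              c • (fun v => Algebra.trace L M (B α v)) := by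
            funext v
            rw [hsm]
            rfl
          rw [h0]
          exact this
        rw [key (c • α) _ (Rel.smul hN W c (hB α)) h1, RingHom.id_apply, ← map_smul]
        congr 1
        apply Subtype.ext
        funext v
        exact hsm v }
  have hω' : ∀ (α : Ad k M) (b : Place k L → M) (hb : Rel hN W α b)
      (h2 : (fun v => Algebra.trace L M (b v)) ∈ Ad k L), ω' α = ω ⟨_, h2⟩ := key
  refine ⟨ω', ⟨?_, ?_⟩, ?_, hω'⟩
  · intro α hα
    have hr : Rel hN W (α : Place k M → M) 0 := by
      intro w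
      have := hα w
      rw [Con_apply] at this
      simpa using this
    have h1 : (fun v : Place k L => Algebra.trace L M ((0 : Place k L → M) v)) ∈ Ad k L :=
      trace_mem_Ad hN W hTr α.2 hr
    rw [hω' α 0 hr h1]
    have : (⟨fun v : Place k L => Algebra.trace L M ((0 : Place k L → M) v), h1⟩ : Ad k L) = 0 := by
      apply Subtype.ext
      funext v
      simp
    rw [this, map_zero]
  · intro α x hx
    have hr : Rel hN W (α : Place k M → M) (fun _ => x) := by
      intro w
      rw [hx w, sub_self, map_zero]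
      exact zero_le
    have h1 : (fun v : Place k L => Algebra.trace L M ((fun _ => x : Place k L → M) v)) ∈
        Ad k L := trace_mem_Ad hN W hTr α.2 hr
    rw [hω' α _ hr h1]
    exact hω.2 _ (Algebra.trace L M x) (fun v => rfl)
  · intro h0
    apply hω0
    ext a
    obtain ⟨y, hy⟩ := Algebra.trace_surjective L M 1
    -- the pre-adele `a y`
    have hα : (fun w : Place k M => algebraMap L M ((a : Place k L → L) (resPl hN w)) * y) ∈
        Ad k M := by
      classical
      obtain ⟨S, hS⟩ : ∃ S : Finset (Place k M), ∀ w : Place k M, ¬ w.val y ≤ 1 → w ∈ S := by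
        obtain ⟨S, h1, -⟩ := hM.product_formula y
        refine ⟨S, fun w hw => (h1 w).2 ?_⟩
        intro h2
        apply hw
        by_cases hy0 : y = 0
        · rw [hy0, map_zero]; exact zero_le
        · exact ((w.ord_eq_zero_iff hy0).1 h2).le
      have ha : {v : Place k L | ¬ v.val ((a : Place k L → L) v) ≤ 1}.Finite := a.2
      refine ((S ∪ ha.toFinset.biUnion fun v => fib (M := M) hN v).finite_toSet).subset ?_
      intro w hw
      rw [Finset.mem_coe, Finset.mem_union]
      by_contra hcon
      rw [not_or] at hcon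
      obtain ⟨h1, h2⟩ := hcon
      apply hw
      have h3 : w.val y ≤ 1 := by
        by_contra hne
        exact h1 (hS w hne)
      have h4 : (resPl hN w).val ((a : Place k L → L) (resPl hN w)) ≤ 1 := by
        by_contra hne
        apply h2
        rw [Finset.mem_biUnion]
        exact ⟨resPl hN w, ha.mem_toFinset.2 hne, (mem_fib hN _ w).2 rfl⟩
      have h5 := val_algebraMap_le_one hN (w := w) rfl h4
      rw [map_mul]
      exact mul_le_one' h5 h3
    have hr : Rel hN W (fun w : Place k M =>
        algebraMap L M ((a : Place k L → L) (resPl hN w)) * y)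
        (fun v => algebraMap L M ((a : Place k L → L) v) * y) := by
      intro w
      rw [sub_self, map_zero]
      exact zero_le
    have h1 := trace_mem_Ad hN W hTr hα hr
    have h2 := hω' ⟨_, hα⟩ _ hr h1
    rw [h0, LinearMap.zero_apply] at h2
    rw [LinearMap.zero_apply, h2]
    congr 1
    apply Subtype.ext
    funext v
    change (a : Place k L → L) v = Algebra.trace L M (algebraMap L M ((a : Place k L → L) v) * y)
    rw [← Algebra.smul_def, map_smul, hy, smul_eq_mul, mul_one]

end cotrace

section isdiv

variable [Algebra.IsSeparable L M] (hM : IsFunctionField k M)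
    {D : Derivation k L L} (hD : D ≠ 0)
    {D' : Derivation k M M} (h : ∀ x : L, D' (algebraMap L M x) = algebraMap L M (D x))

include hM hD h

/-- **The divisor of the cotrace.** -/
theorem isDiv_cotrace {d : Dv k M}
    (hd : ∀ w, d w = ram hN w * ordDer (resPl hN w) D - ordDer w D')
    {ω : Ad k L →ₗ[k] k} {W : Dv k L} (hω0 : ω ≠ 0) (hW : IsDiv ω W) :
    ∃ ω' : Ad k M →ₗ[k] k, ω' ≠ 0 ∧ IsDiv ω' (Con hN W + d) := by
  classical
  have hω : ω ∈ Om W := (hW W).2 le_rfl
  have hTr : ∀ (v : Place k L) (m : ℤ) (x : M),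
      (∀ w : Place k M, resPl hN w = v → w.val x ≤ WithZero.exp ((ram hN w : ℤ) * m)) →
      v.val (Algebra.trace L M x) ≤ WithZero.exp m := fun v m x hx => trace_val hN v m x hx
  have hWA : ∀ (S : Finset (Place k M)) (a : Place k M → M) (n : ℤ),
      ∃ x : M, ∀ w ∈ S, w.val (x - a w) ≤ WithZero.exp n := fun S a n => weak_approx hM S a n
  obtain ⟨ω', h1, h2, h3⟩ := exists_cotrace' (M := M) hN W hω hω0
  have hd0 : ∀ w, 0 ≤ d w := by
    intro w
    have := (ram_le hN hM hD h w).1
    have := ram_pos hN w
    rw [hd]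
    omega
  have hmem : ω' ∈ Om (Con hN W + d) := by
    refine ⟨fun α hα => ?_, h1.2⟩
    obtain ⟨b, hb⟩ := exists_rel hN W hWA (α : Place k M → M)
    rw [h3 α b hb (trace_mem_Ad hN W hTr α.2 hb)]
    apply hω.1
    intro v
    have key := (dual_iff hN hM hD h v (W v) (b v)).2 (by
      intro w hw
      have h4 := hb w
      have h5 := hα w
      rw [Finsupp.add_apply, Con_apply, hw] at h5
      rw [hw] at h4
      have h6 : b v = (b v - (α : Place k M → M) w) + (α : Place k M → M) w := by ring
      rw [h6, ← hd]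
      refine (w.val.map_add _ _).trans (max_le ?_ h5)
      refine h4.trans ?_
      rw [WithZero.exp_le_exp]
      have := hd0 w
      omega) 1 (fun w _ => by rw [map_one])
    rwa [mul_one] at key
  refine ⟨ω', h2, fun E => ⟨fun hE => ?_, fun hE => Om_anti hE hmem⟩⟩
  -- maximality
  by_contra hcon
  obtain ⟨w0, hw0⟩ : ∃ w0, (Con hN W + d : Dv k M) w0 < E w0 := by
    by_contra hno
    push Not at hno
    exact hcon hno
  set v0 := resPl hN w0 with hv0
  set E' : Dv k M := Con hN W + d + Finsupp.single w0 1 with hE'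
  have hE'mem : ω' ∈ Om E' := by
    refine Om_anti ?_ (Om_sup hE hmem)
    intro w
    rw [Finsupp.sup_apply, hE', Finsupp.add_apply, Finsupp.single_apply]
    split_ifs with hw
    · subst hw
      exact le_sup_of_le_left (by omega)
    · rw [add_zero]
      exact le_sup_right
  -- an element violating the dual condition
  choose y hy using fun w : Place k M => w.surj (WithZero.exp (E' w))
  obtain ⟨m, hm⟩ : ∃ m : ℤ, ∀ w ∈ fib (M := M) hN v0, m < E' w := by
    have hb : BddBelow ((fun w => E' w) ''
        ((fib (M := M) hN v0 : Finset (Place k M)) : Set (Place k M))) :=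
      ((fib (M := M) hN v0).finite_toSet.image _).bddBelow
    obtain ⟨n, hn⟩ := hb
    exact ⟨n - 1, fun w hw => by have := hn ⟨w, hw, rfl⟩; simp only at this; omega⟩
  obtain ⟨y0, hy0⟩ := hWA (fib (M := M) hN v0) y m
  have hy0v : ∀ w, resPl hN w = v0 → w.val y0 = WithZero.exp (E' w) := by
    intro w hw
    have hwf := (mem_fib hN v0 w).2 hw
    have h4 : y0 = y w + (y0 - y w) := by ring
    rw [h4, Valuation.map_add_eq_of_lt_left, hy]
    rw [hy]
    exact (hy0 w hwf).trans_lt (WithZero.exp_lt_exp.2 (hm w hwf))
  have hnot : ¬ ∀ z : M, (∀ w : Place k M, resPl hN w = v0 → w.val z ≤ 1) →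
      v0.val (Algebra.trace L M (y0 * z)) ≤ WithZero.exp (W v0) := by
    rw [dual_iff hN hM hD h v0 (W v0) y0]
    intro hall
    have h4 := hall w0 rfl
    rw [hy0v w0 rfl, ← hd, WithZero.exp_le_exp, hE', Finsupp.add_apply, Finsupp.add_apply,
      Con_apply, Finsupp.single_eq_same, ← hv0] at h4
    omega
  push Not at hnot
  obtain ⟨z, hz1, hz2⟩ := hnot
  set τ := Algebra.trace L M (y0 * z) with hτ
  have hτ0 : τ ≠ 0 := by
    intro h0
    rw [h0, map_zero] at hz2
    exact absurd hz2 (not_lt.2 zero_le)
  have hτv : v0.ord τ ≤ - W v0 - 1 := by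
    have := (val_exp_lt_iff v0 τ hτ0 (W v0)).1 hz2
    omega
  -- `ω` vanishes on a bigger space
  have hbig : ω ∈ Om (W + Finsupp.single v0 1) := by
    refine ⟨fun a ha => ?_, hω.2⟩
    set a0 := (a : Place k L → L) v0 with ha0
    -- the part at `v0`
    have hs_mem : (Pi.single v0 a0 : Place k L → L) ∈ Ad k L := by
      refine (Set.finite_singleton v0).subset ?_
      intro v hv
      by_contra hne
      apply hv
      rw [Pi.single_eq_of_ne hne, map_zero]
      exact zero_le
    have hsplit : ω a = ω ⟨_, hs_mem⟩ := by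
      rw [← sub_eq_zero, ← map_sub]
      apply hω.1
      intro v
      change v.val ((a : Place k L → L) v - (Pi.single v0 a0 : Place k L → L) v) ≤ _
      by_cases hv : v = v0
      · subst hv
        rw [Pi.single_eq_same, sub_self, map_zero]
        exact zero_le
      · rw [Pi.single_eq_of_ne hv, sub_zero]
        have := ha v
        rw [Finsupp.add_apply, Finsupp.single_eq_of_ne hv, add_zero] at this
        exact this
    rw [hsplit]
    -- lift to `M`
    set c := a0 / τ with hc
    have hcv : v0.val c ≤ 1 := by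
      by_cases h0 : a0 = 0
      · rw [hc, h0, zero_div, map_zero]; exact zero_le
      · have h4 := ha v0
        rw [Finsupp.add_apply, Finsupp.single_eq_same, ← ha0, val_le_exp_iff v0 _ h0] at h4
        have hc0 : c ≠ 0 := div_ne_zero h0 hτ0
        rw [← v0.ord_nonneg_iff hc0, hc, div_eq_mul_inv, v0.ord_mul h0 (inv_ne_zero hτ0),
          v0.ord_inv]
        omega
    set β : M := algebraMap L M c * (y0 * z) with hβ
    have hβτ : Algebra.trace L M β = a0 := by
      rw [hβ, ← Algebra.smul_def, map_smul, ← hτ, smul_eq_mul, hc]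
      field_simp
    let b : Place k L → M := Pi.single v0 β
    let α : Place k M → M := fun w => b (resPl hN w)
    have hαE : α ∈ AdD E' := by
      intro w
      by_cases hw : resPl hN w = v0
      · change w.val ((Pi.single v0 β : Place k L → M) (resPl hN w)) ≤ _
        rw [hw, Pi.single_eq_same, hβ, map_mul, map_mul, hy0v w hw]
        calc w.val (algebraMap L M c) * (WithZero.exp (E' w) * w.val z)
            ≤ 1 * (WithZero.exp (E' w) * 1) := by
              refine mul_le_mul' (val_algebraMap_le_one hN hw hcv) ?_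
              exact mul_le_mul_right (hz1 w hw) _
          _ = _ := by rw [one_mul, mul_one]
      · change w.val ((Pi.single v0 β : Place k L → M) (resPl hN w)) ≤ _
        rw [Pi.single_eq_of_ne hw, map_zero]
        exact zero_le
    have hαmem : α ∈ Ad k M := AdD_le_Ad E' hαE
    have hrel : Rel hN W α b := by
      intro w
      change w.val (b (resPl hN w) - b (resPl hN w)) ≤ _
      rw [sub_self, map_zero]
      exact zero_le
    have h5 := h3 ⟨α, hαmem⟩ b hrel (trace_mem_Ad hN W hTr hαmem hrel)
    rw [hE'mem.1 ⟨α, hαmem⟩ hαE] at h5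
    rw [h5]
    congr 1
    apply Subtype.ext
    funext v
    change (Pi.single v0 a0 : Place k L → L) v =
      Algebra.trace L M ((Pi.single v0 β : Place k L → M) v)
    by_cases hv : v = v0
    · subst hv
      rw [Pi.single_eq_same, Pi.single_eq_same, hβτ]
    · rw [Pi.single_eq_of_ne hv, Pi.single_eq_of_ne hv, map_zero]
  have h6 := (hW _).1 hbig v0
  rw [Finsupp.add_apply, Finsupp.single_eq_same] at h6
  omega

/-- **The exact Hurwitz formula for the genus.** -/
theorem genus_hurwitz_aux {d : Dv k M}
    (hd : ∀ w, d w = ram hN w * ordDer (resPl hN w) D - ordDer w D') :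
    2 * genus k M - 2 = Module.finrank L M * (2 * genus k L - 2) + degD d := by
  obtain ⟨A, ω, hA, hω0⟩ := exists_ne_zero_Om hN
  obtain ⟨W, hW⟩ := exists_isDiv hN hA hω0
  obtain ⟨ω', h0', hW'⟩ := isDiv_cotrace hN hM hD h hd hω0 hW
  rw [← degD_isDiv hM h0' hW', ← degD_isDiv hN hω0 hW, ← degD_Con (M := M) hN W, degD_add']

end isdiv

end Pool.Agent.Helper31.RRK

end

section

set_option autoImplicit false

set_option linter.style.haveILetI false

namespace Pool.Agent.Helper31.RRK

open Polynomial IntermediateField Pool.Agent.Helper16 Pool.Agent.Helper33 Pool.Agent.Helper45.FF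

open Pool.Agent.Helper45.S4 Pool.Agent.Helper47.RR

section main

variable {k L : Type} [Field k] [Field L] [Algebra k L]

/-- **The degree of the divisor of a Kaehler differential is `2g - 2`.** -/
theorem cdeg_eq [IsAlgClosed k] (hN : IsFunctionField k L) : cdeg hN = 2 * genus k L - 2 := by
  obtain ⟨t, ht, hs⟩ := exists_separating hN
  haveI := finiteDimensional_adjoin hN t ht
  have hF := isFunctionField_adjoin hN t ht
  let g : k⟮t⟯ := AdjoinSimple.gen k t
  have hgen : k⟮g⟯ = ⊤ := by
    apply IntermediateField.lift_injective k⟮t⟯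
    rw [IntermediateField.lift_adjoin_simple, IntermediateField.lift_top]
    rfl
  obtain ⟨D, hD⟩ := exists_ne_zero hF
  obtain ⟨D', hD'⟩ := exists_extension (M := L) hF D
  have hne := ne_zero_of_ext hD hD'
  obtain ⟨B, hB1, hB2⟩ := sum_pullback (M := L) hF (canD hF D)
  have hd : ∀ w, (canD hN D' - B) w = ram hF w * ordDer (resPl hF w) D - ordDer w D' := by
    intro w
    rw [Finsupp.sub_apply, hB1, canD_apply hN hne, canD_apply hF hD]
    ring
  have h1 := genus_hurwitz_aux hF hN hD hD' hd
  rw [genus_rational hF g hgen, degD_sub, hB2, degD_canD hN hne, degD_canD hF hD,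
    cdeg_rational hF g hgen] at h1
  (clear * - h1; linarith)

end main

end Pool.Agent.Helper31.RRK

end

section

set_option autoImplicit false

set_option linter.style.haveILetI false

namespace Pool.Agent.Helper31.RRK

open Polynomial IntermediateField Pool.Agent.Helper16 Pool.Agent.Helper33 Pool.Agent.Helper45.FF

open Pool.Agent.Helper45.S4 Pool.Agent.Helper47.RR

section bound

variable {k L : Type} [Field k] [Field L] [Algebra k L]

/-- **Genus bound.** A function field over an algebraically closed field with an endomorphism which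
is not purely inseparable has genus at most one. -/
theorem genus_le_one_of_endo [IsAlgClosed k] (hN : IsFunctionField k L) (φ : L →ₐ[k] L)
    (hφ : ¬ IsPurelyInseparable φ.fieldRange L) : genus k L ≤ 1 := by
  haveI := finiteDimensional_fieldRange hN hN φ
  have hR := isFunctionField_fieldRange hN φ
  let E := separableClosure φ.fieldRange L
  haveI : FiniteDimensional φ.fieldRange E := inferInstance
  haveI : Algebra.IsSeparable φ.fieldRange E := inferInstance
  haveI hins : IsPurelyInseparable E L := separableClosure.isPurelyInseparable _ _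
  haveI : FiniteDimensional E L := inferInstance
  have hE : IsFunctionField k E := hR.of_finite
  have h1 : genus k E = genus k L := by
    let E' : IntermediateField k L := E.restrictScalars k
    haveI : FiniteDimensional E' L := ‹FiniteDimensional E L›
    haveI : IsPurelyInseparable E' L := hins
    exact genus_eq_of_isPurelyInseparable hN E'
  have h2 : genus k L = genus k φ.fieldRange := genus_eq_of_algEquiv (AlgEquiv.ofInjectiveField φ)
  have h3 : 2 ≤ Module.finrank φ.fieldRange E := by
    by_contra hcon
    have h4 : 0 < Module.finrank φ.fieldRange E := Module.finrank_pos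
    have h5 : Module.finrank φ.fieldRange E = 1 := by omega
    apply hφ
    rw [← separableClosure.eq_bot_iff]
    exact IntermediateField.finrank_eq_one_iff.1 h5
  have h4 := hurwitz_le hR hE
  rw [cdeg_eq hR, cdeg_eq hE, h1, ← h2] at h4
  have h5 : (2 : ℤ) ≤ Module.finrank φ.fieldRange E := by exact_mod_cast h3
  by_contra hcon
  (clear * - h3 h4 hcon; nlinarith)

/-- The same with the separable degree. -/
theorem genus_le_one_of_finSepDegree [IsAlgClosed k] (hN : IsFunctionField k L) (φ : L →ₐ[k] L)
    (hφ : 2 ≤ Field.finSepDegree φ.fieldRange L) : genus k L ≤ 1 := by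
  apply genus_le_one_of_endo hN φ
  intro h
  have := h.finSepDegree_eq_one
  omega

end bound

end Pool.Agent.Helper31.RRK

end
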