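import Pool.Agent.Helper23.MB.L03_ab1
import Pool.Agent.Helper23.MB.L03_ab2
import Pool.Agent.Helper23.MB.L03_ab3
import Pool.Agent.Helper23.MB.L03_ab4
import Pool.Agent.Helper23.MB.L03_ab5
import Pool.Agent.Helper23.MB.L03_ab6
import Pool.Agent.Helper23.MB.L03_ab7

/-!
Parts of Helper45.S4Der, Helper45.S4Inert, Helper45.M8Gal, Helper45.M8Main, Helper33.PS.SUBP, Helper33.PT.Core2, Helper33.PT.Final3
-/

attribute [-simp] Valuation.IsUniformizer.val
attribute [local instance 5000]
  Pool.Agent.Helper23.MB.Inst.rCharZero Pool.Agent.Helper23.MB.Inst.rALM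
  Pool.Agent.Helper23.MB.Inst.rARM Pool.Agent.Helper23.MB.Inst.rALSM
  Pool.Agent.Helper23.MB.Inst.rARSM Pool.Agent.Helper23.MB.Inst.rARRLE
  Pool.Agent.Helper23.MB.Inst.rALRLE Pool.Agent.Helper23.MB.Inst.rARRLT
  Pool.Agent.Helper23.MB.Inst.rALRLT Pool.Agent.Helper23.MB.Inst.rPMRLT
  Pool.Agent.Helper23.MB.Inst.rMPRLT Pool.Agent.Helper23.MB.Inst.rPMM
  Pool.Agent.Helper23.MB.Inst.rMPM Pool.Agent.Helper23.MB.Inst.rPMSM
  Pool.Agent.Helper23.MB.Inst.rMPSM Pool.Agent.Helper23.MB.Inst.rEAOL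
  Pool.Agent.Helper23.MB.Inst.rIOR Pool.Agent.Helper23.MB.Inst.rISOR
  Pool.Agent.Helper23.MB.Inst.rNZD Pool.Agent.Helper23.MB.Inst.zCharZero
  Pool.Agent.Helper23.MB.Inst.zALM Pool.Agent.Helper23.MB.Inst.zARM
  Pool.Agent.Helper23.MB.Inst.zIOR Pool.Agent.Helper23.MB.Inst.zISOR
  Pool.Agent.Helper23.MB.Inst.zNZD Pool.Agent.Helper23.MB.Inst.qCharZero
  Pool.Agent.Helper23.MB.Inst.free Pool.Agent.Helper23.MB.Inst.faith
  Pool.Agent.Helper23.MB.Inst.torsionFree Pool.Agent.Helper23.MB.Inst.rfFaith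
  Pool.Agent.Helper23.MB.Inst.hAdd Pool.Agent.Helper23.MB.Inst.hAddM
  Pool.Agent.Helper23.MB.Inst.hMul Pool.Agent.Helper23.MB.Inst.hMon
  Pool.Agent.Helper23.MB.Inst.hZero Pool.Agent.Helper23.MB.Inst.hOne
  Pool.Agent.Helper23.MB.Inst.hMZ Pool.Agent.Helper23.MB.Inst.hRing
  Pool.Agent.Helper23.MB.Inst.aAdd Pool.Agent.Helper23.MB.Inst.aAddM
  Pool.Agent.Helper23.MB.Inst.aMul Pool.Agent.Helper23.MB.Inst.aMon
  Pool.Agent.Helper23.MB.Inst.aZero Pool.Agent.Helper23.MB.Inst.aOne
  Pool.Agent.Helper23.MB.Inst.aMZ Pool.Agent.Helper23.MB.Inst.aRing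

namespace Pool.Agent.Helper16
end Pool.Agent.Helper16
namespace Pool.Agent.Helper33
end Pool.Agent.Helper33
namespace Pool.Agent.Helper33.PS
end Pool.Agent.Helper33.PS
namespace Pool.Agent.Helper33.UB
end Pool.Agent.Helper33.UB
namespace Pool.Agent.Helper45.FF
end Pool.Agent.Helper45.FF
namespace Pool.Agent.Helper45.FR
end Pool.Agent.Helper45.FR
namespace Pool.Agent.Helper45.M8
end Pool.Agent.Helper45.M8
namespace Pool.Agent.Helper45.S4
end Pool.Agent.Helper45.S4
namespace Pool.Agent.Helper45.S6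
end Pool.Agent.Helper45.S6
namespace Pool.Agent.Helper51.RatTree
end Pool.Agent.Helper51.RatTree
namespace Pool.Agent.Helper55.RD
end Pool.Agent.Helper55.RD
namespace Pool.Agent.Helper93.RatODE
end Pool.Agent.Helper93.RatODE

section

set_option autoImplicit false

set_option linter.style.haveILetI false

namespace Pool.Agent.Helper45.S4

open Polynomial IntermediateField Pool.Agent.Helper16 Pool.Agent.Helper33 Pool.Agent.Helper45.FF

variable {k L : Type} [Field k] [Field L] [Algebra k L]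

/-- **S4 (a)**: the place system of `d/dt` with exact error terms. -/
theorem exists_psys_t [IsAlgClosed k] [CharZero k] (hN : IsFunctionField k L) (t : L)
    (ht : Transcendental k t) :
    ∃ P : PSys k L (Place k L), (∀ v, P.pl v = plDV v) ∧ P.D t = 1 ∧
      (∀ x, P.D x = 0 → ∃ c : k, algebraMap k L c = x) ∧ (∀ v, v.ord t < 0 → P.e v = 0) ∧
      (∀ v (c : k), 0 < v.ord (t - algebraMap k L c) →
        (P.e v : ℤ) + 1 = v.ord (t - algebraMap k L c)) := by
  classical
  haveI : CharZero L := charZero_of_injective_algebraMap (algebraMap k L).injective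
  haveI := hN.finiteDimensional t ht
  haveI : CharZero k⟮t⟯ := charZero_of_injective_algebraMap (algebraMap k k⟮t⟯).injective
  haveI : Algebra.IsSeparable k⟮t⟯ L := inferInstance
  obtain ⟨D, hD⟩ := exists_deriv t ht
  obtain ⟨P0, hP1, hP2⟩ := exists_psys_aux hN t ht D hD
  have ht0 : t ≠ 0 := transcendental_ne_zero ht
  -- the bound from `P0`
  have hB : ∀ v : Place k L, ∀ x, v.val x ≤ 1 → v.val (D x) ≤ WithZero.exp (P0.e v : ℤ) := by
    intro v x hx
    by_cases hDx : D x = 0
    · rw [hDx, map_zero]; exact zero_le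
    · have hx0 : x ≠ 0 := by rintro rfl; exact hDx (map_zero D)
      rw [val_le_exp_iff v _ hDx]
      have := P0.ord_D' v x hx0 (by rw [hP1]; exact hDx) (by
        rw [hP2]; exact (v.ord_nonneg_iff hx0).2 hx)
      rw [hP1, hP2] at this
      exact this
  let e : Place k L → ℕ := fun v =>
    if h : ∃ c : k, v.val (t - algebraMap k L c) < 1 then
      (v.ord (t - algebraMap k L h.choose)).toNat - 1 else 0
  have hne : ∀ c : k, t - algebraMap k L c ≠ 0 := by
    intro c h
    apply ht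
    rw [sub_eq_zero.1 h]
    exact isAlgebraic_algebraMap c
  have he1 : ∀ v (c : k), 0 < v.ord (t - algebraMap k L c) →
        (e v : ℤ) + 1 = v.ord (t - algebraMap k L c) := by
    intro v c hc
    have hc' : v.val (t - algebraMap k L c) < 1 := (v.ord_pos_iff (hne c)).1 hc
    have hex : ∃ c : k, v.val (t - algebraMap k L c) < 1 := ⟨c, hc'⟩
    have heq : hex.choose = c := res_unique v t _ _ hex.choose_spec hc'
    simp only [e, dif_pos hex, heq]
    omega
  have he0 : ∀ v, v.ord t < 0 → e v = 0 := by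
    intro v hv
    have hnex : ¬ ∃ c : k, v.val (t - algebraMap k L c) < 1 := by
      rintro ⟨c, hc⟩
      have h1 : 1 < v.val t := (v.ord_neg_iff ht0).1 hv
      have h2 : t = (t - algebraMap k L c) + algebraMap k L c := by ring
      have h3 : v.val t ≤ 1 := by
        rw [h2]
        exact (v.val.map_add _ _).trans (max_le hc.le (v.val_algebraMap_le c))
      exact absurd h1 (not_lt.2 h3)
    simp only [e, dif_neg hnex]
  -- main estimate
  have hmain : ∀ v : Place k L, (∀ x, v.val x ≤ 1 → v.val (D x) ≤ WithZero.exp (e v : ℤ)) ∧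
      e v ≤ P0.e v := by
    intro v
    obtain ⟨π, hπ0, hπ⟩ := v.exists_uniformizer
    by_cases hvt : 0 ≤ v.ord t
    · obtain ⟨c, hc⟩ := exists_res_val hN v t ((v.ord_nonneg_iff ht0).1 hvt)
      have hcpos : 0 < v.ord (t - algebraMap k L c) := (v.ord_pos_iff (hne c)).2 hc
      have hDs : D (t - algebraMap k L c) = 1 := by
        rw [map_sub, Derivation.map_algebraMap, sub_zero, hD]
      have h1 := val_D_eq v D hN _ (hB v) π hπ _ (hne c) hcpos (by rw [hDs]; exact one_ne_zero)
      rw [hDs, map_one, ← he1 v c hcpos, add_sub_cancel_right] at h1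
      have h2 : v.val (D π) = WithZero.exp (e v : ℤ) := by
        have h3 : WithZero.exp (e v : ℤ) * (WithZero.exp (-(e v : ℤ)) * v.val (D π)) =
            WithZero.exp (e v : ℤ) := by rw [← h1, mul_one]
        rw [← mul_assoc, ← WithZero.exp_add, add_neg_cancel, WithZero.exp_zero, one_mul] at h3
        exact h3
      refine ⟨fun x hx => ?_, ?_⟩
      · rw [← h2]
        exact val_D_le_pi v D hN _ (hB v) π hπ x hx
      · have h4 := hB v π (by rw [hπ]; exact exp_neg_one_lt.le)
        rw [h2, WithZero.exp_le_exp] at h4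
        exact_mod_cast h4
    · rw [not_le] at hvt
      rw [he0 v hvt]
      refine ⟨fun x hx => ?_, Nat.zero_le _⟩
      have hs0 : t⁻¹ ≠ 0 := inv_ne_zero ht0
      have hspos : 0 < v.ord t⁻¹ := by rw [v.ord_inv]; omega
      have hDs : D t⁻¹ = -(t⁻¹ ^ 2) := by
        rw [Derivation.leibniz_inv, hD, smul_eq_mul, mul_one]
      have h1 := val_D_eq v D hN _ (hB v) π hπ _ hs0 hspos (by
        rw [hDs]; exact neg_ne_zero.2 (pow_ne_zero 2 hs0))
      have hsv : v.val t⁻¹ = WithZero.exp (-(v.ord t⁻¹)) := by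
        have h0 : v.val t⁻¹ ≠ 0 := by simpa using hs0
        rw [Place.ord, neg_neg, WithZero.exp_log h0]
      rw [hDs, Valuation.map_neg, map_pow, hsv, ← WithZero.exp_nsmul] at h1
      have h2 : v.val (D π) = WithZero.exp (-(v.ord t⁻¹) - 1) := by
        have h3 : WithZero.exp (v.ord t⁻¹ - 1) * (WithZero.exp (-(v.ord t⁻¹ - 1)) * v.val (D π)) =
            WithZero.exp (v.ord t⁻¹ - 1) * WithZero.exp (2 • (-(v.ord t⁻¹))) := by rw [← h1]
        rw [← mul_assoc, ← WithZero.exp_add, add_neg_cancel, WithZero.exp_zero, one_mul,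
          ← WithZero.exp_add] at h3
        rw [h3]
        congr 1
        simp only [nsmul_eq_mul]
        push_cast
        ring
      refine (val_D_le_pi v D hN _ (hB v) π hπ x hx).trans ?_
      rw [h2, WithZero.exp_le_exp]
      push_cast
      omega
  refine ⟨
    { pl := P0.pl
      ord_finite := P0.ord_finite
      sum_ord := P0.sum_ord
      D := P0.D
      D_add := P0.D_add
      D_mul := P0.D_mul
      e := e
      e_finite := P0.e_finite.subset (fun v hv h0 => hv (Nat.le_zero.1 (h0 ▸ (hmain v).2)))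
      ord_D := ?_
      ord_D' := ?_
      const := P0.const }, hP2, ?_, ?_, he0, he1⟩
  · intro v x hx hDx
    rw [hP1] at hDx ⊢
    rw [hP2]
    exact ord_D_ge_gen v D (e v) (hmain v).1 x hx hDx
  · intro v x hx hDx h0
    rw [hP1] at hDx ⊢
    rw [hP2] at h0 ⊢
    have := (hmain v).1 x ((v.ord_nonneg_iff hx).1 h0)
    rw [val_le_exp_iff v _ hDx] at this
    exact this
  · change P0.D t = 1
    rw [hP1, hD]
  · intro x hx
    change P0.D x = 0 at hx
    rw [hP1] at hx
    exact const_of_deriv_eq_zero hN D t hD x hx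

end Pool.Agent.Helper45.S4

end

section

set_option autoImplicit false

set_option linter.style.haveILetI false

namespace Pool.Agent.Helper45.S4

open Polynomial IntermediateField Pool.Agent.Helper16 Pool.Agent.Helper33 Pool.Agent.Helper45.FF

section inertia'

variable {k L M : Type} [Field k] [Field L] [Field M] [Algebra k L] [Algebra k M] [Algebra L M]
  [IsScalarTower k L M]

/-- Inertia at a place of `L` ramified over `k(t)`. -/
theorem exists_inertia [IsAlgClosed k] (hL : IsFunctionField k L) (t : L) (ht : Transcendental k t)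
    [FiniteDimensional L M] [IsGalois k⟮t⟯ M] (v : Place k L) (c : k)
    (hv : 2 ≤ v.ord (t - algebraMap k L c)) :
    ∃ w : Place k M, resPl hL w = v ∧ ∃ σ : M ≃ₐ[k⟮t⟯] M, act (σ.restrictScalars k) w = w ∧
      ∃ x : L, σ (algebraMap L M x) ≠ algebraMap L M x := by
  haveI := finiteDimensional_adjoin hL t ht
  haveI : FiniteDimensional k⟮t⟯ M := FiniteDimensional.trans k⟮t⟯ L M
  have hF := isFunctionField_adjoin hL t ht
  let g : k⟮t⟯ := AdjoinSimple.gen k t
  have hg : algebraMap k⟮t⟯ L g = t := AdjoinSimple.algebraMap_gen k t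
  have hgt : Transcendental k g := by
    rw [← transcendental_algebraMap_iff (algebraMap k⟮t⟯ L).injective, hg]
    exact ht
  have hgen : k⟮g⟯ = ⊤ := by
    apply IntermediateField.lift_injective k⟮t⟯
    rw [IntermediateField.lift_adjoin_simple, IntermediateField.lift_top]
    rfl
  have hs : algebraMap k⟮t⟯ L (g - algebraMap k k⟮t⟯ c) = t - algebraMap k L c := by
    rw [map_sub, hg, ← IsScalarTower.algebraMap_apply]
  refine exists_inertia_gen hF hL v (g - algebraMap k k⟮t⟯ c) ?_ (by rw [hs]; exact hv)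
  apply ord_gen_eq_one hF g hgt hgen
  have h1 := ord_algebraMap hF v (g - algebraMap k k⟮t⟯ c)
  rw [hs] at h1
  have h2 := ram_pos hF v
  by_contra hcon
  rw [not_lt] at hcon
  have : (ram hF v : ℤ) * (resPl hF v).ord (g - algebraMap k k⟮t⟯ c) ≤ 0 :=
    mul_nonpos_of_nonneg_of_nonpos (by positivity) hcon
  omega

end inertia'

end Pool.Agent.Helper45.S4

end

section

set_option autoImplicit false

set_option linter.style.haveILetI false

namespace Pool.Agent.Helper45.M8

open Polynomial IntermediateField Pool.Agent.Helper16 Pool.Agent.Helper33 Pool.Agent.Helper33.PS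
  Pool.Agent.Helper45.FF Pool.Agent.Helper45.S4

variable {k L : Type} [Field k] [Field L] [Algebra k L]

/-- **The Galois system** of a function field of characteristic zero. -/
theorem exists_galSys [IsAlgClosed k] [CharZero k] (hL : IsFunctionField k L) (t : L)
    (ht : Transcendental k t) (n : ℕ) (hn : Module.finrank k⟮t⟯ L ≤ n) :
    ∃ (E : Type) (_ : Field E) (_ : Algebra k E) (_ : Algebra L E) (_ : IsScalarTower k L E)
      (P : PSys k L (Place k L)) (Q : PSys k E (Place k E)),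
      (∀ v, ResK k (P.pl v)) ∧ (∀ w, ResK k (Q.pl w)) ∧
      (∀ x, P.D x = 0 → ∃ c : k, algebraMap k L c = x) ∧
      ∃ gs : GalSys P Q n.factorial, ∀ σ ∈ gs.G, ∃ τ : E ≃ₐ[k⟮t⟯] E, ∀ y, σ y = τ y := by
  classical
  haveI hfdL := finiteDimensional_adjoin hL t ht
  obtain ⟨E, iE, iA, iB, h1, h2, h3, hE, hcard⟩ := exists_galois_closure hL t ht
  haveI := h1
  haveI := h2
  haveI := h3
  haveI hfdE : FiniteDimensional k⟮t⟯ E := FiniteDimensional.trans k⟮t⟯ L E
  have htE : Transcendental k (algebraMap L E t) := by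
    rwa [transcendental_algebraMap_iff (algebraMap L E).injective]
  obtain ⟨P, hP, -, hker, hPe0, hPe⟩ := exists_psys_t hL t ht
  obtain ⟨Q, hQ, -⟩ := exists_psys_t hE (algebraMap L E t) htE
  have hcardn : Nat.card (E ≃ₐ[k⟮t⟯] E) ≤ n.factorial := hcard.trans (Nat.factorial_le hn)
  have hcardE : Nat.card (E ≃ₐ[k⟮t⟯] E) = Module.finrank k⟮t⟯ E :=
    IsGalois.card_aut_eq_finrank k⟮t⟯ E
  have hfin : Module.finrank L E ≤ n.factorial := by
    refine le_trans ?_ (hcardE ▸ hcardn)
    rw [← Module.finrank_mul_finrank k⟮t⟯ L E]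
    exact Nat.le_mul_of_pos_left _ Module.finrank_pos
  have hex : ∀ v : Place k L, 0 ≤ v.ord t → ∃ c : k, 0 < v.ord (t - algebraMap k L c) := by
    intro v hv
    obtain ⟨c, hc⟩ := exists_res hL v t hv
    refine ⟨c, ?_⟩
    rcases hc with hc | hc
    · exact absurd (isAlgebraic_algebraMap c) (hc ▸ ht)
    · omega
  let gs : GalSys P Q n.factorial :=
    { G := Finset.univ.image fun σ : E ≃ₐ[k⟮t⟯] E => σ.restrictScalars k
      card_G := Finset.card_image_le.trans (by
        rw [Finset.card_univ, ← Nat.card_eq_fintype_card]; exact hcardn)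
      act := fun σ => actEquiv σ
      act_spec := fun σ _ w y => by
        rw [hQ, hQ]
        exact act_ord_apply σ w y
      res := fun w => resPl hL w
      ram := fun w => ram hL w
      ram_pos := fun w => ram_pos hL w
      ram_spec := fun w y _ => by
        rw [hP, hQ]
        exact ord_algebraMap hL w y
      fib := fun v s hs => by
        obtain ⟨T, hT, hsum⟩ := sum_ram (M := E) hL v
        have hsT : s ⊆ T := fun w hw => (hT w).2 (hs w hw)
        exact (Finset.sum_le_sum_of_subset hsT).trans (hsum.le.trans hfin)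
      e_le := fun v => by
        have h4 : (1 : ℕ) ≤ n.factorial := Nat.factorial_pos n
        by_cases hv : 0 ≤ v.ord t
        · obtain ⟨c, hc⟩ := hex v hv
          have h5 := hPe v c hc
          have h6 := ord_sub_le hL t ht v c
          have h7 : n ≤ n.factorial := Nat.self_le_factorial n
          omega
        · rw [hPe0 v (by omega)]; omega
      ramified := fun v hv => by
        have hv0 : 0 ≤ v.ord t := by
          by_contra hcon
          rw [hPe0 v (by omega)] at hv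
          omega
        obtain ⟨c, hc⟩ := hex v hv0
        have h5 := hPe v c hc
        obtain ⟨w, hw, σ, hσ, y, hy⟩ := exists_inertia (M := E) hL t ht v c (by omega)
        exact ⟨w, hw, σ.restrictScalars k, Finset.mem_image_of_mem _ (Finset.mem_univ _), hσ, y, hy⟩ }
  refine ⟨E, iE, iA, iB, h1, P, Q, fun v => ?_, fun w => ?_, hker, gs, ?_⟩
  · rw [hP]; exact resK_plDV hL v
  · rw [hQ]; exact resK_plDV hE w
  · intro σ hσ
    obtain ⟨τ, -, rfl⟩ := Finset.mem_image.1 hσ
    exact ⟨τ, fun y => rfl⟩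

end Pool.Agent.Helper45.M8

end

section

set_option autoImplicit false

set_option linter.style.haveILetI false

namespace Pool.Agent.Helper45.M8

open Polynomial IntermediateField Pool.Agent.Helper16 Pool.Agent.Helper33 Pool.Agent.Helper33.PS
  Pool.Agent.Helper45.FF Pool.Agent.Helper45.S4 Pool.Agent.Helper45.FR Pool.Agent.Helper45.S6

/-- **M8**. -/
theorem absS_of_planS (k : Type) [Field k] [IsAlgClosed k] [CharZero k] (d : ℕ) (hd : 1 ≤ d)
    (hS : ∀ n, PlanSAbs d n) (n : ℕ) : AbsS k d n := by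
  classical
  induction n with
  | zero =>
    refine ⟨0, ?_⟩
    intro L _ _ t hL ht _ hn
    exfalso
    haveI := finiteDimensional_adjoin hL t ht
    have : 0 < Module.finrank k⟮t⟯ L := Module.finrank_pos
    omega
  | succ n ih =>
    obtain ⟨N1, hN1⟩ := ih
    obtain ⟨N2, hN2⟩ := hS (n + 1).factorial
    refine ⟨N1 + N2 + 2 * d, ?_⟩
    intro L _ _ t hL ht _ hn F G hFG hF hG htop x hx
    haveI := finiteDimensional_adjoin hL t ht
    let S : Set L := {y | ∃ i j l m, N2 ≤ i ∧ N2 ≤ j ∧ N2 ≤ l ∧ N2 ≤ m ∧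
      y = crr (x i) (x j) (x l) (x m)}
    let L1 : IntermediateField k⟮t⟯ L := IntermediateField.adjoin k⟮t⟯ S
    by_cases htopL : L1 = ⊤
    · -- the cross ratios generate
      obtain ⟨E, iE, iA, iB, iT, P, Q, hP, hQ, hker, gs, hgs⟩ := exists_galSys hL t ht (n + 1) hn
      refine hN2 k L E (Place k L) (Place k E) P Q hP hQ hker gs F G ⟨hFG, hF, hG, htop⟩ x
        (ratOrbit_mono hx (by omega)) ?_
      intro σ hσ hfix y
      obtain ⟨τ, hτ⟩ := hgs σ hσ
      have hy : y ∈ L1 := by rw [htopL]; trivial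
      rw [hτ]
      refine IntermediateField.adjoin_induction (F := k⟮t⟯) (p := fun y _ =>
        τ (algebraMap L E y) = algebraMap L E y) ?_ ?_ ?_ ?_ ?_ hy
      · rintro z ⟨i, j, l, m, hi, hj, hl, hm, rfl⟩
        have := hfix i j l m hi hj hl hm
        rwa [hτ] at this
      · intro z
        rw [← IsScalarTower.algebraMap_apply k⟮t⟯ L E]
        exact τ.commutes z
      · intro a b _ _ ha hb
        rw [map_add, map_add, ha, hb]
      · intro a _ ha
        rw [map_inv₀, map_inv₀, ha]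
      · intro a b _ _ ha hb
        rw [map_mul, map_mul, ha, hb]
    · -- smaller field
      have hlt : Module.finrank k⟮t⟯ L1 ≤ n := by
        have h1 : Module.finrank k⟮t⟯ L1 < Module.finrank k⟮t⟯ L := by
          by_contra hcon
          rw [not_lt] at hcon
          apply htopL
          apply IntermediateField.eq_of_le_of_finrank_le le_top
          rw [IntermediateField.finrank_top']
          exact hcon
        omega
      have hF0 := isFunctionField_adjoin hL t ht
      have hL1 : IsFunctionField k L1 := isFunctionField_ext hF0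
      let t1 : L1 := algebraMap k⟮t⟯ L1 (AdjoinSimple.gen k t)
      have hgt : Transcendental k (AdjoinSimple.gen k t) := by
        rw [← transcendental_algebraMap_iff (algebraMap k⟮t⟯ L).injective,
          AdjoinSimple.algebraMap_gen]
        exact ht
      have ht1 : Transcendental k t1 := by
        rwa [transcendental_algebraMap_iff (algebraMap k⟮t⟯ L1).injective]
      have hdeg : Module.finrank k⟮t1⟯ L1 = Module.finrank k⟮t⟯ L1 := by
        have h1 := finrank_tower (k := k) (L := k⟮t⟯) (M := L1) (AdjoinSimple.gen k t)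
        rw [h1, adjoin_gen_eq_top, IntermediateField.finrank_top, one_mul]
      haveI := finiteDimensional_adjoin hL1 t1 ht1
      haveI : CharZero k⟮t1⟯ := charZero_of_injective_algebraMap (algebraMap k k⟮t1⟯).injective
      haveI : Infinite L1 := Infinite.of_injective _ (algebraMap k L1).injective
      haveI : IsScalarTower k L1 L := IsScalarTower.of_algebraMap_eq fun c => rfl
      obtain ⟨P₁, Q₁, z, hcop, hP₁, hQ₁, htop₁, hz, hconc⟩ := descent (k := k) (L₁ := L1) hd hFG hF
        hG htop x (N1 + N2 + 2 * d) N2 N1 hx (by omega) (by omega) (by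
          intro i _
          refine ⟨⟨crr (x (N2 + 0)) (x (N2 + 2)) (x (N2 + 1)) (x (N2 + i)), ?_⟩, rfl⟩
          apply IntermediateField.subset_adjoin
          exact ⟨N2 + 0, N2 + 2, N2 + 1, N2 + i, by omega, by omega, by omega, by omega, rfl⟩)
      exact hconc (hN1 L1 t1 hL1 ht1 inferInstance (hdeg ▸ hlt) P₁ Q₁ hcop hP₁ hQ₁ htop₁ z hz)

end Pool.Agent.Helper45.M8

end

section

set_option autoImplicit false

open Polynomial

namespace Pool.Agent.Helper33.PS

open Pool.Agent.Helper45.M8 Pool.Agent.Helper45.S6 Pool.Agent.Helper45.FR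

theorem absS_charZero (k : Type) [Field k] [IsAlgClosed k] [CharZero k] (d : ℕ) (hd : 2 ≤ d) (n : ℕ) :
    AbsS k d n :=
  absS_of_planS k d (by omega) (fun n => planSAbs d n hd) n

end Pool.Agent.Helper33.PS

end

section

set_option autoImplicit false

open Finset Polynomial

namespace Pool.Agent.Helper33.PT

open Pool.Agent.Helper33.UB Pool.Agent.Helper51.RatTree Pool.Agent.Helper55.RD
  Pool.Agent.Helper93.RatODE Pool.Agent.Helper45.FR Pool.Agent.Helper33.PS

/-- **The core theorem of Plan T.** -/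
theorem t1core (d n : ℕ) (hd : 2 ≤ d) (wm : ℕ → ℕ) : ∃ (N : ℕ) (C₁ : ℝ), 0 ≤ C₁ ∧
    ∀ {k K E V W : Type} [Field k] [IsAlgClosed k] [Field K] [Field E] [Algebra k K] [Algebra k E]
    [Algebra K E] [IsScalarTower k K E] (P : PSys k K V) (Q : PSys k E W)
    (_ : ∀ v, ResK k (P.pl v)) (_ : ∀ w, ResK k (Q.pl w)) (gs : GalW P Q n) (F G : K[X])
    (hFG : IsRat F G d) (hres : resultant F G d d ≠ 0) (x : ℕ → K) (hx : RatOrbit F G x N)
    (T : Finset V) (_ : RAdm P F G d (rX hx) T)
    (_ : ∀ m a, a + wm m ≤ N → ∀ σ ∈ gs.G, (∃ y : K, σ (algebraMap K E y) ≠ algebraMap K E y) →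
      ∀ q : Polynomial (Polynomial E), q ≠ 0 → q.natDegree < m → (∀ i, (q.coeff i).natDegree < m) →
      ∃ j, a ≤ j ∧ j ≤ a + wm m ∧
        (q.eval (C (σ (algebraMap K E (x j))))).eval (algebraMap K E (x j)) ≠ 0),
    (P.E : ℝ) ≤ C₁ * tb P hd hFG hres hx T ∧ (tb P hd hFG hres hx T = 0 ∨
      ∃ j₀ ≤ N, ∃ α β γ : K, ∀ j, j₀ ≤ j → P.D (x j) = α * x j ^ 2 + β * x j + γ) := by
  classical
  set c := ratConst d hd with hc
  set c0 : ℝ := c.c0 with hc0def
  have hc0 : 0 < c0 := c.hc0
  have hc01 : c0 ≤ 1 := c.hc01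
  set n' : ℝ := max (n : ℝ) 1 with hn'
  have hn'1 : 1 ≤ n' := le_max_right _ _
  have hn'n : (n : ℝ) ≤ n' := le_max_left _ _
  have hn0 : (0 : ℝ) ≤ n := Nat.cast_nonneg n
  set M : ℝ := 64 * n' ^ 2 / c0 + 20 * n' ^ 2 with hM
  have hM0 : 0 < M := by positivity
  set κ₀ : ℝ := c0 / (64 * n' ^ 2) with hκ₀
  have hκ₀0 : 0 < κ₀ := by (clear * - hc0; positivity)
  set κw : ℝ := c0 / (32 * n') with hκw
  have hκw0 : 0 < κw := by positivity
  set κs : ℕ → ℝ := fun W => c0 / (64 * n' ^ 3 * (W + 2)) with hκs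
  have hκs0 : ∀ W, 0 < κs W := fun W => by simp only [hκs]; (clear * - hc0; positivity)
  have hκs1 : ∀ W, κs W ≤ 1 := fun W => by
    simp only [hκs]
    rw [div_le_one (by (clear * -; positivity))]
    have h1 : (1 : ℝ) ≤ 64 * n' ^ 3 * (W + 2) := by
      have h2 : (1 : ℝ) ≤ n' ^ 3 := one_le_pow₀ hn'1
      have h3 : (0 : ℝ) ≤ W := Nat.cast_nonneg W
      (clear * - h2; nlinarith)
    (clear * - hc01 h1; linarith)
  obtain ⟨mp, N₀p, hpair⟩ := pair_bound d n hd κw hκw0
  have hwin := fun W => window_star d n hd (κs W) (hκs0 W)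
  choose mW hmW using hwin
  have hric := fun R => riccati_tail d R hd
  choose nR hnR using hric
  choose NW0 hNW0 using hmW
  set NW : ℕ → ℕ → ℕ := fun W J => if h : 1 ≤ J then NW0 W (W + 1) (wm (mW W)) J h else 0 with hNW
  set wf : ℕ → ℕ := fun R => nR R + 3 * (R + 1) + 1 with hwf
  set Fn : ℕ → ℕ → ℕ := fun W J => NW W J + wm (mW W) + wm mp + N₀p + 1 with hFn
  obtain ⟨N, hsel⟩ := selC c M hM0 κ₀ hκ₀0 wf (fun R => by simp only [hwf]; omega) Fn
  set Cr : ℝ := 1 / c.δ0 + c.C1 / c.c1 with hCr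
  have hCr0 : 0 ≤ Cr := by
    have h1 := c.hδ0
    have h2 := c.hc1
    have h3 := c.hC1
    have : 0 < 1 / c.δ0 := by positivity
    have : 0 < c.C1 / c.c1 := div_pos (by (clear * - h3; linarith)) h2
    (clear * - h1 h3; positivity)
  refine ⟨N, n' * κw + n' ^ 2 * (Cr + 1 / M + 1 + n'), by (clear * - hc0 hCr0; positivity), ?_⟩
  intro k K E V W _ _ _ _ _ _ _ _ P Q hP hQ gs F G hFG hres x hx T hT hind
  set I := ratInstV (K := K) (P := P) hx hd hFG.cop hFG.dA hFG.dB hFG.top hres M T hT with hI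
  obtain ⟨B⟩ := hsel P I
  have hh : tb P hd hFG hres hx T = I.h := rfl
  rw [hh]
  set h := I.h with hhdef
  have hh0 : 0 ≤ h := I.h_nonneg
  set κ := κs B.W with hκ
  have hκ0 : 0 < κ := hκs0 B.W
  have hJ := B.hJ
  have hN'1 : Fn B.W B.J ≤ B.N' := B.hN'
  have hFnv : Fn B.W B.J = NW B.W B.J + wm (mW B.W) + wm mp + N₀p + 1 := rfl
  have hNWv : NW B.W B.J = NW0 B.W (B.W + 1) (wm (mW B.W)) B.J hJ := dif_pos hJ
  set Nw := NW0 B.W (B.W + 1) (wm (mW B.W)) B.J hJ with hNw
  have hn_le : B.n ≤ N := by have := B.hN; omega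
  have hiN : B.i + B.W + B.N' * B.J < B.n := B.hi
  have hNwJ : Nw * B.J ≤ B.N' * B.J := Nat.mul_le_mul_right _ (by omega)
  have hN'J : B.N' ≤ B.N' * B.J := Nat.le_mul_of_pos_right _ (by omega)
  have hrelT : I.rel B.n B.Nst ⊆ I.T := by
    unfold GInst.rel; exact filter_subset _ _
  have hIT : I.T = T := rfl
  -- directions
  have hdirS : ∀ s < B.W, ∀ v ∈ B.Ss s, ∃ ζ : Pool.Agent.Helper33.UB.PV (P.pl v), ∀ l l', l ≤ Nw → l' ≤ Nw → l ≠ l' →
      ζ.dir (x (B.i + s + l * B.J)) ≠ ζ.dir (x (B.i + s + l' * B.J)) := by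
    intro s hs v hv
    refine exists_dirV (i := B.i + s) (N' := Nw) hx hd hFG.cop hFG.dA hFG.dB hFG.top hres M T hT hJ
      (by omega) (Or.inl ?_)
    obtain ⟨ζ, hζ⟩ := B.Ss_star s hs v hv
    exact ⟨ζ, fun l l' h1 h2 => hζ l l' h1 (by omega)⟩
  set R₀ := T.filter fun v => v ∉ I.rel B.n B.Nst ∧ I.ε v = 0 with hR₀
  have hdir0 : ∀ v ∈ R₀, ∃ ζ : Pool.Agent.Helper33.UB.PV (P.pl v), ∀ l l', l ≤ Nw → l' ≤ Nw → l ≠ l' →
      ζ.dir (x (B.i + l * B.J)) ≠ ζ.dir (x (B.i + l' * B.J)) := by
    intro v hv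
    obtain ⟨hv1, hv2, hv3⟩ := mem_filter.mp hv
    refine exists_dirV (i := B.i) (N' := Nw) hx hd hFG.cop hFG.dA hFG.dB hFG.top hres M T hT hJ
      (by omega) (Or.inr ⟨hv3, ?_⟩)
    intro l l' hll hl'
    have h1 : l' * B.J ≤ Nw * B.J := Nat.mul_le_mul_right _ hl'
    have h2 : (l' - l) * B.J ≤ l' * B.J := Nat.mul_le_mul_right _ (by omega)
    have h3 : 1 ≤ (l' - l) * B.J := Nat.mul_pos (by omega) hJ
    have h4 : B.i + l' * B.J = B.i + l * B.J + (l' - l) * B.J := by
      rw [add_assoc, ← Nat.add_mul]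
      congr 2
      omega
    have h5 : l * B.J ≤ l' * B.J := Nat.mul_le_mul_right _ (by omega)
    rw [h4]
    exact not_close I B.hN B.hNst hv1 hv2 hv3 (by omega) h3 (B.dvd _ h3 (by omega))
  -- windows
  have hwS : ∀ s, ∃ Sb : Finset V, s < B.W → Sb ⊆ B.Ss s ∧ (Sb.card : ℝ) ≤ κ * h ∧
      (∀ v ∈ B.Ss s, v ∉ Sb → ∃ ζ : Pool.Agent.Helper33.UB.PV (P.pl v), ∀ a ≤ B.W + 1, ∀ b ≤ B.W + 1, a ≠ b →
        ζ.dir (x (B.i + s + a)) ≠ ζ.dir (x (B.i + s + b))) ∧
      ∀ σ ∈ gs.G, (∃ y : K, σ (algebraMap K E y) ≠ algebraMap K E y) → ∀ R ⊆ B.Ss s,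
        (∀ v ∈ R, v ∉ Sb ∧ ∃ w, gs.res w = v ∧ gs.act σ w = w) → (R.card : ℝ) ≤ κ * h := by
    intro s
    by_cases hs : s < B.W
    · have hNwN : B.i + s + Nw * B.J ≤ N := by omega
      obtain ⟨Sb, h1, h2, h3, h4⟩ := hNW0 B.W (B.W + 1) (wm (mW B.W)) B.J hJ P Q hP hQ gs F G hFG x N hx _ rfl M I rfl (B.i + s)
        hNwN (B.Ss s) (hdirS s hs)
      refine ⟨Sb, fun _ => ⟨h1, h2, h3, ?_⟩⟩
      intro σ hσ hy
      exact h4 σ hσ (fun p hp hp1 hp2 => hind (mW B.W) (B.i + s) (by omega) σ hσ hy p hp hp1 hp2)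
    · exact ⟨∅, fun h => absurd h hs⟩
  choose Sb hSb using hwS
  have hNwN : B.i + Nw * B.J ≤ N := by omega
  obtain ⟨Sb0, hSb01, hSb02, -, hSb04⟩ := hNW0 B.W (B.W + 1) (wm (mW B.W)) B.J hJ P Q hP hQ gs F G hFG x N hx _ rfl M I rfl B.i
    hNwN R₀ hdir0
  have hSb04' : ∀ σ ∈ gs.G, (∃ y : K, σ (algebraMap K E y) ≠ algebraMap K E y) → ∀ R ⊆ R₀,
        (∀ v ∈ R, v ∉ Sb0 ∧ ∃ w, gs.res w = v ∧ gs.act σ w = w) → (R.card : ℝ) ≤ κ * h :=
    fun σ hσ hy => hSb04 σ hσ
      (fun p hp hp1 hp2 => hind (mW B.W) B.i (by omega) σ hσ hy p hp hp1 hp2)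
  have hκh : 0 ≤ κ * h := by (clear * - hc0 hh0; positivity)
  -- the ramified places
  set Ra := T.filter fun v => 1 ≤ P.e v with hRa
  have hEle : (P.E : ℝ) ≤ n * (κw * h) + n * n * Ra.card := by
    apply E_le gs T hT.e (κw * h) (by (clear * - hc0 hh0; positivity))
    intro σ hσ hy S hS
    exact hpair P Q (fun v c hc => (hP v).const c hc) gs F G hFG x N (by omega) hx T hT
      (fun v => rloc hd (P.pl v) hFG.dA hFG.dB hres hx) σ hσ 0 (wm mp) (by omega)
      (fun p hp hp1 hp2 => hind mp 0 (by omega) σ hσ hy p hp hp1 hp2) S hS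
  -- ramified places outside `rel`, with `ε = 0`
  have hX0 : ((Ra.filter fun v => v ∉ I.rel B.n B.Nst ∧ I.ε v = 0).card : ℝ) ≤ κ * h + n * (κ * h) := by
    set X := Ra.filter fun v => v ∉ I.rel B.n B.Nst ∧ I.ε v = 0 with hX
    have h1 := card_ramified gs R₀ Sb0 (κ * h) hκh hSb04' (X \ Sb0) (by
      intro v hv
      obtain ⟨hv1, hv2⟩ := mem_filter.mp (mem_sdiff.mp hv).1
      exact mem_filter.mpr ⟨(mem_filter.mp hv1).1, hv2⟩) (by
      intro v hv
      obtain ⟨hv1, hv2⟩ := mem_sdiff.mp hv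
      exact ⟨hv2, (mem_filter.mp (mem_filter.mp hv1).1).2⟩)
    have h2 : (X.card : ℝ) ≤ (X \ Sb0).card + Sb0.card := by
      have := card_sdiff_add_card_inter X Sb0
      have h3 : (X ∩ Sb0).card ≤ Sb0.card := card_le_card inter_subset_right
      exact_mod_cast (by omega : X.card ≤ (X \ Sb0).card + Sb0.card)
    (clear * - hSb02 h1 h2; linarith)
  have hnκ : (n : ℝ) * (κ * h) ≤ n' * (κ * h) := mul_le_mul_of_nonneg_right hn'n hκh
  have hnκw : (n : ℝ) * (κw * h) ≤ n' * (κw * h) := mul_le_mul_of_nonneg_right hn'n (by (clear * - hc0 hh0; positivity))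
  have hnn : (n : ℝ) * n ≤ n' ^ 2 := by (clear * - hn'n hn'1; nlinarith)
  constructor
  · -- the general bound
    have hcov : Ra ⊆ (I.rel B.n B.Nst ∪ T.filter fun v => M ≤ I.ε v) ∪
        (Ra.filter fun v => v ∉ I.rel B.n B.Nst ∧ I.ε v = 0) := by
      intro v hv
      by_cases hr : v ∈ I.rel B.n B.Nst
      · exact mem_union_left _ (mem_union_left _ hr)
      by_cases hεM : M ≤ I.ε v
      · exact mem_union_left _ (mem_union_right _ (mem_filter.mpr ⟨(mem_filter.mp hv).1, hεM⟩))
      · refine mem_union_right _ (mem_filter.mpr ⟨hv, hr, ?_⟩)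
        rcases (I.ε_nonneg v (mem_filter.mp hv).1).lt_or_eq with h1 | h1
        · exfalso
          apply hr
          unfold GInst.rel
          exact mem_filter.mpr ⟨(mem_filter.mp hv).1, Or.inl ⟨h1, not_le.mp hεM⟩⟩
        · exact h1.symm
    have h1 : (Ra.card : ℝ) ≤ Cr * h + h / M + (κ * h + n * (κ * h)) := by
      have h2 := card_le_card hcov
      have h3 := card_union_le (I.rel B.n B.Nst ∪ T.filter fun v => M ≤ I.ε v)
        (Ra.filter fun v => v ∉ I.rel B.n B.Nst ∧ I.ε v = 0)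
      have h4 := card_union_le (I.rel B.n B.Nst) (T.filter fun v => M ≤ I.ε v)
      have h5 : ((I.rel B.n B.Nst).card : ℝ) ≤ Cr * h := I.card_rel B.hN B.hNst
      have h6 := I.card_bad hM0 (T.filter fun v => M ≤ I.ε v) (filter_subset _ _)
        (fun v hv => (mem_filter.mp hv).2)
      have h7 : (Ra.card : ℝ) ≤ (I.rel B.n B.Nst).card + (T.filter fun v => M ≤ I.ε v).card +
          (Ra.filter fun v => v ∉ I.rel B.n B.Nst ∧ I.ε v = 0).card := by
        exact_mod_cast (by omega : Ra.card ≤ (I.rel B.n B.Nst).card +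
          (T.filter fun v => M ≤ I.ε v).card +
          (Ra.filter fun v => v ∉ I.rel B.n B.Nst ∧ I.ε v = 0).card)
      (clear * - hX0 h5 h6 h7; linarith)
    have h2 : (Ra.card : ℝ) ≤ (Cr + 1 / M + 1 + n') * h := by
      have h3 : κ * h ≤ 1 * h := mul_le_mul_of_nonneg_right (hκs1 B.W) hh0
      have h4 : n' * (κ * h) ≤ n' * (1 * h) := mul_le_mul_of_nonneg_left h3 (by (clear * - hn'1; linarith))
      have h5 : h / M = 1 / M * h := by ring
      rw [h5] at h1
      (clear * - hnκ h1 h3 h4; linarith)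
    have h3 : (n : ℝ) * n * Ra.card ≤ n' ^ 2 * ((Cr + 1 / M + 1 + n') * h) := by
      apply mul_le_mul hnn h2 (Nat.cast_nonneg _) (by (clear * -; positivity))
    (clear * - hEle hnκw h3; linarith)
  · -- the Riccati equation
    by_cases hrel : Pool.Agent.Helper33.UB.Rel P.D B.R (B.Λ.image x)
    · right
      have hwfv : wf B.R = nR B.R + 3 * (B.R + 1) + 1 := rfl
      have haN : B.a + wf B.R ≤ N := by
        have := B.haW
        omega
      obtain ⟨i, hi1, hi2, α, β, γ, hαβ⟩ := hnR B.R P.D_add P.D_mul hFG hx.ne hx.step B.a (wf B.R)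
        (by omega) (by
          intro i hi j hj e
          rw [Set.mem_Icc] at hi hj
          exact hx.inj i j (by omega) (by omega) e) B.Λ B.hΛ B.hΛc hrel
      exact ⟨i, by omega, α, β, γ, hαβ⟩
    · left
      obtain ⟨Y, hYΛ, hYc, hdet⟩ : ∃ Y ⊆ B.Λ, Y.card = 2 * (B.R + 1) ∧
          (hankel P.D (Y.image I.x) B.R).det ≠ 0 := by
        by_contra hcon
        push Not at hcon
        apply hrel
        apply dichotomy'
        intro Y hY hYc
        obtain ⟨s, hs, hsY⟩ := subset_image_iff.mp hY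
        have hsle : ∀ j ∈ s, j ≤ N := by
          intro j hj
          have h1 := mem_Ico.mp (B.hΛ (hs hj))
          have := B.haW
          omega
        have hsc : s.card = 2 * (B.R + 1) := by
          rw [← hsY] at hYc
          have h1 : (s.image x).card = s.card := card_image_of_injOn (I.injOn hsle)
          omega
        rw [← hsY]
        exact hcon s hs hsc
      set Sball := (range B.W).biUnion Sb with hSball
      have hSballT : Sball ⊆ I.T := by
        rw [hSball, biUnion_subset]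
        intro s hs
        exact ((hSb s (mem_range.mp hs)).1.trans (B.Ss_sub s)).trans hrelT
      have hSballc : (Sball.card : ℝ) ≤ B.W * (κ * h) := by
        have h1 : (Sball.card : ℝ) ≤ ∑ s ∈ range B.W, ((Sb s).card : ℝ) := by
          exact_mod_cast card_biUnion_le
        refine h1.trans ?_
        calc ∑ s ∈ range B.W, ((Sb s).card : ℝ) ≤ ∑ s ∈ range B.W, κ * h :=
              sum_le_sum fun s hs => (hSb s (mem_range.mp hs)).2.1
          _ = B.W * (κ * h) := by rw [sum_const, card_range, nsmul_eq_mul]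
      obtain ⟨Hg, Loss, hHT, hLT, hSbL, hLc, ham, hrest⟩ := B.am Y hYΛ hYc hdet Sball hSballT (by
        intro v hv hvS s hs hvs
        have hsW : s < B.W := by have := B.haW; omega
        have hvSb : v ∉ Sb s := fun h' => hvS (mem_biUnion.mpr ⟨s, mem_range.mpr hsW, h'⟩)
        obtain ⟨ζ, hζ⟩ := (hSb s hsW).2.2.1 v hvs hvSb
        apply star_of_dirs ζ
        intro y hy z hz hyz
        obtain ⟨j, hj, rfl⟩ := mem_image.mp hy
        obtain ⟨j', hj', rfl⟩ := mem_image.mp hz
        have h1 := mem_Ico.mp (B.hΛ (hYΛ hj))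
        have h2 := mem_Ico.mp (B.hΛ (hYΛ hj'))
        have hjj : j ≠ j' := fun e => hyz (by rw [e])
        have h3 := hζ (j - (B.i + s)) (by have := B.haW; omega) (j' - (B.i + s))
          (by have := B.haW; omega) (by omega)
        rw [show B.i + s + (j - (B.i + s)) = j by omega,
          show B.i + s + (j' - (B.i + s)) = j' by omega] at h3
        exact h3)
      -- the ramified places
      have hcov : Ra ⊆ (Hg ∪ Loss) ∪ ((range B.W).biUnion (fun s => Ra.filter fun v =>
          v ∈ B.Ss s ∧ v ∉ Sb s) ∪ (Ra.filter fun v => v ∉ I.rel B.n B.Nst ∧ I.ε v = 0)) := by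
        intro v hv
        by_cases h1 : v ∈ Hg
        · exact mem_union_left _ (mem_union_left _ h1)
        by_cases h2 : v ∈ Loss
        · exact mem_union_left _ (mem_union_right _ h2)
        rcases hrest v (mem_filter.mp hv).1 h1 h2 with ⟨s, hs, hvs⟩ | h3
        · have hsW : s < B.W := by have := B.haW; omega
          refine mem_union_right _ (mem_union_left _ (mem_biUnion.mpr ⟨s, mem_range.mpr hsW,
            mem_filter.mpr ⟨hv, hvs, ?_⟩⟩))
          intro h'
          exact h2 (hSbL (mem_biUnion.mpr ⟨s, mem_range.mpr hsW, h'⟩))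
        · exact mem_union_right _ (mem_union_right _ (mem_filter.mpr ⟨hv, h3⟩))
      have hXs : ∀ s ∈ range B.W, (((Ra.filter fun v => v ∈ B.Ss s ∧ v ∉ Sb s).card : ℕ) : ℝ) ≤
          n' * (κ * h) := by
        intro s hs
        refine le_trans ?_ hnκ
        apply card_ramified gs (B.Ss s) (Sb s) (κ * h) hκh (hSb s (mem_range.mp hs)).2.2.2
        · intro v hv
          exact (mem_filter.mp hv).2.1
        · intro v hv
          exact ⟨(mem_filter.mp hv).2.2, (mem_filter.mp (mem_filter.mp hv).1).2⟩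
      have hRac : (Ra.card : ℝ) ≤ Hg.card + Loss.card + B.W * (n' * (κ * h)) +
          (κ * h + n' * (κ * h)) := by
        have h1 := card_le_card hcov
        have h2 := card_union_le (Hg ∪ Loss) ((range B.W).biUnion (fun s => Ra.filter fun v =>
          v ∈ B.Ss s ∧ v ∉ Sb s) ∪ (Ra.filter fun v => v ∉ I.rel B.n B.Nst ∧ I.ε v = 0))
        have h3 := card_union_le Hg Loss
        have h4 := card_union_le ((range B.W).biUnion (fun s => Ra.filter fun v =>
          v ∈ B.Ss s ∧ v ∉ Sb s)) (Ra.filter fun v => v ∉ I.rel B.n B.Nst ∧ I.ε v = 0)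
        have h5 : ((((range B.W).biUnion (fun s => Ra.filter fun v =>
          v ∈ B.Ss s ∧ v ∉ Sb s)).card : ℕ) : ℝ) ≤ B.W * (n' * (κ * h)) := by
          have h6 : ((((range B.W).biUnion (fun s => Ra.filter fun v =>
            v ∈ B.Ss s ∧ v ∉ Sb s)).card : ℕ) : ℝ) ≤ ∑ s ∈ range B.W,
            (((Ra.filter fun v => v ∈ B.Ss s ∧ v ∉ Sb s).card : ℕ) : ℝ) := by
            exact_mod_cast card_biUnion_le
          refine h6.trans ((sum_le_sum hXs).trans (le_of_eq ?_))
          rw [sum_const, card_range, nsmul_eq_mul]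
        have h7 : (Ra.card : ℝ) ≤ Hg.card + Loss.card + (((range B.W).biUnion (fun s =>
            Ra.filter fun v => v ∈ B.Ss s ∧ v ∉ Sb s)).card + ((Ra.filter fun v =>
            v ∉ I.rel B.n B.Nst ∧ I.ε v = 0).card : ℕ)) := by
          exact_mod_cast (by omega : Ra.card ≤ Hg.card + Loss.card + (((range B.W).biUnion (fun s =>
            Ra.filter fun v => v ∈ B.Ss s ∧ v ∉ Sb s)).card + (Ra.filter fun v =>
            v ∉ I.rel B.n B.Nst ∧ I.ε v = 0).card))
        (clear * - hX0 hnκ h5 h7; linarith)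
      -- the final inequality
      have hWr : (0 : ℝ) ≤ B.W := Nat.cast_nonneg _
      have hE' : (P.E : ℝ) ≤ n' * (κw * h) + n' ^ 2 * (Hg.card + Loss.card + B.W * (n' * (κ * h)) +
          (κ * h + n' * (κ * h))) := by
        have h1 : (n : ℝ) * n * Ra.card ≤ n' ^ 2 * (Hg.card + Loss.card + B.W * (n' * (κ * h)) +
          (κ * h + n' * (κ * h))) := mul_le_mul hnn hRac (Nat.cast_nonneg _) (by (clear * -; positivity))
        (clear * - hEle hnκw h1; linarith)
      have hn'2 : 1 ≤ n' ^ 2 := one_le_pow₀ hn'1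
      have ham' : c0 / 2 * h + M / 10 * Hg.card ≤ 2 * (Loss.card + P.E) := ham
      have hLc' : (Loss.card : ℝ) ≤ κ₀ * h + h / M + B.W * (κ * h) := by (clear * - hSballc hLc; linarith)
      have hHg0 : (0 : ℝ) ≤ Hg.card := Nat.cast_nonneg _
      have e1 : κ₀ * h = c0 / (64 * n' ^ 2) * h := rfl
      have e2 : h / M ≤ c0 / (64 * n' ^ 2) * h := by
        rw [div_le_iff₀ hM0]
        have : 1 ≤ c0 / (64 * n' ^ 2) * M := by
          rw [hM, mul_add]
          have h1 : c0 / (64 * n' ^ 2) * (64 * n' ^ 2 / c0) = 1 := by field_simp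
          rw [h1]
          have : 0 ≤ c0 / (64 * n' ^ 2) * (20 * n' ^ 2) := by (clear * - hc0; positivity)
          (clear * - this; linarith)
        (clear * - hh0 this; nlinarith)
      have e3 : B.W * (κ * h) ≤ c0 / (64 * n' ^ 2) * h := by
        have h1 : B.W * κ ≤ c0 / (64 * n' ^ 2) := by
          change (B.W : ℝ) * (c0 / (64 * n' ^ 3 * (B.W + 2))) ≤ c0 / (64 * n' ^ 2)
          rw [mul_div_assoc', div_le_div_iff₀ (by (clear * -; positivity)) (by (clear * -; positivity))]
          have h2 : (B.W : ℝ) * c0 * (64 * n' ^ 2) ≤ (B.W + 2) * c0 * (64 * n' ^ 2) := by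
            gcongr
            (clear * -; linarith)
          have h3 : ((B.W : ℝ) + 2) * c0 * (64 * n' ^ 2) * 1 ≤ (B.W + 2) * c0 * (64 * n' ^ 2) * n' := by
            (clear * - hn'1 hc0; gcongr)
          calc _ ≤ ((B.W : ℝ) + 2) * c0 * (64 * n' ^ 2) := h2
            _ ≤ (B.W + 2) * c0 * (64 * n' ^ 2) * n' := by (clear * - h3; linarith)
            _ = c0 * (64 * n' ^ 3 * (B.W + 2)) := by ring
        calc B.W * (κ * h) = B.W * κ * h := by ring
          _ ≤ c0 / (64 * n' ^ 2) * h := mul_le_mul_of_nonneg_right h1 hh0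
      have e4 : B.W * (n' * (κ * h)) + (κ * h + n' * (κ * h)) ≤ c0 / (64 * n' ^ 2) * h := by
        have h1 : (B.W * n' + 1 + n') * κ ≤ c0 / (64 * n' ^ 2) := by
          change ((B.W : ℝ) * n' + 1 + n') * (c0 / (64 * n' ^ 3 * (B.W + 2))) ≤ c0 / (64 * n' ^ 2)
          rw [mul_div_assoc', div_le_div_iff₀ (by (clear * -; positivity)) (by (clear * -; positivity))]
          have h2 : (B.W : ℝ) * n' + 1 + n' ≤ n' * (B.W + 2) := by (clear * - hn'1; linarith)
          have h3 : ((B.W : ℝ) * n' + 1 + n') * (c0 * (64 * n' ^ 2)) ≤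
              n' * (B.W + 2) * (c0 * (64 * n' ^ 2)) := mul_le_mul_of_nonneg_right h2 (by (clear * - hc0; positivity))
          calc _ = ((B.W : ℝ) * n' + 1 + n') * (c0 * (64 * n' ^ 2)) := by ring
            _ ≤ n' * (B.W + 2) * (c0 * (64 * n' ^ 2)) := h3
            _ = c0 * (64 * n' ^ 3 * (B.W + 2)) := by ring
        calc B.W * (n' * (κ * h)) + (κ * h + n' * (κ * h)) = (B.W * n' + 1 + n') * κ * h := by ring
          _ ≤ c0 / (64 * n' ^ 2) * h := mul_le_mul_of_nonneg_right h1 hh0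
      have e5 : n' * (κw * h) = c0 / 32 * h := by
        change n' * (c0 / (32 * n') * h) = _
        (clear * - hn'1 hc0; field_simp)
      have e6 : n' ^ 2 * (c0 / (64 * n' ^ 2) * h) = c0 / 64 * h := by (clear * - hn'1 hc0; field_simp)
      have e7 : c0 / (64 * n' ^ 2) * h ≤ c0 / 64 * h := by
        apply mul_le_mul_of_nonneg_right _ hh0
        apply div_le_div_of_nonneg_left hc0.le (by norm_num)
        (clear * - hn'2; linarith)
      set t : ℝ := c0 / (64 * n' ^ 2) * h with ht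
      have hL3 : (Loss.card : ℝ) ≤ 3 * t := by (clear * - hSballc hLc e2 e3; linarith)
      have hE2 : (P.E : ℝ) ≤ c0 / 32 * h + n' ^ 2 * Hg.card + 4 * (c0 / 64 * h) := by
        have h1 : n' ^ 2 * (Hg.card + Loss.card + B.W * (n' * (κ * h)) + (κ * h + n' * (κ * h))) ≤
            n' ^ 2 * (Hg.card + 4 * t) := by
          apply mul_le_mul_of_nonneg_left _ (by (clear * -; positivity))
          (clear * - hSballc hLc e2 e3 e4; linarith)
        have h2 : n' ^ 2 * (Hg.card + 4 * t) = n' ^ 2 * Hg.card + 4 * (n' ^ 2 * t) := by ring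
        rw [h2, e6] at h1
        (clear * - hE' e5 h1; linarith)
      have hM10 : 2 * n' ^ 2 * (Hg.card : ℝ) ≤ M / 10 * Hg.card := by
        apply mul_le_mul_of_nonneg_right _ hHg0
        rw [hM]
        have : 0 ≤ 64 * n' ^ 2 / c0 := by (clear * - hc0; positivity)
        (clear * - this; linarith)
      have hfin : c0 / 2 * h ≤ 6 * (c0 / 64 * h) + c0 / 16 * h + 8 * (c0 / 64 * h) := by
        (clear * - hSballc ham' hLc e2 e3 e7 hE2 hM10; linarith)
      have : c0 * h ≤ 0 := by (clear * - hSballc ham' hLc e2 e3 e7 hE2 hM10; linarith)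
      have hh1 : h ≤ 0 := by
        by_contra hneg
        push Not at hneg
        have : 0 < c0 * h := by (clear * - hc0 hneg; positivity)
        (clear * - hSballc ham' hLc e2 e3 e7 hE2 hM10 this; linarith)
      exact le_antisymm hh1 hh0

end Pool.Agent.Helper33.PT

end

section

set_option autoImplicit false

open Finset Polynomial

namespace Pool.Agent.Helper33.PT

open Pool.Agent.Helper33.UB Pool.Agent.Helper51.RatTree Pool.Agent.Helper55.RD
  Pool.Agent.Helper93.RatODE Pool.Agent.Helper45.FR Pool.Agent.Helper33.PS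

/-- **The abstract theorem of Plan T.** -/
theorem planT (p : ℕ) [Fact p.Prime] (d n : ℕ) (hd : 2 ≤ d) (wm : ℕ → ℕ) : PlanTAbs p d n wm := by
  classical
  obtain ⟨N₀, C₁, hC₁, hcore⟩ := t1core d n hd wm
  obtain ⟨n₁, c₁, hc₁, hstar⟩ := exists_big_cross 2 (ratConst d hd).c0 (by norm_num)
    (ratConst d hd).hc0 (ratConst d hd).N0
  set N₁ := max N₀ (2 * d + 1) with hN₁
  have hN₀N₁ : N₀ ≤ N₁ := le_max_left _ _
  have hdN₁ : 2 * d + 1 ≤ N₁ := le_max_right _ _
  set Ct : ℝ := 8 * (C₁ + 3 * ((n₁ + 1) ^ 2 + ((ratConst d hd).N0 + 1) ^ 2)) with hCt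
  have hp1 : (1 : ℝ) < p := by exact_mod_cast (Fact.out : p.Prime).one_lt
  have hp0 : (0 : ℝ) < p := by linarith
  obtain ⟨S₀, hS₀⟩ := pow_unbounded_of_one_lt (Ct / c₁) hp1
  set S := S₀ + 1 with hS
  have hpS : Ct / c₁ < (p : ℝ) ^ S := by
    refine hS₀.trans_le ?_
    rw [hS, pow_succ]
    exact le_mul_of_one_le_right (pow_pos hp0 _).le hp1.le
  have hpS' : Ct < (p : ℝ) ^ S * c₁ := by rwa [div_lt_iff₀ hc₁] at hpS
  set U := S * N₁ + n₁ + (ratConst d hd).N0 + 2 * d + 10 with hU
  set N := 3 * U with hN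
  refine ⟨N, ?_⟩
  intro k K E V W _ _ _ _ _ _ _ _ _ P Q hP hQ hunif hker gs Fo Go hFGo xo hxo hjump hind
  haveI : CharP K p := charP_of_injective_algebraMap (algebraMap k K).injective p
  haveI : Infinite k := IsAlgClosed.instInfinite
  by_contra hnc
  -- normalisation
  obtain ⟨F, G, x, hFG, hx, hnorm, cα, cβ, cγ, hconj, hcr⟩ := exists_norm P hP (by omega : 1 ≤ d)
    hFGo hxo (by omega : 2 * d + 2 ≤ N) (α := N) (β := N - 1) (γ := N - 2) (by omega) (by omega)
    (by omega) le_rfl (by omega) (by omega)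
  -- the jump
  obtain ⟨js, hjs, hDjs⟩ : ∃ js ≤ 2 * d + 1, P.D (x js) ≠ 0 := by
    by_contra hcon
    push Not at hcon
    obtain ⟨i, hi, hi2⟩ := hjump
    have h1 := D_cr_zero P.D_add P.D_mul (hcon 0 (by omega)) (hcon 2 (by omega)) (hcon 1 (by omega))
      (hcon i hi)
    obtain ⟨c, hc⟩ := hker _ h1
    rw [hcr 0 2 1 i] at hc
    exact hi2 c hc
  -- the core inequality for all levels
  have hT1 : ∀ (F' G' : K[X]) (z : ℕ → K) (N' : ℕ) (hFG' : IsRat F' G' d)
      (hres' : resultant F' G' d d ≠ 0) (hz : RatOrbit F' G' z N') (_ : N₁ ≤ N')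
      (_ : ConstConj k F' G' d → ConstConj k Fo Go d) (T : Finset V) (_ : RAdm P F' G' d (rX hz) T),
      (P.E : ℝ) ≤ C₁ * tb P hd hFG' hres' hz T ∧ 0 < tb P hd hFG' hres' hz T ∧
      ∃ j₀ ≤ N₁, ∃ a b c : K, ∀ j, j₀ ≤ j → P.D (z j) = a * z j ^ 2 + b * z j + c := by
    intro F' G' z N' hFG' hres' hz hN' hc' T hT
    have hz0 : RatOrbit F' G' z N₀ := orbit_mono hz (by omega)
    obtain ⟨h1, h2⟩ := hcore P Q hP hQ gs F' G' hFG' hres' z hz0 T hT (by
      intro m a ha σ hσ hy q hq hq1 hq2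
      obtain ⟨j, hj, hj2⟩ := hind F' G' (fun j => z (a + j)) m hFG' (orbit_shift hz0 a (wm m) ha) hc'
        σ hσ hy q hq hq1 hq2
      exact ⟨a + j, by omega, by omega, hj2⟩)
    have hne : tb P hd hFG' hres' hz T ≠ 0 := by
      intro h0
      exact hnc (hc' (conj_of_h hz hd hFG' (by omega)
        (ratInstV hz hd hFG'.cop hFG'.dA hFG'.dB hFG'.top hres' 1 T hT) rfl h0))
    have hnn : 0 ≤ tb P hd hFG' hres' hz T :=
      (ratInstV hz hd hFG'.cop hFG'.dA hFG'.dB hFG'.top hres' 1 T hT).h_nonneg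
    refine ⟨h1, lt_of_le_of_ne hnn (Ne.symm hne), ?_⟩
    rcases h2 with h2 | ⟨j₀, hj₀, h2⟩
    · exact absurd h2 hne
    · exact ⟨j₀, hj₀.trans hN₀N₁, h2⟩
  -- the levels
  have hSN : S * N₁ + 2 * d + 2 ≤ N := by omega
  obtain ⟨F', G', z, A, hA, hFG', hz, hnorm', hzx, hconj', hgg⟩ := exists_level p P hker hd hFG hx
    hnorm N₁ S hSN (α := N) (β := N - 1) (γ := N - 2) (by omega) (by omega)
    (by omega) (by omega) (by omega) (by omega) le_rfl (by omega) (by omega) cα cβ cγ (by
      intro F' G' z N' hFG' hz hN' hc'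
      have hres' : resultant F' G' d d ≠ 0 := resultant_ne_zero_of_isRat (by omega) hFG'
      obtain ⟨T, hT⟩ := exists_radm P (d := d) hres' (rX hz) (fun y hy => (rX_spec hz y hy).1)
      exact (hT1 F' G' z N' hFG' hres' hz hN' (fun h => hconj (hc' h)) T hT).2.2) S le_rfl
  have hres : resultant F G d d ≠ 0 := resultant_ne_zero_of_isRat (by omega) hFG
  have hres' : resultant F' G' d d ≠ 0 := resultant_ne_zero_of_isRat (by omega) hFG'
  obtain ⟨T₀, hT₀⟩ := exists_radm P (d := d) hres (rX hx) (fun y hy => (rX_spec hx y hy).1)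
  obtain ⟨T₁, hT₁⟩ := exists_radm P (d := d) hres' (rX hz) (fun y hy => (rX_spec hz y hy).1)
  set T := T₀ ∪ T₁ with hTdef
  have hT : RAdm P F G d (rX hx) T := radm_mono hT₀ subset_union_left
  have hT' : RAdm P F' G' d (rX hz) T := radm_mono hT₁ subset_union_right
  have hN₁' : N₁ ≤ S * N₁ := Nat.le_mul_of_pos_left _ (by omega)
  have hlen : N₁ ≤ N - S * N₁ := by omega
  obtain ⟨hE, hpos, -⟩ := hT1 F' G' z (N - S * N₁) hFG' hres' hz hlen
    (fun h => hconj (hconj' h)) T hT'
  have hcmp := compare p P hd hFG hFG' hres hres' hx hz S A n₁ js (by omega) hzx hgg T hT hT'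
    (by omega) (by omega) hDjs C₁ c₁ hE (by
      have h1 := hstar T (ratInstV hz hd hFG'.cop hFG'.dA hFG'.dB hFG'.top hres' 1 T hT').ε
        (ratInstV hz hd hFG'.cop hFG'.dA hFG'.dB hFG'.top hres' 1 T hT').g (range n₁)
        (ratInstV hz hd hFG'.cop hFG'.dA hFG'.dB hFG'.top hres' 1 T hT').ε_nonneg
        (ratInstV hz hd hFG'.cop hFG'.dA hFG'.dB hFG'.top hres' 1 T hT').g_comm
        (by
          intro i hi j hj hij
          rw [mem_range] at hi hj
          exact (ratInstV hz hd hFG'.cop hFG'.dA hFG'.dB hFG'.top hres' 1 T hT').sum_g (by omega)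
            (by omega) hij)
        (by
          intro v hv i hi j hj hij
          rw [mem_range] at hi hj
          exact (ratInstV hz hd hFG'.cop hFG'.dA hFG'.dB hFG'.top hres' 1 T hT').lower v hv i j
            (by omega) (by omega) hij)
        (by
          intro v hv s' hs' hc'
          refine (ratInstV hz hd hFG'.cop hFG'.dA hFG'.dB hFG'.top hres' 1 T hT').lb v hv s' ?_ hc'
          intro i hi
          have := mem_range.mp (hs' hi)
          omega)
        (by rw [card_range])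
      exact h1)
  have h1 : (p : ℝ) ^ S * c₁ * tb P hd hFG' hres' hz T ≤ Ct * tb P hd hFG' hres' hz T := by
    calc (p : ℝ) ^ S * c₁ * tb P hd hFG' hres' hz T
        = (p : ℝ) ^ S * (c₁ * tb P hd hFG' hres' hz T) := by ring
      _ ≤ _ := hcmp
  have h2 := le_of_mul_le_mul_right h1 hpos
  linarith

end Pool.Agent.Helper33.PT

end
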