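import Pool.Agent.Helper23.MB.L03_ab2
import Pool.Agent.Helper23.MB.L03_ab3
import Pool.Agent.Helper23.MB.L03_ab4
import Pool.Agent.Helper23.MB.L03_ab5
import Pool.Agent.Helper23.MB.L03_ab6
import Pool.Agent.Helper23.MB.L03_ab7

/-!
Parts of Helper45.GalW3
-/

attribute [-simp] Valuation.IsUniformizer.val
attribute [local instance 5000]
  Pool.Agent.Helper23.MB.Inst.rCharZero Pool.Agent.Helper23.MB.Inst.rALM
  Pool.Agent.Helper23.MB.Inst.rARM Pool.Agent.Helper23.MB.Inst.rALSM
  Pool.Agent.Helper23.MB.Inst.rARSM Pool.Agent.Helper23.MB.Inst.rARRLE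
  Pool.Agent.Helper23.MB.Inst.rALRLE Pool.Agent.Helper23.MB.Inst.rARRLT
  Pool.Agent.Helper23.MB.Inst.rALRLT Pool.Agent.Helper23.MB.Inst.rPMRLT
  Pool.Agent.Helper23.MB.Inst.rMPRLT Pool.Agent.Helper23.MB.Inst.rPMM
  Pool.Agent.Helper23.MB.Inst.rMPM Pool.Agent.Helper23.MB.Inst.rPMSM
  Pool.Agent.Helper23.MB.Inst.rMPSM Pool.Agent.Helper23.MB.Inst.rEAOL
  Pool.Agent.Helper23.MB.Inst.rIOR Pool.Agent.Helper23.MB.Inst.rISOR
  Pool.Agent.Helper23.MB.Inst.rNZD Pool.Agent.Helper23.MB.Inst.zCharZero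
  Pool.Agent.Helper23.MB.Inst.zALM Pool.Agent.Helper23.MB.Inst.zARM
  Pool.Agent.Helper23.MB.Inst.zIOR Pool.Agent.Helper23.MB.Inst.zISOR
  Pool.Agent.Helper23.MB.Inst.zNZD Pool.Agent.Helper23.MB.Inst.qCharZero
  Pool.Agent.Helper23.MB.Inst.free Pool.Agent.Helper23.MB.Inst.faith
  Pool.Agent.Helper23.MB.Inst.torsionFree Pool.Agent.Helper23.MB.Inst.rfFaith
  Pool.Agent.Helper23.MB.Inst.hAdd Pool.Agent.Helper23.MB.Inst.hAddM
  Pool.Agent.Helper23.MB.Inst.hMul Pool.Agent.Helper23.MB.Inst.hMon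
  Pool.Agent.Helper23.MB.Inst.hZero Pool.Agent.Helper23.MB.Inst.hOne
  Pool.Agent.Helper23.MB.Inst.hMZ Pool.Agent.Helper23.MB.Inst.hRing
  Pool.Agent.Helper23.MB.Inst.aAdd Pool.Agent.Helper23.MB.Inst.aAddM
  Pool.Agent.Helper23.MB.Inst.aMul Pool.Agent.Helper23.MB.Inst.aMon
  Pool.Agent.Helper23.MB.Inst.aZero Pool.Agent.Helper23.MB.Inst.aOne
  Pool.Agent.Helper23.MB.Inst.aMZ Pool.Agent.Helper23.MB.Inst.aRing

namespace Pool.Agent.Helper16
end Pool.Agent.Helper16
namespace Pool.Agent.Helper33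
end Pool.Agent.Helper33
namespace Pool.Agent.Helper33.PS
end Pool.Agent.Helper33.PS
namespace Pool.Agent.Helper33.PT
end Pool.Agent.Helper33.PT
namespace Pool.Agent.Helper45.FF
end Pool.Agent.Helper45.FF
namespace Pool.Agent.Helper45.M8
end Pool.Agent.Helper45.M8
namespace Pool.Agent.Helper45.S4
end Pool.Agent.Helper45.S4

section

set_option autoImplicit false

set_option linter.style.haveILetI false

set_option linter.unusedSectionVars false

namespace Pool.Agent.Helper45.GW

open Polynomial IntermediateField Pool.Agent.Helper16 Pool.Agent.Helper33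
  Pool.Agent.Helper33.PS Pool.Agent.Helper33.PT
  Pool.Agent.Helper45.FF Pool.Agent.Helper45.S4 Pool.Agent.Helper45.M8

section psys

variable {k L : Type} [Field k] [Field L] [Algebra k L]

/-- The place system of a derivation with minimal error terms. -/
theorem exists_psys_min [IsAlgClosed k] (hN : IsFunctionField k L) (t : L)
    (ht : Transcendental k t) (D : Derivation k L L) (hD : D t = 1) :
    ∃ P : PSys k L (Place k L), (∀ x, P.D x = D x) ∧ (∀ v, P.pl v = plDV v) ∧
      ∀ v, 1 ≤ P.e v → ∀ y, v.ord y = 1 → D y ≠ 0 ∧ v.ord (D y) ≤ -(P.e v : ℤ) := by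
  classical
  obtain ⟨P0, hP1, hP2⟩ := exists_psys_aux hN t ht D hD
  have ht0 : t ≠ 0 := transcendental_ne_zero ht
  have hB : ∀ v : Place k L, ∀ x, v.val x ≤ 1 → v.val (D x) ≤ WithZero.exp (P0.e v : ℤ) :=
    fun v => psys_hB hP1 hP2 v
  choose π hπ0 hπ using fun v : Place k L => exists_ord_eq_one v
  have hle : ∀ (v : Place k L) (y : L), v.ord y = 1 → ∀ x, v.val x ≤ 1 →
      v.val (D x) ≤ v.val (D y) := fun v y hy x hx =>
    val_D_le_pi v D hN _ (hB v) y (val_of_ord_one v hy) x hx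
  have hDπ : ∀ v, D (π v) ≠ 0 := by
    intro v h0
    have h1 : ∀ x, v.val x ≤ 1 → D x = 0 := by
      intro x hx
      have := hle v (π v) (hπ v) x hx
      rw [h0, map_zero] at this
      have h2 : v.val (D x) = 0 := le_antisymm this zero_le
      simpa using h2
    rcases le_total (v.val t) 1 with h | h
    · have := h1 t h
      rw [hD] at this
      exact one_ne_zero this
    · have h2 : v.val t⁻¹ ≤ 1 := by
        rw [map_inv₀]; exact inv_le_one_of_one_le₀ h
      have := h1 _ h2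
      rw [Derivation.leibniz_inv, hD, smul_eq_mul, mul_one, neg_eq_zero] at this
      exact pow_ne_zero 2 (inv_ne_zero ht0) this
  let e : Place k L → ℕ := fun v => (-(v.ord (D (π v)))).toNat
  have hmain : ∀ v : Place k L, (∀ x, v.val x ≤ 1 → v.val (D x) ≤ WithZero.exp (e v : ℤ)) ∧
      e v ≤ P0.e v := by
    intro v
    constructor
    · intro x hx
      refine (hle v (π v) (hπ v) x hx).trans ?_
      rw [val_le_exp_iff v _ (hDπ v)]
      have := Int.self_le_toNat (-(v.ord (D (π v))))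
      simp only [e]
      omega
    · have h1 := hB v (π v) (by rw [val_of_ord_one v (hπ v)]; exact exp_neg_one_lt.le)
      rw [val_le_exp_iff v _ (hDπ v)] at h1
      simp only [e]
      omega
  refine ⟨
    { pl := P0.pl
      ord_finite := P0.ord_finite
      sum_ord := P0.sum_ord
      D := P0.D
      D_add := P0.D_add
      D_mul := P0.D_mul
      e := e
      e_finite := P0.e_finite.subset (fun v hv h0 => hv (Nat.le_zero.1 (h0 ▸ (hmain v).2)))
      ord_D := ?_
      ord_D' := ?_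
      const := P0.const }, hP1, hP2, ?_⟩
  · intro v x hx hDx
    rw [hP1] at hDx ⊢
    rw [hP2]
    exact ord_D_ge_gen v D (e v) (hmain v).1 x hx hDx
  · intro v x hx hDx h0
    rw [hP1] at hDx ⊢
    rw [hP2] at h0 ⊢
    have := (hmain v).1 x ((v.ord_nonneg_iff hx).1 h0)
    rw [val_le_exp_iff v _ hDx] at this
    exact this
  · intro v hv y hy
    change 1 ≤ e v at hv
    change D y ≠ 0 ∧ v.ord (D y) ≤ -(e v : ℤ)
    have h1 := hle v y hy (π v) (by rw [val_of_ord_one v (hπ v)]; exact exp_neg_one_lt.le)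
    have hDy : D y ≠ 0 := by
      intro h0
      rw [h0, map_zero] at h1
      have h2 : v.val (D (π v)) = 0 := le_antisymm h1 zero_le
      exact hDπ v (by simpa using h2)
    refine ⟨hDy, ?_⟩
    rw [val_eq_exp v (hDπ v), val_eq_exp v hDy, WithZero.exp_le_exp] at h1
    simp only [e] at hv ⊢
    omega

end psys

section main

variable {k L : Type} [Field k] [Field L] [Algebra k L]

/-- **The wild Galois system** of a function field (any characteristic). -/
theorem exists_galW_gen [IsAlgClosed k] (hL : IsFunctionField k L) (t : L)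
    (ht : Transcendental k t) [Algebra.IsSeparable k⟮t⟯ L] (n : ℕ)
    (hn : Module.finrank k⟮t⟯ L ≤ n) :
    ∃ (E : Type) (_ : Field E) (_ : Algebra k E) (_ : Algebra L E) (_ : IsScalarTower k L E)
      (P : PSys k L (Place k L)) (Q : PSys k E (Place k E)) (D : Derivation k L L)
      (gs : GalW P Q n.factorial),
      (∀ v, P.pl v = plDV v) ∧ (∀ w, Q.pl w = plDV w) ∧
      (∀ v, ResK k (P.pl v)) ∧ (∀ w, ResK k (Q.pl w)) ∧ D t = 1 ∧ (∀ y, P.D y = D y) ∧
      (∀ σ ∈ gs.G, ∃ τ : E ≃ₐ[k⟮t⟯] E, ∀ y, σ y = τ y) ∧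
      (∀ y : E, (∀ σ ∈ gs.G, σ y = y) → ∃ f : k⟮t⟯, algebraMap k⟮t⟯ E f = y) ∧
      FiniteDimensional L E := by
  classical
  haveI hfdL := finiteDimensional_adjoin hL t ht
  obtain ⟨E, iE, iA, iB, h1, h2, h3, hE, hcard⟩ := exists_galois_closure_sep hL t ht
  haveI := h1
  haveI := h2
  haveI := h3
  haveI hfdE : FiniteDimensional k⟮t⟯ E := FiniteDimensional.trans k⟮t⟯ L E
  have hF := isFunctionField_adjoin hL t ht
  have htE : Transcendental k (algebraMap L E t) := by
    rwa [transcendental_algebraMap_iff (algebraMap L E).injective]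
  obtain ⟨D, hD⟩ := exists_deriv t ht
  obtain ⟨P, hP1, hP2, hPe⟩ := exists_psys_min hL t ht D hD
  -- a derivation of `E`
  obtain ⟨Q, hQ⟩ : ∃ Q : PSys k E (Place k E), ∀ w, Q.pl w = plDV w := by
    obtain ⟨τ, hτ, hτs, -⟩ := Pool.Agent.Helper45.S6.exists_separating hE (algebraMap L E t) htE
    haveI := hτs
    obtain ⟨D', hD'⟩ := exists_deriv τ hτ
    obtain ⟨Q, -, hQ⟩ := exists_psys_aux hE τ hτ D' hD'
    exact ⟨Q, hQ⟩
  have hcardn : Nat.card (E ≃ₐ[k⟮t⟯] E) ≤ n.factorial := hcard.trans (Nat.factorial_le hn)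
  have hcardE : Nat.card (E ≃ₐ[k⟮t⟯] E) = Module.finrank k⟮t⟯ E :=
    IsGalois.card_aut_eq_finrank k⟮t⟯ E
  have hfin : Module.finrank L E ≤ n.factorial := by
    refine le_trans ?_ (hcardE ▸ hcardn)
    rw [← Module.finrank_mul_finrank k⟮t⟯ L E]
    exact Nat.le_mul_of_pos_left _ Module.finrank_pos
  have hfib : ∀ v, ∀ s : Finset (Place k E), (∀ w ∈ s, resPl hL w = v) →
      ∑ w ∈ s, ram hL w ≤ n.factorial := by
    intro v s hs
    obtain ⟨T, hT, hsum⟩ := sum_ram (M := E) hL v
    have hsT : s ⊆ T := fun w hw => (hT w).2 (hs w hw)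
    exact (Finset.sum_le_sum_of_subset hsT).trans (hsum.le.trans hfin)
  let gs : GalW P Q n.factorial :=
    { G := Finset.univ.image fun σ : E ≃ₐ[k⟮t⟯] E => σ.restrictScalars k
      card_G := Finset.card_image_le.trans (by
        rw [Finset.card_univ, ← Nat.card_eq_fintype_card]; exact hcardn)
      act := fun σ => actEquiv σ
      act_spec := fun σ _ w y => by
        rw [hQ, hQ]
        exact act_ord_apply σ w y
      res := fun w => resPl hL w
      ram := fun w => ram hL w
      ram_pos := fun w => ram_pos hL w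
      ram_spec := fun w y _ => by
        rw [hP2, hQ]
        exact ord_algebraMap hL w y
      fib := hfib
      wild := fun σ w => wildN hL σ w
      wild_spec := fun σ _ w hσ h1 y hy => by
        rw [hQ]
        have h2 := ou_wildN hL σ w hσ h1 y hy
        unfold OU at h2
        by_cases h0 : σ (algebraMap L E y) / algebraMap L E y - 1 = 0
        · exact Or.inl h0
        · right
          rw [val_le_exp_iff w _ h0] at h2
          change ((wildN hL σ w : ℕ) : ℝ) ≤
            ((w.ord (σ (algebraMap L E y) / algebraMap L E y - 1) : ℤ) : ℝ)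
          rw [neg_neg] at h2
          exact_mod_cast h2
      e_le := fun v hv => by
        obtain ⟨w, hw⟩ := exists_above (M := E) hL v
        obtain ⟨T, hT, -⟩ := sum_ram (M := L) hF (resPl hF v)
        obtain ⟨y, hy, hyU⟩ := exists_unif_unit hL v (T.erase v) (Finset.notMem_erase v T)
        obtain ⟨hDy, hDy'⟩ := hPe v hv y hy
        obtain ⟨s, hs, hDs⟩ := exists_param hL t ht D hD v
        obtain ⟨S, hS1, hS2⟩ := exists_wild_bound (M := E) hF hL w D (P.e v)
          (by rw [hw]; exact psys_hB hP1 hP2 v) s (by rw [hw]; exact hs) (by rw [hw]; exact hDs)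
          y (by rw [hw]; exact hy)
          (fun v' hv' hne => by
            rw [hw] at hv' hne
            exact hyU v' (Finset.mem_erase.2 ⟨hne, (hT v').2 hv'⟩)) hDy
        rw [hw] at hS2
        have hr := ram_pos hL w
        have hsum : (P.e v : ℤ) ≤ ∑ τ ∈ S, ((wildN hL (τ.restrictScalars k) w : ℤ) + ram hL w) := by
          have h4 : (ram hL w : ℤ) * v.ord (D y) ≤ -(P.e v : ℤ) := by (clear * - hr hDy'; nlinarith)
          omega
        have hsum' : P.e v ≤ ∑ τ ∈ S, (wildN hL (τ.restrictScalars k) w + ram hL w) := by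
          exact_mod_cast hsum
        have hinj : Function.Injective (fun σ : E ≃ₐ[k⟮t⟯] E => σ.restrictScalars k) := by
          intro σ τ h
          ext x
          exact congrArg (fun f : E ≃ₐ[k] E => f x) h
        refine ⟨w, hw, S.image (fun σ : E ≃ₐ[k⟮t⟯] E => σ.restrictScalars k), ?_, ?_, ?_, ?_⟩
        · intro σ hσ
          obtain ⟨τ, -, rfl⟩ := Finset.mem_image.1 hσ
          exact Finset.mem_image_of_mem _ (Finset.mem_univ _)
        · rw [Finset.image_nonempty, Finset.nonempty_iff_ne_empty]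
          rintro rfl
          rw [Finset.sum_empty] at hsum'
          omega
        · intro σ hσ
          obtain ⟨τ, hτ, rfl⟩ := Finset.mem_image.1 hσ
          exact ⟨(hS1 τ hτ).1, y, (hS1 τ hτ).2⟩
        · rw [Finset.sum_image (fun σ _ τ _ h => hinj h)]
          exact hsum' }
  refine ⟨E, iE, iA, iB, h1, P, Q, D, gs, hP2, hQ, fun v => ?_, fun w => ?_, hD, hP1, ?_, ?_, h2⟩
  · rw [hP2]; exact resK_plDV hL v
  · rw [hQ]; exact resK_plDV hE w
  · intro σ hσ
    obtain ⟨τ, -, rfl⟩ := Finset.mem_image.1 hσ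
    exact ⟨τ, fun y => rfl⟩
  · intro y hy
    have h4 := (IsGalois.mem_bot_iff_fixed (F := k⟮t⟯) (E := E) y).2 (fun τ =>
      hy (τ.restrictScalars k) (Finset.mem_image_of_mem _ (Finset.mem_univ _)))
    exact IntermediateField.mem_bot.1 h4

/-- **GALW**: the wild Galois system in characteristic `p`. -/
theorem exists_galW (k L : Type) [Field k] [Field L] [Algebra k L] [IsAlgClosed k] (p : ℕ)
    [Fact p.Prime] [CharP k p] (t : L) (hL : IsFunctionField k L) (ht : Transcendental k t)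
    (hsep : Algebra.IsSeparable k⟮t⟯ L) (n : ℕ) (hn : Module.finrank k⟮t⟯ L ≤ n) :
    ∃ (E V W : Type) (_ : Field E) (_ : Algebra k E) (_ : Algebra L E) (_ : IsScalarTower k L E)
      (P : PSys k L V) (Q : PSys k E W) (gs : GalW P Q n.factorial),
      (∀ v, ResK k (P.pl v)) ∧ (∀ w, ResK k (Q.pl w)) ∧
      (∀ v, ∃ y : L, y ≠ 0 ∧ (P.pl v).o y = 1) ∧
      (∀ y, P.D y = 0 → ∃ z : L, z ^ p = y) ∧
      (∀ σ ∈ gs.G, ∃ τ : E ≃ₐ[k⟮t⟯] E, ∀ y, σ y = τ y) ∧
      (∀ σ ∈ gs.G, σ (algebraMap L E t) = algebraMap L E t) ∧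
      Algebra.IsAlgebraic L E := by
  obtain ⟨E, iE, iA, iB, iT, P, Q, D, gs, hP2, -, hP, hQ, hD, hPD, hτ, -, hfd⟩ :=
    exists_galW_gen hL t ht n hn
  haveI : CharP L p := charP_of_injective_algebraMap (algebraMap k L).injective p
  refine ⟨E, _, _, iE, iA, iB, iT, P, Q, gs, hP, hQ, ?_, ?_, hτ, ?_, inferInstance⟩
  · intro v
    rw [hP2]
    exact exists_ord_eq_one v
  · intro y hy
    rw [hPD] at hy
    exact exists_pow_of_deriv_eq_zero p t D hD y hy
  · intro σ hσ
    obtain ⟨τ, h⟩ := hτ σ hσ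
    rw [h]
    exact τ.commutes (AdjoinSimple.gen k t)

end main

end Pool.Agent.Helper45.GW

end
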