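import Pool.Agent.Helper23.MB.L04_ab0
import Pool.Agent.Helper23.MB.L04_ab1
import Pool.Agent.Helper23.MB.L04_ab2
import Pool.Agent.Helper23.MB.L04_ab3

/-!
Parts of Helper47.EN.Final, Helper38.DT.Main, Helper38.DT.Final, Helper38.DT.Adapter, Helper45.AbsP, Helper45.FinalRed
-/

attribute [-simp] Valuation.IsUniformizer.val
attribute [local instance 5000]
  Pool.Agent.Helper23.MB.Inst.rCharZero Pool.Agent.Helper23.MB.Inst.rALM
  Pool.Agent.Helper23.MB.Inst.rARM Pool.Agent.Helper23.MB.Inst.rALSM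
  Pool.Agent.Helper23.MB.Inst.rARSM Pool.Agent.Helper23.MB.Inst.rARRLE
  Pool.Agent.Helper23.MB.Inst.rALRLE Pool.Agent.Helper23.MB.Inst.rARRLT
  Pool.Agent.Helper23.MB.Inst.rALRLT Pool.Agent.Helper23.MB.Inst.rPMRLT
  Pool.Agent.Helper23.MB.Inst.rMPRLT Pool.Agent.Helper23.MB.Inst.rPMM
  Pool.Agent.Helper23.MB.Inst.rMPM Pool.Agent.Helper23.MB.Inst.rPMSM
  Pool.Agent.Helper23.MB.Inst.rMPSM Pool.Agent.Helper23.MB.Inst.rEAOL
  Pool.Agent.Helper23.MB.Inst.rIOR Pool.Agent.Helper23.MB.Inst.rISOR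
  Pool.Agent.Helper23.MB.Inst.rNZD Pool.Agent.Helper23.MB.Inst.zCharZero
  Pool.Agent.Helper23.MB.Inst.zALM Pool.Agent.Helper23.MB.Inst.zARM
  Pool.Agent.Helper23.MB.Inst.zIOR Pool.Agent.Helper23.MB.Inst.zISOR
  Pool.Agent.Helper23.MB.Inst.zNZD Pool.Agent.Helper23.MB.Inst.qCharZero
  Pool.Agent.Helper23.MB.Inst.free Pool.Agent.Helper23.MB.Inst.faith
  Pool.Agent.Helper23.MB.Inst.torsionFree Pool.Agent.Helper23.MB.Inst.rfFaith
  Pool.Agent.Helper23.MB.Inst.hAdd Pool.Agent.Helper23.MB.Inst.hAddM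
  Pool.Agent.Helper23.MB.Inst.hMul Pool.Agent.Helper23.MB.Inst.hMon
  Pool.Agent.Helper23.MB.Inst.hZero Pool.Agent.Helper23.MB.Inst.hOne
  Pool.Agent.Helper23.MB.Inst.hMZ Pool.Agent.Helper23.MB.Inst.hRing
  Pool.Agent.Helper23.MB.Inst.aAdd Pool.Agent.Helper23.MB.Inst.aAddM
  Pool.Agent.Helper23.MB.Inst.aMul Pool.Agent.Helper23.MB.Inst.aMon
  Pool.Agent.Helper23.MB.Inst.aZero Pool.Agent.Helper23.MB.Inst.aOne
  Pool.Agent.Helper23.MB.Inst.aMZ Pool.Agent.Helper23.MB.Inst.aRing

namespace Pool.Agent.Helper16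
end Pool.Agent.Helper16
namespace Pool.Agent.Helper33.PS
end Pool.Agent.Helper33.PS
namespace Pool.Agent.Helper33.PT
end Pool.Agent.Helper33.PT
namespace Pool.Agent.Helper34.Dep
end Pool.Agent.Helper34.Dep
namespace Pool.Agent.Helper45.FF
end Pool.Agent.Helper45.FF
namespace Pool.Agent.Helper45.FR
end Pool.Agent.Helper45.FR
namespace Pool.Agent.Helper45.S4
end Pool.Agent.Helper45.S4
namespace Pool.Agent.Helper45.S6
end Pool.Agent.Helper45.S6
namespace Pool.Agent.Helper47.EN
end Pool.Agent.Helper47.EN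
namespace Pool.Agent.Helper47.RR
end Pool.Agent.Helper47.RR
namespace Pool.Agent.Helper93.RatODE
end Pool.Agent.Helper93.RatODE

section

set_option autoImplicit false

set_option linter.style.haveILetI false

namespace Pool.Agent.Helper47.EN

open Pool.Agent.Helper16 Pool.Agent.Helper45.S4 Pool.Agent.Helper47.RR IntermediateField

variable {k M : Type} [Field k] [Field M] [Algebra k M]

section main

variable [IsAlgClosed k] (hM : IsFunctionField k M)

/-- **The rational quotient theorem.** -/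
theorem rational_quotient (hM : IsFunctionField k M) (φ : M →ₐ[k] M)
    (hsep : 2 ≤ Field.finSepDegree φ.fieldRange M) (h : M) (hh : Transcendental k h)
    (hφ : φ h ∈ k⟮h⟯) :
    ∃ (i : ℕ) (y : M), 1 ≤ i ∧ i ≤ Module.finrank k⟮h⟯ M ∧ Transcendental k y ∧
      (φ ^ i) y ∈ k⟮y⟯ ∧
      Module.finrank k⟮y⟯ M ≤
        2 * (2 * Module.finrank k⟮h⟯ M + Module.finrank k⟮(φ ^ i) h⟯ M) + 1 ∧
      ∀ (γ : M ≃+* M) (γ₀ : k ≃+* k), (∀ c, γ (algebraMap k M c) = algebraMap k M (γ₀ c)) →
        (∀ x, γ (φ x) = φ (γ x)) →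
        ∃ a b c d : k, a * d - b * c ≠ 0 ∧ algebraMap k M c * y + algebraMap k M d ≠ 0 ∧
          γ y = (algebraMap k M a * y + algebraMap k M b) /
            (algebraMap k M c * y + algebraMap k M d) := by
  have hg := Helper31.RRK.genus_le_one_of_finSepDegree hM φ hsep
  have hg0 := genus_nonneg hM
  have hns : ¬ Function.Surjective φ := by
    intro hs
    have h1 : φ.fieldRange = ⊤ := by
      rw [eq_top_iff]
      intro x _
      obtain ⟨y, hy⟩ := hs x
      exact ⟨y, hy⟩
    rw [h1] at hsep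
    haveI : IsPurelyInseparable (⊤ : IntermediateField k M) M := by
      refine ⟨⟨fun x => ?_⟩, fun x _ => ⟨⟨x, mem_top⟩, rfl⟩⟩
      exact isIntegral_algebraMap (R := (⊤ : IntermediateField k M)) (x := ⟨x, mem_top⟩)
    have h2 : Field.finSepDegree (⊤ : IntermediateField k M) M = 1 :=
      IsPurelyInseparable.finSepDegree_eq_one _ _
    omega
  obtain ⟨i, hi1, hi2, O, hO⟩ := exists_periodic hM φ h hh hφ
  have hne : (φ ^ i) h ≠ h := fun heq => hns (surjective_of_pow_eq hM φ h hh i hi1 heq)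
  rcases (show genus k M = 0 ∨ genus k M = 1 by omega) with hg | hg
  · -- genus zero
    obtain ⟨y, hy, htop⟩ := Helper84.RRE.genus_zero hM hg
    refine ⟨i, y, hi1, hi2, hy, ?_, ?_, ?_⟩
    · rw [htop]; exact mem_top
    · rw [htop, IntermediateField.finrank_top]
      omega
    · intro γ γ₀ hγ hcomm
      apply moebius_of_stable y hy γ γ₀ hγ
      · rw [htop]; exact mem_top
      · rw [htop]; exact mem_top
  · obtain ⟨y, hy, h1, h2, h3⟩ := quotient_genus_one hM hg (φ ^ i) h hne hh O hO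
    refine ⟨i, y, hi1, hi2, hy, h1 y (mem_adjoin_simple_self k y), h2.trans (Nat.le_succ _), ?_⟩
    intro γ γ₀ hγ hcomm
    have hcomm' := pow_comm φ γ hcomm i
    apply moebius_of_stable y hy γ γ₀ hγ
    · exact h3 γ γ₀ hγ hcomm' y (mem_adjoin_simple_self k y)
    · exact h3 γ.symm γ₀.symm (symm_semi γ γ₀ hγ) (symm_comm _ γ hcomm') y
        (mem_adjoin_simple_self k y)

end main

end Pool.Agent.Helper47.EN

end

section

set_option autoImplicit false

set_option linter.style.haveILetI false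

namespace Pool.Agent.Helper38.DT

open Polynomial IntermediateField Pool.Agent.Helper16 Pool.Agent.Helper45.S4 Pool.Agent.Helper45.FR
  Pool.Agent.Helper93.RatODE Pool.Agent.Helper45.S6 Pool.Agent.Helper47.EN Pool.Agent.Helper34.Dep

theorem quotStmt : QuotStmt := by
  intro k M _ _ _ _ hM phi hsep h hh hphi
  exact rational_quotient hM phi hsep h hh hphi

theorem indep_of_partA (k : Type) [Field k] [IsAlgClosed k] (d n : ℕ) (hd : 2 ≤ d)
    (hPA : ∀ m, PartAStmt d n m) (hIH : ∀ d' n' : ℕ, 2 ≤ d' → n' < n → AbsS k d' n') :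
    Indep k d n :=
  indep_of_abs_core k d n hd hPA quotStmt corrStmt hIH

end Pool.Agent.Helper38.DT

end

section

set_option autoImplicit false

namespace Pool.Agent.Helper38.DT

open Pool.Agent.Helper45.S6

/-- **Independence of conjugate orbits**: assuming the theorem for function fields of smaller
degree over `k(t)`, every relation of bounded bidegree between a long orbit and a conjugate orbit
forces the rational function to be conjugate to a constant one. -/
theorem indep_of_abs (k : Type) [Field k] [IsAlgClosed k] (d n : ℕ) (hd : 2 ≤ d)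
    (hIH : ∀ d' n' : ℕ, 2 ≤ d' → n' < n → AbsS k d' n') : Indep k d n :=
  indep_of_partA k d n hd (fun m => partAStmt d n m hd) hIH

end Pool.Agent.Helper38.DT

end

section

set_option autoImplicit false

set_option linter.style.haveILetI false

namespace Pool.Agent.Helper38.DT

open Polynomial IntermediateField Pool.Agent.Helper16 Pool.Agent.Helper45.FR
  Pool.Agent.Helper45.S6 Pool.Agent.Helper33.PS

/-- **Independence of conjugate orbits** for Plan T, from the theorem for smaller degrees. -/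
theorem planT_of_abs (k : Type) [Field k] [IsAlgClosed k] (d n : ℕ) (hd : 2 ≤ d)
    (hIH : ∀ d' n' : ℕ, 2 ≤ d' → n' < n → AbsS k d' n') (m : ℕ) :
    ∃ N : ℕ, ∀ (L : Type) [Field L] [Algebra k L] (t : L), IsFunctionField k L →
      Transcendental k t → Algebra.IsSeparable k⟮t⟯ L → Module.finrank k⟮t⟯ L ≤ n →
      ∀ F G : L[X], IsCoprime F G → F.natDegree ≤ d → G.natDegree ≤ d →
        (F.coeff d ≠ 0 ∨ G.coeff d ≠ 0) → ∀ x : ℕ → L, RatOrbit F G x N →
        ∀ (E : Type) [Field E] [Algebra k E] [Algebra L E] [IsScalarTower k L E]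
          [Algebra.IsAlgebraic L E] (σ : E ≃ₐ[k] E), σ (algebraMap L E t) = algebraMap L E t →
        (∃ a : L, σ (algebraMap L E a) ≠ algebraMap L E a) →
        ∀ q : Polynomial (Polynomial E), q ≠ 0 → q.natDegree < m →
          (∀ i, (q.coeff i).natDegree < m) →
          (∀ j ≤ N, (q.eval (C (σ (algebraMap L E (x j))))).eval (algebraMap L E (x j)) = 0) →
          ConstConj k F G d :=
  planT_of_indep (indep_of_abs k d n hd hIH) m

/-- The last hypothesis of `PlanTAbs`, for all function fields of degree `≤ n` at once. -/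
theorem exists_wm (k : Type) [Field k] [IsAlgClosed k] (d n : ℕ) (hd : 2 ≤ d)
    (hIH : ∀ d' n' : ℕ, 2 ≤ d' → n' < n → AbsS k d' n') :
    ∃ wm : ℕ → ℕ, ∀ (L : Type) [Field L] [Algebra k L] (t : L), IsFunctionField k L →
      Transcendental k t → Algebra.IsSeparable k⟮t⟯ L → Module.finrank k⟮t⟯ L ≤ n →
      ∀ (E : Type) [Field E] [Algebra k E] [Algebra L E] [IsScalarTower k L E]
        [Algebra.IsAlgebraic L E] (F G : L[X]), ¬ ConstConj k F G d →
      ∀ (F' G' : L[X]) (z : ℕ → L) (m : ℕ), IsRat F' G' d → RatOrbit F' G' z (wm m) →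
      (ConstConj k F' G' d → ConstConj k F G d) →
      ∀ σ : E ≃ₐ[k] E, σ (algebraMap L E t) = algebraMap L E t →
      (∃ y : L, σ (algebraMap L E y) ≠ algebraMap L E y) →
      ∀ q : Polynomial (Polynomial E), q ≠ 0 → q.natDegree < m → (∀ i, (q.coeff i).natDegree < m) →
      ∃ j ≤ wm m, (q.eval (C (σ (algebraMap L E (z j))))).eval (algebraMap L E (z j)) ≠ 0 := by
  choose wm hwm using planT_of_abs k d n hd hIH
  refine ⟨wm, ?_⟩
  intro L _ _ t hL ht hsep hfin E _ _ _ _ _ F G hFG F' G' z m hR hz himp σ hσt hσ q hq hq1 hq2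
  by_contra hcon
  push Not at hcon
  exact hFG (himp (hwm m L t hL ht hsep hfin F' G' hR.cop hR.dA hR.dB hR.top z hz E σ hσt hσ q hq
    hq1 hq2 hcon))

end Pool.Agent.Helper38.DT

end

section

set_option autoImplicit false

set_option linter.style.haveILetI false

namespace Pool.Agent.Helper45.M8

open Polynomial IntermediateField Pool.Agent.Helper16 Pool.Agent.Helper45.FF Pool.Agent.Helper45.FR
  Pool.Agent.Helper45.S6 Pool.Agent.Helper33.PS Pool.Agent.Helper33.PT

/-- one step of the induction -/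
theorem absT_step (k : Type) [Field k] [IsAlgClosed k] (p : ℕ) [Fact p.Prime] [CharP k p]
    (hT : ∀ (d n : ℕ) (wm : ℕ → ℕ), 2 ≤ d → PlanTAbs p d n wm) (d n : ℕ) (hd : 2 ≤ d)
    (hIH : ∀ d' n' : ℕ, 2 ≤ d' → n' < n → AbsS k d' n') : AbsT k p d n := by
  classical
  obtain ⟨wm, hwm⟩ := Pool.Agent.Helper38.DT.exists_wm k d n hd hIH
  obtain ⟨N, hN⟩ := hT d n.factorial wm hd
  refine ⟨N, ?_⟩
  intro L _ _ t hL ht hsep hn F G hFG hF hG htop x hx hcr
  by_contra hcon
  obtain ⟨E, V, W, iE, iA, iB, iT, P, Q, gs, hP, hQ, hu, hD, -, hσt, halg⟩ :=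
    Pool.Agent.Helper45.GW.exists_galW k L p t hL ht hsep n hn
  apply hcon
  refine hN k L E V W P Q hP hQ hu hD gs F G ⟨hFG, hF, hG, htop⟩ x hx hcr ?_
  intro F' G' z m hR hz himp σ hσ hmove q hq hq1 hq2
  exact hwm L t hL ht hsep hn E F G hcon F' G' z m hR hz himp σ (hσt σ hσ) hmove q hq hq1 hq2

/-- **The theorem on function fields in characteristic `p`**, from Plan T. -/
theorem absS_charP (k : Type) [Field k] [IsAlgClosed k] (p : ℕ) [Fact p.Prime] [CharP k p]
    (hT : ∀ (d n : ℕ) (wm : ℕ → ℕ), 2 ≤ d → PlanTAbs p d n wm) (n : ℕ) :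
    ∀ d : ℕ, 2 ≤ d → AbsS k d n := by
  induction n using Nat.strong_induction_on with
  | _ n ih =>
    intro d hd
    exact absS_of_absT k p d (by omega) n
      (absT_step k p hT d n hd fun d' n' hd' hn' => ih n' hn' d' hd')

end Pool.Agent.Helper45.M8

end

section

set_option autoImplicit false

set_option linter.style.haveILetI false

namespace Pool.Agent.Helper45.M8

open Pool.Agent.Helper45.S6 Pool.Agent.Helper33.PS Pool.Agent.Helper33.PT

/-- **The theorem on function fields in every characteristic**, from Plan T. -/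
theorem absS_all
    (hT : ∀ (p : ℕ) [Fact p.Prime] (d n : ℕ) (wm : ℕ → ℕ), 2 ≤ d → PlanTAbs p d n wm)
    (k : Type) [Field k] [IsAlgClosed k] (d : ℕ) (hd : 2 ≤ d) (n : ℕ) : AbsS k d n := by
  obtain ⟨p, hp⟩ := CharP.exists k
  rcases CharP.char_is_prime_or_zero k p with h | h
  · haveI : Fact p.Prime := ⟨h⟩
    exact absS_charP k p (hT p) n d hd
  · subst h
    haveI : CharZero k := CharP.charP_to_charZero k
    exact absS_charZero k d hd n

end Pool.Agent.Helper45.M8

end
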